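import Mathlib

/-!
Generic families of nonexpanding self maps of the Cantor set (a Mycielski type fusion done by the
Baire category theorem), and selections from Borel covers of the group they generate.
-/

set_option autoImplicit false

open Set Filter Topology Function

namespace Pool.Agent.H33.BG1

abbrev C : Type := ℕ → Bool
abbrev Z : Type := ℕ → ℤ

def Ag {α : Type} (k : ℕ) (x y : ℕ → α) : Prop := ∀ j < k, x j = y j

def NE {α : Type} (f : C → ℕ → α) : Prop := ∀ k x y, Ag k x y → Ag k (f x) (f y)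

def res (l : ℕ) (x : C) : Fin l → Bool := fun i => x i

def ext {l : ℕ} (s : Fin l → Bool) : C := fun k => if h : k < l then s ⟨k, h⟩ else false

abbrev EE : Type := ℕ → (k : ℕ) → (Fin (k + 1) → Bool) → Bool

def hat (e : EE) (q : ℕ) (x : C) : C := fun k => if k < q then x k else e q k (res (k + 1) x)

abbrev I (l : ℕ) : Type := Fin l × (Fin l → Bool)

def Node (l : ℕ) (x : I l → C) : Prop := ∀ i, res l (x i) = i.2

def Ph (l : ℕ) (e : EE) (x : I l → C) : I l → C := fun i => hat e i.1 (x i)

theorem res_ext {l : ℕ} (s : Fin l → Bool) : res l (ext s) = s := by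
  funext i; simp [res, ext]

theorem res_eq {l : ℕ} {x y : C} : res l x = res l y ↔ Ag l x y :=
  ⟨fun h j hj => congrFun h ⟨j, hj⟩, fun h => funext fun i => h i i.2⟩

theorem hat_ne (e : EE) (q : ℕ) : NE (hat e q) := fun k x y h j hj => by
  have : res (j + 1) x = res (j + 1) y := res_eq.2 fun i hi => h i (by omega)
  simp only [hat, h j hj, this]

theorem hat_ag (e : EE) (q : ℕ) (x : C) : Ag q (hat e q x) x := fun j hj => by simp [hat, hj]

theorem cont_res (l : ℕ) : Continuous (res l) := continuous_pi fun _ => continuous_apply _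

theorem cont_hat (q : ℕ) : Continuous fun p : EE × C => hat p.1 q p.2 := by
  refine continuous_pi fun k => ?_
  unfold hat
  split_ifs
  · fun_prop
  · have : Continuous fun p : EE × (Fin (k + 1) → Bool) => p.1 q k p.2 :=
      continuous_prod_of_discrete_right.2 fun b => (continuous_apply b).comp
        ((continuous_apply k).comp (continuous_apply q))
    exact this.comp (continuous_fst.prodMk ((cont_res _).comp continuous_snd))

theorem open_A (l : ℕ) {u : Set (I l → C)} (hu : IsOpen u) :
    IsOpen {e : EE | ∀ x, Node l x → Ph l e x ∈ u} := by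
  have h1 : Continuous fun p : EE × (I l → C) => Ph l p.1 p.2 := continuous_pi fun i =>
    (cont_hat i.1).comp (continuous_fst.prodMk ((continuous_apply i).comp continuous_snd))
  have h2 : IsClosed {p : EE × (I l → C) | Node l p.2} := by
    simp only [Node, ofPred_forall]
    exact isClosed_iInter fun i => isClosed_eq
      ((cont_res l).comp ((continuous_apply i).comp continuous_snd)) continuous_const
  have := isClosedMap_fst_of_compactSpace _ (h2.inter (hu.preimage h1).isClosed_compl)
  rw [← isClosed_compl_iff]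
  convert this using 1
  ext e
  simp

theorem dense_of (S : Set EE) (l : ℕ) (h : ∀ L ≥ l, ∃ D : Set (I L → C), Dense D ∧ ∀ y ∈ D,
    ∀ e : EE, (∀ (q : Fin L) x, hat e q x = y (q, res L x)) → e ∈ S) : Dense S := fun e₀ => by
  have : ∀ L, ∃ e : EE, (∀ q, ∀ k < L, e q k = e₀ q k) ∧ (l ≤ L → e ∈ S) := fun L => by
    rcases em (l ≤ L) with hL | hL
    swap
    · exact ⟨e₀, fun _ _ _ => rfl, fun h => (hL h).elim⟩
    obtain ⟨D, D1, D2⟩ := h L hL
    have hO : IsOpen {y : I L → C | ∀ i, res L (y i) = res L (hat e₀ i.1 (ext i.2))} := by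
      simp only [ofPred_forall]
      exact isOpen_iInter_of_finite fun i =>
        (isOpen_discrete {_}).preimage ((cont_res L).comp (continuous_apply i))
    obtain ⟨y, y1, y2⟩ := D1.inter_open_nonempty _ hO ⟨_, fun _ => rfl⟩
    refine ⟨fun q k s => if hk : k < L then e₀ q k s else if hq : q < L then
      y (⟨q, hq⟩, fun i => s ⟨i, by omega⟩) k else false, fun q k hk => by simp [hk],
      fun _ => D2 y y2 _ fun q x => funext fun k => ?_⟩
    rcases em (k < L) with hk | hk
    · have a := res_eq.1 (y1 (q, res L x)) k hk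
      have b := hat_ne e₀ q L _ _ (res_eq.1 (res_ext (res L x))) k hk
      rw [a, b]
      simp [hat, hk]
    · have : ¬ k < q := by omega
      simp only [hat, hk, this, q.2, if_false, dite_false, dite_true]
      rfl
  choose e e1 e2 using this
  refine mem_closure_of_tendsto (f := e) (b := atTop) ?_ ((eventually_ge_atTop l).mono e2)
  refine tendsto_pi_nhds.2 fun q => tendsto_pi_nhds.2 fun k => tendsto_const_nhds.congr' ?_
  filter_upwards [eventually_gt_atTop k] with L hL using (e1 L q k hL).symm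

theorem dense_comp {α β : Type} {ι : α → β} (hι : Injective ι) {D : Set (α → C)} (hD : Dense D) :
    Dense {y : β → C | y ∘ ι ∈ D} := fun y => by
  have h1 : Continuous fun z : α → C => extend ι z y := continuous_pi fun b => by
    rcases em (∃ a, ι a = b) with ⟨a, rfl⟩ | h
    · simp only [hι.extend_apply]; fun_prop
    · simp only [extend_apply' _ _ _ h]; fun_prop
  have h2 : extend ι (y ∘ ι) y = y := funext fun b => by
    rcases em (∃ a, ι a = b) with ⟨a, rfl⟩ | h
    · simp [hι.extend_apply]
    · exact extend_apply' _ _ _ h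
  have := map_mem_closure (t := {y : β → C | y ∘ ι ∈ D}) h1 (hD (y ∘ ι)) fun z hz => by
    show extend ι z y ∘ ι ∈ D
    rwa [extend_comp hι]
  rwa [h2] at this

theorem resid_A (l : ℕ) {R : Set (I l → C)} (hR : R ∈ residual (I l → C)) :
    ∀ᶠ e in residual EE, ∀ x, Node l x → Ph l e x ∈ R := by
  obtain ⟨S, S1, S2, S3, S4⟩ := mem_residual_iff.1 hR
  have : ∀ᶠ e in residual EE, ∀ D ∈ S, ∀ x, Node l x → Ph l e x ∈ D := by
    refine (eventually_countable_ball S3).2 fun D hD => residual_of_dense_open
      (open_A l (S1 D hD)) (dense_of _ l fun L hL => ⟨⋂ ι : {ι : I l → I L // Injective ι},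
        {y | y ∘ ι.1 ∈ D}, dense_iInter_of_isOpen (fun ι => (S1 D hD).preimage (by fun_prop))
        fun ι => dense_comp ι.2 (S2 D hD), fun y hy e he x hx => ?_⟩)
    have hι : Injective fun i : I l => ((Fin.castLE hL i.1, res L (x i)) : I L) := fun i j h => by
      have a := Fin.castLE_injective hL (congrArg Prod.fst h)
      have b : Ag L _ _ := res_eq.1 (congrArg Prod.snd h)
      exact Prod.ext a (by rw [← hx i, ← hx j]; exact res_eq.2 fun k hk => b k (by omega))
    convert mem_iInter.1 hy ⟨_, hι⟩ using 1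
    show _ ↔ _ ∈ D
    rw [show Ph l e x = y ∘ _ from funext fun i => he (Fin.castLE hL i.1) (x i)]
  exact this.mono fun e he x hx => S4 fun D hD => he D hD x hx

theorem resid_sel (m : ℕ) (B : (l : ℕ) → ℕ → Set (I l → C)) (hB : ∀ l i, MeasurableSet (B l i))
    (hc : ∀ l z, ∃ i, z ∈ B l i) :
    ∀ᶠ e in residual EE, ∃ l ≥ m, ∃ i, ∀ x, Node l x → Ph l e x ∈ B l i := by
  choose u u1 u2 using fun l i => (hB l i).residualEq_isOpen
  have hR : ∀ l, ∀ᶠ z in residual (I l → C), ∀ i, z ∈ B l i ↔ z ∈ u l i := fun l =>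
    eventually_countable_forall.2 fun i => (u2 l i).mem_iff
  have h1 := eventually_countable_forall.2 fun l => resid_A l (hR l)
  have h2 : {e : EE | ∃ l ≥ m, ∃ i, ∀ x, Node l x → Ph l e x ∈ u l i} ∈ residual EE := by
    refine residual_of_dense_open ?_ (dense_of _ m fun L hL =>
      ⟨_, dense_of_mem_residual (hR L), fun y hy e he => ?_⟩)
    · simp only [ofPred_exists, ofPred_and]
      refine isOpen_iUnion fun l => (isOpen_const).inter ?_
      exact isOpen_iUnion fun i => open_A l (u1 l i)
    · obtain ⟨i, hi⟩ := hc L y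
      refine ⟨L, hL, i, fun x hx => ?_⟩
      rw [show Ph L e x = y from funext fun i => by rw [Ph, he, hx]]
      exact (hy i).1 hi
  filter_upwards [h1, h2] with e a ⟨l, hl, i, b⟩
  exact ⟨l, hl, i, fun x hx => (a l x hx i).2 (b x hx)⟩

theorem resid_inj (l : ℕ) : {z : I l → C | Injective z} ∈ residual (I l → C) := by
  have : ∀ᶠ z in residual (I l → C), ∀ p : I l × I l, z p.1 = z p.2 → p.1 = p.2 := by
    refine eventually_countable_forall.2 fun ⟨i, j⟩ => ?_
    rcases eq_or_ne i j with h | h
    · exact .of_forall fun _ _ => h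
    refine mem_of_superset (residual_of_dense_open (s := {z : I l → C | z i ≠ z j})
      (isOpen_ne_fun (by fun_prop) (by fun_prop)) fun z => ?_) fun z a b => (a b).elim
    refine mem_closure_of_tendsto (f := fun k => update z i (update (z i) k (!(z j k))))
      (b := atTop) ?_ (.of_forall fun k hk => ?_)
    · refine tendsto_pi_nhds.2 fun a => tendsto_pi_nhds.2 fun k => tendsto_const_nhds.congr' ?_
      filter_upwards [eventually_gt_atTop k] with L hL
      rcases eq_or_ne a i with rfl | h
      · simp [hL.ne]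
      · simp [h]
    · simpa [h.symm] using congrFun hk k
  exact this.mono fun z hz i j => hz (i, j)

theorem tuple (s : Finset (ℕ × C)) : ∀ᶠ l in atTop, ∃ (ι : s → I l) (x : I l → C),
    Injective ι ∧ Node l x ∧ ∀ a, ((ι a).1 : ℕ) = a.1.1 ∧ x (ι a) = a.1.2 := by
  have h1 : ∀ᶠ l in atTop, ∀ a : s, a.1.1 < l :=
    eventually_all.2 fun a => eventually_gt_atTop _
  have h2 : ∀ᶠ l in atTop, ∀ a b : s, Ag l a.1.2 b.1.2 → a.1.2 = b.1.2 := by
    refine eventually_all.2 fun a => eventually_all.2 fun b => ?_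
    rcases eq_or_ne a.1.2 b.1.2 with h | h
    · exact .of_forall fun _ _ => h
    · obtain ⟨k, hk⟩ := ne_iff.1 h
      filter_upwards [eventually_gt_atTop k] with l hl h using (hk (h k hl)).elim
  filter_upwards [h1, h2] with l a b
  have hι : Injective fun i : s => ((⟨i.1.1, a i⟩, res l i.1.2) : I l) := fun i j h =>
    Subtype.ext (Prod.ext (congrArg (fun p : I l => (p.1 : ℕ)) h)
      (b i j (res_eq.1 (congrArg Prod.snd h))))
  refine ⟨_, extend _ (fun i : s => i.1.2) fun i => ext i.2, hι, fun i => ?_,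
    fun i => ⟨rfl, hι.extend_apply _ _ _⟩⟩
  rcases em (∃ j : s, ((⟨j.1.1, a j⟩, res l j.1.2) : I l) = i) with ⟨j, rfl⟩ | h
  · rw [hι.extend_apply]
  · rw [extend_apply' _ _ _ h, res_ext]

theorem fusion (φ : ℕ → C → Z) (hφ : ∀ q, Continuous (φ q)) (W : ℕ → ℕ → Set Z)
    (hW : ∀ m i, MeasurableSet (W m i)) (H : Submodule ℤ Z) (hH : ∀ q x, φ q x ∈ H)
    (hc : ∀ m, ∀ F : Set Z, F.Finite → F ⊆ H → ∃ i, F ⊆ W m i) :
    ∃ h : ℕ → C → C, (∀ q, NE (h q) ∧ Injective (h q) ∧ ∀ x, Ag q (h q x) x) ∧
      ∃ sel : ℕ → ℕ, ∀ g ∈ Submodule.span ℤ (range fun a : ℕ × C => φ a.1 (h a.1 a.2)),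
        ∀ᶠ m in atTop, g ∈ W m (sel m) := by
  classical
  have h1 := eventually_countable_forall.2 fun m => resid_sel m
    (fun l i => {z | ∀ c : I l → ℤ, (∀ j, c j ∈ Icc (-l : ℤ) l) →
      ∑ j, c j • φ j.1 (z j) ∈ W m i}) (fun l i => by
      simp only [ofPred_forall]
      refine .iInter fun c => .iInter fun _ => (hW m i).preimage (Continuous.measurable ?_)
      exact continuous_finsetSum _ fun j _ =>
        Continuous.const_smul (g := fun x : I l → C => φ j.1 (x j))
          ((hφ _).comp (continuous_apply j)) (c j)) fun l z => by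
      obtain ⟨i, hi⟩ := hc m ((fun c : I l → ℤ => ∑ j, c j • φ j.1 (z j)) ''
        {c | ∀ j, c j ∈ Icc (-l : ℤ) l}) ((Finite.pi' fun _ => finite_Icc _ _).image _)
        (forall_mem_image.2 fun c _ => H.sum_mem fun j _ => H.smul_mem _ (hH _ _))
      exact ⟨i, fun c hc => hi ⟨c, hc, rfl⟩⟩
  have h2 := eventually_countable_forall.2 fun l => resid_A l (resid_inj l)
  obtain ⟨e, e1, e2⟩ := (dense_of_mem_residual (h1.and h2)).nonempty
  choose l l1 sel l2 using e1
  refine ⟨hat e, fun q => ⟨hat_ne e q, fun x y hxy => ?_, hat_ag e q⟩, sel, fun g hg => ?_⟩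
  · obtain ⟨l, ι, z, a, b, c⟩ := (tuple {(q, x), (q, y)}).exists
    have := a (e2 l z b (a₁ := ι ⟨(q, x), by simp⟩) (a₂ := ι ⟨(q, y), by simp⟩)
      (by simp only [Ph, c, hxy]))
    exact congrArg (fun p => p.1.2) this
  · obtain ⟨c, rfl⟩ := Finsupp.mem_span_range_iff_exists_finsupp.1 hg
    have a1 : ∀ᶠ l : ℕ in atTop, ∀ a : c.support, c a ∈ Icc (-l : ℤ) l :=
      eventually_all.2 fun a => by
        filter_upwards [eventually_ge_atTop (c a).natAbs] with l hl
        constructor <;> omega
    obtain ⟨m₀, hm⟩ := eventually_atTop.1 (a1.and (tuple c.support))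
    filter_upwards [eventually_ge_atTop m₀] with m hm'
    obtain ⟨b, ι, x, x1, x2, x3⟩ := hm (l m) (hm'.trans (l1 m))
    have := l2 m x x2 (extend ι (fun a => c a) 0) fun j => by
      rcases em (∃ a, ι a = j) with ⟨a, rfl⟩ | h
      · rw [x1.extend_apply]; exact b a
      · rw [extend_apply' _ _ _ h]; simp
    convert this using 1
    rw [Finsupp.sum, ← Finset.sum_coe_sort]
    refine Fintype.sum_of_injective ι x1 _ _ (fun j hj => ?_) fun a => ?_
    · rw [extend_apply' _ _ _ hj]; simp
    · simp only [x1.extend_apply, Ph, x3]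

end Pool.Agent.H33.BG1
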