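import Mathlib

/-!
Definitions around Grothendieck spaces in `C_p`-theory.
-/

open Set Filter Topology

namespace Pool.Agent.H33.GrothDefs

/-- `C_p(X)`: continuous real functions on `X` as a subspace of the product `X → ℝ`. -/
abbrev Cp (X : Type*) [TopologicalSpace X] : Type _ := {f : X → ℝ // Continuous f}

/-- `A` is countably compact in `Z`: each infinite subset of `A` has an accumulation point
in `Z`. -/
def CountablyCompactIn (Z : Type*) [TopologicalSpace Z] (A : Set Z) : Prop :=
  ∀ B : Set Z, B ⊆ A → B.Infinite → ∃ z : Z, AccPt z (𝓟 B)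

/-- `Z` is a g-space. -/
def IsGSpace (Z : Type*) [TopologicalSpace Z] : Prop :=
  ∀ A : Set Z, CountablyCompactIn Z A → IsCompact (closure A)

/-- `X` is Grothendieck: every subspace of `C_p(X)` is a g-space. -/
def IsGrothendieck (X : Type*) [TopologicalSpace X] : Prop :=
  ∀ Z : Set (Cp X), IsGSpace Z

/-- `X` is weakly Grothendieck: `C_p(X)` is a g-space. -/
def IsWeaklyGrothendieck (X : Type*) [TopologicalSpace X] : Prop :=
  IsGSpace (Cp X)

end Pool.Agent.H33.GrothDefs
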