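import Mathlib
import Pool.Agent.H33.GrothDefs

/-!
Basic tools for Grothendieck spaces.
-/

open Set Filter Topology

namespace Pool.Agent.H33.Groth

open Pool.Agent.H33.GrothDefs

/-- every sequence in `A` has a cluster point in `Z` -/
def SC {T : Type*} [TopologicalSpace T] (Z A : Set T) : Prop :=
  ∀ a : ℕ → T, (∀ n, a n ∈ A) → ∃ z ∈ Z, MapClusterPt z atTop a

theorem cc_iff {T : Type*} [TopologicalSpace T] [T1Space T] (A : Set T) :
    CountablyCompactIn T A ↔ SC univ A := by
  constructor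
  · intro h a ha
    by_cases hfin : (range a).Finite
    · have : ∃ y, ∃ᶠ n in atTop, a n = y := by
        by_contra hc
        push Not at hc
        have h2 := (eventually_all_finite hfin (l := atTop) (p := fun y n => a n ≠ y)).2
          fun y _ => hc y
        obtain ⟨n, hn⟩ := h2.exists
        exact hn (a n) (mem_range_self n) rfl
      obtain ⟨y, hy⟩ := this
      refine ⟨y, mem_univ _, mapClusterPt_iff_frequently.2 fun s hs => hy.mono fun n hn => ?_⟩
      rw [hn]
      exact mem_of_mem_nhds hs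
    · obtain ⟨z, hz⟩ := h _ (range_subset_iff.2 ha) hfin
      refine ⟨z, mem_univ _, mapClusterPt_iff_frequently.2 fun s hs => ?_⟩
      have h2 : (s ∩ range a).Infinite := Set.Infinite.of_accPt (hz.nhds_inter hs)
      rw [← Nat.cofinite_eq_atTop, frequently_cofinite_iff_infinite]
      intro h3
      refine h2 ((h3.image a).subset ?_)
      rintro _ ⟨hs, n, rfl⟩
      exact ⟨n, hs, rfl⟩
  · intro h B hB hi
    let a : ℕ ↪ B := hi.natEmbedding B
    obtain ⟨z, -, hz⟩ := h (fun n => a n) fun n => hB (a n).2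
    refine ⟨z, accPt_iff_nhds.2 fun U hU => ?_⟩
    have h2 := mapClusterPt_iff_frequently.1 hz U hU
    rw [← Nat.cofinite_eq_atTop, frequently_cofinite_iff_infinite] at h2
    have h3 : ((fun n => (a n : T)) '' {n | (a n : T) ∈ U}).Infinite :=
      h2.image (Subtype.val_injective.comp a.injective).injOn
    obtain ⟨y, ⟨n, hn, rfl⟩, hy⟩ := (h3.sdiff (finite_singleton z)).nonempty
    exact ⟨_, ⟨hn, (a n).2⟩, hy⟩

theorem SC.image {T T' : Type*} [TopologicalSpace T] [TopologicalSpace T'] {Z A : Set T}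
    {Z' : Set T'} (h : SC Z A) {f : T → T'} (hf : Continuous f) (hZ : MapsTo f Z Z') :
    SC Z' (f '' A) := by
  intro a ha
  choose b hb hba using ha
  obtain ⟨z, hz, hzb⟩ := h b hb
  refine ⟨f z, hZ hz, ?_⟩
  have := hzb.continuousAt_comp hf.continuousAt
  rwa [show f ∘ b = a from funext hba] at this

/-- ambient form of the g-space property -/
def GA {T : Type*} [TopologicalSpace T] (Z : Set T) : Prop :=
  ∀ A ⊆ Z, SC Z A → IsCompact (closure A) ∧ closure A ⊆ Z

theorem gspace_iff {W T : Type*} [TopologicalSpace W] [TopologicalSpace T] [T2Space T]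
    {j : W → T} (hj : IsEmbedding j) : IsGSpace W ↔ GA (range j) := by
  have := hj.t2Space
  constructor
  · intro h A hA hS
    have h1 : IsCompact (closure (j ⁻¹' A)) := by
      apply h
      rw [cc_iff]
      intro a ha
      obtain ⟨_, ⟨z, rfl⟩, hz⟩ := hS (fun n => j (a n)) ha
      exact ⟨z, mem_univ _, (hj.isInducing.mapClusterPt_iff).1 hz⟩
    have h2 := h1.image hj.continuous
    have h3 : closure A ⊆ j '' closure (j ⁻¹' A) := by
      refine closure_minimal (fun x hx => ?_) h2.isClosed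
      obtain ⟨w, rfl⟩ := hA hx
      exact ⟨w, subset_closure hx, rfl⟩
    exact ⟨h2.of_isClosed_subset isClosed_closure h3, h3.trans (image_subset_range _ _)⟩
  · intro h A hA
    rw [cc_iff] at hA
    obtain ⟨h1, h2⟩ := h (j '' A) (image_subset_range _ _)
      (hA.image hj.continuous fun z _ => mem_range_self z)
    rw [hj.isInducing.isCompact_iff, hj.isInducing.closure_eq_preimage_closure_image,
      image_preimage_eq_of_subset h2]
    exact h1

theorem wg_iff (X : Type*) [TopologicalSpace X] :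
    IsWeaklyGrothendieck X ↔ GA {f : X → ℝ | Continuous f} := by
  have := gspace_iff (W := Cp X) (IsEmbedding.subtypeVal)
  rwa [Subtype.range_coe_subtype] at this

theorem g_iff (X : Type*) [TopologicalSpace X] :
    IsGrothendieck X ↔ ∀ Z ⊆ {f : X → ℝ | Continuous f}, GA Z := by
  have h : ∀ Z : Set (Cp X), IsGSpace Z ↔ GA (Subtype.val '' Z) := fun Z => by
    have := gspace_iff (W := Z) (IsEmbedding.subtypeVal.comp IsEmbedding.subtypeVal)
    rwa [range_comp, Subtype.range_coe] at this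
  constructor
  · intro hX Z hZ
    have := (h (Subtype.val ⁻¹' Z)).1 (hX _)
    rwa [image_preimage_eq_of_subset (by rwa [Subtype.range_coe_subtype])] at this
  · intro hX Z
    refine (h Z).2 (hX _ ?_)
    rintro _ ⟨f, -, rfl⟩
    exact f.2

theorem SC.isCompact_closure {X : Type*} {Z A : Set (X → ℝ)} (h : SC Z A) :
    IsCompact (closure A) := by
  have h1 : ∀ x, ∃ C : ℝ, ∀ f ∈ A, |f x| ≤ C := by
    intro x
    by_contra hc
    push Not at hc
    choose a ha hax using fun n : ℕ => hc n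
    obtain ⟨z, -, hz⟩ := h a ha
    have h2 := mapClusterPt_iff_frequently.1 hz {f | |f x| < |z x| + 1}
      ((isOpen_lt (continuous_apply x).abs continuous_const).mem_nhds (by simp))
    obtain ⟨N, hN⟩ := exists_nat_gt (|z x| + 1)
    obtain ⟨n, hn1, hn2⟩ := (h2.and_eventually (eventually_ge_atTop N)).exists
    have := hax n
    have h3 : (N : ℝ) ≤ n := by exact_mod_cast hn2
    simp only [mem_ofPred_eq] at hn1
    linarith
  choose C hC using h1
  refine (isCompact_univ_pi fun x => isCompact_Icc (a := -C x) (b := C x)).of_isClosed_subset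
    isClosed_closure (closure_minimal (fun f hf x _ => abs_le.1 (hC x f hf))
      (isClosed_set_pi fun x _ => isClosed_Icc))

theorem exists_chain {α : Type*} (P : Set α → Prop) (S₀ : Set α) (h₀ : P S₀)
    (hU : ∀ S T, P S → P T → P (S ∪ T)) (Q : Set α → Set α → Prop)
    (hQ : ∀ S, P S → ∃ T, P T ∧ Q S T) :
    ∃ S : ℕ → Set α, Monotone S ∧ S 0 = S₀ ∧ (∀ n, P (S n)) ∧
      ∀ n, ∃ T ⊆ S (n + 1), Q (S n) T := by
  choose! Ψ hΨ hΨQ using hQ
  let S : ℕ → Set α := fun n => Nat.rec S₀ (fun _ T => T ∪ Ψ T) n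
  have hP : ∀ n, P (S n) := by
    intro n
    induction n with
    | zero => exact h₀
    | succ n ih => exact hU _ _ ih (hΨ _ ih)
  exact ⟨S, monotone_nat_of_le_succ fun n => subset_union_left, rfl, hP,
    fun n => ⟨Ψ (S n), subset_union_right, hΨQ _ (hP n)⟩⟩

/-- a countable subset which is dense for a countable family of functions -/
theorem exists_countable_dense_for {Y ι : Type*} [Countable ι] (u : ι → Y → ℝ) (D : Set Y) :
    ∃ C ⊆ D, C.Countable ∧ ∀ y ∈ D, (fun i => u i y) ∈ closure ((fun y i => u i y) '' C) := by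
  obtain ⟨C, hC, hCc, hCd⟩ :=
    (TopologicalSpace.IsSeparable.of_separableSpace ((fun y i => u i y) '' D)).exists_countable_dense_subset
  obtain ⟨C', hC', rfl, hc⟩ : ∃ C' ⊆ D, (fun y i => u i y) '' C' = C ∧ C'.Countable := by
    choose p hp hp' using fun c : C => hC c.2
    have := hCc.to_subtype
    refine ⟨range p, ?_, ?_, countable_range _⟩
    · rintro _ ⟨c, rfl⟩
      exact hp c
    · rw [← range_comp, show (fun y i => u i y) ∘ p = Subtype.val from funext hp',
        Subtype.range_coe]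
  exact ⟨C', hC', hc, fun y hy => hCd (mem_image_of_mem _ hy)⟩

theorem exists_seq_tendsto {Y ι : Type*} [Countable ι] (u : ι → Y → ℝ) (C : Set Y) (w : ι → ℝ)
    (h : w ∈ closure ((fun y i => u i y) '' C)) :
    ∃ d : ℕ → Y, (∀ n, d n ∈ C) ∧ ∀ i, Tendsto (fun n => u i (d n)) atTop (𝓝 (w i)) := by
  obtain ⟨s, hs, hst⟩ := mem_closure_iff_seq_limit.1 h
  choose d hd hds using hs
  refine ⟨d, hd, fun i => ?_⟩
  have := tendsto_pi_nhds.1 hst i
  simpa only [← hds] using this

theorem eq_of_cluster {T : Type*} [TopologicalSpace T] {a : ℕ → T} {z : T} {f : T → ℝ} {c : ℝ}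
    (hz : MapClusterPt z atTop a) (hf : Continuous f) (h : Tendsto (fun n => f (a n)) atTop (𝓝 c)) :
    f z = c := by
  have h1 := hz.continuousAt_comp hf.continuousAt
  exact eq_of_nhds_neBot (ClusterPt.mono h1 h)

theorem mem_closure_chain {Y ι : Type*} (u : ι → Y → ℝ) (w : ι → ℝ) (I : ℕ → Set ι)
    (hI : Monotone I) (C : Set Y)
    (h : ∀ n, (fun i : I n => w i) ∈ closure ((fun y (i : I n) => u i y) '' C)) :
    (fun i : (⋃ n, I n) => w i) ∈ closure ((fun y (i : (⋃ n, I n)) => u i y) '' C) := by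
  rw [mem_closure_iff_nhds]
  intro U hU
  rw [nhds_pi, Filter.mem_pi] at hU
  obtain ⟨J, hJ, t, ht, htU⟩ := hU
  obtain ⟨n, hn⟩ : ∃ n, ∀ j ∈ J, (j : ι) ∈ I n := by
    have := (eventually_all_finite hJ (l := atTop) (p := fun j n => (j : ι) ∈ I n)).2 fun j _ => by
      obtain ⟨m, hm⟩ := mem_iUnion.1 j.2
      exact (eventually_ge_atTop m).mono fun n hn => hI hn hm
    exact this.exists
  have h2 : {f : I n → ℝ | ∀ j (hj : j ∈ J), f ⟨j, hn j hj⟩ ∈ t j} ∈
      𝓝 (fun i : I n => w i) := by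
    have : {f : I n → ℝ | ∀ j (hj : j ∈ J), f ⟨j, hn j hj⟩ ∈ t j} =
        ⋂ j : J, (fun f : I n → ℝ => f ⟨j, hn j j.2⟩) ⁻¹' t j := by
      ext f
      simp
    rw [this]
    have := hJ.to_subtype
    exact iInter_mem.2 fun j => (continuous_apply _).continuousAt (ht j)
  obtain ⟨_, hy, y, hyC, rfl⟩ := mem_closure_iff_nhds.1 (h n) _ h2
  exact ⟨_, htU fun j hj => hy j hj, y, hyC, rfl⟩

theorem restrict_mem_closure {X : Type*} {A : Set (X → ℝ)} {g : X → ℝ} (hg : g ∈ closure A)
    (I : Set X) : (fun i : I => g i) ∈ closure ((fun (f : X → ℝ) (i : I) => f i) '' A) :=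
  map_mem_closure (f := fun (f : X → ℝ) (i : I) => f i) (by fun_prop) hg
    fun _ hf => mem_image_of_mem _ hf

/-- The double limit construction. -/
theorem double_limit {X : Type*} (A : Set (X → ℝ)) (g : X → ℝ) (hg : g ∈ closure A)
    (D : ℕ → Set X) (x : X) :
    ∃ (a : ℕ → X → ℝ) (C : Set X), (∀ n, a n ∈ A) ∧ x ∈ C ∧
      (∀ c ∈ C, Tendsto (fun n => a n c) atTop (𝓝 (g c))) ∧
      ∀ m, ∀ y ∈ D m, ∃ d : ℕ → X, (∀ n, d n ∈ C ∩ D m) ∧
        Tendsto (fun n => g (d n)) atTop (𝓝 (g y)) ∧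
        ∀ k, Tendsto (fun n => a k (d n)) atTop (𝓝 (a k y)) := by
  obtain ⟨S, hSm, hS0, hSP, hSQ⟩ := exists_chain (α := (X → ℝ) ⊕ X)
    (fun S => S.Countable ∧ ∀ f, Sum.inl f ∈ S → f ∈ insert g A) {Sum.inl g, Sum.inr x}
    ⟨by simp, by simp⟩ (fun S T hS hT => ⟨hS.1.union hT.1, fun f hf => hf.elim (hS.2 f) (hT.2 f)⟩)
    (fun S T => (fun i : Sum.inr ⁻¹' S => g i) ∈
        closure ((fun (f : X → ℝ) (i : Sum.inr ⁻¹' S) => f i) '' (A ∩ Sum.inl ⁻¹' T)) ∧
      ∀ m, ∀ y ∈ D m, (fun i : Sum.inl ⁻¹' S => i.1 y) ∈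
        closure ((fun y (i : Sum.inl ⁻¹' S) => i.1 y) '' (D m ∩ Sum.inr ⁻¹' T))) (by
    intro S hS
    have h1 : Countable (Sum.inr ⁻¹' S : Set X) := (hS.1.preimage Sum.inr_injective).to_subtype
    have h2 : Countable (Sum.inl ⁻¹' S : Set (X → ℝ)) :=
      (hS.1.preimage Sum.inl_injective).to_subtype
    obtain ⟨C₁, hC₁, hc₁, hd₁⟩ := exists_countable_dense_for
      (fun (i : Sum.inr ⁻¹' S) (f : X → ℝ) => f i) A
    choose C₂ hC₂ hc₂ hd₂ using fun m => exists_countable_dense_for
      (fun (i : Sum.inl ⁻¹' S) (y : X) => i.1 y) (D m)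
    refine ⟨Sum.inl '' C₁ ∪ ⋃ m, Sum.inr '' C₂ m, ⟨(hc₁.image _).union
      (countable_iUnion fun m => (hc₂ m).image _), ?_⟩, ?_, ?_⟩
    · intro f hf
      simp only [mem_union, mem_image, Sum.inl.injEq, exists_eq_right, mem_iUnion, reduceCtorEq,
        and_false, exists_false, or_false] at hf
      exact Or.inr (hC₁ hf)
    · refine closure_minimal ?_ isClosed_closure (restrict_mem_closure hg _)
      rintro _ ⟨f, hf, rfl⟩
      refine closure_mono (image_mono ?_) (hd₁ f hf)
      exact fun f' hf' => ⟨hC₁ hf', Or.inl ⟨f', hf', rfl⟩⟩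
    · intro m y hy
      refine closure_mono (image_mono ?_) (hd₂ m y hy)
      exact fun y' hy' => ⟨hC₂ m hy', Or.inr (mem_iUnion.2 ⟨m, y', hy', rfl⟩)⟩)
  have hc : (⋃ n, S n).Countable := countable_iUnion fun n => (hSP n).1
  have h1 : Countable (⋃ n, Sum.inr ⁻¹' S n : Set X) := by
    rw [← preimage_iUnion]
    exact (hc.preimage Sum.inr_injective).to_subtype
  have h2 : Countable (⋃ n, Sum.inl ⁻¹' S n : Set (X → ℝ)) := by
    rw [← preimage_iUnion]
    exact (hc.preimage Sum.inl_injective).to_subtype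
  obtain ⟨a, ha, hat⟩ := exists_seq_tendsto (fun (i : (⋃ n, Sum.inr ⁻¹' S n : Set X))
    (f : X → ℝ) => f i) (A ∩ ⋃ n, Sum.inl ⁻¹' S n) (fun i => g i) (by
      refine mem_closure_chain (fun (i : X) (f : X → ℝ) => f i) g _
        (fun n m h => preimage_mono (hSm h)) _ fun n => ?_
      obtain ⟨T, hT, h, -⟩ := hSQ n
      refine closure_mono (image_mono ?_) h
      exact fun f hf => ⟨hf.1, mem_iUnion.2 ⟨n + 1, hT hf.2⟩⟩)
  refine ⟨a, ⋃ n, Sum.inr ⁻¹' S n, fun n => (ha n).1, mem_iUnion.2 ⟨0, by simp [hS0]⟩,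
    fun c hc => hat ⟨c, hc⟩, fun m y hy => ?_⟩
  obtain ⟨d, hd, hdt⟩ := exists_seq_tendsto (fun (i : (⋃ n, Sum.inl ⁻¹' S n : Set (X → ℝ)))
    (y : X) => i.1 y) ((⋃ n, Sum.inr ⁻¹' S n) ∩ D m) (fun i => i.1 y) (by
      refine mem_closure_chain (fun (i : X → ℝ) (y : X) => i y) (fun i => i y) _
        (fun n m h => preimage_mono (hSm h)) _ fun n => ?_
      obtain ⟨T, hT, -, h⟩ := hSQ n
      refine closure_mono (image_mono ?_) (h m y hy)
      exact fun f hf => ⟨mem_iUnion.2 ⟨n + 1, hT hf.2⟩, hf.1⟩)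
  exact ⟨d, hd, hdt ⟨g, mem_iUnion.2 ⟨0, by simp [hS0]⟩⟩, fun k => hdt ⟨a k, (ha k).2⟩⟩

/-- A space with a dense countable union of relatively countably compact sets is Grothendieck. -/
theorem ga_of_dense {X : Type*} [TopologicalSpace X] (D : ℕ → Set X) (hD : Dense (⋃ m, D m))
    (hS : ∀ m, SC univ (D m)) (Z : Set (X → ℝ)) (hZ : Z ⊆ {f | Continuous f}) : GA Z := by
  intro A hA hSC
  refine ⟨hSC.isCompact_closure, fun g hg => ?_⟩
  have key : ∀ x, ∃ z ∈ Z, z x = g x ∧ EqOn z g (⋃ m, D m) := by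
    intro x
    obtain ⟨a, C, ha, hx, hC, hd⟩ := double_limit A g hg D x
    obtain ⟨z, hz, hza⟩ := hSC a ha
    have h1 : ∀ c ∈ C, z c = g c := fun c hc =>
      eq_of_cluster (f := fun f : X → ℝ => f c) hza (continuous_apply c) (hC c hc)
    refine ⟨z, hz, h1 x hx, fun y hy => ?_⟩
    obtain ⟨m, hm⟩ := mem_iUnion.1 hy
    obtain ⟨d, hdC, hgd, had⟩ := hd m y hm
    obtain ⟨y', -, hy'⟩ := hS m d fun n => (hdC n).2
    have h2 : ∀ k, a k y' = a k y := fun k => eq_of_cluster hy' (hZ (hA (ha k))) (had k)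
    have h3 : z y' - z y = 0 := eq_of_cluster (f := fun f : X → ℝ => f y' - f y) hza
      (by fun_prop) (by simp [h2])
    have h4 : z y' = g y := eq_of_cluster hy' (hZ hz) (by
      simpa only [fun n => h1 _ (hdC n).1] using hgd)
    linarith
  rcases isEmpty_or_nonempty X with hX | ⟨⟨x₀⟩⟩
  · obtain ⟨f, hf⟩ := closure_nonempty_iff.1 ⟨g, hg⟩
    rw [Subsingleton.elim g f]
    exact hA hf
  · obtain ⟨z, hz, -, hzD⟩ := key x₀
    have : g = z := by
      funext x
      obtain ⟨z', hz', hx, hzD'⟩ := key x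
      rw [← hx, Continuous.ext_on hD (hZ hz') (hZ hz) (hzD'.trans hzD.symm)]
    rwa [this]

theorem ga_of_compact {X : Type*} [TopologicalSpace X] [CompactSpace X] (Z : Set (X → ℝ))
    (hZ : Z ⊆ {f | Continuous f}) : GA Z :=
  ga_of_dense (fun _ => univ) (by simp [iUnion_const]) (fun _ a _ => by
    obtain ⟨z, hz⟩ := exists_clusterPt_of_compactSpace (map a atTop)
    exact ⟨z, mem_univ _, hz⟩) Z hZ

theorem ga_of_separable {X : Type*} [TopologicalSpace X] [TopologicalSpace.SeparableSpace X]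
    [Nonempty X] (Z : Set (X → ℝ)) (hZ : Z ⊆ {f | Continuous f}) : GA Z :=
  ga_of_dense (fun m => {TopologicalSpace.denseSeq X m})
    (by rw [iUnion_singleton_eq_range]; exact TopologicalSpace.denseRange_denseSeq X)
    (fun m a ha => ⟨TopologicalSpace.denseSeq X m, mem_univ _, by
      obtain rfl : a = fun _ => TopologicalSpace.denseSeq X m := funext ha
      exact tendsto_const_nhds.mapClusterPt⟩) Z hZ

/-- a criterion for not being weakly Grothendieck -/
theorem not_ga {W : Type*} [TopologicalSpace W] (ι : ℝ → W)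
    (hc : ∀ S : Set ℝ, S.Countable → IsClopen (ι '' S)) (hn : ¬ IsClosed (range ι)) :
    ¬ GA {f : W → ℝ | Continuous f} := by
  classical
  intro h
  have hcont : ∀ S : Set ℝ, S.Countable → Continuous ((ι '' S).indicator (1 : W → ℝ)) :=
    fun S hS => (hc S hS).continuous_indicator continuous_const
  obtain ⟨-, h2⟩ := h {f | ∃ S : Set ℝ, S.Countable ∧ f = (ι '' S).indicator 1}
    (by rintro _ ⟨S, hS, rfl⟩; exact hcont S hS) (by
      intro a ha
      choose S hS haS using ha
      have hK : IsCompact (univ.pi fun _ : W => ({0, 1} : Set ℝ)) :=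
        isCompact_univ_pi fun _ => (toFinite _).isCompact
      obtain ⟨q, hq, hqa⟩ := hK.exists_mapClusterPt (f := atTop) (u := a) (by
        rw [le_principal_iff, Filter.mem_map]
        refine Eventually.of_forall fun n w _ => ?_
        rw [haS n]
        by_cases hw : w ∈ ι '' S n <;> simp [indicator, hw])
      refine ⟨q, ?_, hqa⟩
      have h3 : q = (ι '' {r | r ∈ ⋃ n, S n ∧ q (ι r) = 1}).indicator 1 := by
        funext w
        by_cases hw : w ∈ ι '' {r | r ∈ ⋃ n, S n ∧ q (ι r) = 1}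
        · rw [indicator_of_mem hw]
          obtain ⟨r, hr, rfl⟩ := hw
          exact hr.2
        · rw [indicator_of_notMem hw]
          rcases hq w (mem_univ _) with h4 | h4
          · exact h4
          · refine eq_of_cluster (f := fun f : W → ℝ => f w) hqa (continuous_apply w) ?_
            have h5 : ∀ n, a n w = 0 := fun n => by
              rw [haS n, indicator_of_notMem]
              rintro ⟨r, hr, rfl⟩
              exact hw ⟨r, ⟨mem_iUnion.2 ⟨n, hr⟩, h4⟩, rfl⟩
            simp [h5]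
      rw [h3]
      exact hcont _ ((countable_iUnion hS).mono fun r hr => hr.1))
  have h3 : Continuous ((range ι).indicator (1 : W → ℝ)) := by
    apply h2
    rw [mem_closure_iff_nhds]
    intro U hU
    rw [nhds_pi, Filter.mem_pi] at hU
    obtain ⟨J, hJ, t, ht, htU⟩ := hU
    obtain ⟨S, hS, hSJ⟩ : ∃ S : Set ℝ, S.Countable ∧ ι '' S = J ∩ range ι := by
      choose p hp using fun c : ↥(J ∩ range ι) => c.2.2
      have := (hJ.inter_of_left (range ι)).to_subtype
      refine ⟨range p, countable_range _, ?_⟩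
      rw [← range_comp, show ι ∘ p = Subtype.val from funext hp, Subtype.range_coe]
    refine ⟨_, htU fun j hj => ?_, S, hS, rfl⟩
    have : (ι '' S).indicator (1 : W → ℝ) j = (range ι).indicator 1 j := by
      rw [hSJ]
      by_cases hw : j ∈ range ι
      · rw [indicator_of_mem hw, indicator_of_mem (mem_inter hj hw)]
      · rw [indicator_of_notMem hw, indicator_of_notMem fun h => hw h.2]
    rw [this]
    exact mem_of_mem_nhds (ht j)
  apply hn
  have : range ι = (range ι).indicator (1 : W → ℝ) ⁻¹' {1} := by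
    ext w
    by_cases hw : w ∈ range ι <;> simp [indicator, hw]
  rw [this]
  exact isClosed_singleton.preimage h3

end Pool.Agent.H33.Groth
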