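import Mathlib
import Pool.Agent.H33.Groth

/-!
Two examples for Grothendieck spaces.
-/

open Set Filter Topology Cardinal

namespace Pool.Agent.H33.GrothEx

open Pool.Agent.H33.GrothDefs Pool.Agent.H33.Groth

universe u v

theorem exists_rec {T : Type u} [LinearOrder T] [WellFoundedLT T] {α : Type v} (a₀ : α)
    (Φ : T → (T → α) → α) (hΦ : ∀ δ f f', (∀ i < δ, f i = f' i) → Φ δ f = Φ δ f') :
    ∃ f : T → α, ∀ δ, f δ = Φ δ f := by
  classical
  let f : T → α := (wellFounded_lt (α := T)).fix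
    (fun δ prev => Φ δ (fun i => if h : i < δ then prev i h else a₀))
  refine ⟨f, fun δ => ?_⟩
  have : f δ = Φ δ (fun i => if h : i < δ then f i else a₀) := by
    show (wellFounded_lt (α := T)).fix _ δ = _
    rw [WellFounded.fix_eq]
  rw [this]
  apply hΦ
  intro i hi
  simp [hi]

theorem exists_transversal {ι α : Type u} [Nonempty α] {κ : Cardinal.{u}} (hι : #ι ≤ κ)
    (F : ι → Set α) (hF : ∀ i, κ ≤ #(F i)) : ∃ f : ι → α, f.Injective ∧ ∀ i, f i ∈ F i := by
  classical
  obtain ⟨e⟩ : Nonempty (ι ↪ κ.ord.ToType) := by rw [← Cardinal.le_def, mk_ord_toType]; exact hι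
  let _ : LinearOrder ι := LinearOrder.lift' e e.injective
  have _ : WellFoundedLT ι := ⟨InvImage.wf e wellFounded_lt⟩
  have hlt : ∀ i : ι, #(Iio i) < κ := fun i =>
    lt_of_le_of_lt (mk_le_of_injective (f := fun j : Iio i => (⟨e j.1, j.2⟩ : Iio (e i)))
      fun a b hab => Subtype.ext (e.injective (congrArg Subtype.val hab)))
      ((mk_Iio_lt (e i) (by simp)).trans_eq (mk_ord_toType κ))
  have step : ∀ (i : ι) (f : ι → α), ∃ a ∈ F i, a ∉ f '' Iio i := by
    intro i f
    by_contra hc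
    push Not at hc
    exact ((hF i).trans (mk_le_mk_of_subset hc)).not_gt (mk_image_le.trans_lt (hlt i))
  obtain ⟨f, hf⟩ := exists_rec (T := ι) (Classical.arbitrary α)
    (fun i f => Classical.epsilon fun a => a ∈ F i ∧ a ∉ f '' Iio i)
    (fun i f f' h => by rw [image_congr (s := Iio i) fun j hj => h j hj])
  have hf' : ∀ i, f i ∈ F i ∧ f i ∉ f '' Iio i := fun i => by
    have := Classical.epsilon_spec (step i f)
    rwa [← hf i] at this
  refine ⟨f, fun i j hij => ?_, fun i => (hf' i).1⟩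
  rcases lt_trichotomy i j with h | h | h
  · exact absurd ⟨i, h, hij⟩ (hf' j).2
  · exact h
  · exact absurd ⟨j, h, hij.symm⟩ (hf' i).2

theorem separable_cube : TopologicalSpace.SeparableSpace (ℝ → ℝ) := by
  classical
  refine DenseRange.separableSpace (f := fun f : C(ℝ, ℝ) => (f : ℝ → ℝ)) ?_
    (continuous_pi fun x => continuous_eval_const x)
  intro g
  rw [mem_closure_iff_nhds]
  intro U hU
  rw [nhds_pi, Filter.mem_pi] at hU
  obtain ⟨J, hJ, t, ht, htU⟩ := hU
  refine ⟨_, htU fun j hj => ?_, ⟨fun x => (Lagrange.interpolate hJ.toFinset id g).eval x,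
    Polynomial.continuous _⟩, rfl⟩
  have := Lagrange.eval_interpolate_at_node (s := hJ.toFinset) (v := id) g (injOn_id _)
    (hJ.mem_toFinset.2 hj)
  simp only [id] at this
  simp only [ContinuousMap.coe_mk, this]
  exact mem_of_mem_nhds (ht j)

theorem neBot_cocountable : (cocountable : Filter ℝ).NeBot := by
  refine ⟨fun h => ?_⟩
  have : (∅ : Set ℝ) ∈ (cocountable : Filter ℝ) := by rw [h]; exact mem_bot
  rw [mem_cocountable, compl_empty] at this
  exact Cardinal.not_countable_real this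

theorem perfect_example : ∃ (X Y : Type) (_ : TopologicalSpace X) (_ : TopologicalSpace Y)
    (_ : T35Space X) (_ : T35Space Y) (f : X → Y), Continuous f ∧ IsClosedMap f ∧
      Function.Surjective f ∧ (∀ y, IsCompact (f ⁻¹' {y})) ∧ IsGrothendieck Y ∧
      ¬ IsWeaklyGrothendieck X := by
  classical
  obtain ⟨σ⟩ : Nonempty (ℝ ≃ (ℕ → ℝ)) := by
    rw [← Cardinal.eq]
    simp [mk_real]
  have := separable_cube
  obtain ⟨D, hDc, hD⟩ := TopologicalSpace.exists_countable_dense (ℝ → ℝ)
  let e : ℝ → ℝ → ℝ := fun r t => if r ∈ range (σ t) then 1 else 0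
  let Y : Set ((ℝ → ℝ) × ℝ) := (insert 0 (range e)) ×ˢ {0} ∪
    D ×ˢ range fun n : ℕ => 1 / ((n : ℝ) + 1)
  let W : Set (Y × Bool) := {q | q.2 = true → q.1.1.2 = 0}
  have hW : IsClosed W := by
    have : W = {q | q.2 = false} ∪ {q | q.1.1.2 = 0} := by
      ext q
      rcases q with ⟨y, _ | _⟩ <;> simp [W]
    rw [this]
    exact (isClosed_eq continuous_snd continuous_const).union
      (isClosed_eq (by fun_prop) continuous_const)
  have hp : IsProperMap fun q : W => q.1.1 := isProperMap_fst_of_compactSpace.restrict hW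
  refine ⟨W, Y, inferInstance, inferInstance, inferInstance, inferInstance, fun q => q.1.1,
    hp.continuous, hp.isClosedMap, fun y => ⟨⟨(y, false), by simp [W]⟩, rfl⟩,
    fun y => hp.isCompact_preimage isCompact_singleton, ?_, ?_⟩
  · rw [g_iff]
    have h0 : Nonempty Y := ⟨⟨(0, 0), Or.inl ⟨Or.inl rfl, rfl⟩⟩⟩
    have h2 : TopologicalSpace.SeparableSpace Y := by
      obtain ⟨c, hc, hYc⟩ : ∃ c ⊆ Y, c.Countable ∧ Y ⊆ closure c := by
        refine ⟨D ×ˢ range fun n : ℕ => 1 / ((n : ℝ) + 1), subset_union_right,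
          hDc.prod (countable_range _), ?_⟩
        refine union_subset ?_ subset_closure
        rw [closure_prod_eq]
        refine prod_mono (by rw [hD.closure_eq]; exact subset_univ _) ?_
        rintro _ rfl
        exact mem_closure_of_tendsto tendsto_one_div_add_atTop_nhds_zero_nat
          (Eventually.of_forall fun n => mem_range_self n)
      refine ⟨⟨Subtype.val ⁻¹' c, hYc.1.preimage Subtype.val_injective, ?_⟩⟩
      rw [Subtype.dense_iff, image_preimage_eq_of_subset (by rwa [Subtype.range_coe])]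
      exact hYc.2
    exact ga_of_separable
  · rw [wg_iff]
    let ι : ℝ → W := fun r => ⟨(⟨(e r, 0), Or.inl ⟨Or.inr (mem_range_self r), rfl⟩⟩, true),
      fun _ => rfl⟩
    have key : ∀ (q : W) (t : ℝ), q.1.2 = true → 1 / 2 ≤ q.1.1.1.1 t →
        ∃ r ∈ range (σ t), ι r = q := by
      rintro ⟨⟨⟨⟨x, s⟩, hy⟩, b⟩, hq⟩ t hb ht
      simp only at hb ht
      subst hb
      have hs : s = 0 := hq rfl
      subst hs
      rcases id hy with ⟨(rfl : x = 0) | ⟨r, rfl : e r = x⟩, -⟩ | ⟨-, n, hn⟩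
      · norm_num at ht
      · refine ⟨r, ?_, rfl⟩
        by_contra hc
        simp only [e, if_neg hc] at ht
        norm_num at ht
      · exact absurd hn (Nat.one_div_pos_of_nat (α := ℝ)).ne'
    refine not_ga ι (fun S hS => ?_) ?_
    · rcases S.eq_empty_or_nonempty with rfl | hne
      · simp [isClopen_empty]
      obtain ⟨s, rfl⟩ := hS.exists_eq_range hne
      obtain ⟨t, rfl⟩ := σ.surjective s
      have hc : Continuous fun q : W => q.1.1.1.1 t := by fun_prop
      have hb : IsClopen {q : W | q.1.2 = true} :=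
        (isClopen_discrete {true}).preimage (f := fun q : W => q.1.2) (by fun_prop)
      constructor
      · have : ι '' range (σ t) = {q : W | q.1.2 = true} ∩ {q | 1 / 2 ≤ q.1.1.1.1 t} := by
          refine Subset.antisymm ?_ fun q hq => key q t hq.1 hq.2
          rintro _ ⟨r, hr, rfl⟩
          refine ⟨rfl, ?_⟩
          simp only [mem_ofPred_eq, ι, e, if_pos hr]
          norm_num
        rw [this]
        exact hb.isClosed.inter (isClosed_le continuous_const hc)
      · have : ι '' range (σ t) = {q : W | q.1.2 = true} ∩ {q | 1 / 2 < q.1.1.1.1 t} := by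
          refine Subset.antisymm ?_ fun q hq => key q t hq.1 (le_of_lt hq.2)
          rintro _ ⟨r, hr, rfl⟩
          refine ⟨rfl, ?_⟩
          simp only [mem_ofPred_eq, ι, e, if_pos hr]
          norm_num
        rw [this]
        exact hb.isOpen.inter (isOpen_lt continuous_const hc)
    · intro hcl
      have := neBot_cocountable
      have h1 : Tendsto ι cocountable
          (𝓝 ⟨(⟨(0, 0), Or.inl ⟨Or.inl rfl, rfl⟩⟩, true), fun _ => rfl⟩) := by
        rw [tendsto_subtype_rng]
        refine Tendsto.prodMk_nhds ?_ tendsto_const_nhds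
        rw [tendsto_subtype_rng]
        refine Tendsto.prodMk_nhds ?_ tendsto_const_nhds
        refine tendsto_pi_nhds.2 fun t => tendsto_const_nhds.congr' ?_
        have h2 : (range (σ t))ᶜ ∈ (cocountable : Filter ℝ) := by
          rw [mem_cocountable, compl_compl]
          exact countable_range _
        filter_upwards [h2] with r hr
        simp only [e, if_neg hr, Pi.zero_apply]
      obtain ⟨r, hr⟩ := hcl.mem_of_tendsto h1 (Eventually.of_forall fun r => mem_range_self r)
      have h3 := congrArg (fun q : W => q.1.1.1.1 (σ.symm fun _ => r)) hr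
      simp [ι, e] at h3

/-- characteristic functions of ultrafilters on countable sets -/
noncomputable def E (u : Ultrafilter ℝ) (S : {S : Set ℝ // S.Countable}) : ℝ :=
  (u : Filter ℝ).sets.indicator 1 S.1

theorem E_of_mem {u : Ultrafilter ℝ} {S : {S : Set ℝ // S.Countable}} (h : S.1 ∈ u) :
    E u S = 1 := indicator_of_mem (s := (u : Filter ℝ).sets) h _

theorem E_of_notMem {u : Ultrafilter ℝ} {S : {S : Set ℝ // S.Countable}} (h : S.1 ∉ u) :
    E u S = 0 := indicator_of_notMem (s := (u : Filter ℝ).sets) h _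

theorem mem_of_E {u : Ultrafilter ℝ} {S : {S : Set ℝ // S.Countable}} (h : 0 < E u S) :
    S.1 ∈ u := by
  by_contra hc
  simp [E_of_notMem hc] at h

theorem tendsto_E (u : Ultrafilter ℝ) : Tendsto (fun r => E (pure r)) u (𝓝 (E u)) := by
  refine tendsto_pi_nhds.2 fun S => tendsto_const_nhds.congr' ?_
  by_cases h : S.1 ∈ u
  · filter_upwards [h] with r hr
    rw [E_of_mem h, E_of_mem (Ultrafilter.mem_pure.2 hr)]
  · filter_upwards [Ultrafilter.compl_mem_iff_notMem.2 h] with r hr
    rw [E_of_notMem h, E_of_notMem (fun h => hr (Ultrafilter.mem_pure.1 h))]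

theorem E_inj {u v : Ultrafilter ℝ} {S : Set ℝ} (hS : S.Countable) (hu : S ∈ u) (h : E u = E v) :
    u = v := by
  symm
  refine Ultrafilter.eq_of_le fun T hT => ?_
  have h1 : S ∩ T ∈ v := mem_of_E (S := ⟨S ∩ T, hS.mono inter_subset_left⟩) (by
    rw [← h, E_of_mem (inter_mem hu hT)]
    exact one_pos)
  exact mem_of_superset h1 inter_subset_right

theorem many_ultrafilters (s : ℕ → ℝ) (hs : s.Injective) :
    𝔠 ≤ #{u : Ultrafilter ℝ | range s ∈ u ∧ ∀ r, {r} ∉ u} := by
  let q : ℚ ≃ ℕ := Denumerable.eqv ℚ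
  have hne : ∀ t : ℝ, (comap ((↑) : ℚ → ℝ) (𝓝[≠] t)).NeBot := fun t => by
    refine comap_neBot fun U hU => ?_
    obtain ⟨b, hb, hbU⟩ := mem_nhdsGT_iff_exists_Ioo_subset.1
      (nhdsWithin_mono t (fun x (hx : t < x) => hx.ne') hU)
    obtain ⟨r, hr⟩ := exists_rat_btwn (show t < b from hb)
    exact ⟨r, hbU hr⟩
  let v : ℝ → Ultrafilter ℚ := fun t => Ultrafilter.of (comap ((↑) : ℚ → ℝ) (𝓝[≠] t))
  have hv : ∀ t, Tendsto ((↑) : ℚ → ℝ) (v t) (𝓝[≠] t) := fun t =>
    tendsto_iff_comap.2 (Ultrafilter.of_le _)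
  have hinj : (s ∘ q).Injective := hs.comp q.injective
  rw [← mk_real]
  refine mk_le_of_injective (f := fun t => ⟨(v t).map (s ∘ q), ?_, ?_⟩) ?_
  · exact Ultrafilter.mem_map.2 (univ_mem' fun x => mem_range_self _)
  · intro r hr
    rw [Ultrafilter.mem_map] at hr
    obtain ⟨x, hx⟩ := Ultrafilter.nonempty_of_mem hr
    have h1 : {x} ∈ v t := mem_of_superset hr fun y hy => hinj (hy.trans hx.symm)
    have h2 : Tendsto ((↑) : ℚ → ℝ) (v t) (𝓝 (x : ℝ)) :=
      tendsto_const_nhds.congr' (mem_of_superset h1 fun y hy => by rw [mem_singleton_iff.1 hy]; rfl)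
    have h3 := tendsto_nhds_unique h2 ((hv t).mono_right nhdsWithin_le_nhds)
    obtain ⟨y, hy1, hy2⟩ := Ultrafilter.nonempty_of_mem
      (inter_mem h1 (hv t self_mem_nhdsWithin))
    rw [mem_singleton_iff.1 hy1] at hy2
    exact hy2 h3
  · intro t t' h
    have h1 : (v t : Filter ℚ) = v t' := Filter.map_injective hinj
      (congrArg (fun u : Ultrafilter ℝ => (u : Filter ℝ)) (congrArg Subtype.val h))
    have h2 := (hv t').mono_right nhdsWithin_le_nhds
    rw [← h1] at h2
    exact tendsto_nhds_unique ((hv t).mono_right nhdsWithin_le_nhds) h2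

theorem groth_ultra (𝒰 : Set (Ultrafilter ℝ)) (hp : ∀ r, pure r ∈ 𝒰)
    (h : ∀ s : ℕ → ℝ, s.Injective → ∃ u ∈ 𝒰, range s ∈ u ∧ ∀ r, {r} ∉ u) :
    IsGrothendieck (E '' 𝒰) := by
  rw [g_iff]
  let δ : ℝ → E '' 𝒰 := fun r => ⟨E (pure r), mem_image_of_mem _ (hp r)⟩
  have ht : ∀ u (hu : u ∈ 𝒰), Tendsto δ u (𝓝 ⟨E u, mem_image_of_mem _ hu⟩) := fun u hu =>
    tendsto_subtype_rng.2 (tendsto_E u)
  refine ga_of_dense (fun _ => range δ) ?_ fun _ => ?_
  · rw [iUnion_const]
    rintro ⟨_, u, hu, rfl⟩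
    exact mem_closure_of_tendsto (ht u hu) (Eventually.of_forall fun r => mem_range_self r)
  · rw [← cc_iff]
    intro B hB hi
    have h1 : (δ ⁻¹' B).Infinite := hi.preimage hB
    let s := h1.natEmbedding
    obtain ⟨u, hu, hsu, hfree⟩ := h (fun n => s n) (Subtype.val_injective.comp s.injective)
    refine ⟨_, accPt_iff_frequently.2 ((ht u hu).frequently (Eventually.frequently ?_))⟩
    filter_upwards [hsu] with r hr
    refine ⟨fun hc => ?_, ?_⟩
    · have h2 := congrFun (congrArg Subtype.val hc) ⟨{r}, countable_singleton r⟩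
      simp only [δ] at h2
      rw [E_of_mem (by simp), E_of_notMem (hfree r)] at h2
      exact one_ne_zero h2
    · obtain ⟨n, rfl⟩ := hr
      exact (s n).2

theorem product_example : ∃ (X Y : Type) (_ : TopologicalSpace X) (_ : TopologicalSpace Y)
    (_ : T35Space X) (_ : T35Space Y), IsGrothendieck X ∧ IsGrothendieck Y ∧
      ¬ IsWeaklyGrothendieck (X × Y) := by
  obtain ⟨U, hU, hUF⟩ := exists_transversal (ι := {s : ℕ → ℝ // s.Injective} × Bool)
    (α := Ultrafilter ℝ) (κ := 𝔠) (by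
      rw [mk_prod]
      simp only [lift_id, mk_fintype, Fintype.card_bool, Nat.cast_ofNat]
      calc _ ≤ #(ℕ → ℝ) * 2 := mul_le_mul_left (mk_subtype_le _) _
        _ = 𝔠 := by simp [mk_real])
    (fun p => {u | range p.1.1 ∈ u ∧ ∀ r, {r} ∉ u}) fun p => many_ultrafilters _ p.1.2
  have := neBot_cocountable
  let w : Ultrafilter ℝ := Ultrafilter.of cocountable
  have hw : ∀ S : {S : Set ℝ // S.Countable}, S.1 ∉ w := fun S =>
    Ultrafilter.compl_mem_iff_notMem.1 (Ultrafilter.of_le _ (by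
      rw [mem_cocountable, compl_compl]
      exact S.2))
  let 𝒰 : Bool → Set (Ultrafilter ℝ) := fun b => insert w (range pure ∪ range fun s => U (s, b))
  have hp : ∀ b r, pure r ∈ 𝒰 b := fun b r => Or.inr (Or.inl (mem_range_self r))
  have hG : ∀ b, IsGrothendieck (E '' 𝒰 b) := fun b => groth_ultra _ (hp b) fun s hs =>
    ⟨U (⟨s, hs⟩, b), Or.inr (Or.inr (mem_range_self _)), hUF _⟩
  refine ⟨E '' 𝒰 false, E '' 𝒰 true, inferInstance, inferInstance, inferInstance, inferInstance,
    hG _, hG _, ?_⟩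
  rw [wg_iff]
  let ι : ℝ → (E '' 𝒰 false) × (E '' 𝒰 true) := fun r =>
    (⟨E (pure r), mem_image_of_mem _ (hp _ r)⟩, ⟨E (pure r), mem_image_of_mem _ (hp _ r)⟩)
  have hc1 : ∀ S, Continuous fun p : (E '' 𝒰 false) × (E '' 𝒰 true) => p.1.1 S := fun S =>
    (continuous_apply S).comp (continuous_subtype_val.comp continuous_fst)
  have hc2 : ∀ S, Continuous fun p : (E '' 𝒰 false) × (E '' 𝒰 true) => p.2.1 S := fun S =>
    (continuous_apply S).comp (continuous_subtype_val.comp continuous_snd)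
  refine not_ga ι (fun S hS => ⟨?_, ?_⟩) ?_
  · have : ι '' S = {p | p.1.1 = p.2.1} ∩ {p | 1 ≤ p.1.1 ⟨S, hS⟩} := by
      refine Subset.antisymm ?_ ?_
      · rintro _ ⟨r, hr, rfl⟩
        exact ⟨rfl, (E_of_mem (Ultrafilter.mem_pure.2 hr)).ge⟩
      · rintro ⟨⟨_, u, hu, rfl⟩, ⟨_, v, hv, rfl⟩⟩ ⟨h1, h2⟩
        have h3 : S ∈ u := mem_of_E (S := ⟨S, hS⟩) (one_pos.trans_le h2)
        obtain rfl : u = v := E_inj hS h3 h1
        obtain ⟨r, rfl⟩ : u ∈ range pure := by
          rcases hu with rfl | hu | ⟨s, hs⟩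
          · exact absurd h3 (hw ⟨S, hS⟩)
          · exact hu
          · rcases hv with rfl | hv | ⟨s', hs'⟩
            · exact absurd h3 (hw ⟨S, hS⟩)
            · exact hv
            · have := hU (hs.trans hs'.symm)
              simp at this
        exact ⟨r, Ultrafilter.mem_pure.1 h3, rfl⟩
    rw [this]
    exact (isClosed_eq (by fun_prop) (by fun_prop)).inter
      (isClosed_le continuous_const (hc1 _))
  · refine isOpen_iff_forall_mem_open.2 ?_
    rintro _ ⟨r, hr, rfl⟩
    refine ⟨{p | 0 < p.1.1 ⟨{r}, countable_singleton r⟩} ∩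
      {p | 0 < p.2.1 ⟨{r}, countable_singleton r⟩}, ?_,
      (isOpen_lt continuous_const (hc1 _)).inter (isOpen_lt continuous_const (hc2 _)),
      ?_, ?_⟩
    · rintro ⟨⟨_, u, hu, rfl⟩, ⟨_, v, hv, rfl⟩⟩ ⟨h1, h2⟩
      have h3 : ∀ u : Ultrafilter ℝ, {r} ∈ u → u = pure r := fun u hu =>
        Ultrafilter.eq_of_le (le_pure_iff.2 hu)
      obtain rfl := h3 u (mem_of_E h1)
      obtain rfl := h3 v (mem_of_E h2)
      exact ⟨r, hr, rfl⟩
    · simp only [mem_ofPred_eq, ι]
      rw [E_of_mem (by simp)]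
      exact one_pos
    · simp only [mem_ofPred_eq, ι]
      rw [E_of_mem (by simp)]
      exact one_pos
  · intro hcl
    have h1 : Tendsto ι w (𝓝 (⟨E w, mem_image_of_mem _ (Or.inl rfl)⟩,
        ⟨E w, mem_image_of_mem _ (Or.inl rfl)⟩)) :=
      Tendsto.prodMk_nhds (tendsto_subtype_rng.2 (tendsto_E w))
        (tendsto_subtype_rng.2 (tendsto_E w))
    obtain ⟨r, hr⟩ := hcl.mem_of_tendsto h1 (Eventually.of_forall fun r => mem_range_self r)
    have h2 := congrArg (fun p : (E '' 𝒰 false) × (E '' 𝒰 true) =>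
      p.1.1 ⟨{r}, countable_singleton r⟩) hr
    simp only [ι] at h2
    rw [E_of_mem (by simp), E_of_notMem (hw _)] at h2
    exact one_ne_zero h2

end Pool.Agent.H33.GrothEx
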