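import Mathlib
import Pool.Agent.H33.GrothEx

set_option autoImplicit false
open Set Topology TopologicalSpace Filter

namespace Pool.Agent.H33.SubMeta

section comb
variable {K T : Type} [LinearOrder K] [WellFoundedLT K] [LinearOrder T] [WellFoundedLT T]

omit [WellFoundedLT K] in
theorem seq (hT : ∀ ξ : T, (Iio ξ).Countable)
    (hK0 : ∀ s : Set K, s.Countable → ∃ b, ∀ x ∈ s, x < b)
    (h : K → K) (S : Set K) (hS : ∀ b, ∃ a ∈ S, b < a) :
    ∃ a : T → K, (∀ ξ, a ξ ∈ S) ∧ ∀ η ξ, η < ξ → h (a η) < a ξ := by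
  have : ∀ s : Set K, ∃ a ∈ S, s.Countable → ∀ x ∈ s, x < a := by
    intro s
    by_cases hs : s.Countable
    · obtain ⟨b, hb⟩ := hK0 s hs
      obtain ⟨a, ha, hba⟩ := hS b
      exact ⟨a, ha, fun _ x hx => (hb x hx).trans hba⟩
    · obtain ⟨b, -⟩ := hK0 ∅ countable_empty
      obtain ⟨a, ha, -⟩ := hS b
      exact ⟨a, ha, fun h => absurd h hs⟩
  choose nxt h1 h2 using this
  obtain ⟨a, ha⟩ := GrothEx.exists_rec (T := T) (nxt ∅)
    (fun δ f => nxt ((fun i => h (f i)) '' Iio δ)) (by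
      intro δ f f' hf
      congr 1
      exact image_congr fun i hi => by rw [hf i hi])
  refine ⟨a, fun ξ => by rw [ha]; exact h1 _, fun η ξ hη => ?_⟩
  rw [ha ξ]
  exact h2 _ ((hT ξ).image _) _ ⟨η, hη, rfl⟩

/-- `α` has uncountable cofinality. -/
def Good (α : K) : Prop := ∀ s : Set K, s.Countable → s ⊆ Iio α → ∃ β < α, ∀ x ∈ s, x < β

omit [WellFoundedLT T] in
theorem bddT [Uncountable T] (hT : ∀ ξ : T, (Iio ξ).Countable) (s : Set T) (hs : s.Countable) :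
    ∃ ζ, ∀ ξ ∈ s, ξ < ζ := by
  by_contra h
  push Not at h
  have : (univ : Set T) ⊆ ⋃ ξ ∈ s, insert ξ (Iio ξ) := by
    intro ζ _
    obtain ⟨ξ, h1, h2⟩ := h ζ
    exact mem_biUnion h1 (h2.eq_or_lt.imp id id)
  exact not_countable_univ ((hs.biUnion fun ξ _ => (hT ξ).insert ξ).mono this)

theorem press [Uncountable T] (hT : ∀ ξ : T, (Iio ξ).Countable)
    (hK0 : ∀ s : Set K, s.Countable → ∃ b, ∀ x ∈ s, x < b)
    (hK1 : ∀ a : T → K, ∃ b, ∀ ξ, a ξ < b)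
    (g : K → K) (hg : ∀ α, Good α → g α < α) :
    ∃ γ, ∀ b, ∃ α, Good α ∧ g α ≤ γ ∧ b < α := by
  by_contra h
  push Not at h
  choose b hb using h
  obtain ⟨a, -, ha⟩ := seq hT hK0 (fun x => max x (b x)) univ
    (fun c => by obtain ⟨d, hd⟩ := hK0 {c} (countable_singleton c); exact ⟨d, trivial, hd c rfl⟩)
  have hne : {c | ∀ ξ, a ξ < c}.Nonempty := hK1 a
  let α := wellFounded_lt.min _ hne
  have hα : ∀ ξ, a ξ < α := wellFounded_lt.min_mem _ hne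
  have hα' : ∀ x < α, ∃ ξ, x ≤ a ξ := by
    intro x hx
    by_contra hc
    push Not at hc
    exact wellFounded_lt.not_lt_min _ (show x ∈ {c | ∀ ξ, a ξ < c} from hc) hx
  have hG : Good α := by
    intro s hs hsα
    choose! ξ hξ using hα'
    obtain ⟨ζ, hζ⟩ := bddT hT (ξ '' s) (hs.image _)
    exact ⟨a ζ, hα ζ, fun x hx => ((hξ x (hsα hx)).trans (le_max_left _ _)).trans_lt
      (ha _ _ (hζ _ ⟨x, hx, rfl⟩))⟩
  obtain ⟨ξ, hξ⟩ := hα' _ (hg α hG)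
  obtain ⟨ζ, hζ⟩ := bddT hT {ξ} (countable_singleton ξ)
  have h1 := hb (a ξ) α hG hξ
  have h2 := ha ξ ζ (hζ ξ rfl)
  exact lt_irrefl _ ((h1.trans (le_max_right _ _)).trans_lt (h2.trans (hα ζ)))

theorem main_comb [Uncountable T] (hT : ∀ ξ : T, (Iio ξ).Countable)
    (hK0 : ∀ s : Set K, s.Countable → ∃ b, ∀ x ∈ s, x < b)
    (hK1 : ∀ a : T → K, ∃ b, ∀ ξ, a ξ < b)
    (F : K → Set (Ultrafilter K)) (hF : ∀ α, (F α).Countable) :
    ∃ (A : Set K) (a : T → K), Function.Injective a ∧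
      ∀ ξ, ∀ p ∈ F (a ξ), (A ∈ p ↔ Iio (a ξ) ∈ p) := by
  have h1 : ∀ α, ∃ g, Good α → g < α ∧ ∀ p ∈ F α, (∃ β < α, Iio β ∈ p) → Iio g ∈ p := by
    intro α
    by_cases hα : Good α
    swap
    · exact ⟨α, fun h => absurd h hα⟩
    have : ∀ p : Ultrafilter K, (∃ β < α, Iio β ∈ p) → ∃ β < α, Iio β ∈ p := fun _ h => h
    have hK : Nonempty K := ⟨α⟩
    choose! β hβ using this
    obtain ⟨g, hg, hg'⟩ := hα (β '' {p ∈ F α | ∃ β < α, Iio β ∈ p})
      (((hF α).mono (sep_subset _ _)).image _) (by rintro _ ⟨p, hp, rfl⟩; exact (hβ p hp.2).1)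
    exact ⟨g, fun _ => ⟨hg, fun p hp hp' => mem_of_superset (hβ p hp').2
      (Iio_subset_Iio (hg' _ ⟨p, ⟨hp, hp'⟩, rfl⟩).le)⟩⟩
  have h2 : ∀ α, ∃ d, α < d ∧ ∀ p ∈ F α, (∃ β, Iio β ∈ p) → Iio d ∈ p := by
    intro α
    have : ∀ p : Ultrafilter K, ∃ β, (∃ β, Iio β ∈ p) → Iio β ∈ p := fun p => by
      by_cases h : ∃ β, Iio β ∈ p
      · obtain ⟨β, hβ⟩ := h; exact ⟨β, fun _ => hβ⟩
      · exact ⟨α, fun h' => absurd h' h⟩
    choose β hβ using this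
    obtain ⟨d, hd⟩ := hK0 (insert α (β '' F α)) (((hF α).image _).insert _)
    exact ⟨d, hd _ (mem_insert _ _), fun p hp hp' => mem_of_superset (hβ p hp')
      (Iio_subset_Iio (hd _ (Or.inr ⟨p, hp, rfl⟩)).le)⟩
  choose g hg using h1
  choose d hd hd' using h2
  obtain ⟨γ, hγ⟩ := press hT hK0 hK1 g (fun α h => (hg α h).1)
  obtain ⟨a, ha, ha'⟩ := seq hT hK0 d {α | Good α ∧ g α ≤ γ ∧ γ < α} (fun b => by
    obtain ⟨α, e1, e2, e3⟩ := hγ (max b γ)
    exact ⟨α, ⟨e1, e2, (le_max_right _ _).trans_lt e3⟩, (le_max_left _ _).trans_lt e3⟩)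
  have hm : StrictMono a := fun η ξ h => (hd _).trans (ha' η ξ h)
  refine ⟨Iio γ ∪ ⋃ ξ, {x | x < a ξ ∧ ∀ η < ξ, d (a η) ≤ x}, a, hm.injective,
    fun ξ p hp => ⟨fun hA => ?_, fun hI => ?_⟩⟩
  · obtain ⟨b, hb⟩ := hK1 a
    have e1 : Iio b ∈ p := mem_of_superset hA (by
      rintro x (hx | hx)
      · exact lt_trans hx ((ha ξ).2.2.trans (hb ξ))
      · obtain ⟨ζ, hζ⟩ := mem_iUnion.1 hx
        exact hζ.1.trans (hb ζ))
    refine mem_of_superset (inter_mem hA (hd' _ p hp ⟨b, e1⟩)) ?_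
    rintro x ⟨hx | hx, hx'⟩
    · exact lt_trans hx (ha ξ).2.2
    · obtain ⟨ζ, hζ⟩ := mem_iUnion.1 hx
      rcases lt_or_ge ξ ζ with h | h
      · exact absurd (hζ.2 ξ h) (not_le.2 hx')
      · exact hζ.1.trans_le (hm.monotone h)
  · by_cases hb : ∃ β < a ξ, Iio β ∈ p
    · exact mem_of_superset ((hg _ (ha ξ).1).2 p hp hb)
        ((Iio_subset_Iio (ha ξ).2.1).trans subset_union_left)
    · obtain ⟨β, hβ, hβ'⟩ := (ha ξ).1 ((fun η => d (a η)) '' Iio ξ) ((hT ξ).image _)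
        (by rintro _ ⟨η, hη, rfl⟩; exact ha' η ξ hη)
      have e1 : (Iio β)ᶜ ∈ p := Ultrafilter.compl_mem_iff_notMem.2 fun h => hb ⟨β, hβ, h⟩
      refine mem_of_superset (inter_mem hI e1) ?_
      rintro x ⟨hx, hx'⟩
      exact Or.inr (mem_iUnion.2 ⟨ξ, hx, fun η hη =>
        (hβ' _ ⟨η, hη, rfl⟩).le.trans (not_lt.1 hx')⟩)

end comb

theorem exists_finset {X : Type} [TopologicalSpace X] {V : Set {g : X → ℝ // Continuous g}}
    (hV : IsOpen V) {g : {g : X → ℝ // Continuous g}} (hg : g ∈ V) :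
    ∃ F : Finset X, ∀ g' : {g : X → ℝ // Continuous g}, (∀ x ∈ F, g'.1 x = g.1 x) → g' ∈ V := by
  obtain ⟨W, hW, rfl⟩ := isOpen_induced_iff.1 hV
  obtain ⟨F, u, h1, h2⟩ := isOpen_pi_iff.1 hW g.1 hg
  exact ⟨F, fun g' h => h2 fun x hx => by rw [h x hx]; exact (h1 x hx).2⟩

open Classical in
/-- The characteristic function of the clopen set of ultrafilters containing `A`. -/
noncomputable def chi {K : Type} (A : Set K) : {g : Ultrafilter K → ℝ // Continuous g} :=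
  ⟨fun p => if A ∈ p then 1 else 0, by
    have : IsClopen {p : Ultrafilter K | A ∈ p} :=
      ⟨ultrafilter_isClosed_basic A, ultrafilter_isOpen_basic A⟩
    exact Continuous.if (by rw [this.frontier_eq]; simp) continuous_const continuous_const⟩

theorem chi_pos {K : Type} {A : Set K} {p : Ultrafilter K} (h : A ∈ p) : (chi A).1 p = 1 :=
  if_pos h

theorem chi_neg {K : Type} {A : Set K} {p : Ultrafilter K} (h : A ∉ p) : (chi A).1 p = 0 :=
  if_neg h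

theorem discrete {K : Type} [LinearOrder K] [WellFoundedLT K]
    (f : {g : Ultrafilter K → ℝ // Continuous g}) :
    ∃ W : Set {g : Ultrafilter K → ℝ // Continuous g}, IsOpen W ∧ f ∈ W ∧
      {α : K | chi (Iio α) ∈ W}.Subsingleton := by
  have ev : ∀ p : Ultrafilter K,
      Continuous fun g : {g : Ultrafilter K → ℝ // Continuous g} => g.1 p :=
    fun p => (continuous_apply p).comp continuous_subtype_val
  let L : Set K := {α | ∀ β ≤ α, 1 / 2 ≤ f.1 (pure β)}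
  have h1 : ∃ W : Set {g : Ultrafilter K → ℝ // Continuous g}, IsOpen W ∧ f ∈ W ∧
      ∀ α ∈ L, chi (Iio α) ∉ W := by
    rcases L.eq_empty_or_nonempty with h | h
    · exact ⟨univ, isOpen_univ, trivial, fun α hα => by simp [h] at hα⟩
    have := h.to_subtype
    have hK : Nonempty K := ⟨h.some⟩
    have hne : (⨅ α : L, 𝓟 (L ∩ Ici α.1)).NeBot := iInf_neBot_of_directed
      (Antitone.directed_ge fun x y hxy => principal_mono.mpr
        (inter_subset_inter_right _ (Ici_subset_Ici.2 hxy)))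
      fun α => principal_neBot_iff.mpr ⟨α.1, α.2, le_rfl⟩
    let p := Ultrafilter.of (⨅ α : L, 𝓟 (L ∩ Ici α.1))
    have hp : ∀ α : L, L ∩ Ici α.1 ∈ p := fun α => Ultrafilter.of_le _
      (mem_iInf_of_mem α (mem_principal_self _))
    have hL : L ∈ p := mem_of_superset (hp ⟨h.some, h.some_mem⟩) inter_subset_left
    have hcl : p ∈ closure ((pure : K → Ultrafilter K) '' L) := by
      rw [ultrafilterBasis_is_basis.mem_closure_iff]
      rintro _ ⟨A, rfl⟩ hA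
      obtain ⟨x, hx, hx'⟩ := Ultrafilter.nonempty_of_mem (inter_mem hA hL)
      exact ⟨pure x, mem_pure.2 hx, x, hx', rfl⟩
    have hf : 1 / 2 ≤ f.1 p := by
      refine (closure_minimal ?_ (isClosed_le continuous_const f.2)) hcl
      rintro _ ⟨x, hx, rfl⟩
      exact hx x le_rfl
    refine ⟨{g | 1 / 4 < g.1 p}, isOpen_lt continuous_const (ev p), by
      show 1 / 4 < f.1 p; linarith, fun α hα hc => ?_⟩
    have : Iio α ∉ p := fun h' => by
      obtain ⟨x, hx, -, hx'⟩ := Ultrafilter.nonempty_of_mem (inter_mem h' (hp ⟨α, hα⟩))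
      exact not_le.2 hx hx'
    have h3 : 1 / 4 < (chi (Iio α)).1 p := hc
    rw [chi_neg this] at h3
    linarith
  obtain ⟨W, hW, hfW, hW'⟩ := h1
  by_cases hB : {β : K | f.1 (pure β) < 1 / 2}.Nonempty
  · let l := wellFounded_lt.min _ hB
    have hl : f.1 (pure l) < 1 / 2 := wellFounded_lt.min_mem _ hB
    refine ⟨W ∩ {g | g.1 (pure l) < 1 / 2}, hW.inter (isOpen_lt (ev _) continuous_const),
      ⟨hfW, hl⟩, (subsingleton_singleton (a := l)).anti fun α hα => ?_⟩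
    have e1 : ¬ l < α := fun h => by
      have h3 : (chi (Iio α)).1 (pure l) < 1 / 2 := hα.2
      rw [chi_pos (mem_pure.2 h)] at h3
      linarith
    have e2 : α ∉ L := fun h => hW' α h hα.1
    have e3 : ¬ α < l := fun h => e2 fun β hβ => not_lt.1 fun h' =>
      wellFounded_lt.not_lt_min _ (show β ∈ {β : K | f.1 (pure β) < 1 / 2} from h')
        (hβ.trans_lt h)
    exact le_antisymm (not_lt.1 e1) (not_lt.1 e3)
  · refine ⟨W, hW, hfW, fun α hα => absurd hα (hW' α fun β _ => not_lt.1 fun h => hB ⟨β, h⟩)⟩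

theorem not_submeta {K T : Type} [LinearOrder K] [WellFoundedLT K] [LinearOrder T]
    [WellFoundedLT T] [Uncountable T] (hT : ∀ ξ : T, (Iio ξ).Countable)
    (hK0 : ∀ s : Set K, s.Countable → ∃ b, ∀ x ∈ s, x < b)
    (hK1 : ∀ a : T → K, ∃ b, ∀ ξ, a ξ < b) :
    ∃ 𝒰 : Set (Set {g : Ultrafilter K → ℝ // Continuous g}),
        (∀ U ∈ 𝒰, IsOpen U) ∧ ⋃₀ 𝒰 = Set.univ ∧
        ¬ ∃ 𝒱 : ℕ → Set (Set {g : Ultrafilter K → ℝ // Continuous g}),
          (∀ n, ∀ V ∈ 𝒱 n, IsOpen V ∧ ∃ U ∈ 𝒰, V ⊆ U) ∧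
          (∀ n, ⋃₀ 𝒱 n = Set.univ) ∧
          ∀ x, ∃ n, {V ∈ 𝒱 n | x ∈ V}.Countable := by
  refine ⟨{W | IsOpen W ∧ {α : K | chi (Iio α) ∈ W}.Subsingleton}, fun U hU => hU.1,
    eq_univ_of_forall fun f => ?_, ?_⟩
  · obtain ⟨W, h1, h2, h3⟩ := discrete f
    exact ⟨W, ⟨h1, h3⟩, h2⟩
  rintro ⟨𝒱, h1, h2, h3⟩
  have : ∀ (n : ℕ) (α : K), ∃ V ∈ 𝒱 n, chi (Iio α) ∈ V := fun n α => by
    have : chi (Iio α) ∈ ⋃₀ 𝒱 n := by rw [h2]; trivial
    exact this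
  choose V hV hV' using this
  choose F hF using fun n α => exists_finset (h1 n _ (hV n α)).1 (hV' n α)
  obtain ⟨A, a, ha, hA⟩ := main_comb hT hK0 hK1 (fun α => ⋃ n, (F n α : Set (Ultrafilter K)))
    (fun α => countable_iUnion fun n => (F n α).countable_toSet)
  obtain ⟨n, hn⟩ := h3 (chi A)
  have e1 : ∀ ξ, V n (a ξ) ∈ {V ∈ 𝒱 n | chi A ∈ V} := fun ξ => ⟨hV _ _, hF n _ _ fun p hp => by
    have := hA ξ p (mem_iUnion.2 ⟨n, hp⟩)
    by_cases h : A ∈ p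
    · rw [chi_pos h, chi_pos (this.1 h)]
    · rw [chi_neg h, chi_neg (fun h' => h (this.2 h'))]⟩
  have e2 : Function.Injective fun ξ => V n (a ξ) := fun ξ η h => by
    obtain ⟨U, hU, hVU⟩ := (h1 n _ (hV n (a ξ))).2
    have h' : V n (a ξ) = V n (a η) := h
    exact ha (hU.2 (hVU (hV' n _)) (hVU (h' ▸ hV' n _)))
  exact not_countable_univ ((hn.preimage_of_injOn e2.injOn).mono fun ξ _ => e1 ξ)

open Cardinal in
theorem bdd_of_card {c : Cardinal.{0}} (hc : ℵ₀ ≤ c) (s : Set (Order.succ c).ord.ToType)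
    (hs : #s ≤ c) : ∃ b, ∀ x ∈ s, x < b := by
  by_contra h
  push Not at h
  have e : (univ : Set (Order.succ c).ord.ToType) ⊆ ⋃ ξ : s, insert ξ.1 (Iio ξ.1) := by
    intro ζ _
    obtain ⟨ξ, h1, h2⟩ := h ζ
    exact mem_iUnion.2 ⟨⟨ξ, h1⟩, h2.eq_or_lt.imp id id⟩
  have e2 := (mk_le_mk_of_subset e).trans (mk_iUnion_le _)
  rw [mk_univ, mk_ord_toType] at e2
  have e3 : (⨆ ξ : s, #(insert ξ.1 (Iio ξ.1) : Set _)) ≤ c := ciSup_le' fun ξ =>
    mk_insert_le.trans (by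
      have := Order.lt_succ_iff.1 (Cardinal.mk_Iio_toType_ord_lt ξ.1)
      calc _ ≤ c + c := add_le_add this (one_le_aleph0.trans hc)
        _ = c := add_eq_self hc)
  have := e2.trans ((mul_le_mul' hs e3).trans (mul_eq_self hc).le)
  exact not_lt.2 this (Order.lt_succ c)

open Cardinal in
theorem final : ∃ (X : Type) (_ : TopologicalSpace X), CompactSpace X ∧ T2Space X ∧
    ∃ 𝒰 : Set (Set {g : X → ℝ // Continuous g}),
        (∀ U ∈ 𝒰, IsOpen U) ∧ ⋃₀ 𝒰 = Set.univ ∧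
        ¬ ∃ 𝒱 : ℕ → Set (Set {g : X → ℝ // Continuous g}),
          (∀ n, ∀ V ∈ 𝒱 n, IsOpen V ∧ ∃ U ∈ 𝒰, V ⊆ U) ∧
          (∀ n, ⋃₀ 𝒱 n = Set.univ) ∧
          ∀ x, ∃ n, {V ∈ 𝒱 n | x ∈ V}.Countable := by
  have h1 : ℵ₀ ≤ Order.succ ℵ₀ := Order.le_succ _
  have : Uncountable (Order.succ ℵ₀).ord.ToType := by
    rw [← aleph0_lt_mk_iff, mk_ord_toType]; exact Order.lt_succ _
  refine ⟨Ultrafilter (Order.succ (Order.succ ℵ₀)).ord.ToType, inferInstance, inferInstance,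
    inferInstance, not_submeta (T := (Order.succ ℵ₀).ord.ToType) (fun ξ => ?_) (fun s hs => ?_)
    (fun a => ?_)⟩
  · exact le_aleph0_iff_set_countable.1 (Order.lt_succ_iff.1 (Cardinal.mk_Iio_toType_ord_lt ξ))
  · exact bdd_of_card h1 s ((le_aleph0_iff_set_countable.2 hs).trans h1)
  · obtain ⟨b, hb⟩ := bdd_of_card h1 (range a) (mk_range_le.trans (mk_ord_toType _).le)
    exact ⟨b, fun ξ => hb _ ⟨ξ, rfl⟩⟩

end Pool.Agent.H33.SubMeta
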