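import Mathlib
import Pool.Agent.H33.SubMeta

/-!
Under CH: a ccc compact space whose square has a `σ`-disjoint `π`-base, and a dense
hereditarily Lindelöf subspace of it.
-/

set_option autoImplicit false
open Set Topology TopologicalSpace Filter

namespace Pool.Agent.H33.LSq

theorem cyl {I : Type} {U : Set (I → Bool)} {x : I → Bool} (h : U ∈ 𝓝 x) :
    ∃ F : Finset I, ∀ y : I → Bool, (∀ i ∈ F, y i = x i) → y ∈ U := by
  obtain ⟨W, h1, h2, h3⟩ := mem_nhds_iff.1 h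
  obtain ⟨F, u, h4, h5⟩ := isOpen_pi_iff.1 h2 _ h3
  exact ⟨F, fun y hy => h1 (h5 fun a ha => by rw [hy a ha]; exact (h4 a ha).2)⟩

theorem open_eq {I : Type} (i : I) (b : Bool) : IsOpen {y : I → Bool | y i = b} :=
  (isOpen_discrete ({b} : Set Bool)).preimage (continuous_apply (A := fun _ => Bool) i)

theorem open_cyl {I J : Type} (F : Finset J) (p : J → I) (v : J → Bool) :
    IsOpen {y : I → Bool | ∀ j ∈ F, y (p j) = v j} := by
  simp only [ofPred_forall]
  exact isOpen_biInter_finset fun j _ => open_eq _ _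

theorem unc_fiber {A B : Type} [Countable B] {J : Set A} (hJ : ¬ J.Countable) (f : A → B) :
    ∃ b, ¬ {a ∈ J | f a = b}.Countable := by
  by_contra h
  push Not at h
  exact hJ ((countable_iUnion h).mono fun a ha =>
    mem_iUnion.2 ⟨f a, (⟨ha, rfl⟩ : a ∈ J ∧ f a = f a)⟩)

theorem delta_aux {A I : Type} [DecidableEq I] (n : ℕ) : ∀ (f : A → Finset I) (J : Set A),
    ¬ J.Countable → (∀ a ∈ J, (f a).card ≤ n) → ∃ J' ⊆ J, ¬ J'.Countable ∧
      ∃ R : Finset I, ∀ a ∈ J', ∀ b ∈ J', a ≠ b → f a ∩ f b = R := by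
  induction n with
  | zero =>
    intro f J hJ h
    exact ⟨J, Subset.rfl, hJ, ∅, fun a ha b _ _ => by
      rw [Finset.card_eq_zero.1 (Nat.le_zero.1 (h a ha)), Finset.empty_inter]⟩
  | succ n ih =>
    intro f J hJ h
    rcases Classical.em (∃ i, ¬ {a ∈ J | i ∈ f a}.Countable) with ⟨i, hi⟩ | hn
    · obtain ⟨J', j1, j2, R, hR⟩ := ih (fun a => (f a).erase i) _ hi (fun a ha => by
        have := h a ha.1
        rw [Finset.card_erase_of_mem ha.2]; omega)
      refine ⟨J', fun a ha => (j1 ha).1, j2, insert i R, fun a ha b hb hne => ?_⟩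
      rw [← hR a ha b hb hne]
      ext x
      have h1 := (j1 ha).2
      have h2 := (j1 hb).2
      simp only [Finset.mem_inter, Finset.mem_insert, Finset.mem_erase]
      by_cases e : x = i
      · simp [e, h1, h2]
      · simp [e]
    · push Not at hn
      obtain ⟨M, hM⟩ := zorn_subset {M | M ⊆ J ∧ M.Pairwise fun a b => f a ∩ f b = ∅} (by
        intro c hc hch
        refine ⟨⋃₀ c, ⟨sUnion_subset fun M hM => (hc hM).1, ?_⟩, fun s hs => subset_sUnion_of_mem hs⟩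
        rintro a ⟨M, m1, m2⟩ b ⟨N, n1, n2⟩ hne
        rcases hch.total m1 n1 with h | h
        · exact (hc n1).2 (h m2) n2 hne
        · exact (hc m1).2 m2 (h n2) hne)
      refine ⟨M, hM.1.1, fun hc => hJ ?_, ∅, hM.1.2⟩
      refine (hc.union (hc.biUnion fun a _ => (f a).countable_toSet.biUnion fun i _ => hn i)).mono
        fun b hb => ?_
      by_contra hb'
      simp only [mem_union, mem_iUnion, not_or, not_exists, mem_ofPred_eq] at hb'
      have key : ∀ a ∈ M, f a ∩ f b = ∅ := fun a ha => Finset.eq_empty_of_forall_notMem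
        fun i hi => hb'.2 a ha i (Finset.mem_inter.1 hi).1 ⟨hb, (Finset.mem_inter.1 hi).2⟩
      refine hb'.1 (hM.2 (y := insert b M) ⟨insert_subset hb hM.1.1, ?_⟩ (subset_insert _ _)
        (mem_insert _ _))
      exact hM.1.2.insert fun a ha _ => ⟨by rw [Finset.inter_comm]; exact key a ha, key a ha⟩

theorem delta {A I : Type} [DecidableEq I] (f : A → Finset I) (J : Set A) (hJ : ¬ J.Countable) :
    ∃ J' ⊆ J, ¬ J'.Countable ∧ ∃ R : Finset I, ∀ a ∈ J', ∀ b ∈ J', a ≠ b → f a ∩ f b = R := by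
  obtain ⟨n, hn⟩ := unc_fiber hJ fun a => (f a).card
  obtain ⟨J', j1, j2⟩ := delta_aux n f _ hn fun a ha => ha.2.le
  exact ⟨J', fun a ha => (j1 ha).1, j2⟩

theorem diag {T I : Type} (e : T → ℕ → Finset I) (𝒵 : Set (T × Set ℕ)) :
    ∃ y : I → Bool, 𝒵.Countable → ∀ p ∈ 𝒵, Pairwise (Function.onFun Disjoint (e p.1)) →
      p.2.Infinite → ∀ w, {n ∈ p.2 | ∀ i ∈ e p.1 n, y i = w}.Infinite := by
  classical
  rcases Classical.em 𝒵.Countable with hc | hc
  swap
  · exact ⟨fun _ => true, fun h => absurd h hc⟩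
  have := hc.to_subtype
  let O : 𝒵 × Bool × ℕ → Set (I → Bool) := fun q => {y |
    Pairwise (Function.onFun Disjoint (e q.1.1.1)) ∧ q.1.1.2.Infinite →
      ∃ n ∈ q.1.1.2, q.2.2 < n ∧ ∀ i ∈ e q.1.1.1 n, y i = q.2.1}
  have hO : ∀ q, IsOpen (O q) ∧ Dense (O q) := by
    rintro ⟨⟨⟨ξ, Z⟩, hp⟩, w, m⟩
    rcases Classical.em (Pairwise (Function.onFun Disjoint (e ξ)) ∧ Z.Infinite) with h | h
    · have : O (⟨(ξ, Z), hp⟩, w, m) = ⋃ n ∈ {n ∈ Z | m < n}, {y | ∀ i ∈ e ξ n, y i = w} := by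
        ext y; simp [O, h, and_assoc]
      rw [this]
      refine ⟨isOpen_biUnion fun n _ => open_cyl _ id _, fun y => mem_closure_iff_nhds.2
        fun U hU => ?_⟩
      obtain ⟨F, hF⟩ := cyl hU
      have hf : (⋃ i ∈ F, {n | i ∈ e ξ n}).Finite := F.finite_toSet.biUnion fun i _ =>
        Set.Subsingleton.finite fun a ha b hb => by
          by_contra hne
          exact Finset.disjoint_left.1 (h.1 hne) ha hb
      obtain ⟨n, n1, n2⟩ := h.2.exists_notMem_finite (hf.union (finite_le_nat m))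
      simp only [mem_union, mem_iUnion, not_or, not_exists, mem_ofPred_eq, not_le] at n2
      refine ⟨fun i => if i ∈ e ξ n then w else y i, hF _ fun i hi => if_neg (n2.1 i hi),
        mem_biUnion (show n ∈ {n ∈ Z | m < n} from ⟨n1, n2.2⟩) fun i hi => if_pos hi⟩
    · have : O (⟨(ξ, Z), hp⟩, w, m) = univ := eq_univ_of_forall fun y h' => absurd h' h
      rw [this]
      exact ⟨isOpen_univ, dense_univ⟩
  obtain ⟨y, hy⟩ := (dense_iInter_of_isOpen (fun q => (hO q).1) fun q => (hO q).2).nonempty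
  refine ⟨y, fun _ p hp h1 h2 w => infinite_of_forall_exists_gt fun m => ?_⟩
  obtain ⟨n, n1, n2, n3⟩ := mem_iInter.1 hy (⟨p, hp⟩, w, m) ⟨h1, h2⟩
  exact ⟨n, ⟨n1, n3⟩, n2⟩

theorem coloring {T I : Type} [LinearOrder T] [WellFoundedLT T] (hT : ∀ ξ : T, (Iio ξ).Countable)
    (e : T → ℕ → Finset I) : ∃ x : T → I → Bool, ∀ ξ, Pairwise (Function.onFun Disjoint (e ξ)) →
      ∀ (v : T → Bool) (a : Finset T), (∀ β ∈ a, ξ < β) →
        {n | ∀ β ∈ a, ∀ i ∈ e ξ n, x β i = v β}.Infinite := by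
  classical
  choose g hg using diag e
  let 𝒵 : T → (T → I → Bool) → Set (T × Set ℕ) := fun β f =>
    (fun q : T × Finset (T × Bool) => (q.1, {n | ∀ p ∈ q.2, ∀ i ∈ e q.1 n, f p.1 i = p.2})) ''
      (Iio β ×ˢ {a : Finset (T × Bool) | (a : Set (T × Bool)) ⊆ Iio β ×ˢ univ})
  obtain ⟨x, hx⟩ := GrothEx.exists_rec (T := T) (fun _ => true : I → Bool)
    (fun β f => g (𝒵 β f)) (by
      intro δ f f' hf
      congr 1
      refine image_congr fun q hq => Prod.ext rfl ?_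
      ext n
      exact forall₂_congr fun p hp => by rw [hf p.1 (hq.2 hp).1])
  refine ⟨x, fun ξ hd v a => ?_⟩
  induction a using Finset.induction_on_max with
  | empty => intro _; simpa using infinite_univ
  | insert β a ha ih =>
    intro h
    have hc : (𝒵 β x).Countable := by
      refine Set.Countable.image ((hT β).prod ?_) _
      exact ((countable_ofPred_finite_subset ((hT β).prod (countable_univ (α := Bool)))).preimage
        (f := fun a : Finset (T × Bool) => (a : Set (T × Bool))) Finset.coe_injective).mono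
        fun a ha => And.intro a.finite_toSet ha
    have := hg (𝒵 β x) hc _ ⟨(ξ, a.image fun γ => (γ, v γ)),
      ⟨h β (Finset.mem_insert_self _ _), fun p hp => by
        obtain ⟨γ, h1, rfl⟩ := Finset.mem_image.1 (Finset.mem_coe.1 hp)
        exact ⟨ha γ h1, trivial⟩⟩, rfl⟩ hd
      ((ih fun γ hγ => h γ (Finset.mem_insert_of_mem hγ)).mono fun n hn p hp => by
        obtain ⟨γ, h1, rfl⟩ := Finset.mem_image.1 hp
        exact hn γ h1) (v β)
    rw [← hx β] at this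
    refine this.mono fun n hn γ hγ => ?_
    rcases Finset.mem_insert.1 hγ with rfl | hγ
    · exact hn.2
    · exact hn.1 (γ, v γ) (Finset.mem_image_of_mem _ hγ)

theorem luzin {Y T J : Type} [TopologicalSpace Y] [BaireSpace Y] [LinearOrder T]
    (hT : ∀ ξ : T, (Iic ξ).Countable) (B : J → Set Y) (hB : ∀ j, IsOpen (B j))
    (hπ : ∀ U, IsOpen U → U.Nonempty → ∃ j, (B j).Nonempty ∧ B j ⊆ U)
    (hccc : ∀ s : Set J, (∀ j ∈ s, (B j).Nonempty) → s.Pairwise (Function.onFun Disjoint B) →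
      s.Countable) (e : T → ℕ → J) (he : e.Surjective) [Nonempty Y] :
    ∃ X : Set Y, Dense X ∧ HereditarilyLindelofSpace X := by
  have : ∀ α : T, ∃ y, ((B (e α 0)).Nonempty → y ∈ B (e α 0)) ∧
      ∀ β < α, y ∉ frontier (⋃ n, B (e β n)) := by
    intro α
    have hd : Dense (⋂ β ∈ Iio α, (frontier (⋃ n, B (e β n)))ᶜ) :=
      dense_biInter_of_isOpen (fun β _ => isClosed_frontier.isOpen_compl)
        ((hT α).mono Iio_subset_Iic_self) fun β _ => by
          rw [← interior_eq_empty_iff_dense_compl, ← frontier_compl]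
          exact interior_frontier (isOpen_iUnion fun n => hB _).isClosed_compl
    rcases (B (e α 0)).eq_empty_or_nonempty with h | h
    · obtain ⟨y, hy⟩ := hd.nonempty
      exact ⟨y, fun h' => absurd h h'.ne_empty, fun β hβ => mem_iInter₂.1 hy β hβ⟩
    · obtain ⟨y, h1, hy⟩ := hd.inter_open_nonempty _ (hB _) h
      exact ⟨y, fun _ => h1, fun β hβ => mem_iInter₂.1 hy β hβ⟩
  choose y y1 y2 using this
  refine ⟨range y, dense_iff_inter_open.2 fun U hU hne => ?_, ⟨fun t _ => ?_⟩⟩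
  · obtain ⟨j, j1, j2⟩ := hπ U hU hne
    obtain ⟨α, hα⟩ := he fun _ => j
    exact ⟨y α, j2 (by have := y1 α; rw [hα] at this; exact this j1), α, rfl⟩
  refine isLindelof_of_countable_subcover fun {ι} U hU hc => ?_
  choose V v1 v2 using fun i => isOpen_induced_iff.1 (hU i)
  obtain ⟨M, hM⟩ := zorn_subset {M : Set J | (∀ j ∈ M, (B j).Nonempty ∧ ∃ i, B j ⊆ V i) ∧
      M.Pairwise (Function.onFun Disjoint B)} (by
    intro c hc hch
    refine ⟨⋃₀ c, ⟨fun j ⟨M, m1, m2⟩ => (hc m1).1 j m2, ?_⟩, fun s hs => subset_sUnion_of_mem hs⟩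
    rintro a ⟨M, m1, m2⟩ b ⟨N, n1, n2⟩ hne
    rcases hch.total m1 n1 with h | h
    · exact (hc n1).2 (h m2) n2 hne
    · exact (hc m1).2 m2 (h n2) hne)
  have hMc := hccc M (fun j hj => (hM.1.1 j hj).1) hM.1.2
  have hcl : ∀ i, V i ⊆ closure (⋃ j ∈ M, B j) := by
    intro i z hz
    by_contra hn
    obtain ⟨j, j1, j2⟩ := hπ (V i \ closure (⋃ j ∈ M, B j)) ((v1 i).sdiff isClosed_closure)
      ⟨z, hz, hn⟩
    have key : ∀ k ∈ M, Disjoint (B j) (B k) := fun k hk => disjoint_left.2 fun w h1 h2 =>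
      (j2 h1).2 (subset_closure (mem_biUnion hk h2))
    have : j ∈ M := hM.2 (y := insert j M) ⟨by
      rintro k (rfl | hk)
      · exact ⟨j1, i, j2.trans sdiff_subset⟩
      · exact hM.1.1 k hk, hM.1.2.insert fun k hk _ => ⟨key k hk, (key k hk).symm⟩⟩
      (subset_insert _ _) (mem_insert _ _)
    exact j1.ne_empty (disjoint_self.1 (key j this))
  rcases M.eq_empty_or_nonempty with rfl | hne
  · refine ⟨∅, countable_empty, fun z hz => ?_⟩
    obtain ⟨i, hi⟩ := mem_iUnion.1 (hc hz)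
    rw [← v2 i] at hi
    simpa using hcl i hi
  obtain ⟨s, hs⟩ := hMc.exists_eq_range hne
  obtain ⟨β, rfl⟩ := he s
  choose i1 hi1 using fun n => (hM.1.1 (e β n) (hs ▸ ⟨n, rfl⟩)).2
  choose i2 hi2 using fun z : t => mem_iUnion.1 (hc z.2)
  have h3 : {z : t | z.1.1 ∈ y '' Iic β}.Countable :=
    ((hT β).image y).preimage (Subtype.val_injective.comp Subtype.val_injective)
  refine ⟨range i1 ∪ i2 '' {z : t | z.1.1 ∈ y '' Iic β}, (countable_range _).union (h3.image _),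
    fun z hz => ?_⟩
  obtain ⟨α, hα⟩ := z.2
  rcases le_or_gt α β with h | h
  · exact mem_biUnion (Or.inr ⟨⟨z, hz⟩, ⟨α, h, hα⟩, rfl⟩) (hi2 ⟨z, hz⟩)
  · have h1 := y2 α β h
    have h2 : z.1 ∈ closure (⋃ n, B (e β n)) := by
      have := hi2 ⟨z, hz⟩
      rw [← v2] at this
      have := hcl _ this
      rwa [hs, biUnion_range] at this
    rw [(isOpen_iUnion fun n => hB _).frontier_eq, hα] at h1
    obtain ⟨n, hn⟩ := mem_iUnion.1 (by_contra fun h => h1 ⟨h2, h⟩)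
    refine mem_biUnion (Or.inl ⟨n, rfl⟩) ?_
    rw [← v2]
    exact hi1 n hn

/-- The compact space: a side for each block and a homogeneous set in each block. -/
def K {T : Type} [LinearOrder T] (κ : T → ℕ) (x : T → ℕ ⊕ T → Bool) : Set (ℕ ⊕ T → Bool) :=
  {z | ∀ α β, α < β → κ α = κ β → z (.inr α) = true → z (.inr β) = true →
    x β (.inr α) = z (.inl (κ β))}

theorem K_closed {T : Type} [LinearOrder T] (κ : T → ℕ) (x : T → ℕ ⊕ T → Bool) :
    IsClosed (K κ x) := by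
  simp only [K, ofPred_forall]
  refine isClosed_iInter fun α => isClosed_iInter fun β => isClosed_iInter fun _ =>
    isClosed_iInter fun _ => ?_
  have : IsClosed ((fun z : ℕ ⊕ T → Bool => (z (.inr α), z (.inr β), z (.inl (κ β)))) ⁻¹'
      {p | p.1 = true → p.2.1 = true → x β (.inr α) = p.2.2}) :=
    (isClosed_discrete _).preimage (by fun_prop)
  convert this using 1
  ext z; simp

/-- Basic open sets of `K`. -/
def Cy {I : Type} (S : Set (I → Bool)) (c : Finset (I × Bool)) : Set S :=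
  {z | ∀ p ∈ c, z.1 p.1 = p.2}

theorem Cy_open {I : Type} (S : Set (I → Bool)) (c : Finset (I × Bool)) : IsOpen (Cy S c) :=
  (open_cyl c Prod.fst Prod.snd).preimage continuous_subtype_val

theorem Cy_base {I : Type} (S : Set (I → Bool)) {U : Set S} (hU : IsOpen U) {z : S} (hz : z ∈ U) :
    ∃ c, z ∈ Cy S c ∧ Cy S c ⊆ U := by
  classical
  obtain ⟨V, v1, v2⟩ := (mem_nhds_subtype _ _ _).1 (hU.mem_nhds hz)
  obtain ⟨F, hF⟩ := cyl v1
  refine ⟨F.image fun i => (i, z.1 i), by simp [Cy], fun y hy => v2 (hF _ fun i hi => ?_)⟩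
  exact hy (i, z.1 i) (Finset.mem_image_of_mem _ hi)

theorem K_ccc {T : Type} [LinearOrder T] [Uncountable T] (hT : ∀ ξ : T, (Iio ξ).Countable)
    (κ : T → ℕ) (e : T → ℕ → Finset (ℕ ⊕ T)) (he : e.Surjective) (x : T → ℕ ⊕ T → Bool)
    (hx : ∀ ξ, Pairwise (Function.onFun Disjoint (e ξ)) →
      ∀ (v : T → Bool) (a : Finset T), (∀ β ∈ a, ξ < β) →
        {n | ∀ β ∈ a, ∀ i ∈ e ξ n, x β i = v β}.Infinite)
    (s : Set (Finset ((ℕ ⊕ T) × Bool))) (h1 : ∀ c ∈ s, (Cy (K κ x) c).Nonempty)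
    (h2 : s.Pairwise (Function.onFun Disjoint (Cy (K κ x)))) : s.Countable := by
  classical
  by_contra hs
  have : Nonempty (K κ x) := ⟨⟨fun _ => false, fun α β _ _ h => by cases h⟩⟩
  choose! z hz using h1
  let d : Finset ((ℕ ⊕ T) × Bool) → Finset (ℕ ⊕ T) := fun c =>
    c.image Prod.fst ∪ c.image fun p => .inl (Sum.elim id κ p.1)
  have hd : ∀ c α, .inr α ∈ d c → .inl (κ α) ∈ d c := by
    intro c α h
    rcases Finset.mem_union.1 h with h | h
    · obtain ⟨p, p1, p2⟩ := Finset.mem_image.1 h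
      exact Finset.mem_union_right _ (Finset.mem_image.2 ⟨p, p1, by rw [p2]; rfl⟩)
    · obtain ⟨p, p1, p2⟩ := Finset.mem_image.1 h
      cases p2
  obtain ⟨J0, j0, j1, R, hR⟩ := delta d s hs
  obtain ⟨ρ, hρ⟩ := unc_fiber j1 fun c => fun i : R => (z c).1 i.1
  have few : ∀ C : Set (ℕ ⊕ T), C.Countable → {c ∈ J0 | ∃ i ∈ C, i ∈ d c \ R}.Countable := by
    intro C hC
    refine (hC.biUnion fun i _ => Set.Subsingleton.countable
      (s := {c ∈ J0 | i ∈ d c \ R}) fun a ha b hb => ?_).mono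
      fun c ⟨a, i, b, h⟩ => mem_biUnion b (And.intro a h)
    by_contra hne
    have := Finset.mem_inter.2 ⟨(Finset.mem_sdiff.1 ha.2).1, (Finset.mem_sdiff.1 hb.2).1⟩
    rw [hR a ha.1 b hb.1 hne] at this
    exact (Finset.mem_sdiff.1 ha.2).2 this
  set J := {c ∈ J0 | (fun i : R => (z c).1 i.1) = ρ} \
    {c ∈ J0 | ∃ i ∈ range Sum.inl, i ∈ d c \ R} with hJ
  have j2 : ¬ J.Countable := fun h => hρ ((h.union (few _ (countable_range _))).mono
    (subset_sdiff_union _ _))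
  have j3 : J.Infinite := fun h => j2 h.countable
  let u := j3.natEmbedding
  obtain ⟨ξ, hξ⟩ := he fun n => d (u n).1 \ R
  obtain ⟨δ, hδ⟩ := SubMeta.bddT hT (insert ξ (⋃ n, Sum.inr ⁻¹' (d (u n).1 : Set (ℕ ⊕ T))))
    ((countable_iUnion fun n => (d (u n).1).countable_toSet.preimage Sum.inr_injective).insert ξ)
  obtain ⟨c, c1, c2⟩ : ∃ c ∈ J, c ∉ range (fun n => (u n).1) ∪
      {c ∈ J0 | ∃ i ∈ Sum.inr '' Iio δ, i ∈ d c \ R} := by
    by_contra hn
    push Not at hn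
    exact j2 (((countable_range _).union (few _ ((hT δ).image _))).mono hn)
  simp only [mem_union, not_or, mem_ofPred_eq, not_and, not_exists] at c2
  have c3 : ∀ β, .inr β ∈ d c \ R → δ ≤ β := fun β h =>
    not_lt.1 fun h' => c2.2 c1.1.1 _ ⟨β, h', rfl⟩ h
  obtain ⟨n, hn⟩ := (hx ξ (by
    intro m n hne
    rw [hξ]
    refine Finset.disjoint_left.2 fun i a b => (Finset.mem_sdiff.1 a).2 ?_
    rw [← hR _ (u m).2.1.1 _ (u n).2.1.1 fun h => hne (u.injective (Subtype.ext h))]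
    exact Finset.mem_inter.2 ⟨(Finset.mem_sdiff.1 a).1, (Finset.mem_sdiff.1 b).1⟩)
    (fun β => (z c).1 (.inl (κ β))) ((d c \ R).preimage Sum.inr Sum.inr_injective.injOn)
    fun β hβ => (hδ ξ (mem_insert _ _)).trans_le (c3 β (Finset.mem_preimage.1 hβ))).nonempty
  rw [hξ] at hn
  replace hn : ∀ β ∈ (d c \ R).preimage Sum.inr Sum.inr_injective.injOn,
    ∀ i ∈ d (u n).1 \ R, x β i = (z c).1 (.inl (κ β)) := hn
  have hb := (u n).2
  have hbδ : ∀ α, .inr α ∈ d (u n).1 → α < δ := fun α h =>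
    hδ α (mem_insert_of_mem _ (mem_iUnion.2 ⟨n, h⟩))
  have hne : (u n).1 ≠ c := fun h => c2.1 ⟨n, h⟩
  generalize (u n).1 = b at hn hb hbδ hne
  have hbc := hR b hb.1.1 c c1.1.1 hne
  have hag : ∀ i ∈ R, (z b).1 i = (z c).1 i := fun i hi =>
    congrFun (hb.1.2.trans c1.1.2.symm) ⟨i, hi⟩
  have hl : ∀ a ∈ J, ∀ k, .inl k ∈ d a → .inl k ∈ R := fun a ha k h => by
    by_contra h'
    exact ha.2 ⟨ha.1.1, _, ⟨k, rfl⟩, Finset.mem_sdiff.2 ⟨h, h'⟩⟩
  let w : ℕ ⊕ T → Bool := fun i => if i ∈ d b then (z b).1 i else if i ∈ d c then (z c).1 i else false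
  have w1 : ∀ i ∈ d b, w i = (z b).1 i := fun i hi => if_pos hi
  have w2 : ∀ i ∈ d c, w i = (z c).1 i := fun i hi => by
    by_cases h : i ∈ d b
    · rw [w1 i h, hag i (hbc ▸ Finset.mem_inter.2 ⟨h, hi⟩)]
    · simp [w, h, hi]
  have w3 : ∀ i, w i = true → i ∈ d b ∨ i ∈ d c := fun i h => by
    by_contra hn
    push Not at hn
    simp [w, hn.1, hn.2] at h
  have hRb : R ⊆ d b := hbc ▸ Finset.inter_subset_left
  have hRc : R ⊆ d c := hbc ▸ Finset.inter_subset_right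
  have hw : w ∈ K κ x := by
    intro α β hlt hk ha hb'
    by_cases hβb : Sum.inr β ∈ d b
    · have hαb : Sum.inr α ∈ d b := (w3 _ ha).elim id fun h => by
        by_contra h'
        exact lt_asymm hlt ((hbδ β hβb).trans_le (c3 α (Finset.mem_sdiff.2 ⟨h, fun h => h' (hRb h)⟩)))
      rw [w1 _ (hd b β hβb)]
      exact (z b).2 α β hlt hk (w1 _ hαb ▸ ha) (w1 _ hβb ▸ hb')
    · have hβc := (w3 _ hb').resolve_left hβb
      rw [w2 _ (hd c β hβc)]
      by_cases hαc : Sum.inr α ∈ d c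
      · exact (z c).2 α β hlt hk (w2 _ hαc ▸ ha) (w2 _ hβc ▸ hb')
      · exact hn β (Finset.mem_preimage.2 (Finset.mem_sdiff.2 ⟨hβc, fun h => hβb (hRb h)⟩)) _
          (Finset.mem_sdiff.2 ⟨(w3 _ ha).resolve_right hαc, fun h => hαc (hRc h)⟩)
  have hdj : Disjoint (Cy (K κ x) b) (Cy (K κ x) c) := h2 (j0 hb.1.1) (j0 c1.1.1) hne
  refine disjoint_left.1 hdj (show (⟨w, hw⟩ : K κ x) ∈ _ from fun p hp => ?_) fun p hp => ?_
  · exact (w1 _ (Finset.mem_union_left _ (Finset.mem_image_of_mem _ hp))).trans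
      (hz b (j0 hb.1.1) p hp)
  · exact (w2 _ (Finset.mem_union_left _ (Finset.mem_image_of_mem _ hp))).trans
      (hz c (j0 c1.1.1) p hp)

theorem K_ext {T : Type} [LinearOrder T] (κ : T → ℕ) (x : T → ℕ ⊕ T → Bool)
    (c : Finset ((ℕ ⊕ T) × Bool)) (hc : (Cy (K κ x) c).Nonempty) (ε : T)
    (hk : ∀ p ∈ c, Sum.elim id κ p.1 ≠ κ ε) (b : Bool) :
    ∃ z ∈ Cy (K κ x) c, z.1 (.inl (κ ε)) = b ∧ z.1 (.inr ε) = true := by
  classical
  obtain ⟨z, hz⟩ := hc
  refine ⟨⟨fun i => if Sum.elim id κ i = κ ε then Sum.elim (fun _ => b) (fun α => decide (α = ε)) i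
    else z.1 i, fun α β hlt h ha hb => ?_⟩, fun p hp => ?_, by simp, by simp⟩
  · by_cases e : κ β = κ ε
    · simp [e, h.trans e] at ha hb
      exact absurd (ha.trans hb.symm) hlt.ne
    · simp only [Sum.elim_inr, Sum.elim_inl, id, h, e, if_false] at ha hb ⊢
      exact z.2 α β hlt h ha hb
  · simp only [hk p hp, if_false]
    exact hz p hp

theorem K_sq {T : Type} [LinearOrder T]
    (φ : (Finset ((ℕ ⊕ T) × Bool) × Finset ((ℕ ⊕ T) × Bool)) × ℕ → T) (hφ : φ.Injective)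
    (κ : T → ℕ) (hκ : ∀ q, κ (φ q) = q.2) (x : T → ℕ ⊕ T → Bool) :
    ∃ (k : Finset ((ℕ ⊕ T) × Bool) × Finset ((ℕ ⊕ T) × Bool) → ℕ)
      (W : Finset ((ℕ ⊕ T) × Bool) × Finset ((ℕ ⊕ T) × Bool) → Set (K κ x × K κ x)),
      (∀ r, IsOpen (W r)) ∧ (∀ r, W r ⊆ Cy _ r.1 ×ˢ Cy _ r.2) ∧
      (∀ r, (Cy (K κ x) r.1).Nonempty → (Cy (K κ x) r.2).Nonempty → (W r).Nonempty) ∧
      ∀ r r', r ≠ r' → k r = k r' → Disjoint (W r) (W r') := by
  classical
  have : ∀ r : Finset ((ℕ ⊕ T) × Bool) × Finset ((ℕ ⊕ T) × Bool), ∃ k,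
      k ∉ (r.1 ∪ r.2).image fun p => Sum.elim id κ p.1 := fun r => Infinite.exists_notMem_finset _
  choose k hk using this
  let A : ℕ → T → Bool → Set (K κ x) := fun m ε b =>
    {z | z.1 (.inl m) = b ∧ z.1 (.inr ε) = true}
  have hA : ∀ m ε b, IsOpen (A m ε b) := fun m ε b =>
    ((open_eq _ _).inter (open_eq _ _)).preimage continuous_subtype_val
  refine ⟨k, fun r => (Cy _ r.1 ∩ A (k r) (φ (r, k r)) false) ×ˢ (Cy _ r.2 ∩ A (k r) (φ (r, k r)) true),
    fun r => ((Cy_open _ _).inter (hA _ _ _)).prod ((Cy_open _ _).inter (hA _ _ _)),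
    fun r => prod_mono inter_subset_left inter_subset_left, fun r h1 h2 => ?_,
    fun r r' hne e => disjoint_left.2 fun p a b => ?_⟩
  · obtain ⟨z, z1, z2⟩ := K_ext κ x r.1 h1 (φ (r, k r)) (fun p hp e => hk r
      (Finset.mem_image.2 ⟨p, Finset.mem_union_left _ hp, e.trans (hκ _)⟩)) false
    obtain ⟨y, y1, y2⟩ := K_ext κ x r.2 h2 (φ (r, k r)) (fun p hp e => hk r
      (Finset.mem_image.2 ⟨p, Finset.mem_union_right _ hp, e.trans (hκ _)⟩)) true
    rw [hκ] at z2 y2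
    exact ⟨(z, y), ⟨z1, z2⟩, y1, y2⟩
  · have key : ∀ α β, α < β → κ α = k r → κ β = k r → p.1.1 (.inr α) = true →
        p.1.1 (.inr β) = true → p.2.1 (.inr α) = true → p.2.1 (.inr β) = true → False := by
      intro α β h e1 e2 a1 a2 a3 a4
      have := (p.1.2 α β h (e1.trans e2.symm) a1 a2).symm.trans (p.2.2 α β h (e1.trans e2.symm) a3 a4)
      rw [e2, a.1.2.1, a.2.2.1] at this
      cases this
    rcases lt_trichotomy (φ (r, k r)) (φ (r', k r')) with h | h | h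
    · exact key _ _ h (hκ _) ((hκ _).trans e.symm) a.1.2.2 b.1.2.2 a.2.2.2 b.2.2.2
    · exact hne (congrArg Prod.fst (hφ h))
    · exact key _ _ h ((hκ _).trans e.symm) (hκ _) b.1.2.2 a.1.2.2 b.2.2.2 a.2.2.2

open Cardinal in
theorem final (hCH : continuum.{0} = aleph 1) :
    ∃ (X : Type) (_ : TopologicalSpace X), T35Space X ∧ HereditarilyLindelofSpace X ∧
      ¬ SeparableSpace X ∧ ∀ D : ℕ → Set (X × X), (∀ n, Dense (D n)) →
        ∃ F : ℕ → Set (X × X), (∀ n, F n ⊆ D n ∧ DiscreteTopology (F n)) ∧ Dense (⋃ n, F n) := by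
  classical
  obtain ⟨T, _, _, h0, hT⟩ : ∃ (T : Type) (_ : LinearOrder T) (_ : WellFoundedLT T),
      #T = Order.succ ℵ₀ ∧ ∀ ξ : T, (Iio ξ).Countable := ⟨(Order.succ ℵ₀).ord.ToType,
        inferInstance, inferInstance, mk_ord_toType _, fun ξ => le_aleph0_iff_set_countable.1
          (Order.lt_succ_iff.1 ((mk_Iio_lt ξ (by simp)).trans_eq (mk_ord_toType _)))⟩
  have : Uncountable T := by rw [← aleph0_lt_mk_iff, h0]; exact Order.lt_succ _
  have h1 : #T = 𝔠 := by rw [h0, hCH, succ_aleph0]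
  have sj : ∀ A : Type, #A = 𝔠 → ∃ e : T → ℕ → A, e.Surjective := fun A hA => by
    obtain ⟨e⟩ : Nonempty (T ≃ (ℕ → A)) := by rw [← Cardinal.eq, h1]; simp [hA]
    exact ⟨e, e.surjective⟩
  obtain ⟨e, he⟩ := sj (Finset (ℕ ⊕ T)) (by simp [mk_finset_of_infinite, h1])
  have h2 : #(Finset ((ℕ ⊕ T) × Bool)) = 𝔠 := by simp [mk_finset_of_infinite, h1]
  obtain ⟨e', he'⟩ := sj _ h2
  obtain ⟨φ⟩ : Nonempty ((Finset ((ℕ ⊕ T) × Bool) × Finset ((ℕ ⊕ T) × Bool)) × ℕ ≃ T) := by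
    rw [← Cardinal.eq, h1, mk_prod, mk_prod, h2]; simp
  obtain ⟨x, hx⟩ := coloring hT e
  let κ : T → ℕ := fun α => (φ.symm α).2
  obtain ⟨k, W, w1, w2, w3, w4⟩ := K_sq φ φ.injective κ (fun q => by simp [κ]) x
  have : CompactSpace (K κ x) := isCompact_iff_compactSpace.1 (K_closed κ x).isCompact
  have z0 : (fun _ => false) ∈ K κ x := fun α β _ _ h => by cases h
  have : Nonempty (K κ x) := ⟨⟨_, z0⟩⟩
  obtain ⟨X, x1, x2⟩ := luzin (T := T) (fun ξ => by
      rw [← Iio_insert]; exact (hT ξ).insert ξ) (Cy (K κ x)) (Cy_open _)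
    (fun U hU ⟨z, hz⟩ => (Cy_base _ hU hz).imp fun c h => ⟨⟨z, h.1⟩, h.2⟩)
    (K_ccc hT κ e he x hx) e' he'
  let j : X × X → K κ x × K κ x := Prod.map Subtype.val Subtype.val
  have j1 : IsInducing j := IsInducing.subtypeVal.prodMap IsInducing.subtypeVal
  have j2 : DenseRange j := x1.denseRange_val.prodMap x1.denseRange_val
  have hit : ∀ D : Set (X × X), Dense D → ∀ r, (Cy (K κ x) r.1).Nonempty →
      (Cy (K κ x) r.2).Nonempty → ∃ y ∈ D, j y ∈ W r := fun D hD r a b => by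
    obtain ⟨y, y1, y2⟩ := hD.inter_open_nonempty _ ((w1 r).preimage j1.continuous)
      (j2.exists_mem_open (w1 r) (w3 r a b))
    exact ⟨y, y2, y1⟩
  refine ⟨X, inferInstance, inferInstance, x2, fun hs => ?_, fun D hD => ?_⟩
  · have : Nonempty X := x1.nonempty.to_subtype
    choose y y1 y2 using fun α : T => hit _ (denseRange_denseSeq (X × X))
      ({(.inr α, false)}, ∅) ⟨⟨_, z0⟩, by simp [Cy]⟩ ⟨⟨_, z0⟩, by simp [Cy]⟩
    choose n hn using y1
    refine not_countable (α := T) (Function.Injective.countable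
      (f := fun α => (k ({(.inr α, false)}, ∅), n α)) fun α β h => ?_)
    by_contra hne
    refine disjoint_left.1 (w4 _ _ (by simpa using hne) (congrArg Prod.fst h)) (y2 α) ?_
    rw [← hn α, show n α = n β from congrArg Prod.snd h, hn β]
    exact y2 β
  · choose y y1 y2 using fun r : {r : Finset ((ℕ ⊕ T) × Bool) × Finset ((ℕ ⊕ T) × Bool) //
      (Cy (K κ x) r.1).Nonempty ∧ (Cy (K κ x) r.2).Nonempty} => hit _ (hD (k r.1)) r.1 r.2.1 r.2.2
    refine ⟨fun n => y '' {r | k r.1 = n}, fun n => ⟨?_, ?_⟩, dense_iff_inter_open.2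
      fun U hU ⟨p, hp⟩ => ?_⟩
    · rintro _ ⟨r, rfl, rfl⟩
      exact y1 r
    · rw [← isDiscrete_iff_discreteTopology, isDiscrete_iff_forall_mem_exists_isOpen]
      rintro _ ⟨r, hr, rfl⟩
      refine ⟨j ⁻¹' W r.1, (w1 _).preimage j1.continuous, Subset.antisymm ?_
        (singleton_subset_iff.2 ⟨y2 r, r, hr, rfl⟩)⟩
      rintro _ ⟨h, r', hr', rfl⟩
      by_contra hne
      exact disjoint_left.1 (w4 r.1 r'.1 (fun e => hne (by rw [Subtype.ext e]; rfl))
        (hr.trans hr'.symm)) h (y2 r')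
    · obtain ⟨V, v1, rfl⟩ := j1.isOpen_iff.1 hU
      obtain ⟨A, B, a1, b1, a2, b2, hAB⟩ := isOpen_prod_iff.1 v1 _ _ hp
      obtain ⟨c, c1, c2⟩ := Cy_base _ a1 a2
      obtain ⟨c', d1, d2⟩ := Cy_base _ b1 b2
      exact ⟨y ⟨(c, c'), ⟨_, c1⟩, ⟨_, d1⟩⟩, hAB (prod_mono c2 d2 (w2 (c, c') (y2 ⟨(c, c'), ⟨_, c1⟩, ⟨_, d1⟩⟩))),
        mem_iUnion.2 ⟨_, _, rfl, rfl⟩⟩

end Pool.Agent.H33.LSq
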