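import Mathlib
import Pool.Agent.H33.LSq
import Pool.Agent.H33.GrothEx

/-!
`C([0, ω₁])` does not embed into `C(K)` when `K ⊆ 2^Γ` has a dense set of finitely supported points.
-/

set_option autoImplicit false

open Set Filter Topology

namespace Pool.Agent.H33.NoEmb

open Pool.Agent.H33.LSq Pool.Agent.H33.SubMeta

variable {Γ K : Type} [TopologicalSpace K] [CompactSpace K] {e : K → Γ → Bool}

theorem unif (he : Continuous e) (hi : Function.Injective e) (f : C(K, ℝ)) {ε : ℝ} (hε : 0 < ε) :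
    ∃ s : Finset Γ, ∀ y y', (∀ γ ∈ s, e y γ = e y' γ) → |f y - f y'| < ε := by
  have hc : IsCompact {p : K × K | ε ≤ |f p.1 - f p.2|} :=
    (isClosed_le continuous_const (by fun_prop)).isCompact
  obtain ⟨s, hs⟩ := hc.elim_finite_subcover (fun γ => {p : K × K | e p.1 γ ≠ e p.2 γ})
    (fun γ => isOpen_ne_fun ((continuous_apply γ).comp (he.comp continuous_fst))
      ((continuous_apply γ).comp (he.comp continuous_snd))) fun p hp => by
      by_contra h
      simp only [mem_iUnion, not_exists, mem_ofPred_eq, not_not] at h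
      have : p.1 = p.2 := hi (funext h)
      have h2 : ε ≤ |f p.1 - f p.2| := hp
      rw [this, sub_self, abs_zero] at h2
      exact absurd hε (not_lt.2 h2)
  refine ⟨s, fun y y' h => ?_⟩
  by_contra h1
  obtain ⟨γ, h2, h3⟩ := mem_iUnion₂.1 (hs (show (y, y') ∈ _ from not_lt.1 h1))
  exact h3 (h γ h2)

theorem core {T : Type} [LinearOrder T] [Uncountable T] (hT : ∀ ξ : T, (Iio ξ).Countable)
    (he : Continuous e) (hi : Function.Injective e) (hD : Dense {y | {γ | e y γ = true}.Finite})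
    (f : T → C(K, ℝ)) {c M : ℝ} (hc : 0 < c)
    (hvar : ∀ (m : ℕ) (a b : ℕ → T), (∀ i, a i < b i ∧ b i ≤ a (i + 1)) → ∀ y,
      ∑ i ∈ Finset.range m, |f (b i) y - f (a i) y| ≤ M)
    (hlow : ∀ (m : ℕ) (a : ℕ → T), StrictMono a →
      c * m ≤ ‖∑ i ∈ Finset.range m, (f (a (m + i)) - f (a i))‖) : False := by
  classical
  have hε : 0 < c / 8 := by positivity
  choose s hs using fun t => unif he hi (f t) hε
  obtain ⟨J, -, hJ, R, hR⟩ := delta s Set.univ not_countable_univ
  let pat : K → Finset Γ := fun y => R.filter fun γ => e y γ = true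
  have h1 : ∀ y : {y | {γ | e y γ = true}.Finite}, ∃ P : R.powerset, P.1 = pat y := fun y =>
    ⟨⟨pat y, Finset.mem_powerset.2 (Finset.filter_subset _ _)⟩, rfl⟩
  choose π hπ using h1
  let bad : K → Set T := fun y => {t | t ∈ J ∧ ∃ γ ∈ s t, γ ∉ R ∧ e y γ = true}
  have hbad : ∀ y : {y | {γ | e y γ = true}.Finite}, (bad y).Finite := by
    intro y
    refine (y.2.biUnion (t := fun γ => {t | t ∈ J ∧ γ ∈ s t ∧ γ ∉ R}) fun γ _ =>
      Set.Subsingleton.finite fun a ha b hb => ?_).subset fun t ⟨h1, γ, h2, h3, h4⟩ =>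
        mem_biUnion h4 (And.intro h1 (And.intro h2 h3))
    by_contra h
    exact ha.2.2 (hR a ha.1 b hb.1 h ▸ Finset.mem_inter.2 ⟨ha.2.1, hb.2.1⟩)
  have h2 : ∀ P : range π, ∃ y, π y = P.1 := fun P => P.2
  choose rep hrep using h2
  obtain ⟨v, hv⟩ := unc_fiber hJ fun t (P : range π) => ⌊f t (rep P) / (c / 8)⌋
  let J3 : Set T := {t ∈ J | (fun P : range π => ⌊f t (rep P) / (c / 8)⌋) = v} \ ⋃ P, bad (rep P)
  have hJ3 : ¬ J3.Countable := fun h => hv
    ((h.union (finite_iUnion fun P => hbad (rep P)).countable).mono (subset_sdiff_union _ _))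
  have h3 : ∀ y : {y | {γ | e y γ = true}.Finite}, ∀ t ∈ J3, t ∉ bad y →
      |f t y - f t (rep ⟨π y, y, rfl⟩)| < c / 8 := by
    intro y t ht hy
    refine hs t _ _ fun γ hγ => ?_
    by_cases h : γ ∈ R
    · have h4 : pat (rep ⟨π y, y, rfl⟩) = pat y := by rw [← hπ, hrep, hπ]
      have h5 := Finset.ext_iff.1 h4 γ
      simp only [pat, Finset.mem_filter, h, true_and] at h5
      exact Bool.eq_iff_iff.2 h5.symm
    · have h4 : ¬ e y γ = true := fun h' => hy ⟨ht.1.1, γ, hγ, h, h'⟩
      have h5 : ¬ e (rep ⟨π y, y, rfl⟩) γ = true := fun h' =>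
        ht.2 (mem_iUnion.2 ⟨_, ht.1.1, γ, hγ, h, h'⟩)
      rw [Bool.not_eq_true] at h4 h5
      rw [h4, h5]
  have h4 : ∀ y : {y | {γ | e y γ = true}.Finite}, ∀ t ∈ J3, t ∉ bad y → ∀ t' ∈ J3, t' ∉ bad y →
      |f t y - f t' y| ≤ 3 * (c / 8) := by
    intro y t ht hy t' ht' hy'
    have a1 := abs_lt.1 (h3 y t ht hy)
    have a2 := abs_lt.1 (h3 y t' ht' hy')
    have a3 := Int.abs_sub_lt_one_of_floor_eq_floor
      ((congrFun ht.1.2 ⟨π y, y, rfl⟩).trans (congrFun ht'.1.2 ⟨π y, y, rfl⟩).symm)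
    rw [← sub_div, abs_div, abs_of_pos hε, div_lt_one hε, abs_lt] at a3
    rw [abs_le]
    constructor <;> linarith [a1.1, a1.2, a2.1, a2.2, a3.1, a3.2]
  have h5 : ∀ t : T, ∃ t', (J3 ∩ Ioc t t').Infinite := by
    intro t
    have h6 : (J3 \ Iic t).Infinite := fun h => hJ3 ((h.countable.union
      (by rw [← Iio_insert]; exact (hT t).insert t : (Iic t).Countable)).mono (subset_sdiff_union _ _))
    obtain ⟨t', ht'⟩ := bddT hT (range fun n => (h6.natEmbedding _ n).1) (countable_range _)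
    refine ⟨t', (infinite_range_of_injective
      (Subtype.val_injective.comp (h6.natEmbedding _).injective)).mono ?_⟩
    rintro _ ⟨n, rfl⟩
    exact ⟨(h6.natEmbedding _ n).2.1, not_le.1 (h6.natEmbedding _ n).2.2, (ht' _ ⟨n, rfl⟩).le⟩
  choose nx hnx using h5
  obtain ⟨t0⟩ : Nonempty T := inferInstance
  let a : ℕ → T := fun n => nx^[n] t0
  have ha : ∀ n, (J3 ∩ Ioc (a n) (a (n + 1))).Infinite := fun n => by
    have : a (n + 1) = nx (a n) := Function.iterate_succ_apply' _ _ _
    rw [this]; exact hnx _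
  have hm : StrictMono a := strictMono_nat_of_lt_succ fun n => by
    obtain ⟨t, ht⟩ := (ha n).nonempty
    exact ht.2.1.trans_le ht.2.2
  obtain ⟨m, hm'⟩ := exists_nat_gt (max M 0 / (c / 8))
  rw [div_lt_iff₀ hε] at hm'
  have h6 : ‖∑ i ∈ Finset.range m, (f (a (m + i)) - f (a i))‖ ≤ max M 0 + m * (3 * (c / 8)) := by
    rw [ContinuousMap.norm_le _ (by positivity)]
    intro y
    refine closure_minimal (s := {y | {γ | e y γ = true}.Finite})
      (t := {y | ‖(∑ i ∈ Finset.range m, (f (a (m + i)) - f (a i))) y‖ ≤ _}) (fun y hy => ?_)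
      (isClosed_le (by fun_prop) continuous_const) (hD y)
    have h7 : ∀ n, ∃ t, t ∈ J3 ∩ Ioc (a n) (a (n + 1)) ∧ t ∉ bad y := fun n =>
      ((ha n).sdiff (hbad ⟨y, hy⟩)).nonempty
    choose b hb1 hb2 using h7
    have h8 := hvar (m + m) a b (fun i => (hb1 i).2) y
    rw [Finset.sum_range_add, ← Finset.sum_add_distrib] at h8
    show ‖_‖ ≤ _
    rw [ContinuousMap.sum_apply, Real.norm_eq_abs]
    refine (Finset.abs_sum_le_sum_abs _ _).trans ?_
    calc _ ≤ ∑ i ∈ Finset.range m, ((|f (b i) y - f (a i) y| +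
          |f (b (m + i)) y - f (a (m + i)) y|) + 3 * (c / 8)) := by
          refine Finset.sum_le_sum fun i _ => ?_
          have a1 := abs_le.1 (h4 ⟨y, hy⟩ _ (hb1 i).1 (hb2 i) _ (hb1 (m + i)).1 (hb2 (m + i)))
          have a2 := abs_le.1 (le_refl |f (b i) y - f (a i) y|)
          have a3 := abs_le.1 (le_refl |f (b (m + i)) y - f (a (m + i)) y|)
          rw [ContinuousMap.sub_apply, abs_le]
          constructor <;> linarith [a1.1, a1.2, a2.1, a2.2, a3.1, a3.2]
      _ ≤ _ := by
          rw [Finset.sum_add_distrib, Finset.sum_const, Finset.card_range, nsmul_eq_mul]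
          linarith [le_max_left M 0]
  have h7 := hlow m a hm
  have : 0 ≤ (m : ℝ) * (c / 8) := by positivity
  linarith

open Ordinal in
abbrev W : Type 1 := Iic (ω_ 1 : Ordinal.{0})

open Ordinal in
abbrev T1 : Type := (ω_ 1 : Ordinal.{0}).ToType

noncomputable def τ (t : T1) : Ordinal.{0} := (Ordinal.ToType.mk.symm t).1

theorem τ_lt (t : T1) : τ t < Ordinal.omega 1 := (Ordinal.ToType.mk.symm t).2

theorem τ_mono : StrictMono τ := fun _ _ h => Ordinal.ToType.mk.symm.strictMono h

theorem τ_surj {o : Ordinal.{0}} (h : o < Ordinal.omega 1) : ∃ t, τ t = o :=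
  ⟨Ordinal.ToType.mk ⟨o, h⟩, by simp [τ]⟩

open Cardinal in
theorem T1_iio (ξ : T1) : (Iio ξ).Countable := by
  rw [← le_aleph0_iff_set_countable, ← Order.lt_succ_iff, succ_aleph0]
  exact (mk_Iio_lt ξ (by simp)).trans_eq (by simp)

open Cardinal in
instance : Uncountable T1 := by
  rw [← aleph0_lt_mk_iff]; simp

instance : CompactSpace W := isCompact_iff_compactSpace.1 (by
  rw [← Icc_bot]; exact isCompact_Icc)

theorem clopen_le (o : Ordinal.{0}) : IsClopen {p : W | p.1 ≤ o} :=
  ⟨isClosed_Iic.preimage continuous_subtype_val, by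
    simp only [← Order.lt_succ_iff]
    exact isOpen_Iio.preimage continuous_subtype_val⟩

noncomputable def u (t : T1) : C(W, ℝ) :=
  ⟨fun p => if p.1 ≤ τ t then 1 else 0, continuous_if' (fun p hp => by
    simp [(clopen_le (τ t)).frontier_eq] at hp) (fun p hp => by
    simp [(clopen_le (τ t)).frontier_eq] at hp) continuousOn_const continuousOn_const⟩

theorem no_emb (he : Continuous e) (hi : Function.Injective e)
    (hD : Dense {y | {γ | e y γ = true}.Finite}) (S : C(W, ℝ) →L[ℝ] C(K, ℝ)) {c : ℝ} (hc : 0 < c)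
    (hS : ∀ g, c * ‖g‖ ≤ ‖S g‖) : False := by
  have hmono : ∀ p, Monotone fun t => u t p := fun p s t h => by
    simp only [u, ContinuousMap.coe_mk]
    split_ifs with h1 h2
    · exact le_rfl
    · exact absurd (h1.trans (τ_mono.monotone h)) h2
    · exact zero_le_one
    · exact le_rfl
  have h01 : ∀ t p, 0 ≤ u t p ∧ u t p ≤ 1 := fun t p => by
    simp only [u, ContinuousMap.coe_mk]
    split_ifs <;> simp
  refine core T1_iio he hi hD (fun t => S (u t)) hc (M := ‖S‖) (fun m a b hab y => ?_)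
    fun m a ha => ?_
  · let σ : ℕ → ℝ := fun i => SignType.sign (S (u (b i)) y - S (u (a i)) y)
    have h1 : ‖∑ i ∈ Finset.range m, σ i • (u (b i) - u (a i))‖ ≤ 1 := by
      rw [ContinuousMap.norm_le _ zero_le_one]
      intro p
      rw [ContinuousMap.sum_apply]
      refine (norm_sum_le _ _).trans ?_
      calc _ ≤ ∑ i ∈ Finset.range m, (u (a (i + 1)) p - u (a i) p) := by
            refine Finset.sum_le_sum fun i _ => ?_
            have a1 := hmono p (hab i).1.le
            have a2 := hmono p (hab i).2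
            have a3 : |σ i| ≤ 1 := by
              simp only [σ]
              cases SignType.sign (S (u (b i)) y - S (u (a i)) y) <;> simp
            simp only [ContinuousMap.smul_apply, ContinuousMap.sub_apply, smul_eq_mul,
              Real.norm_eq_abs, abs_mul] at a1 a2 ⊢
            rw [abs_of_nonneg (sub_nonneg.2 a1)]
            nlinarith [abs_nonneg (σ i)]
        _ ≤ 1 := by
            rw [Finset.sum_range_sub fun i => u (a i) p]
            linarith [(h01 (a m) p).2, (h01 (a 0) p).1]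
    have h2 := (S.le_opNorm _).trans (mul_le_of_le_one_right (norm_nonneg S) h1)
    refine le_trans (le_of_eq ?_) ((le_abs_self _).trans
      ((ContinuousMap.norm_coe_le_norm _ y).trans h2))
    rw [map_sum, ContinuousMap.sum_apply]
    refine Finset.sum_congr rfl fun i _ => ?_
    simp [σ, sign_mul_self]
  · simp only [← map_sub, ← map_sum]
    refine le_trans (mul_le_mul_of_nonneg_left ?_ hc.le) (hS _)
    refine le_trans (le_of_eq ?_) ((le_abs_self _).trans
      (ContinuousMap.norm_coe_le_norm (∑ x ∈ Finset.range m, (u (a (m + x)) - u (a x)))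
        (⟨τ (a m), (τ_lt _).le⟩ : W)))
    rw [ContinuousMap.sum_apply, Finset.sum_congr rfl (g := fun _ => 1)]
    · simp
    · intro i hi
      simp [u, τ_mono.le_iff_le, ha.le_iff_le, Finset.mem_range.1 hi]

theorem diag (c : ℕ → ℕ → ℕ) (hc : ∀ j k, ∀ᶠ n in atTop, k * c j n ≤ n) :
    ∃ J : ℕ → ℕ, (∀ j, ∀ᶠ n in atTop, j ≤ J n) ∧
      ∀ k, ∀ᶠ n in atTop, k * (1 + ∑ j ∈ Finset.range (J n), c j n) ≤ n := by
  have h1 : ∀ j k, ∀ᶠ n in atTop, k * (1 + ∑ i ∈ Finset.range j, c i n) ≤ n := by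
    intro j
    induction j with
    | zero => intro k; simpa using eventually_ge_atTop k
    | succ j ih =>
      intro k
      filter_upwards [ih (2 * k), hc j (2 * k)] with n a b
      rw [Finset.sum_range_succ]
      nlinarith
  let J : ℕ → ℕ := fun n =>
    Nat.findGreatest (fun j => j * (1 + ∑ i ∈ Finset.range j, c i n) ≤ n) n
  have h2 : ∀ j, ∀ᶠ n in atTop, j ≤ J n := fun j => by
    filter_upwards [h1 j j, eventually_ge_atTop j] with n a b
    exact Nat.le_findGreatest b a
  refine ⟨J, h2, fun k => (h2 k).mono fun n hn => (Nat.mul_le_mul_right _ hn).trans ?_⟩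
  exact Nat.findGreatest_spec (P := fun j => j * (1 + ∑ i ∈ Finset.range j, c i n) ≤ n)
    (Nat.zero_le n) (by simp)

theorem exists_F : ∃ F : T1 → ℕ → Finset T1, ∀ β,
    (∀ n, ∀ ξ ∈ F β n, ξ ≤ β ∧ F ξ n ⊆ F β n) ∧ (∀ ξ ≤ β, ∀ᶠ n in atTop, ξ ∈ F β n) ∧
    ∀ k, ∀ᶠ n in atTop, k * (F β n).card ≤ n := by
  classical
  have h1 : ∀ β : T1, ∃ x : ℕ → T1, Iio β ⊆ range x := fun β => by
    obtain ⟨x, hx⟩ := ((T1_iio β).insert β).exists_eq_range (insert_nonempty _ _)
    exact ⟨x, hx ▸ subset_insert _ _⟩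
  choose x hx using h1
  have h2 : ∀ g : ℕ → ℕ → Finset T1, ∃ J : ℕ → ℕ,
      (∀ j k, ∀ᶠ n in atTop, k * (g j n).card ≤ n) → (∀ j, ∀ᶠ n in atTop, j ≤ J n) ∧
      ∀ k, ∀ᶠ n in atTop, k * (1 + ∑ j ∈ Finset.range (J n), (g j n).card) ≤ n := by
    intro g
    by_cases h : ∀ j k, ∀ᶠ n in atTop, k * (g j n).card ≤ n
    · exact (diag _ h).imp fun _ h _ => h
    · exact ⟨id, fun h' => absurd h' h⟩
  choose J hJ using h2
  let g : T1 → (T1 → ℕ → Finset T1) → ℕ → ℕ → Finset T1 := fun β f j n =>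
    if x β j < β then f (x β j) n else ∅
  obtain ⟨F, hF⟩ := GrothEx.exists_rec (fun _ => (∅ : Finset T1))
    (fun (β : T1) f (n : ℕ) => insert β ((Finset.range (J (g β f) n)).biUnion fun j => g β f j n))
    fun β f f' h => by
      have : g β f = g β f' := by
        funext j n
        by_cases h' : x β j < β <;> simp [g, h', h]
      rw [this]
  have h0 : ∀ β n, β ∈ F β n := fun β n => by rw [hF]; exact Finset.mem_insert_self _ _
  refine ⟨F, fun β => ?_⟩
  induction β using WellFoundedLT.induction with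
  | _ β ih =>
  obtain ⟨j1, j2⟩ := hJ (g β F) fun j k => by
    by_cases h : x β j < β
    · simpa [g, h] using (ih _ h).2.2 k
    · simp [g, h]
  refine ⟨fun n ξ hξ => ?_, fun ξ hξ => ?_, fun k => (j2 k).mono fun n hn => le_trans ?_ hn⟩
  · have hξ' := hξ
    rw [hF, Finset.mem_insert, Finset.mem_biUnion] at hξ'
    rcases hξ' with rfl | ⟨j, h3, h4⟩
    · exact ⟨le_rfl, Finset.Subset.refl _⟩
    · by_cases h : x β j < β
      · simp only [g, h, if_true] at h4
        obtain ⟨h5, h6⟩ := (ih _ h).1 n ξ h4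
        refine ⟨h5.trans h.le, h6.trans fun η hη => ?_⟩
        rw [hF β]
        exact Finset.mem_insert_of_mem (Finset.mem_biUnion.2 ⟨j, h3, by simpa [g, h] using hη⟩)
      · simp [g, h] at h4
  · rcases hξ.eq_or_lt with rfl | h
    · exact Eventually.of_forall (h0 _)
    · obtain ⟨j, rfl⟩ := hx β h
      refine (j1 (j + 1)).mono fun n hn => ?_
      rw [hF β]
      exact Finset.mem_insert_of_mem (Finset.mem_biUnion.2
        ⟨j, Finset.mem_range.2 hn, by simpa [g, h] using h0 _ n⟩)
  · refine Nat.mul_le_mul_left _ ?_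
    rw [hF β]
    exact (Finset.card_insert_le _ _).trans (by rw [add_comm]; gcongr; exact Finset.card_biUnion_le)

open Classical in
noncomputable def pt (n : ℕ) (s : Finset T1) : ℕ ⊕ T1 → Bool :=
  Sum.elim (fun k => decide (k < n)) fun η => decide (η ∈ s)

def DD (F : T1 → ℕ → Finset T1) : Set (ℕ ⊕ T1 → Bool) :=
  {y | ∃ n s, s.card ≤ n ∧ (∀ η ∈ s, F η n ⊆ s) ∧ y = pt n s}

theorem cl_imp {I : Type} {D : Set (I → Bool)} {y : I → Bool} (hy : y ∈ closure D) (s : Finset I) :
    ∃ z ∈ D, ∀ i ∈ s, z i = y i := by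
  obtain ⟨z, h1, h2⟩ := mem_closure_iff.1 hy (⋂ i ∈ s, {z | z i = y i})
    (isOpen_biInter_finset fun i _ => open_eq i _) (by simp)
  exact ⟨z, h2, by simpa using h1⟩

theorem exists_K : ∃ (K : Type) (_ : TopologicalSpace K) (_ : CompactSpace K) (_ : T2Space K)
    (e : K → ℕ ⊕ T1 → Bool), IsEmbedding e ∧ Dense {y | {γ | e y γ = true}.Finite} ∧
    (∀ A : Set K, A.Nonempty → ∃ x ∈ A, ∃ U : Set K, IsOpen U ∧ U ∩ A = {x}) ∧
    ∃ f : W → K, IsEmbedding f := by
  classical
  obtain ⟨F, hF⟩ := exists_F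
  have hcomp : CompactSpace (closure (DD F)) :=
    isCompact_iff_compactSpace.1 isClosed_closure.isCompact
  have hop : ∀ i b, IsOpen {y : closure (DD F) | y.1 i = b} := fun i b =>
    (open_eq i b).preimage continuous_subtype_val
  refine ⟨closure (DD F), inferInstance, hcomp, inferInstance, Subtype.val,
    IsEmbedding.subtypeVal, ?_, ?_, ?_⟩
  · rw [Subtype.dense_iff]
    refine closure_mono ?_
    rintro _ ⟨n, s, h1, h2, rfl⟩
    refine ⟨⟨_, subset_closure ⟨n, s, h1, h2, rfl⟩⟩, ?_, rfl⟩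
    refine (((finite_lt_nat n).image Sum.inl).union (s.finite_toSet.image Sum.inr)).subset ?_
    rintro (k | η) h <;> simpa [pt] using h
  · intro A hA
    by_cases h : ∃ y ∈ A, ∃ n, y.1 (Sum.inl n) = false
    · obtain ⟨y0, hy0, n, hn⟩ := h
      have hb : ∀ y : closure (DD F), y.1 (Sum.inl n) = false → ∀ s : Finset (ℕ ⊕ T1),
          (∀ i ∈ s, y.1 i = true) → s.card ≤ n + n := by
        intro y hy s hs
        obtain ⟨_, ⟨m, t, h1, -, rfl⟩, h2⟩ := cl_imp y.2 (insert (Sum.inl n) s)
        have h3 : m ≤ n := by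
          have := h2 _ (Finset.mem_insert_self _ _)
          rw [hy] at this
          simpa [pt] using this
        have h4 : s ⊆ (Finset.range m).disjSum t := by
          intro i hi
          have := h2 i (Finset.mem_insert_of_mem hi)
          rw [hs i hi] at this
          rcases i with k | η <;> simpa [pt] using this
        have := Finset.card_le_card h4
        rw [Finset.card_disjSum, Finset.card_range] at this
        omega
      obtain ⟨_, ⟨y, hy, hyn, s, hs, rfl⟩, hmax⟩ := Set.exists_max_image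
        {c | ∃ y ∈ A, y.1 (Sum.inl n) = false ∧ ∃ s : Finset (ℕ ⊕ T1),
          (∀ i ∈ s, y.1 i = true) ∧ s.card = c} id
        ((finite_le_nat (n + n)).subset fun c ⟨y, _, h1, s, h2, h3⟩ => h3 ▸ hb y h1 s h2)
        ⟨0, y0, hy0, hn, ∅, by simp, rfl⟩
      have key : ∀ z ∈ A, z.1 (Sum.inl n) = false → (∀ i ∈ s, z.1 i = true) →
          ∀ i, z.1 i = decide (i ∈ s) := by
        intro z hz h1 h2 i
        by_cases hi : i ∈ s
        · simp [hi, h2 i hi]
        · by_contra h3
          have h4 : z.1 i = true := by simpa [hi] using h3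
          have := hmax _ ⟨z, hz, h1, insert i s, by simpa [h4] using h2, rfl⟩
          simp [hi] at this
      refine ⟨y, hy, {z | z.1 (Sum.inl n) = false} ∩ ⋂ i ∈ s, {z | z.1 i = true},
        (hop _ _).inter (isOpen_biInter_finset fun i _ => hop _ _), ?_⟩
      refine eq_singleton_iff_unique_mem.2 ⟨⟨⟨hyn, by simpa using hs⟩, hy⟩, fun z hz => ?_⟩
      exact Subtype.ext (funext fun i => by
        rw [key z hz.2 hz.1.1 (by simpa using hz.1.2), key y hy hyn hs])
    · have h1 : ∀ y ∈ A, ∀ n, y.1 (Sum.inl n) = true := fun y hy n => by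
        by_contra h2
        exact h ⟨y, hy, n, by simpa using h2⟩
      have h2 : ∀ y ∈ A, ∀ ξ η, ξ ≤ η → y.1 (Sum.inr η) = true → y.1 (Sum.inr ξ) = true := by
        intro y hy ξ η hξ hη
        obtain ⟨N, hN⟩ := eventually_atTop.1 ((hF η).2.1 ξ hξ)
        obtain ⟨_, ⟨m, t, -, h3, rfl⟩, h4⟩ := cl_imp y.2 {Sum.inl N, Sum.inr η, Sum.inr ξ}
        have a1 := h4 (Sum.inl N) (by simp)
        have a2 := h4 (Sum.inr η) (by simp)
        have a3 := h4 (Sum.inr ξ) (by simp)
        rw [h1 y hy] at a1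
        rw [hη] at a2
        rw [← a3]
        simp only [pt, Sum.elim_inl, Sum.elim_inr, decide_eq_true_eq] at a1 a2 ⊢
        exact h3 η a2 (hN m a1.le)
      by_cases h3 : ∃ η, ∃ y ∈ A, y.1 (Sum.inr η) = false
      · obtain ⟨η, ⟨y, hy, h4⟩, h5⟩ := (wellFounded_lt (α := T1)).has_min _ h3
        have key : ∀ z ∈ A, z.1 (Sum.inr η) = false → ∀ ξ, z.1 (Sum.inr ξ) = decide (ξ < η) := by
          intro z hz h6 ξ
          by_cases h7 : ξ < η
          · by_contra h8
            exact h5 ξ ⟨z, hz, by simpa [h7] using h8⟩ h7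
          · by_contra h8
            have := h2 z hz η ξ (not_lt.1 h7) (by simpa [h7] using h8)
            rw [h6] at this
            exact Bool.false_ne_true this
        refine ⟨y, hy, _, hop (Sum.inr η) false,
          eq_singleton_iff_unique_mem.2 ⟨⟨h4, hy⟩, fun z hz => Subtype.ext (funext ?_)⟩⟩
        rintro (k | ξ)
        · rw [h1 z hz.2, h1 y hy]
        · rw [key z hz.2 hz.1, key y hy h4]
      · obtain ⟨y, hy⟩ := hA
        have h4 : ∀ z ∈ A, ∀ η, z.1 (Sum.inr η) = true := fun z hz η => by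
          by_contra h5
          exact h3 ⟨η, z, hz, by simpa using h5⟩
        refine ⟨y, hy, Set.univ, isOpen_univ,
          eq_singleton_iff_unique_mem.2 ⟨⟨trivial, hy⟩, fun z hz => Subtype.ext (funext ?_)⟩⟩
        rintro (k | ξ)
        · rw [h1 z hz.2, h1 y hy]
        · rw [h4 z hz.2, h4 y hy]
  · let φ : W → ℕ ⊕ T1 → Bool := fun a => Sum.elim (fun _ => true) fun η => !decide (a.1 ≤ τ η)
    have hφ : ∀ a, φ a ∈ closure (DD F) := by
      intro a
      rw [mem_closure_iff_nhds]
      intro U hU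
      obtain ⟨I, hI⟩ := cyl hU
      have h1 : ∀ᶠ n in atTop, ∀ i ∈ I.toLeft, i < n :=
        (eventually_all_finset _).2 fun i _ => eventually_gt_atTop i
      by_cases h : (I.toRight.filter fun η => τ η < a.1).Nonempty
      · obtain ⟨β, hβ, hmax⟩ := Finset.exists_max_image _ id h
        have h2 : ∀ᶠ n in atTop, ∀ η ∈ I.toRight.filter fun η => τ η < a.1, η ∈ F β n :=
          (eventually_all_finset _).2 fun η hη => (hF β).2.1 η (hmax η hη)
        obtain ⟨n, h3, h4, h5⟩ := (h1.and (h2.and ((hF β).2.2 1))).exists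
        refine ⟨pt n (F β n), hI _ ?_, n, _, by simpa using h5,
          fun η hη => ((hF β).1 n η hη).2, rfl⟩
        rintro (k | η) hi
        · simpa [pt, φ] using h3 k (by simpa using hi)
        · by_cases h6 : τ η < a.1
          · simpa [pt, φ, not_le.2 h6] using h4 η (by simpa [h6] using hi)
          · have : η ∉ F β n := fun h7 => h6 ((τ_mono.monotone ((hF β).1 n η h7).1).trans_lt
              (Finset.mem_filter.1 hβ).2)
            simp [pt, φ, not_lt.1 h6, this]
      · obtain ⟨n, h3⟩ := h1.exists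
        refine ⟨pt n ∅, hI _ ?_, n, _, by simp, by simp, rfl⟩
        rintro (k | η) hi
        · simpa [pt, φ] using h3 k (by simpa using hi)
        · have : a.1 ≤ τ η := not_lt.1 fun h6 => h ⟨η, by simpa [h6] using hi⟩
          simp [pt, φ, this]
    have hc : Continuous φ := continuous_pi fun i => by
      rcases i with k | η
      · exact continuous_const
      · refine (continuous_of_discreteTopology (f := fun b : Bool => !b)).comp ?_
        exact ((continuous_boolIndicator_iff_isClopen _).2 (clopen_le (τ η))).congr fun a => by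
          simp [boolIndicator]
    refine ⟨fun a => ⟨φ a, hφ a⟩, ((hc.subtype_mk hφ).isClosedEmbedding ?_).isEmbedding⟩
    have h1 : ∀ a b : W, a.1 < b.1 → φ a ≠ φ b := fun a b hab h => by
      obtain ⟨η, hη⟩ := τ_surj (hab.trans_le b.2)
      have := congrFun h (Sum.inr η)
      simp [φ, hη, not_le.2 hab] at this
    intro a b h
    have h2 : φ a = φ b := congrArg Subtype.val h
    rcases lt_trichotomy a.1 b.1 with h3 | h3 | h3
    · exact absurd h2 (h1 a b h3)
    · exact Subtype.ext h3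
    · exact absurd h2.symm (h1 b a h3)

theorem valdivia {K Γ : Type} [TopologicalSpace K] {e : K → Γ → Bool} (he : IsEmbedding e)
    (hD : Dense {y | {γ | e y γ = true}.Finite}) :
    ∃ (Γ : Type) (h : K → (Γ → ℝ)), IsEmbedding h ∧
      Dense {x : K | {γ : Γ | h x γ ≠ 0}.Countable} := by
  have h1 : IsEmbedding fun b : Bool => (cond b 1 0 : ℝ) :=
    ((continuous_of_discreteTopology).isClosedEmbedding fun a b h => by
      cases a <;> cases b <;> simp_all).isEmbedding
  refine ⟨Γ, fun y γ => cond (e y γ) 1 0, (IsEmbedding.piMap fun _ => h1).comp he,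
    hD.mono fun y hy => (Set.Finite.countable hy).mono fun γ hγ => ?_⟩
  by_contra h
  simp only [mem_ofPred_eq, Bool.not_eq_true] at h hγ
  simp [h] at hγ

end Pool.Agent.H33.NoEmb
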