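import Mathlib
import Pool.Agent.H33.Groth

/-!
Closing-off systems on compact spaces, retractions, and criteria for Corson and Eberlein
compactness.
-/

open Set Filter Topology Cardinal

namespace Pool.Agent.H33.Retr

open Pool.Agent.H33.Groth

universe u

section Hull

variable {B : Type u} (ψ : Finset B → Set B)

/-- closed under `ψ` -/
def Cl (A : Set B) : Prop := ∀ s : Finset B, ↑s ⊆ A → ψ s ⊆ A

/-- one step -/
def step (S : Set B) : Set B := S ∪ ⋃ s ∈ {s : Finset B | ↑s ⊆ S}, ψ s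

/-- the hull -/
def hull (S : Set B) : Set B := ⋃ n, (step ψ)^[n] S

theorem finset_subset_chain {α : Type*} {S : ℕ → Set α} (hS : Monotone S) {s : Finset α}
    (h : ↑s ⊆ ⋃ n, S n) : ∃ n, ↑s ⊆ S n :=
  ((eventually_all_finset s (l := atTop) (p := fun f n => f ∈ S n)).2 fun f hf => by
    obtain ⟨m, hm⟩ := mem_iUnion.1 (h hf)
    exact (eventually_ge_atTop m).mono fun n hn => hS hn hm).exists

theorem subset_hull (S : Set B) : S ⊆ hull ψ S := subset_iUnion (fun n => (step ψ)^[n] S) 0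

theorem cl_hull (S : Set B) : Cl ψ (hull ψ S) := by
  intro s hs
  obtain ⟨n, hn⟩ := finset_subset_chain (S := fun n => (step ψ)^[n] S)
    (monotone_nat_of_le_succ fun n => by
      rw [Function.iterate_succ_apply']
      exact subset_union_left) hs
  refine Subset.trans ?_ (subset_iUnion _ (n + 1))
  rw [Function.iterate_succ_apply']
  exact (subset_biUnion_of_mem (u := fun s => ψ s) hn).trans subset_union_right

theorem hull_min {S T : Set B} (h : S ⊆ T) (hT : Cl ψ T) : hull ψ S ⊆ T := by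
  refine iUnion_subset fun n => ?_
  induction n with
  | zero => exact h
  | succ n ih =>
    rw [Function.iterate_succ_apply']
    exact union_subset ih (iUnion₂_subset fun s hs => hT s (Subset.trans hs ih))

theorem hull_mono {S T : Set B} (h : S ⊆ T) : hull ψ S ⊆ hull ψ T :=
  hull_min ψ (h.trans (subset_hull ψ T)) (cl_hull ψ T)

theorem finset_hull_aux {S : Set B} {s : Finset B}
    (h : ∀ b ∈ s, ∃ t : Finset B, ↑t ⊆ S ∧ b ∈ hull ψ t) :
    ∃ t : Finset B, ↑t ⊆ S ∧ ↑s ⊆ hull ψ t := by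
  classical
  choose! t ht hb using h
  refine ⟨s.biUnion t, ?_, fun b hb' => hull_mono ψ ?_ (hb b hb')⟩
  · rw [Finset.coe_biUnion]
    exact iUnion₂_subset ht
  · exact Finset.coe_subset.2 (Finset.subset_biUnion_of_mem t hb')

theorem finset_hull {S : Set B} {s : Finset B} (h : ↑s ⊆ hull ψ S) :
    ∃ t : Finset B, ↑t ⊆ S ∧ ↑s ⊆ hull ψ t := by
  have : hull ψ S ⊆ {b | ∃ t : Finset B, ↑t ⊆ S ∧ b ∈ hull ψ t} := by
    refine hull_min ψ (fun b hb => ⟨{b}, by simpa using hb, subset_hull ψ _ (by simp)⟩) ?_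
    intro s hs b hb
    obtain ⟨t, ht, hst⟩ := finset_hull_aux ψ hs
    exact ⟨t, ht, cl_hull ψ _ s hst hb⟩
  exact finset_hull_aux ψ fun b hb => this (h hb)

theorem mk_finsets_le (S : Set B) : #{s : Finset B | ↑s ⊆ S} ≤ max ℵ₀ #S := by
  classical
  refine le_trans (mk_le_of_surjective (f := fun l : List S =>
    (⟨(l.map Subtype.val).toFinset, fun b hb => ?_⟩ : {s : Finset B | ↑s ⊆ S})) ?_)
    (mk_list_le_max S)
  · simp only [List.coe_toFinset, List.mem_map, mem_ofPred_eq] at hb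
    obtain ⟨a, -, rfl⟩ := hb
    exact a.2
  · rintro ⟨s, hs⟩
    refine ⟨s.attach.toList.map fun b => ⟨b.1, hs b.2⟩, Subtype.ext ?_⟩
    ext b
    simp

theorem mk_hull_le (hψ : ∀ s, (ψ s).Countable) {S : Set B} {κ : Cardinal.{u}} (hκ : ℵ₀ ≤ κ)
    (hS : #S ≤ κ) : #(hull ψ S) ≤ κ := by
  have h1 : ∀ T : Set B, #T ≤ κ → #(step ψ T) ≤ κ := by
    intro T hT
    refine (mk_union_le _ _).trans (add_le_of_le hκ hT ((mk_biUnion_le _ _).trans ?_))
    refine mul_le_of_le hκ ((mk_finsets_le T).trans (max_le hκ hT)) (ciSup_le' fun s => ?_)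
    exact (le_aleph0_iff_set_countable.2 (hψ _)).trans hκ
  have h2 : ∀ n, #((step ψ)^[n] S) ≤ κ := by
    intro n
    induction n with
    | zero => exact hS
    | succ n ih =>
      rw [Function.iterate_succ_apply']
      exact h1 _ ih
  have h3 := mk_iUnion_le_lift (fun n => (step ψ)^[n] S)
  simp only [lift_uzero, mk_nat, lift_aleph0] at h3
  exact h3.trans (mul_le_of_le hκ hκ (ciSup_le' h2))

theorem countable_hull (hψ : ∀ s, (ψ s).Countable) {S : Set B} (hS : S.Countable) :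
    (hull ψ S).Countable :=
  le_aleph0_iff_set_countable.1 (mk_hull_le ψ hψ le_rfl (le_aleph0_iff_set_countable.2 hS))

/-- data of a transfinite approximation -/
def Approx {ι : Type u} [LinearOrder ι] (L U : ι → Set B) (A : Set B) : Prop :=
  (∀ ξ, Cl ψ (L ξ)) ∧ (∀ ξ, Cl ψ (U ξ)) ∧ (∀ ξ, L ξ ⊆ U ξ) ∧ (∀ η ξ, η < ξ → U η ⊆ L ξ) ∧
    (∀ ξ (s : Finset B), ↑s ⊆ L ξ → ↑s ⊆ hull ψ ∅ ∨ ∃ η < ξ, ↑s ⊆ U η) ∧
    ∀ s : Finset B, ↑s ⊆ A → ↑s ⊆ hull ψ ∅ ∨ ∃ η, ↑s ⊆ U η

theorem induct (hψ : ∀ s, (ψ s).Countable) (Q : Set B → Prop)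
    (h0 : ∀ A, A.Countable → Q A)
    (hs : ∀ (ι : Type u) [LinearOrder ι] [WellFoundedLT ι] (L U : ι → Set B) (A : Set B),
      Approx ψ L U A → (∀ ξ, Q (U ξ)) → Q A) (A : Set B) : Q A := by
  classical
  induction hκ : #A using (wellFounded_lt (α := Cardinal.{u})).induction generalizing A with
  | _ κ ih =>
  rcases le_or_gt κ ℵ₀ with h | h
  · exact h0 A (le_aleph0_iff_set_countable.1 (hκ ▸ h))
  obtain ⟨e⟩ : Nonempty (κ.ord.ToType ≃ A) := by rw [← Cardinal.eq, mk_ord_toType, hκ]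
  let a : κ.ord.ToType → B := fun ξ => e ξ
  have key : ∀ (T : Set κ.ord.ToType) (s : Finset B), ↑s ⊆ hull ψ (a '' T) →
      ↑s ⊆ hull ψ ∅ ∨ ∃ η ∈ T, ↑s ⊆ hull ψ (a '' Iic η) := by
    intro T s hs
    obtain ⟨t, ht, hst⟩ := finset_hull ψ hs
    obtain ⟨t', ht', rfl⟩ := Finset.subset_set_image_iff.1 ht
    rcases t'.eq_empty_or_nonempty with rfl | hne
    · exact Or.inl (by simpa using hst)
    · refine Or.inr ⟨t'.max' hne, ht' (t'.max'_mem hne), hst.trans (hull_mono ψ ?_)⟩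
      rw [Finset.coe_image]
      exact image_mono fun x hx => t'.le_max' x hx
  refine hs κ.ord.ToType (fun ξ => hull ψ (a '' Iio ξ)) (fun ξ => hull ψ (a '' Iic ξ)) A
    ⟨fun ξ => cl_hull ψ _, fun ξ => cl_hull ψ _,
      fun ξ => hull_mono ψ (image_mono Iio_subset_Iic_self),
      fun η ξ h => hull_mono ψ (image_mono (Iic_subset_Iio.2 h)), fun ξ s hs => key _ s hs,
      fun s hs => ?_⟩ fun ξ => ih _ ?_ _ rfl
  · refine (key univ s (hs.trans (Subset.trans ?_ (subset_hull ψ _)))).imp_right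
      fun ⟨η, _, h⟩ => ⟨η, h⟩
    intro b hb
    exact ⟨e.symm ⟨b, hb⟩, mem_univ _, by simp [a]⟩
  · refine (mk_hull_le ψ hψ (le_max_left _ _) (le_max_right ℵ₀ _)).trans_lt (max_lt h ?_)
    refine mk_image_le.trans_lt ?_
    rw [← Iio_insert]
    refine mk_insert_le.trans_lt (add_lt_of_lt h.le ?_ (one_lt_aleph0.trans h))
    exact (mk_Iio_lt ξ (by simp)).trans_eq (mk_ord_toType κ)

end Hull

variable {B : Type u} [TopologicalSpace B]

/-- functions attached to a set -/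
def Fam (φ : Finset B → Set (B → ℝ)) (A : Set B) : Set (B → ℝ) :=
  {v | ∃ s : Finset B, ↑s ⊆ A ∧ v ∈ φ s}

/-- the separation hypothesis -/
def Sep (φ : Finset B → Set (B → ℝ)) : Prop :=
  (∀ s, (φ s).Countable) ∧ (∀ s, ∀ v ∈ φ s, Continuous v) ∧
    ∀ A, ∀ g ∈ closure A, ∀ h ∈ closure A, (∀ v ∈ Fam φ A, v g = v h) → g = h

variable {φ : Finset B → Set (B → ℝ)}

omit [TopologicalSpace B] in
theorem Fam.mono {A A' : Set B} (h : A ⊆ A') : Fam φ A ⊆ Fam φ A' :=
  fun _ ⟨s, hs, hv⟩ => ⟨s, hs.trans h, hv⟩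

theorem Sep.cont (h : Sep φ) {A : Set B} {v : B → ℝ} (hv : v ∈ Fam φ A) : Continuous v :=
  let ⟨s, _, hv⟩ := hv
  h.2.1 s v hv

theorem Sep.countable (h : Sep φ) {A : Set B} (hA : A.Countable) : (Fam φ A).Countable := by
  have h1 : {s : Finset B | ↑s ⊆ A}.Countable := le_aleph0_iff_set_countable.1
    ((mk_finsets_le A).trans (max_le le_rfl (le_aleph0_iff_set_countable.2 hA)))
  refine (h1.biUnion fun s _ => h.1 s).mono ?_
  rintro v ⟨s, hs, hv⟩
  exact mem_biUnion hs hv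

/-- approximating a point by points of a set, for all functions of a family at once -/
theorem exists_agree [CompactSpace B] (h : Sep φ) {A C : Set B} (b : B)
    (hC : ∀ s : Finset B, ↑s ⊆ A → (fun v : Fam φ s => v.1 b) ∈
      closure ((fun c (v : Fam φ s) => v.1 c) '' C)) :
    ∃ c ∈ closure C, ∀ v ∈ Fam φ A, v c = v b := by
  classical
  obtain ⟨c, hc, hc'⟩ := (isClosed_closure (s := C)).isCompact.inter_iInter_nonempty
    (fun v : Fam φ A => {c | v.1 c = v.1 b})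
    (fun v => isClosed_eq (h.cont v.2) continuous_const) (fun u => by
      choose t ht hv using fun v : Fam φ A => v.2
      have h1 : Continuous fun c (v : Fam φ (u.biUnion t : Finset B)) => v.1 c :=
        continuous_pi fun v => h.cont v.2
      obtain ⟨c, hc, hc'⟩ := closure_minimal (image_mono subset_closure)
        ((isClosed_closure (s := C)).isCompact.image h1).isClosed (hC (u.biUnion t) (by
          rw [Finset.coe_biUnion]
          exact iUnion₂_subset fun v _ => ht v))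
      refine ⟨c, hc, mem_iInter₂.2 fun v hvu => congrFun hc' ⟨v, t v, ?_, hv v⟩⟩
      exact Finset.coe_subset.2 (Finset.subset_biUnion_of_mem t hvu))
  exact ⟨c, hc, fun v hv => mem_iInter.1 hc' ⟨v, hv⟩⟩

theorem Sep.tight [CompactSpace B] (h : Sep φ) {A : Set B} {c : B} (hc : c ∈ closure A) :
    ∃ C ⊆ A, C.Countable ∧ c ∈ closure C := by
  classical
  have h1 : ∀ s : Finset B, ∃ C ⊆ A, C.Countable ∧ (fun v : Fam φ (insert c s : Finset B) =>
      v.1 c) ∈ closure ((fun b (v : Fam φ (insert c s : Finset B)) => v.1 b) '' C) := by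
    intro s
    have := (h.countable (insert c s).countable_toSet).to_subtype
    obtain ⟨C, hC, hCc, hCd⟩ := exists_countable_dense_for
      (fun (v : Fam φ (insert c s : Finset B)) b => v.1 b) A
    refine ⟨C, hC, hCc, closure_minimal ?_ isClosed_closure
      (map_mem_closure (f := fun b (v : Fam φ (insert c s : Finset B)) => v.1 b)
        (continuous_pi fun v => h.cont v.2) hc fun _ hb => mem_image_of_mem _ hb)⟩
    rintro _ ⟨b, hb, rfl⟩
    exact hCd b hb
  choose ψ hψA hψc hψ using h1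
  have hA : hull ψ ∅ ⊆ A := hull_min ψ (empty_subset _) fun s _ => hψA s
  refine ⟨hull ψ ∅, hA, countable_hull ψ hψc countable_empty, ?_⟩
  obtain ⟨c', hc', hv⟩ := exists_agree h (A := insert c (hull ψ ∅)) (C := hull ψ ∅) c
    (fun s hs => by
      have h2 : ↑(s.erase c) ⊆ hull ψ ∅ := by
        rw [Finset.coe_erase]
        exact sdiff_singleton_subset_iff.2 hs
      have h3 : Fam φ s ⊆ Fam φ (insert c (s.erase c) : Finset B) :=
        Fam.mono (Finset.coe_subset.2 (Finset.insert_erase_subset _ _))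
      refine map_mem_closure (f := fun (w : Fam φ (insert c (s.erase c) : Finset B) → ℝ)
        (v : Fam φ s) => w ⟨v.1, h3 v.2⟩) (by fun_prop) (hψ (s.erase c)) ?_
      rintro _ ⟨b, hb, rfl⟩
      exact ⟨b, cl_hull ψ ∅ _ h2 hb, rfl⟩)
  rwa [← h.2.2 _ c' (closure_mono (subset_insert _ _) hc') c (subset_closure (mem_insert _ _)) hv]

theorem Sep.exists_retr [CompactSpace B] (h : Sep φ) :
    ∃ (ψ : Finset B → Set B) (r : Set B → B → B), (∀ s, (ψ s).Countable) ∧ ∀ A, Cl ψ A →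
      Continuous (r A) ∧ ∀ b, r A b ∈ closure A ∧ ∀ v ∈ Fam φ A, v (r A b) = v b := by
  have h1 : ∀ s : Finset B, ∃ C : Set B, C.Countable ∧ ∀ b, (fun v : Fam φ s => v.1 b) ∈
      closure ((fun c (v : Fam φ s) => v.1 c) '' C) := by
    intro s
    have := (h.countable s.countable_toSet).to_subtype
    obtain ⟨C, -, hCc, hCd⟩ := exists_countable_dense_for (fun (v : Fam φ s) b => v.1 b) univ
    exact ⟨C, hCc, fun b => hCd b (mem_univ b)⟩
  choose ψ hψc hψ using h1
  have h2 : ∀ A, Cl ψ A → ∀ b, ∃ c ∈ closure A, ∀ v ∈ Fam φ A, v c = v b := fun A hA b =>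
    exists_agree h b fun s hs => closure_mono (image_mono (hA s hs)) (hψ s b)
  choose! r hr hr' using h2
  refine ⟨ψ, r, hψc, fun A hA => ⟨?_, fun b => ⟨hr A hA b, hr' A hA b⟩⟩⟩
  refine continuous_iff_continuousAt.2 fun b => ?_
  refine (isClosed_closure (s := A)).isCompact.tendsto_nhds_of_unique_mapClusterPt
    (Eventually.of_forall (hr A hA)) fun c hc hcp => h.2.2 A c hc _ (hr A hA b) fun v hv => ?_
  have h3 := hcp.continuousAt_comp (h.cont hv).continuousAt
  rw [show v ∘ r A = v from funext fun b => hr' A hA b v hv] at h3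
  rw [hr' A hA b v hv]
  exact eq_of_nhds_neBot (ClusterPt.mono h3 (h.cont hv).continuousAt)

section Retr

variable {ψ : Finset B → Set B} {r : Set B → B → B}

theorem retr_eq (h : Sep φ) (hr : ∀ A, Cl ψ A →
      Continuous (r A) ∧ ∀ b, r A b ∈ closure A ∧ ∀ v ∈ Fam φ A, v (r A b) = v b)
    {A : Set B} (hA : Cl ψ A) {b c : B} (hc : c ∈ closure A) (hv : ∀ v ∈ Fam φ A, v c = v b) :
    r A b = c :=
  h.2.2 A _ ((hr A hA).2 b).1 _ hc fun v hv' => (((hr A hA).2 b).2 v hv').trans (hv v hv').symm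

theorem sep_step (h : Sep φ) (hr : ∀ A, Cl ψ A →
      Continuous (r A) ∧ ∀ b, r A b ∈ closure A ∧ ∀ v ∈ Fam φ A, v (r A b) = v b)
    {ι : Type u} [LinearOrder ι] [WellFoundedLT ι] {L U : ι → Set B} {A : Set B}
    (hA : Approx ψ L U A) {g g' : B} (hg : g ∈ closure A) (hg' : g' ∈ closure A)
    (h0 : ∀ v ∈ Fam φ (hull ψ ∅), v g = v g')
    (h1 : ∀ ξ, r (L ξ) g = r (L ξ) g' → r (U ξ) g = r (U ξ) g') : g = g' := by
  obtain ⟨hL, hU, -, -, hLs, hAs⟩ := hA
  have key : ∀ ξ, ∀ v ∈ Fam φ (U ξ), v g = v g' := by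
    intro ξ
    induction ξ using (wellFounded_lt (α := ι)).induction with
    | _ ξ ih =>
    have h2 : r (L ξ) g = r (L ξ) g' := by
      refine retr_eq h hr (hL ξ) ((hr _ (hL ξ)).2 g').1 fun v hv => ?_
      rw [((hr _ (hL ξ)).2 g').2 v hv]
      obtain ⟨s, hs, hv⟩ := hv
      rcases hLs ξ s hs with h3 | ⟨η, hη, h3⟩
      · exact (h0 v ⟨s, h3, hv⟩).symm
      · exact (ih η hη v ⟨s, h3, hv⟩).symm
    intro v hv
    rw [← ((hr _ (hU ξ)).2 g).2 v hv, h1 ξ h2, ((hr _ (hU ξ)).2 g').2 v hv]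
  refine h.2.2 A g hg g' hg' ?_
  rintro v ⟨s, hs, hv⟩
  rcases hAs s hs with h3 | ⟨η, h3⟩
  · exact h0 v ⟨s, h3, hv⟩
  · exact key η v ⟨s, h3, hv⟩

omit [TopologicalSpace B] in
theorem cl_biUnion {ι : Type u} [LinearOrder ι] {L U : ι → Set B} {A : Set B}
    (hA : Approx ψ L U A) {J : Set ι} (hJ : J.Nonempty) : Cl ψ (⋃ ξ ∈ J, U ξ) := by
  classical
  obtain ⟨-, hU, hLU, hUL, -, -⟩ := hA
  have hm : Monotone U := fun η ξ h =>
    h.eq_or_lt.elim (fun h => h ▸ le_rfl) fun h => (hUL η ξ h).trans (hLU ξ)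
  intro s hs
  obtain ⟨ξ, hξ, h⟩ : ∃ ξ ∈ J, ↑s ⊆ U ξ := by
    induction s using Finset.induction_on with
    | empty => exact ⟨hJ.some, hJ.some_mem, by simp⟩
    | insert a s _ ih =>
      rw [Finset.coe_insert, insert_subset_iff] at hs
      obtain ⟨ξ, hξ, h⟩ := ih hs.2
      obtain ⟨η, hη, ha⟩ := mem_iUnion₂.1 hs.1
      refine ⟨max ξ η, (max_choice ξ η).elim (fun h => h.symm ▸ hξ) fun h => h.symm ▸ hη, ?_⟩
      rw [Finset.coe_insert, insert_subset_iff]
      exact ⟨hm (le_max_right _ _) ha, h.trans (hm (le_max_left _ _))⟩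
  exact (hU ξ s h).trans (subset_biUnion_of_mem (u := U) hξ)

theorem countable_jumps [CompactSpace B] (h : Sep φ) (hr : ∀ A, Cl ψ A →
      Continuous (r A) ∧ ∀ b, r A b ∈ closure A ∧ ∀ v ∈ Fam φ A, v (r A b) = v b)
    {ι : Type u} [LinearOrder ι] [WellFoundedLT ι] {L U : ι → Set B} {A : Set B}
    (hA : Approx ψ L U A) (b : B) : {ξ | r (U ξ) b ≠ r (L ξ) b}.Countable := by
  by_contra hJ
  set J := {ξ | r (U ξ) b ≠ r (L ξ) b}
  have hJ' : ¬ {ξ ∈ J | (J ∩ Iio ξ).Countable}.Countable := by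
    intro hc
    obtain ⟨ξ, hξ, hmin⟩ := (wellFounded_lt (α := ι)).has_min
      (J \ {ξ ∈ J | (J ∩ Iio ξ).Countable}) (by
        by_contra hne
        rw [not_nonempty_iff_eq_empty, sdiff_eq_empty] at hne
        exact hJ (hc.mono hne))
    refine hξ.2 ⟨hξ.1, hc.mono fun η hη => ?_⟩
    by_contra h2
    exact hmin η ⟨hη.1, h2⟩ hη.2
  set J' := {ξ ∈ J | (J ∩ Iio ξ).Countable}
  have hne : J'.Nonempty := by
    by_contra hne
    rw [not_nonempty_iff_eq_empty] at hne
    exact hJ' (hne ▸ countable_empty)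
  have hcl := cl_biUnion hA hne
  obtain ⟨hL, hU, hLU, hUL, -, -⟩ := hA
  obtain ⟨C, hC, hCc, hc⟩ := h.tight ((hr _ hcl).2 b).1
  choose η hη hcη using fun c : C => mem_iUnion₂.1 (hC c.2)
  have := hCc.to_subtype
  obtain ⟨ξ, hξ, hξ'⟩ : ∃ ξ ∈ J', ξ ∉ ⋃ c, insert (η c) (J ∩ Iio (η c)) := by
    by_contra hn
    push Not at hn
    exact hJ' ((countable_iUnion fun c => (hη c).2.insert _).mono hn)
  have h1 : C ⊆ L ξ := by
    intro c hc
    refine hUL _ _ ?_ (hcη ⟨c, hc⟩)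
    by_contra h2
    refine hξ' (mem_iUnion.2 ⟨⟨c, hc⟩, ?_⟩)
    rcases (not_lt.1 h2).eq_or_lt with h3 | h3
    · exact Or.inl h3
    · exact Or.inr ⟨hξ.1, h3⟩
  have h2 : U ξ ⊆ ⋃ ξ ∈ J', U ξ := subset_biUnion_of_mem (u := U) hξ
  refine hξ.1 ?_
  rw [retr_eq h hr (hU ξ) (closure_mono (h1.trans (hLU ξ)) hc)
      fun v hv => ((hr _ hcl).2 b).2 v (Fam.mono h2 hv),
    retr_eq h hr (hL ξ) (closure_mono h1 hc)
      fun v hv => ((hr _ hcl).2 b).2 v (Fam.mono ((hLU ξ).trans h2) hv)]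

end Retr

/-- Criterion for Corson compactness. -/
theorem Sep.corson [CompactSpace B] (h : Sep φ) :
    ∃ G : Set (B → ℝ), (∀ v ∈ G, Continuous v) ∧ (∀ g g', (∀ v ∈ G, v g = v g') → g = g') ∧
      ∀ b, {v ∈ G | v b ≠ 0}.Countable := by
  obtain ⟨ψ, r, hψ, hr⟩ := h.exists_retr
  have key := induct ψ hψ (fun A => ∃ G : Set (B → ℝ), (∀ v ∈ G, Continuous v) ∧
      (∀ g ∈ closure A, ∀ g' ∈ closure A, (∀ v ∈ G, v g = v g') → g = g') ∧
      ∀ b ∈ closure A, {v ∈ G | v b ≠ 0}.Countable)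
    (fun A hA => ⟨Fam φ A, fun v hv => h.cont hv, h.2.2 A,
      fun b _ => (h.countable hA).mono (sep_subset _ _)⟩) (by
    intro ι _ _ L U A hA ih
    choose G hGc hGs hGb using ih
    have hA' := hA
    obtain ⟨hL, hU, hLU, -, -, -⟩ := hA'
    let w : ι → (B → ℝ) → B → ℝ := fun ξ v b => v (r (U ξ) b) - v (r (L ξ) b)
    refine ⟨Fam φ (hull ψ ∅) ∪ ⋃ ξ, w ξ '' G ξ, ?_, ?_, ?_⟩
    · rintro v (hv | hv)
      · exact h.cont hv
      · obtain ⟨ξ, v, hv', rfl⟩ := mem_iUnion.1 hv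
        exact ((hGc ξ v hv').comp (hr _ (hU ξ)).1).sub ((hGc ξ v hv').comp (hr _ (hL ξ)).1)
    · intro g hg g' hg' hv
      refine sep_step h hr hA hg hg' (fun v hv' => hv v (Or.inl hv')) fun ξ hξ => ?_
      refine hGs ξ _ ((hr _ (hU ξ)).2 g).1 _ ((hr _ (hU ξ)).2 g').1 fun v hv' => ?_
      have := hv _ (Or.inr (mem_iUnion.2 ⟨ξ, v, hv', rfl⟩))
      simp only [w, hξ] at this
      linarith
    · intro b _
      refine ((h.countable (countable_hull ψ hψ countable_empty)).union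
        ((countable_jumps h hr hA b).biUnion fun ξ _ =>
          ((hGb ξ _ ((hr _ (hU ξ)).2 b).1).union (hGb ξ _ (closure_mono (hLU ξ)
            ((hr _ (hL ξ)).2 b).1))).image (w ξ))).mono ?_
      rintro v ⟨hv | hv, hb⟩
      · exact Or.inl hv
      · obtain ⟨ξ, v, hv', rfl⟩ := mem_iUnion.1 hv
        refine Or.inr (mem_biUnion (x := ξ) (fun h => hb (by simp only [w, h, sub_self]))
          ⟨v, ?_, rfl⟩)
        by_contra hc
        simp only [mem_union, mem_ofPred_eq, hv', true_and, not_or, not_not] at hc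
        exact hb (by simp only [w, hc.1, hc.2, sub_self])) univ
  simpa using key

/-- iterated difference sets -/
def Dn (Y : Set (B → ℝ)) : ℕ → Set (B → ℝ)
  | 0 => Y
  | n + 1 => image2 (· - ·) (Dn Y n) (Dn Y n)

omit [TopologicalSpace B] in
theorem scaled_family {Y F : Set (B → ℝ)} (hY1 : ∀ v ∈ Y, ∀ b, |v b| ≤ 1)
    (hYs : ∀ v ∈ Y, ∀ t ∈ Icc (0 : ℝ) 1, t • v ∈ Y) (hF : F ⊆ Y) (hc : F.Countable) :
    ∃ G ⊆ Y, (∀ g g', (∀ v ∈ G, v g = v g') → ∀ v ∈ F, v g = v g') ∧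
      ∀ b, ∀ ε > 0, {v ∈ G | ε ≤ |v b|}.Finite := by
  have := hc.to_subtype
  obtain ⟨e, he⟩ := exists_injective_nat F
  refine ⟨range fun v : F => (1 / ((e v : ℝ) + 1)) • v.1, ?_, ?_, ?_⟩
  · rintro _ ⟨v, rfl⟩
    exact hYs _ (hF v.2) _ ⟨Nat.one_div_pos_of_nat.le, by
      rw [div_le_one (by positivity)]
      linarith [Nat.cast_nonneg (α := ℝ) (e v)]⟩
  · intro g g' h v hv
    exact mul_left_cancel₀ (Nat.one_div_pos_of_nat (n := e ⟨v, hv⟩)).ne' (h _ ⟨⟨v, hv⟩, rfl⟩)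
  · intro b ε hε
    obtain ⟨N, hN⟩ := exists_nat_one_div_lt hε
    refine (((finite_lt_nat N).preimage he.injOn).image
      fun v : F => (1 / ((e v : ℝ) + 1)) • v.1).subset ?_
    rintro _ ⟨⟨v, rfl⟩, hv⟩
    refine ⟨v, ?_, rfl⟩
    by_contra hc
    have h1 : 1 / ((e v : ℝ) + 1) ≤ 1 / ((N : ℝ) + 1) := Nat.one_div_le_one_div (not_lt.1 hc)
    have h2 : (0 : ℝ) < 1 / ((e v : ℝ) + 1) := Nat.one_div_pos_of_nat
    simp only [Pi.smul_apply, smul_eq_mul, abs_mul, abs_of_pos h2] at hv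
    have h3 := mul_le_of_le_one_right h2.le (hY1 _ (hF v.2) b)
    linarith

/-- The Amir-Lindenstrauss embedding. -/
theorem exists_c0 [CompactSpace B] {Y : Set (B → ℝ)} (hYk : IsCompact Y)
    (hYc : ∀ v ∈ Y, Continuous v) (hY1 : ∀ v ∈ Y, ∀ b, |v b| ≤ 1)
    (hYs : ∀ v ∈ Y, ∀ t ∈ Icc (0 : ℝ) 1, t • v ∈ Y)
    (hsep : ∀ g g', (∀ v ∈ Y, v g = v g') → g = g') :
    ∃ G : Set (B → ℝ), (∀ v ∈ G, Continuous v) ∧ (∀ g g', (∀ v ∈ G, v g = v g') → g = g') ∧
      ∀ b, ∀ ε > 0, {v ∈ G | ε ≤ |v b|}.Finite := by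
  classical
  choose φ hφY hφc hφ using fun s : Finset B =>
    exists_countable_dense_for (fun (b : s) (v : B → ℝ) => v b) Y
  have hFY : ∀ A, Fam φ A ⊆ Y := fun A v ⟨s, _, hv⟩ => hφY s hv
  have happ : ∀ A, ∀ y ∈ Y, ∃ y' ∈ closure (Fam φ A), EqOn y' y (closure A) := by
    intro A y hy
    have h1 : closure (Fam φ A) ⊆ Y := closure_minimal (hFY A) hYk.isClosed
    have h2 := hYk.of_isClosed_subset isClosed_closure h1
    obtain ⟨y', hy', h3⟩ := h2.inter_iInter_nonempty (fun a : A => {v | v a = y a})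
      (fun a => isClosed_eq (continuous_apply _) continuous_const) (fun u => by
        have h4 : Continuous fun (v : B → ℝ) (b : (u.image Subtype.val : Finset B)) => v b := by
          fun_prop
        obtain ⟨c, hc, hc'⟩ := closure_minimal (image_mono (subset_closure (s := Fam φ A)))
          (h2.image h4).isClosed (closure_mono (image_mono fun v hv =>
            (⟨u.image Subtype.val, by
              intro b hb
              obtain ⟨a, -, rfl⟩ := Finset.mem_image.1 hb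
              exact a.2, hv⟩ : v ∈ Fam φ A)) (hφ (u.image Subtype.val) y hy))
        exact ⟨c, hc, mem_iInter₂.2 fun a ha => congrFun hc' ⟨a, Finset.mem_image_of_mem _ ha⟩⟩)
    exact ⟨y', hy', EqOn.closure (fun a ha => mem_iInter.1 h3 ⟨a, ha⟩) (hYc _ (h1 hy')) (hYc _ hy)⟩
  have hlim : ∀ A g g', (∀ v ∈ Fam φ A, v g = v g') → ∀ v ∈ closure (Fam φ A), v g = v g' :=
    fun A g g' h => closure_minimal h (isClosed_eq (continuous_apply g) (continuous_apply g'))
  have h : Sep φ := ⟨hφc, fun s v hv => hYc v (hφY s hv), fun A g hg g' hg' hv => hsep g g'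
    fun y hy => by
      obtain ⟨y', hy', h1⟩ := happ A y hy
      rw [← h1 hg, ← h1 hg', hlim A g g' hv y' hy']⟩
  obtain ⟨ψ, r, hψ, hr⟩ := h.exists_retr
  have hDk : ∀ n, IsCompact (Dn Y n) := by
    intro n
    induction n with
    | zero => exact hYk
    | succ n ih =>
      rw [Dn, ← image_prod]
      exact (ih.prod ih).image (by fun_prop)
  have hDc : ∀ n, ∀ v ∈ Dn Y n, Continuous v := by
    intro n
    induction n with
    | zero => exact hYc
    | succ n ih =>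
      rintro _ ⟨v, hv, w, hw, rfl⟩
      exact (ih v hv).sub (ih w hw)
  have hDb : ∀ n, ∀ v ∈ Dn Y n, ∀ b, |v b| ≤ 2 ^ n := by
    intro n
    induction n with
    | zero => exact fun v hv b => (hY1 v hv b).trans_eq (pow_zero _).symm
    | succ n ih =>
      rintro _ ⟨v, hv, w, hw, rfl⟩ b
      have := abs_sub (v b) (w b)
      have := ih v hv b
      have := ih w hw b
      simp only [Pi.sub_apply, pow_succ]
      linarith
  have hDr : ∀ A, Cl ψ A → ∀ n, ∀ v ∈ Dn Y n, v ∘ r A ∈ Dn Y n := by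
    intro A hA n
    induction n with
    | zero =>
      intro y hy
      obtain ⟨y', hy', h1⟩ := happ A y hy
      have : y ∘ r A = y' := funext fun b =>
        (h1 ((hr A hA).2 b).1).symm.trans (hlim A _ _ ((hr A hA).2 b).2 y' hy')
      rw [this]
      exact closure_minimal (hFY A) hYk.isClosed hy'
    | succ n ih =>
      rintro _ ⟨v, hv, w, hw, rfl⟩
      exact ⟨_, ih v hv, _, ih w hw, rfl⟩
  have key := induct ψ hψ (fun A => ∃ G : ℕ → Set (B → ℝ), (∀ n, G n ⊆ Dn Y n) ∧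
      (∀ g ∈ closure A, ∀ g' ∈ closure A, (∀ n, ∀ v ∈ G n, v g = v g') → g = g') ∧
      ∀ n, ∀ b ∈ closure A, ∀ ε > 0, {v ∈ G n | ε ≤ |v b|}.Finite)
    (fun A hA => by
      obtain ⟨G, hG, h1, h2⟩ := scaled_family hY1 hYs (hFY A) (h.countable hA)
      refine ⟨fun n => Nat.casesOn n G fun _ => ∅, ?_,
        fun g hg g' hg' hv => h.2.2 A g hg g' hg' (h1 g g' (hv 0)), ?_⟩
      · rintro (_ | n)
        · exact hG
        · exact empty_subset _
      · rintro (_ | n) b _ ε hε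
        · exact h2 b ε hε
        · simp) (by
    intro ι _ _ L U A hA ih
    choose G hGc hGs hGb using ih
    have hA' := hA
    obtain ⟨hL, hU, hLU, hUL, -, -⟩ := hA'
    obtain ⟨G₀, hG₀, h1, h2⟩ := scaled_family hY1 hYs (hFY (hull ψ ∅))
      (h.countable (countable_hull ψ hψ countable_empty))
    let w : ι → (B → ℝ) → B → ℝ := fun ξ v => v ∘ r (U ξ) - v ∘ r (L ξ)
    have hw : ∀ ξ n, ∀ v ∈ Dn Y n, w ξ v ∈ Dn Y (n + 1) := fun ξ n v hv =>
      ⟨_, hDr _ (hU ξ) n v hv, _, hDr _ (hL ξ) n v hv, rfl⟩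
    refine ⟨fun n => Nat.casesOn n G₀ fun n => ⋃ ξ, w ξ '' G ξ n, ?_, ?_, ?_⟩
    · rintro (_ | n)
      · exact hG₀
      · exact iUnion_subset fun ξ => image_subset_iff.2 fun v hv => hw ξ n v (hGc ξ n hv)
    · intro g hg g' hg' hv
      refine sep_step h hr hA hg hg' (h1 g g' (hv 0)) fun ξ hξ => ?_
      refine hGs ξ _ ((hr _ (hU ξ)).2 g).1 _ ((hr _ (hU ξ)).2 g').1 fun n v hv' => ?_
      have := hv (n + 1) _ (mem_iUnion.2 ⟨ξ, v, hv', rfl⟩)
      simp only [w, Pi.sub_apply, Function.comp, hξ] at this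
      linarith
    · rintro (_ | n) b _ ε hε
      · exact h2 b ε hε
      have hJ : {ξ | ∃ v ∈ Dn Y n, ε ≤ |w ξ v b|}.Finite := by
        by_contra hJ
        have hJ' : {ξ | ∃ v ∈ Dn Y n, ε ≤ |w ξ v b|}.Infinite := hJ
        let f := hJ'.natEmbedding
        obtain ⟨k, hk⟩ := (isPWO_of_wellQuasiOrderedLE (univ : Set ι)).exists_monotone_subseq
          (f := fun m => (f m : ι)) fun _ => mem_univ _
        have hsm : StrictMono fun m => (f (k m) : ι) := hk.strictMono_of_injective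
          (Subtype.val_injective.comp (f.injective.comp k.injective))
        choose v hv hvb using fun m => (f (k m)).2
        obtain ⟨z, hz, hzc⟩ := (hDk (n + 1)).exists_mapClusterPt (f := atTop)
          (u := fun m => w (f (k m)) (v m)) (by
            rw [le_principal_iff, Filter.mem_map]
            exact Eventually.of_forall fun m => hw _ n _ (hv m))
        have hcl := cl_biUnion hA (range_nonempty fun m => (f (k m) : ι))
        have h3 : EqOn z 0 (⋃ ξ ∈ range fun m => (f (k m) : ι), U ξ) := by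
          intro c hc
          obtain ⟨_, ⟨m, rfl⟩, hc⟩ := mem_iUnion₂.1 hc
          refine eq_of_cluster (f := fun u : B → ℝ => u c) hzc (continuous_apply c)
            (tendsto_const_nhds.congr' ((eventually_gt_atTop m).mono fun j hj => ?_))
          have h4 := hUL _ _ (hsm hj) hc
          simp only [w, Pi.sub_apply, Function.comp, Pi.zero_apply]
          rw [retr_eq h hr (hL _) (subset_closure h4) fun _ _ => rfl,
            retr_eq h hr (hU _) (subset_closure (hLU _ h4)) fun _ _ => rfl, sub_self]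
        have h4 := EqOn.closure h3 (hDc _ z hz) continuous_const ((hr _ hcl).2 b).1
        have h5 : ε ≤ |z (r (⋃ ξ ∈ range fun m => (f (k m) : ι), U ξ) b)| := by
          refine (isClosed_le (g := fun u : B → ℝ =>
            |u (r (⋃ ξ ∈ range fun m => (f (k m) : ι), U ξ) b)|) continuous_const
            (by fun_prop)).mem_of_mapClusterPt hzc (Eventually.of_forall fun m => ?_)
          have h6 : U (f (k m)) ⊆ ⋃ ξ ∈ range fun m => (f (k m) : ι), U ξ :=
            subset_biUnion_of_mem (u := U) (mem_range_self m)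
          have h7 : ∀ A', Cl ψ A' → A' ⊆ U (f (k m)) →
              r A' (r (⋃ ξ ∈ range fun m => (f (k m) : ι), U ξ) b) = r A' b := fun A' hA' h8 =>
            retr_eq h hr hA' ((hr _ hA').2 b).1 fun u hu => (((hr _ hA').2 b).2 u hu).trans
              (((hr _ hcl).2 b).2 u (Fam.mono (h8.trans h6) hu)).symm
          have := hvb m
          simp only [w, Pi.sub_apply, Function.comp, mem_ofPred_eq] at this ⊢
          rwa [h7 _ (hU _) Subset.rfl, h7 _ (hL _) (hLU _)]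
        rw [h4] at h5
        simp only [Pi.zero_apply, abs_zero] at h5
        exact absurd h5 (not_le.2 hε)
      refine (hJ.biUnion fun ξ _ =>
        ((hGb ξ n _ ((hr _ (hU ξ)).2 b).1 _ (half_pos hε)).union (hGb ξ n _ (closure_mono (hLU ξ)
          ((hr _ (hL ξ)).2 b).1) _ (half_pos hε))).image (w ξ)).subset ?_
      rintro v ⟨hv, hb⟩
      obtain ⟨ξ, v, hv', rfl⟩ := mem_iUnion.1 hv
      refine mem_biUnion (x := ξ) ⟨v, hGc ξ n hv', hb⟩ ⟨v, ?_, rfl⟩
      by_contra hc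
      simp only [mem_union, mem_ofPred_eq, hv', true_and, not_or, not_le] at hc
      have := abs_sub (v (r (U ξ) b)) (v (r (L ξ) b))
      simp only [w, Pi.sub_apply, Function.comp] at hb
      linarith [hc.1, hc.2]) univ
  obtain ⟨G, hG, hs, hf⟩ := key
  refine ⟨⋃ n, (fun v => ((1 : ℝ) / 4) ^ n • v) '' G n, ?_, ?_, ?_⟩
  · intro v hv
    obtain ⟨n, v, hv', rfl⟩ := mem_iUnion.1 hv
    exact (hDc n v (hG n hv')).const_smul _
  · intro g g' hv
    refine hs g (by simp) g' (by simp) fun n v hv' => ?_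
    exact mul_left_cancel₀ (by positivity : ((1 : ℝ) / 4) ^ n ≠ 0)
      (hv _ (mem_iUnion.2 ⟨n, v, hv', rfl⟩))
  · intro b ε hε
    obtain ⟨N, hN⟩ := exists_pow_lt_of_lt_one hε (by norm_num : (1 : ℝ) / 2 < 1)
    refine ((finite_lt_nat N).biUnion fun n _ =>
      (hf n b (by simp) ε hε).image fun v => ((1 : ℝ) / 4) ^ n • v).subset ?_
    rintro v ⟨hv, hb⟩
    obtain ⟨n, v, hv', rfl⟩ := mem_iUnion.1 hv
    have h0 : (0 : ℝ) < (1 / 4) ^ n := by positivity
    simp only [Pi.smul_apply, smul_eq_mul, abs_mul, abs_of_pos h0] at hb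
    refine mem_biUnion (x := n) ?_ ⟨v, ⟨hv', hb.trans (mul_le_of_le_one_left (abs_nonneg _)
      (pow_le_one₀ (by norm_num) (by norm_num)))⟩, rfl⟩
    by_contra hc
    have h1 : ((1 : ℝ) / 2) ^ n ≤ (1 / 2) ^ N :=
      pow_le_pow_of_le_one (by norm_num) (by norm_num) (not_lt.1 hc)
    have h2 := mul_le_mul_of_nonneg_left (hDb n v (hG n hv') b) h0.le
    rw [← mul_pow] at h2
    norm_num at h2 h1 hN hb
    linarith

end Pool.Agent.H33.Retr
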