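import Mathlib
import Pool.Agent.H33.Retr
import Pool.Agent.H33.GrothEx
import Pool.Agent.H33.SubMeta
import Pool.Agent.H33.NoEmb

/-!
Monolithic Frechet compacta: closing-off chains and a density-reducing colouring.
-/

open Set Filter Topology Cardinal

namespace Pool.Agent.H33.Spl1

open Pool.Agent.H33.Groth Pool.Agent.H33.Retr Pool.Agent.H33.GrothEx Pool.Agent.H33.SubMeta
open Pool.Agent.H33.NoEmb

theorem mk_T1 : #T1 = ℵ_ 1 := by simp

/-- closing off in `ω₁` steps -/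
theorem chain {B : Type} (sm : Set B → Prop)
    (hU : ∀ (ι : Type) (f : ι → Set B), #ι ≤ ℵ_ 1 → (∀ i, sm (f i)) → sm (⋃ i, f i))
    (Φ : Set B → Set B) (hΦ : ∀ S, sm S → sm (Φ S)) (S0 : Set B) (h0 : sm S0) :
    ∃ S, sm S ∧ S0 ⊆ S ∧ (∀ b ∈ S, b ∈ S0 ∨ ∃ S', b ∈ Φ S' ∧ Φ S' ⊆ S) ∧
      ∀ C ⊆ S, C.Countable → ∃ S', sm S' ∧ C ⊆ S' ∧ S' ⊆ S ∧ Φ S' ⊆ S := by
  have hun : ∀ S S', sm S → sm S' → sm (S ∪ S') := by
    intro S S' h h'
    rw [union_eq_iUnion]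
    refine hU _ _ ((mk_le_aleph0).trans (aleph0_le_aleph 1)) ?_
    rintro (_ | _) <;> simpa
  obtain ⟨f, hf⟩ := exists_rec (T := T1) (∅ : Set B)
    (fun t f => Φ (S0 ∪ ⋃ u : Iio t, f u)) (fun t f f' h => by
      rw [iUnion_congr fun u : Iio t => h u u.2])
  have h1 : ∀ (A : Set T1), (∀ u ∈ A, sm (f u)) → sm (S0 ∪ ⋃ u : A, f u) := fun A h =>
    hun _ _ h0 (hU _ _ ((mk_set_le A).trans mk_T1.le) fun u => h u u.2)
  have h2 : ∀ t, sm (f t) := by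
    intro t
    induction t using (wellFounded_lt (α := T1)).induction with
    | _ t ih =>
    rw [hf]
    exact hΦ _ (h1 _ ih)
  have h3 : ∀ t, f t ⊆ S0 ∪ ⋃ u : (univ : Set T1), f u := fun t =>
    (subset_iUnion (fun u : (univ : Set T1) => f u) ⟨t, mem_univ _⟩).trans subset_union_right
  refine ⟨S0 ∪ ⋃ u : (univ : Set T1), f u, h1 _ fun u _ => h2 u, subset_union_left, ?_, ?_⟩
  · rintro b (hb | hb)
    · exact Or.inl hb
    · obtain ⟨u, hu⟩ := mem_iUnion.1 hb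
      refine Or.inr ⟨_, hf u ▸ hu, ?_⟩
      rw [← hf]
      exact h3 u
  · intro C hC hCc
    have h4 : ∀ c : C, ∃ t : T1, c.1 ∈ S0 ∨ c.1 ∈ f t := by
      intro c
      rcases hC c.2 with h | h
      · exact ⟨Classical.arbitrary _, Or.inl h⟩
      · obtain ⟨u, hu⟩ := mem_iUnion.1 h
        exact ⟨u, Or.inr hu⟩
    choose t ht using h4
    have := hCc.to_subtype
    obtain ⟨ζ, hζ⟩ := bddT T1_iio (range t) (countable_range t)
    refine ⟨S0 ∪ ⋃ u : Iio ζ, f u, h1 _ fun u _ => h2 u, fun c hc => ?_,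
      union_subset subset_union_left (iUnion_subset fun u => h3 u), ?_⟩
    · exact (ht ⟨c, hc⟩).imp_right fun h => mem_iUnion.2 ⟨⟨_, hζ _ (mem_range_self _)⟩, h⟩
    · rw [← hf]
      exact h3 ζ

theorem small_union {B ι : Type} {μ : Cardinal.{0}} (hμ : ℵ₀ ≤ μ) (f : ι → Set B) (hι : #ι ≤ μ)
    (hf : ∀ i, #(f i) ≤ μ) : #(⋃ i, f i) ≤ μ :=
  (mk_iUnion_le f).trans (mul_le_of_le hμ hι (ciSup_le' hf))

theorem small_union_lt {B ι : Type} {κ : Cardinal.{0}} (hκ : ℵ₀ ≤ κ) (f : ι → Set B)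
    (hι : #ι < κ.ord.cof) (hf : ∀ i, #(f i) < κ) : #(⋃ i, f i) < κ :=
  (mk_iUnion_le f).trans_lt (mul_lt_of_lt hκ (hι.trans_le (Ordinal.cof_ord_le κ))
    (iSup_lt_of_lt_cof_ord hι hf))

/-- the cofinality as a well-ordered type -/
abbrev Ix (κ : Cardinal.{0}) : Type := κ.ord.cof.ord.ToType

theorem mk_Ix (κ : Cardinal.{0}) : #(Ix κ) = κ.ord.cof := mk_ord_toType _

theorem Ix_iio {κ : Cardinal.{0}} (i : Ix κ) : #(Iio i) < κ.ord.cof :=
  (mk_Iio_lt i (by simp)).trans_eq (mk_Ix κ)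

theorem bdd_lt {κ : Cardinal.{0}} (s : Set κ.ord.ToType) (hs : #s < κ.ord.cof) :
    ∃ b, ∀ x ∈ s, x < b := by
  by_contra h
  push Not at h
  have h1 : IsCofinal s := fun b => h b
  have h2 := Order.cof_le h1
  rw [Ordinal.cof_toType] at h2
  exact hs.not_ge h2

theorem cof_inf {κ : Cardinal.{0}} (hκ : ℵ₀ ≤ κ) : ℵ₀ ≤ κ.ord.cof :=
  (isRegular_cof (isSuccLimit_ord hκ)).aleph0_le

theorem Ix_bdd {κ : Cardinal.{0}} (s : Set (Ix κ)) (hs : #s < κ.ord.cof) :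
    ∃ b, ∀ x ∈ s, x < b :=
  bdd_lt s (by rwa [Ordinal.cof_ord_cof])

theorem exists_pieces {κ : Cardinal.{0}} (hκ : ℵ₀ ≤ κ) {B : Type} (S : Set B) (hS : #S ≤ κ) :
    ∃ T : Ix κ → Set B, (∀ i, T i ⊆ S ∧ #(T i) < κ) ∧ S ⊆ ⋃ i, T i := by
  obtain ⟨C, hC, hC'⟩ := Order.exists_cof_eq κ.ord.ToType
  rw [Ordinal.cof_toType, ← mk_Ix] at hC'
  obtain ⟨e⟩ := Cardinal.eq.1 hC'.symm
  obtain ⟨j⟩ : Nonempty (S ↪ κ.ord.ToType) := by rwa [← Cardinal.le_def, mk_ord_toType]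
  refine ⟨fun i => Subtype.val '' (j ⁻¹' Iic (e i).1), fun i => ⟨Subtype.coe_image_subset _ _, ?_⟩,
    fun b hb => ?_⟩
  · refine mk_image_le.trans_lt ((mk_preimage_of_injective _ _ j.injective).trans_lt ?_)
    rw [← Iio_insert]
    refine mk_insert_le.trans_lt (add_lt_of_lt hκ ?_ (one_lt_aleph0.trans_le hκ))
    exact (mk_Iio_lt _ (by simp)).trans_eq (mk_ord_toType κ)
  · obtain ⟨c, hc, h⟩ := hC (j ⟨b, hb⟩)
    exact mem_iUnion.2 ⟨e.symm ⟨c, hc⟩, ⟨b, hb⟩, by simpa using h, rfl⟩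

variable {X : Type} [TopologicalSpace X]

/-- monolithicity, in terms of separating functions -/
def Mono (X : Type) [TopologicalSpace X] : Prop :=
  ∀ D : Set X, ∃ G : Set C(X, ℝ), #G ≤ max ℵ₀ #D ∧
    ∀ x ∈ closure D, ∀ y ∈ closure D, (∀ g ∈ G, g x = g y) → x = y

/-- saturation -/
def Sat (G : Set C(X, ℝ)) (C : Set X) : Set X := {w | ∃ z ∈ C, ∀ g ∈ G, g z = g w}

theorem sat_eq (G : Set C(X, ℝ)) (C : Set X) :
    Sat G C = (fun x (g : G) => g.1 x) ⁻¹' ((fun x (g : G) => g.1 x) '' C) := by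
  ext w
  simp [Sat, funext_iff]

theorem closed_sat [CompactSpace X] (G : Set C(X, ℝ)) {C : Set X} (hC : IsClosed C) :
    IsClosed (Sat G C) := by
  rw [sat_eq]
  have h : Continuous fun x (g : G) => g.1 x := continuous_pi fun g => g.1.continuous
  exact (hC.isCompact.image h).isClosed.preimage h

theorem Sat.mono {G G' : Set C(X, ℝ)} {C C' : Set X} (h : G' ⊆ G) (h' : C ⊆ C') :
    Sat G C ⊆ Sat G' C' :=
  fun _ ⟨z, hz, hg⟩ => ⟨z, h' hz, fun g hg' => hg g (h hg')⟩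

/-- density with respect to a family -/
def Dn (D : Set X) (G : Set C(X, ℝ)) (Z : Set X) : Prop :=
  ∀ F : Finset C(X, ℝ), ↑F ⊆ G → Z ⊆ Sat F (closure D)

theorem exists_dn [CompactSpace X] (G : Set C(X, ℝ)) (Z : Set X) :
    ∃ D ⊆ Z, #D ≤ max ℵ₀ #G ∧ Dn D G Z := by
  choose C hC hCc hCd using fun F : Finset C(X, ℝ) =>
    exists_countable_dense_for (fun (g : (F : Set C(X, ℝ))) x => g.1 x) Z
  refine ⟨⋃ F : {F : Finset C(X, ℝ) | (F : Set C(X, ℝ)) ⊆ G}, C F, iUnion_subset fun F => hC F,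
    small_union (le_max_left _ _) _ (mk_finsets_le G) fun F =>
      (le_aleph0_iff_set_countable.2 (hCc F)).trans (le_max_left _ _), fun F hF z hz => ?_⟩
  rw [sat_eq]
  have h : Continuous fun x (g : (F : Set C(X, ℝ))) => g.1 x :=
    continuous_pi fun g => g.1.continuous
  refine closure_minimal (image_mono ?_) (isClosed_closure.isCompact.image h).isClosed (hCd F z hz)
  exact fun x hx => subset_closure (mem_iUnion.2 ⟨⟨F, hF⟩, hx⟩)

theorem Dn.sat [CompactSpace X] {D Z : Set X} {G : Set C(X, ℝ)} (h : Dn D G Z) :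
    Z ⊆ Sat G (closure D) := by
  classical
  intro z hz
  obtain ⟨c, hc, hc'⟩ := (isClosed_closure (s := D)).isCompact.inter_iInter_nonempty
    (fun g : G => {c | g.1 c = g.1 z}) (fun g => isClosed_eq g.1.continuous continuous_const)
    (fun u => by
      obtain ⟨c, hc, hc'⟩ := h (u.image Subtype.val) (by
        intro g hg
        obtain ⟨a, -, rfl⟩ := Finset.mem_image.1 hg
        exact a.2) hz
      exact ⟨c, hc, mem_iInter₂.2 fun g hg => hc' g (Finset.mem_image_of_mem _ hg)⟩)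
  exact ⟨c, hc, fun g hg => mem_iInter.1 hc' ⟨g, hg⟩⟩

/-- density -/
noncomputable def dens (Z : Set X) : Cardinal.{0} :=
  sInf {c | ∃ D ⊆ Z, Z ⊆ closure D ∧ #D = c}

theorem dens_le {D Z : Set X} (h : D ⊆ Z) (h' : Z ⊆ closure D) : dens Z ≤ #D :=
  csInf_le' ⟨D, h, h', rfl⟩

theorem exists_dens (Z : Set X) : ∃ D ⊆ Z, Z ⊆ closure D ∧ #D = dens Z :=
  csInf_mem (s := {c | ∃ D ⊆ Z, Z ⊆ closure D ∧ #D = c}) ⟨_, Z, Subset.rfl, subset_closure, rfl⟩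

theorem dens_sub [CompactSpace X] (hM : Mono X) {K D : Set X} (hK : IsClosed K)
    (h : K ⊆ closure D) : dens K ≤ max ℵ₀ #D := by
  obtain ⟨G, hG, hs⟩ := hM D
  obtain ⟨D', hD', hc, hn⟩ := exists_dn G K
  refine (dens_le hD' fun z hz => ?_).trans (hc.trans (max_le (le_max_left _ _) hG))
  obtain ⟨z', hz', h'⟩ := hn.sat hz
  rwa [← hs z' (h (closure_minimal hD' hK hz')) z (h hz) h']

theorem closed_union [FrechetUrysohnSpace X] {ι : Type} (R : ι → Set X) (hR : ∀ i, IsClosed (R i))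
    (h : ∀ s : ℕ → ι, ∃ b, ∀ n, R (s n) ⊆ R b) : IsClosed (⋃ i, R i) := by
  refine closure_subset_iff_isClosed.1 fun x hx => ?_
  obtain ⟨u, hu, hx⟩ := mem_closure_iff_seq_limit.1 hx
  choose s hs using fun n => mem_iUnion.1 (hu n)
  obtain ⟨b, hb⟩ := h s
  exact mem_iUnion.2 ⟨b, (hR b).mem_of_tendsto hx (Eventually.of_forall fun n => hb n (hs n))⟩

theorem mk_closure_le [FrechetUrysohnSpace X] [T2Space X] (D : Set X) :
    #(closure D) ≤ #D ^ ℵ₀ := by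
  choose u hu hx using fun x : closure D => mem_closure_iff_seq_limit.1 x.2
  have : #(ℕ → D) = #D ^ ℵ₀ := by simp
  rw [← this]
  refine mk_le_of_injective (f := fun x n => ⟨u x n, hu x n⟩) fun x y h => Subtype.ext ?_
  have h1 : u x = u y := funext fun n => congrArg Subtype.val (congrFun h n)
  exact tendsto_nhds_unique (hx x) (h1 ▸ hx y)

/-- nice pairs -/
def Nice (Z D : Set X) (G : Set C(X, ℝ)) : Prop :=
  D ⊆ Z ∧ Z ⊆ Sat G (closure D) ∧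
    ∀ x ∈ closure D, ∀ y ∈ closure D, (∀ g ∈ G, g x = g y) → x = y

theorem exists_nice [CompactSpace X] [FrechetUrysohnSpace X] (hM : Mono X) {Z D0 : Set X}
    {G0 : Set C(X, ℝ)} {μ : Cardinal.{0}} (hμ : ℵ_ 1 ≤ μ) (h0 : D0 ⊆ Z) (hD : #D0 ≤ μ)
    (hG : #G0 ≤ μ) : ∃ D G, D0 ⊆ D ∧ G0 ⊆ G ∧ #D ≤ μ ∧ #G ≤ μ ∧ Nice Z D G := by
  have hμ0 : ℵ₀ ≤ μ := (aleph0_le_aleph 1).trans hμ
  choose s hs hs' using hM
  choose b hb hb' hb'' using fun G => exists_dn G Z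
  have hl : ∀ S : Set (X ⊕ C(X, ℝ)), #S ≤ μ → #(Sum.inl ⁻¹' S) ≤ μ := fun S h =>
    (mk_preimage_of_injective _ _ Sum.inl_injective).trans h
  have hr : ∀ S : Set (X ⊕ C(X, ℝ)), #S ≤ μ → #(Sum.inr ⁻¹' S) ≤ μ := fun S h =>
    (mk_preimage_of_injective _ _ Sum.inr_injective).trans h
  have hu : ∀ (D : Set X) (G : Set C(X, ℝ)), #D ≤ μ → #G ≤ μ →
      #(Sum.inl '' D ∪ Sum.inr '' G : Set (X ⊕ C(X, ℝ))) ≤ μ := fun D G h h' =>
    (mk_union_le _ _).trans (add_le_of_le hμ0 (mk_image_le.trans h) (mk_image_le.trans h'))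
  obtain ⟨S, hS, hS0, hS1, hS2⟩ := chain (B := X ⊕ C(X, ℝ)) (fun S => #S ≤ μ)
    (fun ι f hι hf => small_union hμ0 f (hι.trans hμ) hf)
    (fun S => Sum.inl '' b (Sum.inr ⁻¹' S) ∪ Sum.inr '' s (Sum.inl ⁻¹' S))
    (fun S h => hu _ _ ((hb' _).trans (max_le hμ0 (hr S h))) ((hs _).trans (max_le hμ0 (hl S h))))
    (Sum.inl '' D0 ∪ Sum.inr '' G0) (hu _ _ hD hG)
  refine ⟨Sum.inl ⁻¹' S, Sum.inr ⁻¹' S, fun x hx => hS0 (Or.inl (mem_image_of_mem _ hx)),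
    fun x hx => hS0 (Or.inr (mem_image_of_mem _ hx)), hl S hS, hr S hS, fun x hx => ?_,
    Dn.sat fun F hF => ?_, fun x hx y hy h => ?_⟩
  · rcases hS1 _ hx with h | ⟨S', h, -⟩
    · exact h0 (by simpa using h)
    · exact hb _ (by simpa using h)
  · obtain ⟨S', -, h1, -, h3⟩ := hS2 (Sum.inr '' F) (image_subset_iff.2 hF)
      (F.countable_toSet.image _)
    refine (hb'' _ F (image_subset_iff.1 h1)).trans (Sat.mono Subset.rfl (closure_mono ?_))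
    exact fun x hx => h3 (Or.inl (mem_image_of_mem _ hx))
  · obtain ⟨u, hu, hx⟩ := mem_closure_iff_seq_limit.1 hx
    obtain ⟨v, hv, hy⟩ := mem_closure_iff_seq_limit.1 hy
    obtain ⟨S', -, h1, -, h3⟩ := hS2 (Sum.inl '' (range u ∪ range v))
      (image_subset_iff.2 (union_subset (range_subset_iff.2 hu) (range_subset_iff.2 hv)))
      (((countable_range u).union (countable_range v)).image _)
    refine hs' (Sum.inl ⁻¹' S') x (mem_closure_of_tendsto hx (Eventually.of_forall fun n =>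
      h1 (mem_image_of_mem _ (Or.inl (mem_range_self n))))) y (mem_closure_of_tendsto hy
        (Eventually.of_forall fun n => h1 (mem_image_of_mem _ (Or.inr (mem_range_self n)))))
      fun g hg => h g (h3 (Or.inr (mem_image_of_mem _ hg)))

theorem Nice.retr [CompactSpace X] {Z D : Set X} {G : Set C(X, ℝ)} (h : Nice Z D G) :
    ∃ r : X → X, ContinuousOn r Z ∧
      ∀ z ∈ Z, r z ∈ closure D ∧ ∀ g ∈ G, g (r z) = g z := by
  choose! r hr hr' using fun z (hz : z ∈ Z) => h.2.1 hz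
  refine ⟨r, (continuousOn_iff_isClosed).2 fun C hC => ⟨Sat G (C ∩ closure D),
    closed_sat G (hC.inter isClosed_closure), ?_⟩, fun z hz => ⟨hr z hz, hr' z hz⟩⟩
  ext z
  constructor
  · rintro ⟨h1, hz⟩
    exact ⟨⟨r z, ⟨h1, hr z hz⟩, hr' z hz⟩, hz⟩
  · rintro ⟨⟨w, hw, hw'⟩, hz⟩
    refine ⟨?_, hz⟩
    rw [mem_preimage, h.2.2 _ (hr z hz) w hw.2 fun g hg => (hr' z hz g hg).trans (hw' g hg).symm]
    exact hw.1

theorem exists_tower [CompactSpace X] [FrechetUrysohnSpace X] (hM : Mono X) {Z : Set X}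
    {κ : Cardinal.{0}} (hκ : ℵ_ 1 < κ) (T : Ix κ → Set X) (T' : Ix κ → Set C(X, ℝ))
    (hT : ∀ i, T i ⊆ Z ∧ #(T i) < κ) (hT' : ∀ i, #(T' i) < κ) :
    ∃ (D : Ix κ → Set X) (G : Ix κ → Set C(X, ℝ)), Monotone D ∧ Monotone G ∧
      ∀ i, T i ⊆ D i ∧ T' i ⊆ G i ∧ #(D i) < κ ∧ Nice Z (D i) (G i) := by
  have hκ0 : ℵ₀ ≤ κ := (aleph0_le_aleph 1).trans hκ.le
  have h1 : ∀ p : Set X × Set C(X, ℝ), ∃ q : Set X × Set C(X, ℝ),
      p.1 ⊆ Z → #p.1 < κ → #p.2 < κ →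
        p.1 ⊆ q.1 ∧ p.2 ⊆ q.2 ∧ #q.1 < κ ∧ #q.2 < κ ∧ Nice Z q.1 q.2 := by
    intro p
    by_cases h : p.1 ⊆ Z ∧ #p.1 < κ ∧ #p.2 < κ
    · obtain ⟨D, G, a1, a2, a3, a4, a5⟩ := exists_nice hM (μ := max (ℵ_ 1) (max #p.1 #p.2))
        (G0 := p.2) (le_max_left _ _) h.1 (le_max_of_le_right (le_max_left _ _))
        (le_max_of_le_right (le_max_right _ _))
      have := max_lt hκ (max_lt h.2.1 h.2.2)
      exact ⟨(D, G), fun _ _ _ => ⟨a1, a2, a3.trans_lt this, a4.trans_lt this, a5⟩⟩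
    · exact ⟨p, fun a b c => absurd ⟨a, b, c⟩ h⟩
  choose N hN using h1
  obtain ⟨f, hf⟩ := exists_rec (T := Ix κ) ((∅, ∅) : Set X × Set C(X, ℝ))
    (fun i f => N (T i ∪ ⋃ j : Iio i, (f j).1, T' i ∪ ⋃ j : Iio i, (f j).2)) (fun i f f' h => by
      have : ∀ j : Iio i, f j = f' j := fun j => h j j.2
      simp only [this])
  have h2 : ∀ i, (T i ∪ ⋃ j : Iio i, (f j).1) ⊆ (f i).1 ∧ (T' i ∪ ⋃ j : Iio i, (f j).2) ⊆ (f i).2 ∧
      #(f i).1 < κ ∧ #(f i).2 < κ ∧ Nice Z (f i).1 (f i).2 := by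
    intro i
    induction i using (wellFounded_lt (α := Ix κ)).induction with
    | _ i ih =>
    rw [hf i]
    refine hN (_, _) (union_subset (hT i).1 (iUnion_subset fun j => (ih j j.2).2.2.2.2.1)) ?_ ?_
    · exact (mk_union_le _ _).trans_lt (add_lt_of_lt hκ0 (hT i).2
        (small_union_lt hκ0 _ (Ix_iio i) fun j => (ih j j.2).2.2.1))
    · exact (mk_union_le _ _).trans_lt (add_lt_of_lt hκ0 (hT' i)
        (small_union_lt hκ0 _ (Ix_iio i) fun j => (ih j j.2).2.2.2.1))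
  refine ⟨fun i => (f i).1, fun i => (f i).2, monotone_iff_forall_lt.2 fun j i h => ?_,
    monotone_iff_forall_lt.2 fun j i h => ?_, fun i => ⟨subset_union_left.trans (h2 i).1,
      subset_union_left.trans (h2 i).2.1, (h2 i).2.2.1, (h2 i).2.2.2.2⟩⟩
  · exact ((subset_iUnion (fun j : Iio i => (f j).1) ⟨j, h⟩).trans subset_union_right).trans (h2 i).1
  · exact ((subset_iUnion (fun j : Iio i => (f j).2) ⟨j, h⟩).trans subset_union_right).trans
      (h2 i).2.1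

end Pool.Agent.H33.Spl1
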