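import Mathlib
import Pool.Agent.H33.Spl1

/-!
The colouring game on monolithic Frechet compacta.
-/

open Set Filter Topology Cardinal

namespace Pool.Agent.H33.Spl2

open Pool.Agent.H33.Retr Pool.Agent.H33.Spl1

/-- colours -/
abbrev Col : Type := ℕ × ℕ → Prop

theorem mk_Col : #Col = 𝔠 := by simp [Col]

theorem exists_col {α : Type} (S : Set α) (h : #S ≤ 𝔠) : ∃ c : α → Col, InjOn c S := by
  classical
  obtain ⟨e⟩ : Nonempty (S ↪ Col) := by rwa [← Cardinal.le_def, mk_Col]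
  refine ⟨fun a => if h : a ∈ S then e ⟨a, h⟩ else fun _ => True, fun a ha b hb hab => ?_⟩
  simp only [ha, hb, dif_pos] at hab
  exact congrArg Subtype.val (e.injective hab)

theorem exists_seg {I : Type} [LinearOrder I] (hb : ∀ s : Set I, #s < #I → ∃ b, ∀ x ∈ s, x < b)
    (hi : ∀ i : I, #(Iio i) < #I) (h1 : ℵ_ 1 < #I) (h : Finset (I × I) → I) :
    ∃ B : Set I, (∃ b, ∀ x ∈ B, x < b) ∧ IsLowerSet B ∧
      (∀ F : Finset (I × I), ↑F ⊆ B ×ˢ B → h F ∈ B) ∧
      ∀ s : ℕ → I, (∀ n, s n ∈ B) → ∃ b ∈ B, ∀ n, s n ≤ b := by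
  have h0 : ℵ₀ < #I := (aleph0_le_aleph 1).trans_lt h1
  have h2 : ∀ S : Set I, ∃ u, (∃ b, ∀ x ∈ S, x < b) →
      (∀ x ∈ S, x < u) ∧ ∀ F : Finset (I × I), ↑F ⊆ S ×ˢ S → h F < u := by
    intro S
    by_cases hS : ∃ b, ∀ x ∈ S, x < b
    · obtain ⟨b, hb'⟩ := hS
      have h3 : #S < #I := (mk_le_mk_of_subset hb').trans_lt (hi b)
      obtain ⟨u, hu⟩ := hb (S ∪ h '' {F : Finset (I × I) | ↑F ⊆ S ×ˢ S}) (by
        refine (mk_union_le _ _).trans_lt (add_lt_of_lt h0.le h3 (mk_image_le.trans_lt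
          ((mk_finsets_le _).trans_lt (max_lt h0 ?_))))
        rw [mk_setProd]
        exact mul_lt_of_lt h0.le h3 h3)
      exact ⟨u, fun _ => ⟨fun x hx => hu x (Or.inl hx), fun F hF => hu _ (Or.inr ⟨F, hF, rfl⟩)⟩⟩
    · exact ⟨h ∅, fun h' => absurd h' hS⟩
  choose u hu using h2
  obtain ⟨B, hB, -, hB1, hB2⟩ := chain (fun S : Set I => ∃ b, ∀ x ∈ S, x < b)
    (fun ι f hι hf => by
      choose b hb' using hf
      obtain ⟨c, hc⟩ := hb (range b) (mk_range_le.trans_lt (hι.trans_lt h1))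
      refine ⟨c, fun x hx => ?_⟩
      obtain ⟨i, hi⟩ := mem_iUnion.1 hx
      exact (hb' i x hi).trans (hc _ (mem_range_self i)))
    (fun S => Iic (u S)) (fun S _ => by
      obtain ⟨c, hc⟩ := hb {u S} (by simpa using one_lt_aleph0.trans h0)
      exact ⟨c, fun x hx => lt_of_le_of_lt hx (hc _ rfl)⟩) ∅ ⟨h ∅, by simp⟩
  refine ⟨B, hB, fun a b hab ha => ?_, fun F hF => ?_, fun s hs => ?_⟩
  · rcases hB1 a ha with h3 | ⟨S, h3, h4⟩
    · exact h3.elim
    · exact h4 (le_trans hab h3)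
  · obtain ⟨S, a1, a2, -, a4⟩ := hB2 (Prod.fst '' (F : Set (I × I)) ∪ Prod.snd '' (F : Set (I × I)))
      (union_subset (image_subset_iff.2 fun p hp => (hF hp).1)
        (image_subset_iff.2 fun p hp => (hF hp).2))
      ((F.countable_toSet.image _).union (F.countable_toSet.image _))
    exact a4 ((hu S a1).2 F fun p hp =>
      ⟨a2 (Or.inl (mem_image_of_mem _ hp)), a2 (Or.inr (mem_image_of_mem _ hp))⟩).le
  · obtain ⟨S, a1, a2, -, a4⟩ := hB2 (range s) (range_subset_iff.2 hs) (countable_range s)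
    exact ⟨u S, a4 (mem_Iic.2 le_rfl), fun n => ((hu S a1).1 _ (a2 (mem_range_self n))).le⟩

variable {X : Type} [TopologicalSpace X] [CompactSpace X] [FrechetUrysohnSpace X] [T2Space X]

section Tower

variable {I : Type} [LinearOrder I] [WellFoundedLT I] {Z : Set X} {D : I → Set X}
  {G : I → Set C(X, ℝ)}

/-- new stages of a point -/
def J (D : I → Set X) (G : I → Set C(X, ℝ)) (x : X) : Set I :=
  {i | ∀ j < i, x ∉ Sat (G i) (closure (D j))}

theorem countable_J (hD : Monotone D) (hG : Monotone G) (hN : ∀ i, Nice Z (D i) (G i)) {x : X}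
    (hx : x ∈ Z) : (J D G x).Countable := by
  by_contra hJ
  have hJ' : ¬ {ξ ∈ J D G x | (J D G x ∩ Iio ξ).Countable}.Countable := by
    intro hc
    obtain ⟨ξ, hξ, hmin⟩ := (wellFounded_lt (α := I)).has_min
      (J D G x \ {ξ ∈ J D G x | (J D G x ∩ Iio ξ).Countable}) (by
        by_contra hne
        rw [not_nonempty_iff_eq_empty, sdiff_eq_empty] at hne
        exact hJ (hc.mono hne))
    refine hξ.2 ⟨hξ.1, hc.mono fun η hη => ?_⟩
    by_contra h2
    exact hmin η ⟨hη.1, h2⟩ hη.2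
  set J' := {ξ ∈ J D G x | (J D G x ∩ Iio ξ).Countable}
  have hub : ∀ s : ℕ → J', ∃ b : J', ∀ n, s n < b := by
    intro s
    obtain ⟨ξ, hξ, hξ'⟩ : ∃ ξ ∈ J', ξ ∉ ⋃ n, insert (s n).1 (J D G x ∩ Iio (s n).1) := by
      by_contra hn
      push Not at hn
      exact hJ' ((countable_iUnion fun n => (s n).2.2.insert _).mono hn)
    refine ⟨⟨ξ, hξ⟩, fun n => ?_⟩
    by_contra h2
    refine hξ' (mem_iUnion.2 ⟨n, ?_⟩)
    rcases (not_lt.1 h2).eq_or_lt with h3 | h3
    · exact Or.inl (congrArg Subtype.val h3)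
    · exact Or.inr ⟨hξ.1, h3⟩
  have hne : Nonempty J' := by
    by_contra hne
    rw [not_nonempty_iff] at hne
    exact hJ' (to_countable _)
  have hR : IsClosed (⋃ a : J', closure (D a)) :=
    closed_union _ (fun _ => isClosed_closure) fun s =>
      (hub s).imp fun b hb n => closure_mono (hD (hb n).le)
  obtain ⟨y, hy, hy'⟩ := hR.isCompact.inter_iInter_nonempty (fun a : J' => Sat (G a) {x})
    (fun a => closed_sat _ isClosed_singleton) (fun u => by
      obtain ⟨b, hb⟩ := u.exists_le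
      obtain ⟨z, hz, hz'⟩ := (hN b).2.1 hx
      exact ⟨z, mem_iUnion.2 ⟨b, hz⟩, mem_iInter₂.2 fun a ha =>
        ⟨x, rfl, fun g hg => (hz' g (hG (hb a ha) hg)).symm⟩⟩)
  obtain ⟨b, hb⟩ := mem_iUnion.1 hy
  obtain ⟨a, ha⟩ := hub fun _ => b
  obtain ⟨_, rfl, h⟩ := mem_iInter.1 hy' a
  exact a.2.1 b (ha 0) ⟨y, hb, fun g hg => (h g hg).symm⟩

theorem jcol (hb : ∀ s : Set I, #s < #I → ∃ b, ∀ x ∈ s, x < b)
    (hi : ∀ i : I, #(Iio i) < #I) (h1 : ℵ_ 1 < #I)
    (hD : Monotone D) (hG : Monotone G) (hN : ∀ i, Nice Z (D i) (G i))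
    (hZ : Z ⊆ ⋃ i, closure (D i)) : ∃ c : X → Col, ∀ K ⊆ Z, IsClosed K →
      (∀ x ∈ K, ∀ y ∈ K, c x = c y) → ∃ i, K ⊆ closure (D i) := by
  classical
  have hne : Nonempty I := mk_ne_zero_iff.1 (zero_le.trans_lt h1).ne'
  have h2 : ∀ x ∈ Z, ∃ u : ℕ → I, J D G x = range u := fun x hx =>
    (countable_J hD hG hN hx).exists_eq_range ⟨(wellFounded_lt (α := I)).min univ univ_nonempty,
      fun j hj => absurd hj ((wellFounded_lt (α := I)).not_lt_min univ (mem_univ j))⟩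
  choose! u hu using h2
  refine ⟨fun x p => u x p.1 < u x p.2, fun K hK hKc hc => ?_⟩
  by_contra hn
  push Not at hn
  have h3 : ∀ F : Finset (I × I), ∃ i, (K ∩ ⋂ p ∈ F, Sat (G p.2) (closure (D p.1))).Nonempty →
      (closure (D i) ∩ (K ∩ ⋂ p ∈ F, Sat (G p.2) (closure (D p.1)))).Nonempty := by
    intro F
    by_cases h : (K ∩ ⋂ p ∈ F, Sat (G p.2) (closure (D p.1))).Nonempty
    · obtain ⟨y, hy⟩ := h
      obtain ⟨i, hi⟩ := mem_iUnion.1 (hZ (hK hy.1))
      exact ⟨i, fun _ => ⟨y, hi, hy⟩⟩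
    · exact ⟨Classical.arbitrary I, fun h' => absurd h' h⟩
  choose h hh using h3
  obtain ⟨B, ⟨δ, hδ⟩, hB1, hB2, hB3⟩ := exists_seg hb hi h1 h
  obtain ⟨x, hx, hxδ⟩ := not_subset.1 (hn δ)
  have hR : IsClosed (⋃ a : B, closure (D a)) :=
    closed_union _ (fun _ => isClosed_closure) fun s => by
      obtain ⟨b, hb, hb'⟩ := hB3 (fun n => s n) fun n => (s n).2
      exact ⟨⟨b, hb⟩, fun n => closure_mono (hD (hb' n))⟩
  obtain ⟨y, hy, hy'⟩ := (hKc.inter hR).isCompact.inter_iInter_nonempty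
    (fun p : {p : I × I | p ∈ B ×ˢ B ∧ x ∈ Sat (G p.2) (closure (D p.1))} =>
      Sat (G p.1.2) (closure (D p.1.1))) (fun p => closed_sat _ isClosed_closure) (fun v => by
      have a1 : ↑(v.image Subtype.val) ⊆ B ×ˢ B := by
        intro p hp
        obtain ⟨q, -, rfl⟩ := Finset.mem_image.1 hp
        exact q.2.1
      obtain ⟨y, a2, a3, a4⟩ := hh (v.image Subtype.val) ⟨x, hx, mem_iInter₂.2 fun p hp => by
        obtain ⟨q, -, rfl⟩ := Finset.mem_image.1 hp
        exact q.2.2⟩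
      exact ⟨y, ⟨a3, mem_iUnion.2 ⟨⟨_, hB2 _ a1⟩, a2⟩⟩, mem_iInter₂.2 fun p hp =>
        mem_iInter₂.1 a4 p (Finset.mem_image_of_mem _ hp)⟩)
  obtain ⟨b, hb'⟩ := mem_iUnion.1 hy.2
  have h4 : J D G y ⊆ B := fun i hi' => hB1 (not_lt.1 fun h =>
    hi' b h ⟨y, hb', fun _ _ => rfl⟩) b.2
  have h5 : J D G y ⊆ J D G x := fun i hi' j hj hx' =>
    hi' j hj (mem_iInter.1 hy' ⟨(j, i), ⟨hB1 hj.le (h4 hi'), h4 hi'⟩, hx'⟩)
  obtain ⟨a, ha, hmin⟩ := (wellFounded_lt (α := I)).has_min {i | x ∈ closure (D i)}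
    (mem_iUnion.1 (hZ (hK hx)))
  have h6 : a ∈ J D G x := by
    rintro j hj ⟨z, hz, hz'⟩
    rw [(hN a).2.2 z (closure_mono (hD hj.le) hz) x ha hz'] at hz
    exact hmin j hz hj
  have h7 : δ < a := not_le.1 fun h => hxδ (closure_mono (hD h) ha)
  have h8 : ∀ i : J D G x, ∃ n, u x n = i := fun i => (hu x (hK hx)).subset i.2
  choose n hn' using h8
  have h9 : ∀ m, u y m ∈ J D G y := fun m => by
    rw [hu y (hK hy.1)]
    exact mem_range_self m
  have h10 : StrictMono fun i : J D G x => (⟨u y (n i), h5 (h9 _)⟩ : J D G x) := by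
    intro i j hij
    have := congrFun (hc x hx y hy.1) (n i, n j)
    simp only [hn'] at this
    exact this ▸ hij
  exact ((hδ _ (h4 (h9 _))).trans h7).not_ge (h10.le_apply (x := ⟨a, h6⟩))

end Tower

/-- One step of the game. -/
theorem one_step (hM : Mono X) {Z : Set X} (hZ2 : Z.Nontrivial) :
    ∃ (r : ℕ → X → X) (c : X → Col), (∀ n, ContinuousOn (r n) Z) ∧
      (∀ x ∈ Z, ∀ y ∈ Z, (∀ n, r n x = r n y) → x = y) ∧
      ∀ n, ∀ K ⊆ Z, IsClosed K → (∀ x ∈ K, ∀ y ∈ K, c x = c y) → dens (r n '' K) < dens Z := by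
  obtain ⟨T, hT, hT', hTc⟩ := exists_dens Z
  rcases le_or_gt (dens Z) 𝔠 with h | h
  · obtain ⟨c, hc⟩ := exists_col Z ((mk_le_mk_of_subset hT').trans ((mk_closure_le T).trans
      ((power_le_power_right (hTc.trans_le h)).trans_eq continuum_power_aleph0)))
    refine ⟨fun _ => id, c, fun _ => continuousOn_id, fun x _ y _ h => h 0, fun _ K hK _ hm => ?_⟩
    rw [image_id]
    have h1 : K.Subsingleton := fun x hx y hy => hc (hK hx) (hK hy) (hm x hx y hy)
    refine ((dens_le Subset.rfl subset_closure).trans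
      (mk_le_one_iff_set_subsingleton.2 h1)).trans_lt ?_
    rw [← hTc]
    by_contra h2
    exact hZ2.not_subsingleton ((mk_le_one_iff_set_subsingleton.1 (not_lt.1 h2)).closure.anti hT')
  have h1 : ℵ_ 1 < dens Z := aleph_one_le_continuum.trans_lt h
  have h0 : ℵ₀ < dens Z := (aleph0_le_aleph 1).trans_lt h1
  obtain ⟨G0, hG0, hs⟩ := hM T
  obtain ⟨P, hP, hP'⟩ := exists_pieces h0.le T hTc.le
  obtain ⟨Q, hQ, hQ'⟩ := exists_pieces h0.le G0 (hG0.trans (max_le h0.le hTc.le))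
  obtain ⟨D, G, hD, hG, hN⟩ := exists_tower hM h1 P Q (fun i => ⟨(hP i).1.trans hT, (hP i).2⟩)
    fun i => (hQ i).2
  have hsm : ∀ i, ∀ K, IsClosed K → K ⊆ closure (D i) → dens K < dens Z := fun i K hK hK' =>
    (dens_sub hM hK hK').trans_lt (max_lt h0 (hN i).2.2.1)
  rcases (cof_inf h0.le).eq_or_lt with h2 | h2
  · have : Countable (Ix (dens Z)) := by rw [← mk_le_aleph0_iff, mk_Ix, ← h2]
    have : Nonempty (Ix (dens Z)) := by
      rw [← mk_ne_zero_iff, mk_Ix, ← h2]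
      exact aleph0_ne_zero
    obtain ⟨e, he⟩ := exists_surjective_nat (Ix (dens Z))
    choose r hr hr' using fun i => (hN i).2.2.2.retr
    refine ⟨fun n => r (e n), fun _ _ => True, fun n => hr _, fun x hx y hy hxy =>
      hs x (hT' hx) y (hT' hy) fun g hg => ?_, fun n K hK hKc _ => hsm (e n) _
        (hKc.isCompact.image_of_continuousOn ((hr _).mono hK)).isClosed
        (image_subset_iff.2 fun z hz => (hr' _ z (hK hz)).1)⟩
    obtain ⟨i, hi⟩ := mem_iUnion.1 (hQ' hg)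
    obtain ⟨n, rfl⟩ := he i
    rw [← (hr' _ x hx).2 g ((hN _).2.1 hi), ← (hr' _ y hy).2 g ((hN _).2.1 hi)]
    exact congrArg g (hxy n)
  have hcov : Z ⊆ ⋃ i, closure (D i) := by
    refine hT'.trans (closure_minimal (hP'.trans (iUnion_mono fun i =>
      (hN i).1.trans subset_closure)) (closed_union _ (fun _ => isClosed_closure) fun s => ?_))
    obtain ⟨b, hb⟩ := Ix_bdd (range s) ((le_aleph0_iff_set_countable.2 (countable_range s)).trans_lt h2)
    exact ⟨b, fun n => closure_mono (hD (hb _ (mem_range_self n)).le)⟩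
  suffices h3 : ∃ c : X → Col, ∀ K ⊆ Z, IsClosed K →
      (∀ x ∈ K, ∀ y ∈ K, c x = c y) → ∃ i, K ⊆ closure (D i) by
    obtain ⟨c, hc⟩ := h3
    refine ⟨fun _ => id, c, fun _ => continuousOn_id, fun x _ y _ h => h 0, fun _ K hK hKc hm => ?_⟩
    rw [image_id]
    obtain ⟨i, hi⟩ := hc K hK hKc hm
    exact hsm i K hKc hi
  rcases le_or_gt (dens Z).ord.cof 𝔠 with h3 | h3
  · have : Nonempty (Ix (dens Z)) := by
      rw [← mk_ne_zero_iff, mk_Ix]
      exact (zero_le.trans_lt h2).ne'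
    obtain ⟨c, hc⟩ := exists_col (univ : Set (Ix (dens Z))) (by rwa [mk_univ, mk_Ix])
    choose! ρ hρ using fun x (hx : x ∈ Z) => mem_iUnion.1 (hcov hx)
    refine ⟨c ∘ ρ, fun K hK _ hm => ?_⟩
    rcases K.eq_empty_or_nonempty with rfl | ⟨x, hx⟩
    · exact ⟨Classical.arbitrary _, empty_subset _⟩
    · refine ⟨ρ x, fun y hy => ?_⟩
      rw [hc (mem_univ _) (mem_univ _) (hm x hx y hy)]
      exact hρ y (hK hy)
  · exact jcol (fun s hs => Ix_bdd s (mk_Ix _ ▸ hs)) (fun i => (Ix_iio i).trans_eq (mk_Ix _).symm)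
      (aleph_one_le_continuum.trans_lt (h3.trans_eq (mk_Ix _).symm)) hD hG (fun i => (hN i).2.2.2) hcov

/-- The game. -/
theorem game (hM : Mono X) (E : Set X → X → X → Prop)
    (hE : ∀ A, Equivalence (E A)) (hEc : ∀ A x, IsClosed {y | E A x y})
    (hEA : ∀ A x y, E A x y → x ∈ A → y ∈ A) :
    ∃ A : ℕ → Set X, ∀ x y, (∀ n, E (A n) x y) → x = y := by
  classical
  have h0 : ∀ Z : Set X, ∃ (r : ℕ → X → X) (c : X → Col), IsClosed Z → Z.Nontrivial →
      (∀ n, ContinuousOn (r n) Z) ∧ (∀ x ∈ Z, ∀ y ∈ Z, (∀ n, r n x = r n y) → x = y) ∧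
      ∀ n, ∀ K ⊆ Z, IsClosed K → (∀ x ∈ K, ∀ y ∈ K, c x = c y) → dens (r n '' K) < dens Z := by
    intro Z
    by_cases h : IsClosed Z ∧ Z.Nontrivial
    · obtain ⟨r, c, h'⟩ := one_step hM h.2
      exact ⟨r, c, fun _ _ => h'⟩
    · exact ⟨fun _ => id, fun _ _ => True, fun a b => absurd ⟨a, b⟩ h⟩
  choose r c h0 using h0
  have hr := fun Z a b => (h0 Z a b).1
  have hri := fun Z a b => (h0 Z a b).2.1
  have hrd := fun Z a b => (h0 Z a b).2.2
  let cls : Set (Set X) → X → Set X := fun 𝒜 x => {y | ∀ A ∈ 𝒜, E A x y}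
  have hcl : ∀ 𝒜 x, IsClosed (cls 𝒜 x) := fun 𝒜 x => by
    simp only [cls, ofPred_forall]
    exact isClosed_iInter fun A => isClosed_iInter fun _ => hEc A x
  have hcm : ∀ 𝒜 x y, y ∈ cls 𝒜 x → cls 𝒜 y = cls 𝒜 x := fun 𝒜 x y h => Set.ext fun z =>
    ⟨fun hz A hA => (hE A).trans (h A hA) (hz A hA),
      fun hz A hA => (hE A).trans ((hE A).symm (h A hA)) (hz A hA)⟩
  let St := Set (Set X) × (List ℕ → X → X → X)
  let nxt : St → St := fun p =>
    (p.1 ∪ range fun q : List ℕ × (ℕ × ℕ) =>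
        {y | c (p.2 q.1 y '' cls p.1 y) (p.2 q.1 y y) q.2},
      fun s x => r (p.2 s.tail x '' cls p.1 x) s.headI ∘ p.2 s.tail x)
  let st : ℕ → St := fun n => nxt^[n] (∅, fun _ _ => id)
  have hst : ∀ n, st (n + 1) = nxt (st n) := fun n => Function.iterate_succ_apply' _ _ _
  have hc : ∀ n, (st n).1.Countable := by
    intro n
    induction n with
    | zero => exact countable_empty
    | succ n ih =>
      rw [hst]
      exact ih.union (countable_range _)
  have hsub : ∀ n x, cls (st (n + 1)).1 x ⊆ cls (st n).1 x := fun n x y hy A hA =>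
    hy A (by rw [hst]; exact Or.inl hA)
  have hinv : ∀ n s x y, y ∈ cls (st n).1 x → (st n).2 s y = (st n).2 s x := by
    intro n
    induction n with
    | zero => exact fun _ _ _ _ => rfl
    | succ n ih =>
      intro s x y h
      have h1 := hsub n x h
      rw [hst]
      simp only [nxt, ih _ x y h1, hcm _ x y h1]
  obtain ⟨A, hA⟩ := (countable_iUnion hc).insert Set.univ |>.exists_eq_range (insert_nonempty _ _)
  refine ⟨A, fun x y hxy => ?_⟩
  have hy : ∀ n, y ∈ cls (st n).1 x := fun n B hB => by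
    obtain ⟨m, rfl⟩ : B ∈ range A := hA ▸ Or.inr (mem_iUnion.2 ⟨n, hB⟩)
    exact hxy m
  have hx : ∀ n, x ∈ cls (st n).1 x := fun n B _ => (hE B).refl x
  by_contra hne
  have key : ∀ κ : Cardinal.{0}, ∀ n s, ContinuousOn ((st n).2 s x) (cls (st n).1 x) →
      (st n).2 s x x ≠ (st n).2 s x y → dens ((st n).2 s x '' cls (st n).1 x) ≠ κ := by
    intro κ
    induction κ using (wellFounded_lt (α := Cardinal.{0})).induction with
    | _ κ ih =>
    intro n s h1 h2 h3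
    have hZ := ((hcl _ x).isCompact.image_of_continuousOn h1).isClosed
    have hZ2 : ((st n).2 s x '' cls (st n).1 x).Nontrivial :=
      ⟨_, mem_image_of_mem _ (hx n), _, mem_image_of_mem _ (hy n), h2⟩
    obtain ⟨m, hm⟩ := not_forall.1 fun h => h2
      (hri _ hZ hZ2 _ (mem_image_of_mem _ (hx n)) _ (mem_image_of_mem _ (hy n)) h)
    have h4 : (st (n + 1)).2 (m :: s) x = r ((st n).2 s x '' cls (st n).1 x) m ∘ (st n).2 s x := by
      rw [hst]
      rfl
    refine ih _ ?_ (n + 1) (m :: s) ?_ ?_ rfl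
    · rw [h4, image_comp, ← h3]
      refine hrd _ hZ hZ2 m _ (image_mono (hsub n x))
        ((hcl _ x).isCompact.image_of_continuousOn (h1.mono (hsub n x))).isClosed ?_
      have h5 : ∀ z ∈ cls (st (n + 1)).1 x, c ((st n).2 s x '' cls (st n).1 x) ((st n).2 s x z) =
          c ((st n).2 s x '' cls (st n).1 x) ((st n).2 s x x) := by
        intro z hz
        funext k
        have h6 := hz {y | c ((st n).2 s y '' cls (st n).1 y) ((st n).2 s y y) k}
          (by rw [hst]; exact Or.inr ⟨(s, k), rfl⟩)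
        have h7 := hEA _ _ _ h6
        have h8 := hEA _ _ _ ((hE _).symm h6)
        simp only [mem_ofPred_eq, hinv n s x z (hsub n x hz), hcm _ x z (hsub n x hz)] at h7 h8
        exact propext ⟨h8, h7⟩
      rintro _ ⟨z, hz, rfl⟩ _ ⟨w, hw, rfl⟩
      rw [h5 z hz, h5 w hw]
    · rw [h4]
      exact ((hr _ hZ hZ2 m).comp h1 (mapsTo_image _ _)).mono (hsub n x)
    · rw [h4]
      exact hm
  exact key _ 0 [] continuousOn_id hne rfl

end Pool.Agent.H33.Spl2
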