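import Mathlib
import Pool.Agent.H33.Spl2

/-!
Compact spaces splittable over classes of Corson compacta condense into countable products.
-/

open Set Filter Topology Cardinal

namespace Pool.Agent.H33.Spl3

open Pool.Agent.H33.GrothEx Pool.Agent.H33.Spl1 Pool.Agent.H33.Spl2

variable {X : Type} [TopologicalSpace X]

theorem sigma_seq {Γ : Type} {φ : X → Γ → ℝ} (hφ : Continuous φ)
    (hc : ∀ x, {γ | φ x γ ≠ 0}.Countable) {D : Set X} {x : X} (hx : x ∈ closure D) :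
    ∃ u : ℕ → X, (∀ n, u n ∈ D) ∧ Tendsto (fun n => φ (u n)) atTop (𝓝 (φ x)) := by
  have : Nonempty X := ⟨x⟩
  choose e he using fun y => Set.countable_iff_exists_injOn.1 (hc y)
  let S : X → ℕ → Set Γ := fun y n => {γ | φ y γ ≠ 0} ∩ e y ⁻¹' Iio n
  have hS : ∀ y n, (S y n).Finite := fun y n =>
    Finite.of_finite_image ((finite_Iio n).subset (image_subset_iff.2 inter_subset_right))
      ((he y).mono inter_subset_left)
  have h1 : ∀ (n : ℕ) (u : ℕ → X), ∃ y, y ∈ D ∧ ∀ γ ∈ S x n ∪ ⋃ m : Iio n, S (u m) n,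
      dist (φ y γ) (φ x γ) < 1 / ((n : ℝ) + 1) := by
    intro n u
    have h2 : ∀ᶠ y in 𝓝 x, ∀ γ ∈ S x n ∪ ⋃ m : Iio n, S (u m) n,
        dist (φ y γ) (φ x γ) < 1 / ((n : ℝ) + 1) :=
      (eventually_all_finite ((hS x n).union (finite_iUnion fun m => hS _ n))).2 fun γ _ =>
        ((continuous_apply γ).comp hφ).continuousAt (Metric.ball_mem_nhds _ Nat.one_div_pos_of_nat)
    exact ((mem_closure_iff_frequently.1 hx).and_eventually h2).exists
  obtain ⟨u, hu⟩ := exists_rec (T := ℕ) x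
    (fun n u => Classical.epsilon fun y => y ∈ D ∧ ∀ γ ∈ S x n ∪ ⋃ m : Iio n, S (u m) n,
      dist (φ y γ) (φ x γ) < 1 / ((n : ℝ) + 1)) (fun n u u' h => by
        have : ∀ m : Iio n, u m = u' m := fun m => h m m.2
        simp only [this])
  have h2 : ∀ n, u n ∈ D ∧ ∀ γ ∈ S x n ∪ ⋃ m : Iio n, S (u m) n,
      dist (φ (u n) γ) (φ x γ) < 1 / ((n : ℝ) + 1) := fun n => by
    have := Classical.epsilon_spec (h1 n u)
    rwa [← hu n] at this
  refine ⟨u, fun n => (h2 n).1, tendsto_pi_nhds.2 fun γ => ?_⟩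
  by_cases h : ∀ᶠ n in atTop, γ ∈ S x n ∪ ⋃ m : Iio n, S (u m) n
  · refine tendsto_iff_dist_tendsto_zero.2 (squeeze_zero' (Eventually.of_forall fun _ => dist_nonneg)
      (h.mono fun n hn => ((h2 n).2 γ hn).le) tendsto_one_div_add_atTop_nhds_zero_nat)
  · have h3 : φ x γ = 0 := by
      by_contra h3
      exact h ((eventually_gt_atTop (e x γ)).mono fun n hn => Or.inl ⟨h3, hn⟩)
    have h4 : ∀ m, φ (u m) γ = 0 := by
      intro m
      by_contra h4
      refine h ?_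
      filter_upwards [eventually_gt_atTop (e (u m) γ), eventually_gt_atTop m] with n hn hm
      exact Or.inr (mem_iUnion.2 ⟨⟨m, hm⟩, h4, hn⟩)
    simp only [h3, h4, tendsto_const_nhds_iff]

/-- condensation into a Sigma-product -/
def Cor (Y : Type) [TopologicalSpace Y] : Prop :=
  ∃ (Γ : Type) (e : Y → Γ → ℝ), Continuous e ∧ e.Injective ∧ ∀ y, {γ | e y γ ≠ 0}.Countable

theorem mono_of [FrechetUrysohnSpace X] [T2Space X] {Γ : Set X → Type} (φ : ∀ A, X → Γ A → ℝ)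
    (hφ : ∀ A, Continuous (φ A)) (hc : ∀ A x, {γ | φ A x γ ≠ 0}.Countable)
    (hA : ∀ A x y, φ A x = φ A y → x ∈ A → y ∈ A) : Mono X := by
  intro D
  obtain ⟨j⟩ : Nonempty (closure D ↪ Set (max ℵ₀ #D).out) := by
    rw [← Cardinal.le_def, mk_set, mk_out]
    refine (mk_closure_le D).trans ((power_le_power_right (le_max_right ℵ₀ #D)).trans
      ((power_le_power_left ?_ (le_max_left ℵ₀ #D)).trans_eq (power_self_eq (le_max_left _ _))))
    exact (aleph0_pos.trans_le (le_max_left _ _)).ne'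
  let A : (max ℵ₀ #D).out → Set X := fun ξ => {x | ∃ h : x ∈ closure D, ξ ∈ j ⟨x, h⟩}
  let v : ∀ ξ, Γ (A ξ) → C(X, ℝ) := fun ξ γ => ⟨fun x => φ _ x γ, (continuous_apply γ).comp (hφ _)⟩
  refine ⟨⋃ ξ, ⋃ d : D, v ξ '' {γ | φ (A ξ) d γ ≠ 0}, small_union (le_max_left _ _) _
    (mk_out _).le fun ξ => small_union (le_max_left _ _) _ (le_max_right _ _) fun d =>
      (le_aleph0_iff_set_countable.2 ((hc _ _).image _)).trans (le_max_left _ _),
    fun x hx y hy h => ?_⟩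
  have h1 : ∀ ξ, φ (A ξ) x = φ (A ξ) y := by
    intro ξ
    funext γ
    by_cases h2 : ∃ d ∈ D, φ (A ξ) d γ ≠ 0
    · obtain ⟨d, hd, h2⟩ := h2
      exact h (v ξ γ) (mem_iUnion₂.2 ⟨ξ, ⟨d, hd⟩, γ, h2, rfl⟩)
    · push Not at h2
      have h3 : closure D ⊆ {z | φ (A ξ) z γ = 0} :=
        closure_minimal h2 (isClosed_eq (v ξ γ).continuous continuous_const)
      rw [h3 hx, h3 hy]
  refine congrArg Subtype.val (j.injective (a₁ := ⟨x, hx⟩) (a₂ := ⟨y, hy⟩) (Set.ext fun ξ => ?_))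
  exact ⟨fun h => (hA _ _ _ (h1 ξ) ⟨hx, h⟩).2, fun h => (hA _ _ _ (h1 ξ).symm ⟨hy, h⟩).2⟩

theorem core [CompactSpace X] [T2Space X] (P : (Y : Type) → TopologicalSpace Y → Prop)
    (hP : ∀ Y t, P Y t → @Cor Y t)
    (hs : ∀ A : Set X, ∃ (Y : Type) (t : TopologicalSpace Y) (f : X → Y),
      P Y t ∧ Continuous f ∧ f ⁻¹' (f '' A) = A) :
    ∃ (Y : ℕ → Type) (t : ∀ n, TopologicalSpace (Y n)) (f : ∀ n, X → Y n),
      (∀ n, P (Y n) (t n) ∧ Continuous (f n)) ∧ ∀ x y, (∀ n, f n x = f n y) → x = y := by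
  choose Y t f hY hf hA using hs
  choose Γ e he hi hc using fun A => hP _ _ (hY A)
  have h1 : ∀ A x y, e A (f A x) = e A (f A y) → x ∈ A → y ∈ A := fun A x y h hx =>
    (hA A).subset ⟨x, hx, hi A h⟩
  have h2 : ∀ A, Continuous fun x => e A (f A x) := fun A => (he A).comp (hf A)
  have : FrechetUrysohnSpace X := ⟨fun D x hx => by
    obtain ⟨u, hu, hx⟩ := sigma_seq (h2 {x}) (fun y => hc _ _) hx
    refine ⟨u, hu, isCompact_univ.tendsto_nhds_of_unique_mapClusterPt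
      (Eventually.of_forall fun _ => mem_univ _) fun z _ hz => ?_⟩
    exact h1 {x} x z (eq_of_nhds_neBot
      (ClusterPt.mono (hz.continuousAt_comp (h2 _).continuousAt) hx)).symm rfl⟩
  obtain ⟨A, hA⟩ := game (mono_of _ h2 (fun A x => hc _ _) h1)
    (fun A x y => e A (f A x) = e A (f A y))
    (fun A => ⟨fun _ => rfl, Eq.symm, Eq.trans⟩) (fun A x => isClosed_eq continuous_const (h2 A)) h1
  exact ⟨fun n => Y (A n), fun n => t (A n), fun n => f (A n), fun n => ⟨hY _, hf _⟩,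
    fun x y h => hA x y fun n => congrArg _ (h n)⟩

theorem cor_of_seq {Y : ℕ → Type} [∀ n, TopologicalSpace (Y n)] (f : ∀ n, X → Y n)
    (hf : ∀ n, Continuous (f n)) (hi : ∀ x y, (∀ n, f n x = f n y) → x = y)
    (hY : ∀ n, Cor (Y n)) : Cor X := by
  choose Γ e he hi' hc using hY
  refine ⟨(n : ℕ) × Γ n, fun x p => e p.1 (f p.1 x) p.2,
    continuous_pi fun p => (continuous_apply p.2).comp ((he _).comp (hf _)),
    fun x y h => hi x y fun n => hi' n (funext fun γ => congrFun h ⟨n, γ⟩), fun x => ?_⟩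
  refine (countable_iUnion fun n => (hc n (f n x)).image (Sigma.mk n)).mono ?_
  rintro ⟨n, γ⟩ h
  exact mem_iUnion.2 ⟨n, γ, h, rfl⟩

/-- A compact space splittable over Corson compacta is Corson. -/
theorem corson [CompactSpace X] [T2Space X]
    (hs : ∀ A : Set X, ∃ (Y : Type) (_ : TopologicalSpace Y) (f : X → Y),
      Cor Y ∧ Continuous f ∧ f ⁻¹' (f '' A) = A) : Cor X := by
  obtain ⟨Y, t, f, h, hi⟩ := core (fun Y _ => Cor Y) (fun _ _ h => h) hs
  exact cor_of_seq f (fun n => (h n).2) hi fun n => (h n).1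

/-- condensation into `c₀` -/
def Eb (Y : Type) [TopologicalSpace Y] : Prop :=
  ∃ (Γ : Type) (e : Y → Γ → ℝ), Continuous e ∧ e.Injective ∧
    ∀ y, ∀ ε > 0, {γ | ε ≤ |e y γ|}.Finite

theorem countable_of_c0 {Γ : Type} {y : Γ → ℝ} (h : ∀ ε > 0, {γ | ε ≤ |y γ|}.Finite) :
    {γ | y γ ≠ 0}.Countable := by
  refine (countable_iUnion fun n : ℕ => (h _ (Nat.one_div_pos_of_nat (n := n))).countable).mono
    fun γ hγ => ?_
  obtain ⟨n, hn⟩ := exists_nat_one_div_lt (abs_pos.2 hγ)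
  exact mem_iUnion.2 ⟨n, hn.le⟩

theorem Eb.cor {Y : Type} [TopologicalSpace Y] (h : Eb Y) : Cor Y :=
  let ⟨Γ, e, a, b, c⟩ := h
  ⟨Γ, e, a, b, fun y => countable_of_c0 (c y)⟩

/-- squeezing -/
noncomputable def sq (n : ℕ) (t : ℝ) : ℝ := 1 / ((n : ℝ) + 1) * (t / (1 + |t|))

theorem sq_cont (n : ℕ) : Continuous (sq n) :=
  continuous_const.mul (continuous_id.div (by fun_prop) fun t => by positivity)

theorem sq_abs (n : ℕ) (t : ℝ) : |sq n t| ≤ 1 / ((n : ℝ) + 1) ∧ |sq n t| ≤ |t| := by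
  have h0 : (0 : ℝ) < 1 / ((n : ℝ) + 1) := Nat.one_div_pos_of_nat
  have h1 : 1 / ((n : ℝ) + 1) ≤ 1 := by
    rw [div_le_one (by positivity)]
    linarith [Nat.cast_nonneg (α := ℝ) n]
  have h2 : 0 < 1 + |t| := by positivity
  rw [sq, abs_mul, abs_of_pos h0, abs_div, abs_of_pos h2]
  have h3 : |t| / (1 + |t|) ≤ 1 := by rw [div_le_one h2]; linarith
  have h4 : |t| / (1 + |t|) ≤ |t| := div_le_self (abs_nonneg t) (by linarith [abs_nonneg t])
  exact ⟨mul_le_of_le_one_right h0.le h3,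
    (mul_le_of_le_one_left (by positivity) h1).trans h4⟩

theorem sq_inj (n : ℕ) : (sq n).Injective := by
  intro s t h
  have h1 := mul_left_cancel₀ (Nat.one_div_pos_of_nat (α := ℝ) (n := n)).ne' h
  rw [div_eq_div_iff (by positivity) (by positivity)] at h1
  rcases le_total 0 s with hs | hs <;> rcases le_total 0 t with ht | ht <;>
    simp only [abs_of_nonneg, abs_of_nonpos, hs, ht] at h1 <;> nlinarith

theorem sq_c0 {Γ : ℕ → Type} (y : ∀ n, Γ n → ℝ) (h : ∀ n, ∀ ε > 0, {γ | ε ≤ |y n γ|}.Finite) :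
    ∀ ε > 0, {p : (n : ℕ) × Γ n | ε ≤ |sq p.1 (y p.1 p.2)|}.Finite := by
  intro ε hε
  obtain ⟨N, hN⟩ := exists_nat_one_div_lt hε
  refine ((finite_lt_nat N).biUnion fun n _ => (h n ε hε).image (Sigma.mk n)).subset ?_
  rintro ⟨n, γ⟩ hp
  refine mem_biUnion (x := n) ?_ ⟨γ, le_trans hp (sq_abs _ _).2, rfl⟩
  by_contra hc
  have h1 : 1 / ((n : ℝ) + 1) ≤ 1 / ((N : ℝ) + 1) := Nat.one_div_le_one_div (not_lt.1 hc)
  linarith [le_trans hp (sq_abs _ _).1]

theorem eb_of_seq {Y : ℕ → Type} [∀ n, TopologicalSpace (Y n)] (f : ∀ n, X → Y n)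
    (hf : ∀ n, Continuous (f n)) (hi : ∀ x y, (∀ n, f n x = f n y) → x = y)
    (hY : ∀ n, Eb (Y n)) : ∃ (Γ : Type) (e : X → Γ → ℝ), Continuous e ∧ e.Injective ∧
      (∀ x γ, |e x γ| ≤ 1) ∧ ∀ y, ∀ ε > 0, {γ | ε ≤ |e y γ|}.Finite := by
  choose Γ e he hi' hc using hY
  refine ⟨(n : ℕ) × Γ n, fun x p => sq p.1 (e p.1 (f p.1 x) p.2),
    continuous_pi fun p => (sq_cont _).comp ((continuous_apply p.2).comp ((he _).comp (hf _))),
    fun x y h => hi x y fun n => hi' n (funext fun γ => sq_inj n (congrFun h ⟨n, γ⟩)),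
    fun x p => (sq_abs _ _).1.trans ?_, fun x => sq_c0 (fun n => e n (f n x)) fun n => hc n _⟩
  rw [div_le_one (by positivity)]
  linarith [Nat.cast_nonneg (α := ℝ) p.1]

/-- A compact space splittable over Eberlein compacta is Eberlein. -/
theorem eberlein [CompactSpace X] [T2Space X]
    (hs : ∀ A : Set X, ∃ (Y : Type) (_ : TopologicalSpace Y) (f : X → Y),
      Eb Y ∧ Continuous f ∧ f ⁻¹' (f '' A) = A) :
    ∃ (Γ : Type) (e : X → Γ → ℝ), Continuous e ∧ e.Injective ∧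
      (∀ x γ, |e x γ| ≤ 1) ∧ ∀ y, ∀ ε > 0, {γ | ε ≤ |e y γ|}.Finite := by
  obtain ⟨Y, t, f, h, hi⟩ := core (fun Y _ => Eb Y) (fun _ _ h => h.cor) hs
  exact eb_of_seq f (fun n => (h n).2) hi fun n => (h n).1

theorem Cor.prod {Y : Type} [TopologicalSpace Y] (h : Cor Y) : Cor (Y × Y) :=
  cor_of_seq (Y := fun _ => Y) (fun n p => if n = 0 then p.1 else p.2)
    (fun n => by split_ifs <;> fun_prop) (fun _ _ h => Prod.ext (h 0) (h 1)) fun _ => h

end Pool.Agent.H33.Spl3
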