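import Mathlib
import Pool.Agent.H33.Spl3

/-!
Lindelof Sigma spaces through ultrafilters, and Gul'ko compacta.
-/

open Set Filter Topology

namespace Pool.Agent.H33.Spl5

open Pool.Agent.H33.Groth Pool.Agent.H33.Retr Pool.Agent.H33.Spl3

theorem exists_ultra {α ι : Type} (p : ι → Prop) (s : ι → Set α) (h0 : ∃ i, p i)
    (h1 : ∀ i j, p i → p j → ∃ k, p k ∧ s k ⊆ s i ∩ s j) (h2 : ∀ i, p i → (s i).Nonempty) :
    ∃ 𝒰 : Ultrafilter α, ∀ i, p i → s i ∈ 𝒰 := by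
  have h : IsBasis p s := ⟨h0, fun hi hj => h1 _ _ hi hj⟩
  have : h.filter.NeBot := h.hasBasis.neBot_iff.2 fun hi => h2 _ hi
  exact ⟨Ultrafilter.of h.filter, fun i hi => Ultrafilter.of_le _ (h.hasBasis.mem_of_mem hi)⟩

variable {T : Type} [TopologicalSpace T]

/-- countable determination -/
def LS (Z : Set T) : Prop :=
  ∃ N : ℕ → Set T, ∀ z ∈ Z, ∃ a : Set ℕ, (∀ i ∈ a, z ∈ N i) ∧
    ∀ 𝒰 : Ultrafilter T, Z ∈ 𝒰 → (∀ i ∈ a, N i ∈ 𝒰) → ∃ y ∈ Z, ↑𝒰 ≤ 𝓝 y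

theorem LS.of_countable {Z : Set T} {ι : Type} [Countable ι] [Nonempty ι] (N : ι → Set T)
    (h : ∀ z ∈ Z, ∃ a : Set ι, (∀ i ∈ a, z ∈ N i) ∧
      ∀ 𝒰 : Ultrafilter T, Z ∈ 𝒰 → (∀ i ∈ a, N i ∈ 𝒰) → ∃ y ∈ Z, ↑𝒰 ≤ 𝓝 y) : LS Z := by
  obtain ⟨j, hj⟩ := exists_surjective_nat ι
  refine ⟨N ∘ j, fun z hz => ?_⟩
  obtain ⟨a, h1, h2⟩ := h z hz
  refine ⟨j ⁻¹' a, fun i hi => h1 _ hi, fun 𝒰 hZ h3 => h2 𝒰 hZ fun i hi => ?_⟩
  obtain ⟨n, rfl⟩ := hj i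
  exact h3 n hi

theorem master {T' : ℕ → Type} [∀ n, TopologicalSpace (T' n)] {Z : Set T} (W : ∀ n, Set (T' n))
    (hW : ∀ n, LS (W n)) (R : ∀ n, T → T' n → Prop) (h1 : ∀ z ∈ Z, ∀ n, ∃ s ∈ W n, R n z s)
    (h2 : ∀ 𝒱 : Ultrafilter T, Z ∈ 𝒱 → (∀ n, ∃ t ∈ W n, ∀ U ∈ 𝓝 t,
      {z | ∃ s ∈ U ∩ W n, R n z s} ∈ 𝒱) → ∃ y ∈ Z, ↑𝒱 ≤ 𝓝 y) : LS Z := by
  classical
  choose N hN using hW
  refine LS.of_countable (fun q : ℕ × Finset ℕ =>
    {z | ∃ s ∈ W q.1, (∀ i ∈ q.2, s ∈ N q.1 i) ∧ R q.1 z s}) fun z hz => ?_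
  choose s hs hs' using h1 z hz
  choose a ha ha' using fun n => hN n _ (hs n)
  refine ⟨{q | ↑q.2 ⊆ a q.1}, fun q hq => ⟨s _, hs _, fun i hi => ha _ i (hq hi), hs' _⟩,
    fun 𝒱 hZ h => h2 𝒱 hZ fun n => ?_⟩
  obtain ⟨𝒰, h𝒰⟩ := exists_ultra (fun q : Set T × Finset ℕ => q.1 ∈ 𝒱 ∧ ↑q.2 ⊆ a n)
    (fun q => {s ∈ W n | (∀ i ∈ q.2, s ∈ N n i) ∧ ∃ z ∈ q.1, R n z s})
    ⟨(univ, ∅), univ_mem, by simp⟩ (fun q q' hq hq' => ⟨(q.1 ∩ q'.1, q.2 ∪ q'.2),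
      ⟨inter_mem hq.1 hq'.1, by simp [hq.2, hq'.2]⟩, fun s ⟨a1, a2, z, a3, a4⟩ =>
        ⟨⟨a1, fun i hi => a2 i (Finset.mem_union_left _ hi), z, a3.1, a4⟩,
          ⟨a1, fun i hi => a2 i (Finset.mem_union_right _ hi), z, a3.2, a4⟩⟩⟩)
    fun q hq => by
      obtain ⟨z, hz1, s, a1, a2, a3⟩ := Ultrafilter.nonempty_of_mem
        (inter_mem hq.1 (h (n, q.2) hq.2))
      exact ⟨s, a1, a2, z, hz1, a3⟩
  obtain ⟨t, ht, ht'⟩ := ha' n 𝒰 (mem_of_superset (h𝒰 (univ, ∅) ⟨univ_mem, by simp⟩)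
    fun s hs => hs.1) fun i hi => mem_of_superset (h𝒰 (univ, {i}) ⟨univ_mem, by simpa⟩)
      fun s hs => hs.2.1 i (Finset.mem_singleton_self i)
  refine ⟨t, ht, fun U hU => ?_⟩
  by_contra hn
  obtain ⟨s, a1, a2, -, z, a3, a4⟩ := Ultrafilter.nonempty_of_mem (inter_mem (ht' hU)
    (h𝒰 (_, ∅) ⟨Ultrafilter.compl_mem_iff_notMem.2 hn, by simp⟩))
  exact a3 ⟨s, ⟨a1, a2⟩, a4⟩

theorem LS.image {T' : Type} [TopologicalSpace T'] {Z : Set T} (h : LS Z) {f : T → T'}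
    (hf : Continuous f) : LS (f '' Z) := by
  refine master (T' := fun _ => T) (fun _ => Z) (fun _ => h) (fun _ z s => f s = z)
    (fun z hz _ => hz) fun 𝒱 _ h => ?_
  obtain ⟨t, ht, h⟩ := h 0
  refine ⟨f t, mem_image_of_mem _ ht, fun U hU => mem_of_superset (h _ (hf.continuousAt hU)) ?_⟩
  rintro _ ⟨s, hs, rfl⟩
  exact hs.1

theorem LS.prod {Z : Set T} (h : LS Z) : LS (Z ×ˢ Z) := by
  refine master (T' := fun _ => T) (fun _ => Z) (fun _ => h)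
    (fun n z s => s = if n = 0 then z.1 else z.2) (fun z hz n => ⟨_, ?_, rfl⟩) fun 𝒱 _ h => ?_
  · split_ifs
    exacts [hz.1, hz.2]
  obtain ⟨t, ht, h0⟩ := h 0
  obtain ⟨t', ht', h1⟩ := h 1
  refine ⟨(t, t'), ⟨ht, ht'⟩, ?_⟩
  rw [nhds_prod_eq, Filter.le_prod]
  refine ⟨fun U hU => Filter.mem_map.2 (mem_of_superset (h0 U hU) ?_),
    fun U hU => Filter.mem_map.2 (mem_of_superset (h1 U hU) ?_)⟩
  · rintro z ⟨_, hs, rfl⟩
    exact hs.1
  · rintro z ⟨_, hs, rfl⟩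
    exact hs.1

theorem LS.iUnion {Z : ℕ → Set T} (h : ∀ n, LS (Z n)) : LS (⋃ n, Z n) := by
  choose N hN using h
  refine LS.of_countable (fun q : ℕ × Option ℕ => q.2.elim (Z q.1) (N q.1)) fun z hz => ?_
  obtain ⟨n, hn⟩ := mem_iUnion.1 hz
  obtain ⟨a, h1, h2⟩ := hN n z hn
  refine ⟨insert (n, none) ((fun i => (n, some i)) '' a), ?_, fun 𝒰 _ h => ?_⟩
  · rintro _ (rfl | ⟨i, hi, rfl⟩)
    exacts [hn, h1 i hi]
  · obtain ⟨y, hy, hy'⟩ := h2 𝒰 (h _ (mem_insert _ _)) fun i hi =>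
      h _ (Or.inr (mem_image_of_mem _ hi))
    exact ⟨y, mem_iUnion.2 ⟨n, hy⟩, hy'⟩

theorem LS.union {Z Z' : Set T} (h : LS Z) (h' : LS Z') : LS (Z ∪ Z') := by
  have : Z ∪ Z' = ⋃ n : ℕ, if n = 0 then Z else Z' := by
    ext z
    simp only [mem_union, mem_iUnion]
    refine ⟨fun h => h.elim (fun h => ⟨0, h⟩) fun h => ⟨1, h⟩, fun ⟨n, h⟩ => ?_⟩
    split_ifs at h
    exacts [Or.inl h, Or.inr h]
  rw [this]
  refine LS.iUnion fun n => ?_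
  split_ifs
  exacts [h, h']

/-- a countable network with respect to a compact cover -/
def NW (T : Type) [TopologicalSpace T] : Prop :=
  ∃ N : ℕ → Set T, ∀ z, ∃ K, IsCompact K ∧ z ∈ K ∧
    ∀ U, IsOpen U → K ⊆ U → ∃ n, K ⊆ N n ∧ N n ⊆ U

theorem NW.ls (h : NW T) : LS (univ : Set T) := by
  obtain ⟨N, hN⟩ := h
  refine ⟨N, fun z _ => ?_⟩
  obtain ⟨K, hK, hz, h⟩ := hN z
  refine ⟨{n | K ⊆ N n}, fun n hn => hn hz, fun 𝒰 _ h1 => ?_⟩
  by_contra hn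
  push Not at hn
  have h2 : ∀ y, ∃ U, IsOpen U ∧ y ∈ U ∧ U ∉ 𝒰 := fun y => by
    by_contra h3
    push Not at h3
    exact hn y trivial (le_nhds_iff.2 fun U hy hU => h3 U hU hy)
  choose U hU hy hU' using h2
  obtain ⟨s, hs⟩ := hK.elim_finite_subcover U hU fun y _ => mem_iUnion.2 ⟨y, hy y⟩
  obtain ⟨n, h3, h4⟩ := h _ (isOpen_biUnion fun y _ => hU y) hs
  obtain ⟨y, -, h5⟩ := (Ultrafilter.finite_biUnion_mem_iff s.finite_toSet).1
    (mem_of_superset (h1 n h3) h4)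
  exact hU' y h5

theorem LS.nw [RegularSpace T] (h : LS (univ : Set T)) : NW T := by
  classical
  obtain ⟨N, hN⟩ := h
  obtain ⟨j, hj⟩ := exists_surjective_nat (Finset ℕ)
  refine ⟨fun n => closure (⋂ i ∈ j n, N i), fun z => ?_⟩
  obtain ⟨a, h1, h2⟩ := hN z trivial
  have key : ∀ {ι : Type} (p : ι → Prop) (O : ι → Set T), (∃ i, p i) →
      (∀ i j, p i → p j → ∃ k, p k ∧ O k ⊆ O i ∩ O j) →
      (∀ i, p i → ∀ F : Finset ℕ, ↑F ⊆ a → (O i ∩ ⋂ i ∈ F, N i).Nonempty) →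
      ∃ y, (∀ F : Finset ℕ, ↑F ⊆ a → y ∈ closure (⋂ i ∈ F, N i)) ∧ ∀ i, p i → y ∈ closure (O i) := by
    intro ι p O ⟨i0, h0⟩ h3 h4
    obtain ⟨𝒰, h𝒰⟩ := exists_ultra (fun q : ι × Finset ℕ => p q.1 ∧ ↑q.2 ⊆ a)
      (fun q => O q.1 ∩ ⋂ i ∈ q.2, N i) ⟨(i0, ∅), h0, by simp⟩ (fun q q' hq hq' => by
        obtain ⟨k, hk, hk'⟩ := h3 _ _ hq.1 hq'.1
        refine ⟨(k, q.2 ∪ q'.2), ⟨hk, by simp [hq.2, hq'.2]⟩, fun x hx => ?_⟩
        rw [Finset.set_biInter_inter] at hx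
        exact ⟨⟨(hk' hx.1).1, hx.2.1⟩, (hk' hx.1).2, hx.2.2⟩) fun q hq => h4 _ hq.1 _ hq.2
    obtain ⟨y, -, hy⟩ := h2 𝒰 univ_mem fun i hi =>
      mem_of_superset (h𝒰 (i0, {i}) ⟨h0, by simpa⟩) fun x hx => by simpa using hx.2
    have h5 : ∀ S ∈ 𝒰, y ∈ closure S := fun S hS =>
      mem_closure_iff_ultrafilter.2 ⟨𝒰, hS, hy⟩
    exact ⟨y, fun F hF => h5 _ (mem_of_superset (h𝒰 (i0, F) ⟨h0, hF⟩) inter_subset_right),
      fun i hi => h5 _ (mem_of_superset (h𝒰 (i, ∅) ⟨hi, by simp⟩) inter_subset_left)⟩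
  have hK : IsCompact {y | ∀ F : Finset ℕ, ↑F ⊆ a → y ∈ closure (⋂ i ∈ F, N i)} := by
    refine isCompact_iff_ultrafilter_le_nhds'.2 fun 𝒱 h𝒱 => ?_
    obtain ⟨y, hy, hy'⟩ := key (fun O : Set T => IsOpen O ∧ O ∈ 𝒱) id ⟨univ, isOpen_univ, univ_mem⟩
      (fun O O' h h' => ⟨O ∩ O', ⟨h.1.inter h'.1, inter_mem h.2 h'.2⟩, Subset.rfl⟩)
      fun O hO F hF => by
        obtain ⟨x, hx, hx'⟩ := Ultrafilter.nonempty_of_mem (inter_mem hO.2 h𝒱)
        exact mem_closure_iff.1 (hx' F hF) O hO.1 hx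
    refine ⟨y, hy, (closed_nhds_basis y).ge_iff.2 fun C hC => ?_⟩
    by_contra hn
    obtain ⟨x, hx, hx'⟩ := mem_closure_iff_nhds.1
      (hy' Cᶜ ⟨hC.2.isOpen_compl, Ultrafilter.compl_mem_iff_notMem.2 hn⟩) C hC.1
    exact hx' hx
  refine ⟨_, hK, fun F hF => subset_closure (mem_iInter₂.2 fun i hi => h1 i (hF hi)),
    fun U hU hKU => ?_⟩
  obtain ⟨V, hV, h3, h4⟩ := hK.exists_isOpen_closure_subset (hU.mem_nhdsSet.2 hKU)
  obtain ⟨F, hF, hF'⟩ : ∃ F : Finset ℕ, ↑F ⊆ a ∧ ⋂ i ∈ F, N i ⊆ V := by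
    by_contra hn
    push Not at hn
    obtain ⟨y, hy, hy'⟩ := key (fun _ : Unit => True) (fun _ => Vᶜ) ⟨(), trivial⟩
      (fun _ _ _ _ => ⟨(), trivial, by simp⟩) fun _ _ F hF => by
        obtain ⟨x, hx, hx'⟩ := not_subset.1 (hn F hF)
        exact ⟨x, hx', hx⟩
    exact hV.isClosed_compl.closure_subset (hy' () trivial) (h3 hy)
  obtain ⟨n, rfl⟩ := hj F
  exact ⟨n, fun y hy => hy _ hF, (closure_mono hF').trans h4⟩

/-- the function space -/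
abbrev Cp (X : Type) [TopologicalSpace X] : Type := {g : X → ℝ // Continuous g}

variable {X : Type} [TopologicalSpace X]

theorem le_nhds_cp {𝒱 : Ultrafilter (Cp X)} {y : Cp X}
    (h : ∀ x, Tendsto (fun z : Cp X => z.1 x) 𝒱 (𝓝 (y.1 x))) : ↑𝒱 ≤ 𝓝 y :=
  tendsto_subtype_rng.2 (tendsto_pi_nhds.2 h)

/-- generated sets -/
def Al (W : Set (X → ℝ)) : ℕ → Set (X → ℝ)
  | 0 => W
  | n + 1 => Al W n ∪ ((fun p => p.1 + p.2) '' (Al W n ×ˢ Al W n) ∪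
      (fun p => p.1 * p.2) '' (Al W n ×ˢ Al W n))

theorem ls_of_sep [CompactSpace X] {W : Set (X → ℝ)} (hW : LS W) (hc : ∀ v ∈ W, Continuous v)
    (h0 : ∀ c : ℝ, (fun _ => c) ∈ W) (hs : ∀ x y, (∀ v ∈ W, v x = v y) → x = y) :
    LS (univ : Set (Cp X)) := by
  have h1 : ∀ n, LS (Al W n) := by
    intro n
    induction n with
    | zero => exact hW
    | succ n ih => exact ih.union ((ih.prod.image (by fun_prop)).union (ih.prod.image (by fun_prop)))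
  have h2 : ∀ n, ∀ v ∈ Al W n, Continuous v := by
    intro n
    induction n with
    | zero => exact hc
    | succ n ih =>
      rintro v (hv | ⟨p, hp, rfl⟩ | ⟨p, hp, rfl⟩)
      exacts [ih v hv, (ih _ hp.1).add (ih _ hp.2), (ih _ hp.1).mul (ih _ hp.2)]
  have h3 : Monotone (Al W) := monotone_nat_of_le_succ fun n => subset_union_left
  have h4 : ∀ f g : X → ℝ, f ∈ ⋃ n, Al W n → g ∈ ⋃ n, Al W n → ∃ n, (f, g) ∈ Al W n ×ˢ Al W n := by
    intro f g hf hg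
    obtain ⟨n, hn⟩ := mem_iUnion.1 hf
    obtain ⟨m, hm⟩ := mem_iUnion.1 hg
    exact ⟨max n m, h3 (le_max_left _ _) hn, h3 (le_max_right _ _) hm⟩
  let A : Subalgebra ℝ C(X, ℝ) :=
    { carrier := {f | ⇑f ∈ ⋃ n, Al W n}
      mul_mem' := fun hf hg => (h4 _ _ hf hg).elim fun n hn =>
        mem_iUnion.2 ⟨n + 1, Or.inr (Or.inr ⟨_, hn, rfl⟩)⟩
      add_mem' := fun hf hg => (h4 _ _ hf hg).elim fun n hn =>
        mem_iUnion.2 ⟨n + 1, Or.inr (Or.inl ⟨_, hn, rfl⟩)⟩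
      algebraMap_mem' := fun c => mem_iUnion.2 ⟨0, by
        have : ⇑(algebraMap ℝ C(X, ℝ) c) = fun _ => c := funext fun _ => by simp
        rw [this]
        exact h0 c⟩ }
  have hA : A.SeparatesPoints := fun x y hxy => by
    by_contra hn
    push Not at hn
    exact hxy (hs x y fun v hv => hn v ⟨⟨v, hc v hv⟩, mem_iUnion.2 ⟨0, hv⟩, rfl⟩)
  refine master (T' := fun _ => X → ℝ) (fun _ => ⋃ n, Al W n) (fun _ => LS.iUnion h1)
    (fun n z s => ∀ x, dist (z.1 x) (s x) ≤ 1 / ((n : ℝ) + 1)) (fun z _ n => ?_) fun 𝒱 _ h => ?_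
  · obtain ⟨f, hf⟩ := ContinuousMap.exists_mem_subalgebra_near_continuous_of_separatesPoints A hA
      z.1 z.2 _ (Nat.one_div_pos_of_nat (n := n))
    exact ⟨_, f.2, fun x => by rw [dist_comm, dist_eq_norm]; exact (hf x).le⟩
  choose t ht ht' using h
  have h5 : ∀ n x, ∀ᶠ z : Cp X in 𝒱, z.1 x ∈ Metric.closedBall (t n x) (2 * (1 / ((n : ℝ) + 1))) := by
    intro n x
    refine mem_of_superset (ht' n _ ((continuous_apply x).continuousAt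
      (Metric.ball_mem_nhds _ (Nat.one_div_pos_of_nat (n := n))))) ?_
    rintro z ⟨s, hs, hz⟩
    have h6 : dist (s x) (t n x) < _ := hs.1
    have := dist_triangle (z.1 x) (s x) (t n x)
    rw [mem_ofPred_eq, Metric.mem_closedBall]
    linarith [hz x]
  choose y hy hy' using fun x => (isCompact_closedBall _ _).ultrafilter_le_nhds'
    (𝒱.map fun z : Cp X => z.1 x) (h5 0 x)
  have h6 : ∀ n x, dist (y x) (t n x) ≤ 2 * (1 / ((n : ℝ) + 1)) := fun n x =>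
    Metric.isClosed_closedBall.mem_of_tendsto (hy' x) (h5 n x)
  have h7 : TendstoUniformly t y atTop := Metric.tendstoUniformly_iff.2 fun ε hε => by
    have := (tendsto_one_div_add_atTop_nhds_zero_nat (𝕜 := ℝ)).eventually (gt_mem_nhds (half_pos hε))
    filter_upwards [this] with n hn x
    linarith [h6 n x]
  refine ⟨⟨y, h7.continuous (Eventually.of_forall fun n => ?_).frequently⟩, trivial,
    le_nhds_cp hy'⟩
  obtain ⟨m, hm⟩ := mem_iUnion.1 (ht n)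
  exact h2 m _ hm

/-- Gul'ko compactness -/
def Gu (Y : Type) [TopologicalSpace Y] : Prop := LS (univ : Set (Cp Y))

theorem gu_of_seq [CompactSpace X] {Y : ℕ → Type} [∀ n, TopologicalSpace (Y n)]
    [∀ n, CompactSpace (Y n)] [∀ n, T2Space (Y n)] (f : ∀ n, X → Y n)
    (hf : ∀ n, Continuous (f n)) (hi : ∀ x y, (∀ n, f n x = f n y) → x = y)
    (hY : ∀ n, Gu (Y n)) : Gu X := by
  refine ls_of_sep (LS.iUnion fun n => (hY n).image (f := fun g : Cp (Y n) => g.1 ∘ f n)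
    (continuous_pi fun x => (continuous_apply _).comp continuous_subtype_val)) ?_
    (fun c => mem_iUnion.2 ⟨0, ⟨fun _ => c, continuous_const⟩, trivial, rfl⟩) fun x y h =>
      hi x y fun n => ?_
  · intro v hv
    obtain ⟨n, g, -, rfl⟩ := mem_iUnion.1 hv
    exact g.2.comp (hf n)
  · by_contra hne
    obtain ⟨v, h0, h1, -⟩ := exists_continuous_zero_one_of_isClosed (isClosed_singleton (x := f n x))
      (isClosed_singleton (x := f n y)) (disjoint_singleton.2 hne)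
    have := h _ (mem_iUnion.2 ⟨n, ⟨v, v.continuous⟩, trivial, rfl⟩)
    simp [h0 (mem_singleton _), h1 (mem_singleton _)] at this

theorem gu_image [CompactSpace X] {Z : Type} [TopologicalSpace Z] [T2Space Z] {g : X → Z}
    (h : Gu X) (hg : Continuous g) (hs : g.Surjective) : Gu Z := by
  refine master (T' := fun _ => Cp X) (fun _ => univ) (fun _ => h) (fun _ z s => s.1 = z.1 ∘ g)
    (fun z _ _ => ⟨⟨_, z.2.comp hg⟩, trivial, rfl⟩) fun 𝒱 _ h => ?_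
  obtain ⟨t, -, ht⟩ := h 0
  have h1 : ∀ x, Tendsto (fun z : Cp Z => z.1 (g x)) 𝒱 (𝓝 (t.1 x)) := fun x U hU => by
    refine Filter.mem_map.2 (mem_of_superset
      (ht _ (((continuous_apply x).comp continuous_subtype_val).continuousAt hU)) ?_)
    rintro z ⟨s, hs, hz⟩
    have : s.1 x ∈ U := hs.1
    rwa [hz] at this
  choose σ hσ using id hs
  have h2 : ∀ x, Tendsto (fun z : Cp Z => z.1 x) 𝒱 (𝓝 (t.1 (σ x))) := fun x => by
    simpa only [hσ] using h1 (σ x)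
  refine ⟨⟨t.1 ∘ σ, (hg.isClosedMap.isQuotientMap hg hs).continuous_iff.2 (t.2.congr fun x =>
    tendsto_nhds_unique (h1 x) (h2 (g x)))⟩, trivial, le_nhds_cp h2⟩

theorem Gu.sep [CompactSpace X] [T2Space X] (h : Gu X) : ∃ φ : Finset X → Set (X → ℝ), Sep φ := by
  classical
  obtain ⟨N, hN⟩ := h
  choose C hC hCc hCd using fun (s : Finset X) (F : Finset ℕ) =>
    exists_countable_dense_for (fun (b : s) (g : Cp X) => g.1 b) (⋂ i ∈ F, N i)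
  refine ⟨fun s => ⋃ F, Subtype.val '' C s F, fun s => countable_iUnion fun F => (hCc s F).image _,
    fun s v hv => ?_, fun A x hx y hy h => ?_⟩
  · obtain ⟨F, g, -, rfl⟩ := mem_iUnion.1 hv
    exact g.2
  by_contra hne
  obtain ⟨v, h0, h1, -⟩ := exists_continuous_zero_one_of_isClosed (isClosed_singleton (x := x))
    (isClosed_singleton (x := y)) (disjoint_singleton.2 hne)
  obtain ⟨a, h2, h3⟩ := hN ⟨v, v.continuous⟩ trivial
  obtain ⟨𝒰, h𝒰⟩ := exists_ultra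
    (fun q : Finset ℕ × Finset X × ℝ => ↑q.1 ⊆ a ∧ ↑q.2.1 ⊆ A ∧ 0 < q.2.2)
    (fun q => {g : Cp X | g ∈ ⋂ i ∈ q.1, N i ∧ g.1 x = g.1 y ∧ ∀ b ∈ q.2.1, dist (g.1 b) (v b) < q.2.2})
    ⟨(∅, ∅, 1), by simp⟩ (fun q q' hq hq' => ⟨(q.1 ∪ q'.1, q.2.1 ∪ q'.2.1, min q.2.2 q'.2.2),
      ⟨by simp [hq.1, hq'.1], by simp [hq.2.1, hq'.2.1], lt_min hq.2.2 hq'.2.2⟩, fun g hg => by
        obtain ⟨a1, a2, a3⟩ := hg
        rw [Finset.set_biInter_inter] at a1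
        exact ⟨⟨a1.1, a2, fun b hb => (a3 b (Finset.mem_union_left _ hb)).trans_le (min_le_left _ _)⟩,
          a1.2, a2, fun b hb => (a3 b (Finset.mem_union_right _ hb)).trans_le (min_le_right _ _)⟩⟩)
    fun q hq => by
      obtain ⟨_, ⟨g, hg, rfl⟩, h4⟩ := Metric.mem_closure_iff.1 (hCd q.2.1 q.1 ⟨v, v.continuous⟩
        (mem_iInter₂.2 fun i hi => h2 i (hq.1 hi))) _ hq.2.2
      refine ⟨g, hC _ _ hg, h _ ⟨q.2.1, hq.2.1, mem_iUnion.2 ⟨q.1, g, hg, rfl⟩⟩, fun b hb => ?_⟩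
      rw [dist_comm]
      exact (dist_le_pi_dist _ _ (⟨b, hb⟩ : q.2.1)).trans_lt h4
  obtain ⟨t, -, ht⟩ := h3 𝒰 univ_mem fun i hi =>
    mem_of_superset (h𝒰 ({i}, ∅, 1) (by simpa)) fun g hg => by simpa using hg.1
  have hev : ∀ b, Continuous fun g : Cp X => g.1 b := fun b =>
    (continuous_apply b).comp continuous_subtype_val
  have h4 : t.1 x = t.1 y := IsClosed.mem_of_tendsto (s := {g : Cp X | g.1 x = g.1 y})
    (isClosed_eq (hev x) (hev y)) (f := id) ht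
    (mem_of_superset (h𝒰 (∅, ∅, 1) (by simp)) fun g hg => hg.2.1)
  have h5 : EqOn t.1 v (closure A) := EqOn.closure (fun b hb => eq_of_forall_dist_le fun ε hε =>
    IsClosed.mem_of_tendsto (s := {g : Cp X | dist (g.1 b) (v b) ≤ ε})
      (isClosed_le ((hev b).dist continuous_const) continuous_const) (f := id) ht
      (mem_of_superset (h𝒰 (∅, {b}, ε) (by simpa using ⟨hb, hε⟩)) fun g hg =>
        (hg.2.2 b (Finset.mem_singleton_self b)).le)) t.2 v.continuous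
  rw [h5 hx, h5 hy, h0 (mem_singleton _), h1 (mem_singleton _)] at h4
  simp at h4

theorem Gu.cor [CompactSpace X] [T2Space X] (h : Gu X) : Cor X := by
  obtain ⟨φ, hφ⟩ := h.sep
  obtain ⟨G, h1, h2, h3⟩ := hφ.corson
  exact ⟨G, fun x v => v.1 x, continuous_pi fun v => h1 v v.2,
    fun x y h => h2 x y fun v hv => congrFun h ⟨v, hv⟩, fun x =>
      Countable.mono (fun v hv => And.intro v.2 hv)
        ((h3 x).preimage (Subtype.val_injective (p := fun v => v ∈ G)))⟩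

/-- A compact space splittable over Gul'ko compacta is Gul'ko. -/
theorem gulko [CompactSpace X] [T2Space X]
    (hs : ∀ A : Set X, ∃ (Y : Type) (_ : TopologicalSpace Y) (f : X → Y),
      (CompactSpace Y ∧ T2Space Y ∧ Gu Y) ∧ Continuous f ∧ f ⁻¹' (f '' A) = A) : Gu X := by
  obtain ⟨Y, t, f, h, hi⟩ := core (fun Y _ => CompactSpace Y ∧ T2Space Y ∧ Gu Y)
    (fun _ _ ⟨_, _, h⟩ => h.cor) hs
  have := fun n => (h n).1.1
  have := fun n => (h n).1.2.1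
  exact gu_of_seq f (fun n => (h n).2) hi fun n => (h n).1.2.2

theorem Gu.prod [CompactSpace X] [T2Space X] (h : Gu X) : Gu (X × X) :=
  gu_of_seq (Y := fun _ => X) (fun n p => if n = 0 then p.1 else p.2)
    (fun n => by split_ifs <;> fun_prop) (fun _ _ h => Prod.ext (h 0) (h 1)) fun _ => h

end Pool.Agent.H33.Spl5
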