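import Mathlib
import Pool.Agent.H33.Spl5
import Pool.Agent.H33.NoEmb

/-!
Countable spread and the Lindelof Sigma property of the second function space.
-/

open Set Filter Topology

namespace Pool.Agent.H33.CpCp

open Pool.Agent.H33.Groth Pool.Agent.H33.GrothEx Pool.Agent.H33.Spl5 Pool.Agent.H33.NoEmb

variable {X : Type} [TopologicalSpace X]

theorem cev (x : X) : Continuous fun g : Cp X => g.1 x :=
  (continuous_apply x).comp continuous_subtype_val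

theorem urys [T35Space X] {x : X} {K : Set X} (hK : IsClosed K) (hx : x ∉ K) :
    ∃ f : Cp X, f.1 x = 0 ∧ ∀ y ∈ K, f.1 y = 1 := by
  obtain ⟨f, h1, h2, h3⟩ := CompletelyRegularSpace.completely_regular x K hK hx
  exact ⟨⟨fun y => f y, continuous_subtype_val.comp h1⟩, by simp [h2],
    fun y hy => by simp [h3 hy]⟩

theorem ls_base [T35Space X] (h : LS (univ : Set (Cp (Cp X)))) : LS (univ : Set X) := by
  classical
  refine master (T' := fun _ => Cp (Cp X)) (fun _ => univ) (fun _ => h)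
    (fun _ z s => s = ⟨_, cev z⟩) (fun z _ _ => ⟨_, trivial, rfl⟩) fun 𝒱 _ h => ?_
  obtain ⟨t, -, ht⟩ := h 0
  have h1 : ∀ f : Cp X, Tendsto f.1 𝒱 (𝓝 (t.1 f)) := fun f U hU =>
    Filter.mem_map.2 (mem_of_superset (ht _ ((cev f).continuousAt hU)) (by
      rintro z ⟨_, hs, rfl⟩
      exact hs.1))
  have h2 : t.1 ⟨0, continuous_zero⟩ = 0 := tendsto_nhds_unique (h1 _) tendsto_const_nhds
  have h3 : t.1 ⁻¹' {1}ᶜ ∈ 𝓝 (⟨0, continuous_zero⟩ : Cp X) :=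
    t.2.continuousAt (isOpen_compl_singleton.mem_nhds (by simp [h2]))
  obtain ⟨W, hW, h3⟩ := (mem_nhds_subtype _ _ _).1 h3
  rw [nhds_pi] at hW
  obtain ⟨s, hs, V, hV, hW⟩ := mem_pi.1 hW
  by_contra hn
  push Not at hn
  have h4 : ∀ y, ∃ f : Cp X, f.1 y = 0 ∧ ∀ᶠ z in (𝒱 : Filter X), f.1 z = 1 := fun y => by
    obtain ⟨U, h4, h5, h6⟩ : ∃ U, IsOpen U ∧ y ∈ U ∧ U ∉ 𝒱 := by
      by_contra h3
      push Not at h3
      exact hn y trivial (le_nhds_iff.2 fun U hy hU => h3 U hU hy)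
    obtain ⟨f, h7, h8⟩ := urys h4.isClosed_compl (not_not.2 h5)
    exact ⟨f, h7, mem_of_superset (Ultrafilter.compl_mem_iff_notMem.2 h6) h8⟩
  choose f h4 h5 using h4
  let g : Cp X := ⟨fun z => ∏ y ∈ hs.toFinset, (f y).1 z,
    continuous_finsetProd _ fun y _ => (f y).2⟩
  refine h3 (a := g) (hW fun y hy => ?_) (tendsto_nhds_unique (h1 g)
    (tendsto_const_nhds.congr' ?_))
  · have : g.1 y = 0 := Finset.prod_eq_zero (hs.mem_toFinset.2 hy) (h4 y)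
    exact this ▸ mem_of_mem_nhds (hV y)
  · filter_upwards [(eventually_all_finset hs.toFinset).2 fun y _ => h5 y] with z hz
    exact (Finset.prod_eq_one hz).symm

/-- countable determination in the realcompactification of the function space -/
def RD (X : Type) [TopologicalSpace X] : Prop :=
  ∃ B : ℕ → Set (Cp X), ∀ (f : Cp X) (𝒰 : Ultrafilter (Cp X)), (∀ i, f ∈ B i → B i ∈ 𝒰) →
    ∃ g : X → ℝ, (∀ x, Tendsto (fun h : Cp X => h.1 x) 𝒰 (𝓝 (g x))) ∧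
      ∀ A : Set X, A.Countable → ∃ h : Cp X, ∀ x ∈ A, h.1 x = g x

theorem rd_of_nw (h : NW (Cp (Cp X))) : RD X := by
  obtain ⟨N, hN⟩ := h
  refine ⟨fun i => {f | ∀ Ψ ∈ N i.unpair.1, |Ψ.1 f| ≤ i.unpair.2}, fun f 𝒰 h => ?_⟩
  have h1 : ∀ Ψ : Cp (Cp X), ∃ c, Tendsto Ψ.1 𝒰 (𝓝 c) := fun Ψ => by
    obtain ⟨K, h1, h2, h3⟩ := hN Ψ
    obtain ⟨m, hm⟩ := (h1.image (cev f).abs).bddAbove
    obtain ⟨k, hk⟩ := exists_nat_gt m
    obtain ⟨n, h4, h5⟩ := h3 {Φ | |Φ.1 f| < k} (isOpen_lt (cev f).abs continuous_const)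
      fun Φ hΦ => (hm (mem_image_of_mem _ hΦ)).trans_lt hk
    have h6 := h (Nat.pair n k) (by
      simp only [Nat.unpair_pair]
      exact fun Φ hΦ => (h5 hΦ).le)
    simp only [Nat.unpair_pair] at h6
    obtain ⟨c, -, hc⟩ := (isCompact_Icc (a := -(k : ℝ)) (b := k)).ultrafilter_le_nhds' (𝒰.map Ψ.1)
      (Ultrafilter.mem_map.2 (mem_of_superset h6 fun g hg => abs_le.1 (hg Ψ (h4 h2))))
    exact ⟨c, hc⟩
  choose g hg using fun x => h1 ⟨_, cev x⟩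
  refine ⟨g, hg, fun A hA => ?_⟩
  have := hA.to_subtype
  let := TopologicalSpace.metrizableSpaceMetric (A → ℝ)
  by_contra hn
  push Not at hn
  have h2 : Continuous fun (h : Cp X) (a : A) => h.1 a := continuous_pi fun a => cev _
  have h3 : ∀ h : Cp X, dist (fun a : A => h.1 a) (fun a : A => g a) ≠ 0 := fun h h3 => by
    obtain ⟨x, hx, h4⟩ := hn h
    exact h4 (congrFun (dist_eq_zero.1 h3) ⟨x, hx⟩)
  obtain ⟨c, hc⟩ := h1 ⟨_, (h2.dist continuous_const).inv₀ h3⟩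
  have h4 := (tendsto_iff_dist_tendsto_zero.1 (tendsto_pi_nhds.2 fun a : A => hg a)).mul hc
  simpa using tendsto_nhds_unique (h4.congr fun h => mul_inv_cancel₀ (h3 h)) tendsto_const_nhds

theorem nw_of_sep [T35Space X] (h : RD X) {D : Set X} (hD : D.Countable) (hd : Dense D) :
    ∃ 𝒩 : Set (Set X), 𝒩.Countable ∧
      ∀ (x : X) (U : Set X), IsOpen U → x ∈ U → ∃ N ∈ 𝒩, x ∈ N ∧ N ⊆ U := by
  classical
  obtain ⟨B, hB⟩ := h
  have := hD.to_subtype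
  obtain ⟨b, hb, -, hb'⟩ := TopologicalSpace.exists_countable_basis (D → ℝ)
  have := hb.to_subtype
  let M : Finset ℕ × b → Set (Cp X) := fun q => (⋂ i ∈ q.1, B i) ∩ {h | (fun d : D => h.1 d) ∈ q.2.1}
  refine ⟨range fun q => {y | ∀ h ∈ M q, h.1 y < 1 / 2}, countable_range _, fun x U hU hx => ?_⟩
  obtain ⟨f, h1, h2⟩ := urys hU.isClosed_compl (not_not.2 hx)
  suffices ∃ q, f ∈ M q ∧ ∀ h ∈ M q, h.1 x < 1 / 2 by
    obtain ⟨q, h3, h4⟩ := this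
    refine ⟨_, mem_range_self q, h4, fun y hy => by_contra fun h5 => ?_⟩
    have := hy f h3
    rw [h2 y h5] at this
    norm_num at this
  by_contra hn
  push Not at hn
  obtain ⟨v0, hv0, hv0', -⟩ := hb'.exists_subset_of_mem_open (a := fun d : D => f.1 d)
    (mem_univ _) isOpen_univ
  obtain ⟨𝒰, h𝒰⟩ := exists_ultra (fun q => f ∈ M q) (fun q => M q ∩ {h | 1 / 2 ≤ h.1 x})
    ⟨(∅, ⟨v0, hv0⟩), by simpa [M] using hv0'⟩ (fun q q' hq hq' => by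
      obtain ⟨v, h3, h4, h5⟩ := hb'.exists_subset_of_mem_open (a := fun d : D => f.1 d)
        (mem_inter hq.2 hq'.2) ((hb'.isOpen q.2.2).inter (hb'.isOpen q'.2.2))
      refine ⟨(q.1 ∪ q'.1, ⟨v, h3⟩), ⟨?_, h4⟩, fun h hh => ?_⟩
      · rw [Finset.set_biInter_inter]
        exact ⟨hq.1, hq'.1⟩
      · have h6 := hh.1.1
        rw [Finset.set_biInter_inter] at h6
        exact ⟨⟨⟨h6.1, (h5 hh.1.2).1⟩, hh.2⟩, ⟨h6.2, (h5 hh.1.2).2⟩, hh.2⟩) hn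
  obtain ⟨g, h3, h4⟩ := hB f 𝒰 fun i hi => mem_of_superset
    (h𝒰 ({i}, ⟨v0, hv0⟩) ⟨by simpa, hv0'⟩) fun h hh => by simpa using hh.1.1
  have h5 : (fun d : D => g d) = fun d : D => f.1 d := tendsto_nhds_unique
    (tendsto_pi_nhds.2 fun d : D => h3 d) (hb'.nhds_hasBasis.tendsto_right_iff.2 fun v hv =>
      mem_of_superset (h𝒰 (∅, ⟨v, hv.1⟩) ⟨by simp, hv.2⟩) fun h hh => hh.1.2)
  obtain ⟨h, h6⟩ := h4 _ (hD.insert x)
  have h7 : h.1 = f.1 := Continuous.ext_on hd h.2 f.2 fun d hd =>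
    (h6 d (Or.inr hd)).trans (congrFun h5 ⟨d, hd⟩)
  have h8 : 1 / 2 ≤ g x := ge_of_tendsto (h3 x)
    (mem_of_superset (h𝒰 (∅, ⟨v0, hv0⟩) ⟨by simp, hv0'⟩) fun h hh => hh.2)
  rw [← h6 x (Or.inl rfl), h7, h1] at h8
  norm_num at h8

theorem exists_hull (h : LS (univ : Set X)) : ∃ φ : Finset (Cp X) → Set X, (∀ s, (φ s).Countable) ∧
    ∀ (G : Set (Cp X)) (x : X), ∃ z ∈ closure (⋃ s : Finset (Cp X), ⋃ _ : ↑s ⊆ G, φ s),
      ∀ f ∈ G, f.1 z = f.1 x := by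
  classical
  obtain ⟨N, hN⟩ := h
  choose C hC hCc hCd using fun (s : Finset (Cp X)) (F : Finset ℕ) =>
    exists_countable_dense_for (fun (b : s) (y : X) => b.1.1 y) (⋂ i ∈ F, N i)
  refine ⟨fun s => ⋃ F, C s F, fun s => countable_iUnion (hCc s), fun G x => ?_⟩
  obtain ⟨a, h2, h3⟩ := hN x trivial
  obtain ⟨𝒰, h𝒰⟩ := exists_ultra
    (fun q : Finset ℕ × Finset (Cp X) × ℝ => ↑q.1 ⊆ a ∧ ↑q.2.1 ⊆ G ∧ 0 < q.2.2)
    (fun q => {y | y ∈ ⋂ i ∈ q.1, N i ∧ (y ∈ ⋃ s : Finset (Cp X), ⋃ _ : ↑s ⊆ G, ⋃ F, C s F) ∧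
      ∀ b ∈ q.2.1, dist (b.1 y) (b.1 x) < q.2.2})
    ⟨(∅, ∅, 1), by simp⟩ (fun q q' hq hq' => ⟨(q.1 ∪ q'.1, q.2.1 ∪ q'.2.1, min q.2.2 q'.2.2),
      ⟨by simp [hq.1, hq'.1], by simp [hq.2.1, hq'.2.1], lt_min hq.2.2 hq'.2.2⟩, fun g hg => by
        obtain ⟨a1, a2, a3⟩ := hg
        rw [Finset.set_biInter_inter] at a1
        exact ⟨⟨a1.1, a2, fun b hb => (a3 b (Finset.mem_union_left _ hb)).trans_le (min_le_left _ _)⟩,
          a1.2, a2, fun b hb => (a3 b (Finset.mem_union_right _ hb)).trans_le (min_le_right _ _)⟩⟩)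
    fun q hq => by
      obtain ⟨_, ⟨g, hg, rfl⟩, h4⟩ := Metric.mem_closure_iff.1 (hCd q.2.1 q.1 x
        (mem_iInter₂.2 fun i hi => h2 i (hq.1 hi))) _ hq.2.2
      refine ⟨g, hC _ _ hg, mem_iUnion₂.2 ⟨q.2.1, hq.2.1, mem_iUnion.2 ⟨q.1, hg⟩⟩, fun b hb => ?_⟩
      rw [dist_comm]
      exact (dist_le_pi_dist _ _ (⟨b, hb⟩ : q.2.1)).trans_lt h4
  obtain ⟨t, -, ht⟩ := h3 𝒰 univ_mem fun i hi =>
    mem_of_superset (h𝒰 ({i}, ∅, 1) (by simpa)) fun g hg => by simpa using hg.1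
  refine ⟨t, mem_closure_iff_ultrafilter.2 ⟨𝒰, mem_of_superset (h𝒰 (∅, ∅, 1) (by simp))
    fun g hg => hg.2.1, ht⟩, fun b hb => eq_of_forall_dist_le fun ε hε => ?_⟩
  exact IsClosed.mem_of_tendsto (s := {y | dist (b.1 y) (b.1 x) ≤ ε})
    (isClosed_le (b.2.dist continuous_const) continuous_const) (f := id) ht
    (mem_of_superset (h𝒰 (∅, {b}, ε) (by simpa using ⟨hb, hε⟩)) fun g hg =>
      (hg.2.2 b (Finset.mem_singleton_self b)).le)

theorem T1_bdd {s : Set T1} (h : s.Countable) : ∃ b, s ⊆ Iic b := by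
  by_contra hn
  push Not at hn
  refine not_countable_univ ((h.biUnion fun a _ => T1_iio a).mono fun b _ => ?_)
  obtain ⟨a, h1, h2⟩ := not_subset.1 (hn b)
  exact mem_biUnion h1 (mem_Iio.2 (not_le.1 h2))

theorem sep_of_spread [T35Space X] (h : LS (univ : Set X)) (h' : RD X)
    (hs : ∀ D : Set X, DiscreteTopology D → D.Countable) : ∃ D : Set X, D.Countable ∧ Dense D := by
  classical
  by_contra hn
  push Not at hn
  obtain ⟨φ, hφ, hz⟩ := exists_hull h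
  obtain ⟨B, hB⟩ := h'
  have h0 : ∀ D : Set X, ∃ p : X × Cp X, D.Countable → p.2.1 p.1 = 0 ∧ ∀ y ∈ D, p.2.1 y = 1 := by
    intro D
    by_cases hD : D.Countable
    · obtain ⟨x, hx⟩ := not_forall.1 (hn D hD)
      obtain ⟨f, h1, h2⟩ := urys isClosed_closure hx
      exact ⟨(x, f), fun _ => ⟨h1, fun y hy => h2 y (subset_closure hy)⟩⟩
    · obtain ⟨x, -⟩ := not_forall.1 (hn ∅ countable_empty)
      exact ⟨(x, ⟨0, continuous_zero⟩), fun h => absurd h hD⟩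
  choose Φ hΦ using h0
  let E : Set (X × Cp X) → Set X := fun S =>
    Prod.fst '' S ∪ ⋃ s : Finset (Cp X), ⋃ _ : ↑s ⊆ Prod.snd '' S, φ s
  obtain ⟨p, hp⟩ := exists_rec (T := T1) (Φ ∅) (fun δ p => Φ (E (p '' Iio δ)))
    fun δ p p' h => by rw [image_congr (s := Iio δ) h]
  have hE : ∀ δ, (E (p '' Iio δ)).Countable := fun δ =>
    (((T1_iio δ).image _).image _).union
      (Countable.biUnion (s := {s : Finset (Cp X) | (s : Set (Cp X)) ⊆ Prod.snd '' (p '' Iio δ)})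
        (Countable.mono (fun s hs => mem_preimage.2 (mem_ofPred_eq ▸ ⟨s.finite_toSet, hs⟩))
        ((countable_ofPred_finite_subset (((T1_iio δ).image p).image Prod.snd)).preimage
        Finset.coe_injective)) fun s _ => hφ s)
  have h1 : ∀ δ, (p δ).2.1 (p δ).1 = 0 ∧ ∀ y ∈ E (p '' Iio δ), (p δ).2.1 y = 1 := fun δ => by
    rw [hp δ]
    exact hΦ _ (hE δ)
  have h2 : ∀ (f : Cp X) (x : X), ∃ F : Finset ℕ, f ∈ ⋂ i ∈ F, B i ∧
      {β | (p β).2 ∈ ⋂ i ∈ F, B i ∧ (p β).2.1 x ≤ 1 / 2}.Finite := by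
    intro f x
    by_contra h2
    push Not at h2
    have h3 : ∀ F : Finset ℕ, ∃ J : Set T1, J.Countable ∧ (f ∈ ⋂ i ∈ F, B i → J.Infinite ∧
        J ⊆ {β | (p β).2 ∈ ⋂ i ∈ F, B i ∧ (p β).2.1 x ≤ 1 / 2}) := fun F => by
      by_cases hF : f ∈ ⋂ i ∈ F, B i
      · obtain ⟨J, h3, h5, h4⟩ := Set.Infinite.exists_subset_countable_infinite (h2 F hF)
        exact ⟨J, h5, fun _ => ⟨h4, h3⟩⟩
      · exact ⟨∅, countable_empty, fun h => absurd h hF⟩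
    choose J h3 h4 using h3
    obtain ⟨b, hb⟩ := T1_bdd (countable_iUnion h3)
    obtain ⟨𝒰, h𝒰⟩ := exists_ultra (fun q : Finset ℕ × Finset T1 => f ∈ ⋂ i ∈ q.1, B i)
      (fun q => {β | ((p β).2 ∈ ⋂ i ∈ q.1, B i ∧ (p β).2.1 x ≤ 1 / 2) ∧ β ≤ b ∧ β ∉ q.2})
      ⟨(∅, ∅), by simp⟩ (fun q q' hq hq' => ⟨(q.1 ∪ q'.1, q.2 ∪ q'.2), by
        rw [Finset.set_biInter_inter]
        exact ⟨hq, hq'⟩, fun β hβ => by
        obtain ⟨⟨a1, a2⟩, a3, a4⟩ := hβ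
        rw [Finset.set_biInter_inter] at a1
        rw [Finset.mem_union, not_or] at a4
        exact ⟨⟨⟨a1.1, a2⟩, a3, a4.1⟩, ⟨a1.2, a2⟩, a3, a4.2⟩⟩) fun q hq => by
        obtain ⟨β, h5, h6⟩ := (h4 q.1 hq).1.exists_notMem_finset q.2
        exact ⟨β, (h4 q.1 hq).2 h5, hb (mem_iUnion.2 ⟨_, h5⟩), h6⟩
    obtain ⟨δ, hδ, hmin⟩ := (wellFounded_lt (α := T1)).has_min {δ | Iic δ ∈ 𝒰}
      ⟨b, mem_of_superset (h𝒰 (∅, ∅) (by simp)) fun β hβ => hβ.2.1⟩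
    have h5 : ∀ᶠ β in (𝒰 : Filter T1), β < δ := by
      filter_upwards [hδ, h𝒰 (∅, {δ}) (by simp)] with β a1 a2
      exact lt_of_le_of_ne a1 (by simpa using a2.2.2)
    have h6 : ∀ γ < δ, ∀ᶠ β in (𝒰 : Filter T1), γ < β := fun γ hγ =>
      mem_of_superset (Ultrafilter.compl_mem_iff_notMem.2 fun h => hmin γ h hγ)
        fun β hβ => (not_le.1 fun h => hβ h : γ < β)
    obtain ⟨g, h7, h8⟩ := hB f (𝒰.map fun β => (p β).2) fun i hi => Ultrafilter.mem_map.2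
      (mem_of_superset (h𝒰 ({i}, ∅) (by simpa)) fun β hβ => by simpa using hβ.1.1)
    have h7' : ∀ y, Tendsto (fun β => (p β).2.1 y) 𝒰 (𝓝 (g y)) := h7
    obtain ⟨z, z1, z2⟩ := hz (Prod.snd '' (p '' Iio δ)) x
    obtain ⟨h, h9⟩ := h8 _ ((hE δ).insert z)
    have h10 : h.1 z = 1 := closure_minimal (t := {y | h.1 y = 1}) (fun y hy => by
      refine (h9 y (Or.inr (Or.inr hy))).trans (tendsto_nhds_unique (h7' y)
        (tendsto_const_nhds.congr' ?_))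
      obtain ⟨s, s1, s2⟩ := mem_iUnion₂.1 hy
      have : ∀ᶠ β in (𝒰 : Filter T1), ∀ k ∈ s, k ∈ Prod.snd '' (p '' Iio β) :=
        (eventually_all_finset s).2 fun k hk => by
          obtain ⟨_, ⟨γ, hγ, rfl⟩, rfl⟩ := s1 hk
          exact (h6 γ hγ).mono fun β hβ => mem_image_of_mem _ (mem_image_of_mem _ hβ)
      exact this.mono fun β hβ => ((h1 β).2 y (Or.inr (mem_iUnion₂.2 ⟨s, hβ, s2⟩))).symm)
      (isClosed_eq h.2 continuous_const) z1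
    have h11 : g z ≤ 1 / 2 := le_of_tendsto (h7' z) (by
      filter_upwards [h5, h𝒰 (∅, ∅) (by simp)] with β a1 a2
      rw [z2 _ (mem_image_of_mem _ (mem_image_of_mem _ a1))]
      exact a2.1.2)
    rw [← h9 z (Or.inl rfl), h10] at h11
    norm_num at h11
  choose F h2 h3 using fun α => h2 (p α).2 (p α).1
  obtain ⟨c, hc⟩ := exists_rec (T := T1) (0 : ℕ)
    (fun δ c => ((h3 δ).toFinset.filter (· < δ)).sup fun β => c β + 1)
    fun δ c c' h => Finset.sup_congr rfl fun β hβ => by rw [h β (Finset.mem_filter.1 hβ).2]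
  have h4 : ∀ α β, (F α, c α) = (F β, c β) → α ≠ β → 1 / 2 < (p β).2.1 (p α).1 := by
    intro α β h4 h5
    obtain ⟨h4, h6⟩ := Prod.mk.inj h4
    rcases h5.lt_or_gt with h5 | h5
    · rw [(h1 β).2 _ (Or.inl (mem_image_of_mem _ (mem_image_of_mem _ h5)))]
      norm_num
    · by_contra h7
      have : c β + 1 ≤ c α := by
        rw [hc α]
        exact Finset.le_sup (f := fun β => c β + 1) (Finset.mem_filter.2
          ⟨(h3 α).mem_toFinset.2 ⟨h4 ▸ h2 β, not_lt.1 h7⟩, h5⟩)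
      omega
  refine not_countable_univ ((countable_iUnion fun q : Finset ℕ × ℕ =>
    (?_ : {α | (F α, c α) = q}.Countable)).mono fun α _ => mem_iUnion.2 ⟨(F α, c α), rfl⟩)
  refine countable_of_injective_of_countable_image (f := fun α => (p α).1)
    (fun α a1 β a2 a3 => by_contra fun a4 => ?_) (hs _ (discreteTopology_subtype_iff'.2 ?_))
  · have := h4 α β (a1.trans a2.symm) a4
    rw [show (p α).1 = (p β).1 from a3, (h1 β).1] at this
    norm_num at this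
  · rintro _ ⟨β, a1, rfl⟩
    refine ⟨{y | (p β).2.1 y < 1 / 2}, isOpen_lt (p β).2.2 continuous_const, ?_⟩
    refine Subset.antisymm ?_ (singleton_subset_iff.2 ⟨by simp [(h1 β).1], β, a1, rfl⟩)
    rintro _ ⟨a2, α, a3, rfl⟩
    by_contra a4
    exact (h4 α β (a3.trans a1.symm) fun e => a4 (e ▸ rfl)).not_gt a2

theorem main [T35Space X] (hs : ∀ D : Set X, DiscreteTopology D → D.Countable)
    (h : NW (Cp (Cp X))) : ∃ 𝒩 : Set (Set X), 𝒩.Countable ∧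
      ∀ (x : X) (U : Set X), IsOpen U → x ∈ U → ∃ N ∈ 𝒩, x ∈ N ∧ N ⊆ U := by
  obtain ⟨D, h1, h2⟩ := sep_of_spread (ls_base h.ls) (rd_of_nw h) hs
  exact nw_of_sep (rd_of_nw h) h1 h2

end Pool.Agent.H33.CpCp
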