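import Mathlib
import Pool.Agent.H33.BG1
import Pool.Agent.H33.CpCp
import Pool.Agent.H33.GrothEx

/-!
Under CH there is an uncountable subgroup of `ℕ → ℤ` on which every sequence of countable Borel
omega covers has a selection containing each point from some index on.
-/

set_option autoImplicit false

open Set Filter Topology Function Cardinal

namespace Pool.Agent.H33.BG2

open Pool.Agent.H33.BG1 Pool.Agent.H33.NoEmb Pool.Agent.H33.CpCp Pool.Agent.H33.GrothEx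

theorem chain {P : Type} [Nonempty P] (le : P → P → Prop) (h1 : ∀ p, le p p)
    (h3 : ∀ s : ℕ → P, (∀ i j, i ≤ j → le (s j) (s i)) → ∃ q, ∀ j, le q (s j))
    (h2 : ∀ p q r, le p q → le q r → le p r)
    (D : T1 → P → Prop) (hD : ∀ α p, ∃ q, le q p ∧ D α q) :
    ∃ f : T1 → P, (∀ α β, α ≤ β → le (f β) (f α)) ∧ ∀ α, D α (f α) := by
  obtain ⟨f, hf⟩ := exists_rec (T := T1) (Classical.arbitrary P)
    (fun δ f => Classical.epsilon fun q => (∀ p ∈ f '' Iio δ, le q p) ∧ D δ q)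
    fun δ f f' h => by rw [image_congr (s := Iio δ) h]
  have : ∀ δ, (∀ p ∈ f '' Iio δ, le (f δ) p) ∧ D δ (f δ) := fun δ => by
    induction δ using (wellFounded_lt (α := T1)).induction with
    | _ δ ih =>
      rw [hf δ]
      refine Classical.epsilon_spec (p := fun q => (∀ p ∈ f '' Iio δ, le q p) ∧ D δ q) ?_
      obtain ⟨q, hq⟩ : ∃ q, ∀ p ∈ f '' Iio δ, le q p := by
        rcases (Iio δ).eq_empty_or_nonempty with h | h
        · exact ⟨Classical.arbitrary P, by simp [h]⟩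
        obtain ⟨γ, hγ⟩ := (T1_iio δ).exists_eq_range h
        have a : ∀ j, partialSups γ j < δ := fun j => by
          induction j with
          | zero => simpa using hγ.ge (mem_range_self 0)
          | succ j b => rw [partialSups_add_one]; exact max_lt b (hγ.ge (mem_range_self _))
        have b : ∀ j β, β ≤ partialSups γ j → le (f (partialSups γ j)) (f β) := fun j β c => by
          rcases c.eq_or_lt with c | c
          · rw [c]; exact h1 _
          · exact (ih _ (a j)).1 _ ⟨β, c, rfl⟩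
        obtain ⟨q, hq⟩ := h3 (fun j => f (partialSups γ j)) fun i j c =>
          b j _ ((partialSups γ).monotone c)
        refine ⟨q, forall_mem_image.2 fun β c => ?_⟩
        obtain ⟨j, rfl⟩ := hγ.le c
        exact h2 _ _ _ (hq j) (b j _ (le_partialSups γ j))
      obtain ⟨r, r1, r2⟩ := hD δ q
      exact ⟨r, fun p hp => h2 _ _ _ r1 (hq p hp), r2⟩
  refine ⟨f, fun α β h => ?_, fun α => (this α).2⟩
  rcases h.eq_or_lt with rfl | h
  · exact h1 _
  · exact (this β).1 _ ⟨α, h, rfl⟩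

def Le (n : ℕ) (f' f : C → Z) : Prop := ∀ x, ∃ x', Ag n x' x ∧ f' x = f x'

theorem Le.trans {n k : ℕ} {f g h : C → Z} (a : Le k f g) (b : Le n g h) (c : n ≤ k) :
    Le n f h := fun x => by
  obtain ⟨y, y1, y2⟩ := a x
  obtain ⟨z, z1, z2⟩ := b y
  exact ⟨z, fun j hj => (z1 j hj).trans (y1 j (by omega)), y2.trans z2⟩

theorem ne_cont {f : C → Z} (h : NE f) : Continuous f := by
  refine continuous_pi fun k => continuous_iff_continuousAt.2 fun x => ?_
  refine tendsto_const_nhds.congr' ?_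
  have : {y | res (k + 1) y = res (k + 1) x} ∈ 𝓝 x :=
    ((isOpen_discrete {_}).preimage (cont_res _)).mem_nhds rfl
  filter_upwards [this] with y hy using (h _ _ _ (res_eq.1 hy) k (by omega)).symm

theorem lim {n : ℕ} (f : ℕ → C → Z) (h1 : ∀ j, NE (f j) ∧ Injective (f j))
    (h2 : ∀ j, Le (n + j) (f (j + 1)) (f j)) :
    ∃ g, (NE g ∧ Injective g) ∧ ∀ j, Le (n + j) g (f j) := by
  have a : ∀ j i, j ≤ i → Le (n + j) (f i) (f j) := fun j i h => by
    induction i, h using Nat.le_induction with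
    | base => exact fun x => ⟨x, fun _ _ => rfl, rfl⟩
    | succ i h b => exact (h2 i).trans b (by omega)
  have b : ∀ x, Tendsto (fun i => f i x) atTop (𝓝 fun k => f (k + 1) x k) := fun x => by
    refine tendsto_pi_nhds.2 fun k => tendsto_const_nhds.congr' ?_
    filter_upwards [eventually_ge_atTop (k + 1)] with i hi
    obtain ⟨y, y1, y2⟩ := a _ _ hi x
    rw [y2]
    exact ((h1 _).1 _ _ _ y1 k (by omega)).symm
  have c : ∀ j, Le (n + j) (fun x k => f (k + 1) x k) (f j) := fun j x => by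
    have hK : IsClosed (f j '' {y | res (n + j) y = res (n + j) x}) :=
      ((isClosed_eq (cont_res _) continuous_const).isCompact.image (ne_cont (h1 j).1)).isClosed
    obtain ⟨y, y1, y2⟩ := hK.mem_of_tendsto (b x) (by
      filter_upwards [eventually_ge_atTop j] with i hi
      obtain ⟨y, y1, y2⟩ := a _ _ hi x
      exact ⟨y, res_eq.2 y1, y2.symm⟩)
    exact ⟨y, res_eq.1 y1, y2.symm⟩
  refine ⟨_, ⟨fun k x y h j hj => ?_, fun x y h => funext fun k => ?_⟩, c⟩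
  · exact (h1 _).1 k x y h j hj
  · obtain ⟨x', x1, x2⟩ := c (k + 1) x
    obtain ⟨y', y1, y2⟩ := c (k + 1) y
    rw [← x1 k (by omega), ← y1 k (by omega), (h1 _).2 (x2.symm.trans (h.trans y2))]

structure Cond where
  X : Set Z
  P : Set (C → Z)
  hX : X.Countable
  hP : P.Countable
  ne : P.Nonempty
  good : ∀ f ∈ P, NE f ∧ Injective f

def Cond.H (p : Cond) : Submodule ℤ Z := Submodule.span ℤ (p.X ∪ ⋃ f ∈ p.P, range f)

def CLe (q p : Cond) : Prop := p.X ⊆ q.X ∧ q.H ≤ p.H ∧ ∀ f ∈ p.P, ∀ n, ∃ g ∈ q.P, Le n g f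

theorem X_H (p : Cond) : p.X ⊆ p.H := subset_union_left.trans Submodule.subset_span

theorem P_H (p : Cond) {f : C → Z} (hf : f ∈ p.P) (x : C) : f x ∈ p.H :=
  Submodule.subset_span (.inr (mem_biUnion hf ⟨x, rfl⟩))

theorem H_le {p : Cond} {K : Submodule ℤ Z} (h1 : p.X ⊆ K) (h2 : ∀ f ∈ p.P, ∀ x, f x ∈ K) :
    p.H ≤ K := Submodule.span_le.2 (union_subset h1
      (iUnion₂_subset fun f hf => range_subset_iff.2 (h2 f hf)))

theorem cle_refl (p : Cond) : CLe p p :=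
  ⟨Subset.rfl, le_rfl, fun f hf _ => ⟨f, hf, fun x => ⟨x, fun _ _ => rfl, rfl⟩⟩⟩

theorem cle_trans (p q r : Cond) (a : CLe p q) (b : CLe q r) : CLe p r :=
  ⟨b.1.trans a.1, a.2.1.trans b.2.1, fun f hf n => by
    obtain ⟨g, g1, g2⟩ := b.2.2 f hf n
    obtain ⟨h, h1, h2⟩ := a.2.2 g g1 n
    exact ⟨h, h1, h2.trans g2 le_rfl⟩⟩

theorem cle_closed (s : ℕ → Cond) (h : ∀ i j, i ≤ j → CLe (s j) (s i)) :
    ∃ q, ∀ j, CLe q (s j) := by
  have : ∀ (j n : ℕ) (f : (s j).P), ∃ g, (NE g ∧ Injective g) ∧ Le n g f ∧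
      ∀ i x, g x ∈ (s i).H := fun j n f => by
    choose nx n1 n2 using fun i (g : (s (j + i)).P) =>
      (h (j + i) (j + (i + 1)) (by omega)).2.2 g.1 g.2 (n + i)
    let F : ∀ i, (s (j + i)).P := fun i => Nat.rec f (fun i g => ⟨nx i g, n1 i g⟩) i
    obtain ⟨g, g1, g2⟩ := lim (n := n) (fun i => (F i).1) (fun i => (s _).good _ (F i).2)
      fun i => n2 i (F i)
    refine ⟨g, g1, g2 0, fun i x => ?_⟩
    obtain ⟨y, -, e⟩ := g2 i x
    exact e ▸ (h i (j + i) (by omega)).2.1 (P_H _ (F i).2 y)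
  choose g g1 g2 g3 using this
  have : ∀ j, Countable (s j).P := fun j => (s j).hP
  obtain ⟨f, hf⟩ := (s 0).ne
  refine ⟨⟨⋃ j, (s j).X, ⋃ j, ⋃ n, range (g j n), countable_iUnion fun j => (s j).hX,
    countable_iUnion fun j => countable_iUnion fun n => countable_range _,
    ⟨_, mem_iUnion₂.2 ⟨0, 0, ⟨f, hf⟩, rfl⟩⟩, fun f hf => ?_⟩, fun j =>
    ⟨subset_iUnion (fun j => (s j).X) j, H_le (iUnion_subset fun i => ?_) fun f hf x => ?_,
    fun f hf n => ⟨_, mem_iUnion₂.2 ⟨j, n, ⟨f, hf⟩, rfl⟩, g2 j n ⟨f, hf⟩⟩⟩⟩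
  · obtain ⟨j, n, f, rfl⟩ := mem_iUnion₂.1 hf
    exact g1 j n f
  · rcases le_total i j with a | a
    · exact (h i j a).1.trans (X_H _)
    · exact (X_H _).trans (h j i a).2.1
  · obtain ⟨i, n, f, rfl⟩ := mem_iUnion₂.1 hf
    exact g3 i n f j x

theorem add (p : Cond) (F : Set Z) (h1 : F.Finite) (h2 : F ⊆ p.H) :
    ∃ q, CLe q p ∧ F ⊆ q.X :=
  ⟨⟨p.X ∪ F, p.P, p.hX.union h1.countable, p.hP, p.ne, p.good⟩, ⟨subset_union_left,
    H_le (union_subset (X_H p) h2) fun _ => P_H p, (cle_refl p).2.2⟩, subset_union_right⟩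

theorem new (p : Cond) (a : ℕ → Z) : ∃ q, CLe q p ∧ ¬ q.X ⊆ range a := by
  obtain ⟨f, hf⟩ := p.ne
  obtain ⟨x, hx⟩ : ∃ x, f x ∉ range a := by
    by_contra! h
    have : Countable C := countable_univ_iff.1
      (((countable_range a).preimage_of_injOn (p.good f hf).2.injOn).mono fun x _ => h x)
    have := mk_le_aleph0 (α := C)
    rw [← power_def] at this
    exact absurd this (by simpa using aleph0_lt_continuum)
  obtain ⟨q, q1, q2⟩ := add p {f x} (finite_singleton _) (singleton_subset_iff.2 (P_H p hf x))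
  exact ⟨q, q1, fun h => hx (h (q2 rfl))⟩

def Good (W : ℕ → ℕ → Set Z) (p : Cond) : Prop :=
  (∃ m, ∃ F : Set Z, F.Finite ∧ F ⊆ p.X ∧ ∀ i, ¬ F ⊆ W m i) ∨
    ∃ sel : ℕ → ℕ, ∀ g ∈ p.H, ∀ᶠ m in atTop, g ∈ W m (sel m)

theorem good (p : Cond) (W : ℕ → ℕ → Set Z) (hW : ∀ m i, MeasurableSet (W m i)) :
    ∃ q, CLe q p ∧ Good W q := by
  rcases em (∃ m, ∃ F : Set Z, F.Finite ∧ F ⊆ p.H ∧ ∀ i, ¬ F ⊆ W m i) with ⟨m, F, a, b, c⟩ | h
  · obtain ⟨q, q1, q2⟩ := add p F a b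
    exact ⟨q, q1, .inl ⟨m, F, a, q2, c⟩⟩
  push Not at h
  obtain ⟨ψ, hψ⟩ := (p.hP.union (p.hX.image fun g _ => g)).exists_eq_range p.ne.inl
  have ψ1 : ∀ q, ψ q ∈ p.P ∨ ∃ g ∈ p.X, (fun _ => g) = ψ q := fun q => hψ.ge (mem_range_self q)
  obtain ⟨e, e1, sel, e2⟩ := fusion (fun q => ψ q.unpair.1) (fun q => by
    rcases ψ1 q.unpair.1 with a | ⟨g, -, a⟩
    · exact ne_cont (p.good _ a).1
    · exact a ▸ continuous_const) W hW p.H (fun q x => by
    rcases ψ1 q.unpair.1 with a | ⟨g, b, a⟩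
    · exact P_H p a x
    · exact a ▸ X_H p b) h
  obtain ⟨f₀, hf₀⟩ := p.ne
  have key : ∀ f ∈ p.P, ∀ n, ∃ q : ℕ, n ≤ q ∧ ψ q.unpair.1 = f := fun f hf n => by
    obtain ⟨k, hk⟩ := hψ.le (.inl hf)
    exact ⟨k.pair n, Nat.right_le_pair _ _, by simpa using hk⟩
  refine ⟨⟨p.X, (fun q : ℕ => ψ q.unpair.1 ∘ e q) '' {q | ψ q.unpair.1 ∈ p.P}, p.hX,
    (to_countable _).image _, ?_, forall_mem_image.2 fun q hq =>
      ⟨fun k x y a => (p.good _ hq).1 k _ _ ((e1 q).1 k x y a), (p.good _ hq).2.comp (e1 q).2.1⟩⟩,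
    ⟨Subset.rfl, H_le (X_H p) (forall_mem_image.2 fun q hq x => P_H p hq _), fun f hf n => ?_⟩,
    .inr ⟨sel, fun g hg => e2 g (H_le (fun g hg => ?_) ?_ hg)⟩⟩
  · obtain ⟨q, -, hq⟩ := key f₀ hf₀ 0
    exact ⟨_, q, show ψ q.unpair.1 ∈ p.P from hq ▸ hf₀, rfl⟩
  · obtain ⟨q, a, rfl⟩ := key f hf n
    exact ⟨_, ⟨q, hf, rfl⟩, fun x => ⟨e q x, fun j hj => (e1 q).2.2 x j (by omega), rfl⟩⟩
  · obtain ⟨k, hk⟩ := hψ.le (.inr ⟨g, hg, rfl⟩)
    exact Submodule.subset_span ⟨(k.pair 0, fun _ => false), by simp [hk]⟩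
  · exact forall_mem_image.2 fun q _ x => Submodule.subset_span ⟨(q, x), rfl⟩

abbrev Task : Type := (ℕ → ℕ → {U : Set Z // MeasurableSet U}) × (ℕ → Z)

theorem mk_fun {X : Type} (h : #X ≤ 𝔠) : #(ℕ → X) ≤ 𝔠 := by
  rw [← power_def, mk_nat, ← continuum_power_aleph0]
  exact power_le_power_right h

theorem mk_Z : #Z ≤ 𝔠 := mk_fun (mk_int.le.trans aleph0_le_continuum)

theorem mk_Task : #Task ≤ 𝔠 := by
  have h : #{s : Set Z // MeasurableSet s} ≤ 𝔠 := by
    have := MeasurableSpace.cardinal_measurableSet_le_continuum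
      (((MeasurableSpace.countable_countableGeneratingSet (α := Z)).le_aleph0).trans
        aleph0_le_continuum)
    rwa [MeasurableSpace.generateFrom_countableGeneratingSet] at this
  rw [mk_prod, lift_id, lift_id, ← continuum_mul_self]
  exact mul_le_mul' (mk_fun (mk_fun h)) (mk_fun mk_Z)

theorem cond_ne : Nonempty Cond := ⟨⟨∅, {fun x k => if x k then 1 else 0}, countable_empty,
  countable_singleton _, singleton_nonempty _, by
    rintro _ rfl
    refine ⟨fun k x y h j hj => by simp only [h j hj], fun x y h => funext fun k => ?_⟩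
    have := congrFun h k
    cases a : x k <;> cases b : y k <;> simp_all⟩⟩

theorem main (CH : (𝔠 : Cardinal.{0}) ≤ ℵ_ 1) : ∃ G : Submodule ℤ Z, ¬ (G : Set Z).Countable ∧
    ∀ W : ℕ → ℕ → Set Z, (∀ m i, MeasurableSet (W m i)) →
      (∀ m, ∀ F : Set Z, F.Finite → F ⊆ G → ∃ i, F ⊆ W m i) →
      ∃ sel : ℕ → ℕ, ∀ g ∈ G, ∀ᶠ m in atTop, g ∈ W m (sel m) := by
  obtain ⟨e, he⟩ : ∃ e : T1 → Task, Surjective e := by
    have : Nonempty Task := ⟨(fun _ _ => ⟨∅, .empty⟩, 0)⟩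
    obtain ⟨f⟩ : Nonempty (Task ↪ T1) := by
      rw [← Cardinal.le_def]
      exact (mk_Task.trans CH).trans_eq (by simp)
    exact ⟨_, invFun_surjective f.injective⟩
  have := cond_ne
  obtain ⟨f, f1, f2⟩ := chain CLe cle_refl cle_closed cle_trans
    (fun α p => Good (fun m i => ((e α).1 m i).1) p ∧ ¬ p.X ⊆ range (e α).2) fun α p => by
      obtain ⟨q, q1, q2⟩ := new p (e α).2
      obtain ⟨r, r1, r2⟩ := good q _ fun m i => ((e α).1 m i).2
      exact ⟨r, cle_trans _ _ _ r1 q1, r2, fun h => q2 (r1.1.trans h)⟩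
  have a : ∀ α, (f α).X ⊆ Submodule.span ℤ (⋃ α, (f α).X) := fun α =>
    (subset_iUnion (fun α => (f α).X) α).trans Submodule.subset_span
  refine ⟨Submodule.span ℤ (⋃ α, (f α).X), fun h => ?_, fun W hW hc => ?_⟩
  · obtain ⟨s, hs⟩ := h.exists_eq_range ⟨0, Submodule.zero_mem _⟩
    obtain ⟨α, hα⟩ := he (fun _ _ => ⟨∅, .empty⟩, s)
    exact (f2 α).2 (by rw [hα]; exact (a α).trans hs.le)
  · obtain ⟨α, hα⟩ := he (fun m i => ⟨W m i, hW m i⟩, 0)
    have := (f2 α).1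
    rw [hα] at this
    rcases this with ⟨m, F, b, c, d⟩ | ⟨sel, b⟩
    · obtain ⟨i, hi⟩ := hc m F b (c.trans (a α))
      exact (d i hi).elim
    · refine ⟨sel, fun g hg => b g (Submodule.span_le.2 (iUnion_subset fun β => ?_) hg)⟩
      rcases le_total β α with h | h
      · exact (f1 _ _ h).1.trans (X_H _)
      · exact (X_H _).trans (f1 _ _ h).2.1

end Pool.Agent.H33.BG2
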