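import Mathlib
import Pool.Agent.H33.GrothEx

/-!
Subgroups of `(ZMod 2)^{ω₁}` meeting every large closed set.
-/

set_option autoImplicit false
open Set Topology TopologicalSpace Filter Cardinal Submodule

namespace Pool.Agent.H33.BernGrp

theorem li_of_Iio {R V ι : Type} [Field R] [AddCommGroup V] [Module R V] [LinearOrder ι]
    (v : ι → V) (h : ∀ i, v i ∉ span R (v '' Iio i)) : LinearIndependent R v := by
  classical
  rw [linearIndependent_iff']
  intro s
  induction s using Finset.induction_on_max with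
  | empty => simp
  | insert a s ha ih =>
    intro g hg
    have hna : a ∉ s := fun hm => lt_irrefl _ (ha a hm)
    rw [Finset.sum_insert hna] at hg
    have h0 : g a = 0 := by
      by_contra hne
      apply h a
      have e : v a = -(g a)⁻¹ • ∑ i ∈ s, g i • v i := by
        rw [← eq_neg_iff_add_eq_zero] at hg
        rw [neg_smul, ← smul_neg, ← hg, smul_smul, inv_mul_cancel₀ hne, one_smul]
      rw [e]
      exact smul_mem _ _ (sum_mem fun i hi => smul_mem _ _ (subset_span ⟨i, ha i hi, rfl⟩))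
    rw [h0, zero_smul, zero_add] at hg
    intro i hi
    rcases Finset.mem_insert.1 hi with rfl | hi
    · exact h0
    · exact ih g hg i hi

theorem mk_finset_le (α : Type) : #(Finset α) ≤ max ℵ₀ #α := by
  classical
  exact (mk_le_of_injective (f := Finset.toList) fun a b h => by
    rw [← a.toList_toFinset, h, b.toList_toFinset]).trans (mk_list_le_max α)

theorem mk_span_lt {R V : Type} [Field R] [AddCommGroup V] [Module R V] {κ : Cardinal.{0}}
    (hκ : ℵ₀ < κ) (hR : #R < κ) {s : Set V} (hs : #s < κ) : #(span R s : Set V) < κ := by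
  have e : (span R s : Set V) = range (Finsupp.linearCombination R (Subtype.val : s → V)) := by
    ext x
    exact Finsupp.mem_span_iff_linearCombination R s x
  rw [e]
  refine mk_range_le.trans_lt ((mk_le_of_injective (Finsupp.graph_injective s R)).trans_lt
    ((mk_finset_le _).trans_lt (max_lt hκ ?_)))
  rw [mk_prod, lift_id, lift_id]
  exact mul_lt_of_lt hκ.le hs hR

theorem exists_indep {R V ι : Type} [Field R] [AddCommGroup V] [Module R V] {κ : Cardinal.{0}}
    (hκ : ℵ₀ < κ) (hR : #R < κ) (hι : #ι ≤ κ) (B : Submodule R V) (hB : #B < κ)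
    (F : ι → Set V) (hF : ∀ i, κ ≤ #(F i)) :
    ∃ x : ι → V, (∀ i, x i ∈ F i) ∧ LinearIndependent R (B.mkQ ∘ x) := by
  classical
  obtain ⟨e⟩ : Nonempty (ι ↪ κ.ord.ToType) := by rw [← Cardinal.le_def, mk_ord_toType]; exact hι
  let _ : LinearOrder ι := LinearOrder.lift' e e.injective
  have _ : WellFoundedLT ι := ⟨InvImage.wf e wellFounded_lt⟩
  have hlt : ∀ i : ι, #(Iio i) < κ := fun i =>
    lt_of_le_of_lt (mk_le_of_injective (f := fun j : Iio i => (⟨e j.1, j.2⟩ : Iio (e i)))
      fun a b hab => Subtype.ext (e.injective (congrArg Subtype.val hab)))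
      ((mk_Iio_lt (e i) (by simp)).trans_eq (mk_ord_toType κ))
  have step : ∀ (i : ι) (f : ι → V), ∃ a ∈ F i, a ∉ span R ((B : Set V) ∪ f '' Iio i) := by
    intro i f
    by_contra hc
    push Not at hc
    refine ((hF i).trans (mk_le_mk_of_subset hc)).not_gt (mk_span_lt hκ hR ?_)
    exact (mk_union_le _ _).trans_lt (add_lt_of_lt hκ.le hB (mk_image_le.trans_lt (hlt i)))
  obtain ⟨f, hf⟩ := GrothEx.exists_rec (T := ι) (0 : V)
    (fun i f => Classical.epsilon fun a => a ∈ F i ∧ a ∉ span R ((B : Set V) ∪ f '' Iio i))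
    (fun i f f' h => by rw [image_congr (s := Iio i) fun j hj => h j hj])
  have hf' : ∀ i, f i ∈ F i ∧ f i ∉ span R ((B : Set V) ∪ f '' Iio i) := fun i => by
    have := Classical.epsilon_spec (step i f)
    rwa [← hf i] at this
  refine ⟨f, fun i => (hf' i).1, li_of_Iio _ fun i hi => (hf' i).2 ?_⟩
  rw [image_comp, ← map_span] at hi
  obtain ⟨z, hz, e⟩ := hi
  have h1 : z - f i ∈ B := (Submodule.Quotient.eq B).1 e
  have h2 := sub_mem (span_mono (subset_union_right (s := (B : Set V))) hz)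
    (subset_span (Or.inl h1))
  simpa using h2

theorem cyl {I : Type} {U : Set (I → ZMod 2)} {x : I → ZMod 2} (h : U ∈ 𝓝 x) :
    ∃ F : Finset I, ∀ y : I → ZMod 2, (∀ i ∈ F, y i = x i) → y ∈ U := by
  obtain ⟨W, h1, h2, h3⟩ := mem_nhds_iff.1 h
  obtain ⟨F, u, h4, h5⟩ := isOpen_pi_iff.1 h2 _ h3
  exact ⟨F, fun y hy => h1 (h5 fun a ha => by rw [hy a ha]; exact (h4 a ha).2)⟩

theorem cyl_nhds {I : Type} (x : I → ZMod 2) (F : Finset I) :
    {y : I → ZMod 2 | ∀ i ∈ F, y i = x i} ∈ 𝓝 x :=
  (F.eventually_all (p := fun i (y : I → ZMod 2) => y i = x i)).2 fun i _ =>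
    ((isOpen_discrete ({x i} : Set (ZMod 2))).preimage
      (continuous_apply (A := fun _ => ZMod 2) i)).mem_nhds (mem_singleton (x i))

theorem mem_clo {I : Type} {s : Set (I → ZMod 2)} {x : I → ZMod 2} :
    x ∈ closure s ↔ ∀ F : Finset I, ∃ y ∈ s, ∀ i ∈ F, y i = x i := by
  rw [mem_closure_iff_nhds]
  constructor
  · intro h F
    obtain ⟨y, h1, h2⟩ := h _ (cyl_nhds x F)
    exact ⟨y, h2, h1⟩
  · intro h U hU
    obtain ⟨F, hF⟩ := cyl hU
    obtain ⟨y, h1, h2⟩ := h F
    exact ⟨y, hF y h2, h1⟩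

theorem dense_seq {J : Type} (c : J → ℝ) (hc : c.Injective) :
    ∃ d : ℕ → J → ZMod 2, ∀ (t : J → ZMod 2) (F : Finset J), ∃ k, ∀ j ∈ F, d k j = t j := by
  classical
  have := GrothEx.separable_cube
  refine ⟨fun k j => if 0 < denseSeq (ℝ → ℝ) k (c j) then 1 else 0, fun t F => ?_⟩
  let s : J → ℝ := fun j => if t j = 1 then 1 else -1
  obtain ⟨k, hk⟩ := (denseRange_denseSeq (ℝ → ℝ)).exists_mem_open
    (s := ⋂ j ∈ F, {f : ℝ → ℝ | 0 < s j * f (c j)})
    (isOpen_biInter_finset fun j _ => isOpen_lt continuous_const (by fun_prop))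
    ⟨Function.extend c s 0, mem_iInter₂.2 fun j _ => by
      simp only [mem_ofPred_eq, hc.extend_apply, s]
      split_ifs <;> norm_num⟩
  refine ⟨k, fun j hj => ?_⟩
  have := mem_iInter₂.1 hk j hj
  simp only [mem_ofPred_eq, s] at this
  have h2 : ∀ a : ZMod 2, a ≠ 1 → a = 0 := by decide
  show (if 0 < denseSeq (ℝ → ℝ) k (c j) then 1 else 0) = t j
  split_ifs at this with h
  · rw [if_pos (by linarith), h]
  · rw [if_neg (by linarith), h2 _ h]

theorem big {J J' : Type} (u : J' → J) (hu : u.Injective) (d : J → ZMod 2) :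
    2 ^ #J' ≤ #{t : J → ZMod 2 | ∀ j ∉ range u, t j = d j} := by
  have : #(J' → ZMod 2) = 2 ^ #J' := by simp
  rw [← this]
  refine mk_le_of_injective (f := fun w => ⟨Function.extend u w d, fun j hj =>
    Function.extend_apply' _ _ _ hj⟩) fun w w' e => funext fun j => ?_
  have := congrFun (congrArg Subtype.val e) (u j)
  simpa [hu.extend_apply] using this

theorem closed_agree {J : Type} (A : Set J) (d : J → ZMod 2) :
    IsClosed {t : J → ZMod 2 | ∀ j ∉ A, t j = d j} := by
  simp only [ofPred_forall]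
  exact isClosed_iInter fun j => isClosed_iInter fun _ =>
    isClosed_eq (continuous_apply j) continuous_const

theorem echelon {I : Type} [LinearOrder I] [WellFoundedLT I] (N : Set (I → ZMod 2))
    (hN : IsClosed N) (h0 : 0 ∈ N) (hadd : ∀ a ∈ N, ∀ b ∈ N, a + b ∈ N) :
    ∃ J : Set I, Nonempty (N ≃ₜ (J → ZMod 2)) := by
  classical
  let J : Set I := {i | ∃ x ∈ N, x i ≠ 0 ∧ ∀ j < i, x j = 0}
  let π : N → J → ZMod 2 := fun x j => x.1 j.1
  have hπ : Continuous π := continuous_pi fun j => (continuous_apply j.1).comp continuous_subtype_val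
  have : CompactSpace N := isCompact_iff_compactSpace.1 hN.isCompact
  have z1 : ∀ a b : ZMod 2, a + b = 0 ↔ a = b := by decide
  have z2 : ∀ a b c : ZMod 2, a ≠ b → c ≠ 0 → a + c = b := by decide
  have hinj : π.Injective := by
    intro x y e
    by_contra hne
    have : {i | (x.1 + y.1) i ≠ 0}.Nonempty := by
      by_contra h
      refine hne (Subtype.ext (funext fun i => (z1 _ _).1 ?_))
      by_contra h'
      exact h ⟨i, h'⟩
    obtain ⟨i, h1, h2⟩ := wellFounded_lt.has_min _ this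
    exact h1 ((z1 _ _).2 (congrFun e ⟨i, x.1 + y.1, hadd _ x.2 _ y.2, h1, fun j hj =>
      by_contra fun h => h2 j h hj⟩))
  have hsurj : π.Surjective := by
    intro t
    have : t ∈ closure (range π) := by
      rw [mem_clo]
      intro F
      induction F using Finset.induction_on_max with
      | empty => exact ⟨_, ⟨⟨0, h0⟩, rfl⟩, by simp⟩
      | insert a s ha ih =>
        obtain ⟨_, ⟨x, rfl⟩, hx⟩ := ih
        rcases Classical.em (π x a = t a) with h | h
        · exact ⟨_, ⟨x, rfl⟩, fun i hi => (Finset.mem_insert.1 hi).elim (fun e => e ▸ h) (hx i)⟩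
        · obtain ⟨p, p1, p2, p3⟩ := a.2
          refine ⟨_, ⟨⟨x.1 + p, hadd _ x.2 _ p1⟩, rfl⟩, fun i hi => ?_⟩
          rcases Finset.mem_insert.1 hi with rfl | hi
          · exact z2 _ _ _ h p2
          · show x.1 i.1 + p i.1 = t i
            rw [p3 i.1 (ha i hi), add_zero]
            exact hx i hi
    rwa [(isCompact_range hπ).isClosed.closure_eq] at this
  exact ⟨J, ⟨Continuous.homeoOfEquivCompactToT2 (f := Equiv.ofBijective π ⟨hinj, hsurj⟩) hπ⟩⟩

theorem sep {I : Type} [LinearOrder I] [WellFoundedLT I] (hI : #I = Order.succ ℵ₀)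
    {Γ : Type} [TopologicalSpace Γ] (j : Γ → I → ZMod 2) (hj : IsEmbedding j)
    (hG : ∀ F : Set (I → ZMod 2), IsClosed F → 2 ^ #I ≤ #F → ∃ g, j g ∈ F)
    (S : Set Γ) (hS : IsClosed S) (h0 : (0 : I → ZMod 2) ∈ j '' S)
    (hadd : ∀ a ∈ j '' S, ∀ b ∈ j '' S, a + b ∈ j '' S) : SeparableSpace S := by
  obtain ⟨J, ⟨h⟩⟩ := echelon (closure (j '' S)) isClosed_closure (subset_closure h0)
    (fun a ha b hb => map_mem_closure₂ (f := fun a b => a + b) continuous_add ha hb hadd)
  let ι : S → closure (j '' S) := fun s => ⟨j s.1, subset_closure ⟨s.1, s.2, rfl⟩⟩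
  have hι : IsEmbedding ι := (hj.comp IsEmbedding.subtypeVal).codRestrict _ _
  rcases Classical.em J.Countable with hc | hc
  · have := hc.to_subtype
    have := (h.isEmbedding.comp hι).secondCountableTopology
    infer_instance
  have k1 : #J = #I := le_antisymm (mk_set_le J) (by
    rw [hI, Order.succ_le_iff, ← not_le, le_aleph0_iff_set_countable]; exact hc)
  obtain ⟨c⟩ : Nonempty (J ↪ ℝ) := by
    rw [← Cardinal.le_def, k1, hI, mk_real, Order.succ_le_iff]; exact aleph0_lt_continuum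
  obtain ⟨u⟩ : Nonempty (J × ℕ ↪ J) := by
    rw [← Cardinal.le_def, mk_prod, lift_id, lift_id, mk_nat, mul_eq_left]
    · rw [k1, hI]; exact Order.le_succ _
    · rw [k1, hI]; exact Order.le_succ _
    · exact aleph0_ne_zero
  obtain ⟨d, hd⟩ := dense_seq c c.injective
  have : ∀ n : ℕ, ∃ s : S, ∀ i ∉ range fun a => u (a, n), h (ι s) i = d n.unpair.1 i := by
    intro n
    have hu : Function.Injective fun a => u (a, n) := fun a b e =>
      congrArg Prod.fst (u.injective e)
    have hcl := closed_agree (range fun a => u (a, n)) (d n.unpair.1)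
    have hb := big _ hu (d n.unpair.1)
    obtain ⟨g, t, ht, e⟩ := hG ((fun t => (h.symm t).1) ''
      {t | ∀ i ∉ range fun a => u (a, n), t i = d n.unpair.1 i})
      (hcl.isCompact.image (by fun_prop)).isClosed (by
        rw [mk_image_eq (f := fun t => (h.symm t).1) (Subtype.val_injective.comp h.symm.injective),
          ← k1]; exact hb)
    have hg : g ∈ S := by
      rw [← hS.closure_eq, hj.closure_eq_preimage_closure_image, mem_preimage, ← e]
      exact (h.symm t).2
    refine ⟨⟨g, hg⟩, ?_⟩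
    have : ι ⟨g, hg⟩ = h.symm t := Subtype.ext e.symm
    rw [this, h.apply_symm_apply]
    exact ht
  choose s hs using this
  refine ⟨⟨range s, countable_range s, fun x => ?_⟩⟩
  rw [(h.isEmbedding.comp hι).closure_eq_preimage_closure_image, mem_preimage, mem_clo]
  intro F
  obtain ⟨k, hk⟩ := hd (h (ι x)) F
  have hf : (Prod.snd '' (u ⁻¹' (F : Set J))).Finite :=
    (F.finite_toSet.preimage u.injective.injOn).image _
  obtain ⟨_, ⟨m, rfl⟩, hm⟩ := (infinite_range_of_injective
    (f := fun m => Nat.pair k m) fun a b e => (Nat.pair_eq_pair.1 e).2).exists_notMem_finite hf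
  refine ⟨_, ⟨_, ⟨Nat.pair k m, rfl⟩, rfl⟩, fun i hi => ?_⟩
  have := hs (Nat.pair k m) i (by
    rintro ⟨a, rfl⟩
    exact hm ⟨_, hi, rfl⟩)
  rw [Nat.unpair_pair] at this
  exact this.trans (hk i hi)

/-- Finitely supported points. -/
def sig (I : Type) : Submodule (ZMod 2) (I → ZMod 2) where
  carrier := {x | {i | x i ≠ 0}.Finite}
  zero_mem' := by simp
  add_mem' := fun {a b} ha hb => (Set.Finite.union ha hb).subset fun i hi => by
    by_contra h
    simp only [mem_union, mem_ofPred_eq, not_or, not_not] at h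
    exact hi (by simp [h.1, h.2])
  smul_mem' := fun c a ha => Set.Finite.subset ha fun i hi h => hi (by simp [h])

theorem pseudo {I : Type} (hI : #I = Order.succ ℵ₀) (G : Set (I → ZMod 2))
    (hG : ∀ F : Set (I → ZMod 2), IsClosed F → 2 ^ #I ≤ #F → ∃ g ∈ G, g ∈ F)
    (hs : (sig I : Set (I → ZMod 2)) ⊆ G) (f : G → ℝ) (hf : Continuous f) :
    ∃ C : ℝ, ∀ x, |f x| ≤ C := by
  classical
  by_contra hn
  push Not at hn
  choose x hx using fun n : ℕ => hn n
  have key : ∀ (z : G) (U : Set ℝ), U ∈ 𝓝 (f z) →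
      ∃ F : Finset I, ∀ y : G, (∀ i ∈ F, y.1 i = z.1 i) → f y ∈ U := by
    intro z U hU
    obtain ⟨V, v1, v2⟩ := (mem_nhds_subtype _ _ _).1 (hf.continuousAt.preimage_mem_nhds hU)
    obtain ⟨F, hF⟩ := cyl v1
    exact ⟨F, fun y hy => v2 (hF _ hy)⟩
  choose E hE using fun n : ℕ => key (x n) {r | (n : ℝ) < |r|}
    ((isOpen_lt continuous_const continuous_abs).mem_nhds (hx n))
  obtain ⟨p, hp⟩ := exists_clusterPt_of_compactSpace (map (fun n => (x n).1) atTop)
  have hA : (⋃ n, (E n : Set I)).Countable := countable_iUnion fun n => (E n).countable_toSet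
  have k1 : #((⋃ n, (E n : Set I))ᶜ : Set I) = #I := by
    have : Infinite I := by rw [infinite_iff, hI]; exact Order.le_succ _
    exact mk_compl_of_infinite _ (by
      rw [hI, Order.lt_succ_iff, le_aleph0_iff_set_countable]; exact hA)
  obtain ⟨g, g1, g2⟩ := hG _ (closed_agree (range (Subtype.val : ((⋃ n, (E n : Set I))ᶜ : Set I) → I)) p)
    (by rw [← k1]; exact big _ Subtype.val_injective p)
  obtain ⟨F, hF⟩ := key ⟨g, g1⟩ {r | |r| < |f ⟨g, g1⟩| + 1}
    ((isOpen_lt continuous_abs continuous_const).mem_nhds (by simp))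
  obtain ⟨m, hm⟩ := exists_nat_gt (|f ⟨g, g1⟩| + 1)
  obtain ⟨n, n1, n2⟩ := ((MapClusterPt.frequently hp (cyl_nhds p F)).and_eventually
    (eventually_ge_atTop m)).exists
  let y : I → ZMod 2 := fun i => if i ∈ E n then (x n).1 i else if i ∈ F then g i else 0
  have hy : y ∈ G := hs ((E n ∪ F).finite_toSet.subset fun i hi => by
    by_contra h
    simp only [Finset.coe_union, mem_union, Finset.mem_coe, not_or] at h
    exact hi (by simp [y, h.1, h.2]))
  have a1 := hE n ⟨y, hy⟩ fun i hi => by simp [y, hi]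
  have a2 := hF ⟨y, hy⟩ fun i hi => by
    by_cases h : i ∈ E n
    · simp only [y, h, if_true]
      rw [n1 i hi, g2 i (by simpa using ⟨n, h⟩)]
    · simp [y, h, hi]
  have : (m : ℝ) ≤ n := by exact_mod_cast n2
  simp only [mem_ofPred_eq] at a1 a2
  linarith

theorem mk_closed {I : Type} [Infinite I] : #{F : Set (I → ZMod 2) // IsClosed F} ≤ 2 ^ #I := by
  classical
  have : #(Set (Finset (I × ZMod 2))) = 2 ^ #I := by
    rw [mk_set, mk_finset_of_infinite, mk_prod, lift_id, lift_id, mul_eq_left (aleph0_le_mk I)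
      ((lt_aleph0_of_finite _).le.trans (aleph0_le_mk I)) (mk_ne_zero _)]
  rw [← this]
  have key : ∀ F F' : {F : Set (I → ZMod 2) // IsClosed F},
      {c : Finset (I × ZMod 2) | ∃ x ∈ F.1, ∀ p ∈ c, x p.1 = p.2} =
      {c : Finset (I × ZMod 2) | ∃ x ∈ F'.1, ∀ p ∈ c, x p.1 = p.2} → F.1 ⊆ F'.1 := by
    intro F F' e x hx
    rw [← F'.2.closure_eq, mem_clo]
    intro E
    obtain ⟨y, y1, y2⟩ := (Set.ext_iff.1 e (E.image fun i => (i, x i))).1 ⟨x, hx, by simp⟩
    exact ⟨y, y1, fun i hi => y2 (i, x i) (Finset.mem_image_of_mem _ hi)⟩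
  exact mk_le_of_injective (f := fun F => {c : Finset (I × ZMod 2) | ∃ x ∈ F.1, ∀ p ∈ c,
    x p.1 = p.2}) fun F F' e => Subtype.ext ((key F F' e).antisymm (key F' F e.symm))

theorem pair {I : Type} [Infinite I] : ∃ G H : Submodule (ZMod 2) (I → ZMod 2),
    (∀ F : Set (I → ZMod 2), IsClosed F → 2 ^ #I ≤ #F → ∃ g ∈ G, g ∈ F) ∧
    (∀ F : Set (I → ZMod 2), IsClosed F → 2 ^ #I ≤ #F → ∃ g ∈ H, g ∈ F) ∧ G ⊓ H = sig I := by
  have z : ∀ a b : ZMod 2, (a ≠ 0 ↔ b ≠ 0) → a = b := by decide
  have : Fact (Nat.Prime 2) := Nat.fact_prime_two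
  have h0 : ℵ₀ < 2 ^ #I := (aleph0_le_mk I).trans_lt (cantor _)
  obtain ⟨x, x1, x2⟩ := exists_indep (R := ZMod 2)
    (ι := {F : Set (I → ZMod 2) // IsClosed F ∧ 2 ^ #I ≤ #F} × Bool) h0
    ((lt_aleph0_of_finite _).trans h0) (by
      rw [mk_prod, lift_id, lift_id]
      calc _ ≤ 2 ^ #I * 2 ^ #I := mul_le_mul'
            ((mk_le_mk_of_subset (s := {F : Set (I → ZMod 2) | IsClosed F ∧ 2 ^ #I ≤ #F})
              (t := {F | IsClosed F}) fun _ h => h.1).trans mk_closed)
            ((lt_aleph0_of_finite _).trans h0).le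
        _ = 2 ^ #I := mul_eq_self h0.le) (sig I) (by
      refine (mk_le_of_injective (f := fun y : sig I => Set.Finite.toFinset y.2)
        fun a b e => ?_).trans_lt (by rw [mk_finset_of_infinite]; exact cantor _)
      exact Subtype.ext (funext fun i => z _ _ (Set.ext_iff.1 (Finite.toFinset_inj.1 e) i)))
    (fun p => p.1.1) (fun p => p.1.2.2)
  refine ⟨comap (sig I).mkQ (span _ (((sig I).mkQ ∘ x) '' {p | p.2 = true})),
    comap (sig I).mkQ (span _ (((sig I).mkQ ∘ x) '' {p | p.2 = false})),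
    fun F a b => ⟨x (⟨F, a, b⟩, true), subset_span ⟨_, rfl, rfl⟩, x1 (⟨F, a, b⟩, true)⟩,
    fun F a b => ⟨x (⟨F, a, b⟩, false), subset_span ⟨_, rfl, rfl⟩, x1 (⟨F, a, b⟩, false)⟩, ?_⟩
  rw [← Submodule.comap_inf, (x2.disjoint_span_image (disjoint_left.2 fun p a b => by simp_all)).eq_bot,
    Submodule.comap_bot, ker_mkQ]

theorem sig_sigma (I : Type) : IsSigmaCompact (sig I : Set (I → ZMod 2)) := by
  classical
  have : (sig I : Set (I → ZMod 2)) =
      ⋃ m : ℕ, ⋂ T : {T : Finset I // T.card = m}, ⋃ a ∈ T.1, {z : I → ZMod 2 | z a = 0} := by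
    ext z
    simp only [mem_iUnion, mem_iInter, mem_ofPred_eq]
    constructor
    · intro h
      refine ⟨(Set.Finite.toFinset h).card + 1, fun T => ?_⟩
      by_contra hn
      push Not at hn
      have := Finset.card_le_card (show T.1 ⊆ Set.Finite.toFinset h from
        fun a ha => (Set.Finite.mem_toFinset h).2 (hn a ha))
      have := T.2
      omega
    · rintro ⟨m, hm⟩
      by_contra hi
      obtain ⟨T, h1, h2⟩ := Set.Infinite.exists_subset_card_eq hi m
      obtain ⟨a, a1, a2⟩ := hm ⟨T, h2⟩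
      exact h1 a1 a2
  rw [this]
  exact isSigmaCompact_iUnion_of_isCompact _ fun m => (isClosed_iInter fun T =>
    isClosed_biUnion_finset fun a _ => isClosed_eq (continuous_apply a) continuous_const).isCompact

theorem not_sep {I : Type} [Uncountable I] {Γ : Type} [TopologicalSpace Γ] (j : Γ → I → ZMod 2)
    (hj : Continuous j) (h : range j = sig I) : ¬ SeparableSpace Γ := by
  classical
  rintro ⟨c, c1, c2⟩
  have hc : (⋃ g ∈ c, {i | j g i ≠ 0}).Countable := c1.biUnion fun g _ =>
    Set.Finite.countable (h.subset ⟨g, rfl⟩)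
  obtain ⟨i, hi⟩ : ∃ i, i ∉ ⋃ g ∈ c, {i | j g i ≠ 0} := by
    by_contra hn
    push Not at hn
    exact not_countable_univ (eq_univ_of_forall hn ▸ hc)
  obtain ⟨g, hg⟩ := (Set.ext_iff.1 h (Pi.single i 1)).2 ((finite_singleton i).subset fun k hk => by
    by_contra e
    exact hk (Pi.single_eq_of_ne e _))
  obtain ⟨y, y1, y2⟩ := c2.inter_open_nonempty {y | j y i ≠ 0}
    ((isOpen_discrete {a : ZMod 2 | a ≠ 0}).preimage ((continuous_apply i).comp hj))
    ⟨g, by simp [hg]⟩
  exact hi (mem_biUnion y2 y1)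

theorem sep' {I : Type} [LinearOrder I] [WellFoundedLT I] (hI : #I = Order.succ ℵ₀)
    (G : Submodule (ZMod 2) (I → ZMod 2))
    (hG : ∀ F : Set (I → ZMod 2), IsClosed F → 2 ^ #I ≤ #F → ∃ g ∈ G, g ∈ F)
    (S : Subgroup (Multiplicative G)) (hS : IsClosed (S : Set (Multiplicative G))) :
    SeparableSpace S :=
  sep hI (fun g : Multiplicative G => (Multiplicative.toAdd g).1)
    (IsEmbedding.subtypeVal (p := fun x => x ∈ G))
    (fun F a b => by
      obtain ⟨g, g1, g2⟩ := hG F a b
      exact ⟨Multiplicative.ofAdd ⟨g, g1⟩, g2⟩) S hS ⟨1, S.one_mem, rfl⟩ (by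
      rintro _ ⟨a, ha, rfl⟩ _ ⟨b, hb, rfl⟩
      exact ⟨a * b, S.mul_mem ha hb, rfl⟩)

theorem final :
    ∃ (G H : Type) (_ : TopologicalSpace G) (_ : CommGroup G) (_ : IsTopologicalGroup G)
      (_ : T2Space G) (_ : TopologicalSpace H) (_ : CommGroup H) (_ : IsTopologicalGroup H)
      (_ : T2Space H),
      (∀ f : G → ℝ, Continuous f → ∃ C : ℝ, ∀ x, |f x| ≤ C) ∧
      (∀ f : H → ℝ, Continuous f → ∃ C : ℝ, ∀ x, |f x| ≤ C) ∧
      (∀ S : Subgroup G, IsClosed (S : Set G) → SeparableSpace ↥S) ∧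
      (∀ S : Subgroup H, IsClosed (S : Set H) → SeparableSpace ↥S) ∧
      ∃ S : Subgroup (G × H), IsClosed (S : Set (G × H)) ∧
        IsSigmaCompact (S : Set (G × H)) ∧ ¬ SeparableSpace ↥S := by
  obtain ⟨I, _, _, hI⟩ : ∃ (I : Type) (_ : LinearOrder I) (_ : WellFoundedLT I),
      #I = Order.succ ℵ₀ := ⟨(Order.succ ℵ₀).ord.ToType, inferInstance, inferInstance,
        mk_ord_toType _⟩
  have : Uncountable I := by rw [← aleph0_lt_mk_iff, hI]; exact Order.lt_succ _
  obtain ⟨G, H, hG, hH, hGH⟩ := pair (I := I)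
  have g0 : sig I ≤ G := hGH ▸ inf_le_left
  have h0 : sig I ≤ H := hGH ▸ inf_le_right
  let a : Multiplicative G × Multiplicative H → I → ZMod 2 := fun p => (Multiplicative.toAdd p.1).1
  let b : Multiplicative G × Multiplicative H → I → ZMod 2 := fun p => (Multiplicative.toAdd p.2).1
  have ha : Continuous a := continuous_subtype_val.comp (continuous_toAdd.comp continuous_fst)
  have hb : Continuous b := continuous_subtype_val.comp (continuous_toAdd.comp continuous_snd)
  let S : Subgroup (Multiplicative G × Multiplicative H) :=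
    { carrier := {p | a p = b p}
      one_mem' := rfl
      mul_mem' := fun {p q} hp hq => by
        show a p + a q = b p + b q
        rw [hp, hq]
      inv_mem' := fun {p} hp => by
        show -a p = -b p
        rw [hp] }
  have hr : a '' S = sig I := by
    ext x
    constructor
    · rintro ⟨p, hp, rfl⟩
      rw [← hGH]
      exact ⟨(Multiplicative.toAdd p.1).2, hp ▸ (Multiplicative.toAdd p.2).2⟩
    · intro hx
      exact ⟨(Multiplicative.ofAdd ⟨x, g0 hx⟩, Multiplicative.ofAdd ⟨x, h0 hx⟩), rfl, rfl⟩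
  refine ⟨Multiplicative G, Multiplicative H, inferInstance, inferInstance, inferInstance,
    inferInstanceAs (T2Space G), inferInstance, inferInstance, inferInstance,
    inferInstanceAs (T2Space H), pseudo hI G hG g0, pseudo hI H hH h0, sep' hI G hG, sep' hI H hH,
    S, isClosed_eq ha hb, ?_, not_sep (fun s : S => a s.1) (ha.comp continuous_subtype_val)
      (by rw [← hr, image_eq_range]; rfl)⟩
  have hi : IsInducing fun p => (a p, b p) :=
    (IsInducing.subtypeVal (t := (G : Set (I → ZMod 2)))).prodMap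
      (IsInducing.subtypeVal (t := (H : Set (I → ZMod 2))))
  rw [hi.isSigmaCompact_iff]
  have : (fun p => (a p, b p)) '' S = (fun x => (x, x)) '' (a '' S) := by
    rw [image_image]
    exact image_congr fun p hp => Prod.ext rfl hp.symm
  rw [this, hr]
  exact (sig_sigma I).image (by fun_prop)

end Pool.Agent.H33.BernGrp
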