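import Mathlib

set_option autoImplicit false

namespace Pool.Agent.H33.Blowup
open Polynomial Matrix

/-- Characteristic polynomial of a blow-up matrix shifted by a scalar, evaluated at a point. -/
lemma eval_blowup {n k : ℕ} (hk : k ≤ n) (cl : Fin n → Fin k) (M Q : Matrix (Fin k) (Fin k) ℝ)
    (hQ : ∀ a b, Q a b = M a b * ((Finset.univ.filter (fun j => cl j = b)).card : ℝ))
    (μ : ℝ) (A : Matrix (Fin n) (Fin n) ℝ)
    (hA : ∀ i j, A i j = M (cl i) (cl j) - if i = j then μ else 0) (x : ℝ) :
    A.charpoly.eval x = (x + μ) ^ (n - k) * (Matrix.scalar _ (x + μ) - Q).det := by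
  let S : Matrix (Fin n) (Fin k) ℝ := fun i a => if cl i = a then 1 else 0
  let T : Matrix (Fin k) (Fin n) ℝ := fun a j => M a (cl j)
  have h1 : A = S * T - Matrix.scalar _ μ := by
    ext i j
    rw [Matrix.sub_apply, Matrix.mul_apply]
    simp [hA, S, T, Matrix.diagonal_apply]
  have h2 : T * S = Q := by
    ext a b
    rw [hQ, Matrix.mul_apply, Finset.card_filter]
    push_cast
    rw [Finset.mul_sum]
    refine Finset.sum_congr rfl (fun j _ => ?_)
    simp only [S, T]
    split_ifs with h
    · rw [h]
    · simp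
  rw [h1, Matrix.charpoly_sub_scalar,
    Matrix.charpoly_mul_comm_of_le S T (by simpa using hk), h2]
  simp [Polynomial.eval_comp, Matrix.eval_charpoly]

lemma roots_eq {p : ℝ[X]} (s : Multiset ℝ) (h : ∀ x, p.eval x = (s.map (fun a => x - a)).prod) :
    p.roots = s := by
  have : p = (s.map (fun a => X - C a)).prod := by
    apply Polynomial.funext
    intro x
    rw [h, Polynomial.eval_multiset_prod, Multiset.map_map]
    simp
  rw [this, Polynomial.roots_multiset_prod_X_sub_C]

end Pool.Agent.H33.Blowup
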