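import Mathlib
import Pool.Agent.H33.CpCp

/-!
The Lindelof Sigma property of the Hewitt realcompactification; factorization of continuous
functions on subspaces of products.
-/

open Set Filter Topology

namespace Pool.Agent.H33.Ups1

open Pool.Agent.H33.Groth Pool.Agent.H33.Retr Pool.Agent.H33.Spl5 Pool.Agent.H33.CpCp

/-- evaluation -/
abbrev ev (Z : Type) [TopologicalSpace Z] (y : Z) (g : Cp Z) : ℝ := g.1 y

/-- web boundedness -/
def WB (Z : Type) [TopologicalSpace Z] : Prop :=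
  ∃ B : ℕ → Set Z, ∀ (z : Z) (𝒰 : Ultrafilter Z), (∀ i, z ∈ B i → B i ∈ 𝒰) →
    ∀ g : Cp Z, ∃ c, Tendsto g.1 𝒰 (𝓝 c)

/-- the realcompactification is Lindelof Sigma -/
def UL (Z : Type) [TopologicalSpace Z] : Prop :=
  ∃ F : Set (Set (Cp Z → ℝ)), F.Countable ∧ ∀ x ∈ closure (range (ev Z)),
    ∃ K : Set (Cp Z → ℝ), IsCompact K ∧ x ∈ K ∧ K ⊆ closure (range (ev Z)) ∧
      ∀ U : Set (Cp Z → ℝ), IsOpen U → K ⊆ U → ∃ A ∈ F, K ⊆ A ∧ A ⊆ U ∩ closure (range (ev Z))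

variable {Z : Type} [TopologicalSpace Z]

theorem lim_of_bdd {α : Type} {𝒰 : Ultrafilter α} {g : α → ℝ} {m : ℝ}
    (h : ∀ᶠ a in (𝒰 : Filter α), |g a| ≤ m) : ∃ c, Tendsto g 𝒰 (𝓝 c) := by
  obtain ⟨c, -, hc⟩ := (isCompact_Icc (a := -m) (b := m)).ultrafilter_le_nhds' (𝒰.map g)
    (Ultrafilter.mem_map.2 (mem_of_superset h fun g hg => abs_le.1 hg))
  exact ⟨c, hc⟩

theorem wb_of_ul (h : UL Z) : WB Z := by
  obtain ⟨F, hF, h⟩ := h
  obtain ⟨N, hN⟩ := (hF.insert ∅).exists_eq_range (insert_nonempty _ _)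
  refine ⟨fun i => ev Z ⁻¹' N i, fun z 𝒰 h1 g => ?_⟩
  obtain ⟨K, h2, h3, -, h4⟩ := h _ (subset_closure (mem_range_self z))
  obtain ⟨m, hm⟩ := (h2.image (continuous_apply g).abs).bddAbove
  obtain ⟨A, h5, h6, h7⟩ := h4 {y | |y g| < m + 1}
    (isOpen_lt (continuous_apply g).abs continuous_const)
    fun y hy => (hm (mem_image_of_mem _ hy)).trans_lt (lt_add_one m)
  obtain ⟨n, rfl⟩ : A ∈ range N := hN ▸ mem_insert_of_mem _ h5
  exact lim_of_bdd (m := m + 1) (mem_of_superset (h1 n (h6 h3)) fun y hy =>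
    (le_of_lt (h7 hy).1 : |g.1 y| ≤ m + 1))

theorem ls_sub {T : Type} [TopologicalSpace T] {C : Set T} (h : LS C) : LS (univ : Set C) := by
  refine master (T' := fun _ => _) (fun _ => C) (fun _ => h) (fun _ z s => s = z.1)
    (fun z _ _ => ⟨_, z.2, rfl⟩) fun 𝒱 _ h => ?_
  obtain ⟨t, ht, h⟩ := h 0
  refine ⟨⟨t, ht⟩, trivial, tendsto_subtype_rng.2 fun U hU =>
    Filter.mem_map.2 (mem_of_superset (h U hU) ?_)⟩
  rintro z ⟨_, hs, rfl⟩
  exact hs.1

theorem bdd_of_wb {B : ℕ → Set Z} {z : Z} {g : Z → ℝ}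
    (h : ∀ 𝒰 : Ultrafilter Z, (∀ i, z ∈ B i → B i ∈ 𝒰) → ∃ c, Tendsto g 𝒰 (𝓝 c)) :
    ∃ (s : Finset ℕ) (m : ℝ), z ∈ ⋂ i ∈ s, B i ∧ ∀ y ∈ ⋂ i ∈ s, B i, |g y| ≤ m := by
  by_contra hn
  push Not at hn
  obtain ⟨𝒰, h𝒰⟩ := exists_ultra (fun q : Finset ℕ × ℝ => z ∈ ⋂ i ∈ q.1, B i)
    (fun q => (⋂ i ∈ q.1, B i) ∩ {y | q.2 < |g y|}) ⟨(∅, 0), by simp⟩
    (fun q q' hq hq' => ⟨(q.1 ∪ q'.1, max q.2 q'.2), by
      rw [Finset.set_biInter_inter]
      exact ⟨hq, hq'⟩, fun y hy => by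
      have h1 := hy.1
      rw [Finset.set_biInter_inter] at h1
      have h2 : q.2 < |g y| ∧ q'.2 < |g y| := max_lt_iff.1 hy.2
      exact ⟨⟨h1.1, h2.1⟩, h1.2, h2.2⟩⟩)
    fun q hq => hn q.1 q.2 hq
  obtain ⟨c, hc⟩ := h 𝒰 fun i hi =>
    mem_of_superset (h𝒰 ({i}, 0) (by simpa)) fun y hy => by simpa using hy.1
  have h1 : |c| + 1 ≤ |c| := ge_of_tendsto hc.abs
    (mem_of_superset (h𝒰 (∅, |c| + 1) (by simp)) fun y hy => (le_of_lt hy.2 : _ ≤ |g y|))
  linarith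

theorem ul_of_wb (h : WB Z) : UL Z := by
  obtain ⟨B, hB⟩ := h
  have h1 : LS (closure (range (ev Z))) := by
    refine LS.of_countable (fun s : Finset ℕ => closure (ev Z '' ⋂ i ∈ s, B i)) fun p hp => ?_
    obtain ⟨z, hz⟩ : ∃ z, ∀ s : Finset ℕ, z ∈ ⋂ i ∈ s, B i →
        p ∈ closure (ev Z '' ⋂ i ∈ s, B i) := by
      by_contra hn
      push Not at hn
      have h1 : ∀ s : Finset ℕ, ∃ ρ : Cp (Cp Z → ℝ), ρ.1 p = 0 ∧
          (p ∉ closure (ev Z '' ⋂ i ∈ s, B i) → ∀ y ∈ ⋂ i ∈ s, B i, ρ.1 (ev Z y) = 1) := fun s => by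
        by_cases h : p ∈ closure (ev Z '' ⋂ i ∈ s, B i)
        · exact ⟨⟨0, continuous_zero⟩, rfl, fun h' => absurd h h'⟩
        · obtain ⟨ρ, h1, h2⟩ := urys isClosed_closure h
          exact ⟨ρ, h1, fun _ y hy => h2 _ (subset_closure (mem_image_of_mem _ hy))⟩
      choose ρ h1 h2 using h1
      let := TopologicalSpace.metrizableSpaceMetric (Finset ℕ → ℝ)
      have h3 : Continuous fun y => dist (fun s => (ρ s).1 y) (fun s => (ρ s).1 p) :=
        (continuous_pi fun s => (ρ s).2).dist continuous_const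
      have h4 : ∀ z, dist (fun s => (ρ s).1 (ev Z z)) (fun s => (ρ s).1 p) ≠ 0 := fun z h4 => by
        obtain ⟨s, h5, h6⟩ := hn z
        have := congrFun (dist_eq_zero.1 h4) s
        simp only [h1, h2 s h6 z h5] at this
        exact one_ne_zero this
      let g : Cp Z := ⟨_, (h3.comp (continuous_pi fun g : Cp Z => g.2)).inv₀ h4⟩
      have h5 := closure_minimal
        (t := {y | dist (fun s => (ρ s).1 y) (fun s => (ρ s).1 p) * y g = 1}) (by
          rintro _ ⟨z, rfl⟩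
          exact mul_inv_cancel₀ (h4 z))
        (isClosed_eq (h3.mul (continuous_apply g)) continuous_const) hp
      simp at h5
    refine ⟨{s | z ∈ ⋂ i ∈ s, B i}, hz, fun 𝒰 h1 h2 => ?_⟩
    have h3 : ∀ g : Cp Z, ∃ c, Tendsto (fun y : Cp Z → ℝ => y g) 𝒰 (𝓝 c) := fun g => by
      obtain ⟨s, m, h3, h4⟩ := bdd_of_wb fun 𝒱 h => hB z 𝒱 h g
      refine lim_of_bdd (m := m) (mem_of_superset (h2 s h3) (closure_minimal ?_
        (isClosed_le (continuous_apply g).abs continuous_const)))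
      rintro _ ⟨y, hy, rfl⟩
      exact h4 y hy
    choose c hc using h3
    have h4 : ↑𝒰 ≤ 𝓝 c := tendsto_pi_nhds.2 hc
    exact ⟨c, isClosed_closure.mem_of_tendsto (f := id) h4 h1, h4⟩
  obtain ⟨N, hN⟩ := (ls_sub h1).nw
  refine ⟨range fun n => Subtype.val '' N n, countable_range _, fun x hx => ?_⟩
  obtain ⟨K, h2, h3, h4⟩ := hN ⟨x, hx⟩
  refine ⟨_, h2.image continuous_subtype_val, mem_image_of_mem _ h3, Subtype.coe_image_subset _ _,
    fun U hU h5 => ?_⟩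
  obtain ⟨n, h6, h7⟩ := h4 _ (hU.preimage continuous_subtype_val) (image_subset_iff.1 h5)
  refine ⟨_, mem_range_self n, image_mono h6, ?_⟩
  rintro _ ⟨y, hy, rfl⟩
  exact ⟨h7 hy, y.2⟩

theorem rd_of_wb (h : WB (Cp Z)) : RD Z := by
  obtain ⟨B, hB⟩ := h
  refine ⟨B, fun f 𝒰 h => ?_⟩
  have h1 := hB f 𝒰 h
  choose g hg using fun x => h1 ⟨_, cev x⟩
  refine ⟨g, hg, fun A hA => ?_⟩
  have := hA.to_subtype
  let := TopologicalSpace.metrizableSpaceMetric (A → ℝ)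
  by_contra hn
  push Not at hn
  have h2 : Continuous fun (h : Cp Z) (a : A) => h.1 a := continuous_pi fun a => cev _
  have h3 : ∀ h : Cp Z, dist (fun a : A => h.1 a) (fun a : A => g a) ≠ 0 := fun h h3 => by
    obtain ⟨x, hx, h4⟩ := hn h
    exact h4 (congrFun (dist_eq_zero.1 h3) ⟨x, hx⟩)
  obtain ⟨c, hc⟩ := h1 ⟨_, (h2.dist continuous_const).inv₀ h3⟩
  have h4 := (tendsto_iff_dist_tendsto_zero.1 (tendsto_pi_nhds.2 fun a : A => hg a)).mul hc
  simpa using tendsto_nhds_unique (h4.congr fun h => mul_inv_cancel₀ (h3 h)) tendsto_const_nhds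

theorem nhds_box {Y I : Type} [TopologicalSpace Y] {e : Y → I → ℝ} (he : IsInducing e) {x : Y}
    {W : Set Y} (hW : W ∈ 𝓝 x) : ∃ (w : Finset I) (δ : ℝ), 0 < δ ∧
      ∀ y, (∀ i ∈ w, |e y i - e x i| < δ) → y ∈ W := by
  rw [he.nhds_eq_comap, nhds_pi] at hW
  obtain ⟨O, hO, h1⟩ := hW
  obtain ⟨s, hs, V, hV, h2⟩ := mem_pi.1 hO
  obtain ⟨δ, h3, h4⟩ := ((((eventually_all_finite hs).2 fun i _ =>
    eventually_closedBall_subset (hV i)).filter_mono nhdsWithin_le_nhds).and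
      (self_mem_nhdsWithin (s := Ioi (0 : ℝ)))).exists
  exact ⟨hs.toFinset, δ, h4, fun y hy => h1 (h2 fun i hi =>
    h3 i hi (hy i (hs.mem_toFinset.2 hi)).le)⟩

theorem factor {Y I : Type} [TopologicalSpace Y] {e : Y → I → ℝ} (he : IsInducing e) (i₀ : I)
    (hA : ∀ (x t : Y) (u w : Finset I), ∃ y, (∀ i ∈ u, e y i = e t i) ∧
      ∀ i ∈ w, i ∉ u → |e y i - e x i| ≤ |e t i₀ - e x i₀|)
    {Φ : Y → ℝ} (hΦ : Continuous Φ) : ∃ D : Set I, D.Countable ∧ ∀ (x : Y) (𝒰 : Ultrafilter Y),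
      (∀ i ∈ D, Tendsto (fun y => e y i) 𝒰 (𝓝 (e x i))) → Tendsto Φ 𝒰 (𝓝 (Φ x)) := by
  classical
  let V : ℚ × Bool → Set ℝ := fun q => if q.2 = true then Ioi q.1 else Iio q.1
  have hV : ∀ q, IsOpen (V q) := fun q => by
    simp only [V]
    split_ifs
    exacts [isOpen_Ioi, isOpen_Iio]
  choose C hC hCc hCd using fun (u : Finset I) (q : ℚ × Bool) =>
    exists_countable_dense_for (fun (i : u) (y : Y) => e y i) (Φ ⁻¹' V q)
  have h1 : ∀ t q, ∃ s : Finset I, Φ t ∈ V q → ∀ y, (∀ i ∈ s, e y i = e t i) → Φ y ∈ V q := by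
    intro t q
    by_cases h : Φ t ∈ V q
    · obtain ⟨w, δ, h1, h2⟩ := nhds_box he (hΦ.continuousAt ((hV q).mem_nhds h))
      exact ⟨w, fun _ y hy => h2 y fun i hi => by simpa [hy i hi]⟩
    · exact ⟨∅, fun h' => absurd h' h⟩
  choose s hs using h1
  let ψ : Finset I → Set I := fun u => ⋃ q, ⋃ t ∈ C u q, s t q
  refine ⟨hull ψ {i₀}, countable_hull ψ (fun u => countable_iUnion fun q =>
    (hCc u q).biUnion fun t _ => (s t q).countable_toSet) (countable_singleton _), fun x 𝒰 h => ?_⟩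
  have h2 : ∀ q, Φ ⁻¹' V q ∈ 𝒰 → Φ x ∈ closure (V q) := fun q hq => by
    refine hΦ.closure_preimage_subset _ (mem_closure_iff_nhds.2 fun W hW => ?_)
    obtain ⟨w, δ, h2, h3⟩ := nhds_box he hW
    let u := insert i₀ (w.filter (· ∈ hull ψ {i₀}))
    have hu : ↑u ⊆ hull ψ {i₀} := fun i hi => (Finset.mem_insert.1 hi).elim
      (fun h => subset_hull ψ _ h) fun h => (Finset.mem_filter.1 h).2
    obtain ⟨t, h4, h5⟩ := (((eventually_all_finset u).2 fun i hi =>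
      (h i (hu hi)).eventually (Metric.ball_mem_nhds _ h2)).and hq).exists
    obtain ⟨_, h6, t', h7, rfl⟩ := mem_closure_iff.1 (hCd u q t h5)
      (univ.pi fun i : u => Metric.ball (e x i) δ)
      (isOpen_set_pi finite_univ fun _ _ => Metric.isOpen_ball) fun i _ => h4 i i.2
    have h8 : ∀ i ∈ u, |e t' i - e x i| < δ := fun i hi => h6 ⟨i, hi⟩ trivial
    obtain ⟨y, h9, h10⟩ := hA x t' (u ∪ s t' q) w
    refine ⟨y, h3 y fun i hi => ?_, hs t' q (hC u q h7) y fun i hi =>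
      h9 i (Finset.mem_union_right _ hi)⟩
    by_cases h11 : i ∈ u ∪ s t' q
    · rw [h9 i h11]
      refine h8 i (Finset.mem_insert_of_mem (Finset.mem_filter.2 ⟨hi, ?_⟩))
      rcases Finset.mem_union.1 h11 with h | h
      exacts [hu h, cl_hull ψ _ u hu (mem_iUnion.2 ⟨q, mem_biUnion h7 h⟩)]
    · exact (h10 i hi h11).trans_lt (h8 _ (Finset.mem_insert_self _ _))
  refine tendsto_order.2 ⟨fun a ha => ?_, fun a ha => ?_⟩
  · obtain ⟨q, h3, h4⟩ := exists_rat_btwn ha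
    by_contra h5
    have := h2 (q, false) (mem_of_superset (Ultrafilter.eventually_not.2 h5)
      fun y hy => (not_lt.1 hy).trans_lt h3)
    simp only [V, Bool.false_eq_true, if_false, closure_Iio] at this
    exact h4.not_ge this
  · obtain ⟨q, h3, h4⟩ := exists_rat_btwn ha
    by_contra h5
    have := h2 (q, true) (mem_of_superset (Ultrafilter.eventually_not.2 h5)
      fun y hy => h4.trans_le (not_lt.1 hy))
    simp only [V, if_true, closure_Ioi] at this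
    exact h3.not_ge this

end Pool.Agent.H33.Ups1
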