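import Mathlib
import Pool.Agent.H33.Ups1

/-!
Compact continuous images of function spaces over left-separated compacta: the positive case.
-/

open Set Filter Topology Cardinal

namespace Pool.Agent.H33.CImg1

open Pool.Agent.H33.GrothEx Pool.Agent.H33.NoEmb Pool.Agent.H33.Spl1 Pool.Agent.H33.Spl5
  Pool.Agent.H33.Ups1

theorem pigeon {I β : Type} [Countable β] {J : Set I} (hJ : ¬ J.Countable) (c : I → β) :
    ∃ b, ¬ {i ∈ J | c i = b}.Countable := by
  by_contra h
  push Not at h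
  exact hJ ((countable_iUnion h).mono fun i hi => mem_iUnion.2 ⟨c i, And.intro hi (Eq.refl (c i))⟩)

theorem delta_aux {I S : Type} (k : ℕ) : ∀ (J : Set I) (F : I → Finset S), ¬ J.Countable →
    (∀ i ∈ J, (F i).card ≤ k) → ∃ (r : Finset S) (E : Set I), ¬ E.Countable ∧
      ∀ i ∈ E, ∀ j ∈ E, i ≠ j → ∀ s ∈ F i, s ∈ F j → s ∈ r := by
  classical
  induction k with
  | zero =>
    intro J F hJ h
    refine ⟨∅, J, hJ, fun i hi _ _ _ s hs _ => ?_⟩
    rwa [Finset.card_eq_zero.1 (Nat.le_zero.1 (h i hi))] at hs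
  | succ k ih =>
    intro J F hJ h
    by_cases h1 : ∃ s, ¬ {i ∈ J | s ∈ F i}.Countable
    · obtain ⟨s, hs⟩ := h1
      obtain ⟨r, E, h2, h3⟩ := ih _ (fun i => (F i).erase s) hs fun i hi => by
        have := h i hi.1
        rw [Finset.card_erase_of_mem hi.2]
        omega
      refine ⟨insert s r, E, h2, fun i hi j hj hij t h4 h5 => ?_⟩
      by_cases ht : t = s
      · simp [ht]
      · exact Finset.mem_insert_of_mem (h3 i hi j hj hij t (Finset.mem_erase.2 ⟨ht, h4⟩)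
          (Finset.mem_erase.2 ⟨ht, h5⟩))
    · push Not at h1
      obtain ⟨E, hE⟩ := zorn_subset {E : Set I | E.Pairwise fun i j => Disjoint (F i) (F j)}
        fun c hc hc' => ⟨⋃₀ c, (pairwise_sUnion hc'.directedOn).2 hc,
          fun s hs => subset_sUnion_of_mem hs⟩
      refine ⟨∅, E, fun hc => hJ ((hc.union (hc.biUnion fun i _ =>
        (F i).countable_toSet.biUnion fun s _ => h1 s)).mono fun j hj => by_contra fun hn => ?_),
        fun i hi j hj hij s h2 h3 => (Finset.disjoint_left.1 (hE.prop hi hj hij) h2 h3).elim⟩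
      have h4 : ∀ i ∈ E, Disjoint (F j) (F i) := fun i hi => Finset.disjoint_left.2 fun s h2 h3 =>
        hn (Or.inr (mem_biUnion hi (mem_biUnion h3 ⟨hj, h2⟩)))
      exact hn (Or.inl (hE.2 (pairwise_insert.2 ⟨hE.prop, fun i hi _ => ⟨h4 i hi, (h4 i hi).symm⟩⟩)
        (subset_insert _ _) (mem_insert _ _)))

theorem delta {I S : Type} [Uncountable I] (F : I → Finset S) : ∃ (r : Finset S) (E : Set I),
    ¬ E.Countable ∧ ∀ i ∈ E, ∀ j ∈ E, i ≠ j → ∀ s ∈ F i, s ∈ F j → s ∈ r := by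
  obtain ⟨k, hk⟩ := pigeon not_countable_univ fun i => (F i).card
  exact delta_aux k _ F hk fun _ h => h.2.le

variable {K : Type} [TopologicalSpace K]

theorem compact_of_cc {r : K → K → Prop} [IsWellOrder K r] (hr : ∀ x, IsClosed {y | r y x})
    {H : Set K} (hH : ∀ u : ℕ → K, (∀ n, u n ∈ H) → ∃ z ∈ H, MapClusterPt z atTop u) :
    IsCompact H := by
  classical
  have key : ∀ L : Set K, (∀ z ∈ L, ∀ y, r y z → y ∈ L) →
      (∀ z ∈ L, IsCompact (H ∩ {y | r y z})) → IsCompact (H ∩ L) := by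
    intro L hL' hL
    refine isCompact_of_finite_subcover fun {ι} U hU hc => by_contra fun hn => ?_
    have h1 : ∀ t : Finset ι, ∃ z ∈ H, (z ∉ ⋃ i ∈ t, U i) ∧ ∃ t' : Finset ι, t ⊆ t' ∧
        insert z (H ∩ {y | r y z}) ⊆ ⋃ i ∈ t', U i := fun t => by
      obtain ⟨z, hz, hz'⟩ := not_subset.1 fun h => hn ⟨t, h⟩
      obtain ⟨t', ht'⟩ := ((hL z hz.2).insert z).elim_finite_subcover U hU
        (insert_subset (hc hz) fun y hy => hc ⟨hy.1, hL' z hz.2 y hy.2⟩)
      exact ⟨z, hz.1, hz', t ∪ t', Finset.subset_union_left,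
        ht'.trans (biUnion_subset_biUnion_left Finset.subset_union_right)⟩
    choose z h1 h2 τ h3 h4 using h1
    have h5 : Monotone fun n => τ^[n] ∅ := monotone_nat_of_le_succ fun n => by
      rw [Function.iterate_succ_apply']
      exact h3 _
    obtain ⟨p, hp, hp'⟩ := hH (fun n => z (τ^[n] ∅)) fun n => h1 _
    by_cases h6 : ∀ n, r (z (τ^[n] ∅)) p
    · exact irrefl_of r p ((hr p).mem_of_mapClusterPt hp' (Eventually.of_forall h6))
    obtain ⟨n, h6⟩ := not_forall.1 h6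
    have h7 : p ∈ ⋃ i ∈ τ^[n + 1] ∅, U i := by
      rw [Function.iterate_succ_apply']
      refine h4 _ ?_
      rcases trichotomous_of r p (z (τ^[n] ∅)) with h | h | h
      exacts [Or.inr ⟨hp, h⟩, Or.inl h, absurd h h6]
    obtain ⟨m, h8, h9⟩ := ((mapClusterPt_iff_frequently.1 hp' _
      ((isOpen_biUnion fun i _ => hU i).mem_nhds h7)).and_eventually
        (eventually_ge_atTop (n + 1))).exists
    exact h2 _ (biUnion_subset_biUnion_left (h5 h9) h8)
  have h1 : ∀ x, IsCompact (H ∩ {y | r y x}) := fun x =>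
    (IsWellFounded.wf (r := r)).induction (C := fun x => IsCompact (H ∩ {y | r y x})) x
      fun x ih => key {y | r y x} (fun z hz y h => trans_of r h hz) ih
  simpa using key Set.univ (fun _ _ _ _ => trivial) fun z _ => h1 z

theorem mk_cont [CompactSpace K] [T2Space K] (h : #K ≤ 𝔠) : #C(K, ℝ) ≤ 𝔠 := by
  have h1 : ∀ p : K × K, ∃ g : C(K, ℝ), p.1 ≠ p.2 → g p.1 ≠ g p.2 := fun p => by
    by_cases hne : p.1 = p.2
    · exact ⟨0, fun h => absurd hne h⟩
    obtain ⟨v, h0, h1, -⟩ := exists_continuous_zero_one_of_isClosed (isClosed_singleton (x := p.1))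
      (isClosed_singleton (x := p.2)) (disjoint_singleton.2 hne)
    exact ⟨v, fun _ => by simp [h0 (mem_singleton _), h1 (mem_singleton _)]⟩
  choose g hg using h1
  have h2 := ContinuousMap.subalgebra_topologicalClosure_eq_top_of_separatesPoints
    (Algebra.adjoin ℝ (range g)) fun x y hxy =>
      ⟨_, ⟨g (x, y), Algebra.subset_adjoin (mem_range_self _), rfl⟩, hg (x, y) hxy⟩
  have h3 := mk_closure_le (Algebra.adjoin ℝ (range g) : Set C(K, ℝ))
  rw [← Subalgebra.topologicalClosure_coe, h2, Algebra.coe_top, mk_univ] at h3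
  refine h3.trans ((power_le_power_right ((Algebra.cardinalMk_adjoin_le ℝ _).trans
    (max_le (max_le mk_real.le (mk_range_le.trans ?_)) aleph0_le_continuum))).trans
      continuum_power_aleph0.le)
  rw [mk_prod, lift_id]
  exact mul_le_of_le aleph0_le_continuum h h

theorem mk_traces [CompactSpace K] [T2Space K] {r : K → K → Prop} [IsWellOrder K r]
    (hr : ∀ x, IsClosed {y | r y x}) {S : Set K} (hS : #S ≤ 𝔠) :
    #(range fun f : Cp K => S.domRestrict f.1) ≤ 𝔠 := by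
  choose a ha using fun u : ℕ → K => exists_clusterPt_of_compactSpace (map u atTop)
  obtain ⟨H, h1, h2, -, h3⟩ := chain (fun S : Set K => #S ≤ 𝔠)
    (fun ι f hι => small_union aleph0_le_continuum f (hι.trans aleph_one_le_continuum))
    (fun S => range fun u : ℕ → S => a fun n => u n) (fun S hS => mk_range_le.trans (by
      simpa using (power_le_power_right hS).trans continuum_power_aleph0.le)) S hS
  have := isCompact_iff_compactSpace.1 (compact_of_cc hr (H := H) fun u hu => by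
    obtain ⟨S', -, h4, -, h5⟩ := h3 _ (range_subset_iff.2 hu) (countable_range u)
    exact ⟨a u, h5 ⟨fun n => ⟨u n, h4 (mem_range_self n)⟩, rfl⟩, ha u⟩)
  refine (mk_le_mk_of_subset (t := range fun (g : C(H, ℝ)) (x : S) => g ⟨x, h2 x.2⟩) ?_).trans
    (mk_range_le.trans (mk_cont h1))
  rintro _ ⟨f, rfl⟩
  exact ⟨⟨_, f.2.comp continuous_subtype_val⟩, rfl⟩

theorem interp [CompactSpace K] [T2Space K] (w : Finset K) (v : K → ℝ) :
    ∃ f : Cp K, ∀ i ∈ w, f.1 i = v i := by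
  obtain ⟨g, hg⟩ := ContinuousMap.exists_restrict_eq w.finite_toSet.isClosed
    (⟨fun x => v x, continuous_of_discreteTopology⟩ : C((w : Set K), ℝ))
  exact ⟨⟨g, g.2⟩, fun i hi => DFunLike.congr_fun hg ⟨i, hi⟩⟩

/-- topological dependence on a set of coordinates -/
def Dep (A : Set K) (Ψ : Cp K → ℝ) : Prop :=
  ∀ (x : Cp K) (𝒰 : Ultrafilter (Cp K)),
    (∀ i ∈ A, Tendsto (fun y : Cp K => y.1 i) 𝒰 (𝓝 (x.1 i))) → Tendsto Ψ 𝒰 (𝓝 (Ψ x))

theorem exists_dep [CompactSpace K] [T2Space K] {Ψ : Cp K → ℝ} (h : Continuous Ψ) :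
    ∃ D : Set K, D.Countable ∧ Dep D Ψ := by
  classical
  rcases isEmpty_or_nonempty K with hK | ⟨⟨i₀⟩⟩
  · exact ⟨Set.univ, countable_univ, fun x 𝒰 h1 => (h.tendsto x).mono_left
      (le_nhds_cp fun i => h1 i trivial)⟩
  refine factor (e := fun f : Cp K => f.1) IsInducing.subtypeVal i₀ (fun x t u w => ?_) h
  obtain ⟨f, hf⟩ := interp (u ∪ w) fun i => if i ∈ u then t.1 i else x.1 i
  exact ⟨f, fun i hi => (hf i (by simp [hi])).trans (if_pos hi),
    fun i hi hi' => by simp [hf i (by simp [hi]), hi']⟩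

theorem metr_of {Z Y : Type} [TopologicalSpace Z] [SecondCountableTopology Z] [TopologicalSpace Y]
    [CompactSpace Y] [T2Space Y] {Φ : Z → Y} (hs : Φ.Surjective)
    (h : ∀ g : C(Y, ℝ), Continuous (g ∘ Φ)) : TopologicalSpace.MetrizableSpace Y := by
  obtain ⟨G, hG, h1⟩ := TopologicalSpace.isOpen_iUnion_countable
    (fun g : C(Y, ℝ) => {p : Z × Z | g (Φ p.1) ≠ g (Φ p.2)}) fun g =>
      isOpen_ne_fun ((h g).comp continuous_fst) ((h g).comp continuous_snd)
  have := hG.to_subtype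
  refine (Continuous.isClosedEmbedding (f := fun y (g : G) => g.1 y)
    (continuous_pi fun g => g.1.continuous) fun x y hxy => ?_).isEmbedding.metrizableSpace
  by_contra hne
  obtain ⟨v, h0, h2, -⟩ := exists_continuous_zero_one_of_isClosed (isClosed_singleton (x := x))
    (isClosed_singleton (x := y)) (disjoint_singleton.2 hne)
  obtain ⟨a, rfl⟩ := hs x
  obtain ⟨b, rfl⟩ := hs y
  obtain ⟨g, h3, h4⟩ := mem_iUnion₂.1 (h1.symm.subset (mem_iUnion.2 ⟨v, (show (a, b) ∈ {p | _} by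
    simp [h0 (mem_singleton _), h2 (mem_singleton _)])⟩))
  exact h4 (congrFun hxy ⟨g, h3⟩)

theorem boxes {A : Set K} {Ψ : Cp K → ℝ} (h : Continuous Ψ) (hn : ¬ Dep A Ψ) :
    ∃ (s : Finset K) (V : Bool → K → Set ℝ) (H : Bool → Set ℝ), (∀ b i, (V b i).Nonempty) ∧
      (∀ i, i ∉ s ∨ i ∈ A → ∃ q : ℚ, ∀ b, ↑q ∈ V b i) ∧ (∀ b, IsClosed (H b)) ∧
      Disjoint (H false) (H true) ∧ ∀ b (f : Cp K), (∀ i ∈ s, f.1 i ∈ V b i) → Ψ f ∈ H b := by
  classical
  simp only [Dep, not_forall] at hn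
  obtain ⟨f, 𝒰, h1, h2⟩ := hn
  rw [Metric.tendsto_nhds] at h2
  push Not at h2
  obtain ⟨ε, hε, h2⟩ := h2
  have h3 : ∀ x : Cp K, ∃ (w : Finset K) (δ : ℝ), 0 < δ ∧ ∀ y : Cp K,
      (∀ i ∈ w, |y.1 i - x.1 i| < δ) → Ψ y ∈ Metric.closedBall (Ψ x) (ε / 3) := fun x =>
    nhds_box (e := fun f : Cp K => f.1) IsInducing.subtypeVal
      (h.continuousAt (Metric.closedBall_mem_nhds _ (by positivity)))
  choose w δ hδ hw using h3
  obtain ⟨g, h4, h5⟩ := (Eventually.and h2 ((eventually_all_finset ((w f).filter (· ∈ A))).2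
    fun i hi => (h1 i (Finset.mem_filter.1 hi).2).eventually (Metric.ball_mem_nhds _ (hδ f)))).exists
  let c : Bool → Cp K := fun b => if b = true then g else f
  let V : Bool → K → Set ℝ := fun b i =>
    if i ∈ w (c b) then Metric.ball ((c b).1 i) (δ (c b)) else Set.univ
  have h6 : ∀ b i, IsOpen (V b i) ∧ (c b).1 i ∈ V b i := fun b i => by
    simp only [V]
    split_ifs
    exacts [⟨Metric.isOpen_ball, Metric.mem_ball_self (hδ _)⟩, ⟨isOpen_univ, trivial⟩]
  refine ⟨w f ∪ w g, V, fun b => Metric.closedBall (Ψ (c b)) (ε / 3), fun b i => ⟨_, (h6 b i).2⟩,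
    fun i hi => ?_, fun _ => Metric.isClosed_closedBall, Metric.closedBall_disjoint_closedBall ?_,
    fun b y hy => hw _ y fun i hi => ?_⟩
  · have h7 : g.1 i ∈ V false i := by
      simp only [V]
      split_ifs with h7
      · exact h5 i (Finset.mem_filter.2 ⟨h7, hi.resolve_left fun h => h (Finset.mem_union_left _ h7)⟩)
      · trivial
    obtain ⟨q, hq⟩ := Rat.denseRange_cast.exists_mem_open ((h6 false i).1.inter (h6 true i).1)
      ⟨g.1 i, h7, (h6 true i).2⟩
    exact ⟨q, fun b => by cases b; exacts [hq.1, hq.2]⟩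
  · have : dist (Ψ (c false)) (Ψ (c true)) = dist (Ψ g) (Ψ f) := dist_comm _ _
    linarith
  · have := hy i (by cases b; exacts [Finset.mem_union_left _ hi, Finset.mem_union_right _ hi])
    simp only [V, if_pos hi] at this
    exact this

theorem pos (hc : (𝔠 : Cardinal.{0}) < 2 ^ ℵ_ 1) [CompactSpace K] [T2Space K] {r : K → K → Prop} [IsWellOrder K r]
    (hr : ∀ x, IsClosed {y | r y x}) {Y : Type} [TopologicalSpace Y] [CompactSpace Y] [T2Space Y]
    {Φ : Cp K → Y} (hΦ : Continuous Φ) (hs : Φ.Surjective) :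
    TopologicalSpace.MetrizableSpace Y := by
  classical
  by_cases h0 : ∃ A : Set K, A.Countable ∧ ∀ g : C(Y, ℝ), Dep A (g ∘ Φ)
  · obtain ⟨A, hA, h0⟩ := h0
    have := hA.to_subtype
    let t : TopologicalSpace (Cp K) := .induced (fun f => A.domRestrict f.1) inferInstance
    have h1 : @IsInducing _ _ t _ fun f => A.domRestrict f.1 := @IsInducing.mk _ _ t _ _ rfl
    refine @metr_of _ _ t (@IsInducing.secondCountableTopology _ _ t _ _ _ h1) _ _ _ _ hs fun g =>
      (@continuous_iff_ultrafilter _ _ t _ _).2 fun x 𝒰 h => h0 g x 𝒰 fun i hi => ?_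
    rw [nhds_induced, ← tendsto_iff_comap] at h
    exact tendsto_pi_nhds.1 h ⟨i, hi⟩
  exfalso
  push Not at h0
  have h1 : ∀ A : Set K, ∃ (g : C(Y, ℝ)) (s : Finset K) (V : Bool → K → Set ℝ) (H : Bool → Set ℝ),
      A.Countable → (∀ b i, (V b i).Nonempty) ∧
      (∀ i, i ∉ s ∨ i ∈ A → ∃ q : ℚ, ∀ b, ↑q ∈ V b i) ∧ (∀ b, IsClosed (H b)) ∧
      Disjoint (H false) (H true) ∧
      ∀ b (f : Cp K), (∀ i ∈ s, f.1 i ∈ V b i) → g (Φ f) ∈ H b := fun A => by
    by_cases hA : A.Countable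
    · obtain ⟨g, hg⟩ := h0 A hA
      obtain ⟨s, V, H, h⟩ := boxes (g.continuous.comp hΦ) hg
      exact ⟨g, s, V, H, fun _ => h⟩
    · exact ⟨0, ∅, fun _ _ => ∅, fun _ => ∅, fun h => absurd h hA⟩
  choose g s V H h1 using h1
  obtain ⟨σ, hσ⟩ := exists_rec (T := T1) (∅ : Finset K) (fun δ σ => s (⋃ β ∈ Iio δ, σ β))
    fun δ σ σ' h => by rw [iUnion₂_congr fun β hβ => by rw [h β hβ]]
  let A : T1 → Set K := fun δ => ⋃ β ∈ Iio δ, σ β
  choose h2 h3 h4 h5 h6 using fun δ => h1 (A δ)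
    ((T1_iio δ).biUnion fun β _ => (σ β).countable_toSet)
  obtain ⟨R, E, hE, hR⟩ := delta σ
  have h7 : ¬ (E \ ⋃ i ∈ R, {δ | i ∈ σ δ ∧ i ∉ A δ}).Countable := fun h => hE
    ((h.union (R.countable_toSet.biUnion fun i _ => Subsingleton.countable
      fun a ha b hb => le_antisymm (not_lt.1 fun h => ha.2 (mem_biUnion h hb.1))
        (not_lt.1 fun h => hb.2 (mem_biUnion h ha.1)))).mono (subset_sdiff_union _ _))
  have h8 : ∀ δ (i : R), ∃ q : ℚ, δ ∈ E \ ⋃ i ∈ R, {δ | i ∈ σ δ ∧ i ∉ A δ} →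
      ∀ b, ↑q ∈ V (A δ) b i := fun δ i => by
    by_cases h : δ ∈ E \ ⋃ i ∈ R, {δ | i ∈ σ δ ∧ i ∉ A δ}
    · obtain ⟨q, hq⟩ := h3 δ i (by
        by_contra h9
        rw [not_or, not_not, ← hσ] at h9
        exact h.2 (mem_biUnion i.2 h9))
      exact ⟨q, fun _ => hq⟩
    · exact ⟨0, fun h' => absurd h' h⟩
  choose q h8 using h8
  obtain ⟨q0, h9⟩ := pigeon h7 q
  set J := {δ ∈ E \ ⋃ i ∈ R, {δ | i ∈ σ δ ∧ i ∉ A δ} | q δ = q0}
  choose c hc' using h2
  have h10 : ∀ τ : J → Bool, ∃ f : Cp K, ∀ δ : J, g (A δ) (Φ f) ∈ H (A δ) (τ δ) := fun τ => by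
    obtain ⟨y, -, hy⟩ := isCompact_univ.inter_iInter_nonempty
      (fun δ : J => g (A δ) ⁻¹' H (A δ) (τ δ))
      (fun δ => (h4 _ _).preimage (g _).continuous) fun u => by
        obtain ⟨f, hf⟩ := interp (u.biUnion fun δ => σ δ) fun i => if h : i ∈ R then q0 ⟨i, h⟩ else
          if h : ∃ δ : J, i ∈ σ δ then c h.choose (τ h.choose) i else 0
        refine ⟨Φ f, trivial, mem_iInter₂.2 fun δ hδ => h6 _ _ f fun i hi => ?_⟩
        rw [← hσ] at hi
        rw [hf i (Finset.mem_biUnion.2 ⟨δ, hδ, hi⟩)]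
        split_ifs with h11 h12
        · exact δ.2.2 ▸ h8 δ ⟨i, h11⟩ δ.2.1 _
        · have : h12.choose = δ := by_contra fun h => h11 (hR _ h12.choose.2.1.1 _ δ.2.1.1
            (fun h' => h (Subtype.ext h')) i h12.choose_spec hi)
          rw [this]
          exact hc' _ _ _
        · exact absurd ⟨δ, hi⟩ h12
    obtain ⟨f, rfl⟩ := hs y
    exact ⟨f, mem_iInter.1 hy⟩
  choose f hf using h10
  choose D hD hD' using fun δ => exists_dep ((g (A δ)).continuous.comp hΦ)
  have h11 := mk_traces hr (S := ⋃ δ, D δ) (small_union aleph0_le_continuum _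
    (mk_T1.le.trans aleph_one_le_continuum) fun δ =>
      (le_aleph0_iff_set_countable.2 (hD δ)).trans aleph0_le_continuum)
  refine hc.not_ge (le_trans ?_ ((mk_le_of_injective (f := fun τ : J → Bool =>
    (⟨_, mem_range_self (f τ)⟩ : range fun f : Cp K => (⋃ δ, D δ).domRestrict f.1))
    fun τ τ' h => funext fun δ => ?_).trans h11))
  · simp only [mk_pi, mk_fintype, Fintype.card_bool, Nat.cast_ofNat, prod_const, lift_ofNat,
      lift_uzero]
    exact power_le_power_left two_ne_zero (aleph_one_le_iff.2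
      (not_le.1 fun h => h9 (le_aleph0_iff_set_countable.1 h)))
  · have h12 : g (A δ) (Φ (f τ)) = g (A δ) (Φ (f τ')) := tendsto_nhds_unique (tendsto_pure_nhds _ _)
      (hD' δ (f τ') (pure (f τ)) fun i hi => (congrFun (congrArg Subtype.val h)
        ⟨i, mem_iUnion.2 ⟨δ, hi⟩⟩ : (f τ).1 i = (f τ').1 i) ▸ tendsto_pure_nhds _ _)
    have h13 := hf τ δ
    have h14 := h12 ▸ hf τ' δ
    revert h13 h14
    cases τ δ <;> cases τ' δ
    exacts [fun _ _ => rfl, fun a b => (disjoint_left.1 (h5 δ) a b).elim,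
      fun a b => (disjoint_left.1 (h5 δ) b a).elim, fun _ _ => rfl]

end Pool.Agent.H33.CImg1
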