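import Mathlib
import Pool.Agent.H33.CImg1

/-!
A left-separated scattered compactum whose function space maps onto an uncountable cube.
-/

open Set Filter Topology Cardinal

namespace Pool.Agent.H33.CImg2

open Pool.Agent.H33.NoEmb Pool.Agent.H33.Spl1 Pool.Agent.H33.Spl5 Pool.Agent.H33.CpCp

/-- the one point compactification of a Mrowka type space -/
def MK {D Y : Type} (_A : Y → Set D) : Type := Option (D ⊕ Y)

variable {D Y : Type} {A : Y → Set D}

/-- basic clopen sets -/
def U (A : Y → Set D) : D ⊕ Y → Set (MK A)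
  | .inl d => {some (.inl d)}
  | .inr y => insert (some (.inr y)) ((fun d => some (.inl d)) '' A y)

noncomputable instance : TopologicalSpace (MK A) :=
  TopologicalSpace.induced (fun k c => (U A c).boolIndicator k) inferInstance

theorem ind : IsInducing fun (k : MK A) c => (U A c).boolIndicator k := ⟨rfl⟩

theorem clopen_U (c : D ⊕ Y) : IsClopen (U A c) :=
  (continuous_boolIndicator_iff_isClopen _).1 ((continuous_apply c).comp ind.continuous)

theorem le_nhds {𝒰 : Ultrafilter (MK A)} {k : MK A} (h : ∀ c, U A c ∈ 𝒰 ↔ k ∈ U A c) :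
    ↑𝒰 ≤ 𝓝 k := by
  rw [ind.nhds_eq_comap, ← tendsto_iff_comap]
  refine tendsto_pi_nhds.2 fun c => tendsto_const_nhds.congr' ?_
  by_cases hk : k ∈ U A c
  · exact mem_of_superset ((h c).2 hk) fun y hy =>
      ((mem_iff_boolIndicator _ _).1 hk).trans ((mem_iff_boolIndicator _ _).1 hy).symm
  · exact mem_of_superset (Ultrafilter.compl_mem_iff_notMem.2 fun h' => hk ((h c).1 h')) fun y hy =>
      ((notMem_iff_boolIndicator _ _).1 hk).trans ((notMem_iff_boolIndicator _ _).1 hy).symm

theorem self_U (c : D ⊕ Y) : some c ∈ U A c := by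
  cases c
  exacts [rfl, Or.inl rfl]

theorem none_U (c : D ⊕ Y) : (none : MK A) ∉ U A c := by
  cases c
  · exact fun h => by cases h
  · rintro (h | ⟨_, -, h⟩) <;> cases h

theorem top_U {y : Y} {c : D ⊕ Y} (h : (some (.inr y) : MK A) ∈ U A c) : c = .inr y := by
  cases c with
  | inl d => cases h
  | inr y' =>
    rcases h with h | ⟨_, -, h⟩ <;> cases h
    rfl

instance : T2Space (MK A) := by
  refine IsEmbedding.t2Space ⟨ind, fun k k' h => ?_⟩
  have h1 : ∀ c, k ∈ U A c ↔ k' ∈ U A c := fun c => by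
    rw [mem_iff_boolIndicator, mem_iff_boolIndicator, congrFun h c]
  rcases k with _ | d | y
  · rcases k' with _ | c
    exacts [rfl, absurd ((h1 c).2 (self_U c)) (none_U c)]
  · exact ((h1 (.inl d)).1 rfl).symm
  · rcases k' with _ | d | y'
    · exact absurd ((h1 _).1 (self_U _)) (none_U _)
    · exact (h1 (.inl d)).2 rfl
    · exact congrArg some (top_U ((h1 _).1 (self_U _)))

theorem to_top (hA : ∀ y y', y ≠ y' → (A y ∩ A y').Finite) {𝒰 : Ultrafilter (MK A)}
    (h : ↑𝒰 ≤ (cofinite : Filter (MK A))) {y : Y} (hy : U A (.inr y) ∈ 𝒰) :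
    𝒰.toFilter ≤ @nhds (MK A) _ (some (.inr y)) := by
  have h1 : ∀ s : Set (MK A), s.Finite → s ∉ 𝒰 := fun s hs =>
    Ultrafilter.compl_mem_iff_notMem.1 (h hs.compl_mem_cofinite)
  refine le_nhds fun c => ⟨fun hc => ?_, fun hc => top_U hc ▸ hy⟩
  rcases c with d | y'
  · exact absurd hc (h1 _ (finite_singleton _))
  · by_contra hn
    refine h1 _ ((hA y y' fun e => hn (e ▸ self_U _)).image fun d => some (.inl d))
      (mem_of_superset (inter_mem hy hc) ?_)
    rintro _ ⟨rfl | ⟨d, h2, rfl⟩, h3⟩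
    · exact absurd h3 hn
    · rcases h3 with h3 | ⟨_, h3, h4⟩ <;> cases ‹_ = _›
      exact ⟨d, ⟨h2, h3⟩, rfl⟩

theorem compact (hA : ∀ y y', y ≠ y' → (A y ∩ A y').Finite) : CompactSpace (MK A) := by
  refine ⟨isCompact_iff_ultrafilter_le_nhds'.2 fun 𝒰 _ => ?_⟩
  rcases 𝒰.le_cofinite_or_eq_pure with h | ⟨k, rfl⟩
  · by_cases h1 : ∃ y, U A (.inr y) ∈ 𝒰
    · exact ⟨_, trivial, to_top hA h h1.choose_spec⟩
    · refine ⟨none, trivial, le_nhds fun c => iff_of_false (fun hc => ?_) (none_U c)⟩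
      rcases c with d | y
      exacts [Ultrafilter.compl_mem_iff_notMem.1 (h (finite_singleton _).compl_mem_cofinite) hc,
        h1 ⟨y, hc⟩]
  · exact ⟨k, trivial, pure_le_nhds k⟩

theorem scattered (S : Set (MK A)) (hS : S.Nonempty) :
    ∃ x ∈ S, ∃ O : Set (MK A), IsOpen O ∧ O ∩ S = {x} := by
  by_cases h1 : ∃ d, some (.inl d) ∈ S
  · obtain ⟨d, hd⟩ := h1
    exact ⟨_, hd, _, (clopen_U (.inl d)).2, inter_eq_left.2 (singleton_subset_iff.2 hd)⟩
  by_cases h2 : ∃ y, some (.inr y) ∈ S
  · obtain ⟨y, hy⟩ := h2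
    refine ⟨_, hy, _, (clopen_U (.inr y)).2, Subset.antisymm ?_
      (singleton_subset_iff.2 ⟨self_U _, hy⟩)⟩
    rintro _ ⟨rfl | ⟨d, -, rfl⟩, h⟩
    exacts [rfl, absurd ⟨d, h⟩ h1]
  · obtain ⟨x, hx⟩ := hS
    have h3 : ∀ x ∈ S, x = none := by
      rintro (_ | d | y) h
      exacts [rfl, absurd ⟨d, h⟩ h1, absurd ⟨y, h⟩ h2]
    exact ⟨x, hx, Set.univ, isOpen_univ, (univ_inter S).trans (eq_singleton_iff_unique_mem.2
      ⟨hx, fun y hy => (h3 y hy).trans (h3 x hx).symm⟩)⟩

/-- level -/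
def lev : MK A → ℕ
  | none => 0
  | some (.inr _) => 1
  | some (.inl _) => 2

theorem leftsep : ∃ r : MK A → MK A → Prop, IsWellOrder (MK A) r ∧ ∀ x, IsClosed {y | r y x} := by
  let e : MK A ↪ ℕ × MK A := ⟨fun k => (lev k, k), fun _ _ h => congrArg Prod.snd h⟩
  have hw := (RelEmbedding.preimage e (Prod.Lex (· < ·) WellOrderingRel)).isWellOrder
  refine ⟨_, hw, fun x => isClosed_of_closure_subset fun z hz => ?_⟩
  have h1 : ∀ k, lev z < lev k ∨ z = k → k ∈ {y | (e ⁻¹'o Prod.Lex (· < ·) WellOrderingRel) y x} →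
      z ∈ {y | (e ⁻¹'o Prod.Lex (· < ·) WellOrderingRel) y x} := by
    rintro k (h | rfl) hk
    exacts [trans_of (e ⁻¹'o Prod.Lex (· < ·) WellOrderingRel) (Prod.Lex.left _ _ h) hk, hk]
  rcases z with _ | c
  · obtain ⟨k, -, hk⟩ := mem_closure_iff.1 hz _ isOpen_univ trivial
    refine h1 k ?_ hk
    rcases k with _ | d | y
    exacts [Or.inr rfl, Or.inl two_pos, Or.inl one_pos]
  · obtain ⟨k, h2, hk⟩ := mem_closure_iff.1 hz _ (clopen_U c).2 (self_U c)
    refine h1 k ?_ hk
    rcases c with d | y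
    · exact Or.inr h2.symm
    · rcases h2 with rfl | ⟨d, -, rfl⟩
      exacts [Or.inr rfl, Or.inl one_lt_two]

open Classical in
/-- characteristic functions -/
noncomputable def chi (y : Y) : Cp (MK A) :=
  ⟨fun k => if k ∈ U A (.inr y) then 1 else 0, continuous_if (by
    rw [show {k | k ∈ U A (.inr y)} = U A (.inr y) from rfl, (clopen_U _).frontier_eq]
    simp) continuousOn_const continuousOn_const⟩

section

variable {J : Type} (a : (J → Bool) → ℕ → Bool) (G : (J → Bool) → J × ℕ → ℕ)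

/-- the almost disjoint family -/
def fam (y : J → Bool) : Set ((ℕ × Finset ℕ) ⊕ (J × ℕ × ℕ × Bool)) :=
  range (fun n => .inl (n, (Finset.range n).filter fun i => a y i = true)) ∪
    range fun p : J × ℕ => .inr (p.1, p.2, G y p, y p.1)

variable {a G}

theorem fam_ad (ha : a.Injective) (hG : ∀ y y', y ≠ y' → {p | G y p = G y' p}.Finite) :
    ∀ y y', y ≠ y' → (fam a G y ∩ fam a G y').Finite := by
  intro y y' hne
  obtain ⟨j, hj⟩ := Function.ne_iff.1 (ha.ne hne)
  refine (((finite_Iic j).image fun n => .inl (n, (Finset.range n).filter fun i => a y i = true)).union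
    ((hG y y' hne).image fun p => .inr (p.1, p.2, G y p, y p.1))).subset ?_
  rintro _ ⟨⟨n, rfl⟩ | ⟨p, rfl⟩, ⟨m, h⟩ | ⟨q, h⟩⟩
  · obtain ⟨rfl, h⟩ := Prod.mk.inj (Sum.inl.inj h)
    refine Or.inl (mem_image_of_mem _ (mem_Iic.2 (not_lt.1 fun hm => hj ?_)))
    have := Finset.ext_iff.1 h j
    simp only [Finset.mem_filter, Finset.mem_range, hm, true_and] at this
    exact Bool.eq_iff_iff.2 this.symm
  · cases h
  · cases h
  · simp only [Sum.inr.injEq, Prod.mk.injEq] at h
    obtain rfl : q = p := Prod.ext h.1 h.2.1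
    exact Or.inr (mem_image_of_mem _ h.2.2.1.symm)

theorem digit (hA : ∀ y y', y ≠ y' → (fam a G y ∩ fam a G y').Finite) (j : J) :
    ∃ Φ : Cp (MK (fam a G)) → ℝ, Continuous Φ ∧
      ∀ y, Φ (chi y) = if y j = true then 1 else 0 := by
  have := compact hA
  let i : Option ((ℕ × Finset ℕ) ⊕ (ℕ × ℕ × Bool)) → MK (fam a G) :=
    Option.map fun c => .inl (c.map id fun p => (j, p))
  let π : Cp (MK (fam a G)) → _ → ℝ := fun f => f.1 ∘ i
  have hπ : Continuous π := continuous_pi fun _ => cev _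
  have hle : (hyperfilter ℕ : Filter ℕ) ≤ cofinite := hyperfilter_le_cofinite
  have key : ∀ f : Cp (MK (fam a G)), ∃ b, ∀ Z : Set (J → Bool),
      π f ∈ closure ((fun y => π (chi y)) '' Z) → ∃ y ∈ Z, y j = b := by
    intro f
    by_cases h0 : ∃ y, f.1 (some (.inr y)) = 1
    · obtain ⟨y, hy⟩ := h0
      refine ⟨y j, fun Z hZ => ?_⟩
      obtain ⟨n, hn⟩ := (((f.2.tendsto _).comp (to_top hA (y := y) (𝒰 := (hyperfilter ℕ).map
        fun n => some (.inl (.inr (j, n, G y (j, n), y j))))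
        ((Function.Injective.tendsto_cofinite fun m n h => congrArg (·.2.1)
          (Sum.inr.inj (Sum.inl.inj (Option.some.inj h)))).mono_left hle)
        (Ultrafilter.mem_map.2 (univ_mem' fun n => Or.inr ⟨_, Or.inr ⟨(j, n), rfl⟩, rfl⟩)))).eventually
        (lt_mem_nhds (hy ▸ zero_lt_one))).exists
      obtain ⟨_, h1, y', h2, rfl⟩ := mem_closure_iff.1 hZ
        {v | 0 < v (some (.inr (n, G y (j, n), y j)))}
        (isOpen_lt continuous_const (continuous_apply _)) hn
      refine ⟨y', h2, ?_⟩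
      have h3 : i (some (.inr (n, G y (j, n), y j))) ∈ U (fam a G) (.inr y') := by
        by_contra h
        have h4 : 0 < (chi (A := fam a G) y').1 (i (some (.inr (n, G y (j, n), y j)))) := h1
        exact (h4.trans_eq (if_neg h)).false
      rcases h3 with h3 | ⟨_, ⟨m, rfl⟩ | ⟨p, rfl⟩, h3⟩
      · cases h3
      · cases h3
      · have h4 := Sum.inr.inj (Sum.inl.inj (Option.some.inj h3))
        simp only [Prod.mk.injEq] at h4
        exact h4.1 ▸ h4.2.2.2
    refine ⟨true, fun Z hZ => (h0 ?_).elim⟩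
    have h1 : f.1 none = 0 := closure_minimal
        (t := {v : Option ((ℕ × Finset ℕ) ⊕ (ℕ × ℕ × Bool)) → ℝ | v none = 0}) (by
      rintro _ ⟨y, -, rfl⟩
      exact if_neg (none_U _)) (isClosed_eq (continuous_apply _) continuous_const) hZ
    have h2 : ∀ n, ∃ t, f.1 (some (.inl (.inl (n, t)))) = 1 := fun n => by
      obtain ⟨t, -, ht⟩ := mem_iUnion₂.1 (closure_minimal
        (t := ⋃ t ∈ (Finset.range n).powerset, {v | v (some (.inl (n, t))) = 1}) (by
          rintro _ ⟨y, -, rfl⟩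
          exact mem_biUnion (Finset.mem_powerset.2 (Finset.filter_subset _ _))
            (if_pos (Or.inr ⟨_, Or.inl ⟨n, rfl⟩, rfl⟩)))
        (isClosed_biUnion_finset fun t _ => isClosed_eq (continuous_apply _) continuous_const) hZ)
      exact ⟨t, ht⟩
    choose t ht using h2
    obtain ⟨z, -, hz⟩ := (isCompact_univ (X := MK (fam a G))).ultrafilter_le_nhds' ((hyperfilter ℕ).map
      fun n => some (.inl (.inl (n, t n)))) univ_mem
    have h3 : f.1 z = 1 := tendsto_nhds_unique ((f.2.tendsto z).comp hz)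
      (tendsto_const_nhds.congr fun n => (ht n).symm)
    rcases z with _ | d | y
    · simp [h1] at h3
    · exact absurd (hz ((clopen_U (.inl d)).2.mem_nhds rfl)) (Ultrafilter.compl_mem_iff_notMem.1
        ((Function.Injective.tendsto_cofinite fun m n h => congrArg (·.1)
          (Sum.inl.inj (Sum.inl.inj (Option.some.inj h)))).mono_left hle
          (finite_singleton _).compl_mem_cofinite))
    · exact ⟨y, h3⟩
  obtain ⟨u, h0, h1, -⟩ := exists_continuous_zero_one_of_isClosed (X := range π)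
    (s := Subtype.val ⁻¹' closure ((fun y => π (chi y)) '' {y | y j = false}))
    (t := Subtype.val ⁻¹' closure ((fun y => π (chi y)) '' {y | y j = true}))
    (isClosed_closure.preimage continuous_subtype_val)
    (isClosed_closure.preimage continuous_subtype_val) (disjoint_left.2 (by
      rintro ⟨_, f, rfl⟩ h0 h1
      obtain ⟨b, hb⟩ := key f
      obtain ⟨y, h2, h3⟩ := hb _ h0
      obtain ⟨y', h4, h5⟩ := hb _ h1
      exact Bool.false_ne_true (h2.symm.trans (h3.trans (h5.symm.trans h4)))))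
  refine ⟨fun f => u ⟨π f, f, rfl⟩, u.continuous.comp (hπ.subtype_mk _), fun y => ?_⟩
  split_ifs with h
  · exact h1 (subset_closure ⟨y, h, rfl⟩)
  · exact h0 (subset_closure ⟨y, by simpa using h, rfl⟩)

end

theorem onto {Z I : Type} [TopologicalSpace Z] (p : (I × ℕ → Bool) → Z)
    (h : ∀ j, ∃ Φ : Z → ℝ, Continuous Φ ∧ ∀ y, Φ (p y) = if y j = true then 1 else 0) :
    ∃ Ψ : Z → I → unitInterval, Continuous Ψ ∧ Ψ.Surjective := by
  choose Φ h1 h2 using h
  obtain ⟨ψ, hψ⟩ := ContinuousMap.exists_extension' (Continuous.isClosedEmbedding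
    (f := fun (x : ℕ → Bool) n => if x n = true then (1 : ℝ) else 0) (continuous_pi fun n =>
      (continuous_of_discreteTopology (f := fun b : Bool => if b = true then (1 : ℝ) else 0)).comp
        (continuous_apply n)) fun x y h => funext fun n => by
      have := congrFun h n
      beta_reduce at this
      revert this
      cases x n <;> cases y n <;> simp)
    (⟨_, continuous_subtype_val.comp Real.fromBinary_continuous⟩ : C(ℕ → Bool, ℝ))
  refine ⟨fun z i => projIcc 0 1 zero_le_one (ψ fun n => Φ (i, n) z), continuous_pi fun i =>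
    continuous_projIcc.comp (ψ.continuous.comp (continuous_pi fun n => h1 _)), fun t => ?_⟩
  choose x hx using fun i => Real.fromBinary_surjective (t i)
  refine ⟨p fun q => x q.1 q.2, funext fun i => ?_⟩
  simp only [h2]
  rw [show ψ _ = t i from (congrFun hψ (x i)).trans (congrArg Subtype.val (hx i)), projIcc_val]

theorem not_metr : ¬ TopologicalSpace.MetrizableSpace (T1 → unitInterval) := by
  classical
  intro h
  let := TopologicalSpace.metrizableSpaceMetric (T1 → unitInterval)
  have h1 : Tendsto (fun δ : T1 => (Pi.single δ 1 : T1 → unitInterval)) cofinite (𝓝 0) :=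
    tendsto_pi_nhds.2 fun i => tendsto_const_nhds.congr'
      ((eventually_cofinite_ne i).mono fun δ hδ => by simp [Pi.single_eq_of_ne' hδ])
  refine not_countable_univ ((countable_iUnion fun n : ℕ => (Metric.tendsto_nhds.1 h1 _
    (Nat.one_div_pos_of_nat (n := n))).countable).mono fun δ _ => ?_)
  obtain ⟨n, hn⟩ := exists_nat_one_div_lt (dist_pos.2
    (show (Pi.single δ 1 : T1 → unitInterval) ≠ 0 from fun h => by simpa using congrFun h δ))
  exact mem_iUnion.2 ⟨n, hn.not_gt⟩

theorem neg (g : (T1 → Bool) → T1 → ℕ) (hg : ∀ y y', y ≠ y' → {δ | g y δ = g y' δ}.Finite) :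
    ∃ (K : Type) (_ : TopologicalSpace K), CompactSpace K ∧ T2Space K ∧
      (∀ S : Set K, S.Nonempty → ∃ x ∈ S, ∃ O : Set K, IsOpen O ∧ O ∩ S = {x}) ∧
      (∃ r : K → K → Prop, IsWellOrder K r ∧ ∀ x, IsClosed {y | r y x}) ∧
      ∃ Ψ : Cp K → T1 → unitInterval, Continuous Ψ ∧ Ψ.Surjective := by
  classical
  obtain ⟨e⟩ : Nonempty (T1 × ℕ ≃ T1) := by
    rw [← Cardinal.eq]
    simp
  let G : (T1 × ℕ → Bool) → (T1 × ℕ) × ℕ → ℕ := fun y p => g (y ∘ e.symm) (e (e p.1, p.2))
  have hG : ∀ y y', y ≠ y' → {p | G y p = G y' p}.Finite := fun y y' h =>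
    (hg _ _ fun h' => h (e.symm.surjective.injective_comp_right h')).preimage
      (f := fun p : (T1 × ℕ) × ℕ => e (e p.1, p.2)) fun p _ q _ h => by
        simpa [Prod.ext_iff] using h
  obtain ⟨j⟩ : Nonempty (T1 × ℕ) := inferInstance
  have hA := fam_ad (a := fun y i => decide (G y (j, i.unpair.1) = i.unpair.2)) (fun y y' h => by
    by_contra hne
    refine infinite_univ (((hG y y' hne).preimage (f := fun n : ℕ => (j, n))
      fun _ _ _ _ h => congrArg Prod.snd h).subset fun n _ => ?_)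
    simpa [eq_comm] using congrFun h (Nat.pair n (G y (j, n)))) hG
  exact ⟨_, inferInstance, compact hA, inferInstance, scattered, leftsep, onto chi (digit hA)⟩

end Pool.Agent.H33.CImg2
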