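import Mathlib
import Pool.Agent.H33.CImg2

/-!
The compactum of `CImg2` has cardinality at most continuum.
-/

open Set Filter Topology Cardinal

namespace Pool.Agent.H33.CImg3

open Pool.Agent.H33.NoEmb Pool.Agent.H33.Spl1 Pool.Agent.H33.Spl5 Pool.Agent.H33.CpCp
  Pool.Agent.H33.CImg2

theorem neg (g : (T1 → Bool) → T1 → ℕ) (hg : ∀ y y', y ≠ y' → {δ | g y δ = g y' δ}.Finite) :
    ∃ (K : Type) (_ : TopologicalSpace K), CompactSpace K ∧ T2Space K ∧ #K ≤ 𝔠 ∧
      ∃ Ψ : Cp K → T1 → unitInterval, Continuous Ψ ∧ Ψ.Surjective := by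
  classical
  obtain ⟨e⟩ : Nonempty (T1 × ℕ ≃ T1) := by
    rw [← Cardinal.eq]
    simp
  let G : (T1 × ℕ → Bool) → (T1 × ℕ) × ℕ → ℕ := fun y p => g (y ∘ e.symm) (e (e p.1, p.2))
  have hG : ∀ y y', y ≠ y' → {p | G y p = G y' p}.Finite := fun y y' h =>
    (hg _ _ fun h' => h (e.symm.surjective.injective_comp_right h')).preimage
      (f := fun p : (T1 × ℕ) × ℕ => e (e p.1, p.2)) fun p _ q _ h => by
        simpa [Prod.ext_iff] using h
  obtain ⟨j⟩ : Nonempty (T1 × ℕ) := inferInstance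
  have ha : Function.Injective fun (y : T1 × ℕ → Bool) (i : ℕ) =>
      decide (G y (j, i.unpair.1) = i.unpair.2) := fun y y' h => by
    by_contra hne
    refine infinite_univ (((hG y y' hne).preimage (f := fun n : ℕ => (j, n))
      fun _ _ _ _ h => congrArg Prod.snd h).subset fun n _ => ?_)
    simpa [eq_comm] using congrFun h (Nat.pair n (G y (j, n)))
  have hA := fam_ad ha hG
  refine ⟨_, inferInstance, compact hA, inferInstance, ?_, onto chi (digit hA)⟩
  have h1 : #(T1 × ℕ → Bool) ≤ 𝔠 := (mk_le_of_injective ha).trans (by simp)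
  have h2 : #((T1 × ℕ) × ℕ × ℕ × Bool) ≤ 𝔠 := by
    have := aleph_one_le_continuum.{0}
    simpa using this
  have h3 := aleph0_le_continuum.{0}
  unfold MK
  rw [mk_option, mk_sum, mk_sum, lift_id, lift_id, lift_id, lift_id]
  exact add_le_of_le h3 (add_le_of_le h3 (add_le_of_le h3 (mk_le_aleph0.trans h3) h2) h1)
    (one_le_aleph0.trans h3)

end Pool.Agent.H33.CImg3
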