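import Mathlib

set_option autoImplicit false

namespace Pool.Agent.H33.CantorGlue
open Cardinal Set

abbrev Sq := ℕ → Bool

noncomputable def E (x : Sq) : ℝ := cantorFunction (1 / 3) x

lemma E_inj : Function.Injective E := cantorFunction_injective (by norm_num) (by norm_num)

lemma aux_le (x : Sq) (n : ℕ) : cantorFunctionAux (1 / 3) x n ≤ (1 / 3) ^ n := by
  unfold cantorFunctionAux
  cases x n <;> simp

lemma E_nonneg (x : Sq) : 0 ≤ E x :=
  tsum_nonneg (fun _ => cantorFunctionAux_nonneg (by norm_num))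

lemma E_le (x : Sq) : E x ≤ 3 / 2 := by
  have h := (summable_cantor_function x (c := 1 / 3) (by norm_num) (by norm_num)).tsum_le_tsum
    (aux_le x) (summable_geometric_of_lt_one (by norm_num) (by norm_num))
  rw [tsum_geometric_of_lt_one (by norm_num) (by norm_num)] at h
  unfold E cantorFunction
  linarith

lemma E_cont : Continuous E := by
  refine continuous_tsum (u := fun n => (1 / 3 : ℝ) ^ n) (fun n => ?_)
    (summable_geometric_of_lt_one (by norm_num) (by norm_num)) (fun n x => ?_)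
  · exact (continuous_of_discreteTopology (f := fun b : Bool => cond b ((1 / 3 : ℝ) ^ n) 0)).comp
      (continuous_apply n)
  · rw [Real.norm_eq_abs, abs_of_nonneg (cantorFunctionAux_nonneg (by norm_num))]
    exact aux_le x n

lemma E_update (x : Sq) (j : ℕ) :
    E (Function.update x j true) - E (Function.update x j false) = (1 / 3) ^ j := by
  unfold E cantorFunction
  rw [← Summable.tsum_sub (summable_cantor_function _ (by norm_num) (by norm_num))
    (summable_cantor_function _ (by norm_num) (by norm_num)), tsum_eq_single j]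
  · simp [cantorFunctionAux]
  · intro b hb
    simp [cantorFunctionAux, Function.update_of_ne hb]

def Agree (n : ℕ) (x y : Sq) : Prop := ∀ i < n, x i = y i

lemma lt_stable {n : ℕ} {u v u' v' : Sq} (h : ¬ Agree n u v) (hu : Agree n u u')
    (hv : Agree n v v') (hlt : E u < E v) : E u' < E v' := by
  classical
  have hex : ∃ i, u i ≠ v i := by
    by_contra h'
    push Not at h'
    exact h (fun i _ => h' i)
  have hp := Nat.find_spec hex
  have hmin : ∀ i < Nat.find hex, u i = v i := fun i hi => by simpa using Nat.find_min hex hi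
  have hn : Nat.find hex < n := by
    by_contra h'
    exact h (fun i hi => hmin i (by omega))
  cases h1 : u (Nat.find hex) <;> cases h2 : v (Nat.find hex)
  · simp [h1, h2] at hp
  · refine increasing_cantorFunction (by norm_num) (by norm_num) (n := Nat.find hex)
      (fun k hk => ?_) ?_ ?_
    · rw [← hu k (by omega), ← hv k (by omega), hmin k hk]
    · rw [← hu _ hn, h1]
    · rw [← hv _ hn, h2]
  · exact absurd (increasing_cantorFunction (c := 1 / 3) (by norm_num) (by norm_num)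
      (fun k hk => (hmin k hk).symm) h2 h1) (not_lt.2 hlt.le)
  · simp [h1, h2] at hp

noncomputable def e (s : Bool) (x : Sq) : ℝ := (E x + cond s 2 0) / 4

lemma e_mem (s : Bool) (x : Sq) : e s x ∈ Icc (0 : ℝ) 1 := by
  have := E_nonneg x
  have := E_le x
  cases s <;> simp only [e, cond_true, cond_false] <;> constructor <;> linarith

def Cyl (s : Bool) (n : ℕ) (z : Sq) (a b : ℝ) : Prop := ∀ z', Agree n z z' → e s z' ∈ Icc a b

lemma mid {s : Bool} {n : ℕ} {u v w : Sq} {a b : ℝ} (h1 : ¬ Agree n u v) (h2 : ¬ Agree n v w)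
    (l1 : E u < E v) (l2 : E v < E w) (hu : e s u ∈ Icc a b) (hw : e s w ∈ Icc a b) :
    Cyl s n v a b := by
  intro z hz
  have k1 := lt_stable h1 (fun _ _ => rfl) hz l1
  have k2 := lt_stable h2 hz (fun _ _ => rfl) l2
  obtain ⟨p1, -⟩ := hu
  obtain ⟨-, p2⟩ := hw
  unfold e at *
  constructor <;> linarith

lemma nsymm {n : ℕ} {u v : Sq} (h : ¬ Agree n u v) : ¬ Agree n v u :=
  fun h' => h (fun i hi => (h' i hi).symm)

lemma ord {n : ℕ} {u v : Sq} (h : ¬ Agree n u v) : E u < E v ∨ E v < E u :=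
  lt_or_gt_of_ne (fun h' => h (by rw [E_inj h']; exact fun _ _ => rfl))

lemma three {s : Bool} {n : ℕ} {u v w : Sq} {a b : ℝ} (h1 : ¬ Agree n u v) (h2 : ¬ Agree n v w)
    (h3 : ¬ Agree n u w) (hu : e s u ∈ Icc a b) (hv : e s v ∈ Icc a b) (hw : e s w ∈ Icc a b) :
    ∃ z, Cyl s n z a b := by
  rcases ord h1 with l1 | l1 <;> rcases ord h2 with l2 | l2 <;> rcases ord h3 with l3 | l3
  · exact ⟨_, mid h1 h2 l1 l2 hu hw⟩
  · exact ⟨_, mid h1 h2 l1 l2 hu hw⟩
  · exact ⟨_, mid h3 (nsymm h2) l3 l2 hu hv⟩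
  · exact ⟨_, mid (nsymm h3) h1 l3 l1 hw hv⟩
  · exact ⟨_, mid (nsymm h1) h3 l1 l3 hv hw⟩
  · exact ⟨_, mid h2 (nsymm h3) l2 l3 hv hu⟩
  · exact ⟨_, mid (nsymm h2) (nsymm h1) l2 l1 hw hu⟩
  · exact ⟨_, mid (nsymm h2) (nsymm h1) l2 l1 hw hu⟩

lemma pigeon (s : Bool) (n m : ℕ) (t : ℕ → ℝ) (y : Fin (2 * m + 1) → Sq)
    (hy : ∀ i j, i ≠ j → ¬ Agree n (y i) (y j)) (J : Set ℕ) (hJ : J.encard ≤ m)
    (h : ∀ i, ∃ j ∈ J, e s (y i) ∈ Icc (t j) (t (j + 1))) :
    ∃ j ∈ J, ∃ z, Cyl s n z (t j) (t (j + 1)) := by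
  classical
  have hfin : J.Finite := Set.finite_of_encard_le_coe hJ
  choose g hg1 hg2 using h
  have hc : hfin.toFinset.card ≤ m := by
    rw [hfin.encard_eq_coe_toFinset_card] at hJ
    exact_mod_cast hJ
  obtain ⟨j, hj, hlt⟩ := Finset.exists_lt_card_fiber_of_mul_lt_card_of_maps_to
    (s := Finset.univ) (t := hfin.toFinset) (f := g) (n := 2)
    (fun a _ => hfin.mem_toFinset.2 (hg1 a)) (by simp; omega)
  obtain ⟨a, b, c, ha, hb, hc, n1, n2, n3⟩ := Finset.two_lt_card_iff.1 hlt
  simp only [Finset.mem_filter, Finset.mem_univ, true_and] at ha hb hc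
  exact ⟨j, hfin.mem_toFinset.1 hj,
    three (hy a b n1) (hy b c n3) (hy a c n2) (ha ▸ hg2 a) (hb ▸ hg2 b) (hc ▸ hg2 c)⟩

lemma cover (t : ℕ → ℝ) (x : ℝ) (h0 : t 0 ≤ x) (k : ℕ) (hk : x ≤ t (k + 1)) :
    ∃ j < k + 1, x ∈ Icc (t j) (t (j + 1)) := by
  induction k with
  | zero => exact ⟨0, by omega, h0, hk⟩
  | succ k ih =>
    rcases le_total x (t (k + 1)) with h | h
    · obtain ⟨j, hj, h'⟩ := ih h
      exact ⟨j, by omega, h'⟩
    · exact ⟨k + 1, by omega, h, hk⟩

def τ (p : ℕ) : ℕ :=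
  if p % 3 = 0 then 3 * (p / 3 / 2) + 1 + p / 3 % 2 else if p % 3 = 1 then 6 * (p / 3)
  else 6 * (p / 3) + 3

lemma ττ (p : ℕ) : τ (τ p) = p := by
  unfold τ
  split_ifs <;> omega

lemma τ1 (q : ℕ) : τ (3 * q + 1) = 6 * q := by
  unfold τ
  split_ifs <;> omega

lemma comp_ττ (x : Sq) : (x ∘ τ) ∘ τ = x := by
  funext p
  simp [ττ]

lemma not_fin_lin {Y : Type} (f : ℝ → Y) (hf : ∀ s x, f (e s x) = f (e (!s) (x ∘ τ))) :
    ¬ ∃ m : ℕ, 0 < m ∧ ∀ ε : ℝ, 0 < ε →
      ∃ (k : ℕ) (t : ℕ → ℝ), 0 < k ∧ t 0 = 0 ∧ t k = 1 ∧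
        (∀ i, i < k → t i < t (i + 1) ∧ t (i + 1) - t i < ε) ∧
        ∀ i, i < k →
          {j : ℕ | j < k ∧
            (f '' Set.Icc (t i) (t (i + 1)) ∩ f '' Set.Icc (t j) (t (j + 1))).Nonempty}.encard
            ≤ (m : ℕ∞) := by
  classical
  rintro ⟨m, -, h⟩
  obtain ⟨k, t, hk, t0, t1, hstep, hm⟩ := h ((1 / 3) ^ (12 * m + 20) / 4) (by positivity)
  have cov : ∀ s x, ∃ j < k, e s x ∈ Icc (t j) (t (j + 1)) := by
    intro s x
    obtain ⟨k', rfl⟩ : ∃ k', k = k' + 1 := ⟨k - 1, by omega⟩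
    exact cover t _ (t0 ▸ (e_mem s x).1) k' (t1 ▸ (e_mem s x).2)
  have hex : ∃ n, ∃ s, ∃ i < k, ∃ z, Cyl s n z (t i) (t (i + 1)) := by
    obtain ⟨j, hj, z, hz⟩ := pigeon false (2 * k + 1) k t (fun i p => decide (p = i.val))
      (fun i j hij hag => by
        have := hag i.val i.2
        simp only [decide_true, true_eq_decide_iff] at this
        exact hij (Fin.ext this))
      (Set.Iio k) (by rw [← Finset.coe_range, Set.encard_coe_eq_coe_finsetCard]; simp)
      (fun i => cov _ _)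
    exact ⟨_, false, j, hj, z, hz⟩
  obtain ⟨s, i, hi, z, hz⟩ := Nat.find_spec hex
  have hbig : 12 * m + 20 < Nat.find hex := by
    by_contra hle
    have a1 := hz (Function.update z (12 * m + 20) true)
      (fun p hp => (Function.update_of_ne (by omega) _ _).symm)
    have a2 := hz (Function.update z (12 * m + 20) false)
      (fun p hp => (Function.update_of_ne (by omega) _ _).symm)
    have a3 := E_update z (12 * m + 20)
    have a4 := (hstep i hi).2
    obtain ⟨-, a1⟩ := a1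
    obtain ⟨a2, -⟩ := a2
    unfold e at a1 a2
    linarith
  obtain ⟨n, hn⟩ : ∃ n, Nat.find hex = n + 1 := ⟨Nat.find hex - 1, by omega⟩
  rw [hn] at hz hbig
  let zq : Fin (2 * m + 1) → Sq := fun q p =>
    if p < n + 1 then z p else decide (p = 6 * (n / 6 + 1 + q.val))
  obtain ⟨j, hj, w, hw⟩ := pigeon (!s) n m t (fun q => zq q ∘ τ) (fun a b hab hag => by
      have ha := a.2
      have := hag (3 * (n / 6 + 1 + a.val) + 1) (by omega)
      simp only [Function.comp, τ1, zq] at this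
      rw [if_neg (by omega), if_neg (by omega)] at this
      simp only [decide_true, true_eq_decide_iff] at this
      exact hab (Fin.ext (by omega)))
    _ (hm i hi) (fun q => by
      obtain ⟨j, hj, h'⟩ := cov (!s) (zq q ∘ τ)
      refine ⟨j, ⟨hj, f (e s (zq q)), ⟨_, hz _ (fun p hp => ?_), rfl⟩, ⟨_, h', (hf _ _).symm⟩⟩, h'⟩
      simp only [zq, if_pos hp])
  exact Nat.find_min hex (show n < Nat.find hex by omega) ⟨!s, j, hj.1, w, hw⟩

noncomputable def ee (p : Bool × Sq) : ℝ := e p.1 p.2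

lemma ee_cont : Continuous ee := by
  unfold ee e
  refine Continuous.div_const (Continuous.add (E_cont.comp continuous_snd) ?_) _
  exact (continuous_of_discreteTopology (f := fun b : Bool => cond b (2 : ℝ) 0)).comp continuous_fst

lemma ee_inj : Function.Injective ee := by
  rintro ⟨s, x⟩ ⟨s', x'⟩ h
  have a1 := E_nonneg x
  have a2 := E_le x
  have a3 := E_nonneg x'
  have a4 := E_le x'
  cases s <;> cases s' <;> simp only [ee, e, cond_true, cond_false] at h
  · rw [E_inj (show E x = E x' by linarith)]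
  · linarith
  · linarith
  · rw [E_inj (show E x = E x' by linarith)]

noncomputable def φ (p : Bool × Sq) : ℝ := cond p.1 (E (p.2 ∘ τ)) (E p.2)

lemma φ_cont : Continuous φ := by
  have h1 : Continuous (fun x : Sq => E (x ∘ τ)) :=
    E_cont.comp (continuous_pi (fun p => continuous_apply (τ p)))
  rw [continuous_prod_of_discrete_left]
  intro s
  cases s
  · exact E_cont
  · exact h1

lemma exists_g : ∃ g : ℝ → ℝ, Continuous g ∧ ∀ s x, g (e s x) = φ (s, x) := by
  obtain ⟨g, hg⟩ := ContinuousMap.exists_extension' (ee_cont.isClosedEmbedding ee_inj) ⟨φ, φ_cont⟩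
  exact ⟨g, g.continuous, fun s x => congrFun hg (s, x)⟩

noncomputable def d (x : ℝ) : ℝ := Metric.infDist x (Set.range ee)

lemma d_zero (x : ℝ) : d x = 0 ↔ ∃ s w, e s w = x := by
  unfold d
  rw [← (isCompact_range ee_cont).isClosed.mem_iff_infDist_zero (Set.range_nonempty _)]
  constructor
  · rintro ⟨⟨s, w⟩, h⟩
    exact ⟨s, w, h⟩
  · rintro ⟨s, w, h⟩
    exact ⟨(s, w), h⟩

lemma exists_f : ∃ f : ℝ → ℝ × ℝ × ℝ, Continuous f ∧ (∀ y, {x | f x = y}.encard ≤ 2) ∧
    ∀ s x, f (e s x) = f (e (!s) (x ∘ τ)) := by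
  obtain ⟨g, hg, hφ⟩ := exists_g
  have hd : Continuous d := Metric.continuous_infDist_pt _
  refine ⟨fun x => (g x, d x, x * d x), by fun_prop, fun y => ?_, fun s x => ?_⟩
  · rcases Set.eq_empty_or_nonempty {x | (g x, d x, x * d x) = y} with h | ⟨x0, rfl⟩
    · rw [h]; simp
    by_cases h0 : d x0 = 0
    · obtain ⟨s, w, rfl⟩ := (d_zero x0).1 h0
      have : ∃ w0, E w0 = g (e s w) := by
        rw [hφ]
        cases s
        · exact ⟨_, rfl⟩
        · exact ⟨_, rfl⟩
      obtain ⟨w0, hw0⟩ := this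
      refine le_trans (Set.encard_le_encard (t := {e false w0, e true (w0 ∘ τ)}) ?_) ?_
      · intro x hx
        simp only [Set.mem_ofPred_eq, Prod.mk.injEq] at hx
        obtain ⟨s', w', rfl⟩ := (d_zero x).1 (hx.2.1.trans h0)
        have h1 := hx.1
        rw [← hw0, hφ] at h1
        cases s'
        · left
          rw [E_inj (show E w' = E w0 from h1)]
        · right
          rw [← E_inj (show E (w' ∘ τ) = E w0 from h1), comp_ττ]
          rfl
      · refine le_trans (Set.encard_insert_le _ _) ?_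
        rw [Set.encard_singleton]
        norm_num
    · refine le_trans (Set.encard_le_encard (t := {x0}) ?_) ?_
      · intro x hx
        simp only [Set.mem_ofPred_eq, Prod.mk.injEq] at hx
        have h1 := hx.2.2
        rw [hx.2.1] at h1
        exact mul_right_cancel₀ h0 h1
      · rw [Set.encard_singleton]
        norm_num
  · have h1 := (d_zero _).2 ⟨s, x, rfl⟩
    have h2 := (d_zero _).2 ⟨!s, x ∘ τ, rfl⟩
    simp only [h1, h2, hφ, mul_zero]
    cases s
    · simp [φ, comp_ττ]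
    · simp [φ]

end Pool.Agent.H33.CantorGlue
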