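import Mathlib
import Pool.Agent.H33.NoEmb

/-!
The centered space of the remainder of the Stone-Cech compactification of the integers is not
homogeneous.
-/

open Set Filter Topology TopologicalSpace

namespace Pool.Agent.H33.CenHom

theorem delta_aux {I S : Type} (k : ℕ) : ∀ (J : Set I) (F : I → Finset S), J.Infinite →
    (∀ i ∈ J, (F i).card ≤ k) → ∃ (r : Finset S) (α : ℕ → I),
      ∀ m n, m < n → α m ≠ α n ∧ ∀ s ∈ F (α m), s ∈ F (α n) → s ∈ r := by
  classical
  induction k with
  | zero =>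
    intro J F hJ h
    refine ⟨∅, fun n => hJ.natEmbedding J n, fun m n hmn => ⟨fun e => hmn.ne
      ((hJ.natEmbedding J).injective (Subtype.ext e)), fun s hs _ => ?_⟩⟩
    rwa [Finset.card_eq_zero.1 (Nat.le_zero.1 (h _ (hJ.natEmbedding J m).2))] at hs
  | succ k ih =>
    intro J F hJ h
    by_cases h1 : ∃ s, {i ∈ J | s ∈ F i}.Infinite
    · obtain ⟨s, hs⟩ := h1
      obtain ⟨r, α, h2⟩ := ih _ (fun i => (F i).erase s) hs fun i hi => by
        have := h i hi.1
        rw [Finset.card_erase_of_mem hi.2]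
        omega
      refine ⟨insert s r, α, fun m n hmn => ⟨(h2 m n hmn).1, fun t h3 h4 => ?_⟩⟩
      by_cases ht : t = s
      · simp [ht]
      · exact Finset.mem_insert_of_mem ((h2 m n hmn).2 t (Finset.mem_erase.2 ⟨ht, h3⟩)
          (Finset.mem_erase.2 ⟨ht, h4⟩))
    · simp only [not_exists, not_infinite] at h1
      obtain ⟨α, -, h2⟩ := exists_seq_of_forall_finset_exists (fun _ => True)
        (fun i j => i ≠ j ∧ ∀ s ∈ F i, s ∈ F j → s ∈ (∅ : Finset S)) fun t _ => by
          obtain ⟨j, hj, hj'⟩ := hJ.exists_notMem_finite (t.finite_toSet.union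
            (t.finite_toSet.biUnion fun i _ => (F i).finite_toSet.biUnion fun s _ => h1 s))
          refine ⟨j, trivial, fun i hi => ⟨fun e => hj' (Or.inl (e ▸ hi)), fun s h2 h3 => ?_⟩⟩
          exact (hj' (Or.inr (mem_biUnion hi (mem_biUnion h2 ⟨hj, h3⟩)))).elim
      exact ⟨∅, α, h2⟩

theorem delta {I S : Type} [Uncountable I] (F : I → Finset S) : ∃ (r : Finset S) (α : ℕ → I),
    α.Injective ∧ ∀ m n, m ≠ n → ∀ s ∈ F (α m), s ∈ F (α n) → s ∈ r := by
  obtain ⟨k, hk⟩ : ∃ k, {i | (F i).card ≤ k}.Infinite := by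
    by_contra h
    simp only [not_exists, not_infinite] at h
    exact not_countable_univ ((countable_iUnion fun k => (h k).countable).mono
      fun i _ => mem_iUnion.2 ⟨_, le_refl (F i).card⟩)
  obtain ⟨r, α, h⟩ := delta_aux k _ F hk fun _ h => h
  refine ⟨r, α, Function.Injective.of_lt_imp_ne fun m n hmn => (h m n hmn).1,
    fun m n hmn s h1 h2 => ?_⟩
  rcases hmn.lt_or_gt with h3 | h3
  exacts [(h m n h3).2 s h1 h2, (h n m h3).2 s h2 h1]

theorem not_hom {X I : Type} [TopologicalSpace X] [Uncountable I] (A : I → Clopens X)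
    (hA : ∀ i, (A i : Set X).Nonempty) (hd : ∀ i j, i ≠ j → Disjoint (A i : Set X) (A j))
    (hs : ∀ P Q : ℕ → Set X, (∀ n, IsClopen (P n)) → (∀ n, IsClopen (Q n)) →
      (∀ m n, Disjoint (P m) (Q n)) → ∃ U, IsClopen U ∧ ∀ n, P n ⊆ U ∧ Disjoint (Q n) U)
    (C : Set (Clopens X → Bool)) (hC : C = {f | ∀ F : Finset (Clopens X),
      (∀ U ∈ F, f U = true) → (⋂ U ∈ F, (U : Set X)).Nonempty}) :
    ¬ ∀ x y : C, ∃ h : C ≃ₜ C, h x = y := by
  classical
  intro H
  have hpt : ∀ (x : X) (f : Clopens X → Bool), (∀ U, f U = true → x ∈ U) → f ∈ C :=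
    fun x f h => hC ▸ fun F hF => ⟨x, mem_iInter₂.2 fun U hU => h U (hF U hU)⟩
  have hcen : ∀ (f : C) (F : Finset (Clopens X)), ∃ x, ∀ U ∈ F, f.1 U = true → x ∈ U := by
    intro f F
    obtain ⟨x, hx⟩ := hC.subset f.2 (F.filter fun U => f.1 U = true)
      fun U hU => (Finset.mem_filter.1 hU).2
    exact ⟨x, fun U h1 h2 => mem_iInter₂.1 hx U (Finset.mem_filter.2 ⟨h1, h2⟩)⟩
  have : CompactSpace C := by
    refine isCompact_iff_compactSpace.1 (IsClosed.isCompact ?_)
    rw [hC, ofPred_forall]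
    refine isClosed_iInter fun F => ?_
    simp only [imp_iff_not_or (b := Set.Nonempty _), ofPred_or]
    refine IsClosed.union (IsOpen.isClosed_compl (s := {f : Clopens X → Bool | ∀ U ∈ F, f U = true}) ?_)
      isClosed_const
    simp only [ofPred_forall]
    exact isOpen_biInter_finset fun U _ => 
      (isOpen_discrete {true}).preimage (continuous_apply (A := fun _ => Bool) U)
  obtain ⟨x, -⟩ := hA (Classical.arbitrary I)
  obtain ⟨h, hh⟩ := H ⟨fun _ => false, hpt x _ (by simp)⟩
    ⟨fun U => decide (x ∈ U), hpt x _ (by simp)⟩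
  have hF : ∀ i, ∃ F : Finset (Clopens X), ∀ a b : C, (∀ U ∈ F, a.1 U = b.1 U) →
      (h.symm a).1 (A i) = true → (h.symm b).1 (A i) = true := fun i => by
    obtain ⟨F, hF⟩ := NoEmb.unif (K := C) (e := fun a => a.1) continuous_subtype_val
      Subtype.val_injective ⟨fun a => if (h.symm a).1 (A i) = true then 1 else 0,
        (continuous_of_discreteTopology (f := fun b : Bool => if b = true then (1 : ℝ) else 0)).comp
          ((continuous_apply _).comp (continuous_subtype_val.comp h.symm.continuous))⟩ one_pos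
    refine ⟨F, fun a b hab ha => ?_⟩
    by_contra hb
    simpa [ha, hb] using hF a b hab
  choose F hF using hF
  obtain ⟨r, α, hα, hr⟩ := delta F
  let P : ℕ → Set X := fun n => {y | ∃ a : C, (h.symm a).1 (A (α n)) = true ∧
    (∀ U ∈ r, a.1 U = decide (x ∈ U)) ∧ ∀ U ∈ F (α n), a.1 U = true → y ∈ U}
  have hP : ∀ n, IsClopen (P n) := fun n => by
    have : P n = ⋃ G ∈ (F (α n)).powerset.filter fun G => ∃ a : C, (h.symm a).1 (A (α n)) = true ∧
        (∀ U ∈ r, a.1 U = decide (x ∈ U)) ∧ G = (F (α n)).filter fun U => a.1 U = true,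
        ⋂ U ∈ G, (U : Set X) := by
      ext y
      simp only [mem_iUnion, mem_iInter, Finset.mem_filter, Finset.mem_powerset]
      constructor
      · rintro ⟨a, h1, h2, h3⟩
        exact ⟨_, ⟨Finset.filter_subset _ _, a, h1, h2, rfl⟩, fun U hU =>
          h3 U (Finset.mem_filter.1 hU).1 (Finset.mem_filter.1 hU).2⟩
      · rintro ⟨_, ⟨-, a, h1, h2, rfl⟩, h3⟩
        exact ⟨a, h1, h2, fun U h4 h5 => h3 U (Finset.mem_filter.2 ⟨h4, h5⟩)⟩
    rw [this]
    exact isClopen_biUnion_finset fun G _ => isClopen_biInter_finset fun U _ => U.isClopen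
  have hPd : ∀ m n, m ≠ n → Disjoint (P m) (P n) := fun m n hmn => by
    rw [disjoint_left]
    rintro y ⟨a, a1, a2, a3⟩ ⟨b, b1, b2, b3⟩
    let c : C := ⟨fun U => if U ∈ F (α m) then a.1 U else if U ∈ F (α n) then b.1 U else false,
      hpt y _ fun U hU => by
        split_ifs at hU with h1 h2
        exacts [a3 U h1 hU, b3 U h2 hU]⟩
    have h1 := hF _ a c (fun U hU => (if_pos hU).symm) a1
    have h2 := hF _ b c (fun U hU => by
      simp only [c]
      split_ifs with h2
      · rw [a2 U (hr m n hmn U h2 hU), b2 U (hr m n hmn U h2 hU)]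
      · rfl) b1
    obtain ⟨z, hz⟩ := hcen (h.symm c) {A (α m), A (α n)}
    exact disjoint_left.1 (hd _ _ (hα.ne hmn)) (hz _ (by simp) h1) (hz _ (by simp) h2)
  obtain ⟨V, β, hβ, hx, hV⟩ : ∃ (V : Clopens X) (β : ℕ → ℕ), β.Injective ∧ x ∈ V ∧
      ∀ n, Disjoint (P (β n)) V := by
    obtain ⟨U, h1, h2⟩ := hs (fun n => P (2 * n)) (fun n => P (2 * n + 1)) (fun _ => hP _)
      (fun _ => hP _) fun m n => hPd _ _ (by omega)
    by_cases hx : x ∈ U
    · exact ⟨⟨U, h1⟩, fun n => 2 * n + 1, fun a b h => by simpa using h, hx, fun n => (h2 n).2⟩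
    · exact ⟨⟨Uᶜ, h1.compl⟩, fun n => 2 * n, fun a b h => by simpa using h, hx,
        fun n => disjoint_compl_right_iff_subset.2 (h2 n).1⟩
  choose p hp using hA
  let δ : ℕ → C := fun n => ⟨fun U => decide (U = A (α (β n))), hpt (p (α (β n))) _ fun U hU => by
    rw [of_decide_eq_true hU]
    exact hp _⟩
  have h1 : Tendsto δ atTop (𝓝 ⟨fun _ => false, hpt x _ (by simp)⟩) := by
    refine tendsto_subtype_rng.2 (tendsto_pi_nhds.2 fun U => tendsto_const_nhds.congr' ?_)
    rw [← Nat.cofinite_eq_atTop]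
    refine (Subsingleton.finite (s := {n | U = A (α (β n))}) fun m hm n hn => ?_).subset
      fun n hn => ?_
    · by_contra hmn
      exact disjoint_left.1 (hd _ _ ((hα.comp hβ).ne hmn)) (hp _)
        ((hm.symm.trans hn : A _ = A _) ▸ hp _)
    · by_contra h
      exact hn (decide_eq_false h).symm
  have h2 := tendsto_pi_nhds.1 (tendsto_subtype_rng.1 ((h.continuous.tendsto _).comp h1))
  rw [hh] at h2
  obtain ⟨n, hn⟩ := ((eventually_all_finset (insert V r)).2 fun U _ =>
    (h2 U).eventually ((isOpen_discrete {decide (x ∈ U)}).mem_nhds rfl)).exists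
  obtain ⟨y, hy⟩ := hcen (h (δ n)) (insert V (F (α (β n))))
  refine disjoint_left.1 (hV n) ⟨h (δ n), by simp [δ], fun U hU =>
    hn U (Finset.mem_insert_of_mem hU), fun U hU => hy U (Finset.mem_insert_of_mem hU)⟩
    (hy V (Finset.mem_insert_self _ _) ?_)
  exact (hn V (Finset.mem_insert_self _ _)).trans (decide_eq_true hx)

/-- closure of a set of integers -/
def st (A : Set ℕ) : Set (StoneCech ℕ) := closure (stoneCechUnit '' A)

theorem st_mono {A B : Set ℕ} (h : A ⊆ B) : st A ⊆ st B := closure_mono (image_mono h)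

theorem st_union (A B : Set ℕ) : st (A ∪ B) = st A ∪ st B := by
  simp [st, image_union, closure_union]

theorem st_univ : st univ = univ := by
  rw [st, image_univ]
  exact denseRange_stoneCechUnit.closure_range

theorem st_disj {A B : Set ℕ} (h : Disjoint A B) : Disjoint (st A) (st B) := by
  classical
  have hc : Continuous fun n => decide (n ∈ A) := continuous_of_discreteTopology
  have h1 : ∀ (D : Set ℕ) (b : Bool), (∀ n ∈ D, decide (n ∈ A) = b) →
      st D ⊆ stoneCechExtend hc ⁻¹' {b} := fun D b hD =>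
    closure_minimal (by
      rintro _ ⟨n, hn, rfl⟩
      exact (congrFun (stoneCechExtend_extends hc) n).trans (hD n hn))
      ((isClosed_discrete _).preimage (continuous_stoneCechExtend hc))
  exact Disjoint.mono (h1 A true fun n hn => decide_eq_true hn)
    (h1 B false fun n hn => decide_eq_false (disjoint_right.1 h hn)) (Disjoint.preimage _ (by simp))

theorem st_compl (A : Set ℕ) : st Aᶜ = (st A)ᶜ :=
  (IsCompl.compl_eq ⟨st_disj disjoint_compl_right,
    codisjoint_iff.2 ((st_union _ _).symm.trans (by rw [union_compl_self, st_univ]; rfl))⟩).symm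

theorem st_clopen (A : Set ℕ) : IsClopen (st A) :=
  ⟨isClosed_closure, isClosed_compl_iff.1 (st_compl A ▸ isClosed_closure)⟩

theorem st_inter (A B : Set ℕ) : st (A ∩ B) = st A ∩ st B := by
  rw [← compl_inj_iff, ← st_compl, compl_inter, compl_inter, st_union, st_compl, st_compl]

theorem st_fin {A : Set ℕ} (h : A.Finite) : st A ⊆ range stoneCechUnit :=
  (h.image _).isClosed.closure_subset.trans (image_subset_range _ _)

theorem unit_mem {A : Set ℕ} {n : ℕ} : stoneCechUnit n ∈ st A ↔ n ∈ A :=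
  ⟨fun h => by_contra fun hn => disjoint_left.1 (st_disj (disjoint_compl_right (a := A))) h
    (subset_closure (mem_image_of_mem _ hn)), fun h => subset_closure (mem_image_of_mem _ h)⟩

theorem fin_of_st {A : Set ℕ} (h : st A ⊆ range stoneCechUnit) : A.Finite := by
  obtain ⟨s, hs⟩ := (st_clopen A).1.isCompact.elim_finite_subcover (fun n => st {n})
    (fun n => (st_clopen _).2) fun p hp => by
      obtain ⟨n, rfl⟩ := h hp
      exact mem_iUnion.2 ⟨n, unit_mem.2 rfl⟩
  refine s.finite_toSet.subset fun n hn => ?_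
  obtain ⟨m, hm, h⟩ := mem_iUnion₂.1 (hs (unit_mem.2 hn))
  rwa [show n = m from (unit_mem (A := {m})).1 h]

/-- the remainder -/
abbrev R : Set (StoneCech ℕ) := (range stoneCechUnit)ᶜ

theorem closed_R : IsClosed R := by
  refine IsOpen.isClosed_compl (isOpen_iff_forall_mem_open.2 ?_)
  rintro _ ⟨n, rfl⟩
  exact ⟨st {n}, st_fin (finite_singleton n), (st_clopen _).2, unit_mem.2 rfl⟩

theorem mem_st {O : Set (StoneCech ℕ)} (hO : IsOpen O) : O ⊆ st (stoneCechUnit ⁻¹' O) := by
  rw [st, image_preimage_eq_inter_range]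
  exact denseRange_stoneCechUnit.open_subset_closure_inter hO

theorem exists_st {P : Set R} (h : IsClopen P) : ∃ A, P = Subtype.val ⁻¹' st A := by
  obtain ⟨O, O', h1, h2, h3, h4, h5⟩ := normal_separation
    (closed_R.isClosedMap_subtype_val _ h.1) (closed_R.isClosedMap_subtype_val _ h.compl.1)
    (disjoint_image_of_injective Subtype.val_injective disjoint_compl_right)
  refine ⟨stoneCechUnit ⁻¹' O, Subset.antisymm (fun p hp => mem_st h1 (h3 (mem_image_of_mem _ hp)))
    fun p hp => by_contra fun hn => ?_⟩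
  exact disjoint_left.1 (st_disj (h5.preimage _)) hp (mem_st h2 (h4 (mem_image_of_mem _ hn)))

theorem disj_iff {A B : Set ℕ} :
    Disjoint (Subtype.val ⁻¹' st A : Set R) (Subtype.val ⁻¹' st B) ↔ (A ∩ B).Finite := by
  rw [disjoint_left]
  refine ⟨fun h => fin_of_st fun p hp => by_contra fun hn => ?_, fun h p h1 h2 => p.2 (st_fin h ?_)⟩
  · rw [st_inter] at hp
    exact h (a := ⟨p, hn⟩) hp.1 hp.2
  · rw [st_inter]
    exact ⟨h1, h2⟩

theorem sepR (P Q : ℕ → Set R) (hP : ∀ n, IsClopen (P n)) (hQ : ∀ n, IsClopen (Q n))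
    (h : ∀ m n, Disjoint (P m) (Q n)) : ∃ U, IsClopen U ∧ ∀ n, P n ⊆ U ∧ Disjoint (Q n) U := by
  choose A hA using fun n => exists_st (hP n)
  choose B hB using fun n => exists_st (hQ n)
  simp only [hA, hB, disj_iff] at h ⊢
  refine ⟨Subtype.val ⁻¹' st (⋃ n, A n \ ⋃ m ∈ Iic n, B m),
    (st_clopen _).preimage continuous_subtype_val, fun n => ⟨?_, disj_iff.2 ?_⟩⟩
  · rw [← disjoint_compl_right_iff_subset, ← preimage_compl, ← st_compl, disj_iff]
    refine ((finite_Iic n).biUnion fun m _ => h n m).subset fun a ha => ?_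
    by_contra h1
    refine ha.2 (mem_iUnion.2 ⟨n, ha.1, fun h2 => ?_⟩)
    obtain ⟨m, hm, h2⟩ := mem_iUnion₂.1 h2
    exact h1 (mem_biUnion hm ⟨ha.1, h2⟩)
  · refine ((finite_Iio n).biUnion fun m _ => h m n).subset fun a ha => ?_
    obtain ⟨m, h1, h2⟩ := mem_iUnion.1 ha.2
    exact mem_biUnion (mem_Iio.2 (not_le.1 fun hm => h2 (mem_biUnion (mem_Iic.2 hm) ha.1)))
      ⟨h1, ha.1⟩

/-- branches -/
def br (c : ℕ → Bool) (n : ℕ) : ℕ := Encodable.encode (n, (Finset.range n).filter fun j => c j = true)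

theorem main (C : Set (Clopens R → Bool)) (hC : C = {f | ∀ F : Finset (Clopens R),
      (∀ U ∈ F, f U = true) → (⋂ U ∈ F, (U : Set R)).Nonempty}) :
    ¬ ∀ x y : C, ∃ h : C ≃ₜ C, h x = y := by
  have : Uncountable (ℕ → Bool) := by
    rw [← Cardinal.aleph0_lt_mk_iff]
    simpa using Cardinal.aleph0_lt_continuum
  refine not_hom (fun c : ℕ → Bool => ⟨Subtype.val ⁻¹' st (range (br c)),
    (st_clopen _).preimage continuous_subtype_val⟩) (fun c => ?_) (fun c d hcd => disj_iff.2 ?_)
    sepR C hC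
  · obtain ⟨p, h1, h2⟩ := not_subset.1 fun h => infinite_range_of_injective
      (fun m n h => congrArg Prod.fst (Encodable.encode_injective h)) (fin_of_st (A := range (br c)) h)
    exact ⟨⟨p, h2⟩, h1⟩
  · obtain ⟨j, hj⟩ := Function.ne_iff.1 hcd
    refine ((finite_Iic j).image (br c)).subset ?_
    rintro _ ⟨⟨n, rfl⟩, m, h⟩
    obtain ⟨rfl, h⟩ := Prod.mk.inj (Encodable.encode_injective h)
    refine mem_image_of_mem _ (mem_Iic.2 (not_lt.1 fun hm => hj ?_))
    have := Finset.ext_iff.1 h j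
    simp only [Finset.mem_filter, Finset.mem_range, hm, true_and] at this
    exact Bool.eq_iff_iff.2 this.symm

end Pool.Agent.H33.CenHom
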