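import Mathlib

set_option autoImplicit false
open Set Topology TopologicalSpace Filter

namespace Pool.Agent.H33.Centered

abbrev Cen {X : Type} (S : Set (Set X)) :=
  {ξ : S → Bool // ∀ F : Finset S, (∀ P ∈ F, ξ P = true) → (⋂ P ∈ F, P.1).Nonempty}

lemma co {X : Type} (S : Set (Set X)) (P : S) : Continuous fun ξ : Cen S => ξ.1 P :=
  (continuous_apply P).comp continuous_subtype_val

instance {X : Type} (S : Set (Set X)) : CompactSpace (Cen S) := by
  apply isCompact_iff_compactSpace.mp
  apply IsClosed.isCompact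
  change IsClosed {ξ : S → Bool | ∀ F : Finset S, (∀ P ∈ F, ξ P = true) → (⋂ P ∈ F, P.1).Nonempty}
  rw [ofPred_forall]
  refine isClosed_iInter fun F => ?_
  by_cases h : (⋂ P ∈ F, P.1).Nonempty
  · simp only [h, implies_true, ofPred_true, isClosed_univ]
  · have : {ξ : S → Bool | (∀ P ∈ F, ξ P = true) → (⋂ P ∈ F, P.1).Nonempty} =
        (⋂ P ∈ F, (fun ξ : S → Bool => ξ P) ⁻¹' {true})ᶜ := by
      ext ξ; simp only [h, imp_false, mem_ofPred_eq, mem_compl_iff, mem_iInter, mem_preimage,
        mem_singleton_iff]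
    rw [this]
    exact (isOpen_biInter_finset fun P _ =>
      (isOpen_discrete _).preimage (continuous_apply P)).isClosed_compl

lemma fin_dep {X : Type} (S : Set (Set X)) (φ : Cen S → Bool) (hφ : Continuous φ) :
    ∃ F : Finset S, ∀ a b : Cen S, (∀ P ∈ F, a.1 P = b.1 P) → φ a = φ b := by
  classical
  obtain ⟨F, hF⟩ := exists_subset_nhds_of_compactSpace
    (V := fun F : Finset S => {p : Cen S × Cen S | ∀ P ∈ F, p.1.1 P = p.2.1 P})
    (Antitone.directed_ge fun _ _ h p hp P hP => hp P (Finset.mem_of_subset h hP)) (fun F => by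
      simp only [ofPred_forall]
      exact isClosed_iInter fun P => isClosed_iInter fun _ =>
        isClosed_eq ((co S P).comp continuous_fst) ((co S P).comp continuous_snd))
    (U := {p | φ p.1 = φ p.2}) (fun p hp => by
      have : p.1 = p.2 := Subtype.ext (funext fun P =>
        mem_iInter.mp hp {P} P (Finset.mem_singleton_self P))
      refine IsOpen.mem_nhds ?_ (congrArg φ this)
      exact (isOpen_discrete {q : Bool × Bool | q.1 = q.2}).preimage
        ((hφ.comp continuous_fst).prodMk (hφ.comp continuous_snd)))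
  exact ⟨F, fun a b h => hF (show (a, b) ∈ _ from h)⟩

open Classical in
noncomputable def res {X : Type} {S : Set (Set X)} (a : Cen S) (t : Set S) : Cen S :=
  ⟨fun P => decide (P ∈ t ∧ a.1 P = true), fun F hF => a.2 F fun P hP =>
    (of_decide_eq_true (hF P hP)).2⟩

lemma res_true {X : Type} {S : Set (Set X)} {a : Cen S} {t : Set S} {P : S}
    (h : (res a t).1 P = true) : P ∈ t ∧ a.1 P = true := by simpa [res] using h

lemma res_eq {X : Type} {S : Set (Set X)} (a : Cen S) {t : Set S} {P : S} (h : P ∈ t) :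
    (res a t).1 P = a.1 P := by simp [res, h]

abbrev Ca := ℕ → Bool

def S0 : Set (Set Ca) := range (fun p : ℕ × Bool => {m | m p.1 = p.2}) ∪ range singleton

def PP (n : ℕ) (b : Bool) : S0 := ⟨{m | m n = b}, Or.inl ⟨(n, b), rfl⟩⟩
def QQ (c : Ca) : S0 := ⟨{c}, Or.inr ⟨c, rfl⟩⟩

def G : Set (Cen S0) := ⋂ n, ((fun ξ => ξ.1 (PP n true)) ⁻¹' {true} ∪
  (fun ξ => ξ.1 (PP n false)) ⁻¹' {true})

open Classical in
noncomputable def el (c : Ca) : G := ⟨⟨fun P => decide (c ∈ P.1), fun F hF =>
  ⟨c, mem_iInter₂.mpr fun P hP => of_decide_eq_true (hF P hP)⟩⟩, mem_iInter.mpr fun n => by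
    cases h : c n
    · exact Or.inr (decide_eq_true h)
    · exact Or.inl (decide_eq_true h)⟩

lemma det (ξ : G) (c : Ca) (h : ξ.1.1 (QQ c) = true) (n : ℕ) : ξ.1.1 (PP n true) = c n := by
  classical
  have key : ∀ b, ξ.1.1 (PP n b) = true → c n = b := fun b hb => by
    obtain ⟨m, hm⟩ := ξ.1.2 {QQ c, PP n b} (by
      intro P hP
      rcases Finset.mem_insert.mp hP with rfl | hP
      · exact h
      · rw [Finset.mem_singleton.mp hP]; exact hb)
    have h1 : m = c := mem_iInter₂.mp hm (QQ c) (Finset.mem_insert_self _ _)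
    have h2 : m n = b := mem_iInter₂.mp hm (PP n b) (by simp)
    rw [← h1, h2]
  cases h1 : ξ.1.1 (PP n true)
  · rcases mem_iInter.mp ξ.2 n with h2 | h2
    · exact absurd (h1.symm.trans h2) (by simp)
    · exact (key false h2).symm
  · exact (key true h1).symm

lemma uncount : ¬ (univ : Set Ca).Countable := by
  rw [countable_univ_iff]
  intro h
  obtain ⟨f, hf⟩ := exists_surjective_nat Ca
  obtain ⟨n, hn⟩ := hf fun n => !f n n
  simpa using congrFun hn n

theorem main : ¬ (∀ (K : Type) [TopologicalSpace K] [CompactSpace K] [T2Space K],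
      (∃ (X : Type) (S : Set (Set X)), S.Infinite ∧
        ∃ f : {ξ : S → Bool //
            ∀ F : Finset S, (∀ P ∈ F, ξ P = true) → (⋂ P ∈ F, P.1).Nonempty} → K,
          Continuous f ∧ Function.Surjective f) →
      ∀ C : Set K, IsClosed C → IsGδ C → C.Nonempty →
        ∃ (X : Type) (S : Set (Set X)), S.Infinite ∧
          ∃ g : {ξ : S → Bool //
              ∀ F : Finset S, (∀ P ∈ F, ξ P = true) → (⋂ P ∈ F, P.1).Nonempty} → C,
            Continuous g ∧ Function.Surjective g) := by
  classical
  intro H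
  have hc : ∀ n, IsClopen ((fun ξ : Cen S0 => ξ.1 (PP n true)) ⁻¹' {true} ∪
      (fun ξ => ξ.1 (PP n false)) ⁻¹' {true}) := fun n =>
    ((isClopen_discrete _).preimage (co _ _)).union ((isClopen_discrete _).preimage (co _ _))
  obtain ⟨X, S, -, g, hg, hs⟩ := H (Cen S0) ⟨Ca, S0,
    (infinite_range_of_injective singleton_injective).mono subset_union_right, id, continuous_id,
    Function.surjective_id⟩ G (isClosed_iInter fun n => (hc n).1)
    (IsGδ.iInter_of_isOpen fun n => (hc n).2) ⟨_, (el fun _ => true).2⟩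
  have cg : ∀ P, Continuous fun a => (g a).1.1 P := fun P =>
    (co _ P).comp (continuous_subtype_val.comp hg)
  choose F hF using fun P => fin_dep S _ (cg P)
  let N : Set S := ⋃ n, F (PP n true)
  have hN : N.Countable := countable_iUnion fun n => Finset.countable_toSet _
  let supp : Cen S → Set S := fun a => {P | a.1 P = true}
  have hi : Function.Injective supp := fun a b h => Subtype.ext (funext fun P => by
    have := Set.ext_iff.mp h P
    simp only [supp, mem_ofPred_eq] at this
    exact Bool.eq_iff_iff.mpr this)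
  have h1 := ((countable_ofPred_finite_subset hN).preimage_of_injOn (f := supp) hi.injOn).image
    fun a n => (g a).1.1 (PP n true)
  refine uncount (h1.mono fun c _ => ?_)
  obtain ⟨a, ha⟩ := hs (el c)
  have e1 : (g (res a (F (QQ c)))).1.1 (QQ c) = true := by
    rw [hF (QQ c) _ a fun P hP => res_eq a hP, ha]
    exact decide_eq_true rfl
  refine ⟨res (res a (F (QQ c))) N, ⟨(F (QQ c)).finite_toSet.subset fun P hP => ?_, fun P hP => ?_⟩,
    funext fun n => ?_⟩
  · exact (res_true (res_true hP).2).1
  · exact (res_true hP).1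
  · rw [← det _ c e1 n]
    exact hF (PP n true) _ _ fun P hP => res_eq _ (mem_iUnion.mpr ⟨n, hP⟩)

end Pool.Agent.H33.Centered
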