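import Mathlib

set_option autoImplicit false
open Set Topology TopologicalSpace Metric Filter

namespace Pool.Agent.H33.CombCube

abbrev J := unitInterval

noncomputable def inv (n : ℕ) : J := ⟨1 / ((n : ℝ) + 1), by positivity, by
  rw [div_le_one (by positivity)]; linarith [(Nat.cast_nonneg n : (0 : ℝ) ≤ n)]⟩

noncomputable def p (n : ℕ) : Fin 3 → J := ![denseSeq J n, inv n, 0]

def A : Set (Fin 3 → J) := ⋂ N : ℕ, ({x | x 1 ≤ inv N} ∩ {x | x 2 = 0} ∪ p '' Iio N)

lemma A_closed : IsClosed A := isClosed_iInter fun N =>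
  ((isClosed_le (continuous_apply 1) continuous_const).inter
    (isClosed_eq (continuous_apply 2) continuous_const)).union ((finite_Iio N).image p).isClosed

lemma base_mem (t : J) : ![t, 0, 0] ∈ A := mem_iInter.mpr fun N => Or.inl ⟨(inv N).2.1, rfl⟩

lemma p_mem (n : ℕ) : p n ∈ A := mem_iInter.mpr fun N => by
  rcases lt_or_ge n N with h | h
  · exact Or.inr ⟨n, h, rfl⟩
  · refine Or.inl ⟨?_, rfl⟩
    change 1 / ((n : ℝ) + 1) ≤ 1 / ((N : ℝ) + 1)
    have : (N : ℝ) ≤ n := by exact_mod_cast h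
    gcongr

lemma A_two {x : Fin 3 → J} (h : x ∈ A) : x 2 = 0 := by
  rcases mem_iInter.mp h 0 with h | ⟨n, hn, -⟩
  · exact h.2
  · exact absurd hn (Nat.not_lt_zero n)

lemma A_one {x : Fin 3 → J} (h : x ∈ A) : x 1 = 0 ∨ ∃ n, x 0 = denseSeq J n := by
  by_contra hn
  push Not at hn
  have h0 : 0 < (x 1 : ℝ) := lt_of_le_of_ne (x 1).2.1 fun e => hn.1 (Subtype.ext e.symm)
  obtain ⟨N, hN⟩ := exists_nat_one_div_lt h0
  rcases mem_iInter.mp h N with h | ⟨n, -, rfl⟩
  · exact absurd (show (x 1 : ℝ) ≤ 1 / ((N : ℝ) + 1) from h.1) (not_le.mpr hN)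
  · exact hn.2 n rfl

lemma d_le (x : Fin 3 → J) : infDist x A ≤ 1 :=
  (infDist_le_dist_of_mem (base_mem 0)).trans ((dist_pi_le_iff zero_le_one).mpr fun i => by
    rw [Subtype.dist_eq, Real.dist_eq]
    have a := (x i).2
    have b := ((![0, 0, 0] : Fin 3 → J) i).2
    exact abs_le.mpr ⟨by linarith [a.1, b.2], by linarith [a.2, b.1]⟩)

lemma d_top {x : Fin 3 → J} (h : x 2 = 1) : infDist x A = 1 :=
  le_antisymm (d_le x) ((le_infDist ⟨_, base_mem 0⟩).mpr fun y hy => by
    have := dist_le_pi_dist x y 2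
    rw [h, A_two hy, Subtype.dist_eq] at this
    simpa using this)

noncomputable def f : C(Fin 3 → J, Fin 2 → J) where
  toFun x := ![x 0, ⟨infDist x A, infDist_nonneg, d_le x⟩]
  continuous_toFun := continuous_pi fun i => by
    fin_cases i
    · exact continuous_apply 0
    · exact (continuous_infDist_pt A).subtype_mk _

lemma hit (γ : J → Fin 3 → J) (hγ : Continuous γ) (t : J) (h : ∀ s, γ s 0 = t) (h0 : γ 0 ∈ A)
    (h1 : γ 1 2 = 1) (r : J) : ∃ s, f (γ s) = ![t, r] := by
  obtain ⟨s, hs⟩ := intermediate_value_univ 0 1 ((continuous_infDist_pt A).comp hγ)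
    (show (r : ℝ) ∈ Icc _ _ by
      simp only [Function.comp, infDist_zero_of_mem h0, d_top h1]; exact r.2)
  refine ⟨s, funext fun i => ?_⟩
  fin_cases i
  · exact h s
  · exact Subtype.ext hs

lemma hit1 (t r : J) : ∃ s, f ![t, 0, s] = ![t, r] :=
  hit (fun s => ![t, 0, s]) (continuous_pi fun i => by fin_cases i <;> simp <;> fun_prop) t
    (fun _ => rfl) (base_mem t) rfl r

lemma hit2 (t r : J) : ∃ s, f ![t, s, s] = ![t, r] :=
  hit (fun s => ![t, s, s]) (continuous_pi fun i => by fin_cases i <;> simp <;> fun_prop) t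
    (fun _ => rfl) (base_mem t) rfl r

lemma eta2 (y : Fin 2 → J) : y = ![y 0, y 1] := by funext i; fin_cases i <;> rfl

theorem main : ¬ (∀ f : C(Fin 3 → unitInterval, Fin 2 → unitInterval),
      Function.Surjective f →
      IsTotallyDisconnected {x : Fin 3 → unitInterval | ∀ y, f y = f x → y = x} →
      ∃ K : Set (Fin 3 → unitInterval),
        IsClosed K ∧ IsTotallyDisconnected K ∧ f '' K = Set.univ) := by
  intro H
  have hU : ∀ x : Fin 3 → J, (∀ y, f y = f x → y = x) →
      x = ![x 0, 0, 0] ∧ ∀ n, x 0 ≠ denseSeq J n := by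
    intro x hx
    obtain ⟨s, hs⟩ := hit1 (x 0) (f x 1)
    obtain ⟨s', hs'⟩ := hit2 (x 0) (f x 1)
    have e1 := hx _ (hs.trans (eta2 (f x)).symm)
    have e2 := hx _ (hs'.trans (eta2 (f x)).symm)
    have a1 : s' = 0 := congrFun (e2.trans e1.symm) 1
    have e3 : x = ![x 0, 0, 0] := by rw [a1] at e2; exact e2.symm
    refine ⟨e3, fun n hn => ?_⟩
    have : p n = x := hx _ (funext fun i => by
      fin_cases i
      · exact hn.symm
      · apply Subtype.ext
        change infDist (p n) A = infDist x A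
        rw [infDist_zero_of_mem (p_mem n), e3, infDist_zero_of_mem (base_mem _)])
    have h1 : inv n = 0 := (congrFun this 1).trans (congrFun e3 1)
    have h2 : 1 / ((n : ℝ) + 1) = 0 := congrArg Subtype.val h1
    exact absurd h2 (by positivity)
  obtain ⟨K, hK, hKd, hKf⟩ := H f (fun y => by
    obtain ⟨s, hs⟩ := hit1 (y 0) (y 1)
    exact ⟨_, hs.trans (eta2 y).symm⟩) (by
    intro T hT hc x hx y hy
    have key : ∀ x ∈ T, ∀ y ∈ T, ¬ x 0 < y 0 := fun x hx y hy hlt => by
      obtain ⟨n, hn⟩ := (denseRange_denseSeq J).exists_mem_open isOpen_Ioo (nonempty_Ioo.mpr hlt)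
      obtain ⟨z, hz, e⟩ := (hc.image (fun x => x 0) (continuous_apply 0).continuousOn).ordConnected.out
        ⟨x, hx, rfl⟩ ⟨y, hy, rfl⟩ ⟨hn.1.le, hn.2.le⟩
      exact (hU z (hT hz)).2 n e
    have : x 0 = y 0 := le_antisymm (not_lt.mp (key y hy x hx)) (not_lt.mp (key x hx y hy))
    rw [(hU x (hT hx)).1, (hU y (hT hy)).1, this])
  have hb : Continuous fun t : J => (![t, 0, 0] : Fin 3 → J) :=
    continuous_pi fun i => by fin_cases i <;> simp <;> fun_prop
  have h1 : ∀ t : J, t ∉ range (denseSeq J) → ![t, 0, 0] ∈ K := fun t ht => by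
    obtain ⟨x, hx, e⟩ : ![t, 0] ∈ f '' K := by rw [hKf]; trivial
    have a0 : x 0 = t := congrFun e 0
    have a1 : infDist x A = 0 := congrArg Subtype.val (congrFun e 1)
    have hxA : x ∈ A := (A_closed.mem_iff_infDist_zero ⟨_, base_mem 0⟩).mpr a1
    have a2 : x 1 = 0 := (A_one hxA).resolve_right fun ⟨n, hn⟩ => ht ⟨n, by rw [← hn, a0]⟩
    have : x = ![t, 0, 0] := funext fun i => by
      fin_cases i
      · exact a0
      · exact a2
      · exact A_two hxA
    exact this ▸ hx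
  have h2 : ∀ t : J, ![t, 0, 0] ∈ K := by
    have hd : Dense (range (denseSeq J))ᶜ := by
      have : (range (denseSeq J))ᶜ = ⋂ n, {denseSeq J n}ᶜ := by
        ext t; simp [eq_comm]
      rw [this]
      exact dense_iInter_of_isOpen (fun n => isOpen_compl_singleton) fun n => dense_compl_singleton _
    intro t
    exact (hK.preimage hb).closure_subset_iff.mpr h1 (hd t)
  have := hKd (range fun t : J => (![t, 0, 0] : Fin 3 → J)) (by rintro _ ⟨t, rfl⟩; exact h2 t)
    (isPreconnected_range hb) ⟨0, rfl⟩ ⟨1, rfl⟩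
  have h3 : (0 : J) = 1 := congrFun this 0
  exact zero_ne_one h3

end Pool.Agent.H33.CombCube
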