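import Mathlib

set_option autoImplicit false
open Set Topology TopologicalSpace Metric Filter

namespace Pool.Agent.H33.Contin

section general
variable {X : Type*} [TopologicalSpace X] [CompactSpace X] [T2Space X]

omit [CompactSpace X] [T2Space X] in
lemma comp_closed {N : Set X} (hN : IsClosed N) (x : X) : IsClosed (connectedComponentIn N x) := by
  by_cases hx : x ∈ N
  · rw [connectedComponentIn_eq_image hx]
    exact hN.isClosedEmbedding_subtypeVal.isClosedMap _ isClosed_connectedComponent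
  · rw [connectedComponentIn_eq_empty hx]; exact isClosed_empty

/-- cut-wire theorem -/
lemma sep {N D : Set X} (hN : IsClosed N) (hD : IsClosed D) {x : X} (hx : x ∈ N)
    (h : Disjoint (connectedComponentIn N x) D) :
    ∃ Z Z' : Set X, IsClosed Z ∧ IsClosed Z' ∧ Disjoint Z Z' ∧ Z ∪ Z' = N ∧ x ∈ Z ∧
      Disjoint Z D := by
  have : CompactSpace N := isCompact_iff_compactSpace.mp hN.isCompact
  rw [connectedComponentIn_eq_image hx, connectedComponent_eq_iInter_isClopen] at h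
  have hD' : IsCompact ((↑) ⁻¹' D : Set N) := (hD.preimage continuous_subtype_val).isCompact
  have h2 : ((↑) ⁻¹' D : Set N) ∩
      ⋂ s : { s : Set N // IsClopen s ∧ (⟨x, hx⟩ : N) ∈ s }, (s : Set N) = ∅ := by
    rw [eq_empty_iff_forall_notMem]
    rintro z ⟨h1, h2⟩
    exact disjoint_left.mp h ⟨z, h2, rfl⟩ h1
  obtain ⟨t, ht⟩ := hD'.elim_finite_subfamily_closed _ (fun s => s.2.1.1) h2
  set W : Set N := ⋂ s ∈ t, (s : Set N) with hW
  have hWc : IsClopen W := isClopen_biInter_finset fun s _ => s.2.1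
  have hxW : (⟨x, hx⟩ : N) ∈ W := mem_iInter₂.mpr fun s _ => s.2.2
  refine ⟨(↑) '' W, (↑) '' Wᶜ, hN.isClosedEmbedding_subtypeVal.isClosedMap _ hWc.1,
    hN.isClosedEmbedding_subtypeVal.isClosedMap _ hWc.compl.1, ?_, ?_, ⟨_, hxW, rfl⟩, ?_⟩
  · exact (disjoint_image_iff Subtype.val_injective).mpr disjoint_compl_right
  · rw [← image_union, union_compl_self]; simp
  · rw [disjoint_left]
    rintro _ ⟨z, hz, rfl⟩ hzD
    have : z ∈ ((↑) ⁻¹' D : Set N) ∩ W := ⟨hzD, hz⟩
    rw [ht] at this; exact this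

/-- open maps from compact spaces are confluent -/
lemma whyburn {Y : Type*} [TopologicalSpace Y] [T2Space Y] {f : X → Y} (hf : Continuous f)
    (ho : IsOpenMap f) {K : Set Y} (hK : IsClosed K) (hc : IsPreconnected K) {x : X}
    (hx : f x ∈ K) : f '' connectedComponentIn (f ⁻¹' K) x = K := by
  apply Subset.antisymm
  · rintro _ ⟨z, hz, rfl⟩
    exact connectedComponentIn_subset (f ⁻¹' K) _ hz
  intro y hy
  by_contra hn
  obtain ⟨Z, Z', hZ, hZ', hd, hu, hxZ, hZD⟩ := sep (D := f ⁻¹' {y}) (hK.preimage hf)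
    (isClosed_singleton.preimage hf) hx (disjoint_left.mpr fun z hz hzy => hn ⟨z, hz, hzy⟩)
  have h1 : IsOpen (f '' Z'ᶜ) := ho _ hZ'.isOpen_compl
  have h2 : IsOpen (f '' Z)ᶜ := (hZ.isCompact.image hf).isClosed.isOpen_compl
  obtain ⟨w, hwK, ⟨z, hz, rfl⟩, hw2⟩ := hc _ _ h1 h2 (by
      intro w hw
      by_cases h : w ∈ f '' Z
      · obtain ⟨z, hz, rfl⟩ := h
        exact Or.inl ⟨z, disjoint_left.mp hd hz, rfl⟩
      · exact Or.inr h)
    ⟨f x, hx, x, disjoint_left.mp hd hxZ, rfl⟩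
    ⟨y, hy, by rintro ⟨z, hz, hzy⟩; exact disjoint_left.mp hZD hz hzy⟩
  have : z ∈ Z ∪ Z' := by rw [hu]; exact hwK
  exact hw2 ⟨z, this.resolve_right hz, rfl⟩

lemma evt {E : ℕ → Set X} (hE : ∀ n, IsClosed (E n)) (hm : Antitone E) {U : Set X}
    (hU : IsOpen U) (h : ⋂ n, E n ⊆ U) : ∃ N, ∀ n, N ≤ n → E n ⊆ U := by
  obtain ⟨N, hN⟩ := exists_subset_nhds_of_compactSpace (V := E) (hm.directed_ge) hE
    (U := U) (fun x hx => hU.mem_nhds (h hx))
  exact ⟨N, fun n hn => (hm hn).trans hN⟩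

lemma lim {E W C : ℕ → Set X} (hE : ∀ n, IsClosed (E n)) (hEm : Antitone E)
    (hW : ∀ n, IsClosed (W n)) (hWm : Antitone W) {x : X} (hC : ∀ n, IsPreconnected (C n))
    (hCE : ∀ n, C n ⊆ E n) (hx : ∀ n, x ∈ C n) (hCW : ∀ n, (C n ∩ W n).Nonempty) :
    (connectedComponentIn (⋂ n, E n) x ∩ ⋂ n, W n).Nonempty := by
  by_contra hn
  rw [not_nonempty_iff_eq_empty, ← disjoint_iff_inter_eq_empty] at hn
  obtain ⟨Z, Z', hZ, hZ', hd, hu, hxZ, hZD⟩ := sep (isClosed_iInter hE) (isClosed_iInter hW)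
    (mem_iInter.mpr fun n => hCE n (hx n)) hn
  obtain ⟨U, V, hU, hV, hZU, hZV, hUV⟩ := normal_separation hZ (hZ'.union (isClosed_iInter hW))
    (disjoint_union_right.mpr ⟨hd, hZD⟩)
  obtain ⟨N1, h1⟩ := evt hE hEm (hU.union hV) (by
    rw [← hu]; exact union_subset_union hZU (subset_union_left.trans hZV))
  obtain ⟨N2, h2⟩ := evt hW hWm hV (subset_union_right.trans hZV)
  obtain ⟨z, hz, hz'⟩ := hCW (max N1 N2)
  have := (hC (max N1 N2)).subset_left_of_subset_union hU hV hUV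
    ((hCE _).trans (h1 _ (le_max_left _ _))) ⟨x, hx _, hZU hxZ⟩
  exact disjoint_left.mp hUV (this hz) (h2 _ (le_max_right _ _) hz')

end general

section order
variable {X : Type*} [MetricSpace X] [CompactSpace X]

/-- boundary bumping -/
lemma bump {K L : Set X} (hK : IsClosed K) (hKc : IsConnected K) (hL : IsClosed L)
    (hLc : IsPreconnected L) (h : K ⊂ L) :
    ∃ C : Set X, IsClosed C ∧ IsConnected C ∧ K ⊂ C ∧ C ⊂ L := by
  obtain ⟨y, hyL, hyK⟩ := exists_of_ssubset h
  obtain ⟨k, hk⟩ := hKc.nonempty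
  obtain ⟨r, hr, hrK⟩ := Metric.isOpen_iff.mp hK.isOpen_compl y hyK
  set N : Set X := L ∩ {z | r / 2 ≤ dist z y} with hNdef
  have hN : IsClosed N := hL.inter (isClosed_le continuous_const (by fun_prop))
  have hKr : ∀ z ∈ K, r ≤ dist z y := fun z hz => not_lt.mp fun h => hrK h hz
  have hKN : K ⊆ N := fun z hz => ⟨h.1 hz, by have := hKr z hz; simp only [mem_ofPred_eq]; linarith⟩
  have hyN : y ∉ N := fun h => by have := h.2; simp only [mem_ofPred_eq, dist_self] at this; linarith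
  have hKC : K ⊆ connectedComponentIn N k := hKc.isPreconnected.subset_connectedComponentIn hk hKN
  refine ⟨connectedComponentIn N k, comp_closed hN k,
    isConnected_connectedComponentIn_iff.mpr (hKN hk), ⟨hKC, fun hCK => ?_⟩,
    ⟨(connectedComponentIn_subset _ _).trans inter_subset_left,
      fun h' => hyN (connectedComponentIn_subset _ _ (h' hyL))⟩⟩
  obtain ⟨Z, Z', hZ, hZ', hd, hu, hxZ, hZD⟩ := sep (D := {z | dist z y ≤ r / 2}) hN
    (isClosed_le (by fun_prop) continuous_const) (hKN hk) (disjoint_left.mpr fun z hz hz' => by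
      have := hKr z (hCK hz); simp only [mem_ofPred_eq] at hz'; linarith)
  obtain ⟨w, hwL, hw1, hw2⟩ := (isPreconnected_closed_iff.mp hLc) Z (Z' ∪ {z | dist z y ≤ r / 2})
    hZ (hZ'.union (isClosed_le (by fun_prop) continuous_const)) (by
      intro z hz
      by_cases h1 : dist z y ≤ r / 2
      · exact Or.inr (Or.inr h1)
      · have : z ∈ Z ∪ Z' := by rw [hu]; exact ⟨hz, (not_le.mp h1).le⟩
        rcases this with h | h
        · exact Or.inl h
        · exact Or.inr (Or.inl h))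
    ⟨k, h.1 hk, hxZ⟩ ⟨y, hyL, Or.inr (by simp only [mem_ofPred_eq, dist_self]; linarith)⟩
  rcases hw2 with h | h
  · exact disjoint_left.mp hd hw1 h
  · exact disjoint_left.mp hZD hw1 h

omit [CompactSpace X] in
lemma closed_conn : IsClosed {K : NonemptyCompacts X | IsPreconnected (K : Set X)} := by
  rw [← isOpen_compl_iff, isOpen_iff_mem_nhds]
  intro K hK
  simp only [mem_compl_iff, mem_ofPred_eq, isPreconnected_closed_iff] at hK
  push Not at hK
  obtain ⟨s, t, hs, ht, hst, h1, h2, h3⟩ := hK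
  obtain ⟨U, V, hU, hV, hZU, hZV, hUV⟩ := normal_separation (K.isCompact.isClosed.inter hs)
    (K.isCompact.isClosed.inter ht) (disjoint_left.mpr fun z hz hz' => by
      have : z ∈ (K : Set X) ∩ (s ∩ t) := ⟨hz.1, hz.2, hz'.2⟩
      rw [h3] at this; exact this)
  have ho := (NonemptyCompacts.isOpen_subsets_of_isOpen (hU.union hV)).inter
    ((NonemptyCompacts.isOpen_inter_nonempty_of_isOpen hU).inter
      (NonemptyCompacts.isOpen_inter_nonempty_of_isOpen hV))
  refine mem_of_superset (ho.mem_nhds ⟨?_, ?_, ?_⟩) ?_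
  · intro z hz
    rcases hst hz with h | h
    · exact Or.inl (hZU ⟨hz, h⟩)
    · exact Or.inr (hZV ⟨hz, h⟩)
  · obtain ⟨z, hz⟩ := h1; exact ⟨z, hz.1, hZU hz⟩
  · obtain ⟨z, hz⟩ := h2; exact ⟨z, hz.1, hZV hz⟩
  · rintro L ⟨hL1, hL2, hL3⟩ hL
    obtain ⟨z, _, hz⟩ := hL U V hU hV hL1 hL2 hL3
    exact disjoint_left.mp hUV hz.1 hz.2

lemma whitney [Nonempty X] : ∃ ν : NonemptyCompacts X → ℝ, Continuous ν ∧ StrictAnti ν := by
  set a := denseSeq X
  obtain ⟨D, hD⟩ : ∃ D : ℝ, ∀ x y : X, dist x y ≤ D :=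
    ⟨diam (univ : Set X), fun x y => dist_le_diam_of_mem isCompact_univ.isBounded trivial trivial⟩
  have hb : ∀ (n : ℕ) (K : NonemptyCompacts X),
      ‖(1 / 2 : ℝ) ^ n * infDist (a n) (K : Set X)‖ ≤ (1 / 2 : ℝ) ^ n * D := by
    intro n K
    obtain ⟨k, hk⟩ := K.nonempty
    rw [Real.norm_of_nonneg (mul_nonneg (by positivity) infDist_nonneg)]
    exact mul_le_mul_of_nonneg_left ((infDist_le_dist_of_mem hk).trans (hD _ _)) (by positivity)
  have hs : Summable fun n : ℕ => (1 / 2 : ℝ) ^ n * D := summable_geometric_two.mul_right D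
  refine ⟨fun K => ∑' n, (1 / 2 : ℝ) ^ n * infDist (a n) (K : Set X),
    continuous_tsum (fun n => continuous_const.mul (lipschitz_infDist_set _).continuous) hs hb, ?_⟩
  intro K L hKL
  have hKL' : (K : Set X) ⊂ L := hKL
  obtain ⟨y, hyL, hyK⟩ := exists_of_ssubset hKL'
  obtain ⟨r, hr, hrK⟩ := Metric.isOpen_iff.mp K.isCompact.isClosed.isOpen_compl y hyK
  obtain ⟨n, hn⟩ := (denseRange_denseSeq X).exists_dist_lt y (half_pos hr)
  refine Summable.tsum_lt_tsum (i := n) (fun m => ?_) ?_ (Summable.of_norm_bounded hs fun m => hb m _)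
    (Summable.of_norm_bounded hs fun m => hb m _)
  · exact mul_le_mul_of_nonneg_left (infDist_le_infDist_of_subset hKL'.1 K.nonempty) (by positivity)
  · apply mul_lt_mul_of_pos_left _ (by positivity)
    have h1 : infDist (a n) (L : Set X) < r / 2 := by
      refine (infDist_le_dist_of_mem hyL).trans_lt ?_
      rw [dist_comm]; exact hn
    obtain ⟨k, hk, hk'⟩ := K.isCompact.exists_infDist_eq_dist K.nonempty (a n)
    have h2 : r ≤ dist k y := not_lt.mp fun h => hrK h hk
    have h3 := dist_triangle k (a n) y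
    rw [hk', dist_comm (a n) k]
    rw [dist_comm y] at hn
    change dist (a n) y < r / 2 at hn
    linarith

/-- order arcs -/
lemma order_arc {A : Set X} (hA : IsClosed A) (hAc : IsPreconnected A) {p : X} (hp : p ∈ A) :
    ∃ γ : ℝ → NonemptyCompacts X, Continuous γ ∧ (γ 0 : Set X) = {p} ∧ (γ 1 : Set X) = A ∧
      ∀ t, (γ t : Set X) ⊆ A := by
  have : Nonempty X := ⟨p⟩
  obtain ⟨ν, hν, hνs⟩ := whitney (X := X)
  set A' : NonemptyCompacts X := ⟨⟨A, hA.isCompact⟩, ⟨p, hp⟩⟩ with hA'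
  set P' : NonemptyCompacts X := {p} with hP'
  set S : Set (NonemptyCompacts X) := {K | IsPreconnected (K : Set X)} ∩
    ({K | ((K : Set X) ∩ {p}).Nonempty} ∩ {K | (K : Set X) ⊆ A}) with hS
  have hSc : IsClosed S := closed_conn.inter
    ((NonemptyCompacts.isClosed_inter_nonempty_of_isClosed isClosed_singleton).inter
      (NonemptyCompacts.isClosed_subsets_of_isClosed hA))
  have hpS : ∀ K ∈ S, P' ≤ K := fun K hK => by
    obtain ⟨z, hz, rfl⟩ := hK.2.1
    intro w hw
    have : w = z := hw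
    rw [this]; exact hz
  have hAS : ∀ K ∈ S, K ≤ A' := fun K hK => hK.2.2
  obtain ⟨M, hM⟩ := zorn_subset {c : Set (NonemptyCompacts X) | c ⊆ S ∧ IsChain (· ≤ ·) c} (by
    intro c hc hch
    refine ⟨⋃₀ c, ⟨sUnion_subset fun s hs => (hc hs).1, ?_⟩, fun s hs => subset_sUnion_of_mem hs⟩
    rintro K ⟨s, hs, hK⟩ L ⟨t, ht, hL⟩ hne
    rcases hch.total hs ht with h | h
    · exact (hc ht).2 (h hK) hL hne
    · exact (hc hs).2 hK (h hL) hne)
  have add : ∀ K ∈ S, (∀ L ∈ M, K ≤ L ∨ L ≤ K) → K ∈ M := fun K hK h => by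
    have := hM.eq_of_subset (t := insert K M) ⟨insert_subset hK hM.prop.1,
      hM.prop.2.insert fun L hL _ => h L hL⟩ (subset_insert _ _)
    rw [this]; exact mem_insert _ _
  have hPM : P' ∈ M := add _ ⟨isPreconnected_singleton, ⟨p, rfl, rfl⟩, by
    intro z hz
    have : z = p := hz
    rw [this]; exact hp⟩ fun L hL => Or.inl (hpS L (hM.prop.1 hL))
  have hAM : A' ∈ M := add _ ⟨hAc, ⟨p, hp, rfl⟩, fun _ h => h⟩
    fun L hL => Or.inr (hAS L (hM.prop.1 hL))
  have hMc : IsClosed M := by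
    rw [← closure_subset_iff_isClosed]
    intro K hK
    refine add K (closure_minimal hM.prop.1 hSc hK) fun L hL => ?_
    have h1 : IsClosed ({K : NonemptyCompacts X | K ≤ L} ∪ {K | L ≤ K}) := by
      refine IsClosed.union (NonemptyCompacts.isClosed_subsets_of_isClosed L.isCompact.isClosed) ?_
      have : {K : NonemptyCompacts X | L ≤ K} =
          ⋂ z ∈ (L : Set X), {K : NonemptyCompacts X | ((K : Set X) ∩ {z}).Nonempty} := by
        ext K
        simp only [mem_ofPred_eq, mem_iInter, inter_singleton_nonempty]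
        rfl
      rw [this]
      exact isClosed_biInter fun z _ =>
        NonemptyCompacts.isClosed_inter_nonempty_of_isClosed isClosed_singleton
    exact closure_minimal (fun K hK => hM.prop.2.total hK hL) h1 hK
  have hle : ∀ K ∈ M, ∀ L ∈ M, ν K ≤ ν L → L ≤ K := fun K hK L hL h => by
    rcases hM.prop.2.total hK hL with h' | h'
    · rcases h'.eq_or_lt with h'' | h''
      · exact h''.ge
      · exact absurd (hνs h'') (not_lt.mpr h)
    · exact h'
  have hsurj : ∀ t ∈ Icc (ν A') (ν P'), ∃ K ∈ M, ν K = t := by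
    intro t ht
    by_contra hn
    push Not at hn
    obtain ⟨K1, ⟨hK1, hK1t⟩, hK1m⟩ := ((hMc.inter (isClosed_le hν continuous_const :
      IsClosed {K | ν K ≤ t})).isCompact).exists_isMaxOn ⟨A', hAM, ht.1⟩ hν.continuousOn
    obtain ⟨K2, ⟨hK2, hK2t⟩, hK2m⟩ := ((hMc.inter (isClosed_le continuous_const hν :
      IsClosed {K | t ≤ ν K})).isCompact).exists_isMinOn ⟨P', hPM, ht.2⟩ hν.continuousOn
    simp only [mem_ofPred_eq] at hK1t hK2t
    have hlt : ν K1 < ν K2 := (lt_of_le_of_ne hK1t (hn _ hK1)).trans_le hK2t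
    have h21 : K2 < K1 := lt_of_le_of_ne (hle _ hK1 _ hK2 hlt.le) (by rintro rfl; exact lt_irrefl _ hlt)
    obtain ⟨C, hC, hCc, hC1, hC2⟩ := bump K2.isCompact.isClosed ⟨K2.nonempty, (hM.prop.1 hK2).1⟩
      K1.isCompact.isClosed (hM.prop.1 hK1).1 h21
    set C' : NonemptyCompacts X := ⟨⟨C, hC.isCompact⟩, hCc.nonempty⟩
    have e1 : K2 < C' := hC1
    have e2 : C' < K1 := hC2
    have hCM : C' ∈ M := add _ ⟨hCc.isPreconnected, ⟨p, hC1.1 (hpS _ (hM.prop.1 hK2) rfl), rfl⟩,
      hC2.1.trans (hM.prop.1 hK1).2.2⟩ fun L hL => by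
        rcases le_total (ν L) t with h | h
        · exact Or.inl (e2.le.trans (hle _ hL _ hK1 (hK1m ⟨hL, h⟩)))
        · exact Or.inr ((hle _ hK2 _ hL (hK2m ⟨hL, h⟩)).trans e1.le)
    rcases le_total (ν C') t with h | h
    · exact absurd (hνs e2) (not_lt.mpr (hK1m ⟨hCM, h⟩))
    · exact absurd (hνs e1) (not_lt.mpr (hK2m ⟨hCM, h⟩))
  have hAP : ν A' ≤ ν P' := hνs.antitone (hpS _ (hM.prop.1 hAM))
  have : CompactSpace M := isCompact_iff_compactSpace.mp hMc.isCompact
  let φ : M → Icc (ν A') (ν P') := fun K => ⟨ν K, hνs.antitone (hAS _ (hM.prop.1 K.2)),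
    hνs.antitone (hpS _ (hM.prop.1 K.2))⟩
  have hφ : Continuous φ := (hν.comp continuous_subtype_val).subtype_mk _
  have hφb : Function.Bijective φ := by
    constructor
    · intro K L h
      have h' : ν K = ν L := congrArg Subtype.val h
      exact Subtype.ext (le_antisymm (hle _ L.2 _ K.2 h'.ge) (hle _ K.2 _ L.2 h'.le))
    · intro t
      obtain ⟨K, hK, h⟩ := hsurj t t.2
      exact ⟨⟨K, hK⟩, Subtype.ext h⟩
  let e := hφ.homeoOfEquivCompactToT2 (f := Equiv.ofBijective φ hφb)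
  refine ⟨fun t => (e.symm (projIcc _ _ hAP (ν P' + t * (ν A' - ν P'))) : M), ?_, ?_, ?_, ?_⟩
  · exact continuous_subtype_val.comp (e.symm.continuous.comp (continuous_projIcc.comp (by fun_prop)))
  · have : projIcc _ _ hAP (ν P' + 0 * (ν A' - ν P')) = e ⟨P', hPM⟩ := by
      rw [zero_mul, add_zero, projIcc_right]; rfl
    simp only [this, Homeomorph.symm_apply_apply]; rfl
  · have : projIcc _ _ hAP (ν P' + 1 * (ν A' - ν P')) = e ⟨A', hAM⟩ := by
      rw [one_mul, add_sub_cancel, projIcc_left]; rfl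
    simp only [this, Homeomorph.symm_apply_apply]; rfl
  · intro t
    exact (hM.prop.1 (Subtype.prop _)).2.2

end order

end Pool.Agent.H33.Contin
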