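import Mathlib
import Pool.Agent.H33.Groth

/-!
Products of weakly Grothendieck spaces with compact spaces.
-/

open Set Filter Topology

namespace Pool.Agent.H33.GrothProd

open Pool.Agent.H33.GrothDefs Pool.Agent.H33.Groth

/-- cut-off -/
noncomputable def cut (a b : ℕ → ℝ) (i : ℕ) : ℝ := max 0 (1 - 2 ^ i * |a i - b i|)

/-- running minimum of the cut-offs -/
noncomputable def th (a b : ℕ → ℝ) : ℕ → ℝ
  | 0 => cut a b 0
  | n + 1 => min (th a b n) (cut a b (n + 1))

/-- the supremum functional -/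
noncomputable def sp (a b : ℕ → ℝ) : ℝ := ⨆ n, min |a n| (th a b n)

theorem cut_le_one (a b : ℕ → ℝ) (i : ℕ) : cut a b i ≤ 1 :=
  max_le zero_le_one (sub_le_self _ (by positivity))

theorem th_le_cut (a b : ℕ → ℝ) : ∀ n, th a b n ≤ cut a b n
  | 0 => le_rfl
  | _ + 1 => min_le_right _ _

theorem th_nonneg (a b : ℕ → ℝ) : ∀ n, 0 ≤ th a b n
  | 0 => le_max_left _ _
  | n + 1 => le_min (th_nonneg a b n) (le_max_left _ _)

theorem th_anti (a b : ℕ → ℝ) : Antitone (th a b) :=
  antitone_nat_of_succ_le fun _ => min_le_left _ _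

theorem th_self (a : ℕ → ℝ) : ∀ n, th a a n = 1
  | 0 => by simp [th, cut]
  | n + 1 => by simp [th, cut, th_self a n]

theorem lt_of_th_pos {a b : ℕ → ℝ} {n : ℕ} (h : 0 < th a b n) : 2 ^ n * |a n - b n| < 1 := by
  have := h.trans_le (th_le_cut a b n)
  rcases lt_max_iff.1 this with h | h
  · exact absurd h (lt_irrefl _)
  · linarith

theorem le_sp (a b : ℕ → ℝ) (n : ℕ) : min |a n| (th a b n) ≤ sp a b :=
  le_ciSup (f := fun n => min |a n| (th a b n)) ⟨1, by
    rintro _ ⟨n, rfl⟩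
    exact (min_le_right _ _).trans ((th_le_cut a b n).trans (cut_le_one a b n))⟩ n

theorem continuousAt_sp {W : Type*} [TopologicalSpace W] {w₀ : W} {a b : W → ℕ → ℝ}
    (ha : ∀ n, ContinuousAt (fun w => a w n) w₀) (hb : ∀ n, ContinuousAt (fun w => b w n) w₀)
    (hE : ∀ η > 0, ∃ m, ∀ᶠ w in 𝓝 w₀, ∀ n ≥ m, 2 ^ n * |a w n - b w n| < 1 →
      2 ^ n * |a w₀ n - b w₀ n| < 1 → |a w n| ≤ |a w₀ n| + η) :
    ContinuousAt (fun w => sp (a w) (b w)) w₀ := by
  have hc : ∀ n, ContinuousAt (fun w => cut (a w) (b w) n) w₀ := fun n =>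
    continuousAt_const.max (continuousAt_const.sub
      (continuousAt_const.mul ((ha n).sub (hb n)).abs))
  have ht : ∀ n, ContinuousAt (fun w => th (a w) (b w) n) w₀ := by
    intro n
    induction n with
    | zero => exact hc 0
    | succ n ih => exact ih.min (hc (n + 1))
  have hψ : ∀ n, ContinuousAt (fun w => min |a w n| (th (a w) (b w) n)) w₀ := fun n =>
    (ha n).abs.min (ht n)
  have h0 : 0 ≤ sp (a w₀) (b w₀) :=
    (le_min (abs_nonneg _) (th_nonneg _ _ 0)).trans (le_sp _ _ 0)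
  refine tendsto_order.2 ⟨fun c hc => ?_, fun c hc => ?_⟩
  · obtain ⟨n, hn⟩ := exists_lt_of_lt_ciSup hc
    exact ((hψ n).eventually (lt_mem_nhds hn)).mono fun w hw => hw.trans_le (le_sp _ _ n)
  · obtain ⟨η, hη, hηc⟩ : ∃ η > 0, sp (a w₀) (b w₀) + η < c :=
      ⟨(c - sp (a w₀) (b w₀)) / 2, by linarith, by linarith⟩
    obtain ⟨m₁, hm₁⟩ := hE η hη
    have hbd : BddBelow (range (th (a w₀) (b w₀))) := ⟨0, by
      rintro _ ⟨n, rfl⟩
      exact th_nonneg _ _ n⟩
    obtain ⟨m₂, hm₂⟩ := exists_lt_of_ciInf_lt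
      (lt_add_of_pos_right (⨅ n, th (a w₀) (b w₀) n) hη)
    have h1 := (ht m₂).eventually (gt_mem_nhds hm₂)
    have h2 : ∀ᶠ w in 𝓝 w₀, ∀ n ∈ Finset.range (max m₁ m₂),
        min |a w n| (th (a w) (b w) n) < sp (a w₀) (b w₀) + η :=
      (eventually_all_finset _).2 fun n _ => (hψ n).eventually (gt_mem_nhds
        ((le_sp _ _ n).trans_lt (lt_add_of_pos_right _ hη)))
    filter_upwards [hm₁, h1, h2] with w hw hw1 hw2
    refine lt_of_le_of_lt (ciSup_le fun n => ?_) hηc
    rcases lt_or_ge n (max m₁ m₂) with hn | hn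
    · exact (hw2 n (Finset.mem_range.2 hn)).le
    have h3 : th (a w) (b w) n ≤ (⨅ n, th (a w₀) (b w₀) n) + η :=
      (th_anti _ _ ((le_max_right _ _).trans hn)).trans hw1.le
    have h4 := ciInf_le hbd n
    rcases le_or_gt (th (a w₀) (b w₀) n) 0 with h5 | h5
    · exact (min_le_right _ _).trans (by linarith)
    rcases le_or_gt (th (a w) (b w) n) 0 with h6 | h6
    · exact (min_le_right _ _).trans (by linarith)
    have h7 := hw n ((le_max_left _ _).trans hn) (lt_of_th_pos h6) (lt_of_th_pos h5)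
    refine le_trans ?_ (add_le_add_left (le_sp _ _ n) η)
    rw [← min_add_add_right]
    exact min_le_min h7 (by linarith)

variable {X K : Type*} [TopologicalSpace X] [TopologicalSpace K]

theorem equi_of_continuous [CompactSpace K] {h : X × K → ℝ} (hh : Continuous h) (x₀ : X) {ε : ℝ}
    (hε : 0 < ε) : ∀ᶠ x in 𝓝 x₀, ∀ k, |h (x, k) - h (x₀, k)| < ε := by
  have := (ContinuousMap.curry ⟨h, hh⟩).continuous.continuousAt (x := x₀)
  filter_upwards [this (Metric.ball_mem_nhds _ hε)] with x hx k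
  exact (ContinuousMap.dist_lt_iff hε).1 hx k

theorem slice_left (hX : GA {f : X → ℝ | Continuous f}) {A : Set (X × K → ℝ)}
    (hA : A ⊆ {f | Continuous f}) (hS : SC {f | Continuous f} A) {g : X × K → ℝ}
    (hg : g ∈ closure A) (Ψ : (X × K → ℝ) → X → ℝ) (hΨ : Continuous Ψ)
    (hΨc : ∀ h, Continuous h → Continuous (Ψ h)) : Continuous (Ψ g) := by
  refine (hX (Ψ '' A) ?_ (hS.image hΨ fun h hh => hΨc h hh)).2
    (map_mem_closure hΨ hg fun _ hf => mem_image_of_mem _ hf)
  rintro _ ⟨f, hf, rfl⟩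
  exact hΨc f (hA hf)

theorem equi_countable [CompactSpace K] (hX : GA {f : X → ℝ | Continuous f})
    {A : Set (X × K → ℝ)} (hA : A ⊆ {f | Continuous f}) (hS : SC {f | Continuous f} A)
    {g : X × K → ℝ} (hg : g ∈ closure A) (d : ℕ → K) (x₀ : X) {ε : ℝ} (hε : 0 < ε) :
    ∀ᶠ x in 𝓝 x₀, ∀ n, |g (x, d n) - g (x₀, d n)| < ε := by
  have s1 : ∀ k, Continuous fun x => g (x, k) := fun k =>
    slice_left hX hA hS hg (fun h x => h (x, k)) (by fun_prop) fun h hh => by fun_prop
  let a : (X × K → ℝ) → X → ℕ → ℝ := fun h x n => h (x, d n) - h (x₀, d n)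
  have h1 : Continuous fun x => sp (a g x) (a g x) := by
    refine slice_left hX hA hS hg (fun h x => sp (a h x) (a g x)) ?_ ?_
    · refine continuous_pi fun x => continuous_iff_continuousAt.2 fun h₀ => ?_
      refine continuousAt_sp (fun n => Continuous.continuousAt (by fun_prop))
        (fun n => continuousAt_const) fun η hη => ?_
      obtain ⟨m, hm⟩ := pow_unbounded_of_one_lt (2 / η) (one_lt_two (α := ℝ))
      refine ⟨m, Eventually.of_forall fun h n hn h2 h3 => ?_⟩
      have h4 : (2 : ℝ) ^ m ≤ 2 ^ n := pow_le_pow_right₀ one_le_two hn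
      have h5 : (0 : ℝ) < 2 ^ n := by positivity
      rw [div_lt_iff₀ hη] at hm
      have h6 : |a h x n - a h₀ x n| ≤ |a h x n - a g x n| + |a h₀ x n - a g x n| := by
        rw [abs_sub_comm (a h₀ x n)]
        exact abs_sub_le _ _ _
      have h7 : |a h x n - a h₀ x n| ≤ η := by
        by_contra h8
        push Not at h8
        nlinarith
      have := abs_sub_abs_le_abs_sub (a h x n) (a h₀ x n)
      linarith
    · intro h hh
      refine continuous_iff_continuousAt.2 fun x₁ => ?_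
      refine continuousAt_sp (fun n => Continuous.continuousAt (by fun_prop))
        (fun n => ((s1 (d n)).sub continuous_const).continuousAt) fun η hη => ⟨0, ?_⟩
      filter_upwards [equi_of_continuous hh x₁ hη] with x hx n _ _ _
      have h2 := abs_sub_abs_le_abs_sub (a h x n) (a h x₁ n)
      have h3 : a h x n - a h x₁ n = h (x, d n) - h (x₁, d n) := by simp [a]
      have := hx (d n)
      rw [h3] at h2
      linarith
  have h2 : sp (a g x₀) (a g x₀) < min ε 1 := by
    simp [sp, a, th_self, hε]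
  filter_upwards [h1.continuousAt.eventually (gt_mem_nhds h2)] with x hx n
  have h3 := (le_sp (a g x) (a g x) n).trans_lt hx
  rw [th_self] at h3
  rcases min_lt_iff.1 h3 with h4 | h4
  · exact h4.trans_le (min_le_left _ _)
  · exact absurd (h4.trans_le (min_le_right _ _)) (lt_irrefl _)

theorem sup_close {ι : Type*} [Nonempty ι] {u v : ι → ℝ} (hu : ∀ i, u i ≤ 1) (hv : ∀ i, v i ≤ 1)
    {ε : ℝ} (h : ∀ i, |u i - v i| ≤ ε) : |(⨆ i, u i) - ⨆ i, v i| ≤ ε := by
  have h1 : BddAbove (range u) := ⟨1, by rintro _ ⟨i, rfl⟩; exact hu i⟩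
  have h2 : BddAbove (range v) := ⟨1, by rintro _ ⟨i, rfl⟩; exact hv i⟩
  rw [abs_sub_le_iff, sub_le_iff_le_add, sub_le_iff_le_add]
  constructor
  · refine ciSup_le fun i => ?_
    have := le_ciSup h2 i
    have := (abs_le.1 (h i)).2
    linarith
  · refine ciSup_le fun i => ?_
    have := le_ciSup h1 i
    have := (abs_le.1 (h i)).1
    linarith

theorem equi_of_countable [CompactSpace K] [Nonempty K] (hX : GA {f : X → ℝ | Continuous f})
    {g : X × K → ℝ} (s2 : ∀ x, Continuous fun k => g (x, k))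
    (s3 : ∀ (d : ℕ → K) (x₀ : X) (ε : ℝ), 0 < ε →
      ∀ᶠ x in 𝓝 x₀, ∀ n, |g (x, d n) - g (x₀, d n)| < ε) (x₀ : X) {ε : ℝ} (hε : 0 < ε) :
    ∀ᶠ x in 𝓝 x₀, ∀ k, |g (x, k) - g (x₀, k)| < ε := by
  let u : X → K → ℝ := fun x k => min 1 |g (x, k) - g (x₀, k)|
  have hu1 : ∀ x k, u x k ≤ 1 := fun x k => min_le_left _ _
  have hu0 : ∀ x k, 0 ≤ u x k := fun x k => le_min zero_le_one (abs_nonneg _)
  have hu : ∀ x x' k, |u x k - u x' k| ≤ |g (x, k) - g (x', k)| := fun x x' k => by
    refine (abs_min_sub_min_le_max _ _ _ _).trans (max_le (by simp) ?_)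
    refine (abs_abs_sub_abs_le_abs_sub _ _).trans (le_of_eq ?_)
    congr 1
    ring
  let s : (ℕ → K) → X → ℝ := fun d x => ⨆ n, u x (d n)
  have hs : ∀ (D : ℕ → ℕ → K) (x₁ : X) (η : ℝ), 0 < η →
      ∀ᶠ x in 𝓝 x₁, ∀ j, |s (D j) x - s (D j) x₁| ≤ η := by
    intro D x₁ η hη
    filter_upwards [s3 (fun n => D n.unpair.1 n.unpair.2) x₁ η hη] with x hx j
    refine sup_close (fun n => hu1 _ _) (fun n => hu1 _ _) fun n => (hu _ _ _).trans ?_
    simpa using (hx (Nat.pair j n)).le
  have hcont : ∀ q : X → ℝ, (∀ x₁ η, 0 < η → ∀ᶠ x in 𝓝 x₁, |q x - q x₁| ≤ η) → Continuous q := by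
    intro q hq
    refine continuous_iff_continuousAt.2 fun x₁ => Metric.tendsto_nhds.2 fun η hη => ?_
    exact (hq x₁ (η / 2) (by linarith)).mono fun x hx => by
      rw [Real.dist_eq]
      linarith
  have hb : ∀ x, BddAbove (range (u x)) := fun x => ⟨1, by rintro _ ⟨i, rfl⟩; exact hu1 x i⟩
  have h1 : Continuous fun x => ⨆ k, u x k := by
    refine (hX (range s) ?_ ?_).2 ?_
    · rintro _ ⟨d, rfl⟩
      exact hcont _ fun x₁ η hη => (hs (fun _ => d) x₁ η hη).mono fun x hx => hx 0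
    · intro a ha
      choose D hD using ha
      have hK : IsCompact (univ.pi fun _ : X => Icc (0 : ℝ) 1) :=
        isCompact_univ_pi fun _ => isCompact_Icc
      obtain ⟨q, -, hqa⟩ := hK.exists_mapClusterPt (f := atTop) (u := a) (by
        rw [le_principal_iff, Filter.mem_map]
        refine Eventually.of_forall fun n x _ => ?_
        rw [← hD n]
        exact ⟨Real.iSup_nonneg fun _ => hu0 _ _, ciSup_le fun _ => hu1 _ _⟩)
      refine ⟨q, hcont q fun x₁ η hη => (hs D x₁ η hη).mono fun x hx => ?_, hqa⟩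
      refine (isClosed_le (f := fun f : X → ℝ => |f x - f x₁|) (by fun_prop)
        continuous_const).mem_of_mapClusterPt hqa (Eventually.of_forall fun j => ?_)
      rw [← hD j]
      exact hx j
    · rw [mem_closure_iff_nhds]
      intro U hU
      rw [nhds_pi, Filter.mem_pi] at hU
      obtain ⟨J, hJ, t, ht, htU⟩ := hU
      have h2 : ∀ x, ∃ k, ∀ k', u x k' ≤ u x k := fun x => by
        obtain ⟨k, -, hk⟩ := isCompact_univ.exists_isMaxOn univ_nonempty
          (f := u x) (continuous_const.min ((s2 x).sub (s2 x₀)).abs).continuousOn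
        exact ⟨k, fun k' => hk (mem_univ k')⟩
      choose κ hκ using h2
      obtain ⟨e, he⟩ := (hJ.insert x₀).countable.exists_eq_range (insert_nonempty _ _)
      refine ⟨s (fun n => κ (e n)), htU fun j hj => ?_, mem_range_self _⟩
      obtain ⟨n, rfl⟩ : j ∈ range e := he ▸ mem_insert_of_mem _ hj
      have : s (fun n => κ (e n)) (e n) = ⨆ k, u (e n) k := by
        refine le_antisymm (ciSup_le fun m => le_ciSup (hb _) _) (ciSup_le fun k => ?_)
        refine (hκ _ k).trans (le_ciSup (f := fun m => u (e n) (κ (e m))) ⟨1, ?_⟩ n)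
        rintro _ ⟨i, rfl⟩
        exact hu1 _ _
      rw [this]
      exact mem_of_mem_nhds (ht _)
  have h2 : (⨆ k, u x₀ k) < min ε 1 := by simp [u, hε]
  filter_upwards [h1.continuousAt.eventually (gt_mem_nhds h2)] with x hx k
  have h3 := (le_ciSup (hb x) k).trans_lt hx
  rcases min_lt_iff.1 h3 with h4 | h4
  · exact absurd (h4.trans_le (min_le_right _ _)) (lt_irrefl _)
  · exact h4.trans_le (min_le_left _ _)

theorem ga_prod [CompactSpace K] (hX : GA {f : X → ℝ | Continuous f}) :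
    GA {f : X × K → ℝ | Continuous f} := by
  intro A hA hS
  refine ⟨hS.isCompact_closure, fun g hg => ?_⟩
  rcases isEmpty_or_nonempty K with hK | hK
  · exact continuous_iff_continuousAt.2 fun p => isEmptyElim p.2
  have s2 : ∀ x, Continuous fun k => g (x, k) := fun x => by
    have hΨ : Continuous fun (h : X × K → ℝ) k => h (x, k) := by fun_prop
    refine (ga_of_compact (X := K) _ Subset.rfl ((fun (h : X × K → ℝ) k => h (x, k)) '' A) ?_
      (hS.image hΨ fun h (hh : Continuous h) => ?_)).2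
      (map_mem_closure hΨ hg fun _ hf => mem_image_of_mem _ hf)
    · rintro _ ⟨f, hf, rfl⟩
      exact (hA hf : Continuous f).comp (by fun_prop)
    · exact hh.comp (by fun_prop)
  refine continuous_iff_continuousAt.2 fun p => Metric.tendsto_nhds.2 fun ε hε => ?_
  have h1 := equi_of_countable hX s2 (fun d x₀ ε hε => equi_countable hX hA hS hg d x₀ hε) p.1
    (half_pos hε)
  have h2 := Metric.tendsto_nhds.1 ((s2 p.1).continuousAt (x := p.2)) _ (half_pos hε)
  rw [nhds_prod_eq]
  filter_upwards [prod_mem_prod h1 h2] with q hq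
  have h3 := hq.1 q.2
  have h4 : |g (p.1, q.2) - g p| < ε / 2 := hq.2
  have h5 := abs_sub_le (g q) (g (p.1, q.2)) (g p)
  rw [Real.dist_eq]
  simp only [Prod.mk.eta] at h3
  linarith

end Pool.Agent.H33.GrothProd
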