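import Mathlib
import Pool.Agent.H33.GrothProd

/-!
Continuous fields of finite nets, and compact subspaces of `C_p(X × K)`.
-/

open Set Filter Topology

namespace Pool.Agent.H33.Fields

open Pool.Agent.H33.GrothDefs Pool.Agent.H33.Groth Pool.Agent.H33.GrothProd

variable {X K : Type*} [TopologicalSpace X] [TopologicalSpace K]

/-- a comparison map into `C_p(X)` -/
def IsField (Φ : (X × K → ℝ) → (X × K → ℝ) → X → ℝ) : Prop :=
  (Continuous fun p : (X × K → ℝ) × (X × K → ℝ) => Φ p.1 p.2) ∧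
    (∀ h h', Continuous h → Continuous h' → Continuous (Φ h h')) ∧
    (∀ h h' x, 0 ≤ Φ h h' x) ∧ ∀ h, Φ h h = 0

theorem exists_field [CompactSpace K] (S : Finset (X × K → ℝ)) (hS : ∀ f ∈ S, Continuous f)
    {ε : ℝ} (hε : 0 < ε) : ∃ Φ : (X × K → ℝ) → (X × K → ℝ) → X → ℝ, IsField Φ ∧
      ∀ h h', Φ h h' = 0 → ∀ x k, ∃ k', h (x, k') = h' (x, k') ∧
        ∀ f ∈ S, |f (x, k) - f (x, k')| ≤ ε := by
  classical
  let m : X → S → C(K, ℝ) := fun x f => ContinuousMap.curry ⟨f.1, hS f f.2⟩ x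
  have hm : Continuous m := continuous_pi fun f => (ContinuousMap.curry _).continuous
  have hε' : 0 < ε / 3 := by linarith
  have hnet : ∀ c : S → C(K, ℝ), ∃ F : Finset K, ∀ k, ∃ k' ∈ F, ∀ f, |c f k - c f k'| < ε / 3 := by
    intro c
    obtain ⟨F, hF⟩ := isCompact_univ.elim_finite_subcover
      (fun k' : K => ⋂ f : S, {k | |c f k - c f k'| < ε / 3})
      (fun k' => isOpen_iInter_of_finite fun f => isOpen_lt (by fun_prop) continuous_const)
      (fun k _ => mem_iUnion.2 ⟨k, mem_iInter.2 fun f => by simpa using hε'⟩)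
    refine ⟨F, fun k => ?_⟩
    obtain ⟨k', hk', h⟩ := mem_iUnion₂.1 (hF (mem_univ k))
    exact ⟨k', hk', fun f => mem_iInter.1 h f⟩
  choose F hF using hnet
  obtain ⟨ρ, hρ⟩ := PartitionOfUnity.exists_isSubordinate (isClosed_univ (X := S → C(K, ℝ)))
    (fun c => Metric.ball c (ε / 3)) (fun c => Metric.isOpen_ball)
    (fun c _ => mem_iUnion.2 ⟨c, Metric.mem_ball_self hε'⟩)
  let t : (X × K → ℝ) → (X × K → ℝ) → X → (S → C(K, ℝ)) → ℝ := fun h h' x c =>
    ρ c (m x) * ∑ k ∈ F c, |h (x, k) - h' (x, k)|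
  have ht0 : ∀ h h' x c, 0 ≤ t h h' x c := fun h h' x c =>
    mul_nonneg (ρ.nonneg _ _) (Finset.sum_nonneg fun _ _ => abs_nonneg _)
  have hlf : ∀ h h', LocallyFinite fun c => Function.support fun x => t h h' x c := fun h h' =>
    (ρ.locallyFinite.preimage_continuous hm).subset fun c x hx => left_ne_zero_of_mul hx
  refine ⟨fun h h' x => ∑ᶠ c, t h h' x c, ⟨continuous_pi fun x => ?_, fun h h' hh hh' => ?_,
    fun h h' x => finsum_nonneg (ht0 h h' x), fun h => ?_⟩, ?_⟩
  · have : (fun p : (X × K → ℝ) × (X × K → ℝ) => ∑ᶠ c, t p.1 p.2 x c) =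
        fun p => ∑ c ∈ ρ.finsupport (m x), t p.1 p.2 x c := by
      funext p
      refine finsum_eq_sum_of_support_subset _ fun c hc => ?_
      rw [ρ.coe_finsupport]
      exact left_ne_zero_of_mul hc
    rw [this]
    refine continuous_finsetSum _ fun c _ => continuous_const.mul ?_
    exact continuous_finsetSum _ fun k _ => by fun_prop
  · refine continuous_finsum (fun c => ((ρ c).continuous.comp hm).mul ?_) (hlf h h')
    exact continuous_finsetSum _ fun k _ => by fun_prop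
  · funext x
    simp [t]
  · intro h h' h0 x k
    obtain ⟨c, hc⟩ := ρ.exists_pos (mem_univ (m x))
    have h1 : t h h' x c ≤ 0 := by
      have := single_le_finsum c ((hlf h h').point_finite x) (ht0 h h' x)
      rwa [show ∑ᶠ c, t h h' x c = 0 from congrFun h0 x] at this
    have h2 : ∑ k ∈ F c, |h (x, k) - h' (x, k)| = 0 :=
      le_antisymm (nonpos_of_mul_nonpos_right h1 hc |>.trans le_rfl)
        (Finset.sum_nonneg fun _ _ => abs_nonneg _)
    obtain ⟨k', hk', hk⟩ := hF c k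
    refine ⟨k', sub_eq_zero.1 (abs_eq_zero.1 ((Finset.sum_eq_zero_iff_of_nonneg
      fun _ _ => abs_nonneg _).1 h2 k' hk')), fun f hf => ?_⟩
    have h3 : dist (m x ⟨f, hf⟩) (c ⟨f, hf⟩) < ε / 3 :=
      (dist_pi_lt_iff hε').1 (hρ c (subset_tsupport _ hc.ne')) _
    have h4 : |f (x, k) - c ⟨f, hf⟩ k| < ε / 3 := (ContinuousMap.dist_lt_iff hε').1 h3 k
    have h5 : |f (x, k') - c ⟨f, hf⟩ k'| < ε / 3 := (ContinuousMap.dist_lt_iff hε').1 h3 k'
    have h6 := hk ⟨f, hf⟩
    rw [abs_lt] at h4 h5 h6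
    rw [abs_le]
    constructor <;> linarith

theorem exists_fields (X K : Type*) [TopologicalSpace X] [TopologicalSpace K] [CompactSpace K] :
    ∃ Φ : Finset (X × K → ℝ) × ℕ → (X × K → ℝ) → (X × K → ℝ) → X → ℝ, (∀ i, IsField (Φ i)) ∧
      ∀ A : Set (X × K → ℝ), (∀ f ∈ A, Continuous f) → ∀ h ∈ closure A, ∀ h' ∈ closure A,
        Continuous h → Continuous h' → (∀ i, ↑i.1 ⊆ A → Φ i h h' = 0) → h = h' := by
  classical
  have h1 : ∀ i : Finset (X × K → ℝ) × ℕ, ∃ Φ : (X × K → ℝ) → (X × K → ℝ) → X → ℝ, IsField Φ ∧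
      ((∀ f ∈ i.1, Continuous f) → ∀ h h', Φ h h' = 0 → ∀ x k, ∃ k', h (x, k') = h' (x, k') ∧
        ∀ f ∈ i.1, |f (x, k) - f (x, k')| ≤ 1 / ((i.2 : ℝ) + 1)) := by
    intro i
    by_cases hi : ∀ f ∈ i.1, Continuous f
    · obtain ⟨Φ, h1, h2⟩ := exists_field i.1 hi (Nat.one_div_pos_of_nat (n := i.2))
      exact ⟨Φ, h1, fun _ => h2⟩
    · exact ⟨0, ⟨continuous_const, fun _ _ _ _ => continuous_const, fun _ _ _ => le_rfl,
        fun _ => rfl⟩, fun h => absurd h hi⟩
  choose Φ hΦ hΦ' using h1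
  refine ⟨Φ, hΦ, fun A hA h hh h' hh' hc hc' h0 => ?_⟩
  funext ⟨x, k⟩
  obtain ⟨k', -, hk'⟩ := isCompact_univ.inter_iInter_nonempty
    (fun i : Option (A × ℕ) => {k' : K | h (x, k') = h' (x, k') ∧
      ∀ j ∈ i, |j.1.1 (x, k) - j.1.1 (x, k')| ≤ 1 / ((j.2 : ℝ) + 1)}) (fun i => by
      rw [ofPred_and]
      refine (isClosed_eq (by fun_prop) (by fun_prop)).inter ?_
      simp only [ofPred_forall]
      refine isClosed_iInter fun j => isClosed_iInter fun _ => ?_
      have := hA _ j.1.2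
      exact isClosed_le (by fun_prop) continuous_const) (fun u => by
      let S : Finset (X × K → ℝ) := u.eraseNone.image fun j => j.1.1
      have hS : ↑S ⊆ A := by
        intro f hf
        obtain ⟨j, -, rfl⟩ := Finset.mem_image.1 (Finset.mem_coe.1 hf)
        exact j.1.2
      obtain ⟨k', h1, h2⟩ := hΦ' (S, u.eraseNone.sup fun j => j.2) (fun f hf => hA f (hS hf)) h h'
        (h0 _ hS) x k
      refine ⟨k', mem_univ _, mem_iInter₂.2 fun i hi => ⟨h1, fun j hj => ?_⟩⟩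
      have hj' : j ∈ u.eraseNone := by
        rw [Finset.mem_eraseNone, ← Option.mem_def.1 hj]
        exact hi
      exact (h2 _ (Finset.mem_image_of_mem _ hj')).trans
        (Nat.one_div_le_one_div (Finset.le_sup (f := fun j : A × ℕ => j.2) hj')))
  rw [mem_iInter] at hk'
  have h2 : closure A ⊆ {f | f (x, k) = f (x, k')} := by
    refine closure_minimal (fun f hf => ?_) (isClosed_eq (by fun_prop) (by fun_prop))
    refine sub_eq_zero.1 (abs_nonpos_iff.1 (ge_of_tendsto'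
      (tendsto_one_div_add_atTop_nhds_zero_nat (𝕜 := ℝ)) fun n => ?_))
    exact (hk' (some (⟨f, hf⟩, n))).2 _ rfl
  rw [h2 hh, h2 hh']
  exact (hk' none).1

theorem combine {ι : Type*} (I : Set ι) (hI : I.Countable)
    (Φ : ι → (X × K → ℝ) → (X × K → ℝ) → X → ℝ) (hΦ : ∀ i, IsField (Φ i)) :
    ∃ Ψ : (X × K → ℝ) → (X × K → ℝ) → X → ℝ, IsField Ψ ∧
      ∀ h h', Ψ h h' = 0 → ∀ i ∈ I, Φ i h h' = 0 := by
  have := hI.to_subtype
  obtain ⟨e, he⟩ := exists_injective_nat I
  have hs : Summable fun y : I => ((1 : ℝ) / 2) ^ e y :=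
    (summable_geometric_two).comp_injective he
  let t : (X × K → ℝ) → (X × K → ℝ) → X → I → ℝ := fun h h' x y =>
    ((1 : ℝ) / 2) ^ e y * min 1 (Φ y h h' x)
  have ht0 : ∀ h h' x y, 0 ≤ t h h' x y := fun h h' x y =>
    mul_nonneg (by positivity) (le_min zero_le_one ((hΦ y).2.2.1 _ _ _))
  have ht : ∀ h h' x y, ‖t h h' x y‖ ≤ ((1 : ℝ) / 2) ^ e y := fun h h' x y => by
    rw [Real.norm_of_nonneg (ht0 h h' x y)]
    exact mul_le_of_le_one_right (by positivity) (min_le_left _ _)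
  refine ⟨fun h h' x => ∑' y, t h h' x y, ⟨continuous_pi fun x => ?_, fun h h' hh hh' => ?_,
    fun h h' x => tsum_nonneg (ht0 h h' x), fun h => ?_⟩, fun h h' h0 i hi => ?_⟩
  · exact continuous_tsum (fun y => continuous_const.mul (continuous_const.min
      ((continuous_apply x).comp (hΦ y).1))) hs fun y p => ht _ _ x y
  · exact continuous_tsum (fun y => continuous_const.mul (continuous_const.min
      ((hΦ y).2.1 h h' hh hh'))) hs fun y x => ht _ _ x y
  · funext x
    simp [t, (hΦ _).2.2.2]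
  · funext x
    have h3 : Summable (t h h' x) := Summable.of_norm_bounded hs (ht h h' x)
    have h4 := h3.le_tsum ⟨i, hi⟩ (fun j _ => ht0 h h' x j)
    rw [show ∑' y, t h h' x y = 0 from congrFun h0 x] at h4
    have h5 : min 1 (Φ i h h' x) ≤ 0 := by
      by_contra hc
      push Not at hc
      have : 0 < t h h' x ⟨i, hi⟩ := mul_pos (by positivity) hc
      linarith
    rcases min_le_iff.1 h5 with h6 | h6
    · norm_num at h6
    · exact le_antisymm h6 ((hΦ i).2.2.1 _ _ _)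

theorem countable_idx {α : Type*} {A : Set α} (hA : A.Countable) :
    {i : Finset α × ℕ | ↑i.1 ⊆ A}.Countable := by
  have h1 : {s : Finset α | ↑s ⊆ A}.Countable := by
    refine Countable.mono ?_ ((countable_ofPred_finite_subset hA).preimage_of_injOn
      (f := fun s : Finset α => (s : Set α)) Finset.coe_injective.injOn)
    exact fun s hs => ⟨s.finite_toSet, hs⟩
  refine Countable.mono ?_ (h1.prod (countable_univ (α := ℕ)))
  exact fun i hi => ⟨hi, mem_univ _⟩

theorem exists_countable_subset_image_eq_of_countable {α β : Type*} {f : α → β} {A : Set α}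
    {C : Set β} (hC : C ⊆ f '' A) (hCc : C.Countable) : ∃ T ⊆ A, T.Countable ∧ f '' T = C := by
  choose p hp hp' using fun c : C => hC c.2
  have := hCc.to_subtype
  refine ⟨range p, range_subset_iff.2 hp, countable_range _, ?_⟩
  rw [← range_comp, show f ∘ p = Subtype.val from funext hp', Subtype.range_coe]

theorem IsField.cont {Φ : (X × K → ℝ) → (X × K → ℝ) → X → ℝ} (h : IsField Φ) (g : X × K → ℝ) :
    Continuous fun f => Φ f g := h.1.comp (continuous_id.prodMk continuous_const)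

theorem tight_prod [CompactSpace K]
    (hX : ∀ L ⊆ {f : X → ℝ | Continuous f}, IsCompact L → ∀ A ⊆ L, ∀ z ∈ L, z ∈ closure A →
      ∃ C ⊆ A, C.Countable ∧ z ∈ closure C)
    {B : Set (X × K → ℝ)} (hB : B ⊆ {f | Continuous f}) (hc : IsCompact B) {A : Set (X × K → ℝ)}
    (hA : A ⊆ B) {g : X × K → ℝ} (hg : g ∈ closure A) :
    ∃ C ⊆ A, C.Countable ∧ g ∈ closure C := by
  have hcl : closure A ⊆ B := closure_minimal hA hc.isClosed
  obtain ⟨Φ, hΦ, hsep⟩ := exists_fields X K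
  obtain ⟨S, hSm, -, hSP, hSQ⟩ := exists_chain (fun S => S ⊆ A ∧ S.Countable) ∅ (by simp)
    (fun S T hS hT => ⟨union_subset hS.1 hT.1, hS.2.union hT.2⟩)
    (fun S T => ∃ h ∈ closure T, ∀ i, ↑i.1 ⊆ insert g S → Φ i h g = 0) (by
    intro S hS
    obtain ⟨Ψ, hΨ, hΨ0⟩ := combine _ (countable_idx (hS.2.insert g)) Φ hΦ
    obtain ⟨C, hC, hCc, hgC⟩ := hX ((fun f => Ψ f g) '' B) (by
        rintro _ ⟨f, hf, rfl⟩
        exact hΨ.2.1 f g (hB hf) (hB (hcl hg))) (hc.image (hΨ.cont g)) _ (image_mono hA) _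
      (mem_image_of_mem _ (hcl hg)) 
      (map_mem_closure (f := fun f => Ψ f g) (hΨ.cont g) hg fun _ h => mem_image_of_mem _ h)
    obtain ⟨T, hT, hTc, rfl⟩ := exists_countable_subset_image_eq_of_countable hC hCc
    refine ⟨T, ⟨hT, hTc⟩, ?_⟩
    have h1 : IsCompact (closure T) :=
      hc.of_isClosed_subset isClosed_closure ((closure_mono hT).trans hcl)
    obtain ⟨h, hh, h0⟩ : Ψ g g ∈ (fun f => Ψ f g) '' closure T :=
      closure_minimal (image_mono subset_closure) (h1.image (hΨ.cont g)).isClosed hgC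
    exact ⟨h, hh, hΨ0 h g (h0.trans (hΨ.2.2.2 g))⟩)
  have hU : (⋃ n, S n) ⊆ A := iUnion_subset fun n => (hSP n).1
  refine ⟨⋃ n, S n, hU, countable_iUnion fun n => (hSP n).2, ?_⟩
  have h1 : IsCompact (closure (⋃ n, S n)) :=
    hc.of_isClosed_subset isClosed_closure ((closure_mono hU).trans hcl)
  obtain ⟨h, hh, h0⟩ := h1.inter_iInter_nonempty
    (fun n => {h | ∀ i, ↑i.1 ⊆ insert g (S n) → Φ i h g = 0}) (fun n => by
      simp only [ofPred_forall]
      exact isClosed_iInter fun i => isClosed_iInter fun _ =>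
        isClosed_eq ((hΦ i).cont g) continuous_const) (fun u => by
      obtain ⟨T, hT, h, hh, h0⟩ := hSQ (u.sup id)
      refine ⟨h, closure_mono (hT.trans (subset_iUnion S _)) hh, mem_iInter₂.2 fun n hn i hi => ?_⟩
      exact h0 i (hi.trans (insert_subset_insert (hSm (Finset.le_sup (f := id) hn)))))
  rw [mem_iInter] at h0
  have hg' := hB (hcl hg)
  have := hsep (insert g (⋃ n, S n)) (insert_subset hg' (hU.trans (hA.trans hB))) h
    (closure_mono (subset_insert _ _) hh) g (subset_closure (mem_insert _ _))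
    (hB (hcl (closure_mono hU hh))) hg' (fun i hi => by
      obtain ⟨n, hn⟩ : ∃ n, ↑i.1 ⊆ insert g (S n) := by
        have h2 := (eventually_all_finset i.1 (l := atTop)
          (p := fun f n => f ∈ insert g (S n))).2 fun f hf => by
            rcases hi hf with rfl | hf'
            · exact Eventually.of_forall fun n => mem_insert _ _
            · obtain ⟨m, hm⟩ := mem_iUnion.1 hf'
              exact (eventually_ge_atTop m).mono fun n hn => Or.inr (hSm hn hm)
        exact h2.exists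
      exact h0 n i hn)
  rwa [← this]

theorem fu_prod [CompactSpace K]
    (hX : ∀ L ⊆ {f : X → ℝ | Continuous f}, IsCompact L → ∀ A ⊆ L, ∀ z ∈ L, z ∈ closure A →
      ∃ a : ℕ → X → ℝ, (∀ n, a n ∈ A) ∧ Tendsto a atTop (𝓝 z))
    {B : Set (X × K → ℝ)} (hB : B ⊆ {f | Continuous f}) (hc : IsCompact B) {A : Set (X × K → ℝ)}
    (hA : A ⊆ B) {g : X × K → ℝ} (hg : g ∈ closure A) :
    ∃ a : ℕ → X × K → ℝ, (∀ n, a n ∈ A) ∧ Tendsto a atTop (𝓝 g) := by
  have hcl : closure A ⊆ B := closure_minimal hA hc.isClosed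
  obtain ⟨C, hC, hCc, hgC⟩ := tight_prod (fun L hL hLc A hA z hz hzA => by
    obtain ⟨a, ha, hat⟩ := hX L hL hLc A hA z hz hzA
    exact ⟨range a, range_subset_iff.2 ha, countable_range a,
      mem_closure_of_tendsto hat (Eventually.of_forall fun n => mem_range_self n)⟩) hB hc hA hg
  obtain ⟨Φ, hΦ, hsep⟩ := exists_fields X K
  obtain ⟨Ψ, hΨ, hΨ0⟩ := combine _ (countable_idx hCc) Φ hΦ
  obtain ⟨b, hb, hbt⟩ := hX ((fun f => Ψ f g) '' B) (by
      rintro _ ⟨f, hf, rfl⟩
      exact hΨ.2.1 f g (hB hf) (hB (hcl hg))) (hc.image (hΨ.cont g)) _ (image_mono (hC.trans hA)) _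
    (mem_image_of_mem _ (hcl hg)) 
    (map_mem_closure (f := fun f => Ψ f g) (hΨ.cont g) hgC fun _ h => mem_image_of_mem _ h)
  choose a ha hab using hb
  refine ⟨a, fun n => hC (ha n), ?_⟩
  have h1 : IsCompact (closure C) :=
    hc.of_isClosed_subset isClosed_closure ((closure_mono hC).trans hcl)
  refine h1.tendsto_nhds_of_unique_mapClusterPt
    (Eventually.of_forall fun n => subset_closure (ha n)) fun h hh hcp => ?_
  refine hsep C (fun f hf => hB (hA (hC hf))) h hh g hgC (hB (hcl (closure_mono hC hh)))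
    (hB (hcl hg)) (hΨ0 h g ?_)
  have h2 := hcp.continuousAt_comp (hΨ.cont g).continuousAt
  rw [show (fun f => Ψ f g) ∘ a = b from funext hab] at h2
  rw [← hΨ.2.2.2 g]
  exact eq_of_nhds_neBot (ClusterPt.mono h2 hbt)

theorem fu_of_groth (hX : ∀ Z ⊆ {f : X → ℝ | Continuous f}, GA Z) {L : Set (X → ℝ)}
    (hL : L ⊆ {f : X → ℝ | Continuous f}) (hc : IsCompact L) {A : Set (X → ℝ)} (hA : A ⊆ L)
    {z : X → ℝ} (hz : z ∈ closure A) :
    ∃ a : ℕ → X → ℝ, (∀ n, a n ∈ A) ∧ Tendsto a atTop (𝓝 z) := by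
  by_cases hzA : z ∈ A
  · exact ⟨fun _ => z, fun _ => hzA, tendsto_const_nhds⟩
  by_contra hn
  push Not at hn
  refine ((hX (L \ {z}) (fun f hf => hL hf.1) A
    (fun f hf => ⟨hA hf, fun h => hzA (h ▸ hf)⟩) fun a ha => ?_).2 hz).2 rfl
  by_contra hcp
  push Not at hcp
  refine hn a ha (hc.tendsto_nhds_of_unique_mapClusterPt
    (Eventually.of_forall fun n => hA (ha n)) fun h hh h1 => ?_)
  by_contra h2
  exact hcp h ⟨hh, h2⟩ h1

theorem groth_prod [CompactSpace K] (hX : ∀ Z ⊆ {f : X → ℝ | Continuous f}, GA Z)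
    (Z : Set (X × K → ℝ)) (hZ : Z ⊆ {f | Continuous f}) : GA Z := by
  intro A hA hS
  obtain ⟨h1, h2⟩ := ga_prod (K := K) (hX _ Subset.rfl) A (hA.trans hZ) fun a ha => by
    obtain ⟨z, hz, hza⟩ := hS a ha
    exact ⟨z, hZ hz, hza⟩
  refine ⟨h1, fun g hg => ?_⟩
  obtain ⟨a, ha, hat⟩ := fu_prod (fun L hL hc A hA z _ hz => fu_of_groth hX hL hc hA hz) h2 h1
    subset_closure hg
  obtain ⟨z, hz, hza⟩ := hS a ha
  rwa [← eq_of_nhds_neBot (ClusterPt.mono hza hat)]

end Pool.Agent.H33.Fields
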