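import Mathlib
import Pool.Agent.H33.Fields
import Pool.Agent.H33.Retr

/-!
Corson compact subspaces of `C_p(X × K)`.
-/

open Set Filter Topology

namespace Pool.Agent.H33.CorsonProd

open Pool.Agent.H33.Fields Pool.Agent.H33.Retr

theorem exists_V {B : Type*} [TopologicalSpace B] [CompactSpace B] (u : B × B → ℝ)
    (hu : Continuous u) : ∃ V : Set (B → ℝ), V.Countable ∧ (∀ v ∈ V, Continuous v) ∧
      ∀ h h', (∀ v ∈ V, v h = v h') → ∀ g, u (g, h) = u (g, h') := by
  obtain ⟨C, hC, hCd⟩ := (isCompact_range (ContinuousMap.curry ⟨u, hu⟩).continuous).isSeparable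
  refine ⟨(fun f : C(B, ℝ) => (f : B → ℝ)) '' C, hC.image _, ?_, fun h h' hv g => ?_⟩
  · rintro _ ⟨f, -, rfl⟩
    exact f.continuous
  · have : closure C ⊆ {f : C(B, ℝ) | f h = f h'} :=
      closure_minimal (fun f hf => hv _ (mem_image_of_mem _ hf))
        (isClosed_eq (continuous_eval_const h) (continuous_eval_const h'))
    exact this (hCd (mem_range_self g))

theorem embed_of_family {B : Type*} [TopologicalSpace B] [CompactSpace B] {G : Set (B → ℝ)}
    (hc : ∀ v ∈ G, Continuous v) (hs : ∀ g g', (∀ v ∈ G, v g = v g') → g = g') :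
    IsEmbedding fun (b : B) (v : G) => v.1 b :=
  ((continuous_pi fun v => hc v.1 v.2).isClosedEmbedding
    fun g g' h => hs g g' fun v hv => congrFun h ⟨v, hv⟩).isEmbedding

theorem corson_prod (X : Type) [TopologicalSpace X]
    (hX : ∀ S : Set (X → ℝ), (∀ f ∈ S, Continuous f) → IsCompact S →
        ∃ (Γ : Type) (e : S → (Γ → ℝ)), Topology.IsEmbedding e ∧
          ∀ s, (Function.support (e s)).Countable)
    (K : Type) [TopologicalSpace K] [CompactSpace K] (S : Set (X × K → ℝ))
    (hS : ∀ f ∈ S, Continuous f) (hc : IsCompact S) :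
    ∃ (Γ : Type) (e : S → (Γ → ℝ)), Topology.IsEmbedding e ∧
      ∀ s, (Function.support (e s)).Countable := by
  classical
  have : CompactSpace S := isCompact_iff_compactSpace.1 hc
  obtain ⟨Φ, hΦ, hsep⟩ := exists_fields X K
  let P : Finset (X × K → ℝ) × ℕ → S × S → X → ℝ := fun i p => Φ i p.1 p.2
  have hP : ∀ i, Continuous (P i) := fun i => (hΦ i).1.comp
    (f := fun p : S × S => ((p.1 : X × K → ℝ), (p.2 : X × K → ℝ))) (by fun_prop)
  choose Γ e he hec using fun i => hX (range (P i)) (by
    rintro _ ⟨p, rfl⟩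
    exact (hΦ i).2.1 _ _ (hS _ p.1.2) (hS _ p.2.2)) (isCompact_range (hP i))
  let u : (i : Finset (X × K → ℝ) × ℕ) → S × S → Γ i → ℝ := fun i p => e i ⟨P i p, p, rfl⟩
  have hu : ∀ i, Continuous (u i) := fun i => (he i).continuous.comp ((hP i).subtype_mk _)
  choose V hVc hVk hV using fun i γ => exists_V (fun p => u i p γ)
    ((continuous_apply γ).comp (hu i))
  let φ : Finset S → Set (S → ℝ) := fun s =>
    ⋃ i ∈ {i : Finset (X × K → ℝ) × ℕ | ↑i.1 ⊆ Subtype.val '' (s : Set S)},
      ⋃ p ∈ (s : Set S) ×ˢ (s : Set S), ⋃ γ ∈ Function.support (u i p), V i γ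
  have h : Sep φ := by
    refine ⟨fun s => (countable_idx (s.countable_toSet.image _)).biUnion fun i _ =>
      (s.countable_toSet.prod s.countable_toSet).biUnion fun p _ =>
        (hec i _).biUnion fun γ _ => hVc i γ, ?_, ?_⟩
    · intro s v hv
      simp only [φ, mem_iUnion] at hv
      obtain ⟨i, -, p, -, γ, -, hv⟩ := hv
      exact hVk i γ v hv
    · intro A g hg g' hg' hv
      apply Subtype.ext
      refine hsep (Subtype.val '' A) (by rintro _ ⟨f, -, rfl⟩; exact hS _ f.2)
        g (image_closure_subset_closure_image continuous_subtype_val (mem_image_of_mem _ hg))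
        g' (image_closure_subset_closure_image continuous_subtype_val (mem_image_of_mem _ hg'))
        (hS _ g.2) (hS _ g'.2) fun i hi => ?_
      obtain ⟨t, ht, hti⟩ := Finset.subset_set_image_iff.1 hi
      have key : u i (g, g') = u i (g, g) := by
        funext γ
        by_cases hγ : ∃ p ∈ A ×ˢ A, u i p γ ≠ 0
        · obtain ⟨p, hp, hγ⟩ := hγ
          refine (hV i γ g g' (fun v hvV => hv v ⟨insert p.1 (insert p.2 t), ?_, ?_⟩) g).symm
          · simp only [Finset.coe_insert, insert_subset_iff]
            exact ⟨hp.1, hp.2, ht⟩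
          · simp only [φ, mem_iUnion]
            refine ⟨i, ?_, p, by simp, γ, hγ, hvV⟩
            rw [mem_ofPred_eq, ← hti, Finset.coe_image]
            refine image_mono ?_
            simp only [Finset.coe_insert]
            exact (subset_insert _ _).trans (subset_insert _ _)
        · push Not at hγ
          have h1 : closure (A ×ˢ A) ⊆ {p | u i p γ = 0} :=
            closure_minimal hγ (isClosed_eq ((continuous_apply γ).comp (hu i)) continuous_const)
          rw [closure_prod_eq] at h1
          rw [h1 (mk_mem_prod hg hg'), h1 (mk_mem_prod hg hg)]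
      have h2 := congrArg Subtype.val ((he i).injective key)
      exact h2.trans ((hΦ i).2.2.2 _)
  obtain ⟨G, hG, hs, hcount⟩ := h.corson
  refine ⟨G, _, embed_of_family hG hs, fun b => ?_⟩
  refine Countable.mono ?_ ((hcount b).preimage (Subtype.val_injective (p := fun v => v ∈ G)))
  exact fun v hv => ⟨v.2, hv⟩

end Pool.Agent.H33.CorsonProd
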