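import Mathlib

set_option autoImplicit false
open Set Topology TopologicalSpace Filter Cardinal

namespace Pool.Agent.H33.CubeImg

/-- Iterated double power sets of the naturals. -/
def T : ℕ → Type
  | 0 => ℕ
  | n + 1 => Set (Set (T n))

/-- The topological sum of the Stone-Cech compactifications. -/
abbrev S : Type := Σ n, Ultrafilter (T n)

theorem compact_piece (n : ℕ) : IsCompact (range (@Sigma.mk ℕ (fun n => Ultrafilter (T n)) n)) :=
  isCompact_range continuous_sigmaMk

instance : WeaklyLocallyCompactSpace S :=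
  ⟨fun x => ⟨range (Sigma.mk x.1), compact_piece _, isOpen_range_sigmaMk.mem_nhds ⟨x.2, rfl⟩⟩⟩

theorem ev_large (m : ℕ) : ∀ᶠ x : S in coclosedCompact S, m ≤ x.1 := by
  rw [coclosedCompact_eq_cocompact]
  refine mem_cocompact.2 ⟨⋃ n ∈ Iio m, range (Sigma.mk n), ?_, fun x hx => ?_⟩
  · exact (finite_Iio m).isCompact_biUnion fun n _ => compact_piece n
  · exact not_lt.1 fun h : x.1 < m => hx (mem_biUnion (show x.1 ∈ Iio m from h) ⟨x.2, rfl⟩)

theorem large_ev {U : Set S} (hU : U ∈ coclosedCompact S) : ∃ m, ∀ x : S, m ≤ x.1 → x ∈ U := by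
  rw [coclosedCompact_eq_cocompact] at hU
  obtain ⟨C, hC, h⟩ := mem_cocompact.1 hU
  have hf : Continuous fun x : S => x.1 := continuous_sigma fun n => continuous_const
  obtain ⟨m, hm⟩ := (hC.image hf).finite_of_discrete.bddAbove
  exact ⟨m + 1, fun x hx => h fun h' => by have : x.1 ≤ m := hm ⟨x, h', rfl⟩; omega⟩

theorem T_lt (n : ℕ) : #(T n) < #(T (n + 1)) := by
  show _ < #(Set (Set (T n)))
  rw [mk_set, mk_set]
  exact (cantor _).trans (cantor _)

theorem T_mono : StrictMono fun n => #(T n) := strictMono_nat_of_lt_succ T_lt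

theorem T_le (n : ℕ) : #(T n) ≤ #(Σ n, T n) := mk_le_of_injective (sigma_mk_injective (i := n))

theorem T_inf (n : ℕ) : ℵ₀ ≤ #(T n) := by
  have : #(T 0) = ℵ₀ := mk_nat
  exact this ▸ T_mono.monotone (Nat.zero_le n)

theorem U_le (n : ℕ) : #(Ultrafilter (T n)) ≤ #(T (n + 1)) :=
  mk_le_of_injective (f := fun u : Ultrafilter (T n) => ((u : Filter (T n)).sets : T (n + 1)))
    fun _ _ h => Ultrafilter.coe_injective (Filter.filter_eq h)

theorem onto : ∃ φ : {f : OnePoint S → ℝ // Continuous f} → ((Σ n, T n) → unitInterval),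
    Continuous φ ∧ Function.Surjective φ := by
  refine ⟨fun f i => projIcc 0 1 zero_le_one (((i.1 : ℝ) + 1) *
    f.1 ((⟨i.1, pure i.2⟩ : S) : OnePoint S)), continuous_pi fun i => continuous_projIcc.comp
      (continuous_const.mul ((continuous_apply _).comp continuous_subtype_val)), fun a => ?_⟩
  let g : S → ℝ := fun x => ((x.1 : ℝ) + 1)⁻¹ *
    (Ultrafilter.extend (fun t => a ⟨x.1, t⟩) x.2 : unitInterval)
  have hg : Continuous g := continuous_sigma fun n =>
    (continuous_const (y := ((n : ℝ) + 1)⁻¹)).mul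
    (continuous_subtype_val.comp (continuous_ultrafilter_extend fun t => a ⟨n, t⟩))
  have hlim : Tendsto g (coclosedCompact S) (𝓝 0) := by
    have h1 : Tendsto (fun x : S => x.1) (coclosedCompact S) atTop := tendsto_atTop.2 ev_large
    have h2 : Tendsto (fun x : S => ((x.1 : ℝ) + 1)⁻¹) (coclosedCompact S) (𝓝 0) := by
      simpa only [one_div, Function.comp_def] using (tendsto_one_div_add_atTop_nhds_zero_nat (𝕜 := ℝ)).comp h1
    refine squeeze_zero (fun x => mul_nonneg (by positivity) (unitInterval.nonneg _))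
      (fun x => mul_le_of_le_one_right (by positivity) (unitInterval.le_one _)) h2
  refine ⟨⟨OnePoint.continuousMapMk ⟨g, hg⟩ 0 hlim, map_continuous _⟩, funext fun i => ?_⟩
  have e : Ultrafilter.extend (fun t => a ⟨i.1, t⟩) (pure i.2) = a i :=
    congrFun (ultrafilter_extend_extends fun t => a ⟨i.1, t⟩) i.2
  show projIcc 0 1 zero_le_one (((i.1 : ℝ) + 1) * (((i.1 : ℝ) + 1)⁻¹ *
    (Ultrafilter.extend (fun t => a ⟨i.1, t⟩) (pure i.2) : unitInterval))) = a i
  rw [e, mul_inv_cancel_left₀ (by positivity), projIcc_val]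

theorem small (D : Set (OnePoint S)) [DiscreteTopology D]
    (h : ∀ g : D → ℝ, Continuous g → (∃ M : ℝ, ∀ x : D, |g x| ≤ M) →
      ∃ G : OnePoint S → ℝ, Continuous G ∧ ∀ x : D, G x = g x) : #D < #(Σ n, T n) := by
  classical
  have hfin : {n | ∃ x : S, x.1 = n ∧ (x : OnePoint S) ∈ D}.Finite := by
    by_contra hinf
    let e := Set.Infinite.natEmbedding _ hinf
    have he : Function.Injective fun k => (e k).1 := Subtype.val_injective.comp e.injective
    choose x hx hxD using fun k => (e k).2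
    obtain ⟨G, hG, hG'⟩ := h (fun d => if ∃ k, (x (2 * k) : OnePoint S) = d.1 then 1 else 0)
      continuous_of_discreteTopology ⟨1, fun d => by split_ifs <;> simp⟩
    obtain ⟨m, hm⟩ := large_ev (((OnePoint.continuous_iff G).1 hG).1.eventually
      (Metric.ball_mem_nhds (G OnePoint.infty) (show (0 : ℝ) < 1 / 2 by norm_num)))
    have hT : Tendsto (fun k => (e k).1) atTop atTop := by
      rw [← Nat.cofinite_eq_atTop]; exact he.tendsto_cofinite
    obtain ⟨k, hk⟩ := eventually_atTop.1 (tendsto_atTop.1 hT m)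
    have e1 : dist (G (x (2 * k))) (G OnePoint.infty) < 1 / 2 :=
      hm _ (by rw [hx]; exact hk _ (by omega))
    have e2 : dist (G (x (2 * k + 1))) (G OnePoint.infty) < 1 / 2 :=
      hm _ (by rw [hx]; exact hk _ (by omega))
    rw [hG' ⟨_, hxD (2 * k)⟩, if_pos ⟨k, rfl⟩] at e1
    rw [hG' ⟨_, hxD (2 * k + 1)⟩, if_neg] at e2
    · rw [Real.dist_eq, abs_lt] at e1 e2
      linarith
    · rintro ⟨j, hj⟩
      have h1 : x (2 * j) = x (2 * k + 1) := OnePoint.coe_injective hj
      have h2 : 2 * j = 2 * k + 1 := he (by simp only [← hx, h1])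
      omega
  obtain ⟨m, hm⟩ := hfin.bddAbove
  have hsub : D ⊆ insert OnePoint.infty (⋃ n : Fin (m + 1),
      range fun u : Ultrafilter (T n) => ((⟨n, u⟩ : S) : OnePoint S)) := by
    intro d hd
    induction d using OnePoint.rec with
    | infty => exact mem_insert _ _
    | coe x =>
      have := hm ⟨x, rfl, hd⟩
      exact Or.inr (mem_iUnion.2 ⟨⟨x.1, by omega⟩, x.2, rfl⟩)
  have h1 : #(⋃ n : Fin (m + 1),
      range fun u : Ultrafilter (T n) => ((⟨n, u⟩ : S) : OnePoint S)) ≤ #(T (m + 1)) := by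
    refine (mk_iUnion_le _).trans ((mul_le_mul' (mk_le_aleph0.trans (T_inf (m + 1)))
      (ciSup_le' fun n : Fin (m + 1) => mk_range_le.trans ((U_le n).trans
        (T_mono.monotone (by have := n.2; omega))))).trans (mul_eq_self (T_inf _)).le)
  calc #D ≤ _ := mk_le_mk_of_subset hsub
    _ ≤ _ := mk_insert_le
    _ ≤ #(T (m + 1)) + #(T (m + 1)) := add_le_add h1 (one_le_aleph0.trans (T_inf _))
    _ = #(T (m + 1)) := add_eq_self (T_inf _)
    _ < #(T (m + 2)) := T_lt _
    _ ≤ _ := T_le _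

theorem unc : ℵ₀ < #(Σ n, T n) := (T_inf 0).trans_lt ((T_lt 0).trans_le (T_le 1))

end Pool.Agent.H33.CubeImg
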