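import Pool.Agent.H33.WF2

/-! A hereditarily Lindelof `T₁` space that is not dually discrete. -/

open Set Filter Topology TopologicalSpace

namespace Pool.Agent.H33.DD1

theorem hs {Z : Type} (O : Set (Set Z)) (h : ∀ z, {o ∈ O | z ∉ o}.Countable) (S : Set Z) :
    ∃ C ⊆ S, C.Countable ∧ ∀ z ∈ S, ∀ W, IsOpen[generateFrom O] W → z ∈ W → (W ∩ C).Nonempty := by
  rcases S.eq_empty_or_nonempty with rfl | ⟨z₀, h₀⟩
  · exact ⟨∅, subset_rfl, countable_empty, fun _ h => h.elim⟩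
  have : ∀ t : Set (Set Z), ∃ z ∈ S, (S ∩ ⋂₀ t).Nonempty → z ∈ ⋂₀ t := fun t => by
    by_cases e : (S ∩ ⋂₀ t).Nonempty
    · exact ⟨_, e.some_mem.1, fun _ => e.some_mem.2⟩
    · exact ⟨z₀, h₀, fun e' => absurd e' e⟩
  choose p p1 p2 using this
  let Oc : Set Z → Set (Set Z) := fun C => ⋃ z ∈ C, {o ∈ O | z ∉ o}
  let C : ℕ → Set Z := fun n => Nat.rec ∅ (fun _ C => C ∪ p '' {t | t.Finite ∧ t ⊆ Oc C}) n
  have hC : ∀ n, C (n + 1) = C n ∪ p '' {t | t.Finite ∧ t ⊆ Oc (C n)} := fun _ => rfl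
  have mo : Monotone C := monotone_nat_of_le_succ fun n => subset_union_left
  have c1 : ∀ n, C n ⊆ S ∧ (C n).Countable := fun n => by
    induction n with
    | zero => exact ⟨empty_subset _, countable_empty⟩
    | succ n ih => exact ⟨union_subset ih.1 (image_subset_iff.2 fun t _ => p1 t),
        ih.2.union ((countable_ofPred_finite_subset (ih.2.biUnion fun z _ => h z)).image _)⟩
  refine ⟨⋃ n, C n, iUnion_subset fun n => (c1 n).1, countable_iUnion fun n => (c1 n).2,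
    fun z hz W hW hzW => ?_⟩
  let _ := generateFrom O
  obtain ⟨_, ⟨t, ⟨t1, t2⟩, rfl⟩, t3, t4⟩ :=
    (isTopologicalBasis_of_subbasis (s := O) rfl).exists_subset_of_mem_open hzW hW
  obtain ⟨n, hn⟩ := ((eventually_all_finite (p := fun o n => o ∈ Oc (C n))
    (t1.subset (sep_subset t fun o => ∃ n, o ∈ Oc (C n)))).2 fun o ⟨_, n, hn⟩ => eventually_atTop.2
      ⟨n, fun m hm => biUnion_subset_biUnion_left (mo hm) hn⟩).exists
  have e : p {o ∈ t | ∃ n, o ∈ Oc (C n)} ∈ C (n + 1) :=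
    Or.inr ⟨_, ⟨t1.subset (sep_subset _ _), hn⟩, rfl⟩
  refine ⟨_, t4 fun o ho => by_contra fun c => c ?_, mem_iUnion.2 ⟨n + 1, e⟩⟩
  exact p2 _ ⟨z, hz, fun o ho => t3 o ho.1⟩ o ⟨ho, n + 1, mem_biUnion e ⟨t2 ho, c⟩⟩

/-- discrete subsets -/
def Dis {Z : Type} [TopologicalSpace Z] (A : Set Z) : Prop :=
  ∀ a ∈ A, ∃ W, IsOpen W ∧ a ∈ W ∧ ∀ b ∈ W, b ∈ A → b = a

theorem rank {Z : Type} [TopologicalSpace Z] (h1 : ∀ z : Z, IsOpen ({z}ᶜ : Set Z))
    (h : ∀ S : Set Z, ∃ C ⊆ S, C.Countable ∧ ∀ z ∈ S, ∀ W, IsOpen W → z ∈ W → (W ∩ C).Nonempty)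
    (j : ℕ) : ∃ C : Set Z, C.Countable ∧ {z | ¬ ∀ W, IsOpen W → z ∈ W → ∀ s : Finset (Set Z),
      s.card ≤ j → (∀ A ∈ s, Dis A) → ∃ c ∈ C, c ∈ W ∧ c ≠ z ∧ ∀ A ∈ s, c ∉ A}.Countable := by
  classical
  induction j with
  | zero =>
    obtain ⟨C, -, a, b⟩ := h univ
    refine ⟨C, a, a.mono fun z hz => by_contra fun e => hz fun W hW hzW s hs _ => ?_⟩
    obtain ⟨c, c1, c2⟩ := b z trivial W hW hzW
    exact ⟨c, c2, c1, fun u => e (u ▸ c2), by simp [Finset.card_eq_zero.1 (Nat.le_zero.1 hs)]⟩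
  | succ j ih =>
    obtain ⟨C, a, b⟩ := ih
    obtain ⟨C', c, d, e⟩ := h _ᶜ
    refine ⟨C ∪ C', a.union d, (b.union d).mono fun z hz => by_contra fun u =>
      hz fun W hW hzW s hs hA => ?_⟩
    obtain ⟨y, y1, y2⟩ := e z (fun v => u (Or.inl v)) W hW hzW
    have y3 : y ≠ z := fun v => u (Or.inr (v ▸ y2))
    by_cases v : ∀ A ∈ s, y ∉ A
    · exact ⟨y, Or.inr y2, y1, y3, v⟩
    push Not at v
    obtain ⟨A, a1, a2⟩ := v
    obtain ⟨W', w1, w2, w3⟩ := hA A a1 y a2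
    obtain ⟨x, x1, x2, x3, x4⟩ := not_not.1 (c y2) (W ∩ W' ∩ {z}ᶜ) ((hW.inter w1).inter (h1 z))
      ⟨⟨y1, w2⟩, y3⟩ (s.erase A) (by rw [Finset.card_erase_of_mem a1]; omega)
      fun B hB => hA B (Finset.mem_of_mem_erase hB)
    refine ⟨x, Or.inl x1, x2.1.1, x2.2, fun B hB e => ?_⟩
    by_cases f : B = A
    · exact x3 (w3 x x2.1.2 (f ▸ e))
    · exact x4 B (Finset.mem_erase.2 ⟨f, hB⟩) e

theorem star {X : Type} (O : Set (Set X)) (h : ∀ z, {o ∈ O | z ∉ o}.Countable)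
    (h1 : ∀ x : X, {x}ᶜ ∈ O) {I : Type} [Uncountable I] (E : I → Finset X) (N : ℕ)
    (e1 : ∀ i, (E i).Nonempty) (e2 : ∀ i, (E i).card ≤ N)
    (e3 : ∀ i k, i ≠ k → Disjoint (E i) (E k)) :
    ∃ C : Set I, C.Countable ∧ ∀ D, @Dis X (generateFrom O) D → ∃ i ∈ C, Disjoint ↑(E i) D := by
  classical
  have : ∀ i, ∃ f : ℕ → X, (∀ n, f n ∈ E i) ∧ ∀ x ∈ E i, ∃ n < N, f n = x := fun i =>
    ⟨fun n => if h : n < (E i).card then (E i).equivFin.symm ⟨n, h⟩ else (e1 i).choose, fun n => by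
      dsimp only
      split_ifs
      exacts [Subtype.property _, (e1 i).choose_spec], fun x hx =>
      ⟨(E i).equivFin ⟨x, hx⟩, (Fin.is_lt _).trans_le (e2 i), by simp⟩⟩
  choose f f1 f2 using this
  have fi : ∀ n i k, f i n = f k n → i = k := fun n i k e => by_contra fun c =>
    Finset.disjoint_left.1 (e3 i k c) (f1 i n) (e ▸ f1 k n)
  let O' : Set (Set I) := ⋃ n, (fun o => (fun i => f i n) ⁻¹' o) '' O
  let _ := generateFrom O
  let _ := generateFrom O'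
  have hc : ∀ n, Continuous fun i => f i n := fun n => continuous_generateFrom_iff.2 fun o ho =>
    isOpen_generateFrom_of_mem (mem_iUnion.2 ⟨n, o, ho, rfl⟩)
  obtain ⟨C, a, b⟩ := rank (Z := I) (fun z => by
    convert (isOpen_generateFrom_of_mem (h1 (f z 0))).preimage (hc 0) using 1
    ext i
    exact not_congr ⟨fun e => e ▸ rfl, fi 0 i z⟩) (hs O' fun z => (countable_iUnion fun n =>
      (h (f z n)).image fun o => (fun i => f i n) ⁻¹' o).mono (by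
        rintro _ ⟨u, v⟩
        obtain ⟨n, o, ho, rfl⟩ := mem_iUnion.1 u
        exact mem_iUnion.2 ⟨n, o, ⟨ho, v⟩, rfl⟩)) N
  refine ⟨C, a, fun D hD => ?_⟩
  obtain ⟨z, -, hz⟩ := not_subset.1 fun e => not_countable_univ (b.mono e)
  obtain ⟨c, c1, -, -, c2⟩ := not_not.1 hz univ isOpen_univ trivial
    ((Finset.range N).image fun n => (fun i => f i n) ⁻¹' D)
    (Finset.card_image_le.trans (Finset.card_range N).le) fun A hA => by
      obtain ⟨n, -, rfl⟩ := Finset.mem_image.1 hA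
      intro i hi
      obtain ⟨W, w1, w2, w3⟩ := hD _ hi
      exact ⟨_, w1.preimage (hc n), w2, fun k u v => fi n k i (w3 _ u v)⟩
  refine ⟨c, c1, disjoint_left.2 fun x hx e => ?_⟩
  obtain ⟨n, u, rfl⟩ := f2 c x hx
  exact c2 _ (Finset.mem_image_of_mem _ (Finset.mem_range.2 u)) e

theorem cov {X : Type} (O : Set (Set X)) (h : ∀ z, {o ∈ O | z ∉ o}.Countable)
    (h1 : ∀ x : X, {x}ᶜ ∈ O) (D : X → Set X) (hD : ∀ x, @Dis X (generateFrom O) (D x)) (N : ℕ) :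
    ∀ (S : Set X) (E : X → Finset X), (∀ x ∈ S, (E x).card ≤ N) → (∀ x ∈ S, Disjoint ↑(E x) (D x)) →
      ∃ T ⊆ S, T.Countable ∧ ∀ x ∈ S, ∃ y ∈ T, Disjoint ↑(E y) (D x) := by
  classical
  have z : ∀ (S : Set X) (E : X → Finset X), (∃ y ∈ S, E y = ∅) →
      ∃ T ⊆ S, T.Countable ∧ ∀ x ∈ S, ∃ y ∈ T, Disjoint ↑(E y) (D x) := fun S E ⟨y, a, b⟩ =>
    ⟨{y}, singleton_subset_iff.2 a, countable_singleton y, fun x _ => ⟨y, rfl, by simp [b]⟩⟩
  induction N with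
  | zero =>
    intro S E a _
    rcases S.eq_empty_or_nonempty with rfl | ⟨y, hy⟩
    · exact ⟨∅, subset_rfl, countable_empty, fun _ h => h.elim⟩
    · exact z S E ⟨y, hy, Finset.card_eq_zero.1 (Nat.le_zero.1 (a y hy))⟩
  | succ N ih =>
  intro S E a b
  by_cases e : ∃ y ∈ S, E y = ∅
  · exact z S E e
  push Not at e
  obtain ⟨T, hT⟩ := zorn_subset {T | T ⊆ S ∧ T.Pairwise fun x y => Disjoint (E x) (E y)}
    fun c hc hch => ⟨⋃₀ c, ⟨sUnion_subset fun t ht => (hc ht).1,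
      (pairwise_sUnion hch.directedOn).2 fun t ht => (hc ht).2⟩, fun _ => subset_sUnion_of_mem⟩
  by_cases c : T.Countable
  · choose U u1 u2 u3 using fun β : X => ih {x ∈ S | β ∈ E x} (fun x => (E x).erase β)
      (fun x hx => by have := a x hx.1; rw [Finset.card_erase_of_mem hx.2]; omega)
      fun x hx => (b x hx.1).mono_left (Finset.coe_subset.2 (Finset.erase_subset _ _))
    refine ⟨⋃ y ∈ T, ⋃ β ∈ E y, U β, iUnion₂_subset fun _ _ => iUnion₂_subset fun β _ x hx =>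
      (u1 β hx).1, c.biUnion fun y _ => (E y).countable_toSet.biUnion fun β _ => u2 β,
      fun x hx => ?_⟩
    obtain ⟨y, hy, β, b1, b2⟩ : ∃ y ∈ T, ∃ β ∈ E y, β ∈ E x := by
      by_contra n
      push Not at n
      have d : ∀ y ∈ T, Disjoint (E y) (E x) := fun y hy => Finset.disjoint_left.2 (n y hy)
      obtain ⟨β, hβ⟩ := e x hx
      exact n x (hT.2 (y := insert x T) ⟨insert_subset hx hT.1.1, hT.1.2.insert
        fun y hy _ => ⟨(d y hy).symm, d y hy⟩⟩ (subset_insert _ _) (mem_insert _ _)) β hβ hβ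
    obtain ⟨w, w1, w2⟩ := u3 β x ⟨hx, b2⟩
    refine ⟨w, mem_biUnion hy (mem_biUnion b1 w1), disjoint_left.2 fun γ g1 g2 => ?_⟩
    by_cases f : γ = β
    · exact disjoint_left.1 (b x hx) b2 (f ▸ g2)
    · exact disjoint_left.1 w2 (Finset.mem_erase.2 ⟨f, g1⟩) g2
  · have : Uncountable T := not_countable_iff.1 fun h => c (countable_coe_iff.1 h)
    obtain ⟨C, c1, c2⟩ := star O h h1 (fun y : T => E y) (N + 1) (fun y => e y (hT.1.1 y.2))
      (fun y => a y (hT.1.1 y.2)) fun i k u => hT.1.2 i.2 k.2 fun v => u (Subtype.ext v)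
    refine ⟨(↑) '' C, by rintro _ ⟨y, -, rfl⟩; exact hT.1.1 y.2, c1.image _, fun x _ => ?_⟩
    obtain ⟨i, u, v⟩ := c2 _ (hD x)
    exact ⟨i, ⟨i, u, rfl⟩, v⟩

open WF2 in
theorem main : ∃ (X : Type) (_ : TopologicalSpace X), T1Space X ∧ HereditarilyLindelofSpace X ∧
    ¬ (∀ U : X → Set X, (∀ x, U x ∈ nhds x) →
      ∃ D : Set X, DiscreteTopology D ∧ (⋃ x ∈ D, U x) = Set.univ) := by
  classical
  let D : Pt → Set Pt := fun x => WType.rec (motive := fun _ => Set Pt) (fun _ f ih =>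
    if ∀ i, ∃ E : Finset Pt, Disjoint ↑E (ih i) ∧ (f '' {k | Disjoint ↑E (ih k)}).Finite
    then range f else ∅) x
  have hD : ∀ b f, D (WType.mk b f) = if ∀ i, ∃ E : Finset Pt, Disjoint ↑E (D (f i)) ∧
    (f '' {k | Disjoint ↑E (D (f k))}).Finite then range f else ∅ := fun _ _ => rfl
  have d1 : ∀ x, (D x).Countable ∧ x ∉ D x ∧ ∀ d ∈ D x, ∃ E : Finset Pt, Disjoint ↑E (D d) ∧
      {a ∈ D x | Disjoint ↑E (D a)}.Finite := by
    rintro ⟨b, f⟩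
    rw [hD]
    split_ifs with h
    · cases b
      · exact ⟨countable_range (ι := Empty) f, fun ⟨e, _⟩ => e.elim, fun _ ⟨e, _⟩ => e.elim⟩
      refine ⟨countable_range (ι := ℕ × ℕ) f, fun ⟨i, e⟩ => wf.irrefl.irrefl _ ⟨i, f, rfl, e.symm⟩, ?_⟩
      rintro _ ⟨i, rfl⟩
      obtain ⟨E, a, c⟩ := h i
      exact ⟨E, a, c.subset (by rintro _ ⟨⟨k, rfl⟩, u⟩; exact ⟨k, u, rfl⟩)⟩
    · simp
  let O : Set (Set Pt) := range (fun β => {a | β ∉ D a}) ∪ range fun x => {x}ᶜ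
  let τ := generateFrom O
  have o1 : ∀ β, IsOpen {a | β ∉ D a} := fun β => isOpen_generateFrom_of_mem (Or.inl ⟨β, rfl⟩)
  have t1 : T1Space Pt := ⟨fun x => ⟨isOpen_generateFrom_of_mem (Or.inr ⟨x, rfl⟩)⟩⟩
  have nb : ∀ W : Set Pt, IsOpen W → ∀ x ∈ W, ∃ (E : Finset Pt) (Φ : Set Pt), Φ.Finite ∧
      Disjoint ↑E (D x) ∧ ∀ a, Disjoint ↑E (D a) → a ∉ Φ → a ∈ W := fun W hW => by
    induction hW with
    | basic s hs =>
      rcases hs with ⟨β, rfl⟩ | ⟨y, rfl⟩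
      · exact fun x hx => ⟨{β}, ∅, finite_empty, by simpa using hx, fun a h _ => by simpa using h⟩
      · exact fun x _ => ⟨∅, {y}, finite_singleton y, by simp, fun a _ h => h⟩
    | univ => exact fun x _ => ⟨∅, ∅, finite_empty, by simp, fun _ _ _ => trivial⟩
    | inter s t _ _ hs ht =>
      intro x hx
      obtain ⟨E, Φ, a, b, c⟩ := hs x hx.1
      obtain ⟨E', Φ', a', b', c'⟩ := ht x hx.2
      refine ⟨E ∪ E', Φ ∪ Φ', a.union a', by simp [b, b'], fun y u v => ?_⟩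
      rw [Finset.coe_union, disjoint_union_left] at u
      exact ⟨c y u.1 fun e => v (Or.inl e), c' y u.2 fun e => v (Or.inr e)⟩
    | sUnion S _ ih =>
      intro x ⟨s, hs, hx⟩
      obtain ⟨E, Φ, a, b, c⟩ := ih s hs x hx
      exact ⟨E, Φ, a, b, fun y u v => ⟨s, hs, c y u v⟩⟩
  have hc := cov O (fun z => (((d1 z).1.image fun β => {a | β ∉ D a}).insert {z}ᶜ).mono (by
    rintro _ ⟨⟨β, rfl⟩ | ⟨y, rfl⟩, u⟩
    · exact Or.inr ⟨β, not_not.1 u, rfl⟩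
    · exact Or.inl (by rw [show z = y from not_not.1 u]))) (fun x => Or.inr ⟨x, rfl⟩) D
    fun x d hd => by
      obtain ⟨E, a, b⟩ := (d1 x).2.2 d hd
      refine ⟨(⋂ β ∈ E, {a | β ∉ D a}) \ (_ \ {d}), (isOpen_biInter_finset fun β _ => o1 β).sdiff
        (b.subset sdiff_subset).isClosed, ⟨mem_iInter₂.2 (disjoint_left.1 a), fun e => e.2 rfl⟩,
        fun y u v => by_contra fun e => u.2 ⟨⟨v, disjoint_left.2 (mem_iInter₂.1 u.1)⟩, e⟩⟩
  have hl : ∀ S : Set Pt, IsLindelof S := fun S => isLindelof_of_countable_subcover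
    fun {ι} U hU hS => by
    rcases S.eq_empty_or_nonempty with rfl | ⟨x₀, h₀⟩
    · exact ⟨∅, countable_empty, empty_subset _⟩
    have : ∀ x, ∃ (i : ι) (E : Finset Pt) (Φ : Set Pt), x ∈ S → x ∈ U i ∧ Φ.Finite ∧
        Disjoint ↑E (D x) ∧ ∀ a, Disjoint ↑E (D a) → a ∉ Φ → a ∈ U i := fun x => by
      by_cases h : x ∈ S
      · obtain ⟨i, hi⟩ := mem_iUnion.1 (hS h)
        obtain ⟨E, Φ, a⟩ := nb _ (hU i) x hi
        exact ⟨i, E, Φ, fun _ => ⟨hi, a⟩⟩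
      · exact ⟨(mem_iUnion.1 (hS h₀)).choose, ∅, ∅, fun e => absurd e h⟩
    choose i E Φ h using this
    choose T t1 t2 t3 using fun N => hc N {x ∈ S | (E x).card ≤ N} E (fun _ h => h.2)
      fun x hx => (h x hx.1).2.2.1
    refine ⟨i '' ((⋃ N, T N) ∪ ⋃ N, ⋃ y ∈ T N, Φ y), ((countable_iUnion t2).union (countable_iUnion
      fun N => (t2 N).biUnion fun y hy => (h y (t1 N hy).1).2.1.countable)).image _, fun x hx => ?_⟩
    obtain ⟨y, u, v⟩ := t3 _ x ⟨hx, le_rfl⟩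
    by_cases w : x ∈ Φ y
    · exact mem_biUnion (mem_image_of_mem i (Or.inr (mem_iUnion.2 ⟨_, mem_biUnion u w⟩))) (h x hx).1
    · exact mem_biUnion (mem_image_of_mem i (Or.inl (mem_iUnion.2 ⟨_, u⟩)))
        ((h y (t1 _ u).1).2.2.2 x v w)
  refine ⟨Pt, τ, t1, ⟨fun S _ => hl S⟩, fun h => ?_⟩
  obtain ⟨S, s1, s2⟩ := h (fun β => {a | β ∉ D a}) fun x => (o1 x).mem_nhds (d1 x).2.1
  have s3 : S.Countable := (hl S).countable s1
  obtain ⟨g, rfl⟩ := s3.exists_eq_range (by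
    obtain ⟨x, hx, -⟩ := mem_iUnion₂.1 (s2.ge (mem_univ o))
    exact ⟨x, hx⟩)
  obtain ⟨_, ⟨n, rfl⟩, hx⟩ := mem_iUnion₂.1 (s2.ge (mem_univ (WType.mk true fun p => g p.1)))
  refine hx ?_
  rw [hD, if_pos fun i => ?_]
  · exact ⟨(n, 0), rfl⟩
  obtain ⟨W, w1, w2⟩ := isOpen_inter_eq_singleton_of_mem_discrete ⟨s1⟩ (mem_range_self (f := g) i.1)
  obtain ⟨E, Φ, a, b, c⟩ := nb W w1 (g i.1) (w2.ge rfl).1
  refine ⟨E, b, (a.insert (g i.1)).subset ?_⟩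
  rintro _ ⟨k, u, rfl⟩
  exact (em _).symm.imp_left fun v => w2.le ⟨c _ u v, k.1, rfl⟩

end Pool.Agent.H33.DD1
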