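import Pool.Agent.H33.DD1

/-! A hereditarily Lindelof Hausdorff space that is not dually discrete. -/

open Set Filter Topology TopologicalSpace Pool.Agent.H33.WF2 Pool.Agent.H33.DD1

namespace Pool.Agent.H33.DD2

theorem main : ∃ (X : Type) (_ : TopologicalSpace X), T2Space X ∧ (∀ S : Set X, IsLindelof S) ∧
    ∃ U : X → Set X, (∀ p, IsOpen (U p) ∧ p ∈ U p) ∧
      ∀ D : Set X, DiscreteTopology D → (⋃ p ∈ D, U p) ≠ Set.univ := by
  classical
  obtain ⟨j, hj⟩ := ex_j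
  let D : Pt → Set Pt := fun x => WType.rec (motive := fun _ => Set Pt) (fun _ f ih =>
    if ∀ i, ∃ (E : Finset Pt) (n : ℕ), Disjoint ↑E (ih i) ∧
      (f '' {k | Disjoint ↑E (ih k) ∧ ∀ m < n, j (f k) m = j (f i) m}).Finite
    then range f else ∅) x
  have hD : ∀ b f, D (WType.mk b f) = if ∀ i, ∃ (E : Finset Pt) (n : ℕ), Disjoint ↑E (D (f i)) ∧
    (f '' {k | Disjoint ↑E (D (f k)) ∧ ∀ m < n, j (f k) m = j (f i) m}).Finite
    then range f else ∅ := fun _ _ => rfl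
  have d1 : ∀ x, (D x).Countable ∧ x ∉ D x ∧ ∀ d ∈ D x, ∃ (E : Finset Pt) (n : ℕ),
      Disjoint ↑E (D d) ∧ {a ∈ D x | Disjoint ↑E (D a) ∧ ∀ m < n, j a m = j d m}.Finite := by
    rintro ⟨b, f⟩
    rw [hD]
    split_ifs with h
    · cases b
      · exact ⟨countable_range (ι := Empty) f, fun ⟨e, _⟩ => e.elim, fun _ ⟨e, _⟩ => e.elim⟩
      refine ⟨countable_range (ι := ℕ × ℕ) f, fun ⟨i, e⟩ => wf.irrefl.irrefl _ ⟨i, f, rfl, e.symm⟩, ?_⟩
      rintro _ ⟨i, rfl⟩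
      obtain ⟨E, n, a, c⟩ := h i
      exact ⟨E, n, a, c.subset (by rintro _ ⟨⟨k, rfl⟩, u⟩; exact ⟨k, u, rfl⟩)⟩
    · simp
  let O : Set (Set Pt) := (range (fun β => {a | β ∉ D a}) ∪ range fun x => {x}ᶜ) ∪
    range fun p : ℕ × Bool => {a | j a p.1 = p.2}
  let τ := generateFrom O
  have o1 : ∀ β, IsOpen {a | β ∉ D a} := fun β =>
    isOpen_generateFrom_of_mem (Or.inl (Or.inl ⟨β, rfl⟩))
  have o2 : ∀ n v, IsOpen {a | j a n = v} := fun n v =>
    isOpen_generateFrom_of_mem (Or.inr ⟨(n, v), rfl⟩)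
  have t2 : T2Space Pt := T2Space.of_injective_continuous hj
    (continuous_pi fun n => continuous_discrete_rng.2 (o2 n))
  have nb : ∀ W : Set Pt, IsOpen W → ∀ x ∈ W, ∃ (E : Finset Pt) (Φ : Set Pt) (n : ℕ), Φ.Finite ∧
      Disjoint ↑E (D x) ∧ ∀ a, Disjoint ↑E (D a) → (∀ m < n, j a m = j x m) → a ∉ Φ → a ∈ W :=
    fun W hW => by
    induction hW with
    | basic s hs =>
      rcases hs with (⟨β, rfl⟩ | ⟨y, rfl⟩) | ⟨p, rfl⟩
      · exact fun x hx => ⟨{β}, ∅, 0, finite_empty, by simpa using hx, fun a h _ _ => by simpa using h⟩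
      · exact fun x _ => ⟨∅, {y}, 0, finite_singleton y, by simp, fun a _ _ h => h⟩
      · exact fun x hx => ⟨∅, ∅, p.1 + 1, finite_empty, by simp,
          fun a _ h _ => (h _ (Nat.lt_succ_self _)).trans hx⟩
    | univ => exact fun x _ => ⟨∅, ∅, 0, finite_empty, by simp, fun _ _ _ _ => trivial⟩
    | inter s t _ _ hs ht =>
      intro x hx
      obtain ⟨E, Φ, n, a, b, c⟩ := hs x hx.1
      obtain ⟨E', Φ', n', a', b', c'⟩ := ht x hx.2
      refine ⟨E ∪ E', Φ ∪ Φ', max n n', a.union a', by simp [b, b'], fun y u w v => ?_⟩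
      rw [Finset.coe_union, disjoint_union_left] at u
      exact ⟨c y u.1 (fun m h => w m (lt_max_of_lt_left h)) fun e => v (Or.inl e),
        c' y u.2 (fun m h => w m (lt_max_of_lt_right h)) fun e => v (Or.inr e)⟩
    | sUnion S _ ih =>
      intro x ⟨s, hs, hx⟩
      obtain ⟨E, Φ, n, a, b, c⟩ := ih s hs x hx
      exact ⟨E, Φ, n, a, b, fun y u w v => ⟨s, hs, c y u w v⟩⟩
  have hc := cov O (fun z => ((((d1 z).1.image fun β => {a | β ∉ D a}).insert {z}ᶜ).union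
    (countable_range fun p : ℕ × Bool => {a | j a p.1 = p.2})).mono (by
    rintro _ ⟨(⟨β, rfl⟩ | ⟨y, rfl⟩) | h, u⟩
    · exact Or.inl (Or.inr ⟨β, not_not.1 u, rfl⟩)
    · exact Or.inl (Or.inl (by rw [show z = y from not_not.1 u]))
    · exact Or.inr h)) (fun x => Or.inl (Or.inr ⟨x, rfl⟩)) D
    fun x d hd => by
      obtain ⟨E, n, a, b⟩ := (d1 x).2.2 d hd
      refine ⟨((⋂ β ∈ E, {a | β ∉ D a}) ∩ ⋂ m ∈ Iio n, {a | j a m = j d m}) \ (_ \ {d}),
        ((isOpen_biInter_finset fun β _ => o1 β).inter ((finite_Iio n).isOpen_biInter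
          fun m _ => o2 m _)).sdiff (b.subset sdiff_subset).isClosed,
        ⟨⟨mem_iInter₂.2 (disjoint_left.1 a), mem_iInter₂.2 fun _ _ => rfl⟩, fun e => e.2 rfl⟩,
        fun y u v => by_contra fun e => u.2
          ⟨⟨v, disjoint_left.2 (mem_iInter₂.1 u.1.1), mem_iInter₂.1 u.1.2⟩, e⟩⟩
  have hl : ∀ S : Set Pt, IsLindelof S := fun S => isLindelof_of_countable_subcover
    fun {ι} U hU hS => by
    rcases S.eq_empty_or_nonempty with rfl | ⟨x₀, h₀⟩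
    · exact ⟨∅, countable_empty, empty_subset _⟩
    have : ∀ x, ∃ (i : ι) (E : Finset Pt) (Φ : Set Pt) (n : ℕ), x ∈ S → x ∈ U i ∧ Φ.Finite ∧
        Disjoint ↑E (D x) ∧ ∀ a, Disjoint ↑E (D a) → (∀ m < n, j a m = j x m) → a ∉ Φ → a ∈ U i :=
      fun x => by
      by_cases h : x ∈ S
      · obtain ⟨i, hi⟩ := mem_iUnion.1 (hS h)
        obtain ⟨E, Φ, n, a⟩ := nb _ (hU i) x hi
        exact ⟨i, E, Φ, n, fun _ => ⟨hi, a⟩⟩
      · exact ⟨(mem_iUnion.1 (hS h₀)).choose, ∅, ∅, 0, fun e => absurd e h⟩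
    choose i E Φ n h using this
    choose T t1 t2 t3 using fun p : ℕ × ℕ × Finset ℕ => hc p.1 {x ∈ S | (E x).card ≤ p.1 ∧
      n x = p.2.1 ∧ ∀ m < p.2.1, j x m = decide (m ∈ p.2.2)} E (fun _ h => h.2.1)
      fun x hx => (h x hx.1).2.2.1
    refine ⟨i '' ((⋃ N, T N) ∪ ⋃ N, ⋃ y ∈ T N, Φ y), ((countable_iUnion t2).union (countable_iUnion
      fun N => (t2 N).biUnion fun y hy => (h y (t1 N hy).1).2.1.countable)).image _, fun x hx => ?_⟩
    obtain ⟨y, u, v⟩ := t3 (_, n x, (Finset.range (n x)).filter fun m => j x m) x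
      ⟨hx, le_rfl, rfl, fun m hm => by simp [hm]⟩
    by_cases w : x ∈ Φ y
    · exact mem_biUnion (mem_image_of_mem i (Or.inr (mem_iUnion.2 ⟨_, mem_biUnion u w⟩))) (h x hx).1
    · obtain ⟨a, -, b, c⟩ := t1 _ u
      refine mem_biUnion (mem_image_of_mem i (Or.inl (mem_iUnion.2 ⟨_, u⟩)))
        ((h y a).2.2.2 x v (fun m hm => ?_) w)
      rw [b] at hm
      rw [c m hm]
      simp [hm]
  refine ⟨Pt, τ, t2, hl, fun β => {a | β ∉ D a}, fun x => ⟨o1 x, (d1 x).2.1⟩, fun S s1 s2 => ?_⟩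
  have s3 : S.Countable := (hl S).countable s1
  obtain ⟨g, rfl⟩ := s3.exists_eq_range (by
    obtain ⟨x, hx, -⟩ := mem_iUnion₂.1 (s2.ge (mem_univ o))
    exact ⟨x, hx⟩)
  obtain ⟨_, ⟨n, rfl⟩, hx⟩ := mem_iUnion₂.1 (s2.ge (mem_univ (WType.mk true fun p => g p.1)))
  refine hx ?_
  rw [hD, if_pos fun i => ?_]
  · exact ⟨(n, 0), rfl⟩
  obtain ⟨W, w1, w2⟩ := isOpen_inter_eq_singleton_of_mem_discrete ⟨s1⟩ (mem_range_self (f := g) i.1)
  obtain ⟨E, Φ, n, a, b, c⟩ := nb W w1 (g i.1) (w2.ge rfl).1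
  refine ⟨E, n, b, (a.insert (g i.1)).subset ?_⟩
  rintro _ ⟨k, u, rfl⟩
  exact (em _).symm.imp_left fun v => w2.le ⟨c _ u.1 u.2 v, k.1, rfl⟩

/-- zero-dimensional Lindelof spaces are paracompact -/
theorem para {ι : Type} (X : Set (ι → Bool)) (h : ∀ S : Set X, IsLindelof S) (S : Set X) :
    ParacompactSpace S := by
  have := isLindelof_iff_lindelofSpace.1 (h S)
  refine ⟨fun α s ho hc => ?_⟩
  have : ∀ x : S, ∃ C, IsClopen C ∧ x ∈ C ∧ ∃ a, C ⊆ s a := fun x => by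
    obtain ⟨a, ha⟩ := mem_iUnion.1 (hc.ge (mem_univ x))
    obtain ⟨V, v1, e⟩ := isOpen_induced_iff.1 (ho a)
    obtain ⟨V, v2, rfl⟩ := isOpen_induced_iff.1 v1
    obtain ⟨C, c1, c2, c3⟩ := compact_exists_isClopen_in_isOpen v2 (x := x.1.1) (e.ge ha)
    exact ⟨_, c1.preimage (continuous_subtype_val.comp continuous_subtype_val), c2, a,
      fun y hy => e.le (c3 hy)⟩
  choose C c1 c2 c3 using this
  rcases isEmpty_or_nonempty S with e | e
  · exact ⟨Empty, fun e => e.elim, fun e => e.elim, eq_univ_of_forall fun x => e.elim x,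
      fun x => e.elim x, fun e => e.elim⟩
  obtain ⟨g, hg⟩ := isLindelof_univ.indexed_countable_subcover C (fun x => (c1 x).2)
    fun x _ => mem_iUnion.2 ⟨x, c2 x⟩
  refine ⟨ℕ, disjointed fun n => C (g n), fun n => ?_, ?_, fun x => ?_, fun n =>
    (c3 (g n)).imp fun a ha => (disjointed_subset _ n).trans ha⟩
  · rw [disjointed_eq_inter_compl]
    exact (c1 _).2.inter (by
      have : (⋂ j < n, (C (g j))ᶜ) = ⋂ j ∈ Iio n, (C (g j))ᶜ := rfl
      rw [this]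
      exact (finite_Iio n).isOpen_biInter fun j _ => (c1 _).compl.2)
  · rw [iUnion_disjointed]; exact eq_univ_of_univ_subset hg
  · obtain ⟨n, hn⟩ := mem_iUnion.1 (hg (mem_univ x))
    refine ⟨_, (c1 (g n)).2.mem_nhds hn, (finite_Iic n).subset fun m ⟨y, a, b⟩ => ?_⟩
    rw [disjointed_eq_inter_compl] at a
    exact mem_Iic.2 (not_lt.1 fun e => mem_iInter₂.1 a.2 n e b)

end Pool.Agent.H33.DD2
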