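import Mathlib
import Pool.Agent.H33.Groth

/-!
A criterion for the Grothendieck property of Lindelöf first countable spaces, and the branch
space of a Suslin tree.
-/

open Set Filter Topology

namespace Pool.Agent.H33.HG1

open Pool.Agent.H33.GrothDefs Pool.Agent.H33.Groth

theorem pig {I : Type*} (F : Filter I) [F.NeBot] [CountableInterFilter F] (p : ℕ → I → Prop)
    (h : ∀ᶠ i in F, ∃ n, p n i) : ∃ n, (F ⊓ 𝓟 {i | p n i}).NeBot := by
  by_contra hc
  push Not at hc
  have h2 : ∀ᶠ i in F, ∀ n, ¬ p n i :=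
    eventually_countable_forall.2 fun n => inf_principal_eq_bot.1 (hc n)
  obtain ⟨i, ⟨n, hn⟩, hi⟩ := (h.and h2).exists
  exact hi n hn

/-- countable subsets of `A` -/
abbrev CS {α : Type*} (A : Set α) := {B : Set α // B.Countable ∧ B ⊆ A}

/-- the filter of tails of countable subsets -/
def fil {α : Type*} (A : Set α) : Filter (CS A) where
  sets := {S | ∃ B₀ : CS A, ∀ B : CS A, B₀.1 ⊆ B.1 → B ∈ S}
  univ_sets := ⟨⟨∅, countable_empty, empty_subset _⟩, fun _ _ => mem_univ _⟩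
  sets_of_superset := fun ⟨B, h⟩ h' => ⟨B, fun C hC => h' (h C hC)⟩
  inter_sets := fun ⟨B, h⟩ ⟨C, h'⟩ => ⟨⟨B.1 ∪ C.1, B.2.1.union C.2.1, union_subset B.2.2 C.2.2⟩,
    fun D hD => ⟨h D (subset_union_left.trans hD), h' D (subset_union_right.trans hD)⟩⟩

instance {α : Type*} (A : Set α) : (fil A).NeBot :=
  ⟨fun h => by
    obtain ⟨B, hB⟩ : (∅ : Set (CS A)) ∈ fil A := by rw [h]; exact mem_bot
    exact hB B subset_rfl⟩

instance {α : Type*} (A : Set α) : CountableInterFilter (fil A) :=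
  ⟨fun S hS h => by
    choose B hB using fun s : S => h s.1 s.2
    have := hS.to_subtype
    exact ⟨⟨⋃ s, (B s).1, countable_iUnion fun s => (B s).2.1, iUnion_subset fun s => (B s).2.2⟩,
      fun C hC s hs => hB ⟨s, hs⟩ C ((subset_iUnion (fun s => (B s).1) _).trans hC)⟩⟩

theorem ev_sup {α : Type*} {A : Set α} (B₀ : CS A) : ∀ᶠ B in fil A, B₀.1 ⊆ B.1 :=
  ⟨B₀, fun _ h => h⟩

variable {Y : Type*} [TopologicalSpace Y]

omit [TopologicalSpace Y] in
theorem approx {Z A : Set (Y → ℝ)} (hS : SC Z A) {B : Set (Y → ℝ)} (hB : B ⊆ A) {h : Y → ℝ}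
    (hh : h ∈ closure B) {E : Set Y} (hE : E.Countable) :
    ∃ B' ⊆ B, B'.Countable ∧ ∃ z ∈ Z, z ∈ closure B' ∧ EqOn z h E := by
  have := hE.to_subtype
  obtain ⟨a, ha, hat⟩ := exists_seq_tendsto (fun (i : E) (f : Y → ℝ) => f i) B (fun i => h i)
    (restrict_mem_closure hh E)
  obtain ⟨z, hz, hza⟩ := hS a fun n => hB (ha n)
  refine ⟨range a, range_subset_iff.2 ha, countable_range _, z, hz, ?_, fun c hc =>
    eq_of_cluster (f := fun f : Y → ℝ => f c) hza (continuous_apply c) (hat ⟨c, hc⟩)⟩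
  exact mem_closure_iff_clusterPt.2 (ClusterPt.mono hza (le_principal_iff.2 range_mem_map))

theorem cont [FirstCountableTopology Y] {Z A : Set (Y → ℝ)} (hZ : Z ⊆ {f | Continuous f})
    (hS : SC Z A) {h : Y → ℝ} (hh : h ∈ closure A) : Continuous h := by
  refine SeqContinuous.continuous fun u y hu => ?_
  obtain ⟨-, -, -, z, hz, -, hzE⟩ := approx hS subset_rfl hh ((countable_range u).insert y)
  have h1 := ((hZ hz).tendsto y).comp hu
  rw [hzE (mem_insert _ _)] at h1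
  exact h1.congr fun n => hzE (mem_insert_of_mem _ (mem_range_self n))

omit [TopologicalSpace Y] in
theorem sep {B : Set (Y → ℝ)} {h : Y → ℝ} (hh : h ∉ closure B) (y₀ : Y) :
    ∃ (n : ℕ) (y : ℕ → Y), ∀ f ∈ closure B, ∃ i < n, 1 / ((n : ℝ) + 1) ≤ |f (y i) - h (y i)| := by
  classical
  have h1 : (closure B)ᶜ ∈ 𝓝 h := isClosed_closure.isOpen_compl.mem_nhds hh
  rw [nhds_pi, Filter.mem_pi] at h1
  obtain ⟨J, hJ, t, ht, htU⟩ := h1
  obtain ⟨k, p, -, rfl⟩ := hJ.fin_param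
  have h2 : ∀ i : Fin k, ∀ᶠ n : ℕ in atTop, Metric.ball (h (p i)) (1 / ((n : ℝ) + 1)) ⊆ t (p i) :=
    fun i => by
      obtain ⟨ε, hε, h3⟩ := Metric.mem_nhds_iff.1 (ht (p i))
      exact (tendsto_one_div_add_atTop_nhds_zero_nat.eventually (gt_mem_nhds hε)).mono
        fun n hn => (Metric.ball_subset_ball hn.le).trans h3
  obtain ⟨n, hn, hkn⟩ := ((eventually_all.2 h2).and (eventually_ge_atTop k)).exists
  refine ⟨n, fun i => if hi : i < k then p ⟨i, hi⟩ else y₀, fun f hf => ?_⟩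
  by_contra hc
  push Not at hc
  refine htU ?_ hf
  rintro _ ⟨i, rfl⟩
  have := hc i (i.2.trans_le hkn)
  simp only [i.2, dif_pos] at this
  exact hn i (by rwa [Metric.mem_ball, Real.dist_eq])

theorem tight [FirstCountableTopology Y] [LindelofSpace Y] {Z A : Set (Y → ℝ)}
    (hZ : Z ⊆ {f | Continuous f}) (hS : SC Z A) {h : Y → ℝ} (hh : h ∈ closure A) (y₀ : Y) :
    ∃ B ⊆ A, B.Countable ∧ h ∈ closure B := by
  by_contra hc
  push Not at hc
  have hcont := cont hZ hS hh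
  choose n y hy using fun B : CS A => sep (hc B.1 B.2.2 B.2.1) y₀
  choose B' hB' hBc g hg hgB hgE using
    fun E : CS (univ : Set Y) => approx hS subset_rfl hh E.2.1
  obtain ⟨N, hN⟩ := pig (fil A) (fun N B => n B = N) (Eventually.of_forall fun B => ⟨_, rfl⟩)
  have key : ∀ j : ℕ, ∃ (F : Filter (CS A)) (G : Filter (CS (univ : Set Y))),
      F.NeBot ∧ CountableInterFilter F ∧ F ≤ fil A ⊓ 𝓟 {B | n B = N} ∧
      G.NeBot ∧ CountableInterFilter G ∧ G ≤ fil univ ∧
      ∀ᶠ E in G, ∀ᶠ B in F, ∀ i < j, |g E (y B i) - h (y B i)| < 1 / ((N : ℝ) + 1) := by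
    intro j
    induction j with
    | zero => exact ⟨_, fil univ, hN, inferInstance, le_rfl, inferInstance, inferInstance, le_rfl,
        by simp⟩
    | succ j ih =>
      obtain ⟨F, G, h1, h2, h3, h4, h5, h6, h7⟩ := ih
      obtain ⟨x, -, hx⟩ := isLindelof_univ (X := Y) (f := map (fun B => y B j) F) (by simp)
      obtain ⟨U, hU⟩ := (𝓝 x).exists_antitone_basis
      obtain ⟨k, hk⟩ := pig G (fun k E => U k ⊆ {w | |g E w - h w| < 1 / ((N : ℝ) + 1)}) (by
        refine ((ev_sup ⟨{x}, countable_singleton x, subset_univ _⟩).filter_mono h6).mono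
          fun E hE => ?_
        refine hU.mem_iff.1 ((isOpen_lt ((hZ (hg E)).sub hcont).abs continuous_const).mem_nhds ?_)
        have : g E x = h x := hgE E (hE rfl)
        show |g E x - h x| < _
        rw [this, sub_self, abs_zero]
        positivity)
      refine ⟨F ⊓ 𝓟 {B | y B j ∈ U k}, _, ?_, inferInstance, inf_le_left.trans h3, hk,
        inferInstance, inf_le_left.trans h6, ?_⟩
      · exact frequently_iff_neBot.1
          (mapClusterPt_iff_frequently.1 hx (U k) (hU.mem k))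
      · refine ((h7.filter_mono inf_le_left).and (mem_inf_of_right (mem_principal_self _))).mono
          fun E hE => ?_
        refine ((hE.1.filter_mono inf_le_left).and
          (mem_inf_of_right (mem_principal_self _))).mono fun B hB i hi => ?_
        rcases (Nat.lt_succ_iff.1 hi).eq_or_lt with rfl | hi
        · exact hE.2 hB.2
        · exact hB.1 i hi
  obtain ⟨F, G, h1, -, h3, h4, -, -, h7⟩ := key N
  obtain ⟨E, hE⟩ := h7.exists
  obtain ⟨B, hB1, hB2, hB3⟩ := (hE.and (((ev_sup ⟨B' E, hBc E, hB' E⟩).filter_mono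
    (h3.trans inf_le_left)).and ((h3.trans inf_le_right) (mem_principal_self _)))).exists
  obtain ⟨i, hi, h8⟩ := hy B (g E) (closure_mono hB2 (hgB E))
  have hB3' : n B = N := hB3
  rw [hB3'] at hi h8
  exact (hB1 i hi).not_ge h8

theorem ga_of [FirstCountableTopology Y] [LindelofSpace Y]
    (hP : ∀ B : Set (Y → ℝ), B.Countable → B ⊆ {f | Continuous f} → ∃ C : Set Y, C.Countable ∧
      ∀ y, y ∈ closure C ∨ ∃ c ∈ C, ∀ f ∈ B, f y = f c)
    (Z : Set (Y → ℝ)) (hZ : Z ⊆ {f | Continuous f}) : GA Z := by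
  intro A hA hS
  refine ⟨hS.isCompact_closure, fun h hh => ?_⟩
  rcases isEmpty_or_nonempty Y with hY | ⟨⟨y₀⟩⟩
  · obtain ⟨f, hf⟩ := closure_nonempty_iff.1 ⟨h, hh⟩
    rw [Subsingleton.elim h f]
    exact hA hf
  obtain ⟨B, hB, hBc, hhB⟩ := tight hZ hS hh y₀
  obtain ⟨C, hC, hCy⟩ := hP B hBc (hB.trans (hA.trans hZ))
  obtain ⟨B', hB', -, z, hz, hzB, hzC⟩ := approx hS hB hhB hC
  have : h = z := by
    funext y
    rcases hCy y with h1 | ⟨c, hc, h1⟩
    · exact (hzC.closure (hZ hz) (cont hZ hS hh) h1).symm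
    · have h2 : closure B ⊆ {f | f y = f c} :=
        closure_minimal h1 (isClosed_eq (continuous_apply y) (continuous_apply c))
      rw [h2 hhB, h2 (closure_mono hB' hzB), hzC hc]
  rwa [this]

/-- Suslin trees -/
structure Suslin (T : Type) [PartialOrder T] : Prop where
  wf : WellFoundedLT T
  tree : ∀ t : T, IsChain (· ≤ ·) (Iio t)
  unc : Uncountable T
  chain : ∀ C : Set T, IsChain (· ≤ ·) C → C.Countable
  anti : ∀ A : Set T, IsAntichain (· ≤ ·) A → A.Countable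

variable {T : Type} [PartialOrder T]

theorem Suslin.cmp (hT : Suslin T) {a b t : T} (ha : a ≤ t) (hb : b ≤ t) : a ≤ b ∨ b ≤ a := by
  rcases ha.eq_or_lt with rfl | ha'
  · exact Or.inr hb
  rcases hb.eq_or_lt with rfl | hb'
  · exact Or.inl ha
  exact (hT.tree t).total ha' hb'

theorem Suslin.iic (hT : Suslin T) (t : T) : (Iic t).Countable :=
  hT.chain _ fun _ ha _ hb _ => hT.cmp ha hb

theorem Suslin.mins (hT : Suslin T) (S : Set T) : {t | Minimal (· ∈ S) t}.Countable :=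
  hT.anti _ (setOfPred_minimal_antichain _)

theorem Suslin.exmin (hT : Suslin T) {S : Set T} {t : T} (ht : t ∈ S) :
    ∃ m ≤ t, Minimal (· ∈ S) m :=
  have := hT.wf
  exists_minimal_le_of_wellFoundedLT (· ∈ S) t ht

/-- the branches through a node -/
def cone (t : T) : Set (Flag T) := {b | t ∈ b}

/-- the branch space -/
@[instance_reducible] def top (T : Type) [PartialOrder T] : TopologicalSpace (Flag T) :=
  TopologicalSpace.generateFrom (range cone)

attribute [local instance] top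

theorem cone_anti (hT : Suslin T) {s t : T} (h : s ≤ t) : cone t ⊆ cone s := fun b hb =>
  Flag.mem_iff_forall_le_or_ge.2 fun _ hu =>
    (b.le_or_le hu hb).elim (hT.cmp h) fun h' => Or.inl (h.trans h')

theorem basis (hT : Suslin T) : TopologicalSpace.IsTopologicalBasis (range (cone (T := T))) := by
  refine ⟨?_, eq_univ_of_forall fun b => ?_, rfl⟩
  · rintro _ ⟨s, rfl⟩ _ ⟨t, rfl⟩ b ⟨h1, h2⟩
    rcases b.le_or_le h1 h2 with h | h
    · exact ⟨_, ⟨t, rfl⟩, h2, subset_inter (cone_anti hT h) le_rfl⟩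
    · exact ⟨_, ⟨s, rfl⟩, h1, subset_inter le_rfl (cone_anti hT h)⟩
  · by_contra h
    have := hT.unc
    obtain ⟨t⟩ : Nonempty T := inferInstance
    exact h ⟨_, ⟨t, rfl⟩, Flag.mem_iff_forall_le_or_ge.2 fun u hu => absurd ⟨_, ⟨u, rfl⟩, hu⟩ h⟩

theorem clopen (hT : Suslin T) (t : T) : IsClopen (cone t) := by
  refine ⟨isOpen_compl_iff.1 ((basis hT).isOpen_iff.2 fun b hb => ?_),
    (basis hT).isOpen ⟨t, rfl⟩⟩
  have := mt Flag.mem_iff_forall_le_or_ge.2 hb
  push Not at this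
  obtain ⟨s, h1, h2⟩ := this
  exact ⟨_, ⟨s, rfl⟩, h1, fun c hc hc' => (c.le_or_le hc' hc).elim h2.1 h2.2⟩

theorem nb (hT : Suslin T) (b : Flag T) : (𝓝 b).HasBasis (· ∈ b) cone :=
  ⟨fun U => by
    rw [(basis hT).mem_nhds_iff]
    exact ⟨fun ⟨_, ⟨t, e⟩, h1, h2⟩ => ⟨t, by subst e; exact h1, e ▸ h2⟩,
      fun ⟨t, h1, h2⟩ => ⟨_, ⟨t, rfl⟩, h1, h2⟩⟩⟩

theorem t35 (hT : Suslin T) : T35Space (Flag T) := by
  classical
  have : T0Space (Flag T) := ⟨fun b c h => SetLike.ext fun t =>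
    h.mem_open_iff (clopen hT t).2⟩
  have : CompletelyRegularSpace (Flag T) := ⟨fun x K hK hx => by
    obtain ⟨t, h1, h2⟩ := (nb hT x).mem_iff.1 (hK.isOpen_compl.mem_nhds hx)
    refine ⟨(cone t)ᶜ.indicator 1, (clopen hT t).compl.continuous_indicator continuous_const,
      indicator_of_notMem (s := (cone t)ᶜ) (fun h => h h1) _, fun y hy => ?_⟩
    exact indicator_of_mem (mem_compl fun h => h2 h hy) _⟩
  exact ⟨⟩

theorem fc (hT : Suslin T) : FirstCountableTopology (Flag T) :=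
  ⟨fun b => (HasCountableBasis.mk (nb hT b) (hT.chain _ b.chain_le)).isCountablyGenerated⟩

theorem hl (hT : Suslin T) : HereditarilyLindelofSpace (Flag T) := by
  refine ⟨fun Y _ => isLindelof_of_countable_subcover fun {ι} U hU hY => ?_⟩
  let S : Set T := {t | ∃ i, cone t ⊆ U i}
  choose i hi using fun m : {t | Minimal (· ∈ S) t} => m.2.1
  have := (hT.mins S).to_subtype
  refine ⟨range i, countable_range _, fun b hb => ?_⟩
  obtain ⟨j, hj⟩ := mem_iUnion.1 (hY hb)
  obtain ⟨t, h1, h2⟩ := (nb hT b).mem_iff.1 ((hU j).mem_nhds hj)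
  obtain ⟨m, h3, h4⟩ := hT.exmin (S := S) ⟨j, h2⟩
  exact mem_biUnion (mem_range_self ⟨m, h4⟩) (hi _ (cone_anti hT h3 h1))

theorem nsep (hT : Suslin T) : ¬ TopologicalSpace.SeparableSpace (Flag T) := by
  intro h
  obtain ⟨D, hD, hd⟩ := h.exists_countable_dense
  have := hT.unc
  refine not_countable_univ (((hD.biUnion fun b _ => hT.chain _ b.chain_le)).mono fun t _ => ?_)
  obtain ⟨b, h1, h2⟩ := hd.exists_mem_open (clopen hT t).2 (Flag.exists_mem t)
  exact mem_biUnion h1 h2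

theorem prop (hT : Suslin T) (Y : Set (Flag T)) (B : Set (Y → ℝ)) (hB : B.Countable)
    (hc : B ⊆ {f | Continuous f}) : ∃ C : Set Y, C.Countable ∧
      ∀ y, y ∈ closure C ∨ ∃ c ∈ C, ∀ f ∈ B, f y = f c := by
  let S : (Y → ℝ) → ℕ → Set T := fun f n =>
    {t | ∀ y z : Y, t ∈ y.1 → t ∈ z.1 → |f y - f z| ≤ 1 / ((n : ℝ) + 1)}
  let D : Set T := ⋃ f ∈ B, ⋃ n, ⋃ m ∈ {t | Minimal (· ∈ S f n) t}, Iic m
  have hD : D.Countable :=
    hB.biUnion fun f _ => countable_iUnion fun n => (hT.mins _).biUnion fun m _ => hT.iic m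
  let D' : Set T := (D ∪ {t | Minimal (· ∈ Dᶜ) t}) ∩ {t | ∃ y : Y, t ∈ y.1}
  have := ((hD.union (hT.mins Dᶜ)).mono (inter_subset_left (s := _)
    (t := {t | ∃ y : Y, t ∈ y.1}))).to_subtype
  choose c hc' using fun t : D' => t.2.2
  refine ⟨range c, countable_range _, fun y => ?_⟩
  by_cases hy : ∀ t ∈ y.1, t ∈ D
  · left
    rw [mem_closure_iff_nhds]
    intro U hU
    obtain ⟨V, hV, hVU⟩ := (mem_nhds_subtype _ _ _).1 hU
    obtain ⟨t, h1, h2⟩ := (nb hT y.1).mem_iff.1 hV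
    exact ⟨_, hVU (h2 (hc' ⟨t, Or.inl (hy t h1), y, h1⟩)), mem_range_self _⟩
  · right
    push Not at hy
    obtain ⟨t, h1, h2⟩ := hy
    obtain ⟨m, h3, h4⟩ := hT.exmin (S := Dᶜ) h2
    have h5 : m ∈ y.1 := cone_anti hT h3 h1
    refine ⟨_, mem_range_self ⟨m, Or.inr h4, y, h5⟩, fun f hf => ?_⟩
    have h6 : ∀ n : ℕ, m ∈ S f n := fun n => by
      have h7 : {z | |f z - f y| < 1 / ((n : ℝ) + 1) / 2} ∈ 𝓝 y :=
        (isOpen_lt ((hc hf).sub continuous_const).abs continuous_const).mem_nhds (by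
          show |f y - f y| < _
          rw [sub_self, abs_zero]; positivity)
      obtain ⟨V, hV, hVU⟩ := (mem_nhds_subtype _ _ _).1 h7
      obtain ⟨s, h8, h9⟩ := (nb hT y.1).mem_iff.1 hV
      obtain ⟨r, h10, h11⟩ := hT.exmin (S := S f n) (t := s) fun z w hz hw => by
        have e1 : |f z - f y| < _ := hVU (h9 hz)
        have e2 : |f w - f y| < _ := hVU (h9 hw)
        rw [abs_lt] at e1 e2
        rw [abs_le]
        constructor <;> linarith [e1.1, e1.2, e2.1, e2.2]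
      rcases y.1.le_or_le h5 (cone_anti hT h10 h8) with h | h
      · exact absurd (mem_biUnion hf (mem_iUnion.2 ⟨n, mem_iUnion₂.2 ⟨r, h11, h⟩⟩)) h4.1
      · exact fun z w hz hw => h11.1 z w (cone_anti hT h hz) (cone_anti hT h hw)
    have h12 := ge_of_tendsto' tendsto_one_div_add_atTop_nhds_zero_nat
      fun n => h6 n y _ h5 (hc' ⟨m, Or.inr h4, y, h5⟩)
    exact sub_eq_zero.1 (abs_nonpos_iff.1 h12)

theorem main (hT : Suslin T) : ∃ (X : Type) (_ : TopologicalSpace X), T35Space X ∧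
    FirstCountableTopology X ∧ HereditarilyLindelofSpace X ∧
    (∀ Y : Set X, IsGrothendieck Y) ∧ ¬ TopologicalSpace.SeparableSpace X := by
  have := fc hT
  have := hl hT
  exact ⟨Flag T, inferInstance, t35 hT, fc hT, hl hT,
    fun Y => (g_iff Y).2 (ga_of (prop hT Y)), nsep hT⟩

end Pool.Agent.H33.HG1
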