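import Mathlib
import Pool.Agent.H33.HG1
import Pool.Agent.H33.GrothEx

/-!
An almost inclusion preserving family of sets of integers indexed by a Suslin tree.
-/

open Set Filter Topology Cardinal

namespace Pool.Agent.H33.HG2

open Pool.Agent.H33.HG1

theorem rec_e {T α W : Type*} [LinearOrder W] [WellFoundedLT W] [Nonempty α] (e : T → W)
    (Good : T → (T → α) → α → Prop)
    (loc : ∀ t f g x, (∀ s, e s < e t → f s = g s) → Good t f x → Good t g x)
    (step : ∀ t f, (∀ s, e s < e t → Good s f (f s)) → ∃ x, Good t f x) :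
    ∃ f : T → α, ∀ t, Good t f (f t) := by
  classical
  have wf : WellFounded fun s t => e s < e t := InvImage.wf e wellFounded_lt
  let f : T → α := wf.fix fun t prev =>
    Classical.epsilon (Good t fun s => if h : e s < e t then prev s h else Classical.arbitrary α)
  have hf : ∀ t, f t = Classical.epsilon
      (Good t fun s => if e s < e t then f s else Classical.arbitrary α) := fun t => by
    show wf.fix _ t = _
    rw [WellFounded.fix_eq]
    rfl
  refine ⟨f, fun t => wf.induction (C := fun t => Good t f (f t)) t fun t ih => ?_⟩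
  obtain ⟨x, hx⟩ := step t f ih
  have h1 := loc t f (fun s => if e s < e t then f s else Classical.arbitrary α) x
    (fun s hs => by simp [hs]) hx
  have h2 := Classical.epsilon_spec ⟨x, h1⟩
  rw [← hf t] at h2
  exact loc t _ f _ (fun s hs => by simp [hs]) h2

theorem enum {P : Set (Set ℕ)} (hP : P.Countable) :
    ∃ p : ℕ → Set ℕ, (∀ n, p n ∈ insert ∅ P) ∧ ∀ x ∈ P, ∃ n, p n = x := by
  obtain ⟨p, hp⟩ := (hP.insert ∅).exists_eq_range (insert_nonempty _ _)
  exact ⟨p, fun n => hp ▸ mem_range_self n, fun x hx => by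
    have : x ∈ range p := hp ▸ mem_insert_of_mem _ hx
    exact this⟩

theorem sepa {P Q : Set (Set ℕ)} (hP : P.Countable) (hQ : Q.Countable)
    (h : ∀ x ∈ P, ∀ y ∈ Q, (x ∩ y).Finite) :
    ∃ b : Set ℕ, (∀ x ∈ P, (x \ b).Finite) ∧ ∀ y ∈ Q, (y ∩ b).Finite := by
  obtain ⟨p, p1, p2⟩ := enum hP
  obtain ⟨q, q1, q2⟩ := enum hQ
  have h1 : ∀ n m, (p n ∩ q m).Finite := fun n m => by
    rcases p1 n with e | e
    · simp [e]
    rcases q1 m with e' | e'
    · simp [e']
    exact h _ e _ e'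
  refine ⟨⋃ n, p n \ ⋃ k ∈ Iic n, q k, fun x hx => ?_, fun y hy => ?_⟩
  · obtain ⟨n, rfl⟩ := p2 x hx
    refine ((finite_Iic n).biUnion fun k _ => h1 n k).subset fun i hi => ?_
    by_contra hc
    refine hi.2 (mem_iUnion.2 ⟨n, hi.1, fun h2 => ?_⟩)
    obtain ⟨k, hk, h3⟩ := mem_iUnion₂.1 h2
    exact hc (mem_biUnion hk ⟨hi.1, h3⟩)
  · obtain ⟨m, rfl⟩ := q2 y hy
    refine ((finite_Iio m).biUnion fun n _ => h1 n m).subset fun i hi => ?_
    obtain ⟨n, h2, h3⟩ := mem_iUnion.1 hi.2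
    refine mem_biUnion (x := n) (mem_Iio.2 (lt_of_not_ge fun h4 =>
      h3 (mem_biUnion (mem_Iic.2 h4) hi.1))) ⟨h2, hi.1⟩

theorem pseudo {T : Type*} {D : Set T} (hD : D.Countable) (a : T → Set ℕ)
    (h : ∀ F ⊆ D, F.Finite → (⋃ y ∈ F, a y)ᶜ.Infinite) :
    ∃ N : Set ℕ, N.Infinite ∧ ∀ y ∈ D, (N ∩ a y).Finite := by
  rcases D.eq_empty_or_nonempty with rfl | hne
  · exact ⟨univ, infinite_univ, by simp⟩
  obtain ⟨q, rfl⟩ := hD.exists_eq_range hne
  choose x hx hnx using fun n => (h (q '' Iic n) (image_subset_range _ _)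
    ((finite_Iic n).image _)).exists_gt n
  refine ⟨range x, infinite_of_forall_exists_gt fun n => ⟨x n, mem_range_self n, hnx n⟩, ?_⟩
  rintro _ ⟨m, rfl⟩
  refine ((finite_Iio m).image x).subset ?_
  rintro _ ⟨⟨n, rfl⟩, h2⟩
  exact ⟨n, mem_Iio.2 (lt_of_not_ge fun h3 =>
    hx n (mem_biUnion (mem_image_of_mem q (mem_Iic.2 h3)) h2)), rfl⟩

theorem split {N : Set ℕ} (hN : N.Infinite) :
    ∃ N' ⊆ N, N'.Infinite ∧ (N \ N').Infinite := by
  let u := hN.natEmbedding N
  have hu : Function.Injective fun n => (u n : ℕ) := Subtype.val_injective.comp u.injective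
  refine ⟨range fun n => (u (2 * n) : ℕ), range_subset_iff.2 fun n => (u _).2,
    infinite_range_of_injective fun a b h => by have := hu h; omega,
    infinite_of_injective_forall_mem (f := fun n => (u (2 * n + 1) : ℕ))
      (fun a b h => by have := hu h; omega) fun n => ⟨(u _).2, ?_⟩⟩
  rintro ⟨m, hm⟩
  have := hu hm
  omega

theorem order {T : Type} [PartialOrder T] (hT : Suslin T) :
    ∃ e : T → Ordinal.{0} ×ₗ Ordinal.{0}, e.Injective ∧ StrictMono e ∧
      ∀ t, {s | e s < e t}.Countable := by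
  have := hT.wf
  let ρ : T → Ordinal.{0} := IsWellFounded.rank (· < ·)
  have hρ : StrictMono ρ := WellFoundedLT.rank_strictMono
  have lev : ∀ o, {s | ρ s = o}.Countable := fun o => hT.anti _ fun a ha b hb hab h =>
    (hρ (lt_of_le_of_ne h hab)).ne (ha.trans hb.symm)
  have low : ∀ t, {s | ρ s < ρ t}.Countable := fun t => by
    induction t using WellFoundedLT.induction with
    | _ t ih =>
      refine ((hT.chain _ (hT.tree t)).biUnion fun s hs => (ih s hs).union (lev (ρ s))).mono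
        fun y hy => ?_
      have h1 : ρ y < ρ t := hy
      simp only [ρ] at h1
      rw [IsWellFounded.rank_eq (· < ·) t] at h1
      obtain ⟨s, hs⟩ := (Ordinal.lt_iSup_iff).1 h1
      exact mem_biUnion s.2 (Order.lt_succ_iff.1 hs).lt_or_eq
  refine ⟨fun t => toLex (ρ t, Ordinal.typein WellOrderingRel t), fun s t h =>
    (Ordinal.typein_inj _).1 (congrArg (fun p => (ofLex p).2) h),
    fun s t h => Prod.Lex.toLex_lt_toLex.2 (Or.inl (hρ h)), fun t =>
      ((low t).union (lev (ρ t))).mono fun s hs => ?_⟩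
  exact (Prod.Lex.toLex_lt_toLex.1 hs).imp id And.left

theorem family {T : Type} [SemilatticeInf T] (hT : Suslin T) (hCH : continuum.{0} = ℵ_ 1) :
    ∃ a : T → Set ℕ, (∀ s t, s ≤ t → (a s \ a t).Finite) ∧
      (∀ s t, ((a s ∩ a t) \ a (s ⊓ t)).Finite) ∧
      (∀ F : Set T, F.Finite → (⋃ y ∈ F, a y)ᶜ.Infinite) ∧
      ∀ N : Set ℕ, N.Infinite → ∃ y, (N ∩ a y).Infinite := by
  obtain ⟨e, einj, emono, ec⟩ := order hT
  have := hT.unc
  obtain ⟨τ, hτ⟩ : ∃ τ : T → Set ℕ, τ.Surjective := by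
    have h1 : #(Set ℕ) ≤ #T := by
      rw [mk_set, mk_nat, two_power_aleph0, hCH, ← succ_aleph0]
      exact Order.succ_le_of_lt aleph0_lt_mk
    obtain ⟨j⟩ := h1
    exact ⟨_, Function.invFun_surjective j.injective⟩
  let Good : T → (T → Set ℕ) → Set ℕ → Prop := fun t f x =>
    (∀ s < t, (f s \ x).Finite) ∧ (∀ y, e y < e t → ((f y ∩ x) \ f (y ⊓ t)).Finite) ∧
    (∃ N : Set ℕ, N.Infinite ∧ (N ∩ x).Finite ∧ ∀ y, e y < e t → (N ∩ f y).Finite) ∧
    ((τ t).Infinite → (τ t ∩ x).Infinite ∨ ∃ y, e y < e t ∧ (τ t ∩ f y).Infinite)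
  have der : ∀ (D : Set T) (f : T → Set ℕ), (∀ s ∈ D, Good s f (f s)) →
      (∀ s, ∀ t ∈ D, s ≤ t → (f s \ f t).Finite) ∧
      (∀ s ∈ D, ∀ t ∈ D, ((f s ∩ f t) \ f (s ⊓ t)).Finite) ∧
      (∀ F ⊆ D, F.Finite → (⋃ y ∈ F, f y)ᶜ.Infinite) := by
    intro D f h
    refine ⟨fun s t ht hst => ?_, fun s hs t ht => ?_, fun F hF hfin => ?_⟩
    · rcases hst.eq_or_lt with rfl | h1
      · simp
      · exact (h t ht).1 s h1
    · rcases lt_trichotomy (e s) (e t) with h1 | h1 | h1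
      · exact (h t ht).2.1 s h1
      · rw [einj h1]; simp
      · rw [inter_comm, inf_comm]; exact (h s hs).2.1 t h1
    · rcases F.eq_empty_or_nonempty with rfl | hne
      · simpa using infinite_univ
      obtain ⟨m, hm, hmax⟩ := exists_max_image F e hfin hne
      obtain ⟨N, h1, h2, h3⟩ := (h m (hF hm)).2.2.1
      have h4 : (⋃ y ∈ F, N ∩ f y).Finite := hfin.biUnion fun y hy => by
        rcases (hmax y hy).eq_or_lt with h5 | h5
        · rw [einj h5]; exact h2
        · exact h3 y h5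
      refine (h1.sdiff h4).mono fun i hi h6 => ?_
      obtain ⟨y, hy, h7⟩ := mem_iUnion₂.1 h6
      exact hi.2 (mem_biUnion hy ⟨hi.1, h7⟩)
  have hinf : ∀ y t, e y < e t → e (y ⊓ t) < e t := fun y t h =>
    (emono.monotone inf_le_left).trans_lt h
  obtain ⟨a, ha⟩ := rec_e e Good (fun t f g x hfg h => by
      refine ⟨fun s hs => hfg s (emono hs) ▸ h.1 s hs, fun y hy => ?_, ?_, fun h1 => ?_⟩
      · rw [← hfg y hy, ← hfg _ (hinf y t hy)]; exact h.2.1 y hy
      · obtain ⟨N, h1, h2, h3⟩ := h.2.2.1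
        exact ⟨N, h1, h2, fun y hy => hfg y hy ▸ h3 y hy⟩
      · exact (h.2.2.2 h1).imp id fun ⟨y, hy, h2⟩ => ⟨y, hy, hfg y hy ▸ h2⟩) (by
    intro t f h
    obtain ⟨d1, d2, d3⟩ := der {s | e s < e t} f h
    obtain ⟨N, n1, n2, n3⟩ : ∃ N : Set ℕ, N.Infinite ∧ (∀ y, e y < e t → (N ∩ f y).Finite) ∧
        ((τ t).Infinite → N = τ t ∨ ∃ y, e y < e t ∧ (τ t ∩ f y).Infinite) := by
      by_cases hc : (τ t).Infinite ∧ ∀ y, e y < e t → (τ t ∩ f y).Finite
      · exact ⟨τ t, hc.1, hc.2, fun _ => Or.inl rfl⟩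
      · obtain ⟨N, n1, n2⟩ := pseudo (ec t) f d3
        refine ⟨N, n1, n2, fun h1 => Or.inr ?_⟩
        by_contra h2
        push Not at h2
        exact hc ⟨h1, h2⟩
    obtain ⟨N', s1, s2, s3⟩ := split n1
    obtain ⟨b, b1, b2⟩ := sepa (P := f '' Iio t)
      (Q := insert N ((fun y => f y \ f (y ⊓ t)) '' {s | e s < e t}))
      ((hT.chain _ (hT.tree t)).image _) (((ec t).image _).insert _) (by
        rintro _ ⟨s, hs, rfl⟩ _ (rfl | ⟨y, hy, rfl⟩)
        · rw [inter_comm]; exact n2 s (emono hs)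
        · refine ((d2 s (emono hs) y hy).union (d1 (s ⊓ y) (y ⊓ t) (hinf y t hy)
            (le_inf inf_le_right (inf_le_left.trans (le_of_lt hs))))).subset fun i hi => ?_
          by_cases h1 : i ∈ f (s ⊓ y)
          · exact Or.inr ⟨h1, hi.2.2⟩
          · exact Or.inl ⟨⟨hi.1, hi.2.1⟩, h1⟩)
    refine ⟨b ∪ N', fun s hs => (b1 _ (mem_image_of_mem f hs)).subset
      (sdiff_subset_sdiff_right subset_union_left), fun y hy => ?_,
      ⟨N \ N', s3, ?_, fun y hy => (n2 y hy).subset (inter_subset_inter_left _ sdiff_subset)⟩,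
      fun h1 => (n3 h1).imp (fun h2 : N = τ t => s2.mono fun i hi => ⟨h2 ▸ s1 hi, Or.inr hi⟩) id⟩
    · refine ((b2 _ (Or.inr (mem_image_of_mem _ hy))).union (n2 y hy)).subset fun i hi => ?_
      rcases hi.1.2 with h1 | h1
      · exact Or.inl ⟨⟨hi.1.1, hi.2⟩, h1⟩
      · exact Or.inr ⟨s1 h1, hi.1.1⟩
    · refine (b2 _ (Or.inl rfl)).subset fun i hi => ⟨hi.1.1, hi.2.resolve_right hi.1.2⟩)
  obtain ⟨d1, d2, d3⟩ := der univ a fun s _ => ha s
  refine ⟨a, fun s t => d1 s t trivial, fun s t => d2 s trivial t trivial,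
    fun F => d3 F (subset_univ _), fun N hN => ?_⟩
  obtain ⟨t, rfl⟩ := hτ N
  rcases (ha t).2.2.2 hN with h | ⟨y, -, h⟩
  · exact ⟨t, h⟩
  · exact ⟨y, h⟩

end Pool.Agent.H33.HG2
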