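import Mathlib
import Pool.Agent.H33.HG2

/-!
A Suslin tree of functions invariant under tail translations, from diamond.
-/

open Set Filter Topology Cardinal

namespace Pool.Agent.H33.DT1

open Pool.Agent.H33.HG2

variable {W Ω : Type} [LinearOrder W]

theorem bd [Uncountable W] (hc : ∀ ξ : W, (Iio ξ).Countable) (s : Set W) (hs : s.Countable) :
    ∃ β, ∀ α ∈ s, α < β := by
  by_contra h
  push Not at h
  refine not_countable_univ ((hs.biUnion fun α _ => (hc α).insert α).mono fun β _ => ?_)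
  obtain ⟨α, h1, h2⟩ := h β
  exact mem_biUnion h1 h2.eq_or_lt

theorem club [Uncountable W] [WellFoundedLT W] (hc : ∀ ξ : W, (Iio ξ).Countable) (g : W → W)
    (δ : W) : IsClub {β | δ < β ∧ ∀ i < β, g i < β} := by
  constructor
  · intro s hs ⟨a, ha⟩ _ b hb
    refine ⟨(hs ha).1.trans_le (hb.1 ha), fun i hi => ?_⟩
    obtain ⟨c, hc, hic⟩ := (lt_isLUB_iff hb).1 hi
    exact ((hs hc).2 i hic).trans_le (hb.1 hc)
  · intro a
    choose F hF using fun b : W => bd hc (insert b (g '' Iio b)) (((hc b).image g).insert b)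
    let b : ℕ → W := fun n => F^[n] (max a δ)
    have hb : ∀ n, b (n + 1) = F (b n) := fun n => Function.iterate_succ_apply' F n _
    obtain ⟨β, h1, h2⟩ := wellFounded_lt.has_min {β | ∀ α ∈ range b, α < β}
      (bd hc _ (countable_range b))
    have h0 : max a δ < β := h1 _ ⟨0, rfl⟩
    refine ⟨β, ⟨(le_max_right _ _).trans_lt h0, fun i hi => ?_⟩,
      ((le_max_left _ _).trans_lt h0).le⟩
    obtain ⟨n, hn⟩ : ∃ n, i ≤ b n := by
      by_contra h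
      push Not at h
      exact h2 i (forall_mem_range.2 h) hi
    have h3 : i < b (n + 1) := hn.trans_lt (hb n ▸ hF _ _ (Or.inl rfl))
    exact (hF _ _ (Or.inr (mem_image_of_mem g h3))).trans (hb (n + 1) ▸ h1 _ ⟨n + 2, rfl⟩)

/-- codes of step functions -/
abbrev L (W : Type) : Type := FreeGroup (W × ℕ)

variable (γ : ℕ → Equiv.Perm Ω)

/-- step functions -/
def ρ : L W →* (W → Equiv.Perm Ω) :=
  FreeGroup.lift fun p x => if p.1 ≤ x then γ p.2 else 1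

theorem ρ_of (p : W × ℕ) (x : W) : ρ γ (FreeGroup.of p) x = if p.1 ≤ x then γ p.2 else 1 := by
  simp [ρ]

theorem cnt (hc : ∀ ξ : W, (Iio ξ).Countable) (ζ : W) : ∃ s : ℕ → L W,
    ∀ l : L W, ∃ k, ∀ x < ζ, ρ γ l x = ρ γ (s k) x := by
  have := (hc ζ).to_subtype
  obtain ⟨s, hs⟩ := exists_surjective_nat (FreeGroup (Iio ζ × ℕ))
  let φ : FreeGroup (Iio ζ × ℕ) →* L W := FreeGroup.map fun p => (p.1.1, p.2)
  suffices ∀ l : L W, ∃ l', ∀ x < ζ, ρ γ l x = ρ γ (φ l') x from ⟨φ ∘ s, fun l => by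
    obtain ⟨l', h⟩ := this l
    obtain ⟨k, rfl⟩ := hs l'
    exact ⟨k, h⟩⟩
  intro l
  induction l using FreeGroup.induction_on with
  | C1 => exact ⟨1, by simp⟩
  | of p =>
    by_cases h : p.1 < ζ
    · exact ⟨FreeGroup.of (⟨p.1, h⟩, p.2), by simp [φ]⟩
    · exact ⟨1, fun x hx => by
        rw [ρ_of, if_neg fun h' => h (h'.trans_lt hx), map_one, map_one, Pi.one_apply]⟩
  | inv_of p ih =>
    obtain ⟨l', h⟩ := ih
    exact ⟨l'⁻¹, fun x hx => by rw [map_inv, map_inv, map_inv, Pi.inv_apply, Pi.inv_apply, h x hx]⟩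
  | mul a b iha ihb =>
    obtain ⟨a', ha⟩ := iha
    obtain ⟨b', hb⟩ := ihb
    exact ⟨a' * b', fun x hx => by
      rw [map_mul, map_mul, map_mul, Pi.mul_apply, Pi.mul_apply, ha x hx, hb x hx]⟩

/-- the function given by a node -/
def val (e : W → W → Ω) (n : W × L W) (x : W) : Ω := ρ γ n.2 x (e n.1 x)

/-- the tree order -/
def ext (e : W → W → Ω) (n m : W × L W) : Prop :=
  n.1 ≤ m.1 ∧ ∀ x < n.1, val γ e n x = val γ e m x

variable {γ}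

theorem ext.trans {e : W → W → Ω} {n m k : W × L W} (h : ext γ e n m) (h' : ext γ e m k) :
    ext γ e n k :=
  ⟨h.1.trans h'.1, fun x hx => (h.2 x hx).trans (h'.2 x (hx.trans_le h.1))⟩

theorem ext.refl (e : W → W → Ω) (n : W × L W) : ext γ e n n := ⟨le_rfl, fun _ _ => rfl⟩

theorem val_mul (e : W → W → Ω) (ζ : W) (a b : L W) (x : W) :
    val γ e (ζ, a * b) x = ρ γ a x (val γ e (ζ, b) x) := by
  simp [val]

theorem up {e : W → W → Ω} {n : W × L W} {η : W} (h : n.1 ≤ η)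
    (hl : ∃ l, ∀ x < n.1, e η x = ρ γ l x (e n.1 x)) : ∃ l, ext γ e n (η, l) := by
  obtain ⟨l, hl⟩ := hl
  exact ⟨n.2 * l⁻¹, h, fun x hx => by simp [val, hl x hx]⟩

theorem down {e : W → W → Ω} {m : W × L W} {ζ : W} (h : ζ ≤ m.1)
    (hl : ∃ l, ∀ x < ζ, e m.1 x = ρ γ l x (e ζ x)) : ∃ l, ext γ e (ζ, l) m := by
  obtain ⟨l, hl⟩ := hl
  exact ⟨m.2 * l, h, fun x hx => by simp [val, hl x hx]⟩

theorem sealing (hc : ∀ ξ : W, (Iio ξ).Countable) {e : W → W → Ω} {δ : W}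
    (coh : ∀ ζ η, ζ ≤ η → η < δ → ∃ l, ∀ x < ζ, e η x = ρ γ l x (e ζ x)) (h0 : ∃ ζ, ζ < δ)
    (D : Set (W × L W)) (hD : ∀ n, n.1 < δ → ∃ m ∈ D, n.1 < m.1 ∧ m.1 < δ ∧ ext γ e n m) :
    ∃ x : W → Ω, (∀ ζ < δ, ∃ l, ∀ y < ζ, x y = ρ γ l y (e ζ y)) ∧
      ∀ l, ∃ n ∈ D, n.1 < δ ∧ ∀ y < n.1, val γ e n y = ρ γ l y (x y) := by
  classical
  obtain ⟨s, hs⟩ := cnt γ hc δ
  obtain ⟨z, hz⟩ := (hc δ).exists_eq_range h0
  have hz1 : ∀ k, z k < δ := fun k => by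
    have : z k ∈ Iio δ := hz ▸ mem_range_self k
    exact this
  have step : ∀ (k : ℕ) (n : {n : W × L W // n.1 < δ}), ∃ n' : {n : W × L W // n.1 < δ},
      ext γ e n.1 n'.1 ∧ z k < n'.1.1 ∧ ∃ m ∈ D, m.1 = n'.1.1 ∧
        ∀ y, val γ e m y = ρ γ (s k) y (val γ e n'.1 y) := by
    intro k n
    have h1 : max n.1.1 (z k) < δ := max_lt n.2 (hz1 k)
    obtain ⟨l, hl⟩ := up (le_max_left n.1.1 (z k)) (coh _ _ (le_max_left _ _) h1)
    obtain ⟨m, m1, m2, m3, m4⟩ := hD (max n.1.1 (z k), s k * l) h1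
    refine ⟨⟨(m.1, (s k)⁻¹ * m.2), m3⟩, hl.trans ⟨m2.le, fun y hy => ?_⟩,
      (le_max_right _ _).trans_lt m2, m, m1, rfl, fun y => by simp [val]⟩
    rw [val_mul, ← m4.2 y hy, val_mul]
    simp
  choose F F1 F2 F3 using step
  let n : ℕ → {n : W × L W // n.1 < δ} := fun k => Nat.rec ⟨(z 0, 1), hz1 0⟩ F k
  have hn : ∀ i j, i ≤ j → ext γ e (n i).1 (n j).1 := fun i j h => by
    induction h with
    | refl => exact ext.refl _ _
    | step _ ih => exact ih.trans (F1 _ _)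
  let x : W → Ω := fun y => if h : ∃ k, y < (n k).1.1 then val γ e (n h.choose).1 y else e δ y
  have hx : ∀ k, ∀ y < (n k).1.1, x y = val γ e (n k).1 y := fun k y hy => by
    have h : ∃ k, y < (n k).1.1 := ⟨k, hy⟩
    simp only [x, dif_pos h]
    rcases le_total k h.choose with h1 | h1
    · exact ((hn _ _ h1).2 y hy).symm
    · exact (hn _ _ h1).2 y h.choose_spec
  refine ⟨x, fun ζ hζ => ?_, fun l => ?_⟩
  · obtain ⟨k, rfl⟩ : ζ ∈ range z := hz ▸ hζ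
    have h1 : z k < (n (k + 1)).1.1 := F2 k _
    obtain ⟨l, hl⟩ := down h1.le (coh _ _ h1.le (n (k + 1)).2)
    exact ⟨l, fun y hy => (hx (k + 1) y (hy.trans h1)).trans (hl.2 y hy).symm⟩
  · obtain ⟨k, hk⟩ := hs l
    obtain ⟨m, m1, m2, m3⟩ := F3 k (n k)
    have h1 : m.1 < δ := m2 ▸ (n (k + 1)).2
    refine ⟨m, m1, h1, fun y hy => ?_⟩
    rw [m3, hk y (hy.trans h1), hx (k + 1) y (m2 ▸ hy)]

theorem tree [Nonempty Ω] [Uncountable W] [WellFoundedLT W] (hc : ∀ ξ : W, (Iio ξ).Countable)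
    (A : W → Set W) (hA : ∀ X : Set W, IsStationary {α | X ∩ Iio α = A α})
    (γ : ℕ → Equiv.Perm Ω) : ∃ e : W → W → Ω,
      (∀ ζ η, ζ ≤ η → ∃ l, ∀ x < ζ, e η x = ρ γ l x (e ζ x)) ∧
      ∀ D : Set (W × L W), (∀ n, ∃ m ∈ D, ext γ e n m) →
        ∃ δ, ∀ m, δ ≤ m.1 → ∃ n ∈ D, ext γ e n m := by
  obtain ⟨ψ, hψ⟩ : ∃ ψ : W → W × L W, ψ.Surjective := by
    have h0 : ℵ₀ ≤ #W := aleph0_le_mk W
    obtain ⟨j⟩ : Nonempty (W ≃ W × L W) := by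
      rw [← Cardinal.eq, mk_prod, lift_id, lift_id, mk_freeGroup, mk_prod, lift_id, lift_id,
        mk_nat, mul_aleph0_eq h0, max_eq_left h0, mul_eq_self h0]
    exact ⟨j, j.surjective⟩
  let Good : W → (W → W → Ω) → (W → Ω) → Prop := fun δ f x =>
    (∀ ζ < δ, ∃ l, ∀ y < ζ, x y = ρ γ l y (f ζ y)) ∧ ((∃ ζ, ζ < δ) →
      (∀ n, n.1 < δ → ∃ m ∈ ψ '' A δ, n.1 < m.1 ∧ m.1 < δ ∧ ext γ f n m) →
      ∀ l, ∃ n ∈ ψ '' A δ, n.1 < δ ∧ ∀ y < n.1, val γ f n y = ρ γ l y (x y))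
  have der : ∀ (f : W → W → Ω) ζ η, ζ ≤ η → Good η f (f η) →
      ∃ l, ∀ x < ζ, f η x = ρ γ l x (f ζ x) := fun f ζ η h hg => by
    rcases h.eq_or_lt with rfl | h
    · exact ⟨1, by simp⟩
    · exact hg.1 ζ h
  obtain ⟨e, he⟩ := rec_e (id : W → W) Good (fun δ f g x hfg h => by
      have hv : ∀ n : W × L W, n.1 < δ → val γ f n = val γ g n := fun n hn => by
        funext y
        simp only [val, hfg n.1 hn]
      refine ⟨fun ζ hζ => hfg ζ hζ ▸ h.1 ζ hζ, fun h0 h1 l => ?_⟩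
      obtain ⟨n, n1, n2, n3⟩ := h.2 h0 (fun n hn => by
        obtain ⟨m, m1, m2, m3, m4⟩ := h1 n hn
        exact ⟨m, m1, m2, m3, m4.1, by rw [hv n hn, hv m m3]; exact m4.2⟩) l
      exact ⟨n, n1, n2, hv n n2 ▸ n3⟩) (by
    intro δ f h
    have coh : ∀ ζ η, ζ ≤ η → η < δ → ∃ l, ∀ x < ζ, f η x = ρ γ l x (f ζ x) :=
      fun ζ η h1 h2 => der f ζ η h1 (h η h2)
    by_cases h0 : ∃ ζ, ζ < δ
    swap
    · exact ⟨f δ, fun ζ hζ => absurd ⟨ζ, hζ⟩ h0, fun h1 => absurd h1 h0⟩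
    by_cases h1 : ∀ n, n.1 < δ → ∃ m ∈ ψ '' A δ, n.1 < m.1 ∧ m.1 < δ ∧ ext γ f n m
    · obtain ⟨x, x1, x2⟩ := sealing hc coh h0 _ h1
      exact ⟨x, x1, fun _ _ => x2⟩
    by_cases h2 : ∀ ζ < δ, ∃ η, ζ < η ∧ η < δ
    · obtain ⟨x, x1, -⟩ := sealing hc coh h0 univ fun n hn => by
        obtain ⟨η, h3, h4⟩ := h2 _ hn
        obtain ⟨l, hl⟩ := up h3.le (coh _ _ h3.le h4)
        exact ⟨_, trivial, h3, h4, hl⟩
      exact ⟨x, x1, fun _ h3 => absurd h3 h1⟩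
    · push Not at h2
      obtain ⟨η, h3, h4⟩ := h2
      exact ⟨f η, fun ζ hζ => coh ζ η (le_of_not_gt fun h5 => (h4 ζ h5).not_gt hζ) h3,
        fun _ h3 => absurd h3 h1⟩)
  have coh : ∀ ζ η, ζ ≤ η → ∃ l, ∀ x < ζ, e η x = ρ γ l x (e ζ x) :=
    fun ζ η h => der e ζ η h (he η)
  refine ⟨e, coh, fun D hD => ?_⟩
  choose s hs using cnt γ hc
  have h1 : ∀ n : W × L W, ∃ c, ψ c ∈ D ∧ n.1 < (ψ c).1 ∧ ext γ e n (ψ c) := fun n => by
    obtain ⟨η, hη⟩ := bd hc {n.1} (countable_singleton _)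
    have h2 := hη _ rfl
    obtain ⟨l, hl⟩ := up h2.le (coh _ _ h2.le)
    obtain ⟨m, m1, m2⟩ := hD (η, l)
    obtain ⟨c, rfl⟩ := hψ m
    exact ⟨c, m1, h2.trans_le m2.1, hl.trans m2⟩
  choose c c1 c2 c3 using h1
  choose g hg using fun ζ => bd hc (range (fun k => c (ζ, s ζ k)) ∪
    range fun k => (ψ (c (ζ, s ζ k))).1) ((countable_range _).union (countable_range _))
  obtain ⟨δ, h2, h3, h4⟩ := hA (ψ ⁻¹' D) (club hc g (Classical.arbitrary W))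
  have h2' : ψ ⁻¹' D ∩ Iio δ = A δ := h2
  refine ⟨δ, fun m hm => ?_⟩
  obtain ⟨l, hl⟩ := down hm (coh _ _ hm)
  obtain ⟨_, ⟨a, n1, rfl⟩, n2, n3⟩ := (he δ).2 ⟨_, h3⟩ (fun n hn => by
    obtain ⟨k, hk⟩ := hs n.1 n.2
    refine ⟨ψ (c (n.1, s n.1 k)), mem_image_of_mem ψ (h2' ▸ ⟨c1 (n.1, s n.1 k),
      (hg n.1 _ (Or.inl ⟨k, rfl⟩)).trans (h4 _ hn)⟩), c2 (n.1, s n.1 k),
      (hg n.1 _ (Or.inr ⟨k, rfl⟩)).trans (h4 _ hn), ext.trans (m := (n.1, s n.1 k))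
        ⟨le_rfl, fun y hy => by simp only [val, hk y hy]⟩ (c3 _)⟩) l
  rw [← h2'] at n1
  exact ⟨_, n1.1, ext.trans (m := (δ, l)) ⟨n2.le, n3⟩ hl⟩

end Pool.Agent.H33.DT1
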