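import Mathlib
import Pool.Agent.H33.DT1

/-!
A Lindelöf space with a compact set of uncountable tightness in its function space.
-/

open Set Filter Topology Cardinal

namespace Pool.Agent.H33.DT2

open Pool.Agent.H33.GrothDefs Pool.Agent.H33.Groth Pool.Agent.H33.DT1

theorem perms : ∃ (E : Set (ℕ × ℕ)) (γ : ℕ → Equiv.Perm (ℕ × ℕ)), (∀ ω, ω ∈ E ∨ γ 0 ω ∈ E) ∧
    ∀ ω i j, γ (i + 1) ω ∈ E → γ (j + 1) ω ∈ E → i = j := by
  classical
  let E : Set (ℕ × ℕ) := {p | p.1 = 0}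
  have h1 : Infinite E := (infinite_of_injective_forall_mem (f := fun n : ℕ => ((0, n) : ℕ × ℕ))
    (fun a b h => by simpa using h) fun _ => rfl).to_subtype
  have h2 : Infinite (Eᶜ : Set (ℕ × ℕ)) := (infinite_of_injective_forall_mem
    (f := fun n : ℕ => ((1, n) : ℕ × ℕ)) (fun a b h => by simpa using h)
      fun _ => by simp [E]).to_subtype
  obtain ⟨f⟩ : Nonempty ((Eᶜ : Set (ℕ × ℕ)) ≃ E) := nonempty_equiv_of_countable
  let τ : Equiv.Perm (ℕ × ℕ) := (Equiv.Set.sumCompl E).symm.trans (((Equiv.sumComm _ _).trans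
    (f.sumCongr f.symm)).trans (Equiv.Set.sumCompl E))
  refine ⟨E, fun n => Nat.casesOn n τ fun i => (Equiv.swap 0 i).prodCongr (Equiv.refl _),
    fun ω => (em _).imp id fun h => ?_, fun ω i j hi hj => ?_⟩
  · have : τ ω = f ⟨ω, h⟩ := by simp [τ, Equiv.Set.sumCompl_symm_apply_of_notMem h]
    exact this ▸ (f _).2
  · have h3 : ∀ i, Equiv.swap 0 i ω.1 = 0 → ω.1 = i := fun i h => by
      rw [Equiv.swap_apply_eq_iff, Equiv.swap_apply_left] at h
      exact h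
    exact (h3 i hi).symm.trans (h3 j hj)

/-- abstract form of the tree -/
structure Sys (W N : Type) [LinearOrder W] (ht : N → W) (v : N → Set W) (R : N → N → Prop) :
    Prop where
  trans : ∀ {n m k}, R n m → R m k → R n k
  refl : ∀ n, R n n
  sub : ∀ n, v n ⊆ Iio (ht n)
  res : ∀ {n m}, R n m → v m ∩ Iio (ht n) = v n
  disj : ∀ n ζ, ht n ≤ ζ → ∃ m : ℕ → N, (∀ i, R n (m i) ∧ ht (m i) = ζ) ∧
    ∀ i j x, ht n ≤ x → x ∈ v (m i) → x ∈ v (m j) → i = j
  cov : ∀ ζ, ∃ n n', v n ∪ v n' = Iio ζ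
  sus : ∀ D : Set N, (∀ n, ∃ m ∈ D, R n m) → ∃ δ, ∀ m, δ ≤ ht m → ∃ n ∈ D, R n m
  lev : ∀ δ, ∃ C : Set N, C.Countable ∧ ∀ m, (∃ n ∈ C, v n = v m) ∨ ∃ n ∈ C, δ ≤ ht n ∧ R n m

variable {W : Type} [LinearOrder W]

theorem sys [Uncountable W] [WellFoundedLT W] (hc : ∀ ξ : W, (Iio ξ).Countable)
    (A : W → Set W) (hA : ∀ X : Set W, IsStationary {α | X ∩ Iio α = A α}) :
    ∃ (N : Type) (ht : N → W) (v : N → Set W) (R : N → N → Prop), Sys W N ht v R := by
  obtain ⟨E, γ, g1, g2⟩ := perms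
  obtain ⟨e, coh, sus⟩ := tree hc A hA γ
  refine ⟨W × L W, Prod.fst, fun n => {x | x < n.1 ∧ val γ e n x ∈ E}, ext γ e, ext.trans,
    ext.refl e, fun n x hx => hx.1, fun {n m} h => ?_, fun n ζ h => ?_, fun ζ => ?_, sus,
    fun δ => ?_⟩
  · ext x
    exact ⟨fun hx => ⟨hx.2, h.2 x hx.2 ▸ hx.1.2⟩,
      fun hx => ⟨⟨hx.1.trans_le h.1, h.2 x hx.1 ▸ hx.2⟩, hx.1⟩⟩
  · obtain ⟨l, hl⟩ := up h (coh _ _ h)
    refine ⟨fun i => (ζ, FreeGroup.of (n.1, i + 1) * l), fun i => ⟨⟨h, fun x hx => ?_⟩, rfl⟩,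
      fun i j x hx hi hj => g2 (val γ e (ζ, l) x) i j ?_ ?_⟩
    · rw [val_mul, ρ_of, if_neg hx.not_ge, hl.2 x hx]
      rfl
    · simpa only [val_mul, ρ_of, if_pos hx] using hi.2
    · simpa only [val_mul, ρ_of, if_pos hx] using hj.2
  · obtain ⟨b, -, hb⟩ := wellFounded_lt.has_min (univ : Set W) univ_nonempty
    refine ⟨(ζ, 1), (ζ, FreeGroup.of (b, 0) * 1), subset_antisymm
      (union_subset (fun x hx => hx.1) fun x hx => hx.1) fun x hx => ?_⟩
    refine (g1 (val γ e (ζ, 1) x)).imp (fun h => ⟨hx, h⟩) fun h => ⟨hx, ?_⟩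
    rwa [val_mul, ρ_of, if_pos (le_of_not_gt (hb x trivial))]
  · choose s hs using cnt γ hc
    refine ⟨⋃ ζ ∈ insert δ (Iio δ), range fun k => (ζ, s ζ k),
      ((hc δ).insert δ).biUnion fun _ _ => countable_range _, fun m => ?_⟩
    rcases lt_or_ge m.1 δ with h | h
    · obtain ⟨k, hk⟩ := hs m.1 m.2
      refine Or.inl ⟨_, mem_biUnion (Or.inr h) ⟨k, rfl⟩, ?_⟩
      ext x
      exact and_congr_right fun hx => by simp only [val, hk x hx]
    · obtain ⟨l, hl⟩ := down h (coh _ _ h)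
      obtain ⟨k, hk⟩ := hs δ l
      exact Or.inr ⟨_, mem_biUnion (Or.inl rfl) ⟨k, rfl⟩, le_rfl, ext.trans (m := (δ, l))
        ⟨le_rfl, fun y hy => by simp only [val, hk y hy]⟩ hl⟩

open Classical in
/-- the indicator of a set, as a function on ultrafilters -/
noncomputable def ind (V : Set W) (u : Ultrafilter W) : ℝ := if V ∈ u then 1 else 0

omit [LinearOrder W] in
theorem ind_cont (V : Set W) : Continuous (ind V) := by
  classical
  have : ind V = {u : Ultrafilter W | V ∈ u}.indicator 1 := by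
    funext u
    simp [ind, indicator]
  rw [this]
  exact (IsClopen.continuous_indicator
    ⟨ultrafilter_isClosed_basic V, ultrafilter_isOpen_basic V⟩ continuous_const)

/-- the space -/
abbrev X {N : Type} (v : N → Set W) : Type := range fun n => ind (v n)

/-- points of the space -/
noncomputable def pt {N : Type} (v : N → Set W) (n : N) : X v := ⟨ind (v n), n, rfl⟩

variable {N : Type} {ht : N → W} {v : N → Set W} {R : N → N → Prop}

omit [LinearOrder W] in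
theorem pt_surj (x : X v) : ∃ n, pt v n = x := by
  obtain ⟨_, n, rfl⟩ := x
  exact ⟨n, rfl⟩

omit [LinearOrder W] in
theorem tight (A : Set (X v)) (x : X v) (hx : x ∈ closure A) :
    ∃ B ⊆ A, B.Countable ∧ x ∈ closure B := by
  have hc : ∀ y : X v, Continuous y.1 := by
    rintro ⟨_, n, rfl⟩
    exact ind_cont _
  have key : ∀ (C : Set (X v)), x ∈ closure C ↔ ∀ (k : ℕ) (u : Fin k → Ultrafilter W),
      ∃ a ∈ C, ∀ i, |a.1 (u i) - x.1 (u i)| < 1 / ((k : ℝ) + 1) := fun C => by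
    constructor
    · intro h k u
      have h1 : ∀ᶠ a in 𝓝 x, ∀ i, |a.1 (u i) - x.1 (u i)| < 1 / ((k : ℝ) + 1) :=
        eventually_all.2 fun i => (isOpen_lt ((((continuous_apply (u i)).comp
          continuous_subtype_val).sub continuous_const).abs) continuous_const).mem_nhds (by
          show |x.1 (u i) - x.1 (u i)| < _
          rw [sub_self, abs_zero]
          positivity)
      exact ((mem_closure_iff_frequently.1 h).and_eventually h1).exists
    · intro h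
      by_contra h1
      rw [closure_subtype] at h1
      obtain ⟨n, y, hy⟩ := HG1.sep h1 (pure (Classical.choice (x.2.elim fun n _ => by
        by_contra h2
        exact h1 (by
          obtain ⟨a, ha, -⟩ := h 0 Fin.elim0
          have : IsEmpty (Ultrafilter W) := ⟨fun u => h2 (Filter.nonempty_of_neBot (u : Filter W))⟩
          exact subset_closure ⟨a, ha, Subsingleton.elim _ _⟩))))
      obtain ⟨a, ha, h2⟩ := h n fun i => y i
      obtain ⟨i, hi, h3⟩ := hy a.1 (subset_closure (mem_image_of_mem _ ha))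
      exact (h2 ⟨i, hi⟩).not_ge h3
  have h1 : ∀ k : ℕ, ∃ t : Finset A, (univ : Set (Fin k → Ultrafilter W)) ⊆
      ⋃ a ∈ t, {u | ∀ i, |a.1.1 (u i) - x.1 (u i)| < 1 / ((k : ℝ) + 1)} := fun k =>
    isCompact_univ.elim_finite_subcover _ (fun a => by
      rw [ofPred_forall]
      exact isOpen_iInter_of_finite fun i => isOpen_lt
        ((((hc _).sub (hc _)).comp (continuous_apply i)).abs) continuous_const) fun u _ => by
      obtain ⟨a, ha, h⟩ := (key A).1 hx k u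
      exact mem_iUnion.2 ⟨⟨a, ha⟩, h⟩
  choose t ht using h1
  refine ⟨⋃ k, Subtype.val '' (t k : Set A), iUnion_subset fun k => ?_,
    countable_iUnion fun k => (t k).countable_toSet.image _, (key _).2 fun k u => ?_⟩
  · rintro _ ⟨a, -, rfl⟩
    exact a.2
  · obtain ⟨a, h1, h2⟩ := mem_iUnion₂.1 (ht k (mem_univ u))
    exact ⟨a, mem_iUnion.2 ⟨k, a, h1, rfl⟩, h2⟩

variable [Uncountable W] (hc : ∀ ξ : W, (Iio ξ).Countable) (h : Sys W N ht v R)
include hc h

theorem star (n : N) {U : Set (X v)} (hU : U ∈ 𝓝 (pt v n)) :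
    ∃ m, R n m ∧ ∀ k, R m k → pt v k ∈ U := by
  obtain ⟨V, hV, hVU⟩ := (mem_nhds_subtype _ _ _).1 hU
  rw [nhds_pi, Filter.mem_pi] at hV
  obtain ⟨I, hI, w, hw, hwV⟩ := hV
  choose! z hz using fun (u : Ultrafilter W) (hu : ∃ ζ, Iio ζ ∈ u) => hu
  obtain ⟨ζ, hζ⟩ := bd hc (insert (ht n) (z '' I)) ((hI.countable.image _).insert _)
  obtain ⟨m, m1, m2⟩ := h.disj n ζ (hζ _ (Or.inl rfl)).le
  have h1 : (⋃ u ∈ I, {i | v (m i) ∩ Ici (ht n) ∈ u}).Finite := hI.biUnion fun u _ =>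
    Set.Subsingleton.finite fun i hi j hj => by
      obtain ⟨x, h2, h3⟩ := u.nonempty_of_mem (inter_mem hi hj)
      exact m2 i j x h2.2 h2.1 h3.1
  obtain ⟨i, hi⟩ := h1.infinite_compl.nonempty
  refine ⟨m i, (m1 i).1, fun k hk => hVU (hwV fun u hu => ?_)⟩
  have h2 : v k ∈ u ↔ v n ∈ u := by
    refine ⟨fun h3 => ?_, fun h3 => mem_of_superset h3
      ((h.res (h.trans (m1 i).1 hk)).ge.trans inter_subset_left)⟩
    have h4 : Iio ζ ∈ u := mem_of_superset (hz u ⟨_, mem_of_superset h3 (h.sub k)⟩)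
      (Iio_subset_Iio (hζ _ (Or.inr (mem_image_of_mem z hu))).le)
    have h5 : v (m i) ∈ u := by
      rw [← h.res hk, (m1 i).2]
      exact inter_mem h3 h4
    have h6 : (v (m i) ∩ Ici (ht n))ᶜ ∈ u :=
      Ultrafilter.compl_mem_iff_notMem.2 fun h6 => hi (mem_biUnion hu h6)
    rw [← h.res (m1 i).1]
    exact mem_of_superset (inter_mem h5 h6) fun x hx =>
      ⟨hx.1, lt_of_not_ge fun h7 => hx.2 ⟨hx.1, h7⟩⟩
  have h3 : (pt v k).1 u = (pt v n).1 u := by
    by_cases h4 : v n ∈ u <;> simp [pt, ind, h2, h4]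
  rw [h3]
  exact mem_of_mem_nhds (hw u)

theorem opn {ι : Type*} (U : ι → Set (X v)) (hU : ∀ i, IsOpen (U i)) :
    ∃ δ, ∀ m, δ ≤ ht m → (∃ i, ∀ k, R m k → pt v k ∈ U i) ∨ ∀ k, R m k → ∀ i, pt v k ∉ U i := by
  obtain ⟨δ, hδ⟩ := h.sus
    {m | (∃ i, ∀ k, R m k → pt v k ∈ U i) ∨ ∀ k, R m k → ∀ i, pt v k ∉ U i} fun n => by
      by_cases h1 : ∀ k, R n k → ∀ i, pt v k ∉ U i
      · exact ⟨n, Or.inr h1, h.refl n⟩
      push Not at h1
      obtain ⟨k, h1, i, h2⟩ := h1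
      obtain ⟨m, h3, h4⟩ := star hc h k ((hU i).mem_nhds h2)
      exact ⟨m, Or.inl ⟨i, h4⟩, h.trans h1 h3⟩
  refine ⟨δ, fun m hm => ?_⟩
  obtain ⟨n, h1, h2⟩ := hδ m hm
  exact h1.imp (fun ⟨i, hi⟩ => ⟨i, fun k hk => hi k (h.trans h2 hk)⟩)
    fun h3 k hk => h3 k (h.trans h2 hk)

theorem hl : HereditarilyLindelofSpace (X v) := by
  refine ⟨fun Y _ => isLindelof_of_countable_subcover fun {ι} U hU hY => ?_⟩
  obtain ⟨δ, hδ⟩ := opn hc h U hU
  obtain ⟨C, c1, c2⟩ := h.lev δ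
  let C₁ := C ∩ {n | ∃ i, pt v n ∈ U i}
  let C₂ := C ∩ {n | ∃ i, ∀ k, R n k → pt v k ∈ U i}
  have := (c1.mono (inter_subset_left : C₁ ⊆ C)).to_subtype
  have := (c1.mono (inter_subset_left : C₂ ⊆ C)).to_subtype
  choose i hi using fun n : C₁ => n.2.2
  choose j hj using fun n : C₂ => n.2.2
  refine ⟨range i ∪ range j, (countable_range _).union (countable_range _), fun y hy => ?_⟩
  obtain ⟨m, rfl⟩ := pt_surj y
  obtain ⟨a, ha⟩ := mem_iUnion.1 (hY hy)
  rcases c2 m with ⟨n, h1, h2⟩ | ⟨n, h1, h2, h3⟩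
  · have h3 : pt v n = pt v m := by simp only [pt, h2]
    rw [← h3] at ha ⊢
    exact mem_biUnion (Or.inl (mem_range_self ⟨n, h1, a, ha⟩)) (hi _)
  · exact mem_biUnion (Or.inr (mem_range_self
      ⟨n, h1, (hδ n h2).resolve_right fun h4 => h4 m h3 a ha⟩)) (hj _ m h3)

theorem cr {M : Type*} [TopologicalSpace M] [T0Space M] [SecondCountableTopology M]
    {f : X v → M} (hf : Continuous f) : (range f).Countable := by
  have := (TopologicalSpace.countable_countableBasis M).to_subtype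
  choose δ hδ using fun B : TopologicalSpace.countableBasis M => opn hc h
    (fun _ : Unit => f ⁻¹' B.1) fun _ => (TopologicalSpace.isOpen_of_mem_countableBasis B.2).preimage hf
  obtain ⟨β, hβ⟩ := bd hc _ (countable_range δ)
  obtain ⟨C, c1, c2⟩ := h.lev β
  refine (c1.image fun n => f (pt v n)).mono ?_
  rintro _ ⟨y, rfl⟩
  obtain ⟨m, rfl⟩ := pt_surj y
  rcases c2 m with ⟨n, h1, h2⟩ | ⟨n, h1, h2, h3⟩
  · exact ⟨n, h1, by simp only [pt, h2]⟩
  refine ⟨n, h1, (TopologicalSpace.isBasis_countableBasis M).eq_iff.2 fun B hB => ?_⟩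
  rcases hδ ⟨B, hB⟩ n ((hβ _ (mem_range_self _)).le.trans h2) with ⟨-, h4⟩ | h4
  · exact iff_of_true (h4 n (h.refl n)) (h4 m h3)
  · exact iff_of_false (h4 n (h.refl n) ()) (h4 m h3 ())

/-- evaluation at an ultrafilter -/
def ev (v : N → Set W) (u : Ultrafilter W) (y : X v) : ℝ := y.1 u

omit hc h [LinearOrder W] [Uncountable W] in
theorem ev_cont : Continuous (ev v) := continuous_pi fun y => by
  obtain ⟨n, rfl⟩ := pt_surj y
  exact ind_cont _

omit hc h [LinearOrder W] [Uncountable W] in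
theorem ev_cont' (u : Ultrafilter W) : Continuous (ev v u) :=
  (continuous_apply u).comp continuous_subtype_val

omit hc [Uncountable W] in
theorem ev_ne {u : Ultrafilter W} {ζ : W} (hu : Iio ζ ∈ u) : ev v u ≠ 0 := fun h0 => by
  obtain ⟨n, n', h1⟩ := h.cov ζ
  rw [← h1, Ultrafilter.union_mem_iff] at hu
  rcases hu with h2 | h2
  · simpa [ev, pt, ind, h2] using congrFun h0 (pt v n)
  · simpa [ev, pt, ind, h2] using congrFun h0 (pt v n')

omit hc [Uncountable W] in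
theorem ev_lim : Tendsto (fun ξ => ev v (pure ξ)) atTop (𝓝 0) := tendsto_pi_nhds.2 fun y => by
  obtain ⟨n, rfl⟩ := pt_surj y
  refine tendsto_const_nhds.congr' ((eventually_ge_atTop (ht n)).mono fun ξ hξ => ?_)
  have : ξ ∉ v n := fun h1 => (h.sub n h1).not_ge hξ
  simp [ev, pt, ind, this]

theorem ng : ¬ IsGrothendieck (X v) := fun hG => by
  obtain ⟨-, h2⟩ := (g_iff _).1 hG {g | Continuous g ∧ g ≠ 0} (fun _ h => h.1)
    (range fun ξ => ev v (pure ξ)) (range_subset_iff.2 fun ξ => by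
      obtain ⟨ζ, hζ⟩ := bd hc {ξ} (countable_singleton _)
      exact ⟨ev_cont' _, ev_ne h (ζ := ζ) (hζ ξ rfl)⟩) (by
    intro s hs
    choose k hk using hs
    obtain ⟨ζ, hζ⟩ := bd hc _ (countable_range k)
    let u := Ultrafilter.of (atTop : Filter ℕ)
    refine ⟨ev v (u.map k), ⟨ev_cont' _, ev_ne h (ζ := ζ) (Ultrafilter.mem_map.2
      (univ_mem' fun n => hζ _ (mem_range_self n)))⟩, ?_⟩
    have h1 : Tendsto (fun n => (pure (k n) : Ultrafilter W)) u (𝓝 (u.map k)) := by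
      refine ((ultrafilterBasis_is_basis.nhds_hasBasis).tendsto_right_iff).2 ?_
      rintro _ ⟨⟨S, rfl⟩, hS⟩
      exact mem_of_superset (Ultrafilter.mem_map.1 hS) fun n hn => hn
    have h2 := ((ev_cont (v := v)).tendsto _).comp h1
    rw [show ev v ∘ (fun n => (pure (k n) : Ultrafilter W)) = s from funext hk] at h2
    exact h2.mapClusterPt.mono (Ultrafilter.of_le _))
  exact (h2 (mem_closure_of_tendsto (ev_lim h) (Eventually.of_forall mem_range_self))).2 rfl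

open Classical in
/-- cuts of the well order -/
noncomputable def cut (δ ζ : W) : ℝ := if δ < ζ then 1 else 0

omit h in
theorem noemb [WellFoundedLT W] {K : Set (W → ℝ)} (hK : IsClosed K) (hp : ∀ ξ, cut ξ ∈ K)
    {Z : Type*} [TopologicalSpace Z] [LindelofSpace Z] {e : K → Z → ℝ} (he : Continuous e)
    (hi : e.Injective) (hz : ∀ x, Continuous (e x)) : False := by
  classical
  have l0 : Tendsto (cut (W := W)) atTop (𝓝 0) := tendsto_pi_nhds.2 fun ζ =>
    tendsto_const_nhds.congr' ((eventually_ge_atTop ζ).mono fun ξ hξ => by simp [cut, hξ])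
  have k0 : (0 : W → ℝ) ∈ K := hK.mem_of_tendsto l0 (Eventually.of_forall hp)
  let φ : W → Z → ℝ := fun ξ => e ⟨cut ξ, hp ξ⟩
  let g : Z → ℝ := e ⟨0, k0⟩
  have h1 : ∀ δ : W, (∃ ζ, ζ < δ) → ∃ (z : Z) (k : ℕ), ∃ β < δ, ∀ ξ, β ≤ ξ → ξ < δ →
      1 / ((k : ℝ) + 1) < |φ ξ z - g z| := by
    rintro δ ⟨ζ, hζ⟩
    have : Nonempty (Iio δ) := ⟨⟨ζ, hζ⟩⟩
    let q : W → ℝ := fun η => if δ ≤ η then 1 else 0
    have l1 : Tendsto (fun ξ : Iio δ => cut ξ.1) atTop (𝓝 q) := tendsto_pi_nhds.2 fun η => by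
      by_cases h : δ ≤ η
      · exact tendsto_const_nhds.congr fun ξ => by simp [cut, q, h, ξ.2.trans_le h]
      · exact tendsto_const_nhds.congr' ((eventually_ge_atTop ⟨η, lt_of_not_ge h⟩).mono
          fun ξ hξ => by simp [cut, q, h, show η ≤ ξ.1 from hξ])
    have k1 : q ∈ K := hK.mem_of_tendsto l1 (Eventually.of_forall fun ξ => hp _)
    obtain ⟨z, hz⟩ : ∃ z, e ⟨q, k1⟩ z ≠ g z := Function.ne_iff.1 fun h => by
      simpa [q] using congrFun (congrArg Subtype.val (hi h)) δ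
    obtain ⟨k, hk⟩ := exists_nat_one_div_lt (abs_pos.2 (sub_ne_zero.2 hz))
    have l2 : Tendsto (fun ξ : Iio δ => |φ ξ.1 z - g z|) atTop (𝓝 |e ⟨q, k1⟩ z - g z|) :=
      ((tendsto_pi_nhds.1 ((he.tendsto _).comp (tendsto_subtype_rng.2 l1)) z).sub_const _).abs
    obtain ⟨β, hβ⟩ := eventually_atTop.1 (l2.eventually (lt_mem_nhds hk))
    exact ⟨z, k, β, β.2, fun ξ h2 h3 => hβ ⟨ξ, h3⟩ h2⟩
  have : Nonempty Z := by
    obtain ⟨δ, hδ⟩ := bd hc {Classical.arbitrary W} (countable_singleton _)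
    exact (h1 δ ⟨_, hδ _ rfl⟩).nonempty
  choose! z k β b1 b2 using h1
  obtain ⟨β₀, k₀, h2⟩ : ∃ β₀ k₀, ∃ᶠ δ in atTop, (∃ ζ, ζ < δ) ∧ β δ = β₀ ∧ k δ = k₀ := by
    by_contra h2
    simp only [not_exists, not_frequently, eventually_atTop] at h2
    choose G hG using h2
    choose F hF using fun b => bd hc _ (countable_range (G b))
    obtain ⟨δ, d1, d2⟩ := (club hc F (Classical.arbitrary W)).nonempty
    exact hG (β δ) (k δ) δ ((hF _ _ (mem_range_self _)).trans (d2 _ (b1 δ ⟨_, d1⟩))).le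
      ⟨⟨_, d1⟩, rfl, rfl⟩
  have : CountableInterFilter (atTop : Filter W) := ⟨fun S hS h => by
    choose a ha using fun s : S => mem_atTop_sets.1 (h s.1 s.2)
    have := hS.to_subtype
    obtain ⟨b, hb⟩ := bd hc _ (countable_range a)
    exact mem_atTop_sets.2 ⟨b, fun x hx s hs =>
      ha ⟨s, hs⟩ x ((hb _ (mem_range_self _)).le.trans hx)⟩⟩
  have := frequently_iff_neBot.1 h2
  obtain ⟨x, -, hx⟩ := isLindelof_univ (X := Z)
    (f := map z (atTop ⊓ 𝓟 {δ | (∃ ζ, ζ < δ) ∧ β δ = β₀ ∧ k δ = k₀})) (by simp)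
  have l3 : Tendsto (fun ξ => |φ ξ x - g x|) atTop (𝓝 0) := by
    simpa [φ, g] using ((tendsto_pi_nhds.1 ((he.tendsto ⟨0, k0⟩).comp
      ((tendsto_subtype_rng (f := fun ξ => (⟨cut ξ, hp ξ⟩ : K))).2 l0)) x).sub_const (g x)).abs
  obtain ⟨ξ, x1, x2⟩ := ((l3.eventually (gt_mem_nhds (Nat.one_div_pos_of_nat (n := k₀)))).and
    (eventually_ge_atTop β₀)).exists
  obtain ⟨η, hη⟩ := bd hc {ξ} (countable_singleton _)
  obtain ⟨δ, d1, d2, d3, d4, d5⟩ := ((mapClusterPt_iff_frequently.1 hx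
    {w | |φ ξ w - g w| < 1 / ((k₀ : ℝ) + 1)} ((isOpen_lt ((hz _).sub (hz _)).abs
      continuous_const).mem_nhds x1)).and_eventually (((eventually_ge_atTop η).filter_mono
        inf_le_left).and (mem_inf_of_right (mem_principal_self _)))).exists
  exact (d5 ▸ b2 δ d3 ξ (d4 ▸ x2) ((hη ξ rfl).trans_le d2)).not_gt d1

theorem img [WellFoundedLT W] : ∃ (K : Set (X v → ℝ)) (K₁ : Set (W → ℝ)) (g : K → K₁),
    IsCompact K ∧ (∀ f ∈ K, Continuous f) ∧ Continuous g ∧ g.Surjective ∧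
      ∀ (Z : Type) [TopologicalSpace Z] [LindelofSpace Z] (e : K₁ → Cp Z), ¬ IsEmbedding e := by
  choose n n' hn using h.cov
  let G : (X v → ℝ) → W → ℝ := fun f ζ => max (f (pt v (n ζ))) (f (pt v (n' ζ)))
  have hG : Continuous G := by fun_prop
  have hK : IsCompact (range (ev v)) := isCompact_range ev_cont
  refine ⟨range (ev v), G '' range (ev v), fun f => ⟨G f, mem_image_of_mem G f.2⟩, hK,
    forall_mem_range.2 ev_cont', by fun_prop, ?_, fun Z _ _ e he => ?_⟩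
  · rintro ⟨_, f, hf, rfl⟩
    exact ⟨⟨f, hf⟩, rfl⟩
  refine noemb hc (hK.image hG).isClosed (fun ξ => ⟨_, ⟨pure ξ, rfl⟩, funext fun ζ => ?_⟩)
    (e := fun x => (e x).1) (continuous_subtype_val.comp he.continuous)
    (Subtype.val_injective.comp he.injective) fun x => (e x).2
  have : ξ < ζ ↔ ξ ∈ v (n ζ) ∨ ξ ∈ v (n' ζ) := by rw [← mem_union, hn, mem_Iio]
  by_cases h1 : ξ ∈ v (n ζ) <;> by_cases h2 : ξ ∈ v (n' ζ) <;>
    simp [G, ev, pt, ind, cut, this, h1, h2]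

end Pool.Agent.H33.DT2
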