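import Mathlib

/-! The diamond principle. -/

open Set Cardinal

namespace Pool.Agent.H33.DiaDefs

/-- the well order `ω₁` of the countable ordinals -/
abbrev W : Type := (ℵ_ 1 : Cardinal.{0}).ord.ToType

/-- Jensen's diamond principle -/
def Diamond : Prop :=
  ∃ A : W → Set W, ∀ X : Set W, IsStationary {α | X ∩ Iio α = A α}

theorem mk_W : #W = ℵ_ 1 := mk_ord_toType _

theorem unc : Uncountable W := by rw [← aleph0_lt_mk_iff, mk_W]; exact aleph0_lt_aleph_one

theorem cnt (ξ : W) : (Iio ξ).Countable := le_aleph0_iff_set_countable.1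
  (Order.lt_succ_iff.1 (((mk_Iio_lt ξ (by simp)).trans_eq mk_W).trans_eq succ_aleph0.symm))

end Pool.Agent.H33.DiaDefs
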