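import Mathlib

set_option autoImplicit false
open Set Topology TopologicalSpace Metric Filter

namespace Pool.Agent.H33.DimZero

/-- base of clopen sets -/
def Z0 (α : Type*) [TopologicalSpace α] : Prop :=
  ∀ x : α, ∀ U ∈ 𝓝 x, ∃ V : Set α, IsClopen V ∧ x ∈ V ∧ V ⊆ U

section basic
variable {α β : Type*} [TopologicalSpace α] [TopologicalSpace β]

lemma Z0.ind {e : α → β} (he : IsInducing e) (h : Z0 β) : Z0 α := by
  intro x U hU
  rw [he.nhds_eq_comap] at hU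
  obtain ⟨W, hW, hWU⟩ := hU
  obtain ⟨V, hV, hx, hVW⟩ := h _ W hW
  exact ⟨e ⁻¹' V, hV.preimage he.continuous, hx, (preimage_mono hVW).trans hWU⟩

lemma Z0.mono {S T : Set α} (hST : S ⊆ T) (h : Z0 T) : Z0 S :=
  h.ind (IsEmbedding.inclusion hST).isInducing

lemma Z0.pre {e : α → β} (he : IsInducing e) {T : Set β} (h : Z0 T) : Z0 (e ⁻¹' T) :=
  h.ind (he.restrictPreimage T)

lemma Z0.img {e : α → β} (he : IsEmbedding e) {S : Set α} (h : Z0 S) : Z0 (e '' S) :=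
  h.ind (he.homeomorphImage S).symm.isInducing

lemma Z0.empty : Z0 (∅ : Set α) := fun x => absurd x.2 (notMem_empty _)

def US (k : ℕ) (S : Set α) : Prop := ∃ Z : Fin k → Set α, (∀ i, Z0 (Z i)) ∧ S ⊆ ⋃ i, Z i

lemma US.mono {k : ℕ} {S T : Set α} (hST : S ⊆ T) (h : US k T) : US k S :=
  let ⟨Z, h1, h2⟩ := h; ⟨Z, h1, hST.trans h2⟩

lemma US.empty (k : ℕ) : US k (∅ : Set α) := ⟨fun _ => ∅, fun _ => Z0.empty, empty_subset _⟩

lemma US_sub {k : ℕ} {S : Set α} : US k (univ : Set S) ↔ US k S := by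
  constructor
  · rintro ⟨Z, h1, h2⟩
    refine ⟨fun i => (↑) '' Z i, fun i => (h1 i).img IsEmbedding.subtypeVal, fun x hx => ?_⟩
    obtain ⟨i, hi⟩ := mem_iUnion.mp (h2 (mem_univ ⟨x, hx⟩))
    exact mem_iUnion.mpr ⟨i, _, hi, rfl⟩
  · rintro ⟨Z, h1, h2⟩
    refine ⟨fun i => (↑) ⁻¹' Z i, fun i => (h1 i).pre IsInducing.subtypeVal, fun x _ => ?_⟩
    obtain ⟨i, hi⟩ := mem_iUnion.mp (h2 x.2)
    exact mem_iUnion.mpr ⟨i, hi⟩

lemma US_one {S : Set α} : US 1 S ↔ Z0 S :=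
  ⟨fun ⟨Z, h1, h2⟩ => (h1 0).mono fun x hx => by
      obtain ⟨i, hi⟩ := mem_iUnion.mp (h2 hx)
      rwa [Subsingleton.elim i 0] at hi,
    fun h => ⟨fun _ => S, fun _ => h, subset_iUnion (fun _ => S) 0⟩⟩

lemma seq_base [SecondCountableTopology α] (Pr : Set α → Prop) (h0 : Pr ∅)
    (h : ∀ x : α, ∀ U ∈ 𝓝 x, ∃ V, IsOpen V ∧ x ∈ V ∧ V ⊆ U ∧ Pr V) :
    ∃ V : ℕ → Set α, (∀ n, IsOpen (V n) ∧ Pr (V n)) ∧
      ∀ x : α, ∀ U ∈ 𝓝 x, ∃ n, x ∈ V n ∧ V n ⊆ U := by
  have hb : IsTopologicalBasis {V : Set α | IsOpen V ∧ Pr V} :=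
    isTopologicalBasis_of_isOpen_of_nhds (fun _ h => h.1) fun x U hx hU => by
      obtain ⟨V, h1, h2, h3, h4⟩ := h x U (hU.mem_nhds hx)
      exact ⟨V, ⟨h1, h4⟩, h2, h3⟩
  obtain ⟨s, hs1, hs2, hs3⟩ := hb.exists_countable
  obtain ⟨V, hV⟩ := (hs2.insert ∅).exists_eq_range (insert_nonempty _ _)
  refine ⟨V, fun n => ?_, fun x U hU => ?_⟩
  · have : V n ∈ insert ∅ s := hV ▸ mem_range_self n
    rcases this with h | h
    · rw [h]; exact ⟨isOpen_empty, h0⟩
    · exact hs1 h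
  · obtain ⟨W, h1, h2, h3⟩ := hs3.mem_nhds_iff.mp hU
    obtain ⟨n, rfl⟩ : W ∈ range V := hV ▸ mem_insert_of_mem _ h1
    exact ⟨n, h2, h3⟩

lemma off_frontier {V : ℕ → Set α} (hV : ∀ n, IsOpen (V n))
    (hb : ∀ x : α, ∀ U ∈ 𝓝 x, ∃ n, x ∈ V n ∧ V n ⊆ U) {S : Set α}
    (h : ∀ n, Disjoint S (frontier (V n))) : Z0 S := by
  intro x U hU
  rw [nhds_subtype] at hU
  obtain ⟨W, hW, hWU⟩ := hU
  obtain ⟨n, h1, h2⟩ := hb _ W hW
  refine ⟨Subtype.val ⁻¹' V n, ⟨?_, (hV n).preimage continuous_subtype_val⟩, h1,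
    (preimage_mono h2).trans hWU⟩
  have : ((↑) ⁻¹' V n : Set S) = (↑) ⁻¹' closure (V n) := by
    ext z
    refine ⟨fun hz => subset_closure hz, fun hz => by_contra fun hn => ?_⟩
    exact disjoint_left.mp (h n) z.2 (by rw [(hV n).frontier_eq]; exact ⟨hz, hn⟩)
  rw [this]; exact isClosed_closure.preimage continuous_subtype_val

/-- small to large -/
lemma Z0.large [SecondCountableTopology α] (h : Z0 α) {A B : Set α} (hA : IsClosed A)
    (hB : IsClosed B) (hAB : Disjoint A B) : ∃ P : Set α, IsClopen P ∧ A ⊆ P ∧ Disjoint P B := by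
  obtain ⟨V, hV, hb⟩ := seq_base (fun V : Set α => IsClosed V ∧ (Disjoint V A ∨ Disjoint V B))
    ⟨isClosed_empty, Or.inl (empty_disjoint _)⟩ (fun x U hU => by
      by_cases hx : x ∈ A
      · obtain ⟨V, h1, h2, h3⟩ := h x (U ∩ Bᶜ) (inter_mem hU
          (hB.isOpen_compl.mem_nhds (disjoint_left.mp hAB hx)))
        exact ⟨V, h1.2, h2, fun z hz => (h3 hz).1, h1.1, Or.inr (disjoint_left.mpr fun z hz => (h3 hz).2)⟩
      · obtain ⟨V, h1, h2, h3⟩ := h x (U ∩ Aᶜ) (inter_mem hU (hA.isOpen_compl.mem_nhds hx))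
        exact ⟨V, h1.2, h2, fun z hz => (h3 hz).1, h1.1, Or.inl (disjoint_left.mpr fun z hz => (h3 hz).2)⟩)
  have hc : ∀ n, IsClopen (disjointed V n) := fun n =>
    disjointedRec (p := IsClopen) (fun t i ht => ht.diff ⟨(hV i).2.1, (hV i).1⟩) ⟨(hV n).2.1, (hV n).1⟩
  have hcov : ∀ x, ∃ n, x ∈ disjointed V n := fun x => by
    obtain ⟨n, hn, -⟩ := hb x univ univ_mem
    have : x ∈ ⋃ n, disjointed V n := by rw [iUnion_disjointed]; exact mem_iUnion.mpr ⟨n, hn⟩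
    exact mem_iUnion.mp this
  refine ⟨⋃ n ∈ {n | Disjoint (V n) B}, disjointed V n, ⟨?_, isOpen_biUnion fun n _ => (hc n).2⟩,
    fun x hx => ?_, ?_⟩
  · rw [← isOpen_compl_iff, isOpen_iff_mem_nhds]
    intro x hx
    obtain ⟨n, hn⟩ := hcov x
    refine mem_of_superset ((hc n).2.mem_nhds hn) fun z hz hz' => ?_
    obtain ⟨m, hm, hzm⟩ := mem_iUnion₂.mp hz'
    have : n = m := by_contra fun hne => disjoint_left.mp (disjoint_disjointed V hne) hz hzm
    exact hx (mem_iUnion₂.mpr ⟨m, hm, this ▸ hn⟩)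
  · obtain ⟨n, hn⟩ := hcov x
    exact mem_iUnion₂.mpr ⟨n, (hV n).2.2.resolve_left fun h =>
      disjoint_left.mp h (disjointed_subset V n hn) hx, hn⟩
  · exact disjoint_iUnion₂_left.mpr fun n hn => Disjoint.mono_left (disjointed_subset V n) hn

end basic

section metr
variable {α : Type*} [TopologicalSpace α] [SecondCountableTopology α] [MetrizableSpace α]

omit [SecondCountableTopology α] in
lemma nbhds {A B : Set α} (hA : IsClosed A) (hB : IsClosed B) (hAB : Disjoint A B) :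
    ∃ U V : Set α, IsOpen U ∧ IsOpen V ∧ A ⊆ U ∧ B ⊆ V ∧ Disjoint (closure U) (closure V) := by
  obtain ⟨U, hU, h1, h2⟩ := normal_exists_closure_subset hA hB.isOpen_compl
    (subset_compl_iff_disjoint_right.mpr hAB)
  obtain ⟨V, hV, h3, h4⟩ := normal_exists_closure_subset hB (isClosed_closure (s := U)).isOpen_compl
    (subset_compl_comm.mp h2)
  exact ⟨U, V, hU, hV, h1, h3, disjoint_left.mpr fun z hz hz' => h4 hz' hz⟩

lemma sep {Z : Set α} (hZ : Z0 Z) {A B : Set α} (hA : IsClosed A) (hB : IsClosed B)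
    (hAB : Disjoint A B) :
    ∃ U V : Set α, IsOpen U ∧ IsOpen V ∧ A ⊆ U ∧ B ⊆ V ∧ Disjoint U V ∧ Z ⊆ U ∪ V := by
  obtain ⟨U0, V0, hU0, hV0, h1, h2, h3⟩ := nbhds hA hB hAB
  obtain ⟨P, hP, hP1, hP2⟩ := hZ.large (A := (↑) ⁻¹' closure U0) (B := (↑) ⁻¹' closure V0)
    (isClosed_closure.preimage continuous_subtype_val)
    (isClosed_closure.preimage continuous_subtype_val) (h3.preimage _)
  have key : ∀ (Q : Set Z), IsClosed Q → Disjoint (closure ((↑) '' Q : Set α)) ((↑) '' Qᶜ) := by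
    intro Q hQ
    rw [disjoint_left]
    rintro _ hz ⟨z, hzQ, rfl⟩
    exact hzQ (hQ.closure_subset (closure_subtype.mpr hz))
  have a1 : Disjoint (closure ((↑) '' P : Set α)) B := by
    refine Disjoint.mono_right h2 (Disjoint.closure_left ?_ hV0)
    rw [disjoint_left]; rintro _ ⟨z, hz, rfl⟩ hz'
    exact disjoint_left.mp hP2 hz (subset_closure hz')
  have a2 : Disjoint A (closure ((↑) '' Pᶜ : Set α)) := by
    refine Disjoint.mono_left h1 (Disjoint.closure_right ?_ hU0)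
    rw [disjoint_right]; rintro _ ⟨z, hz, rfl⟩ hz'
    exact hz (hP1 (subset_closure hz'))
  have := completely_normal (s := A ∪ (↑) '' P) (t := B ∪ (↑) '' Pᶜ) (by
      rw [closure_union, hA.closure_eq]
      exact disjoint_union_left.mpr ⟨disjoint_union_right.mpr ⟨hAB, a2.mono_right subset_closure⟩,
        disjoint_union_right.mpr ⟨a1, key P hP.1⟩⟩) (by
      rw [closure_union, hB.closure_eq]
      refine disjoint_union_left.mpr ⟨disjoint_union_right.mpr ⟨hAB, a2⟩,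
        disjoint_union_right.mpr ⟨a1.mono_left subset_closure, ?_⟩⟩
      have := (key Pᶜ hP.compl.1).symm
      rwa [compl_compl] at this)
  obtain ⟨U, V, hU, hV, h4, h5, h6⟩ := separatedNhds_iff_disjoint.mpr this
  refine ⟨U, V, hU, hV, subset_union_left.trans h4, subset_union_left.trans h5, h6, fun z hz => ?_⟩
  by_cases h : (⟨z, hz⟩ : Z) ∈ P
  · exact Or.inl (h4 (Or.inr ⟨_, h, rfl⟩))
  · exact Or.inr (h5 (Or.inr ⟨_, h, rfl⟩))

lemma sep_pt {Z : Set α} (hZ : Z0 Z) (x : α) (U : Set α) (hU : U ∈ 𝓝 x) :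
    ∃ V, IsOpen V ∧ x ∈ V ∧ V ⊆ U ∧ Disjoint Z (frontier V) := by
  obtain ⟨V, W, hV, hW, h1, h2, h3, h4⟩ := sep hZ (isClosed_singleton (x := x))
    (isOpen_interior (s := U)).isClosed_compl
    (disjoint_singleton_left.mpr fun h => h (mem_interior_iff_mem_nhds.mpr hU))
  refine ⟨V, hV, h1 rfl, fun z hz => interior_subset (by_contra fun h => disjoint_left.mp h3 hz (h2 h)),
    disjoint_left.mpr fun z hz hz' => ?_⟩
  rw [hV.frontier_eq] at hz'
  exact disjoint_left.mp (h3.closure_left hW) hz'.1 ((h4 hz).resolve_left hz'.2)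

lemma sum0 {C : ℕ → Set α} (hC : ∀ n, IsClosed (C n)) (hZ : ∀ n, Z0 (C n))
    (hcov : ∀ x, ∃ n, x ∈ C n) : Z0 α := by
  have step : ∀ n, ∀ p : {p : Set α × Set α // IsClosed p.1 ∧ IsClosed p.2 ∧ Disjoint p.1 p.2},
      ∃ q : {p : Set α × Set α // IsClosed p.1 ∧ IsClosed p.2 ∧ Disjoint p.1 p.2},
        p.1.1 ⊆ interior q.1.1 ∧ p.1.2 ⊆ interior q.1.2 ∧ C n ⊆ q.1.1 ∪ q.1.2 := by
    rintro n ⟨⟨A, B⟩, hA, hB, hAB⟩
    obtain ⟨U, V, hU, hV, h1, h2, h3, h4⟩ := sep (hZ n) hA hB hAB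
    obtain ⟨U', V', hU', hV', h5, h6, h7⟩ := nbhds (hA.union ((hC n).sdiff hV))
      (hB.union ((hC n).sdiff hU)) (h3.mono
        (union_subset h1 fun z hz => (h4 hz.1).resolve_right hz.2)
        (union_subset h2 fun z hz => (h4 hz.1).resolve_left hz.2))
    refine ⟨⟨(closure U', closure V'), isClosed_closure, isClosed_closure, h7⟩,
      subset_union_left.trans (h5.trans (interior_maximal subset_closure hU')),
      subset_union_left.trans (h6.trans (interior_maximal subset_closure hV')), fun z hz => ?_⟩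
    by_cases h : z ∈ V
    · exact Or.inr (subset_closure (h6 (Or.inr ⟨hz, disjoint_right.mp h3 h⟩)))
    · exact Or.inl (subset_closure (h5 (Or.inr ⟨hz, h⟩)))
  choose g g1 g2 g3 using step
  intro x U hU
  let s : ℕ → {p : Set α × Set α // IsClosed p.1 ∧ IsClosed p.2 ∧ Disjoint p.1 p.2} := fun n =>
    Nat.rec ⟨({x}, (interior U)ᶜ), isClosed_singleton, isOpen_interior.isClosed_compl,
      disjoint_singleton_left.mpr fun h => h (mem_interior_iff_mem_nhds.mpr hU)⟩ g n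
  have m1 : Monotone fun n => (s n).1.1 :=
    monotone_nat_of_le_succ fun n => (g1 n (s n)).trans interior_subset
  have m2 : Monotone fun n => (s n).1.2 :=
    monotone_nat_of_le_succ fun n => (g2 n (s n)).trans interior_subset
  have hd : ∀ a b, Disjoint (s a).1.1 (s b).1.2 := fun a b =>
    (s (max a b)).2.2.2.mono (m1 (le_max_left _ _)) (m2 (le_max_right _ _))
  refine ⟨⋃ n, (s n).1.1, ⟨?_, ?_⟩, mem_iUnion.mpr ⟨0, rfl⟩, fun z hz => ?_⟩
  · rw [← isOpen_compl_iff, isOpen_iff_mem_nhds]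
    intro z hz
    obtain ⟨n, hn⟩ := hcov z
    have h1 : z ∈ (s (n + 1)).1.2 :=
      (g3 n (s n) hn).resolve_left fun h => hz (mem_iUnion.mpr ⟨n + 1, h⟩)
    refine mem_of_superset (mem_interior_iff_mem_nhds.mp (g2 (n + 1) _ h1)) fun w hw hw' => ?_
    obtain ⟨m, hm⟩ := mem_iUnion.mp hw'
    exact disjoint_left.mp (hd m (n + 2)) hm hw
  · rw [isOpen_iff_mem_nhds]
    intro z hz
    obtain ⟨n, hn⟩ := mem_iUnion.mp hz
    exact mem_of_superset (mem_interior_iff_mem_nhds.mp (g1 n _ hn))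
      (subset_iUnion (fun n => (s n).1.1) (n + 1))
  · obtain ⟨n, hn⟩ := mem_iUnion.mp hz
    exact interior_subset (by_contra fun h => disjoint_left.mp (hd n 0) hn h)

lemma sum0' {Z : Set α} {D : ℕ → ℕ → Set α} (hD : ∀ n m, IsClosed (D n m))
    (hZ : ∀ n m, Z0 (Z ∩ D n m : Set α)) (hcov : ∀ x ∈ Z, ∃ n m, x ∈ D n m) : Z0 Z := by
  refine sum0 (C := fun k => (↑) ⁻¹' D k.unpair.1 k.unpair.2)
    (fun k => (hD _ _).preimage continuous_subtype_val) (fun k => ?_) fun x => ?_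
  · refine Z0.mono ?_ ((hZ k.unpair.1 k.unpair.2).pre (IsInducing.subtypeVal (t := Z)))
    exact fun z hz => ⟨z.2, hz⟩
  · obtain ⟨n, m, h⟩ := hcov x x.2
    exact ⟨n.pair m, by simpa using h⟩

lemma sumU {k : ℕ} {F : ℕ → Set α} (hF : ∀ n, IsClosed (F n)) (h : ∀ n, US k (F n)) :
    US k (⋃ n, F n) := by
  let := metrizableSpaceMetric α
  choose Z h1 h2 using h
  have hσ : ∀ n, ∃ D : ℕ → Set α, (∀ m, IsClosed (D m)) ∧ ⋃ m, D m = disjointed F n := by
    intro n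
    obtain ⟨D, d1, -, d3, -⟩ := (isOpen_biInter_finset (s := Finset.range n)
      fun j _ => (hF j).isOpen_compl).exists_iUnion_isClosed
    refine ⟨fun m => F n ∩ D m, fun m => (hF n).inter (d1 m), ?_⟩
    rw [← inter_iUnion, d3, disjointed_eq_inter_compl]
    simp
  choose D d1 d2 using hσ
  refine ⟨fun i => ⋃ n, Z n i ∩ disjointed F n, fun i => sum0' d1 (fun n m => (h1 n i).mono ?_) ?_, ?_⟩
  · rintro z ⟨hz, hz'⟩
    obtain ⟨n', hn'⟩ := mem_iUnion.mp hz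
    have h3 : z ∈ disjointed F n := d2 n ▸ mem_iUnion.mpr ⟨m, hz'⟩
    have : n' = n := by_contra fun hne => disjoint_left.mp (disjoint_disjointed F hne) hn'.2 h3
    exact this ▸ hn'.1
  · intro z hz
    obtain ⟨n, hn⟩ := mem_iUnion.mp hz
    exact ⟨n, mem_iUnion.mp (d2 n ▸ hn.2 : z ∈ ⋃ m, D n m)⟩
  · intro z hz
    rw [← iUnion_disjointed] at hz
    obtain ⟨n, hn⟩ := mem_iUnion.mp hz
    obtain ⟨i, hi⟩ := mem_iUnion.mp (h2 n (disjointed_subset F n hn))
    exact mem_iUnion.mpr ⟨i, mem_iUnion.mpr ⟨n, hi, hn⟩⟩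

end metr

theorem ind_iff (ind : ℕ → (α : Type) → [TopologicalSpace α] → Prop)
    (H : ∀ (α : Type) [TopologicalSpace α], (ind 0 α ↔ IsEmpty α) ∧
      ∀ k : ℕ, (ind (k + 1) α ↔ ∀ x : α, ∀ U ∈ nhds x, ∃ V : Set α,
        IsOpen V ∧ x ∈ V ∧ V ⊆ U ∧ ind k ↥(frontier V))) (k : ℕ) :
    ∀ (α : Type) [TopologicalSpace α] [SecondCountableTopology α] [MetrizableSpace α],
      ind k α ↔ US k (univ : Set α) := by
  induction k with
  | zero =>
    intro α _ _ _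
    rw [(H α).1]
    constructor
    · intro h
      exact (US.empty 0).mono fun x _ => h.elim x
    · rintro ⟨Z, -, h⟩
      exact ⟨fun x => by simpa using h (mem_univ x)⟩
  | succ k ih =>
    intro α _ _ _
    rw [(H α).2]
    simp only [ih, US_sub]
    constructor
    · intro h
      obtain ⟨V, hV, hb⟩ := seq_base (fun V : Set α => US k (frontier V))
        (by rw [frontier_empty]; exact US.empty k) h
      obtain ⟨Z, h1, h2⟩ := sumU (fun n => isClosed_frontier (s := V n)) fun n => (hV n).2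
      refine ⟨Fin.cons (⋃ n, frontier (V n))ᶜ Z, fun i => ?_, fun x _ => ?_⟩
      · refine Fin.cases ?_ (fun i => h1 i) i
        exact off_frontier (fun n => (hV n).1) hb fun n =>
          disjoint_left.mpr fun z hz hz' => hz (mem_iUnion.mpr ⟨n, hz'⟩)
      · by_cases hx : x ∈ ⋃ n, frontier (V n)
        · obtain ⟨i, hi⟩ := mem_iUnion.mp (h2 hx)
          exact mem_iUnion.mpr ⟨i.succ, hi⟩
        · exact mem_iUnion.mpr ⟨0, hx⟩
    · rintro ⟨Z, h1, h2⟩ x U hU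
      obtain ⟨V, a1, a2, a3, a4⟩ := sep_pt (h1 0) x U hU
      refine ⟨V, a1, a2, a3, fun i => Z i.succ, fun i => h1 _, fun z hz => ?_⟩
      obtain ⟨i, hi⟩ := mem_iUnion.mp (h2 (mem_univ z))
      revert hi
      refine Fin.cases (fun hi => absurd hz (disjoint_left.mp a4 hi)) (fun i hi => ?_) i
      exact mem_iUnion.mpr ⟨i, hi⟩

end Pool.Agent.H33.DimZero
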