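import Mathlib

/-!
A duplicate of the Cantor set determined by a well-founded system of convergent sequences.
-/

set_option autoImplicit false

open Set Filter Topology

namespace Pool.Agent.H33.DupA

abbrev M : Type := ℕ → Bool

def A (n : ℕ) (x y : M) : Prop := ∀ i < n, x i = y i

theorem A.symm {n : ℕ} {x y : M} (h : A n x y) : A n y x := fun i hi => (h i hi).symm
theorem A.trans {n : ℕ} {x y z : M} (h : A n x y) (h' : A n y z) : A n x z :=
  fun i hi => (h i hi).trans (h' i hi)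
theorem A.mono {n m : ℕ} {x y : M} (h : A n x y) (hm : m ≤ n) : A m x y :=
  fun i hi => h i (hi.trans_le hm)

theorem exists_diff {x y : M} (h : x ≠ y) : ∃ d, A d x y ∧ x d ≠ y d := by
  classical
  have h1 : ∃ d, x d ≠ y d := by
    by_contra h1
    push Not at h1
    exact h (funext h1)
  exact ⟨Nat.find h1, fun i hi => not_not.1 (Nat.find_min h1 hi), Nat.find_spec h1⟩

theorem diff_unique {x y : M} {d e : ℕ} (h1 : A d x y) (h2 : x d ≠ y d) (h3 : A e x y)
    (h4 : x e ≠ y e) : d = e := by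
  rcases lt_trichotomy d e with h | h | h
  · exact absurd (h3 d h) h2
  · exact h
  · exact absurd (h1 e h) h4

theorem A.succ {d : ℕ} {x y t : M} (h1 : A d x t) (h2 : x d ≠ t d) (h3 : A d y t)
    (h4 : y d ≠ t d) : A (d + 1) x y := fun i hi => by
  rcases (Nat.lt_succ_iff.1 hi).eq_or_lt with rfl | h
  · cases hx : x i <;> cases hy : y i <;> cases ht : t i <;> simp_all
  · exact (h1 i h).trans (h3 i h).symm

structure Sys where
  Ch : M → ℕ → M → Prop
  agree : ∀ {t d s}, Ch t d s → A d s t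
  ne : ∀ {t d s}, Ch t d s → s d ≠ t d
  uniq : ∀ {t d s s'}, Ch t d s → Ch t d s' → s = s'
  wf : WellFounded fun s t => ∃ d, Ch t d s

inductive U (S : Sys) : M → M × Bool → Prop
  | refl (t : M) : U S t (t, true)
  | step (t : M) (d : ℕ) (s : M) (p : M × Bool) : S.Ch t d s → U S s p → A (d + 1) p.1 s → U S t p

variable {S : Sys}

theorem U_iff {t : M} {p : M × Bool} {d : ℕ} (h1 : A d p.1 t) (h2 : p.1 d ≠ t d) :
    U S t p ↔ ∃ s, S.Ch t d s ∧ U S s p := by
  constructor
  · intro h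
    cases h with
    | refl => exact absurd rfl h2
    | step _ e s _ a b c =>
      have : d = e := diff_unique h1 h2 ((c.mono e.le_succ).trans (S.agree a))
        (by rw [c e e.lt_succ_self]; exact S.ne a)
      exact ⟨s, this ▸ a, b⟩
  · rintro ⟨s, a, b⟩
    exact U.step _ d s _ a b (h1.succ h2 (S.agree a) (S.ne a))

theorem U_self {t : M} {b : Bool} : U S t (t, b) ↔ b = true := by
  constructor
  · intro h
    generalize hp : (t, b) = p at h
    cases h with
    | refl => exact (Prod.mk.inj hp).2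
    | step _ e s _ a _ c =>
      subst hp
      exact absurd (c e e.lt_succ_self).symm (S.ne a)
  · rintro rfl; exact U.refl t

theorem U_child {t s : M} {d : ℕ} (h : S.Ch t d s) {b : Bool} : U S t (s, b) ↔ b = true := by
  rw [U_iff (p := (s, b)) (S.agree h) (S.ne h), ← U_self (S := S) (t := s)]
  exact ⟨fun ⟨s', a, c⟩ => S.uniq a h ▸ c, fun c => ⟨s, h, c⟩⟩

theorem U_countable (t : M) : {p | U S t p}.Countable := by
  induction t using S.wf.induction with
  | _ t ih =>
  refine ((countable_iUnion fun d => (Set.Subsingleton.countable (s := {s | S.Ch t d s})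
    fun s hs s' hs' => S.uniq hs hs').biUnion fun s hs => ih s ⟨d, hs⟩).insert (t, true)).mono ?_
  intro p hp
  cases hp with
  | refl => exact mem_insert _ _
  | step _ e s _ a b _ => exact Or.inr (mem_iUnion.2 ⟨e, mem_biUnion a b⟩)

def X (_S : Sys) : Type := M × Bool

def N (S : Sys) (p : M × Bool) (n : ℕ) : Set (X S) :=
  {q | A n q.1 p.1 ∧ (U S p.1 q ↔ U S p.1 p)}

theorem N_anti (p : M × Bool) {n m : ℕ} (h : m ≤ n) : N S p n ⊆ N S p m :=
  fun _ hq => ⟨hq.1.mono h, hq.2⟩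

theorem mem_N (p : M × Bool) (n : ℕ) : p ∈ N S p n := ⟨fun _ _ => rfl, Iff.rfl⟩

instance (S : Sys) : TopologicalSpace (X S) where
  IsOpen V := ∀ p ∈ V, ∃ n, N S p n ⊆ V
  isOpen_univ := fun _ _ => ⟨0, subset_univ _⟩
  isOpen_inter := fun s t hs ht p hp => by
    obtain ⟨m, hm⟩ := hs p hp.1
    obtain ⟨k, hk⟩ := ht p hp.2
    exact ⟨max m k, subset_inter ((N_anti p (le_max_left _ _)).trans hm)
      ((N_anti p (le_max_right _ _)).trans hk)⟩
  isOpen_sUnion := fun T hT p ⟨t, ht, hp⟩ => by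
    obtain ⟨m, hm⟩ := hT t ht p hp
    exact ⟨m, hm.trans (subset_sUnion_of_mem ht)⟩

theorem loc (t : M) : ∀ p : M × Bool, ∃ n, ∀ q ∈ N S p n, (U S t q ↔ U S t p) := by
  induction t using S.wf.induction with
  | _ t ih =>
  intro p
  by_cases h : p.1 = t
  · exact ⟨0, fun q hq => h ▸ hq.2⟩
  obtain ⟨d, h1, h2⟩ := exists_diff h
  have h3 : ∀ q : M × Bool, A (d + 1) q.1 p.1 → (U S t q ↔ ∃ s, S.Ch t d s ∧ U S s q) :=
    fun q hq => U_iff ((hq.mono d.le_succ).trans h1) (by rw [hq d d.lt_succ_self]; exact h2)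
  by_cases h4 : ∃ s, S.Ch t d s
  · obtain ⟨s, hs⟩ := h4
    obtain ⟨n, hn⟩ := ih s ⟨d, hs⟩ p
    refine ⟨max n (d + 1), fun q hq => ?_⟩
    have h5 := hn q (N_anti p (le_max_left _ _) hq)
    rw [h3 q (hq.1.mono (le_max_right _ _)), h3 p fun _ _ => rfl]
    exact ⟨fun ⟨s', a, b⟩ => ⟨s, hs, h5.1 (S.uniq a hs ▸ b)⟩,
      fun ⟨s', a, b⟩ => ⟨s, hs, h5.2 (S.uniq a hs ▸ b)⟩⟩
  · refine ⟨d + 1, fun q hq => ?_⟩
    rw [h3 q hq.1, h3 p fun _ _ => rfl]
    exact ⟨fun ⟨s', a, _⟩ => absurd ⟨s', a⟩ h4, fun ⟨s', a, _⟩ => absurd ⟨s', a⟩ h4⟩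

theorem isOpen_N (p : M × Bool) (n : ℕ) : IsOpen (N S p n) := fun q hq => by
  obtain ⟨k, hk⟩ := loc (S := S) p.1 q
  exact ⟨max k n, fun r hr => ⟨(hr.1.mono (le_max_right _ _)).trans hq.1,
    (hk r (N_anti q (le_max_left _ _) hr)).trans hq.2⟩⟩

theorem basis (p : X S) : (𝓝 p).HasBasis (fun _ : ℕ => True) (N S p) :=
  ⟨fun V => ⟨fun h => by
    obtain ⟨W, h1, h2, h3⟩ := mem_nhds_iff.1 h
    obtain ⟨n, hn⟩ := h2 p h3
    exact ⟨n, trivial, hn.trans h1⟩,
    fun ⟨n, _, hn⟩ => mem_of_superset ((isOpen_N p n).mem_nhds (mem_N p n)) hn⟩⟩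

instance : FirstCountableTopology (X S) := ⟨fun p => (basis p).isCountablyGenerated⟩

theorem isOpen_U (t : M) : IsOpen {p : X S | U S t p} := fun p hp =>
  (loc t p).imp fun _ h q hq => (h q hq).2 hp

theorem isOpen_nU (t : M) : IsOpen {p : X S | ¬ U S t p} := fun p hp =>
  (loc t p).imp fun _ h q hq h' => hp ((h q hq).1 h')

instance : T2Space (X S) := ⟨fun p q hpq => by
  by_cases h : p.1 = q.1
  · refine ⟨N S p 0, N S q 0, isOpen_N _ _, isOpen_N _ _, mem_N _ _, mem_N _ _,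
      Set.disjoint_left.2 fun r h1 h2 => hpq ?_⟩
    obtain ⟨x, b⟩ := p
    obtain ⟨y, c⟩ := q
    obtain rfl : x = y := h
    have h3 := h1.2.symm.trans h2.2
    rw [U_self, U_self] at h3
    rw [Bool.eq_iff_iff.2 h3]
  · obtain ⟨d, -, h2⟩ := exists_diff h
    exact ⟨N S p (d + 1), N S q (d + 1), isOpen_N _ _, isOpen_N _ _, mem_N _ _, mem_N _ _,
      Set.disjoint_left.2 fun r h3 h4 =>
        h2 ((h3.1 d d.lt_succ_self).symm.trans (h4.1 d d.lt_succ_self))⟩⟩

instance : CompactSpace (X S) := ⟨by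
  classical
  rw [isCompact_iff_ultrafilter_le_nhds']
  intro F _
  let x : M := fun i => decide ({q : X S | q.1 i = true} ∈ F)
  have hx : ∀ i, {q : X S | q.1 i = x i} ∈ F := fun i => by
    by_cases h : {q : X S | q.1 i = true} ∈ F
    · simp [x, h]
    · simpa [x, h, compl_def] using Ultrafilter.compl_mem_iff_notMem.2 h
  have hA : ∀ n, {q : X S | A n q.1 x} ∈ F := fun n =>
    mem_of_superset ((biInter_mem (finite_lt_nat n)).2 fun i _ => hx i) fun q hq i hi =>
      mem_iInter₂.1 hq i hi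
  refine ⟨(x, decide ({q : X S | U S x q} ∈ F)), trivial, (basis _).ge_iff.2 fun n _ => ?_⟩
  refine inter_mem (hA n) ?_
  by_cases h : {q : X S | U S x q} ∈ F
  · exact mem_of_superset h fun q hq => iff_of_true hq (U_self.2 (by simpa using h))
  · exact mem_of_superset (Ultrafilter.compl_mem_iff_notMem.2 h) fun q hq =>
      iff_of_false hq fun h' => h (by simpa using U_self.1 h')⟩

instance : Uncountable M := by
  rw [← Cardinal.aleph0_lt_mk_iff]
  simpa using Cardinal.aleph0_lt_continuum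

theorem not_metr : ¬ TopologicalSpace.MetrizableSpace (X S) := by
  intro h
  obtain ⟨T, hT, h1⟩ := TopologicalSpace.isOpen_iUnion_countable
    (fun t : M => {p : X S | U S t p}) isOpen_U
  have h2 : (⋃ t : M, {p : X S | U S t p}).Countable :=
    h1 ▸ hT.biUnion fun t _ => U_countable t
  refine not_countable_univ (α := M) ((h2.image Prod.fst).mono fun t _ => ?_)
  exact ⟨(t, true), mem_iUnion.2 ⟨t, U.refl t⟩, rfl⟩

end Pool.Agent.H33.DupA
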