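import Mathlib
import Pool.Agent.H33.DupA
import Pool.Agent.H33.LSq
import Pool.Agent.H33.GrothEx

/-!
A first countable non-metrizable compact space with `p(C_p(X)) = ω`.
-/

set_option autoImplicit false

open Set Filter Topology PiNat Cardinal

namespace Pool.Agent.H33.DupB

open Pool.Agent.H33.DupA Pool.Agent.H33.LSq

abbrev L : Type := List Bool

structure Job where
  I : Finset L
  a : L → L → M
  l : L → ℕ
  lt : ∀ σ b, l σ < l (b :: σ)
  ag : ∀ σ b, ∀ w ∈ I, A (l σ) (a (b :: σ) w) (a σ w)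
  sp : ∀ σ b, ∀ w ∈ I, ¬ A (l (b :: σ)) (a (b :: σ) w) (a ((!b) :: σ) w)
  inj : ∀ w ∈ I, ∀ w' ∈ I, A (l []) (a [] w) (a [] w') → w = w'

namespace Job

variable (j : Job)

def t (z : M) (w : L) : M := fun k => j.a (res z (k + 1)) w k

def s (z : M) (n : ℕ) (w : L) : M := j.a ((!z n) :: res z n) w

theorem l_mono (z : M) : StrictMono fun n => j.l (res z n) :=
  strictMono_nat_of_lt_succ fun _ => j.lt _ _

theorem ag' (z : M) {w : L} (hw : w ∈ j.I) {n m : ℕ} (h : n ≤ m) :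
    A (j.l (res z n)) (j.a (res z m) w) (j.a (res z n) w) := by
  induction m, h using Nat.le_induction with
  | base => exact fun _ _ => rfl
  | succ m h ih => exact ((j.ag _ _ w hw).mono ((j.l_mono z).monotone h)).trans ih

theorem t_ag (z : M) {w : L} (hw : w ∈ j.I) (n : ℕ) :
    A (j.l (res z n)) (j.t z w) (j.a (res z n) w) := fun k hk => by
  have h1 : k < j.l (res z (k + 1)) := (j.l_mono z).le_apply (x := k + 1)
  exact (j.ag' z hw (le_max_left (k + 1) n) k h1).symm.trans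
    (j.ag' z hw (le_max_right (k + 1) n) k hk)

theorem s_diff (z : M) {w : L} (hw : w ∈ j.I) (n : ℕ) : ∃ d, A d (j.s z n w) (j.t z w) ∧
    j.s z n w d ≠ j.t z w d := exists_diff fun h =>
  j.sp (res z n) (z n) w hw (by
    have := (j.t_ag z hw (n + 1)).symm
    rwa [← h] at this)

theorem s_lev (z : M) {w : L} (hw : w ∈ j.I) {n d : ℕ} (h1 : A d (j.s z n w) (j.t z w))
    (h2 : j.s z n w d ≠ j.t z w d) : j.l (res z n) ≤ d ∧ d < j.l (res z (n + 1)) := by
  constructor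
  · by_contra h
    exact h2 (((j.ag _ _ w hw).trans (j.t_ag z hw n).symm) d (not_le.1 h))
  · by_contra h
    exact j.sp (res z n) (z n) w hw
      ((j.t_ag z hw (n + 1)).symm.trans (h1.mono (not_lt.1 h)).symm)

theorem s_uniq (z : M) {w : L} (hw : w ∈ j.I) {n m d : ℕ} (h1 : A d (j.s z n w) (j.t z w))
    (h2 : j.s z n w d ≠ j.t z w d) (h3 : A d (j.s z m w) (j.t z w))
    (h4 : j.s z m w d ≠ j.t z w d) : n = m := by
  have a := j.s_lev z hw h1 h2
  have b := j.s_lev z hw h3 h4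
  have c := (j.l_mono z).lt_iff_lt.1 (a.1.trans_lt b.2)
  have e := (j.l_mono z).lt_iff_lt.1 (b.1.trans_lt a.2)
  omega

theorem t_inj {w : L} (hw : w ∈ j.I) : Function.Injective fun z => j.t z w := by
  intro z z' h
  by_contra hne
  obtain ⟨n, h1, h2⟩ := exists_diff hne
  have h3 : res z' n = res z n := res_eq_res.2 fun i hi => (h1 i hi).symm
  have h4 : z' n = !z n := by cases hx : z n <;> cases hy : z' n <;> simp_all
  have a := j.t_ag z hw (n + 1)
  have b := j.t_ag z' hw (n + 1)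
  rw [res_succ] at a b
  rw [h3, h4, ← show j.t z w = j.t z' w from h] at b
  rcases le_total (j.l (z n :: res z n)) (j.l ((!z n) :: res z n)) with h5 | h5
  · exact j.sp _ _ w hw (a.symm.trans (b.mono h5))
  · exact j.sp _ (!z n) w hw (by rw [Bool.not_not]; exact b.symm.trans (a.mono h5))

theorem t_injw (z : M) {w w' : L} (hw : w ∈ j.I) (hw' : w' ∈ j.I) (h : j.t z w = j.t z w') :
    w = w' := j.inj w hw w' hw' ((j.t_ag z hw 0).symm.trans (h ▸ j.t_ag z hw' 0))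

def T (z : M) : Set M := j.t z '' j.I

def C : Set M := range fun p : L × L => j.a p.1 p.2

theorem avoid (N : Set M) (hN : #N < 𝔠) : ∃ z, Disjoint (j.T z) N := by
  by_contra h
  push Not at h
  have h1 : (Set.univ : Set M) ⊆ ⋃ w ∈ (j.I : Set L), (fun z => j.t z w) ⁻¹' N := by
    intro z _
    obtain ⟨_, ⟨w, hw, rfl⟩, h2⟩ := not_disjoint_iff.1 (h z)
    exact mem_biUnion hw h2
  have h2 := (mk_le_mk_of_subset h1).trans (mk_biUnion_le _ _)
  have h3 : ⨆ w : (j.I : Set L), #((fun z => j.t z w) ⁻¹' N) ≤ #N :=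
    ciSup_le' fun w => mk_preimage_of_injective _ _ (j.t_inj w.2)
  have h4 := h2.trans_lt (mul_lt_of_lt aleph0_le_continuum
    ((lt_aleph0_of_finite _).trans aleph0_lt_continuum) (h3.trans_lt hN))
  simp at h4

end Job

theorem mk_task : #Job ≤ 𝔠 := by
  refine (mk_le_of_injective (f := fun j : Job => (j.I, j.a, j.l)) fun a b h => ?_).trans ?_
  · cases a; cases b
    simpa using h
  · simp

theorem exists_sys : ∃ S : Sys, ∀ j : Job, ∃ z, ∀ w ∈ j.I, ∀ n, ∃ d,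
    S.Ch (j.t z w) d (j.s z n w) := by
  classical
  obtain ⟨e⟩ : Nonempty (Job ↪ (𝔠 : Cardinal.{0}).ord.ToType) := by
    rw [← Cardinal.le_def, mk_ord_toType]; exact mk_task
  let _ : LinearOrder Job := LinearOrder.lift' e e.injective
  have _ : WellFoundedLT Job := ⟨InvImage.wf e wellFounded_lt⟩
  have hlt : ∀ i : Job, #(Iio i) < 𝔠 := fun i =>
    lt_of_le_of_lt (mk_le_of_injective (f := fun j : Iio i => (⟨e j.1, j.2⟩ : Iio (e i)))
      fun a b hab => Subtype.ext (e.injective (congrArg Subtype.val hab)))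
      ((mk_Iio_lt (e i) (by simp)).trans_eq (mk_ord_toType _))
  have step : ∀ (j : Job) (f : Job → M), ∃ z,
      Disjoint (j.T z) (j.C ∪ ⋃ i ∈ Iio j, (i.T (f i) ∪ i.C)) := by
    intro j f
    have hC : ∀ i : Job, i.C.Countable := fun i => countable_range _
    refine j.avoid _ ((mk_union_le _ _).trans_lt (add_lt_of_lt aleph0_le_continuum
      ((le_aleph0_iff_set_countable.2 (hC j)).trans_lt aleph0_lt_continuum)
      ((mk_biUnion_le _ _).trans_lt (mul_lt_of_lt aleph0_le_continuum (hlt j)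
        ((ciSup_le' fun i => ?_).trans_lt aleph0_lt_continuum)))))
    exact le_aleph0_iff_set_countable.2 ((i.1.I.countable_toSet.image _).union (hC _))
  obtain ⟨f, hf⟩ := GrothEx.exists_rec (T := Job) (default : M)
    (fun j f => Classical.epsilon fun z =>
      Disjoint (j.T z) (j.C ∪ ⋃ i ∈ Iio j, (i.T (f i) ∪ i.C)))
    (fun j f f' h => by rw [iUnion₂_congr (s := fun i (_ : i ∈ Iio j) => i.T (f i) ∪ i.C)
      (t := fun i _ => i.T (f' i) ∪ i.C) fun i hi => by rw [h i hi]])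
  have hf' : ∀ j : Job, Disjoint (j.T (f j)) (j.C ∪ ⋃ i ∈ Iio j, (i.T (f i) ∪ i.C)) := fun j => by
    have := Classical.epsilon_spec (step j f)
    rwa [← hf j] at this
  have h1 : ∀ (i j : Job) x, x ∈ i.T (f i) → x ∈ j.T (f j) → i = j := by
    intro i j x hi hj
    rcases lt_trichotomy i j with h | h | h
    · exact (Set.disjoint_left.1 (hf' j) hj (Or.inr (mem_iUnion₂.2 ⟨i, h, Or.inl hi⟩))).elim
    · exact h
    · exact (Set.disjoint_left.1 (hf' i) hi (Or.inr (mem_iUnion₂.2 ⟨j, h, Or.inl hj⟩))).elim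
  have h2 : ∀ (i j : Job) x, x ∈ i.T (f i) → x ∈ j.C → i < j := by
    intro i j x hi hj
    by_contra h
    rcases (not_lt.1 h).eq_or_lt with rfl | h
    · exact Set.disjoint_left.1 (hf' j) hi (Or.inl hj)
    · exact Set.disjoint_left.1 (hf' i) hi (Or.inr (mem_iUnion₂.2 ⟨j, h, Or.inr hj⟩))
  let Ch : M → ℕ → M → Prop := fun x d y => A d y x ∧ y d ≠ x d ∧
    ∃ j : Job, ∃ w ∈ j.I, x = j.t (f j) w ∧ ∃ n, y = j.s (f j) n w
  have h3 : ∀ x, (∀ j : Job, x ∉ j.T (f j)) → Acc (fun s t => ∃ d, Ch t d s) x := fun x hx =>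
    ⟨_, fun y ⟨_, _, _, j, w, hw, h, _⟩ => absurd ⟨w, hw, h.symm⟩ (hx j)⟩
  have h4 : ∀ j : Job, ∀ x ∈ j.T (f j), Acc (fun s t => ∃ d, Ch t d s) x := by
    intro j
    induction j using WellFoundedLT.induction with
    | _ j ih =>
    intro x hx
    refine ⟨_, fun y ⟨_, _, _, i, w, hw, h, n, h'⟩ => ?_⟩
    obtain rfl : i = j := h1 _ _ x ⟨w, hw, h.symm⟩ hx
    by_cases h5 : ∃ k : Job, y ∈ k.T (f k)
    · obtain ⟨k, hk⟩ := h5
      exact ih k (h2 k i y hk ⟨(_, w), h'.symm⟩) y hk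
    · exact h3 y (not_exists.1 h5)
  refine ⟨⟨Ch, fun h => h.1, fun h => h.2.1, ?_, ⟨fun x => ?_⟩⟩, fun j => ⟨f j, fun w hw n => ?_⟩⟩
  · rintro _ d _ _ ⟨a1, a2, i, w, hw, rfl, n, rfl⟩ ⟨b1, b2, j, w', hw', h, m, rfl⟩
    obtain rfl : i = j := h1 _ _ _ ⟨w, hw, rfl⟩ ⟨w', hw', h.symm⟩
    obtain rfl := i.t_injw _ hw hw' h
    rw [i.s_uniq _ hw a1 a2 b1 b2]
  · by_cases h5 : ∃ k : Job, x ∈ k.T (f k)
    · obtain ⟨k, hk⟩ := h5
      exact h4 k x hk
    · exact h3 x (not_exists.1 h5)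
  · obtain ⟨d, a, b⟩ := j.s_diff (f j) hw n
    exact ⟨d, a, b, j, w, hw, rfl, n, rfl⟩

theorem exists_task {α : Type} {J : Set α} (hJ : ¬ J.Countable) (I : Finset L) (a : α → L → M)
    (m : ℕ) (h1 : ∀ U ∈ J, ∀ w ∈ I, res (a U w) m = w)
    (h2 : ∀ U ∈ J, ∀ V ∈ J, U ≠ V → ∀ w ∈ I, a U w ≠ a V w) :
    ∃ j : Job, j.I = I ∧ ∀ σ, ∃ U ∈ J, j.a σ = a U := by
  classical
  let pat : ℕ → α → I → L := fun l V w => res (a V w) l
  let Bad : Set α := ⋃ l, ⋃ π ∈ {π | {V ∈ J | pat l V = π}.Countable}, {V ∈ J | pat l V = π}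
  have hBad : Bad.Countable := countable_iUnion fun l => (to_countable _).biUnion fun _ h => h
  have h3 : ∀ p : (J \ Bad : Set α) × ℕ, ∃ q : (J \ Bad : Set α) × ℕ, p.2 < q.2 ∧
      ∀ w ∈ I, A p.2 (a q.1 w) (a p.1 w) ∧ ¬ A q.2 (a p.1 w) (a q.1 w) := by
    rintro ⟨U, l⟩
    have h4 : ¬ {V ∈ J | pat l V = pat l U}.Countable := fun h =>
      U.2.2 (mem_iUnion.2 ⟨l, mem_biUnion h (And.intro U.2.1 rfl)⟩)
    obtain ⟨V, hV, h5⟩ : ∃ V ∈ {V ∈ J | pat l V = pat l U}, V ∉ insert U.1 Bad := by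
      by_contra h
      push Not at h
      exact h4 ((hBad.insert _).mono h)
    rw [mem_insert_iff, not_or] at h5
    choose d _ hd using fun w : I => exists_diff (h2 U U.2.1 V hV.1 (Ne.symm h5.1) w w.2)
    refine ⟨(⟨V, hV.1, h5.2⟩, max l (Finset.univ.sup d) + 1),
      Nat.lt_succ_of_le (le_max_left _ _), fun w hw =>
      ⟨fun i hi => res_eq_res.1 (congrFun hV.2 ⟨w, hw⟩) hi, fun h => hd ⟨w, hw⟩ (h _ ?_)⟩⟩
    exact Nat.lt_succ_of_le ((Finset.le_sup (Finset.mem_univ _)).trans (le_max_right _ _))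
  choose nx hn1 hn2 using h3
  obtain ⟨U0, hU0⟩ : (J \ Bad).Nonempty := by
    by_contra h
    rw [not_nonempty_iff_eq_empty, sdiff_eq_empty] at h
    exact hJ (hBad.mono h)
  let nd : L → (J \ Bad : Set α) × ℕ := fun σ =>
    σ.rec (⟨U0, hU0⟩, m) fun b _ p => (cond b p.1 (nx p).1, (nx p).2)
  refine ⟨⟨I, fun σ => a (nd σ).1, fun σ => (nd σ).2, fun σ b => hn1 _, fun σ b w hw => ?_,
    fun σ b w hw => ?_, fun w hw w' hw' h => ?_⟩, rfl, fun σ => ⟨_, (nd σ).1.2.1, rfl⟩⟩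
  · cases b
    · exact (hn2 _ w hw).1
    · exact fun _ _ => rfl
  · cases b
    · exact fun h => (hn2 _ w hw).2 h.symm
    · exact (hn2 _ w hw).2
  · rw [← h1 U0 hU0.1 w hw, ← h1 U0 hU0.1 w' hw']
    exact res_eq_res.2 h

theorem sep_level (b : Finset M) : ∃ m, ∀ x ∈ b, ∀ y ∈ b, res x m = res y m → x = y := by
  have : ∀ p : b × b, ∃ d, p.1.1 d = p.2.1 d → p.1.1 = p.2.1 := fun p => by
    by_cases h : p.1.1 = p.2.1
    · exact ⟨0, fun _ => h⟩
    · obtain ⟨d, -, hd⟩ := exists_diff h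
      exact ⟨d, fun h' => absurd h' hd⟩
  choose d hd using this
  exact ⟨Finset.univ.sup d + 1, fun x hx y hy h => hd (⟨x, hx⟩, ⟨y, hy⟩)
    (res_eq_res.1 h (Nat.lt_succ_of_le (Finset.le_sup (Finset.mem_univ _))))⟩

theorem pfc (S : Sys) (hS : ∀ j : Job, ∃ z, ∀ w ∈ j.I, ∀ n, ∃ d, S.Ch (j.t z w) d (j.s z n w))
    (F : Set (Set C(X S, ℝ)))
    (hF : ∀ V ∈ F, @IsOpen C(X S, ℝ)
      (TopologicalSpace.induced (fun f : C(X S, ℝ) => (f : X S → ℝ)) inferInstance) V ∧ V.Nonempty)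
    (hpf : ∀ f : C(X S, ℝ), {V | V ∈ F ∧ f ∈ V}.Finite) : F.Countable := by
  classical
  by_contra hc
  have h1 : ∀ V : Set C(X S, ℝ), ∃ (g : C(X S, ℝ)) (b : Finset M) (n : ℕ), V ∈ F →
      ∀ f : C(X S, ℝ), (∀ x ∈ b, ∀ c, |f (x, c) - g (x, c)| < 1 / ((n : ℝ) + 1)) → f ∈ V := by
    intro V
    by_cases h : V ∈ F
    · obtain ⟨⟨W, hW, rfl⟩, g, hg⟩ := hF V h
      obtain ⟨I, u, hu, hsub⟩ := isOpen_pi_iff.1 hW _ hg
      have : ∀ᶠ n : ℕ in atTop, ∀ p ∈ I, Metric.ball (g p) (1 / ((n : ℝ) + 1)) ⊆ u p :=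
        (eventually_all_finset _).2 fun p hp => by
          obtain ⟨ε, hε, h3⟩ := Metric.isOpen_iff.1 (hu p hp).1 _ (hu p hp).2
          exact (tendsto_one_div_add_atTop_nhds_zero_nat.eventually (gt_mem_nhds hε)).mono
            fun n hn => (Metric.ball_subset_ball hn.le).trans h3
      obtain ⟨n, hn⟩ := this.exists
      exact ⟨g, I.image Prod.fst, n, fun _ f hf => hsub fun p hp => hn p hp
        (hf p.1 (Finset.mem_image_of_mem _ hp) p.2)⟩
    · exact ⟨0, ∅, 0, fun h' => absurd h' h⟩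
  choose g b n hg using h1
  choose m hm using fun V => sep_level (b V)
  obtain ⟨⟨n0, m0, W⟩, hJ1⟩ := unc_fiber hc fun V => (n V, m V, (b V).image fun x => res x (m V))
  obtain ⟨J2, hJ2, hJ2', R, hR⟩ := delta b _ hJ1
  have h2 : ∀ V w, ∃ x, ∀ y ∈ b V, res y (m V) = w → x = y := fun V w => by
    by_cases h : ∃ y ∈ b V, res y (m V) = w
    · obtain ⟨x, h3, h4⟩ := h
      exact ⟨x, fun y h5 h6 => hm V x h3 y h5 (h4.trans h6.symm)⟩
    · exact ⟨default, fun y h5 h6 => absurd ⟨y, h5, h6⟩ h⟩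
  choose a ha using h2
  have h3 : ∀ V ∈ J2, V ∈ F ∧ n V = n0 ∧ m V = m0 ∧ (∀ x ∈ b V, res x m0 ∈ W) ∧
      ∀ w ∈ W, a V w ∈ b V ∧ res (a V w) m0 = w := by
    intro V hV
    obtain ⟨h4, h5⟩ := hJ2 hV
    simp only [Prod.mk.injEq] at h5
    obtain ⟨h5, rfl, rfl⟩ := h5
    refine ⟨h4, h5, rfl, fun x hx => Finset.mem_image_of_mem _ hx, fun w hw => ?_⟩
    obtain ⟨x, h6, h7⟩ := Finset.mem_image.1 hw
    rw [ha V w x h6 h7]
    exact ⟨h6, h7⟩
  have hε : (0 : ℝ) < 1 / ((n0 : ℝ) + 1) := Nat.one_div_pos_of_nat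
  obtain ⟨⟨ρ, v⟩, hJ3⟩ := unc_fiber hJ2' fun V =>
    ((fun w : W => if h : a V w ∈ R then some (⟨a V w, h⟩ : R) else none),
      fun p : W × Bool => ⌊g V (a V p.1, p.2) / (1 / ((n0 : ℝ) + 1))⌋)
  generalize hJ : {V ∈ J2 | ((fun w : W => if h : a V w ∈ R then some (⟨a V w, h⟩ : R) else none),
      fun p : W × Bool => ⌊g V (a V p.1, p.2) / (1 / ((n0 : ℝ) + 1))⌋) = (ρ, v)} = J at hJ3
  have hJs : J ⊆ J2 := hJ ▸ fun _ h => h.1
  obtain ⟨V0, hV0⟩ : J.Nonempty := by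
    by_contra h
    rw [not_nonempty_iff_eq_empty] at h
    exact hJ3 (h ▸ countable_empty)
  have h4 : ∀ V ∈ J, ∀ w ∈ W, (a V w ∈ R ↔ a V0 w ∈ R) ∧ (a V0 w ∈ R → a V w = a V0 w) ∧
      ∀ c, |g V0 (a V0 w, c) - g V (a V w, c)| < 1 / ((n0 : ℝ) + 1) := by
    intro V hV w hw
    rw [← hJ] at hV hV0
    have h5 := hV.2.trans hV0.2.symm
    have h6 := congrFun (congrArg Prod.fst h5) ⟨w, hw⟩
    refine ⟨?_, fun h => ?_, fun c => ?_⟩
    · by_cases h7 : a V w ∈ R <;> by_cases h8 : a V0 w ∈ R <;> simp_all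
    · by_cases h7 : a V w ∈ R <;> simp_all
    · have := Int.abs_sub_lt_one_of_floor_eq_floor
        (congrFun (congrArg Prod.snd h5) (⟨w, hw⟩, c)).symm
      rwa [← sub_div, abs_div, abs_of_pos hε, div_lt_one hε] at this
  obtain ⟨j, hj1, hj2⟩ := exists_task hJ3 (W.filter fun w => a V0 w ∉ R) a m0
    (fun V hV w hw => ((h3 V (hJs hV)).2.2.2.2 w (Finset.mem_filter.1 hw).1).2)
    fun V hV V' hV' hne w hw h => by
      obtain ⟨h5, h6⟩ := Finset.mem_filter.1 hw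
      refine h6 ((h4 V hV w h5).1.1 ?_)
      rw [← hR V (hJs hV) V' (hJs hV') hne]
      exact Finset.mem_inter.2 ⟨((h3 V (hJs hV)).2.2.2.2 w h5).1,
        h ▸ ((h3 V' (hJs hV')).2.2.2.2 w h5).1⟩
  obtain ⟨z, hz⟩ := hS j
  let c : L → M := fun w => if w ∈ j.I then j.t z w else a V0 w
  let f : X S → ℝ := fun p => g V0 (a V0 (res p.1 m0), decide (U S (c (res p.1 m0)) p))
  have hf : Continuous f := by
    refine IsLocallyConstant.continuous ((IsLocallyConstant.iff_eventually_eq _).2 fun p => ?_)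
    obtain ⟨k, hk⟩ := loc (S := S) (c (res p.1 m0)) p
    refine (basis p).mem_iff.2 ⟨max k m0, trivial, fun q hq => ?_⟩
    have h5 : res q.1 m0 = res p.1 m0 := res_eq_res.2 (hq.1.mono (le_max_right _ _))
    have h6 := hk q (N_anti p (le_max_left _ _) hq)
    simp only [mem_ofPred_eq, f, h5, h6]
  have h5 : {V ∈ J | ∀ w ∈ j.I, ∃ d, S.Ch (j.t z w) d (a V w)}.Finite := by
    refine (hpf ⟨f, hf⟩).subset fun V hV => ?_
    obtain ⟨e1, e2, e3, e4, e5⟩ := h3 V (hJs hV.1)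
    refine ⟨e1, hg V e1 _ fun x hx k => ?_⟩
    have e6 : a V (res x m0) = x := ha V _ x hx (by rw [e3])
    obtain ⟨-, e7, e8⟩ := h4 V hV.1 _ (e4 x hx)
    have e9 : decide (U S (c (res x m0)) (x, k)) = k := by
      by_cases h : res x m0 ∈ j.I
      · obtain ⟨d, hd⟩ := hV.2 _ h
        rw [e6] at hd
        simp [c, h, U_child hd]
      · have : a V0 (res x m0) = x := by
          rw [← e7 (by simpa [hj1, e4 x hx] using h), e6]
        simp [c, h, this, U_self]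
    have := e8 k
    rw [e6] at this
    simpa only [ContinuousMap.coe_mk, f, e9, e2] using this
  rcases j.I.eq_empty_or_nonempty with h | ⟨w, hw⟩
  · exact hJ3 (h5.subset fun V hV => And.intro hV (by simp [h])).countable
  · choose V hV1 hV2 using hj2
    refine (infinite_of_injective_forall_mem (f := fun k => V ((!z k) :: res z k))
      (fun k k' h => ?_) fun k => And.intro (hV1 _) fun w hw => hV2 _ ▸ hz w hw k) h5
    obtain ⟨d, e1, e2⟩ := j.s_diff z hw k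
    have e3 : j.s z k w = j.s z k' w := by
      simp only [Job.s, hV2]
      exact congrArg (fun V => a V w) h
    exact j.s_uniq z hw e1 e2 (e3 ▸ e1) (e3 ▸ e2)

theorem main : ∃ (X : Type) (_ : TopologicalSpace X),
      CompactSpace X ∧ T2Space X ∧ FirstCountableTopology X ∧
      ¬ TopologicalSpace.MetrizableSpace X ∧
      ∀ F : Set (Set C(X, ℝ)),
        (∀ U ∈ F,
          @IsOpen C(X, ℝ)
            (TopologicalSpace.induced (fun f : C(X, ℝ) => (f : X → ℝ)) inferInstance) U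
          ∧ U.Nonempty) →
        (∀ f : C(X, ℝ), {U | U ∈ F ∧ f ∈ U}.Finite) →
        F.Countable := by
  obtain ⟨S, hS⟩ := exists_sys
  exact ⟨X S, inferInstance, inferInstance, inferInstance, inferInstance, not_metr, pfc S hS⟩

end Pool.Agent.H33.DupB
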