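import Mathlib

set_option autoImplicit false

namespace Pool.Agent.H33.Equistar
open SimpleGraph

/-- The edges of a triangle-free graph on 9 vertices. -/
def e1 : Fin 14 → Fin 9 := ![0, 0, 0, 0, 1, 1, 1, 2, 2, 2, 3, 3, 4, 7]
def e2 : Fin 14 → Fin 9 := ![3, 5, 6, 8, 4, 6, 8, 5, 6, 7, 4, 7, 5, 8]
def w : Fin 14 → ℕ := ![38, 25, 18, 35, 30, 52, 34, 42, 46, 28, 37, 41, 49, 47]

def inc (v : Fin 9) (i : Fin 14) : Bool := v == e1 i || v == e2 i

def dis (i j : Fin 14) : Bool := !(inc (e1 i) j) && !(inc (e2 i) j)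

lemma dis_symm : ∀ i j, dis i j = true → dis j i = true := by decide +kernel
lemma dis_irr : ∀ i, ¬ dis i i = true := by decide +kernel

/-- Complement of the line graph: two edges are adjacent when they are disjoint. -/
def G : SimpleGraph (Fin 14) where
  Adj i j := dis i j = true
  symm := ⟨dis_symm⟩
  loopless := ⟨dis_irr⟩

def star (v : Fin 9) : Finset (Fin 14) := Finset.univ.filter (fun i => inc v i = true)

lemma pair_star : ∀ i j, i ≠ j → dis i j = false → ∃ v, inc v i = true ∧ inc v j = true ∧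
    ∀ k, (k = i ∨ dis i k = false) → (k = j ∨ dis j k = false) → inc v k = true := by
  decide +kernel

lemma star_indep' : ∀ v i j, inc v i = true → inc v j = true → dis i j = false := by
  decide +kernel

lemma star_two : ∀ v, ∃ i j, i ≠ j ∧ inc v i = true ∧ inc v j = true ∧
    ∀ u, inc u i = true → inc u j = true → u = v := by decide +kernel

lemma star_sum : ∀ v, ∑ i ∈ star v, w i = 116 := by decide +kernel

lemma star_indep (v : Fin 9) : G.IsIndepSet (star v : Set (Fin 14)) := by
  intro i hi j hj _ h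
  simp only [star, Finset.coe_filter, Finset.mem_univ, true_and, Set.mem_setOf_eq] at hi hj
  have h' : dis i j = true := h
  rw [star_indep' v i j hi hj] at h'
  exact Bool.false_ne_true h'

lemma sub_star (S : Finset (Fin 14)) (hS : G.IsIndepSet (S : Set (Fin 14))) {i j : Fin 14}
    (hi : i ∈ S) (hj : j ∈ S) (hij : i ≠ j) :
    ∃ v, inc v i = true ∧ inc v j = true ∧ S ⊆ star v := by
  have nd : ∀ a ∈ S, ∀ b ∈ S, b = a ∨ dis a b = false := by
    intro a ha b hb
    by_cases h : b = a
    · exact Or.inl h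
    · right
      have := hS ha hb (Ne.symm h)
      simpa [G] using this
  obtain ⟨v, h1, h2, h3⟩ := pair_star i j hij ((nd i hi j hj).resolve_left hij.symm)
  refine ⟨v, h1, h2, fun k hk => ?_⟩
  simp only [star, Finset.mem_filter, Finset.mem_univ, true_and]
  exact h3 k (nd i hi k hk) (nd j hj k hk)

lemma sub_star' (S : Finset (Fin 14)) (hS : G.IsIndepSet (S : Set (Fin 14))) :
    ∃ v, S ⊆ star v := by
  by_cases h : ∃ i ∈ S, ∃ j ∈ S, i ≠ j
  · obtain ⟨i, hi, j, hj, hij⟩ := h
    obtain ⟨v, -, -, h⟩ := sub_star S hS hi hj hij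
    exact ⟨v, h⟩
  · push Not at h
    rcases S.eq_empty_or_nonempty with rfl | ⟨i, hi⟩
    · exact ⟨0, by simp⟩
    · refine ⟨e1 i, fun k hk => ?_⟩
      rw [h k hk i hi]
      simp [star, inc]

lemma max_iff (S : Finset (Fin 14)) :
    Maximal (fun T : Finset (Fin 14) => G.IsIndepSet (T : Set (Fin 14))) S ↔ ∃ v, S = star v := by
  constructor
  · intro h
    obtain ⟨v, hv⟩ := sub_star' S h.prop
    exact ⟨v, le_antisymm hv (h.le_of_ge (star_indep v) hv)⟩
  · rintro ⟨v, rfl⟩
    refine ⟨star_indep v, fun T hT hle => ?_⟩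
    obtain ⟨i, j, hij, hi, hj, hu⟩ := star_two v
    have mi : i ∈ T := hle (by simp [star, hi])
    have mj : j ∈ T := hle (by simp [star, hj])
    obtain ⟨u, h1, h2, h3⟩ := sub_star T hT mi mj hij
    rw [← hu u h1 h2]
    exact h3

def P (b0 b1 b2 b3 b4 b5 b6 b7 b8 b9 b10 b11 b12 b13 : Bool) : Prop :=
  cond b0 38 0 + cond b1 25 0 + cond b2 18 0 + cond b3 35 0 + cond b4 30 0 + cond b5 52 0 +
    cond b6 34 0 + cond b7 42 0 + cond b8 46 0 + cond b9 28 0 + cond b10 37 0 + cond b11 41 0 +
    cond b12 49 0 + cond b13 47 0 = 116 →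
  ∃ v, ∀ i, ![b0, b1, b2, b3, b4, b5, b6, b7, b8, b9, b10, b11, b12, b13] i = inc v i

lemma allP : ∀ b0 b1 b2 b3 b4 b5 b6 b7 b8 b9 b10 b11 b12 b13,
    P b0 b1 b2 b3 b4 b5 b6 b7 b8 b9 b10 b11 b12 b13 := by
  unfold P
  decide +kernel

lemma sum_iff (S : Finset (Fin 14)) : ∑ i ∈ S, w i = 116 ↔ ∃ v, S = star v := by
  constructor
  · intro h
    have h1 : ∑ i ∈ S, w i = ∑ i, cond (decide (i ∈ S)) (w i) 0 := by
      rw [← Finset.sum_subset (Finset.subset_univ S)]
      · exact Finset.sum_congr rfl (fun i hi => by simp [hi])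
      · intro i _ hi
        simp [hi]
    obtain ⟨v, hv⟩ := allP (decide (0 ∈ S)) (decide (1 ∈ S)) (decide (2 ∈ S)) (decide (3 ∈ S))
      (decide (4 ∈ S)) (decide (5 ∈ S)) (decide (6 ∈ S)) (decide (7 ∈ S)) (decide (8 ∈ S))
      (decide (9 ∈ S)) (decide (10 ∈ S)) (decide (11 ∈ S)) (decide (12 ∈ S)) (decide (13 ∈ S))
      (by
        rw [← h, h1]
        simp only [Fin.sum_univ_succ, Fin.sum_univ_zero, add_assoc, add_zero]
        rfl)
    refine ⟨v, ?_⟩
    ext i
    simp only [star, Finset.mem_filter, Finset.mem_univ, true_and]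
    rw [← hv i]
    fin_cases i <;> simp
  · rintro ⟨v, rfl⟩
    exact star_sum v

lemma two_inc : ∀ i, (Finset.univ.filter (fun v => inc v i = true)).card = 2 := by decide +kernel

lemma share : ∀ v i j, inc v i = true → inc v j = true → dis i j = true → False := by
  decide +kernel

/-- No matching meets all nine stars. -/
lemma no_perfect (A : Finset (Fin 14)) (hA : G.IsClique (A : Set (Fin 14)))
    (h : ∀ v, (A ∩ star v).Nonempty) : False := by
  have h1 : ∀ v, (A.filter (fun i => inc v i = true)).card = 1 := by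
    intro v
    obtain ⟨i, hi⟩ := h v
    rw [Finset.mem_inter] at hi
    have hi2 : inc v i = true := by simpa [star] using hi.2
    rw [Finset.card_eq_one]
    refine ⟨i, ?_⟩
    ext j
    simp only [Finset.mem_filter, Finset.mem_singleton]
    constructor
    · rintro ⟨hj, hj2⟩
      by_contra hne
      exact share v j i hj2 hi2 (hA hj hi.1 hne)
    · rintro rfl
      exact ⟨hi.1, hi2⟩
  have h2 := Finset.sum_card_bipartiteAbove_eq_sum_card_bipartiteBelow
    (s := (Finset.univ : Finset (Fin 9))) (t := A) (fun v i => inc v i = true)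
  simp only [Finset.bipartiteAbove, Finset.bipartiteBelow, h1, two_inc] at h2
  simp at h2
  omega

end Pool.Agent.H33.Equistar
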