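import Pool.Agent.H33.DiaDefs
import Pool.Agent.H33.DT1

/-! A ladder system space on `ω₁` under diamond in which uncountable closed sets meet. -/

open Set Filter Topology Pool.Agent.H33.DiaDefs

namespace Pool.Agent.H33.FCE1

theorem cond (g : W → ℕ → ℕ) {B : Set W} (hB : ¬ B.Countable) :
    ∃ h : ℕ → ℕ, ∀ k γ, ∃ β ∈ B, γ < β ∧ ∀ i < k, g β i ≤ h i := by
  let T : (Σ k, Fin k → ℕ) → Set W := fun t => {β ∈ B | ∀ i : Fin t.1, g β i = t.2 i}
  obtain ⟨β, b1, b2⟩ := not_subset.1 fun c : B ⊆ ⋃ t ∈ {t | (T t).Countable}, T t =>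
    hB (((to_countable {t | (T t).Countable}).biUnion fun t a => a).mono c)
  refine ⟨g β, fun k γ => not_not.1 fun e => b2 (mem_biUnion (x := ⟨k, fun i => g β i⟩)
    (((cnt γ).insert γ).mono fun δ a => (not_lt.1 fun c => e ⟨δ, a.1, c, fun i d =>
      (a.2 ⟨i, d⟩).le⟩).eq_or_lt) ⟨b1, fun _ => rfl⟩)⟩

theorem data (hD : Diamond) : ∃ (S : W → Set W) (g : W → ℕ → ℕ),
    (∀ t, ∀ s < t, ∃ i, g s i < g t i) ∧ (∀ t, S t ⊆ Iio t) ∧
    (∀ t, ∀ γ < t, (S t ∩ Iic γ).Finite) ∧ (∀ t i, {β ∈ S t | g t i < g β i}.Finite) ∧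
    ∀ B C : Set W, ¬ B.Countable → ¬ C.Countable → ∃ t, (S t ∩ B).Infinite ∧ (S t ∩ C).Infinite := by
  have := unc
  obtain ⟨A, hA⟩ := hD
  obtain ⟨j⟩ : Nonempty (W × Bool ↪ W) := (Cardinal.le_def _ _).1 (by simp [mul_two])
  let Ok : W → (W → Set W × (ℕ → ℕ)) → Set W × (ℕ → ℕ) → Prop := fun t f x => x.1 ⊆ Iio t ∧
    (∀ γ < t, (x.1 ∩ Iic γ).Finite) ∧ ∀ i, {β ∈ x.1 | β < t ∧ x.2 i < (f β).2 i}.Finite
  let Cf : W → Set W → Prop := fun t S => ∀ b, ∀ γ < t, ∃ β ∈ S, j (β, b) ∈ A t ∧ γ < β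
  obtain ⟨f, hf⟩ := HG2.rec_e (T := W) (α := Set W × (ℕ → ℕ)) id (fun t f x =>
    (∀ s < t, ∃ i, (f s).2 i < x.2 i) ∧ Ok t f x ∧ ((∃ y, Ok t f y ∧ Cf t y.1) → Cf t x.1))
    (fun t f g x a b => by
      have e : ∀ (x : Set W × (ℕ → ℕ)) i, {β ∈ x.1 | β < t ∧ x.2 i < (f β).2 i} =
          {β ∈ x.1 | β < t ∧ x.2 i < (g β).2 i} := fun x i => Set.ext fun β =>
        and_congr_right fun _ => and_congr_right fun c => by rw [a β c]
      simp only [Ok, e] at b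
      exact ⟨fun s c => a s c ▸ b.1 s c, b.2⟩) fun t f _ => by
      obtain ⟨y, y1, y2⟩ : ∃ y, Ok t f y ∧ ((∃ y, Ok t f y ∧ Cf t y.1) → Cf t y.1) := by
        by_cases e : ∃ y, Ok t f y ∧ Cf t y.1
        · exact e.imp fun y a => ⟨a.1, fun _ => a.2⟩
        · exact ⟨(∅, 0), by simp [Ok], fun a => absurd a e⟩
      obtain ⟨e, he⟩ := ((cnt t).insert t).exists_eq_range (insert_nonempty _ _)
      refine ⟨(y.1, fun i => max (y.2 i) ((f (e i)).2 i + 1)), fun s c => ?_, ⟨y1.1, y1.2.1,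
        fun i => (y1.2.2 i).subset fun β a => ⟨a.1, a.2.1, (le_max_left _ _).trans_lt a.2.2⟩⟩, y2⟩
      obtain ⟨i, rfl⟩ := he.le (Or.inr c)
      exact ⟨i, lt_max_of_lt_right (Nat.lt_succ_self _)⟩
  refine ⟨fun t => (f t).1, fun t => (f t).2, fun t => (hf t).1, fun t => (hf t).2.1.1,
    fun t => (hf t).2.1.2.1, fun t i => ((hf t).2.1.2.2 i).subset fun β a =>
      ⟨a.1, (hf t).2.1.1 a.1, a.2⟩, fun B C hB hC => ?_⟩
  let D : Bool → Set W := fun b => _root_.cond b B C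
  choose h hh using fun b => cond (fun t => (f t).2) (B := D b) (by cases b <;> assumption)
  choose n n1 n2 n3 using hh
  choose G hG using fun γ => DT1.bd cnt _ ((countable_range fun b => j (γ, b)).union
    (countable_range fun p : Bool × ℕ => n p.1 p.2 γ))
  obtain ⟨t, t1, t2, t3⟩ := hA (j '' {p | p.1 ∈ D p.2}) (DT1.club cnt G (Classical.arbitrary W))
  obtain ⟨e, he⟩ := (cnt t).exists_eq_range ⟨_, t2⟩
  have : ∀ k, ∃ γ < t, ∀ i ≤ k, e i ≤ γ := fun k => by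
    obtain ⟨i, -, a⟩ := exists_max_image _ e (finite_Iic k) ⟨k, self_mem_Iic⟩
    exact ⟨e i, he.ge ⟨i, rfl⟩, a⟩
  choose γ g1 g2 using this
  have lt : ∀ b k, n b k (γ k) < t := fun b k => (hG _ _ (Or.inr ⟨(b, k), rfl⟩)).trans (t3 _ (g1 k))
  have fin : ∀ m, ((fun p : Bool × ℕ => n p.1 p.2 (γ p.2)) '' (univ ×ˢ Iic m)).Finite := fun m =>
    (finite_univ.prod (finite_Iic m)).image _
  have c := (hf t).2.2 ⟨(range fun p : Bool × ℕ => n p.1 p.2 (γ p.2), fun i => max (h true i)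
    (h false i)), ⟨range_subset_iff.2 fun p => lt _ _, fun δ a => ?_, fun i => (fin i).subset ?_⟩,
      fun b δ a => ?_⟩
  · have k : ∀ b, ((f t).1 ∩ D b).Infinite := fun b a => by
      obtain ⟨m, m1, m2⟩ := exists_max_image _ id (a.insert (Classical.arbitrary W))
        (insert_nonempty _ _)
      obtain ⟨β, b1, b2, b3⟩ := c b m (m1.elim (fun e => e ▸ t2) fun e => (hf t).2.1.1 e.1)
      obtain ⟨p, p1, p2⟩ := (t1.ge b2).1
      obtain rfl := j.injective p2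
      exact not_lt.2 (m2 β (Or.inr ⟨b1, p1⟩)) b3
    exact ⟨t, k true, k false⟩
  · obtain ⟨i, rfl⟩ := he.le a
    refine (fin i).subset ?_
    rintro _ ⟨⟨p, rfl⟩, c⟩
    exact ⟨p, ⟨trivial, not_lt.1 fun d => not_lt.2 c ((g2 _ i (le_of_lt d)).trans_lt (n2 _ _ _))⟩, rfl⟩
  · rintro _ ⟨⟨⟨b, k⟩, rfl⟩, -, c⟩
    refine ⟨(b, k), ⟨trivial, not_lt.1 fun d => not_le.2 c ((n3 b k _ i d).trans ?_)⟩, rfl⟩
    cases b
    exacts [le_max_right _ _, le_max_left _ _]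
  · obtain ⟨i, rfl⟩ := he.le a
    exact ⟨_, ⟨(b, i), rfl⟩, t1.le ⟨⟨(_, b), n1 b i _, rfl⟩,
      (hG _ _ (Or.inl ⟨b, rfl⟩)).trans (t3 _ (lt b i))⟩, (g2 i i le_rfl).trans_lt (n2 _ _ _)⟩

/-- the sequential topology of a ladder system -/
@[reducible] def top (S : W → Set W) : TopologicalSpace W where
  IsOpen U := ∀ α ∈ U, (S α \ U).Finite
  isOpen_univ := by simp
  isOpen_inter U V a b α c := ((a α c.1).union (b α c.2)).subset fun β d =>
    (not_and_or.1 d.2).imp (And.intro d.1) (And.intro d.1)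
  isOpen_sUnion s a α := fun ⟨U, b, c⟩ => (a U b α c).subset fun β d => ⟨d.1, fun e => d.2 ⟨U, b, e⟩⟩

theorem reg {S : W → Set W} (h1 : ∀ t, S t ⊆ Iio t) (h2 : ∀ t, ∀ γ < t, (S t ∩ Iic γ).Finite) :
    letI := top S
    (∀ y : W, IsClopen (Iic y)) ∧ ∀ α : W, ∀ K, IsClosed K → α ∉ K →
      ∃ V, IsClopen V ∧ α ∈ V ∧ V ⊆ Iic α ∧ Disjoint V K := by
  let := top S
  have cl : ∀ {K : Set W}, IsClosed K ↔ ∀ α ∉ K, (S α ∩ K).Finite := fun {K} =>
    isOpen_compl_iff.symm.trans (forall₂_congr fun α _ => by rw [sdiff_compl])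
  have ic : ∀ y : W, IsClopen (Iic y) := fun y => ⟨cl.2 fun α a => h2 α y (not_le.1 a),
    fun α a => finite_empty.subset fun β b => b.2 (mem_Iic.2 ((h1 α b.1).le.trans a))⟩
  refine ⟨ic, fun α => ?_⟩
  induction α using WellFoundedLT.induction with | ind α ih => ?_
  intro K hK hα
  choose! V v1 v2 v3 v4 using fun x (hx : x ∈ S α \ K) => ih x (h1 α hx.1)
    (K ∪ ⋃ y ∈ S α ∩ Iio x, Iic y) (hK.union (((h2 α x (h1 α hx.1)).subset
      (inter_subset_inter_right _ Iio_subset_Iic_self)).isClosed_biUnion fun y _ => (ic y).1))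
        fun a => a.elim hx.2 fun a => by
          obtain ⟨y, b, c⟩ := mem_iUnion₂.1 a
          exact not_lt.2 (mem_Iic.1 c) (mem_Iio.1 b.2)
  have sub : insert α (⋃ x ∈ S α \ K, V x) ⊆ Iic α := insert_subset self_mem_Iic
    (iUnion₂_subset fun x hx => (v3 x hx).trans (Iic_subset_Iic.2 (h1 α hx.1).le))
  refine ⟨insert α (⋃ x ∈ S α \ K, V x), ⟨cl.2 fun q hq => ?_, fun q hq => ?_⟩, Or.inl rfl, sub,
    disjoint_left.2 fun z a b => a.elim (fun e => hα (e ▸ b)) fun a => ?_⟩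
  · rcases lt_trichotomy q α with c | c | c
    · have : {x ∈ S α \ K | (V x ∩ Iic q).Nonempty}.Finite := by
        by_cases e : ∃ y ∈ S α, q < y
        · obtain ⟨y, y1, y2⟩ := e
          refine (h2 α y (h1 α y1)).subset fun x ⟨a, z, z1, z2⟩ =>
            ⟨a.1, mem_Iic.2 (not_lt.1 fun d => ?_)⟩
          exact disjoint_left.1 (v4 x a) z1 (Or.inr (mem_biUnion (x := y) ⟨y1, d⟩ (z2.trans y2.le)))
        · exact (h2 α q c).subset fun x a => ⟨a.1.1, mem_Iic.2 (not_lt.1 fun d => e ⟨x, a.1.1, d⟩)⟩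
      refine (this.biUnion fun x a => cl.1 (v1 x a.1).1 q fun d =>
        hq (Or.inr (mem_biUnion a.1 d))).subset fun z ⟨a, b⟩ => ?_
      obtain ⟨x, x1, x2⟩ := mem_iUnion₂.1 (b.resolve_left ((h1 q a).trans c).ne)
      exact mem_biUnion (x := x) ⟨x1, z, x2, mem_Iic.2 (mem_Iio.1 (h1 q a)).le⟩ ⟨a, x2⟩
    · exact absurd (Or.inl c) hq
    · exact (h2 q α c).subset (inter_subset_inter_right _ sub)
  · rcases hq with rfl | hq
    · exact (cl.1 hK q hα).subset fun z a => ⟨a.1, not_not.1 fun b =>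
        a.2 (Or.inr (mem_biUnion (x := z) ⟨a.1, b⟩ (v2 z ⟨a.1, b⟩)))⟩
    · obtain ⟨x, x1, x2⟩ := mem_iUnion₂.1 hq
      exact ((v1 x x1).2 q x2).subset fun z a => ⟨a.1, fun b => a.2 (Or.inr (mem_biUnion x1 b))⟩
  · obtain ⟨x, x1, x2⟩ := mem_iUnion₂.1 a
    exact disjoint_left.1 (v4 x x1) x2 (Or.inl b)

end Pool.Agent.H33.FCE1
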