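import Mathlib

set_option autoImplicit false
open Set Topology TopologicalSpace Filter

namespace Pool.Agent.H33.FinSp

/-- Finite subsets of `A` with the topology of pointwise convergence of indicator functions. -/
def FS (A : Type) : Type := Finset A

variable {A : Type}

/-- The underlying finite set. -/
def FS.fin (y : FS A) : Finset A := y

/-- A finite set as a point of `FS A`. -/
def FS.of (y : Finset A) : FS A := y

open Classical in
/-- Indicator function. -/
noncomputable def ind (y : FS A) : A → Bool := fun a => decide (a ∈ y.fin)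

noncomputable instance : TopologicalSpace (FS A) := TopologicalSpace.induced ind inferInstance

theorem ind_eq {y z : FS A} {a : A} : ind y a = ind z a ↔ (a ∈ y.fin ↔ a ∈ z.fin) := by
  simp [ind]

theorem ind_true {y : FS A} {a : A} : ind y a = true ↔ a ∈ y.fin := by simp [ind]

theorem ind_emb : IsEmbedding (ind : FS A → A → Bool) :=
  ⟨⟨rfl⟩, fun _ _ h => Finset.ext fun a => ind_eq.1 (congrFun h a)⟩

instance : T35Space (FS A) := ind_emb.t35Space

theorem tendsto_iff {ι : Type*} {l : Filter ι} {g : ι → FS A} {y : FS A} :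
    Tendsto g l (𝓝 y) ↔ ∀ a, ∀ᶠ i in l, (a ∈ (g i).fin ↔ a ∈ y.fin) := by
  rw [ind_emb.tendsto_nhds_iff, tendsto_pi_nhds]
  simp only [nhds_discrete, tendsto_pure, Function.comp, ind_eq]

theorem ev_nhds (y : FS A) (a : A) : ∀ᶠ z in 𝓝 y, (a ∈ z.fin ↔ a ∈ y.fin) :=
  tendsto_iff.1 tendsto_id a

theorem exists_fin {U : Set (FS A)} {y : FS A} (h : U ∈ 𝓝 y) :
    ∃ F : Finset A, ∀ z : FS A, (∀ a ∈ F, (a ∈ z.fin ↔ a ∈ y.fin)) → z ∈ U := by
  rw [ind_emb.nhds_eq_comap] at h
  obtain ⟨V, hV, hVU⟩ := h
  obtain ⟨W, h1, h2, h3⟩ := mem_nhds_iff.1 hV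
  obtain ⟨F, u, h4, h5⟩ := isOpen_pi_iff.1 h2 _ h3
  refine ⟨F, fun z hz => hVU (h1 (h5 fun a ha => ?_))⟩
  rw [ind_eq.2 (hz a ha)]
  exact (h4 a ha).2

theorem agree_nhds (y : FS A) (F : Finset A) :
    {z : FS A | ∀ a ∈ F, (a ∈ z.fin ↔ a ∈ y.fin)} ∈ 𝓝 y :=
  (F.eventually_all (p := fun a (z : FS A) => (a ∈ z.fin ↔ a ∈ y.fin))).2 fun a _ => ev_nhds y a

theorem compact_le (m : ℕ) : IsCompact {y : FS A | y.fin.card ≤ m} := by
  classical
  rw [ind_emb.isCompact_iff]
  have : ind '' {y : FS A | y.fin.card ≤ m} =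
      ⋂ T : {T : Finset A // T.card = m + 1}, ⋃ a ∈ T.1, {z : A → Bool | z a = false} := by
    ext z
    simp only [mem_iInter, mem_iUnion, mem_ofPred_eq, mem_image]
    constructor
    · rintro ⟨y, hy, rfl⟩ T
      by_contra h
      push Not at h
      have : T.1 ⊆ y.fin := fun a ha => ind_true.1 (by simpa using h a ha)
      have := Finset.card_le_card this
      have := T.2
      omega
    · intro h
      have key : ∀ T : Finset A, (∀ a ∈ T, z a = true) → T.card ≤ m := by
        intro T hT
        by_contra hc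
        obtain ⟨T', h1, h2⟩ := Finset.exists_subset_card_eq (show m + 1 ≤ T.card by omega)
        obtain ⟨a, ha, ha'⟩ := h ⟨T', h2⟩
        simp [hT a (h1 ha)] at ha'
      have hf : {a | z a = true}.Finite := by
        by_contra hinf
        obtain ⟨T, h1, h2⟩ := Set.Infinite.exists_subset_card_eq hinf (m + 1)
        have := key T fun a ha => h1 ha
        omega
      refine ⟨FS.of hf.toFinset, key _ fun a ha => by simpa [FS.of, FS.fin] using ha, ?_⟩
      funext a
      cases hz : z a <;> simp [ind, FS.of, FS.fin, hz]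
  rw [this]
  refine (isClosed_iInter fun T => ?_).isCompact
  exact T.1.finite_toSet.isClosed_biUnion fun a _ =>
    isClosed_eq (continuous_apply a) continuous_const

instance : LindelofSpace (FS A) := ⟨by
  have : (univ : Set (FS A)) = ⋃ m : ℕ, {y : FS A | y.fin.card ≤ m} := by
    ext y; simp only [mem_univ, mem_iUnion, mem_ofPred_eq, true_iff]; exact ⟨_, le_rfl⟩
  rw [this]
  exact isLindelof_iUnion fun m => (compact_le m).isLindelof⟩

instance : NormalSpace (FS A) := NormalSpace.of_regularSpace_lindelofSpace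

open Classical in
theorem depends (g : FS A → ℝ) (hg : Continuous g) :
    ∃ B : Set A, B.Countable ∧ ∀ y : FS A, g y = g (FS.of (y.fin.filter (· ∈ B))) := by
  have h1 : ∀ n : ℕ, ∃ B : Set A, B.Countable ∧ ∀ y z : FS A,
      (∀ a ∈ B, (a ∈ y.fin ↔ a ∈ z.fin)) → |g y - g z| ≤ 2 * (1 / ((n : ℝ) + 1)) := by
    intro n
    have : ∀ y : FS A, ∃ F : Finset A, ∀ z : FS A, (∀ a ∈ F, (a ∈ z.fin ↔ a ∈ y.fin)) →
        |g z - g y| < 1 / ((n : ℝ) + 1) := fun y =>
      exists_fin (hg.continuousAt.eventually (Metric.ball_mem_nhds (g y)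
        (show 0 < 1 / ((n : ℝ) + 1) by positivity)))
    choose F hF using this
    obtain ⟨s, hs, hs'⟩ := LindelofSpace.elim_nhds_subcover
      (fun y => {z : FS A | ∀ a ∈ F y, (a ∈ z.fin ↔ a ∈ y.fin)}) (fun y => agree_nhds y _)
    refine ⟨⋃ y ∈ s, (F y : Set A), hs.biUnion fun y _ => (F y).countable_toSet,
      fun y z hyz => ?_⟩
    obtain ⟨w, hw, hzw⟩ : ∃ w ∈ s, ∀ a ∈ F w, (a ∈ z.fin ↔ a ∈ w.fin) := by
      have : z ∈ ⋃ y ∈ s, {z : FS A | ∀ a ∈ F y, (a ∈ z.fin ↔ a ∈ y.fin)} := by
        rw [hs']; trivial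
      simpa using this
    have e1 := hF w z hzw
    have e2 := hF w y fun a ha => (hyz a (mem_biUnion hw ha)).trans (hzw a ha)
    rw [abs_lt] at e1 e2
    rw [abs_le]
    constructor <;> linarith
  choose B hB hB' using h1
  refine ⟨⋃ n, B n, countable_iUnion hB, fun y => ?_⟩
  have : ∀ n : ℕ, |g y - g (FS.of (y.fin.filter (· ∈ ⋃ n, B n)))| ≤ 2 * (1 / ((n : ℝ) + 1)) :=
    fun n => hB' n _ _ fun a ha => by
      have : a ∈ ⋃ n, B n := mem_iUnion.2 ⟨n, ha⟩
      show _ ↔ a ∈ y.fin.filter _
      rw [Finset.mem_filter]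
      exact ⟨fun h => ⟨h, this⟩, fun h => h.1⟩
  have h0 := ge_of_tendsto' (tendsto_one_div_add_atTop_nhds_zero_nat.const_mul 2) this
  rw [mul_zero] at h0
  exact sub_eq_zero.1 (abs_nonpos_iff.1 h0)

/-- Codes of injective enumerations of countable subsets of `A`. -/
def Code (A : Type) : Set (ℕ → A → Bool) :=
  {e | (∀ n a a', e n a = true → e n a' = true → a = a') ∧
    ∀ n n' a, e n a = true → e n' a = true → n = n'}

theorem closed_imp {Y : Type*} [TopologicalSpace Y] {u v : Y → Bool} (hu : Continuous u)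
    (hv : Continuous v) (P : Prop) : IsClosed {y | u y = true → v y = true → P} := by
  by_cases hP : P
  · simp [hP]
  · have : {y | u y = true → v y = true → P} = {y | u y = false} ∪ {y | v y = false} := by
      ext y; cases h1 : u y <;> cases h2 : v y <;> simp [h1, h2, hP]
    rw [this]
    exact (isClosed_eq hu continuous_const).union (isClosed_eq hv continuous_const)

theorem closed_code : IsClosed (Code A) := by
  refine IsClosed.inter (s₁ := {e : ℕ → A → Bool | _}) (s₂ := {e : ℕ → A → Bool | _}) ?_ ?_ <;>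
  · rw [ofPred_forall]
    refine isClosed_iInter fun _ => ?_
    rw [ofPred_forall]
    refine isClosed_iInter fun _ => ?_
    rw [ofPred_forall]
    exact isClosed_iInter fun _ => closed_imp (by fun_prop) (by fun_prop) _

theorem exists_pull (e : Code A) (y : FS A) : ∃ s : FS ℕ, s.fin.card ≤ y.fin.card ∧
    ∀ n, n ∈ s.fin ↔ ∃ a ∈ y.fin, e.1 n a = true := by
  classical
  have : ∀ a, ∃ k, ∀ n, e.1 n a = true → n = k := fun a => by
    by_cases h : ∃ n, e.1 n a = true
    · obtain ⟨k, hk⟩ := h
      exact ⟨k, fun n hn => e.2.2 n k a hn hk⟩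
    · exact ⟨0, fun n hn => absurd ⟨n, hn⟩ h⟩
  choose k hk using this
  refine ⟨FS.of ((y.fin.image k).filter fun n => ∃ a ∈ y.fin, e.1 n a = true),
    (Finset.card_filter_le _ _).trans Finset.card_image_le, fun n => ?_⟩
  show n ∈ Finset.filter _ _ ↔ _
  rw [Finset.mem_filter]
  exact ⟨fun h => h.2, fun ⟨a, ha, h⟩ => ⟨Finset.mem_image.2 ⟨a, ha, (hk a n h).symm⟩, a, ha, h⟩⟩

/-- The set of indices enumerating elements of `y`. -/
noncomputable def pull (e : Code A) (y : FS A) : FS ℕ := (exists_pull e y).choose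

theorem pull_card (e : Code A) (y : FS A) : (pull e y).fin.card ≤ y.fin.card :=
  (exists_pull e y).choose_spec.1

theorem mem_pull (e : Code A) (y : FS A) (n : ℕ) :
    n ∈ (pull e y).fin ↔ ∃ a ∈ y.fin, e.1 n a = true := (exists_pull e y).choose_spec.2 n

theorem pull_cont_right (e : Code A) : Continuous (pull e) := by
  refine continuous_iff_continuousAt.2 fun y => tendsto_iff.2 fun n => ?_
  by_cases h : ∃ a, e.1 n a = true
  · obtain ⟨a, ha⟩ := h
    have : ∀ z : FS A, n ∈ (pull e z).fin ↔ a ∈ z.fin := fun z => by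
      rw [mem_pull]
      exact ⟨fun ⟨b, hb, hb'⟩ => e.2.1 n b a hb' ha ▸ hb, fun h => ⟨a, h, ha⟩⟩
    simp only [this]
    exact ev_nhds y a
  · refine Eventually.of_forall fun z => ?_
    simp only [mem_pull]
    exact ⟨fun ⟨a, _, ha⟩ => absurd ⟨a, ha⟩ h, fun ⟨a, _, ha⟩ => absurd ⟨a, ha⟩ h⟩

theorem pull_cont_left (y : FS A) : Continuous fun e : Code A => pull e y := by
  refine continuous_iff_continuousAt.2 fun e => tendsto_iff.2 fun n => ?_
  have : ∀ᶠ e' : Code A in 𝓝 e, ∀ a ∈ y.fin, e'.1 n a = e.1 n a := by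
    refine (y.fin.eventually_all).2 fun a _ => ?_
    have hc : Continuous fun e' : Code A => e'.1 n a :=
      (continuous_apply a).comp ((continuous_apply n).comp continuous_subtype_val)
    have := hc.tendsto e
    rwa [nhds_discrete Bool, tendsto_pure] at this
  filter_upwards [this] with e' he'
  simp only [mem_pull]
  exact ⟨fun ⟨a, h1, h2⟩ => ⟨a, h1, he' a h1 ▸ h2⟩, fun ⟨a, h1, h2⟩ => ⟨a, h1, (he' a h1).symm ▸ h2⟩⟩

/-- Finite sets of naturals with at most `m` elements. -/
abbrev Sm (m : ℕ) : Type := {s : FS ℕ // s.fin.card ≤ m}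

instance (m : ℕ) : CompactSpace (Sm m) := isCompact_iff_compactSpace.1 (compact_le m)

instance : SecondCountableTopology (FS ℕ) := ind_emb.secondCountableTopology

/-- Continuous functions on `FS ℕ` with uniform convergence on each `Sm m`. -/
abbrev MM : Type := {G : (m : ℕ) → C(Sm m, ℝ) // ∃ g : C(FS ℕ, ℝ), ∀ m s, G m s = g s.1}

instance (m : ℕ) : SecondCountableTopology C(Sm m, ℝ) := by
  have : SecondCountableTopology (Sm m) := IsEmbedding.subtypeVal.secondCountableTopology
  have : LocallyCompactSpace (Sm m) := inferInstance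
  exact ContinuousMap.instSecondCountableTopology

instance : SecondCountableTopology MM :=
  IsEmbedding.subtypeVal.secondCountableTopology

instance : MetrizableSpace MM := metrizableSpace_of_t3_secondCountable _

theorem lsigma [Infinite A] (X : Set (FS A))
    (hX : ∀ f : X → ℝ, Continuous f → ∃ g : FS A → ℝ, Continuous g ∧ ∀ x : X, g x = f x) :
    ∃ (K M : Type) (_ : TopologicalSpace K) (_ : TopologicalSpace M),
      CompactSpace K ∧ T2Space K ∧ SeparableSpace M ∧ MetrizableSpace M ∧
      ∃ F : Set (K × M), IsClosed F ∧ ∃ φ : F → {f : X → ℝ // Continuous f},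
        Continuous φ ∧ Function.Surjective φ := by
  classical
  refine ⟨ℕ → A → Bool, MM, inferInstance, inferInstance, inferInstance, inferInstance,
    inferInstance, inferInstance, Prod.fst ⁻¹' Code A, closed_code.preimage continuous_fst,
    fun q => ⟨fun x => q.1.2.1 _ ⟨pull ⟨q.1.1, q.2⟩ x.1, pull_card _ _⟩, ?_⟩, ?_, ?_⟩
  · obtain ⟨g, hg⟩ := q.1.2.2
    simp only [hg]
    exact g.continuous.comp ((pull_cont_right _).comp continuous_subtype_val)
  · refine Continuous.subtype_mk (continuous_pi fun x => ?_) _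
    refine Continuous.eval ((continuous_apply _).comp (continuous_subtype_val.comp
      (continuous_snd.comp continuous_subtype_val))) (Continuous.subtype_mk ?_ _)
    exact (pull_cont_left x.1).comp (Continuous.subtype_mk (by fun_prop) _)
  · rintro ⟨f, hf⟩
    obtain ⟨g, hg, hgf⟩ := hX f hf
    obtain ⟨B, hB, hB'⟩ := depends g hg
    let i := Infinite.natEmbedding A
    have hc : (B ∪ range i).Countable := hB.union (countable_range i)
    have hi : (B ∪ range i).Infinite := (infinite_range_of_injective i.injective).mono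
      subset_union_right
    have := hc.to_subtype
    have := hi.to_subtype
    obtain ⟨d⟩ := nonempty_denumerable (B ∪ range i : Set A)
    let e : ℕ → A := fun n => ((Denumerable.eqv (B ∪ range i : Set A)).symm n).1
    have he : Function.Injective e :=
      Subtype.val_injective.comp (Denumerable.eqv _).symm.injective
    have heB : ∀ a ∈ B, ∃ n, e n = a := fun a ha =>
      ⟨Denumerable.eqv (B ∪ range i : Set A) ⟨a, Or.inl ha⟩, by simp [e]⟩
    let c : Code A := ⟨fun n a => decide (e n = a),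
      fun n a a' h h' => (of_decide_eq_true h).symm.trans (of_decide_eq_true h'),
      fun n n' a h h' => he ((of_decide_eq_true h).trans (of_decide_eq_true h').symm)⟩
    have hpush : Continuous fun s : FS ℕ => FS.of (s.fin.image e) := by
      refine continuous_iff_continuousAt.2 fun s => tendsto_iff.2 fun a => ?_
      by_cases h : ∃ n, e n = a
      · obtain ⟨n, rfl⟩ := h
        have : ∀ z : FS ℕ, e n ∈ (FS.of (z.fin.image e)).fin ↔ n ∈ z.fin := fun z =>
          he.mem_finset_image
        simp only [this]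
        exact ev_nhds s n
      · refine Eventually.of_forall fun z => ?_
        have : ∀ z : FS ℕ, a ∉ (FS.of (z.fin.image e)).fin := fun z hz => by
          obtain ⟨n, -, hn⟩ := Finset.mem_image.1 hz
          exact h ⟨n, hn⟩
        simp only [this]
    let g' : C(FS ℕ, ℝ) := ⟨fun s => g (FS.of (s.fin.image e)), hg.comp hpush⟩
    refine ⟨⟨(c.1, ⟨fun m => g'.comp ⟨Subtype.val, continuous_subtype_val⟩, g', fun _ _ => rfl⟩),
      c.2⟩, Subtype.ext (funext fun x => ?_)⟩
    show g (FS.of ((pull c x.1).fin.image e)) = f x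
    rw [← hgf, hB', hB' x.1]
    congr 2
    ext a
    show a ∈ Finset.filter _ (Finset.image _ _) ↔ _
    simp only [Finset.mem_filter, Finset.mem_image, mem_pull]
    constructor
    · rintro ⟨⟨n, ⟨b, hb, hb'⟩, rfl⟩, h⟩
      exact ⟨of_decide_eq_true hb' ▸ hb, h⟩
    · rintro ⟨h1, h2⟩
      obtain ⟨n, rfl⟩ := heB a h2
      exact ⟨⟨n, ⟨_, h1, decide_eq_true rfl⟩, rfl⟩, h2⟩

end Pool.Agent.H33.FinSp
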