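import Mathlib

/-!
Products of fin-unbounded sets and of small sets with gamma spaces.
-/

set_option autoImplicit false

open Set Filter Topology Function Cardinal

namespace Pool.Agent.H33.FinUnb

/-- The Cantor space `P(ω)` of characteristic functions. -/
abbrev C : Type := ℕ → Bool

/-- The finite subsets of `ω`. -/
def FinSets : Set C := {x | {j | x j = true}.Finite}

/-- Open omega cover. -/
def OmegaCover {Z : Type} [TopologicalSpace Z] (𝒰 : Set (Set Z)) : Prop :=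
  (∀ U ∈ 𝒰, IsOpen U) ∧ ⋃₀ 𝒰 = Set.univ ∧ Set.univ ∉ 𝒰 ∧ ∀ F : Set Z, F.Finite → ∃ U ∈ 𝒰, F ⊆ U

/-- Open gamma cover. -/
def GammaCover {Z : Type} [TopologicalSpace Z] (𝒰 : Set (Set Z)) : Prop :=
  (∀ U ∈ 𝒰, IsOpen U) ∧ ⋃₀ 𝒰 = Set.univ ∧ 𝒰.Infinite ∧ ∀ z : Z, {U | U ∈ 𝒰 ∧ z ∉ U}.Finite

/-- The property `S₁(Γ, Ω)`. -/
def S1GammaOmega (Z : Type) [TopologicalSpace Z] : Prop :=
  ∀ 𝒰 : ℕ → Set (Set Z), (∀ n, GammaCover (𝒰 n)) →
    ∃ U : ℕ → Set Z, (∀ n, U n ∈ 𝒰 n) ∧ OmegaCover (range U)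

/-- The property `S₁(Ω, Γ)`. -/
def S1OmegaGamma (Z : Type) [TopologicalSpace Z] : Prop :=
  ∀ 𝒰 : ℕ → Set (Set Z), (∀ n, OmegaCover (𝒰 n)) →
    ∃ U : ℕ → Set Z, (∀ n, U n ∈ 𝒰 n) ∧ GammaCover (range U)

/-- Every open omega cover contains a gamma cover. -/
def GammaProp (Z : Type) [TopologicalSpace Z] : Prop :=
  ∀ 𝒰 : Set (Set Z), OmegaCover 𝒰 → ∃ 𝒱 ⊆ 𝒰, GammaCover 𝒱

/-- The covering number of the meager ideal (on the Baire space). -/
noncomputable def covM : Cardinal.{0} :=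
  sInf {c | ∃ 𝒜 : Set (Set (ℕ → ℕ)), (∀ M ∈ 𝒜, IsMeagre M) ∧ ⋃₀ 𝒜 = Set.univ ∧ #𝒜 = c}

/-- The dominating number. -/
noncomputable def dom : Cardinal.{0} :=
  sInf {c | ∃ D : Set (ℕ → ℕ), (∀ f : ℕ → ℕ, ∃ g ∈ D, ∀ᶠ n in atTop, f n ≤ g n) ∧ #D = c}

/-- Groupwise dense families of infinite subsets of `ω`. -/
def GroupwiseDense (G : Set (Set ℕ)) : Prop :=
  (∀ A ∈ G, A.Infinite) ∧ (∀ A ∈ G, ∀ B : Set ℕ, B.Infinite → (B \ A).Finite → B ∈ G) ∧
    ∀ d : ℕ → ℕ, StrictMono d → ∃ K : Set ℕ, K.Infinite ∧ (⋃ k ∈ K, Ico (d k) (d (k + 1))) ∈ G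

/-- The groupwise density number. -/
noncomputable def gw : Cardinal.{0} :=
  sInf {c | ∃ 𝒢 : Set (Set (Set ℕ)), (∀ G ∈ 𝒢, GroupwiseDense G) ∧ ⋂₀ 𝒢 = ∅ ∧ #𝒢 = c}

theorem covM_le {𝒜 : Set (Set (ℕ → ℕ))} (a : ∀ M ∈ 𝒜, IsMeagre M) (b : ⋃₀ 𝒜 = Set.univ) :
    covM ≤ #𝒜 := csInf_le' ⟨𝒜, a, b, rfl⟩

theorem dom_le {D : Set (ℕ → ℕ)} (a : ∀ f : ℕ → ℕ, ∃ g ∈ D, ∀ᶠ n in atTop, f n ≤ g n) :
    dom ≤ #D := csInf_le' ⟨D, a, rfl⟩

theorem gw_le {𝒢 : Set (Set (Set ℕ))} (a : ∀ G ∈ 𝒢, GroupwiseDense G) (b : ⋂₀ 𝒢 = ∅) :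
    gw ≤ #𝒢 := csInf_le' ⟨𝒢, a, b, rfl⟩

def Gam (Y : Type) [TopologicalSpace Y] : Prop :=
  ∀ 𝒲 : ℕ → Set (Set Y), (∀ k, ∀ W ∈ 𝒲 k, IsOpen W) →
    (∀ k, ∀ F : Set Y, F.Finite → ∃ W ∈ 𝒲 k, F ⊆ W) →
    ∃ W : ℕ → Set Y, (∀ k, W k ∈ 𝒲 k) ∧ ∀ y, ∀ᶠ k in atTop, y ∈ W k

def Prel {Z : Type} [TopologicalSpace Z] (R : Set Z) : Prop :=
  ∀ U : ℕ → ℕ → Set Z, (∀ n j, IsOpen (U n j)) → (∀ n, ∀ z ∈ R, ∀ᶠ j in atTop, z ∈ U n j) →
    ∃ g : ℕ → ℕ, ∀ F : Set Z, F.Finite → F ⊆ R → ∃ n, F ⊆ U n (g n)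

theorem gp_of_s1 {Y : Type} [TopologicalSpace Y] (h : S1OmegaGamma Y) : GammaProp Y :=
  fun 𝒰 hU => by
    obtain ⟨U, a, b⟩ := h (fun _ => 𝒰) fun _ => hU
    exact ⟨_, range_subset_iff.2 a, b⟩

theorem enum {Z : Type} {𝒱 : Set (Set Z)} (h1 : 𝒱.Infinite)
    (h2 : ∀ z : Z, {U | U ∈ 𝒱 ∧ z ∉ U}.Finite) :
    ∃ V : ℕ → Set Z, (∀ i, V i ∈ 𝒱) ∧ ∀ z, ∀ᶠ i in atTop, z ∈ V i := by
  refine ⟨fun i => h1.natEmbedding _ i, fun i => (h1.natEmbedding _ i).2, fun z => ?_⟩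
  rw [← Nat.cofinite_eq_atTop, eventually_cofinite]
  exact ((h2 z).preimage (Subtype.val_injective.comp
    (h1.natEmbedding _).injective).injOn).subset fun i hi => ⟨(h1.natEmbedding _ i).2, hi⟩

theorem gam_of {Y : Type} [TopologicalSpace Y] [T1Space Y] (h : GammaProp Y) : Gam Y := by
  intro 𝒲 h1 h2
  rcases finite_or_infinite Y with hY | hY
  · choose W a b using fun k => h2 k Set.univ finite_univ
    exact ⟨W, a, fun y => .of_forall fun k => b k trivial⟩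
  let y := Infinite.natEmbedding Y
  have h3 : ∀ F : Set Y, F.Finite → ∃ V ∈ {V | IsOpen V ∧ ∃ k, y k ∉ V ∧ ∀ i ≤ k, ∃ W ∈ 𝒲 i,
      V ⊆ W}, F ⊆ V := fun F hF => by
    obtain ⟨k, hk⟩ := (hF.preimage y.injective.injOn).exists_notMem
    choose W a b using fun k => h2 k F hF
    exact ⟨(⋂ i ∈ Iic k, W i) \ {y k}, ⟨((finite_Iic k).isOpen_biInter fun i _ =>
      h1 i _ (a i)).sdiff isClosed_singleton, k, by simp, fun i hi => ⟨_, a i,
      sdiff_subset.trans (biInter_subset_of_mem hi)⟩⟩, fun z hz =>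
      ⟨mem_iInter₂.2 fun i _ => b i hz, fun e => hk (show y k ∈ F from e ▸ hz)⟩⟩
  obtain ⟨𝒱, a, -, -, b, c⟩ := h _ ⟨fun V hV => hV.1, eq_univ_of_forall fun z => by
    obtain ⟨V, a, b⟩ := h3 {z} (finite_singleton z)
    exact ⟨V, a, b rfl⟩, by rintro ⟨_, k, a, _⟩; exact a trivial, h3⟩
  obtain ⟨V, V1, V2⟩ := enum b c
  choose k k1 k2 using fun i => (a (V1 i)).2
  have : ∀ m, ∃ i ≥ m, m ≤ k i := fun m => by
    obtain ⟨i, i1, i2⟩ := (((eventually_all_finite (finite_Iio m)).2 fun j _ => V2 (y j)).and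
      (eventually_ge_atTop m)).exists
    exact ⟨i, i2, not_lt.1 fun e => k1 i (i1 _ e)⟩
  choose i i1 i2 using this
  choose W W1 W2 using fun m => k2 (i m) m (i2 m)
  exact ⟨W, W1, fun z => ((tendsto_atTop_mono i1 tendsto_id).eventually (V2 z)).mono
    fun m hm => W2 m hm⟩

theorem prel_iff {Z Z' : Type} [TopologicalSpace Z] [TopologicalSpace Z'] {e : Z → Z'}
    (he : IsInducing e) : S1GammaOmega Z ↔ Prel (range e) := by
  refine ⟨fun h U U1 U2 => ?_, fun h 𝒰 hU => ?_⟩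
  · suffices ∃ g : ℕ → ℕ, ∀ F : Set Z, F.Finite → ∃ n, F ⊆ e ⁻¹' U n (g n) by
      obtain ⟨g, hg⟩ := this
      refine ⟨g, fun F a b => ?_⟩
      obtain ⟨F', -, c, rfl⟩ := a.exists_subset_finite_image_eq (image_univ.symm ▸ b)
      exact (hg F' c).imp fun n hn => image_subset_iff.2 hn
    rcases em (∃ n j, e ⁻¹' U n j = Set.univ) with ⟨n, j, a⟩ | a
    · exact ⟨fun _ => j, fun F _ => ⟨n, a ▸ subset_univ _⟩⟩
    push Not at a
    obtain ⟨V, V1, V2⟩ := h (fun n => range fun j => e ⁻¹' U n j) fun n => by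
      have h2 : ∀ x, ∀ᶠ j in atTop, x ∈ e ⁻¹' U n j := fun x => U2 n _ ⟨x, rfl⟩
      have h3 : ∀ x, {j | x ∉ e ⁻¹' U n j}.Finite := fun x => by
        simpa [← Nat.cofinite_eq_atTop, eventually_cofinite] using h2 x
      refine ⟨forall_mem_range.2 fun j => (U1 n j).preimage he.continuous,
        eq_univ_of_forall fun x => ?_, fun h => ?_,
        fun x => ((h3 x).image fun j => e ⁻¹' U n j).subset ?_⟩
      · obtain ⟨n, hn⟩ := (h2 x).exists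
        exact ⟨_, ⟨n, rfl⟩, hn⟩
      · choose g hg using fun V : range fun j => e ⁻¹' U n j =>
          (ne_univ_iff_exists_notMem V.1).1 (by
            obtain ⟨_, j, rfl⟩ := V
            exact a n j)
        have := h.to_subtype
        obtain ⟨j, hn⟩ := (eventually_all.2 fun V => h2 (g V)).exists
        exact hg ⟨_, j, rfl⟩ (hn _)
      · rintro _ ⟨⟨n, rfl⟩, h⟩
        exact ⟨n, h, rfl⟩
    choose g hg using V1
    refine ⟨g, fun F hF => ?_⟩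
    obtain ⟨_, ⟨n, rfl⟩, b⟩ := V2.2.2.2 F hF
    exact ⟨n, b.trans (hg n).ge⟩
  · choose V V1 V2 using fun n => enum ((hU n).2.2.1.sdiff (finite_singleton Set.univ))
      fun z => ((hU n).2.2.2 z).subset fun U h => ⟨h.1.1, h.2⟩
    choose U U1 U2 using fun n j => he.isOpen_iff.1 ((hU n).1 _ (V1 n j).1)
    obtain ⟨g, hg⟩ := h U U1 fun n => forall_mem_range.2 fun z => (V2 n z).mono fun j hj => by
      rwa [← U2] at hj
    have a : ∀ F : Set Z, F.Finite → ∃ U ∈ range fun n => V n (g n), F ⊆ U := fun F hF => by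
      obtain ⟨n, hn⟩ := hg _ (hF.image e) (image_subset_range _ _)
      exact ⟨_, ⟨n, rfl⟩, (image_subset_iff.1 hn).trans (U2 _ _).le⟩
    refine ⟨fun n => V n (g n), fun n => (V1 n _).1, forall_mem_range.2 fun n =>
      (hU n).1 _ (V1 n _).1, eq_univ_of_forall fun z => ?_, fun ⟨n, hn⟩ => (V1 n _).2 hn, a⟩
    obtain ⟨U, b, c⟩ := a {z} (finite_singleton z)
    exact ⟨U, b, c rfl⟩

theorem prel_prod {Z Y : Type} [TopologicalSpace Z] [TopologicalSpace Y] (A : Set Z) :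
    S1GammaOmega (A × Y) ↔ Prel (A ×ˢ (Set.univ : Set Y)) := by
  rw [prel_iff (IsInducing.subtypeVal.prodMap (IsInducing.id (X := Y))), range_prodMap]
  simp

theorem sel {Z Y : Type} [TopologicalSpace Z] [TopologicalSpace Y] (hY : Gam Y)
    {U : ℕ → ℕ → Set (Z × Y)} (U1 : ∀ n j, IsOpen (U n j)) {F : Set Z} (hF : F.Finite)
    (U2 : ∀ n, ∀ a ∈ F, ∀ y, ∀ᶠ j in atTop, (a, y) ∈ U n j) (d : ℕ → ℕ) (hd : StrictMono d) :
    ∃ k : ℕ → ℕ, (∀ m, m ≤ k m) ∧ ∀ G : Set Y, G.Finite → ∀ᶠ m in atTop, ∀ n ≤ m,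
      ∀ j ∈ Ico (d (k m)) (d (k m + 1)), F ×ˢ G ⊆ U n j := by
  obtain ⟨W, W1, W2⟩ := hY (fun m => {W | ∃ k ≥ m, W = ⋂ n ∈ Iic m,
    ⋂ j ∈ Ico (d k) (d (k + 1)), ⋂ a ∈ F, Prod.mk a ⁻¹' U n j}) (by
      rintro m _ ⟨k, -, rfl⟩
      exact (finite_Iic m).isOpen_biInter fun n _ => (finite_Ico _ _).isOpen_biInter fun j _ =>
        hF.isOpen_biInter fun a _ => (U1 n j).preimage (by fun_prop)) fun m G hG => by
      obtain ⟨N, hN⟩ := eventually_atTop.1 ((eventually_all_finite (finite_Iic m)).2 fun n _ =>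
        (eventually_all_finite hF).2 fun a ha => (eventually_all_finite hG).2
          fun y _ => U2 n a ha y)
      refine ⟨_, ⟨max m N, le_max_left _ _, rfl⟩, fun y hy => ?_⟩
      simp only [mem_iInter]
      exact fun n hn j hj a ha => hN j (((le_max_right _ _).trans (hd.le_apply)).trans hj.1)
        n hn a ha y hy
  choose k k1 k2 using W1
  refine ⟨k, k1, fun G hG => ((eventually_all_finite hG).2 fun y _ => W2 y).mono
    fun m hm n hn j hj ⟨a, y⟩ h => ?_⟩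
  have := hm y h.2
  simp only [k2, mem_iInter] at this
  exact this n hn j hj a h.1

theorem prel_of {Z Y : Type} [TopologicalSpace Z] [TopologicalSpace Y] {A : Set Z}
    (h : ∀ U : ℕ → ℕ → Set (Z × Y), (∀ n j, IsOpen (U n j)) →
      (∀ n, ∀ a ∈ A, ∀ y, ∀ᶠ j in atTop, (a, y) ∈ U n j) → ∃ g : ℕ → ℕ, ∀ F : Set Z, F.Finite →
      F ⊆ A → ∀ G : Set Y, G.Finite → ∃ n, F ×ˢ G ⊆ U n (g n)) :
    Prel (A ×ˢ (Set.univ : Set Y)) := fun U U1 U2 => by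
  obtain ⟨g, hg⟩ := h U U1 fun n a ha y => U2 n _ ⟨ha, trivial⟩
  refine ⟨g, fun F a b => ?_⟩
  obtain ⟨n, hn⟩ := hg _ (a.image Prod.fst) (forall_mem_image.2 fun z hz => (b hz).1) _
    (a.image Prod.snd)
  exact ⟨n, (subset_fst_image_prod_snd_image).trans hn⟩

theorem small_fin {Z Y : Type} [TopologicalSpace Z] [TopologicalSpace Y] (hY : Gam Y)
    {A : Set Z} (hA : A.Finite) : Prel (A ×ˢ (Set.univ : Set Y)) := prel_of fun U U1 U2 => by
  obtain ⟨k, -, hk⟩ := sel hY U1 hA U2 id strictMono_id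
  refine ⟨k, fun F _ b G c => ?_⟩
  obtain ⟨m, hm⟩ := (hk G c).exists
  exact ⟨m, (prod_mono_left b).trans (hm m le_rfl _ (by simp))⟩

theorem mk_fs {Z : Type} {A : Set Z} (hA : A.Infinite) :
    #{F : Set Z // F.Finite ∧ F ⊆ A} ≤ #A := by
  have := hA.to_subtype
  rw [← mk_finset_of_infinite A]
  refine mk_le_of_surjective (f := fun s : Finset A => ⟨Subtype.val '' (s : Set A),
    s.finite_toSet.image _, Subtype.coe_image_subset _ _⟩) fun ⟨F, a, b⟩ => ?_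
  exact ⟨(a.preimage Subtype.val_injective.injOn).toFinset, by simpa using b⟩

theorem small_cov {Z Y : Type} [TopologicalSpace Z] [TopologicalSpace Y] (hY : Gam Y)
    {A : Set Z} (hA : #A < covM) : Prel (A ×ˢ (Set.univ : Set Y)) := by
  rcases A.finite_or_infinite with h | h
  · exact small_fin hY h
  refine prel_of fun U U1 U2 => ?_
  choose k k1 k2 using fun F : {F : Set Z // F.Finite ∧ F ⊆ A} =>
    sel hY U1 F.2.1 (fun n a ha => U2 n a (F.2.2 ha)) id strictMono_id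
  have a : ∀ F, IsMeagre {g : ℕ → ℕ | ∀ M, ∃ n ≥ M, g n = k F n}ᶜ := fun F => by
    rw [IsMeagre, compl_compl]
    refine eventually_countable_forall.2 fun M => residual_of_dense_open ?_ fun g => ?_
    · simp only [ofPred_exists, ofPred_and]
      exact isOpen_iUnion fun n => isOpen_const.inter
        ((isOpen_discrete {_}).preimage (continuous_apply n))
    · refine mem_closure_of_tendsto (f := fun n => update g n (k F n)) (b := atTop) ?_ ?_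
      · refine tendsto_pi_nhds.2 fun j => tendsto_const_nhds.congr' ?_
        filter_upwards [eventually_gt_atTop j] with n hn
        simp [hn.ne]
      · filter_upwards [eventually_ge_atTop M] with n hn using ⟨n, hn, by simp⟩
  obtain ⟨g, hg⟩ := (ne_univ_iff_exists_notMem _).1 fun e => hA.not_ge
    ((covM_le (forall_mem_range.2 a) e).trans (mk_range_le.trans (mk_fs h)))
  refine ⟨g, fun F b c G e => ?_⟩
  obtain ⟨M, hM⟩ := eventually_atTop.1 (k2 ⟨F, b, c⟩ G e)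
  obtain ⟨n, n1, n2⟩ := not_not.1 (fun x => hg ⟨_, ⟨⟨F, b, c⟩, rfl⟩, x⟩) M
  exact ⟨n, hM n n1 n le_rfl _ (by simp [n2])⟩

theorem small_gw {Z Y : Type} [TopologicalSpace Z] [TopologicalSpace Y] (hY : Gam Y)
    {A : Set Z} (hA : #A < gw) (hd : ∀ H : Set (ℕ → ℕ), #H ≤ #A →
      ∃ g : ℕ → ℕ, ∀ h ∈ H, ∃ᶠ n in atTop, h n ≤ g n) : Prel (A ×ˢ (Set.univ : Set Y)) := by
  rcases A.finite_or_infinite with h | h
  · exact small_fin hY h
  refine prel_of fun U U1 U2 => ?_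
  have a : ∀ F : {F : Set Z // F.Finite ∧ F ⊆ A}, GroupwiseDense {B | B.Infinite ∧ ∃ h : ℕ → ℕ,
      ∀ G : Set Y, G.Finite → ∀ᶠ n in atTop, ∀ j ∈ B, h n ≤ j → F.1 ×ˢ G ⊆ U n j} := fun F => by
    refine ⟨fun _ h => h.1, fun B ⟨_, h, b⟩ B' c e => ⟨c, ?_⟩, fun d hd => ?_⟩
    · obtain ⟨N, hN⟩ := e.bddAbove
      refine ⟨fun n => max (h n) (N + 1), fun G hG => (b G hG).mono fun n hn j j1 j2 => ?_⟩
      refine hn j (by_contra fun x => ?_) (le_of_max_le_left j2)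
      have := hN ⟨j1, x⟩
      have := le_of_max_le_right j2
      omega
    · obtain ⟨k, k1, k2⟩ := sel hY U1 F.2.1 (fun n a ha => U2 n a (F.2.2 ha)) d hd
      have b : (range k).Infinite := infinite_of_not_bddAbove fun ⟨N, hN⟩ => by
        have := (k1 (N + 1)).trans (hN ⟨_, rfl⟩)
        omega
      refine ⟨_, b, (b.image hd.injective.injOn).mono (forall_mem_image.2 fun i hi =>
        mem_biUnion hi ⟨le_rfl, hd (by omega)⟩),
        fun n => (Finset.range n).sup fun m => d (k m + 1), fun G hG => ?_⟩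
      obtain ⟨M, hM⟩ := eventually_atTop.1 (k2 G hG)
      filter_upwards [eventually_ge_atTop M] with n hn j j1 j2
      obtain ⟨_, ⟨m, rfl⟩, hm⟩ := mem_iUnion₂.1 j1
      have : n ≤ m := not_lt.1 fun e => hm.2.not_ge ((Finset.le_sup
        (f := fun m => d (k m + 1)) (Finset.mem_range.2 e)).trans j2)
      exact hM m (hn.trans this) n this j hm
  obtain ⟨B, hB⟩ := nonempty_iff_ne_empty.2 fun e => hA.not_ge
    ((gw_le (forall_mem_range.2 a) e).trans (mk_range_le.trans (mk_fs h)))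
  choose H hH using fun F => (hB _ ⟨F, rfl⟩).2
  obtain ⟨g, hg⟩ := hd (range H) (mk_range_le.trans (mk_fs h))
  choose g' g1 g2 using fun n =>
    (hB _ ⟨⟨∅, finite_empty, empty_subset _⟩, rfl⟩).1.exists_gt (g n)
  refine ⟨g', fun F b c G e => ?_⟩
  obtain ⟨n, n1, n2⟩ := ((hg _ ⟨⟨F, b, c⟩, rfl⟩).and_eventually (hH ⟨F, b, c⟩ G e)).exists
  exact ⟨n, n2 _ (g1 n) (n1.trans (g2 n).le)⟩

theorem of_dom {c : Cardinal.{0}} (h : c < dom) (H : Set (ℕ → ℕ)) (hH : #H ≤ c) :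
    ∃ g : ℕ → ℕ, ∀ h ∈ H, ∃ᶠ n in atTop, h n ≤ g n := by
  by_contra! a
  refine h.not_ge ((dom_le fun f => ?_).trans hH)
  obtain ⟨g, g1, g2⟩ := a f
  exact ⟨g, g1, g2.mono fun n hn => hn.le⟩

theorem aleph1_le : ℵ_ 1 ≤ covM := by
  refine le_csInf ⟨_, range singleton, forall_mem_range.2 fun g => ?_,
    eq_univ_of_forall fun g => ⟨_, ⟨g, rfl⟩, rfl⟩, rfl⟩ ?_
  · rw [IsMeagre]
    refine residual_of_dense_open isClosed_singleton.isOpen_compl fun f => ?_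
    refine mem_closure_of_tendsto (f := fun n => update f n (g n + 1)) (b := atTop) ?_
      (.of_forall fun n e => by simpa using congrFun e n)
    refine tendsto_pi_nhds.2 fun j => tendsto_const_nhds.congr' ?_
    filter_upwards [eventually_gt_atTop j] with n hn
    simp [hn.ne]
  · rintro _ ⟨𝒜, a, b, rfl⟩
    rw [← succ_aleph0, Order.succ_le_iff, ← not_le]
    intro h
    have := (countable_bInter_mem (le_aleph0_iff_set_countable.1 h)).2 a
    obtain ⟨g, hg⟩ := (dense_of_mem_residual this).nonempty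
    obtain ⟨M, c, d⟩ := b.ge (mem_univ g)
    exact mem_iInter₂.1 hg M c d

end Pool.Agent.H33.FinUnb
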