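import Mathlib
import Pool.Agent.H33.FinUnb

/-!
Reduction of products with fin-unbounded sets to products with small sets.
-/

set_option autoImplicit false

open Set Filter Topology Function Cardinal

namespace Pool.Agent.H33.FinUnb

/-- `κ`-fin-unbounded sets, with intervals. -/
def FinUnbInt (κ : Cardinal.{0}) (X : Set C) : Prop :=
  (∀ x ∈ X, {j | x j = true}.Infinite) ∧ κ ≤ #X ∧ ∀ d : ℕ → ℕ, StrictMono d →
    ∃ S ⊆ X, #S < κ ∧ ∀ F : Set C, F.Finite → F ⊆ X \ S →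
      {n | ∀ x ∈ F, ∀ j ∈ Ico (d n) (d (n + 1)), x j = false}.Infinite

/-- The increasing enumeration of an infinite subset of `ω`. -/
noncomputable def enumOf (x : C) (n : ℕ) : ℕ := Nat.nth (fun j => x j = true) n

/-- `κ`-fin-unbounded sets, with pointwise minima of enumerations. -/
def FinUnbMin (κ : Cardinal.{0}) (X : Set C) : Prop :=
  (∀ x ∈ X, {j | x j = true}.Infinite) ∧ κ ≤ #X ∧ ∀ d : ℕ → ℕ, StrictMono d →
    ∃ S ⊆ X, #S < κ ∧ ∀ F : Set C, F.Finite → F.Nonempty → F ⊆ X \ S →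
      {n | d n ≤ sInf ((fun x => enumOf x n) '' F)}.Infinite

/-- Productively `S₁(Γ, Ω)` for metric spaces. -/
def Productive (T : Type) [TopologicalSpace T] : Prop :=
  ∀ (Y : Type) [MetricSpace Y] [Infinite Y], S1GammaOmega Y → S1GammaOmega (T × Y)

/-- `κ ≤ pr(S₁(Γ, Ω))`: every infinite Tychonoff space of size below `κ` is productive. -/
def LePr (κ : Cardinal.{0}) : Prop :=
  ∀ (T : Type) [TopologicalSpace T] [T35Space T] [Infinite T], #T < κ → Productive T

def FU (κ : Cardinal.{0}) (X : Set C) : Prop :=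
  (∀ x ∈ X, {j | x j = true}.Infinite) ∧ κ ≤ #X ∧ ∀ h : ℕ → ℕ,
    ∃ S ⊆ X, #S < κ ∧ ∀ F : Set C, F.Finite → F ⊆ X \ S →
      ∃ᶠ k in atTop, ∀ x ∈ F, ∀ j ∈ Ico k (h k), x j = false

theorem steps (h : ℕ → ℕ) : ∃ d : ℕ → ℕ, StrictMono d ∧ ∀ n, h (d n) ≤ d (n + 1) :=
  ⟨fun n => Nat.rec 0 (fun _ a => max (h a) (a + 1)) n,
    strictMono_nat_of_lt_succ fun _ => lt_max_of_lt_right (Nat.lt_succ_self _),
    fun _ => le_max_left _ _⟩

theorem fu_of_int {κ : Cardinal.{0}} {X : Set C} (h : FinUnbInt κ X) : FU κ X := by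
  refine ⟨h.1, h.2.1, fun f => ?_⟩
  obtain ⟨d, d1, d2⟩ := steps f
  obtain ⟨S, a, b, c⟩ := h.2.2 d d1
  refine ⟨S, a, b, fun F e g => frequently_atTop.2 fun N => ?_⟩
  obtain ⟨n, n1, n2⟩ := (c F e g).exists_gt N
  exact ⟨d n, n2.le.trans d1.le_apply, fun x hx j hj => n1 x hx j ⟨hj.1, hj.2.trans_le (d2 n)⟩⟩

theorem int_of_min {κ : Cardinal.{0}} {X : Set C} (h : FinUnbMin κ X) : FinUnbInt κ X := by
  classical
  refine ⟨h.1, h.2.1, fun d hd => ?_⟩
  obtain ⟨S, a, b, c⟩ := h.2.2 (fun n => d (n * n + n + 1)) fun i j e => hd (by nlinarith)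
  refine ⟨S, a, b, fun F e g => ?_⟩
  rcases F.eq_empty_or_nonempty with rfl | k
  · simpa using infinite_univ
  refine infinite_of_forall_exists_gt fun N => ?_
  obtain ⟨n, n1, n2⟩ := (c F e k g).exists_gt (max N e.toFinset.card)
  by_contra! hc
  have : ∀ i : Finset.Icc n (n * n + n), ∃ p : e.toFinset × Fin n,
      enumOf p.1 p.2 ∈ Ico (d i) (d (i + 1)) := fun i => by
    have i1 := Finset.mem_Icc.1 i.2
    have := mt (hc i) (by omega)
    simp only [mem_ofPred_eq, not_forall] at this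
    obtain ⟨x, hx, j, hj, t⟩ := this
    have hi := h.1 x (g hx).1
    obtain ⟨m, rfl⟩ := (Nat.range_nth_of_infinite hi).ge (show x j = true by simpa using t)
    have u : d (n * n + n + 1) ≤ enumOf x n := le_trans n1 (Nat.sInf_le ⟨x, hx, rfl⟩)
    have v : m < n := (Nat.nth_strictMono hi).lt_iff_lt.1
      (hj.2.trans_le ((hd.monotone (by omega)).trans u))
    exact ⟨(⟨x, e.mem_toFinset.2 hx⟩, ⟨m, v⟩), hj⟩
  choose p hp using this
  have := Fintype.card_le_of_injective p fun i j t => Subtype.ext (by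
    have a := hp i
    have b := hp j
    rw [t] at a
    have c := hd.lt_iff_lt.1 (a.1.trans_lt b.2)
    have d := hd.lt_iff_lt.1 (b.1.trans_lt a.2)
    omega)
  simp only [Fintype.card_coe, Nat.card_Icc, Fintype.card_prod, Fintype.card_fin] at this
  have t : e.toFinset.card * n ≤ n * n := Nat.mul_le_mul_right _ (by omega)
  omega

theorem next {x : C} (h : {j | x j = true}.Infinite) : ∃ g : ℕ → ℕ, ∀ k, k ≤ g k ∧ x (g k) = true := by
  choose g a b using h.exists_gt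
  exact ⟨g, fun k => ⟨(b k).le, a k⟩⟩

theorem unc {κ : Cardinal.{0}} {X : Set C} (hκ : ℵ₀ ≤ κ) (h : FU κ X) : ℵ₀ < κ := by
  refine hκ.lt_of_ne fun e => ?_
  subst e
  have hX : X.Infinite := infinite_coe_iff.1 (aleph0_le_mk_iff.1 h.2.1)
  let x := hX.natEmbedding
  choose g hg using fun i => next (h.1 _ (x i).2)
  obtain ⟨S, -, b, c⟩ := h.2.2 fun k => (Finset.range k).sup (fun i => g i k) + 1
  obtain ⟨i, hi⟩ := ((lt_aleph0_iff_set_finite.1 b).preimage
    (Subtype.val_injective.comp x.injective).injOn).exists_notMem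
  obtain ⟨k, k1, k2⟩ := ((c {(x i).1} (finite_singleton _)
    (singleton_subset_iff.2 ⟨(x i).2, hi⟩)).and_eventually (eventually_gt_atTop i)).exists
  have := k1 _ rfl (g i k) ⟨(hg i k).1, Nat.lt_succ_of_le
    (Finset.le_sup (f := fun i => g i k) (Finset.mem_range.2 k2))⟩
  simp [(hg i k).2] at this

theorem small_union {κ : Cardinal.{0}} (hκ : κ.IsRegular) {ι α : Type} (h : #ι < κ)
    (S : ι → Set α) (hS : ∀ i, #(S i) < κ) : #(⋃ i, S i) < κ :=
  mk_iUnion_le_sum_mk.trans_lt (sum_lt_of_isRegular hκ h hS)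

theorem nondom {κ : Cardinal.{0}} {X : Set C} (hκ : κ.IsRegular) (h : FU κ X) (H : Set (ℕ → ℕ))
    (hH : #H < κ) : ∃ g : ℕ → ℕ, ∀ h ∈ H, ∃ᶠ n in atTop, h n ≤ g n := by
  choose S S1 S2 S3 using h.2.2
  obtain ⟨x, x1, x2⟩ := not_subset.1 fun e => (small_union hκ hH (fun f : H => S f.1)
    fun f => S2 _).not_ge (h.2.1.trans (mk_le_mk_of_subset e))
  obtain ⟨g, hg⟩ := next (h.1 x x1)
  refine ⟨g, fun f hf => (S3 f {x} (finite_singleton _) (singleton_subset_iff.2
    ⟨x1, fun e => x2 (mem_iUnion.2 ⟨⟨f, hf⟩, e⟩)⟩)).mono fun k hk => not_lt.1 fun e => ?_⟩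
  have := hk x rfl (g k) ⟨(hg k).1, e⟩
  simp [(hg k).2] at this

theorem fin_count : FinSets.Countable :=
  ((countable_ofPred_finite_subset (countable_univ (α := ℕ))).preimage_of_injOn
    (f := fun x : C => {j | x j = true}) fun x _ y _ e => funext fun j => by
      have := Set.ext_iff.1 e j
      simpa using this).mono fun x hx => And.intro hx (subset_univ _)

theorem fin_inf : FinSets.Infinite :=
  infinite_of_injective_forall_mem (f := fun n j : ℕ => decide (j = n))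
    (fun a b e => by simpa using congrFun e a) fun n => by simp [FinSets]

theorem mk_SF {κ : Cardinal.{0}} (hκ : ℵ₀ < κ) {S : Set C} (h : #S < κ) :
    #(S ∪ FinSets : Set C) < κ :=
  (mk_union_le _ _).trans_lt (add_lt_of_lt hκ.le h
    ((le_aleph0_iff_set_countable.2 fin_count).trans_lt hκ))

theorem cyl {u : Set C} (hu : IsOpen u) {s : C} (hs : s ∈ u) :
    ∀ᶠ m in atTop, ∀ x : C, (∀ j < m, x j = s j) → x ∈ u := by
  obtain ⟨I, t, a, b⟩ := isOpen_pi_iff.1 hu s hs
  filter_upwards [eventually_gt_atTop (I.sup id)] with m hm x hx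
  exact b fun j hj => hx j ((Finset.le_sup (f := id) hj).trans_lt hm) ▸ (a j hj).2

theorem low (k : ℕ) : {s : C | ∀ j, k ≤ j → s j = false}.Finite :=
  Finite.of_injOn (f := fun s (i : Fin k) => s i) (mapsTo_univ _ _) (fun _ a _ b e =>
    funext fun j => (lt_or_ge j k).elim (fun h => congrFun e ⟨j, h⟩)
      fun h => (a j h).trans (b j h).symm) finite_univ

theorem step {Y : Type} [TopologicalSpace Y] (hY : Gam Y) {U : ℕ → Set (C × Y)}
    (U1 : ∀ n, IsOpen (U n)) {F₀ : Set C} (h0 : F₀.Finite)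
    (U2 : ∀ F : Set C, F.Finite → F ⊆ FinSets → ∀ G : Set Y, G.Finite →
      ∃ n, (F₀ ∪ F) ×ˢ G ⊆ U n) :
    ∃ h : ℕ → ℕ, ∀ G : Set Y, G.Finite → ∀ᶠ k in atTop, ∃ n,
      (F₀ ∪ {x | ∀ j ∈ Ico k (h k), x j = false}) ×ˢ G ⊆ U n := by
  obtain ⟨W, W1, W2⟩ := hY (fun k => {W | IsOpen W ∧ ∃ m n,
    (F₀ ∪ {x | ∀ j ∈ Ico k m, x j = false}) ×ˢ W ⊆ U n}) (fun _ _ h => h.1) fun k G hG => by
      obtain ⟨n, hn⟩ := U2 _ (low k) (fun s hs => (finite_Iio k).subset fun j hj =>
        mem_Iio.2 (not_le.1 fun e => by simp [hs j e] at hj)) G hG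
      obtain ⟨u, v, a, b, c, d, e⟩ := generalized_tube_lemma (h0.union (low k)).isCompact
        hG.isCompact (U1 n) hn
      obtain ⟨m, hm⟩ := ((eventually_all_finite (low k)).2 fun s hs => cyl a (c (.inr hs))).exists
      refine ⟨v, ⟨b, m, n, (prod_mono_left (union_subset (subset_union_left.trans c)
        fun x hx => ?_)).trans e⟩, d⟩
      refine hm (fun j => if j < k then x j else false) (fun j hj => by simp [hj.not_gt]) x
        fun j hj => ?_
      split_ifs with h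
      · rfl
      · exact hx j ⟨not_lt.1 h, hj⟩
  choose h n hn using fun k => (W1 k).2
  exact ⟨h, fun G hG => ((eventually_all_finite hG).2 fun y _ => W2 y).mono fun k hk =>
    ⟨n k, (prod_mono_right hk).trans (hn k)⟩⟩

theorem red {Y : Type} [TopologicalSpace Y] (hY : Gam Y) {κ : Cardinal.{0}} {X : Set C}
    (hκ : κ.IsRegular) (hX : FU κ X)
    (hS : ∀ S ⊆ X, #S < κ → Prel ((S ∪ FinSets) ×ˢ (Set.univ : Set Y))) :
    Prel ((X ∪ FinSets) ×ˢ (Set.univ : Set Y)) := prel_of fun U U1 U2 => by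
  have k0 := unc hκ.aleph0_le hX
  choose T T1 T2 T3 using hX.2.2
  have key : ∀ (i : ℕ) (S : {S // S ⊆ X ∧ #S < κ}), ∃ (g : ℕ → ℕ) (S' : {S // S ⊆ X ∧ #S < κ}),
      S.1 ⊆ S'.1 ∧ ∀ F : Set C, F.Finite → F ⊆ S.1 ∪ FinSets ∪ X \ S'.1 → ∀ G : Set Y,
        G.Finite → ∃ n, F ×ˢ G ⊆ U (i.pair n) (g n) := fun i S => by
    obtain ⟨g, hg⟩ := hS S.1 S.2.1 S.2.2 (fun n => U (i.pair n)) (fun _ => U1 _)
      fun n z hz => U2 _ z.1 (union_subset_union_left _ S.2.1 hz.1) z.2
    choose h hh using fun F₀ : {F : Set C // F.Finite ∧ F ⊆ S.1 ∪ FinSets} =>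
      step hY (fun n => U1 (i.pair n) (g n)) F₀.2.1 fun F a b G c =>
        hg _ ((F₀.2.1.union a).prod c) (prod_mono
          (union_subset F₀.2.2 (b.trans subset_union_right)) (subset_univ _))
    refine ⟨g, ⟨S.1 ∪ ⋃ F₀, T (h F₀), union_subset S.2.1 (iUnion_subset fun _ => T1 _),
      (mk_union_le _ _).trans_lt (add_lt_of_lt k0.le S.2.2 (small_union hκ
        ((mk_fs (fin_inf.mono subset_union_right)).trans_lt (mk_SF k0 S.2.2)) _ fun _ => T2 _))⟩,
      subset_union_left, fun F a b G c => ?_⟩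
    let F₀ : {F : Set C // F.Finite ∧ F ⊆ S.1 ∪ FinSets} :=
      ⟨F ∩ (S.1 ∪ FinSets), a.inter_of_left _, inter_subset_right⟩
    obtain ⟨k, k1, n, k2⟩ := ((T3 (h F₀) (F \ (S.1 ∪ FinSets)) a.sdiff fun x hx =>
      ⟨((b hx.1).resolve_left hx.2).1, fun e => ((b hx.1).resolve_left hx.2).2
        (.inr (mem_iUnion.2 ⟨F₀, e⟩))⟩).and_eventually (hh F₀ G c)).exists
    refine ⟨n, (prod_mono_left fun x hx => ?_).trans k2⟩
    rcases em (x ∈ S.1 ∪ FinSets) with e | e
    · exact .inl ⟨hx, e⟩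
    · exact .inr (k1 x ⟨hx, e⟩)
  choose g nx n1 n2 using key
  let S : ℕ → {S // S ⊆ X ∧ #S < κ} := fun i =>
    Nat.rec ⟨∅, empty_subset _, by simpa using hκ.pos⟩ nx i
  have mono : Monotone fun i => (S i).1 := monotone_nat_of_le_succ fun i => n1 i (S i)
  refine ⟨fun N => g N.unpair.1 (S N.unpair.1) N.unpair.2, fun F a b G c => ?_⟩
  obtain ⟨i, hi⟩ := ((eventually_all_finite a).2 fun x _ =>
    show ∀ᶠ i in atTop, x ∈ (S (i + 1)).1 → x ∈ (S i).1 by
      rcases em (∃ i, x ∈ (S i).1) with ⟨i, h⟩ | h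
      · filter_upwards [eventually_ge_atTop i] with j hj _ using mono hj h
      · exact .of_forall fun i e => (h ⟨i + 1, e⟩).elim).exists
  obtain ⟨n, hn⟩ := n2 i (S i) F a (fun x hx => by
    rcases em (x ∈ (S (i + 1)).1) with e | e
    · exact .inl (.inl (hi x hx e))
    · exact (b hx).elim (fun t => .inr ⟨t, e⟩) fun t => .inl (.inr t)) G c
  exact ⟨i.pair n, by simpa using hn⟩

theorem red' {Y : Type} [TopologicalSpace Y] [T1Space Y] (hY : GammaProp Y) {κ : Cardinal.{0}}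
    {X : Set C} (hκ : κ.IsRegular) (hX : FinUnbInt κ X)
    (hS : ∀ S ⊆ X, #S < κ → S1GammaOmega ((S ∪ FinSets : Set C) × Y)) :
    S1GammaOmega ((X ∪ FinSets : Set C) × Y) :=
  (prel_prod _).2 (red (gam_of hY) hκ (fu_of_int hX) fun S a b => (prel_prod _).1 (hS S a b))

theorem card_case {Y : Type} [TopologicalSpace Y] [T1Space Y] (hY : GammaProp Y)
    {κ : Cardinal.{0}} {X : Set C} (hκ : κ.IsRegular) (hX : FinUnbInt κ X)
    (h : κ ≤ ℵ_ 1 ∨ κ ≤ covM ∨ κ ≤ gw) : S1GammaOmega ((X ∪ FinSets : Set C) × Y) := by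
  refine red' hY hκ hX fun S _ b => (prel_prod _).2 ?_
  have a := mk_SF (unc hκ.aleph0_le (fu_of_int hX)) b
  rcases h with h | h | h
  · exact small_cov (gam_of hY) (a.trans_le (h.trans aleph1_le))
  · exact small_cov (gam_of hY) (a.trans_le h)
  · exact small_gw (gam_of hY) (a.trans_le h) fun H c => nondom hκ (fu_of_int hX) H (c.trans_lt a)

theorem le_dom {κ : Cardinal.{0}} {X : Set C} (hκ : κ.IsRegular) (hX : FinUnbInt κ X) :
    κ ≤ dom := by
  refine le_csInf ⟨_, Set.univ, fun f => ⟨f, trivial, .of_forall fun _ => le_rfl⟩, rfl⟩ ?_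
  rintro _ ⟨D, a, rfl⟩
  by_contra! h
  obtain ⟨g, hg⟩ := nondom hκ (fu_of_int hX) _
    ((mk_image_le (f := fun (f : ℕ → ℕ) n => f n + 1)).trans_lt h)
  obtain ⟨f, b, c⟩ := a g
  obtain ⟨n, n1, n2⟩ := ((hg _ ⟨f, b, rfl⟩).and_eventually c).exists
  exact absurd (n1.trans n2) (by simp)

theorem s1_of_gam {Y : Type} [TopologicalSpace Y] (hY : Gam Y) : S1GammaOmega Y := by
  rw [prel_iff (e := fun y : Y => ((), y)) (isInducing_prodMkRight _)]
  convert small_fin (Z := Unit) hY finite_univ using 1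
  ext ⟨⟨⟩, y⟩
  simp

theorem gam_image {Y Y' : Type} [TopologicalSpace Y] [TopologicalSpace Y'] (hY : Gam Y)
    {f : Y → Y'} (h1 : Continuous f) (h2 : Surjective f) : Gam Y' := fun 𝒲 a b => by
  obtain ⟨W, W1, W2⟩ := hY (fun k => preimage f '' 𝒲 k) (fun k => forall_mem_image.2 fun W hW =>
    (a k W hW).preimage h1) fun k F hF => by
      obtain ⟨W, c, d⟩ := b k _ (hF.image f)
      exact ⟨_, ⟨W, c, rfl⟩, image_subset_iff.1 d⟩
  choose V V1 V2 using W1
  refine ⟨V, V1, h2.forall.2 fun y => (W2 y).mono fun k hk => ?_⟩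
  rwa [← V2] at hk

theorem pn_prod {Y : Type} [TopologicalSpace Y] [T1Space Y] [PerfectlyNormalSpace Y] [Infinite Y]
    (hY : Gam Y) {T : Set C} (h : Productive T) : Prel (T ×ˢ (Set.univ : Set Y)) := by
  intro U U1 U2
  choose z z1 using fun (s : Set Y) (hs : IsOpen s) =>
    perfectlyNormalSpace_iff_forall_isClosed_preimage_zero.1 inferInstance sᶜ hs.isClosed_compl
  have z2 : ∀ s hs y, z s hs y ≠ 0 ↔ y ∈ s := fun s hs y => by
    simpa [not_iff_comm] using Set.ext_iff.1 (z1 s hs).1 y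
  obtain ⟨B, B1, -, B2⟩ := TopologicalSpace.exists_countable_basis C
  have := B1.to_subtype
  let y := Infinite.natEmbedding Y
  let p : Y → (B × ℕ × ℕ) ⊕ ℕ → ℝ := fun w => Sum.elim (fun i =>
    z (interior {w | ∀ a ∈ i.1.1, (a, w) ∈ U i.2.1 i.2.2}) isOpen_interior w)
    fun i => z {y i}ᶜ isOpen_compl_singleton w
  have p1 : Continuous p := continuous_pi fun i => by
    rcases i with i | i <;> exact map_continuous _
  have : Infinite (range p) := infinite_coe_iff.2 (infinite_of_injective_forall_mem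
    (f := fun i => p (y i)) (fun i j e => by
      have := congrFun e (.inr i)
      by_contra c
      exact (z2 _ isOpen_compl_singleton _).2 (fun t => c (y.injective t).symm)
        (this.symm.trans (not_not.1 fun t => (z2 _ isOpen_compl_singleton _).1 t rfl)))
    fun i => mem_range_self _)
  have k := (prel_prod _).1 (@h (range p) (TopologicalSpace.metrizableSpaceMetric _) _
    (s1_of_gam (gam_image hY (f := rangeFactorization p) (p1.subtype_mk _)
      rangeFactorization_surjective)))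
  obtain ⟨g, hg⟩ := k (fun n j => ⋃ b : B, b.1 ×ˢ {w : range p | w.1 (.inl (b, n, j)) ≠ 0})
    (fun n j => isOpen_iUnion fun b => (B2.isOpen b.2).prod
      (isOpen_ne_fun ((continuous_apply _).comp continuous_subtype_val) continuous_const)) fun n ⟨a, _, w, rfl⟩ hz =>
      (U2 n (a, w) ⟨hz.1, trivial⟩).mono fun j hj => by
        obtain ⟨u, v, c, d, e, f, t⟩ := isOpen_prod_iff.1 (U1 n j) a w hj
        obtain ⟨b, b1, b2, b3⟩ := B2.exists_subset_of_mem_open e c
        exact mem_iUnion.2 ⟨⟨b, b1⟩, b2, (z2 _ isOpen_interior _).2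
          (interior_maximal (t := v) (by
            intro w' hw a' ha
            exact t (mk_mem_prod (b3 ha) hw)) d f)⟩
  refine ⟨g, fun F a b => ?_⟩
  obtain ⟨n, hn⟩ := hg _ (a.image (Prod.map id (rangeFactorization p)))
    (forall_mem_image.2 fun w hw => ⟨(b hw).1, trivial⟩)
  refine ⟨n, fun w hw => ?_⟩
  obtain ⟨c, c1, c2⟩ := mem_iUnion.1 (hn ⟨w, hw, rfl⟩)
  exact interior_subset ((z2 _ isOpen_interior _).1 c2) _ c1

theorem pn_case {Y : Type} [TopologicalSpace Y] [T1Space Y] [PerfectlyNormalSpace Y] [Infinite Y]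
    (hY : GammaProp Y) {κ : Cardinal.{0}} {X : Set C} (hκ : κ.IsRegular) (hX : FinUnbInt κ X)
    (h : LePr κ) : S1GammaOmega ((X ∪ FinSets : Set C) × Y) := by
  refine red' hY hκ hX fun S _ b => (prel_prod _).2 (pn_prod (gam_of hY) ?_)
  have := (fin_inf.mono (subset_union_right (s := S))).to_subtype
  exact h _ (mk_SF (unc hκ.aleph0_le (fu_of_int hX)) b)

end Pool.Agent.H33.FinUnb
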