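import Mathlib

/-!
Paracompactness from countably many closed layers, and a scalar invariant Graev type
pseudo-metric on finitely supported real functions on a metric space.
-/

open Set Filter Topology

namespace Pool.Agent.H33.FreeLin

universe u v

theorem paracompact_of_layers {L : Type u} {M : Type v} [TopologicalSpace L]
    [CompletelyRegularSpace L] [TopologicalSpace M] [ParacompactSpace M] [NormalSpace M]
    (π : L → M) (hπ : Continuous π) (hs : Function.Surjective π) (D : ℕ → Set M)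
    (hD : ∀ j, IsClosed (D j)) (hcov : ∀ x, ∃ j, π x ∈ D j)
    (hind : ∀ j x, π x ∈ D j → ∀ U ∈ 𝓝 x, ∃ O ∈ 𝓝 (π x), ∀ y, π y ∈ D j → π y ∈ O → y ∈ U) :
    ParacompactSpace L := by
  refine ⟨fun α s hso hsu => ?_⟩
  have h1 : ∀ x : L, ∃ a : α, ∃ g : L → ℝ, Continuous g ∧ (∀ y, 0 ≤ g y) ∧ 0 < g x ∧
      ∀ y, 0 < g y → y ∈ s a := by
    intro x
    obtain ⟨a, ha⟩ : ∃ a, x ∈ s a := mem_iUnion.1 (hsu ▸ mem_univ x)
    obtain ⟨f, hf, hx, hK⟩ := CompletelyRegularSpace.completely_regular x (s a)ᶜ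
      (hso a).isClosed_compl (not_not.2 ha)
    refine ⟨a, fun y => 1 - (f y : ℝ), continuous_const.sub (continuous_subtype_val.comp hf),
      fun y => sub_nonneg.2 (f y).2.2, by simp [hx], fun y hy => ?_⟩
    by_contra hc
    have := hK hc
    simp only [Pi.one_apply] at this
    simp [this] at hy
  choose a g hgc hg0 hgx hgs using h1
  have h2 : ∀ j, ∃ φ : L → L → ℝ, (∀ x, Continuous (φ x)) ∧ (∀ x y, 0 ≤ φ x y) ∧
      (LocallyFinite fun x => Function.support (φ x)) ∧ (∀ x y, 0 < φ x y → y ∈ s (a x)) ∧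
      ∀ y, π y ∈ D j → ∃ x, 0 < φ x y := by
    intro j
    have h3 : ∀ x : L, ∃ O : Set M, IsOpen O ∧ (π x ∈ D j → π x ∈ O) ∧
        ∀ y, π y ∈ D j → π y ∈ O → 0 < g x y := by
      intro x
      by_cases hx : π x ∈ D j
      · obtain ⟨O, hO, hO'⟩ := hind j x hx {y | 0 < g x y}
          ((isOpen_lt continuous_const (hgc x)).mem_nhds (hgx x))
        exact ⟨interior O, isOpen_interior, fun _ => mem_interior_iff_mem_nhds.2 hO,
          fun y hy hy' => hO' y hy (interior_subset hy')⟩
      · exact ⟨∅, isOpen_empty, fun h => absurd h hx, fun y _ hy => absurd hy (notMem_empty _)⟩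
    choose O hOo hOx hOg using h3
    obtain ⟨ρ, hρ⟩ := PartitionOfUnity.exists_isSubordinate (hD j) O hOo (by
      intro m hm
      obtain ⟨x, rfl⟩ := hs m
      exact mem_iUnion.2 ⟨x, hOx x hm⟩)
    refine ⟨fun x y => ρ x (π y) * g x y, fun x => ((ρ x).continuous.comp hπ).mul (hgc x),
      fun x y => mul_nonneg (ρ.nonneg _ _) (hg0 _ _), ?_, ?_, ?_⟩
    · refine (ρ.locallyFinite.preimage_continuous hπ).subset fun x y hy => ?_
      exact left_ne_zero_of_mul hy
    · intro x y hy
      apply hgs x y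
      exact lt_of_le_of_ne (hg0 x y) (right_ne_zero_of_mul hy.ne').symm
    · intro y hy
      obtain ⟨x, hx⟩ := ρ.exists_pos hy
      exact ⟨x, mul_pos hx (hOg x y hy (hρ x (subset_tsupport _ hx.ne')))⟩
  choose φ hφc hφ0 hφl hφs hφD using h2
  let G : ℕ → L → ℝ := fun j y => ∑ᶠ x, φ j x y
  have hGc : ∀ j, Continuous (G j) := fun j => continuous_finsum (hφc j) (hφl j)
  have hGle : ∀ j x y, φ j x y ≤ G j y := fun j x y =>
    single_le_finsum x ((hφl j).point_finite y) fun x' => hφ0 j x' y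
  have hGpos : ∀ j y, 0 < G j y → ∃ x, 0 < φ j x y := by
    intro j y hy
    by_contra hc
    push Not at hc
    have : ∀ x, φ j x y = 0 := fun x => le_antisymm (hc x) (hφ0 j x y)
    simp [G, this] at hy
  have hex : ∀ y, ∃ j, 0 < G j y := fun y => by
    obtain ⟨j, hj⟩ := hcov y
    obtain ⟨x, hx⟩ := hφD j y hj
    exact ⟨j, hx.trans_le (hGle j x y)⟩
  refine ⟨L × ULift.{u} ℕ, fun p => {y | 0 < φ p.2.down p.1 y} ∩
    ⋂ l ∈ Finset.range p.2.down, {y | G l y < 1 / ((p.2.down : ℝ) + 1)}, ?_, ?_, ?_, ?_⟩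
  · intro p
    exact (isOpen_lt continuous_const (hφc _ _)).inter
      (isOpen_biInter_finset fun l _ => isOpen_lt (hGc l) continuous_const)
  · classical
    refine eq_univ_of_forall fun y => ?_
    obtain ⟨x, hx⟩ := hGpos _ y (Nat.find_spec (hex y))
    refine mem_iUnion.2 ⟨(x, ⟨Nat.find (hex y)⟩), hx, ?_⟩
    simp only [mem_iInter, Finset.mem_range]
    intro l hl
    have := Nat.find_min (hex y) hl
    push Not at this
    exact this.trans_lt Nat.one_div_pos_of_nat
  · intro y
    obtain ⟨l, hl⟩ := hex y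
    obtain ⟨J, hJ⟩ := exists_nat_one_div_lt hl
    choose t ht htf using fun j => hφl j y
    refine ⟨{z | 1 / ((J : ℝ) + 1) < G l z} ∩ ⋂ j ∈ Finset.range (J + l + 1), t j,
      inter_mem ((isOpen_lt continuous_const (hGc l)).mem_nhds hJ)
        ((biInter_finset_mem _).2 fun j _ => ht j), ?_⟩
    refine (((Finset.range (J + l + 1)).finite_toSet.biUnion fun j _ =>
      (htf j).image (fun x => ((x, ⟨j⟩) : L × ULift.{u} ℕ)))).subset ?_
    rintro ⟨x, ⟨j⟩⟩ ⟨z, ⟨hz1, hz2⟩, hz3, hz4⟩
    simp only [mem_iInter, Finset.mem_range, mem_ofPred_eq] at hz1 hz2 hz3 hz4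
    have hj : j < J + l + 1 := by
      by_contra hc
      push Not at hc
      have h5 := hz2 l (by omega)
      have h6 : 1 / ((j : ℝ) + 1) ≤ 1 / ((J : ℝ) + 1) :=
        Nat.one_div_le_one_div (by omega)
      linarith
    exact mem_biUnion (Finset.mem_coe.2 (Finset.mem_range.2 hj))
      ⟨x, ⟨z, hz1.ne', hz4 j hj⟩, rfl⟩
  · intro p
    exact ⟨a p.1, fun y hy => hφs _ _ y hy.1⟩

section Norm

variable {X : Type u} [PseudoMetricSpace X]

/-- value of a word -/
noncomputable def val (l : List (ℝ × X × X)) : X →₀ ℝ :=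
  (l.map fun t => t.1 • (Finsupp.single t.2.1 (1 : ℝ) - Finsupp.single t.2.2 1)).sum

/-- length of a word -/
noncomputable def len (l : List (ℝ × X × X)) : ENNReal :=
  (l.map fun t => edist t.2.1 t.2.2).sum

/-- the scalar invariant norm -/
noncomputable def N (v : X →₀ ℝ) : ENNReal := ⨅ (l : List (ℝ × X × X)) (_ : val l = v), len l

theorem N_le {v : X →₀ ℝ} (l : List (ℝ × X × X)) (h : val l = v) : N v ≤ len l :=
  iInf₂_le l h

theorem N_zero : N (0 : X →₀ ℝ) = 0 :=
  le_antisymm ((N_le [] (by simp [val])).trans (by simp [len])) zero_le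

theorem N_smul (r : ℝ) (v : X →₀ ℝ) : N (r • v) ≤ N v := by
  refine le_iInf₂ fun l hl => ?_
  refine (N_le (l.map fun t => (r * t.1, t.2)) ?_).trans (le_of_eq ?_)
  · rw [← hl]
    simp only [val, List.map_map, List.smul_sum]
    congr 1
    refine List.map_congr_left fun t _ => ?_
    simp [mul_smul]
  · simp only [len, List.map_map]
    rfl

theorem N_add (v w : X →₀ ℝ) : N (v + w) ≤ N v + N w := by
  refine ENNReal.le_iInf₂_add_iInf₂ fun l hl l' hl' => ?_
  refine (N_le (l ++ l') ?_).trans (le_of_eq ?_)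
  · simp [val, ← hl, ← hl']
  · simp [len]

theorem N_neg (v : X →₀ ℝ) : N (-v) = N v := by
  have h : ∀ v : X →₀ ℝ, N (-v) ≤ N v := fun v => by simpa using N_smul (-1) v
  exact le_antisymm (h v) (by simpa using h (-v))

theorem N_single (x y : X) : N (Finsupp.single x (1 : ℝ) - Finsupp.single y 1) ≤ edist x y :=
  (N_le [(1, x, y)] (by simp [val])).trans (by simp [len])

/-- mass of a vector on a set -/
noncomputable def mass (B : Set X) : (X →₀ ℝ) →ₗ[ℝ] ℝ :=
  Finsupp.linearCombination ℝ (B.indicator fun _ => (1 : ℝ))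

theorem exists_radius (l : List (ℝ × X × X)) (p : X) :
    ∃ S : Set ℝ, MeasureTheory.volume S ≤ len l ∧
      ∀ t ∉ S, mass (Metric.ball p t) (val l) = 0 := by
  induction l with
  | nil => exact ⟨∅, by simp, fun t _ => by simp [val]⟩
  | cons e l ih =>
    obtain ⟨S, hS, hS'⟩ := ih
    refine ⟨uIcc (dist e.2.1 p) (dist e.2.2 p) ∪ S, ?_, ?_⟩
    · refine (MeasureTheory.measure_union_le _ _).trans ?_
      simp only [len, List.map_cons, List.sum_cons]
      refine add_le_add ?_ hS
      rw [Real.volume_interval, edist_dist]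
      apply ENNReal.ofReal_le_ofReal
      rw [abs_sub_comm]
      exact abs_dist_sub_le _ _ _
    · intro t ht
      rw [mem_union, not_or] at ht
      have h1 := hS' t ht.2
      have h2 : (Metric.ball p t).indicator (fun _ => (1 : ℝ)) e.2.1 =
          (Metric.ball p t).indicator (fun _ => (1 : ℝ)) e.2.2 := by
        have h3 : e.2.1 ∈ Metric.ball p t ↔ e.2.2 ∈ Metric.ball p t := by
          have h4 := ht.1
          rw [mem_uIcc] at h4
          simp only [Metric.mem_ball]
          constructor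
          · intro h5
            by_contra h6
            exact h4 (Or.inl ⟨h5.le, not_lt.1 h6⟩)
          · intro h5
            by_contra h6
            exact h4 (Or.inr ⟨h5.le, not_lt.1 h6⟩)
        by_cases h7 : e.2.1 ∈ Metric.ball p t
        · rw [indicator_of_mem h7, indicator_of_mem (h3.1 h7)]
        · rw [indicator_of_notMem h7, indicator_of_notMem (fun h => h7 (h3.2 h))]
      simp only [val, List.map_cons, List.sum_cons, map_add, map_smul, map_sub] at h1 ⊢
      rw [h1]
      simp [mass, h2]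

theorem exists_mass_eq {v w : X →₀ ℝ} {ε : ℝ} (h : N (v - w) < ENNReal.ofReal ε) (p : X) :
    ∃ t, 0 < t ∧ t < ε ∧ mass (Metric.ball p t) v = mass (Metric.ball p t) w := by
  obtain ⟨l, hl⟩ := iInf_lt_iff.1 h
  obtain ⟨hl1, hl2⟩ := iInf_lt_iff.1 hl
  obtain ⟨S, hS, hS'⟩ := exists_radius l p
  have : ¬ (Ioo 0 ε ⊆ S) := fun hc => by
    have := MeasureTheory.measure_mono (μ := MeasureTheory.volume) hc
    rw [Real.volume_Ioo, sub_zero] at this
    exact absurd (this.trans hS) (not_le.2 hl2)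
  obtain ⟨t, ht, htS⟩ := not_subset.1 this
  refine ⟨t, ht.1, ht.2, ?_⟩
  have := hS' t htS
  rwa [hl1, map_sub, sub_eq_zero] at this

omit [PseudoMetricSpace X] in
theorem mass_eq_single {v : X →₀ ℝ} {B : Set X} {p : X} (hp : p ∈ B)
    (h : ∀ q ∈ v.support, q ∈ B → q = p) : mass B v = v p := by
  rw [mass, Finsupp.linearCombination_apply, Finsupp.sum, Finset.sum_eq_single p]
  · simp [indicator_of_mem hp]
  · intro q hq hne
    rw [indicator_of_notMem (fun hB => hne (h q hq hB))]
    simp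
  · intro hp'
    simp [Finsupp.notMem_support_iff.1 hp']

omit [PseudoMetricSpace X] in
theorem mass_eq_zero {v : X →₀ ℝ} {B : Set X} (h : ∀ q ∈ v.support, q ∉ B) : mass B v = 0 := by
  rw [mass, Finsupp.linearCombination_apply, Finsupp.sum]
  refine Finset.sum_eq_zero fun q hq => ?_
  simp [indicator_of_notMem (h q hq)]

/-- vectors with `δ`-separated support -/
def Sep (δ : ℝ) (v : X →₀ ℝ) : Prop :=
  ∀ p ∈ v.support, ∀ q ∈ v.support, dist p q < δ → p = q

theorem exists_near {v w : X →₀ ℝ} {ε : ℝ} (h : N (v - w) < ENNReal.ofReal ε) (hv : Sep ε v)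
    {p : X} (hp : p ∈ v.support) :
    ∃ q ∈ w.support, dist q p < ε ∧ (Sep (2 * ε) w → w q = v p) := by
  obtain ⟨t, ht0, htε, ht⟩ := exists_mass_eq h p
  have h1 : mass (Metric.ball p t) v = v p :=
    mass_eq_single (Metric.mem_ball_self ht0) fun q hq hqB =>
      hv q hq p hp ((Metric.mem_ball.1 hqB).trans htε)
  obtain ⟨q, hq, hqB⟩ : ∃ q ∈ w.support, q ∈ Metric.ball p t := by
    by_contra hc
    push Not at hc
    rw [mass_eq_zero hc, h1] at ht
    exact Finsupp.mem_support_iff.1 hp ht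
  refine ⟨q, hq, (Metric.mem_ball.1 hqB).trans htε, fun hw => ?_⟩
  rw [← h1, ht, mass_eq_single hqB]
  intro q' hq' hq'B
  refine hw q' hq' q hq ?_
  have := dist_triangle_right q' q p
  rw [Metric.mem_ball] at hqB hq'B
  linarith

theorem Sep.mono {δ δ' : ℝ} {v : X →₀ ℝ} (h : Sep δ v) (h' : δ' ≤ δ) : Sep δ' v :=
  fun p hp q hq hd => h p hp q hq (hd.trans_le h')

theorem exists_match {v w : X →₀ ℝ} {ε : ℝ} (hε : 0 < ε) (h : N (v - w) < ENNReal.ofReal ε)
    (hv : Sep (2 * ε) v) (hw : Sep (2 * ε) w) :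
    ∃ q : v.support → X, (∀ p, dist (q p) p < ε) ∧
      w = ∑ p : v.support, v p • Finsupp.single (q p) (1 : ℝ) := by
  classical
  have h' : N (w - v) < ENNReal.ofReal ε := by rwa [← N_neg, neg_sub]
  choose q hq hqd hqw using fun p : v.support => exists_near h (hv.mono (by linarith)) p.2
  refine ⟨q, hqd, ?_⟩
  conv_lhs => rw [← Finsupp.sum_single w, Finsupp.sum]
  symm
  refine Finset.sum_bij (fun p _ => q p) (fun p _ => hq p) ?_ ?_ ?_
  · intro p _ p' _ hpp
    apply Subtype.ext
    refine hv _ p.2 _ p'.2 ?_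
    have h1 := hqd p
    have h2 := hqd p'
    have := dist_triangle_left (p : X) p' (q p)
    rw [← hpp] at h2
    linarith
  · intro x hx
    obtain ⟨p, hp, hpd, -⟩ := exists_near h' (hw.mono (by linarith)) hx
    refine ⟨⟨p, hp⟩, Finset.mem_univ _, hw _ (hq _) _ hx ?_⟩
    have h1 := hqd ⟨p, hp⟩
    have := dist_triangle (q ⟨p, hp⟩) p x
    simp only at h1
    linarith
  · intro p _
    rw [hqw p hw]
    simp

end Norm

theorem exists_sep {X : Type u} [MetricSpace X] (v : X →₀ ℝ) : ∃ δ > 0, Sep δ v := by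
  classical
  obtain ⟨δ, hδ, h⟩ : ∃ δ > (0 : ℝ), ∀ e ∈ (v.support ×ˢ v.support).filter (fun e : X × X => e.1 ≠ e.2),
      δ ≤ dist e.1 e.2 := by
    obtain ⟨s, hs⟩ : ∃ s, (v.support ×ˢ v.support).filter (fun e : X × X => e.1 ≠ e.2) = s :=
      ⟨_, rfl⟩
    rw [hs]
    have hs' : ∀ e ∈ s, 0 < dist e.1 e.2 := by
      intro e he
      rw [← hs] at he
      exact dist_pos.2 (Finset.mem_filter.1 he).2
    rcases s.eq_empty_or_nonempty with rfl | hne
    · exact ⟨1, one_pos, by simp⟩
    · obtain ⟨e, he, hmin⟩ := s.exists_min_image (fun e => dist e.1 e.2) hne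
      exact ⟨_, hs' e he, hmin⟩
  refine ⟨δ, hδ, fun p hp q hq hd => ?_⟩
  by_contra hne
  have := h (p, q) (Finset.mem_filter.2 ⟨Finset.mem_product.2 ⟨hp, hq⟩, hne⟩)
  exact absurd hd (not_lt.2 this)

theorem not_sep_near {X : Type u} [MetricSpace X] {δ : ℝ} {v : X →₀ ℝ} (hv : ¬ Sep δ v) :
    ∃ ε > 0, ∀ w, N (v - w) < ENNReal.ofReal ε → ¬ Sep δ w := by
  obtain ⟨η, hη, hvη⟩ := exists_sep v
  unfold Sep at hv
  push Not at hv
  obtain ⟨p, hp, p', hp', hd, hne⟩ := hv
  have h0 : η ≤ dist p p' := not_lt.1 fun hc => hne (hvη p hp p' hp' hc)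
  refine ⟨min (η / 2) ((δ - dist p p') / 2), lt_min (by linarith) (by linarith), ?_⟩
  intro w hw hs
  have h1 := min_le_left (η / 2) ((δ - dist p p') / 2)
  have h2 := min_le_right (η / 2) ((δ - dist p p') / 2)
  obtain ⟨q, hq, hqd, -⟩ := exists_near hw (hvη.mono (by linarith)) hp
  obtain ⟨q', hq', hqd', -⟩ := exists_near hw (hvη.mono (by linarith)) hp'
  have h3 := dist_triangle4 q p p' q'
  rw [dist_comm p' q'] at h3
  have h4 := hs q hq q' hq' (by linarith)
  have h5 := dist_triangle_left p p' q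
  rw [← h4] at hqd'
  linarith

/-- the pseudo-metric -/
@[reducible] noncomputable def fsMetric (X : Type u) [PseudoMetricSpace X] :
    PseudoEMetricSpace (X →₀ ℝ) where
  edist v w := N (v - w)
  edist_self v := by simp [N_zero]
  edist_comm v w := by rw [← N_neg, neg_sub]
  edist_triangle v w z := by
    have := N_add (v - w) (w - z)
    rwa [sub_add_sub_cancel] at this

theorem paracompact_free {X : Type u} [MetricSpace X] {L : Type v} [AddCommGroup L] [Module ℝ L]
    [τ : TopologicalSpace L] [ContinuousAdd L] [ContinuousConstSMul ℝ L]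
    (b : Module.Basis X ℝ L) (hb : Continuous b)
    (hfin : ∀ σ : TopologicalSpace L, @ContinuousAdd L σ _ → @ContinuousConstSMul ℝ L σ _ →
      Continuous[_, σ] b → τ ≤ σ) : ParacompactSpace L := by
  let ρ : PseudoEMetricSpace (X →₀ ℝ) := fsMetric X
  have hed : ∀ v w : X →₀ ℝ, edist v w = N (v - w) := fun _ _ => rfl
  have : ContinuousNeg L := ⟨by simpa using continuous_const_smul (T := L) (-1 : ℝ)⟩
  have : IsTopologicalAddGroup L := ⟨⟩
  have : CompletelyRegularSpace L :=
    CompletelyRegularSpace.of_exists_uniformSpace ⟨IsTopologicalAddGroup.rightUniformSpace L, rfl⟩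
  have hA : ContinuousAdd (X →₀ ℝ) := by
    have h : LipschitzWith 2 (fun p : (X →₀ ℝ) × (X →₀ ℝ) => p.1 + p.2) := by
      intro p q
      rw [hed, Prod.edist_eq, hed, hed, add_sub_add_comm]
      refine (N_add _ _).trans ?_
      rw [ENNReal.coe_ofNat, two_mul]
      exact add_le_add (le_max_left _ _) (le_max_right _ _)
    exact ⟨h.continuous⟩
  have hS : ContinuousConstSMul ℝ (X →₀ ℝ) := by
    refine ⟨fun r => (LipschitzWith.of_edist_le fun p q => ?_).continuous⟩
    rw [hed, hed, ← smul_sub]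
    exact N_smul _ _
  have hπ : Continuous b.repr := by
    rw [continuous_iff_le_induced]
    refine hfin _ (continuousAdd_induced b.repr) ?_ ?_
    · let : TopologicalSpace L := TopologicalSpace.induced b.repr inferInstance
      exact (IsInducing.mk rfl).continuousConstSMul id (by simp)
    · rw [continuous_induced_rng]
      refine (LipschitzWith.of_edist_le fun x y => ?_).continuous
      simp only [Function.comp, Module.Basis.repr_self, hed]
      exact N_single x y
  refine paracompact_of_layers b.repr hπ b.repr.surjective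
    (fun j => {v | Sep (1 / ((j : ℝ) + 1)) v}) ?_ ?_ ?_
  · intro j
    rw [← isOpen_compl_iff, EMetric.isOpen_iff]
    intro v hv
    obtain ⟨ε, hε, h⟩ := not_sep_near hv
    refine ⟨ENNReal.ofReal ε, by simpa using hε, fun w hw => h w ?_⟩
    rw [← hed, edist_comm]
    exact hw
  · intro x
    obtain ⟨δ, hδ, h⟩ := exists_sep (b.repr x)
    obtain ⟨j, hj⟩ := exists_nat_one_div_lt hδ
    exact ⟨j, h.mono hj.le⟩
  · intro j x hx U hU
    let Ψ : ((b.repr x).support → X) → L := fun q => ∑ p : (b.repr x).support, b.repr x p • b (q p)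
    have hΨ : Continuous Ψ :=
      continuous_finsetSum _ fun p _ => (hb.comp (continuous_apply p)).const_smul _
    have hΨx : Ψ Subtype.val = x := by
      simp only [Ψ]
      rw [Finset.sum_coe_sort (b.repr x).support (fun p => b.repr x p • b p)]
      conv_rhs => rw [← b.linearCombination_repr x]
      rfl
    have hU' : Ψ ⁻¹' U ∈ 𝓝 (Subtype.val : (b.repr x).support → X) :=
      hΨ.continuousAt (by rw [hΨx]; exact hU)
    obtain ⟨ε, hε, hεU⟩ := Metric.mem_nhds_iff.1 hU'
    have hj : (0 : ℝ) < 1 / ((j : ℝ) + 1) := Nat.one_div_pos_of_nat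
    have hε' : 0 < min ε (1 / ((j : ℝ) + 1) / 2) := lt_min hε (by linarith)
    have h2 := min_le_right ε (1 / ((j : ℝ) + 1) / 2)
    refine ⟨Metric.eball (b.repr x) (ENNReal.ofReal (min ε (1 / ((j : ℝ) + 1) / 2))),
      Metric.eball_mem_nhds _ (by simpa using hε'), fun y hy hyO => ?_⟩
    obtain ⟨q, hq, hqy⟩ := exists_match (v := b.repr x) (w := b.repr y) hε'
      (by rw [← hed, edist_comm]; exact hyO) (Sep.mono hx (by linarith)) (Sep.mono hy (by linarith))
    have h3 : y = Ψ q := by
      apply b.repr.injective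
      rw [hqy]
      simp [Ψ]
    rw [h3]
    apply hεU
    rw [Metric.mem_ball, dist_pi_lt_iff hε]
    exact fun p => (hq p).trans_le (min_le_left _ _)

end Pool.Agent.H33.FreeLin
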