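import Mathlib
import Pool.Agent.H33.HG2

/-!
The path space of a normal Suslin tree times the Cantor set, and compacta under Martin's axiom.
-/

open Set Filter Topology Cardinal

namespace Pool.Agent.H33.HG3

open Pool.Agent.H33.GrothDefs Pool.Agent.H33.Groth Pool.Agent.H33.HG1 Pool.Agent.H33.HG2

/-- the path space -/
abbrev P (T : Type) [PartialOrder T] : Type :=
  {p : T → Bool // (∀ s t, s ≤ t → p t = true → p s = true) ∧
    ∀ s t, p s = true → p t = true → s ≤ t ∨ t ≤ s}

section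
variable {T : Type} [PartialOrder T]

theorem compact : CompactSpace (P T) := by
  have h : ∀ (s t : T) (R : Bool → Bool → Prop), IsClosed {p : T → Bool | R (p s) (p t)} :=
    fun s t R => IsClosed.preimage (f := fun p : T → Bool => (p s, p t)) (by fun_prop)
      (isClosed_discrete {x : Bool × Bool | R x.1 x.2})
  have h2 : IsClosed {p : T → Bool | (∀ s t, s ≤ t → p t = true → p s = true) ∧
      ∀ s t, p s = true → p t = true → s ≤ t ∨ t ≤ s} := by
    simp only [ofPred_and, ofPred_forall (p := fun (_ : T) (_ : T → Bool) => _)]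
    exact (isClosed_iInter fun s => isClosed_iInter fun t =>
      h s t fun a b => s ≤ t → b = true → a = true).inter
        (isClosed_iInter fun s => isClosed_iInter fun t =>
          h s t fun a b => a = true → b = true → s ≤ t ∨ t ≤ s)
  exact isCompact_iff_compactSpace.1 h2.isCompact

theorem ub (p : P T) {J : Set T} (hJ : J.Finite) (h : ∀ j ∈ J, p.1 j = true) {t₀ : T}
    (h₀ : p.1 t₀ = true) : ∃ t, p.1 t = true ∧ ∀ j ∈ J, j ≤ t := by
  induction J, hJ using Set.Finite.induction_on with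
  | empty => exact ⟨t₀, h₀, by simp⟩
  | @insert a J _ _ ih =>
    obtain ⟨t, h1, h2⟩ := ih fun j hj => h j (Or.inr hj)
    rcases p.2.2 a t (h a (Or.inl rfl)) h1 with h3 | h3
    · exact ⟨t, h1, forall_mem_insert.2 ⟨h3, h2⟩⟩
    · exact ⟨a, h a (Or.inl rfl), forall_mem_insert.2 ⟨le_rfl, fun j hj => (h2 j hj).trans h3⟩⟩

theorem gd (hT : Suslin T) (hs : ∀ t : T, {u | t ⋖ u}.Infinite) {K : Set (P T)}
    (hK : IsClosed K) : IsGδ K := by
  let S : Set T := {t | ∀ q : P T, q.1 t = true → q ∉ K}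
  let D : Set T := ⋃ m ∈ {t | Minimal (· ∈ S) t}, Iic m
  have hD : D.Countable := (hT.mins _).biUnion fun m _ => hT.iic m
  let R : Set (P T) := {p | p ∉ K ∧ ∀ m, Minimal (· ∈ S) m → ¬ p.1 m = true}
  have hR : R.Countable := by
    refine (Countable.union (s := {p : P T | ∀ t, ¬ p.1 t = true}) (Set.Subsingleton.countable
      fun p hp q hq => Subtype.ext (funext fun t => Bool.eq_iff_iff.2 (iff_of_false (hp t) (hq t))))
      ((hD.union (hT.mins Dᶜ)).biUnion (t := fun u _ => {p : P T | ∀ t, p.1 t = true ↔ t < u})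
        fun u _ => Set.Subsingleton.countable fun p hp q hq => Subtype.ext (funext fun t =>
          Bool.eq_iff_iff.2 ((hp t).trans (hq t).symm)))).mono fun p hp => ?_
    by_cases h0 : ∀ t, ¬ p.1 t = true
    · exact Or.inl h0
    right
    push Not at h0
    obtain ⟨t₁, h0⟩ := h0
    obtain ⟨I, hI, hIK⟩ : ∃ I : Set T, I.Finite ∧ ∀ q : P T, (∀ i ∈ I, q.1 i = p.1 i) → q ∉ K := by
      obtain ⟨V, hV, hVK⟩ := (mem_nhds_subtype _ _ _).1 (hK.isOpen_compl.mem_nhds hp.1)
      rw [nhds_pi, Filter.mem_pi] at hV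
      obtain ⟨I, hI, w, hw, hwV⟩ := hV
      exact ⟨I, hI, fun q hq => hVK (hwV fun i hi => hq i hi ▸ mem_of_mem_nhds (hw i))⟩
    obtain ⟨t₀, h1, h2⟩ := ub p (hI.inter_of_left {i | p.1 i = true}) (fun j hj => hj.2) h0
    have key : ∀ v, t₀ ≤ v → (∀ u ∈ I, ¬ p.1 u = true → ¬ u ≤ v ∧ ¬ v ≤ u) → v ∈ S :=
      fun v hv h q hq => hIK q fun i hi => Bool.eq_iff_iff.2 ⟨fun h3 => by
        by_contra h4
        exact (q.2.2 i v h3 hq).elim (h i hi h4).1 (h i hi h4).2,
        fun h3 => q.2.1 i v ((h2 i ⟨hi, h3⟩).trans hv) hq⟩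
    have hpD : ∀ s, p.1 s = true → s ∈ D := by
      intro s h3
      obtain ⟨s', h4, h5⟩ := ub p (J := {s, t₀}) (toFinite _) (by simp [h3, h1]) h0
      have h6 : (⋃ u ∈ I, {v | s' ⋖ v ∧ v ≤ u}).Finite := hI.biUnion fun u _ =>
        Set.Subsingleton.finite fun v hv w hw => (hT.cmp hv.2 hw.2).elim
          (fun h => (hw.1.eq_or_eq hv.1.le h).resolve_left hv.1.ne')
          fun h => ((hv.1.eq_or_eq hw.1.le h).resolve_left hw.1.ne').symm
      obtain ⟨v, h7, h8⟩ := ((hs s').sdiff h6).nonempty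
      have h9 : ∀ u ∈ I, ¬ v ≤ u := fun u hu h => h8 (mem_biUnion hu ⟨h7, h⟩)
      obtain ⟨m, h10, h11⟩ := hT.exmin (key v ((h5 t₀ (by simp)).trans h7.le) fun u hu h =>
        ⟨fun h' => (hT.cmp h' h7.le).elim (fun h12 => h (p.2.1 _ _ h12 h4)) fun h12 =>
          (h7.eq_or_eq h12 h').elim (fun e => h (e ▸ h4)) fun e => h9 u hu e.ge, h9 u hu⟩)
      rcases hT.cmp h10 h7.le with h12 | h12
      · exact absurd (p.2.1 _ _ h12 h4) (hp.2 m h11)
      · exact mem_iUnion₂.2 ⟨m, h11, (h5 s (by simp)).trans h12⟩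
    obtain ⟨u, h3, h4⟩ : ∃ u, ¬ p.1 u = true ∧ ∀ s, p.1 s = true → s ≤ u := by
      by_contra hc
      push Not at hc
      choose! g g1 g2 using hc
      obtain ⟨t, h3, h4⟩ := ub p (J := insert t₀ (g '' (I ∩ {i | ¬ p.1 i = true})))
        (((hI.inter_of_left _).image _).insert _)
        (forall_mem_insert.2 ⟨h1, forall_mem_image.2 fun i hi => g1 i hi.2⟩) h0
      obtain ⟨m, h5, h6⟩ := hT.exmin (key t (h4 _ (Or.inl rfl)) fun u hu h =>
        ⟨fun h' => h (p.2.1 _ _ h' h3),
          fun h' => g2 u h ((h4 _ (Or.inr (mem_image_of_mem g ⟨hu, h⟩))).trans h')⟩)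
      exact hp.2 m h6 (p.2.1 _ _ h5 h3)
    obtain ⟨w, h5, h6⟩ := hT.exmin (S := {w | ¬ p.1 w = true}) h3
    have h7 : ∀ t, p.1 t = true ↔ t < w := fun t => ⟨fun h =>
      ((hT.cmp (h4 t h) h5).resolve_right fun h' => h6.1 (p.2.1 _ _ h' h)).lt_of_ne
        fun e => h6.1 (e ▸ h), fun h => by
      by_contra h8
      exact h.not_ge (h6.2 h8 h.le)⟩
    refine mem_iUnion₂.2 ⟨w, ?_, h7⟩
    by_cases h8 : w ∈ D
    · exact Or.inl h8
    · exact Or.inr ⟨h8, fun y hy h9 => (h9.eq_or_lt.resolve_right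
        fun h10 => hy (hpD y ((h7 y).2 h10))).ge⟩
  have : K = (⋂ m ∈ {t | Minimal (· ∈ S) t}, {q : P T | ¬ q.1 m = true}) ∩ Rᶜ := by
    ext q
    refine ⟨fun h => ⟨mem_iInter₂.2 fun m hm h' => hm.1 q h' h, fun h' => h'.1 h⟩, fun h => ?_⟩
    by_contra h'
    exact h.2 ⟨h', mem_iInter₂.1 h.1⟩
  rw [this]
  exact (IsGδ.biInter_of_isOpen (hT.mins S) fun m _ =>
    (isOpen_discrete {b : Bool | ¬ b = true}).preimage
      ((continuous_apply m).comp continuous_subtype_val)).inter hR.isGδ_compl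

theorem gd_prod {A B : Type} [TopologicalSpace A] [TopologicalSpace B]
    [SecondCountableTopology B] [PerfectlyNormalSpace B] (h : ∀ K : Set A, IsClosed K → IsGδ K)
    {K : Set (A × B)} (hK : IsClosed K) : IsGδ K := by
  have : K = ⋂ V ∈ TopologicalSpace.countableBasis B,
      (Prod.fst ⁻¹' (interior {a | ∀ b ∈ V, (a, b) ∉ K})ᶜ ∪ Prod.snd ⁻¹' Vᶜ) := by
    ext x
    refine ⟨fun hx => mem_iInter₂.2 fun V _ => ?_, fun hx => ?_⟩
    · by_contra hc
      rw [mem_union, not_or] at hc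
      exact interior_subset (not_not.1 hc.1) x.2 (not_not.1 hc.2) hx
    · by_contra hc
      obtain ⟨U, hU, W, hW, hUW⟩ := mem_nhds_prod_iff.1 (hK.isOpen_compl.mem_nhds hc)
      obtain ⟨V, h1, h2, h3⟩ := (TopologicalSpace.isBasis_countableBasis B).mem_nhds_iff.1 hW
      rcases mem_iInter₂.1 hx V h1 with h4 | h4
      · exact h4 (mem_interior_iff_mem_nhds.2 (mem_of_superset hU
          fun a ha b hb => hUW (mk_mem_prod ha (h3 hb))))
      · exact h4 h2
  rw [this]
  exact IsGδ.biInter (TopologicalSpace.countable_countableBasis B) fun V hV =>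
    ((h _ isOpen_interior.isClosed_compl).preimage continuous_fst).union
      ((TopologicalSpace.isOpen_of_mem_countableBasis hV).isClosed_compl.isGδ.preimage
        continuous_snd)

end

theorem neg {T : Type} [SemilatticeInf T] (hT : Suslin T) (hs : ∀ t : T, {u | t ⋖ u}.Infinite)
    (hCH : continuum.{0} = ℵ_ 1) :
    ∃ (X : Type) (_ : TopologicalSpace X), CompactSpace X ∧ T2Space X ∧
      PerfectlyNormalSpace X ∧ ∃ Y : Set X, ¬ IsGrothendieck Y := by
  classical
  obtain ⟨a, a1, a2, a3, a4⟩ := family hT hCH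
  have := compact (T := T)
  let j : T → P T × (ℕ → Bool) := fun t => (⟨fun s => decide (s ≤ t),
    fun _ _ h h' => decide_eq_true (h.trans (of_decide_eq_true h')),
    fun _ _ h h' => hT.cmp (of_decide_eq_true h) (of_decide_eq_true h')⟩, fun n => decide (n ∈ a t))
  refine ⟨P T × (ℕ → Bool), inferInstance, inferInstance, inferInstance,
    ⟨fun _ hK => gd_prod (fun _ => gd hT hs) hK⟩, range j, fun h => ?_⟩
  let c : Bool → ℝ := fun b => if b = true then 1 else 0
  have hc : Continuous c := continuous_of_discreteTopology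
  let f : ℕ → range j → ℝ := fun n y => c (y.1.2 n) + 1 / ((n : ℝ) + 1)
  have fc : ∀ n, Continuous (f n) := fun n => (hc.comp (by fun_prop)).add continuous_const
  have f0 : ∀ n, f n ≠ 0 := fun n h => by
    have := hT.unc
    obtain ⟨t⟩ : Nonempty T := inferInstance
    have h1 := congrFun h ⟨j t, t, rfl⟩
    have h2 : (0 : ℝ) < 1 / ((n : ℝ) + 1) := by positivity
    simp only [f, c, Pi.zero_apply] at h1
    split_ifs at h1 <;> linarith
  have lim : ∀ (u : Filter ℕ) (g : range j → ℝ), u ≤ atTop →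
      (∀ t, ∀ᶠ n in u, c (decide (n ∈ a t)) = g ⟨j t, t, rfl⟩) → Tendsto f u (𝓝 g) := by
    intro u g hu hg
    refine tendsto_pi_nhds.2 ?_
    rintro ⟨_, t, rfl⟩
    have := (tendsto_const_nhds.congr' (EventuallyEq.symm (hg t))).add
      (tendsto_one_div_add_atTop_nhds_zero_nat.mono_left hu)
    rwa [add_zero] at this
  obtain ⟨-, h2⟩ := (g_iff _).1 h {g | Continuous g ∧ g ≠ 0} (fun _ h => h.1) (range f)
    (range_subset_iff.2 fun n => ⟨fc n, f0 n⟩) (by
      intro s hs
      choose k hk using hs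
      obtain rfl : s = f ∘ k := funext fun n => (hk n).symm
      by_cases hfin : (range k).Finite
      · obtain ⟨m, hm⟩ : ∃ m, ∃ᶠ n in atTop, k n = m := by
          by_contra hc
          push Not at hc
          obtain ⟨n, hn⟩ := ((eventually_all_finite hfin (l := atTop)
            (p := fun y n => k n ≠ y)).2 fun y _ => hc y).exists
          exact hn (k n) (mem_range_self n) rfl
        refine ⟨f m, ⟨fc m, f0 m⟩, mapClusterPt_iff_frequently.2 fun W hW => hm.mono
          fun n hn => ?_⟩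
        rw [Function.comp, hn]
        exact mem_of_mem_nhds hW
      obtain ⟨y, hy⟩ := a4 _ hfin
      have hne : (cofinite ⊓ 𝓟 (range k ∩ a y)).NeBot :=
        frequently_iff_neBot.1 (frequently_cofinite_iff_infinite.2 hy)
      let u := Ultrafilter.of (cofinite ⊓ 𝓟 (range k ∩ a y))
      have u0 : (u : Filter ℕ) ≤ cofinite ⊓ 𝓟 (range k ∩ a y) := Ultrafilter.of_le _
      have u1 : ∀ A B : Set ℕ, (A \ B).Finite → A ∈ u → B ∈ u := fun A B h hA =>
        mem_of_superset (inter_mem hA ((u0.trans inf_le_left) h.compl_mem_cofinite))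
          fun i hi => by_contra fun h' => hi.2 ⟨hi.1, h'⟩
      have u2 : range k ∩ a y ∈ u := (u0.trans inf_le_right) (mem_principal_self _)
      obtain ⟨m, -, hm⟩ := hT.exmin (S := {t | a t ∈ u}) (t := y)
        (mem_of_superset u2 inter_subset_right)
      have u3 : ∀ t, m ≤ t ↔ a t ∈ u := fun t => ⟨fun h => u1 _ _ (a1 m t h) hm.1, fun h =>
        (hm.2 (u1 _ _ (a2 m t) (inter_mem hm.1 h)) inf_le_left).trans inf_le_right⟩
      have u4 : (u : Filter ℕ) ≤ atTop := Nat.cofinite_eq_atTop ▸ u0.trans inf_le_left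
      have u5 := lim u (fun z => c (z.1.1.1 m)) u4 fun t => by
        by_cases h : m ≤ t
        · exact mem_of_superset ((u3 t).1 h) fun n hn => by simp [j, h, hn]
        · exact mem_of_superset (Ultrafilter.compl_mem_iff_notMem.2 (mt (u3 t).2 h))
            fun n hn => by simp [j, h, show n ∉ a t from hn]
      refine ⟨fun z => c (z.1.1.1 m), ⟨hc.comp ((continuous_apply m).comp
        (continuous_subtype_val.comp (continuous_fst.comp continuous_subtype_val))), fun h => ?_⟩,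
        mapClusterPt_iff_frequently.2
        fun W hW => frequently_atTop.2 fun N => ?_⟩
      · simpa [j, c] using congrFun h ⟨j m, m, rfl⟩
      · have h1 : (k '' Iio N)ᶜ ∈ (u : Filter ℕ) :=
          (u0.trans inf_le_left) ((finite_Iio N).image k).compl_mem_cofinite
        obtain ⟨_, ⟨h2, h3⟩, ⟨n, rfl⟩, -⟩ := Filter.nonempty_of_mem
          (inter_mem (inter_mem (show f ⁻¹' W ∈ (u : Filter ℕ) from u5 hW) h1) u2)
        exact ⟨n, le_of_not_gt fun h4 => h3 (mem_image_of_mem k h4), h2⟩)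
  choose x hx hnx using fun F : Finset T × ℕ => (a3 F.1 F.1.finite_toSet).exists_gt F.2
  refine (h2 (mem_closure_of_tendsto (lim (map x atTop) 0 ?_ fun t => ?_)
    (Eventually.of_forall mem_range_self))).2 rfl
  · exact tendsto_atTop_mono (fun F => (hnx F).le)
      (by rw [← prod_atTop_atTop_eq]; exact tendsto_snd)
  · refine (eventually_ge_atTop (({t}, 0) : Finset T × ℕ)).mono fun F hF => ?_
    have : x F ∉ a t := fun h => hx F (mem_biUnion (hF.1 (Finset.mem_singleton_self t)) h)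
    simp [c, this]

/-- Martin's axiom for `ℵ₁` dense sets. -/
def MA1 : Prop := ∀ (Q : Type) [PartialOrder Q] [Nonempty Q],
  (∀ A : Set Q, (A.Pairwise fun p q => ¬ ∃ r, r ≤ p ∧ r ≤ q) → A.Countable) →
  ∀ 𝒟 : Set (Set Q), #𝒟 ≤ ℵ_ 1 → (∀ D ∈ 𝒟, ∀ p, ∃ q ∈ D, q ≤ p) →
    ∃ G : Set Q, (∀ p ∈ G, ∀ q, p ≤ q → q ∈ G) ∧ (∀ p ∈ G, ∀ q ∈ G, ∃ r ∈ G, r ≤ p ∧ r ≤ q) ∧
      ∀ D ∈ 𝒟, (G ∩ D).Nonempty

theorem hl_of {Z : Type} [TopologicalSpace Z] [CompactSpace Z] [PerfectlyNormalSpace Z] :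
    HereditarilyLindelofSpace Z :=
  HereditarilyLindelofSpace.of_forall_isOpen fun U hU => by
    obtain ⟨V, h1, h2⟩ := hU.isClosed_compl.isGδ.eq_iInter_nat
    rw [← compl_compl U, h2, compl_iInter]
    exact isLindelof_iUnion fun n => (h1 n).isClosed_compl.isCompact.isLindelof

theorem core (hMA : MA1) {Z W : Type} [TopologicalSpace Z] [CompactSpace Z] [T2Space Z]
    [PerfectlyNormalSpace Z] [LinearOrder W] [Uncountable W] (hW : #W ≤ ℵ_ 1)
    (hc : ∀ ξ : W, (Iio ξ).Countable) (y : W → Z) (hd : DenseRange y) :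
    ∃ α, y α ∈ closure (y '' Iio α) := by
  by_contra hy
  push Not at hy
  have := hl_of (Z := Z)
  have bd : ∀ s : Set W, s.Countable → ∃ β, ∀ α ∈ s, α < β := fun s hs => by
    by_contra h
    push Not at h
    refine not_countable_univ ((hs.biUnion fun α _ => (hc α).insert α).mono fun β _ => ?_)
    obtain ⟨α, h1, h2⟩ := h β
    exact mem_biUnion h1 h2.eq_or_lt
  let F : W → Set Z := fun α => closure (y '' Iio α)
  have hF : Monotone F := fun a b h => closure_mono (image_mono (Iio_subset_Iio h))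
  obtain ⟨t, t1, t2⟩ := eq_open_union_countable (fun α => interior (F α)) fun _ => isOpen_interior
  obtain ⟨β, hβ⟩ := bd t t1
  have hO : ∀ α, interior (F α) ⊆ F β := fun α => (subset_iUnion (fun α => interior (F α)) α).trans
    (t2 ▸ iUnion₂_subset fun γ hγ => interior_subset.trans (hF (hβ γ hγ).le))
  let Q := {U : Set Z // IsOpen U ∧ U.Nonempty ∧ U ⊆ (F β)ᶜ}
  have : Nonempty Q := ⟨⟨(F β)ᶜ, isClosed_closure.isOpen_compl, ⟨_, hy β⟩, subset_rfl⟩⟩
  obtain ⟨G, -, g2, g3⟩ := hMA Q (fun A hA => by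
      obtain ⟨s, s1, s2⟩ := eq_open_union_countable (fun U : A => U.1.1) fun U => U.1.2.1
      refine (s1.image Subtype.val).mono fun U hU => ?_
      obtain ⟨x, hx⟩ := U.2.2.1
      obtain ⟨V, h1, h2⟩ := mem_iUnion₂.1 (s2.ge (mem_iUnion.2 ⟨⟨U, hU⟩, hx⟩))
      refine ⟨V, h1, by_contra fun h => hA V.2 hU h ⟨⟨V.1.1 ∩ U.1, V.1.2.1.inter U.2.1,
        ⟨x, h2, hx⟩, inter_subset_right.trans U.2.2.2⟩, inter_subset_left, inter_subset_right⟩⟩)
    (range fun α => {U : Q | closure U.1 ⊆ (F α)ᶜ}) (mk_range_le.trans hW) (by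
      rintro _ ⟨α, rfl⟩ U
      obtain ⟨x, h1, h2⟩ : ∃ x ∈ U.1, x ∉ F α := by
        by_contra h
        push Not at h
        obtain ⟨x, hx⟩ := U.2.2.1
        exact U.2.2.2 hx (hO α (interior_maximal h U.2.1 hx))
      obtain ⟨V, v1, v2, v3⟩ := exists_mem_nhds_isClosed_subset
        ((U.2.1.inter isClosed_closure.isOpen_compl).mem_nhds (And.intro h1 h2))
      have v4 : interior V ⊆ U.1 := interior_subset.trans (v3.trans inter_subset_left)
      exact ⟨⟨interior V, isOpen_interior, ⟨x, mem_interior_iff_mem_nhds.2 v1⟩, v4.trans U.2.2.2⟩,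
        (closure_minimal interior_subset v2).trans (v3.trans inter_subset_right), v4⟩)
  have : Nonempty G := (g3 _ ⟨β, rfl⟩).elim fun U h => ⟨⟨U, h.1⟩⟩
  obtain ⟨x, hx⟩ := IsCompact.nonempty_iInter_of_directed_nonempty_isCompact_isClosed
    (fun U : G => closure U.1.1) (fun U V => by
      obtain ⟨r, h1, h2, h3⟩ := g2 _ U.2 _ V.2
      exact ⟨⟨r, h1⟩, closure_mono h2, closure_mono h3⟩) (fun U => U.1.2.2.1.closure)
    (fun _ => isClosed_closure.isCompact) fun _ => isClosed_closure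
  obtain ⟨φ, h1, -⟩ := perfectlyNormalSpace_iff_forall_isClosed_preimage_zero.1 inferInstance {x}
    isClosed_singleton
  have h2 : φ x = 0 := h1.le rfl
  choose α hα using fun n : ℕ => hd.exists_mem_open
    (s := {z | |φ z| < 1 / ((n : ℝ) + 1)}) (isOpen_lt φ.continuous.abs continuous_const)
    ⟨x, by show |φ x| < _; rw [h2, abs_zero]; positivity⟩
  obtain ⟨γ, hγ⟩ := bd _ (countable_range α)
  obtain ⟨z, hz⟩ := exists_clusterPt_of_compactSpace (map (fun n => y (α n)) atTop)
  have h3 : φ z = 0 := eq_of_cluster hz φ.continuous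
    (squeeze_zero_norm (fun n => (hα n).le) tendsto_one_div_add_atTop_nhds_zero_nat)
  obtain rfl : z = x := h1.ge h3
  obtain ⟨U, u1, u2⟩ := g3 _ ⟨γ, rfl⟩
  refine u2 (mem_iInter.1 hx ⟨U, u1⟩) (mem_closure_iff_clusterPt.2 (hz.mono ?_))
  exact le_principal_iff.2 (Filter.mem_map.2 (Eventually.of_forall fun n =>
    mem_image_of_mem y (mem_Iio.2 (hγ _ (mem_range_self n)))))

theorem pos (hMA : MA1) (X : Type) [TopologicalSpace X] [CompactSpace X] [T2Space X]
    [PerfectlyNormalSpace X] (Y : Set X) : IsGrothendieck Y := by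
  rcases isEmpty_or_nonempty Y with hY | hY
  · exact (g_iff _).2 ga_of_compact
  suffices TopologicalSpace.SeparableSpace Y from (g_iff _).2 ga_of_separable
  by_contra hs
  obtain ⟨W, _, _, h0, hW⟩ : ∃ (T : Type) (_ : LinearOrder T) (_ : WellFoundedLT T),
      #T = Order.succ ℵ₀ ∧ ∀ ξ : T, (Iio ξ).Countable := ⟨(Order.succ ℵ₀).ord.ToType,
        inferInstance, inferInstance, mk_ord_toType _, fun ξ => le_aleph0_iff_set_countable.1
          (Order.lt_succ_iff.1 ((mk_Iio_lt ξ (by simp)).trans_eq (mk_ord_toType _)))⟩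
  have : Uncountable W := by rw [← aleph0_lt_mk_iff, h0]; exact Order.lt_succ _
  obtain ⟨y, hy⟩ := rec_e (α := Y) (id : W → W) (fun α f x => x ∉ closure (f '' Iio α))
    (fun α f g x h h' => by rwa [← image_congr (s := Iio α) h]) fun α f _ => by
      by_contra h
      push Not at h
      exact hs ⟨_, (hW α).image f, h⟩
  let K := closure (range fun α => (y α : X))
  have : CompactSpace K := isCompact_iff_compactSpace.1 isClosed_closure.isCompact
  obtain ⟨α, hα⟩ := core hMA (Z := K) (h0.trans succ_aleph0).le hW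
    (fun α => ⟨y α, subset_closure (mem_range_self α)⟩) (fun z => by
      rw [closure_subtype, ← range_comp]
      exact z.2)
  refine hy α ?_
  rw [closure_subtype, image_image] at hα ⊢
  exact hα

end Pool.Agent.H33.HG3
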