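import Mathlib

set_option autoImplicit false

namespace Pool.Agent.H33.HubCurve
open Set Real

section General
variable {X : Type} [MetricSpace X]

lemma lip_trans {a b c : X} (p : Path a b) (q : Path b c) (L : ℝ)
    (hp : ∀ s t, dist (p s) (p t) ≤ L * dist s t) (hq : ∀ s t, dist (q s) (q t) ≤ L * dist s t)
    (s t : unitInterval) : dist (p.trans q s) (p.trans q t) ≤ 2 * L * dist s t := by
  wlog h : (s : ℝ) ≤ t generalizing s t
  · rw [dist_comm, dist_comm s]
    exact this t s (le_of_not_ge h)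
  rw [Path.trans_apply, Path.trans_apply]
  have e : dist s t = t - s := by
    rw [Subtype.dist_eq, Real.dist_eq, abs_sub_comm, abs_of_nonneg (by linarith)]
  split_ifs with h1 h2 h2
  · refine (hp _ _).trans (le_of_eq ?_)
    rw [e, Subtype.dist_eq, Real.dist_eq, abs_sub_comm, abs_of_nonneg (by simp only; linarith)]
    ring
  · have k1 := hp ⟨2 * s, (unitInterval.mul_pos_mem_iff zero_lt_two).2 ⟨s.2.1, h1⟩⟩ 1
    have k2 := hq 0 ⟨2 * t - 1, unitInterval.two_mul_sub_one_mem_iff.2 ⟨(not_le.1 h2).le, t.2.2⟩⟩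
    rw [p.target] at k1
    rw [q.source] at k2
    rw [Subtype.dist_eq, Real.dist_eq, abs_sub_comm,
      abs_of_nonneg (by simp only [Icc.coe_one]; linarith)] at k1
    rw [Subtype.dist_eq, Real.dist_eq, abs_sub_comm,
      abs_of_nonneg (by simp only [Icc.coe_zero]; linarith)] at k2
    refine (dist_triangle _ b _).trans ((add_le_add k1 k2).trans (le_of_eq ?_))
    rw [e]
    simp only [Icc.coe_one, Icc.coe_zero]
    ring
  · exact absurd (h.trans h2) h1
  · refine (hq _ _).trans (le_of_eq ?_)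
    rw [e, Subtype.dist_eq, Real.dist_eq, abs_sub_comm, abs_of_nonneg (by simp only; linarith)]
    ring

lemma lip_symm {a b : X} (p : Path a b) (L : ℝ)
    (hp : ∀ s t, dist (p s) (p t) ≤ L * dist s t) (s t : unitInterval) :
    dist (p.symm s) (p.symm t) ≤ L * dist s t := by
  refine (hp _ _).trans (le_of_eq ?_)
  congr 1
  simp only [Subtype.dist_eq, Real.dist_eq, unitInterval.coe_symm_eq]
  rw [abs_sub_comm]
  congr 1
  ring

lemma uniform_of_lip (L : ℝ) (hL : 0 < L) (ε : ℝ) (hε : 0 < ε) : ∃ n : ℕ, ∀ (a b : X) (p : Path a b),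
    (∀ s t, dist (p s) (p t) ≤ L * dist s t) → ∃ t : Fin (n + 1) → unitInterval,
      t 0 = 0 ∧ t (Fin.last n) = 1 ∧ StrictMono t ∧
      ∀ i : Fin n, Metric.diam (⇑p '' Set.Icc (t i.castSucc) (t i.succ)) ≤ ε := by
  obtain ⟨n, hn⟩ := exists_nat_gt (L / ε)
  have hn0 : (0 : ℝ) < n := lt_trans (by positivity) hn
  refine ⟨n, fun a b p hp => ⟨fun i => ⟨(i.val : ℝ) / n, by positivity, ?_⟩, ?_, ?_, ?_, ?_⟩⟩
  · rw [div_le_one hn0]
    exact_mod_cast Nat.lt_succ_iff.1 i.2
  · ext; simp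
  · ext; simp [hn0.ne']
  · intro i j hij
    change ((i.val : ℝ) / n) < (j.val : ℝ) / n
    gcongr
    exact_mod_cast hij
  · intro i
    refine Metric.diam_le_of_forall_dist_le hε.le ?_
    rintro _ ⟨s, ⟨s1, s2⟩, rfl⟩ _ ⟨t, ⟨t1, t2⟩, rfl⟩
    refine (hp s t).trans ?_
    have a1 : ((i.val : ℝ) / n) ≤ s := s1
    have a2 : (s : ℝ) ≤ ((i.val + 1 : ℕ) : ℝ) / n := s2
    have a3 : ((i.val : ℝ) / n) ≤ t := t1
    have a4 : (t : ℝ) ≤ ((i.val + 1 : ℕ) : ℝ) / n := t2
    push_cast at a2 a4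
    rw [add_div] at a2 a4
    have a5 : dist s t ≤ 1 / n := by
      rw [Subtype.dist_eq, Real.dist_eq, abs_le]
      constructor <;> linarith
    rw [div_lt_iff₀ hε] at hn
    calc L * dist s t ≤ L * (1 / n) := by gcongr
      _ ≤ ε := by rw [mul_one_div, div_le_iff₀ hn0]; linarith

end General

/-- The topologist's sine curve. -/
def S : Set (ℝ × ℝ) :=
  {p | 0 ≤ p.1 ∧ p.1 ≤ 1 ∧ -1 ≤ p.2 ∧ p.2 ≤ 1 ∧ p.1 * p.2 = p.1 * cos (π / p.1)}

lemma cont_aux : Continuous (fun x : ℝ => x * cos (π / x)) := by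
  rw [continuous_iff_continuousAt]
  intro x
  by_cases h : x = 0
  · subst h
    unfold ContinuousAt
    simp only [zero_mul]
    refine squeeze_zero_norm (a := fun x : ℝ => ‖x‖) (fun y => ?_) ?_
    · rw [norm_mul]
      exact mul_le_of_le_one_right (norm_nonneg _) (abs_cos_le_one _)
    · exact tendsto_norm_zero
  · fun_prop (disch := exact h)

lemma S_compact : IsCompact S := by
  have hc : IsClosed S := by
    refine (isClosed_le continuous_const continuous_fst).inter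
      ((isClosed_le continuous_fst continuous_const).inter
      ((isClosed_le continuous_const continuous_snd).inter
      ((isClosed_le continuous_snd continuous_const).inter
      (isClosed_eq (by fun_prop) (cont_aux.comp continuous_fst)))))
  refine ((isCompact_Icc (a := (0 : ℝ)) (b := 1)).prod
    (isCompact_Icc (a := (-1 : ℝ)) (b := 1))).of_isClosed_subset hc ?_
  rintro p ⟨h1, h2, h3, h4, -⟩
  exact ⟨⟨h1, h2⟩, ⟨h3, h4⟩⟩

def cone (p : (ℝ × ℝ) × ℝ) : ℝ × ℝ × ℝ := ((1 - p.2) * p.1.1, (1 - p.2) * p.1.2, p.2)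

/-- Parameters: the curve at height zero and the vertical segments over its peaks. -/
def K : Set ((ℝ × ℝ) × ℝ) := {p | p.1 ∈ S ∧ 0 ≤ p.2 ∧ p.2 ≤ 1 ∧ p.2 * (p.1.2 ^ 2 - 1) = 0}

def XS : Set (ℝ × ℝ × ℝ) := cone '' K

lemma XS_compact : IsCompact XS := by
  refine IsCompact.image ?_ (by unfold cone; fun_prop)
  refine (S_compact.prod (isCompact_Icc (a := (0 : ℝ)) (b := 1))).of_isClosed_subset ?_ ?_
  · exact (S_compact.isClosed.preimage continuous_fst).inter
      ((isClosed_le continuous_const continuous_snd).inter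
      ((isClosed_le continuous_snd continuous_const).inter
      (isClosed_eq (by fun_prop) continuous_const)))
  · rintro p ⟨h1, h2, h3, -⟩
    exact ⟨h1, h2, h3⟩

abbrev X : Type := XS

instance : CompactSpace X := isCompact_iff_compactSpace.1 XS_compact

def hub : X := ⟨(0, 0, 1), ((0, 1), 1), by simp [K, S], by simp [cone]⟩

/-- A path in `X` given by a curve of parameters. -/
noncomputable def mkPath (a b : X) (f : ℝ → ℝ × ℝ × ℝ) (hc : ContinuousOn f (Icc 0 1))
    (hf : ∀ t ∈ Icc (0 : ℝ) 1, f t ∈ XS) (h0 : f 0 = a) (h1 : f 1 = b) : Path a b where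
  toFun t := ⟨f t, hf t t.2⟩
  continuous_toFun := (continuousOn_iff_continuous_domRestrict.1 hc).subtype_mk _
  source' := Subtype.ext h0
  target' := Subtype.ext h1

def J (L : ℝ) (a b : X) : Prop := ∃ p : Path a b, ∀ s t, dist (p s) (p t) ≤ L * dist s t

lemma J.trans {L : ℝ} {a b c : X} (h : J L a b) (h' : J L b c) : J (2 * L) a c := by
  obtain ⟨p, hp⟩ := h
  obtain ⟨q, hq⟩ := h'
  exact ⟨p.trans q, lip_trans p q L hp hq⟩

lemma J.symm {L : ℝ} {a b : X} (h : J L a b) : J L b a := by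
  obtain ⟨p, hp⟩ := h
  exact ⟨p.symm, lip_symm p L hp⟩

lemma J.mono {L L' : ℝ} {a b : X} (h : J L a b) (hL : L ≤ L') : J L' a b := by
  obtain ⟨p, hp⟩ := h
  exact ⟨p, fun s t => (hp s t).trans (by gcongr)⟩

lemma J_of (L : ℝ) (a b : X) (f : ℝ → ℝ × ℝ × ℝ)
    (hl : ∀ s ∈ Icc (0 : ℝ) 1, ∀ t ∈ Icc (0 : ℝ) 1, dist (f s) (f t) ≤ L * dist s t) (hL : 0 ≤ L)
    (hf : ∀ t ∈ Icc (0 : ℝ) 1, f t ∈ XS) (h0 : f 0 = a) (h1 : f 1 = b) : J L a b :=
  ⟨mkPath a b f (LipschitzOnWith.of_dist_le_mul (K := ⟨L, hL⟩) hl).continuousOn hf h0 h1,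
    fun s t => hl s s.2 t t.2⟩

lemma peak_J (p : (ℝ × ℝ) × ℝ) (hp : p ∈ K) (h : p.1.2 ^ 2 = 1) :
    J 4 ⟨cone p, p, hp, rfl⟩ hub := by
  obtain ⟨⟨x, y⟩, z⟩ := p
  obtain ⟨hS, z0, z1, -⟩ := hp
  have ⟨x0, x1, y0, y1, _⟩ := hS
  simp only at *
  refine J_of 4 _ _ (fun t => cone ((x, y), z + t * (1 - z))) ?_ (by norm_num) ?_ (by simp)
    (by simp [cone, hub])
  · intro s _ t _
    have hd : 0 ≤ |s - t| := abs_nonneg _
    have hz : |1 - z| ≤ 1 := abs_le.2 ⟨by linarith, by linarith⟩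
    have hx : |x| ≤ 1 := abs_le.2 ⟨by linarith, by linarith⟩
    have hy : |y| ≤ 1 := abs_le.2 ⟨by linarith, by linarith⟩
    have hz0 := abs_nonneg (1 - z)
    simp only [cone, Prod.dist_eq, Real.dist_eq, max_le_iff]
    refine ⟨?_, ?_, ?_⟩
    · rw [show (1 - (z + s * (1 - z))) * x - (1 - (z + t * (1 - z))) * x =
        -((s - t) * ((1 - z) * x)) by ring, abs_neg, abs_mul, abs_mul]
      have := mul_le_one₀ hz (abs_nonneg x) hx
      nlinarith
    · rw [show (1 - (z + s * (1 - z))) * y - (1 - (z + t * (1 - z))) * y =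
        -((s - t) * ((1 - z) * y)) by ring, abs_neg, abs_mul, abs_mul]
      have := mul_le_one₀ hz (abs_nonneg y) hy
      nlinarith
    · rw [show z + s * (1 - z) - (z + t * (1 - z)) = (s - t) * (1 - z) by ring, abs_mul]
      nlinarith
  · rintro t ⟨t0, t1⟩
    exact ⟨_, ⟨hS, by simp only; nlinarith, by simp only; nlinarith, by simp [h]⟩, rfl⟩

/-- The point of the ray with parameter `u ≥ 1`. -/
noncomputable def ray (u : ℝ) : ℝ × ℝ := (1 / u, cos (π * u))

lemma ray_mem {u : ℝ} (hu : 1 ≤ u) : ray u ∈ S := by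
  refine ⟨by simp only [ray]; positivity, ?_, neg_one_le_cos _, cos_le_one _, ?_⟩
  · simp only [ray]
    rw [div_le_one (by linarith)]
    exact hu
  · simp [ray]

lemma ray_K {u : ℝ} (hu : 1 ≤ u) : (ray u, 0) ∈ K := ⟨ray_mem hu, le_rfl, by simp, by simp⟩

lemma ray_peak (k : ℤ) : (ray k).2 ^ 2 = 1 := by
  simp only [ray]
  have := sin_int_mul_pi k
  rw [cos_sq', mul_comm, this]
  norm_num

lemma to_hub (a : X) : J 8 a hub := by
  obtain ⟨_, ⟨⟨x, y⟩, z⟩, hp, rfl⟩ := a
  by_cases h : y ^ 2 = 1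
  · exact (peak_J _ hp h).mono (by norm_num)
  have ⟨⟨x0, x1, y0, y1, hxy⟩, _, _, hz⟩ := hp
  simp only at x0 x1 y0 y1 hxy hz
  obtain rfl : z = 0 := (mul_eq_zero.1 hz).resolve_right (fun h' => h (by linarith))
  rw [show (8 : ℝ) = 2 * 4 by norm_num]
  rcases x0.eq_or_lt with rfl | x0
  · have hK : (((0 : ℝ), (1 : ℝ)), (0 : ℝ)) ∈ K := by simp [K, S]
    refine J.trans ?_ (peak_J _ hK (by simp))
    refine J_of 4 _ _ (fun t => (0, y + t * (1 - y), 0)) ?_ (by norm_num) ?_ (by simp [cone])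
      (by simp [cone])
    · intro s _ t _
      have hd : 0 ≤ |s - t| := abs_nonneg _
      have hy : |1 - y| ≤ 2 := abs_le.2 ⟨by linarith, by linarith⟩
      simp only [Prod.dist_eq, Real.dist_eq, max_le_iff, sub_self, abs_zero]
      refine ⟨by positivity, ?_, by positivity⟩
      rw [show y + s * (1 - y) - (y + t * (1 - y)) = (s - t) * (1 - y) by ring, abs_mul]
      nlinarith
    · rintro t ⟨t0, t1⟩
      refine ⟨((0, y + t * (1 - y)), 0), ⟨⟨le_rfl, by simp, ?_, ?_, by simp⟩, le_rfl, by simp,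
        by simp⟩, by simp [cone]⟩ <;> simp only <;> nlinarith
  · have hy : y = cos (π / x) := mul_left_cancel₀ x0.ne' hxy
    set u := 1 / x with hu
    have u1 : 1 ≤ u := by rw [hu, le_div_iff₀ x0]; linarith
    have f1 : (1 : ℝ) ≤ ⌊u⌋ := by exact_mod_cast Int.le_floor.2 (by exact_mod_cast u1)
    have f2 := Int.floor_le u
    have f3 := Int.lt_floor_add_one u
    refine J.trans ?_ (peak_J _ (ray_K f1) (ray_peak _))
    have ge1 : ∀ t ∈ Icc (0 : ℝ) 1, 1 ≤ u + t * (⌊u⌋ - u) := by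
      rintro t ⟨t0, t1⟩
      nlinarith
    refine J_of 4 _ _ (fun t => cone (ray (u + t * (⌊u⌋ - u)), 0)) ?_ (by norm_num)
      (fun t ht => ⟨_, ray_K (ge1 t ht), rfl⟩) (by simp [ray, hu, hy, div_eq_mul_inv]) (by simp)
    intro s hs t ht
    have a1 := ge1 s hs
    have a2 := ge1 t ht
    have hd : 0 ≤ |s - t| := abs_nonneg _
    have hk : |(⌊u⌋ : ℝ) - u| ≤ 1 := abs_le.2 ⟨by linarith, by linarith⟩
    have hab : |u + s * (⌊u⌋ - u) - (u + t * (⌊u⌋ - u))| ≤ |s - t| := by
      rw [show u + s * (⌊u⌋ - u) - (u + t * (⌊u⌋ - u)) = (s - t) * (⌊u⌋ - u) by ring, abs_mul]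
      nlinarith
    generalize u + s * (⌊u⌋ - u) = A at *
    generalize u + t * (⌊u⌋ - u) = B at *
    simp only [cone, ray, Prod.dist_eq, Real.dist_eq, max_le_iff, sub_self, abs_zero, sub_zero,
      one_mul]
    refine ⟨?_, ?_, by positivity⟩
    · rw [div_sub_div _ _ (by linarith) (by linarith), abs_div, abs_of_pos (a := A * B) (by nlinarith),
        div_le_iff₀ (by nlinarith), one_mul, mul_one, abs_sub_comm]
      have : 1 ≤ A * B := by nlinarith
      nlinarith
    · refine (abs_cos_sub_cos_le _ _).trans ?_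
      rw [← mul_sub, abs_mul, abs_of_pos pi_pos]
      have := pi_le_four
      have := abs_nonneg (A - B)
      nlinarith

lemma J_all (a b : X) : J 16 a b := by
  rw [show (16 : ℝ) = 2 * 8 by norm_num]
  exact (to_hub a).trans (to_hub b).symm

instance : PathConnectedSpace X := ⟨⟨hub⟩, fun a b => ⟨(J_all a b).choose⟩⟩

lemma unif_path (a b : X) : ∃ P : Set (Path a b),
    (∀ ε : ℝ, ε > 0 → ∃ n : ℕ, ∀ p ∈ P, ∃ t : Fin (n + 1) → unitInterval,
      t 0 = 0 ∧ t (Fin.last n) = 1 ∧ StrictMono t ∧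
      ∀ i : Fin n, Metric.diam (⇑p '' Set.Icc (t i.castSucc) (t i.succ)) ≤ ε) ∧
    (⋃ p ∈ P, Set.range ⇑p) = Set.univ := by
  refine ⟨{p | ∀ s t, dist (p s) (p t) ≤ 2 * 16 * dist s t}, fun ε hε => ?_, ?_⟩
  · obtain ⟨n, hn⟩ := uniform_of_lip (X := X) (2 * 16) (by norm_num) ε hε
    exact ⟨n, fun p hp => hn a b p hp⟩
  · rw [Set.eq_univ_iff_forall]
    intro z
    obtain ⟨p, hp⟩ := J_all a z
    obtain ⟨q, hq⟩ := J_all z b
    simp only [Set.mem_iUnion]
    refine ⟨p.trans q, lip_trans p q 16 hp hq, ?_⟩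
    rw [Path.trans_range]
    exact Or.inl ⟨1, p.target⟩

noncomputable def start : X := ⟨cone (ray 1, 0), _, ray_K le_rfl, rfl⟩

lemma exists_arc (k : ℕ) (hk : 2 ≤ k) : ∃ q : Path hub start, Function.Injective q ∧
    ∃ t, (q t).1 = cone (ray k, 1 / 2) := by
  have k2 : (2 : ℝ) ≤ k := by exact_mod_cast hk
  let u : ℝ → ℝ := fun t => k - (k - 1) * max 0 (2 * t - 1)
  have u1 : ∀ t ∈ Icc (0 : ℝ) 1, 1 ≤ u t := by
    rintro t ⟨t0, t1⟩
    have : max 0 (2 * t - 1) ≤ 1 := max_le (by norm_num) (by linarith)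
    simp only [u]
    nlinarith
  refine ⟨mkPath hub start (fun t => cone (ray (u t), max 0 (1 - 2 * t))) ?_ ?_
    (by simp [cone, hub]) (by norm_num [u, start]), ?_, ⟨1 / 4, by norm_num, by norm_num⟩, ?_⟩
  · simp only [cone, ray]
    have hu : Continuous u := by fun_prop
    refine ContinuousOn.prodMk (ContinuousOn.mul (by fun_prop) ?_) (by fun_prop)
    exact continuousOn_const.div hu.continuousOn (fun t ht => by linarith [u1 t ht])
  · intro t ht
    refine ⟨_, ⟨ray_mem (u1 t ht), le_max_left _ _, max_le (by norm_num) (by linarith [ht.1]), ?_⟩,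
      rfl⟩
    rcases le_total t (1 / 2) with h | h
    · have : u t = ((k : ℤ) : ℝ) := by
        simp only [u]
        rw [max_eq_left (by linarith)]
        simp
      simp only [this, ray_peak]
      simp
    · simp only
      rw [max_eq_left (by linarith), zero_mul]
  · intro s t hst
    have h := congrArg Subtype.val hst
    change cone (ray (u s), max 0 (1 - 2 * (s : ℝ))) = cone (ray (u t), max 0 (1 - 2 * (t : ℝ))) at h
    simp only [cone, Prod.mk.injEq, ray] at h
    obtain ⟨h1, -, h3⟩ := h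
    apply Subtype.ext
    rcases lt_or_ge (s : ℝ) (1 / 2) with a | a <;> rcases lt_or_ge (t : ℝ) (1 / 2) with b | b
    · rw [max_eq_right (by linarith), max_eq_right (by linarith)] at h3
      linarith
    · rw [max_eq_right (by linarith), max_eq_left (by linarith)] at h3
      linarith
    · rw [max_eq_left (by linarith), max_eq_right (by linarith)] at h3
      linarith
    · rw [max_eq_left (by linarith), max_eq_left (by linarith)] at h1
      simp only [sub_zero, one_mul, one_div, inv_inj, u] at h1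
      rw [max_eq_right (by linarith), max_eq_right (by linarith)] at h1
      have : ((k : ℝ) - 1) * (2 * s - 1) = (k - 1) * (2 * t - 1) := by linarith
      have := mul_left_cancel₀ (by linarith) this
      linarith
  · change cone (ray (u (1 / 4)), max 0 (1 - 2 * (1 / 4 : ℝ))) = _
    norm_num [u]

noncomputable def r (w : X) : ℝ := w.1.1 / (1 - w.1.2.2)

lemma z_lt (w : X) (h : w ≠ hub) : w.1.2.2 < 1 := by
  obtain ⟨_, ⟨⟨x, y⟩, z⟩, hp, rfl⟩ := w
  refine lt_of_le_of_ne hp.2.2.1 (fun hz => h (Subtype.ext ?_))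
  have : z = 1 := hz
  simp [cone, hub, this]

lemma cos_third (j : ℕ) : cos (π * (j + 1 / 3)) = (-1) ^ j / 2 := by
  rw [show π * (j + 1 / 3) = π / 3 + j * π by ring, cos_add_nat_mul_pi, cos_pi_div_three]
  ring

lemma level (w : X) (h : w ≠ hub) (j : ℕ) (hr : r w = 1 / (j + 1 / 3)) :
    w.1.2.1 = (-1) ^ j / 2 := by
  have hz := z_lt w h
  obtain ⟨_, ⟨⟨x, y⟩, z⟩, hK, rfl⟩ := w
  have ⟨⟨_, _, _, _, hxy⟩, _, _, h3⟩ := hK
  simp only [r, cone] at hr hz hxy h3 ⊢
  rw [mul_div_cancel_left₀ _ (by linarith)] at hr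
  have x0 : x ≠ 0 := by rw [hr]; positivity
  have hy := mul_left_cancel₀ x0 hxy
  rw [hr, div_div_eq_mul_div, div_one, cos_third] at hy
  have : y ^ 2 = 1 / 4 := by
    rw [hy, div_pow, ← pow_mul, mul_comm, pow_mul]
    norm_num
  have hz0 : z = 0 := (mul_eq_zero.1 h3).resolve_right (by rw [this]; norm_num)
  rw [hz0, hy]
  simp

lemma not_unif_arc : ¬ ∃ P : Set (Path hub start), (∀ p ∈ P, Function.Injective ⇑p) ∧
    (∀ ε : ℝ, ε > 0 → ∃ n : ℕ, ∀ p ∈ P, ∃ t : Fin (n + 1) → unitInterval,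
      t 0 = 0 ∧ t (Fin.last n) = 1 ∧ StrictMono t ∧
      ∀ i : Fin n, Metric.diam (⇑p '' Set.Icc (t i.castSucc) (t i.succ)) ≤ ε) ∧
    (⋃ p ∈ P, Set.range ⇑p) =
      ⋃ (q : Path hub start) (_ : Function.Injective ⇑q), Set.range ⇑q := by
  rintro ⟨P, hinj, hu, hU⟩
  obtain ⟨n, hn⟩ := hu (1 / 2) (by norm_num)
  obtain ⟨q, hq, s, hs⟩ := exists_arc (2 * n + 2) (by omega)
  have hm : q s ∈ ⋃ p ∈ P, Set.range ⇑p := by
    rw [hU]
    simp only [Set.mem_iUnion]
    exact ⟨q, hq, s, rfl⟩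
  simp only [Set.mem_iUnion] at hm
  obtain ⟨p, hp, t0, ht0⟩ := hm
  obtain ⟨t, t1, t2, t3, t4⟩ := hn p hp
  rw [← ht0] at hs
  have ne : ∀ s, t0 ≤ s → p s ≠ hub := by
    intro s hs' h
    have h0 : s = 0 := hinj p hp (h.trans p.source.symm)
    have : t0 = 0 := le_antisymm (h0 ▸ hs') t0.2.1
    rw [this, p.source] at hs
    have := congrArg (fun w => w.2.2) hs
    norm_num [hub, cone] at this
  have hc : ContinuousOn (fun s => r (p s)) (Ici t0) := by
    unfold r
    refine ContinuousOn.div (by fun_prop) (by fun_prop) (fun s hs => ?_)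
    linarith [z_lt _ (ne s hs)]
  have key : ∀ i : ℕ, ∀ hi : i < n + 1,
      r (p (max (t ⟨i, hi⟩) t0)) ≤ 1 / (2 * ((n - i : ℕ) : ℝ) + 2) := by
    intro i
    induction i with
    | zero =>
      intro hi
      have : t ⟨0, hi⟩ = 0 := t1
      rw [this, max_eq_right (show (0 : unitInterval) ≤ t0 from t0.2.1)]
      simp only [r, hs, cone, ray]
      apply le_of_eq
      push_cast
      field_simp
      simp
    | succ i ih =>
      intro hi
      have hi' : i < n := by omega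
      have h1 := ih (by omega)
      obtain ⟨d, hd⟩ : ∃ d, n - i = d + 1 := ⟨n - i - 1, by omega⟩
      rw [hd] at h1
      rw [show n - (i + 1) = d by omega]
      push_cast at h1
      have d0 : (0 : ℝ) ≤ d := Nat.cast_nonneg d
      by_contra h2
      push Not at h2
      have hle : t ⟨i, by omega⟩ ≤ t ⟨i + 1, hi⟩ := t3.monotone (by simp)
      have c1 : 1 / (2 * ((d : ℝ) + 1) + 2) ≤ 1 / (((2 * d + 3 : ℕ) : ℝ) + 1 / 3) := by
        push_cast
        exact one_div_le_one_div_of_le (by positivity) (by linarith)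
      have c2 : 1 / (((2 * d + 3 : ℕ) : ℝ) + 1 / 3) ≤ 1 / (((2 * d + 2 : ℕ) : ℝ) + 1 / 3) := by
        push_cast
        exact one_div_le_one_div_of_le (by positivity) (by linarith)
      have c3 : 1 / (((2 * d + 2 : ℕ) : ℝ) + 1 / 3) ≤ 1 / (2 * (d : ℝ) + 2) := by
        push_cast
        exact one_div_le_one_div_of_le (by positivity) (by linarith)
      rcases le_total (t ⟨i + 1, hi⟩) t0 with h | h
      · rw [max_eq_right h] at h2
        rw [max_eq_right (hle.trans h)] at h1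
        linarith
      rw [max_eq_left h] at h2
      have hiv := intermediate_value_Icc (max_le hle h)
        (hc.mono (fun s hs => (le_max_right _ _).trans hs.1))
      obtain ⟨a, ha, ha'⟩ := hiv (a := 1 / (((2 * d + 3 : ℕ) : ℝ) + 1 / 3))
        ⟨by linarith, by linarith⟩
      obtain ⟨b, hb, hb'⟩ := hiv (a := 1 / (((2 * d + 2 : ℕ) : ℝ) + 1 / 3))
        ⟨by linarith, by linarith⟩
      have la := level _ (ne a ((le_max_right _ _).trans ha.1)) _ ha'
      have lb := level _ (ne b ((le_max_right _ _).trans hb.1)) _ hb'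
      have hd := Metric.dist_le_diam_of_mem (s := ⇑p '' Set.Icc (t ⟨i, by omega⟩) (t ⟨i + 1, hi⟩))
        Metric.isBounded_of_compactSpace ⟨a, ⟨(le_max_left _ _).trans ha.1, ha.2⟩, rfl⟩
        ⟨b, ⟨(le_max_left _ _).trans hb.1, hb.2⟩, rfl⟩
      have h5 := hd.trans (t4 ⟨i, hi'⟩)
      rw [Subtype.dist_eq, Prod.dist_eq, Prod.dist_eq, max_le_iff, max_le_iff, la, lb,
        Real.dist_eq, Real.dist_eq] at h5
      have h6 := h5.2.1
      rw [pow_add, pow_add, pow_mul] at h6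
      norm_num at h6
  have h1 := key n (by omega)
  have : t ⟨n, by omega⟩ = 1 := t2
  rw [this, max_eq_left (show t0 ≤ (1 : unitInterval) from t0.2.2), p.target] at h1
  norm_num [r, start, cone, ray] at h1

end Pool.Agent.H33.HubCurve
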