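import Mathlib
import Pool.Agent.H33.DimZero

set_option autoImplicit false
open Set Topology TopologicalSpace Metric Filter

namespace Pool.Agent.H33.Icd
open Pool.Agent.H33.DimZero

lemma polish_Gδ {Y : Type*} [TopologicalSpace Y] [PolishSpace Y] {H : Set Y} (hH : IsGδ H) :
    PolishSpace H := by
  obtain ⟨O, hO, rfl⟩ := hH.eq_iInter_nat
  have := fun m => (hO m).polishSpace
  let e : ↥(⋂ m, O m) → ∀ m, O m := fun x m => ⟨x.1, mem_iInter.mp x.2 m⟩
  have hc : Continuous e := continuous_pi fun m => continuous_subtype_val.subtype_mk _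
  have he : IsEmbedding e := IsEmbedding.of_comp hc
    (continuous_subtype_val.comp (continuous_apply 0)) IsEmbedding.subtypeVal
  have hr : range e = ⋂ m, {z : ∀ m, O m | (z m : Y) = z 0} := by
    ext z
    simp only [mem_iInter, mem_ofPred_eq]
    constructor
    · rintro ⟨x, rfl⟩ m; rfl
    · intro h
      exact ⟨⟨z 0, mem_iInter.mpr fun m => h m ▸ (z m).2⟩, funext fun m => Subtype.ext (h m).symm⟩
  refine IsClosedEmbedding.polishSpace (f := e) ⟨he, ?_⟩
  rw [hr]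
  exact isClosed_iInter fun m => isClosed_eq (continuous_subtype_val.comp (continuous_apply m))
    (continuous_subtype_val.comp (continuous_apply 0))

/-- Lavrentiev extension -/
lemma lav {A X Y : Type*} [TopologicalSpace A] [MetricSpace X] [MetricSpace Y] [CompleteSpace Y]
    {j : A → X} (hj : IsEmbedding j) {f : A → Y} (hf : IsEmbedding f) :
    ∃ H : Set X, IsGδ H ∧ range j ⊆ H ∧ ∃ F : H → Y, IsInducing F ∧
      ∀ x : H, F x ∈ range f → x.1 ∈ range j := by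
  let G : ℝ → Set X → Prop := fun ε U => IsOpen U ∧ ∃ V : Set Y, IsOpen V ∧
    closure (f '' (j ⁻¹' U)) ⊆ V ∧ (∀ a a', j a ∈ U → j a' ∈ U → dist (f a) (f a') ≤ ε) ∧
    ∀ a a', f a ∈ V → f a' ∈ V → dist (j a) (j a') ≤ ε
  let H : Set X := closure (range j) ∩ ⋂ m : ℕ, ⋃₀ {U | G (1 / ((m : ℝ) + 1)) U}
  have hG : ∀ x ∈ H, ∀ ε, 0 < ε → ∃ U, x ∈ U ∧ G ε U := fun x hx ε hε => by
    obtain ⟨m, hm⟩ := exists_nat_one_div_lt hε
    obtain ⟨U, ⟨h1, V, h2, h3, h4, h5⟩, hxU⟩ := mem_iInter.mp hx.2 m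
    exact ⟨U, hxU, h1, V, h2, h3, fun a a' h h' => (h4 a a' h h').trans hm.le,
      fun a a' h h' => (h5 a a' h h').trans hm.le⟩
  have hne : ∀ x ∈ H, (comap j (𝓝 x)).NeBot := fun x hx =>
    comap_neBot fun t ht => by
      obtain ⟨_, h1, a, rfl⟩ := mem_closure_iff_nhds.mp hx.1 t ht
      exact ⟨a, h1⟩
  have hlim : ∀ x : H, ∃ y, Tendsto f (comap j (𝓝 x.1)) (𝓝 y) := fun x => by
    have := hne x x.2
    apply CompleteSpace.complete
    rw [Metric.cauchy_iff]
    refine ⟨inferInstance, fun ε hε => ?_⟩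
    obtain ⟨U, hxU, h1, V, -, -, h4, -⟩ := hG x x.2 (ε / 2) (half_pos hε)
    refine ⟨f '' (j ⁻¹' U), image_mem_map (preimage_mem_comap (h1.mem_nhds hxU)), ?_⟩
    rintro _ ⟨a, ha, rfl⟩ _ ⟨a', ha', rfl⟩
    exact (h4 a a' ha ha').trans_lt (half_lt_self hε)
  choose F hF using hlim
  have hcl : ∀ (x : H) (U : Set X), IsOpen U → x.1 ∈ U → F x ∈ closure (f '' (j ⁻¹' U)) :=
    fun x U hU hx => by
      have := hne x x.2
      exact mem_closure_of_tendsto (hF x) (mem_of_superset (preimage_mem_comap (hU.mem_nhds hx))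
        fun a ha => ⟨a, ha, rfl⟩)
  have near : ∀ (x : H) (V : Set Y), IsOpen V → F x ∈ V → ∀ δ, 0 < δ →
      ∃ a, f a ∈ V ∧ dist (j a) x.1 < δ := fun x V hV hx δ hδ => by
    have := hne x x.2
    exact (((hF x).eventually (hV.mem_nhds hx)).and
      (preimage_mem_comap (ball_mem_nhds x.1 hδ))).exists
  refine ⟨H, isClosed_closure.isGδ.inter (IsGδ.iInter_of_isOpen fun m =>
    isOpen_sUnion fun U hU => hU.1), ?_, F, ?_, ?_⟩
  · rintro _ ⟨a, rfl⟩
    refine ⟨subset_closure ⟨a, rfl⟩, mem_iInter.mpr fun m => ?_⟩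
    have hε : (0 : ℝ) < 1 / ((m : ℝ) + 1) / 2 := by positivity
    have h1 : j ⁻¹' ball (j a) (1 / ((m : ℝ) + 1) / 2) ∈ 𝓝 a :=
      hj.continuous.continuousAt.preimage_mem_nhds (ball_mem_nhds _ hε)
    rw [hf.nhds_eq_comap] at h1
    obtain ⟨W, hW, hW'⟩ := h1
    obtain ⟨V0, hV0, hV0c, hV0W⟩ := exists_mem_nhds_isClosed_subset (interior_mem_nhds.mpr hW)
    have h2 : f ⁻¹' (V0 ∩ ball (f a) (1 / ((m : ℝ) + 1) / 2)) ∈ 𝓝 a :=
      hf.continuous.continuousAt.preimage_mem_nhds (inter_mem hV0 (ball_mem_nhds _ hε))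
    rw [hj.nhds_eq_comap] at h2
    obtain ⟨U, hU, hU'⟩ := h2
    refine ⟨interior U, ⟨isOpen_interior, interior W, isOpen_interior,
      (closure_minimal ?_ hV0c).trans hV0W, fun b b' h h' => ?_, fun b b' h h' => ?_⟩,
      mem_interior_iff_mem_nhds.mpr hU⟩
    · rintro _ ⟨b, hb, rfl⟩
      exact (hU' (interior_subset hb : j b ∈ U)).1
    · have a1 : dist (f b) (f a) < _ := (hU' (interior_subset h : j b ∈ U)).2
      have a2 : dist (f b') (f a) < _ := (hU' (interior_subset h' : j b' ∈ U)).2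
      linarith [dist_triangle_right (f b) (f b') (f a)]
    · have a1 : dist (j b) (j a) < _ := hW' (interior_subset h : f b ∈ W)
      have a2 : dist (j b') (j a) < _ := hW' (interior_subset h' : f b' ∈ W)
      linarith [dist_triangle_right (j b) (j b') (j a)]
  · rw [isInducing_iff_nhds]
    intro x
    apply le_antisymm
    · rw [← tendsto_iff_comap, Metric.tendsto_nhds]
      intro ε hε
      obtain ⟨U, hxU, h1, V, -, -, h4, -⟩ := hG x x.2 (ε / 2) (half_pos hε)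
      filter_upwards [(h1.preimage continuous_subtype_val).mem_nhds hxU] with z hz
      have b1 : ∀ a, j a ∈ U → dist (F z) (f a) ≤ ε / 2 := fun a ha =>
        closure_minimal (t := {y | dist y (f a) ≤ ε / 2}) (by
          rintro _ ⟨b, hb, rfl⟩; exact h4 b a hb ha)
          (isClosed_le (by fun_prop) continuous_const) (hcl z U h1 hz)
      have b2 : dist (F z) (F x) ≤ ε / 2 :=
        closure_minimal (t := {y | dist (F z) y ≤ ε / 2}) (by
          rintro _ ⟨b, hb, rfl⟩; exact b1 b hb)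
          (isClosed_le (by fun_prop) continuous_const) (hcl x U h1 hxU)
      linarith
    · intro T hT
      obtain ⟨ε, hε, hεT⟩ := Metric.mem_nhds_iff.mp hT
      obtain ⟨U, hxU, h1, V, h2, h3, -, h5⟩ := hG x x.2 (ε / 3) (by positivity)
      have hx : F x ∈ V := h3 (hcl x U h1 hxU)
      refine ⟨V, h2.mem_nhds hx, fun z hz => hεT ?_⟩
      obtain ⟨a, a1, a2⟩ := near x V h2 hx (ε / 3) (by positivity)
      obtain ⟨b, b1, b2⟩ := near z V h2 hz (ε / 3) (by positivity)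
      have := h5 b a b1 a1
      change dist z.1 x.1 < ε
      rw [dist_comm] at b2
      linarith [dist_triangle4 z.1 (j b) (j a) x.1]
  · rintro x ⟨b, hb⟩
    refine ⟨b, eq_of_forall_dist_le fun ε hε => ?_⟩
    obtain ⟨U, hxU, h1, V, h2, h3, -, h5⟩ := hG x x.2 (ε / 2) (by positivity)
    have hx : F x ∈ V := h3 (hcl x U h1 hxU)
    obtain ⟨a, a1, a2⟩ := near x V h2 hx (ε / 2) (by positivity)
    linarith [h5 b a (hb ▸ hx) a1, dist_triangle (j b) (j a) x.1]

lemma decomp {Y : Type*} [TopologicalSpace Y] [SecondCountableTopology Y] [MetrizableSpace Y]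
    {n : ℕ} {N : Set Y} (h : US (n + 1) N) :
    ∃ H : Fin (n + 1) → Set Y, (∀ i, IsGδ (H i)) ∧ (∀ y, ∃ i, y ∈ H i) ∧
      ∀ i, Z0 (H i ∩ N : Set Y) := by
  obtain ⟨Z, h1, h2⟩ := h
  choose V hV hb using fun i => seq_base (fun V : Set Y => Disjoint (Z i) (frontier V))
    (by simp) (sep_pt (h1 i))
  let T : (Fin (n + 1) → ℕ) → Set Y := fun κ => ⋂ i, frontier (V i (κ i))
  let B : ℕ → Set Y := fun k => ⋃ κ ∈ Set.pi univ (fun _ : Fin (n + 1) => Iic k), T κ
  have hB : ∀ k, IsClosed (B k) := fun k =>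
    (Finite.pi fun _ => finite_Iic k).isClosed_biUnion fun κ _ =>
      isClosed_iInter fun i => isClosed_frontier
  refine ⟨fun i => ⋂ k, ((frontier (V i k))ᶜ ∪ B k), fun i => IsGδ.iInter fun k =>
    isClosed_frontier.isOpen_compl.isGδ.union (hB k).isGδ, fun y => ?_, fun i => ?_⟩
  · by_contra hn
    simp only [mem_iInter, not_exists, not_forall, mem_union, mem_compl_iff, not_or, not_not] at hn
    choose κ k1 k2 using hn
    obtain ⟨i, hi⟩ := Finite.exists_max κ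
    exact k2 i (mem_iUnion₂.mpr ⟨κ, fun j _ => hi j, mem_iInter.mpr k1⟩)
  · refine off_frontier (fun k => (hV i k).1) (hb i) fun k => disjoint_left.mpr fun z hz hz' => ?_
    obtain ⟨κ, -, hκ⟩ := mem_iUnion₂.mp ((mem_iInter.mp hz.1 k).resolve_left fun h => h hz')
    obtain ⟨j, hj⟩ := mem_iUnion.mp (h2 hz.2)
    exact disjoint_left.mp (hV j (κ j)).2 hj (mem_iInter.mp hκ j)

theorem main (ind : ℕ → (α : Type) → [TopologicalSpace α] → Prop)
    (H : ∀ (α : Type) [TopologicalSpace α], (ind 0 α ↔ IsEmpty α) ∧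
      ∀ k : ℕ, (ind (k + 1) α ↔ ∀ x : α, ∀ U ∈ nhds x, ∃ V : Set α,
        IsOpen V ∧ x ∈ V ∧ V ⊆ U ∧ ind k ↥(frontier V)))
    (X : Type) [TopologicalSpace X] [SeparableSpace X] [MetrizableSpace X] (n : ℕ) :
    ((∃ (Y : Type) (_ : TopologicalSpace Y), PolishSpace Y ∧
        ∃ f : X → Y, IsEmbedding f ∧ ind (n + 1) ↥(Set.range f)ᶜ) ↔
      ∃ A : Fin (n + 1) → Set X, (⋃ i, A i) = Set.univ ∧
        ∀ i, ∃ (Y : Type) (_ : TopologicalSpace Y), PolishSpace Y ∧
          ∃ f : ↥(A i) → Y, IsEmbedding f ∧ ind 1 ↥(Set.range f)ᶜ) := by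
  constructor
  · rintro ⟨Y, _, _, f, hf, hi⟩
    rw [ind_iff ind H, US_sub] at hi
    obtain ⟨G, g1, g2, g3⟩ := decomp hi
    refine ⟨fun i => f ⁻¹' G i, eq_univ_of_forall fun x => mem_iUnion.mpr (g2 _), fun i => ?_⟩
    have := polish_Gδ (g1 i)
    refine ⟨G i, inferInstance, this, (G i).restrictPreimage f, hf.restrictPreimage _, ?_⟩
    rw [ind_iff ind H, US_sub, US_one]
    refine Z0.mono ?_ ((g3 i).pre (IsInducing.subtypeVal (t := G i)))
    rintro z hz
    refine ⟨z.2, ?_⟩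
    rintro ⟨x, hx⟩
    exact hz ⟨⟨x, by rw [mem_preimage, hx]; exact z.2⟩, Subtype.ext hx⟩
  · rintro ⟨A, hA, h⟩
    let := metrizableSpaceMetric X
    let j : X → UniformSpace.Completion X := (↑)
    have hj : IsEmbedding j := (UniformSpace.Completion.isUniformEmbedding_coe X).isEmbedding
    have key : ∀ i, ∃ G : Set (UniformSpace.Completion X), IsGδ G ∧ j '' A i ⊆ G ∧
        Z0 (G \ range j : Set _) := by
      intro i
      obtain ⟨Y, _, _, f, hf, hi⟩ := h i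
      rw [ind_iff ind H, US_sub, US_one] at hi
      let := upgradeIsCompletelyMetrizable Y
      obtain ⟨G, g1, g2, F, g3, g4⟩ := lav (hj.comp (IsEmbedding.subtypeVal (p := (· ∈ A i)))) hf
      refine ⟨G, g1, by rintro _ ⟨x, hx, rfl⟩; exact g2 ⟨⟨x, hx⟩, rfl⟩, ?_⟩
      refine Z0.mono ?_ ((hi.pre g3).img IsEmbedding.subtypeVal)
      rintro z ⟨hz, hz'⟩
      refine ⟨⟨z, hz⟩, fun h => hz' ?_, rfl⟩
      obtain ⟨a, ha⟩ := g4 _ h
      exact ⟨a.1, ha⟩
    choose G g1 g2 g3 using key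
    have := polish_Gδ (IsGδ.iUnion g1)
    have hm : ∀ x, j x ∈ ⋃ i, G i := fun x => by
      obtain ⟨i, hi⟩ := mem_iUnion.mp (hA ▸ mem_univ x : x ∈ ⋃ i, A i)
      exact mem_iUnion.mpr ⟨i, g2 i ⟨x, hi, rfl⟩⟩
    refine ⟨↥(⋃ i, G i), inferInstance, this, codRestrict j _ hm, hj.codRestrict _ hm, ?_⟩
    rw [ind_iff ind H, US_sub]
    refine ⟨fun i => (↑) ⁻¹' (G i \ range j), fun i => (g3 i).pre IsInducing.subtypeVal,
      fun z hz => ?_⟩
    obtain ⟨i, hi⟩ := mem_iUnion.mp z.2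
    exact mem_iUnion.mpr ⟨i, hi, fun ⟨x, hx⟩ => hz ⟨x, Subtype.ext hx⟩⟩

end Pool.Agent.H33.Icd
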