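import Mathlib

set_option autoImplicit false
open Set Topology TopologicalSpace Filter

namespace Pool.Agent.H33.IsoSigma

theorem sigma_of_family {B : Type*} (T : Set (B → ℝ)) (hT : IsClosed T) (𝒦 : Set (Set (B → ℝ)))
    (hc : 𝒦.Countable) (hcl : ∀ K ∈ 𝒦, IsClosed K)
    (hb : ∀ t ∈ T, ∀ b, ∃ K ∈ 𝒦, t ∈ K ∧ ∃ M : ℝ, ∀ s ∈ K, |s b| ≤ M) :
    ∃ 𝓕 : Set (Set T), 𝓕.Countable ∧ ∀ g : T, ∃ C : Set T, IsCompact C ∧ g ∈ C ∧
      ∀ U : Set T, IsOpen U → C ⊆ U → ∃ F ∈ 𝓕, C ⊆ F ∧ F ⊆ U := by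
  refine ⟨(fun s => Subtype.val ⁻¹' ⋂₀ s) '' {s | s.Finite ∧ s ⊆ 𝒦},
    (countable_ofPred_finite_subset hc).image _, fun t => ?_⟩
  choose K hK htK M hM using hb t.1 t.2
  refine ⟨Subtype.val ⁻¹' ⋂₀ {K ∈ 𝒦 | t.1 ∈ K}, ?_, fun K hK => hK.2, fun U hU hCU => ?_⟩
  · rw [Subtype.isCompact_iff, Subtype.image_preimage_coe]
    refine (isCompact_univ_pi fun b => isCompact_Icc (a := -M b) (b := M b)).of_isClosed_subset
      (hT.inter (isClosed_sInter fun K hK => hcl K hK.1)) fun s hs b _ => ?_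
    exact abs_le.1 (hM b s (hs.2 _ ⟨hK b, htK b⟩))
  obtain ⟨U', hU', rfl⟩ := isOpen_induced_iff.1 hU
  by_contra h
  have hne : ∀ s : {s : Set (Set (B → ℝ)) // s.Finite ∧ s ⊆ {K ∈ 𝒦 | t.1 ∈ K}},
      (T ∩ ⋂₀ s.1 ∩ U'ᶜ).Nonempty := by
    intro s
    by_contra h'
    refine h ⟨_, ⟨s.1, ⟨s.2.1, fun K hK => (s.2.2 hK).1⟩, rfl⟩,
      preimage_mono (sInter_subset_sInter s.2.2), fun z hz => ?_⟩
    by_contra h''
    exact h' ⟨z.1, ⟨z.2, hz⟩, h''⟩
  have : Nonempty {s : Set (Set (B → ℝ)) // s.Finite ∧ s ⊆ {K ∈ 𝒦 | t.1 ∈ K}} :=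
    ⟨⟨∅, finite_empty, empty_subset _⟩⟩
  have hne' : (⨅ s : {s : Set (Set (B → ℝ)) // s.Finite ∧ s ⊆ {K ∈ 𝒦 | t.1 ∈ K}},
      𝓟 (T ∩ ⋂₀ s.1 ∩ U'ᶜ)).NeBot := by
    refine iInf_neBot_of_directed (fun a b => ⟨⟨a.1 ∪ b.1, a.2.1.union b.2.1,
      union_subset a.2.2 b.2.2⟩, ?_, ?_⟩) fun s => principal_neBot_iff.2 (hne s)
    · exact principal_mono.2 (inter_subset_inter_left _ (inter_subset_inter_right _
        (sInter_subset_sInter subset_union_left)))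
    · exact principal_mono.2 (inter_subset_inter_left _ (inter_subset_inter_right _
        (sInter_subset_sInter subset_union_right)))
  let u := Ultrafilter.of (⨅ s : {s : Set (Set (B → ℝ)) // s.Finite ∧ s ⊆ {K ∈ 𝒦 | t.1 ∈ K}},
      𝓟 (T ∩ ⋂₀ s.1 ∩ U'ᶜ))
  have hu : ∀ s : {s : Set (Set (B → ℝ)) // s.Finite ∧ s ⊆ {K ∈ 𝒦 | t.1 ∈ K}},
      T ∩ ⋂₀ s.1 ∩ U'ᶜ ∈ u := fun s => Ultrafilter.of_le _
    (mem_iInf_of_mem s (mem_principal_self _))
  have hu1 : ∀ K ∈ 𝒦, t.1 ∈ K → K ∈ u := fun K h1 h2 =>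
    mem_of_superset (hu ⟨{K}, finite_singleton K, singleton_subset_iff.2 ⟨h1, h2⟩⟩)
      fun s hs => hs.1.2 K rfl
  have hu0 := hu ⟨∅, finite_empty, empty_subset _⟩
  have : ∀ b, ∃ r, Tendsto (fun s : B → ℝ => s b) u (𝓝 r) := fun b => by
    have e : (fun s : B → ℝ => s b) ⁻¹' Icc (-M b) (M b) ∈ u :=
      mem_of_superset (hu1 (K b) (hK b) (htK b)) fun s hs => abs_le.1 (hM b s hs)
    obtain ⟨r, -, hr⟩ := (isCompact_Icc (a := -M b) (b := M b)).ultrafilter_le_nhds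
      (u.map fun s : B → ℝ => s b) (le_principal_iff.2 e)
    exact ⟨r, hr⟩
  choose z hz using this
  have hlim : (u : Filter (B → ℝ)) ≤ 𝓝 z := tendsto_pi_nhds.2 hz
  have key : ∀ A : Set (B → ℝ), IsClosed A → A ∈ u → z ∈ A := fun A hA hAu =>
    hA.mem_of_tendsto (f := id) hlim hAu
  have z1 := key T hT (mem_of_superset hu0 fun s hs => hs.1.1)
  have z2 := key U'ᶜ hU'.isClosed_compl (mem_of_superset hu0 fun s hs => hs.2)
  exact z2 (hCU (a := ⟨z, z1⟩) fun K hK => key K (hcl K hK.1) (hu1 K hK.1 hK.2))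

variable {X : Type*} [TopologicalSpace X]

/-- Evaluation map. -/
def E (x : X) : C(X, ℝ) → ℝ := fun f => f x

theorem E_cont : Continuous (E : X → C(X, ℝ) → ℝ) := continuous_pi fun f => f.continuous

theorem mem_closure_piece {Y : Set X} (hY : ∀ x ∉ Y, IsOpen ({x} : Set X))
    {t : C(X, ℝ) → ℝ} (ht : t ∈ closure (E '' Y)) {𝒦 : Set (Set X)} (hc : 𝒦.Countable)
    (hcov : Y ⊆ ⋃₀ 𝒦) : ∃ K ∈ 𝒦, t ∈ closure (E '' K) := by
  by_contra h
  push Not at h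
  have : ∀ K : 𝒦, ∃ Φ : (C(X, ℝ) → ℝ) → unitInterval, Continuous Φ ∧ Φ t = 0 ∧
      EqOn Φ 1 (closure (E '' K.1)) := fun K =>
    CompletelyRegularSpace.completely_regular t _ isClosed_closure (h K.1 K.2)
  choose Φ h1 h2 h3 using this
  have := hc.toEncodable
  have hs : Summable fun K : 𝒦 => (1 / 2 : ℝ) ^ Encodable.encode K := summable_geometric_two_encode
  have hle : ∀ (K : 𝒦) s, ‖(1 / 2 : ℝ) ^ Encodable.encode K * (Φ K s : ℝ)‖ ≤
      (1 / 2 : ℝ) ^ Encodable.encode K := fun K s => by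
    rw [Real.norm_eq_abs, abs_of_nonneg (mul_nonneg (by positivity) (Φ K s).2.1)]
    exact mul_le_of_le_one_right (by positivity) (Φ K s).2.2
  let Ψ : (C(X, ℝ) → ℝ) → ℝ := fun s => ∑' K : 𝒦, (1 / 2 : ℝ) ^ Encodable.encode K * (Φ K s : ℝ)
  have hΨ : Continuous Ψ := continuous_tsum
    (fun K => continuous_const.mul (continuous_subtype_val.comp (h1 K))) hs hle
  have hΨt : Ψ t = 0 := by simp [Ψ, h2]
  have hpos : ∀ y ∈ Y, 0 < Ψ (E y) := by
    intro y hy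
    obtain ⟨K, hK, hyK⟩ := hcov hy
    refine (Summable.of_norm_bounded hs fun K => hle K _).tsum_pos
      (fun K => mul_nonneg (by positivity) (Φ K _).2.1) ⟨K, hK⟩ ?_
    rw [h3 ⟨K, hK⟩ (subset_closure ⟨y, hyK, rfl⟩)]
    simp
  let φ : C(X, ℝ) := ⟨fun x => Ψ (E x), hΨ.comp E_cont⟩
  have hψ : Continuous fun x => (φ x)⁻¹ := by
    rw [continuous_iff_continuousAt]
    intro x
    by_cases hx : x ∈ Y
    · exact φ.continuous.continuousAt.inv₀ (hpos x hx).ne'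
    · rw [ContinuousAt, (isOpen_singleton_iff_nhds_eq_pure x).1 (hY x hx)]
      exact tendsto_pure_nhds _ _
  let ψ : C(X, ℝ) := ⟨_, hψ⟩
  have e1 : t ∈ {s : C(X, ℝ) → ℝ | Ψ s * s ψ = 1} := by
    refine closure_minimal ?_ (isClosed_eq (hΨ.mul (continuous_apply ψ)) continuous_const) ht
    rintro _ ⟨y, hy, rfl⟩
    exact mul_inv_cancel₀ (hpos y hy).ne'
  have e2 : Ψ t * t ψ = 1 := e1
  rw [hΨt, zero_mul] at e2
  exact zero_ne_one e2

/-- Points at which no two members of `N` agreeing elsewhere differ by at least `1/2`. -/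
def KK (N : Set (X → Icc (0:ℝ) 1)) : Set X :=
  {x | ∀ h ∈ N, ∀ h' ∈ N, (∀ z, z ≠ x → h z = h' z) → |(h x : ℝ) - h' x| < 1 / 2}

theorem local_nbhd {C : Set {f : X → Icc (0:ℝ) 1 // Continuous f}} (hC : IsCompact C)
    {y : X} (hy : ¬ IsOpen ({y} : Set X)) :
    ∃ U : Set {f : X → Icc (0:ℝ) 1 // Continuous f}, IsOpen U ∧ C ⊆ U ∧
      y ∈ KK (closure (Subtype.val '' U)) := by
  have hC' : IsCompact (Subtype.val '' C) := hC.image continuous_subtype_val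
  let D : Set ((X → Icc (0:ℝ) 1) × (X → Icc (0:ℝ) 1)) :=
    {p | (∀ z, z ≠ y → p.1 z = p.2 z) ∧ 1 / 2 ≤ |(p.1 y : ℝ) - p.2 y|}
  have hD : IsClosed D := by
    have c1 : IsClosed {p : (X → Icc (0:ℝ) 1) × (X → Icc (0:ℝ) 1) |
        1 / 2 ≤ |(p.1 y : ℝ) - p.2 y|} := isClosed_le continuous_const (by fun_prop)
    have c2 : IsClosed {p : (X → Icc (0:ℝ) 1) × (X → Icc (0:ℝ) 1) |
        ∀ z, z ≠ y → p.1 z = p.2 z} := ?_
    · exact c2.inter c1
    simp only [ofPred_forall]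
    exact isClosed_iInter fun z => isClosed_iInter fun _ => isClosed_eq (by fun_prop) (by fun_prop)
  have hsub : (Subtype.val '' C) ×ˢ (Subtype.val '' C) ⊆ Dᶜ := by
    rintro ⟨_, _⟩ ⟨⟨f, -, rfl⟩, ⟨g, -, rfl⟩⟩ ⟨h1, h2⟩
    have e1 : y ∈ closure ({y}ᶜ : Set X) := by
      rw [closure_compl, interior_singleton_eq_empty_of hy]; simp
    have e2 : f.1 y = g.1 y := closure_minimal (s := {y}ᶜ) (t := {z | f.1 z = g.1 z})
      (fun z hz => h1 z hz) (isClosed_eq f.2 g.2) e1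
    have h3 : 1 / 2 ≤ |(f.1 y : ℝ) - g.1 y| := h2
    rw [e2, sub_self, abs_zero] at h3
    linarith
  obtain ⟨O, hO, h1, h2⟩ := normal_exists_closure_subset (hC'.prod hC').isClosed
    hD.isOpen_compl hsub
  obtain ⟨u, v, hu, hv, h3, h4, h5⟩ := generalized_tube_lemma hC' hC' hO h1
  refine ⟨Subtype.val ⁻¹' (u ∩ v), (hu.inter hv).preimage continuous_subtype_val,
    fun f hf => ⟨h3 ⟨f, hf, rfl⟩, h4 ⟨f, hf, rfl⟩⟩, fun h hh h' hh' he => ?_⟩
  have e1 : (h, h') ∈ closure (u ×ˢ v) := by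
    rw [closure_prod_eq]
    exact ⟨closure_mono ((image_preimage_subset _ _).trans inter_subset_left) hh,
      closure_mono ((image_preimage_subset _ _).trans inter_subset_right) hh'⟩
  exact not_le.1 fun h6 => h2 (closure_mono h5 e1) ⟨he, h6⟩
where
  interior_singleton_eq_empty_of {y : X} (hy : ¬ IsOpen ({y} : Set X)) :
      interior ({y} : Set X) = ∅ := by
    by_contra h
    obtain ⟨z, hz⟩ := nonempty_iff_ne_empty.2 h
    have : z = y := (interior_subset hz : z ∈ ({y} : Set X))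
    subst this
    exact hy (by
      have : interior ({z} : Set X) = {z} :=
        subset_antisymm interior_subset (singleton_subset_iff.2 hz)
      rw [← this]; exact isOpen_interior)

theorem step [T35Space X] (f : X → ℝ) (hf : Continuous f) (hpos : ∀ x, 0 < f x)
    (N : Set (X → Icc (0:ℝ) 1)) (hN : IsClosed N)
    (p : {f : X → Icc (0:ℝ) 1 // Continuous f} × {ε : ℝ // 0 < ε}) :
    ∃ q : {f : X → Icc (0:ℝ) 1 // Continuous f} × {ε : ℝ // 0 < ε}, q.2.1 ≤ p.2.1 / 2 ∧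
      (∀ x, p.2.1 ≤ f x → q.1.1 x = p.1.1 x) ∧
      ((∀ x ∈ KK N, p.2.1 ≤ f x) ∨
        ∀ g : X → Icc (0:ℝ) 1, (∀ x, q.2.1 ≤ f x → g x = q.1.1 x) → g ∉ N) := by
  classical
  obtain ⟨h, ε, hε⟩ := p
  by_cases hP : ∀ g : {f : X → Icc (0:ℝ) 1 // Continuous f},
      (∀ x, ε ≤ f x → g.1 x = h.1 x) → g.1 ∈ N
  · refine ⟨(h, ⟨ε / 2, half_pos hε⟩), le_rfl, fun _ _ => rfl, Or.inl fun x hx => ?_⟩
    by_contra hlt
    have hlt : f x < ε := not_le.1 hlt
    have : ∃ t : Icc (0:ℝ) 1, 1 / 2 ≤ |(h.1 x : ℝ) - t| := by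
      rcases le_total (h.1 x : ℝ) (1 / 2) with h1 | h1
      · exact ⟨⟨1, zero_le_one, le_rfl⟩, le_abs.2 (Or.inr (by show _ ≤ -(_ - (1:ℝ)); linarith))⟩
      · exact ⟨⟨0, le_rfl, zero_le_one⟩, le_abs.2 (Or.inl (by show _ ≤ _ - (0:ℝ); linarith))⟩
    obtain ⟨t, ht⟩ := this
    have hmem : Function.update h.1 x t ∈ N := by
      by_contra hn
      obtain ⟨F, u, h1, h2⟩ := isOpen_pi_iff.1 hN.isOpen_compl _ hn
      have hcl : IsClosed ((F.erase x : Set X) ∪ {z | ε ≤ f z}) :=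
        (F.erase x).finite_toSet.isClosed.union (isClosed_le continuous_const hf)
      obtain ⟨φ, c1, c2, c3⟩ := CompletelyRegularSpace.completely_regular x _ hcl (by
        rintro (h3 | h3)
        · simp at h3
        · exact not_le.2 hlt h3)
      let g : X → Icc (0:ℝ) 1 := fun z => ⟨φ z * h.1 z + (1 - φ z) * t, by
        have := (φ z).2.1; have := (φ z).2.2; have := (h.1 z).2.1; have := (h.1 z).2.2
        have := t.2.1; have := t.2.2
        constructor <;> nlinarith⟩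
      have hg : Continuous g := by
        have := h.2
        exact Continuous.subtype_mk (by fun_prop) _
      have g1 : ∀ z ∈ (F.erase x : Set X) ∪ {z | ε ≤ f z}, g z = h.1 z := fun z hz => by
        apply Subtype.ext
        simp [g, c3 hz]
      have g2 : g x = t := by
        apply Subtype.ext
        simp [g, c2]
      refine h2 (a := g) (fun z hz => ?_) (hP ⟨g, hg⟩ fun z hz => g1 z (Or.inr hz))
      have := (h1 z hz).2
      by_cases hzx : z = x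
      · subst hzx
        rwa [Function.update_self, ← g2] at this
      · rwa [Function.update_of_ne hzx, ← g1 z (Or.inl (by simp [hzx, show z ∈ F from hz]))]
          at this
    have := hx h.1 (hP h fun _ _ => rfl) _ hmem fun z hz => (Function.update_of_ne hz _ _).symm
    rw [Function.update_self] at this
    linarith
  · push Not at hP
    obtain ⟨g, hg, hgN⟩ := hP
    obtain ⟨F, u, h1, h2⟩ := isOpen_pi_iff.1 hN.isOpen_compl _ hgN
    have : ∃ δ > 0, ∀ x ∈ F, δ ≤ f x := by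
      rcases F.eq_empty_or_nonempty with h0 | h0
      · exact ⟨1, one_pos, by simp [h0]⟩
      · obtain ⟨x, -, hx⟩ := F.exists_min_image f h0
        exact ⟨f x, hpos x, hx⟩
    obtain ⟨δ, hδ, hδ'⟩ := this
    refine ⟨(g, ⟨min (ε / 2) δ, lt_min (half_pos hε) hδ⟩), min_le_left _ _, hg,
      Or.inr fun g' hg' => h2 fun z hz => ?_⟩
    rw [hg' z ((min_le_right _ _).trans (hδ' z hz))]
    exact (h1 z hz).2

theorem generic [T35Space X] (f : X → ℝ) (hf : Continuous f) (hpos : ∀ x, 0 < f x)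
    (N : ℕ → Set (X → Icc (0:ℝ) 1)) (hN : ∀ n, IsClosed (N n)) :
    ∃ g : {f : X → Icc (0:ℝ) 1 // Continuous f}, ∀ n, g.1 ∈ N n →
      ∃ ε > 0, ∀ x ∈ KK (N n), ε ≤ f x := by
  choose q q1 q2 q3 using fun n => step f hf hpos (N n) (hN n)
  let s : ℕ → {f : X → Icc (0:ℝ) 1 // Continuous f} × {ε : ℝ // 0 < ε} := fun n =>
    Nat.rec (⟨fun _ => ⟨0, le_rfl, zero_le_one⟩, continuous_const⟩, ⟨1, one_pos⟩) q n
  have hs : ∀ n, s (n + 1) = q n (s n) := fun n => rfl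
  have e1 : ∀ n, (s n).2.1 ≤ (1 / 2) ^ n := by
    intro n
    induction n with
    | zero => simp [s]
    | succ n ih => rw [hs, pow_succ]; linarith [q1 n (s n)]
  have e2 : ∀ k j, k ≤ j → (s j).2.1 ≤ (s k).2.1 ∧
      ∀ x, (s k).2.1 ≤ f x → (s j).1.1 x = (s k).1.1 x := by
    intro k j hkj
    induction j, hkj using Nat.le_induction with
    | base => exact ⟨le_rfl, fun _ _ => rfl⟩
    | succ j _ ih =>
      refine ⟨?_, fun x hx => ?_⟩
      · rw [hs]; linarith [q1 j (s j), (s j).2.2, ih.1]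
      · rw [hs, q2 j (s j) x (ih.1.trans hx), ih.2 x hx]
  have e3 : ∀ x, ∃ k, (s k).2.1 < f x := fun x => by
    obtain ⟨k, hk⟩ := exists_pow_lt_of_lt_one (hpos x) (show (1 / 2 : ℝ) < 1 by norm_num)
    exact ⟨k, (e1 k).trans_lt hk⟩
  choose k hk using e3
  let g : X → Icc (0:ℝ) 1 := fun x => (s (k x)).1.1 x
  have e4 : ∀ n x, (s n).2.1 ≤ f x → g x = (s n).1.1 x := fun n x hx => by
    rcases le_total n (k x) with h | h
    · exact (e2 n _ h).2 x hx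
    · exact ((e2 _ n h).2 x (hk x).le).symm
  have hg : Continuous g := by
    rw [continuous_iff_continuousAt]
    intro x
    refine (s (k x)).1.2.continuousAt.congr ?_
    filter_upwards [(isOpen_lt continuous_const hf).mem_nhds (hk x)] with z hz
    exact (e4 _ z hz.le).symm
  refine ⟨⟨g, hg⟩, fun n hn => ?_⟩
  rcases q3 n (s n) with h | h
  · exact ⟨_, (s n).2.2, h⟩
  · exact absurd hn (h g fun x hx => e4 (n + 1) x hx)

theorem main [T35Space X] (𝓕 : Set (Set {f : X → Icc (0:ℝ) 1 // Continuous f}))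
    (hc : 𝓕.Countable)
    (h : ∀ g : {f : X → Icc (0:ℝ) 1 // Continuous f},
      ∃ C : Set {f : X → Icc (0:ℝ) 1 // Continuous f}, IsCompact C ∧ g ∈ C ∧
        ∀ U : Set {f : X → Icc (0:ℝ) 1 // Continuous f},
          IsOpen U → C ⊆ U → ∃ F ∈ 𝓕, C ⊆ F ∧ F ⊆ U) :
    ∃ 𝓖 : Set (Set ↥(closure (E '' {x : X | ¬ IsOpen ({x} : Set X)}))), 𝓖.Countable ∧
      ∀ g : ↥(closure (E '' {x : X | ¬ IsOpen ({x} : Set X)})),
        ∃ C : Set ↥(closure (E '' {x : X | ¬ IsOpen ({x} : Set X)})), IsCompact C ∧ g ∈ C ∧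
          ∀ U, IsOpen U → C ⊆ U → ∃ F ∈ 𝓖, C ⊆ F ∧ F ⊆ U := by
  refine sigma_of_family _ isClosed_closure
    ((fun F => closure (E '' KK (closure (Subtype.val '' F)))) '' 𝓕) (hc.image _)
    (by rintro _ ⟨F, -, rfl⟩; exact isClosed_closure) fun t ht b => ?_
  obtain ⟨N, hN⟩ := (hc.insert ∅).exists_eq_range (insert_nonempty _ _)
  have hpos : ∀ x, 0 < 1 + |b x| := fun x => by positivity
  obtain ⟨g, hg⟩ := generic (fun x => (1 + |b x|)⁻¹)
    ((continuous_const.add b.continuous.abs).inv₀ fun x => (hpos x).ne')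
    (fun x => inv_pos.2 (hpos x)) (fun n => closure (Subtype.val '' N n)) fun n => isClosed_closure
  obtain ⟨C, hC, hgC, hnet⟩ := h g
  obtain ⟨_, ⟨F, ⟨hF, hgF⟩, rfl⟩, htF⟩ := mem_closure_piece (fun x hx => not_not.1 hx) ht
    (𝒦 := (fun F => KK (closure (Subtype.val '' F))) '' {F ∈ 𝓕 | g ∈ F})
    ((hc.mono (sep_subset _ _)).image _) (fun y hy => by
      obtain ⟨U, hU, hCU, hyU⟩ := local_nbhd hC hy
      obtain ⟨F, hF, h1, h2⟩ := hnet U hU hCU
      exact ⟨_, ⟨F, ⟨hF, h1 hgC⟩, rfl⟩, fun a ha a' ha' => hyU a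
        (closure_mono (image_mono h2) ha) a' (closure_mono (image_mono h2) ha')⟩)
  obtain ⟨n, hn⟩ : F ∈ range N := hN ▸ mem_insert_of_mem _ hF
  obtain ⟨ε, hε, hε'⟩ := hg n (subset_closure ⟨g, hn ▸ hgF, rfl⟩)
  refine ⟨_, ⟨F, hF, rfl⟩, htF, ε⁻¹, fun s hs => ?_⟩
  refine closure_minimal (t := {s : C(X, ℝ) → ℝ | |s b| ≤ ε⁻¹}) ?_
    (isClosed_le (continuous_apply b).abs continuous_const) hs
  rintro _ ⟨x, hx, rfl⟩
  have := hε' x (hn ▸ hx)
  have h2 := (le_inv_comm₀ hε (hpos x)).1 this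
  show |b x| ≤ ε⁻¹
  linarith

end Pool.Agent.H33.IsoSigma
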