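import Mathlib
import Pool.Agent.H33.Ups1

/-!
K-analytic sets and iterated function spaces.
-/

open Set Filter Topology

namespace Pool.Agent.H33.KAn

open Pool.Agent.H33.Spl5 Pool.Agent.H33.CpCp Pool.Agent.H33.Ups1

variable {P T : Type} [TopologicalSpace P] [TopologicalSpace T]

/-- usco maps through ultrafilters -/
def US (F : P → Set T) : Prop :=
  ∀ (s : P) (𝒰 : Ultrafilter (P × T)), {p | p.2 ∈ F p.1} ∈ 𝒰 → Tendsto Prod.fst 𝒰.toFilter (𝓝 s) →
    ∃ y ∈ F s, Tendsto Prod.snd 𝒰.toFilter (𝓝 y)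

theorem us_iff {F : P → Set T} :
    US F ↔ (∀ s, IsCompact (F s)) ∧ ∀ U, IsOpen U → IsOpen {s | F s ⊆ U} := by
  constructor
  · refine fun h => ⟨fun s => isCompact_iff_ultrafilter_le_nhds'.2 fun 𝒱 h1 =>
      h s (𝒱.map fun y => (s, y)) h1 tendsto_const_nhds, fun U hU => ?_⟩
    refine isClosed_compl_iff.1 (isClosed_iff_ultrafilter.2 fun s 𝒲 h1 h2 h3 => ?_)
    obtain ⟨y0, -⟩ := not_subset.1 (Ultrafilter.nonempty_of_mem h2).choose_spec
    have : Nonempty T := ⟨y0⟩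
    choose! y h4 h5 using fun s' (h : s' ∈ {s | F s ⊆ U}ᶜ) => not_subset.1 h
    obtain ⟨z, h6, h7⟩ := h s (𝒲.map fun s => (s, y s))
      (Ultrafilter.mem_map.2 (mem_of_superset h2 h4)) h1
    obtain ⟨s', h8, h9⟩ := Ultrafilter.nonempty_of_mem (inter_mem h2 (h7 (hU.mem_nhds (h3 h6))))
    exact h5 s' h8 h9
  · rintro ⟨h1, h2⟩ s 𝒰 h3 h4
    by_contra hn
    push Not at hn
    have h5 : ∀ y : F s, ∃ U, IsOpen U ∧ y.1 ∈ U ∧ U ∉ 𝒰.map Prod.snd := fun y => by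
      by_contra h5
      push Not at h5
      exact hn y y.2 (le_nhds_iff.2 fun U hy hU => h5 U hU hy)
    choose U hU hy hU' using h5
    obtain ⟨t, ht⟩ := (h1 s).elim_finite_subcover U hU fun y hy' => mem_iUnion.2 ⟨⟨y, hy'⟩, hy _⟩
    obtain ⟨y, -, h5⟩ := (Ultrafilter.finite_biUnion_mem_iff (f := 𝒰.map Prod.snd) t.finite_toSet).1
      (Ultrafilter.mem_map.2 (mem_of_superset (inter_mem h3
        (h4 ((h2 _ (isOpen_biUnion fun y _ => hU y)).mem_nhds ht))) fun p hp => hp.2 hp.1))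
    exact hU' y h5

/-- K-analytic sets -/
def KA (Z : Set T) : Prop := ∃ F : (ℕ → ℕ) → Set T, US F ∧ ⋃ s, F s = Z

theorem KA.of_index {F : P → Set T} (h : US F) {π : (ℕ → ℕ) → P} (hπ : Continuous π)
    (hs : π.Surjective) : KA (⋃ s, F s) :=
  ⟨F ∘ π, fun s 𝒰 h1 h2 => h (π s) (𝒰.map (Prod.map π id)) h1 ((hπ.tendsto s).comp h2),
    hs.iUnion_comp F⟩

theorem KA.of_compact {K : Set T} (h : IsCompact K) : KA K :=
  ⟨fun _ => K, us_iff.2 ⟨fun _ => h, fun _ _ => isOpen_const⟩, iUnion_const K⟩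

theorem KA.iUnion {Z : ℕ → Set T} (h : ∀ n, KA (Z n)) : KA (⋃ n, Z n) := by
  choose F h1 h2 using h
  have := KA.of_index (F := fun q : ℕ × (ℕ → ℕ) => F q.1 q.2) (fun q 𝒰 h3 h4 =>
    h1 q.1 q.2 (𝒰.map fun p : (ℕ × (ℕ → ℕ)) × T => (p.1.2, p.2)) (Ultrafilter.mem_map.2 (mem_of_superset
      (inter_mem h3 (((continuous_fst.tendsto q).comp h4) ((isOpen_discrete {q.1}).mem_nhds rfl)))
      fun p hp => by
        have h5 : p.1.1 = q.1 := hp.2
        exact h5 ▸ hp.1)) ((continuous_snd.tendsto q).comp h4))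
    (π := fun s => (s 0, fun n => s (n + 1))) (by fun_prop)
    fun q => ⟨fun n => n.casesOn q.1 q.2, rfl⟩
  rwa [iUnion_prod', iUnion_congr h2] at this

theorem KA.union {Z Z' : Set T} (h : KA Z) (h' : KA Z') : KA (Z ∪ Z') := by
  have : Z ∪ Z' = ⋃ n : ℕ, if n = 0 then Z else Z' := by
    ext z
    simp only [mem_union, mem_iUnion]
    refine ⟨fun h => h.elim (fun h => ⟨0, h⟩) fun h => ⟨1, h⟩, fun ⟨n, h⟩ => ?_⟩
    split_ifs at h
    exacts [Or.inl h, Or.inr h]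
  rw [this]
  refine KA.iUnion fun n => ?_
  split_ifs
  exacts [h, h']

theorem masterK {T' : Type} [TopologicalSpace T'] {Z : Set T} {W : Set T'}
    (hW : KA W) (R : ℕ → T → T' → Prop) (h1 : ∀ z ∈ Z, ∀ n, ∃ s ∈ W, R n z s)
    (h2 : ∀ (𝒱 : Ultrafilter T) (t : ℕ → T'), (∀ n, t n ∈ W) → (∀ n, ∀ U ∈ 𝓝 (t n),
      {z | ∃ s ∈ U, R n z s} ∈ 𝒱) → ∃ y ∈ Z, ↑𝒱 ≤ 𝓝 y ∧ ∀ n, R n y (t n)) : KA Z := by
  obtain ⟨F, hF, rfl⟩ := hW
  have := KA.of_index (F := fun σ : ℕ → ℕ → ℕ => {z ∈ Z | ∀ n, ∃ s ∈ F (σ n), R n z s})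
    (fun σ 𝒰 h3 h4 => by
      obtain ⟨s0, -⟩ := (Ultrafilter.nonempty_of_mem h3).choose_spec.2 0
      have : Nonempty T' := ⟨s0⟩
      choose! c h5 h6 using fun n p (hp : p ∈ {p : (ℕ → ℕ → ℕ) × T | p.2 ∈
        {z ∈ Z | ∀ n, ∃ s ∈ F (p.1 n), R n z s}}) => hp.2 n
      choose t h7 h8 using fun n => hF (σ n) (𝒰.map fun p : (ℕ → ℕ → ℕ) × T => (p.1 n, c n p))
        (Ultrafilter.mem_map.2 (mem_of_superset h3 (h5 n))) (((continuous_apply n).tendsto σ).comp h4)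
      obtain ⟨y, h9, h10, h11⟩ := h2 (𝒰.map Prod.snd) t (fun n => mem_iUnion.2 ⟨_, h7 n⟩)
        fun n U hU => Ultrafilter.mem_map.2 (mem_of_superset (inter_mem h3 (h8 n hU))
          fun p hp => ⟨_, hp.2, h6 n p hp.1⟩)
      exact ⟨y, ⟨h9, fun n => ⟨_, h7 n, h11 n⟩⟩, h10⟩)
    (π := fun s n k => s (Nat.pair n k)) (by fun_prop)
    fun σ => ⟨fun i => σ i.unpair.1 i.unpair.2, by simp⟩
  convert this using 1
  refine Subset.antisymm (fun z hz => ?_) (iUnion_subset fun _ _ h => h.1)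
  choose s h3 h4 using h1 z hz
  choose σ hσ using fun n => mem_iUnion.1 (h3 n)
  exact mem_iUnion.2 ⟨σ, hz, fun n => ⟨_, hσ n, h4 n⟩⟩

theorem KA.image {T' : Type} [TopologicalSpace T'] {Z : Set T} (h : KA Z) {f : T → T'}
    (hf : Continuous f) : KA (f '' Z) := by
  obtain ⟨F, hF, rfl⟩ := h
  refine ⟨fun s => f '' F s, us_iff.2 ⟨fun s => ((us_iff.1 hF).1 s).image hf, fun U hU => ?_⟩,
    image_iUnion.symm⟩
  simpa only [image_subset_iff] using (us_iff.1 hF).2 _ (hU.preimage hf)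

theorem KA.prod [T2Space T] {Z : Set T} (h : KA Z) : KA (Z ×ˢ Z) := by
  refine masterK h (fun n z s => s = if n = 0 then z.1 else z.2) (fun z hz n => ⟨_, ?_, rfl⟩)
    fun 𝒱 t ht h => ?_
  · split_ifs
    exacts [hz.1, hz.2]
  have h1 : ∀ n, Tendsto (fun z : T × T => if n = 0 then z.1 else z.2) 𝒱 (𝓝 (t n)) :=
    fun n U hU => Filter.mem_map.2 (mem_of_superset (h n U hU) (by
      rintro z ⟨_, hs, rfl⟩
      exact hs))
  exact ⟨(t 0, t 1), ⟨ht 0, ht 1⟩, Tendsto.prodMk_nhds (h1 0) (h1 1), fun n =>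
    tendsto_nhds_unique (h1 n) (by
      split_ifs
      exacts [h1 0, h1 1])⟩

theorem KA.sub {C S : Set T} [T2Space T] (h : KA S) (hS : S ⊆ C) :
    KA (Subtype.val ⁻¹' S : Set C) := by
  refine masterK h (fun _ z s => s = z.1) (fun z hz _ => ⟨_, hz, rfl⟩) fun 𝒱 t ht h => ?_
  have h1 : ∀ n, Tendsto Subtype.val 𝒱.toFilter (𝓝 (t n)) :=
    fun n U hU => Filter.mem_map.2 (mem_of_superset (h n U hU) (by
      rintro z ⟨_, hs, rfl⟩
      exact hs))
  exact ⟨⟨t 0, hS (ht 0)⟩, ht 0, tendsto_subtype_rng.2 (h1 0),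
    fun n => tendsto_nhds_unique (h1 n) (h1 0)⟩

theorem ka_real : KA (univ : Set ℝ) := by
  rw [← Metric.iUnion_closedBall_nat (0 : ℝ)]
  exact KA.iUnion fun n => KA.of_compact (isCompact_closedBall _ _)

variable {X : Type} [TopologicalSpace X]

theorem alg {D : Set T} (hD : KA D) {e : T → X → ℝ} (he : Continuous e)
    (hc : ∀ d, Continuous (e d)) (hs : ∀ x y, (∀ d ∈ D, e d x = e d y) → x = y) :
    ∃ S : Set (Cp X), KA S ∧ ∀ (f : Cp X) (K : Set X), IsCompact K → ∀ ε > 0,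
      ∃ g ∈ S, ∀ x ∈ K, dist (f.1 x) (g.1 x) < ε := by
  let W : Set (X → ℝ) := e '' D ∪ (fun c _ => c) '' univ
  have h1 : ∀ n, KA (Al W n) := by
    intro n
    induction n with
    | zero => exact (hD.image he).union (ka_real.image (by fun_prop))
    | succ n ih => exact ih.union ((ih.prod.image (by fun_prop)).union (ih.prod.image (by fun_prop)))
  have h2 : ∀ n, ∀ v ∈ Al W n, Continuous v := by
    intro n
    induction n with
    | zero =>
      rintro _ (⟨d, -, rfl⟩ | ⟨c, -, rfl⟩)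
      exacts [hc d, continuous_const]
    | succ n ih =>
      rintro v (hv | ⟨p, hp, rfl⟩ | ⟨p, hp, rfl⟩)
      exacts [ih v hv, (ih _ hp.1).add (ih _ hp.2), (ih _ hp.1).mul (ih _ hp.2)]
  have h3 : Monotone (Al W) := monotone_nat_of_le_succ fun n => subset_union_left
  have h4 : ∀ f g : X → ℝ, f ∈ ⋃ n, Al W n → g ∈ ⋃ n, Al W n → ∃ n, (f, g) ∈ Al W n ×ˢ Al W n := by
    intro f g hf hg
    obtain ⟨n, hn⟩ := mem_iUnion.1 hf
    obtain ⟨m, hm⟩ := mem_iUnion.1 hg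
    exact ⟨max n m, h3 (le_max_left _ _) hn, h3 (le_max_right _ _) hm⟩
  let A : Subalgebra ℝ C(X, ℝ) :=
    { carrier := {f | ⇑f ∈ ⋃ n, Al W n}
      mul_mem' := fun hf hg => (h4 _ _ hf hg).elim fun n hn =>
        mem_iUnion.2 ⟨n + 1, Or.inr (Or.inr ⟨_, hn, rfl⟩)⟩
      add_mem' := fun hf hg => (h4 _ _ hf hg).elim fun n hn =>
        mem_iUnion.2 ⟨n + 1, Or.inr (Or.inl ⟨_, hn, rfl⟩)⟩
      algebraMap_mem' := fun c => mem_iUnion.2 ⟨0, by
        have : ⇑(algebraMap ℝ C(X, ℝ) c) = fun _ => c := funext fun _ => by simp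
        rw [this]
        exact Or.inr ⟨c, trivial, rfl⟩⟩ }
  have hA : A.SeparatesPoints := fun x y hxy => by
    by_contra hn
    push Not at hn
    exact hxy (hs x y fun d hd => hn _ ⟨⟨_, hc d⟩, mem_iUnion.2 ⟨0, Or.inl ⟨d, hd, rfl⟩⟩, rfl⟩)
  refine ⟨_, (KA.iUnion h1).sub (C := {g | Continuous g}) (iUnion_subset h2), fun f K hK ε hε => ?_⟩
  obtain ⟨g, h5, h6⟩ :=
    ContinuousMap.exists_mem_subalgebra_near_continuous_of_isCompact_of_separatesPoints hA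
      ⟨f.1, f.2⟩ hK hε
  exact ⟨⟨g, g.2⟩, h5, fun x hx => by rw [dist_comm, dist_eq_norm]; exact h6 x hx⟩

theorem ka_of_sep [CompactSpace X] {D : Set T} (hD : KA D) {e : T → X → ℝ} (he : Continuous e)
    (hc : ∀ d, Continuous (e d)) (hs : ∀ x y, (∀ d ∈ D, e d x = e d y) → x = y) :
    KA (univ : Set (Cp X)) := by
  obtain ⟨S, h1, h2⟩ := alg hD he hc hs
  refine masterK h1 (fun n z s => ∀ x, dist (z.1 x) (s.1 x) ≤ 1 / ((n : ℝ) + 1))
    (fun z _ n => ?_) fun 𝒱 t _ h => ?_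
  · obtain ⟨g, h3, h4⟩ := h2 z univ isCompact_univ _ (Nat.one_div_pos_of_nat (n := n))
    exact ⟨g, h3, fun x => (h4 x trivial).le⟩
  have h5 : ∀ n x, ∀ ε > 0, ∀ᶠ z : Cp X in 𝒱,
      z.1 x ∈ Metric.closedBall ((t n).1 x) (1 / ((n : ℝ) + 1) + ε) := by
    intro n x ε hε
    refine mem_of_superset (h n _ ((cev x).continuousAt (Metric.ball_mem_nhds _ hε))) ?_
    rintro z ⟨s, hs, hz⟩
    have h6 : dist (s.1 x) ((t n).1 x) < _ := hs
    have := dist_triangle (z.1 x) (s.1 x) ((t n).1 x)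
    rw [mem_ofPred_eq, Metric.mem_closedBall]
    linarith [hz x]
  choose y hy hy' using fun x => (isCompact_closedBall _ _).ultrafilter_le_nhds'
    (𝒱.map fun z : Cp X => z.1 x) (h5 0 x 1 one_pos)
  have h6 : ∀ n x, dist (y x) ((t n).1 x) ≤ 1 / ((n : ℝ) + 1) := fun n x =>
    le_of_forall_pos_le_add fun ε hε =>
      Metric.isClosed_closedBall.mem_of_tendsto (hy' x) (h5 n x ε hε)
  have h7 : TendstoUniformly (fun n => (t n).1) y atTop :=
    Metric.tendstoUniformly_iff.2 fun ε hε => by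
      filter_upwards [(tendsto_one_div_add_atTop_nhds_zero_nat (𝕜 := ℝ)).eventually
        (gt_mem_nhds hε)] with n hn x
      exact (h6 n x).trans_lt hn
  exact ⟨⟨y, h7.continuous (Eventually.of_forall fun n => (t n).2).frequently⟩, trivial,
    le_nhds_cp hy', h6⟩

/-- a dense K-analytic subset -/
def DK (Z : Type) [TopologicalSpace Z] : Prop := ∃ D : Set Z, Dense D ∧ KA D

theorem DK.homeo {Z : Type} [TopologicalSpace Z] (h : DK X) (e : X ≃ₜ Z) : DK Z := by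
  obtain ⟨D, h1, h2⟩ := h
  exact ⟨_, e.surjective.denseRange.dense_image e.continuous h1, h2.image e.continuous⟩

theorem DK.cp (h : DK X) : DK (Cp (Cp X)) := by
  obtain ⟨D, h1, h2⟩ := h
  obtain ⟨S, h3, h4⟩ := alg h2 (e := fun (d : X) (f : Cp X) => f.1 d) (continuous_pi fun f => f.2)
    cev fun f g h => Subtype.ext (Continuous.ext_on h1 f.2 g.2 h)
  refine ⟨S, fun f => mem_closure_iff_nhds.2 fun W hW => ?_, h3⟩
  obtain ⟨w, δ, h5, h6⟩ := nhds_box (e := fun f : Cp (Cp X) => f.1) IsInducing.subtypeVal hW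
  obtain ⟨g, h7, h8⟩ := h4 f w w.finite_toSet.isCompact δ h5
  exact ⟨g, h6 g fun i hi => by rw [abs_sub_comm]; exact h8 i hi, h7⟩

/-- induced homeomorphism -/
def cpH {Z : Type} [TopologicalSpace Z] (e : X ≃ₜ Z) : Cp X ≃ₜ Cp Z where
  toFun f := ⟨f.1 ∘ e.symm, f.2.comp e.symm.continuous⟩
  invFun f := ⟨f.1 ∘ e, f.2.comp e.continuous⟩
  left_inv f := Subtype.ext (funext fun x => by simp)
  right_inv f := Subtype.ext (funext fun x => by simp)
  continuous_toFun := (continuous_pi fun _ => cev _).subtype_mk _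
  continuous_invFun := (continuous_pi fun _ => cev _).subtype_mk _

theorem main {Y : Type} [TopologicalSpace Y] [CompactSpace Y] [T2Space Y] (n : ℕ) (A B : ℕ → Type)
    [∀ k, TopologicalSpace (A k)] [∀ k, TopologicalSpace (B k)] (a0 : A 0 ≃ₜ X)
    (a : ∀ k, A (k + 1) ≃ₜ Cp (A k)) (b0 : B 0 ≃ₜ Y) (b : ∀ k, B (k + 1) ≃ₜ Cp (B k))
    (e : A n ≃ₜ B n) (h : KA (univ : Set (Cp X))) : KA (univ : Set (Cp Y)) := by
  have h1 : ∀ m, DK (A (2 * m + 1)) := by
    intro m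
    induction m with
    | zero => exact DK.homeo ⟨_, dense_univ, h⟩ ((a 0).trans (cpH a0)).symm
    | succ m ih => exact ih.cp.homeo ((a (2 * m + 2)).trans (cpH (a (2 * m + 1)))).symm
  have h2 : ∀ k (x y : B k), (∀ g : Cp (B k), g.1 x = g.1 y) → x = y := by
    rintro (_ | k) x y h
    · by_contra hne
      obtain ⟨f, h3, h4⟩ := urys (isClosed_singleton (x := b0 y)) (b0.injective.ne hne)
      have := h ⟨_, f.2.comp b0.continuous⟩
      simp [h3, h4 _ rfl] at this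
    · exact (b k).injective (Subtype.ext (funext fun z => h ⟨_, (cev z).comp (b k).continuous⟩))
  have h3 : ∀ m, ∃ j : Y → B (2 * m), Continuous j ∧ j.Injective := by
    intro m
    induction m with
    | zero => exact ⟨_, b0.symm.continuous, b0.symm.injective⟩
    | succ m ih =>
      obtain ⟨j, h3, h4⟩ := ih
      let i := ((b (2 * m + 1)).trans (cpH (b (2 * m)))).symm
      exact ⟨fun y => i ⟨_, cev (j y)⟩, i.continuous.comp
        ((continuous_pi fun g : Cp (B (2 * m)) => g.2.comp h3).subtype_mk _),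
        fun x y h => h4 (h2 _ _ _ (congrFun (congrArg Subtype.val (i.injective h))))⟩
  have h4 : ∀ k, n ≤ k → Nonempty (A k ≃ₜ B k) := fun k hk => by
    induction k, hk using Nat.le_induction with
    | base => exact ⟨e⟩
    | succ k _ ih => exact ⟨((a k).trans (cpH ih.some)).trans (b k).symm⟩
  obtain ⟨D, h5, h6⟩ := (h1 n).homeo (h4 _ (by omega)).some
  obtain ⟨j, h7, h8⟩ := h3 (n + 1)
  exact ka_of_sep h6 (e := fun d y => (b (2 * n + 1) (j y)).1 d)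
    (continuous_pi fun y => (b (2 * n + 1) (j y)).2)
    (fun d => (cev d).comp ((b (2 * n + 1)).continuous.comp h7)) fun x y h =>
      h8 ((b (2 * n + 1)).injective (Subtype.ext (Continuous.ext_on h5
        (b (2 * n + 1) (j x)).2 (b (2 * n + 1) (j y)).2 h)))

theorem ka_iff : KA (univ : Set T) ↔ ∃ F : (ℕ → ℕ) → Set T, (∀ s, IsCompact (F s)) ∧
    (∀ z, ∃ s, z ∈ F s) ∧ ∀ U, IsOpen U → IsOpen {s | F s ⊆ U} := by
  simp only [KA, us_iff, iUnion_eq_univ_iff]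
  exact exists_congr fun F => ⟨fun h => ⟨h.1.1, h.2, h.1.2⟩, fun h => ⟨⟨h.1, h.2.2⟩, h.2.1⟩⟩

end Pool.Agent.H33.KAn
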