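import Mathlib

/-! Countable tightness of compact sets; groups carrying the direct limit topology of an
increasing sequence of compact sets. -/

open Set Filter Topology Pointwise

namespace Pool.Agent.H33.KW1

/-- countable tightness of a closed set -/
def Ct {X : Type} [TopologicalSpace X] (S : Set X) : Prop :=
  ∀ A ⊆ S, (∀ B ⊆ A, B.Countable → closure B ⊆ A) → IsClosed A

section
variable {X Y : Type} [TopologicalSpace X] [TopologicalSpace Y] {S : Set X} {K : Set Y}

theorem Ct.image [T2Space Y] (h : Ct S) (hS : IsCompact S) (hc : IsClosed S) {f : X → Y}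
    (hf : Continuous f) : Ct (f '' S) := fun A hA H => by
  have h1 : IsClosed (S ∩ f ⁻¹' A) := h _ inter_subset_left fun B hB hB' =>
    subset_inter (closure_minimal (hB.trans inter_subset_left) hc) fun x hx =>
      H (f '' B) (image_subset_iff.2 (hB.trans inter_subset_right)) (hB'.image f)
        (image_closure_subset_closure_image hf ⟨x, hx, rfl⟩)
  rw [show A = f '' (S ∩ f ⁻¹' A) by rw [image_inter_preimage, inter_eq_right.2 hA]]
  exact ((hS.of_isClosed_subset h1 inter_subset_left).image hf).isClosed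

theorem pr (hK : IsCompact K) {C : Set (X × Y)} (hC : IsClosed C) (h : ∀ p ∈ C, p.2 ∈ K) :
    IsClosed (Prod.fst '' C) := by
  have := isCompact_iff_compactSpace.1 hK
  have h1 := isClosedMap_fst_of_compactSpace (X := X) (Y := K) _
    (hC.preimage (continuous_id.prodMap continuous_subtype_val))
  convert h1 using 1
  ext x
  exact ⟨fun ⟨p, a, b⟩ => ⟨(p.1, ⟨p.2, h p a⟩), a, b⟩, fun ⟨p, a, b⟩ => ⟨_, a, b⟩⟩

theorem Ct.prod [T3Space Y] (hS : Ct S) (hK : Ct K) (cK : IsCompact K) : Ct (S ×ˢ K) := by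
  intro A hA H
  refine isClosed_of_closure_subset fun ⟨x, y⟩ hp => by_contra fun hn => ?_
  have h1 : IsClosed (Prod.mk x ⁻¹' A) := hK _ (fun _ h => (hA h).2) fun B hB hc z hz =>
    H _ (image_subset_iff.2 hB) (hc.image _)
      (image_closure_subset_closure_image (Continuous.prodMk_right x) ⟨z, hz, rfl⟩)
  obtain ⟨V, h2, h3, h4⟩ := exists_mem_nhds_isClosed_subset (h1.isOpen_compl.mem_nhds hn)
  have h5 : IsClosed (Prod.fst '' (A ∩ Prod.snd ⁻¹' V)) :=
    hS _ (by rintro _ ⟨p, h, rfl⟩; exact (hA h.1).1) fun B hB hc => by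
      have := hc.to_subtype
      choose g g1 g2 using fun b : B => hB b.2
      have h6 : closure (range g) ⊆ A ∩ Prod.snd ⁻¹' V := subset_inter
        (H _ (range_subset_iff.2 fun b => (g1 b).1) (countable_range g))
        (closure_minimal (range_subset_iff.2 fun b => (g1 b).2) (h3.preimage continuous_snd))
      refine (closure_minimal (fun b hb => ?_)
        (pr cK isClosed_closure fun p hp => (hA (h6 hp).1).2)).trans (image_mono h6)
      exact ⟨_, subset_closure ⟨⟨b, hb⟩, rfl⟩, g2 _⟩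
  obtain ⟨p, ⟨a, b⟩, c⟩ := h5.closure_subset (image_closure_subset_closure_image continuous_fst
    ⟨(x, y), mem_closure_iff_frequently.2 ((mem_closure_iff_frequently.1 hp).and_eventually
      (continuous_snd.continuousAt.preimage_mem_nhds h2)), rfl⟩)
  obtain rfl : p.1 = x := c
  exact h4 b a

theorem con [T2Space Y] {Z : Type} [TopologicalSpace Z] (hS : IsCompact S) (hc : IsClosed S)
    {f : X → Y} (hf : Continuous f) {g : Y → Z} (h : ContinuousOn (g ∘ f) S) {C : Set Z}
    (hC : IsClosed C) : IsClosed (g ⁻¹' C ∩ f '' S) := by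
  rw [inter_comm, ← image_inter_preimage]
  exact ((hS.of_isClosed_subset (h.preimage_isClosed_of_isClosed hc hC) inter_subset_left).image
    hf).isClosed

end

/-- the group with the direct limit topology -/
def Kw {G : Type} (_K : ℕ → Set G) : Type := G

variable {G : Type} [Group G] [TopologicalSpace G] {K : ℕ → Set G}

instance : Group (Kw K) := inferInstanceAs (Group G)

instance : TopologicalSpace (Kw K) :=
  ⨆ n, .coinduced (fun x : K n => (x.1 : G)) inferInstance

theorem cl (hK : ∀ n, IsClosed (K n)) {A : Set G} :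
    @IsClosed (Kw K) _ A ↔ ∀ n, IsClosed (A ∩ K n) :=
  isClosed_iSup_iff.trans (forall_congr' fun n => isClosed_coinduced.trans (by
    show IsClosed (Subtype.val ⁻¹' A : Set (K n)) ↔ _
    rw [(hK n).isClosedEmbedding_subtypeVal.isClosed_iff_image_isClosed, Subtype.image_preimage_coe,
      inter_comm]))

theorem box [T3Space G] (hK : ∀ n, IsCompact (K n)) (mo : Monotone K) {F : Set (G × G)}
    (hF : ∀ n, IsClosed (F ∩ K n ×ˢ K n)) {a b : G} {N : ℕ} (ha : a ∈ K N) (hb : b ∈ K N)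
    (h : (a, b) ∉ F) : ∃ U V : Set G, @IsOpen (Kw K) _ U ∧ @IsOpen (Kw K) _ V ∧ a ∈ U ∧ b ∈ V ∧
      U ×ˢ V ⊆ Fᶜ := by
  let T := fun n => {p : Set G × Set G // IsCompact p.1 ∧ IsCompact p.2 ∧ p.1 ⊆ K (N + n) ∧
    p.2 ⊆ K (N + n) ∧ p.1 ×ˢ p.2 ⊆ Fᶜ}
  have st : ∀ n (p : T n), ∃ (q : T (n + 1)) (u v : Set G), IsOpen u ∧ IsOpen v ∧ p.1.1 ⊆ u ∧
      p.1.2 ⊆ v ∧ u ∩ K (N + (n + 1)) ⊆ q.1.1 ∧ v ∩ K (N + (n + 1)) ⊆ q.1.2 := fun n p => by
    obtain ⟨u, v, h1, h2, h3, h4, h5⟩ := generalized_tube_lemma p.2.1 p.2.2.1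
      (hF (N + (n + 1))).isOpen_compl fun z hz e => p.2.2.2.2.2 hz e.1
    obtain ⟨u', a1, a2, a3⟩ := p.2.1.exists_isOpen_closure_subset (h1.mem_nhdsSet.2 h3)
    obtain ⟨v', b1, b2, b3⟩ := p.2.2.1.exists_isOpen_closure_subset (h2.mem_nhdsSet.2 h4)
    exact ⟨⟨(closure u' ∩ K _, closure v' ∩ K _), (hK _).inter_left isClosed_closure,
      (hK _).inter_left isClosed_closure, inter_subset_right, inter_subset_right,
      fun z hz e => h5 ⟨a3 hz.1.1, b3 hz.2.1⟩ ⟨e, hz.1.2, hz.2.2⟩⟩, u', v', a1, b1, a2, b2,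
      inter_subset_inter_left _ subset_closure, inter_subset_inter_left _ subset_closure⟩
  choose q u v h1 h2 h3 h4 h5 h6 using st
  let c : ∀ n, T n := fun n => Nat.rec ⟨({a}, {b}), isCompact_singleton, isCompact_singleton,
    singleton_subset_iff.2 ha, singleton_subset_iff.2 hb, by simpa using h⟩ q n
  have key : ∀ C O : ℕ → Set G, (∀ n, IsOpen (O n)) → (∀ n, C n ⊆ K (N + n)) → (∀ n, C n ⊆ O n) →
      (∀ n, O n ∩ K (N + (n + 1)) ⊆ C (n + 1)) → Monotone C ∧ @IsOpen (Kw K) _ (⋃ n, C n) :=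
    fun C O a1 a2 a3 a4 => by
      have m : Monotone C := monotone_nat_of_le_succ fun n x hx =>
        a4 n ⟨a3 n hx, mo (by omega) (a2 n hx)⟩
      refine ⟨m, isClosed_compl_iff.1 ((cl fun n => (hK n).isClosed).2 fun k => ?_)⟩
      convert ((isOpen_biUnion fun n (_ : n ∈ Ici k) => a1 n).isClosed_compl.inter
        (hK k).isClosed) using 1
      ext x
      refine and_congr_left fun hx => not_congr ⟨fun h => ?_, fun h => ?_⟩
      · obtain ⟨n, hn⟩ := mem_iUnion.1 h
        exact mem_biUnion (le_max_left k n) (a3 _ (m (le_max_right k n) hn))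
      · obtain ⟨n, hn, h⟩ := mem_iUnion₂.1 h
        exact mem_iUnion.2 ⟨n + 1, a4 n ⟨h, mo (by have : k ≤ n := hn; omega) hx⟩⟩
  obtain ⟨m1, o1⟩ := key (fun n => (c n).1.1) (fun n => u n (c n)) (fun n => h1 n _)
    (fun n => (c n).2.2.2.1) (fun n => h3 n _) fun n => h5 n _
  obtain ⟨m2, o2⟩ := key (fun n => (c n).1.2) (fun n => v n (c n)) (fun n => h2 n _)
    (fun n => (c n).2.2.2.2.1) (fun n => h4 n _) fun n => h6 n _
  refine ⟨_, _, o1, o2, mem_iUnion.2 ⟨0, rfl⟩, mem_iUnion.2 ⟨0, rfl⟩, fun z hz => ?_⟩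
  obtain ⟨i, hi⟩ := mem_iUnion.1 hz.1
  obtain ⟨j, hj⟩ := mem_iUnion.1 hz.2
  exact (c (max i j)).2.2.2.2.2 ⟨m1 (le_max_left i j) hi, m2 (le_max_right i j) hj⟩

theorem grp [IsTopologicalGroup G] [T2Space G] (hK : ∀ n, IsCompact (K n)) (mo : Monotone K)
    (cov : ∀ g, ∃ n, g ∈ K n) (mul : ∀ n, ∃ m, K n * K n ⊆ K m) (inv : ∀ n, ∀ g ∈ K n, g⁻¹ ∈ K n) :
    IsTopologicalGroup (Kw K) where
  continuous_mul := continuous_def.2 fun W hW => isOpen_prod_iff.2 fun a b hab => by
    have hc := fun n => (hK n).isClosed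
    obtain ⟨i, hi⟩ := cov a
    obtain ⟨j, hj⟩ := cov b
    have := box (F := (fun p : G × G => p.1 * p.2) ⁻¹' Wᶜ) hK mo (fun n => by
      obtain ⟨m, hm⟩ := mul n
      convert ((((cl hc).1 hW.isClosed_compl m).preimage continuous_mul).inter
        ((hc n).prod (hc n))) using 1
      ext p
      exact and_congr_left fun h => (and_iff_left (hm (mul_mem_mul h.1 h.2))).symm)
      (mo (le_max_left i j) hi) (mo (le_max_right i j) hj) (fun h => h hab)
    obtain ⟨U, V, a1, a2, a3, a4, a5⟩ := this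
    exact ⟨U, V, a1, a2, a3, a4, fun z hz => not_not.1 (a5 hz)⟩
  continuous_inv := continuous_iff_isClosed.2 fun C hC => by
    have hc := fun n => (hK n).isClosed
    refine (cl hc).2 fun n => ?_
    convert ((cl hc).1 hC n).preimage (continuous_inv (G := G)) using 1
    ext x
    exact and_congr_right fun _ => ⟨inv n x, fun h => inv_inv x ▸ inv n _ h⟩

end Pool.Agent.H33.KW1
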