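import Pool.Agent.H33.KW1

/-! A group generated by a compact set, with the direct limit topology. -/

open Set Filter Topology Pointwise Pool.Agent.H33.KW1

namespace Pool.Agent.H33.KW2

theorem seqc {G : Type} (τ σ : TopologicalSpace G) (t2 : @T2Space G σ)
    (h : ∀ u : ℕ → G, (∃ x : G, Tendsto u atTop (@nhds G τ x)) →
      ∃ y : G, Tendsto u atTop (@nhds G σ y)) {u : ℕ → G} {x : G}
    (hu : Tendsto u atTop (@nhds G τ x)) : Tendsto u atTop (@nhds G σ x) := by
  obtain ⟨y, hy⟩ := h u ⟨x, hu⟩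
  obtain ⟨z, hz⟩ := h (fun n => if n % 2 = 0 then u n else x) ⟨x, hu.if' (by letI := τ; exact tendsto_const_nhds)⟩
  have h1 : Tendsto (fun n : ℕ => 2 * n) atTop atTop :=
    tendsto_atTop_mono (fun n => by show n ≤ 2 * n; omega) tendsto_id
  have h2 : Tendsto (fun n : ℕ => 2 * n + 1) atTop atTop :=
    tendsto_atTop_mono (fun n => by show n ≤ 2 * n + 1; omega) tendsto_id
  have h3 : z = x := @tendsto_nhds_unique _ _ σ _ _ _ _ _ _ (hz.comp h2)
    ((tendsto_const_nhds (X := G)).congr fun n => (if_neg (show ¬ (2 * n + 1) % 2 = 0 by omega)).symm)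
  have h4 : z = y := @tendsto_nhds_unique _ _ σ _ _ _ _ _ _ (hz.comp h1)
    ((hy.comp h1).congr fun n => (if_pos (show (2 * n) % 2 = 0 by omega)).symm)
  exact h3 ▸ h4 ▸ hy

theorem con2 {X G H : Type} [TopologicalSpace X] [CompactSpace X] [Group G] [TopologicalSpace G]
    [IsTopologicalGroup G] [T2Space G] [Group H] [TopologicalSpace H] [IsTopologicalGroup H]
    {j : X → G} (hj : Continuous j) (φ : G →* H) (h : Continuous (φ ∘ j)) (n : ℕ) :
    IsCompact (range j ^ n) ∧ ∀ C, IsClosed C → IsClosed (φ ⁻¹' C ∩ range j ^ n) := by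
  induction n with
  | zero =>
    exact ⟨isCompact_singleton, fun C _ =>
      ((subsingleton_singleton (a := (1 : G))).anti inter_subset_right).isClosed⟩
  | succ n ih =>
    have e : range j ^ (n + 1) = (fun p : G × X => p.1 * j p.2) '' ((range j ^ n) ×ˢ univ) := by
      rw [pow_succ]
      ext g
      exact ⟨by rintro ⟨a, ha, _, ⟨x, rfl⟩, rfl⟩; exact ⟨(a, x), ⟨ha, trivial⟩, rfl⟩,
        by rintro ⟨p, hp, rfl⟩; exact ⟨p.1, hp.1, _, ⟨p.2, rfl⟩, rfl⟩⟩
    have c : Continuous fun p : G × X => p.1 * j p.2 := continuous_fst.mul (hj.comp continuous_snd)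
    have k := ih.1.prod (isCompact_univ (X := X))
    rw [e]
    refine ⟨k.image c, fun C hC => con k (ih.1.isClosed.prod isClosed_univ) c ?_ hC⟩
    have h1 : ContinuousOn φ (range j ^ n) := continuousOn_iff_isClosed.2 fun C hC =>
      ⟨_, ih.2 C hC, by rw [inter_assoc, inter_self]⟩
    exact ((h1.comp continuousOn_fst fun p hp => hp.1).mul
      (h.comp continuous_snd).continuousOn).congr fun p _ => map_mul φ _ _

theorem abs {X G : Type} [TopologicalSpace X] [CompactSpace X] [Group G] [TopologicalSpace G]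
    [IsTopologicalGroup G] [T2Space G] {j : X → G} (hj : Continuous j) (h1 : 1 ∈ range j)
    (hinv : ∀ x, ∃ y, j y = (j x)⁻¹) (gen : Subgroup.closure (range j) = ⊤)
    (ct : Ct (univ : Set X))
    (sc : ∀ (H : Type) [Group H] [TopologicalSpace H] [IsTopologicalGroup H] (φ : G →* H),
      SeqContinuous (φ ∘ j) → Continuous (φ ∘ j))
    {S : Set G} (hS : S ⊆ range j) (s1 : IsSeqClosed S) (s2 : ¬ IsClosed S) :
    ¬ (∀ (G : Type) [Group G] (τ : TopologicalSpace G), IsTopologicalGroup G → T2Space G →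
    (∀ σ : TopologicalSpace G, @IsTopologicalGroup G σ _ → @T2Space G σ →
      (∀ u : ℕ → G, (∃ x : G, Tendsto u atTop (@nhds G τ x)) →
        ∃ y : G, Tendsto u atTop (@nhds G σ y)) → τ ≤ σ) →
    (∀ (A : Set G) (x : G), x ∈ closure A → ∃ B ⊆ A, B.Countable ∧ x ∈ closure B) →
    (∀ A : Set G, (∀ K : Set G, IsCompact K → IsClosed (A ∩ K)) → IsClosed A) →
    SequentialSpace G) := by
  intro H
  let K : ℕ → Set G := fun n => range j ^ n
  have hK : ∀ n, IsCompact (K n) := fun n => (con2 hj (MonoidHom.id G) hj n).1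
  have hc := fun n => (hK n).isClosed
  have mo : Monotone K := Set.pow_right_monotone h1
  have k1 : K 1 = range j := pow_one _
  have mul : ∀ n m, K n * K m = K (n + m) := fun n m => (pow_add _ _ _).symm
  have i1 : (range j)⁻¹ = range j := by
    ext g
    refine ⟨fun ⟨x, hx⟩ => ?_, by rintro ⟨x, rfl⟩; exact hinv x⟩
    obtain ⟨y, hy⟩ := hinv x
    exact ⟨y, by rw [hy, hx, inv_inv]⟩
  have inv : ∀ n, ∀ g ∈ K n, g⁻¹ ∈ K n := fun n g hg => by
    show g ∈ (range j ^ n)⁻¹
    rwa [← inv_pow, i1]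
  have cov : ∀ g, ∃ n, g ∈ K n := fun g => by
    have hg : g ∈ Subgroup.closure (range j) := gen ▸ trivial
    induction hg using Subgroup.closure_induction with
    | mem x hx => exact ⟨1, k1 ▸ hx⟩
    | one => exact ⟨1, k1 ▸ h1⟩
    | mul x y _ _ a b =>
      obtain ⟨n, a⟩ := a
      obtain ⟨m, b⟩ := b
      exact ⟨n + m, mul n m ▸ mul_mem_mul a b⟩
    | inv x _ a => exact a.imp fun n => inv n x
  have ck : ∀ n, Ct (K n) := fun n => by
    have c1 : Ct (range j) := image_univ ▸ ct.image isCompact_univ isClosed_univ hj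
    induction n with
    | zero => exact fun A hA _ => ((subsingleton_singleton (a := (1 : G))).anti hA).isClosed
    | succ n ih =>
      rw [← mul, k1, ← image_mul_prod]
      exact (ih.prod c1 (k1 ▸ hK 1)).image ((hK n).prod (k1 ▸ hK 1))
        ((hc n).prod (k1 ▸ hc 1)) continuous_mul
  have c0 : @Continuous (Kw K) G _ _ id :=
    continuous_iff_isClosed.2 fun C hC => (cl hc).2 fun n => hC.inter (hc n)
  have cj : @Continuous X (Kw K) _ _ j := continuous_iff_isClosed.2 fun C hC => by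
    convert ((cl hc).1 hC 1).preimage hj using 1
    ext x
    exact (and_iff_left (k1 ▸ mem_range_self x)).symm
  have c5 : ∀ (u : ℕ → X) x, Tendsto u atTop (𝓝 x) →
      Tendsto (j ∘ u) atTop (@nhds (Kw K) _ (j x)) := fun u x hu => (cj.tendsto x).comp hu
  have c6 : ∀ C : Set G, (∀ n, IsClosed (Cᶜ ∩ K n)) → @IsOpen (Kw K) _ C := fun C h =>
    isClosed_compl_iff.1 ((cl hc).2 h)
  have := H (Kw K) inferInstance (grp hK mo cov (fun n => ⟨_, (mul n n).le⟩) inv)
    (@T2Space.of_injective_continuous (Kw K) G _ _ _ id (fun _ _ h => h) c0) (fun σ g t2 h => ?_) (fun A x hx => ?_)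
    fun A hA => (cl hc).2 fun n => ?_
  · refine s2 ?_
    have h2 : @IsSeqClosed (Kw K) _ S := fun u x h1 h2 => s1 h1 ((c0.tendsto x).comp h2)
    have h3 := (cl hc).1 h2.isClosed 1
    rwa [inter_eq_left.2 (k1 ▸ hS)] at h3
  · have h3 : @SeqContinuous X (Kw K) _ σ j := fun u x hu =>
      seqc _ σ t2 h (c5 u x hu)
    have h2 := @sc (Kw K) _ σ g (MonoidHom.id G) h3
    intro C hC
    exact c6 C fun n =>
      (@con2 X G (Kw K) _ _ _ _ _ _ _ σ g j hj (MonoidHom.id G) h2 n).2 Cᶜ
        (@IsOpen.isClosed_compl _ σ _ hC)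
  · refine closure_minimal (t := {x | ∃ B ⊆ A, B.Countable ∧ x ∈ closure B})
      (fun a ha => ⟨{a}, singleton_subset_iff.2 ha, countable_singleton a, subset_closure rfl⟩)
      ((cl hc).2 fun n => ck n _ inter_subset_right fun B hB hB' y hy => ?_) hx
    have := hB'.to_subtype
    choose D d1 d2 d3 using fun b : B => (hB b.2).1
    have h3 : @IsClosed (Kw K) _ (closure (⋃ b, D b)) := isClosed_closure
    have h2 := closure_minimal (fun b hb => mem_inter (closure_mono (subset_iUnion D ⟨b, hb⟩) (d3 _))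
      (hB hb).2) ((cl hc).1 h3 n) hy
    exact ⟨⟨_, iUnion_subset d1, countable_iUnion d2, h2.1⟩, h2.2⟩
  · have := isCompact_iff_compactSpace.1 (hK n)
    have h2 : @Continuous (K n) (Kw K) _ _ fun x => x.1 :=
      continuous_iSup_rng continuous_coinduced_rng
    have h3 : @IsCompact (Kw K) _ (K n) := by
      have h5 := isCompact_range h2
      exact (Subtype.range_coe (s := K n)) ▸ h5
    have h4 := (cl hc).1 (hA _ h3) n
    convert h4 using 1
    ext x
    exact ⟨fun h => ⟨h, h.2⟩, fun h => h.1⟩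

end Pool.Agent.H33.KW2
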