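import Mathlib

set_option autoImplicit false
open Set Topology Filter

namespace Pool.Agent.H33.Zigzag

def fl (n : ℕ) (y : ℝ) : ℝ := if Even n then y else 1 - y

lemma fl_fl (n : ℕ) (y : ℝ) : fl n (fl n y) = y := by unfold fl; split_ifs <;> ring
lemma fl_succ (n : ℕ) (y : ℝ) : fl (n + 1) y = 1 - fl n y := by
  unfold fl
  by_cases h : Even n
  · rw [if_neg (by simpa [Nat.even_add_one] using h), if_pos h]
  · rw [if_pos (by simpa [Nat.even_add_one] using h), if_neg h]; ring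
lemma fl_mem (n : ℕ) {y : ℝ} (h : y ∈ Icc (0 : ℝ) 1) : fl n y ∈ Icc (0 : ℝ) 1 := by
  unfold fl; split_ifs
  · exact h
  · constructor <;> linarith [h.1, h.2]
lemma fl_cont (n : ℕ) : Continuous (fl n) := by
  unfold fl; split_ifs <;> fun_prop
lemma fl_sub (n : ℕ) (y y' : ℝ) : |fl n y - fl n y'| = |y - y'| := by
  unfold fl; split_ifs
  · rfl
  · rw [← abs_neg]; congr 1; ring

noncomputable def Λ (s : ℝ) : ℝ := ‖(s : AddCircle (2 : ℝ))‖

lemma Λ_lip (s t : ℝ) : |Λ s - Λ t| ≤ |s - t| := by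
  refine (abs_norm_sub_norm_le _ _).trans ?_
  rw [← AddCircle.coe_sub]
  exact QuotientAddGroup.norm_mk_le_norm
lemma Λ_cont : Continuous Λ := continuous_norm.comp (AddCircle.continuous_mk' 2)
lemma Λ_mem (s : ℝ) : Λ s ∈ Icc (0 : ℝ) 1 :=
  ⟨norm_nonneg _, by simpa [Λ] using AddCircle.norm_le_half_period (2 : ℝ) (x := (s : AddCircle (2 : ℝ))) two_ne_zero⟩
lemma Λ_two (j : ℕ) (s : ℝ) : Λ (2 * j + s) = Λ s := by
  unfold Λ
  congr 1
  rw [AddCircle.coe_add]
  have : ((2 * j : ℝ) : AddCircle (2 : ℝ)) = 0 := by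
    rw [AddCircle.coe_eq_zero_iff]; exact ⟨j, by simp [mul_comm]⟩
  rw [this, zero_add]
lemma Λ_abs {s : ℝ} (h : |s| ≤ 1) : Λ s = |s| :=
  (AddCircle.norm_coe_eq_abs_iff (2 : ℝ) two_ne_zero).mpr (by simpa using h)
lemma Λ_eq (n : ℕ) {s : ℝ} (h : s ∈ Icc (0 : ℝ) 1) : Λ (n + s) = fl n s := by
  unfold fl
  split_ifs with hn
  · obtain ⟨j, rfl⟩ := hn
    rw [show ((j + j : ℕ) : ℝ) + s = 2 * j + s by push_cast; ring, Λ_two,
      Λ_abs (by rw [abs_of_nonneg h.1]; exact h.2), abs_of_nonneg h.1]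
  · obtain ⟨j, rfl⟩ := Nat.not_even_iff_odd.mp hn
    have h1 : |s - 1| = 1 - s := by rw [abs_of_nonpos (by linarith [h.2])]; ring
    rw [show ((2 * j + 1 : ℕ) : ℝ) + s = 2 * (j + 1 : ℕ) + (s - 1) by push_cast; ring, Λ_two,
      Λ_abs (by rw [h1]; linarith [h.1]), h1]

/-- a strictly increasing lift with integer end values gives an open map -/
lemma open_of_lift {θ : ℝ → ℝ} (hc : Continuous θ) (hm : StrictMono θ) {m n : ℕ}
    (h0 : θ 0 = m) (h1 : θ 1 = n) :
    ∃ φ : unitInterval → unitInterval, Continuous φ ∧ IsOpenMap φ ∧ ∀ t, (φ t : ℝ) = Λ (θ t) := by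
  have hmn : m < n := by
    have := hm zero_lt_one
    rw [h0, h1] at this; exact_mod_cast this
  let φ : unitInterval → unitInterval := fun t => ⟨Λ (θ t), Λ_mem _⟩
  refine ⟨φ, (Λ_cont.comp (hc.comp continuous_subtype_val)).subtype_mk _, ?_, fun _ => rfl⟩
  let ψ : unitInterval → Icc (m : ℝ) n := fun t => ⟨θ t, h0 ▸ hm.monotone t.2.1, h1 ▸ hm.monotone t.2.2⟩
  have hψ : Continuous ψ := (hc.comp continuous_subtype_val).subtype_mk _
  have hb : Function.Bijective ψ := by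
    constructor
    · intro s t h
      exact Subtype.ext (hm.injective (congrArg Subtype.val h))
    · intro y
      obtain ⟨t, ht, h⟩ := intermediate_value_Icc zero_le_one hc.continuousOn
        (show y.1 ∈ Icc (θ 0) (θ 1) by rw [h0, h1]; exact y.2)
      exact ⟨⟨t, ht⟩, Subtype.ext h⟩
  let e := hψ.homeoOfEquivCompactToT2 (f := Equiv.ofBijective ψ hb)
  have he : ∀ y, θ (e.symm y) = y := fun y => congrArg Subtype.val (e.apply_symm_apply y)
  apply IsOpenMap.of_sections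
  intro x
  obtain ⟨k, hk1, hk2, hk3, hk4⟩ : ∃ k : ℕ, m ≤ k ∧ k + 1 ≤ n ∧ (k : ℝ) ≤ θ x ∧ θ x ≤ k + 1 := by
    have hx := (ψ x).2
    have hx1 : (m : ℝ) ≤ θ x := hx.1
    have hx2 : θ x ≤ n := hx.2
    have h00 : 0 ≤ θ x := le_trans (by positivity) hx1
    rcases hx2.eq_or_lt with h | h
    · obtain ⟨j, rfl⟩ : ∃ j, n = j + 1 := ⟨n - 1, by omega⟩
      refine ⟨j, by omega, le_rfl, ?_, ?_⟩ <;> rw [h] <;> push_cast <;> linarith
    · exact ⟨⌊θ x⌋₊, Nat.le_floor hx1, (Nat.floor_lt h00).mpr h, Nat.floor_le h00,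
        (Nat.lt_floor_add_one _).le⟩
  have hk1' : (m : ℝ) ≤ k := by exact_mod_cast hk1
  have hk2' : (k : ℝ) + 1 ≤ n := by exact_mod_cast hk2
  let σ : unitInterval → Icc (m : ℝ) n := fun y => ⟨k + fl k y, by
    linarith [(fl_mem k y.2).1], by linarith [(fl_mem k y.2).2]⟩
  have hσ : Continuous σ :=
    (continuous_const.add ((fl_cont k).comp continuous_subtype_val)).subtype_mk _
  refine ⟨fun y => e.symm (σ y), (e.symm.continuous.comp hσ).continuousAt, ?_, fun y => ?_⟩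
  · rw [Homeomorph.symm_apply_eq]
    apply Subtype.ext
    change (k : ℝ) + fl k (Λ (θ x)) = θ x
    have : Λ (θ x) = fl k (θ x - k) := by
      rw [← Λ_eq k ⟨by linarith, by linarith⟩]; congr 1; ring
    rw [this, fl_fl]; ring
  · apply Subtype.ext
    change Λ (θ (e.symm (σ y))) = y
    rw [he]
    change Λ (k + fl k y) = y
    rw [Λ_eq k (fl_mem k y.2), fl_fl]

section disc
variable (y : ℕ → ℝ) (e : ℝ) (n0 : ℕ)

open Classical in
noncomputable def lap : ℕ → ℕ
  | 0 => n0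
  | k + 1 => if 1 - e ≤ fl (lap k) (y (k + 1)) then lap k + 1 else lap k

lemma lap_mono : Monotone (lap y e n0) := monotone_nat_of_le_succ fun k => by
  rw [lap]; split_ifs <;> omega

lemma lap_same {k l m : ℕ} (h : lap y e n0 k = lap y e n0 l) (h1 : k < m) (h2 : m ≤ l) :
    fl (lap y e n0 k) (y m) < 1 - e := by
  obtain ⟨j, rfl⟩ : ∃ j, m = j + 1 := ⟨m - 1, by omega⟩
  have a1 := lap_mono y e n0 (show k ≤ j by omega)
  have a2 := lap_mono y e n0 h2
  by_contra hn
  have : lap y e n0 (j + 1) = lap y e n0 j + 1 := by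
    have a3 := lap_mono y e n0 (show j ≤ l by omega)
    have : lap y e n0 j = lap y e n0 k := by omega
    rw [lap, if_pos (by rw [this]; exact not_lt.mp hn)]
  omega

end disc

lemma discrete (M : ℕ) (y : ℕ → ℝ) (e : ℝ) (he : 0 < e) (he2 : e < 1 / 2)
    (hy : ∀ k, y k ∈ Icc (0 : ℝ) 1) (hs : ∀ k, k < M → |y (k + 1) - y k| ≤ e)
    (hU : ∀ n k, k ≤ M → ∃ l, l ≤ M ∧ 1 - e ≤ fl n (y l) ∧
      ∀ m, (k ≤ m ∧ m ≤ l ∨ l ≤ m ∧ m ≤ k) → fl n (y k) - e ≤ fl n (y m)) :
    ∃ (w : ℕ → ℝ) (m n : ℕ), m < n ∧ Monotone w ∧ (m : ℝ) ≤ w 0 ∧ w 0 ≤ m + 2 * e ∧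
      (n : ℝ) ≤ w M ∧ w M ≤ n + 4 * e ∧ (∀ k, k < M → w (k + 1) ≤ w k + 3 * e) ∧
      ∀ k, k ≤ M → |Λ (w k) - y k| ≤ 2 * e := by
  classical
  have hex : ∃ a, y a ≤ e ∨ 1 - e ≤ y a := by
    obtain ⟨l, -, h, -⟩ := hU 0 0 (Nat.zero_le _)
    exact ⟨l, Or.inr (by simpa [fl] using h)⟩
  obtain ⟨n0, a0, ha0, ha1, ha2⟩ : ∃ n0 a0 : ℕ, a0 ≤ M ∧ fl n0 (y a0) ≤ e ∧
      ∀ m, m ≤ a0 → fl n0 (y m) < 1 - e := by
    have hM : Nat.find hex ≤ M := by
      obtain ⟨l, hl, h, -⟩ := hU 0 0 (Nat.zero_le _)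
      exact (Nat.find_min' hex (Or.inr (by simpa [fl] using h))).trans hl
    have hmin : ∀ m, m < Nat.find hex → e < y m ∧ y m < 1 - e := fun m hm => by
      have := Nat.find_min hex hm
      push Not at this; exact this
    rcases Nat.find_spec hex with h | h
    · refine ⟨0, Nat.find hex, hM, by simpa [fl] using h, fun m hm => ?_⟩
      simp only [fl, Even.zero, if_true]
      rcases hm.eq_or_lt with rfl | hm
      · linarith
      · exact (hmin m hm).2
    · refine ⟨1, Nat.find hex, hM, by simp only [fl, Nat.not_even_one, if_false]; linarith,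
        fun m hm => ?_⟩
      simp only [fl, Nat.not_even_one, if_false]
      rcases hm.eq_or_lt with rfl | hm
      · linarith
      · linarith [(hmin m hm).1]
  set L := lap y e n0 with hL
  have good : ∀ k, k ≤ M → ∃ a, a ≤ M ∧ fl (L k) (y a) ≤ e ∧
      ((a ≤ k ∧ ∀ m, a ≤ m → m ≤ k → fl (L k) (y m) < 1 - e) ∨
       (k ≤ a ∧ ∀ m, m ≤ a → fl (L k) (y m) < 1 - e)) := by
    intro k
    induction k with
    | zero => exact fun _ => ⟨a0, ha0, ha1, Or.inr ⟨Nat.zero_le _, ha2⟩⟩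
    | succ k ih =>
      intro hk
      obtain ⟨a, h1, h2, h3⟩ := ih (by omega)
      by_cases h : 1 - e ≤ fl (L k) (y (k + 1))
      · have e1 : L (k + 1) = L k + 1 := by rw [hL, lap, if_pos h]
        refine ⟨k + 1, hk, by rw [e1, fl_succ]; linarith, Or.inl ⟨le_rfl, fun m hm hm' => ?_⟩⟩
        rw [le_antisymm hm' hm, e1, fl_succ]; linarith
      · have e1 : L (k + 1) = L k := by rw [hL, lap, if_neg h]
        rw [e1]
        refine ⟨a, h1, h2, ?_⟩
        rcases h3 with ⟨h3, h4⟩ | ⟨h3, h4⟩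
        · refine Or.inl ⟨by omega, fun m hm hm' => ?_⟩
          rcases hm'.eq_or_lt with rfl | hm'
          · exact not_le.mp h
          · exact h4 m hm (by omega)
        · rcases h3.eq_or_lt with rfl | h3
          · refine Or.inl ⟨by omega, fun m hm hm' => ?_⟩
            rcases hm'.eq_or_lt with rfl | hm'
            · exact not_le.mp h
            · exact h4 m (by omega)
          · exact Or.inr ⟨h3, h4⟩
  -- if the witness lies to the left, the value is small
  have left : ∀ k, k ≤ M → ∀ l, l ≤ k → 1 - e ≤ fl (L k) (y l) →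
      (∀ m, (k ≤ m ∧ m ≤ l ∨ l ≤ m ∧ m ≤ k) → fl (L k) (y k) - e ≤ fl (L k) (y m)) →
      fl (L k) (y k) ≤ 2 * e := by
    intro k hk l hl h1 h2
    obtain ⟨a, -, h3, ⟨h4, h5⟩ | ⟨h4, h5⟩⟩ := good k hk
    · have : l < a := by
        by_contra hn
        exact absurd (h5 l (by omega) hl) (not_lt.mpr h1)
      have := h2 a (Or.inr ⟨this.le, h4⟩)
      linarith
    · exact absurd (h5 l (by omega)) (not_lt.mpr h1)
  set z : ℕ → ℝ := fun k => L k + fl (L k) (y k) with hz
  have key : ∀ k l, k ≤ l → l ≤ M → z k - 2 * e ≤ z l := by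
    intro k l hkl hl
    have m1 := fl_mem (L k) (hy k)
    have m2 := fl_mem (L l) (hy l)
    rcases (lap_mono y e n0 hkl).eq_or_lt with h | h
    · obtain ⟨l', hl', h1, h2⟩ := hU (L k) k (by omega)
      have h' : L k = L l := h
      simp only [hz, ← h']
      rw [← h'] at m2
      by_cases c1 : l ≤ l'
      · linarith [h2 l (Or.inl ⟨hkl, c1⟩)]
      · by_cases c2 : l' ≤ k
        · linarith [left k (by omega) l' c2 h1 h2, m2.1]
        · exact absurd (lap_same y e n0 h (m := l') (by omega) (by omega)) (not_lt.mpr h1)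
    · have : (L k : ℝ) + 1 ≤ L l := by exact_mod_cast h
      simp only [hz]; linarith [m1.2, m2.1]
  have jump : ∀ k, k < M → z (k + 1) ≤ z k + 3 * e := by
    intro k hk
    have h0 := abs_le.mp ((fl_sub (L k) _ _).trans_le (hs k hk))
    by_cases h : 1 - e ≤ fl (L k) (y (k + 1))
    · have e1 : L (k + 1) = L k + 1 := by rw [hL, lap, if_pos h]
      simp only [hz, e1, fl_succ]; push_cast; linarith [h0.2]
    · have e1 : L (k + 1) = L k := by rw [hL, lap, if_neg h]
      simp only [hz, e1]; linarith [h0.2]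
  let w : ℕ → ℝ := fun k => Nat.rec (z 0) (fun k r => max r (z (k + 1))) k
  have w0 : w 0 = z 0 := rfl
  have ws : ∀ k, w (k + 1) = max (w k) (z (k + 1)) := fun _ => rfl
  have wz : ∀ k, z k ≤ w k := fun k => by
    cases k with
    | zero => exact le_rfl
    | succ k => rw [ws]; exact le_max_right _ _
  have wz' : ∀ k l, k ≤ l → l ≤ M → w k ≤ z l + 2 * e := by
    intro k
    induction k with
    | zero => intro l h1 h2; rw [w0]; linarith [key 0 l h1 h2]
    | succ k ih =>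
      intro l h1 h2
      rw [ws]
      exact max_le (ih l (by omega) h2) (by linarith [key (k + 1) l h1 h2])
  have zM : fl (L M) (y M) ≤ 2 * e := by
    obtain ⟨l, hl, h1, h2⟩ := hU (L M) M le_rfl
    exact left M le_rfl l hl h1 h2
  have L0 : L 0 = n0 := rfl
  refine ⟨w, n0, L M, ?_, monotone_nat_of_le_succ fun k => by rw [ws]; exact le_max_left _ _,
    ?_, ?_, ?_, ?_, ?_, ?_⟩
  · rcases (lap_mono y e n0 (Nat.zero_le M)).eq_or_lt with h | h
    · obtain ⟨l, hl, h1, -⟩ := hU n0 0 (Nat.zero_le _)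
      rcases Nat.eq_zero_or_pos l with rfl | hl0
      · exact absurd (ha2 0 (Nat.zero_le _)) (not_lt.mpr h1)
      · exact absurd (lap_same y e n0 h hl0 hl) (not_lt.mpr h1)
    · exact h
  · rw [w0]; simp only [hz, L0]; linarith [(fl_mem n0 (hy 0)).1]
  · rw [w0]; simp only [hz, L0]
    obtain ⟨l, hl, h1, h2⟩ := hU n0 0 (Nat.zero_le _)
    have : a0 < l := by
      by_contra hn
      exact absurd (ha2 l (by omega)) (not_lt.mpr h1)
    linarith [h2 a0 (Or.inl ⟨Nat.zero_le _, this.le⟩)]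
  · refine le_trans ?_ (wz M)
    simp only [hz]; linarith [(fl_mem (L M) (hy M)).1]
  · refine (wz' M M le_rfl le_rfl).trans ?_
    simp only [hz]; linarith
  · intro k hk
    rw [ws]
    exact max_le (by linarith) (by linarith [jump k hk, wz k])
  · intro k hk
    have : y k = Λ (z k) := by simp only [hz]; rw [Λ_eq _ (fl_mem _ (hy k)), fl_fl]
    rw [this]
    refine (Λ_lip _ _).trans (abs_le.mpr ⟨by linarith [wz k], by linarith [wz' k k le_rfl hk]⟩)

/-- monotone continuous interpolation -/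
lemma interp (M : ℕ) (w : ℕ → ℝ) (hw : Monotone w) :
    ∃ W : ℝ → ℝ, Continuous W ∧ Monotone W ∧ ∀ k, k ≤ M → W k = w k := by
  refine ⟨fun t => w 0 + ∑ j ∈ Finset.range M, (w (j + 1) - w j) * max 0 (min 1 (t - j)),
    by fun_prop, fun s t hst => ?_, fun k hk => ?_⟩
  · apply add_le_add_right
    refine Finset.sum_le_sum fun j _ => mul_le_mul_of_nonneg_left ?_ (sub_nonneg.mpr (hw j.le_succ))
    exact max_le_max le_rfl (min_le_min le_rfl (by linarith))
  · have : ∑ j ∈ Finset.range M, (w (j + 1) - w j) * max 0 (min 1 ((k : ℝ) - j)) =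
        ∑ j ∈ Finset.range k, (w (j + 1) - w j) := by
      rw [← Finset.sum_subset (Finset.range_mono hk)]
      · refine Finset.sum_congr rfl fun j hj => ?_
        have : (j : ℝ) + 1 ≤ k := by exact_mod_cast Finset.mem_range.mp hj
        rw [min_eq_left (by linarith), max_eq_right zero_le_one, mul_one]
      · intro j _ hj
        have : (k : ℝ) ≤ j := by exact_mod_cast not_lt.mp (mt Finset.mem_range.mpr hj)
        rw [max_eq_left (min_le_of_right_le (by linarith)), mul_zero]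
    simp only [this, Finset.sum_range_sub]; ring

lemma approx (ψ : unitInterval → unitInterval) (ε η : ℝ) (hε : 0 < ε) (hε2 : ε < 1 / 4)
    (hη : 0 < η) (hs : ∀ s t : unitInterval, |(s : ℝ) - t| ≤ η → |(ψ s : ℝ) - ψ t| ≤ ε)
    (hU : ∀ (n : ℕ) (t : unitInterval), ∃ s : unitInterval, 1 - ε ≤ fl n (ψ s) ∧
      ∀ r : unitInterval, (r : ℝ) ∈ uIcc (t : ℝ) s → fl n (ψ t) - ε ≤ fl n (ψ r)) :
    ∃ φ : unitInterval → unitInterval, Continuous φ ∧ IsOpenMap φ ∧
      ∀ t, |(φ t : ℝ) - ψ t| ≤ 23 * ε := by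
  obtain ⟨M', hM'⟩ := exists_nat_one_div_lt hη
  set M := M' + 1 with hMdef
  have hM : (0 : ℝ) < M := by positivity
  have hMη : 1 / (M : ℝ) ≤ η := by rw [hMdef]; push_cast; exact hM'.le
  let pt : ℕ → unitInterval := fun k => projIcc 0 1 zero_le_one (k / M)
  have hpt : ∀ k, k ≤ M → (pt k : ℝ) = k / M := fun k hk => by
    simp only [pt]
    rw [projIcc_of_mem zero_le_one ⟨by positivity, by
      rw [div_le_one hM]; exact_mod_cast hk⟩]
  obtain ⟨w, m, n, hmn, hw, w1, w2, w3, w4, w5, w6⟩ := discrete M (fun k => ψ (pt k)) (2 * ε)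
    (by linarith) (by linarith) (fun k => (ψ _).2) (fun k hk => by
      refine (hs _ _ ?_).trans (by linarith)
      rw [hpt _ hk, hpt _ hk.le, ← sub_div]; push_cast
      rw [add_sub_cancel_left, abs_of_pos (by positivity)]; exact hMη) (fun n k hk => by
      obtain ⟨s, h1, h2⟩ := hU n (pt k)
      obtain ⟨l, hl, h3, h4⟩ : ∃ l, l ≤ M ∧ (l : ℝ) / M ∈ uIcc ((k : ℝ) / M) s ∧
          |(l : ℝ) / M - s| ≤ 1 / M := by
        have s0 : 0 ≤ (s : ℝ) * M := mul_nonneg s.2.1 hM.le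
        have s1 : (s : ℝ) * M ≤ M := by nlinarith [s.2.2]
        have e1 : ∀ l : ℕ, (l : ℝ) / M - s = (l - s * M) / M := fun l => by field_simp
        rcases le_total ((k : ℝ) / M) s with h | h
        · refine ⟨⌊(s : ℝ) * M⌋₊, Nat.floor_le_of_le s1, mem_uIcc_of_le ?_ ?_, ?_⟩
          · rw [div_le_iff₀ hM] at h
            have : (k : ℝ) ≤ ⌊(s : ℝ) * M⌋₊ := by exact_mod_cast Nat.le_floor h
            gcongr
          · rw [div_le_iff₀ hM]; exact Nat.floor_le s0
          · rw [e1, abs_div, abs_of_pos hM]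
            gcongr
            exact abs_le.mpr ⟨by linarith [Nat.lt_floor_add_one ((s : ℝ) * M)],
              by linarith [Nat.floor_le s0]⟩
        · refine ⟨⌈(s : ℝ) * M⌉₊, Nat.ceil_le.mpr s1, mem_uIcc_of_ge ?_ ?_, ?_⟩
          · rw [le_div_iff₀ hM]; exact Nat.le_ceil _
          · rw [le_div_iff₀ hM] at h
            have : (⌈(s : ℝ) * M⌉₊ : ℝ) ≤ k := by exact_mod_cast Nat.ceil_le.mpr h
            gcongr
          · rw [e1, abs_div, abs_of_pos hM]
            gcongr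
            exact abs_le.mpr ⟨by linarith [Nat.le_ceil ((s : ℝ) * M)],
              by linarith [Nat.ceil_lt_add_one s0]⟩
      refine ⟨l, hl, ?_, fun j hj => ?_⟩
      · have := abs_le.mp ((fl_sub n _ _).trans_le (hs (pt l) s (by rw [hpt _ hl]; linarith)))
        linarith [this.1]
      · have hjM : j ≤ M := by omega
        have : (j : ℝ) / M ∈ uIcc ((k : ℝ) / M) (l / M) := by
          rcases hj with ⟨a, b⟩ | ⟨a, b⟩
          · exact mem_uIcc_of_le (by gcongr) (by gcongr)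
          · exact mem_uIcc_of_ge (by gcongr) (by gcongr)
        have := h2 (pt j) (by
          rw [hpt _ hjM, hpt _ hk]; exact uIcc_subset_uIcc left_mem_uIcc h3 this)
        linarith)
  obtain ⟨W, cW, mW, hW⟩ := interp M w hw
  let θ0 : ℝ → ℝ := fun t => W (t * M) + 2 * ε * t
  have c0 : Continuous θ0 := by fun_prop
  have m0 : StrictMono θ0 := fun s t hst =>
    add_lt_add_of_le_of_lt (mW (by nlinarith)) (by nlinarith)
  have t0 : θ0 0 = w 0 := by simp only [θ0, zero_mul, mul_zero, add_zero]; simpa using hW 0 (Nat.zero_le _)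
  have t1 : θ0 1 = w M + 2 * ε := by simp only [θ0, one_mul, mul_one]; rw [hW M le_rfl]
  have hd : 0 < θ0 1 - θ0 0 := sub_pos.mpr (m0 zero_lt_one)
  have hmn' : (0 : ℝ) < n - m := by rw [sub_pos]; exact_mod_cast hmn
  obtain ⟨φ, cφ, oφ, hφ⟩ := open_of_lift (θ := fun t => m + (n - m) * ((θ0 t - θ0 0) / (θ0 1 - θ0 0)))
    (by fun_prop) (fun s t hst => by
      have := m0 hst
      simp only
      gcongr) (m := m) (n := n) (by simp) (by rw [div_self hd.ne']; ring)
  refine ⟨φ, cφ, oφ, fun t => ?_⟩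
  rw [hφ]
  set lam := (θ0 t - θ0 0) / (θ0 1 - θ0 0) with hlam
  have l0 : 0 ≤ lam := div_nonneg (sub_nonneg.mpr (m0.monotone t.2.1)) hd.le
  have l1 : lam ≤ 1 := (div_le_one hd).mpr (by linarith [m0.monotone t.2.2])
  have l2 : θ0 t = θ0 0 + lam * (θ0 1 - θ0 0) := by rw [hlam, div_mul_cancel₀ _ hd.ne']; ring
  have s0 : 0 ≤ (t : ℝ) * M := mul_nonneg t.2.1 hM.le
  have s1 : (t : ℝ) * M ≤ M := by nlinarith [t.2.2]
  set k := ⌊(t : ℝ) * M⌋₊ with hk
  have hkM : k ≤ M := Nat.floor_le_of_le s1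
  have k1 : (k : ℝ) ≤ t * M := Nat.floor_le s0
  have k2 : (t : ℝ) * M < (k : ℝ) + 1 := Nat.lt_floor_add_one _
  have a1 : w k ≤ W (t * M) := by rw [← hW k hkM]; exact mW k1
  have a2 : W (t * M) ≤ w k + 3 * (2 * ε) := by
    rcases hkM.eq_or_lt with h | h
    · have := mW s1
      rw [hW M le_rfl, ← h] at this
      rw [← h]; linarith
    · have := mW k2.le
      rw [show (k : ℝ) + 1 = (k + 1 : ℕ) by push_cast; rfl, hW _ h] at this
      linarith [w5 k h]
  have a3 : |(m + (n - m) * lam) - w k| ≤ 18 * ε := by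
    have b1 : θ0 t = W (t * M) + 2 * ε * t := rfl
    have b2 : (m + (n - m) * lam) - θ0 t = (1 - lam) * (m - θ0 0) + lam * (n - θ0 1) := by
      rw [l2]; ring
    rw [t0, t1] at b2
    have b3 : 0 ≤ 2 * ε * t := mul_nonneg (by linarith) t.2.1
    have b4 : 2 * ε * t ≤ 2 * ε := by nlinarith [t.2.2]
    refine abs_le.mpr ⟨by nlinarith, by nlinarith⟩
  have a4 : |(ψ (pt k) : ℝ) - ψ t| ≤ ε := hs _ _ (by
    rw [hpt _ hkM, show (k : ℝ) / M - t = (k - t * M) / M by field_simp, abs_div, abs_of_pos hM]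
    refine le_trans ?_ hMη
    gcongr
    exact abs_le.mpr ⟨by linarith, by linarith⟩)
  have a5 := abs_le.mp ((Λ_lip _ _).trans a3)
  have a6 := abs_le.mp (w6 k hkM)
  have a7 := abs_le.mp a4
  exact abs_le.mpr ⟨by linarith [a5.1, a6.1, a7.1], by linarith [a5.2, a6.2, a7.2]⟩

end Pool.Agent.H33.Zigzag
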