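import Mathlib
import Pool.Agent.H33.Contin
import Pool.Agent.H33.Zigzag

set_option autoImplicit false
open Set Topology Filter

namespace Pool.Agent.H33.Knaster
open Pool.Agent.H33.Contin Pool.Agent.H33.Zigzag

abbrev P (g : ℕ → unitInterval → unitInterval) :=
  {x : ℕ → unitInterval // ∀ k, x k = g k (x (k + 1))}

abbrev Op (g : ℕ → unitInterval → unitInterval) : Prop := ∀ k, Continuous (g k) ∧ IsOpenMap (g k)

lemma surj_of_open {g : unitInterval → unitInterval} (h : Continuous g) (ho : IsOpenMap g) :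
    Function.Surjective g := by
  rw [← range_eq_univ]
  exact IsClopen.eq_univ ⟨(isCompact_range h).isClosed, ho.isOpen_range⟩ (range_nonempty _)

lemma compact {g : ℕ → unitInterval → unitInterval} (hg : Op g) : CompactSpace (P g) := by
  apply isCompact_iff_compactSpace.mp
  apply IsClosed.isCompact
  change IsClosed {x : ℕ → unitInterval | ∀ k, x k = g k (x (k + 1))}
  rw [ofPred_forall]
  exact isClosed_iInter fun k => isClosed_eq (continuous_apply k) ((hg k).1.comp (continuous_apply _))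

lemma pc (g : ℕ → unitInterval → unitInterval) (i : ℕ) : Continuous fun x : P g => x.1 i :=
  (continuous_apply i).comp continuous_subtype_val

lemma psurj (i : ℕ) : ∀ (g : ℕ → unitInterval → unitInterval), (∀ k, Function.Surjective (g k)) →
    ∀ t, ∃ x : P g, x.1 i = t := by
  induction i with
  | zero =>
    intro g hg t
    exact ⟨⟨fun k => Nat.rec t (fun k r => Function.surjInv (hg k) r) k,
      fun k => (Function.surjInv_eq (hg k) _).symm⟩, rfl⟩
  | succ i ih =>
    intro g hg t
    obtain ⟨x, hx⟩ := ih (fun k => g (k + 1)) (fun k => hg _) t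
    refine ⟨⟨fun k => Nat.casesOn k (g 0 (x.1 0)) x.1, fun k => ?_⟩, hx⟩
    cases k with
    | zero => rfl
    | succ k => exact x.2 k

lemma down {g : ℕ → unitInterval → unitInterval} {x y : P g} {j k : ℕ} (h : j ≤ k)
    (e : x.1 k = y.1 k) : x.1 j = y.1 j := by
  induction h with
  | refl => exact e
  | step _ ih => exact ih (by rw [x.2, y.2, e])

lemma evt_fib {g : ℕ → unitInterval → unitInterval} (hg : Op g) (x : P g) {U : Set (P g)}
    (hU : IsOpen U) (hx : x ∈ U) : ∃ N, ∀ n, N ≤ n → ∀ y : P g, y.1 n = x.1 n → y ∈ U := by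
  have := compact hg
  exact evt (E := fun n => {y : P g | y.1 n = x.1 n})
    (fun n => isClosed_eq (pc g n) continuous_const) (fun a b hab y hy => down hab hy) hU
    (fun y hy => by
      have : y = x := Subtype.ext (funext fun n => mem_iInter.mp hy n)
      rw [this]; exact hx)

lemma popen {g : ℕ → unitInterval → unitInterval} (hg : Op g) (i : ℕ) :
    IsOpenMap fun x : P g => x.1 i := by
  have := compact hg
  intro U hU
  rw [isOpen_iff_mem_nhds]
  rintro _ ⟨x, hx, rfl⟩
  obtain ⟨N, hN⟩ := evt_fib hg x hU hx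
  have h1 : ∀ n, N ≤ n → (fun x : P g => x.1 n) '' U ∈ 𝓝 (x.1 n) := fun n hn => by
    have hc : IsClosed ((fun x : P g => x.1 n) '' Uᶜ) :=
      (hU.isClosed_compl.isCompact.image (pc g n)).isClosed
    refine mem_of_superset (hc.isOpen_compl.mem_nhds ?_) fun t ht => ?_
    · rintro ⟨y, hy, e⟩; exact hy (hN n hn y e)
    · obtain ⟨y, rfl⟩ := psurj n g (fun k => surj_of_open (hg k).1 (hg k).2) t
      exact ⟨y, by_contra fun h => ht ⟨y, h, rfl⟩, rfl⟩
  have h2 : ∀ d n, N ≤ n + d → (fun x : P g => x.1 n) '' U ∈ 𝓝 (x.1 n) := by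
    intro d
    induction d with
    | zero => exact h1
    | succ d ih =>
      intro n hn
      have := (hg n).2.image_mem_nhds (ih (n + 1) (by omega))
      rw [← x.2 n, image_image] at this
      convert this using 3 with y
      exact y.2 n
  exact h2 N i (by omega)

section L
variable {X : Type*} [TopologicalSpace X] [CompactSpace X] [T2Space X]

def L (u : X → unitInterval) : Prop := ∀ (x : X) (y : unitInterval), ∃ C : Set X,
  IsPreconnected C ∧ x ∈ C ∧ (∀ z ∈ C, (u z : ℝ) ∈ uIcc (u x : ℝ) y) ∧ ∃ c ∈ C, u c = y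

lemma seg_closed (a b : ℝ) : IsClosed {t : unitInterval | (t : ℝ) ∈ uIcc a b} :=
  isCompact_uIcc.isClosed.preimage continuous_subtype_val

lemma seg_conn (a b : ℝ) : IsPreconnected {t : unitInterval | (t : ℝ) ∈ uIcc a b} := by
  rw [← IsInducing.subtypeVal.isPreconnected_image]
  have := Subtype.image_preimage_coe (Icc (0 : ℝ) 1) (uIcc a b)
  exact this ▸ (ordConnected_Icc.inter ordConnected_uIcc).isPreconnected

lemma L_of_open {u : X → unitInterval} (h : Continuous u) (ho : IsOpenMap u) : L u := by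
  intro x y
  have := whyburn h ho (seg_closed (u x) y) (seg_conn (u x) y) (x := x) left_mem_uIcc
  refine ⟨_, isPreconnected_connectedComponentIn, mem_connectedComponentIn
    (show x ∈ u ⁻¹' {t : unitInterval | (t : ℝ) ∈ uIcc (u x : ℝ) y} from left_mem_uIcc),
    fun z hz => connectedComponentIn_subset
      (u ⁻¹' {t : unitInterval | (t : ℝ) ∈ uIcc (u x : ℝ) y}) _ hz, ?_⟩
  have hy : y ∈ {t : unitInterval | (t : ℝ) ∈ uIcc (u x : ℝ) y} := right_mem_uIcc
  rw [← this] at hy
  exact hy

lemma L_of_lim {u : X → unitInterval} (h : Continuous u)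
    (hv : ∀ ε : ℝ, 0 < ε → ∃ v : X → unitInterval, L v ∧ ∀ x, |(v x : ℝ) - u x| ≤ ε) : L u := by
  intro x y
  choose v hv1 hv2 using fun n : ℕ => hv (1 / ((n : ℝ) + 1)) (by positivity)
  choose C c1 c2 c3 c4 using fun n => hv1 n x y
  have hu : Continuous fun z => (u z : ℝ) := continuous_subtype_val.comp h
  have hanti : ∀ a b : ℕ, a ≤ b → 1 / ((b : ℝ) + 1) ≤ 1 / ((a : ℝ) + 1) := fun a b hab => by
    have : (a : ℝ) ≤ b := by exact_mod_cast hab
    gcongr
  have hlim : ∀ s t : ℝ, (∀ n : ℕ, s ≤ t + 2 * (1 / ((n : ℝ) + 1))) → s ≤ t := fun s t hst => by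
    refine le_of_forall_pos_le_add fun δ hδ => ?_
    obtain ⟨n, hn⟩ := exists_nat_one_div_lt (half_pos hδ)
    linarith [hst n]
  obtain ⟨c, hc1, hc2⟩ := lim (x := x) (C := C)
    (E := fun n => {z | min (u x : ℝ) y ≤ u z + 2 * (1 / ((n : ℝ) + 1))} ∩
      {z | (u z : ℝ) ≤ max (u x : ℝ) y + 2 * (1 / ((n : ℝ) + 1))})
    (W := fun n => {z | |(u z : ℝ) - y| ≤ 0 + 2 * (1 / ((n : ℝ) + 1))})
    (fun n => (isClosed_le continuous_const (by fun_prop)).inter (isClosed_le hu continuous_const))
    (fun a b hab z hz => by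
      obtain ⟨h1, h2⟩ := hz
      simp only [mem_ofPred_eq] at h1 h2
      constructor <;> simp only [mem_ofPred_eq] <;> linarith [hanti a b hab])
    (fun n => isClosed_le (by fun_prop) continuous_const)
    (fun a b hab z hz => by
      simp only [mem_ofPred_eq] at hz ⊢
      linarith [hanti a b hab])
    c1 (fun n z hz => by
      have h1 := abs_le.mp (hv2 n z)
      have h2 := abs_le.mp (hv2 n x)
      have h0 : (0 : ℝ) < 1 / ((n : ℝ) + 1) := by positivity
      have a1 := min_le_left (u x : ℝ) y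
      have a2 := min_le_right (u x : ℝ) y
      have a3 := le_max_left (u x : ℝ) y
      have a4 := le_max_right (u x : ℝ) y
      rcases mem_uIcc.mp (c3 n z hz) with h3 | h3 <;> constructor <;> simp only [mem_ofPred_eq] <;>
        linarith [h3.1, h3.2, h1.1, h1.2, h2.1, h2.2])
    c2 (fun n => by
      obtain ⟨c, hc, e⟩ := c4 n
      have := hv2 n c
      have h0 : (0 : ℝ) < 1 / ((n : ℝ) + 1) := by positivity
      rw [e, abs_sub_comm] at this
      exact ⟨c, hc, le_trans this (by linarith)⟩)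
  refine ⟨_, isPreconnected_connectedComponentIn, ?_, fun z hz => ?_, c, hc1, ?_⟩
  · apply mem_connectedComponentIn
    refine mem_iInter.mpr fun n => ?_
    have h0 : (0 : ℝ) < 1 / ((n : ℝ) + 1) := by positivity
    constructor <;> simp only [mem_ofPred_eq] <;>
      linarith [min_le_left (u x : ℝ) y, le_max_left (u x : ℝ) y]
  · have := mem_iInter.mp (connectedComponentIn_subset _ _ hz)
    exact ⟨hlim _ _ fun n => (this n).1, hlim _ _ fun n => (this n).2⟩
  · have := hlim _ _ fun n => mem_iInter.mp hc2 n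
    exact Subtype.ext (sub_eq_zero.mp (abs_nonpos_iff.mp this))

lemma conf_of_L {h : ℕ → unitInterval → unitInterval} (hh : Op h) {f : X → P h} (hf : Continuous f)
    (hL : ∀ j, L fun x => (f x).1 j) (K : Set (P h)) (hK : IsClosed K) (hc : IsConnected K)
    (x : X) (hx : f x ∈ K) : f '' connectedComponentIn (f ⁻¹' K) x = K := by
  have := compact hh
  apply Subset.antisymm
  · rintro _ ⟨z, hz, rfl⟩
    exact connectedComponentIn_subset (f ⁻¹' K) _ hz
  intro y hy
  choose C c1 c2 c3 c4 using fun n => hL n x (y.1 n)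
  obtain ⟨c, hc1, hc2⟩ := lim (x := x) (C := C)
    (E := fun n => {z | (f z).1 n ∈ (fun w : P h => w.1 n) '' K})
    (W := fun n => {z | (f z).1 n = y.1 n})
    (fun n => (hK.isCompact.image (pc h n)).isClosed.preimage ((pc h n).comp hf))
    (fun a b hab z ⟨w, hw, e⟩ => ⟨w, hw, down hab e⟩)
    (fun n => isClosed_eq ((pc h n).comp hf) continuous_const)
    (fun a b hab z hz => down hab hz) c1 (fun n z hz => by
      have hoc := (hc.isPreconnected.image (fun w : P h => (w.1 n : ℝ))
        (continuous_subtype_val.comp (pc h n)).continuousOn).ordConnected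
      obtain ⟨w, hw, e⟩ := hoc.uIcc_subset ⟨f x, hx, rfl⟩ ⟨y, hy, rfl⟩ (c3 n z hz)
      exact ⟨w, hw, Subtype.ext e⟩) c2 (fun n => by
      obtain ⟨c, hc, e⟩ := c4 n
      exact ⟨c, hc, e⟩)
  refine ⟨c, connectedComponentIn_mono x (fun z hz => ?_) hc1,
    Subtype.ext (funext fun n => mem_iInter.mp hc2 n)⟩
  by_contra hn
  obtain ⟨N, hN⟩ := evt_fib hh (f z) hK.isOpen_compl hn
  obtain ⟨w, hw, e⟩ := mem_iInter.mp hz N
  exact hN N le_rfl w e hw

omit [CompactSpace X] [T2Space X] in
lemma L_of_conf {h : ℕ → unitInterval → unitInterval} (hh : Op h) {f : X → P h}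
    (hf : ∀ K : Set (P h), IsClosed K → IsConnected K → ∀ x, f x ∈ K →
      f '' connectedComponentIn (f ⁻¹' K) x = K) (j : ℕ) : L fun x => (f x).1 j := by
  have := compact hh
  intro x y
  obtain ⟨D, d1, d2, d3, d, d4, d5⟩ := L_of_open (pc h j) (popen hh j) (f x) y
  have e := hf (closure D) isClosed_closure ⟨⟨_, subset_closure d2⟩, d1.closure⟩ x (subset_closure d2)
  refine ⟨_, isPreconnected_connectedComponentIn, mem_connectedComponentIn
    (show x ∈ f ⁻¹' closure D from subset_closure d2), fun z hz => ?_, ?_⟩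
  · exact closure_minimal (t := {w : P h | (w.1 j : ℝ) ∈ uIcc ((f x).1 j : ℝ) y}) d3
      ((seg_closed _ _).preimage (pc h j)) (connectedComponentIn_subset (f ⁻¹' closure D) _ hz)
  · obtain ⟨c, hc, e'⟩ := e.symm ▸ subset_closure d4
    exact ⟨c, hc, by simp only [e', d5]⟩

end L

lemma approx_of_L {g : ℕ → unitInterval → unitInterval} (hg : Op g) {u : P g → unitInterval}
    (hu : Continuous u) (hL : L u) (ε : ℝ) (hε : 0 < ε) (hε2 : ε < 1 / 4) :
    ∃ N, ∀ i, N ≤ i → ∃ φ : unitInterval → unitInterval, (Continuous φ ∧ IsOpenMap φ) ∧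
      ∀ x : P g, |(φ (x.1 i) : ℝ) - u x| ≤ 24 * ε := by
  have := compact hg
  have hu' : Continuous fun z => (u z : ℝ) := continuous_subtype_val.comp hu
  have hO : IsOpen {p : P g × P g | |(u p.1 : ℝ) - u p.2| < ε} := isOpen_lt (by fun_prop) continuous_const
  obtain ⟨N, hN⟩ := evt (E := fun n => {p : P g × P g | p.1.1 n = p.2.1 n})
    (fun n => isClosed_eq ((pc g n).comp continuous_fst) ((pc g n).comp continuous_snd))
    (fun a b hab p hp => down hab hp) hO (fun p hp => by
      have : p.1 = p.2 := Subtype.ext (funext fun n => mem_iInter.mp hp n)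
      simp only [mem_ofPred_eq, this, sub_self, abs_zero, hε])
  refine ⟨N, fun i hi => ?_⟩
  have hp' : Continuous fun z : P g => (z.1 i : ℝ) := continuous_subtype_val.comp (pc g i)
  obtain ⟨n, hn⟩ := evt (E := fun n : ℕ =>
      {p : P g × P g | |(p.1.1 i : ℝ) - p.2.1 i| ≤ 1 / ((n : ℝ) + 1)})
    (fun n => isClosed_le ((hp'.comp continuous_fst).sub (hp'.comp continuous_snd)).abs continuous_const)
    (fun a b hab p hp => by
      simp only [mem_ofPred_eq] at hp ⊢
      refine le_trans hp ?_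
      have : (a : ℝ) ≤ b := by exact_mod_cast hab
      gcongr) hO (fun p hp => hN i hi (by
      have : |(p.1.1 i : ℝ) - p.2.1 i| ≤ 0 := le_of_forall_pos_le_add fun δ hδ => by
        obtain ⟨n, hn⟩ := exists_nat_one_div_lt hδ
        have : |(p.1.1 i : ℝ) - p.2.1 i| ≤ 1 / ((n : ℝ) + 1) := mem_iInter.mp hp n
        linarith
      exact Subtype.ext (sub_eq_zero.mp (abs_nonpos_iff.mp this))))
  choose sec hsec using psurj i g (fun k => surj_of_open (hg k).1 (hg k).2)
  have near : ∀ x : P g, |(u (sec (x.1 i)) : ℝ) - u x| ≤ ε := fun x =>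
    le_of_lt (hN i hi (show (sec (x.1 i), x) ∈ {p : P g × P g | p.1.1 i = p.2.1 i} from hsec _))
  obtain ⟨φ, c, o, hφ⟩ := approx (fun t => u (sec t)) ε (1 / ((n : ℝ) + 1)) hε hε2 (by positivity)
    (fun s t hst => le_of_lt (hn n le_rfl (show (sec s, sec t) ∈ {p : P g × P g |
      |(p.1.1 i : ℝ) - p.2.1 i| ≤ 1 / ((n : ℝ) + 1)} by simpa only [mem_ofPred_eq, hsec] using hst)))
    (fun m t => by
      obtain ⟨C, c1, c2, c3, c, c4, c5⟩ := hL (sec t) ⟨fl m 1, fl_mem m ⟨zero_le_one, le_rfl⟩⟩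
      refine ⟨c.1 i, ?_, fun r hr => ?_⟩
      · have := abs_le.mp ((fl_sub m _ _).trans_le (near c))
        rw [c5, fl_fl] at this
        linarith [this.1]
      · obtain ⟨z, hz, e⟩ := (c1.image _ hp'.continuousOn).ordConnected.uIcc_subset
          ⟨sec t, c2, by simp only [hsec]⟩ ⟨c, c4, rfl⟩ hr
        have e' : z.1 i = r := Subtype.ext e
        have h1 := abs_le.mp ((fl_sub m _ _).trans_le (near z))
        rw [e'] at h1
        have h2 : fl m (u (sec t)) ≤ fl m (u z) := by
          have h3 := mem_uIcc.mp (c3 z hz)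
          have h4 := (u (sec t)).2
          have h5 := (u z).2
          simp only [fl] at h3 ⊢
          split_ifs at h3 ⊢ <;> rcases h3 with h3 | h3 <;> linarith [h3.1, h3.2, h4.1, h4.2, h5.1, h5.2]
        linarith [h1.1])
  refine ⟨φ, ⟨c, o⟩, fun x => ?_⟩
  have h1 := abs_le.mp (hφ (x.1 i))
  have h2 := abs_le.mp (near x)
  exact abs_le.mpr ⟨by linarith [h1.1, h2.1], by linarith [h1.2, h2.2]⟩

theorem main (g h : ℕ → unitInterval → unitInterval) (hg : Op g) (hh : Op h) (f : P g → P h)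
    (hf : Continuous f) :
    (∀ j : ℕ, ∃ F : ℕ → unitInterval → unitInterval,
      (∀ i, Continuous (F i) ∧ IsOpenMap (F i)) ∧
      TendstoUniformly (fun (i : ℕ) (x : P g) => F i (x.1 i)) (fun x => (f x).1 j) Filter.atTop) ↔
    (∀ K : Set (P h), IsClosed K → IsConnected K →
      ∀ x, f x ∈ K → f '' connectedComponentIn (f ⁻¹' K) x = K) := by
  have := compact hg
  constructor
  · intro H
    refine conf_of_L hh hf fun j => L_of_lim ((pc h j).comp hf) fun ε hε => ?_
    obtain ⟨F, h1, h2⟩ := H j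
    obtain ⟨i, hi⟩ := (Metric.tendstoUniformly_iff.mp h2 ε hε).exists
    refine ⟨_, L_of_open ((h1 i).1.comp (pc g i)) ((h1 i).2.comp (popen hg i)), fun x => ?_⟩
    have := (hi x).le
    rw [dist_comm] at this
    exact this
  · intro H j
    have hL := L_of_conf hh H j
    -- choose nearly optimal open maps
    let S : ℕ → ℝ → Prop := fun i δ => ∃ φ : unitInterval → unitInterval,
      (Continuous φ ∧ IsOpenMap φ) ∧ ∀ x : P g, |(φ (x.1 i) : ℝ) - (f x).1 j| ≤ δ
    have hS : ∀ i : ℕ, ∃ φ : unitInterval → unitInterval, (Continuous φ ∧ IsOpenMap φ) ∧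
        ∀ δ, S i δ → ∀ x : P g, |(φ (x.1 i) : ℝ) - (f x).1 j| ≤ δ + 1 / ((i : ℝ) + 1) := by
      intro i
      have hne : {δ | S i δ}.Nonempty := ⟨1, id, ⟨continuous_id, IsOpenMap.id⟩, fun x => by
        change |(x.1 i : ℝ) - (f x).1 j| ≤ 1
        exact abs_le.mpr ⟨by linarith [(x.1 i).2.1, ((f x).1 j).2.2],
          by linarith [(x.1 i).2.2, ((f x).1 j).2.1]⟩⟩
      obtain ⟨x0, -⟩ := psurj 0 g (fun k => surj_of_open (hg k).1 (hg k).2) 0
      have hbd : BddBelow {δ | S i δ} := ⟨0, fun δ ⟨φ, _, h⟩ => (abs_nonneg _).trans (h x0)⟩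
      obtain ⟨δ0, ⟨φ, h1, h2⟩, h3⟩ := exists_lt_of_csInf_lt hne
        (lt_add_of_pos_right _ (show (0 : ℝ) < 1 / ((i : ℝ) + 1) by positivity))
      exact ⟨φ, h1, fun δ hδ x => by linarith [h2 x, csInf_le hbd hδ]⟩
    choose F h1 h2 using hS
    refine ⟨F, h1, Metric.tendstoUniformly_iff.mpr fun ε hε => ?_⟩
    obtain ⟨N, hN⟩ := approx_of_L hg ((pc h j).comp hf) hL (min (ε / 48) (1 / 8))
      (lt_min (by positivity) (by norm_num)) ((min_le_right _ _).trans_lt (by norm_num))
    obtain ⟨n, hn⟩ := exists_nat_one_div_lt (half_pos hε)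
    filter_upwards [eventually_ge_atTop N, eventually_ge_atTop n] with i hi hi' x
    have h3 := h2 i _ (hN i hi) x
    have h4 : 1 / ((i : ℝ) + 1) ≤ 1 / ((n : ℝ) + 1) := by
      have : (n : ℝ) ≤ i := by exact_mod_cast hi'
      gcongr
    rw [dist_comm]
    change |(F i (x.1 i) : ℝ) - (f x).1 j| < ε
    linarith [min_le_left (ε / 48) (1 / 8)]

end Pool.Agent.H33.Knaster
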