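import Mathlib

set_option autoImplicit false

open Set Topology PiNat

namespace Pool.Agent.H33.LeftSep

abbrev C : Type := ℕ → Bool

variable {T : Type} [LinearOrder T]

/-- rank, block and guess attached to every point of the Cantor set -/
structure Dat (T : Type) where
  a : C → T
  i : C → T
  g : C → ℕ → List Bool → C

/-- the `n`-th child of `x` -/
def ch (d : Dat T) (x : C) (n : ℕ) : C := d.g x n.unpair.1 (res x n)

def Ok (d : Dat T) (x : C) (n : ℕ) : Prop :=
  d.a (ch d x n) < d.a x ∧ d.i x < d.i (ch d x n) ∧ res (ch d x n) n = res x n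

inductive U (d : Dat T) : C → ℕ → C → Prop
  | refl (x : C) (m : ℕ) : U d x m x
  | step (x : C) (m n : ℕ) (z : C) : m ≤ n → Ok d x n → U d (ch d x n) n z → U d x m z

theorem U.mono {d : Dat T} {x z : C} {m k : ℕ} (h : U d x m z) (hk : k ≤ m) : U d x k z := by
  cases h with
  | refl => exact U.refl _ _
  | step _ _ n _ h1 h2 h3 => exact U.step _ _ n _ (hk.trans h1) h2 h3

theorem U.agree {d : Dat T} {x z : C} {m : ℕ} (h : U d x m z) : ∀ k < m, z k = x k := by
  induction h with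
  | refl => intro k _; rfl
  | step x m n z h1 h2 _ ih =>
    intro k hk
    rw [ih k (hk.trans_le h1)]
    exact res_eq_res.1 h2.2.2 (hk.trans_le h1)

theorem U.blk {d : Dat T} {x z : C} {m : ℕ} (h : U d x m z) : z = x ∨ d.i x < d.i z := by
  induction h with
  | refl => exact Or.inl rfl
  | step x m n z _ h2 _ ih =>
    right
    rcases ih with h | h
    · rw [h]; exact h2.2.1
    · exact h2.2.1.trans h

theorem U.inner {d : Dat T} {x z : C} {m : ℕ} (h : U d x m z) :
    ∃ k, ∀ w, U d z k w → U d x m w := by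
  induction h with
  | refl x m => exact ⟨m, fun _ h => h⟩
  | step x m n z h1 h2 _ ih =>
    obtain ⟨k, hk⟩ := ih
    exact ⟨k, fun w hw => U.step _ _ n _ h1 h2 (hk w hw)⟩

/-- the space -/
def Y (_d : Dat T) : Type := C

instance (d : Dat T) : TopologicalSpace (Y d) where
  IsOpen V := ∀ x ∈ V, ∃ m, ∀ z, U d x m z → z ∈ V
  isOpen_univ := fun _ _ => ⟨0, fun _ _ => trivial⟩
  isOpen_inter := fun s t hs ht x hx => by
    obtain ⟨m, hm⟩ := hs x hx.1
    obtain ⟨k, hk⟩ := ht x hx.2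
    exact ⟨max m k, fun z hz => ⟨hm z (hz.mono (le_max_left _ _)), hk z (hz.mono (le_max_right _ _))⟩⟩
  isOpen_sUnion := fun S hS x ⟨t, ht, hx⟩ => by
    obtain ⟨m, hm⟩ := hS t ht x hx
    exact ⟨m, fun z hz => ⟨t, ht, hm z hz⟩⟩

theorem isOpen_iff (d : Dat T) (V : Set (Y d)) :
    IsOpen V ↔ ∀ x ∈ V, ∃ m, ∀ z, U d x m z → z ∈ V := Iff.rfl

def B (d : Dat T) (x : C) (m : ℕ) : Set (Y d) := {z | U d x m z}

theorem isOpen_B (d : Dat T) (x : C) (m : ℕ) : IsOpen (B d x m) := fun _ hz => U.inner hz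

theorem isOpen_coord (d : Dat T) (k : ℕ) (b : Bool) : IsOpen {z : Y d | (show C from z) k = b} :=
  fun _ hx => ⟨k + 1, fun _ hz => (hz.agree k (Nat.lt_succ_self k)).trans hx⟩

instance (d : Dat T) : T2Space (Y d) := ⟨fun x y hxy => by
  obtain ⟨k, hk⟩ : ∃ k, (show C from x) k ≠ (show C from y) k := by
    by_contra h
    push Not at h
    exact hxy (funext h)
  refine ⟨_, _, isOpen_coord d k _, isOpen_coord d k _, rfl, rfl, ?_⟩
  rw [Set.disjoint_left]
  intro z h1 h2
  exact hk (h1.symm.trans h2)⟩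

theorem isCompact_B [WellFoundedLT T] (d : Dat T) (x : C) : ∀ m, IsCompact (B d x m) := by
  induction x using (InvImage.wf d.a wellFounded_lt).induction with
  | _ x ih =>
  intro m
  rw [isCompact_iff_ultrafilter_le_nhds']
  intro F hF
  by_cases h : ∀ k, B d x k ∈ F
  · refine ⟨x, U.refl _ _, fun V hV => ?_⟩
    obtain ⟨W, hW, ho, hx⟩ := mem_nhds_iff.1 hV
    obtain ⟨k, hk⟩ := ho x hx
    exact Filter.mem_of_superset (h k) fun z hz => hW (hk z hz)
  · push Not at h
    obtain ⟨k, hk⟩ := h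
    have h1 : B d x m ⊆ B d x k ∪ ⋃ n ∈ {n | n < k ∧ m ≤ n ∧ Ok d x n}, B d (ch d x n) n := by
      intro z hz
      cases hz with
      | refl => exact Or.inl (U.refl _ _)
      | step _ _ n _ h1 h2 h3 =>
        by_cases hn : n < k
        · exact Or.inr (mem_biUnion (And.intro hn (And.intro h1 h2)) h3)
        · exact Or.inl (U.step _ _ n _ (not_lt.1 hn) h2 h3)
    have h2 := (Ultrafilter.union_mem_iff.1 (Filter.mem_of_superset hF h1)).resolve_left hk
    have hfin : {n | n < k ∧ m ≤ n ∧ Ok d x n}.Finite := (finite_lt_nat k).subset fun n hn => hn.1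
    obtain ⟨n, hn, h3⟩ := (Ultrafilter.finite_biUnion_mem_iff hfin).1 h2
    obtain ⟨y, hy, h4⟩ := isCompact_iff_ultrafilter_le_nhds'.1 (ih (ch d x n) hn.2.2.1 n) F h3
    exact ⟨y, U.step _ _ n _ hn.2.1 hn.2.2 hy, h4⟩

instance [WellFoundedLT T] (d : Dat T) : WeaklyLocallyCompactSpace (Y d) :=
  ⟨fun x => ⟨B d x 0, isCompact_B d x 0, (isOpen_B d x 0).mem_nhds (U.refl _ _)⟩⟩

theorem not_sigma (d : Dat T) (hT : ∀ s : Set T, s.Countable → ∃ ζ, ∀ ξ ∈ s, ξ < ζ)
    (hd : ∀ a i g, ∃ x, d.a x = a ∧ d.i x = i ∧ d.g x = g) (f : C → ℕ) :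
    ∃ x, ∀ m, ∃ y, y ≠ x ∧ f y = f x ∧ U d x m y := by
  have h1 : ∀ p : ℕ × List Bool, ∃ β : T,
      (∃ y, f y = p.1 ∧ res y p.2.length = p.2 ∧ β < d.i y) →
        ∀ j, ∃ y, f y = p.1 ∧ res y p.2.length = p.2 ∧ j < d.i y := by
    intro p
    by_cases h : ∀ j, ∃ y, f y = p.1 ∧ res y p.2.length = p.2 ∧ j < d.i y
    · exact ⟨d.i default, fun _ => h⟩
    · rw [not_forall] at h
      obtain ⟨j, hj⟩ := h
      exact ⟨j, fun h => absurd h hj⟩
  choose β hβ using h1
  obtain ⟨i, hi⟩ := hT (range β) (countable_range β)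
  have h2 : ∀ p : ℕ × List Bool, ∃ y : C,
      (∃ y, f y = p.1 ∧ res y p.2.length = p.2 ∧ β p < d.i y) →
        f y = p.1 ∧ res y p.2.length = p.2 ∧ i < d.i y := by
    intro p
    by_cases h : ∃ y, f y = p.1 ∧ res y p.2.length = p.2 ∧ β p < d.i y
    · obtain ⟨y, hy⟩ := hβ p h i
      exact ⟨y, fun _ => hy⟩
    · exact ⟨default, fun h' => absurd h' h⟩
  choose G hG using h2
  obtain ⟨a, ha⟩ := hT (range (d.a ∘ G)) (countable_range _)
  obtain ⟨x, x1, x2, x3⟩ := hd a i fun c t => G (c, t)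
  refine ⟨x, fun m => ?_⟩
  let n := Nat.pair (f x) m
  have hc : ch d x n = G (f x, res x n) := by simp [ch, x3, n]
  obtain ⟨g1, g2, g3⟩ := hG (f x, res x n)
    ⟨x, rfl, by simp, by rw [x2]; exact hi _ ⟨_, rfl⟩⟩
  rw [← hc] at g1 g2 g3
  have hok : Ok d x n := by
    refine ⟨?_, by rwa [x2], by simpa using g2⟩
    rw [x1, hc]; exact ha _ ⟨_, rfl⟩
  refine ⟨ch d x n, fun h => ?_, g1, U.step _ _ n _ (Nat.right_le_pair _ _) hok (U.refl _ _)⟩
  have := hok.1
  rw [h] at this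
  exact lt_irrefl _ this

open Cardinal in
theorem exists_dat : ∃ (T : Type) (_ : LinearOrder T) (_ : WellFoundedLT T) (d : Dat T),
    (∀ s : Set T, s.Countable → ∃ ζ, ∀ ξ ∈ s, ξ < ζ) ∧
    ∀ a i g, ∃ x, d.a x = a ∧ d.i x = i ∧ d.g x = g := by
  obtain ⟨T, _, _, hT, hI⟩ : ∃ (T : Type) (_ : LinearOrder T) (_ : WellFoundedLT T),
      #T = Order.succ ℵ₀ ∧ ∀ ξ : T, (Iio ξ).Countable := ⟨(Order.succ ℵ₀).ord.ToType,
    inferInstance, inferInstance, mk_ord_toType _, fun ξ => by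
      rw [← le_aleph0_iff_set_countable, ← Order.lt_succ_iff]
      exact mk_Iio_lt ξ (by simp) |>.trans_eq (by simp)⟩
  have hu : Uncountable T := by
    rw [← aleph0_lt_mk_iff, hT]; exact Order.lt_succ _
  have hle : #T ≤ 𝔠 := by rw [hT]; exact Order.succ_le_of_lt aleph0_lt_continuum
  have hc : #(T × T × (ℕ → List Bool → C)) ≤ #C := by
    have h1 : #C = 𝔠 := by simp
    have h2 : #(ℕ → List Bool → C) = 𝔠 := by simp
    rw [mk_prod, mk_prod, h1, h2]
    simp only [lift_id]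
    calc #T * (#T * 𝔠) ≤ 𝔠 * (𝔠 * 𝔠) := by gcongr
      _ = 𝔠 := by simp
  obtain ⟨e⟩ := (Cardinal.le_def _ _).1 hc
  have : Nonempty (T × T × (ℕ → List Bool → C)) := inferInstance
  let s := Function.invFun e
  have hs : Function.Surjective s := Function.invFun_surjective e.injective
  refine ⟨T, inferInstance, inferInstance,
    ⟨fun x => (s x).1, fun x => (s x).2.1, fun x => (s x).2.2⟩, fun S hS => ?_, fun a i g => ?_⟩
  · by_contra h
    push Not at h
    have : (Set.univ : Set T) ⊆ ⋃ ξ ∈ S, insert ξ (Iio ξ) := by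
      intro ζ _
      obtain ⟨ξ, h1, h2⟩ := h ζ
      exact mem_biUnion h1 (h2.eq_or_lt.imp id id)
    exact not_countable_univ ((hS.biUnion fun ξ _ => (hI ξ).insert ξ).mono this)
  · obtain ⟨x, hx⟩ := hs (a, i, g)
    exact ⟨x, by simp [hx], by simp [hx], by simp [hx]⟩

def key (d : Dat T) : OnePoint (Y d) → WithBot T := fun p => p.elim ⊥ fun y => (d.i y : WithBot T)

theorem main : ∃ (X : Type) (_ : TopologicalSpace X), CompactSpace X ∧ T2Space X ∧
    (∃ r : X → X → Prop, IsWellOrder X r ∧ ∀ x : X, IsOpen {y : X | ¬ r y x}) ∧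
    ¬ ∃ D : ℕ → Set X, (⋃ n, D n) = Set.univ ∧ ∀ n, DiscreteTopology (D n) := by
  obtain ⟨T, _, _, d, hT, hd⟩ := exists_dat
  refine ⟨OnePoint (Y d), inferInstance, inferInstance, inferInstance, ?_, ?_⟩
  · let e : OnePoint (Y d) ↪ WithBot T × OnePoint (Y d) :=
      ⟨fun p => (key d p, p), fun p q h => congrArg Prod.snd h⟩
    refine ⟨e ⁻¹'o Prod.Lex (· < ·) WellOrderingRel, (RelEmbedding.preimage e _).isWellOrder, ?_⟩
    intro x
    induction x using OnePoint.rec with
    | infty =>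
      convert isOpen_univ
      rw [eq_univ_iff_forall]
      intro y h
      rcases Prod.lex_def.1 h with h | h
      · exact not_lt_bot h
      · induction y using OnePoint.rec with
        | infty => exact irrefl_of WellOrderingRel _ h.2
        | coe y => exact WithBot.coe_ne_bot h.1
    | coe x =>
      rw [OnePoint.isOpen_iff_of_notMem]
      · intro y hy
        refine ⟨0, fun z hz h => ?_⟩
        rcases hz.blk with h1 | h1
        · rw [h1] at h; exact hy h
        · apply hy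
          have h2 : key d (y : Y d) < key d (OnePoint.some z) := WithBot.coe_lt_coe.2 h1
          refine Prod.lex_def.2 (Or.inl ?_)
          rcases Prod.lex_def.1 h with h | h
          · exact h2.trans h
          · exact h2.trans_eq h.1
      · intro h
        exact h (Prod.lex_def.2 (Or.inl (WithBot.bot_lt_coe _)))
  · rintro ⟨D, h1, h2⟩
    have h3 : ∀ y : Y d, ∃ n, (y : OnePoint (Y d)) ∈ D n := fun y =>
      mem_iUnion.1 (h1.symm ▸ mem_univ _)
    choose f hf using h3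
    obtain ⟨x, hx⟩ := not_sigma d hT hd f
    have h4 := (discreteTopology_iff_isOpen_singleton.1 (h2 (f x))) ⟨_, hf x⟩
    obtain ⟨V, hV, h5⟩ := isOpen_induced_iff.1 h4
    have h6 : IsOpen (OnePoint.some ⁻¹' V : Set (Y d)) := hV.preimage OnePoint.continuous_coe
    have h7 : (⟨_, hf x⟩ : D (f x)) ∈ Subtype.val ⁻¹' V := by rw [h5]; rfl
    obtain ⟨m, hm⟩ := h6 x h7
    obtain ⟨y, y1, y2, y3⟩ := hx m
    have h8 : (⟨OnePoint.some y, y2 ▸ hf y⟩ : D (f x)) ∈ Subtype.val ⁻¹' V := hm y y3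
    rw [h5] at h8
    exact y1 (OnePoint.coe_injective (congrArg Subtype.val h8))

end Pool.Agent.H33.LeftSep
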