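import Mathlib

/-!
Right maximal idempotent ultrafilters on a free monoid.
-/

open Set Filter Topology

namespace Pool.Agent.H33.MaxT1

universe u

variable {Y : Type u}

noncomputable instance : Semigroup (Ultrafilter (List Y)) :=
  @Ultrafilter.semigroup _ { mul := (· ++ ·), mul_assoc := List.append_assoc }

theorem ev {U V : Ultrafilter (List Y)} {p : List Y → Prop} :
    (∀ᶠ m in (U * V).toFilter, p m) ↔ ∀ᶠ x in U.toFilter, ∀ᶠ h in V.toFilter, p (x ++ h) := Iff.rfl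

theorem ev' {U V W : Ultrafilter (List Y)} (e : U * V = W) {p : List Y → Prop} :
    (∀ᶠ m in W.toFilter, p m) ↔ ∀ᶠ x in U.toFilter, ∀ᶠ h in V.toFilter, p (x ++ h) := e ▸ ev

theorem cont (V : Ultrafilter (List Y)) : Continuous (· * V) :=
  @Ultrafilter.continuous_mul_left _ ⟨(· ++ ·)⟩ V

theorem mem_closed {α : Type u} {K : Set (Ultrafilter α)} (hK : IsClosed K) {t : Ultrafilter α}
    (h : ∀ D, (∀ s ∈ K, D ∈ s) → D ∈ t) : t ∈ K := by
  by_contra ht
  obtain ⟨_, ⟨D, rfl⟩, h1, h2⟩ :=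
    ultrafilterBasis_is_basis.exists_subset_of_mem_open ht hK.isOpen_compl
  exact Ultrafilter.compl_mem_iff_notMem.1
    (h Dᶜ fun s hs => Ultrafilter.compl_mem_iff_notMem.2 fun h => h2 h hs) h1

theorem lim {t q : Ultrafilter (List Y)} {B : Set (List Y)}
    (h : ∀ D ∈ t, ∃ y ∈ B, ∀ᶠ k in q.toFilter, y ++ k ∈ D) : ∃ r, B ∈ r ∧ r * q = t := by
  have hm : Monotone fun D : Set (List Y) => {y | ∀ᶠ k in q.toFilter, y ++ k ∈ D} :=
    fun _ _ h _ hy => hy.mono fun _ hk => h hk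
  have : (𝓟 B ⊓ t.toFilter.lift' fun D => {y | ∀ᶠ k in q.toFilter, y ++ k ∈ D}).NeBot :=
    inf_neBot_iff.2 fun s hs s' hs' => by
      obtain ⟨D, hD, h1⟩ := (mem_lift'_sets hm).1 hs'
      obtain ⟨y, hy, h2⟩ := h D hD
      exact ⟨y, hs hy, h1 h2⟩
  obtain ⟨r, hr⟩ := Ultrafilter.exists_le (𝓟 B ⊓ t.toFilter.lift' _) (h := this)
  exact ⟨r, hr (mem_inf_of_left (mem_principal_self B)), Ultrafilter.coe_le_coe.1 fun D hD =>
    ev.2 (hr (mem_inf_of_right (mem_lift' hD)))⟩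

theorem sep {K : Set (Ultrafilter (List Y))} (hK : IsClosed K) {q : Ultrafilter (List Y)}
    {B : Set (List Y)} (h : ∀ r, B ∈ r → r * q ∉ K) :
    ∃ D, (∀ y ∈ B, ∀ᶠ k in q.toFilter, y ++ k ∈ D) ∧ ∀ s ∈ K, D ∉ s := by
  by_contra hn
  push Not at hn
  have : ((⨆ y ∈ B, map (y ++ ·) q.toFilter) ⊓ ⨆ s ∈ K, s.toFilter).NeBot :=
    inf_neBot_iff.2 fun D hD N hN => by
      simp only [mem_iSup] at hD hN
      obtain ⟨s, hs, h1⟩ := hn D hD
      exact s.nonempty_of_mem (inter_mem h1 (hN s hs))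
  obtain ⟨t, ht⟩ := Ultrafilter.exists_le _ (h := this)
  obtain ⟨r, h1, rfl⟩ := lim (t := t) (q := q) (B := B) fun D hD => by
    by_contra h2
    refine Ultrafilter.compl_mem_iff_notMem.1 (ht (mem_inf_of_left ?_)) hD
    simp only [mem_iSup]
    exact fun y hy => Ultrafilter.eventually_not.2 fun h => h2 ⟨y, hy, h⟩
  exact h r h1 (mem_closed hK fun D hD => ht (mem_inf_of_right (by
    simp only [mem_iSup]
    exact hD)))

theorem len {r q : Ultrafilter (List Y)} {k : ℕ} (hk : 0 < k) (h : {x | x.length = k} ∈ r) :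
    r * q ≠ q := by
  intro e
  rcases q.em fun x => x.length / k % 2 = 0 with h1 | h1 <;>
  · obtain ⟨x, h2, h3⟩ := ((ev.1 (e.symm ▸ h1)).and h).exists
    obtain ⟨y, h4, h5⟩ := (h2.and h1).exists
    rw [List.length_append, h3, Nat.add_div_left _ hk] at h4
    omega

/-- left closed compact subsemigroups -/
structure Good (C : Set (Ultrafilter (List Y))) : Prop where
  cl : IsClosed C
  ne : C.Nonempty
  nz : ∀ r ∈ C, {x | x ≠ []} ∈ r
  mul : ∀ r ∈ C, ∀ s ∈ C, r * s ∈ C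
  lc : ∀ r, {x | x ≠ []} ∈ r → ∀ s ∈ C, r * s ∈ C → r ∈ C

theorem exists_min {S : Set (Ultrafilter (List Y))} (hS : Good S) :
    ∃ C ⊆ S, Minimal Good C := by
  refine zorn_superset_nonempty {C | Good C} (fun c hc hc' hne => ⟨⋂₀ c, ⟨isClosed_sInter
    fun C h => (hc h).cl, ?_, fun r hr => (hc hne.some_mem).nz r (hr _ hne.some_mem),
    fun r hr s hs C h => (hc h).mul r (hr C h) s (hs C h),
    fun r hr s hs h1 C h => (hc h).lc r hr s (hs C h) (h1 C h)⟩,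
    fun C h => sInter_subset_of_mem h⟩) S hS
  have := hne.to_subtype
  exact IsCompact.nonempty_sInter_of_directed_nonempty_isCompact_isClosed 
    (fun a ha b hb => (hc'.total ha hb).elim (fun h => ⟨a, ha, subset_rfl, h⟩)
      fun h => ⟨b, hb, h, subset_rfl⟩)
    (fun C h => (hc h).ne) (fun C h => (hc h).cl.isCompact) fun C h => (hc h).cl

theorem fix {C : Set (Ultrafilter (List Y))} (hC : Minimal Good C) {q r₀ : Ultrafilter (List Y)}
    (hq : q ∈ C) (h0 : {x | x ≠ []} ∈ r₀) (h1 : r₀ * q = q) : ∀ r ∈ C, r * q = q := fun r hr =>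
  (hC.2 (y := {r | {x | x ≠ []} ∈ r ∧ r * q = q}) ⟨(ultrafilter_isClosed_basic _).inter
    (isClosed_eq (cont q) continuous_const), ⟨r₀, h0, h1⟩, fun _ h => h.1,
    fun r hr s hs => ⟨ev.2 (mem_of_superset hr.1 fun x hx => Eventually.of_forall fun k h =>
      hx (List.append_eq_nil_iff.1 h).1), by rw [mul_assoc, hs.2, hr.2]⟩,
    fun r hr s hs h => ⟨hr, by simpa only [mul_assoc, hs.2] using h.2⟩⟩
    (fun r hr => hC.1.lc r hr.1 q hq (hr.2.symm ▸ hq)) hr).2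

open Classical in
/-- parity of the depth -/
noncomputable def dd (P : List Y → List Y → Prop) (w : List Y) : Bool :=
  if h : ∃ x : List Y, x.length < w.length ∧ ∃ k, P x k ∧ x ++ k = w then !dd P h.choose else false
termination_by w.length
decreasing_by exact h.choose_spec.1

theorem parity {q : Ultrafilter (List Y)} {A : Set (List Y)} (h0 : {x | x ≠ []} ∈ q) (hA : A ∈ q)
    (h : ∀ z, z ≠ [] → ∀ᶠ k in q.toFilter, z ++ k ∉ A) :
    ∃ d : List Y → Bool, ∀ x, ∀ᶠ k in q.toFilter, d (x ++ k) = !d x := by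
  let P : List Y → List Y → Prop := fun x k => k ∈ A ∧ ∀ z ∈ x.tails, z ≠ [] → z ++ k ∉ A
  have h1 : ∀ x k y l, P x k → P y l → x ++ k = y ++ l → x = y := by
    intro x k y l h2 h3 e
    rcases List.append_eq_append_iff.1 e with ⟨a, rfl, rfl⟩ | ⟨a, rfl, rfl⟩ <;> by_cases ha : a = []
    · simp [ha]
    · exact absurd h2.1 (h3.2 a (by simp) ha)
    · simp [ha]
    · exact absurd h3.1 (h2.2 a (by simp) ha)
  refine ⟨dd P, fun x => ((((eventually_all_finite (List.finite_toSet x.tails)).2 fun z _ =>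
    eventually_imp_distrib_left.2 (h z)).and hA).and h0).mono fun k hk => ?_⟩
  have h2 : ∃ y : List Y, y.length < (x ++ k).length ∧ ∃ l, P y l ∧ y ++ l = x ++ k :=
    ⟨x, by simpa [List.length_pos_iff] using hk.2, k, ⟨hk.1.2, hk.1.1⟩, rfl⟩
  obtain ⟨-, l, h3, h4⟩ := h2.choose_spec
  rw [dd, dif_pos h2, h1 _ _ _ _ h3 ⟨hk.1.2, hk.1.1⟩ h4]

theorem right_zero {C : Set (Ultrafilter (List Y))} (hC : Minimal Good C) :
    ∀ q ∈ C, ∀ r ∈ C, r * q = q := by
  intro q hq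
  by_cases h0 : ∃ r₀, {x | x ≠ []} ∈ r₀ ∧ r₀ * q = q
  · obtain ⟨r₀, h0, h1⟩ := h0
    exact fix hC hq h0 h1
  exfalso
  obtain ⟨A, hA, h1⟩ : ∃ A ∈ q, ∀ z, z ≠ [] → ∀ᶠ k in q.toFilter, z ++ k ∉ A := by
    by_contra h
    refine h0 (lim fun D hD => by_contra fun h1 => h ⟨D, hD, fun z hz =>
      Ultrafilter.eventually_not.2 fun h2 => h1 ⟨z, hz, h2⟩⟩)
  obtain ⟨d, hd⟩ := parity (hC.1.nz q hq) hA h1
  obtain ⟨e, he, h2⟩ := exists_idempotent_in_compact_subsemigroup cont C hC.1.ne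
    hC.1.cl.isCompact hC.1.mul
  have h3 := fix hC he (hC.1.nz e he) h2 q hq
  obtain ⟨-, c, hc⟩ := hC.2 (y := {r ∈ C | ∃ c, ∀ x, ∀ᶠ k in r.toFilter, d (x ++ k) = xor (d x) c})
    ⟨hC.1.cl.inter (show IsClosed {r : Ultrafilter (List Y) | _} from by
      simp only [ofPred_exists, ofPred_forall]
      exact isClosed_iUnion_of_finite fun c => isClosed_iInter fun x =>
        ultrafilter_isClosed_basic _), ⟨q, hq, true, by simpa using hd⟩, fun r hr => hC.1.nz r hr.1,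
    fun r ⟨hr, c, hc⟩ s ⟨hs, c', hc'⟩ => ⟨hC.1.mul r hr s hs, xor c c', fun x => ev.2
      ((hc x).mono fun y hy => (hc' (x ++ y)).mono fun k hk => by
        rw [← List.append_assoc, hk, hy, Bool.xor_assoc])⟩,
    fun r hr s ⟨hs, c', hc'⟩ ⟨h, c, hc⟩ => ⟨hC.1.lc r hr s hs h, xor c c', fun x =>
      (ev.1 (hc x)).mono fun y hy => by
        obtain ⟨k, h4, h5⟩ := (hy.and (hc' (x ++ y))).exists
        rw [← List.append_assoc, h5] at h4
        revert h4
        cases d x <;> cases d (x ++ y) <;> cases c <;> cases c' <;> simp⟩⟩ (fun r hr => hr.1) he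
  obtain ⟨y, h4, h5⟩ := ((ev.1 (h3.symm ▸ hc [])).and (hd [])).exists
  obtain ⟨k, h6, h7⟩ := (h4.and (hc y)).exists
  simp only [List.nil_append] at h5 h6
  rw [h7, h5] at h6
  revert h6
  cases d [] <;> cases c <;> simp

theorem finite {C : Set (Ultrafilter (List Y))} (hC : Good C) (hz : ∀ q ∈ C, ∀ r ∈ C, r * q = q) :
    C.Finite := by
  by_contra hi
  let e := Set.Infinite.natEmbedding C hi
  let q : Ultrafilter (List Y) := (hyperfilter ℕ).bind fun n => (e n).1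
  have h1 : ∀ D, (∀ᶠ n in cofinite, D ∈ (e n).1) → D ∈ q := fun D h =>
    mem_bind'.2 (hyperfilter_le_cofinite h)
  have hq : q ∈ C := mem_closed hC.cl fun D h => h1 D (Eventually.of_forall fun n => h _ (e n).2)
  have h2 : ∀ r, r * q ∈ C → r * q = q := fun r h => by
    simpa only [mul_assoc, hz q hq q hq] using hz q hq _ h
  have h3 : ∀ n, ∃ B : Set (List Y), (e n).1 ≠ q → B ∈ (e n).1 ∧
      ∀ y, y ≠ [] → ∀ᶠ k in q.toFilter, y ++ k ∉ B := fun n => by
    by_contra h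
    push Not at h
    obtain ⟨r, -, hr⟩ := lim (t := e n) (q := q) (B := {x | x ≠ []}) fun D hD => by
      obtain ⟨y, h4, h5⟩ := (h D).2 hD
      exact ⟨y, h4, Ultrafilter.frequently_iff_eventually.1 (by simpa using h5)⟩
    exact (h ∅).1 (hr ▸ h2 r (hr ▸ (e n).2))
  choose B hB using h3
  choose D h4 h5 using fun k => sep hC.cl (q := q) (B := {x | x.length = k + 1})
    fun r hr h => len k.succ_pos hr (h2 r h)
  have h6 : (⋃ n ∈ {n | (e n).1 ≠ q}, B n ∩ ⋂ k ∈ Iic n, (D k)ᶜ) ∈ q := h1 _ <| by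
    refine mem_of_superset (Subsingleton.finite (s := {n | (e n).1 = q}) fun a ha b hb =>
      e.injective (Subtype.ext (ha.trans hb.symm))).compl_mem_cofinite fun n hn => ?_
    exact mem_of_superset (inter_mem (hB n hn).1 ((biInter_mem (finite_Iic n)).2 fun k _ =>
      Ultrafilter.compl_mem_iff_notMem.2 (h5 k _ (e n).2))) (subset_biUnion_of_mem
        (u := fun n => B n ∩ ⋂ k ∈ Iic n, (D k)ᶜ) hn)
  obtain ⟨y, h7, hy⟩ := (((ev' (hz q hq q hq)).1 h6).and (hC.nz q hq)).exists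
  obtain ⟨k, hk⟩ := Nat.exists_eq_succ_of_ne_zero (List.length_pos_iff.2 hy).ne'
  obtain ⟨l, ⟨h8, h9⟩, h10⟩ := ((h7.and (h4 k y hk)).and ((eventually_all_finite (finite_Iio k)).2
    fun n _ => eventually_imp_distrib_left.2 fun hn => (hB n hn).2 y hy)).exists
  obtain ⟨n, hn, h11, h12⟩ := mem_iUnion₂.1 h8
  rcases lt_or_ge n k with h | h
  exacts [h10 n h hn h11, mem_iInter₂.1 h12 k h h9]

theorem local_reg {S : Set (Ultrafilter (List Y))} (hS : Good S) : ∃ p ∈ S, p * p = p ∧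
    ∃ X : Set (List Y), [] ∈ X ∧ (∀ x ∈ X, ∀ᶠ h in p.toFilter, x ++ h ∈ X) ∧
      ∀ x ∈ X, ∀ W ∈ p, ∃ D ∈ p, ∀ z, z ≠ [] → x ++ z ∈ X →
        (∀ᶠ h in p.toFilter, z ++ h ∈ D) → z ∈ W := by
  obtain ⟨C, hCS, hC⟩ := exists_min hS
  have hz := right_zero hC
  obtain ⟨p, hp⟩ := hC.1.ne
  have hf := (finite hC.1 hz).sdiff (t := {p})
  choose! A h1 h2 using fun s : Ultrafilter (List Y) => fun h : s ≠ p => show ∃ A ∈ p, A ∉ s from
    by_contra fun h' => h (Ultrafilter.coe_le_coe.1 fun A hA => by_contra fun h'' => h' ⟨A, hA, h''⟩)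
  let R : List Y → Prop := fun x => ∀ s ∈ C \ {p}, ∀ᶠ z in s.toFilter, x ++ z ∉ A s
  have h3 : ∀ᶠ x in p.toFilter, (∀ s ∈ C \ {p}, x ∈ A s) ∧ R x := by
    refine ((eventually_all_finite hf).2 fun s hs => h1 s hs.2).and
      ((eventually_all_finite hf).2 fun s hs => (ev' (hz s hs.1 p hp) (p := (· ∉ A s))).1 ?_ |>.mono
        fun _ h => h)
    exact Ultrafilter.compl_mem_iff_notMem.2 (h2 s hs.2)
  have h4 := h3.and ((ev' (hz p hp p hp)).1 h3)
  refine ⟨p, hCS hp, hz p hp p hp, insert [] {x | ((∀ s ∈ C \ {p}, x ∈ A s) ∧ R x) ∧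
    ∀ᶠ h in p.toFilter, (∀ s ∈ C \ {p}, x ++ h ∈ A s) ∧ R (x ++ h)}, mem_insert _ _, ?_,
    fun x hx W hW => ?_⟩
  · rintro x (rfl | hx)
    · exact h4.mono fun _ h => Or.inr h
    · exact (hx.2.and ((ev' (hz p hp p hp)).1 hx.2)).mono fun k hk =>
        Or.inr ⟨hk.1, by simpa only [List.append_assoc] using hk.2⟩
  · have h5 : R x := by
      rcases hx with rfl | hx
      exacts [fun s hs => Ultrafilter.compl_mem_iff_notMem.2 (h2 s hs.2), hx.1.2]
    by_contra h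
    push Not at h
    obtain ⟨r, h6, h7⟩ := lim (t := p) (q := p) (B := {z | z ≠ [] ∧ _ ∧ z ∉ W}) fun D hD => by
      obtain ⟨z, h6, h7, h8, h9⟩ := h D hD
      exact ⟨z, ⟨h6, h7, h9⟩, h8⟩
    have h8 : r ∈ C \ {p} := ⟨hC.1.lc r (mem_of_superset h6 fun _ h => h.1) p hp (h7.symm ▸ hp),
      fun e => by
        obtain ⟨z, h8, h9⟩ := p.nonempty_of_mem (inter_mem (e ▸ h6) hW)
        exact h8.2.2 h9⟩
    obtain ⟨z, h9, h10, h11, -⟩ := ((h5 r h8).and h6).exists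
    rcases h11 with h11 | h11
    exacts [h10 (List.append_eq_nil_iff.1 h11).2, h9 (h11.1.1 r h8)]

end Pool.Agent.H33.MaxT1
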