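import Mathlib
import Pool.Agent.H33.MaxT1

/-!
Decomposition of a locally regular neighbourhood into words.
-/

open Set Filter Topology

namespace Pool.Agent.H33.MaxT2

open Pool.Agent.H33.MaxT1

universe u

variable {Y : Type u}

open Classical in
/-- cutting a word into pieces -/
noncomputable def ww (n : List Y → ℕ) (x : List Y) : List (List Y) :=
  if _h : 0 < n x ∧ x ≠ [] then x.take (n x) :: ww n (x.drop (n x)) else []
termination_by x.length
decreasing_by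
  have := List.length_pos_iff.2 _h.2
  simp only [List.length_drop]
  omega

theorem ww_nil (n : List Y → ℕ) : ww n [] = [] := by
  rw [ww, dif_neg (by simp)]

theorem ww_ne {n : List Y → ℕ} {x : List Y} (h : 0 < n x) (hx : x ≠ []) :
    ww n x = x.take (n x) :: ww n (x.drop (n x)) := by
  rw [ww, dif_pos ⟨h, hx⟩]

theorem decomp {p : Ultrafilter (List Y)} {X : Set (List Y)} (hp : p * p = p) (h0 : [] ∈ X)
    (ho : ∀ x ∈ X, ∀ᶠ h in p.toFilter, x ++ h ∈ X)
    (hK : ∀ x ∈ X, ∀ W ∈ p, ∃ D ∈ p, ∀ z, z ≠ [] → x ++ z ∈ X →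
      (∀ᶠ h in p.toFilter, z ++ h ∈ D) → z ∈ W) :
    ∃ w : List Y → List (List Y), w [] = [] ∧ (∀ x ∈ X, (w x).flatten = x ∧ [] ∉ w x) ∧
      (∀ x ∈ X, ∀ᶠ h in p.toFilter, w (x ++ h) = w x ++ w h) ∧
      ∀ L : List (List Y), (∀ᶠ h in p.toFilter, ∃ x ∈ X, w x = L ++ w h) →
        L.flatten ∈ X ∧ w L.flatten = L := by
  have hX : X ∈ p := ho [] h0
  have h1 : ∀ a, ∃ D, a ∈ X → D ∈ p ∧ ∀ z, (∀ᶠ h in p.toFilter, z ++ h ∈ D) →
      (a ++ z ∈ X ↔ z ∈ X) := fun a => by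
    by_cases ha : a ∈ X
    · obtain ⟨D, h1, h2⟩ := hK a ha X hX
      obtain ⟨D', h3, h4⟩ := hK [] h0 _ (ho a ha)
      refine ⟨D ∩ D', fun _ => ⟨inter_mem h1 h3, fun z hz => ?_⟩⟩
      by_cases h : z = []
      · simp [h, ha, h0]
      · exact ⟨fun h5 => h2 z h h5 (hz.mono fun _ h => h.1),
          fun h5 => h4 z h h5 (hz.mono fun _ h => h.2)⟩
    · exact ⟨∅, fun h => absurd h ha⟩
  choose D h1 using h1
  let E : List Y → List Y → Prop := fun a z => ∀ᶠ h in p.toFilter, z ++ h ∈ D a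
  have hE : ∀ a z, E a z ↔ ∀ᶠ h in p.toFilter, E a (z ++ h) := fun a z => by
    simp only [E, List.append_assoc]
    exact ev' hp
  let T : List Y → Set ℕ := fun x =>
    {n | 0 < n ∧ x.take n ∈ X ∧ x.drop n ∈ X ∧ E (x.take n) (x.drop n)}
  let n : List Y → ℕ := fun x => sInf (T x)
  have h2 : ∀ x ∈ X, x ≠ [] → x.length ∈ T x := fun x hx h =>
    ⟨List.length_pos_iff.2 h, by simpa using hx, by simpa using h0, by
      simpa [E] using (h1 x hx).1⟩
  have h3 : ∀ x ∈ X, x ≠ [] → n x ∈ T x ∧ n x ≤ x.length := fun x hx h =>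
    ⟨Nat.sInf_mem ⟨_, h2 x hx h⟩, Nat.sInf_le (h2 x hx h)⟩
  have h4 : ∀ x ∈ X, ∀ m ∈ Iic x.length, ∀ᶠ h in p.toFilter, (m ∈ T (x ++ h) ↔ m ∈ T x) := by
    intro x hx m hm
    simp only [T, mem_ofPred_eq, List.take_append_of_le_length hm,
      List.drop_append_of_le_length hm]
    by_cases h5 : E (x.take m) (x.drop m)
    · by_cases h6 : x.take m ∈ X
      · have h7 := ((h1 _ h6).2 _ h5).1 (by simpa using hx)
        exact ((ho _ h7).and ((hE _ _).1 h5)).mono fun h hh => by simp [hh.1, hh.2, h5, h7]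
      · simp [h6]
    · exact (Ultrafilter.eventually_not.2 fun h => h5 ((hE _ _).2 h)).mono fun h hh => by
        simp [hh, h5]
  have h5 : ∀ x ∈ X, x ≠ [] → ∀ᶠ h in p.toFilter, n (x ++ h) = n x := fun x hx h =>
    ((eventually_all_finite (finite_Iic _)).2 (h4 x hx)).mono fun k hk => by
      have h5 := Nat.sInf_le ((hk _ (h3 x hx h).2).2 (h3 x hx h).1)
      exact le_antisymm h5 (Nat.sInf_le ((hk _ (h5.trans (h3 x hx h).2)).1
        (Nat.sInf_mem ⟨_, (hk _ (h3 x hx h).2).2 (h3 x hx h).1⟩)))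
  have h6 : ∀ x ∈ X, x ≠ [] → (x.drop (n x)).length < x.length := fun x hx h => by
    have := (h3 x hx h).1.1
    have := List.length_pos_iff.2 h
    simp only [List.length_drop]
    omega
  have w1 : ∀ x ∈ X, (ww n x).flatten = x ∧ [] ∉ ww n x := by
    intro x hx
    induction hk : x.length using Nat.strong_induction_on generalizing x with | _ k ih => ?_
    by_cases h : x = []
    · simp [h, ww_nil]
    obtain ⟨h7, h8⟩ := ih _ (hk ▸ h6 x hx h) _ (h3 x hx h).1.2.2.1 rfl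
    rw [ww_ne (h3 x hx h).1.1 h]
    simp [h7, h8, h, (h3 x hx h).1.1.ne']
  refine ⟨ww n, ww_nil n, w1, fun x hx => ?_, fun L => ?_⟩
  · induction hk : x.length using Nat.strong_induction_on generalizing x with | _ k ih => ?_
    by_cases h : x = []
    · simp [h, ww_nil]
    refine ((ih _ (hk ▸ h6 x hx h) _ (h3 x hx h).1.2.2.1 rfl).and (h5 x hx h)).mono fun k hk => ?_
    rw [ww_ne (hk.2 ▸ (h3 x hx h).1.1) (by simp [h]), ww_ne (h3 x hx h).1.1 h, hk.2,
      List.take_append_of_le_length (h3 x hx h).2, List.drop_append_of_le_length (h3 x hx h).2,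
      hk.1, List.cons_append]
  induction L with
  | nil => exact fun _ => ⟨h0, ww_nil n⟩
  | cons a L ih =>
    intro h
    have h7 : ∀ᶠ k in p.toFilter, ∃ x ∈ X, x ≠ [] ∧ x.take (n x) = a ∧
        ww n (x.drop (n x)) = L ++ ww n k := h.mono fun k ⟨x, hx, e⟩ => by
      have h7 : x ≠ [] := by
        rintro rfl
        simp [ww_nil] at e
      rw [ww_ne (h3 x hx h7).1.1 h7] at e
      exact ⟨x, hx, h7, List.cons.inj e⟩
    obtain ⟨h8, h9⟩ := ih (h7.mono fun k ⟨x, hx, h, e⟩ => ⟨_, (h3 x hx h).1.2.2.1, e.2⟩)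
    have h10 : ∀ᶠ k in p.toFilter, (a ∈ X ∧ a ≠ []) ∧ E a (L.flatten ++ k) ∧
        n (a ++ L.flatten ++ k) = a.length := (h7.and hX).mono fun k ⟨⟨x, hx, h, e1, e2⟩, hk⟩ => by
      obtain ⟨⟨t1, t2, t3, t4⟩, t5⟩ := h3 x hx h
      have e3 : x.drop (n x) = L.flatten ++ k := by
        rw [← (w1 _ t3).1, e2, List.flatten_append, (w1 k hk).1]
      have e4 : a ++ L.flatten ++ k = x := by
        rw [List.append_assoc, ← e3, ← e1, List.take_append_drop]
      refine ⟨⟨e1 ▸ t2, ?_⟩, e1 ▸ e3 ▸ t4, ?_⟩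
      · simp [← e1, h, t1.ne']
      · rw [e4, ← e1, List.length_take_of_le t5]
    obtain ⟨_, ⟨ha, ha'⟩, -⟩ := h10.exists
    have h11 := ((h1 a ha).2 _ ((hE _ _).2 (h10.mono fun _ h => h.2.1))).2 h8
    have h12 : a ++ L.flatten ≠ [] := by simp [ha']
    obtain ⟨k, h13, h14⟩ := ((h5 _ h11 h12).and h10).exists
    refine ⟨h11, ?_⟩
    rw [List.flatten_cons, ww_ne (h3 _ h11 h12).1.1 h12, ← h13, h14.2.2]
    simp [h9]

theorem fin_dec (x : List Y) : {L : List (List Y) | [] ∉ L ∧ L.flatten <+: x}.Finite := by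
  induction hk : x.length using Nat.strong_induction_on generalizing x with | _ k ih => ?_
  refine ((finite_singleton []).union ((finite_Ioc 0 k).biUnion fun m hm =>
    (ih _ (by simp only [List.length_drop]; have := hm.1; have := hm.2; omega) (x.drop m) rfl).image
      (x.take m :: ·))).subset ?_
  rintro (_ | ⟨a, L⟩) ⟨h1, t, rfl⟩
  · exact Or.inl rfl
  simp only [List.mem_cons, not_or] at h1
  refine Or.inr (mem_biUnion (x := a.length) ⟨List.length_pos_iff.2 (Ne.symm h1.1), ?_⟩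
    ⟨L, ⟨h1.2, t, ?_⟩, ?_⟩) <;> simp [← hk]

/-- the semigroup of ultrafilters converging to the empty word -/
def S0 (u : Ultrafilter Y) : Set (Ultrafilter (List Y)) :=
  {r | {x | x ≠ []} ∈ r ∧ ∀ M : List Y → Set Y, (∀ x, M x ∈ u) →
    {w | ∀ x y t, w = x ++ y :: t → y ∈ M x} ∈ r}

theorem good_S0 (u : Ultrafilter Y) : Good (S0 u) := by
  refine ⟨(ultrafilter_isClosed_basic _).inter (show IsClosed {r : Ultrafilter (List Y) | _} from by
    simp only [ofPred_forall]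
    exact isClosed_iInter fun M => isClosed_iInter fun _ => ultrafilter_isClosed_basic _),
    ⟨u.map fun y => [y], Ultrafilter.mem_map.2 (univ_mem' fun _ => List.cons_ne_nil _ _), fun M hM => Ultrafilter.mem_map.2
      (mem_of_superset (hM []) fun y hy x z t e => ?_)⟩, fun r h => h.1,
    fun r hr s hs => ⟨ev.2 (mem_of_superset hr.1 fun x hx => Eventually.of_forall fun k h =>
      hx (List.append_eq_nil_iff.1 h).1), fun M hM => ev.2 (mem_of_superset (hr.2 M hM) fun w hw =>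
        mem_of_superset (hs.2 (fun x => M (w ++ x)) fun x => hM _) fun k hk x y t e => ?_)⟩,
    fun r hr s _ h => ⟨hr, fun M hM => (ev.1 (h.2 M hM)).mono fun w hw x y t e => ?_⟩⟩
  · rcases x with _ | ⟨a, x⟩
    · exact (List.cons.inj e).1 ▸ hy
    · simp at e
  · rcases List.append_eq_append_iff.1 e with ⟨a, rfl, e'⟩ | ⟨_ | ⟨b, a⟩, rfl, e'⟩
    · exact hk a y t e'
    · simpa using hk [] y t e'.symm
    · exact hw x y a (by rw [(List.cons.inj e').1])
  · obtain ⟨k, hk⟩ := hw.exists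
    exact hk x y (t ++ k) (by simp [e])

theorem main (u : Ultrafilter Y) : ∃ (p : Ultrafilter (List Y)) (X : Set (List Y))
    (w : List Y → List (List Y)), p * p = p ∧ X ∈ p ∧ w [] = [] ∧
    (∀ᶠ x in p.toFilter, w x ≠ []) ∧ (∀ x ∈ X, (w x).flatten = x) ∧
    (∀ x ∈ X, ∀ᶠ h in p.toFilter, w (x ++ h) = w x ++ w h) ∧
    (∀ L : List (List Y), (∀ᶠ h in p.toFilter, ∃ x ∈ X, w x = L ++ w h) →
      L.flatten ∈ X ∧ w L.flatten = L) ∧
    (∀ W ∈ p, ∃ D ∈ p, ∀ z ∈ X, z ≠ [] → (∀ᶠ h in p.toFilter, z ++ h ∈ D) → z ∈ W) ∧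
    ∀ N : List (List Y) → List Y → Prop, (∀ L z, ∀ᶠ y in u.toFilter, N L (z ++ [y])) →
      ∀ᶠ h in p.toFilter, ∀ L a L', w h = L ++ a :: L' → N L a := by
  obtain ⟨p, hS, hp, X, h0, ho, hK⟩ := local_reg (good_S0 u)
  obtain ⟨w, w0, w1, w2, w3⟩ := decomp hp h0 ho hK
  have hX : X ∈ p := ho [] h0
  refine ⟨p, X, w, hp, hX, w0, mem_of_superset (inter_mem hX hS.1) fun x hx h => hx.2 ?_,
    fun x hx => (w1 x hx).1, w2, w3, fun W hW => ?_, fun N hN => ?_⟩
  · rw [← (w1 x hx.1).1, h, List.flatten_nil]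
  · obtain ⟨D, h1, h2⟩ := hK [] h0 W hW
    exact ⟨D, h1, fun z hz h => h2 z h hz⟩
  refine mem_of_superset (inter_mem hX (hS.2 (fun x => {y | ∀ L ∈ {L : List (List Y) | [] ∉ L ∧
    L.flatten <+: x}, N L (x.drop L.flatten.length ++ [y])}) fun x =>
      (eventually_all_finite (fin_dec x)).2 fun L _ => hN _ _)) fun h ⟨h1, h2⟩ L a L' e => ?_
  obtain ⟨h3, h4⟩ := w1 h h1
  rw [e] at h3 h4
  simp only [List.mem_append, List.mem_cons, not_or] at h4
  obtain ⟨z, y, rfl⟩ := (List.eq_nil_or_concat' a).resolve_left (Ne.symm h4.2.1)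
  simpa using h2 (L.flatten ++ z) y L'.flatten (by simp [← h3]) L ⟨h4.1, List.prefix_append _ _⟩

end Pool.Agent.H33.MaxT2
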