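import Mathlib
import Pool.Agent.H33.GrothEx

/-!
A strongly discrete family of ultrafilters of large sets on a group of singular cardinality.
-/

open Set Filter Cardinal

namespace Pool.Agent.H33.MaxT3

open Pool.Agent.H33.GrothEx

universe u

theorem greedy {J P : Type u} {μ : Cardinal.{u}} (hμ : ℵ₀ ≤ μ) (hP : μ < #P)
    (B : J → P → J → P → Prop) (hs : ∀ i a j b, B i a j b → B j b i a)
    (h1 : ∀ i, #{j | ∃ a b, B i a j b} ≤ μ) (h2 : ∀ i j b, #{a | B i a j b} ≤ μ) :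
    ∃ h : J → P, ∀ i j, B i (h i) j (h j) → i = j := by
  obtain ⟨_, _⟩ := exists_wellFoundedLT J
  have : Nonempty P := mk_ne_zero_iff.1 (zero_le.trans_lt hP).ne'
  obtain ⟨h, hh⟩ := exists_rec (T := J) (Classical.arbitrary P)
    (fun i f => Classical.epsilon fun a => ∀ j < i, ¬ B i a j (f j)) fun i f f' h => by
      congr 1
      exact funext fun a => propext (forall₂_congr fun j hj => by rw [h j hj])
  have h3 : ∀ i, ∀ j < i, ¬ B i (h i) j (h j) := fun i => by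
    rw [hh i]
    refine Classical.epsilon_spec (p := fun a => ∀ j < i, ¬ B i a j (h j)) ?_
    by_contra h4
    push Not at h4
    refine hP.not_ge (mk_univ.ge.trans ((mk_le_mk_of_subset (t := ⋃ j : {j | ∃ a b, B i a j b},
      {a | B i a j (h j)}) fun a _ => ?_).trans ((mk_iUnion_le _).trans
        (mul_le_of_le hμ (h1 i) (ciSup_le' fun j => h2 _ _ _)))))
    obtain ⟨j, -, hj⟩ := h4 a
    exact mem_iUnion.2 ⟨⟨j, a, _, hj⟩, hj⟩
  refine ⟨h, fun i j hij => ?_⟩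
  rcases lt_trichotomy i j with h4 | h4 | h4
  exacts [absurd (hs _ _ _ _ hij) (h3 j i h4), h4, absurd hij (h3 i j h4)]

theorem mk_fin (α : Type u) : #(Finset α) ≤ max ℵ₀ #α := by
  classical
  exact (mk_le_of_surjective List.toFinset_surjective).trans (mk_list_le_max α)

variable {G : Type u} [AddCommGroup G]

theorem mk_cl (S : Set G) : #(AddSubgroup.closure S) ≤ max #S ℵ₀ := by
  rcases S.eq_empty_or_nonempty with rfl | h
  · simp
  have := h.to_subtype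
  rw [← Subtype.range_val (s := S), ← FreeAddGroup.range_lift_eq_closure, Subtype.range_val,
    ← mk_freeAddGroup]
  exact mk_range_le

theorem cover (h0 : ℵ₀ ≤ #G) (hs : (#G).ord.cof < #G) : ∃ (Λ : Type u) (P : Λ → Set G),
    ℵ₀ < #G ∧ #Λ < #G ∧ (∀ α, #(P α) < #G) ∧ ∀ s : Finset G, ∃ α, ↑s ⊆ P α := by
  obtain ⟨_, _, h1⟩ := exists_ord_eq_type_lt G
  have h2 : ℵ₀ < #G := h0.lt_of_ne fun h => by
    rw [← h] at hs
    simp at hs
  obtain ⟨S, h3, h4⟩ := Order.exists_cof_eq G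
  rw [h1, Ordinal.cof_type, ← h4] at hs
  refine ⟨S, fun a => Iic a, h2, hs, fun a => mk_Iic_lt _ h1 h0, fun s => ?_⟩
  obtain ⟨b, hb⟩ := s.bddAbove
  obtain ⟨a, ha, h5⟩ := h3 b
  exact ⟨⟨a, ha⟩, fun x hx => (hb hx).trans h5⟩

theorem reps {β : Type u} (h0 : ℵ₀ ≤ #G) {S : Set β} (hS : #S < #G) {H : AddSubgroup G}
    (hH : #H < #G) : ∃ ι : β → G, ∀ a ∈ S, ∀ b ∈ S, -ι a + ι b ∈ H → a = b := by
  obtain ⟨e⟩ : Nonempty (S ↪ G ⧸ H) := (Cardinal.le_def _ _).1 <| not_lt.1 fun h =>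
    (mul_lt_of_lt h0 (h.trans hS) hH).ne' (by
      simpa using mk_congr (AddSubgroup.addGroupEquivQuotientProdAddSubgroup (s := H)))
  refine ⟨Function.extend Subtype.val (fun a => (e a).out) 0, fun a ha b hb h => ?_⟩
  rw [show a = (⟨a, ha⟩ : S).1 from rfl, show b = (⟨b, hb⟩ : S).1 from rfl,
    Subtype.val_injective.extend_apply, Subtype.val_injective.extend_apply,
    ← QuotientAddGroup.eq, QuotientAddGroup.out_eq', QuotientAddGroup.out_eq'] at h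
  exact congrArg Subtype.val (e.injective h)

/-- thick sets -/
def Thick (T : Set G) : Prop := ∀ F : Set G, #F < #G → ∃ x, ∀ f ∈ F, f + x ∈ T

theorem Thick.shift {T : Set G} (h : Thick T) (g : G) : Thick {x | g + x ∈ T} := fun F hF => by
  obtain ⟨x, hx⟩ := h ((g + ·) '' F) (mk_image_le.trans_lt hF)
  exact ⟨x, fun f hf => by simpa [add_assoc] using hx _ (mem_image_of_mem _ hf)⟩

theorem thick_ne : Thick {x : G | x ≠ 0} := fun F hF => by
  obtain ⟨x, hx⟩ := (ne_univ_iff_exists_notMem _).1 fun h : Neg.neg '' F = Set.univ =>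
    (mk_image_le.trans_lt hF).ne (by rw [h, mk_univ])
  exact ⟨x, fun f hf h => hx ⟨f, hf, neg_eq_of_add_eq_zero_right h⟩⟩

theorem Thick.inter (h0 : ℵ₀ ≤ #G) (hs : (#G).ord.cof < #G) {T T' : Set G} (h : Thick T)
    (h' : Thick T') : Thick (T ∩ T') := fun F hF => by
  obtain ⟨Λ, P, -, h1, h2, h3⟩ := cover h0 hs
  choose x hx using fun α => h (image2 (· + ·) F (P α))
    (mk_image2_le.trans_lt (mul_lt_of_lt h0 hF (h2 α)))
  obtain ⟨y, hy⟩ := h' (image2 (· + ·) F (range x))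
    (mk_image2_le.trans_lt (mul_lt_of_lt h0 hF (mk_range_le.trans_lt h1)))
  obtain ⟨α, hα⟩ := h3 {y}
  exact ⟨y + x α, fun f hf => ⟨add_assoc f y _ ▸ hx α _ (mem_image2_of_mem hf (hα (by simp))),
    by simpa [add_assoc, add_comm y] using hy _ (mem_image2_of_mem hf (mem_range_self α))⟩⟩

theorem family (h0 : ℵ₀ ≤ #G) (hs : (#G).ord.cof < #G) : ∃ (I : Type u) (u : Ultrafilter I)
    (φ : G → I → G) (M : G → G → I → Prop), #I ≤ #G ∧
    (∀ z T, Thick T → ∀ᶠ y in u.toFilter, φ z y ∈ T) ∧ (∀ g z, ∀ᶠ y in u.toFilter, M g z y) ∧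
    ∀ g z y g' z' y', M g z y → M g' z' y' → g + φ z y = g' + φ z' y' → y = y' ∧ z = z' := by
  classical
  obtain ⟨Λ, P, h1, h2, h3, h4⟩ := cover h0 hs
  have h5 : Order.succ (max ℵ₀ #Λ) < #G := (Order.succ_le_of_lt (max_lt h1 h2)).lt_of_ne fun h =>
    hs.ne (h ▸ (isRegular_succ (le_max_left _ _)).cof_ord)
  have hc : ∀ S : Set G, #S < #G → ∃ H : AddSubgroup G, S ⊆ H ∧ #H < #G := fun S h =>
    ⟨_, AddSubgroup.subset_closure, (mk_cl S).trans_lt (max_lt h h1)⟩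
  obtain ⟨S₀, h6⟩ := le_mk_iff_exists_set.1 h5.le
  obtain ⟨G₀, h7, hG⟩ := hc S₀ (h6.trans_lt h5)
  replace h7 : max ℵ₀ #Λ < #G₀ := (Order.lt_succ _).trans_le (h6.ge.trans (mk_le_mk_of_subset h7))
  choose H h8 hH using fun α => hc (G₀ ∪ P α) ((mk_union_le _ _).trans_lt
    (add_lt_of_lt h0 hG (h3 α)))
  have h9 : ∀ α, ∀ x ∈ P α, x ∈ H α := fun α x hx => h8 α (Or.inr hx)
  replace h8 : ∀ α, ∀ x : G₀, x.1 ∈ H α := fun α x => h8 α (Or.inl x.2)
  have h10 : ∀ α, #{d : Finset G × G | ↑d.1 ⊆ P α ∧ d.2 ∈ P α} < #G := fun α => by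
    refine (mk_le_mk_of_subset (t := range fun d : Finset (P α) × P α =>
      (d.1.map (Function.Embedding.subtype _), d.2.1)) fun d hd =>
        ⟨(d.1.subtype _, ⟨d.2, hd.2⟩), Prod.ext (Finset.subtype_map_of_mem hd.1) rfl⟩).trans_lt
          (mk_range_le.trans_lt ?_)
    rw [mk_prod, lift_id, lift_id]
    exact mul_lt_of_lt h0 ((mk_fin _).trans_lt (max_lt h1 (h3 α))) (h3 α)
  choose ι hι using fun α => reps h0 (h10 α) (hH α)
  choose K h11 hK using fun α => hc (H α ∪ ι α '' {d : Finset G × G | ↑d.1 ⊆ P α ∧ d.2 ∈ P α})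
    ((mk_union_le _ _).trans_lt (add_lt_of_lt h0 (hH α) (mk_image_le.trans_lt (h10 α))))
  let I := (α : Λ) × (G ⧸ K α) × Finset G
  let V : I × G → Prop := fun j => ↑j.1.2.2 ⊆ P j.1.1 ∧ j.2 ∈ j.1.2.2
  let b : I × G → G := fun j => j.1.2.1.out + ι j.1.1 (j.1.2.2, j.2)
  have h12 : ∀ j, V j → ι j.1.1 (j.1.2.2, j.2) ∈ K j.1.1 := fun j h =>
    h11 _ (Or.inr (mem_image_of_mem _ ⟨h.1, h.1 h.2⟩))
  replace h11 : ∀ α, ∀ {x}, x ∈ H α → x ∈ K α := fun α x h => h11 α (Or.inl h)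
  have h13 : ∀ j j', V j → V j' → j.1.1 = j'.1.1 → -b j + b j' ∈ H j.1.1 → j = j' := by
    rintro ⟨⟨α, c, s⟩, z⟩ ⟨⟨_, c', s'⟩, z'⟩ h h' rfl e
    obtain rfl : c = c' := by
      rw [← c.out_eq', ← c'.out_eq', QuotientAddGroup.eq]
      refine mem_of_eq_of_mem ?_ (add_mem (sub_mem (h11 α e) (h12 _ h')) (h12 _ h))
      simp only [b]
      abel
    obtain ⟨rfl, rfl⟩ := Prod.mk.inj (hι α (s, z) ⟨h.1, h.1 h.2⟩ (s', z') ⟨h'.1, h'.1 h'.2⟩ (by
      refine mem_of_eq_of_mem ?_ e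
      simp only [b]
      abel))
    rfl
  obtain ⟨h, hh⟩ := greedy (le_max_left ℵ₀ #Λ) h7 (fun (j : I × G) (a : G₀) j' a' => V j ∧ V j' ∧
      ∃ g ∈ j.1.2.2, ∃ g' ∈ j'.1.2.2, g + (b j + a) = g' + (b j' + a'))
    (fun i a j b ⟨h1, h2, g, h3, g', h4, e⟩ => ⟨h2, h1, g', h4, g, h3, e.symm⟩)
    (fun i => by
      choose! F hF using fun (j : I × G) (h : ∃ a a' : G₀, V i ∧ V j ∧ ∃ g ∈ i.1.2.2,
        ∃ g' ∈ j.1.2.2, g + (b i + a) = g' + (b j + a')) => show ∃ g ∈ i.1.2.2, V j ∧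
          -b j + (g + b i) ∈ H j.1.1 from by
        obtain ⟨a, a', -, h2, g, h3, g', h4, e⟩ := h
        refine ⟨g, h3, h2, ?_⟩
        refine mem_of_eq_of_mem ?_ (sub_mem (add_mem (h9 _ _ (h2.1 h4)) (h8 _ a')) (h8 _ a))
        rw [eq_sub_iff_add_eq, add_assoc, add_assoc, e]
        abel
      refine (mk_le_of_injective (f := fun j => ((⟨F j.1, (hF j.1 j.2).1⟩ : i.1.2.2), j.1.1.1))
        fun j j' e => Subtype.ext ?_).trans ?_
      · obtain ⟨e1, e2⟩ := Prod.mk.inj e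
        refine h13 _ _ (hF _ j.2).2.1 (hF _ j'.2).2.1 e2 ?_
        refine mem_of_eq_of_mem ?_ (sub_mem (hF _ j.2).2.2 (e2 ▸ (hF _ j'.2).2.2))
        rw [Subtype.mk.inj e1]
        abel
      · rw [mk_prod, lift_id, lift_id]
        exact mul_le_of_le (le_max_left _ _) (mk_le_aleph0.trans (le_max_left _ _))
          (le_max_right _ _))
    (fun i j a' => by
      refine (le_aleph0_iff_set_countable.2 (Finite.countable ?_)).trans (le_max_left _ _)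
      refine (((i.1.2.2 ×ˢ j.1.2.2).finite_toSet.image fun p => -(p.1 + b i) +
        (p.2 + (b j + a'))).preimage Subtype.val_injective.injOn).subset ?_
      rintro a ⟨-, -, g, h3, g', h4, e⟩
      exact ⟨(g, g'), by simp [h3, h4], by simp only [← e]; abel⟩)
  let 𝒰 : Filter I :=
    { sets := {B | ∃ (s : Finset G) (T : Set G), Thick T ∧ ∀ y : I, ↑y.2.2 ⊆ P y.1 → s ⊆ y.2.2 →
        (∀ z ∈ y.2.2, b (y, z) + h (y, z) ∈ T) → y ∈ B}
      univ_sets := ⟨∅, _, thick_ne, fun _ _ _ _ => trivial⟩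
      sets_of_superset := fun ⟨s, T, h1, h2⟩ h => ⟨s, T, h1, fun y a b c => h (h2 y a b c)⟩
      inter_sets := fun ⟨s, T, h1, h2⟩ ⟨s', T', h1', h2'⟩ => ⟨s ∪ s', _, h1.inter h0 hs h1',
        fun y a b c => ⟨h2 y a (Finset.union_subset_left b) fun z hz => (c z hz).1,
          h2' y a (Finset.union_subset_right b) fun z hz => (c z hz).2⟩⟩ }
  have : 𝒰.NeBot := empty_mem_iff_bot.not.1 (by
    rintro ⟨s, T, h1, h2⟩
    obtain ⟨α, hα⟩ := h4 s
    obtain ⟨x, hx⟩ := h1 _ (hK α)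
    refine h2 ⟨α, QuotientAddGroup.mk x, s⟩ hα subset_rfl fun z hz => ?_
    obtain ⟨k, hk⟩ := QuotientAddGroup.mk_out_eq_add (K α) x
    refine mem_of_eq_of_mem ?_ (hx _ (add_mem (add_mem k.2
      (h12 (⟨α, QuotientAddGroup.mk x, s⟩, z) ⟨hα, hz⟩))
      (h11 α (h8 α (h (⟨α, QuotientAddGroup.mk x, s⟩, z))))))
    simp only [b, hk]
    abel) |> neBot_iff.2
  obtain ⟨u, hu⟩ := Ultrafilter.exists_le 𝒰
  refine ⟨I, u, fun z y => b (y, z) + h (y, z), fun g z y => V (y, z) ∧ g ∈ y.2.2, ?_,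
    fun z T hT => hu ⟨{z}, T, hT, fun y _ h1 h2 => h2 z (h1 (by simp))⟩,
    fun g z => hu ⟨{g, z}, _, thick_ne, fun y h1 h2 _ => ⟨⟨h1, h2 (by simp)⟩, h2 (by simp)⟩⟩,
    fun g z y g' z' y' h1 h2 e => Prod.mk.inj (hh _ _ ⟨h1.1, h2.1, g, h1.2, g', h2.2, e⟩)⟩
  rw [mk_sigma]
  refine (sum_le_mk_mul_iSup _).trans (mul_le_of_le h0 h2.le (ciSup_le' fun α => ?_))
  rw [mk_prod, lift_id, lift_id]
  exact mul_le_of_le h0 mk_quotient_le ((mk_fin G).trans (max_le h0 le_rfl))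

end Pool.Agent.H33.MaxT3
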