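import Mathlib
import Pool.Agent.H33.MaxT2
import Pool.Agent.H33.MaxT3

/-!
Maximal regular bounded translation invariant topologies.
-/

open Set Filter Topology Cardinal Pointwise

namespace Pool.Agent.H33.MaxT4

open Pool.Agent.H33.MaxT1 Pool.Agent.H33.MaxT2 Pool.Agent.H33.MaxT3

universe u

variable {G Y : Type u} [AddCommGroup G]

section

variable {φ : List Y → G} {M : G → List Y → Prop}

/-- admissible paths -/
def Path (φ : List Y → G) (M : G → List Y → Prop) (g : G) (L : List (List Y)) : Prop :=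
  ∀ L₁ a L₂, L = L₁ ++ a :: L₂ → M (g + (L₁.map φ).sum) a

theorem Path.left {g : G} {L L' : List (List Y)} (h : Path φ M g (L ++ L')) : Path φ M g L :=
  fun L₁ a L₂ e => h L₁ a (L₂ ++ L') (by simp [e])

theorem peel (hi : ∀ g a g' a', M g a → M g' a' → g + φ a = g' + φ a' → a = a')
    (hz : ∀ g a, M g a → g + φ a ≠ 0) {g : G} (L : List (List Y)) : ∀ L', Path φ M g L →
    Path φ M 0 L' → g + (L.map φ).sum = (L'.map φ).sum → ∃ K, K ++ L = L' ∧ g = (K.map φ).sum := by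
  induction L using List.reverseRecOn with
  | nil => exact fun L' _ _ e => ⟨L', by simp, by simpa using e⟩
  | append_singleton L a ih =>
    intro L' h h' e
    rcases L'.eq_nil_or_concat' with rfl | ⟨L', a', rfl⟩
    · exact absurd (by simpa [add_assoc] using e) (hz _ _ (h L a [] rfl))
    obtain rfl := hi _ _ _ _ (h L a [] rfl) (h' L' a' [] rfl) (by simpa [add_assoc] using e)
    obtain ⟨K, rfl, h1⟩ := ih L' h.left h'.left (by simpa [← add_assoc] using e)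
    exact ⟨K, by simp, h1⟩

theorem transfer (u : Ultrafilter Y) (hM : ∀ g z, ∀ᶠ y in u.toFilter, M g (z ++ [y]))
    (hi : ∀ g a g' a', M g a → M g' a' → g + φ a = g' + φ a' → a = a')
    (hz : ∀ g a, M g a → g + φ a ≠ 0) : ∃ π : Ultrafilter G,
    (∀ W, W ∈ π ↔ ∀ᶠ x in π.toFilter, ∀ᶠ h in π.toFilter, x + h ∈ W) ∧
    (∀ W ∈ π, ∃ D ∈ π, ∀ g, (∀ᶠ h in π.toFilter, g + h ∈ D) → g = 0 ∨ g ∈ W) ∧
    ∀ T, (∀ g z, ∀ᶠ y in u.toFilter, g + φ (z ++ [y]) ∈ T) → T ∈ π := by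
  obtain ⟨p, X, w, hp, hX, w0, w0', w1, w2, w3, hK, hN⟩ := main u
  let f : List Y → G := fun x => ((w x).map φ).sum
  have h1 : ∀ g, ∀ᶠ h in p.toFilter, Path φ M g (w h) := fun g =>
    hN (fun L a => M (g + (L.map φ).sum) a) fun _ _ => hM _ _
  refine ⟨p.map f, fun W => (ev' hp (p := fun x => f x ∈ W)).trans (eventually_congr
    (mem_of_superset hX fun x hx => eventually_congr ((w2 x hx).mono fun h hh => by
      simp [f, hh]))), fun W hW => ?_, fun T hT => ?_⟩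
  · obtain ⟨D, h2, h3⟩ := hK _ (Ultrafilter.mem_map.1 hW)
    refine ⟨f '' {x | x ∈ D ∧ x ∈ X ∧ Path φ M 0 (w x)}, Ultrafilter.mem_map.2 (mem_of_superset
      (inter_mem h2 (inter_mem hX (h1 0))) fun x hx => mem_image_of_mem f hx), fun g hg => ?_⟩
    have h4 : ∀ᶠ h in p.toFilter, ∃ x ∈ D, x ∈ X ∧ ∃ K, Path φ M 0 K ∧ g = (K.map φ).sum ∧
        w x = K ++ w h := ((h1 g).and hg).mono fun h ⟨h4, x, hx, e⟩ => by
      obtain ⟨K, h5, h6⟩ := peel hi hz _ _ h4 hx.2.2 e.symm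
      exact ⟨x, hx.1, hx.2.1, K, (h5 ▸ hx.2.2).left, h6, h5.symm⟩
    obtain ⟨_, _, -, -, K, h5, h6, -⟩ := h4.exists
    have h7 : ∀ᶠ h in p.toFilter, ∃ x ∈ X, x ∈ D ∧ w x = K ++ w h :=
      h4.mono fun h ⟨x, hx, hx', K', h7, h8, h9⟩ => by
        obtain ⟨N, rfl, h10⟩ := peel hi hz _ _ h5 h7 (by rw [zero_add, ← h6, h8])
        rcases N.eq_nil_or_concat' with rfl | ⟨N, a, rfl⟩
        · exact ⟨x, hx', hx, h9⟩
        · exact absurd (by simpa using h10.symm) (hz _ _ (h7.left N a [] rfl))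
    obtain ⟨h8, h9⟩ := w3 K (h7.mono fun h ⟨x, hx, h⟩ => ⟨x, hx, h.2⟩)
    have h10 : g = f K.flatten := by simp only [f, h9, h6]
    by_cases h11 : K.flatten = []
    · exact Or.inl (by simp [h10, h11, f, w0])
    refine Or.inr (h10 ▸ h3 _ h8 h11 ((h7.and hX).mono fun h ⟨⟨x, hx, h12, e⟩, hh⟩ => ?_))
    rwa [← w1 x hx, e, List.flatten_append, w1 h hh] at h12
  · refine Ultrafilter.mem_map.2 (((hN (fun L a => (L.map φ).sum + φ a ∈ T)
      fun _ _ => hT _ _).and w0').mono fun h hh => ?_)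
    obtain ⟨L, a, e⟩ := (List.eq_nil_or_concat' _).resolve_left hh.2
    simpa [f, e] using hh.1 L a [] e

end

theorem top (π : Ultrafilter G)
    (h1 : ∀ W, W ∈ π ↔ ∀ᶠ x in π.toFilter, ∀ᶠ h in π.toFilter, x + h ∈ W)
    (h2 : ∀ W ∈ π, ∃ D ∈ π, ∀ g, (∀ᶠ h in π.toFilter, g + h ∈ D) → g = 0 ∨ g ∈ W)
    (h3 : ∀ g : G, ∀ᶠ h in π.toFilter, g + h ≠ 0) : ∃ τ : TopologicalSpace G,
    (∀ x, ¬ IsOpen[τ] {x}) ∧ (∀ σ : TopologicalSpace G, σ < τ → ∃ x, IsOpen[σ] {x}) ∧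
    @T3Space G τ ∧ (∀ g : G, Continuous[τ, τ] fun x => g + x) ∧ ∀ U ∈ @nhds G τ 0, U ∈ π := by
  let τ : TopologicalSpace G :=
    { IsOpen := fun U => ∀ g ∈ U, ∀ᶠ h in π.toFilter, g + h ∈ U
      isOpen_univ := by simp
      isOpen_inter := fun _ _ a b g hg => (a g hg.1).and (b g hg.2)
      isOpen_sUnion := fun _ a g ⟨U, hU, hg⟩ => (a U hU g hg).mono fun _ h => ⟨U, hU, h⟩ }
  have h4 : ∀ (g : G) (W : Set G), (∀ᶠ h in π.toFilter, g + h ∈ W) ↔
      ∀ᶠ x in π.toFilter, ∀ᶠ h in π.toFilter, g + x + h ∈ W := fun g W => by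
    simp only [add_assoc]
    exact h1 {h | g + h ∈ W}
  have h5 : ∀ D : Set G, IsClopen {g | ∀ᶠ h in π.toFilter, g + h ∈ D} := fun D =>
    ⟨⟨fun g hg => Ultrafilter.eventually_not.2 fun h => hg ((h4 g D).2 h)⟩,
      fun g hg => (h4 g D).1 hg⟩
  have h6 : ∀ (g : G) (W : Set G), (∀ᶠ h in π.toFilter, g + h ∈ W) → ∃ V, IsClopen V ∧ g ∈ V ∧
      V ⊆ insert g W := fun g W hW => by
    obtain ⟨D, h6, h7⟩ := h2 _ hW
    refine ⟨_, h5 {x | -g + x ∈ D}, by simpa using h6, fun x hx => ?_⟩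
    simpa [neg_add_eq_zero, eq_comm] using h7 (-g + x) (by simpa [add_assoc] using hx)
  have h7 : ∀ x : G, IsClosed {x} := fun x => ⟨fun g _ => (h3 (g - x)).mono fun h hh e =>
    hh (by rw [← show g + h = x from e]; abel)⟩
  have : T1Space G := ⟨h7⟩
  have : RegularSpace G := .of_exists_mem_nhds_isClosed_subset fun x s hs => by
    obtain ⟨U, h8, h9, hx⟩ := mem_nhds_iff.1 hs
    obtain ⟨V, h10, h11, h12⟩ := h6 x U (h9 x hx)
    exact ⟨V, h10.2.mem_nhds h11, h10.1, h12.trans (insert_subset (h8 hx) h8)⟩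
  refine ⟨τ, fun x hx => ?_, fun σ hσ => ?_, inferInstance, fun g => continuous_def.2
    fun U hU x hx => by simpa [add_assoc] using hU _ hx, fun U hU => ?_⟩
  · obtain ⟨h, h8, h9⟩ := ((hx x rfl).and (h3 0)).exists
    exact h9 (by simpa using h8)
  · by_contra hn
    refine hσ.2 fun U hU => show ∀ g ∈ U, _ from fun g hg => by_contra fun h => hn ⟨g, ?_⟩
    obtain ⟨V, h8, h9, h10⟩ := h6 g Uᶜ (Ultrafilter.eventually_not.2 h)
    convert @IsOpen.inter G σ U V hU (hσ.1 V h8.2)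
    exact Subset.antisymm (singleton_subset_iff.2 ⟨hg, h9⟩)
      fun x hx => (h10 hx.2).resolve_right fun h => h hx.1
  · obtain ⟨V, h8, h9, h10⟩ := mem_nhds_iff.1 hU
    exact mem_of_superset (h9 0 h10) fun x hx => h8 (by simpa using hx)

theorem final (h0 : ℵ₀ ≤ #G) (hs : (#G).ord.cof < #G) : ∃ τ : TopologicalSpace G,
    (∀ x, ¬ IsOpen[τ] {x}) ∧ (∀ σ : TopologicalSpace G, σ < τ → ∃ x, IsOpen[σ] {x}) ∧
    @T3Space G τ ∧ (∀ g : G, Continuous[τ, τ] fun x => g + x) ∧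
    ∀ U ∈ @nhds G τ 0, ∃ F : Set G, #F < #G ∧ F + U = Set.univ := by
  obtain ⟨I, u, φ, M, h1, h2, h3, h4⟩ := family h0 hs
  obtain ⟨e⟩ : Nonempty (List I ↪ G) :=
    (Cardinal.le_def _ _).1 ((mk_list_le_max I).trans (max_le h0 h1))
  let φ' : List I → G := fun a => a.getLast?.elim 0 (φ (e a.dropLast))
  have h5 : ∀ z y, φ' (z ++ [y]) = φ (e z) y := fun z y => by simp [φ']
  obtain ⟨π, h6, h7, h8⟩ := transfer (φ := φ')
    (M := fun g a => g + φ' a ≠ 0 ∧ ∃ z y, a = z ++ [y] ∧ M g (e z) y) u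
    (fun g z => ((h2 (e z) _ (thick_ne.shift g)).and (h3 g (e z))).mono fun y hy =>
      ⟨h5 z y ▸ hy.1, z, y, rfl, hy.2⟩)
    (by
      rintro g _ g' _ ⟨-, z, y, rfl, h⟩ ⟨-, z', y', rfl, h'⟩ e'
      obtain ⟨rfl, h6⟩ := h4 _ _ _ _ _ _ h h' (by simpa only [h5] using e')
      rw [e.injective h6]) fun _ _ h => h.1
  have h9 : ∀ T, Thick T → T ∈ π := fun T hT => h8 T fun g z => by
    simp only [h5]
    exact h2 _ _ (hT.shift g)
  obtain ⟨τ, t1, t2, t3, t4, t5⟩ := top π h6 h7 fun g => h9 _ (thick_ne.shift g)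
  refine ⟨τ, t1, t2, t3, t4, fun U hU => by_contra fun h => Ultrafilter.compl_mem_iff_notMem.1
    (h9 Uᶜ fun F hF => ?_) (t5 U hU)⟩
  obtain ⟨x, hx⟩ := (ne_univ_iff_exists_notMem _).1 fun h' =>
    h ⟨Neg.neg '' F, mk_image_le.trans_lt hF, h'⟩
  exact ⟨x, fun f hf h => hx ⟨-f, mem_image_of_mem _ hf, _, h, by simp⟩⟩

end Pool.Agent.H33.MaxT4
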