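import Mathlib

/-!
Rademacher functions on the Cantor group: bounded functions supported on a set of positive measure
realise every square summable tail of Rademacher coefficients.
-/

open Set Filter Topology MeasureTheory

namespace Pool.Agent.H33.NikA

abbrev Ω : Type := ℕ → ZMod 2

noncomputable def P : Measure Ω := Measure.addHaarMeasure ⊤

instance : P.IsAddHaarMeasure := by unfold P; infer_instance

instance : IsProbabilityMeasure P := ⟨Measure.addHaarMeasure_self (K₀ := ⊤)⟩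

noncomputable def r (k : ℕ) (ω : Ω) : ℝ := if ω k = 0 then 1 else -1

def e (k : ℕ) : Ω := Pi.single k 1

theorem r_cont (k : ℕ) : Continuous (r k) :=
  (continuous_of_discreteTopology (f := fun x : ZMod 2 => if x = 0 then (1 : ℝ) else -1)).comp
    (continuous_apply k)

theorem r_abs (k : ℕ) (ω : Ω) : |r k ω| = 1 := by unfold r; split_ifs <;> simp

theorem r_sq (k : ℕ) (ω : Ω) : r k ω * r k ω = 1 := by unfold r; split_ifs <;> simp

theorem r_flip (k : ℕ) (ω : Ω) : r k (ω + e k) = - r k ω := by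
  have : ∀ x : ZMod 2, x + 1 = 0 ↔ ¬ x = 0 := by decide
  simp only [r, e, Pi.add_apply, Pi.single_eq_same, this]
  split_ifs <;> simp

theorem r_ne {k l : ℕ} (h : l ≠ k) (ω : Ω) : r l (ω + e k) = r l ω := by
  simp [r, e, Pi.single_eq_of_ne h]

/-- bounded measurable -/
def BM (u : Ω → ℝ) (c : ℝ) : Prop := Measurable u ∧ ∀ ω, |u ω| ≤ c

theorem BM.mem {u : Ω → ℝ} {c : ℝ} (h : BM u c) : MemLp u 2 P :=
  MemLp.of_bound h.1.aestronglyMeasurable c (.of_forall h.2)

theorem BM.int {u : Ω → ℝ} {c : ℝ} (h : BM u c) : Integrable u P := h.mem.integrable one_le_two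

theorem BM.mul_r {u : Ω → ℝ} {c : ℝ} (h : BM u c) (k : ℕ) : BM (fun ω => u ω * r k ω) c :=
  ⟨h.1.mul (r_cont k).measurable, fun ω => by rw [abs_mul, r_abs, mul_one]; exact h.2 ω⟩

theorem r_bm (k : ℕ) : BM (r k) 1 := ⟨(r_cont k).measurable, fun ω => (r_abs k ω).le⟩

noncomputable def cf (u : Ω → ℝ) (k : ℕ) : ℝ := ∫ ω, u ω * r k ω ∂P

noncomputable def R (k : ℕ) : Lp ℝ 2 P := (r_bm k).mem.toLp _

theorem inner_R (k : ℕ) (f : Lp ℝ 2 P) : inner ℝ (R k) f = cf f k := by
  rw [L2.inner_def]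
  refine integral_congr_ae ((r_bm k).mem.coeFn_toLp.mono fun ω h => ?_)
  simp [R, h]

theorem cf_congr {u v : Ω → ℝ} (h : u =ᵐ[P] v) (k : ℕ) : cf u k = cf v k :=
  integral_congr_ae (h.mono fun ω h => by simp [h])

theorem orth : Orthonormal ℝ R := by
  rw [orthonormal_iff_ite]
  intro k l
  rw [inner_R, R, cf_congr (r_bm l).mem.coeFn_toLp, cf]
  split_ifs with h
  · simp [h, r_sq]
  · exact integral_eq_zero_of_add_right_eq_neg (g := e k) fun ω => by
      rw [r_flip, r_ne (Ne.symm h)]; ring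

theorem bessel {u : Ω → ℝ} {c : ℝ} (h : BM u c) (T : Finset ℕ) :
    ∑ k ∈ T, cf u k ^ 2 ≤ ∫ ω, u ω ^ 2 ∂P := by
  have := orth.sum_inner_products_le (h.mem.toLp _) (s := T)
  simp only [inner_R, cf_congr h.mem.coeFn_toLp, Real.norm_eq_abs, sq_abs] at this
  refine this.trans_eq ?_
  rw [← real_inner_self_eq_norm_sq, L2.inner_def]
  refine integral_congr_ae (h.mem.coeFn_toLp.mono fun ω h => ?_)
  simp [h]

noncomputable def Z (t : ℕ → ℝ) (T : Finset ℕ) (ω : Ω) : ℂ :=
  ∏ l ∈ T, (1 + Complex.I * (t l * r l ω : ℝ))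

theorem Z_cont (t : ℕ → ℝ) (T : Finset ℕ) : Continuous (Z t T) :=
  continuous_finsetProd _ fun l _ => by have := r_cont l; fun_prop

theorem Z_flip (t : ℕ → ℝ) {T : Finset ℕ} {k : ℕ} (h : k ∉ T) (ω : Ω) :
    Z t T (ω + e k) = Z t T ω :=
  Finset.prod_congr rfl fun l hl => by rw [r_ne (ne_of_mem_of_not_mem hl h)]

theorem Z_norm (t : ℕ → ℝ) (T : Finset ℕ) (h : ∑ l ∈ T, t l ^ 2 ≤ 1) (ω : Ω) :
    ‖Z t T ω‖ ≤ 2 := by
  have : ‖Z t T ω‖ ^ 2 ≤ Real.exp (∑ l ∈ T, t l ^ 2) := by
    rw [Z, norm_prod, ← Finset.prod_pow, Real.exp_sum]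
    refine Finset.prod_le_prod (fun _ _ => by positivity) fun l _ => ?_
    rw [Complex.sq_norm, Complex.normSq_apply]
    have := Real.add_one_le_exp (t l ^ 2)
    have h2 := r_sq l ω
    simp
    nlinarith
  have h2 := (Real.exp_le_exp.2 h).trans Real.exp_one_lt_d9.le
  nlinarith [norm_nonneg (Z t T ω)]

theorem cint {φ : Ω → ℂ} (h : Continuous φ) : Integrable φ P :=
  h.integrable_of_hasCompactSupport (HasCompactSupport.of_compactSpace _)

theorem Z_int (t : ℕ → ℝ) {ψ : Ω → ℂ} (hψ : Continuous ψ) (T : Finset ℕ)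
    (h : ∀ k ∈ T, ∀ ω, ψ (ω + e k) = ψ ω) : ∫ ω, ψ ω * Z t T ω ∂P = ∫ ω, ψ ω ∂P := by
  induction T using Finset.induction_on with
  | empty => simp [Z]
  | insert k T hk ih =>
    have h1 := Z_cont t T
    have h2 := r_cont k
    have : ∀ ω, ψ ω * Z t (insert k T) ω =
        ψ ω * Z t T ω + ψ ω * Z t T ω * (Complex.I * (t k * r k ω : ℝ)) := fun ω => by
      rw [Z, Finset.prod_insert hk, Z]; ring
    simp_rw [this]
    rw [integral_add (cint (by fun_prop)) (cint (by fun_prop)),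
      ih fun l hl => h l (Finset.mem_insert_of_mem hl), add_eq_left]
    exact integral_eq_zero_of_add_right_eq_neg (g := e k) fun ω => by
      rw [h k (Finset.mem_insert_self _ _), Z_flip t hk, r_flip]; push_cast; ring

theorem Z_cf (t : ℕ → ℝ) {ψ : Ω → ℝ} (hψ : Continuous ψ) (T : Finset ℕ) (k : ℕ)
    (h : ∀ l ∈ insert k T, ∀ ω, ψ (ω + e l) = ψ ω) :
    cf (fun ω => ψ ω * (Z t T ω).im) k = if k ∈ T then t k * ∫ ω, ψ ω ∂P else 0 := by
  have h2 := r_cont k
  split_ifs with hk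
  · have h1 := Z_cont t (T.erase k)
    have : ∀ ω, ψ ω * (Z t T ω).im * r k ω = ψ ω * (Z t (T.erase k) ω).im * r k ω +
        t k * ((ψ ω : ℂ) * Z t (T.erase k) ω).re := fun ω => by
      rw [Z, ← Finset.mul_prod_erase _ _ hk, ← Z]
      have := r_sq k ω
      simp
      linear_combination (ψ ω * t k * (Z t (T.erase k) ω).re) * this
    have i1 : ∀ {φ : Ω → ℝ}, Continuous φ → Integrable φ P := fun h =>
      h.integrable_of_hasCompactSupport (HasCompactSupport.of_compactSpace _)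
    simp_rw [cf, this]
    rw [integral_add (i1 (by fun_prop)) (i1 (by fun_prop)),
      integral_eq_zero_of_add_right_eq_neg (g := e k) fun ω => by
        rw [h k (Finset.mem_insert_self _ _), Z_flip t (Finset.notMem_erase _ _), r_flip]; ring,
      zero_add, integral_const_mul]
    congr 1
    have := integral_re (μ := P) (𝕜 := ℂ) (cint (φ := fun ω => (ψ ω : ℂ) * Z t (T.erase k) ω)
      (by fun_prop))
    simp only [RCLike.re_to_complex] at this
    rw [this, Z_int t (by fun_prop) _ fun l hl ω => by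
      rw [h l (Finset.mem_insert_of_mem (Finset.mem_of_mem_erase hl))], integral_complex_ofReal]
    simp
  · exact integral_eq_zero_of_add_right_eq_neg (g := e k) fun ω => by
      simp only [h k (Finset.mem_insert_self _ _), Z_flip t hk, r_flip]; ring

theorem clopen_flip {U : Set Ω} (hU : IsClopen U) : ∀ᶠ k in atTop, ∀ ω, ω + e k ∈ U ↔ ω ∈ U := by
  obtain ⟨V, hV, h1⟩ := compact_open_separated_add_right hU.1.isCompact hU.2 Subset.rfl
  obtain ⟨W, hW, h2⟩ := compact_open_separated_add_right hU.compl.1.isCompact hU.compl.2 Subset.rfl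
  have : Tendsto e atTop (𝓝 0) := tendsto_pi_nhds.2 fun l => tendsto_const_nhds.congr'
    ((eventually_gt_atTop l).mono fun k hk => by simp [e, Pi.single_eq_of_ne hk.ne])
  filter_upwards [this hV, this hW] with k a b ω
  exact ⟨fun h => by_contra fun hn => h2 (add_mem_add hn b) h, fun h => h1 (add_mem_add h a)⟩

/-- the tail of `v` from `k₁` has square sum at most `c ^ 2` -/
def SQ (k₁ : ℕ) (v : ℕ → ℝ) (c : ℝ) : Prop :=
  ∀ T : Finset ℕ, (∀ k ∈ T, k₁ ≤ k) → ∑ k ∈ T, v k ^ 2 ≤ c ^ 2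

theorem SQ.tail {k₁ : ℕ} {v : ℕ → ℝ} {c : ℝ} (h : SQ k₁ v c) {η : ℝ} (hη : 0 < η) :
    ∃ k₂, SQ k₂ v η := by
  have : Summable fun k => v (k + k₁) ^ 2 := summable_of_sum_le (fun _ => sq_nonneg _) fun T => by
    have := h (T.map (addRightEmbedding k₁)) (by simp)
    rwa [Finset.sum_map] at this
  rw [summable_nat_add_iff (f := fun k => v k ^ 2)] at this
  obtain ⟨s, hs⟩ := summable_iff_vanishing_norm.1 this (η ^ 2) (by positivity)
  refine ⟨s.sup id + 1, fun T hT => ((le_abs_self _).trans_lt (hs T ?_)).le⟩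
  exact Finset.disjoint_left.2 fun k h1 h2 => (Finset.le_sup (f := id) h2).not_gt (hT k h1)

theorem approx {E : Set Ω} (hE : MeasurableSet E) (h0 : P E ≠ 0) :
    ∃ k₁ : ℕ, ∃ C : ℝ, 0 < C ∧ ∀ v c, 0 < c → SQ k₁ v c →
      ∃ h, BM h (C * c) ∧ (∀ ω ∉ E, h ω = 0) ∧ SQ k₁ (v - cf h) (c / 2) := by
  have hγ : 0 < P.real E := ENNReal.toReal_pos h0 (measure_ne_top _ _)
  set γ := P.real E
  have hγ1 : γ ≤ 1 := measureReal_le_one
  have hε : ENNReal.ofReal (γ ^ 2 / 1000) ≠ 0 := by simp; positivity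
  obtain ⟨K, hK1, hK2, hK3⟩ := hE.exists_isCompact_sdiff_lt (measure_ne_top P _) hε
  obtain ⟨V, hV1, hV2, -, hV3⟩ := hE.exists_isOpen_sdiff_lt (measure_ne_top P _) hε
  obtain ⟨U, hU, h1, h2⟩ := exists_clopen_of_closed_subset_open hK2.isClosed hV2 (hK1.trans hV1)
  have hUm := hU.2.measurableSet
  have a1 : P.real (E \ U) ≤ γ ^ 2 / 1000 := ENNReal.toReal_le_of_le_ofReal (by positivity)
    ((measure_mono (sdiff_subset_sdiff_right h1)).trans hK3.le)
  have a2 : P.real (U \ E) ≤ γ ^ 2 / 1000 := ENNReal.toReal_le_of_le_ofReal (by positivity)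
    ((measure_mono (sdiff_subset_sdiff_left h2)).trans hV3.le)
  have a3 : γ / 2 ≤ P.real U := by
    have : γ ≤ P.real U + P.real (E \ U) :=
      (measureReal_mono (by simp)).trans (measureReal_union_le _ _)
    nlinarith
  set δ := P.real U
  have hδ : 0 < δ := by linarith
  obtain ⟨k₁, hk₁⟩ := eventually_atTop.1 (clopen_flip hU)
  refine ⟨k₁, 2 / δ, by positivity, fun v c hc hv => ?_⟩
  obtain ⟨k₂, hk₂⟩ := hv.tail (η := c / 4) (by positivity)
  let T := Finset.Ico k₁ k₂
  let t : ℕ → ℝ := fun k => v k / c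
  have ht : ∑ l ∈ T, t l ^ 2 ≤ 1 := by
    simp only [t, div_pow, ← Finset.sum_div]
    exact (div_le_one (by positivity)).2 (hv T fun k hk => (Finset.mem_Ico.1 hk).1)
  have hZ : ∀ ω, |(Z t T ω).im| ≤ 2 := fun ω => (Complex.abs_im_le_norm _).trans (Z_norm t T ht ω)
  have hZm : Measurable fun ω => (Z t T ω).im := (Complex.continuous_im.comp (Z_cont t T)).measurable
  have ind : ∀ {A : Set Ω}, MeasurableSet A → BM (fun ω => A.indicator 1 ω * (Z t T ω).im) 2 :=
    fun {A} hA => ⟨(measurable_one.indicator hA).mul hZm, fun ω => by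
      by_cases h : ω ∈ A <;> simp [h, hZ]⟩
  let w : Ω → ℝ := fun ω => E.indicator 1 ω * (Z t T ω).im - U.indicator 1 ω * (Z t T ω).im
  have hw : BM w 4 := ⟨(ind hE).1.sub (ind hUm).1, fun ω =>
    (abs_sub _ _).trans (by linarith [(ind hE).2 ω, (ind hUm).2 ω])⟩
  have hw2 : ∫ ω, w ω ^ 2 ∂P ≤ 4 * (γ ^ 2 / 500) := by
    have : ∀ ω, w ω ^ 2 ≤ 4 * ((E \ U).indicator 1 ω + (U \ E).indicator 1 ω) := fun ω => by
      have := sq_le_sq' (abs_le.1 (hZ ω)).1 (abs_le.1 (hZ ω)).2
      by_cases h : ω ∈ E <;> by_cases h' : ω ∈ U <;> simp [w, h, h'] <;> linarith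
    have i1 : ∀ {A : Set Ω}, MeasurableSet A → Integrable (A.indicator (1 : Ω → ℝ)) P :=
      fun hA => (integrable_const 1).indicator hA
    refine (integral_mono_of_nonneg (.of_forall fun _ => sq_nonneg _)
      (((i1 (hE.diff hUm)).add (i1 (hUm.diff hE))).const_mul 4) (.of_forall this)).trans ?_
    rw [integral_const_mul, integral_add' (i1 (hE.diff hUm)) (i1 (hUm.diff hE)),
      integral_indicator_one (hE.diff hUm), integral_indicator_one (hUm.diff hE)]
    linarith
  refine ⟨fun ω => c / δ * (E.indicator 1 ω * (Z t T ω).im), ⟨(ind hE).1.const_mul _, fun ω => ?_⟩,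
    fun ω h => by simp [h], fun S hS => ?_⟩
  · rw [abs_mul, abs_of_pos (by positivity : 0 < c / δ)]
    exact (mul_le_mul_of_nonneg_left ((ind hE).2 ω) (by positivity)).trans_eq (by ring)
  have key : ∀ k ∈ S, (v - cf fun ω => c / δ * (E.indicator 1 ω * (Z t T ω).im)) k =
      (if k₂ ≤ k then v k else 0) - c / δ * cf w k := fun k hk => by
    have b1 := Z_cf t (hU.continuous_indicator (f := (1 : Ω → ℝ)) continuous_const) T k
      fun l hl ω => by
        have := hk₁ l ((Finset.mem_insert.1 hl).elim (fun e => e ▸ hS k hk)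
          fun h => (Finset.mem_Ico.1 h).1) ω
        by_cases h : ω ∈ U <;> simp [h, this]
    rw [integral_indicator_one hUm] at b1
    have b2 : cf w k = cf (fun ω => E.indicator 1 ω * (Z t T ω).im) k -
        cf (fun ω => U.indicator 1 ω * (Z t T ω).im) k := by
      simp only [cf, w, sub_mul]
      exact integral_sub ((ind hE).mul_r k).int ((ind hUm).mul_r k).int
    have b3 : cf (fun ω => c / δ * (E.indicator 1 ω * (Z t T ω).im)) k =
        c / δ * cf (fun ω => E.indicator 1 ω * (Z t T ω).im) k := by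
      simp only [cf, mul_assoc (c / δ)]
      exact integral_const_mul _ _
    rw [Pi.sub_apply, b3, b2, b1]
    have := hS k hk
    by_cases h : k₂ ≤ k
    · rw [if_pos h, if_neg fun h' => (Finset.mem_Ico.1 h').2.not_ge h]
      ring
    · rw [if_neg h, if_pos (Finset.mem_Ico.2 ⟨this, not_le.1 h⟩)]
      simp only [t]
      field_simp
      ring
  rw [Finset.sum_congr rfl fun k hk => by rw [key k hk]]
  have c1 := hk₂ (S.filter (k₂ ≤ ·)) fun k hk => (Finset.mem_filter.1 hk).2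
  rw [Finset.sum_filter] at c1
  have c2 := (bessel hw S).trans hw2
  have c3 : (c / δ) ^ 2 * (4 * (γ ^ 2 / 500)) ≤ c ^ 2 / 16 := by
    rw [div_pow, div_mul_eq_mul_div, div_le_iff₀ (by positivity)]
    have : γ ^ 2 ≤ 4 * δ ^ 2 := by nlinarith
    nlinarith [sq_nonneg c, sq_nonneg δ]
  calc _ ≤ ∑ k ∈ S, (2 * (if k₂ ≤ k then v k ^ 2 else 0) + 2 * ((c / δ) ^ 2 * cf w k ^ 2)) :=
        Finset.sum_le_sum fun k _ => by
          split_ifs <;> nlinarith [sq_nonneg (v k + c / δ * cf w k), sq_nonneg (c / δ * cf w k)]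
    _ ≤ _ := by
      rw [Finset.sum_add_distrib, ← Finset.mul_sum, ← Finset.mul_sum, ← Finset.mul_sum]
      have := mul_le_mul_of_nonneg_left c2 (sq_nonneg (c / δ))
      nlinarith

theorem surj {E : Set Ω} (hE : MeasurableSet E) (h0 : P E ≠ 0) :
    ∃ k₁ : ℕ, ∃ C : ℝ, 0 < C ∧ ∀ v c, 0 < c → SQ k₁ v c →
      ∃ h, BM h (C * c) ∧ (∀ ω ∉ E, h ω = 0) ∧ ∀ k, k₁ ≤ k → cf h k = v k := by
  obtain ⟨k₁, C, hC, H⟩ := approx hE h0
  choose! F h1 h2 h3 using H
  refine ⟨k₁, 2 * C, by positivity, fun v c hc hv => ?_⟩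
  let w : ℕ → ℕ → ℝ := fun n => Nat.rec v (fun n w => w - cf (F w (c / 2 ^ n))) n
  have hw : ∀ n, SQ k₁ (w n) (c / 2 ^ n) := fun n => by
    induction n with
    | zero => simpa [w] using hv
    | succ n ih =>
      have := h3 _ _ (by positivity) ih
      rwa [div_div, ← pow_succ] at this
  let g : ℕ → Ω → ℝ := fun n => F (w n) (c / 2 ^ n)
  have hg : ∀ n, BM (g n) (C * (c / 2 ^ n)) := fun n => h1 _ _ (by positivity) (hw n)
  have hs : HasSum (fun n : ℕ => C * (c / 2 ^ n)) (2 * C * c) := by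
    have := (hasSum_geometric_two' (2 * c)).mul_left C
    rwa [mul_div_cancel_left₀ c two_ne_zero, ← mul_assoc, mul_comm C 2] at this
  have hsum : ∀ ω, Summable fun n => g n ω := fun ω =>
    .of_norm_bounded hs.summable fun n => (hg n).2 ω
  refine ⟨fun ω => ∑' n, g n ω, ⟨measurable_of_tendsto_metrizable
    (f := fun N ω => ∑ n ∈ Finset.range N, g n ω)
    (fun N => Finset.measurable_sum _ fun n _ => (hg n).1)
    (tendsto_pi_nhds.2 fun ω => (hsum ω).hasSum.tendsto_sum_nat), fun ω =>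
    tsum_of_norm_bounded (f := fun n => g n ω) hs fun n => (hg n).2 ω⟩, fun ω h => by
      simp [g, h2 _ _ (by positivity : 0 < c / 2 ^ _) (hw _) ω h], fun k hk => ?_⟩
  have a1 : HasSum (fun n => cf (g n) k) (cf (fun ω => ∑' n, g n ω) k) := by
    simp only [cf, ← tsum_mul_right]
    refine hasSum_integral_of_summable_integral_norm (fun n => ((hg n).mul_r k).int)
      (.of_nonneg_of_le (fun n => integral_nonneg fun _ => norm_nonneg _) (fun n => ?_) hs.summable)
    exact (integral_mono_of_nonneg (.of_forall fun _ => norm_nonneg _) (integrable_const _)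
      (.of_forall ((hg n).mul_r k).2)).trans_eq (by simp)
  have a2 : ∀ N, ∑ n ∈ Finset.range N, cf (g n) k = v k - w N k := fun N => by
    induction N with
    | zero => simp [w]
    | succ n ih => rw [Finset.sum_range_succ, ih]; simp [w, g]; ring
  have a3 : Tendsto (fun N => w N k) atTop (𝓝 0) := by
    refine squeeze_zero_norm (a := fun n => c / 2 ^ n) (fun n => ?_) ?_
    · exact abs_le_of_sq_le_sq' (by simpa using hw n {k} (by simpa)) (by positivity) |> abs_le.2
    · exact tendsto_const_nhds.div_atTop (tendsto_pow_atTop_atTop_of_one_lt one_lt_two)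
  refine tendsto_nhds_unique a1.tendsto_sum_nat ?_
  simp_rw [a2]
  simpa using tendsto_const_nhds.sub a3

end Pool.Agent.H33.NikA
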