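import Mathlib
import Pool.Agent.H33.NikA

/-!
A Lyapunov type theorem for the even Rademacher coefficients and the correction lemma.
-/

open Set Filter Topology MeasureTheory

namespace Pool.Agent.H33.NikB

open Pool.Agent.H33.NikA

theorem cf_add {u v : Ω → ℝ} (hu : Integrable u P) (hv : Integrable v P) (k : ℕ) :
    cf (u + v) k = cf u k + cf v k := by
  have i : ∀ {u : Ω → ℝ}, Integrable u P → Integrable (fun ω => u ω * r k ω) P := fun h =>
    h.mul_bdd (r_cont k).aestronglyMeasurable (.of_forall fun ω => (r_abs k ω).le)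
  simp only [cf, Pi.add_apply, add_mul]
  exact integral_add (i hu) (i hv)

theorem cf_smul (a : ℝ) (u : Ω → ℝ) (k : ℕ) : cf (a • u) k = a * cf u k := by
  simp only [cf, Pi.smul_apply, smul_eq_mul, mul_assoc]
  exact integral_const_mul _ _

theorem kernel {E : Set Ω} (hE : MeasurableSet E) (h0 : P E ≠ 0) {ε : ℝ} (hε : 0 < ε) :
    ∃ h, BM h ε ∧ (∀ ω ∉ E, h ω = 0) ∧ (∀ k, cf h (2 * k) = 0) ∧ ∃ k, cf h k ≠ 0 := by
  obtain ⟨k₁, C, hC, H⟩ := surj hE h0
  have : ∀ i : Fin (k₁ + 1), SQ k₁ (Pi.single (2 * (k₁ + i) + 1) 1) 1 := fun i T _ => by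
    simp only [Pi.single_apply, ite_pow, one_pow]
    simp only [ne_eq, OfNat.ofNat_ne_zero, not_false_eq_true, zero_pow, Finset.sum_ite_eq']
    split_ifs <;> simp
  choose h h1 h2 h3 using fun i => H _ 1 one_pos (this i)
  have : ¬ LinearIndependent ℝ fun (i : Fin (k₁ + 1)) (k : Fin k₁) => cf (h i) k := fun hl => by
    simpa using hl.fintype_card_le_finrank
  obtain ⟨g, g1, i, g2⟩ := Fintype.not_linearIndependent_iff.1 this
  let M := ∑ j, |g j| * C
  have hM : 0 < M := Finset.sum_pos' (fun _ _ => by positivity)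
    ⟨i, Finset.mem_univ _, by positivity⟩
  have key : ∀ k, cf ((ε / M) • ∑ j, g j • h j) k = ε / M * ∑ j, g j * cf (h j) k := fun k => by
    rw [cf_smul]
    congr 1
    simp only [cf, Finset.sum_apply, Finset.sum_mul, Pi.smul_apply, smul_eq_mul, mul_assoc]
    rw [integral_finsetSum _ fun j _ => ((h1 j).mul_r k).int.const_mul _]
    simp only [integral_const_mul]
  refine ⟨(ε / M) • ∑ j, g j • h j, ⟨?_, fun ω => ?_⟩, fun ω hω => by simp [h2 _ ω hω],
    fun k => ?_, 2 * (k₁ + i) + 1, ?_⟩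
  · refine Measurable.const_smul ?_ (ε / M)
    rw [Finset.sum_fn]
    exact Finset.measurable_sum _ fun j _ => (h1 j).1.const_smul (g j)
  · rw [Pi.smul_apply, smul_eq_mul, abs_mul, abs_of_pos (by positivity : 0 < ε / M),
      div_mul_eq_mul_div, div_le_iff₀ hM, Finset.sum_apply]
    refine mul_le_mul_of_nonneg_left ((Finset.abs_sum_le_sum_abs _ _).trans
      (Finset.sum_le_sum fun j _ => ?_)) hε.le
    rw [Pi.smul_apply, smul_eq_mul, abs_mul]
    exact mul_le_mul_of_nonneg_left (((h1 j).2 ω).trans_eq (mul_one _)) (abs_nonneg _)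
  · rw [key]
    by_cases hk : k₁ ≤ 2 * k
    · rw [Finset.sum_eq_zero fun j _ => by
        rw [h3 _ _ hk, Pi.single_eq_of_ne (by omega), mul_zero], mul_zero]
    · have := congrFun g1 ⟨2 * k, not_le.1 hk⟩
      simp only [Finset.sum_apply, Pi.smul_apply, smul_eq_mul, Pi.zero_apply] at this
      rw [this, mul_zero]
  · rw [key, Finset.sum_eq_single i (fun j _ hj => by
      rw [h3 _ _ (by omega), Pi.single_eq_of_ne (fun e => hj (Fin.ext (by omega))), mul_zero])
      (by simp), h3 _ _ (by omega), Pi.single_eq_same]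
    positivity

theorem purify {G : Set Ω} (hG : MeasurableSet G) {f : Ω → ℝ} (hf : Measurable f)
    (h01 : ∀ ω, 0 ≤ f ω ∧ f ω ≤ G.indicator 1 ω) :
    ∃ a ⊆ G, MeasurableSet a ∧ ∀ k, cf (a.indicator 1) (2 * k) = cf f (2 * k) := by
  let φ : Lp ℝ 2 P → WeakDual ℝ (Lp ℝ 2 P) := fun u => StrongDual.toWeakDual (innerSL ℝ u)
  let χ : ∀ s : Set Ω, MeasurableSet s → Lp ℝ 2 P := fun s hs =>
    indicatorConstLp 2 hs (measure_ne_top _ _) 1
  let W : Set (WeakDual ℝ (Lp ℝ 2 P)) := WeakDual.toStrongDual ⁻¹' Metric.closedBall 0 1 ∩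
    ((⋂ s, ⋂ hs : MeasurableSet s, {x | x (χ s hs) ∈ Icc 0 (∫ ω in s, G.indicator 1 ω ∂P)}) ∩
      ⋂ k, {x | x (R (2 * k)) = cf f (2 * k)})
  have hW : IsCompact W := (WeakDual.isCompact_closedBall 0 1).inter_right
    ((isClosed_iInter fun s => isClosed_iInter fun hs =>
      isClosed_Icc.preimage (WeakDual.eval_continuous _)).inter
      (isClosed_iInter fun k => isClosed_eq (WeakDual.eval_continuous _) continuous_const))
  have iG : Integrable (G.indicator (1 : Ω → ℝ)) P := (integrable_const 1).indicator hG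
  have e1 : ∀ u s hs, φ u (χ s hs) = ∫ ω in s, u ω ∂P := fun u s hs =>
    (real_inner_comm _ _).trans (L2.inner_indicatorConstLp_one hs _ u)
  have e2 : ∀ u k, φ u (R k) = cf u k := fun u k => (real_inner_comm _ _).trans (inner_R k u)
  have iu : ∀ u : Lp ℝ 2 P, Integrable u P := fun u => (Lp.memLp u).integrable one_le_two
  have hG1 : ∀ ω, G.indicator (1 : Ω → ℝ) ω ≤ 1 := fun ω => by by_cases h : ω ∈ G <;> simp [h]
  have mem : ∀ u : Lp ℝ 2 P, (∀ᵐ ω ∂P, 0 ≤ u ω ∧ u ω ≤ G.indicator 1 ω) →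
      (∀ k, cf u (2 * k) = cf f (2 * k)) → φ u ∈ W := fun u h1 h2 => by
    refine ⟨?_, mem_iInter₂.2 fun s hs => ?_, mem_iInter.2 fun k => (e2 u _).trans (h2 k)⟩
    · have : ‖u‖ ≤ _ := Lp.norm_le_of_ae_bound zero_le_one (h1.mono fun ω h => by
        rw [Real.norm_of_nonneg h.1]; exact h.2.trans (hG1 ω))
      simpa [φ, measureUnivNNReal] using this
    · rw [mem_ofPred_eq, e1]
      exact ⟨setIntegral_nonneg_of_ae (h1.mono fun _ h => h.1),
        setIntegral_mono_ae (iu u).integrableOn iG.integrableOn (h1.mono fun _ h => h.2)⟩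
  have hb : BM f 1 := ⟨hf, fun ω => by
    rw [abs_of_nonneg (h01 ω).1]; exact (h01 ω).2.trans (hG1 ω)⟩
  have : LocallyConvexSpace ℝ (WeakDual ℝ (Lp ℝ 2 P)) :=
    WeakBilin.locallyConvexSpace (B := topDualPairing ℝ (Lp ℝ 2 P))
  obtain ⟨x, hx, hext⟩ := hW.extremePoints_nonempty ⟨_, mem (hb.mem.toLp _)
    (hb.mem.coeFn_toLp.mono fun ω h => h ▸ h01 ω) fun k => cf_congr hb.mem.coeFn_toLp _⟩
  obtain ⟨u, rfl⟩ : ∃ u, φ u = x :=
    ⟨(InnerProductSpace.toDual ℝ _).symm (WeakDual.toStrongDual x), 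
      DFunLike.ext _ _ fun y => InnerProductSpace.toDual_symm_apply (𝕜 := ℝ) (x := y)
        (y := WeakDual.toStrongDual x)⟩
  have u1 : ∀ s, MeasurableSet s → ∫ ω in s, u ω ∂P ∈ Icc 0 (∫ ω in s, G.indicator 1 ω ∂P) :=
    fun s hs => e1 u s hs ▸ mem_iInter₂.1 hx.2.1 s hs
  have u2 : ∀ᵐ ω ∂P, 0 ≤ u ω ∧ u ω ≤ G.indicator 1 ω :=
    (ae_nonneg_of_forall_setIntegral_nonneg (iu u) fun s hs _ => (u1 s hs).1).and
      (ae_le_of_forall_setIntegral_le (iu u) iG fun s hs _ => (u1 s hs).2)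
  have u3 : ∀ k, cf u (2 * k) = cf f (2 * k) := fun k => (e2 u _).symm.trans (mem_iInter.1 hx.2.2 k)
  have um : Measurable u := (Lp.stronglyMeasurable u).measurable
  have key : ∀ ε : ℝ, 0 < ε → P (G ∩ u ⁻¹' Icc ε (1 - ε)) = 0 := fun ε hε => by
    by_contra h0
    obtain ⟨h, h1, h2, h3, k, h4⟩ := kernel (hG.inter (um measurableSet_Icc)) h0 hε
    have : ∀ σ : ℝ, |σ| = 1 → φ (u + σ • h1.mem.toLp _) ∈ W := fun σ hσ => by
      have a : ⇑(u + σ • h1.mem.toLp _) =ᵐ[P] u + σ • h := by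
        filter_upwards [Lp.coeFn_add u (σ • h1.mem.toLp _), Lp.coeFn_smul σ (h1.mem.toLp _),
          h1.mem.coeFn_toLp] with ω a b c
        rw [a, Pi.add_apply, b, Pi.smul_apply, c]; rfl
      refine mem _ ?_ fun k => by
        rw [cf_congr a, cf_add (iu u) (h1.int.smul σ), cf_smul, h3, u3, mul_zero, add_zero]
      filter_upwards [a, u2] with ω a b
      rw [a, Pi.add_apply, Pi.smul_apply, smul_eq_mul]
      by_cases hω : ω ∈ G ∩ u ⁻¹' Icc ε (1 - ε)
      · have : |σ * h ω| ≤ ε := by rw [abs_mul, hσ, one_mul]; exact h1.2 ω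
        rw [indicator_of_mem hω.1, Pi.one_apply]
        constructor <;> linarith [abs_le.1 this, hω.2.1, hω.2.2]
      · simpa [h2 ω hω] using b
    have a := hext (this 1 abs_one) (this (-1) (by simp)) ⟨1 / 2, 1 / 2, by norm_num, by norm_num,
      by norm_num, by
        refine DFunLike.ext _ _ fun y => ?_
        change 1 / 2 * inner ℝ _ y + 1 / 2 * inner ℝ _ y = inner ℝ u y
        simp only [inner_add_left, inner_smul_left]
        simp
        ring⟩
    have b := congrArg (fun x => x (R k)) a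
    change inner ℝ _ (R k) = inner ℝ u (R k) at b
    rw [inner_add_left, one_smul, add_eq_left, real_inner_comm, inner_R,
      cf_congr h1.mem.coeFn_toLp] at b
    exact h4 b
  refine ⟨G ∩ u ⁻¹' {1}, inter_subset_left, hG.inter (um (measurableSet_singleton _)), fun k => ?_⟩
  rw [← u3]
  refine cf_congr ?_ _
  have : ∀ᵐ ω ∂P, ∀ n : ℕ, ω ∉ G ∩ u ⁻¹' Icc (1 / (n + 1 : ℝ)) (1 - 1 / (n + 1 : ℝ)) :=
    ae_all_iff.2 fun n => measure_eq_zero_iff_ae_notMem.1 (key _ (by positivity))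
  filter_upwards [this, u2] with ω a b
  by_cases hω : ω ∈ G
  · rw [indicator_of_mem hω, Pi.one_apply] at b
    by_cases h1 : u ω = 1
    · simp [hω, h1]
    · rw [indicator_of_notMem fun h => h1 h.2]
      by_contra h0
      obtain ⟨n, hn⟩ := exists_nat_one_div_lt (lt_min (b.1.lt_of_ne h0)
        (sub_pos.2 (b.2.lt_of_ne h1)))
      exact a n ⟨hω, (lt_min_iff.1 hn).1.le, by linarith [(lt_min_iff.1 hn).2]⟩
  · rw [indicator_of_notMem hω] at b
    rw [indicator_of_notMem fun h => hω h.1]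
    exact b.1.antisymm b.2

/-- almost all even Rademacher coefficients vanish -/
def Bal (a : Set Ω) : Prop := ∀ᶠ k in atTop, cf (a.indicator 1) (2 * k) = 0

theorem ind_bm {a : Set Ω} (h : MeasurableSet a) : BM (a.indicator 1) 1 :=
  ⟨measurable_one.indicator h, fun ω => by by_cases h : ω ∈ a <;> simp [h]⟩

theorem cf_union {a b : Set Ω} (ha : MeasurableSet a) (hb : MeasurableSet b) (h : Disjoint a b)
    (k : ℕ) : cf ((a ∪ b).indicator 1) k = cf (a.indicator 1) k + cf (b.indicator 1) k := by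
  rw [indicator_union_of_disjoint h]
  exact cf_add (ind_bm ha).int (ind_bm hb).int k

theorem Bal.union {a b : Set Ω} (ha : MeasurableSet a) (hb : MeasurableSet b) (h : Disjoint a b)
    (h1 : Bal a) (h2 : Bal b) : Bal (a ∪ b) := by
  filter_upwards [h1, h2] with k x y
  rw [cf_union ha hb h, x, y, add_zero]

theorem Bal.diff {a b : Set Ω} (ha : MeasurableSet a) (hb : MeasurableSet b)
    (h1 : Bal a) (h2 : Bal (a ∩ b)) : Bal (a \ b) := by
  filter_upwards [h1, h2] with k x y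
  rwa [← inter_union_sdiff a b, cf_union (ha.inter hb) (ha.diff hb) disjoint_inf_sdiff, y,
    zero_add] at x

theorem bal_null {a : Set Ω} (h : P a = 0) : Bal a := .of_forall fun k => by
  rw [cf_congr (indicator_meas_zero h)]
  simp [cf]

theorem bal_univ : Bal univ := .of_forall fun k =>
  integral_eq_zero_of_add_right_eq_neg (g := e (2 * k)) fun ω => by simp [r_flip]

theorem bal_biUnion {ι : Type*} {a : ι → Set Ω} (T : Finset ι) (hm : ∀ i, MeasurableSet (a i))
    (hd : Pairwise (Function.onFun Disjoint a)) (h : ∀ i ∈ T, Bal (a i)) : Bal (⋃ i ∈ T, a i) := by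
  classical
  induction T using Finset.induction_on with
  | empty => simpa using bal_null measure_empty
  | insert i T hi ih =>
    rw [Finset.set_biUnion_insert]
    exact Bal.union (hm i) (T.measurableSet_biUnion fun j _ => hm j)
      (disjoint_iUnion₂_right.2 fun j hj => hd (ne_of_mem_of_not_mem hj hi).symm)
      (h i (Finset.mem_insert_self _ _)) (ih fun j hj => h j (Finset.mem_insert_of_mem hj))

theorem correct {b u : Set Ω} (hb : MeasurableSet b) (hu : MeasurableSet u)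
    (h : P b ≠ 0 → P (b ∩ u) ≠ 0) : ∃ a ⊆ b, MeasurableSet a ∧ b \ a ⊆ u ∧ Bal a := by
  by_cases h0 : P b = 0
  · exact ⟨b, Subset.rfl, hb, by simp, bal_null h0⟩
  have hG := hb.inter hu
  obtain ⟨k₁, C, hC, H⟩ := surj hG (h h0)
  let w : Ω → ℝ := (b \ u).indicator 1 + (1 / 2 : ℝ) • (b ∩ u).indicator 1
  have hw : BM w 2 := ⟨(ind_bm (hb.diff hu)).1.add ((ind_bm hG).1.const_smul _), fun ω => by
    by_cases h1 : ω ∈ b <;> by_cases h2 : ω ∈ u <;> norm_num [w, h1, h2]⟩
  have : SQ 0 (cf w) √(∫ ω, w ω ^ 2 ∂P) := fun T _ => (bessel hw T).trans (Real.sq_sqrt' ▸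
    le_max_left _ _)
  obtain ⟨k₂, hk₂⟩ := this.tail (η := 1 / (2 * C)) (by positivity)
  obtain ⟨g, g1, g2, g3⟩ := H (fun k => if k₂ ≤ k then - cf w k else 0) (1 / (2 * C))
    (by positivity) fun T _ => by
      have := hk₂ (T.filter (k₂ ≤ ·)) fun k hk => (Finset.mem_filter.1 hk).2
      rw [Finset.sum_filter] at this
      simpa using this
  obtain ⟨a, a1, a2, a3⟩ := purify hG (f := (1 / 2 : ℝ) • (b ∩ u).indicator 1 + g)
    (((ind_bm hG).1.const_smul _).add g1.1) fun ω => by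
      by_cases hω : ω ∈ b ∩ u
      · have := abs_le.1 ((g1.2 ω).trans_eq (by field_simp : C * (1 / (2 * C)) = 1 / 2))
        simp only [Pi.add_apply, Pi.smul_apply, indicator_of_mem hω, Pi.one_apply, smul_eq_mul]
        constructor <;> linarith
      · simp [hω, g2 ω hω]
  refine ⟨b \ u ∪ a, union_subset sdiff_subset (a1.trans inter_subset_left), (hb.diff hu).union a2,
    fun ω h => by_contra fun h' => h.2 (.inl ⟨h.1, h'⟩), ?_⟩
  filter_upwards [eventually_ge_atTop k₁, eventually_ge_atTop k₂] with k x y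
  rw [cf_union (hb.diff hu) a2 (disjoint_inf_sdiff.symm.mono_right a1), a3,
    cf_add ((ind_bm hG).int.smul _) g1.int, g3 _ (by omega), if_pos (by omega),
    cf_add (ind_bm (hb.diff hu)).int ((ind_bm hG).int.smul _)]
  ring

end Pool.Agent.H33.NikB
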