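import Mathlib

/-!
An abstract gliding hump argument for the Nikodym property, run along a prime ideal.
-/

open Set Function

namespace Pool.Agent.H33.NikC

variable {B : Type*} [BooleanAlgebra B]

def Ad (μ : B → ℝ) : Prop := ∀ a b, Disjoint a b → μ (a ⊔ b) = μ a + μ b

def NB (μ : ℕ → B → ℝ) (c : B) : Prop := ∃ K, ∀ m d, d ≤ c → |μ m d| ≤ K

theorem Ad.bot {μ : B → ℝ} (h : Ad μ) : μ ⊥ = 0 := by simpa using h ⊥ ⊥ disjoint_bot_left

theorem Ad.split {μ : B → ℝ} (h : Ad μ) (a b : B) : μ a = μ (a ⊓ b) + μ (a \ b) := by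
  rw [← h _ _ disjoint_inf_sdiff, sup_inf_sdiff]

theorem small' {μ : B → ℝ} (h : Ad μ) (hb : ∃ K, ∀ a, |μ a| ≤ K) (J : Order.Ideal B) {η : ℝ}
    (hη : 0 < η) : ∃ c ∈ J, ∀ d ∈ J, Disjoint d c → μ d ≤ η := by
  obtain ⟨K, hK⟩ := hb
  have hb : BddAbove (μ '' J) := ⟨K, forall_mem_image.2 fun a _ => (le_abs_self _).trans (hK a)⟩
  obtain ⟨_, ⟨c, hc, rfl⟩, h1⟩ := exists_lt_of_lt_csSup (J.nonempty.image μ) (sub_lt_self _ hη)
  refine ⟨c, hc, fun d hd hdc => ?_⟩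
  have := le_csSup hb ⟨_, J.sup_mem hd hc, h d c hdc⟩
  linarith

theorem small {μ : B → ℝ} (h : Ad μ) (hb : ∃ K, ∀ a, |μ a| ≤ K) (J : Order.Ideal B) {η : ℝ}
    (hη : 0 < η) : ∃ c ∈ J, ∀ d ∈ J, Disjoint d c → |μ d| ≤ η := by
  obtain ⟨c, hc, h1⟩ := small' h hb J hη
  obtain ⟨c', hc', h2⟩ := small' (μ := fun a => - μ a) (fun a b k => by simp only [h a b k]; ring)
    (by simpa using hb) J hη
  exact ⟨c ⊔ c', J.sup_mem hc hc', fun d hd k => abs_le.2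
    ⟨neg_le.1 (h2 d hd (disjoint_sup_right.1 k).2), h1 d hd (disjoint_sup_right.1 k).1⟩⟩

theorem NB.sup {μ : ℕ → B → ℝ} (h1 : ∀ m, Ad (μ m)) {a b : B} (ha : NB μ a) (hb : NB μ b) :
    NB μ (a ⊔ b) := by
  obtain ⟨K, hK⟩ := ha
  obtain ⟨L, hL⟩ := hb
  refine ⟨K + L, fun m d hd => ?_⟩
  rw [(h1 m).split d a]
  exact (abs_add_le _ _).trans (add_le_add (hK _ _ inf_le_right) (hL _ _ (sdiff_le_iff.2 hd)))

theorem NB.mono {μ : ℕ → B → ℝ} {a b : B} (ha : NB μ a) (h : b ≤ a) : NB μ b :=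
  ha.imp fun _ k m d hd => k m d (hd.trans h)

theorem nik {μ : ℕ → B → ℝ} (h1 : ∀ m, Ad (μ m)) (h2 : ∀ m, ∃ K, ∀ a, |μ m a| ≤ K)
    (h3 : ∀ a, ∃ K, ∀ m, |μ m a| ≤ K) (c₀ : B) (Y : ℕ → B) (hY : Monotone Y)
    (hY' : ∀ j, NB μ (Y j))
    (H : ∀ (b : ℕ → B) (m : ℕ → ℕ), Pairwise (Disjoint on b) → (∀ j, b j ≤ c₀ \ Y j) →
      ∃ g, (∀ c, (∀ i, b i ≤ c) → g ≤ c) ∧ ∀ j₀, ∃ j ≥ j₀,
        (∀ i < j, Disjoint g (b i) ∨ b i \ g ≤ Y j) ∧ |μ (m j) (b j \ g)| ≤ 1) : NB μ c₀ := by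
  by_contra hc
  choose q hq using h3
  choose K hK using hY'
  have K0 : ∀ j, 0 ≤ K j := fun j => (abs_nonneg _).trans (hK j 0 ⊥ bot_le)
  let I : Order.Ideal B :=
    { carrier := {d | NB μ (d ⊓ c₀)}
      lower' := fun a b h k => NB.mono k (inf_le_inf_right _ h)
      nonempty' := ⟨⊥, 0, fun m d hd => by
        rw [bot_inf_eq, le_bot_iff] at hd; simp [hd, (h1 m).bot]⟩
      directed' := fun a ha b hb => ⟨a ⊔ b, by
        rw [mem_ofPred_eq, inf_sup_right]; exact NB.sup h1 ha hb, le_sup_left, le_sup_right⟩ }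
  have : I.IsProper := Order.Ideal.isProper_of_notMem (p := ⊤) fun h => hc (NB.mono h (by simp))
  obtain ⟨J, hIJ, hJ⟩ := this.exists_le_maximal
  have hT : ⊤ ∉ J := hJ.toIsProper.top_notMem
  have hP : ∀ a, a ∈ J ∨ aᶜ ∈ J := fun a => hJ.isPrime.mem_or_compl_mem
  have hN : ∀ a, NB μ a → a ∈ J := fun a h => hIJ (NB.mono h inf_le_left)
  have hc0 : c₀ᶜ ∈ J := hIJ ⟨0, fun m d hd => by
    rw [compl_inf_eq_bot, le_bot_iff] at hd; simp [hd, (h1 m).bot]⟩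
  have step : ∀ (F : {F : B // Fᶜ ∈ J}) (j : ℕ) (Q : ℝ), ∃ m b, ∃ F' : {F : B // Fᶜ ∈ J},
      b ≤ F.1 ⊓ (c₀ \ Y j) ∧ F'.1 ≤ F.1 \ b ∧ Q ≤ |μ m b| ∧ ∀ d ∈ J, d ≤ F'.1 → |μ m d| ≤ 1 := by
    intro F j Q
    set F0 := F.1 ⊓ (c₀ \ Y j)
    have a1 : F0ᶜ ∈ J := by
      simp only [F0, compl_inf, _root_.compl_sdiff, himp_eq]
      exact J.sup_mem F.2 (J.sup_mem (hN _ ⟨_, hK j⟩) hc0)
    have a2 : ¬ NB μ F0 := fun h => hT (sup_compl_eq_top (x := F0) ▸ J.sup_mem (hN _ h) a1)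
    obtain ⟨m, b, b1, b2, b3⟩ : ∃ m, ∃ b ∈ J, b ≤ F0 ∧ Q ≤ |μ m b| := by
      simp only [NB, not_exists, not_forall, not_le] at a2
      obtain ⟨m, d, d1, d2⟩ := a2 (Q + q F0)
      have := abs_nonneg (μ m F0)
      rcases hP d with h | h
      · exact ⟨m, d, h, d1, by linarith [hq F0 m]⟩
      · refine ⟨m, F0 \ d, J.lower (by rw [_root_.sdiff_eq]; exact inf_le_right) h, sdiff_le, ?_⟩
        have e := (h1 m).split F0 d
        rw [inf_eq_right.2 d1] at e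
        have := abs_sub (μ m F0) (μ m (F0 \ d))
        rw [show μ m F0 - μ m (F0 \ d) = μ m d by linarith] at this
        linarith [hq F0 m]
    obtain ⟨c, c1, c2⟩ := small (h1 m) (h2 m) J one_pos
    refine ⟨m, b, ⟨(F.1 \ b) \ c, ?_⟩, b2, sdiff_le, b3, fun d hd h => c2 d hd (le_sdiff.1 h).2⟩
    simp only [_root_.compl_sdiff, himp_eq]
    exact J.sup_mem c1 (J.sup_mem b1 F.2)
  choose fm fb fF s1 s2 s3 s4 using step
  let th : ℕ → ℝ → ℝ := fun j Q => Q + j * K j + j + 2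
  let s : ℕ → {F : B // Fᶜ ∈ J} × ℝ := fun n => Nat.rec (⟨⊤, by simp⟩, 0)
    (fun j x => (fF x.1 j (th j x.2), x.2 + q (fb x.1 j (th j x.2)))) n
  let F : ℕ → B := fun j => (s j).1.1
  let b : ℕ → B := fun j => fb (s j).1 j (th j (s j).2)
  let m : ℕ → ℕ := fun j => fm (s j).1 j (th j (s j).2)
  have t1 : ∀ j, b j ≤ F j := fun j => (s1 _ _ _).trans inf_le_left
  have t2 : ∀ j, F (j + 1) ≤ F j \ b j := fun j => s2 _ _ _
  have t3 : Antitone F := antitone_nat_of_succ_le fun j => (t2 j).trans sdiff_le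
  have t4 : ∀ i j, i < j → Disjoint (F j) (b i) := fun i j h =>
    (le_sdiff.1 (t2 i)).2.mono_left (t3 h)
  have t5 : Pairwise (Disjoint on b) := fun i j h => by
    rcases h.lt_or_gt with h | h
    · exact ((t4 i j h).mono_left (t1 j)).symm
    · exact (t4 j i h).mono_left (t1 i)
  have key : ∀ φ : ℕ → ℕ, StrictMono φ → ∃ g ∉ J, ∀ c, (∀ i, b (φ i) ≤ c) → g ≤ c := by
    intro φ hφ
    obtain ⟨g, g1, g2⟩ := H (b ∘ φ) (m ∘ φ) (t5.comp_of_injective hφ.injective) fun j =>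
      ((s1 _ _ _).trans inf_le_right).trans (sdiff_le_sdiff_left (hY (hφ.id_le j)))
    refine ⟨g, fun hg => ?_, g1⟩
    obtain ⟨j₀, hj₀⟩ := exists_nat_gt (q g)
    obtain ⟨j, j1, j2, j3⟩ := g2 j₀
    have e1 : ∀ n i, μ n (g \ F (i + 1)) = μ n (g \ F i) + μ n (g ⊓ b i) := fun n i => by
      rw [← h1 n _ _ (disjoint_sdiff_self_left.mono_right (inf_le_right.trans (t1 i)))]
      congr 1
      refine le_antisymm (sdiff_le_iff.2 ?_) (sup_le (sdiff_le_sdiff_left (t3 i.le_succ))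
        (le_sdiff.2 ⟨inf_le_left, (t4 i _ i.lt_succ_self).symm.mono_left inf_le_right⟩))
      have : g ≤ F (i + 1) ⊔ ((F i)ᶜ ⊔ b i) := g1 _ fun l => by
        rcases lt_trichotomy (φ l) i with h | h | h
        · exact le_sup_of_le_right (le_sup_of_le_left (t4 _ _ h).symm.le_compl_right)
        · exact le_sup_of_le_right (le_sup_of_le_right (h ▸ le_rfl))
        · exact le_sup_of_le_left ((t1 _).trans (t3 h))
      refine (inf_eq_left.2 this).ge.trans ?_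
      rw [inf_sup_left, inf_sup_left, _root_.sdiff_eq]
      exact sup_le_sup_right inf_le_right _
    have e2 : ∀ n i, i < φ j → |μ n (g ⊓ b i)| ≤ q (b i) + K (φ j) := fun n i hi => by
      have a : Disjoint g (b i) ∨ b i \ g ≤ Y (φ j) := by
        by_cases h : ∃ l, φ l = i
        · obtain ⟨l, rfl⟩ := h
          exact (j2 l (hφ.lt_iff_lt.1 hi)).imp_right fun h => h.trans (hY (hφ.id_le j))
        · exact .inl (le_compl_iff_disjoint_right.1 (g1 _ fun l =>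
            (t5 fun e => h ⟨l, e⟩).le_compl_right))
      rcases a with a | a
      · rw [a.eq_bot, (h1 n).bot, abs_zero]
        exact add_nonneg ((abs_nonneg _).trans (hq _ n)) (K0 _)
      · rw [inf_comm, eq_sub_of_add_eq ((h1 n).split (b i) g).symm]
        exact (abs_sub _ _).trans (add_le_add (hq _ _) (hK _ _ _ a))
    have e3 : ∀ n i, i ≤ φ j → |μ n (g \ F i)| ≤ (s i).2 + i * K (φ j) := fun n i hi => by
      induction i with
      | zero => simp [F, s, (h1 n).bot]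
      | succ i ih =>
        rw [e1]
        refine (abs_add_le _ _).trans ((add_le_add (ih (i.le_succ.trans hi)) (e2 n i hi)).trans_eq ?_)
        change _ = (s i).2 + q (b i) + _
        push_cast
        ring
    have f1 := (h1 (m (φ j))).split g (F (φ j + 1))
    have f2 := (h1 (m (φ j))).split (b (φ j)) g
    have f3 : |μ (m (φ j)) (g ⊓ F (φ j + 1))| ≤ 1 := s4 _ _ _ _ (J.lower inf_le_left hg) inf_le_right
    have f4 : th (φ j) (s (φ j)).2 ≤ |μ (m (φ j)) (b (φ j))| := s3 _ _ _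
    have f5 := e3 (m (φ j)) _ le_rfl
    have f6 : (j₀ : ℝ) ≤ φ j := Nat.cast_le.2 (j1.trans (hφ.id_le j))
    have f7 := hq g (m (φ j))
    rw [e1, inf_comm g (b _)] at f1
    simp only [comp_apply, th, abs_le] at j3 f3 f4 f5 f7
    rcases le_abs.1 f4 with h | h <;> linarith
  obtain ⟨g, g1, g2⟩ := key (fun i => 2 * i) fun i j h => by simpa using h
  obtain ⟨g', g3, g4⟩ := key (fun i => 2 * i + 1) fun i j h => by simpa using h
  refine g3 (J.lower (g4 _ fun i => ?_) ((hP g).resolve_left g1))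
  exact le_compl_comm.1 (g2 _ fun l => (t5 (show 2 * l ≠ 2 * i + 1 by omega)).le_compl_right)

end Pool.Agent.H33.NikC
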