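import Mathlib
import Pool.Agent.H33.NikB

/-!
The extension step of the construction.
-/

open Set Filter Topology MeasureTheory Function

namespace Pool.Agent.H33.NikD

open Pool.Agent.H33.NikA Pool.Agent.H33.NikB

abbrev V : Type := ℕ → Set Ω

def Meas (a : V) : Prop := ∀ n, MeasurableSet (a n)

def Det (T : Set V) (n : ℕ) (a : Set Ω) : Prop :=
  ∀ ω ω', (∀ c ∈ T, ω ∈ c n ↔ ω' ∈ c n) → ω ∈ a → ω' ∈ a

def Inv (S : Set V) : Prop := ∀ T ⊆ S, T.Finite → ∀ᶠ n in atTop, ∀ a, Det T n a → Bal a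

theorem Det.mono {T T' : Set V} {n : ℕ} {a : Set Ω} (h : Det T n a) (k : T ⊆ T') : Det T' n a :=
  fun ω ω' e => h ω ω' fun c hc => e c (k hc)

theorem Det.inter {T : Set V} {n : ℕ} {a b : Set Ω} (h : Det T n a) (k : Det T n b) :
    Det T n (a ∩ b) := fun ω ω' e x => ⟨h ω ω' e x.1, k ω ω' e x.2⟩

theorem Det.union {T : Set V} {n : ℕ} {a b : Set Ω} (h : Det T n a) (k : Det T n b) :
    Det T n (a ∪ b) := fun ω ω' e x => x.imp (h ω ω' e) (k ω ω' e)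

theorem Det.compl {T : Set V} {n : ℕ} {a : Set Ω} (h : Det T n a) : Det T n aᶜ :=
  fun ω ω' e x y => x (h ω' ω (fun c hc => (e c hc).symm) y)

def ty (T : Set V) (n : ℕ) (ω : Ω) : T → Prop := fun c => ω ∈ c.1 n

theorem ty_meas {T : Set V} (h : T.Finite) (hm : ∀ c ∈ T, Meas c) (n : ℕ) (σ : T → Prop) :
    MeasurableSet (ty T n ⁻¹' {σ}) := by
  have := h.to_subtype
  have : ty T n ⁻¹' {σ} = ⋂ c : T, {ω | ω ∈ c.1 n ↔ σ c} := by
    ext ω; simp [ty, funext_iff]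
  rw [this]
  refine .iInter fun c => ?_
  by_cases k : σ c
  · simpa [k] using hm _ c.2 n
  · simp only [k, iff_false]; exact (hm _ c.2 n).compl

theorem Det.fib {T : Set V} {n : ℕ} {a : Set Ω} (h : Det T n a) (σ : T → Prop) :
    ty T n ⁻¹' {σ} ⊆ a ∨ Disjoint a (ty T n ⁻¹' {σ}) := by
  rw [or_iff_not_imp_right, not_disjoint_iff]
  rintro ⟨ω, h1, h2⟩ ω' h3
  exact h ω ω' (fun c hc => iff_of_eq (congrFun (h2.trans h3.symm) ⟨c, hc⟩)) h1

theorem Det.meas {T : Set V} (hT : T.Finite) (hm : ∀ c ∈ T, Meas c) {n : ℕ} {a : Set Ω}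
    (h : Det T n a) : MeasurableSet a := by
  have := hT.to_subtype
  rw [show a = ⋃ σ, a ∩ ty T n ⁻¹' {σ} by ext; simp]
  refine .iUnion fun σ => ?_
  rcases h.fib σ with k | k
  · rw [inter_eq_right.2 k]; exact ty_meas hT hm n σ
  · rw [k.inter_eq]; exact .empty

theorem bal_empty : Bal ∅ := bal_null measure_empty

theorem inv_empty : Inv ∅ := fun T hT _ => .of_forall fun n a h => by
  rcases a.eq_empty_or_nonempty with rfl | ⟨ω, hω⟩
  · exact bal_empty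
  · rw [eq_univ_of_forall fun ω' => h ω ω' (fun c hc => (hT hc).elim) hω]; exact bal_univ

theorem inv_insert {S : Set V} (hm : ∀ c ∈ S, Meas c) (h : Inv S) {g : V} (hg : Meas g)
    (k : ∀ T ⊆ S, T.Finite → ∀ᶠ n in atTop, ∀ a, Det T n a → Bal (a ∩ g n)) :
    Inv (insert g S) := by
  intro T hT hf
  have h1 : T \ {g} ⊆ S := fun c hc => (hT hc.1).resolve_left hc.2
  have h2 : (T \ {g}).Finite := hf.subset sdiff_subset
  filter_upwards [h _ h1 h2, k _ h1 h2] with n x y a ha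
  let s : Set Ω → Set Ω := fun b => {ω | ∃ ω' ∈ b, ∀ c ∈ T \ {g}, ω' ∈ c n ↔ ω ∈ c n}
  have s1 : ∀ b, Det (T \ {g}) n (s b) := fun b ω ω' e ⟨z, z1, z2⟩ =>
    ⟨z, z1, fun c hc => (z2 c hc).trans (e c hc)⟩
  have s2 : ∀ b, MeasurableSet (s b) := fun b => (s1 b).meas h2 fun c hc => hm c (h1 hc)
  have : a = s (a ∩ g n) ∩ g n ∪ s (a \ g n) \ g n := by
    ext ω
    refine ⟨fun hω => ?_, ?_⟩
    · by_cases e : ω ∈ g n
      · exact .inl ⟨⟨ω, ⟨hω, e⟩, fun _ _ => .rfl⟩, e⟩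
      · exact .inr ⟨⟨ω, ⟨hω, e⟩, fun _ _ => .rfl⟩, e⟩
    · rintro (⟨⟨z, z1, z2⟩, e⟩ | ⟨⟨z, z1, z2⟩, e⟩) <;> refine ha z ω (fun c hc => ?_) z1.1 <;>
        by_cases e' : c = g
      · exact e' ▸ iff_of_true z1.2 e
      · exact z2 c ⟨hc, e'⟩
      · exact e' ▸ iff_of_false z1.2 e
      · exact z2 c ⟨hc, e'⟩
  rw [this]
  exact Bal.union ((s2 _).inter (hg n)) ((s2 _).diff (hg n))
    (disjoint_sdiff_right.mono_left inter_subset_right) (y _ (s1 _))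
    (Bal.diff (s2 _) (hg n) (x _ (s1 _)) (y _ (s1 _)))

theorem rowfix {T : Set V} (hT : T.Finite) (hm : ∀ c ∈ T, Meas c) (n : ℕ) {b u : Set Ω}
    (hb : MeasurableSet b) (hu : MeasurableSet u)
    (h : ∀ σ, P (b ∩ ty T n ⁻¹' {σ}) ≠ 0 → P (b ∩ ty T n ⁻¹' {σ} ∩ u) ≠ 0) :
    ∃ a ⊆ b, MeasurableSet a ∧ b \ a ⊆ u ∧ ∀ d, Det T n d → Bal (d ∩ a) := by
  classical
  have := hT.fintype
  choose a a1 a2 a3 a4 using fun σ => correct (hb.inter (ty_meas hT hm n σ)) hu (h σ)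
  refine ⟨⋃ σ, a σ, iUnion_subset fun σ => (a1 σ).trans inter_subset_left, .iUnion a2,
    fun ω hω => a3 (ty T n ω) ⟨⟨hω.1, rfl⟩, fun k => hω.2 (mem_iUnion.2 ⟨_, k⟩)⟩, fun d hd => ?_⟩
  have := bal_biUnion (a := fun σ => d ∩ a σ) Finset.univ (fun σ => (hd.meas hT hm).inter (a2 σ))
    (fun σ σ' k => (pairwise_disjoint_fiber (ty T n) k).mono
      (inter_subset_right.trans ((a1 σ).trans inter_subset_right))
      (inter_subset_right.trans ((a1 σ').trans inter_subset_right))) fun σ _ => by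
      rcases hd.fib σ with k | k
      · rw [inter_eq_right.2 (((a1 σ).trans inter_subset_right).trans k)]; exact a4 σ
      · rw [(k.mono_right ((a1 σ).trans inter_subset_right)).inter_eq]; exact bal_empty
  simpa [inter_iUnion] using this

def Hit (𝒮 : Set V) : Prop := ∀ Φ : Set (ℕ × Set Ω), Φ.Finite →
  ∃ u ∈ 𝒮, ∀ p ∈ Φ, MeasurableSet p.2 → P p.2 ≠ 0 → P (p.2 ∩ u p.1) ≠ 0

def Hyp (S : Set V) (b : ℕ → V) (𝒮 : ℕ → Set V) : Prop :=
  (∀ j, ∃ T ⊆ S, T.Finite ∧ ∀ᶠ n in atTop, Det T n (b j n)) ∧ Pairwise (Disjoint on b) ∧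
    (∀ j, ∀ n < j, b j n = ∅) ∧ ∀ j, Hit (𝒮 j)

def Con (b : ℕ → V) (𝒮 : ℕ → Set V) (g : V) : Prop :=
  (∀ n, g n ⊆ ⋃ j, b j n) ∧ ∀ j₀, ∃ j ≥ j₀,
    (∀ i < j, Disjoint g (b i) ∨ ∀ n ≥ j, b i n ⊆ g n) ∧ ∃ u ∈ 𝒮 j, b j \ g ≤ u

theorem ext {S : Set V} (hS : S.Countable) (hm : ∀ c ∈ S, Meas c) (h : Inv S) {b : ℕ → V}
    {𝒮 : ℕ → Set V} (hb : ∀ j, Meas (b j)) (h𝒮 : ∀ j, ∀ u ∈ 𝒮 j, Meas u) (H : Hyp S b 𝒮) :
    ∃ g, Meas g ∧ Inv (insert g S) ∧ Con b 𝒮 g := by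
  obtain ⟨H1, H2, H3, H4⟩ := H
  obtain ⟨c, hc⟩ := countable_iff_exists_subset_range.1 hS
  let T : ℕ → Set V := fun i => S ∩ c '' Iio i
  have T1 : ∀ i, (T i).Finite := fun i => ((finite_Iio i).image c).inter_of_right _
  have T2 : Monotone T := fun i j k => inter_subset_inter_right _ (image_mono (Iio_subset_Iio k))
  have T3 : ∀ j, ∀ T' ⊆ S, T'.Finite → ∀ᶠ n in atTop, ∀ d, Det T' n d → Bal (d ∩ b j n) := by
    intro j T' k1 k2
    obtain ⟨T'', l1, l2, l3⟩ := H1 j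
    filter_upwards [l3, h _ (union_subset k1 l1) (k2.union l2)] with n x y d hd
    exact y _ ((hd.mono subset_union_left).inter (x.mono subset_union_right))
  have : ∀ j, ∃ N : ℕ, ∃ a ≤ b j, Meas a ∧ (∃ u ∈ 𝒮 j, b j \ a ≤ u) ∧ (∀ n ≥ N, a n = b j n) ∧
      ∀ n d, Det (T j) n d → Bal (d ∩ a n) := fun j => by
    obtain ⟨N, hN⟩ := eventually_atTop.1 (T3 j _ inter_subset_left (T1 j))
    have := (T1 j).to_subtype
    obtain ⟨u, u1, u2⟩ := H4 j _ (((finite_Iio N).prod finite_univ).image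
      fun p : ℕ × (T j → Prop) => (p.1, b j p.1 ∩ ty (T j) p.1 ⁻¹' {p.2}))
    have hm' : ∀ c ∈ T j, Meas c := fun c hc => hm c hc.1
    have : ∀ n, ∃ a ⊆ b j n, MeasurableSet a ∧ b j n \ a ⊆ u n ∧ (N ≤ n → a = b j n) ∧
        ∀ d, Det (T j) n d → Bal (d ∩ a) := fun n => by
      rcases lt_or_ge n N with k | k
      · obtain ⟨a, a1, a2, a3, a4⟩ := rowfix (T1 j) hm' n (hb j n) (h𝒮 j u u1 n) fun σ =>
          u2 _ ⟨(n, σ), ⟨k, trivial⟩, rfl⟩ ((hb j n).inter (ty_meas (T1 j) hm' n σ))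
        exact ⟨a, a1, a2, a3, fun e => absurd k e.not_gt, a4⟩
      · exact ⟨_, Subset.rfl, hb j n, by simp, fun _ => rfl, hN n k⟩
    choose a a1 a2 a3 a4 a5 using this
    exact ⟨N, a, a1, a2, ⟨u, u1, a3⟩, a4, a5⟩
  choose N a a1 a2 a3 a4 a5 using this
  let i : ℕ → ℕ := fun t => Nat.rec 0 (fun _ x => max (N x) (x + 1)) t
  have i1 : StrictMono i := strictMono_nat_of_lt_succ fun t => Nat.lt_of_succ_le (le_max_right _ _)
  have i2 : ∀ s t, s < t → N (i s) ≤ i t := fun s t k => (le_max_left _ _).trans (i1.monotone k)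
  let g : V := fun n => ⋃ t, a (i t) n
  have g1 : Meas g := fun n => .iUnion fun t => a2 _ n
  have g2 : ∀ t, a (i t) ≤ g := fun t n => subset_iUnion (fun t => a (i t) n) t
  refine ⟨g, g1, inv_insert hm h g1 fun T' k1 k2 => ?_, fun n => iUnion_subset fun t =>
    (a1 _ n).trans (subset_iUnion (fun j => b j n) _), fun j₀ => ⟨i j₀, i1.id_le _, fun l hl => ?_,
    (a3 _).imp fun u k => ⟨k.1, (sdiff_le_sdiff_left (g2 _)).trans k.2⟩⟩⟩
  · obtain ⟨I, hI⟩ : ∃ I, T' ⊆ T I := by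
      obtain ⟨s, -, s1, s2⟩ := k2.exists_subset_finite_image_eq (s := univ) (f := c)
        (by simpa using k1.trans hc)
      obtain ⟨I, hI⟩ := s1.bddAbove
      exact ⟨I + 1, subset_inter k1 (s2 ▸ image_mono fun x hx => Nat.lt_succ_of_le (hI hx))⟩
    filter_upwards [(eventually_all_finite (finite_Iio I)).2 fun t _ =>
      (T3 (i t) T' k1 k2).and (eventually_ge_atTop (N (i t)))] with n x d hd
    have := bal_biUnion (a := fun t => d ∩ a (i t) n) (Finset.range (n + 1))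
      (fun t => (hd.meas k2 fun c hc => hm c (k1 hc)).inter (a2 _ n))
      (fun s t k => (Pi.disjoint_iff.1 (H2 (i1.injective.ne k)) n).mono
        (inter_subset_right.trans (a1 _ n)) (inter_subset_right.trans (a1 _ n))) fun t _ => by
        rcases lt_or_ge t I with k | k
        · rw [a4 _ _ (x t k).2]; exact (x t k).1 d hd
        · exact a5 _ _ _ (hd.mono (hI.trans (T2 (k.trans (i1.id_le t)))))
    convert this using 1
    ext ω
    simp only [g, mem_inter_iff, mem_iUnion, Finset.mem_range, exists_prop]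
    refine ⟨fun ⟨y, t, z⟩ => ⟨t, by_contra fun k => ?_, y, z⟩, fun ⟨t, _, y, z⟩ => ⟨y, t, z⟩⟩
    have := a1 _ n z
    rw [H3 _ n ((Nat.lt_of_succ_le (not_lt.1 k)).trans_le (i1.id_le t))] at this
    exact this
  · rcases em (∃ s, i s = l) with ⟨s, rfl⟩ | k
    · exact .inr fun n hn => (a4 _ _ ((i2 _ _ (i1.lt_iff_lt.1 hl)).trans hn)).ge.trans (g2 s n)
    · exact .inl (Pi.disjoint_iff.2 fun n => disjoint_iUnion_left.2 fun t =>
        (Pi.disjoint_iff.1 (H2 fun e => k ⟨t, e⟩) n).mono_left (a1 _ n))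

end Pool.Agent.H33.NikD
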