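import Mathlib
import Pool.Agent.H33.NikC
import Pool.Agent.H33.NikD
import Pool.Agent.H33.CpCp

/-!
Under CH there is a Boolean algebra with the Nikodym property and without the strong one.
-/

open Set Filter Topology MeasureTheory Function Cardinal TopologicalSpace

namespace Pool.Agent.H33.NikE

open Pool.Agent.H33.NikA Pool.Agent.H33.NikB Pool.Agent.H33.NikC Pool.Agent.H33.NikD
open Pool.Agent.H33.NoEmb Pool.Agent.H33.CpCp Pool.Agent.H33.GrothEx

abbrev MV : Type := {a : V // Meas a}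

abbrev Task : Type := (ℕ → MV) × (ℕ → ℕ → MV)

theorem mk_MV : #MV ≤ 𝔠 := by
  have h : #{s : Set Ω // MeasurableSet s} ≤ 𝔠 := by
    have := MeasurableSpace.cardinal_measurableSet_le_continuum
      (((MeasurableSpace.countable_countableGeneratingSet (α := Ω)).le_aleph0).trans
        aleph0_le_continuum)
    rwa [MeasurableSpace.generateFrom_countableGeneratingSet] at this
  refine (mk_le_of_injective (f := fun (a : MV) n => (⟨a.1 n, a.2 n⟩ : {s // MeasurableSet s}))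
    fun a b e => Subtype.ext (funext fun n => congrArg Subtype.val (congrFun e n))).trans ?_
  rw [← power_def, mk_nat, ← continuum_power_aleph0]
  exact power_le_power_right h

theorem mk_Task : #Task ≤ 𝔠 := by
  have a : ∀ {X : Type}, #X ≤ 𝔠 → #(ℕ → X) ≤ 𝔠 := fun h => by
    rw [← power_def, mk_nat, ← continuum_power_aleph0]
    exact power_le_power_right h
  rw [mk_prod, lift_id, lift_id, ← continuum_mul_self]
  exact mul_le_mul' (a mk_MV) (a (a mk_MV))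

theorem gen (CH : (𝔠 : Cardinal.{0}) ≤ ℵ_ 1) : ∃ S : Set V, (∀ c ∈ S, Meas c) ∧ NikD.Inv S ∧
    ∀ t : Task, Hyp S (fun j => (t.1 j).1) (fun j => range fun i => (t.2 j i).1) →
      ∃ g ∈ S, Con (fun j => (t.1 j).1) (fun j => range fun i => (t.2 j i).1) g := by
  have h1 : #T1 = ℵ_ 1 := by simp
  obtain ⟨e, he⟩ : ∃ e : T1 → Task × T1, Surjective e := by
    have : Nonempty (Task × T1) :=
      ⟨((fun _ => ⟨⊥, fun _ => .empty⟩, fun _ _ => ⟨⊥, fun _ => .empty⟩), Classical.arbitrary _)⟩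
    obtain ⟨f⟩ : Nonempty (Task × T1 ↪ T1) := by
      rw [← Cardinal.le_def, mk_prod, lift_id, lift_id, h1]
      exact (mul_le_mul_left (mk_Task.trans CH) _).trans_eq (mul_eq_self (by simp))
    exact ⟨_, invFun_surjective f.injective⟩
  have : ∀ (S : Set V) (t : Task), ∃ g, Meas g ∧ (S.Countable → (∀ c ∈ S, Meas c) → NikD.Inv S →
      NikD.Inv (insert g S) ∧ (Hyp S (fun j => (t.1 j).1) (fun j => range fun i => (t.2 j i).1) →
      Con (fun j => (t.1 j).1) (fun j => range fun i => (t.2 j i).1) g)) := fun S t => by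
    rcases em (S.Countable ∧ (∀ c ∈ S, Meas c) ∧ NikD.Inv S ∧
      Hyp S (fun j => (t.1 j).1) (fun j => range fun i => (t.2 j i).1)) with ⟨a, b, c, d⟩ | h
    · obtain ⟨g, g1, g2, g3⟩ := ext a b c (fun j => (t.1 j).2)
        (fun j => forall_mem_range.2 fun i => (t.2 j i).2) d
      exact ⟨g, g1, fun _ _ _ => ⟨g2, fun _ => g3⟩⟩
    · exact ⟨⊥, fun _ => .empty, fun a b c => ⟨inv_insert b c (fun _ => .empty) fun _ _ _ =>
        .of_forall fun n d _ => by simpa using bal_empty, fun d => (h ⟨a, b, c, d⟩).elim⟩⟩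
  choose G G1 G2 using this
  obtain ⟨f, hf⟩ := exists_rec (T := T1) (⊥ : V) (fun δ f => G (f '' Iio δ) (e δ).1)
    fun δ f f' h => by rw [image_congr (s := Iio δ) h]
  have f1 : ∀ s, ∀ c ∈ f '' s, Meas c := fun s => forall_mem_image.2 fun δ _ => hf δ ▸ G1 _ _
  have f2 : ∀ s, (∀ β ∈ s, NikD.Inv (f '' Iic β)) → NikD.Inv (f '' s) := fun s h T hT hT' => by
    obtain ⟨s', s1, s2, rfl⟩ := hT'.exists_subset_finite_image_eq hT
    rcases s'.eq_empty_or_nonempty with rfl | k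
    · exact inv_empty _ (by simp) hT'
    · obtain ⟨β, b1, b2⟩ := exists_max_image s' id s2 k
      exact h β (s1 b1) _ (image_mono b2) hT'
  have f3 : ∀ δ, NikD.Inv (f '' Iic δ) := fun δ => by
    induction δ using (wellFounded_lt (α := T1)).induction with
    | _ δ ih =>
      rw [← Iio_insert, image_insert_eq, hf δ]
      exact (G2 _ _ ((T1_iio δ).image f) (f1 _) (f2 _ ih)).1
  refine ⟨f '' univ, f1 _, f2 _ fun β _ => f3 β, fun t ⟨a, b⟩ => ?_⟩
  choose T a1 a2 a3 using a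
  choose s _ s2 s3 using fun j => (a2 j).exists_subset_finite_image_eq (a1 j)
  obtain ⟨β, hβ⟩ := T1_bdd (countable_iUnion fun j => (s2 j).countable)
  obtain ⟨δ, d1, d2⟩ : ∃ δ, β < δ ∧ (e δ).1 = t := by
    by_contra! h
    refine not_countable_univ ((((T1_iio β).insert β).image fun δ => (e δ).2).mono fun γ _ => ?_)
    obtain ⟨δ, hδ⟩ := he (t, γ)
    exact ⟨δ, (not_lt.1 fun k => h δ k (by rw [hδ])).eq_or_lt, congrArg Prod.snd hδ⟩
  refine ⟨f δ, mem_image_of_mem _ trivial, ?_⟩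
  rw [hf δ, d2]
  exact (G2 _ _ ((T1_iio δ).image f) (f1 _) (f2 _ fun β _ => f3 β)).2 ⟨fun j => ⟨T j, s3 j ▸
    image_mono fun x hx => (hβ (mem_iUnion.2 ⟨j, hx⟩)).trans_lt d1, a2 j, a3 j⟩, b⟩

def Alg (S : Set V) : BooleanSubalgebra V where
  carrier := {a | Meas a ∧ ∃ T ⊆ S, T.Finite ∧ ∀ᶠ n in atTop, Det T n (a n)}
  supClosed' := fun _ ⟨a, _, a1, a2, a3⟩ _ ⟨b, _, b1, b2, b3⟩ => ⟨fun n => (a n).union (b n),
    _, union_subset a1 b1, a2.union b2, (a3.and b3).mono fun _ h =>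
      (h.1.mono subset_union_left).union (h.2.mono subset_union_right)⟩
  infClosed' := fun _ ⟨a, _, a1, a2, a3⟩ _ ⟨b, _, b1, b2, b3⟩ => ⟨fun n => (a n).inter (b n),
    _, union_subset a1 b1, a2.union b2, (a3.and b3).mono fun _ h =>
      (h.1.mono subset_union_left).inter (h.2.mono subset_union_right)⟩
  bot_mem' := ⟨fun _ => .empty, ∅, empty_subset _, finite_empty, .of_forall fun _ _ _ _ h => h⟩
  compl_mem' := fun ⟨a, T, a1, a2, a3⟩ => ⟨fun n => (a n).compl, T, a1, a2,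
    a3.mono fun _ h => h.compl⟩

variable {S : Set V}

theorem mem_row {a : V} (h : Meas a) (n : ℕ) (k : ∀ m ≠ n, a m = ∅) : a ∈ Alg S :=
  ⟨h, ∅, empty_subset _, finite_empty, (eventually_gt_atTop n).mono fun m hm _ _ _ x => by
    rw [k m hm.ne'] at x; exact x.elim⟩

def sg (S : Set V) (n : ℕ) (s : Clopens Ω) : Alg S :=
  ⟨fun m => {ω | m = n ∧ ω ∈ s}, mem_row (fun m => by
    by_cases h : m = n
    · simpa [h] using s.isOpen.measurableSet
    · simp [h]) n fun m h => by simp [h]⟩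

theorem dis {a b : Alg S} : Disjoint a b ↔ ∀ n, Disjoint (a.1 n) (b.1 n) := by
  rw [disjoint_iff, Subtype.ext_iff, ← Pi.disjoint_iff, disjoint_iff]
  rfl

theorem pt0 (z : Ω) : P {z} = 0 := by
  have : (𝓝[≠] (0 : Ω)).NeBot := by
    rw [← mem_closure_iff_nhdsWithin_neBot]
    refine mem_closure_of_tendsto (f := e) (b := atTop) (tendsto_pi_nhds.2 fun l =>
      tendsto_const_nhds.congr' ((eventually_gt_atTop l).mono fun k hk => by
        simp [e, Pi.single_eq_of_ne hk.ne])) (.of_forall fun k h => ?_)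
    simpa [e] using congrFun h k
  exact measure_singleton z

theorem W1 {μ : Alg S → ℝ} (h1 : Ad μ) (h2 : ∃ K, ∀ a, |μ a| ≤ K) (n : ℕ) {E : Set Ω}
    (hE : P E ≠ 0) {η : ℝ} (hη : 0 < η) :
    ∃ s : Clopens Ω, P (E ∩ s) ≠ 0 ∧ ∀ d ≤ sg S n s, |μ d| ≤ η := by
  obtain ⟨z, -, hz⟩ := exists_mem_forall_mem_nhdsWithin_pos_measure hE
  let J : Order.Ideal (Alg S) :=
    { carrier := {d | ∃ t : Clopens Ω, z ∈ t ∧ Disjoint (d.1 n) t}
      lower' := fun a b h ⟨t, t1, t2⟩ => ⟨t, t1, t2.mono_left (h n)⟩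
      nonempty' := ⟨⊥, ⊤, trivial, disjoint_bot_left⟩
      directed' := fun a ⟨t, t1, t2⟩ b ⟨s, s1, s2⟩ => ⟨a ⊔ b, ⟨t ⊓ s, ⟨t1, s1⟩,
        disjoint_sup_left.2 ⟨t2.mono_right inter_subset_left, s2.mono_right inter_subset_right⟩⟩,
        le_sup_left, le_sup_right⟩ }
  obtain ⟨c, ⟨t, t1, t2⟩, hc⟩ := small h1 h2 J hη
  have a := hz (E ∩ t) (inter_mem_nhdsWithin _ (t.isOpen.mem_nhds t1))
  rw [← measure_sdiff_null (pt0 z)] at a
  obtain ⟨y, y1, y2⟩ := exists_mem_forall_mem_nhdsWithin_pos_measure a.ne'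
  obtain ⟨U, U1, U2, U3⟩ := exists_isClopen_of_totally_separated (show y ≠ z from y1.2)
  refine ⟨t ⊓ ⟨U, U1⟩, ((y2 _ (inter_mem_nhdsWithin _ (U1.2.mem_nhds U2))).trans_le
    (measure_mono fun ω h => (⟨h.1.1.1, h.1.1.2, h.2⟩ : ω ∈ E ∩ (t ∩ U)))).ne', fun d hd => hc d
    ⟨⟨Uᶜ, U1.compl⟩, U3, disjoint_left.2 fun ω h k => k (hd n h).2.2⟩
    (dis.2 fun m => disjoint_left.2 fun ω h k => ?_)⟩
  obtain ⟨rfl, h⟩ := hd m h
  exact disjoint_left.1 t2 k h.1

noncomputable def U (S : Set V) (L : List (ℕ × Clopens Ω)) : Alg S :=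
  L.foldr (fun p x => sg S p.1 p.2 ⊔ x) ⊥

theorem W2 {μ : Alg S → ℝ} (h1 : Ad μ) (h2 : ∃ K, ∀ a, |μ a| ≤ K) {Φ : Set (ℕ × Set Ω)}
    (hΦ : Φ.Finite) : ∀ η : ℝ, 0 < η → ∃ L, (∀ d ≤ U S L, |μ d| ≤ η) ∧
      ∀ p ∈ Φ, P p.2 ≠ 0 → P (p.2 ∩ (U S L).1 p.1) ≠ 0 := by
  induction Φ, hΦ using Finite.induction_on with
  | empty => exact fun η h => ⟨[], fun d hd => by simp [le_bot_iff.1 hd, h1.bot, h.le], by simp⟩
  | @insert p Φ _ _ ih =>
    intro η hη
    obtain ⟨L, L1, L2⟩ := ih _ (half_pos hη)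
    by_cases hp : P p.2 = 0
    · exact ⟨L, fun d hd => (L1 d hd).trans (half_le_self hη.le),
        forall_mem_insert.2 ⟨fun h => absurd hp h, L2⟩⟩
    obtain ⟨s, s1, s2⟩ := W1 h1 h2 p.1 hp (half_pos hη)
    refine ⟨(p.1, s) :: L, fun d hd => ?_, forall_mem_insert.2 ⟨fun _ h => s1 (measure_mono_null
      (inter_subset_inter_right _ fun ω k => .inl ⟨rfl, k⟩) h), fun q hq k h => L2 q hq k
      (measure_mono_null (inter_subset_inter_right _ fun ω k => .inr k) h)⟩⟩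
    rw [h1.split d (sg S p.1 s), ← add_halves η]
    exact (abs_add_le _ _).trans (add_le_add (s2 _ inf_le_right) (L1 _ (sdiff_le_iff.2 hd)))

theorem nikodym (hm : ∀ c ∈ S, Meas c)
    (H : ∀ t : Task, Hyp S (fun j => (t.1 j).1) (fun j => range fun i => (t.2 j i).1) →
      ∃ g ∈ S, Con (fun j => (t.1 j).1) (fun j => range fun i => (t.2 j i).1) g)
    {μ : ℕ → Alg S → ℝ} (h1 : ∀ m, Ad (μ m)) (h2 : ∀ m, ∃ K, ∀ a, |μ m a| ≤ K)
    (h3 : ∀ a, ∃ K, ∀ m, |μ m a| ≤ K) : NB μ ⊤ := by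
  have nb : NB μ ⊥ := ⟨0, fun m d hd => by simp [le_bot_iff.1 hd, (h1 m).bot]⟩
  have row : ∀ n, NB μ (sg S n ⊤) := fun n => by
    refine nik h1 h2 h3 _ (fun _ => ⊥) monotone_const (fun _ => nb) fun b m _ hb => ?_
    let g : Alg S := ⟨fun k => ⋃ j, (b j).1 k, mem_row (fun k => .iUnion fun j => (b j).2.1 k) n
      fun k hk => iUnion_eq_empty.2 fun j => eq_empty_of_forall_notMem fun ω h =>
        hk (hb j k h).1.1⟩
    have : ∀ i, b i \ g = ⊥ := fun i => sdiff_eq_bot_iff.2 fun k =>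
      subset_iUnion (fun j => (b j).1 k) i
    exact ⟨g, fun c hc k => iUnion_subset fun i => hc i k, fun j => ⟨j, le_rfl,
      fun i _ => .inr (this i).le, by simp [this, (h1 _).bot]⟩⟩
  let Y : ℕ → Alg S := fun j => (Finset.range j).sup fun n => sg S n ⊤
  have Y1 : ∀ j, ∀ n < j, ∀ ω, ω ∈ (Y j).1 n := fun j n h ω =>
    Finset.le_sup (f := fun n => sg S n ⊤) (Finset.mem_range.2 h) n ⟨rfl, trivial⟩
  refine nik h1 h2 h3 ⊤ Y (fun i j h => Finset.sup_mono (Finset.range_mono h)) (fun j => ?_)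
    fun b m b1 b2 => ?_
  · induction j with
    | zero => exact nb
    | succ j ih =>
      simp only [Y, Finset.range_add_one, Finset.sup_insert]
      exact (row j).sup h1 ih
  have : Countable (Clopens Ω) := Clopens.countable_iff_secondCountable.2 inferInstance
  have : ∀ j, ∃ u : ℕ → List (ℕ × Clopens Ω), {L | ∀ d ≤ U S L, |μ (m j) d| ≤ 1} = range u :=
    fun j => (to_countable _).exists_eq_range ((W2 (h1 _) (h2 _) finite_empty 1 one_pos).imp
      fun _ h => h.1)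
  choose u hu using this
  obtain ⟨g, g1, g2, g3⟩ := H (fun j => ⟨(b j).1, (b j).2.1⟩, fun j i =>
    ⟨(U S (u j i)).1, (U S (u j i)).2.1⟩) ⟨fun j => (b j).2.2,
    fun i j h => Pi.disjoint_iff.2 (dis.1 (b1 h)),
    fun j n h => eq_empty_of_forall_notMem fun ω k => (b2 j n k).2 (Y1 j n h ω), fun j Φ hΦ => by
      obtain ⟨L, L1, L2⟩ := W2 (h1 (m j)) (h2 _) hΦ 1 one_pos
      obtain ⟨i, rfl⟩ : L ∈ range (u j) := hu j ▸ L1
      exact ⟨_, ⟨i, rfl⟩, fun p hp _ => L2 p hp⟩⟩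
  refine ⟨⟨g, hm g g1, {g}, singleton_subset_iff.2 g1, finite_singleton _,
    .of_forall fun n ω ω' h => (h g rfl).1⟩, fun c hc n => (g2 n).trans
    (iUnion_subset fun i => hc i n), fun j₀ => ?_⟩
  obtain ⟨j, j1, j2, _, ⟨i, rfl⟩, j3⟩ := g3 j₀
  refine ⟨j, j1, fun i hi => (j2 i hi).imp (fun h => dis.2 (Pi.disjoint_iff.1 h))
    fun h n ω k => Y1 j n (not_le.1 fun l => k.2 (h n l k.1)) ω, ?_⟩
  exact (show u j i ∈ {L | ∀ d ≤ U S L, |μ (m j) d| ≤ 1} from hu j ▸ ⟨i, rfl⟩) _ j3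

theorem main (CH : (𝔠 : Cardinal.{0}) ≤ ℵ_ 1) : ∃ (B : Type) (_ : BooleanAlgebra B),
    (∀ μ : ℕ → B → ℝ,
      (∀ n, (∀ a b : B, Disjoint a b → μ n (a ⊔ b) = μ n a + μ n b) ∧
        ∃ K : ℝ, ∀ a, |μ n a| ≤ K) →
      (∀ a, ∃ K : ℝ, ∀ n, |μ n a| ≤ K) →
      ∃ K : ℝ, ∀ n a, |μ n a| ≤ K) ∧
    ∃ D : ℕ → Set B, Monotone D ∧ (∀ a, ∃ n, a ∈ D n) ∧
      ∀ n, ∃ μ : ℕ → B → ℝ,
        (∀ k, (∀ a b : B, Disjoint a b → μ k (a ⊔ b) = μ k a + μ k b) ∧
          ∃ K : ℝ, ∀ a, |μ k a| ≤ K) ∧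
        (∀ a ∈ D n, ∃ K : ℝ, ∀ k, |μ k a| ≤ K) ∧
        ¬ ∃ K : ℝ, ∀ k a, |μ k a| ≤ K := by
  obtain ⟨S, h1, h2, h3⟩ := gen CH
  refine ⟨Alg S, inferInstance, fun μ a b => (nikodym h1 h3 (fun m => (a m).1) (fun m => (a m).2)
    b).imp fun K h n a => h n a le_top, fun n => {a | ∀ m ≥ n, Bal (a.1 m)},
    fun i j h a k m l => k m (h.trans l), fun ⟨a, _, T, a1, a2, a3⟩ => eventually_atTop.1
    ((a3.and (h2 T a1 a2)).mono fun n h => h.2 _ h.1), fun n => ?_⟩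
  let s : ℕ → Clopens Ω := fun k => ⟨{ω | ω k = 0},
    (isClopen_discrete ({0} : Set (ZMod 2))).preimage (continuous_apply k)⟩
  have s1 : ∀ k, 0 < cf (((sg S n (s k)).1 n).indicator 1) k := fun k => by
    have : cf (((sg S n (s k)).1 n).indicator 1) k = ∫ ω, (s k : Set Ω).indicator 1 ω ∂P :=
      integral_congr_ae (.of_forall fun ω => by
        by_cases h : ω k = 0
        · have a : ω ∈ (sg S n (s k)).1 n := ⟨rfl, h⟩
          have b : ω ∈ (s k : Set Ω) := h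
          simp [r, h, a, b]
        · have a : ω ∉ (sg S n (s k)).1 n := fun e => h e.2
          have b : ω ∉ (s k : Set Ω) := h
          simp [a, b])
    rw [this, integral_indicator_one (s k).isOpen.measurableSet]
    exact ENNReal.toReal_pos ((s k).isOpen.measure_ne_zero P ⟨0, rfl⟩) (measure_ne_top _ _)
  refine ⟨fun k a => k / cf (((sg S n (s (2 * k))).1 n).indicator 1) (2 * k) *
    cf ((a.1 n).indicator 1) (2 * k), fun k => ⟨fun a b h => ?_,
    |k / cf (((sg S n (s (2 * k))).1 n).indicator 1) (2 * k)|, fun a => ?_⟩, fun a h => ?_, ?_⟩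
  · rw [← mul_add, ← cf_union (a.2.1 n) (b.2.1 n) (dis.1 h n)]; rfl
  · rw [abs_mul]
    refine mul_le_of_le_one_right (abs_nonneg _) ?_
    simpa [cf] using norm_integral_le_of_norm_le_const (μ := P) (C := 1)
      (f := fun ω => (a.1 n).indicator 1 ω * r (2 * k) ω)
      (.of_forall ((ind_bm (a.2.1 n)).mul_r (2 * k)).2)
  · obtain ⟨K, hK⟩ := (tendsto_const_nhds.congr' (f₂ := fun k : ℕ =>
      |k / cf (((sg S n (s (2 * k))).1 n).indicator 1) (2 * k) * cf ((a.1 n).indicator 1) (2 * k)|)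
      (f₁ := fun _ => 0) ((h n le_rfl).mono fun k h => by simp [h])).bddAbove_range
    exact ⟨K, fun k => hK ⟨k, rfl⟩⟩
  · rintro ⟨K, hK⟩
    obtain ⟨k, hk⟩ := exists_nat_gt K
    have := hK k (sg S n (s (2 * k)))
    simp only [div_mul_cancel₀ _ (s1 _).ne', Nat.abs_cast] at this
    exact hk.not_ge this

theorem ch (h : ∃ A : Ordinal.{0} → Set Ordinal.{0}, (∀ α, A α ⊆ Set.Iio α) ∧
    ∀ X : Set Ordinal.{0}, X ⊆ Set.Iio (Cardinal.aleph 1).ord →
      ∀ C : Set Ordinal.{0}, C ⊆ Set.Iio (Cardinal.aleph 1).ord →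
        (∀ β < (Cardinal.aleph 1).ord, ∃ γ ∈ C, β ≤ γ) →
        (∀ γ < (Cardinal.aleph 1).ord, 0 < γ →
          (∀ β < γ, ∃ δ ∈ C, β < δ ∧ δ < γ) → γ ∈ C) →
        ∃ α ∈ C, X ∩ Set.Iio α = A α) : (𝔠 : Cardinal.{0}) ≤ ℵ_ 1 := by
  obtain ⟨A, -, h⟩ := h
  have w : Ordinal.omega0 < (Cardinal.aleph 1).ord := by simp
  have : ∀ X : Set ℕ, ∃ t : T1, (Nat.cast '' X : Set Ordinal.{0}) = A (τ t) := fun X => by
    obtain ⟨α, a1, a2⟩ := h (Nat.cast '' X) (image_subset_iff.2 fun n _ =>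
      (Ordinal.natCast_lt_omega0 n).trans w) (Ico Ordinal.omega0 (Cardinal.aleph 1).ord)
      (fun _ h => h.2) (fun β hβ => ⟨max β Ordinal.omega0, ⟨le_max_right _ _, max_lt hβ w⟩,
        le_max_left _ _⟩) fun γ h1 h2 h3 => by
        obtain ⟨δ, d1, -, d2⟩ := h3 0 h2
        exact ⟨d1.1.trans d2.le, h1⟩
    obtain ⟨t, rfl⟩ := τ_surj (o := α) (by simpa using a1.2)
    exact ⟨t, (inter_eq_left.2 (image_subset_iff.2 fun n _ =>
      (Ordinal.natCast_lt_omega0 n).trans_le a1.1)).symm.trans a2⟩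
  choose t ht using this
  have := mk_le_of_injective (f := t) fun X Y e => Nat.cast_injective.image_injective
    ((ht X).trans (e ▸ (ht Y).symm))
  simpa using this

end Pool.Agent.H33.NikE
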