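import Mathlib
import Pool.Agent.H33.Spl1

/-!
A free filter on the natural numbers that is neither poor nor conglomerated.
-/

open Set Filter PiNat Cardinal

namespace Pool.Agent.H33.NonPoor

open Pool.Agent.H33.GrothEx Pool.Agent.H33.NoEmb Pool.Agent.H33.Spl1

theorem avoid {I : Type} (hI : #I < 𝔠) (V : I → Ultrafilter ℕ) {D : ℕ → Set ℕ}
    (h2 : ∀ m n, m ≠ n → Disjoint (D m) (D n)) (h1 : ∀ i n, D n ∉ V i) :
    ∃ M : Set ℕ, M.Infinite ∧ ∀ i, (⋃ n ∈ M, D n) ∉ V i := by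
  let e : (ℕ → ℕ) → ℕ → ℕ := fun x n => Encodable.encode (res x n)
  have h4 : ∀ x y m n, e x m = e y n → m = n ∧ res x n = res y n := fun x y m n h => by
    have h4 := Encodable.encode_injective h
    obtain rfl : m = n := by simpa using congrArg List.length h4
    exact ⟨rfl, h4⟩
  by_contra h
  push Not at h
  choose j hj using fun x => h _ (infinite_range_of_injective (f := e x)
    fun m n h => (h4 _ _ _ _ h).1)
  refine hI.not_ge (le_trans (by simp) (mk_le_of_injective (f := j) fun x y hxy => ?_))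
  by_contra hne
  obtain ⟨i, hi⟩ := Function.ne_iff.1 hne
  obtain ⟨k, hk, hk'⟩ := (V (j y)).nonempty_of_mem (inter_mem ((biInter_mem (finite_Iic i)).2
    fun n _ => Ultrafilter.compl_mem_iff_notMem.2 (h1 _ (e x n))) (inter_mem (hxy ▸ hj x) (hj y)))
  obtain ⟨_, ⟨m, rfl⟩, a⟩ := mem_iUnion₂.1 hk'.1
  obtain ⟨_, ⟨n, rfl⟩, b⟩ := mem_iUnion₂.1 hk'.2
  obtain ⟨rfl, c⟩ := h4 _ _ _ _ (by_contra fun h => disjoint_left.1 (h2 _ _ h) a b)
  exact mem_iInter₂.1 hk m (not_lt.1 fun h => hi (res_eq_res.1 c h)) a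

theorem avoid' {I : Type} [Countable I] (V : I → Ultrafilter ℕ) (W : Ultrafilter ℕ) {D : ℕ → Set ℕ}
    (h2 : ∀ m n, m ≠ n → Disjoint (D m) (D n)) (h1 : ∀ i n, D n ∉ V i) :
    ∃ M : Set ℕ, M.Infinite ∧ (⋃ n ∈ M, D n) ∉ W ∧ ∀ i, (⋃ n ∈ M, D n) ∉ V i := by
  by_cases h : ∃ k, D k ∈ W
  · obtain ⟨k, hk⟩ := h
    obtain ⟨M, h3, h4⟩ := avoid (mk_le_aleph0.trans_lt aleph0_lt_continuum) V h2 h1
    refine ⟨M \ {k}, h3.sdiff (finite_singleton k), fun h => ?_, fun i h => h4 i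
      (mem_of_superset h (biUnion_subset_biUnion_left sdiff_subset))⟩
    obtain ⟨x, a, b⟩ := W.nonempty_of_mem (inter_mem h hk)
    obtain ⟨n, hn, a⟩ := mem_iUnion₂.1 a
    exact disjoint_left.1 (h2 n k hn.2) a b
  · obtain ⟨M, h3, h4⟩ := avoid (mk_le_aleph0.trans_lt aleph0_lt_continuum)
      (fun o : Option I => o.elim W V) h2 (by
        rintro (_ | i) n
        exacts [fun h' => h ⟨n, h'⟩, h1 i n])
    exact ⟨M, h3, h4 none, fun i => h4 (some i)⟩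

/-- the filter at stage `δ` -/
def Fi (f : T1 → Ultrafilter ℕ × Set ℕ × Set ℕ) (s : Set T1) : Filter ℕ :=
  cofinite ⊓ ⨅ β ∈ s, 𝓟 ((f β).2.1 ∪ (f β).2.2)ᶜ

theorem Fi.mem {f : T1 → Ultrafilter ℕ × Set ℕ × Set ℕ} {s : Set T1} {β : T1} (h : β ∈ s) :
    ((f β).2.1 ∪ (f β).2.2)ᶜ ∈ Fi f s :=
  mem_inf_of_right (mem_iInf_of_mem β (mem_iInf_of_mem h (mem_principal_self _)))

/-- one step -/
def Step (D : ℕ → Set ℕ) (f : T1 → Ultrafilter ℕ × Set ℕ × Set ℕ) (δ : T1)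
    (x : Ultrafilter ℕ × Set ℕ × Set ℕ) : Prop :=
  x.1.toFilter ≤ Fi f (Iio δ) ∧ x.2.1 ∈ x.1 ∧ (Fi f (Iio δ) ⊓ 𝓟 (x.2.1 ∪ x.2.2)ᶜ).NeBot ∧
    (∀ B, Bᶜ ∈ Fi f (Iio δ) → (x.2.1 ∩ B).Finite) ∧
    ((∀ m n, m ≠ n → Disjoint (D m) (D n)) → (∀ n, D n ∉ x.1) → (∀ β < δ, ∀ n, D n ∉ (f β).1) →
      ∃ M : Set ℕ, M.Infinite ∧ x.2.2 = ⋃ n ∈ M, D n ∧ x.2.2 ∉ x.1 ∧ ∀ β < δ, x.2.2 ∉ (f β).1)

theorem step (D : ℕ → Set ℕ) (f : T1 → Ultrafilter ℕ × Set ℕ × Set ℕ) (δ : T1)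
    (h : (Fi f (Iio δ)).NeBot) : ∃ x, Step D f δ x := by
  have := (T1_iio δ).to_subtype
  have : (Fi f (Iio δ)).IsCountablyGenerated := by
    rw [Fi, Nat.cofinite_eq_atTop, iInf_subtype']
    infer_instance
  obtain ⟨x, hx⟩ := (Fi f (Iio δ)).exists_seq_tendsto
  rw [← Nat.cofinite_eq_atTop] at hx
  obtain ⟨φ, -, hφ⟩ : ∃ φ : ℕ → ℕ, StrictMono φ ∧ (x ∘ φ).Injective := by
    obtain ⟨φ, a, b⟩ := strictMono_subseq_of_tendsto_atTop (u := x) (by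
      simpa only [← Nat.cofinite_eq_atTop] using hx.mono_right inf_le_left)
    exact ⟨φ, a, b.injective⟩
  have h1 : Tendsto (x ∘ φ) cofinite (Fi f (Iio δ)) := hx.comp hφ.of_comp.tendsto_cofinite
  have h2 : ∀ g : ℕ → ℕ, g.Injective →
      ((hyperfilter ℕ).map (x ∘ φ ∘ g)).toFilter ≤ Fi f (Iio δ) := fun g hg =>
    (h1.comp hg.tendsto_cofinite).mono_left hyperfilter_le_cofinite
  have h3 : (fun n : ℕ => 2 * n).Injective := fun a b h => by simpa using h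
  have h4 : (fun n : ℕ => 2 * n + 1).Injective := fun a b h => by simpa using h
  have h5 : ∀ X, X ∉ (hyperfilter ℕ).map (x ∘ φ ∘ fun n => 2 * n + 1) →
      (Fi f (Iio δ) ⊓ 𝓟 (range (x ∘ φ ∘ fun n => 2 * n) ∪ X)ᶜ).NeBot := fun X hX =>
    NeBot.mono inferInstance (le_inf (h2 _ h4) (le_principal_iff.2 (by
      rw [compl_union]
      refine inter_mem (Filter.mem_map.2 (univ_mem' ?_)) (Ultrafilter.compl_mem_iff_notMem.2 hX)
      rintro n ⟨m, h⟩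
      have : 2 * m = 2 * n + 1 := hφ h
      omega)))
  have h6 : ∀ B, Bᶜ ∈ Fi f (Iio δ) → (range (x ∘ φ ∘ fun n => 2 * n) ∩ B).Finite := fun B hB =>
    ((mem_cofinite.1 ((h1.comp h3.tendsto_cofinite) hB)).image _).subset (by
      rintro _ ⟨⟨n, rfl⟩, h⟩
      exact mem_image_of_mem _ fun h' => h' h)
  by_cases h7 : (∀ m n, m ≠ n → Disjoint (D m) (D n)) ∧ (∀ n, D n ∉ (hyperfilter ℕ).map
    (x ∘ φ ∘ fun n => 2 * n)) ∧ ∀ β < δ, ∀ n, D n ∉ (f β).1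
  · obtain ⟨M, a, b, c⟩ := avoid' (fun o : Option (Iio δ) => o.elim ((hyperfilter ℕ).map
      (x ∘ φ ∘ fun n => 2 * n)) fun β => (f β).1) _ h7.1 (by
        rintro (_ | i) n
        exacts [h7.2.1 n, h7.2.2 i i.2 n])
    exact ⟨(_, _, _), h2 _ h3, range_mem_map, h5 _ b, h6, fun _ _ _ =>
      ⟨M, a, rfl, c none, fun β hβ => c (some ⟨β, hβ⟩)⟩⟩
  · exact ⟨(_, _, ∅), h2 _ h3, range_mem_map, h5 _ Ultrafilter.empty_notMem, h6,
      fun a b c => absurd ⟨a, b, c⟩ h7⟩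

theorem build (D : T1 → ℕ → Set ℕ) : ∃ f, ∀ δ, Step (D δ) f δ (f δ) := by
  obtain ⟨f, hf⟩ := exists_rec (T := T1) (pure 0, ∅, ∅)
    (fun δ f => Classical.epsilon (Step (D δ) f δ)) fun δ f f' h => by
      have h1 : Fi f (Iio δ) = Fi f' (Iio δ) := by
        rw [Fi, Fi, iInf_congr fun β => iInf_congr fun hβ => by rw [h β hβ]]
      congr 1
      funext x
      simp +contextual only [Step, h1, h]
  refine ⟨f, fun δ => ?_⟩
  induction δ using WellFoundedLT.induction with | _ δ ih => ?_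
  rw [hf δ]
  refine Classical.epsilon_spec (step _ _ _ ?_)
  rcases (Iio δ).eq_empty_or_nonempty with h | h
  · simpa [Fi, h] using cofinite_neBot
  have := h.to_subtype
  have h1 : Antitone (Fi f) := fun s t h => inf_le_inf_left _ (biInf_mono h)
  refine (iInf_neBot_of_directed' (f := fun β : Iio δ => Fi f (Iic β))
    (Antitone.directed_ge fun a b h => h1 (Iic_subset_Iic.2 h)) fun β => ?_).mono
    (le_inf (iInf_le_of_le ⟨_, h.some_mem⟩ inf_le_left) (le_iInf₂ fun β hβ => iInf_le_of_le ⟨β, hβ⟩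
      (le_principal_iff.2 (Fi.mem (mem_Iic.2 le_rfl)))))
  refine (ih β β.2).2.2.1.mono (le_inf (inf_le_left.trans inf_le_left) (le_iInf₂ fun γ hγ => ?_))
  rcases (mem_Iic.1 hγ).lt_or_eq with h | rfl
  exacts [inf_le_left.trans (le_principal_iff.2 (Fi.mem h)), inf_le_right]

theorem main : ∃ F : Filter ℕ, ∅ ∉ F ∧ F ≤ cofinite ∧
    (∃ A : T1 → Set ℕ, (∀ γ, (A γ)ᶜ ∉ F) ∧ ∀ γ δ, γ ≠ δ → (A γ ∩ A δ)ᶜ ∈ F) ∧
    ∀ D : ℕ → Set ℕ, (∀ m n, m ≠ n → Disjoint (D m) (D n)) → (∀ n, (D n)ᶜ ∈ F) →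
      ∃ M : Set ℕ, M.Infinite ∧ (⋃ n ∈ M, D n)ᶜ ∈ F := by
  obtain ⟨D, hD⟩ : ∃ D : T1 → ℕ → Set ℕ, (𝔠 : Cardinal.{0}) ≤ ℵ_ 1 → D.Surjective := by
    by_cases h : (𝔠 : Cardinal.{0}) ≤ ℵ_ 1
    · obtain ⟨e⟩ : Nonempty ((ℕ → Set ℕ) ↪ T1) := (Cardinal.le_def _ _).1 (by simpa using h)
      exact ⟨_, fun _ => Function.invFun_surjective e.injective⟩
    · exact ⟨fun _ _ => ∅, fun h' => absurd h' h⟩
  obtain ⟨f, hf⟩ := build D
  have h1 : ∀ δ, (f δ).1.toFilter ≤ cofinite := fun δ => (hf δ).1.trans inf_le_left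
  have h2 : ∀ A, Aᶜ ∈ ⨆ δ, (f δ).1.toFilter ↔ ∀ δ, A ∉ (f δ).1 := fun A =>
    mem_iSup.trans (forall_congr' fun δ => Ultrafilter.compl_mem_iff_notMem)
  refine ⟨⨆ δ, (f δ).1.toFilter, fun h => Ultrafilter.empty_notMem (mem_iSup.1 h (Classical.arbitrary _)),
    iSup_le h1, ⟨fun δ => (f δ).2.1, fun γ h => (h2 _).1 h γ (hf γ).2.1, fun γ δ h => ?_⟩,
    fun E h3 h4 => ?_⟩
  · wlog h3 : γ < δ generalizing γ δ
    · exact inter_comm _ _ ▸ this δ γ h.symm ((not_lt.1 h3).lt_of_ne h.symm)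
    exact iSup_le h1 (((hf δ).2.2.2.1 _ (mem_of_superset (Fi.mem h3)
      (compl_subset_compl.2 subset_union_left))).subset (inter_comm _ _).subset).compl_mem_cofinite
  simp only [h2] at h4 ⊢
  rcases le_or_gt (𝔠 : Cardinal.{0}) (ℵ_ 1) with h | h
  · obtain ⟨δ, rfl⟩ := hD h E
    obtain ⟨M, a, b, c, d⟩ := (hf δ).2.2.2.2 h3 (fun n => h4 n δ) fun β _ n => h4 n β
    refine ⟨M, a, fun γ => b ▸ ?_⟩
    rcases lt_trichotomy γ δ with h | rfl | h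
    exacts [d γ h, c, Ultrafilter.compl_mem_iff_notMem.1 (mem_of_superset ((hf γ).1 (Fi.mem h))
      (compl_subset_compl.2 subset_union_right))]
  · exact avoid (mk_T1.trans_lt h) _ h3 fun i n => h4 n i

end Pool.Agent.H33.NonPoor
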