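import Pool.Agent.H33.WF4

/-! Under diamond: an Ostaszewski-type space with a free involution; the recursion. -/

open Set Filter Topology Pool.Agent.H33.WF1 Pool.Agent.H33.DiaDefs Pool.Agent.H33.WF3

namespace Pool.Agent.H33.OS1

/-- the underlying set -/
abbrev L : Type := W × Bool

/-- sheet changes -/
def fl (b : Bool) (x : L) : L := (x.1, xor b x.2)

theorem fl_fl (a b : Bool) (x : L) : fl a (fl b x) = fl (xor a b) x := by
  simp [fl]

theorem im (b : Bool) (S : Set L) : Prod.fst '' (fl b ⁻¹' S) = Prod.fst '' S := by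
  ext z
  exact ⟨fun ⟨x, h, e⟩ => ⟨_, h, e⟩, fun ⟨x, h, e⟩ => ⟨fl b x, by simpa [fl] using h, e⟩⟩

/-- the conditions on the point `t` -/
structure G (A : W → Set W) (t : W) (g : Iio t → ℕ → Set L) (d : ℕ → Set L) : Prop where
  e : ∃ P : ℕ → Set L, (∀ n, d n = insert (t, false) (⋃ k ≥ n, P k)) ∧
    (∀ k, P k = ∅ ∨ ∃ (y : Iio t) (m : ℕ) (b : Bool), P k = fl b ⁻¹' g y m) ∧
    (Unc (fun y => Prod.fst '' g y 0) (A t) → ∀ k, ∃ y ∈ A t, (y, decide (k % 2 = 0)) ∈ P k)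
  le : ∀ x ∈ d 0, x.1 ≤ t
  inj : ∀ z, (z, false) ∈ d 0 → (z, true) ∉ d 0
  c1 : ∀ (z : Iio t) n, z.1 ∉ Prod.fst '' d n →
    ∀ᶠ j in atTop, Disjoint (Prod.fst '' g z j) (Prod.fst '' d n)
  c2 : ∀ y : Iio t, ∀ᶠ j in atTop, Disjoint (Prod.fst '' d j) (Prod.fst '' g y 0)
  os : ∀ γ ≤ t, Unc (fun y => Prod.fst '' g y 0) (A γ) →
    Unc (fun y => Prod.fst '' g y 0) (A γ \ Prod.fst '' d 0)

variable {A : W → Set W} {f : W → ℕ → Set L}

theorem G.an {t : W} {g : Iio t → ℕ → Set L} {d : ℕ → Set L} (h : G A t g d) : Antitone d :=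
  let ⟨_, e, _⟩ := h.e; anti e

theorem G.mem {t : W} {g : Iio t → ℕ → Set L} {d : ℕ → Set L} (h : G A t g d) (n : ℕ) :
    (t, false) ∈ d n := by
  obtain ⟨_, e, _⟩ := h.e
  rw [e]; exact mem_insert _ _

theorem cl {y z : W} (hy : G A y (fun u => f u) (f y)) (hz : G A z (fun u => f u) (f z)) (n : ℕ)
    (h : z ∉ Prod.fst '' f y n) :
    ∀ᶠ j in atTop, Disjoint (Prod.fst '' f z j) (Prod.fst '' f y n) := by
  rcases lt_trichotomy z y with h' | rfl | h'
  · exact hy.c1 ⟨z, h'⟩ n h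
  · exact absurd ⟨_, hy.mem n, rfl⟩ h
  · exact (hz.c2 ⟨y, h'⟩).mono fun j hj => hj.mono_right (image_mono (hy.an (Nat.zero_le n)))

theorem step (hA : ∀ t, A t ⊆ Iio t) (t : W) (H : ∀ s < t, G A s (fun u => f u) (f s)) :
    ∃ d, G A t (fun u => f u) d := by
  classical
  have := (cnt t).to_subtype
  obtain ⟨u, hu⟩ := ((cnt t).insert t).exists_eq_range (insert_nonempty _ _)
  let V : Iio t → ℕ → Set W := fun y m => Prod.fst '' f y m
  have an : ∀ y, Antitone (V y) := fun y _ _ h => image_mono ((H y y.2).an h)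
  have vl : ∀ y m, ∀ z ∈ V y m, z < t := by
    rintro y m _ ⟨x, hx, rfl⟩
    exact ((H y y.2).le x ((H y y.2).an (Nat.zero_le m) hx)).trans_lt y.2
  obtain ⟨Q, q1, q2, q3, q4⟩ := core V (↑) an (fun y n => ⟨_, (H y y.2).mem n, rfl⟩)
    (fun z y => cl (H y y.2) (H z z.2) 0)
    (fun i => if i % 2 = 0 then A (u (i / 2).unpair.1) else A t) fun i z hz => by
      split_ifs at hz
      · exact ⟨⟨z, (mem_Iio.1 (hA _ hz)).trans_le
          (le_of_eq_or_lt (hu.ge (mem_range_self _)))⟩, rfl⟩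
      · exact ⟨⟨z, hA _ hz⟩, rfl⟩
  have od : ∀ k, (if (2 * k + 1) % 2 = 0 then A (u ((2 * k + 1) / 2).unpair.1) else A t) = A t :=
    fun k => if_neg (by omega)
  have ev : ∀ k, (if (2 * k) % 2 = 0 then A (u ((2 * k) / 2).unpair.1) else A t) =
      A (u k.unpair.1) :=
    fun k => by rw [if_pos (by omega), show (2 * k) / 2 = k by omega]
  have q5 : ∀ i, ∀ z ∈ Q i, z < t := fun i => by
    rcases q2 i with h | ⟨y, m, -, h⟩ <;> rw [h]
    · exact fun _ h => h.elim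
    · exact vl y m
  have : ∀ k, ∃ P : Set L, Prod.fst '' P = Q (2 * k + 1) ∧ (P = ∅ ∨ ∃ (y : Iio t) (m : ℕ),
      y.1 ∈ A t ∧ P = fl (decide (k % 2 = 0)) ⁻¹' f y m) := fun k => by
    rcases q2 (2 * k + 1) with h | ⟨y, m, h1, h⟩
    · exact ⟨∅, by rw [h, image_empty], Or.inl rfl⟩
    · exact ⟨_, by rw [im, h], Or.inr ⟨y, m, od k ▸ h1, rfl⟩⟩
  choose P p1 p2 using this
  have pe : ∀ n, Prod.fst '' insert (t, false) (⋃ k ≥ n, P k) =
      insert t (⋃ k ≥ n, Q (2 * k + 1)) := fun n => by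
    simp only [image_insert_eq, image_iUnion, p1]
  refine ⟨fun n => insert (t, false) (⋃ k ≥ n, P k), ⟨P, fun _ => rfl, fun k => ?_, fun h k => ?_⟩,
    fun x hx => ?_, fun z h1 h2 => ?_, fun z n hz => ?_, fun y => ?_, fun γ hγ h2 => ?_⟩
  · exact (p2 k).imp_right fun ⟨y, m, _, h⟩ => ⟨y, m, _, h⟩
  · rcases p2 k with e | ⟨y, m, h1, e⟩
    · have := q4 (2 * k + 1) (by rwa [od])
      rw [← p1, e, image_empty, empty_inter] at this
      exact absurd this not_nonempty_empty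
    · exact ⟨y, h1, by rw [e]; simpa [fl] using (H y y.2).mem m⟩
  · rcases (pe 0).le ⟨x, hx, rfl⟩ with e | e
    · exact e.le
    · obtain ⟨k, -, e⟩ := mem_iUnion₂.1 e
      exact (q5 _ _ e).le
  · obtain ⟨k, -, h2⟩ := mem_iUnion₂.1 (h2.resolve_left fun e => by simp at e)
    have h3 := (p1 k).le ⟨_, h2, rfl⟩
    obtain ⟨k', -, h1⟩ := mem_iUnion₂.1 (h1.resolve_left fun e =>
      (q5 _ _ h3).ne (Prod.ext_iff.1 e).1)
    obtain rfl : k = k' := by_contra fun e =>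
      disjoint_left.1 (q1 _ _ (by omega)) h3 ((p1 k').le ⟨_, h1, rfl⟩)
    rcases p2 k with e | ⟨y, m, -, e⟩ <;> rw [e] at h1 h2
    · exact h1
    · have a := (H y y.2).an (Nat.zero_le m) h1
      have b := (H y y.2).an (Nat.zero_le m) h2
      revert a b
      cases decide (k % 2 = 0)
      · exact (H y y.2).inj z
      · exact fun a b => (H y y.2).inj z b a
  · rw [pe] at hz ⊢
    obtain ⟨N, hN⟩ := q3 z
    have : ∀ k ∈ Ico n N, ∀ᶠ j in atTop, Disjoint (V z j) (Q (2 * k + 1)) := fun k hk => by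
      rcases q2 (2 * k + 1) with h | ⟨y, m, -, h⟩
      · simp [h]
      · rw [h]
        exact cl (H y y.2) (H z z.2) m fun h' => hz (Or.inr (mem_iUnion₂.2 ⟨k, hk.1, h ▸ h'⟩))
    filter_upwards [(eventually_all_finite (finite_Ico n N)).2 this] with j hj
    refine disjoint_insert_right.2 ⟨fun e => lt_irrefl _ (vl z j t e),
      disjoint_iUnion₂_right.2 fun k hk => ?_⟩
    by_cases h : k < N
    · exact hj k ⟨hk, h⟩
    · exact (hN _ (by omega)).symm.mono_left (an z (Nat.zero_le j))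
  · obtain ⟨N, hN⟩ := q3 y
    filter_upwards [eventually_ge_atTop N] with j hj
    rw [pe]
    exact disjoint_insert_left.2 ⟨fun e => lt_irrefl _ (vl y 0 t e),
      disjoint_iUnion₂_left.2 fun k hk => hN _ (by omega)⟩
  obtain ⟨i, hi⟩ := hu.le (show γ ∈ insert t (Iio t) from hγ.eq_or_lt)
  rw [pe]
  intro s hs hsub
  obtain ⟨N, hN⟩ := eventually_atTop.1 ((eventually_all_finite hs).2 fun y _ =>
    eventually_atTop.2 (q3 y))
  have := q4 (2 * Nat.pair i N)
  rw [ev, Nat.unpair_pair, hi] at this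
  obtain ⟨z, a, b⟩ := this h2
  obtain ⟨y, hy, hz⟩ := mem_iUnion₂.1 (hsub ⟨b, fun h => by
    obtain ⟨k, -, hk⟩ := mem_iUnion₂.1 (h.resolve_left (ne_of_lt (q5 _ _ a)))
    exact disjoint_left.1 (q1 _ _ (by omega)) a hk⟩)
  have := Nat.right_le_pair i N
  exact disjoint_left.1 (hN _ (by omega) y hy) a hz

theorem build (hA : ∀ t, A t ⊆ Iio t) :
    ∃ f : W → ℕ → Set L, ∀ t, G A t (fun u => f u) (f t) :=
  HG2.rec_e id (fun t f d => G A t (fun u => f u) d)
    (fun t f g x h hx => by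
      rwa [show (fun u : Iio t => g u) = fun u : Iio t => f u from funext fun u => (h u u.2).symm])
    fun t _ H => step hA t H

end Pool.Agent.H33.OS1
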