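import Pool.Agent.H33.OS1

/-! Under diamond: an Ostaszewski-type space with a free involution. -/

open Set Filter Topology Pool.Agent.H33.WF1 Pool.Agent.H33.DiaDefs Pool.Agent.H33.WF3
  Pool.Agent.H33.WF4 Pool.Agent.H33.OS1

namespace Pool.Agent.H33.OS2

theorem space (hD : Diamond) : ∃ (_ : TopologicalSpace L) (V : L → Set L),
    T2Space L ∧ FirstCountableTopology L ∧ Continuous (fl true) ∧
    (∀ x, x ∈ V x ∧ IsOpen (V x) ∧ IsCompact (V x) ∧ ∀ y ∈ V x, fl true y ∉ V x) ∧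
    (∀ B : Set L, B.Countable → (∃ K, IsCompact K ∧ B ⊆ K) ∨
      ∀ β, ∃ p : L, β < p.1 ∧ p ∈ closure B ∧ fl true p ∈ closure B) ∧
    ∀ B : Set L, ¬ B.Countable → ∃ C ⊆ B, C.Countable ∧ ∀ K, IsCompact K → ¬ C ⊆ K := by
  obtain ⟨A₀, hA₀⟩ := hD
  let A : W → Set W := fun t => A₀ t ∩ Iio t
  have hA : ∀ (X : Set W) (g : W → W) δ, ∃ α, X ∩ Iio α = A α ∧ δ < α ∧ ∀ i < α, g i < α :=
    fun X g δ => by
      have := unc
      obtain ⟨α, a, b⟩ := hA₀ X (DT1.club cnt g δ)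
      exact ⟨α, by simp only [A, ← show X ∩ Iio α = A₀ α from a, inter_assoc, inter_self], b⟩
  obtain ⟨f, H⟩ := build (A := A) fun _ => inter_subset_right
  have := unc
  choose P e pc tr using fun x => (H x).e
  let N : L → ℕ → Set L := fun x n => fl x.2 ⁻¹' f x.1 n
  have an : ∀ x, Antitone (N x) := fun x _ _ h => preimage_mono ((H x.1).an h)
  have mem : ∀ x n, x ∈ N x n := fun x n => by simpa [N, fl] using (H x.1).mem n
  have e' : ∀ x n, N x n = insert x (⋃ k ≥ n, fl x.2 ⁻¹' P x.1 k) := fun x n => by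
    ext w
    simp only [N, e, mem_preimage, mem_insert_iff, mem_iUnion]
    refine or_congr_left ?_
    obtain ⟨a, b⟩ := x
    obtain ⟨c, d⟩ := w
    cases b <;> cases d <;> simp [fl]
  let τ := wtop N an
  have hT : ∀ U : Set L, IsOpen U ↔ ∀ x ∈ U, ∃ n, N x n ⊆ U := fun _ => Iff.rfl
  have hv := vs (r := fun y x : L => y.1 < x.1) (InvImage.wf Prod.fst wellFounded_lt) e'
    (fun x k => (pc x.1 k).imp (fun h => by rw [h]; rfl) fun ⟨y, m, b, h⟩ =>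
      ⟨(y, xor b x.2), m, y.2, by rw [h]; ext w; simp only [N, mem_preimage, fl_fl]⟩) hT
  have pN : ∀ x n, ∀ w ∈ N x n, w.1 ∈ Prod.fst '' f x.1 n := fun x n w hw => ⟨_, hw, rfl⟩
  have inj : ∀ x, ∀ y ∈ N x 0, fl true y ∉ N x 0 := by
    rintro ⟨t, b⟩ ⟨z, c⟩ h1 h2
    have := (H t).inj z
    cases b <;> cases c <;> simp [N, fl] at h1 h2 <;> tauto
  have t2 : T2Space L := by
    have : ∀ x y : L, x.1 < y.1 → ∃ u v, IsOpen u ∧ IsOpen v ∧ x ∈ u ∧ y ∈ v ∧ Disjoint u v :=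
      fun x y h => by
        obtain ⟨j, hj⟩ := ((H y.1).c2 ⟨x.1, h⟩).exists
        exact ⟨_, _, (hv x 0).1, (hv y j).1, mem x 0, mem y j,
          disjoint_left.2 fun w a b => disjoint_left.1 hj (pN _ _ w b) (pN _ _ w a)⟩
    refine ⟨fun x y h => ?_⟩
    rcases lt_trichotomy x.1 y.1 with c | c | c
    · exact this x y c
    · refine ⟨_, _, (hv x 0).1, (hv y 0).1, mem x 0, mem y 0, disjoint_left.2 fun w a b => ?_⟩
      obtain ⟨t, i⟩ := x
      obtain ⟨s, j⟩ := y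
      obtain rfl : t = s := c
      refine inj _ w a ?_
      revert b
      cases i <;> cases j <;> simp [N, fl] at h ⊢
    · obtain ⟨u, v, a, b, c, d, e⟩ := this y x c
      exact ⟨v, u, b, a, d, c, e.symm⟩
  have bas : ∀ x, (𝓝 x).HasBasis (fun _ => True) (N x) := fun x => ⟨fun U => ⟨fun h => by
      obtain ⟨O, a, b, c⟩ := mem_nhds_iff.1 h
      obtain ⟨n, hn⟩ := (hT O).1 b x c
      exact ⟨n, trivial, hn.trans a⟩,
    fun ⟨n, _, h⟩ => mem_of_superset ((hv x n).1.mem_nhds (mem x n)) h⟩⟩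
  let v : W → Set W := fun y => Prod.fst '' f y 0
  have cov : ∀ (s : Set W), s.Finite → ∃ K, IsCompact K ∧ ∀ w : L, w.1 ∈ ⋃ y ∈ s, v y → w ∈ K :=
    fun s hs => ⟨_, (hs.prod (toFinite (univ : Set Bool))).isCompact_biUnion
      fun y _ => (hv y 0).2.1, fun w hw => by
        obtain ⟨y, hy, ⟨z, c⟩, h1, h2⟩ := mem_iUnion₂.1 hw
        refine mem_iUnion₂.2 ⟨(y, xor w.2 c), ⟨hy, trivial⟩, ?_⟩
        obtain ⟨w, d⟩ := w
        obtain rfl : z = w := h2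
        cases c <;> cases d <;> simpa [N, fl] using h1⟩
  have sp : ∀ (B : Set L) (p : Set W → Prop), (∀ b, p {z | (z, b) ∈ B}) ∨
      ∃ b, ¬ p {z | (z, b) ∈ B} := fun B p => (em _).imp_right not_forall.1
  refine ⟨τ, fun x => N x 0, t2, ⟨fun x => (bas x).isCountablyGenerated⟩,
    continuous_def.2 fun U hU => (hT _).2 fun x hx => ?_,
    fun x => ⟨mem x 0, (hv x 0).1, (hv x 0).2.1, inj x⟩, fun B hB => ?_, fun B hB => ?_⟩
  · obtain ⟨n, hn⟩ := (hT U).1 hU _ hx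
    refine ⟨n, fun w hw => hn ?_⟩
    simpa [N, fl] using hw
  · rcases sp B fun S => ∃ s : Set W, s.Finite ∧ S ⊆ ⋃ y ∈ s, v y with h | ⟨b, h⟩
    · choose s s1 s2 using h
      choose K k1 k2 using fun b => cov _ (s1 b)
      exact Or.inl ⟨_, isCompact_iUnion k1, fun w hw => mem_iUnion.2 ⟨w.2, k2 _ w (s2 _ hw)⟩⟩
    refine Or.inr fun β => ?_
    obtain ⟨γ, hγ⟩ := DT1.bd cnt _ ((hB.image Prod.fst).insert β)
    obtain ⟨δ, h1, h2, -⟩ := hA {z | (z, b) ∈ B} id γ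
    rw [inter_eq_left.2 (show {z | (z, b) ∈ B} ⊆ Iio δ from fun z hz =>
      mem_Iio.2 ((hγ z (Or.inr ⟨(z, b), hz, rfl⟩)).trans h2))] at h1
    have h3 := tr δ ((uiff v _ _).2 fun s hs _ hs' => h ⟨s, hs, h1 ▸ hs'⟩)
    have h4 : ∀ c, (δ, c) ∈ closure B := fun c => (mem_closure_iff_nhds_basis (bas _)).2 fun n _ => by
      obtain ⟨k, k1, k2⟩ : ∃ k ≥ n, decide (k % 2 = 0) = xor c b := by
        cases xor c b
        · exact ⟨2 * n + 1, by omega, by simp⟩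
        · exact ⟨2 * n, by omega, by simp⟩
      obtain ⟨y, y1, y2⟩ := h3 k
      rw [← h1] at y1
      rw [e']
      exact ⟨(y, b), y1, Or.inr (mem_iUnion₂.2 ⟨k, k1, by rw [k2] at y2; exact y2⟩)⟩
    exact ⟨(δ, false), (hγ β (Or.inl rfl)).trans h2, h4 _, h4 _⟩
  obtain ⟨b, hc⟩ := (sp B Set.Countable).resolve_left fun h => hB (by
    refine (countable_iUnion fun b => (h b).image fun z => (z, b)).mono fun w hw => ?_
    exact mem_iUnion.2 ⟨w.2, w.1, hw, rfl⟩)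
  have : ∀ β, ∃ x, (x, b) ∈ B ∧ β < x := fun β => by
    by_contra h
    push Not at h
    exact hc (((cnt β).insert β).mono fun x hx => (h x hx).eq_or_lt)
  choose g g1 g2 using this
  obtain ⟨δ⟩ : Nonempty W := inferInstance
  obtain ⟨γ, a, b1, b2⟩ := hA {z | (z, b) ∈ B} g δ
  have le : ∀ y, ∀ z ∈ v y, z ≤ y := by rintro y _ ⟨x, hx, rfl⟩; exact (H y).le x hx
  have h0 : ∀ s : Set W, s.Finite → s ⊆ Iio γ → ¬ A γ ⊆ ⋃ y ∈ s, v y := fun s hs hγ h => by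
    obtain ⟨β, h1, h2⟩ := exists_max_image (insert δ s) id (hs.insert δ) (insert_nonempty _ _)
    obtain ⟨y, c, d⟩ := mem_iUnion₂.1
      (h (a.le ⟨g1 β, b2 β (mem_Iio.1 (insert_subset (mem_Iio.2 b1) hγ h1))⟩))
    exact not_le.2 (g2 β) ((le y _ d).trans (h2 y (Or.inr c)))
  have h1 : ∀ α ≥ γ, Unc (fun y : Iio α => v y) (A γ) := fun α => by
    induction α using WellFoundedLT.induction with
    | _ α ih =>
    refine fun _ => (uiff v _ _).2 fun s hs hα h => ?_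
    by_cases h' : s ⊆ Iio γ
    · exact h0 s hs h' h
    obtain ⟨y, c, d⟩ := not_subset.1 h'
    obtain ⟨β, h1, h2⟩ := exists_max_image s id hs ⟨y, c⟩
    have hβ : γ ≤ β := (not_lt.1 d).trans (h2 y c)
    refine (uiff v _ _).1 ((H β).os γ hβ (ih β (hα h1) hβ)) (s \ {β}) (hs.subset sdiff_subset)
      (fun z hz => mem_Iio.2 (lt_of_le_of_ne (h2 z hz.1) hz.2)) fun z hz => ?_
    obtain ⟨w, c, d⟩ := mem_iUnion₂.1 (h hz.1)
    exact mem_iUnion₂.2 ⟨w, ⟨c, fun e => hz.2 (e ▸ d)⟩, d⟩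
  refine ⟨(fun z => (z, b)) '' A γ, by rintro _ ⟨z, hz, rfl⟩; exact (a.ge hz).1,
    ((cnt γ).mono inter_subset_right).image _, fun K hK h => ?_⟩
  obtain ⟨s, -, hs⟩ := hK.elim_nhds_subcover (fun x => N x 0)
    fun x _ => (hv x 0).1.mem_nhds (mem x 0)
  have h2 := s.finite_toSet.image Prod.fst
  obtain ⟨β, hβ⟩ := DT1.bd cnt _ (h2.countable.insert γ)
  refine (uiff v _ _).1 (h1 β (hβ γ (Or.inl rfl)).le) _ h2 (fun z hz => hβ z (Or.inr hz))
    fun z hz => ?_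
  obtain ⟨x, x1, x2⟩ := mem_iUnion₂.1 (hs (h ⟨z, hz, rfl⟩))
  exact mem_iUnion₂.2 ⟨x.1, ⟨x, x1, rfl⟩, pN _ _ _ x2⟩

end Pool.Agent.H33.OS2
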