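import Pool.Agent.H33.OS2
import Pool.Agent.H33.KW2

/-! Properties of the one-point compactification of the symmetric Ostaszewski-type space. -/

open Set Filter Topology OnePoint Pool.Agent.H33.DiaDefs Pool.Agent.H33.OS1 Pool.Agent.H33.KW1

namespace Pool.Agent.H33.OS3

variable [TopologicalSpace L] [T2Space L]
  (k1 : ∀ B : Set L, B.Countable → (∃ K, IsCompact K ∧ B ⊆ K) ∨
    ∀ β, ∃ p : L, β < p.1 ∧ p ∈ closure B ∧ fl true p ∈ closure B)
  (k2 : ∀ B : Set L, ¬ B.Countable → ∃ C ⊆ B, C.Countable ∧ ∀ K, IsCompact K → ¬ C ⊆ K)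

include k1 in
theorem k3 {B : Set L} (hB : B.Countable) : (∃ K, IsCompact K ∧ B ⊆ K) ∨ ∃ p ∈ closure B, p ∉ B :=
  (k1 B hB).imp_right fun h => by
    have := unc
    obtain ⟨β, hβ⟩ := DT1.bd cnt _ (hB.image Prod.fst)
    obtain ⟨p, a, b, -⟩ := h β
    exact ⟨p, b, fun e => lt_asymm a (hβ _ ⟨p, e, rfl⟩)⟩

include k1 in
theorem cc (x : ℕ → L) : ∃ p, MapClusterPt p atTop x := by
  rcases k3 k1 (countable_range x) with ⟨K, a, b⟩ | ⟨p, a, b⟩
  · obtain ⟨p, -, h⟩ := a.exists_mapClusterPt (f := atTop) (u := x)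
      (le_principal_iff.2 (mem_map.2 (Eventually.of_forall fun n => b ⟨n, rfl⟩)))
    exact ⟨p, h⟩
  · refine ⟨p, mapClusterPt_iff_frequently.2 fun s hs => frequently_atTop.2 fun N => ?_⟩
    obtain ⟨_, ⟨h1, h2⟩, n, rfl⟩ := mem_closure_iff_nhds.1 a _ (inter_mem hs
      (((finite_Iio N).image x).isClosed.isOpen_compl.mem_nhds fun ⟨n, _, h⟩ => b ⟨n, h⟩))
    exact ⟨n, not_lt.1 fun h => h2 ⟨n, h, rfl⟩, h1⟩

include k2 in
theorem ct [FirstCountableTopology L] : Ct (univ : Set (OnePoint L)) := by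
  intro A _ H
  have h1 : IsClosed ((↑) ⁻¹' A : Set L) := IsSeqClosed.isClosed fun u x hu hx =>
    H _ (range_subset_iff.2 hu) (countable_range fun n => (u n : OnePoint L))
      (mem_closure_of_tendsto ((continuous_coe.tendsto x).comp hx)
        (Eventually.of_forall fun n => ⟨n, rfl⟩))
  by_cases h : ∞ ∈ A
  · exact (isClosed_iff_of_mem h).2 h1
  by_cases hc : ((↑) ⁻¹' A : Set L).Countable
  · refine isClosed_of_closure_subset (H A subset_rfl ((hc.image (↑)).mono fun x hx => ?_))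
    induction x with
    | infty => exact absurd hx h
    | coe y => exact ⟨y, hx, rfl⟩
  obtain ⟨C, c1, c2, c3⟩ := k2 _ hc
  refine absurd (H _ (image_subset_iff.2 c1) (c2.image _)
    ((mem_closure_iff_nhds_basis hasBasis_nhds_infty).2 fun K hK => ?_)) h
  obtain ⟨y, y1, y2⟩ := not_subset.1 (c3 K hK.2)
  exact ⟨y, ⟨y, y1, rfl⟩, Or.inl ⟨y, y2, rfl⟩⟩

include k1 k2 in
theorem sc {H : Type} [Group H] [TopologicalSpace H] [IsTopologicalGroup H] {f : L → H}
    (hf : Continuous f) (h : ∀ x, f (fl true x) / f x = f x) :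
    Tendsto f (coclosedCompact L) (𝓝 1) := by
  intro U₀ hU₀
  obtain ⟨U, hU1, hU, h1⟩ := mem_nhds_iff.1 hU₀
  have hA : IsClosed (f ⁻¹' Uᶜ) := hU.isClosed_compl.preimage hf
  refine mem_of_superset (IsCompact.compl_mem_coclosedCompact_of_isClosed ?_ hA)
    fun x hx => hU1 (not_not.1 hx)
  by_cases hc : (f ⁻¹' Uᶜ).Countable
  · rcases k3 k1 hc with ⟨K, a, b⟩ | ⟨p, a, b⟩
    · exact a.of_isClosed_subset hA b
    · exact absurd (hA.closure_subset a) b
  obtain ⟨Z, z1, z2, z3⟩ := exists_mem_nhds_isClosed_subset (hU.mem_nhds h1)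
  obtain ⟨V, v1, v2⟩ := exists_nhds_split_inv z1
  obtain ⟨V', v3, v4⟩ := exists_nhds_split_inv v1
  obtain ⟨c, h2⟩ : ∃ c, ¬ {x ∈ f ⁻¹' Uᶜ | f x / c ∈ V}.Countable := by
    by_contra h2
    push Not at h2
    obtain ⟨x, -, hx⟩ := exists_seq_of_forall_finset_exists (fun _ : L => True)
      (fun a b => f b / f a ∉ V) fun s _ => by
        obtain ⟨y, y1, y2⟩ := not_subset.1 fun e =>
          hc ((s.countable_toSet.biUnion fun a _ => h2 (f a)).mono e)
        exact ⟨y, trivial, fun a ha e => y2 (mem_biUnion ha ⟨y1, e⟩)⟩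
    obtain ⟨p, hp⟩ := cc k1 x
    have h3 := mapClusterPt_iff_frequently.1 hp {y | f y / f p ∈ V'}
      ((hf.div_const (f p)).continuousAt.preimage_mem_nhds (by rwa [div_self']))
    obtain ⟨m, hm⟩ := h3.exists
    obtain ⟨n, hn, hn'⟩ := frequently_atTop.1 h3 (m + 1)
    exact hx m n hn (div_div_div_cancel_right (f (x n)) (f (x m)) (f p) ▸ v4 _ hn' _ hm)
  obtain ⟨C, c1, c2, c3⟩ := k2 _ h2
  have := unc
  obtain ⟨p, -, p1, p2⟩ := (k1 C c2).resolve_left (fun ⟨K, a, b⟩ => c3 K a b) (Classical.arbitrary W)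
  have h3 : closure (C ×ˢ C) ⊆ (fun q : L × L => f q.1 / f q.2) ⁻¹' Z :=
    closure_minimal (fun q hq => by
      show f q.1 / f q.2 ∈ Z
      exact div_div_div_cancel_right (f q.1) (f q.2) c ▸ v2 _ (c1 hq.1).2 _ (c1 hq.2).2)
      (z2.preimage ((hf.comp continuous_fst).div' (hf.comp continuous_snd)))
  have h4 : f (fl true p) / f p ∈ Z := h3 (a := (fl true p, p)) (closure_prod_eq.ge ⟨p2, p1⟩)
  exact absurd (z3 (h p ▸ h4)) (closure_minimal (fun x hx => (c1 hx).1) hA p1)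

end Pool.Agent.H33.OS3
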