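import Pool.Agent.H33.SCP1

/-! Under Martin's axiom, non-metrizable perfectly normal compacta of small weight have an
uncountable family of pairs converging to the diagonal. -/

open Set Filter Topology Cardinal TopologicalSpace Pool.Agent.H33.DiaDefs Pool.Agent.H33.SCP1

namespace Pool.Agent.H33.PFC1

theorem root {A : Set (Finset W)} (hu : ¬ A.Countable) :
    ∃ r : Finset W, ∀ γ, ∃ p ∈ A, r ⊆ p ∧ (p \ r).Nonempty ∧ ∀ α ∈ p \ r, γ < α := by
  classical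
  obtain ⟨n, hn⟩ : ∃ n, ¬ {p ∈ A | p.card = n ∧ ∅ ⊆ p}.Countable := not_forall.1 fun e =>
    hu ((countable_iUnion e).mono fun p hp => mem_iUnion.2 ⟨p.card, by
      exact ⟨hp, rfl, by simp⟩⟩)
  obtain ⟨r, r1, r2⟩ := (InvImage.wf (fun r : Finset W => n - r.card) wellFounded_lt).has_min
    {r | ¬ {p ∈ A | p.card = n ∧ r ⊆ p}.Countable} ⟨∅, hn⟩
  have k : ∀ α, {p ∈ A | (p.card = n ∧ r ⊆ p) ∧ α ∈ p ∧ α ∉ r}.Countable := fun α =>
    not_not.1 fun e => by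
      obtain ⟨p, -, p1, p2, p3⟩ := (eq_empty_or_nonempty _).resolve_left
        fun c => e (countable_empty.mono c.le)
      refine r2 (insert α r) (fun c => e (c.mono fun q hq => ?_)) ?_
      · exact ⟨hq.1, hq.2.1.1, Finset.insert_subset hq.2.2.1 hq.2.1.2⟩
      · have := Finset.card_le_card (Finset.insert_subset p2 p1.2)
        simp only [InvImage, Finset.card_insert_of_notMem p3] at this ⊢
        omega
  refine ⟨r, fun γ => ?_⟩
  by_contra e
  push Not at e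
  refine r1 (((((cnt γ).insert γ).biUnion fun α _ => k α).insert r).mono fun p hp => ?_)
  rcases (p \ r).eq_empty_or_nonempty with c | c
  · exact Or.inl ((Finset.sdiff_eq_empty_iff_subset.1 c).antisymm hp.2.2)
  · obtain ⟨α, a1, a2⟩ := e p hp.1 hp.2.2 c
    exact Or.inr (mem_biUnion (x := α) a2.eq_or_lt ⟨hp.1, hp.2, Finset.mem_sdiff.1 a1⟩)

theorem comb {κ : Cardinal.{0}} (h : MAk κ) (hκ : ℵ_ 1 ≤ κ) {ι : Type} (hι : #ι ≤ κ)
    (S : ι → Set W) (hS : ∀ i, (S i).Countable)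
    (H : ∀ (C : Set W) (q : W → Finset W) (k : W → Finset ι), (∀ δ, (q δ).Nonempty ∧
      ∀ a ∈ q δ, δ < a) → (∀ δ ∈ C, ∀ δ' ∈ C, δ < δ' → ∃ a ∈ q δ, ∃ i ∈ k δ', a ∈ S i) →
        C.Countable) : ∃ B : Set W, ¬ B.Countable ∧ ∀ i, (B ∩ S i).Finite := by
  classical
  have := unc
  let Q := {p : Finset W × Finset (ι × Finset W) //
    ∀ α ∈ p.1, ∀ t ∈ p.2, α ∈ S t.1 → α ∈ t.2}ᵒᵈ
  have : Nonempty Q := ⟨⟨(∅, ∅), by simp⟩⟩
  obtain ⟨G, -, g2, g3⟩ := h Q (fun A hA => not_not.1 fun hu => by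
      have cp : ∀ p ∈ A, ∀ q ∈ A, (∀ α ∈ p.1.1, ∀ t ∈ q.1.2, α ∈ S t.1 → α ∈ t.2) →
          (∀ α ∈ q.1.1, ∀ t ∈ p.1.2, α ∈ S t.1 → α ∈ t.2) → p = q := fun p a q b c d =>
        not_not.1 fun e => hA a b e ⟨⟨(p.1.1 ∪ q.1.1, p.1.2 ∪ q.1.2), fun α u t v =>
          (Finset.mem_union.1 u).elim (fun u => (Finset.mem_union.1 v).elim (p.2 α u t) (c α u t))
            fun u => (Finset.mem_union.1 v).elim (d α u t) (q.2 α u t)⟩,
          ⟨Finset.subset_union_left, Finset.subset_union_left⟩,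
          Finset.subset_union_right, Finset.subset_union_right⟩
      obtain ⟨r, hr⟩ := root (A := (fun p : Q => p.1.1) '' A) fun c => hu
        (countable_of_injective_of_countable_image (fun p a q b e => cp p a q b
          (fun α u => q.2 α ((show p.1.1 = q.1.1 from e) ▸ u))
          fun α u => p.2 α ((show p.1.1 = q.1.1 from e) ▸ u)) c)
      simp only [exists_mem_image] at hr
      choose p p1 p2 p3 p4 using hr
      choose g hg using fun γ => DT1.bd cnt _ ((p γ).1.1.countable_toSet.union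
        ((p γ).1.2.countable_toSet.biUnion fun t _ => hS t.1))
      refine clubU g (H _ (fun δ => (p δ).1.1 \ r) (fun δ => (p δ).1.2.image Prod.fst)
        (fun δ => ⟨p3 δ, p4 δ⟩) fun δ _ δ' b c => not_not.1 fun e => ?_)
      have k : p δ = p δ' := cp _ (p1 δ) _ (p1 δ') (fun α u t v w => not_not.1 fun z => e ⟨α,
        Finset.mem_sdiff.2 ⟨u, fun y => z ((p δ').2 α (p2 _ y) t v w)⟩, t.1,
          Finset.mem_image_of_mem _ v, w⟩) fun α u t v w => not_not.1 fun z => lt_asymm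
            (p4 δ' α (Finset.mem_sdiff.2 ⟨u, fun y => z ((p δ).2 α (p2 _ y) t v w)⟩))
            ((hg δ α (Or.inr (mem_biUnion v w))).trans (b δ c))
      obtain ⟨a, ha⟩ := p3 δ'
      exact lt_asymm (p4 δ' a ha) ((hg δ a (Or.inl (k ▸ (Finset.mem_sdiff.1 ha).1))).trans (b δ c)))
    (range (fun γ => {p : Q | ∃ α ∈ p.1.1, γ ≤ α}) ∪ range fun i => {p : Q | ∃ e, (i, e) ∈ p.1.2})
    ((mk_union_le _ _).trans ((add_le_add (mk_range_le.trans (mk_W.trans_le hκ))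
      (mk_range_le.trans hι)).trans_eq (add_eq_self (aleph0_lt_aleph_one.le.trans hκ)))) (by
      rintro _ (⟨γ, rfl⟩ | ⟨i, rfl⟩) p
      · obtain ⟨α, a⟩ := DT1.bd cnt _ ((p.1.2.countable_toSet.biUnion fun t _ => hS t.1).insert γ)
        refine ⟨⟨(insert α p.1.1, p.1.2), fun β u t v w => (Finset.mem_insert.1 u).elim
          (fun e => absurd (a β (Or.inr (mem_biUnion v w))) (e ▸ lt_irrefl _))
          fun u => p.2 β u t v w⟩, ⟨α, Finset.mem_insert_self _ _, (a γ (Or.inl rfl)).le⟩,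
          Finset.subset_insert _ _, subset_rfl⟩
      · refine ⟨⟨(p.1.1, insert (i, p.1.1) p.1.2), fun β u t v w => (Finset.mem_insert.1 v).elim
          (fun e => e ▸ u) fun v => p.2 β u t v w⟩, ⟨_, Finset.mem_insert_self _ _⟩,
          subset_rfl, Finset.subset_insert _ _⟩)
  refine ⟨⋃ p ∈ G, (p.1.1 : Set W), unb fun γ => ?_, fun i => ?_⟩
  · obtain ⟨p, p1, α, p2⟩ := g3 _ (Or.inl ⟨γ, rfl⟩)
    exact ⟨α, mem_biUnion p1 p2.1, p2.2⟩
  · obtain ⟨p, p1, e, p2⟩ := g3 _ (Or.inr ⟨i, rfl⟩)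
    refine e.finite_toSet.subset fun α a => ?_
    obtain ⟨q, q1, q2⟩ := mem_iUnion₂.1 a.1
    obtain ⟨r, -, r1, r2⟩ := g2 p p1 q q1
    exact r.2 α (r2.1 q2) _ (r1.2 p2) a.2

variable {X : Type} [TopologicalSpace X] [CompactSpace X] [T2Space X]

theorem fc (h : ∀ x : X, IsGδ {x}) : FirstCountableTopology X := by
  refine ⟨fun x => ?_⟩
  obtain ⟨U, u1, u2⟩ := isGδ_iff_eq_iInter_nat.1 (h x)
  choose V v1 v2 v3 using fun n => exists_mem_nhds_isClosed_subset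
    ((u1 n).mem_nhds (mem_iInter.1 (u2.le rfl) n))
  refine HasCountableBasis.isCountablyGenerated (p := fun _ => True)
    (s := fun n : ℕ => ⋂ m ∈ Iic n, V m) ⟨⟨fun N => ⟨fun hN => ?_, fun ⟨n, _, a⟩ => mem_of_superset
      ((biInter_mem (finite_Iic n)).2 fun m _ => v1 m) a⟩⟩, to_countable _⟩
  obtain ⟨n, a⟩ := exists_subset_nhds_of_compactSpace (V := fun n : ℕ => ⋂ m ∈ Iic n, V m)
    (directed_of_isDirected_le fun a b c => biInter_subset_biInter_left (Iic_subset_Iic.2 c))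
    (fun n => isClosed_biInter fun m _ => v2 m) (U := N) fun y hy => by
      have : y = x := u2.ge (mem_iInter.2 fun n => v3 n
        (mem_iInter₂.1 (mem_iInter.1 hy n) n self_mem_Iic))
      rwa [this]
  exact ⟨n, trivial, a⟩

theorem pairs [HereditarilyLindelofSpace X] [FirstCountableTopology X]
    (hm : ¬ MetrizableSpace X) : ∃ z : W → X × X, (∀ α, (z α).1 ≠ (z α).2) ∧
      ∀ U V : Set X, IsClosed U → IsClosed V → Disjoint U V → (z ⁻¹' U ×ˢ V).Countable := by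
  have := unc
  have sep : ∀ J : Set (Set X × Set X), J.Countable → ∃ z : X × X, z.1 ≠ z.2 ∧ ∀ t ∈ J,
      Disjoint (closure t.1) (closure t.2) → z ∉ t.1 ×ˢ t.2 := fun J hJ => by
    by_contra e
    push Not at e
    have := hJ.to_subtype
    choose! g g0 g1 _ using fun (t : Set X × Set X) (d : Disjoint (closure t.1) (closure t.2)) =>
      exists_continuous_zero_one_of_isClosed isClosed_closure isClosed_closure d
    refine hm (Continuous.isClosedEmbedding (f := fun x (t : J) => g t x)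
      (continuous_pi fun t => (g t).continuous) fun x y a => not_not.1 fun b => ?_
        ).isEmbedding.metrizableSpace
    obtain ⟨t, t1, t2, t3⟩ := e (x, y) b
    have := congrFun a ⟨t, t1⟩
    simp only [g0 t t2 (subset_closure t3.1), g1 t t2 (subset_closure t3.2)] at this
    simp at this
  choose b hb using fun x : X => (𝓝 x).exists_antitone_basis
  let E : X × X → Set (Set X) := fun w => range (b w.1) ∪ range (b w.2)
  have : Nonempty (X × X) := (sep ∅ countable_empty).elim fun z _ => ⟨z⟩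
  obtain ⟨z, hz⟩ := HG2.rec_e (T := W) (α := X × X) id (fun t f w => w.1 ≠ w.2 ∧
      ∀ u ∈ ⋃ s ∈ f '' Iio t, E s, ∀ v ∈ ⋃ s ∈ f '' Iio t, E s,
        Disjoint (closure u) (closure v) → w ∉ u ×ˢ v)
    (fun t f g x a c => ⟨c.1, image_congr (fun s c => a s c : ∀ s ∈ Iio t, f s = g s) ▸ c.2⟩)
    fun t f _ => by
      have c : (⋃ s ∈ f '' Iio t, E s).Countable := ((cnt t).image f).biUnion fun s _ =>
        (countable_range _).union (countable_range _)
      obtain ⟨w, w1, w2⟩ := sep _ (c.prod c)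
      exact ⟨w, w1, fun u a v d => w2 (u, v) ⟨a, d⟩⟩
  refine ⟨z, fun α => (hz α).1, fun U V hU hV d => ?_⟩
  obtain ⟨U', V', a1, a2, a3, a4, a5⟩ := SeparatedNhds.of_isCompact_isCompact_isClosed
    hU.isCompact hV.isCompact hV d
  obtain ⟨U₁, b1, b2, b3⟩ := normal_exists_closure_subset hU a1 a3
  obtain ⟨V₁, c1, c2, c3⟩ := normal_exists_closure_subset hV a2 a4
  have k : ∀ (π : W → X) (O : Set X), IsOpen O → ∃ β, ∀ α, π α ∈ O →
      ∃ s < β, ∃ n, π α ∈ b (π s) n ∧ b (π s) n ⊆ O := fun π O hO => by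
    choose! n hn using fun (α : W) (a : π α ∈ O) => (hb (π α)).mem_iff.1 (hO.mem_nhds a)
    obtain ⟨t, t1, t2⟩ := eq_open_union_countable
      (fun α : π ⁻¹' O => interior (b (π α) (n α))) fun _ => isOpen_interior
    obtain ⟨β, hβ⟩ := DT1.bd cnt _ (t1.image Subtype.val)
    refine ⟨β, fun α a => ?_⟩
    obtain ⟨s, s1, s2⟩ := mem_iUnion₂.1 (t2.ge (mem_iUnion.2 ⟨⟨α, a⟩,
      mem_interior_iff_mem_nhds.2 ((hb _).mem _)⟩))
    exact ⟨s, hβ _ ⟨s, s1, rfl⟩, _, interior_subset s2, hn _ s.2⟩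
  obtain ⟨β, h1⟩ := k (fun α => (z α).1) U₁ b1
  obtain ⟨γ, h2⟩ := k (fun α => (z α).2) V₁ c1
  refine (cnt (max β γ)).mono fun α a => mem_Iio.2 (not_le.1 fun e => ?_)
  obtain ⟨s, s1, n, s2, s3⟩ := h1 α (b2 a.1)
  obtain ⟨t, t1, m, t2, t3⟩ := h2 α (c2 a.2)
  exact (hz α).2 _ (mem_biUnion (mem_image_of_mem z (s1.trans_le ((le_max_left _ _).trans e)))
    (Or.inl ⟨n, rfl⟩)) _ (mem_biUnion (mem_image_of_mem z (t1.trans_le ((le_max_right _ _).trans e)))
      (Or.inr ⟨m, rfl⟩)) (a5.mono ((closure_mono s3).trans b3) ((closure_mono t3).trans c3)) ⟨s2, t2⟩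

theorem anti [FirstCountableTopology X] {z : W → X × X}
    (hz : ∀ U V : Set X, IsClosed U → IsClosed V → Disjoint U V → (z ⁻¹' U ×ˢ V).Countable)
    (C : Set W) (q : W → Finset W) (K : W → Set (X × X)) (hK : ∀ δ, IsClosed (K δ) ∧
      ∀ w ∈ K δ, w.1 ≠ w.2) (hq : ∀ δ, (q δ).Nonempty ∧ ∀ a ∈ q δ, δ < a)
    (h : ∀ δ ∈ C, ∀ δ' ∈ C, δ < δ' → ∃ a ∈ q δ, z a ∈ K δ') : C.Countable := by
  have := unc
  have : ∀ δ, ∃ (e : ℕ → W) (n : ℕ), (∀ j, δ < e j) ∧ ∀ a ∈ q δ, ∃ j ∈ Iic n, e j = a := fun δ => by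
    obtain ⟨e, he⟩ := (q δ).countable_toSet.exists_eq_range (hq δ).1
    choose! j hj using fun a (h : a ∈ q δ) => he.le h
    obtain ⟨n, hn⟩ := ((q δ).finite_toSet.image j).bddAbove
    exact ⟨e, n, fun i => (hq δ).2 _ (he.ge ⟨i, rfl⟩), fun a h => ⟨j a, hn ⟨a, h, rfl⟩, hj a h⟩⟩
  choose e n e1 e2 using this
  refine (countable_iUnion fun m => (?_ : {δ ∈ C | n δ = m}.Countable)).mono
    fun δ a => mem_iUnion.2 ⟨n δ, by exact ⟨a, rfl⟩⟩
  by_contra hu
  have ub : ∀ β, ∃ δ ∈ {δ ∈ C | n δ = m}, β ≤ δ := fun β => not_not.1 fun c =>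
    hu ((cnt β).mono fun δ a => not_le.1 fun d => c ⟨δ, a, d⟩)
  have : (atTop ⊓ 𝓟 {δ ∈ C | n δ = m}).NeBot := frequently_mem_iff_neBot.1
    (frequently_atTop.2 fun β => (ub β).imp fun _ a => ⟨a.2, a.1⟩)
  obtain ⟨𝒰, h𝒰⟩ := Ultrafilter.exists_le (atTop ⊓ 𝓟 {δ ∈ C | n δ = m})
  obtain ⟨w, -, hw⟩ := isCompact_univ.ultrafilter_le_nhds (𝒰.map fun δ j => z (e δ j)) (by simp)
  have d : ∀ j, (w j).1 = (w j).2 := fun j => not_not.1 fun c => by
    obtain ⟨U₁, -, V₁, a1, U₂, -, V₂, a2, a3, a4, -, -, a5, a6, a7⟩ := disjoint_nested_nhds c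
    obtain ⟨β, hβ⟩ := DT1.bd cnt _ (hz _ _ a3 a4 (a7.mono a5 a6))
    obtain ⟨δ, d1, d2⟩ := 𝒰.nonempty_of_mem (inter_mem (((continuous_apply j).tendsto w).comp hw
      (prod_mem_nhds a1 a2)) (h𝒰 (mem_inf_of_left (mem_atTop β))))
    exact lt_asymm (hβ _ d1) (lt_of_le_of_lt d2 (e1 δ j))
  obtain ⟨s, s1, s2⟩ := mem_closure_iff_seq_limit.1 (mem_closure_of_tendsto hw (s :=
    (fun δ j => z (e δ j)) '' {δ ∈ C | n δ = m}) (mem_of_superset (h𝒰 (mem_inf_of_right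
      (mem_principal_self _))) fun δ a => mem_image_of_mem _ a))
  choose t t1 t2 using s1
  obtain ⟨β, hβ⟩ := DT1.bd cnt _ (countable_range t)
  obtain ⟨δ, d1, d2⟩ := ub β
  obtain ⟨j, -, hj⟩ := mem_iUnion₂.1 (((finite_Iic m).isClosed_biUnion fun j _ =>
    (hK δ).1.preimage (continuous_apply j)).mem_of_tendsto s2 (Eventually.of_forall fun i => by
      obtain ⟨a, a1, a2⟩ := h _ (t1 i).1 δ d1.1 ((hβ _ ⟨i, rfl⟩).trans_le d2)
      obtain ⟨j, j1, rfl⟩ := e2 _ a a1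
      exact mem_biUnion ((t1 i).2 ▸ j1) (by rw [← t2 i]; exact a2)))
  exact (hK δ).2 _ hj (d j)

end Pool.Agent.H33.PFC1
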