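import Mathlib
import Pool.Agent.H33.SubMeta

/-!
Bases of point-finite rank in ccc regular spaces.
-/

set_option autoImplicit false
open Set Topology TopologicalSpace Filter

namespace Pool.Agent.H33.PFRank

variable {X : Type}

/-- Antichains of members of `ℬ` between `x` and `R` have at most `n` elements. -/
def Wd (ℬ : Set (Set X)) (x : X) (R : Set X) (n : ℕ) : Prop :=
  ∀ 𝒜 : Finset (Set X), (∀ A ∈ 𝒜, A ∈ ℬ ∧ x ∈ A ∧ A ⊆ R) →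
    IsAntichain (· ⊆ ·) (𝒜 : Set (Set X)) → 𝒜.card ≤ n

/-- Every finite subset of `U` is inside a member of `𝒟` contained in `U`. -/
def Ap (𝒟 : Set (Set X)) (U : Set X) : Prop :=
  ∀ F : Set X, F.Finite → F ⊆ U → ∃ D ∈ 𝒟, F ⊆ D ∧ D ⊆ U

theorem Ap.avoid {𝒟 : Set (Set X)} {U : Set X} (h : Ap 𝒟 U) {z : X} (hz : z ∈ U)
    {ℰ : Set (Set X)} (hf : ℰ.Finite) (hE : ∀ E ∈ ℰ, ¬ U ⊆ E) :
    ∃ D ∈ 𝒟, z ∈ D ∧ D ⊆ U ∧ ∀ E ∈ ℰ, ¬ D ⊆ E := by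
  have : ∀ E : ℰ, ∃ p, p ∈ U ∧ p ∉ E.1 := fun E => not_subset.1 (hE E.1 E.2)
  choose p hp1 hp2 using this
  have := hf.to_subtype
  obtain ⟨D, hD, h1, h2⟩ := h (insert z (range p)) ((finite_range p).insert z)
    (insert_subset hz (range_subset_iff.2 hp1))
  exact ⟨D, hD, h1 (mem_insert _ _), h2, fun E hE' hs =>
    hp2 ⟨E, hE'⟩ (hs (h1 (mem_insert_of_mem _ ⟨⟨E, hE'⟩, rfl⟩)))⟩

theorem ap_chain {𝒟 c : Set (Set X)} (hc : c ⊆ 𝒟) (hch : IsChain (· ⊆ ·) c) (hne : c.Nonempty) :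
    Ap 𝒟 (⋃₀ c) := by
  intro F hF hFU
  have : ∃ D ∈ c, F ⊆ D := by
    induction F, hF using Set.Finite.induction_on with
    | empty => obtain ⟨D, hD⟩ := hne; exact ⟨D, hD, empty_subset _⟩
    | @insert a s _ _ ih =>
      obtain ⟨D, hD, hs⟩ := ih ((subset_insert _ _).trans hFU)
      obtain ⟨E, hE, ha⟩ := hFU (mem_insert a s)
      rcases hch.total hD hE with h | h
      · exact ⟨E, hE, insert_subset ha (hs.trans h)⟩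
      · exact ⟨D, hD, insert_subset (h ha) hs⟩
  obtain ⟨D, hD, h⟩ := this
  exact ⟨D, hc hD, h, subset_sUnion_of_mem hD⟩

theorem wd_ap {ℬ : Set (Set X)} {x : X} {n : ℕ} (h : Wd ℬ x univ n) :
    Wd {U | Ap ℬ U} x univ n := by
  classical
  intro 𝒜 h1 h2
  have : ∀ U : 𝒜, ∃ D ∈ ℬ, x ∈ D ∧ D ⊆ U.1 ∧ ∀ E ∈ (𝒜 : Set (Set X)) \ {U.1}, ¬ D ⊆ E :=
    fun U => Ap.avoid (h1 U.1 U.2).1 (h1 U.1 U.2).2.1 (𝒜.finite_toSet.subset sdiff_subset)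
      (fun E hE => h2 U.2 hE.1 (fun e => hE.2 e.symm))
  choose C c1 c2 c3 c4 using this
  have key : ∀ U V : 𝒜, C U ⊆ C V → U = V := by
    intro U V hs
    by_contra hne
    exact c4 U V.1 ⟨V.2, fun e => hne (Subtype.ext e.symm)⟩ (hs.trans (c3 V))
  have hinj : Function.Injective C := fun U V e => key U V e.subset
  have := h (Finset.univ.image C) (by
    intro A hA
    obtain ⟨U, -, rfl⟩ := Finset.mem_image.1 hA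
    exact ⟨c1 U, c2 U, subset_univ _⟩) (by
    intro A hA B hB hne hs
    obtain ⟨U, -, rfl⟩ := Finset.mem_image.1 (Finset.mem_coe.1 hA)
    obtain ⟨V, -, rfl⟩ := Finset.mem_image.1 (Finset.mem_coe.1 hB)
    exact hne (by rw [key U V hs]))
  rwa [Finset.card_image_of_injective _ hinj, Finset.card_univ, Fintype.card_coe] at this

theorem anti_finite {ℬ : Set (Set X)} {x : X} {n : ℕ} (h : Wd ℬ x univ n) {𝒜 : Set (Set X)}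
    (h1 : 𝒜 ⊆ ℬ) (h2 : IsAntichain (· ⊆ ·) 𝒜) : {A ∈ 𝒜 | x ∈ A}.Finite := by
  by_contra hi
  obtain ⟨s, hs, hc⟩ := Set.Infinite.exists_subset_card_eq hi (n + 1)
  have := h s (fun A hA => ⟨h1 (hs hA).1, (hs hA).2, subset_univ _⟩)
    (h2.subset fun A hA => (hs hA).1)
  omega

theorem build {𝒟 : Set (Set X)} {z : X} (k : ℕ) : ∀ (𝒮 : Finset (Set X)), 𝒮.card = k →
    (∀ U ∈ 𝒮, z ∈ U ∧ Ap 𝒟 U ∧ ∀ D ∈ 𝒟, ¬ U ⊆ D) → ∀ ℰ : Set (Set X), ℰ.Finite → ℰ ⊆ 𝒟 →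
    ∃ 𝒜 : Finset (Set X), 𝒜.card = k ∧ IsAntichain (· ⊆ ·) (𝒜 : Set (Set X)) ∧
      ∀ A ∈ 𝒜, A ∈ 𝒟 ∧ z ∈ A ∧ (∃ U ∈ 𝒮, A ⊆ U) ∧ ∀ E ∈ ℰ, ¬ A ⊆ E := by
  classical
  induction k with
  | zero =>
    intro 𝒮 _ _ ℰ _ _
    exact ⟨∅, rfl, by simp [IsAntichain], by simp⟩
  | succ k ih =>
    intro 𝒮 hc h ℰ hf hE
    obtain ⟨U, hU⟩ := 𝒮.exists_maximal (Finset.card_pos.1 (by omega))
    obtain ⟨C, c1, c2, c3, c4⟩ := Ap.avoid (h U hU.1).2.1 (h U hU.1).1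
      (ℰ := ℰ ∪ (𝒮.erase U : Set (Set X))) (hf.union (Finset.finite_toSet _)) (by
        rintro E (h1 | h1)
        · exact (h U hU.1).2.2 E (hE h1)
        · have h2 := Finset.mem_erase.1 (Finset.mem_coe.1 h1)
          intro hs
          exact h2.1 (Subset.antisymm (hU.2 h2.2 hs) hs))
    obtain ⟨𝒜, a1, a2, a3⟩ := ih (𝒮.erase U) (by rw [Finset.card_erase_of_mem hU.1]; omega)
      (fun V hV => h V (Finset.mem_of_mem_erase hV)) (insert C ℰ) (hf.insert C)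
      (insert_subset c1 hE)
    have hC : C ∉ 𝒜 := fun hm => (a3 C hm).2.2.2 C (mem_insert _ _) Subset.rfl
    refine ⟨insert C 𝒜, by rw [Finset.card_insert_of_notMem hC, a1], ?_, ?_⟩
    · rw [Finset.coe_insert]
      refine a2.insert ?_ ?_
      · intro B hB _
        exact (a3 B hB).2.2.2 C (mem_insert _ _)
      · intro B hB _ hs
        obtain ⟨V, hV, hBV⟩ := (a3 B hB).2.2.1
        exact c4 V (Or.inr hV) (hs.trans hBV)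
    · intro A hA
      rcases Finset.mem_insert.1 hA with rfl | hA
      · exact ⟨c1, c2, ⟨U, hU.1, c3⟩, fun E h1 => c4 E (Or.inl h1)⟩
      · obtain ⟨b1, b2, ⟨V, b3, b4⟩, b5⟩ := a3 A hA
        exact ⟨b1, b2, ⟨V, Finset.mem_of_mem_erase b3, b4⟩, fun E h1 => b5 E (Or.inr h1)⟩

theorem refine_pf [TopologicalSpace X] [T1Space X] {ℬ : Set (Set X)} (hb : IsTopologicalBasis ℬ)
    (hcl : ∀ U, Ap ℬ U → U ∈ ℬ) (hr : ∀ x, ∃ n, Wd ℬ x univ n) {𝒟 : Set (Set X)}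
    (hD : 𝒟 ⊆ ℬ) (hdown : ∀ D ∈ 𝒟, ∀ B ∈ ℬ, B ⊆ D → B ∈ 𝒟) :
    ∃ 𝒲 ⊆ 𝒟, (∀ z, {W ∈ 𝒲 | z ∈ W}.Finite) ∧ ∀ D ∈ 𝒟, ∀ z ∈ D, ∃ W ∈ 𝒲, z ∈ W := by
  set 𝒩 : Set (Set X) := {U | Ap 𝒟 U ∧ U ∉ 𝒟} with h𝒩
  have hN : ∀ U ∈ 𝒩, ∀ D ∈ 𝒟, ¬ U ⊆ D := by
    intro U hU D hD' hs
    refine hU.2 (hdown D hD' U (hcl U fun F hF hFU => ?_) hs)
    obtain ⟨E, e1, e2, e3⟩ := hU.1 F hF hFU
    exact ⟨E, hD e1, e2, e3⟩
  have hfin : ∀ z, {U ∈ 𝒩 | z ∈ U}.Finite := by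
    intro z
    obtain ⟨n, hn⟩ := hr z
    by_contra hi
    obtain ⟨s, hs, hc⟩ := Set.Infinite.exists_subset_card_eq hi (n + 1)
    obtain ⟨𝒜, a1, a2, a3⟩ := build (𝒟 := 𝒟) (z := z) (n + 1) s hc
      (fun U hU => ⟨(hs hU).2, (hs hU).1.1, hN U (hs hU).1⟩) ∅ finite_empty (empty_subset _)
    have := hn 𝒜 (fun A hA => ⟨hD (a3 A hA).1, (a3 A hA).2.1, subset_univ _⟩) a2
    omega
  let Mx : Set X → Set (Set X) := fun W => {M | Maximal (fun B => B ∈ 𝒟 ∧ B ⊆ W) M}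
  have hMx : ∀ W z, {M ∈ Mx W | z ∈ M}.Finite := by
    intro W z
    obtain ⟨n, hn⟩ := hr z
    exact anti_finite hn (fun M hM => hD hM.1.1)
      (fun A hA B hB hne hs => hne (Subset.antisymm hs (hA.2 hB.1 hs)))
  have hZ : ∀ W z, ∀ D ∈ 𝒟, z ∈ D → D ⊆ W → (∀ U ∈ 𝒩, z ∈ U → ¬ U ⊆ W) →
      ∃ M ∈ Mx W, z ∈ M := by
    intro W z D d1 d2 d3 hno
    obtain ⟨M, -, hM⟩ := zorn_subset_nonempty {B | B ∈ 𝒟 ∧ B ⊆ W ∧ z ∈ B} (by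
      intro c hc hch hne
      have h1 : ⋃₀ c ⊆ W := sUnion_subset fun B hB => (hc hB).2.1
      have h2 : z ∈ ⋃₀ c := by
        obtain ⟨B, hB⟩ := hne
        exact ⟨B, hB, (hc hB).2.2⟩
      refine ⟨⋃₀ c, ⟨?_, h1, h2⟩, fun s hs => subset_sUnion_of_mem hs⟩
      by_contra hn
      exact hno _ ⟨ap_chain (fun B hB => (hc hB).1) hch hne, hn⟩ h2 h1) D ⟨d1, d3, d2⟩
    exact ⟨M, ⟨⟨hM.1.1, hM.1.2.1⟩, fun B hB hs => hM.2 ⟨hB.1, hB.2, hs hM.1.2.2⟩ hs⟩, hM.1.2.2⟩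
  have hpt : ∀ U : 𝒩, ∃ p, ∃ B ∈ 𝒟, p ∈ B ∧ B ⊆ U.1 := by
    intro U
    obtain ⟨D, d1, -, -⟩ := U.2.1 ∅ finite_empty (empty_subset _)
    obtain ⟨p, hp, -⟩ := not_subset.1 (hN U.1 U.2 D d1)
    obtain ⟨B, b1, b2, b3⟩ := U.2.1 {p} (finite_singleton p) (singleton_subset_iff.2 hp)
    exact ⟨p, B, b1, b2 rfl, b3⟩
  choose p Bp b1 b2 b3 using hpt
  refine ⟨Mx univ ∪ ⋃ U : 𝒩, insert (Bp U) (Mx (U.1 \ {p U})), ?_, ?_, ?_⟩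
  · rintro W (h | h)
    · exact h.1.1
    · obtain ⟨U, h | h⟩ := mem_iUnion.1 h
      · rw [h]; exact b1 U
      · exact h.1.1
  · intro z
    have h1 : {U : 𝒩 | z ∈ U.1}.Finite :=
      ((hfin z).preimage (Subtype.val_injective.injOn)).subset fun U hU => ⟨U.2, hU⟩
    refine ((hMx univ z).union (h1.biUnion fun U _ =>
      (hMx (U.1 \ {p U}) z).insert (Bp U))).subset ?_
    rintro W ⟨h | h, hz⟩
    · exact Or.inl ⟨h, hz⟩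
    · obtain ⟨U, h | h⟩ := mem_iUnion.1 h
      · exact Or.inr (mem_biUnion (show z ∈ U.1 from b3 U (h ▸ hz)) (Or.inl h))
      · exact Or.inr (mem_biUnion (show z ∈ U.1 from (h.1.2 hz).1) (Or.inr ⟨h, hz⟩))
  · intro D hD' z hz
    rcases {U ∈ 𝒩 | z ∈ U}.eq_empty_or_nonempty with he | hne
    · obtain ⟨M, m1, m2⟩ := hZ univ z D hD' hz (subset_univ _) (fun U hU hzU _ =>
        (he.subset ⟨hU, hzU⟩ : U ∈ (∅ : Set (Set X))))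
      exact ⟨M, Or.inl m1, m2⟩
    · obtain ⟨U, hU⟩ := (hfin z).exists_minimal hne
      rcases Classical.em (z = p ⟨U, hU.1.1⟩) with e | e
      · exact ⟨Bp ⟨U, hU.1.1⟩, Or.inr (mem_iUnion.2 ⟨⟨U, hU.1.1⟩, Or.inl rfl⟩), by
          have := b2 ⟨U, hU.1.1⟩
          rwa [← e] at this⟩
      · obtain ⟨C, c1, c2, c3⟩ := hU.1.1.1 {z} (finite_singleton z)
          (singleton_subset_iff.2 hU.1.2)
        obtain ⟨E, e1, e2, e3⟩ := hb.exists_subset_of_mem_open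
          (show z ∈ C \ {p ⟨U, hU.1.1⟩} from ⟨c2 rfl, e⟩)
          ((hb.isOpen (hD c1)).sdiff isClosed_singleton)
        obtain ⟨M, m1, m2⟩ := hZ (U \ {p ⟨U, hU.1.1⟩}) z E
          (hdown C c1 E e1 (e3.trans sdiff_subset)) e2 (e3.trans (sdiff_subset_sdiff_left c3))
          (fun V hV hzV hs => (hs (hU.2 ⟨hV, hzV⟩ (hs.trans sdiff_subset)
            (b3 ⟨U, hU.1.1⟩ (b2 _)))).2 rfl)
        exact ⟨M, Or.inr (mem_iUnion.2 ⟨⟨U, hU.1.1⟩, Or.inr m1⟩), m2⟩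

section main
variable [TopologicalSpace X] {T : Type} [LinearOrder T]

/-- `B` lies below a large antichain below `O`, and its closure misses a point of `O`. -/
def Dn (ℬ : Set (Set X)) (n : ℕ) (O B : Set X) : Prop :=
  B ∈ ℬ ∧ (∃ 𝒜 : Finset (Set X), n < 𝒜.card ∧ IsAntichain (· ⊆ ·) (𝒜 : Set (Set X)) ∧
    ∀ A ∈ 𝒜, A ∈ ℬ ∧ B ⊆ A ∧ A ⊆ O) ∧ ¬ O ⊆ closure B

theorem Dn.sub {ℬ : Set (Set X)} {n : ℕ} {O B : Set X} (h : Dn ℬ n O B) : B ⊆ O := by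
  obtain ⟨-, ⟨𝒜, h1, -, h2⟩, -⟩ := h
  obtain ⟨A, hA⟩ := Finset.card_pos.1 (show 0 < 𝒜.card by omega)
  exact (h2 A hA).2.1.trans (h2 A hA).2.2

theorem Dn.down {ℬ : Set (Set X)} {n : ℕ} {O B C : Set X} (h : Dn ℬ n O B) (hC : C ∈ ℬ)
    (hs : C ⊆ B) : Dn ℬ n O C := by
  obtain ⟨-, ⟨𝒜, h1, h3, h2⟩, h4⟩ := h
  exact ⟨hC, ⟨𝒜, h1, h3, fun A hA => ⟨(h2 A hA).1, hs.trans (h2 A hA).2.1, (h2 A hA).2.2⟩⟩,
    fun h => h4 (h.trans (closure_mono hs))⟩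

theorem Dn.cmp {ℬ : Set (Set X)} {n : ℕ} {O B C R : Set X} {x : X} (h : Dn ℬ n O B) (hx : x ∈ B)
    (hO : O ⊆ R) (hw : Wd ℬ x R (n + 1)) (hC : C ∈ ℬ) (hxC : x ∈ C) (hCR : C ⊆ R) :
    C ⊆ O ∨ B ⊆ C := by
  classical
  obtain ⟨-, ⟨𝒜, h1, h3, h2⟩, -⟩ := h
  by_contra hn
  push Not at hn
  have hC' : C ∉ 𝒜 := fun hm => hn.1 (h2 C hm).2.2
  have := hw (insert C 𝒜) (by
    intro A hA
    rcases Finset.mem_insert.1 hA with rfl | hA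
    · exact ⟨hC, hxC, hCR⟩
    · exact ⟨(h2 A hA).1, (h2 A hA).2.1 hx, (h2 A hA).2.2.trans hO⟩) (by
    rw [Finset.coe_insert]
    refine h3.insert ?_ ?_
    · intro A hA _ hs
      exact hn.2 ((h2 A hA).2.1.trans hs)
    · intro A hA _ hs
      exact hn.1 (hs.trans (h2 A hA).2.2))
  rw [Finset.card_insert_of_notMem hC'] at this
  omega

theorem exists_dn [T3Space X] {ℬ : Set (Set X)} (hb : IsTopologicalBasis ℬ) {n : ℕ} {V : Set X}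
    {x y : X} (hw : ¬ Wd ℬ x V n) (hy : y ∈ V) (hxy : x ≠ y) : ∃ B, x ∈ B ∧ Dn ℬ n V B := by
  unfold Wd at hw
  push Not at hw
  obtain ⟨𝒜, h1, h2, h3⟩ := hw
  obtain ⟨K, k1, k2, k3⟩ := exists_mem_nhds_isClosed_subset
    (isOpen_compl_singleton.mem_nhds (show x ∈ ({y}ᶜ : Set X) from hxy))
  have : K ∩ ⋂ A ∈ 𝒜, A ∈ 𝓝 x := inter_mem k1 ((biInter_finset_mem 𝒜).2 fun A hA =>
    (hb.isOpen (h1 A hA).1).mem_nhds (h1 A hA).2.1)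
  obtain ⟨B, b1, b2, b3⟩ := hb.mem_nhds_iff.1 this
  refine ⟨B, b2, b1, ⟨𝒜, h3, h2, fun A hA => ⟨(h1 A hA).1, fun z hz => ?_, (h1 A hA).2.2⟩⟩,
    fun hs => ?_⟩
  · exact mem_iInter₂.1 (b3 hz).2 A hA
  · exact k3 (closure_minimal (fun z hz => (b3 hz).1) k2 (hs hy)) rfl

/-- A chain through the levels in `s`. -/
def Ch (ℬ : Set (Set X)) (n : ℕ) (𝒱 : T → Set (Set X)) (s : Set T) (g : T → Set X) : Prop :=
  (∀ β ∈ s, g β ∈ 𝒱 β) ∧ ∀ β ∈ s, ∀ γ ∈ s, β < γ → Dn ℬ n (g β) (g γ)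

/-- The candidates at level `α`. -/
def DD (ℬ : Set (Set X)) (n : ℕ) (R : Set X) (𝒱 : T → Set (Set X)) (α : T) : Set (Set X) :=
  {B | B ∈ ℬ ∧ B ⊆ R ∧ ∃ g, Ch ℬ n 𝒱 (Iio α) g ∧ ∀ β < α, Dn ℬ n (g β) B}

theorem limit {ℬ : Set (Set X)} {n : ℕ} {R : Set X} {𝒱 : T → Set (Set X)}
    (hsub : ∀ α, 𝒱 α ⊆ DD ℬ n R 𝒱 α) (hpf : ∀ α z, {V ∈ 𝒱 α | z ∈ V}.Finite) (s : Set T) (y : X)
    (hs : ∀ β ∈ s, ∃ γ ∈ s, β < γ) (hy : ∀ γ ∈ s, ∃ V ∈ 𝒱 γ, y ∈ V) :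
    ∃ g, Ch ℬ n 𝒱 s g ∧ ∀ β ∈ s, y ∈ g β := by
  rcases s.eq_empty_or_nonempty with rfl | hne
  · exact ⟨fun _ => ∅, ⟨by simp, by simp⟩, by simp⟩
  have := hne.to_subtype
  have : NoMaxOrder s := ⟨fun β => by
    obtain ⟨γ, h1, h2⟩ := hs β.1 β.2
    exact ⟨⟨γ, h1⟩, h2⟩⟩
  have h1 : ∀ γ : s, ∃ G : T → Set X, Ch ℬ n 𝒱 (Iio γ.1) G ∧ ∀ β < γ.1, y ∈ G β := by
    intro γ
    obtain ⟨V, v1, v2⟩ := hy γ.1 γ.2
    obtain ⟨-, -, G, g1, g2⟩ := hsub _ v1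
    exact ⟨G, g1, fun β hβ => (g2 β hβ).sub v2⟩
  choose G g1 g2 using h1
  let 𝒰 : Ultrafilter s := Ultrafilter.of atTop
  have hU : ∀ β ∈ s, ∀ᶠ γ in (𝒰 : Filter s), β < γ.1 := fun β hβ =>
    (eventually_gt_atTop (⟨β, hβ⟩ : s)).filter_mono (Ultrafilter.of_le _)
  have h2 : ∀ β, ∃ W, β ∈ s → (W ∈ 𝒱 β ∧ y ∈ W) ∧ ∀ᶠ γ in (𝒰 : Filter s), G γ β = W := by
    intro β
    rcases Classical.em (β ∈ s) with hβ | hβ
    · obtain ⟨W, w1, w2⟩ := (Ultrafilter.eventually_exists_mem_iff (f := 𝒰)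
        (P := fun W γ => G γ β = W) (hpf β y)).1
        ((hU β hβ).mono fun γ hγ => ⟨G γ β, ⟨(g1 γ).1 β hγ, g2 γ β hγ⟩, rfl⟩)
      exact ⟨W, fun _ => ⟨w1, w2⟩⟩
    · exact ⟨∅, fun h => absurd h hβ⟩
  choose g hg using h2
  refine ⟨g, ⟨fun β hβ => (hg β hβ).1.1, fun β hβ γ hγ hlt => ?_⟩, fun β hβ => (hg β hβ).1.2⟩
  obtain ⟨δ, ⟨d1, d2⟩, d3⟩ := (((hg β hβ).2.and (hg γ hγ).2).and (hU γ hγ)).exists
  rw [← d1, ← d2]
  exact (g1 δ).2 β (hlt.trans d3) γ d3 hlt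

theorem step [T3Space X] [WellFoundedLT T] [Uncountable T] (hT : ∀ ξ : T, (Iio ξ).Countable)
    (hccc : ∀ 𝒰 : Set (Set X), (∀ U ∈ 𝒰, IsOpen U ∧ U.Nonempty) →
      𝒰.PairwiseDisjoint id → 𝒰.Countable)
    {ℬ : Set (Set X)} (hb : IsTopologicalBasis ℬ)
    (hcl : ∀ U, Ap ℬ U → U ∈ ℬ) (hr : ∀ x, ∃ n, Wd ℬ x univ n) (n : ℕ) (R : Set X)
    (hR : IsOpen R) :
    ∃ 𝒯 : Set (Set X), (∀ V ∈ 𝒯, IsOpen V ∧ V ⊆ R) ∧ (∀ z, {V ∈ 𝒯 | z ∈ V}.Countable) ∧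
      ∀ x ∈ R, Wd ℬ x R (n + 1) → (∀ W ∈ 𝓝 x, ∃ V ∈ 𝒯, x ∈ V ∧ V ⊆ W) ∨
        ∃ V ∈ 𝒯, x ∈ V ∧ Wd ℬ x V n := by
  classical
  have h0 : ∀ 𝒟 : Set (Set X), ∃ 𝒲, 𝒟 ⊆ ℬ → (∀ D ∈ 𝒟, ∀ B ∈ ℬ, B ⊆ D → B ∈ 𝒟) →
      𝒲 ⊆ 𝒟 ∧ (∀ z, {W ∈ 𝒲 | z ∈ W}.Finite) ∧ ∀ D ∈ 𝒟, ∀ z ∈ D, ∃ W ∈ 𝒲, z ∈ W := by
    intro 𝒟
    rcases Classical.em (𝒟 ⊆ ℬ ∧ ∀ D ∈ 𝒟, ∀ B ∈ ℬ, B ⊆ D → B ∈ 𝒟) with h | h
    · obtain ⟨𝒲, h1⟩ := refine_pf hb hcl hr h.1 h.2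
      exact ⟨𝒲, fun _ _ => h1⟩
    · exact ⟨∅, fun a b => absurd ⟨a, b⟩ h⟩
  choose rf hrf using h0
  obtain ⟨𝒱, hV⟩ := GrothEx.exists_rec (T := T) (∅ : Set (Set X))
    (fun δ f => rf (DD ℬ n R f δ)) (by
      intro δ f f' hf
      congr 1
      ext B
      constructor
      · rintro ⟨a, b, g, ⟨c, d⟩, e⟩
        exact ⟨a, b, g, ⟨fun β hβ => hf β hβ ▸ c β hβ, d⟩, e⟩
      · rintro ⟨a, b, g, ⟨c, d⟩, e⟩
        exact ⟨a, b, g, ⟨fun β hβ => (hf β hβ).symm ▸ c β hβ, d⟩, e⟩)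
  have hV' : ∀ α, 𝒱 α ⊆ DD ℬ n R 𝒱 α ∧ (∀ z, {W ∈ 𝒱 α | z ∈ W}.Finite) ∧
      ∀ D ∈ DD ℬ n R 𝒱 α, ∀ z ∈ D, ∃ W ∈ 𝒱 α, z ∈ W := by
    intro α
    have := hrf (DD ℬ n R 𝒱 α) (fun B hB => hB.1) (by
      rintro D ⟨a, b, g, c, e⟩ B hB hs
      exact ⟨hB, hs.trans b, g, c, fun β hβ => (e β hβ).down hB hs⟩)
    rwa [← hV α] at this
  have hsub := fun α => (hV' α).1
  have hpf := fun α => (hV' α).2.1
  have hcov := fun α => (hV' α).2.2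
  have hdown : ∀ y γ β, β < γ → (∃ V ∈ 𝒱 γ, y ∈ V) → ∃ V ∈ 𝒱 β, y ∈ V := by
    rintro y γ β hlt ⟨V, v1, v2⟩
    obtain ⟨-, -, G, g1, g2⟩ := hsub _ v1
    exact ⟨G β, g1.1 β hlt, (g2 β hlt).sub v2⟩
  have hnm : ∀ β : T, ∃ γ, β < γ := fun β => by
    obtain ⟨γ, h⟩ := SubMeta.bddT hT {β} (countable_singleton β)
    exact ⟨γ, h β rfl⟩
  have hA : ∀ y, ∃ α, ¬ ∃ V ∈ 𝒱 α, y ∈ V := by
    intro y
    by_contra hn
    push Not at hn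
    obtain ⟨g, ⟨g1, g2⟩, -⟩ := limit hsub hpf univ y
      (fun β _ => (hnm β).imp fun γ h => ⟨trivial, h⟩) (fun γ _ => hn γ)
    let sc : T → T := fun β => wellFounded_lt.min (Ioi β) (hnm β)
    have s1 : ∀ β, β < sc β := fun β => wellFounded_lt.min_mem (Ioi β) (hnm β)
    have s2 : ∀ β γ, β < γ → sc β ≤ γ := fun β γ h =>
      not_lt.1 (wellFounded_lt.not_lt_min (Ioi β) h)
    let c : T → Set X := fun β => g β \ closure (g (sc β))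
    have c1 : ∀ β, IsOpen (c β) ∧ (c β).Nonempty := fun β =>
      ⟨(hb.isOpen (hsub β (g1 β trivial)).1).sdiff isClosed_closure,
        not_subset.1 (g2 β trivial _ trivial (s1 β)).2.2⟩
    have c2 : ∀ β γ, β < γ → Disjoint (c β) (c γ) := by
      intro β γ h
      refine disjoint_left.2 fun z z1 z2 => z1.2 (subset_closure ?_)
      rcases (s2 β γ h).eq_or_lt with e | e
      · rw [e]; exact z2.1
      · exact (g2 _ trivial _ trivial e).sub z2.1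
    have c3 : ∀ β γ, β ≠ γ → Disjoint (c β) (c γ) := fun β γ h =>
      (lt_or_gt_of_ne h).elim (c2 β γ) (fun h => (c2 γ β h).symm)
    have c4 : Function.Injective c := by
      intro β γ e
      by_contra h
      have := c3 β γ h
      rw [e, disjoint_self] at this
      exact (c1 γ).2.ne_empty this
    have := hccc (range c) (by rintro _ ⟨β, rfl⟩; exact c1 β) (by
      rintro _ ⟨β, rfl⟩ _ ⟨γ, rfl⟩ h
      exact c3 β γ (fun e => h (by rw [e])))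
    rw [← image_univ] at this
    exact not_countable_univ (countable_of_injective_of_countable_image c4.injOn this)
  refine ⟨⋃ α, 𝒱 α, fun V hV => ?_, fun z => ?_, fun x hx hw => ?_⟩
  · obtain ⟨α, h⟩ := mem_iUnion.1 hV
    exact ⟨hb.isOpen (hsub α h).1, (hsub α h).2.1⟩
  · obtain ⟨α, hα⟩ := hA z
    refine ((hT α).biUnion fun β _ => (hpf β z).countable).mono ?_
    rintro V ⟨h1, h2⟩
    obtain ⟨β, h⟩ := mem_iUnion.1 h1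
    refine mem_biUnion (show β < α from ?_) ⟨h, h2⟩
    by_contra hlt
    rcases (not_lt.1 hlt).eq_or_lt with e | e
    · exact hα ⟨V, e ▸ h, h2⟩
    · exact hα (hdown z β α e ⟨V, h, h2⟩)
  · obtain ⟨α, hα, hmin⟩ := wellFounded_lt.has_min {α | ¬ ∃ V ∈ 𝒱 α, x ∈ V} (hA x)
    have hlow : ∀ β < α, ∃ V ∈ 𝒱 β, x ∈ V := fun β hβ => by
      by_contra h
      exact hmin β h hβ
    rcases Classical.em (∀ β ∈ Iio α, ∃ γ ∈ Iio α, β < γ) with hl | hl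
    · obtain ⟨g, g1, g2⟩ := limit hsub hpf (Iio α) x hl hlow
      left
      intro W hW
      obtain ⟨C, c1, c2, c3⟩ := hb.mem_nhds_iff.1 (inter_mem hW (hR.mem_nhds hx))
      by_contra hn
      apply hα
      refine hcov α C ⟨c1, fun z hz => (c3 hz).2, g, g1, fun β hβ => ?_⟩ x c2
      obtain ⟨γ, γ1, γ2⟩ := hl β hβ
      obtain ⟨δ, δ1, δ2⟩ := hl γ γ1
      rcases (g1.2 γ γ1 δ δ1 δ2).cmp (g2 δ δ1) (hsub γ (g1.1 γ γ1)).2.1 hw c1 c2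
        (fun z hz => (c3 hz).2) with h | h
      · exact (g1.2 β hβ γ γ1 γ2).down c1 h
      · exact absurd ⟨g δ, mem_iUnion.2 ⟨δ, g1.1 δ δ1⟩, g2 δ δ1,
          fun z hz => (c3 (h hz)).1⟩ hn
    · push Not at hl
      obtain ⟨β, hβ, hmax⟩ := hl
      obtain ⟨V, v1, v2⟩ := hlow β hβ
      rcases Classical.em (Wd ℬ x V n) with hw' | hw'
      · exact Or.inr ⟨V, mem_iUnion.2 ⟨β, v1⟩, v2, hw'⟩
      rcases Classical.em (∀ y ∈ V, x = y) with hs | hs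
      · exact Or.inl fun W hW => ⟨V, mem_iUnion.2 ⟨β, v1⟩, v2,
          fun y hy => hs y hy ▸ mem_of_mem_nhds hW⟩
      push Not at hs
      obtain ⟨y, y1, y2⟩ := hs
      obtain ⟨B, b1, b2⟩ := exists_dn hb hw' y1 y2
      obtain ⟨-, vR, G, g1, g2⟩ := hsub _ v1
      exfalso
      apply hα
      have hlt : ∀ γ < α, γ = β ∨ γ < β := fun γ h => (hmax γ h).eq_or_lt
      refine hcov α B ⟨b2.1, b2.sub.trans vR, Function.update G β V, ⟨fun γ hγ => ?_,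
        fun γ hγ δ hδ h => ?_⟩, fun γ hγ => ?_⟩ x b1
      · rcases hlt γ hγ with rfl | h
        · rw [Function.update_self]; exact v1
        · rw [Function.update_of_ne h.ne]; exact g1.1 γ h
      · have h' : γ < β := h.trans_le (hmax δ hδ)
        rw [Function.update_of_ne h'.ne]
        rcases hlt δ hδ with rfl | h2
        · rw [Function.update_self]; exact g2 γ h'
        · rw [Function.update_of_ne h2.ne]; exact g1.2 γ h' δ h2 h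
      · rcases hlt γ hγ with rfl | h
        · rw [Function.update_self]; exact b2
        · rw [Function.update_of_ne h.ne]; exact (g2 γ h).down b2.1 b2.sub

open Cardinal in
theorem levels [T3Space X]
    (hccc : ∀ 𝒰 : Set (Set X), (∀ U ∈ 𝒰, IsOpen U ∧ U.Nonempty) →
      𝒰.PairwiseDisjoint id → 𝒰.Countable)
    {ℬ : Set (Set X)} (hb : IsTopologicalBasis ℬ)
    (hcl : ∀ U, Ap ℬ U → U ∈ ℬ) (hr : ∀ x, ∃ n, Wd ℬ x univ n) (n : ℕ) : ∀ R : Set X, IsOpen R →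
    ∃ ℱ : Set (Set X), (∀ V ∈ ℱ, IsOpen V ∧ V ⊆ R) ∧ (∀ z, {V ∈ ℱ | z ∈ V}.Countable) ∧
      ∀ x ∈ R, Wd ℬ x R n → ∀ W ∈ 𝓝 x, ∃ V ∈ ℱ, x ∈ V ∧ V ⊆ W := by
  have : Uncountable (Order.succ ℵ₀).ord.ToType := by
    rw [← aleph0_lt_mk_iff, mk_ord_toType]; exact Order.lt_succ _
  induction n with
  | zero =>
    intro R hR
    refine ⟨∅, by simp, by simp, fun x hx hw => ?_⟩
    obtain ⟨B, b1, b2, b3⟩ := hb.exists_subset_of_mem_open hx hR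
    have := hw {B} (by simpa using ⟨b1, b2, b3⟩) (by simp)
    simp at this
  | succ n ih =>
    intro R hR
    obtain ⟨𝒯, t1, t2, t3⟩ := step (T := (Order.succ ℵ₀).ord.ToType)
      (fun ξ => le_aleph0_iff_set_countable.1
        (Order.lt_succ_iff.1 (Cardinal.mk_Iio_toType_ord_lt ξ))) hccc hb hcl hr n R hR
    choose F f1 f2 f3 using fun V : 𝒯 => ih V.1 (t1 V.1 V.2).1
    refine ⟨𝒯 ∪ ⋃ V, F V, ?_, fun z => ?_, fun x hx hw W hW => ?_⟩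
    · rintro V (h | h)
      · exact t1 V h
      · obtain ⟨U, h⟩ := mem_iUnion.1 h
        exact ⟨(f1 U V h).1, (f1 U V h).2.trans (t1 U.1 U.2).2⟩
    · have h1 : {U : 𝒯 | z ∈ U.1}.Countable :=
        ((t2 z).preimage (f := fun U : 𝒯 => U.1) Subtype.val_injective).mono
          fun U hU => (⟨U.2, hU⟩ : U.1 ∈ 𝒯 ∧ z ∈ U.1)
      refine ((t2 z).union (h1.biUnion fun U _ => f2 U z)).mono ?_
      rintro V ⟨h | h, hz⟩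
      · exact Or.inl ⟨h, hz⟩
      · obtain ⟨U, h⟩ := mem_iUnion.1 h
        exact Or.inr (mem_biUnion (show z ∈ U.1 from (f1 U V h).2 hz) ⟨h, hz⟩)
    · rcases t3 x hx hw with h | ⟨V, v1, v2, v3⟩
      · obtain ⟨V, a, b⟩ := h W hW
        exact ⟨V, Or.inl a, b⟩
      · obtain ⟨U, a, b⟩ := f3 ⟨V, v1⟩ x v2 v3 W hW
        exact ⟨U, Or.inr (mem_iUnion.2 ⟨_, a⟩), b⟩

theorem final [T3Space X]
    (hccc : ∀ 𝒰 : Set (Set X), (∀ U ∈ 𝒰, IsOpen U ∧ U.Nonempty) →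
      𝒰.PairwiseDisjoint id → 𝒰.Countable)
    {ℬ : Set (Set X)} (hb : IsTopologicalBasis ℬ) (hr : ∀ x, ∃ n, Wd ℬ x univ n) :
    ∃ ℬ : Set (Set X), IsTopologicalBasis ℬ ∧ ∀ x : X, {B ∈ ℬ | x ∈ B}.Countable := by
  have hb' : IsTopologicalBasis {U | Ap ℬ U} := by
    refine isTopologicalBasis_of_isOpen_of_nhds (fun U hU => ?_) (fun a U ha hU => ?_)
    · refine isOpen_iff_mem_nhds.2 fun x hx => ?_
      obtain ⟨B, b1, b2, b3⟩ := hU {x} (finite_singleton x) (singleton_subset_iff.2 hx)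
      exact mem_of_superset ((hb.isOpen b1).mem_nhds (b2 rfl)) b3
    · obtain ⟨B, b1, b2, b3⟩ := hb.exists_subset_of_mem_open ha hU
      exact ⟨B, fun F _ hF => ⟨B, b1, hF, Subset.rfl⟩, b2, b3⟩
  have := fun n => levels hccc hb' (by
    intro U hU F hF hFU
    obtain ⟨D, d1, d2, d3⟩ := hU F hF hFU
    obtain ⟨B, b1, b2, b3⟩ := d1 F hF d2
    exact ⟨B, b1, b2, b3.trans d3⟩) (fun x => (hr x).imp fun _ h => wd_ap h) n univ isOpen_univ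
  choose F f1 f2 f3 using this
  refine ⟨⋃ n, F n, isTopologicalBasis_of_isOpen_of_nhds (fun U hU => ?_) (fun a U ha hU => ?_),
    fun x => ?_⟩
  · obtain ⟨n, h⟩ := mem_iUnion.1 hU
    exact (f1 n U h).1
  · obtain ⟨n, hn⟩ := hr a
    obtain ⟨V, v1, v2⟩ := f3 n a trivial (wd_ap hn) U (hU.mem_nhds ha)
    exact ⟨V, mem_iUnion.2 ⟨n, v1⟩, v2⟩
  · refine (countable_iUnion fun n => f2 n x).mono ?_
    rintro V ⟨h, hx⟩
    obtain ⟨n, h⟩ := mem_iUnion.1 h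
    exact mem_iUnion.2 ⟨n, h, hx⟩

end main

end Pool.Agent.H33.PFRank
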