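import Mathlib
import Pool.Agent.H33.GrothEx

/-!
A poor free filter on the natural numbers that is not generated by a statistical measure.
-/

open Set Filter PiNat

namespace Pool.Agent.H33.PoorF

open Pool.Agent.H33.GrothEx

/-- three sequences splitting at the same node -/
def Conf (k : ℕ) (u v w : ℕ → ℕ) : Prop :=
  (∀ i < k, u i = v i ∧ v i = w i) ∧ u k ≠ v k ∧ u k ≠ w k ∧ v k ≠ w k

/-- independent sets -/
def Ind (c : Finset (ℕ → ℕ)) : Prop := ∀ k, ∀ u ∈ c, ∀ v ∈ c, ∀ w ∈ c, ¬ Conf k u v w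

theorem Conf.congr {k m : ℕ} (h : k < m) {u v w u' v' w' : ℕ → ℕ} (hc : Conf k u v w)
    (a : res u' m = res u m) (b : res v' m = res v m) (c : res w' m = res w m) :
    Conf k u' v' w' := by
  rw [res_eq_res] at a b c
  rw [Conf, a h, b h, c h]
  exact ⟨fun i hi => by rw [a (hi.trans h), b (hi.trans h), c (hi.trans h)]; exact hc.1 i hi, hc.2⟩

theorem sepa (c : Finset (ℕ → ℕ)) : ∃ m, ∀ u ∈ c, ∀ v ∈ c, res u m = res v m → u = v := by
  refine Eventually.exists (f := atTop) ((eventually_all_finset c).2 fun u _ =>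
    (eventually_all_finset c).2 fun v _ => ?_)
  by_cases h : u = v
  · simp [h]
  obtain ⟨i, hi⟩ := Function.ne_iff.1 h
  exact (eventually_gt_atTop i).mono fun m hm e => absurd (res_eq_res.1 e hm) hi

theorem exists_filter : ∃ (G : Filter ℕ) (X : (ℕ → ℕ) → Set ℕ), G ≤ cofinite ∧
    (∀ c, Ind c → ∀ U ∈ G, (U ∩ ⋂ v ∈ c, X v).Nonempty) ∧
    (∀ k u v w, Conf k u v w → (X u ∩ X v ∩ X w)ᶜ ∈ G) ∧
    ∀ A, Aᶜ ∉ G → ∃ c, Ind c ∧ ∀ᶠ n in G, n ∈ ⋂ v ∈ c, X v → n ∈ A := by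
  classical
  let e := (Denumerable.eqv (ℕ × Finset (List ℕ))).symm
  let X : (ℕ → ℕ) → Set ℕ := fun v => {n | res v (e n).1 ∈ (e n).2}
  obtain ⟨G, h1, h2⟩ := @zorn_le_nonempty₀ (Filter ℕ)ᵒᵈ _
    {G : Filter ℕ | ∀ c, Ind c → ∀ U ∈ G, (U ∩ ⋂ v ∈ c, X v).Nonempty}
    (fun C hC hC' y hy => ⟨OrderDual.toDual (⨅ G ∈ C, OrderDual.ofDual G), fun c hc U hU => by
      obtain ⟨G, h1, h2⟩ := (mem_biInf_of_directed (f := OrderDual.ofDual) hC'.directedOn
        ⟨y, hy⟩).1 hU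
      exact hC h1 c hc U h2, fun z hz => (biInf_le (fun G => OrderDual.ofDual G) hz :)⟩)
    (comap (fun n => (e n).1) cofinite ⊓ 𝓟 {n | ∀ k < (e n).1, ∀ u v w, Conf k u v w →
      n ∉ X u ∩ X v ∩ X w} : Filter ℕ) (fun c hc U hU => by
      obtain ⟨_, ⟨t, ht, h1⟩, s, h2, rfl⟩ := hU
      obtain ⟨m, hm⟩ := Filter.nonempty_of_mem ht
      refine ⟨e.symm (m, c.image (res · m)), ⟨h1 (by simpa using hm), h2 ?_⟩, ?_⟩
      · simp only [X, mem_ofPred_eq, Equiv.apply_symm_apply, mem_inter_iff, Finset.mem_image]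
        rintro k hk u v w h ⟨⟨⟨u', a, a'⟩, v', b, b'⟩, w', d, d'⟩
        exact hc k _ a _ b _ d (h.congr hk a' b' d')
      · simpa [X] using fun v hv => ⟨v, hv, rfl⟩)
  refine ⟨G, X, le_trans (α := Filter ℕ) h1 (inf_le_left.trans (comap_cofinite_le _)), h2.1,
    fun k u v w h => h1 (mem_of_superset (inter_mem_inf (preimage_mem_comap
      (finite_Iic k).compl_mem_cofinite) (mem_principal_self _)) fun n hn =>
        hn.2 k (not_le.1 hn.1) u v w h), fun A hA => ?_⟩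
  by_contra h
  refine hA (h2.2 (y := (OrderDual.ofDual G ⊓ 𝓟 Aᶜ : Filter ℕ)) (fun c hc U hU => ?_)
    (inf_le_left (α := Filter ℕ)) (mem_inf_of_right (mem_principal_self _)))
  by_contra h3
  exact h ⟨c, hc, mem_of_superset (mem_inf_principal.1 hU) fun n hn h4 =>
    by_contra fun h5 => h3 ⟨n, hn h5, h4⟩⟩

theorem linked {c d : Finset (ℕ → ℕ)} {m : ℕ} [DecidableEq (ℕ → ℕ)] (hc : Ind c)
    (h1 : ∀ u ∈ c, ∀ v ∈ c, res u m = res v m → u = v)
    (h2 : ∀ u ∈ d, ∀ v ∈ d, res u m = res v m → u = v)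
    (h : c.image (res · m) = d.image (res · m)) : Ind (c ∪ d) := by
  intro k u hu v hv w hw hk
  rcases lt_or_ge k m with hm | hm
  · have h3 : ∀ x ∈ c ∪ d, ∃ y ∈ c, res y m = res x m := fun x hx =>
      (Finset.mem_union.1 hx).elim (fun h => ⟨x, h, rfl⟩) fun h' =>
        Finset.mem_image.1 (h ▸ Finset.mem_image_of_mem (res · m) h')
    obtain ⟨u', a, a'⟩ := h3 u hu
    obtain ⟨v', b, b'⟩ := h3 v hv
    obtain ⟨w', f, f'⟩ := h3 w hw
    exact hc k _ a _ b _ f (hk.congr hm a' b' f')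
  have a : res u m = res v m := res_eq_res.2 fun i hi => (hk.1 i (hi.trans_le hm)).1
  have b : res v m = res w m := res_eq_res.2 fun i hi => (hk.1 i (hi.trans_le hm)).2
  have : u = v ∨ u = w ∨ v = w := by
    rw [Finset.mem_union] at hu hv hw
    rcases hu with hu | hu <;> rcases hv with hv | hv <;> rcases hw with hw | hw <;>
    first
    | exact Or.inl (h1 _ hu _ hv a)
    | exact Or.inl (h2 _ hu _ hv a)
    | exact Or.inr (Or.inl (h1 _ hu _ hw (a.trans b)))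
    | exact Or.inr (Or.inl (h2 _ hu _ hw (a.trans b)))
    | exact Or.inr (Or.inr (h1 _ hv _ hw b))
    | exact Or.inr (Or.inr (h2 _ hv _ hw b))
  rcases this with rfl | rfl | rfl
  exacts [hk.2.1 rfl, hk.2.2.1 rfl, hk.2.2.2 rfl]

section

variable {μ : Set ℕ → ℝ} (h0 : ∀ A, 0 ≤ μ A) (ha : ∀ A B, Disjoint A B → μ (A ∪ B) = μ A + μ B)
  (h1 : μ univ = 1)

include ha in
theorem modular (A B : Set ℕ) : μ (A ∪ B) + μ (A ∩ B) = μ A + μ B := by
  have a := ha A (B \ A) disjoint_sdiff_right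
  have b := ha (A ∩ B) (B \ A) (disjoint_sdiff_right.mono_left inter_subset_left)
  rw [union_sdiff_self] at a
  rw [inter_comm, inter_union_sdiff, inter_comm] at b
  linarith

include h0 ha h1 in
theorem small {G : Filter ℕ} (hG : ∀ A, A ∈ G → μ A = 1) (Y : ℕ → Set ℕ)
    (hY : ∀ i j k, i ≠ j → i ≠ k → j ≠ k → (Y i ∩ Y j ∩ Y k)ᶜ ∈ G) {ε : ℝ} (hε : 0 < ε) :
    ∃ j, μ (Y j) < ε := by
  by_contra h
  push Not at h
  have h2 : ∀ A, μ A + μ Aᶜ = 1 := fun A => by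
    rw [← ha _ _ disjoint_compl_right, union_compl_self, h1]
  have h3 : ∀ N : ℕ, N * ε ≤ μ {x | ∃ i < N, x ∈ Y i} + μ {x | ∃ i < N, ∃ j < i, x ∈ Y i ∩ Y j} := by
    intro N
    induction N with
    | zero => simpa using h0 _
    | succ N ih =>
      have a := modular ha {x | ∃ i < N, x ∈ Y i} (Y N)
      have b := modular ha {x | ∃ i < N, ∃ j < i, x ∈ Y i ∩ Y j} ({x | ∃ i < N, x ∈ Y i} ∩ Y N)
      have c := h2 ({x | ∃ i < N, ∃ j < i, x ∈ Y i ∩ Y j} ∩ ({x | ∃ i < N, x ∈ Y i} ∩ Y N))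
      rw [hG _ᶜ (mem_of_superset ((eventually_all_finite (finite_Iio N)).2 fun i hi =>
        (eventually_all_finite (finite_Iio i)).2 fun j hj => hY i j N hj.ne' hi.ne
          (lt_trans hj hi).ne) fun x hx h' => by
          obtain ⟨⟨i, a, j, b, c⟩, d⟩ := h'
          exact hx i a j b ⟨c, d.2⟩)] at c
      rw [show {x | ∃ i < N + 1, x ∈ Y i} = {x | ∃ i < N, x ∈ Y i} ∪ Y N from
        Set.ext fun x => Nat.exists_lt_succ_right,
        show {x | ∃ i < N + 1, ∃ j < i, x ∈ Y i ∩ Y j} = {x | ∃ i < N, ∃ j < i, x ∈ Y i ∩ Y j} ∪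
          {x | ∃ i < N, x ∈ Y i} ∩ Y N from Set.ext fun x => Nat.exists_lt_succ_right.trans
            (or_congr_right ⟨fun ⟨j, a, b⟩ => ⟨⟨j, a, b.2⟩, b.1⟩, fun ⟨⟨j, a, b⟩, c⟩ => ⟨j, a, c, b⟩⟩)]
      have := h N
      push_cast
      linarith
  obtain ⟨N, hN⟩ := exists_nat_gt (2 / ε)
  have a := h3 N
  have b := fun A => (le_add_of_nonneg_right (h0 Aᶜ)).trans_eq (h2 A)
  rw [div_lt_iff₀ hε] at hN
  linarith [b {x | ∃ i < N, x ∈ Y i}, b {x | ∃ i < N, ∃ j < i, x ∈ Y i ∩ Y j}]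

end

theorem main : ∃ G : Filter ℕ, G.NeBot ∧ G ≤ cofinite ∧
    (∀ (Γ : Type) (A : Γ → Set ℕ), (∀ γ, (A γ)ᶜ ∉ G) → (∀ γ δ, γ ≠ δ → (A γ ∩ A δ)ᶜ ∈ G) →
      Countable Γ) ∧
    ∀ μ : Set ℕ → ℝ, (∀ A, 0 ≤ μ A) → (∀ A B, Disjoint A B → μ (A ∪ B) = μ A + μ B) →
      μ univ = 1 → ¬ ∀ A, A ∈ G ↔ μ A = 1 := by
  classical
  obtain ⟨G, X, h1, h2, h3, h4⟩ := exists_filter
  refine ⟨G, forall_mem_nonempty_iff_neBot.1 fun U hU => (h2 ∅ (by simp [Ind]) U hU).left, h1,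
    fun Γ A hA hA' => ?_, fun μ m0 ma m1 hG => ?_⟩
  · choose c hc hc' using fun γ => h4 _ (hA γ)
    choose m hm using sepa
    refine Function.Injective.countable (f := fun γ => (m (c γ), (c γ).image (res · (m (c γ)))))
      fun γ δ e => by_contra fun hne => ?_
    obtain ⟨e1, e2⟩ := Prod.mk.inj e
    obtain ⟨n, ⟨⟨a, b⟩, d⟩, f⟩ := h2 _ (linked (hc γ) (hm _) (e1 ▸ hm (c δ)) (e2.trans (by rw [e1])))
      _ (inter_mem (inter_mem (hc' γ) (hc' δ)) (hA' γ δ hne))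
    simp only [mem_iInter, Finset.mem_union] at f a b
    exact d ⟨a fun v hv => f v (Or.inl hv), b fun v hv => f v (Or.inr hv)⟩
  have h5 : ∀ (n : ℕ) (u : ℕ → ℕ), ∃ j, ∀ v : ℕ → ℕ, (∀ i < n, v i = u i) → v n = j →
      μ (X v) < 1 / (n + 1) := fun n u => by
    by_contra h
    push Not at h
    choose v a b c using h
    obtain ⟨j, hj⟩ := small m0 ma m1 (fun A => (hG A).1) (fun j => X (v j)) (fun i j k d e f =>
      h3 n _ _ _ ⟨fun l hl => by simp [a _ l hl], by simp [b, d, e, f]⟩) Nat.one_div_pos_of_nat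
    exact hj.not_ge (c j)
  obtain ⟨v, hv⟩ := exists_rec (T := ℕ) 0 (fun n u => Classical.epsilon fun j => ∀ v : ℕ → ℕ,
    (∀ i < n, v i = u i) → v n = j → μ (X v) < 1 / (n + 1)) fun n u u' h => by
      congr 1
      exact funext fun j => propext (forall_congr' fun v => imp_congr_left
        (forall₂_congr fun i hi => by rw [h i hi]))
  have h6 : μ (X v) = 0 := le_antisymm (ge_of_tendsto' tendsto_one_div_add_atTop_nhds_zero_nat
    fun n => (Classical.epsilon_spec (h5 n v) v (fun _ _ => rfl) (hv n)).le) (m0 _)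
  obtain ⟨n, a, b⟩ := h2 {v} (by simp [Ind, Conf]) (X v)ᶜ ((hG _).2 (by
    rw [← m1, ← union_compl_self (X v), ma _ _ disjoint_compl_right, h6, zero_add]))
  exact a (by simpa using b)

theorem not_congl {G : Filter ℕ} (h : ∀ (Γ : Type) (A : Γ → Set ℕ), (∀ γ, (A γ)ᶜ ∉ G) →
    (∀ γ δ, γ ≠ δ → (A γ ∩ A δ)ᶜ ∈ G) → Countable Γ) {D : ℕ → Set ℕ} (h1 : ∀ n, (D n)ᶜ ∈ G)
    (h2 : ∀ m n, m ≠ n → Disjoint (D m) (D n)) :
    ¬ ∀ M : Set ℕ, M.Infinite → (⋃ n ∈ M, D n)ᶜ ∉ G := by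
  intro h3
  let e : (ℕ → ℕ) → ℕ → ℕ := fun x n => Encodable.encode (res x n)
  have h4 : ∀ x y m n, e x m = e y n → m = n ∧ res x n = res y n := fun x y m n h => by
    have h4 := Encodable.encode_injective h
    obtain rfl : m = n := by simpa using congrArg List.length h4
    exact ⟨rfl, h4⟩
  have : Uncountable (ℕ → ℕ) := Cardinal.aleph0_lt_mk_iff.1
    (by simpa using Cardinal.aleph0_lt_continuum)
  refine not_countable (h (ℕ → ℕ) (fun x => ⋃ n ∈ range (e x), D n) (fun x => h3 _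
    (infinite_range_of_injective fun m n h => (h4 _ _ _ _ h).1)) fun x y hxy => ?_)
  obtain ⟨i, hi⟩ := Function.ne_iff.1 hxy
  refine mem_of_superset ((biInter_mem (finite_Iic i)).2 fun n _ => h1 (e x n)) fun k hk hk' => ?_
  obtain ⟨_, ⟨m, rfl⟩, a⟩ := mem_iUnion₂.1 hk'.1
  obtain ⟨_, ⟨n, rfl⟩, b⟩ := mem_iUnion₂.1 hk'.2
  obtain ⟨rfl, c⟩ := h4 _ _ _ _ (by_contra fun h => disjoint_left.1 (h2 _ _ h) a b)
  exact mem_iInter₂.1 hk m (not_lt.1 fun h => hi (res_eq_res.1 c h)) a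

end Pool.Agent.H33.PoorF
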