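import Mathlib
import Pool.Agent.H33.FinSp
import Pool.Agent.H33.SubMeta

set_option autoImplicit false
open Set Topology TopologicalSpace Filter

namespace Pool.Agent.H33.Rez
open FinSp

/-- A ranked set of nodes, each carrying a finite set and a sequence of finite sets. -/
structure Sys (A T : Type) [LinearOrder T] where
  rk : A → T
  J : A → ℕ → Finset A
  p : A → Finset A
  ext : ∀ (q : Finset A) (K : ℕ → Finset A) (E : Set A), E.Countable →
    ∃ t, t ∉ E ∧ J t = K ∧ p t = q ∧ (∀ s ∈ q, rk s < rk t) ∧ ∀ k, ∀ s ∈ K k, rk s < rk t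

variable {A T : Type} [LinearOrder T] [DecidableEq A] (S : Sys A T)

namespace Sys

/-- Rank and convergence conditions on a node. -/
def Low (t : A) : Prop := (∀ k, ∀ s ∈ S.J t k, S.rk s < S.rk t) ∧ (∀ s ∈ S.p t, S.rk s < S.rk t) ∧
  ∀ a, ∀ᶠ k in atTop, (a ∈ S.J t k ↔ a ∈ S.p t)

/-- Extendable points. -/
inductive Op : Finset A → Prop
  | empty : Op ∅
  | step (t : A) (n : ℕ) : (∀ k, Op (S.J t k)) → Op (S.p t) → S.Low t → Op (insert t (S.J t n))

/-- Valid nodes. -/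
def Valid (t : A) : Prop := (∀ k, S.Op (S.J t k)) ∧ S.Op (S.p t) ∧ S.Low t

/-- Terminal points. -/
def Term (y : Finset A) : Prop :=
  ∃ t, S.Valid t ∧ (∀ k, S.J t k ≠ S.p t) ∧ y = insert t (S.p t)

/-- Part of `y` below the rank of `t`. -/
def low (t : A) (y : Finset A) : Finset A := y.filter fun s => S.rk s < S.rk t

variable {S}

omit [DecidableEq A] in
theorem mem_low {t a : A} {y : Finset A} : a ∈ S.low t y ↔ a ∈ y ∧ S.rk a < S.rk t :=
  Finset.mem_filter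

theorem low_top {t : A} {y : Finset A} (h : ∀ s ∈ y, S.rk s < S.rk t) :
    S.low t (insert t y) = y := by
  ext a
  rw [mem_low, Finset.mem_insert]
  constructor
  · rintro ⟨rfl | h1, h2⟩
    · exact absurd h2 (lt_irrefl _)
    · exact h1
  · exact fun h1 => ⟨Or.inr h1, h a h1⟩

theorem low_below {t t' : A} {y : Finset A} (h : S.rk t < S.rk t') :
    S.low t (insert t' y) = S.low t y := by
  ext a
  simp only [mem_low, Finset.mem_insert]
  constructor
  · rintro ⟨rfl | h1, h2⟩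
    · exact absurd h2 h.not_gt
    · exact ⟨h1, h2⟩
  · exact fun h1 => ⟨Or.inr h1.1, h1.2⟩

theorem inj_insert {t' : A} {y : Finset A} (h : ∀ s ∈ y, S.rk s < S.rk t')
    (hy : ∀ t ∈ y, ∀ s ∈ y, S.rk s = S.rk t → s = t) :
    ∀ t ∈ insert t' y, ∀ s ∈ insert t' y, S.rk s = S.rk t → s = t := by
  intro t ht s hs e
  rcases Finset.mem_insert.1 ht with ht | ht <;> rcases Finset.mem_insert.1 hs with hs | hs
  · rw [ht, hs]
  · exact absurd (ht ▸ e) (h s hs).ne
  · exact absurd (hs ▸ e) (h t ht).ne'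
  · exact hy t ht s hs e

theorem op_inv {y : Finset A} (hy : S.Op y) :
    (∀ t ∈ y, S.Valid t ∧ ∃ k, S.low t y = S.J t k) ∧
      ∀ t ∈ y, ∀ s ∈ y, S.rk s = S.rk t → s = t := by
  induction hy with
  | empty => simp
  | step t' n h1 h2 h3 ih _ =>
    refine ⟨fun t ht => ?_, inj_insert (h3.1 n) (ih n).2⟩
    rcases Finset.mem_insert.1 ht with rfl | ht
    · exact ⟨⟨h1, h2, h3⟩, n, low_top (h3.1 n)⟩
    · rw [low_below (h3.1 n t ht)]
      exact (ih n).1 t ht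

/-- The ambient family. -/
def Z (S : Sys A T) (y : Finset A) : Prop := S.Op y ∨ S.Term y

theorem z_inv {y : Finset A} (hy : S.Z y) :
    (∀ t ∈ y, S.Valid t ∧ (S.low t y = S.p t ∨ ∃ k, S.low t y = S.J t k)) ∧
      ∀ t ∈ y, ∀ s ∈ y, S.rk s = S.rk t → s = t := by
  rcases hy with hy | ⟨t', h1, -, rfl⟩
  · exact ⟨fun t ht => ⟨((op_inv hy).1 t ht).1, Or.inr ((op_inv hy).1 t ht).2⟩, (op_inv hy).2⟩
  refine ⟨fun t ht => ?_, inj_insert h1.2.2.2.1 (op_inv h1.2.1).2⟩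
  rcases Finset.mem_insert.1 ht with rfl | ht
  · exact ⟨h1, Or.inl (low_top h1.2.2.2.1)⟩
  · rw [low_below (h1.2.2.2.1 t ht)]
    exact ⟨((op_inv h1.2.1).1 t ht).1, Or.inr ((op_inv h1.2.1).1 t ht).2⟩

theorem not_op {y : Finset A} (hy : S.Term y) : ¬ S.Op y := by
  obtain ⟨t, h1, h2, rfl⟩ := hy
  intro h
  obtain ⟨-, k, hk⟩ := (op_inv h).1 t (Finset.mem_insert_self _ _)
  rw [low_top h1.2.2.2.1] at hk
  exact h2 k hk.symm

omit [DecidableEq A] in
theorem differ {u v : Finset A} (h : u ≠ v) : ∃ a, ¬ (a ∈ u ↔ a ∈ v) := by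
  by_contra hc
  push Not at hc
  exact h (Finset.ext hc)

theorem z_closed : IsClosed {y : FS A | S.Z y.fin} := by
  refine isClosed_of_closure_subset fun w hw => ?_
  have key : ∀ F : Finset A, ∃ y : Finset A, S.Z y ∧ ∀ a ∈ F, (a ∈ y ↔ a ∈ w.fin) := fun F => by
    obtain ⟨y, h1, h2⟩ := mem_closure_iff_nhds.1 hw _ (agree_nhds w F)
    exact ⟨y.fin, h2, h1⟩
  rcases w.fin.eq_empty_or_nonempty with h | h
  · exact Or.inl (h ▸ Op.empty)
  obtain ⟨t, ht, hmax⟩ := w.fin.exists_max_image S.rk h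
  have hv : S.Valid t := by
    obtain ⟨y, h1, h2⟩ := key {t}
    exact ((z_inv h1).1 t ((h2 t (by simp)).2 ht)).1
  have hw' : w.fin = insert t (S.low t w.fin) := by
    ext s
    rw [Finset.mem_insert, mem_low]
    refine ⟨fun hs => ?_, ?_⟩
    · rcases (hmax s hs).eq_or_lt with e | e
      · obtain ⟨y, h1, h2⟩ := key {t, s}
        exact Or.inl ((z_inv h1).2 t ((h2 t (by simp)).2 ht) s ((h2 s (by simp)).2 hs) e)
      · exact Or.inr ⟨hs, e⟩
    · rintro (rfl | hs)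
      exacts [ht, hs.1]
  by_cases hk : ∃ k, S.low t w.fin = S.J t k
  · obtain ⟨k, hk⟩ := hk
    left
    rw [hw', hk]
    exact Op.step t k hv.1 hv.2.1 hv.2.2
  push Not at hk
  have hp : S.low t w.fin = S.p t := by
    by_contra hp
    obtain ⟨a, ha⟩ := differ hp
    obtain ⟨k0, hk0⟩ := eventually_atTop.1 (hv.2.2.2.2 a)
    choose b hb using fun k => differ (hk k)
    obtain ⟨y, h1, h2⟩ := key (insert t (insert a ((Finset.range k0).image b)))
    have e : ∀ c ∈ insert t (insert a ((Finset.range k0).image b)),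
        (c ∈ S.low t y ↔ c ∈ S.low t w.fin) := fun c hc => by
      rw [mem_low, mem_low, h2 c hc]
    rcases ((z_inv h1).1 t ((h2 t (by simp)).2 ht)).2 with e1 | ⟨k, e1⟩
    · exact ha (by rw [← e a (by simp), e1])
    · rcases lt_or_ge k k0 with h3 | h3
      · refine hb k ?_
        rw [← e (b k) (Finset.mem_insert_of_mem (Finset.mem_insert_of_mem
          (Finset.mem_image_of_mem b (Finset.mem_range.2 h3)))), e1]
      · exact ha (by rw [← e a (by simp), e1, hk0 k h3])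
  exact Or.inr ⟨t, hv, fun k h => hk k (hp.trans h.symm), by rw [← hp]; exact hw'⟩

/-- The `m`-th basic set around the terminal point with top `t`. -/
def D (S : Sys A T) (t : A) (m : ℕ) (v : Finset A) : Prop :=
  t ∈ v ∧ (S.low t v = S.p t ∨ ∃ k ≥ m, S.low t v = S.J t k)

theorem away {t : A} (hv : S.Valid t) (hne : ∀ k, S.J t k ≠ S.p t) {u : Finset A} (hu : S.Op u) :
    ∃ F : Finset A, ∀ᶠ m in atTop, ∀ v : Finset A, (∀ a ∈ F, (a ∈ v ↔ a ∈ u)) → ¬ S.D t m v := by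
  by_cases ht : t ∈ u
  swap
  · exact ⟨{t}, Eventually.of_forall fun m v h hD => ht ((h t (by simp)).1 hD.1)⟩
  obtain ⟨-, k0, hk0⟩ := (op_inv hu).1 t ht
  obtain ⟨b, hb⟩ := differ (hne k0)
  obtain ⟨m0, hm0⟩ := eventually_atTop.1 (hv.2.2.2.2 b)
  refine ⟨{b}, eventually_atTop.2 ⟨m0, fun m hm v h hD => hb ?_⟩⟩
  have e : b ∈ S.low t v ↔ b ∈ S.J t k0 := by rw [← hk0, mem_low, mem_low, h b (by simp)]
  rcases hD.2 with e1 | ⟨k, hk, e1⟩
  · rw [← e, e1]
  · rw [← e, e1, hm0 k (hm.trans hk)]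

theorem base {t : A} (hv : S.Valid t) (hne : ∀ k, S.J t k ≠ S.p t) (a : A) :
    ∀ᶠ m in atTop, ∀ y, S.Z y → S.D t m y → (a ∈ y ↔ a ∈ insert t (S.p t)) := by
  rcases lt_trichotomy (S.rk a) (S.rk t) with h | h | h
  · obtain ⟨m0, hm0⟩ := eventually_atTop.1 (hv.2.2.2.2 a)
    refine eventually_atTop.2 ⟨m0, fun m hm y _ hD => ?_⟩
    have e0 : a ≠ t := fun e => by rw [e] at h; exact lt_irrefl _ h
    have e1 : a ∈ y ↔ a ∈ S.low t y := by rw [mem_low]; exact ⟨fun h' => ⟨h', h⟩, fun h' => h'.1⟩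
    rw [e1, Finset.mem_insert, or_iff_right e0]
    rcases hD.2 with e2 | ⟨k, hk, e2⟩
    · rw [e2]
    · rw [e2, hm0 k (hm.trans hk)]
  · refine Eventually.of_forall fun m y hy hD => ⟨fun ha => ?_, fun ha => ?_⟩
    · rw [(z_inv hy).2 t hD.1 a ha h]; exact Finset.mem_insert_self _ _
    · rcases Finset.mem_insert.1 ha with rfl | ha
      · exact hD.1
      · exact absurd h (hv.2.2.2.1 a ha).ne
  have e0 : a ∉ insert t (S.p t) := fun ha => by
    rcases Finset.mem_insert.1 ha with rfl | ha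
    · exact lt_irrefl _ h
    · exact h.not_gt (hv.2.2.2.1 a ha)
  by_cases ha : S.Valid a
  swap
  · exact Eventually.of_forall fun m y hy _ =>
      ⟨fun h' => absurd ((z_inv hy).1 a h').1 ha, fun h' => absurd h' e0⟩
  obtain ⟨F, hF⟩ := away hv hne ha.2.1
  obtain ⟨j0, hj0⟩ := eventually_atTop.1 (F.eventually_all.2 fun b _ => ha.2.2.2.2 b)
  have h2 : ∀ᶠ m in atTop, ∀ j ∈ Finset.range j0, ¬ S.D t m (S.J a j) :=
    (Finset.range j0).eventually_all.2 fun j _ => by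
      obtain ⟨F', hF'⟩ := away hv hne (ha.1 j)
      exact hF'.mono fun m hm => hm _ fun _ _ => Iff.rfl
  filter_upwards [hF, h2] with m e1 e2 y hy hD
  refine ⟨fun hay => ?_, fun h' => absurd h' e0⟩
  have e3 : S.D t m (S.low a y) := by
    have : S.low t (S.low a y) = S.low t y := by
      ext c
      simp only [mem_low]
      exact ⟨fun hc => ⟨hc.1.1, hc.2⟩, fun hc => ⟨⟨hc.1, hc.2.trans h⟩, hc.2⟩⟩
    exact ⟨mem_low.2 ⟨hD.1, h⟩, this ▸ hD.2⟩
  exfalso
  rcases ((z_inv hy).1 a hay).2 with e4 | ⟨j, e4⟩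
  · exact e1 _ (fun _ _ => Iff.rfl) (e4 ▸ e3)
  · rcases lt_or_ge j j0 with h3 | h3
    · exact e2 j (Finset.mem_range.2 h3) (e4 ▸ e3)
    · exact e1 _ (hj0 j h3) (e4 ▸ e3)

/-- The space of terminal points. -/
def X (S : Sys A T) : Set (FS A) := {y | S.Term y.fin}

theorem first_countable : FirstCountableTopology S.X := by
  refine ⟨fun x => ?_⟩
  obtain ⟨t, hv, hne, hx⟩ := x.2
  have hb : (𝓝 x).HasBasis (fun _ : ℕ => True)
      fun m => {y : S.X | t ∈ y.1.fin ∧ ∀ k ∈ Finset.range m, S.low t y.1.fin ≠ S.J t k} := by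
    refine ⟨fun U => ⟨fun hU => ?_, ?_⟩⟩
    · rw [nhds_subtype] at hU
      obtain ⟨V, hV, hVU⟩ := hU
      obtain ⟨F, hF⟩ := exists_fin hV
      obtain ⟨m, hm⟩ := (F.eventually_all.2 fun a _ => base hv hne a).exists
      refine ⟨m, trivial, fun y hy => hVU (hF y.1 fun a ha => ?_)⟩
      rw [hx]
      refine hm a ha _ (Or.inr y.2) ⟨hy.1, ?_⟩
      refine ((z_inv (Or.inr y.2)).1 t hy.1).2.imp id fun ⟨k, hk⟩ => ⟨k, ?_, hk⟩
      exact not_lt.1 fun h => hy.2 k (Finset.mem_range.2 h) hk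
    · rintro ⟨m, -, hm⟩
      refine mem_of_superset ?_ hm
      have e : ∀ a, ∀ᶠ y : S.X in 𝓝 x, (a ∈ y.1.fin ↔ a ∈ x.1.fin) := fun a =>
        continuous_subtype_val.continuousAt.eventually (ev_nhds x.1 a)
      refine Eventually.and ((e t).mono fun y hy => hy.2 (hx ▸ Finset.mem_insert_self _ _))
        ((Finset.range m).eventually_all.2 fun k _ => ?_)
      obtain ⟨b, hb⟩ := differ (hne k)
      refine (e b).mono fun y hy h => hb ?_
      rw [← h, mem_low, hy, ← mem_low, hx, low_top hv.2.2.2.1]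
  exact (HasCountableBasis.mk hb (to_countable _)).isCountablyGenerated

theorem exists_seq {q : Finset A} (hq : S.Op q) : ∃ K : ℕ → Finset A, (∀ n, S.Op (K n)) ∧
    (∀ n, K n ≠ q) ∧ ∀ a, ∀ᶠ n in atTop, (a ∈ K n ↔ a ∈ q) := by
  have hinf : {u | S.J u = (fun _ => q) ∧ S.p u = q ∧ ∀ s ∈ q, S.rk s < S.rk u}.Infinite := by
    intro hf
    obtain ⟨t, h1, h2, h3, h4, -⟩ := S.ext q (fun _ => q) _ hf.countable
    exact h1 ⟨h2, h3, h4⟩
  let u := hinf.natEmbedding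
  refine ⟨fun n => insert (u n).1 q, fun n => ?_, fun n h => ?_, fun a => ?_⟩
  · obtain ⟨h1, h2, h3⟩ := (u n).2
    have := Op.step (S := S) (u n).1 0 (by rw [h1]; exact fun _ => hq) (by rw [h2]; exact hq)
      ⟨by rw [h1]; exact fun _ => h3, by rw [h2]; exact h3, by rw [h1, h2]; simp⟩
    rwa [h1] at this
  · have h' : insert (u n).1 q = q := h
    exact lt_irrefl _ ((u n).2.2.2 (u n).1 (h'.subset (Finset.mem_insert_self _ _)))
  · have : ∀ᶠ n in atTop, (u n).1 ≠ a := by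
      rw [← Nat.cofinite_eq_atTop]
      exact (Subtype.val_injective.comp u.injective).tendsto_cofinite
        (eventually_cofinite_ne a)
    exact this.mono fun n hn => by rw [Finset.mem_insert, or_iff_right hn.symm]

theorem mk_term {q : Finset A} (hq : S.Op q) {K : ℕ → Finset A} (h1 : ∀ n, S.Op (K n))
    (h2 : ∀ n, K n ≠ q) (h3 : ∀ a, ∀ᶠ n in atTop, (a ∈ K n ↔ a ∈ q)) {t : A} (e1 : S.J t = K)
    (e2 : S.p t = q) (e3 : ∀ s ∈ q, S.rk s < S.rk t) (e4 : ∀ k, ∀ s ∈ K k, S.rk s < S.rk t) :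
    S.Valid t ∧ ∀ k, S.J t k ≠ S.p t := by
  subst e1 e2
  exact ⟨⟨h1, hq, e4, e3, h3⟩, h2⟩

theorem dens {q : Finset A} (hq : S.Op q) (E : Finset A) :
    ∃ s, s ∉ E ∧ (∀ a ∈ q, S.rk a < S.rk s) ∧ S.Term (insert s q) := by
  obtain ⟨K, h1, h2, h3⟩ := exists_seq hq
  obtain ⟨t, e0, e1, e2, e3, e4⟩ := S.ext q K E E.countable_toSet
  obtain ⟨h4, h5⟩ := mk_term hq h1 h2 h3 e1 e2 e3 e4
  exact ⟨t, e0, e3, t, h4, h5, by rw [e2]⟩

theorem approx {f : S.X → ℝ} (hf : Continuous f) (x : S.X) {δ : ℝ} (hδ : 0 < δ) (F : Finset A) :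
    ∃ K E : Finset A, S.Op K ∧ (∀ a ∈ F, (a ∈ K ↔ a ∈ x.1.fin)) ∧
      ∀ y : S.X, (∀ a ∈ E, (a ∈ y.1.fin ↔ a ∈ K)) → dist (f y) (f x) < δ := by
  obtain ⟨t, hv, hne, hx⟩ := x.2
  have hU := hf.continuousAt.eventually (Metric.ball_mem_nhds (f x) hδ)
  rw [nhds_subtype] at hU
  obtain ⟨V, hV, hVU⟩ := hU
  obtain ⟨E, hE⟩ := exists_fin hV
  obtain ⟨k, hk⟩ := ((F ∪ E).eventually_all.2 fun a _ => hv.2.2.2.2 a).exists
  have e : ∀ a ∈ F ∪ E, (a ∈ insert t (S.J t k) ↔ a ∈ x.1.fin) := fun a ha => by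
    rw [hx, Finset.mem_insert, Finset.mem_insert, hk a ha]
  exact ⟨insert t (S.J t k), E, Op.step t k hv.1 hv.2.1 hv.2.2,
    fun a ha => e a (Finset.mem_union_left _ ha),
    fun y hy => hVU (hE y.1 fun a ha => (hy a ha).trans (e a (Finset.mem_union_right _ ha)))⟩

theorem cauchy {f : S.X → ℝ} (hf : Continuous f) {q : Finset A} (hq : S.Op q) {ε : ℝ}
    (hε : 0 < ε) : ∃ F : Finset A, ∀ x x' : S.X, (∀ a ∈ F, (a ∈ x.1.fin ↔ a ∈ q)) →
      (∀ a ∈ F, (a ∈ x'.1.fin ↔ a ∈ q)) → dist (f x) (f x') < ε := by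
  by_contra hc
  push Not at hc
  have hδ : 0 < ε / 4 := by positivity
  have one : ∀ (x : S.X) (F : Finset A), (∀ a ∈ F, (a ∈ x.1.fin ↔ a ∈ q)) →
      ∃ K E : Finset A, S.Op K ∧ K ≠ q ∧ (∀ a ∈ F, (a ∈ K ↔ a ∈ q)) ∧
        ∀ y : S.X, (∀ a ∈ E, (a ∈ y.1.fin ↔ a ∈ K)) → dist (f y) (f x) < ε / 4 := by
    intro x F hx
    obtain ⟨b, hb⟩ := differ (show x.1.fin ≠ q from fun h => not_op x.2 (h ▸ hq))
    obtain ⟨K, E, h1, h2, h3⟩ := approx hf x hδ (insert b F)
    exact ⟨K, E, h1, fun h => hb (by rw [← h, h2 b (by simp)]),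
      fun a ha => (h2 a (Finset.mem_insert_of_mem ha)).trans (hx a ha), h3⟩
  have two : ∀ F : Finset A, ∃ K E : Bool → Finset A,
      (∀ i, S.Op (K i) ∧ K i ≠ q ∧ ∀ a ∈ F, (a ∈ K i ↔ a ∈ q)) ∧
      ∀ y : Bool → S.X, (∀ i, ∀ a ∈ E i, (a ∈ (y i).1.fin ↔ a ∈ K i)) →
        ε / 2 < dist (f (y true)) (f (y false)) := by
    intro F
    obtain ⟨x, x', h1, h2, h3⟩ := hc F
    obtain ⟨K, E, a1, a2, a3, a4⟩ := one x F h1
    obtain ⟨K', E', b1, b2, b3, b4⟩ := one x' F h2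
    refine ⟨fun i => cond i K K', fun i => cond i E E', fun i => ?_, fun y hy => ?_⟩
    · cases i
      exacts [⟨b1, b2, b3⟩, ⟨a1, a2, a3⟩]
    · have c1 := a4 _ (hy true)
      have c2 := b4 _ (hy false)
      have c3 := dist_triangle4 (f x) (f (y true)) (f (y false)) (f x')
      rw [dist_comm] at c1
      linarith
  choose K E hK hE using two
  let F : ℕ → Finset A := fun n => Nat.rec q (fun _ G => G ∪ (K G true ∪ K G false)) n
  have hF : ∀ n, F (n + 1) = F n ∪ (K (F n) true ∪ K (F n) false) := fun n => rfl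
  have hmono : Monotone F := monotone_nat_of_le_succ fun n => by
    rw [hF]; exact Finset.subset_union_left
  have hconv : ∀ a, ∀ᶠ n in atTop, ∀ i, (a ∈ K (F n) i ↔ a ∈ q) := by
    intro a
    rcases Classical.em (∃ n, a ∈ F n) with h | h
    · obtain ⟨n, hn⟩ := h
      exact eventually_atTop.2 ⟨n, fun m hm i => (hK (F m) i).2.2 a (hmono hm hn)⟩
    · push Not at h
      refine Eventually.of_forall fun n i => ⟨fun h' => absurd ?_ (h (n + 1)),
        fun h' => absurd h' (h 0)⟩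
      rw [hF]
      cases i <;> simp [h']
  let L : ℕ → Finset A := fun k => K (F k.div2) k.bodd
  have hL : ∀ a, ∀ᶠ k in atTop, (a ∈ L k ↔ a ∈ q) := fun a => by
    obtain ⟨n, hn⟩ := eventually_atTop.1 (hconv a)
    exact eventually_atTop.2 ⟨2 * n, fun k hk => hn _ (by rw [Nat.div2_val]; omega) _⟩
  obtain ⟨t, e0, e1, e2, e3, e4⟩ := S.ext q L (⋃ k : ℕ, (E (F k.div2) k.bodd : Set A))
    (countable_iUnion fun k => Finset.countable_toSet _)
  obtain ⟨hv, hne⟩ := mk_term hq (fun k => (hK _ _).1) (fun k => (hK _ _).2.1) hL e1 e2 e3 e4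
  have hop : ∀ k, S.Op (insert t (L k)) := fun k => e1 ▸ Op.step t k hv.1 hv.2.1 hv.2.2
  choose s s1 s2 s3 using fun k => dens (hop k) (E (F k.div2) k.bodd)
  let y : ℕ → S.X := fun k => ⟨FS.of (insert (s k) (insert t (L k))), s3 k⟩
  let z : S.X := ⟨FS.of (insert t (S.p t)), t, hv, hne, rfl⟩
  have hy : ∀ k, ∀ a ∈ E (F k.div2) k.bodd, (a ∈ (y k).1.fin ↔ a ∈ L k) := fun k a ha => by
    show a ∈ insert (s k) (insert t (L k)) ↔ _
    rw [Finset.mem_insert, Finset.mem_insert, or_iff_right, or_iff_right]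
    · rintro rfl; exact e0 (mem_iUnion.2 ⟨k, ha⟩)
    · rintro rfl; exact s1 k ha
  have hlim : Tendsto y atTop (𝓝 z) := by
    rw [IsEmbedding.subtypeVal.tendsto_nhds_iff, tendsto_iff]
    intro a
    obtain ⟨m, hm⟩ := (base hv hne a).exists
    refine eventually_atTop.2 ⟨m, fun k hk => hm _ (Or.inr (s3 k))
      ⟨Finset.mem_insert_of_mem (Finset.mem_insert_self _ _), Or.inr ⟨k, hk, ?_⟩⟩⟩
    show S.low t (insert (s k) (insert t (L k))) = _
    rw [low_below (s2 k t (Finset.mem_insert_self _ _)), low_top (e4 k), e1]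
  obtain ⟨n, hn⟩ := eventually_atTop.1 (((hf.tendsto z).comp hlim).eventually
    (Metric.ball_mem_nhds (f z) hδ))
  have b1 : ∀ i, (Nat.bit i n).div2 = n := fun i => Nat.div2_bit i n
  have b2 : ∀ i, (Nat.bit i n).bodd = i := fun i => Nat.bodd_bit i n
  have b3 : ∀ i, n ≤ Nat.bit i n := fun i => by rw [Nat.bit_val]; omega
  have := hE (F n) (fun i => y (Nat.bit i n)) fun i a ha => by
    have := hy (Nat.bit i n) a (by rw [b1, b2]; exact ha)
    simpa only [L, b1, b2] using this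
  have c1 : dist (f (y (Nat.bit true n))) (f z) < ε / 4 := hn _ (b3 true)
  have c2 : dist (f (y (Nat.bit false n))) (f z) < ε / 4 := hn _ (b3 false)
  have c3 := dist_triangle_right (f (y (Nat.bit true n))) (f (y (Nat.bit false n))) (f z)
  linarith

theorem extends_all (f : S.X → ℝ) (hf : Continuous f) :
    ∃ g : FS A → ℝ, Continuous g ∧ ∀ x : S.X, g x = f x := by
  have hsub : S.X ⊆ {y : FS A | S.Z y.fin} := fun y hy => Or.inr hy
  have hcl : ∀ q : FS A, S.Op q.fin → q ∈ closure S.X := fun q hq => by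
    refine mem_closure_iff_nhds.2 fun U hU => ?_
    obtain ⟨F, hF⟩ := exists_fin hU
    obtain ⟨s, h1, -, h3⟩ := dens hq F
    refine ⟨FS.of (insert s q.fin), hF _ fun a ha => ?_, h3⟩
    show a ∈ insert s q.fin ↔ _
    rw [Finset.mem_insert, or_iff_right]
    rintro rfl
    exact h1 ha
  have di : IsDenseInducing (inclusion hsub) := ⟨(IsEmbedding.inclusion hsub).isInducing,
    (denseRange_inclusion_iff hsub).2 fun y hy => hy.elim (hcl y) fun h => subset_closure h⟩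
  have hlim : ∀ z, ∃ c, Tendsto f (comap (inclusion hsub) (𝓝 z)) (𝓝 c) := by
    rintro ⟨z, hz | hz⟩
    · have := di.comap_nhds_neBot ⟨z, Or.inl hz⟩
      refine cauchy_map_iff_exists_tendsto.1 (Metric.cauchy_iff.2 ⟨(di.comap_nhds_neBot _).map _,
        fun ε hε => ?_⟩)
      obtain ⟨F, hF⟩ := cauchy hf hz hε
      refine ⟨f '' {x | ∀ a ∈ F, (a ∈ x.1.fin ↔ a ∈ z.fin)}, image_mem_map ?_, ?_⟩
      · exact ⟨_, continuous_subtype_val.continuousAt.preimage_mem_nhds (agree_nhds z F),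
          fun x hx => hx⟩
      · rintro _ ⟨x, hx, rfl⟩ _ ⟨x', hx', rfl⟩
        exact hF x x' hx hx'
    · exact ⟨f ⟨z, hz⟩, by
        have := di.isInducing.nhds_eq_comap ⟨z, hz⟩
        exact this ▸ hf.tendsto _⟩
  obtain ⟨g, hg⟩ := ContinuousMap.exists_restrict_eq z_closed
    (⟨di.extend f, di.continuous_extend hlim⟩ : C({y : FS A | S.Z y.fin}, ℝ))
  refine ⟨g, g.continuous, fun x => ?_⟩
  rw [← di.extend_eq hf x]
  exact DFunLike.congr_fun hg (inclusion hsub x)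

end Sys

open Cardinal in
theorem final : ∃ (X : Type) (_ : TopologicalSpace X), T35Space X ∧ FirstCountableTopology X ∧
    (∃ (K M : Type) (_ : TopologicalSpace K) (_ : TopologicalSpace M),
      CompactSpace K ∧ T2Space K ∧ SeparableSpace M ∧ MetrizableSpace M ∧
      ∃ F : Set (K × M), IsClosed F ∧ ∃ φ : F → {f : X → ℝ // Continuous f},
        Continuous φ ∧ Function.Surjective φ) ∧ 𝔠 < #X := by
  classical
  let T : Type := (Order.succ ℵ₀).ord.ToType
  have hT : #T = Order.succ ℵ₀ := mk_ord_toType _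
  have : Uncountable T := by rw [← aleph0_lt_mk_iff, hT]; exact Order.lt_succ _
  have hI : ∀ ξ : T, (Iio ξ).Countable := fun ξ =>
    le_aleph0_iff_set_countable.1 (Order.lt_succ_iff.1 (Cardinal.mk_Iio_toType_ord_lt ξ))
  let L := Set ℝ
  have hL : #L = 2 ^ 𝔠 := by simp [L, mk_real]
  have h0 : ℵ₀ ≤ 2 ^ 𝔠 := aleph0_le_continuum.trans (cantor _).le
  have hA : #(T × L) = 2 ^ 𝔠 := by
    rw [mk_prod, lift_id, lift_id, hT, hL]
    exact mul_eq_right h0 ((Order.succ_le_of_lt aleph0_lt_continuum).trans (cantor _).le)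
      (Order.succ_ne_bot _)
  have hF : #(Finset (T × L)) = 2 ^ 𝔠 := by rw [mk_finset_of_infinite, hA]
  have hP : #(ℕ → Finset (T × L)) = 2 ^ 𝔠 := by
    rw [← power_def, hF, mk_nat, ← power_mul, continuum_mul_aleph0]
  obtain ⟨c⟩ : Nonempty (L ≃ (Finset (T × L) × (ℕ → Finset (T × L))) × L) := by
    rw [← Cardinal.eq]
    simp only [mk_prod, lift_id, hF, hP, hL, mul_eq_self h0]
  have bd : ∀ (q : Finset (T × L)) (K : ℕ → Finset (T × L)) (E : Set (T × L)), E.Countable →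
      ∃ α : T, (∀ s ∈ E, s.1 < α) ∧ (∀ s ∈ q, s.1 < α) ∧ ∀ k, ∀ s ∈ K k, s.1 < α := by
    intro q K E hE
    obtain ⟨α, hα⟩ := SubMeta.bddT hI (Prod.fst '' (E ∪ (q ∪ ⋃ k, K k)))
      ((hE.union (q.countable_toSet.union (countable_iUnion fun k => (K k).countable_toSet))).image _)
    exact ⟨α, fun s hs => hα _ ⟨s, Or.inl hs, rfl⟩, fun s hs => hα _ ⟨s, Or.inr (Or.inl hs), rfl⟩,
      fun k s hs => hα _ ⟨s, Or.inr (Or.inr (mem_iUnion.2 ⟨k, hs⟩)), rfl⟩⟩
  let S : Sys (T × L) T := ⟨Prod.fst, fun t => (c t.2).1.2, fun t => (c t.2).1.1,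
    fun q K E hE => by
      obtain ⟨α, h1, h2, h3⟩ := bd q K E hE
      exact ⟨(α, c.symm ((q, K), ∅)), fun h => lt_irrefl _ (h1 _ h), by simp, by simp, h2, h3⟩⟩
  refine ⟨S.X, inferInstance, inferInstance, Sys.first_countable, lsigma S.X Sys.extends_all, ?_⟩
  obtain ⟨K, h1, h2, h3⟩ := Sys.exists_seq (Sys.Op.empty (S := S))
  obtain ⟨α, -, e3, e4⟩ := bd ∅ K ∅ countable_empty
  have key : ∀ l : L, S.Term {(α, c.symm ((∅, K), l))} := fun l => by
    have e1 : S.J (α, c.symm ((∅, K), l)) = K := by simp [S]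
    have e2 : S.p (α, c.symm ((∅, K), l)) = ∅ := by simp [S]
    obtain ⟨h4, h5⟩ := Sys.mk_term Sys.Op.empty h1 h2 h3 e1 e2 e3 e4
    exact ⟨_, h4, h5, by rw [e2]; rfl⟩
  refine (cantor 𝔠).trans_le (hL ▸ mk_le_of_injective
    (f := fun l : L => (⟨FS.of {(α, c.symm ((∅, K), l))}, key l⟩ : S.X)) fun l l' h => ?_)
  have h' : ({(α, c.symm ((∅, K), l))} : Finset (T × L)) = {(α, c.symm ((∅, K), l'))} :=
    congrArg (fun x : S.X => x.1.fin) h
  simpa using h'

end Pool.Agent.H33.Rez
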