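import Mathlib

/-!
A Reznichenko type system of trees, simultaneously for all subsets of the Cantor set.
-/

open Set

namespace Pool.Agent.H33.RzS1

/-- trees -/
abbrev Tr : Type := Set ℕ × ℝ

/-- points -/
inductive Pt : Type
  | nil : Pt
  | mk (S : Set (Set ℕ)) (s : Set ℕ) (tr : ℕ → Option Tr) (ch : ℕ → Pt) : Pt

/-- rank -/
noncomputable def rk : Pt → Ordinal.{0}
  | .nil => 0
  | .mk _ _ _ ch => (⨆ n, rk (ch n)) + 1

/-- the segment below a point -/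
def seg (τ : Tr) : Pt → Set Pt
  | .nil => ∅
  | .mk S s tr ch => insert (.mk S s tr ch) (⋃ n, ⋃ _ : tr n = some τ, seg τ (ch n))

/-- level -/
def Lev (τ : Tr) : Pt → ℕ → Prop
  | .nil, k => k = 0
  | .mk _ _ tr ch, k => ∃ n, tr n = some τ ∧ ∃ j, k = j + 1 ∧ Lev τ (ch n) j

/-- label -/
def lab : Pt → Set ℕ
  | .nil => ∅
  | .mk _ s _ _ => s

/-- family -/
def fam : Pt → Set (Set ℕ)
  | .nil => ∅
  | .mk S _ _ _ => S

/-- trees through a point -/
def trs : Pt → Set Tr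
  | .nil => ∅
  | .mk _ _ tr _ => {τ | ∃ n, tr n = some τ}

/-- validity -/
def Val (S : Set (Set ℕ)) : Pt → Prop
  | .nil => True
  | .mk S' s tr ch => S' = S ∧ s ∈ S ∧
      (∀ n τ, tr n = some τ → τ.1 ∉ S ∧ Val S (ch n) ∧
        ∃ k, Lev τ (ch n) k ∧ ∀ j < k, (j ∈ s ↔ j ∈ τ.1)) ∧
      ∀ n n' τ τ', n ≠ n' → tr n = some τ → tr n' = some τ' →
        τ ≠ τ' ∧ Disjoint (seg τ (ch n)) (seg τ' (ch n'))

/-- immediate successor -/
def Suc (τ : Tr) (δ γ : Pt) : Prop :=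
  ∃ S s tr ch n, γ = .mk S s tr ch ∧ tr n = some τ ∧ ch n = δ

variable {S : Set (Set ℕ)} {τ τ' : Tr} {x y : Pt}

theorem rk_seg (h : x ∈ seg τ y) : x = y ∨ rk x < rk y := by
  induction y with
  | nil => exact h.elim
  | mk S s tr ch ih =>
    rcases h with h | h
    · exact Or.inl h
    · obtain ⟨n, -, h⟩ := mem_iUnion₂.1 h
      have h1 : rk (ch n) < rk (.mk S s tr ch) :=
        (le_ciSup (f := fun n => rk (ch n)) Ordinal.bddAbove_of_small n).trans_lt (lt_add_one _)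
      exact Or.inr ((ih n h).elim (fun h => h ▸ h1) fun h => h.trans h1)

theorem self_seg (h : y ≠ .nil) : y ∈ seg τ y := by
  cases y with
  | nil => exact absurd rfl h
  | mk S s tr ch => exact Or.inl rfl

theorem val_seg (hy : Val S y) (h : x ∈ seg τ y) : Val S x ∧ x ≠ .nil := by
  induction y with
  | nil => exact h.elim
  | mk S' s tr ch ih =>
    rcases h with rfl | h
    · exact ⟨hy, fun h => by cases h⟩
    · obtain ⟨n, hn, h⟩ := mem_iUnion₂.1 h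
      exact ih n (hy.2.2.1 n τ hn).2.1 h

theorem val_fam (hy : Val S y) (h : y ≠ .nil) : fam y = S ∧ lab y ∈ S := by
  cases y with
  | nil => exact absurd rfl h
  | mk S s tr ch => exact ⟨hy.1, hy.2.1⟩

theorem lev_uniq {k k' : ℕ} (hy : Val S y) (h : Lev τ y k) (h' : Lev τ y k') : k = k' := by
  induction y generalizing k k' with
  | nil => exact h.trans h'.symm
  | mk S' s tr ch ih =>
    obtain ⟨n, hn, j, rfl, h⟩ := h
    obtain ⟨n', hn', j', rfl, h'⟩ := h'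
    obtain rfl : n = n' := by
      by_contra hne
      exact (hy.2.2.2 n n' τ τ hne hn hn').1 rfl
    rw [ih n (hy.2.2.1 n τ hn).2.1 h h']

theorem lev_seg (hy : Val S y) (h : x ∈ seg τ y) (hne : x ≠ y) :
    ∃ j k, j < k ∧ Lev τ x j ∧ Lev τ y k := by
  induction y with
  | nil => exact h.elim
  | mk S' s tr ch ih =>
    rcases h with h | h
    · exact absurd h hne
    obtain ⟨n, hn, h⟩ := mem_iUnion₂.1 h
    obtain ⟨-, h1, k, hk, -⟩ := hy.2.2.1 n τ hn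
    by_cases h2 : x = ch n
    · exact ⟨k, k + 1, Nat.lt_succ_self k, h2 ▸ hk, n, hn, k, rfl, hk⟩
    · obtain ⟨j, k', h3, h4, h5⟩ := ih n h1 h h2
      exact ⟨j, k' + 1, h3.trans (Nat.lt_succ_self _), h4, n, hn, k', rfl, h5⟩

theorem lev_lab {k : ℕ} (hy : Val S y) (hne : y ≠ .nil) (h : Lev τ y k) :
    τ.1 ∉ S ∧ ∀ j, j + 1 < k → (j ∈ lab y ↔ j ∈ τ.1) := by
  cases y with
  | nil => exact absurd rfl hne
  | mk S' s tr ch =>
    obtain ⟨n, hn, j, rfl, h⟩ := h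
    obtain ⟨h0, h1, k, hk, h2⟩ := hy.2.2.1 n τ hn
    rw [lev_uniq h1 h hk]
    exact ⟨h0, fun i hi => h2 i (by omega)⟩

theorem tree_uniq (hy : Val S y) (h : x ∈ seg τ y) (h' : x ∈ seg τ' y) (hne : x ≠ y) : τ = τ' := by
  cases y with
  | nil => exact h.elim
  | mk S' s tr ch =>
    obtain ⟨n, hn, h⟩ := mem_iUnion₂.1 (h.resolve_left hne)
    obtain ⟨n', hn', h'⟩ := mem_iUnion₂.1 (h'.resolve_left hne)
    obtain rfl : n = n' := by
      by_contra hne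
      exact disjoint_left.1 (hy.2.2.2 n n' τ τ' hne hn hn').2 h h'
    exact Option.some_injective _ (hn.symm.trans hn')

theorem seg_countable (τ : Tr) (y : Pt) : (seg τ y).Countable := by
  induction y with
  | nil => exact countable_empty
  | mk S s tr ch ih => exact (countable_iUnion fun n => countable_iUnion fun _ => ih n).insert _

theorem trs_countable (y : Pt) : (trs y).Countable := by
  cases y with
  | nil => exact countable_empty
  | mk S s tr ch =>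
    exact (countable_range tr).preimage (Option.some_injective _)

theorem lev_trs {k : ℕ} (hne : y ≠ .nil) (h : Lev τ y k) : τ ∈ trs y := by
  cases y with
  | nil => exact absurd rfl hne
  | mk S' s tr ch => exact h.imp fun _ h => h.1

theorem seg_trs {k : ℕ} (hy : Val S y) (hk : Lev τ y k) (h : x ∈ seg τ y) : τ ∈ trs x := by
  by_cases hne : x = y
  · exact lev_trs (val_seg hy h).2 (hne ▸ hk)
  · obtain ⟨j, -, -, h1, -⟩ := lev_seg hy h hne
    exact lev_trs (val_seg hy h).2 h1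

theorem Suc.seg {δ γ : Pt} (h : Suc τ δ γ) : seg τ δ ⊆ seg τ γ := by
  obtain ⟨S, s, tr, ch, n, rfl, hn, rfl⟩ := h
  exact fun x hx => Or.inr (mem_iUnion₂.2 ⟨n, hn, hx⟩)

theorem Suc.lev {δ γ : Pt} {k : ℕ} (h : Suc τ δ γ) (hk : Lev τ δ k) : Lev τ γ (k + 1) := by
  obtain ⟨S, s, tr, ch, n, rfl, hn, rfl⟩ := h
  exact ⟨n, hn, k, rfl, hk⟩

theorem Suc.ne {δ γ : Pt} (h : Suc τ δ γ) : γ ≠ .nil := by
  obtain ⟨S, s, tr, ch, n, rfl, -, -⟩ := h
  exact fun h => by cases h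

/-- A common successor of countably many suitably chosen points. -/
theorem exists_common {s : Set ℕ} (hs : s ∈ S) (P : ℕ → Prop) (Q : ℕ → Tr → Pt → Prop)
    (hQ : ∀ n τ δ, Q n τ δ → τ.1 ∉ S ∧ Val S δ ∧ ∃ k, Lev τ δ k ∧ ∀ j < k, (j ∈ s ↔ j ∈ τ.1))
    (h : ∀ n, P n → ¬ {i | ∃ b δ, Q n (b, i) δ}.Countable) :
    ∃ γ, γ ≠ .nil ∧ Val S γ ∧ lab γ = s ∧ ∀ n, P n → ∃ τ δ, Q n τ δ ∧ Suc τ δ γ := by
  classical
  have h1 : ∀ (n : ℕ) (E : {E : Set ℝ // E.Countable}), ∃ p : Tr × Pt,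
      P n → Q n p.1 p.2 ∧ p.1.2 ∉ E.1 := by
    intro n E
    by_cases hn : P n
    · obtain ⟨i, ⟨b, δ, h2⟩, h3⟩ := not_subset.1 fun h' => h n hn (E.2.mono h')
      exact ⟨((b, i), δ), fun _ => ⟨h2, h3⟩⟩
    · exact ⟨((∅, 0), .nil), fun h => absurd h hn⟩
  choose p hp using h1
  let E : ℕ → {E : Set ℝ // E.Countable} := fun n => Nat.rec ⟨∅, countable_empty⟩ (fun n E =>
    ⟨E.1 ∪ insert (p n E).1.2 (⋃ x ∈ seg (p n E).1 (p n E).2, Prod.snd '' trs x),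
      E.2.union (((seg_countable _ _).biUnion fun x _ => (trs_countable x).image _).insert _)⟩) n
  have hE : Monotone fun n => (E n).1 := monotone_nat_of_le_succ fun n => subset_union_left
  have h2 : ∀ n n', n < n' → P n → P n' → (p n (E n)).1 ≠ (p n' (E n')).1 ∧
      Disjoint (seg (p n (E n)).1 (p n (E n)).2) (seg (p n' (E n')).1 (p n' (E n')).2) := by
    intro n n' hn _ h4
    obtain ⟨h5, h6⟩ := hp n' (E n') h4
    obtain ⟨-, h7, k, hk, -⟩ := hQ _ _ _ h5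
    refine ⟨fun h => h6 (hE hn (Or.inr (Or.inl (h ▸ rfl)))), disjoint_left.2 fun x hx hx' =>
      h6 (hE hn (Or.inr (Or.inr (mem_biUnion hx (mem_image_of_mem _ (seg_trs h7 hk hx'))))))⟩
  have h3 : ∀ n τ, (if P n then some (p n (E n)).1 else none) = some τ →
      P n ∧ τ = (p n (E n)).1 := by
    intro n τ h
    split_ifs at h with hn
    exact ⟨hn, (Option.some_injective _ h).symm⟩
  refine ⟨.mk S s (fun n => if P n then some (p n (E n)).1 else none) fun n => (p n (E n)).2,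
    (fun h => by cases h), ⟨rfl, hs, fun n τ h => ?_, fun n n' τ τ' hne h h' => ?_⟩, rfl,
    fun n hn => ⟨_, _, (hp n (E n) hn).1, _, _, _, _, n, rfl, if_pos hn, rfl⟩⟩
  · obtain ⟨hn, rfl⟩ := h3 n τ h
    exact hQ _ _ _ (hp n (E n) hn).1
  · obtain ⟨hn, rfl⟩ := h3 n τ h
    obtain ⟨hn', rfl⟩ := h3 n' τ' h'
    rcases lt_or_gt_of_ne hne with h4 | h4
    · exact h2 n n' h4 hn hn'
    · exact (h2 n' n h4 hn' hn).imp Ne.symm fun h => h.symm

/-- valid points -/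
def G : Type := {γ : Pt // γ ≠ .nil ∧ Val (fam γ) γ}

/-- comparability -/
def Cmp (τ : Tr) (a b : G) : Prop := a.1 ∈ seg τ b.1 ∨ b.1 ∈ seg τ a.1

theorem Cmp.refl (τ : Tr) (a : G) : Cmp τ a a := Or.inl (self_seg a.2.1)

theorem Cmp.symm {a b : G} (h : Cmp τ a b) : Cmp τ b a := Or.symm h

theorem Cmp.uniq {a b : G} (h : Cmp τ a b) (h' : Cmp τ' a b) (hne : a ≠ b) : τ = τ' := by
  have h1 : a.1 ≠ b.1 := fun h => hne (Subtype.ext h)
  rcases h with h | h <;> rcases h' with h' | h'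
  · exact tree_uniq b.2.2 h h' h1
  · exact absurd ((rk_seg h).resolve_left h1) ((rk_seg h').resolve_left h1.symm).not_gt
  · exact absurd ((rk_seg h').resolve_left h1) ((rk_seg h).resolve_left h1.symm).not_gt
  · exact tree_uniq a.2.2 h h' h1.symm

theorem Cmp.fam {a b : G} (h : Cmp τ a b) : fam a.1 = fam b.1 := by
  rcases h with h | h
  · exact (val_fam (val_seg b.2.2 h).1 a.2.1).1
  · exact (val_fam (val_seg a.2.2 h).1 b.2.1).1.symm

theorem Cmp.lev {a b : G} (h : Cmp τ a b) (hne : a ≠ b) :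
    ∃ j k, j ≠ k ∧ Lev τ a.1 j ∧ Lev τ b.1 k := by
  have h1 : a.1 ≠ b.1 := fun h => hne (Subtype.ext h)
  rcases h with h | h
  · obtain ⟨j, k, h2, h3⟩ := lev_seg b.2.2 h h1
    exact ⟨j, k, h2.ne, h3⟩
  · obtain ⟨j, k, h2, h3, h4⟩ := lev_seg a.2.2 h h1.symm
    exact ⟨k, j, h2.ne', h4, h3⟩

/-- chains -/
def Ch (A : Set G) : Prop := ∀ a ∈ A, ∀ b ∈ A, ∀ c ∈ A, ∃ τ, Cmp τ a b ∧ Cmp τ a c ∧ Cmp τ b c

theorem Ch.tree {A : Set G} (h : Ch A) : ∃ τ, ∀ a ∈ A, ∀ b ∈ A, Cmp τ a b := by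
  by_cases hA : A.Subsingleton
  · exact ⟨(∅, 0), fun a ha b hb => hA ha hb ▸ Cmp.refl _ a⟩
  obtain ⟨a, ha, b, hb, hab⟩ := not_subsingleton_iff.1 hA
  obtain ⟨τ, h0, -⟩ := h a ha b hb b hb
  have h1 : ∀ c ∈ A, Cmp τ a c := fun c hc => by
    obtain ⟨τ', h1, h2, -⟩ := h a ha b hb c hc
    rwa [h0.uniq h1 hab]
  refine ⟨τ, fun c hc d hd => ?_⟩
  by_cases h2 : a = c
  · exact h2 ▸ h1 d hd
  · obtain ⟨τ', h3, -, h4⟩ := h a ha c hc d hd
    rwa [(h1 c hc).uniq h3 h2]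

theorem Ch.fin {A : Set G} (h : Ch A) (γ : G) :
    ∃ j, {a ∈ A | fam a.1 = fam γ.1 ∧ (j ∈ lab a.1 ↔ j ∈ lab γ.1)}.Finite := by
  by_cases hA : A.Subsingleton
  · exact ⟨0, hA.finite.subset (sep_subset _ _)⟩
  obtain ⟨τ, hτ⟩ := h.tree
  have h1 : ∀ a ∈ A, ∃ k, Lev τ a.1 k := fun a ha => by
    obtain ⟨b, hb, hne⟩ := (not_subsingleton_iff.1 hA).exists_ne a
    obtain ⟨j, -, -, h, -⟩ := (hτ a ha b hb).lev hne.symm
    exact ⟨j, h⟩
  choose! k hk using h1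
  have h2 : InjOn k A := fun a ha b hb hab => by
    by_contra hne
    obtain ⟨i, j, h3, h4, h5⟩ := (hτ a ha b hb).lev hne
    exact h3 ((lev_uniq a.2.2 h4 (hk a ha)).trans (hab.trans (lev_uniq b.2.2 (hk b hb) h5)))
  by_cases h3 : lab γ.1 = τ.1
  · refine ⟨0, finite_empty.subset fun a ha => ?_⟩
    exact (lev_lab a.2.2 a.2.1 (hk a ha.1)).1 (ha.2.1 ▸ h3 ▸ (val_fam γ.2.2 γ.2.1).2)
  obtain ⟨j, hj⟩ := not_forall.1 fun h => h3 (Set.ext h)
  refine ⟨j, Finite.of_finite_image ((finite_Iic (j + 1)).subset ?_) (h2.mono (sep_subset _ _))⟩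
  rintro _ ⟨a, ha, rfl⟩
  by_contra h4
  exact hj (ha.2.2.symm.trans ((lev_lab a.2.2 a.2.1 (hk a ha.1)).2 j (not_le.1 h4)))

theorem Ch.countable {A : Set G} (h : Ch A) : A.Countable := by
  by_cases hA : A.Subsingleton
  · exact hA.countable
  obtain ⟨τ, hτ⟩ := h.tree
  have h1 : ∀ a ∈ A, ∃ k, Lev τ a.1 k := fun a ha => by
    obtain ⟨b, hb, hne⟩ := (not_subsingleton_iff.1 hA).exists_ne a
    obtain ⟨j, -, -, h, -⟩ := (hτ a ha b hb).lev hne.symm
    exact ⟨j, h⟩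
  choose! k hk using h1
  refine countable_of_injective_of_countable_image (f := k) (fun a ha b hb hab => ?_)
    (to_countable _)
  by_contra hne
  obtain ⟨i, j, h3, h4, h5⟩ := (hτ a ha b hb).lev hne
  exact h3 ((lev_uniq a.2.2 h4 (hk a ha)).trans (hab.trans (lev_uniq b.2.2 (hk b hb) h5)))

/-- The combinatorial core: no countable family of sets determines the system. -/
theorem no_cover (N : ℕ → Set G) (a : G → Set ℕ) (ha : ∀ γ, ∀ i ∈ a γ, γ ∈ N i)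
    (h : ∀ (γ : G) (u : ℕ → G), u.Injective → Ch (range u) →
      ¬ ∀ k, ∀ i < k, i ∈ a γ → u k ∈ N i) : False := by
  classical
  let cut : ℕ → Set ℕ → Finset ℕ := fun k s => (Finset.range k).filter (· ∈ s)
  have hcut : ∀ k s t, cut k s = cut k t ↔ ∀ j < k, (j ∈ s ↔ j ∈ t) := fun k s t => by
    simp only [cut, Finset.ext_iff, Finset.mem_filter, Finset.mem_range, and_congr_right_iff]
  let Q : Set (Set ℕ) → ℕ × Finset ℕ × Finset ℕ → Tr → Pt → Prop := fun S q τ δ =>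
    τ.1 ∉ S ∧ Val S δ ∧ Lev τ δ q.1 ∧ cut q.1 τ.1 = q.2.1 ∧
      ∀ γ : G, Suc τ δ γ.1 → Val S γ.1 → ¬ ∀ i ∈ q.2.2, γ ∈ N i
  let R : Set (Set ℕ) → Set (ℕ × Finset ℕ × Finset ℕ) := fun S =>
    {q | ¬ {i | ∃ b δ, Q S q (b, i) δ}.Countable}
  have key : ∀ S s, s ∈ S ↔ ∃ γ, ∀ k, (k, cut k s, cut k (a γ)) ∉ R S := by
    intro S s
    refine ⟨fun hs => ?_, fun ⟨γ, hγ⟩ => ?_⟩
    · obtain ⟨e, he⟩ := exists_surjective_nat (ℕ × Finset ℕ × Finset ℕ)
      obtain ⟨γ, h1, h2, -, h3⟩ := exists_common hs (fun n => e n ∈ R S ∧ cut (e n).1 s = (e n).2.1)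
        (fun n τ δ => Q S (e n) τ δ ∧ cut (e n).1 s = (e n).2.1)
        (fun n τ δ h => ⟨h.1.1, h.1.2.1, _, h.1.2.2.1, (hcut _ _ _).1 (h.2.trans h.1.2.2.2.1.symm)⟩)
        fun n hn => by
          simp only [hn.2, and_true]
          exact hn.1
      refine ⟨⟨γ, h1, (val_fam h2 h1).1.symm ▸ h2⟩, fun k hk => ?_⟩
      obtain ⟨n, hn⟩ := he (k, cut k s, cut k (a ⟨γ, h1, (val_fam h2 h1).1.symm ▸ h2⟩))
      obtain ⟨τ, δ, h4, h5⟩ := h3 n (by rw [hn]; exact ⟨hk, rfl⟩)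
      rw [hn] at h4
      exact h4.1.2.2.2.2 ⟨γ, h1, (val_fam h2 h1).1.symm ▸ h2⟩ h5 h2 fun i hi =>
        ha ⟨γ, h1, (val_fam h2 h1).1.symm ▸ h2⟩ i (Finset.mem_filter.1 hi).2
    by_contra hs
    obtain ⟨i, hi⟩ : ∃ i, ∀ k, ¬ ∃ b δ, Q S (k, cut k s, cut k (a γ)) (b, i) δ := by
      by_contra hn
      push Not at hn
      exact not_countable_univ ((countable_iUnion fun k => not_not.1 (hγ k)).mono
        fun i _ => mem_iUnion.2 (hn i))
    have h1 : ∀ k δ, Val S δ → Lev (s, i) δ k → ∃ γ' : G, Suc (s, i) δ γ'.1 ∧ Val S γ'.1 ∧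
        ∀ j ∈ cut k (a γ), γ' ∈ N j := by
      intro k δ h1 h2
      by_contra hn
      push Not at hn
      exact hi k ⟨s, δ, hs, h1, h2, rfl, fun γ' h3 h4 h5 => by
        obtain ⟨j, h6, h7⟩ := hn γ' h3 h4
        exact h7 (h5 j h6)⟩
    have : Nonempty G := ⟨γ⟩
    choose! nx h2 h3 h4 using h1
    let δ : ℕ → Pt := fun k => Nat.rec .nil (fun k δ => (nx k δ).1) k
    have h5 : ∀ k, Val S (δ k) ∧ Lev (s, i) (δ k) k := by
      intro k
      induction k with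
      | zero => exact ⟨trivial, rfl⟩
      | succ k ih => exact ⟨h3 k _ ih.1 ih.2, (h2 k _ ih.1 ih.2).lev ih.2⟩
    have h6 : Monotone fun k => seg (s, i) (δ k) :=
      monotone_nat_of_le_succ fun k => (h2 k _ (h5 k).1 (h5 k).2).seg
    have h7 : ∀ k l, Cmp (s, i) (nx k (δ k)) (nx l (δ l)) := fun k l =>
      (le_total k l).imp (fun h => h6 (Nat.succ_le_succ h) (self_seg (nx k (δ k)).2.1))
        fun h => h6 (Nat.succ_le_succ h) (self_seg (nx l (δ l)).2.1)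
    refine h γ (fun k => nx k (δ k)) (fun k l hkl => ?_) ?_ fun k j hj hj' =>
      h4 k _ (h5 k).1 (h5 k).2 j (Finset.mem_filter.2 ⟨Finset.mem_range.2 hj, hj'⟩)
    · have h8 : δ (k + 1) = δ (l + 1) := congrArg Subtype.val hkl
      have h9 := (h5 (l + 1)).2
      rw [← h8] at h9
      exact Nat.succ_injective (lev_uniq (h5 (k + 1)).1 (h5 (k + 1)).2 h9)
    · rintro _ ⟨k, rfl⟩ _ ⟨l, rfl⟩ _ ⟨m, rfl⟩
      exact ⟨_, h7 k l, h7 k m, h7 l m⟩
  have hR : Function.Injective R := fun S S' h => Set.ext fun s => by rw [key, key, h]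
  have h1 := Cardinal.mk_le_of_injective hR
  simp only [Cardinal.mk_set, Cardinal.mk_eq_aleph0] at h1
  exact (Cardinal.cantor _).not_ge h1

end Pool.Agent.H33.RzS1
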