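import Mathlib
import Pool.Agent.H33.RzS1
import Pool.Agent.H33.Spl5
import Pool.Agent.H33.NoEmb

/-!
A compact space which is not Gul'ko while all its small parts are.
-/

open Set Filter Topology Cardinal

namespace Pool.Agent.H33.RzS2

open Pool.Agent.H33.RzS1 Pool.Agent.H33.Spl5 Pool.Agent.H33.Spl1

/-- the space -/
def XX : Type := {x : G → Bool // Ch {γ | x γ = true}}

instance : TopologicalSpace XX := inferInstanceAs (TopologicalSpace (Subtype _))

instance : T2Space XX := inferInstanceAs (T2Space (Subtype _))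

theorem cont_val : Continuous (fun x : XX => x.1) := continuous_subtype_val

instance : CompactSpace XX := isCompact_iff_compactSpace.1 (IsClosed.isCompact (by
  refine isOpen_compl_iff.1 (isOpen_iff_mem_nhds.2 fun x hx => ?_)
  have hx' : ¬ Ch {γ | x γ = true} := hx
  simp only [Ch, not_forall] at hx'
  obtain ⟨a, ha, b, hb, c, hc, h⟩ := hx'
  have h1 : ∀ a, x a = true → ∀ᶠ y : G → Bool in 𝓝 x, y a = true := fun a ha =>
    (continuous_apply a).continuousAt.eventually ((isOpen_discrete {true}).mem_nhds ha)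
  filter_upwards [h1 a ha, h1 b hb, h1 c hc] with y h2 h3 h4 hy
  exact h (hy a h2 b h3 c h4)))

open Classical in
/-- restriction -/
noncomputable def res (B : Set G) (x : XX) : XX :=
  ⟨fun γ => if γ ∈ B then x.1 γ else false, fun a ha b hb c hc =>
    have h : ∀ a, (if a ∈ B then x.1 a else false) = true → x.1 a = true := fun a ha => by
      split_ifs at ha
      exact ha
    x.2 a (h a ha) b (h b hb) c (h c hc)⟩

theorem cont_res (B : Set G) : Continuous (res B) :=
  Continuous.subtype_mk (continuous_pi fun γ => by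
    split_ifs
    exacts [(continuous_apply γ).comp cont_val, continuous_const]) _

/-- coordinate functions -/
noncomputable def pr (γ : G) (x : XX) : ℝ := if x.1 γ = true then 1 else 0

theorem cont_pr (γ : G) : Continuous (pr γ) :=
  (continuous_of_discreteTopology (f := fun b : Bool => if b = true then (1 : ℝ) else 0)).comp
    ((continuous_apply γ).comp cont_val)

theorem not_gu : ¬ Gu XX := by
  classical
  rintro ⟨N, hN⟩
  choose a ha ha' using fun γ => hN ⟨pr γ, cont_pr γ⟩ trivial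
  refine no_cover (fun i => {γ | (⟨pr γ, cont_pr γ⟩ : Cp XX) ∈ N i}) a ha fun γ u hu hc h => ?_
  have hle : (hyperfilter ℕ : Filter ℕ) ≤ atTop := Nat.hyperfilter_le_atTop
  obtain ⟨z, -, hz⟩ := ha' γ ((hyperfilter ℕ).map fun k => ⟨pr (u k), cont_pr _⟩) univ_mem
    fun i hi => hle ((eventually_gt_atTop i).mono fun k hk => h k i hk hi)
  have hz' : ∀ x, Tendsto (fun k => pr (u k) x) (hyperfilter ℕ) (𝓝 (z.1 x)) :=
    fun x => (((continuous_apply x).comp continuous_subtype_val).tendsto z).comp hz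
  let x : XX := ⟨fun γ => decide (γ ∈ range u), by
    simp only [decide_eq_true_eq]
    exact hc⟩
  have h1 : z.1 x = 1 := tendsto_nhds_unique (hz' x) (by simp [pr, x])
  have h2 : ∀ n, z.1 (res (u '' Iio n) x) = 0 := fun n => tendsto_nhds_unique (hz' _)
    (tendsto_const_nhds.congr' (hle ((eventually_ge_atTop n).mono fun k hk => by
      have : u k ∉ u '' Iio n := fun ⟨m, hm, h⟩ => (hu h ▸ hm : k ∈ Iio n).not_ge hk
      simp only [pr, res, if_neg this]
      simp)))
  have h3 : Tendsto (fun n => res (u '' Iio n) x) atTop (𝓝 x) := by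
    refine tendsto_subtype_rng.2 (tendsto_pi_nhds.2 fun γ => tendsto_const_nhds.congr' ?_)
    by_cases h : γ ∈ range u
    · obtain ⟨m, rfl⟩ := h
      filter_upwards [eventually_gt_atTop m] with n hn
      simp only [res, if_pos (mem_image_of_mem u (show m ∈ Iio n from hn))]
    · refine Eventually.of_forall fun n => ?_
      simp only [res]
      split_ifs
      exacts [rfl, decide_eq_false h]
  have h4 := (z.2.tendsto x).comp h3
  rw [show z.1 ∘ (fun n => res (u '' Iio n) x) = fun _ => 0 from funext h2, h1] at h4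
  simp at h4

/-- small parts -/
def Part (B : Set G) : Set XX := {x | ∀ γ ∉ B, x.1 γ = false}

theorem closed_part (B : Set G) : IsClosed (Part B) := by
  simp only [Part, ofPred_forall]
  exact isClosed_iInter fun γ => isClosed_iInter fun _ =>
    isClosed_eq ((continuous_apply γ).comp cont_val) continuous_const

instance (B : Set G) : CompactSpace (Part B) := isCompact_iff_compactSpace.1 (closed_part B).isCompact

theorem ls_real : LS (univ : Set ℝ) := by
  refine LS.of_countable (fun n : ℕ => Icc (-(n : ℝ)) n) fun z _ => ?_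
  obtain ⟨n, hn⟩ := exists_nat_ge |z|
  refine ⟨{n}, by simpa using abs_le.1 hn, fun 𝒰 _ h => ?_⟩
  obtain ⟨y, -, hy⟩ := isCompact_Icc.ultrafilter_le_nhds' 𝒰 (h n rfl)
  exact ⟨y, trivial, hy⟩

theorem gu_part {B : Set G} (hB : #B ≤ 𝔠) : Gu (Part B) := by
  classical
  obtain ⟨ρ0⟩ : Nonempty ((fun γ : G => fam γ.1) '' B ↪ Set ℕ) := by
    rw [← Cardinal.le_def]
    simpa using mk_image_le.trans hB
  let ρ : Set (Set ℕ) → Set ℕ := fun S => if h : S ∈ (fun γ : G => fam γ.1) '' B then ρ0 ⟨S, h⟩ else ∅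
  have hρ : ∀ a ∈ B, ∀ b ∈ B, ρ (fam a.1) = ρ (fam b.1) → fam a.1 = fam b.1 := by
    intro a ha b hb h
    simp only [ρ, dif_pos (mem_image_of_mem (fun γ : G => fam γ.1) ha),
      dif_pos (mem_image_of_mem (fun γ : G => fam γ.1) hb)] at h
    exact congrArg Subtype.val (ρ0.injective h)
  let p : G → Part B → ℝ := fun γ x => pr γ x.1
  let c : G → ℕ × Bool → Prop := fun γ q => if q.2 then q.1 ∈ lab γ.1 else q.1 ∈ ρ (fam γ.1)
  have h1 : LS (insert 0 (p '' B)) := by
    refine LS.of_countable (fun q : Option ((ℕ × Bool) × Prop) => q.elim {0}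
      fun q => p '' {γ ∈ B | c γ q.1 = q.2}) ?_
    rintro _ (rfl | ⟨γ, hγ, rfl⟩)
    · exact ⟨{none}, by simp, fun 𝒰 _ h => ⟨0, mem_insert _ _,
        (le_pure_iff.2 (h none rfl)).trans (pure_le_nhds _)⟩⟩
    refine ⟨range fun q => some (q, c γ q), ?_, fun 𝒰 _ h => ?_⟩
    · rintro _ ⟨q, rfl⟩
      exact ⟨γ, ⟨hγ, rfl⟩, rfl⟩
    by_cases h1 : ∃ γ' ∈ B, {p γ'} ∈ 𝒰
    · obtain ⟨γ', h1, h2⟩ := h1
      exact ⟨_, Or.inr (mem_image_of_mem _ h1), (le_pure_iff.2 h2).trans (pure_le_nhds _)⟩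
    push Not at h1
    refine ⟨0, mem_insert _ _, tendsto_pi_nhds.2 fun x => tendsto_const_nhds.congr' ?_⟩
    obtain ⟨q, hq⟩ : ∃ q, {a | x.1.1 a = true ∧ a ∈ B ∧ c a q = c γ q}.Finite := by
      by_cases h2 : ∃ b, x.1.1 b = true ∧ b ∈ B ∧ fam b.1 ≠ fam γ.1
      · obtain ⟨b, h2, h3, h4⟩ := h2
        obtain ⟨j, hj⟩ := not_forall.1 fun h => h4 (hρ b h3 γ hγ (Set.ext h))
        refine ⟨(j, false), finite_empty.subset fun a ha => hj ?_⟩
        obtain ⟨τ, h5, -⟩ := x.1.2 a ha.1 b h2 b h2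
        rw [← h5.fam]
        exact iff_of_eq ha.2.2
      · push Not at h2
        obtain ⟨j, hj⟩ := x.1.2.fin γ
        exact ⟨(j, true), hj.subset fun a ha => ⟨ha.1, h2 a ha.1 ha.2.1, iff_of_eq ha.2.2⟩⟩
    have h2 : ∀ᶠ v in (𝒰 : Filter (Part B → ℝ)),
        ∀ a ∈ {a | x.1.1 a = true ∧ a ∈ B ∧ c a q = c γ q}, v ≠ p a :=
      (eventually_all_finite hq).2 fun a ha => Ultrafilter.compl_mem_iff_notMem.2 (h1 a ha.2.1)
    filter_upwards [h2, h _ ⟨q, rfl⟩]
    rintro _ h3 ⟨a, ha, rfl⟩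
    by_contra h4
    exact h3 a ⟨by
      by_contra h5
      exact h4 (by simp [p, pr, h5]), ha⟩ rfl
  refine ls_of_sep (h1.union (ls_real.image (f := fun c _ => c) (by fun_prop))) ?_
    (fun c => Or.inr ⟨c, trivial, rfl⟩) fun x y h => Subtype.ext (Subtype.ext (funext fun γ => ?_))
  · rintro _ ((rfl | ⟨γ, -, rfl⟩) | ⟨c, -, rfl⟩)
    exacts [continuous_const, (cont_pr γ).comp continuous_subtype_val, continuous_const]
  · by_cases hγ : γ ∈ B
    · have := h _ (Or.inl (Or.inr (mem_image_of_mem _ hγ)))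
      simp only [p, pr] at this
      revert this
      cases x.1.1 γ <;> cases y.1.1 γ <;> simp
    · rw [x.2 γ hγ, y.2 γ hγ]

theorem gu_closure {A : Set XX} (hA : #A ≤ 𝔠) : Gu (closure A) := by
  have h1 : closure A ⊆ Part (⋃ x : A, {γ | x.1.1 γ = true}) :=
    closure_minimal (fun x hx γ hγ => by
      by_contra h
      exact hγ (mem_iUnion.2 ⟨⟨x, hx⟩, by simpa using h⟩)) (closed_part _)
  have := isCompact_iff_compactSpace.1 (isClosed_closure (s := A)).isCompact
  exact gu_of_seq (Y := fun _ => Part (⋃ x : A, {γ | x.1.1 γ = true})) (fun _ => inclusion h1)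
    (fun _ => continuous_inclusion h1) (fun x y h => inclusion_injective h1 (h 0))
    fun _ => gu_part (small_union aleph0_le_continuum _ hA fun x =>
      (le_aleph0_iff_set_countable.2 x.1.2.countable).trans aleph0_le_continuum)

theorem LS.inter {T : Type} [TopologicalSpace T] {Z C : Set T} (h : LS Z) (hC : IsClosed C) :
    LS (Z ∩ C) := by
  obtain ⟨N, hN⟩ := h
  refine ⟨N, fun z hz => ?_⟩
  obtain ⟨a, h1, h2⟩ := hN z hz.1
  refine ⟨a, h1, fun 𝒰 h3 h4 => ?_⟩
  obtain ⟨y, hy, hy'⟩ := h2 𝒰 (mem_of_superset h3 inter_subset_left) h4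
  exact ⟨y, ⟨hy, hC.mem_of_tendsto (f := id) hy' (mem_of_superset h3 inter_subset_right)⟩, hy'⟩

theorem ls_closure {A : Set (XX → ℝ)} (hc : ∀ f ∈ A, Continuous f) (hA : #A ≤ 𝔠) :
    LS (closure A ∩ {f | Continuous f}) := by
  classical
  choose s hs using fun (f : A) (n : ℕ) => NoEmb.unif (K := XX) (e := fun x => x.1) cont_val
    (fun _ _ h => Subtype.ext h)
    ⟨f.1, hc f f.2⟩ (Nat.one_div_pos_of_nat (n := n))
  let B : Set G := ⋃ f, ⋃ n, s f n
  have hB : #B ≤ 𝔠 := small_union aleph0_le_continuum _ hA fun f =>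
    (le_aleph0_iff_set_countable.2 (countable_iUnion fun n => (s f n).countable_toSet)).trans
      aleph0_le_continuum
  have h1 : closure A ⊆ {f | ∀ x, f (res B x) = f x} := by
    refine closure_minimal (fun f hf x => eq_of_forall_dist_le fun ε hε => ?_) ?_
    · obtain ⟨n, hn⟩ := exists_nat_one_div_lt hε
      refine ((hs ⟨f, hf⟩ n _ _ fun γ hγ => ?_).trans hn).le
      exact if_pos (mem_iUnion₂.2 ⟨⟨f, hf⟩, n, hγ⟩)
    · simp only [ofPred_forall]
      exact isClosed_iInter fun x => isClosed_eq (continuous_apply _) (continuous_apply _)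
  let π : XX → Part B := fun x => ⟨res B x, fun γ hγ => if_neg hγ⟩
  have hπ : Continuous π := (cont_res B).subtype_mk _
  have h2 := LS.inter ((gu_part hB).image (f := fun g : Cp (Part B) => g.1 ∘ π)
    (continuous_pi fun x => (continuous_apply _).comp continuous_subtype_val))
    (isClosed_closure (s := A))
  have h3 : closure A ∩ {f | Continuous f} =
      (fun g : Cp (Part B) => g.1 ∘ π) '' univ ∩ closure A := by
    ext f
    refine ⟨fun h => ⟨⟨⟨f ∘ Subtype.val, h.2.comp continuous_subtype_val⟩, trivial,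
      funext (h1 h.1)⟩, h.1⟩, ?_⟩
    rintro ⟨⟨g, -, rfl⟩, h⟩
    exact ⟨h, g.2.comp hπ⟩
  rwa [h3]

end Pool.Agent.H33.RzS2
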