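import Mathlib
import Pool.Agent.H33.RzS2

/-!
Comparison of definitions of the Lindelof Sigma property.
-/

open Set Filter Topology

namespace Pool.Agent.H33.RzS3

open Pool.Agent.H33.RzS2 Pool.Agent.H33.Spl5

/-- network form -/
def NF (T : Type) (t : TopologicalSpace T) : Prop :=
  ∃ 𝒞 𝒩 : Set (Set T), 𝒩.Countable ∧ ⋃₀ 𝒞 = univ ∧
    ∀ C ∈ 𝒞, @IsCompact _ t C ∧ ∀ U : Set T, @IsOpen _ t U → C ⊆ U → ∃ N ∈ 𝒩, C ⊆ N ∧ N ⊆ U

theorem nf_iff {T : Type} [t : TopologicalSpace T] : NF T t ↔ NW T := by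
  constructor
  · rintro ⟨𝒞, 𝒩, h1, h2, h3⟩
    obtain ⟨N, hN⟩ := (h1.insert ∅).exists_eq_range (insert_nonempty _ _)
    refine ⟨N, fun z => ?_⟩
    obtain ⟨C, hC, hz⟩ : z ∈ ⋃₀ 𝒞 := h2 ▸ mem_univ z
    refine ⟨C, (h3 C hC).1, hz, fun U hU h => ?_⟩
    obtain ⟨M, hM, h⟩ := (h3 C hC).2 U hU h
    obtain ⟨n, rfl⟩ : M ∈ range N := hN ▸ mem_insert_of_mem _ hM
    exact ⟨n, h⟩
  · rintro ⟨N, hN⟩
    choose K h1 h2 h3 using hN
    refine ⟨range K, range N, countable_range _,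
      eq_univ_of_forall fun z => ⟨_, mem_range_self z, h2 z⟩, ?_⟩
    rintro _ ⟨z, rfl⟩
    refine ⟨h1 z, fun U hU h => ?_⟩
    obtain ⟨n, hn⟩ := h3 z U hU h
    exact ⟨_, mem_range_self n, hn⟩

theorem nf_iff_gu {Y : Type} [TopologicalSpace Y] :
    NF C(Y, ℝ) (TopologicalSpace.induced (fun f : C(Y, ℝ) => (⇑f : Y → ℝ)) inferInstance) ↔
      Gu Y := by
  let t : TopologicalSpace C(Y, ℝ) :=
    TopologicalSpace.induced (fun f : C(Y, ℝ) => (⇑f : Y → ℝ)) inferInstance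
  have hi : IsInducing fun f : C(Y, ℝ) => (⇑f : Y → ℝ) := ⟨rfl⟩
  have := hi.regularSpace
  rw [nf_iff]
  constructor
  · intro h
    have := h.ls.image (f := fun f : C(Y, ℝ) => (⟨f, f.2⟩ : Cp Y)) (hi.continuous.subtype_mk _)
    rwa [image_univ_of_surjective fun g : Cp Y => ⟨⟨g.1, g.2⟩, rfl⟩] at this
  · intro h
    have := LS.image h (f := fun f : Cp Y => (⟨f.1, f.2⟩ : C(Y, ℝ)))
      (hi.continuous_iff.2 continuous_subtype_val)
    rw [image_univ_of_surjective fun g : C(Y, ℝ) => ⟨(⟨g, g.2⟩ : Cp Y), rfl⟩] at this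
    exact this.nw

/-- cube form -/
def CF {T : Type} [TopologicalSpace T] (Z : Set T) : Prop :=
  ∃ (ι : Type) (F : Set ((ι → unitInterval) × (ℕ → unitInterval)))
    (g : (ι → unitInterval) × (ℕ → unitInterval) → T),
    F = closure F ∩ (univ ×ˢ (Prod.snd '' F)) ∧ ContinuousOn g F ∧ g '' F = Z

theorem CF.ls {T : Type} [TopologicalSpace T] {Z : Set T} (h : CF Z) : LS Z := by
  obtain ⟨ι, F, g, h1, h2, rfl⟩ := h
  obtain ⟨B, hB, -, hB'⟩ := TopologicalSpace.exists_countable_basis (ℕ → unitInterval)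
  have := hB.to_subtype
  have h3 : LS F := by
    refine LS.of_countable (fun b : Option B => b.elim univ fun b => Prod.snd ⁻¹' b.1)
      fun z hz => ⟨some '' {b | z.2 ∈ b.1}, ?_, fun 𝒰 hF h => ?_⟩
    · rintro _ ⟨b, hb, rfl⟩
      exact hb
    obtain ⟨y, -, hy⟩ := isCompact_univ.ultrafilter_le_nhds' 𝒰 univ_mem
    have h4 : Tendsto Prod.snd 𝒰.toFilter (𝓝 z.2) := hB'.nhds_hasBasis.tendsto_right_iff.2 fun b hb =>
      h (some ⟨b, hb.1⟩) ⟨_, hb.2, rfl⟩
    refine ⟨y, ?_, hy⟩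
    rw [h1]
    exact ⟨mem_closure_iff_ultrafilter.2 ⟨𝒰, hF, hy⟩, trivial, z, hz,
      tendsto_nhds_unique h4 ((continuous_snd.tendsto y).mono_left hy)⟩
  refine master (T' := fun _ => _) (fun _ => F) (fun _ => h3) (fun _ z s => g s = z)
    (fun z hz _ => hz) fun 𝒱 _ h => ?_
  obtain ⟨t, ht, h⟩ := h 0
  refine ⟨_, mem_image_of_mem g ht, fun U hU => ?_⟩
  obtain ⟨V, hV, hV'⟩ := mem_nhdsWithin_iff_exists_mem_nhds_inter.1 (h2 t ht hU)
  refine mem_of_superset (h V hV) ?_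
  rintro _ ⟨s, hs, rfl⟩
  exact hV' hs

theorem exists_F {T K : Type} [TopologicalSpace T] [TopologicalSpace K] [T2Space K] (h : NW T)
    {j : T → K} (hj : Continuous j) : ∃ F : Set (K × (ℕ → unitInterval)),
      F = closure F ∩ (univ ×ˢ (Prod.snd '' F)) ∧ Prod.fst '' F = range j := by
  classical
  obtain ⟨N, hN⟩ := h
  choose K hK hz hU using hN
  let a : T → ℕ → unitInterval := fun z n => if K z ⊆ N n then 1 else 0
  refine ⟨{q | ∃ t z, q = (j t, a z) ∧ ∀ n, K z ⊆ N n → t ∈ N n},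
    Subset.antisymm (fun q hq => ⟨subset_closure hq, trivial, q, hq, rfl⟩) ?_, ?_⟩
  · rintro q ⟨h1, -, _, ⟨_, z, rfl, -⟩, h2⟩
    obtain ⟨𝒰, h3, h4⟩ := mem_closure_iff_ultrafilter.1 h1
    have : Nonempty T := ⟨z⟩
    choose! t w h5 h6 using fun p (hp : p ∈ {q | ∃ t z, q = (j t, a z) ∧
      ∀ n, K z ⊆ N n → t ∈ N n}) => hp
    have h7 : ∀ n, K z ⊆ N n → N n ∈ 𝒰.map t := fun n hn => by
      have h7 : ∀ᶠ p in 𝒰.toFilter, p.2 n ≠ 0 :=
        ((((continuous_apply n).comp continuous_snd).tendsto q).mono_left h4).eventually_ne (by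
          have : q.2 n = 1 := by rw [← h2]; exact if_pos hn
          simp [this])
      refine Ultrafilter.mem_map.2 (mem_of_superset (inter_mem h7 h3) fun p ⟨h7, h8⟩ => ?_)
      refine h6 p h8 n ?_
      by_contra h9
      exact h7 (by rw [h5 p h8]; exact if_neg h9)
    obtain ⟨y, hy, hy'⟩ : ∃ y ∈ K z, ↑(𝒰.map t) ≤ 𝓝 y := by
      by_contra hn
      push Not at hn
      have h2 : ∀ y : K z, ∃ U, IsOpen U ∧ y.1 ∈ U ∧ U ∉ 𝒰.map t := fun y => by
        by_contra h3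
        push Not at h3
        exact hn y y.2 (le_nhds_iff.2 fun U hy hU => h3 U hU hy)
      choose U hU1 hy hU' using h2
      obtain ⟨s, hs⟩ := (hK z).elim_finite_subcover U hU1 fun y hy' => mem_iUnion.2 ⟨⟨y, hy'⟩, hy _⟩
      obtain ⟨n, h3, h4⟩ := hU z _ (isOpen_biUnion fun y _ => hU1 y) hs
      obtain ⟨y, -, h5⟩ := (Ultrafilter.finite_biUnion_mem_iff s.finite_toSet).1
        (mem_of_superset (h7 n h3) h4)
      exact hU' y h5
    refine ⟨y, z, Prod.ext (tendsto_nhds_unique ((continuous_fst.tendsto q).mono_left h4)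
      (((hj.tendsto y).comp hy').congr' ?_)) h2.symm, fun n hn => hn hy⟩
    filter_upwards [h3] with p hp
    exact (congrArg Prod.fst (h5 p hp)).symm
  · ext k
    constructor
    · rintro ⟨_, ⟨t, z, rfl, -⟩, rfl⟩
      exact mem_range_self t
    · rintro ⟨t, rfl⟩
      exact ⟨_, ⟨t, t, rfl, fun n hn => hn (hz t)⟩, rfl⟩

theorem cf_of_ls {X : Type} {Z : Set (X → ℝ)} (h : LS Z) : CF Z := by
  have h1 : LS (univ : Set Z) := by
    refine master (T' := fun _ => _) (fun _ => Z) (fun _ => h) (fun _ z s => s = z.1)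
      (fun z _ _ => ⟨_, z.2, rfl⟩) fun 𝒱 _ h => ?_
    obtain ⟨t, ht, h⟩ := h 0
    refine ⟨⟨t, ht⟩, trivial, tendsto_subtype_rng.2 fun U hU =>
      Filter.mem_map.2 (mem_of_superset (h U hU) ?_)⟩
    rintro z ⟨_, hs, rfl⟩
    exact hs.1
  have he : IsEmbedding unitInterval.sigmoid := Topology.isEmbedding_sigmoid
  obtain ⟨F, h2, h3⟩ := exists_F h1.nw (j := fun z : Z => unitInterval.sigmoid ∘ z.1)
    (continuous_pi fun x => he.continuous.comp ((continuous_apply x).comp continuous_subtype_val))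
  let d : (X → unitInterval) → X → ℝ := fun q => Function.invFun unitInterval.sigmoid ∘ q
  have hd : ∀ f, d (unitInterval.sigmoid ∘ f) = f := fun f =>
    funext fun x => Function.leftInverse_invFun he.injective _
  refine ⟨X, F, d ∘ Prod.fst, h2, continuousOn_pi.2 fun x => he.isInducing.continuousOn_iff.2
    (((continuous_apply x).comp continuous_fst).continuousOn.congr fun q hq => ?_), ?_⟩
  · obtain ⟨z, hz⟩ : q.1 ∈ range _ := h3 ▸ mem_image_of_mem _ hq
    simp only [Function.comp_apply]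
    rw [← hz, hd]
    rfl
  · rw [image_comp, h3, ← range_comp]
    exact (congrArg range (funext fun z : Z => hd z.1)).trans Subtype.range_coe

theorem gu_of_ls (h : LS {f : XX → ℝ | Continuous f}) : Gu XX :=
  ls_of_sep h (fun _ h => h) (fun _ => continuous_const) fun x y h =>
    Subtype.ext (funext fun γ => by
      have := h _ (cont_pr γ)
      simp only [pr] at this
      revert this
      cases x.1 γ <;> cases y.1 γ <;> simp)

end Pool.Agent.H33.RzS3
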