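import Pool.Agent.H33.DiaDefs
import Pool.Agent.H33.DT1

/-! Under Martin's axiom, countable spread of `C_p(X)` implies hereditary separability of `X`. -/

open Set Filter Topology Cardinal Pool.Agent.H33.DiaDefs

namespace Pool.Agent.H33.SCP1

/-- Martin's axiom for `κ` dense sets. -/
def MAk (κ : Cardinal.{0}) : Prop := ∀ (Q : Type) [PartialOrder Q] [Nonempty Q],
  (∀ A : Set Q, (A.Pairwise fun p q => ¬ ∃ r, r ≤ p ∧ r ≤ q) → A.Countable) →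
  ∀ 𝒟 : Set (Set Q), #𝒟 ≤ κ → (∀ D ∈ 𝒟, ∀ p, ∃ q ∈ D, q ≤ p) →
    ∃ G : Set Q, (∀ p ∈ G, ∀ q, p ≤ q → q ∈ G) ∧ (∀ p ∈ G, ∀ q ∈ G, ∃ r ∈ G, r ≤ p ∧ r ≤ q) ∧
      ∀ D ∈ 𝒟, (G ∩ D).Nonempty

theorem unb {C : Set W} (h : ∀ a, ∃ b ∈ C, a ≤ b) : ¬ C.Countable := fun c => by
  have := unc
  obtain ⟨β, hβ⟩ := DT1.bd cnt C c
  obtain ⟨b, b1, b2⟩ := h β
  exact not_lt.2 b2 (hβ b b1)

theorem clubU (g : W → W) : ¬ {β | ∀ i < β, g i < β}.Countable := unb fun a => by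
  have := unc
  obtain ⟨b, b1, b2⟩ := (DT1.club cnt g a).2 a
  exact ⟨b, b1.2, b2⟩

/-- finite homogeneous sets -/
abbrev P (R : W → W → Prop) : Type := {p : Finset W // ∀ α ∈ p, ∀ β ∈ p, α < β → ¬ R α β}ᵒᵈ

theorem caseA (h : MAk (ℵ_ 1)) {R : W → W → Prop}
    (hc : ∀ A : Set (P R), (A.Pairwise fun p q => ¬ ∃ r, r ≤ p ∧ r ≤ q) → A.Countable) :
    ∃ A : Set W, ¬ A.Countable ∧ ∀ α ∈ A, ∀ β ∈ A, α < β → ¬ R α β := by
  let Go : P R → Prop := fun p => ∀ q ≤ p, ∀ γ, ∃ r ≤ q, ∃ α ∈ r.1, γ ≤ α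
  have : Nonempty {p // Go p} := not_not.1 fun e => by
    have : ∀ p : P R, ∃ q ≤ p, ∃ γ : W, ∀ r : P R, r ≤ q → ∀ α ∈ r.1, α < γ := fun p => by
      have : ¬ Go p := fun a => e ⟨⟨p, a⟩⟩
      simp only [Go] at this
      push Not at this
      exact this
    choose q q1 g q2 using fun β : W => this ⟨{β}, by simp⟩
    have k : ∀ a b, g a < b → ¬ ∃ r, r ≤ q a ∧ r ≤ q b := fun a b c ⟨r, r1, r2⟩ =>
      lt_asymm c (q2 a r r1 b ((r2.trans (q1 b) : ({b} : Finset W) ⊆ r.1) (by simp)))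
    refine clubU g (countable_of_injective_of_countable_image (f := q) (fun a ha b hb e => ?_)
      (hc _ ?_))
    · rcases lt_trichotomy a b with c | c | c
      · exact absurd ⟨q a, le_rfl, e.le⟩ (k a b (hb a c))
      · exact c
      · exact absurd ⟨q a, e.le, le_rfl⟩ (k b a (ha b c))
    · rintro _ ⟨a, ha, rfl⟩ _ ⟨b, hb, rfl⟩ e
      rcases lt_trichotomy a b with c | c | c
      · exact k a b (hb a c)
      · exact absurd (congrArg q c) e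
      · exact fun ⟨r, r1, r2⟩ => k b a (ha b c) ⟨r, r2, r1⟩
  obtain ⟨G, -, g2, g3⟩ := h {p // Go p} (fun A hA => countable_of_injective_of_countable_image
    Subtype.val_injective.injOn (hc _ (by
      rintro _ ⟨a, ha, rfl⟩ _ ⟨b, hb, rfl⟩ e ⟨r, r1, r2⟩
      exact hA ha hb (fun c => e (congrArg _ c)) ⟨⟨r, fun q c => a.2 q (c.trans r1)⟩, r1, r2⟩)))
    (range fun γ => {p | ∃ α ∈ p.1.1, γ ≤ α}) (mk_range_le.trans_eq mk_W) (by
      rintro _ ⟨γ, rfl⟩ p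
      obtain ⟨r, r1, r2⟩ := p.2 _ le_rfl γ
      exact ⟨⟨r, fun q c => p.2 q (c.trans r1)⟩, r2, r1⟩)
  refine ⟨⋃ p ∈ G, (p.1.1 : Set W), unb fun γ => ?_, fun α a β b => ?_⟩
  · obtain ⟨p, p1, α, p2⟩ := g3 _ ⟨γ, rfl⟩
    exact ⟨α, mem_biUnion p1 p2.1, p2.2⟩
  · obtain ⟨p, p1, p2⟩ := mem_iUnion₂.1 a
    obtain ⟨q, q1, q2⟩ := mem_iUnion₂.1 b
    obtain ⟨r, -, r1, r2⟩ := g2 p p1 q q1
    exact r.1.2 α ((r1 : p.1.1 ⊆ r.1.1) p2) β ((r2 : q.1.1 ⊆ r.1.1) q2)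

theorem caseB {R : W → W → Prop} {A : Set (P R)} (hA : A.Pairwise fun p q => ¬ ∃ r, r ≤ p ∧ r ≤ q)
    (hu : ¬ A.Countable) : ∃ (C : Set W) (q q' : W → Finset W), ¬ C.Countable ∧
      (∀ δ, (q' δ).Nonempty ∧ ∀ a ∈ q δ, ∀ b ∈ q' δ, a < b) ∧ ∀ δ ∈ C, ∀ δ' ∈ C, δ < δ' →
        (∀ a ∈ q' δ, ∀ b ∈ q' δ', a < b) ∧ ∃ a ∈ q' δ, ∃ b ∈ q δ', R a b := by
  classical
  have := unc
  obtain ⟨n, hn⟩ : ∃ n, ¬ {p ∈ A | p.1.card = n ∧ ∅ ⊆ p.1}.Countable := not_forall.1 fun e =>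
    hu ((countable_iUnion e).mono fun p hp => mem_iUnion.2 ⟨p.1.card, by
      exact ⟨hp, rfl, by simp⟩⟩)
  obtain ⟨r, r1, r2⟩ := (InvImage.wf (fun r : Finset W => n - r.card) wellFounded_lt).has_min
    {r | ¬ {p ∈ A | p.1.card = n ∧ r ⊆ p.1}.Countable} ⟨∅, hn⟩
  have k : ∀ α, {p ∈ A | (p.1.card = n ∧ r ⊆ p.1) ∧ α ∈ p.1 ∧ α ∉ r}.Countable := fun α =>
    not_not.1 fun e => by
      obtain ⟨p, -, p1, p2, p3⟩ := (eq_empty_or_nonempty _).resolve_left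
        fun c => e (countable_empty.mono c.le)
      refine r2 (insert α r) (fun c => e (c.mono fun q hq => ?_)) ?_
      · exact ⟨hq.1, hq.2.1.1, Finset.insert_subset hq.2.2.1 hq.2.1.2⟩
      · have := Finset.card_le_card (Finset.insert_subset p2 p1.2)
        simp only [InvImage, Finset.card_insert_of_notMem p3] at this ⊢
        omega
  have : ∀ γ, ∃ p ∈ A, r ⊆ p.1 ∧ (p.1 \ r).Nonempty ∧ ∀ α ∈ p.1 \ r, γ < α := fun γ => by
    by_contra e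
    push Not at e
    refine r1 (((((cnt γ).insert γ).biUnion fun α _ => k α).union (Subsingleton.countable
      (s := {p : P R | p.1 = r}) fun p a q b => Subtype.ext (a.trans b.symm))).mono fun p hp => ?_)
    rcases (p.1 \ r).eq_empty_or_nonempty with c | c
    · exact Or.inr ((Finset.sdiff_eq_empty_iff_subset.1 c).antisymm hp.2.2)
    · obtain ⟨α, a1, a2⟩ := e p hp.1 hp.2.2 c
      exact Or.inl (mem_biUnion (x := α) a2.eq_or_lt ⟨hp.1, hp.2, Finset.mem_sdiff.1 a1⟩)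
  choose p p1 p2 p3 p4 using this
  choose g hg using fun γ => DT1.bd cnt _ ((p γ).1.countable_toSet.insert γ)
  have g1 : ∀ γ, ∀ a ∈ (p γ).1 \ r, a < g γ := fun γ a h => hg γ a (Or.inr (Finset.mem_sdiff.1 h).1)
  refine ⟨_, fun δ => (p δ).1 \ r, fun δ => (p (g δ)).1 \ r, clubU fun γ => g (g γ),
    fun δ => ⟨p3 _, fun a ha b hb => (g1 _ a ha).trans (p4 _ b hb)⟩, fun δ _ δ' h c => ?_⟩
  have k1 : ∀ a ∈ (p (g δ)).1 \ r, ∀ b ∈ (p δ').1 \ r, a < b := fun a ha b hb =>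
    (g1 _ a ha).trans ((h δ c).trans (p4 _ b hb))
  refine ⟨fun a ha b hb => (g1 _ a ha).trans ((h δ c).trans ((hg δ' δ' (Or.inl rfl)).trans
    (p4 _ b hb))), not_not.1 fun e => hA (p1 (g δ)) (p1 δ') (fun f => ?_)
      ⟨⟨(p (g δ)).1 ∪ (p δ').1, fun α a β b d f => ?_⟩, Finset.subset_union_left,
        Finset.subset_union_right⟩⟩
  · obtain ⟨a, ha⟩ := p3 δ'
    exact lt_irrefl a (k1 a (f ▸ ha) a ha)
  have m : ∀ x ∈ (p (g δ)).1 ∪ (p δ').1, (x ∉ (p δ').1 → x ∈ (p (g δ)).1 \ r) ∧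
      (x ∉ (p (g δ)).1 → x ∈ (p δ').1 \ r) := fun x hx =>
    ⟨fun s => Finset.mem_sdiff.2 ⟨(Finset.mem_union.1 hx).resolve_right s, fun t => s (p2 _ t)⟩,
      fun s => Finset.mem_sdiff.2 ⟨(Finset.mem_union.1 hx).resolve_left s, fun t => s (p2 _ t)⟩⟩
  by_cases s : β ∈ (p (g δ)).1
  · by_cases t : α ∈ (p (g δ)).1
    · exact (p (g δ)).2 α t β s d f
    · have u := (m α a).2 t
      exact lt_asymm d (k1 β ((m β b).1 fun v => (p δ').2 α (Finset.mem_sdiff.1 u).1 β v d f) α u)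
  · have u := (m β b).2 s
    exact e ⟨α, (m α a).1 fun v => (p δ').2 α v β (Finset.mem_sdiff.1 u).1 d f, β, u, f⟩

theorem fin {X : Type} [TopologicalSpace X]
    (hs : ∀ D : Set (X → ℝ), (∀ f ∈ D, Continuous f) → IsDiscrete D → D.Countable)
    {C : Set W} (g : W → X → ℝ) (hg : ∀ δ, Continuous (g δ)) (N : W → Set (X → ℝ))
    (hN : ∀ δ, N δ ∈ 𝓝 (g δ)) (h : ∀ δ ∈ C, ∀ δ' ∈ C, g δ' ∈ N δ → δ' = δ) : C.Countable := by
  refine countable_of_injective_of_countable_image (f := g) (fun a ha b hb e => h b hb a ha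
    (e ▸ mem_of_mem_nhds (hN b))) (hs _ (forall_mem_image.2 fun δ _ => hg δ)
      (isDiscrete_iff_forall_mem_exists_isOpen.2 (forall_mem_image.2 fun δ hδ => ?_)))
  refine ⟨interior (N δ), isOpen_interior, Subset.antisymm ?_ (singleton_subset_iff.2
    ⟨mem_interior_iff_mem_nhds.2 (hN δ), δ, hδ, rfl⟩)⟩
  rintro _ ⟨a, δ', b, rfl⟩
  exact congrArg g (h δ hδ δ' b (interior_subset a))

theorem hsep (h : MAk (ℵ_ 1)) {X : Type} [TopologicalSpace X] [CompletelyRegularSpace X]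
    (hs : ∀ D : Set (X → ℝ), (∀ f ∈ D, Continuous f) → IsDiscrete D → D.Countable) (A : Set X) :
    ∃ B ⊆ A, B.Countable ∧ A ⊆ closure B := by
  by_contra e
  have e1 : ∀ B ⊆ A, B.Countable → ∃ x ∈ A, x ∉ closure B := fun B a b =>
    not_subset.1 fun c => e ⟨B, a, b, c⟩
  have : Nonempty X := (e1 ∅ (empty_subset _) countable_empty).elim fun x _ => ⟨x⟩
  obtain ⟨y, hy⟩ := HG2.rec_e (T := W) (α := X) id (fun t f x => x ∈ A ∧ x ∉ closure (f '' Iio t))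
    (fun t f g x a b => ⟨b.1, image_congr (fun s c => a s c : ∀ s ∈ Iio t, f s = g s) ▸ b.2⟩)
    fun t f a => e1 _ (image_subset_iff.2 fun s c => (a s c).1) ((cnt t).image f)
  choose φ φ1 φ2 φ3 using fun α => CompletelyRegularSpace.completely_regular (y α) _
    isClosed_closure (hy α).2
  let f : W → X → ℝ := fun α z => 1 - φ α z
  have f0 : ∀ α, Continuous (f α) := fun α =>
    continuous_const.sub (continuous_subtype_val.comp (φ1 α))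
  have f1 : ∀ α z, 0 ≤ f α z := fun α z => sub_nonneg.2 (φ α z).2.2
  have f2 : ∀ α, f α (y α) = 1 := fun α => by simp [f, φ2]
  have f3 : ∀ α, ∀ β < α, f α (y β) = 0 := fun α β c => by
    simp [f, φ3 α (subset_closure (mem_image_of_mem y c))]
  have o1 : ∀ (F : X → ℝ) (z : X), 1 / 2 < F z → {G : X → ℝ | 1 / 2 < G z} ∈ 𝓝 F := fun F z c =>
    (isOpen_lt continuous_const (continuous_apply z)).mem_nhds c
  have o2 : ∀ (F : X → ℝ) (z : X), F z < 1 / 2 → {G : X → ℝ | G z < 1 / 2} ∈ 𝓝 F := fun F z c =>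
    (isOpen_lt (continuous_apply z) continuous_const).mem_nhds c
  by_cases hc : ∀ A : Set (P fun α β => 1 / 2 < f α (y β)),
    (A.Pairwise fun p q => ¬ ∃ r, r ≤ p ∧ r ≤ q) → A.Countable
  · obtain ⟨C, c1, c2⟩ := caseA h hc
    refine c1 (fin hs f f0 _ (fun δ => o1 _ (y δ) (by rw [f2]; norm_num)) fun δ a δ' b c => ?_)
    rcases lt_trichotomy δ' δ with d | d | d
    · exact absurd c (c2 _ b _ a d)
    · exact d
    · have : 1 / 2 < f δ' (y δ) := c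
      rw [f3 _ _ d] at this
      norm_num at this
  push Not at hc
  obtain ⟨B, b1, b2⟩ := hc
  obtain ⟨C, q, q', c1, c2, c3⟩ := caseB (fun _ a _ b c ⟨r, r1, r2⟩ => b1 a b c r r1 r2) b2
  choose a ha using fun δ => (c2 δ).1
  have s1 : ∀ δ z, ∀ α ∈ q' δ, f α z ≤ ∑ α ∈ q' δ, f α z := fun δ z α c =>
    Finset.single_le_sum (f := fun α => f α z) (fun i _ => f1 i z) c
  refine c1 (fin hs (fun δ z => ∑ α ∈ q' δ, f α z)
    (fun δ => continuous_finsetSum _ fun α _ => f0 α)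
    (fun δ => {G | 1 / 2 < G (y (a δ))} ∩ ⋂ β ∈ q δ, {G | G (y β) < 1 / 2})
    (fun δ => inter_mem (o1 _ _ ?_) ((biInter_finset_mem _).2 fun β c => o2 _ _ ?_))
    fun δ u δ' v c => ?_)
  · exact lt_of_lt_of_le (by rw [f2]; norm_num) (s1 δ _ _ (ha δ))
  · rw [Finset.sum_eq_zero fun α d => f3 _ _ ((c2 δ).2 β c α d)]
    norm_num
  rcases lt_trichotomy δ' δ with d | d | d
  · obtain ⟨α, a1, β, a2, a3⟩ := (c3 _ v _ u d).2
    exact absurd (a3.trans_le (s1 _ _ _ a1)) (lt_asymm (mem_iInter₂.1 c.2 β a2))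
  · exact d
  · have : 1 / 2 < ∑ α ∈ q' δ', f α (y (a δ)) := c.1
    rw [Finset.sum_eq_zero fun α e => f3 _ _ ((c3 _ u _ v d).1 _ (ha δ) α e)] at this
    norm_num at this

end Pool.Agent.H33.SCP1
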