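import Mathlib
import Pool.Agent.H33.HG2

/-!
Building almost disjoint sets that obey countably many strategies.
-/

open Set Filter

namespace Pool.Agent.H33.SG1

open Pool.Agent.H33.HG2

/-- the ideal generated by a family and the finite sets -/
def Idl (𝒜 : Set (Set ℕ)) : Set (Set ℕ) := {c | ∃ F ⊆ 𝒜, F.Finite ∧ (c \ ⋃₀ F).Finite}

theorem Idl.fin {𝒜 : Set (Set ℕ)} {c : Set ℕ} (h : c.Finite) : c ∈ Idl 𝒜 :=
  ⟨∅, empty_subset _, finite_empty, h.subset sdiff_subset⟩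

theorem Idl.mem {𝒜 : Set (Set ℕ)} {c : Set ℕ} (h : c ∈ 𝒜) : c ∈ Idl 𝒜 :=
  ⟨{c}, singleton_subset_iff.2 h, finite_singleton _, by simp⟩

theorem Idl.union {𝒜 : Set (Set ℕ)} {c d : Set ℕ} (h : c ∈ Idl 𝒜) (h' : d ∈ Idl 𝒜) :
    c ∪ d ∈ Idl 𝒜 := by
  obtain ⟨F, f1, f2, f3⟩ := h
  obtain ⟨G, g1, g2, g3⟩ := h'
  refine ⟨F ∪ G, union_subset f1 g1, f2.union g2, (f3.union g3).subset fun x hx => ?_⟩
  rw [sUnion_union] at hx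
  exact hx.1.imp (fun h => ⟨h, fun h' => hx.2 (Or.inl h')⟩) fun h => ⟨h, fun h' => hx.2 (Or.inr h')⟩

theorem Idl.mono {𝒜 ℬ : Set (Set ℕ)} (h : 𝒜 ⊆ ℬ) : Idl 𝒜 ⊆ Idl ℬ :=
  fun _ ⟨F, f1, f2⟩ => ⟨F, f1.trans h, f2⟩

theorem Idl.biUnion {𝒜 : Set (Set ℕ)} {ι : Type*} {s : Set ι} (hs : s.Finite) {c : ι → Set ℕ}
    (h : ∀ i ∈ s, c i ∈ Idl 𝒜) : (⋃ i ∈ s, c i) ∈ Idl 𝒜 := by
  induction s, hs using Set.Finite.induction_on with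
  | empty => exact Idl.fin (by simp)
  | insert _ _ ih =>
    rw [biUnion_insert]
    exact Idl.union (h _ (Or.inl rfl)) (ih fun i hi => h i (Or.inr hi))

/-- the ideal is proper -/
def Proper (𝒜 : Set (Set ℕ)) : Prop := ∀ c ∈ Idl 𝒜, cᶜ.Infinite

theorem Idl.inter {𝒜 : Set (Set ℕ)} {R : Set ℕ} (h : ∀ A ∈ 𝒜, (R ∩ A).Finite) {c : Set ℕ}
    (hc : c ∈ Idl 𝒜) : (R ∩ c).Finite := by
  obtain ⟨F, f1, f2, f3⟩ := hc
  refine (f3.union (f2.biUnion fun A hA => h A (f1 hA))).subset fun x hx => ?_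
  by_cases h1 : x ∈ ⋃₀ F
  · obtain ⟨A, h2, h3⟩ := h1
    exact Or.inr (mem_biUnion h2 ⟨hx.1, h3⟩)
  · exact Or.inl ⟨hx.2, h1⟩

theorem proper_of {𝒜 : Set (Set ℕ)} {R : Set ℕ} (hR : R.Infinite)
    (h : ∀ A ∈ 𝒜, (R ∩ A).Finite) : Proper 𝒜 := fun _ hc =>
  (hR.sdiff (Idl.inter h hc)).mono fun _ hx h1 => hx.2 ⟨hx.1, h1⟩

theorem proper_union {ι : Type*} [LinearOrder ι] [Nonempty ι] {D : Set ι} {B : ι → Set (Set ℕ)}
    (h : ∀ i ∈ D, Proper (⋃ j ∈ Iic i, B j)) : Proper (⋃ i ∈ D, B i) := by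
  rintro c ⟨F, f1, f2, f3⟩
  rcases F.eq_empty_or_nonempty with rfl | hne
  · exact Finite.infinite_compl (by simpa using f3)
  have h1 : ∀ A ∈ F, ∃ i ∈ D, A ∈ B i := fun A hA => by simpa using f1 hA
  choose! g g1 g2 using h1
  obtain ⟨m, m1, m2⟩ := exists_max_image F g f2 hne
  exact h _ (g1 m m1) c ⟨F, fun A hA => mem_biUnion (mem_Iic.2 (m2 A hA)) (g2 A hA), f2, f3⟩

open Classical in
/-- initial segments -/
noncomputable def cutf (b : Set ℕ) (k : ℕ) : Finset ℕ := (Finset.range k).filter (· ∈ b)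

theorem mem_cutf {b : Set ℕ} {k x : ℕ} : x ∈ cutf b k ↔ x < k ∧ x ∈ b := by simp [cutf]

/-- `b` obeys the strategy `κ` infinitely often -/
def Obey (κ : Finset ℕ → Set ℕ) (b : Set ℕ) : Prop :=
  ∃ᶠ k in atTop, ∀ x ∈ b, k ≤ x → x ∉ κ (cutf b k)

/-- all finite modifications obey all strategies -/
def ObeyAll (𝒦 : Set (Finset ℕ → Set ℕ)) (a : Set ℕ) : Prop :=
  ∀ κ ∈ 𝒦, ∀ b, (symmDiff b a).Finite → Obey κ b

theorem build {𝒜 : Set (Set ℕ)} (hA : 𝒜.Countable) (hP : Proper 𝒜)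
    {𝒦 : Set (Finset ℕ → Set ℕ)} (hK : 𝒦.Countable) (hKI : ∀ κ ∈ 𝒦, ∀ σ, κ σ ∈ Idl 𝒜)
    {St : Type} (blk : St → ℕ → Finset ℕ) (Step : ℕ → St → St → Prop) (s₀ : St)
    (hs : ∀ j s, ∀ c ∈ Idl 𝒜, ∃ s', Step j s s' ∧
      ∀ k, blk s k ⊆ blk s' k ∧ ∀ x ∈ blk s' k, x ∉ blk s k → x ∉ c) :
    ∃ s : ℕ → St, s 0 = s₀ ∧ (∀ j, Step j (s j) (s (j + 1))) ∧
      (∀ k, Monotone fun j => blk (s j) k) ∧
      (∀ k, (∀ A ∈ 𝒜, ((⋃ j, (blk (s j) k : Set ℕ)) ∩ A).Finite) ∧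
        ObeyAll 𝒦 (⋃ j, (blk (s j) k : Set ℕ))) ∧
      Proper (𝒜 ∪ range fun k => ⋃ j, (blk (s j) k : Set ℕ)) := by
  classical
  obtain ⟨q, q1, q2⟩ := enum hA
  have q3 : ∀ i, q i ∈ Idl 𝒜 := fun i => (q1 i).elim (fun h => Idl.fin (h ▸ finite_empty)) Idl.mem
  have := (hK.insert fun _ => ∅).to_subtype
  have : Nonempty (insert (fun _ => ∅) 𝒦 : Set (Finset ℕ → Set ℕ)) := ⟨⟨_, Or.inl rfl⟩⟩
  obtain ⟨θ, hθ⟩ := exists_surjective_nat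
    ((insert (fun _ => ∅) 𝒦 : Set (Finset ℕ → Set ℕ)) × ℕ × ℕ × Finset ℕ)
  have step : ∀ (j : ℕ) (p : St × Idl 𝒜), ∃ (p' : St × Idl 𝒜) (M r : ℕ), Step j p.1 p'.1 ∧
      (∀ k, blk p.1 k ⊆ blk p'.1 k ∧ ∀ x ∈ blk p'.1 k, x ∉ blk p.1 k → x ∉ p'.2.1) ∧
      p.2.1 ⊆ p'.2.1 ∧ Iio M ⊆ p'.2.1 ∧ j ≤ M ∧ r ∈ p'.2.1 ∧ M ≤ r ∧ ∀ i ≤ j, q i ⊆ p'.2.1 ∧
        (θ i).1.1 ((θ i).2.2.2 ∪ (blk p.1 (θ i).2.1).filter ((θ i).2.2.1 ≤ ·)) ⊆ p'.2.1 ∧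
        (θ i).2.2.1 ≤ M ∧ (∀ x ∈ blk p.1 (θ i).2.1, x < M) ∧ (∀ x ∈ blk p.1 i, x < M) ∧
        r ∉ q i := by
    intro j p
    obtain ⟨M, hM⟩ := eventually_atTop.1 (((eventually_ge_atTop j).and
      ((eventually_all_finite (finite_Iic j)).2 fun i _ =>
        (eventually_ge_atTop (θ i).2.2.1).and
          (((Finset.eventually_all (blk p.1 (θ i).2.1)).2 fun x _ => eventually_gt_atTop x).and
            ((Finset.eventually_all (blk p.1 i)).2 fun x _ => eventually_gt_atTop x)))))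
    obtain ⟨m1, m2⟩ := hM M le_rfl
    let c : Set ℕ := (p.2.1 ∪ Iio M) ∪ ⋃ i ∈ Iic j, (q i ∪
      (θ i).1.1 ((θ i).2.2.2 ∪ (blk p.1 (θ i).2.1).filter ((θ i).2.2.1 ≤ ·)))
    have hc : c ∈ Idl 𝒜 := Idl.union (Idl.union p.2.2 (Idl.fin (finite_Iio M)))
      (Idl.biUnion (finite_Iic j) fun i _ => Idl.union (q3 i) ((θ i).1.2.elim
        (fun h => by rw [h]; exact Idl.fin finite_empty) fun h => hKI _ h _))
    obtain ⟨r, hr⟩ := (hP c hc).nonempty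
    have hc' : {r} ∪ c ∈ Idl 𝒜 := Idl.union (Idl.fin (finite_singleton r)) hc
    obtain ⟨s', s1, s2⟩ := hs j p.1 _ hc'
    refine ⟨(s', ⟨_, hc'⟩), M, r, s1, s2, fun x hx => Or.inr (Or.inl (Or.inl hx)),
      fun x hx => Or.inr (Or.inl (Or.inr hx)), m1, Or.inl rfl,
      le_of_not_gt fun h => hr (Or.inl (Or.inr h)), fun i hi => ⟨fun x hx =>
        Or.inr (Or.inr (mem_biUnion (mem_Iic.2 hi) (Or.inl hx))), fun x hx =>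
        Or.inr (Or.inr (mem_biUnion (mem_Iic.2 hi) (Or.inr hx))), (m2 i hi).1, (m2 i hi).2.1,
        (m2 i hi).2.2, fun h => hr (Or.inr (mem_biUnion (mem_Iic.2 hi) (Or.inl h)))⟩⟩
  choose F M r f1 f2 f3 f4 f5 f6 f7 f8 using step
  let p : ℕ → St × Idl 𝒜 := fun j => Nat.rec (s₀, ⟨∅, Idl.fin finite_empty⟩) F j
  have hp : ∀ j, p (j + 1) = F j (p j) := fun _ => rfl
  have c1 : Monotone fun j => (p j).2.1 := monotone_nat_of_le_succ fun j => f3 j (p j)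
  have key : ∀ k j x, x ∈ (⋃ j, (blk (p j).1 k : Set ℕ)) → x ∉ blk (p j).1 k →
      x ∉ (p (j + 1)).2.1 := fun k j x hx h1 h2 => by
    obtain ⟨i, hi⟩ := mem_iUnion.1 hx
    have h3 : ∀ i, x ∉ blk (p (j + i)).1 k := fun i => by
      induction i with
      | zero => exact h1
      | succ i ih => exact fun h => ((f2 _ _ k).2 x h ih) (c1 (by omega : j + 1 ≤ j + i + 1) h2)
    exact h3 i (monotone_nat_of_le_succ (f := fun j => blk (p j).1 k) (fun j => (f2 j _ k).1)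
      (by omega : i ≤ j + i) hi)
  refine ⟨fun j => (p j).1, rfl, fun j => f1 j _, fun k => monotone_nat_of_le_succ
    fun j => (f2 j _ k).1, fun k => ⟨fun A hA => ?_, fun κ hκ b hb => ?_⟩,
    proper_of (R := range fun j => r j (p j)) (infinite_of_forall_exists_gt fun n =>
      ⟨_, mem_range_self (n + 1), (f5 _ _).trans (f7 _ _)⟩) ?_⟩
  · obtain ⟨i, rfl⟩ := q2 A hA
    exact (blk (p i).1 k).finite_toSet.subset fun x hx => by_contra fun h =>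
      key k i x hx.1 h ((f8 i _ i le_rfl).1 hx.2)
  · obtain ⟨R, hR⟩ := hb.bddAbove
    have h1 : ∀ x, R + 1 ≤ x → (x ∈ b ↔ x ∈ ⋃ j, (blk (p j).1 k : Set ℕ)) := fun x hx => by
      by_contra h
      have : x ≤ R := hR (by rw [Set.mem_symmDiff]; tauto)
      omega
    obtain ⟨i, hi⟩ := hθ (⟨κ, Or.inr hκ⟩, k, R + 1, cutf b (R + 1))
    refine frequently_atTop.2 fun n => ⟨M (max n i) (p (max n i)), (le_max_left _ _).trans (f5 _ _),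
      fun x hx hMx => ?_⟩
    obtain ⟨-, g2, g3, g4, -⟩ := f8 (max n i) (p (max n i)) i (le_max_right _ _)
    rw [hi] at g2 g3 g4
    have h2 : cutf b (M (max n i) (p (max n i))) =
        cutf b (R + 1) ∪ (blk (p (max n i)).1 k).filter (R + 1 ≤ ·) := by
      ext y
      rw [Finset.mem_union, Finset.mem_filter, mem_cutf, mem_cutf]
      refine ⟨fun h => (lt_or_ge y (R + 1)).imp (fun h' => ⟨h', h.2⟩) fun h' =>
        ⟨by_contra fun h3 => key k _ y ((h1 y h').1 h.2) h3 (f4 _ _ h.1), h'⟩, ?_⟩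
      rintro (h | h)
      · exact ⟨h.1.trans_le g3, h.2⟩
      · exact ⟨g4 y h.1, (h1 y h.2).2 (mem_iUnion.2 ⟨_, h.1⟩)⟩
    rw [h2]
    exact fun h => key k _ x ((h1 x (g3.trans hMx)).1 hx) (fun h' => (g4 x h').not_ge hMx) (g2 h)
  · rintro A (hA | ⟨k, rfl⟩)
    · obtain ⟨i, rfl⟩ := q2 A hA
      refine ((finite_Iio i).image fun j => r j (p j)).subset ?_
      rintro _ ⟨⟨j, rfl⟩, h⟩
      exact ⟨j, mem_Iio.2 (lt_of_not_ge fun h1 => (f8 j _ i h1).2.2.2.2.2 h), rfl⟩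
    · refine ((finite_Iio k).image fun j => r j (p j)).subset ?_
      rintro _ ⟨⟨j, rfl⟩, h⟩
      exact ⟨j, mem_Iio.2 (lt_of_not_ge fun h1 => key k j _ h
        (fun h2 => ((f8 j _ k h1).2.2.2.2.1 _ h2).not_ge (f7 _ _)) (f6 _ _)), rfl⟩

theorem build1 {𝒜 : Set (Set ℕ)} (hA : 𝒜.Countable) (hP : Proper 𝒜)
    {𝒦 : Set (Finset ℕ → Set ℕ)} (hK : 𝒦.Countable) (hKI : ∀ κ ∈ 𝒦, ∀ σ, κ σ ∈ Idl 𝒜)
    {N : Set ℕ} (D : ℕ → Set (Finset ℕ))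
    (h : ∀ c ∈ Idl 𝒜, ∀ m, ∃ n ∈ N, m ≤ n ∧ ∃ t ∈ D n, ∀ x ∈ t, x ∉ c) {c₀ : Set ℕ}
    (h₀ : c₀ ∈ Idl 𝒜) : ∃ N' ⊆ N, N'.Infinite ∧ ∃ a : Set ℕ,
      (∀ n ∈ N', ∃ t ∈ D n, (t : Set ℕ) ⊆ a ∧ ∀ x ∈ t, x ∉ c₀) ∧ (∀ A ∈ 𝒜, (a ∩ A).Finite) ∧
      ObeyAll 𝒦 a ∧ Proper (𝒜 ∪ {a}) := by
  obtain ⟨s, -, s1, -, s2, s3⟩ := build hA hP hK hKI (St := Finset ℕ) (fun s _ => s)
    (fun j _ s' => ∃ n ∈ N, j ≤ n ∧ ∃ t ∈ D n, t ⊆ s' ∧ ∀ x ∈ t, x ∉ c₀) ∅ fun j s c hc => by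
      obtain ⟨n, h1, h2, t, h3, h4⟩ := h _ (Idl.union hc h₀) j
      exact ⟨s ∪ t, ⟨n, h1, h2, t, h3, Finset.subset_union_right, fun x hx h5 => h4 x hx (Or.inr h5)⟩,
        fun _ => ⟨Finset.subset_union_left, fun x hx h5 h6 =>
          h4 x ((Finset.mem_union.1 hx).resolve_left h5) (Or.inl h6)⟩⟩
  choose n n1 n2 t t1 t2 t3 using s1
  refine ⟨range n, range_subset_iff.2 n1, infinite_of_forall_exists_gt fun m =>
    ⟨_, mem_range_self (m + 1), n2 _⟩, ⋃ j, (s j : Set ℕ), ?_, (s2 0).1, (s2 0).2, by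
      simpa using s3⟩
  rintro _ ⟨j, rfl⟩
  exact ⟨t j, t1 j, fun x hx => mem_iUnion.2 ⟨j + 1, t2 j hx⟩, t3 j⟩

end Pool.Agent.H33.SG1
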