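import Mathlib
import Pool.Agent.H33.SG1

/-!
The game dichotomy used at a single stage of the construction.
-/

open Set Filter

namespace Pool.Agent.H33.SG2

open Pool.Agent.H33.SG1

/-- indices that are eventually bad along `b` -/
def Bad (bad : ℕ → Finset ℕ → Prop) (b : Set ℕ) : Set ℕ := {n | ∀ᶠ k in atTop, bad n (cutf b k)}

/-- one bad move -/
def rel (bad : ℕ → Finset ℕ → Prop) (N : Set ℕ) (κ : Finset ℕ → Set ℕ) (ν : Finset ℕ → ℕ)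
    (σ' σ : Finset ℕ) : Prop :=
  ∃ t : Finset ℕ, σ' = σ ∪ t ∧ (∀ x ∈ t, x ∉ κ σ) ∧ ∃ n ∈ N, ν σ ≤ n ∧ bad n σ'

/-- safe positions -/
def Safe (bad : ℕ → Finset ℕ → Prop) (N : Set ℕ) (𝒜 : Set (Set ℕ)) (σ : Finset ℕ) : Prop :=
  ∃ κ ν, (∀ τ, κ τ ∈ Idl 𝒜) ∧ Acc (rel bad N κ ν) σ

variable {bad : ℕ → Finset ℕ → Prop} {N N' : Set ℕ} {𝒜 ℬ : Set (Set ℕ)} {σ : Finset ℕ}

theorem Safe.mono (h : Safe bad N 𝒜 σ) (hN : (N' \ N).Finite) (hA : 𝒜 ⊆ ℬ) :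
    Safe bad N' ℬ σ := by
  obtain ⟨κ, ν, h1, h2⟩ := h
  obtain ⟨m, hm⟩ := hN.bddAbove
  refine ⟨κ, fun τ => max (ν τ) (m + 1), fun τ => Idl.mono hA (h1 τ), Subrelation.accessible ?_ h2⟩
  rintro a b ⟨t, t1, t2, n, n1, n2, n3⟩
  refine ⟨t, t1, t2, n, by_contra fun h => ?_, (le_max_left _ _).trans n2, n3⟩
  have := hm ⟨n1, h⟩
  have := (le_max_right _ _).trans n2
  omega

theorem uni (bad : ℕ → Finset ℕ → Prop) (N : Set ℕ) {c : Set ℕ} (hc : c ∈ Idl 𝒜) (m : ℕ) :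
    ∃ κ ν, (∀ τ, κ τ ∈ Idl 𝒜) ∧ (∀ τ, c ⊆ κ τ ∧ m ≤ ν τ) ∧
      ∀ σ, Safe bad N 𝒜 σ → Acc (rel bad N κ ν) σ := by
  have : ∀ σ, ∃ κ ν, (∀ τ, κ τ ∈ Idl 𝒜) ∧ (Safe bad N 𝒜 σ → Acc (rel bad N κ ν) σ) := fun σ => by
    by_cases h : Safe bad N 𝒜 σ
    · obtain ⟨κ, ν, h1, h2⟩ := h
      exact ⟨κ, ν, h1, fun _ => h2⟩
    · exact ⟨fun _ => c, fun _ => 0, fun _ => hc, fun h' => absurd h' h⟩
  choose κ ν h1 h2 using this
  refine ⟨fun τ => c ∪ ⋃ ρ ∈ (τ.powerset : Set (Finset ℕ)), κ ρ τ,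
    fun τ => max m (τ.powerset.sup fun ρ => ν ρ τ), fun τ => Idl.union hc
      (Idl.biUnion τ.powerset.finite_toSet fun ρ _ => h1 ρ τ),
    fun τ => ⟨subset_union_left, le_max_left _ _⟩, fun σ hσ => ?_⟩
  have key : ∀ τ, Acc (rel bad N (κ σ) (ν σ)) τ → σ ⊆ τ → Acc (rel bad N
      (fun τ => c ∪ ⋃ ρ ∈ (τ.powerset : Set (Finset ℕ)), κ ρ τ)
      fun τ => max m (τ.powerset.sup fun ρ => ν ρ τ)) τ := fun τ h => by
    induction h with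
    | intro τ _ ih =>
      refine fun hτ => ⟨_, fun τ' ⟨t, t1, t2, n, n1, n2, n3⟩ => ih τ' ⟨t, t1, fun x hx h =>
        t2 x hx (Or.inr (mem_biUnion (Finset.mem_powerset.2 hτ) h)), n, n1, ?_, n3⟩
          (t1 ▸ hτ.trans Finset.subset_union_left)⟩
      exact (Finset.le_sup (f := fun ρ => ν ρ τ) (Finset.mem_powerset.2 hτ)).trans
        ((le_max_right _ _).trans n2)
  exact key σ (h2 σ hσ) subset_rfl

theorem safe_of {c : Set ℕ} (hc : c ∈ Idl 𝒜) (m : ℕ) (h : ∀ n ∈ N, m ≤ n → ∀ t : Finset ℕ,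
    (∀ x ∈ t, x ∉ c) → bad n (σ ∪ t) → Safe bad N 𝒜 (σ ∪ t)) : Safe bad N 𝒜 σ := by
  obtain ⟨κ, ν, h1, h2, h3⟩ := uni bad N hc m
  refine ⟨κ, ν, h1, ⟨_, ?_⟩⟩
  rintro _ ⟨t, rfl, t2, n, n1, n2, n3⟩
  exact h3 _ (h n n1 ((h2 σ).2.trans n2) t (fun x hx h' => t2 x hx ((h2 σ).1 h')) n3)

theorem fin_of_obey {κ : Finset ℕ → Set ℕ} {ν : Finset ℕ → ℕ}
    (h : ∀ σ, Acc (rel bad N κ ν) σ) {b : Set ℕ} (hb : Obey κ b) : (N ∩ Bad bad b).Finite := by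
  by_contra hi
  have key : ∀ σ, Acc (rel bad N κ ν) σ → ∀ k, (∀ x ∈ b, k ≤ x → x ∉ κ (cutf b k)) →
      cutf b k ≠ σ := fun σ hσ => by
    induction hσ with
    | intro σ _ ih =>
      rintro k hk rfl
      obtain ⟨n, n1, n2⟩ := Set.Infinite.exists_gt hi (ν (cutf b k))
      obtain ⟨l, l1, l2, l3⟩ := (hb.and_eventually (n1.2.and (eventually_ge_atTop k))).exists
      refine ih (cutf b l) ⟨cutf b l \ cutf b k, (Finset.union_sdiff_of_subset fun x hx => ?_).symm,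
        fun x hx => ?_, n, n1.1, n2.le, l2⟩ l l1 rfl
      · rw [mem_cutf] at hx ⊢
        exact ⟨hx.1.trans_le l3, hx.2⟩
      · rw [Finset.mem_sdiff, mem_cutf, mem_cutf] at hx
        exact hk x hx.1.2 (le_of_not_gt fun h' => hx.2 ⟨h', hx.1.2⟩)
  obtain ⟨k, hk⟩ := hb.exists
  exact key _ (h _) k hk rfl

/-- admissible new families -/
structure New (𝒜 : Set (Set ℕ)) (𝒦 : Set (Finset ℕ → Set ℕ)) (ℬ : Set (Set ℕ)) : Prop where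
  cnt : ℬ.Countable
  obey : ∀ a ∈ ℬ, ObeyAll 𝒦 a
  ad : ∀ a ∈ ℬ, ∀ A ∈ 𝒜, (a ∩ A).Finite
  pw : ℬ.Pairwise fun a b => (a ∩ b).Finite

theorem New.empty (𝒜 : Set (Set ℕ)) (𝒦 : Set (Finset ℕ → Set ℕ)) : New 𝒜 𝒦 ∅ :=
  ⟨countable_empty, by simp, by simp, pairwise_empty _⟩

/-- conditions -/
def Cond (𝒜 : Set (Set ℕ)) (𝒦 : Set (Finset ℕ → Set ℕ)) (N₀ : Set ℕ)
    (p : Set ℕ × Set (Set ℕ)) : Prop :=
  p.1.Infinite ∧ p.1 ⊆ N₀ ∧ New 𝒜 𝒦 p.2 ∧ Proper (𝒜 ∪ p.2)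

theorem maxcond (hP : Proper 𝒜) (𝒦 : Set (Finset ℕ → Set ℕ)) {N₀ : Set ℕ} (hN : N₀.Infinite)
    (bad : ℕ → ℕ → Finset ℕ → Prop) : ∃ p, Cond 𝒜 𝒦 N₀ p ∧ ∀ q, Cond 𝒜 𝒦 N₀ q →
      (q.1 \ p.1).Finite → p.2 ⊆ q.2 → ∀ e σ, Safe (bad e) q.1 (𝒜 ∪ q.2) σ →
        Safe (bad e) p.1 (𝒜 ∪ p.2) σ := by
  obtain ⟨θ, hθ⟩ := exists_surjective_nat (ℕ × Finset ℕ)
  have step : ∀ (j : ℕ) (p : {p // Cond 𝒜 𝒦 N₀ p}), ∃ p' : {p // Cond 𝒜 𝒦 N₀ p},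
      (p'.1.1 \ p.1.1).Finite ∧ p.1.2 ⊆ p'.1.2 ∧ ∀ q, Cond 𝒜 𝒦 N₀ q → (q.1 \ p.1.1).Finite →
        p.1.2 ⊆ q.2 → Safe (bad (θ j).1) q.1 (𝒜 ∪ q.2) (θ j).2 →
          Safe (bad (θ j).1) p'.1.1 (𝒜 ∪ p'.1.2) (θ j).2 := by
    intro j p
    by_cases h : ∃ q, Cond 𝒜 𝒦 N₀ q ∧ (q.1 \ p.1.1).Finite ∧ p.1.2 ⊆ q.2 ∧
      Safe (bad (θ j).1) q.1 (𝒜 ∪ q.2) (θ j).2
    · obtain ⟨q, h1, h2, h3, h4⟩ := h
      exact ⟨⟨q, h1⟩, h2, h3, fun _ _ _ _ _ => h4⟩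
    · exact ⟨p, by simp, subset_rfl, fun q h1 h2 h3 h4 => absurd ⟨q, h1, h2, h3, h4⟩ h⟩
  choose F f1 f2 f3 using step
  let p : ℕ → {p // Cond 𝒜 𝒦 N₀ p} := fun j =>
    Nat.rec ⟨(N₀, ∅), hN, subset_rfl, New.empty _ _, by simpa using hP⟩ F j
  have m2 : Monotone fun j => (p j).1.2 := monotone_nat_of_le_succ fun j => f2 j _
  have tr : ∀ {a b c : Set ℕ}, (a \ b).Finite → (b \ c).Finite → (a \ c).Finite :=
    fun {a b c} h h' => (h.union h').subset fun x hx =>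
      (em (x ∈ b)).elim (fun h => Or.inr ⟨h, hx.2⟩) fun h => Or.inl ⟨hx.1, h⟩
  have m1 : ∀ i j, i ≤ j → ((p j).1.1 \ (p i).1.1).Finite := fun i j h => by
    induction h with
    | refl => simp
    | step _ ih => exact tr (f1 _ _) ih
  choose x x1 x2 using fun j => ((p j).2.1.sdiff ((finite_Iic j).biUnion
    fun i hi => m1 i j hi)).exists_gt j
  have m3 : ∀ i, (range x \ (p i).1.1).Finite := fun i => ((finite_Iio i).image x).subset (by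
    rintro _ ⟨⟨j, rfl⟩, h⟩
    exact ⟨j, mem_Iio.2 (lt_of_not_ge fun h1 => (x1 j).2 (mem_biUnion (mem_Iic.2 h1)
      ⟨(x1 j).1, h⟩)), rfl⟩)
  refine ⟨(range x, ⋃ j, (p j).1.2), ⟨infinite_of_forall_exists_gt fun n =>
    ⟨_, mem_range_self n, x2 n⟩, range_subset_iff.2 fun j => (p j).2.2.1 (x1 j).1,
    ⟨countable_iUnion fun j => (p j).2.2.2.1.cnt,
      fun a ha => (mem_iUnion.1 ha).elim fun j => (p j).2.2.2.1.obey a,
      fun a ha => (mem_iUnion.1 ha).elim fun j => (p j).2.2.2.1.ad a,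
      (pairwise_iUnion m2.directed_le).2 fun j => (p j).2.2.2.1.pw⟩, ?_⟩,
    fun q q1 q2 q3 e σ h => ?_⟩
  · have := proper_union (D := univ) (B := fun j => 𝒜 ∪ (p j).1.2) fun i _ c hc =>
      (p i).2.2.2.2 c (Idl.mono (iUnion₂_subset fun j (hj : j ≤ i) =>
        union_subset_union_right 𝒜 (m2 hj)) hc)
    refine fun c hc => this c (Idl.mono ?_ hc)
    rintro A (hA | hA)
    · exact mem_biUnion (mem_univ 0) (Or.inl hA)
    · obtain ⟨j, hj⟩ := mem_iUnion.1 hA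
      exact mem_biUnion (mem_univ j) (Or.inr hj)
  · obtain ⟨j, hj⟩ := hθ (e, σ)
    have := f3 j (p j) q q1 (tr q2 (m3 j)) ((subset_iUnion (fun j => (p j).1.2) j).trans q3)
    rw [hj] at this
    exact (this h).mono (m3 (j + 1))
      (union_subset_union_right _ (subset_iUnion (fun j => (p j).1.2) (j + 1)))

theorem sel (hA : 𝒜.Countable) {𝒦 : Set (Finset ℕ → Set ℕ)} (hK : 𝒦.Countable)
    (hKI : ∀ κ ∈ 𝒦, ∀ σ, κ σ ∈ Idl 𝒜) {N₀ : Set ℕ} {p : Set ℕ × Set (Set ℕ)}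
    (hp : ∀ q, Cond 𝒜 𝒦 N₀ q → (q.1 \ p.1).Finite → p.2 ⊆ q.2 → ∀ σ,
      Safe bad q.1 (𝒜 ∪ q.2) σ → Safe bad p.1 (𝒜 ∪ p.2) σ) (σ : ℕ → Finset ℕ)
    (hσ : ∀ k, ¬ Safe bad p.1 (𝒜 ∪ p.2) (σ k)) (j : ℕ) :
    ∀ q, Cond 𝒜 𝒦 N₀ q → (q.1 \ p.1).Finite → p.2 ⊆ q.2 → ∀ c ∈ Idl (𝒜 ∪ q.2), ∀ m,
      ∃ n ∈ q.1, m ≤ n ∧ ∃ t : ℕ → Finset ℕ, (∀ k < j, bad n (σ k ∪ t k) ∧
        ¬ Safe bad p.1 (𝒜 ∪ p.2) (σ k ∪ t k)) ∧ (∀ k, ∀ x ∈ t k, x ∉ c ∧ k < j) ∧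
        ∀ k l, ∀ x ∈ t k, x ∈ t l → k = l := by
  classical
  induction j with
  | zero =>
    intro q q1 _ _ c _ m
    obtain ⟨n, n1, n2⟩ := q1.1.exists_gt m
    exact ⟨n, n1, n2.le, fun _ => ∅, by simp, by simp, by simp⟩
  | succ j ih =>
    intro q q1 q2 q3 c hc m
    obtain ⟨N', n1, n2, a, a1, a2, a3, a4⟩ := build1 (hA.union q1.2.2.1.cnt) q1.2.2.2 hK
      (fun κ hκ τ => Idl.mono subset_union_left (hKI κ hκ τ)) (N := q.1)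
      (fun n => {t | bad n (σ j ∪ t) ∧ ¬ Safe bad p.1 (𝒜 ∪ p.2) (σ j ∪ t)}) (fun c hc m => by
        by_contra h
        refine hσ j (hp q q1 q2 q3 _ (safe_of hc m fun n h1 h2 t h3 h4 => ?_))
        by_contra h5
        exact h ⟨n, h1, h2, t, ⟨h4, fun h6 => h5 (h6.mono q2 (union_subset_union_right _ q3))⟩,
          h3⟩) hc
    obtain ⟨n, h1, h2, t, t1, t2, t3⟩ := ih (N', q.2 ∪ {a}) ⟨n2, n1.trans q1.2.1,
      ⟨q1.2.2.1.cnt.union (countable_singleton _), fun b hb => hb.elim (q1.2.2.1.obey b)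
        fun h => h ▸ a3, fun b hb => hb.elim (q1.2.2.1.ad b) fun h A hA => h ▸ a2 A (Or.inl hA), by
          rw [union_singleton]
          exact q1.2.2.1.pw.insert fun b hb _ =>
            ⟨a2 b (Or.inr hb), inter_comm a b ▸ a2 b (Or.inr hb)⟩⟩, union_assoc .. ▸ a4⟩
      (q2.subset (sdiff_subset_sdiff_left n1)) (q3.trans subset_union_left) (c ∪ a)
      (Idl.union (Idl.mono (union_subset_union_right _ subset_union_left) hc)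
        (Idl.mem (Or.inr (Or.inr rfl)))) m
    obtain ⟨u, u1, u2, u3⟩ := a1 n h1
    refine ⟨n, n1 h1, h2, fun k => if k = j then u else t k, fun k hk => ?_, fun k x hx => ?_,
      fun k l x hk hl => ?_⟩
    · by_cases h : k = j
      · simpa only [h, if_true, mem_ofPred_eq] using u1
      · simpa only [h, if_false] using t1 k (by omega)
    · by_cases h : k = j
      · simp only [h, if_true] at hx
        exact ⟨u3 x hx, by omega⟩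
      · simp only [h, if_false] at hx
        exact ⟨fun h' => (t2 k x hx).1 (Or.inl h'), (t2 k x hx).2.trans j.lt_succ_self⟩
    · by_cases h : k = j <;> by_cases h' : l = j <;> simp only [h, h', if_true, if_false] at hk hl
      · rw [h, h']
      · exact absurd (Or.inr (u2 hk)) (t2 l x hl).1
      · exact absurd (Or.inr (u2 hl)) (t2 k x hk).1
      · exact t3 k l x hk hl

theorem stage (hA : 𝒜.Countable) (hP : Proper 𝒜) {𝒦 𝒦' : Set (Finset ℕ → Set ℕ)}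
    (hK : 𝒦.Countable) (hKI : ∀ κ ∈ 𝒦, ∀ σ, κ σ ∈ Idl 𝒜) (hK' : 𝒦'.Countable)
    (hKI' : ∀ κ ∈ 𝒦', ∀ σ, κ σ ∈ Idl 𝒜) {N₀ : Set ℕ} (hN : N₀.Infinite)
    (bad : ℕ → ℕ → Finset ℕ → Prop) (hb : ∀ e n s, bad e n s →
      ∃ m, ∀ t : Finset ℕ, (∀ x ∈ t, m ≤ x) → bad e n (s ∪ t)) :
    ∃ (ℬ ℬ' : Set (Set ℕ)) (κ : ℕ → Finset ℕ → Set ℕ) (N : Set ℕ), New 𝒜 𝒦 ℬ ∧ New 𝒜 𝒦' ℬ' ∧
      Proper (𝒜 ∪ (ℬ ∪ ℬ')) ∧ (∀ e σ, κ e σ ∈ Idl (𝒜 ∪ (ℬ ∪ ℬ'))) ∧ N ⊆ N₀ ∧ N.Infinite ∧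
      ((ℬ = ∅ ∧ ∀ e b, Obey (κ e) b → (N ∩ Bad (bad e) b).Finite) ∨
        ∃ (e : ℕ) (σ : Finset ℕ) (a : ℕ → Set ℕ), ∀ k, a k ∈ ℬ ∧ a k ⊆ Ici k ∧
          (N \ Bad (bad e) (σ ∪ a k)).Finite) := by
  classical
  obtain ⟨p, p1, p2⟩ := maxcond hP 𝒦' hN bad
  by_cases h : ∀ e σ, Safe (bad e) p.1 (𝒜 ∪ p.2) σ
  · choose κ ν k1 _ k3 using fun e => uni (𝒜 := 𝒜 ∪ p.2) (bad e) p.1 (Idl.fin finite_empty) 0
    exact ⟨∅, p.2, κ, p.1, New.empty _ _, p1.2.2.1, by simpa using p1.2.2.2, by simpa using k1,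
      p1.2.1, p1.1, Or.inl ⟨rfl, fun e b => fin_of_obey fun σ => k3 e σ (h e σ)⟩⟩
  push Not at h
  obtain ⟨e, σ, h⟩ := h
  let St := {s : (ℕ → Finset ℕ) × ℕ // (∀ k, ¬ Safe (bad e) p.1 (𝒜 ∪ p.2) (σ ∪ s.1 k)) ∧
    ∀ k, ∀ x ∈ s.1 k, x < s.2}
  obtain ⟨s, s0, s1, s2, s3, s4⟩ := build (hA.union p1.2.2.1.cnt) p1.2.2.2 hK
    (fun κ hκ τ => Idl.mono subset_union_left (hKI κ hκ τ)) (St := St) (fun s => s.1.1)
    (fun j s s' => s.1.2 ≤ s'.1.2 ∧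
      (∀ k, ∀ x ∈ s'.1.1 k, x ∉ s.1.1 k → s.1.2 ≤ x ∧ k ≤ x ∧
        ∀ l, x ∈ s'.1.1 l → x ∉ s.1.1 l → k = l) ∧
      ∃ n ∈ p.1, j ≤ n ∧ ∀ k ≤ j, ∀ t : Finset ℕ, (∀ x ∈ t, s'.1.2 ≤ x) →
        bad e n (σ ∪ s'.1.1 k ∪ t)) ⟨(fun _ => ∅, 0), by simpa using h, by simp⟩ (by
    intro j s c hc
    obtain ⟨n, n1, n2, t, t1, t2, t3⟩ := sel hA hK' hKI' (fun q a b c => p2 q a b c e) _ s.2.1
      (j + 1) p p1 (by simp) subset_rfl (c ∪ Iio (max s.1.2 j))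
      (Idl.union hc (Idl.fin (finite_Iio _))) j
    choose! m hm using fun k (hk : k < j + 1) => hb e n _ (t1 k hk).1
    obtain ⟨M, m1, m2⟩ := ((eventually_ge_atTop s.1.2).and
      ((eventually_all_finite (finite_Iio (j + 1))).2 fun k _ => (eventually_ge_atTop (m k)).and
        ((Finset.eventually_all (t k)).2 fun x _ => eventually_gt_atTop x))).exists
    have h1 : ∀ k x, x ∈ s.1.1 k ∪ t k → x ∉ s.1.1 k → x ∈ t k := fun k x h h' =>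
      (Finset.mem_union.1 h).resolve_left h'
    have h2 : ∀ k, ∀ x ∈ t k, max s.1.2 j ≤ x := fun k x hx =>
      le_of_not_gt fun h => (t2 k x hx).1 (Or.inr h)
    refine ⟨⟨(fun k => s.1.1 k ∪ t k, M), fun k => ?_, fun k x hx => ?_⟩,
      ⟨m1, fun k x hx h => ?_, n, n1, n2, fun k hk u hu => ?_⟩,
      fun k => ⟨Finset.subset_union_left, fun x hx h h' => (t2 k x (h1 k x hx h)).1 (Or.inl h')⟩⟩
    · by_cases hk : k < j + 1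
      · simpa only [Finset.union_assoc] using (t1 k hk).2
      · have : t k = ∅ := Finset.eq_empty_of_forall_notMem fun x hx => hk (t2 k x hx).2
        simpa only [this, Finset.union_empty] using s.2.1 k
    · rcases Finset.mem_union.1 hx with h | h
      · exact (s.2.2 k x h).trans_le m1
      · exact (m2 k (t2 k x h).2).2 x h
    · have h3 := h1 k x hx h
      have h4 := h2 k x h3
      have h5 := (t2 k x h3).2
      exact ⟨by omega, by omega, fun l hl hl' => t3 k l x h3 (h1 l x hl hl')⟩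
    · have := hm k (by omega) u fun x hx => (m2 k (Nat.lt_succ_of_le hk)).1.trans (hu x hx)
      simpa only [Finset.union_assoc] using this)
  choose s5 s6 n n1 n2 n3 using s1
  have d1 : ∀ j k, ∀ x ∈ (s j).1.1 k, k ≤ x ∧ ∀ l, x ∈ (s j).1.1 l → k = l := fun j => by
    induction j with
    | zero => simp [s0]
    | succ j ih =>
      intro k x hx
      by_cases h1 : x ∈ (s j).1.1 k
      · refine ⟨(ih k x h1).1, fun l hl => (ih k x h1).2 l (by_contra fun h2 => ?_)⟩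
        exact ((s j).2.2 k x h1).not_ge (s6 j l x hl h2).1
      · refine ⟨(s6 j k x hx h1).2.1, fun l hl => (s6 j k x hx h1).2.2 l hl fun h2 => ?_⟩
        exact ((s j).2.2 l x h2).not_ge (s6 j k x hx h1).1
  have d2 : Monotone fun j => (s j).1.2 := monotone_nat_of_le_succ s5
  have d3 : ∀ k j i x, x ∈ (s (j + i)).1.1 k → x ∉ (s j).1.1 k → (s j).1.2 ≤ x := fun k j i x => by
    induction i with
    | zero => exact fun h h' => absurd h h'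
    | succ i ih =>
      intro h h'
      by_cases h1 : x ∈ (s (j + i)).1.1 k
      · exact ih h1 h'
      · exact (d2 (Nat.le_add_right j i)).trans (s6 _ k x h h1).1
  refine ⟨range fun k => ⋃ j, ((s j).1.1 k : Set ℕ), p.2, fun _ _ => ∅, range n,
    ⟨countable_range _, forall_mem_range.2 fun k => (s3 k).2,
      forall_mem_range.2 fun k A hA => (s3 k).1 A (Or.inl hA), ?_⟩, p1.2.2.1,
    fun c hc => s4 c (Idl.mono (by rw [union_comm _ p.2, union_assoc]) hc),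
    fun _ _ => Idl.fin finite_empty, (range_subset_iff.2 n1).trans p1.2.1,
    infinite_of_forall_exists_gt fun m => ⟨_, mem_range_self (m + 1), n2 _⟩,
    Or.inr ⟨e, σ, _, fun k => ⟨mem_range_self k, iUnion_subset fun j x hx => (d1 j k x hx).1,
      ((finite_Iio k).image n).subset ?_⟩⟩⟩
  · rintro _ ⟨k, rfl⟩ _ ⟨l, rfl⟩ hkl
    refine finite_empty.subset fun x hx => hkl ?_
    obtain ⟨i, hi⟩ := mem_iUnion.1 hx.1
    obtain ⟨j, hj⟩ := mem_iUnion.1 hx.2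
    rw [(d1 _ k x (s2 k (le_max_left i j) hi)).2 l (s2 l (le_max_right i j) hj)]
  · rintro _ ⟨⟨j, rfl⟩, h1⟩
    refine ⟨j, mem_Iio.2 (lt_of_not_ge fun h2 => h1 ?_), rfl⟩
    refine ((Finset.eventually_all (σ ∪ (s (j + 1)).1.1 k)).2
      fun x _ => eventually_gt_atTop x).mono fun l hl => ?_
    have h3 : σ ∪ (s (j + 1)).1.1 k ⊆ cutf (σ ∪ ⋃ j, ((s j).1.1 k : Set ℕ)) l := fun x hx =>
      mem_cutf.2 ⟨hl x hx, (Finset.mem_union.1 hx).imp id fun h => mem_iUnion.2 ⟨_, h⟩⟩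
    rw [← Finset.union_sdiff_of_subset h3]
    refine n3 j k h2 _ fun x hx => ?_
    rw [Finset.mem_sdiff, mem_cutf, Finset.mem_union, not_or] at hx
    obtain ⟨i, hi⟩ := mem_iUnion.1 (hx.1.2.resolve_left hx.2.1)
    exact d3 k _ i x (s2 k (by omega : i ≤ j + 1 + i) hi) hx.2.2

end Pool.Agent.H33.SG2
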