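import Mathlib
import Pool.Agent.H33.SG2
import Pool.Agent.H33.DiaDefs

/-!
Two almost disjoint families under the continuum hypothesis.
-/

open Set Filter Cardinal

namespace Pool.Agent.H33.SG3

open Pool.Agent.H33.SG1 Pool.Agent.H33.SG2 Pool.Agent.H33.HG2 Pool.Agent.H33.DiaDefs

/-- persistence of badness -/
def Pers (bad : ℕ → ℕ → Finset ℕ → Prop) : Prop :=
  ∀ e n s, bad e n s → ∃ m, ∀ t : Finset ℕ, (∀ x ∈ t, m ≤ x) → bad e n (s ∪ t)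

/-- the bad sets of a family -/
def Fam (bad : ℕ → ℕ → Finset ℕ → Prop) (C : ℕ → Set ℕ) (A : Set (Set ℕ)) : Set (Set ℕ) :=
  {X | ∃ e b, ∃ a ∈ A, a ∉ range C ∧ (symmDiff b a).Finite ∧ X = Bad (bad e) b}

theorem cnt_mod (a : Set ℕ) : {b | (symmDiff b a).Finite}.Countable :=
  ((countable_ofPred_finite_subset (countable_univ (α := ℕ))).image (symmDiff · a)).mono
    fun b hb => (mem_image _ _ _).2 ⟨symmDiff b a, And.intro hb (subset_univ _), by simp⟩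

theorem cnt_fam (bad : ℕ → ℕ → Finset ℕ → Prop) (C : ℕ → Set ℕ) {A : Set (Set ℕ)}
    (hA : A.Countable) : (Fam bad C A).Countable :=
  (countable_iUnion fun e => hA.biUnion fun a _ => (cnt_mod a).image (Bad (bad e))).mono (by
    rintro _ ⟨e, b, a, h1, -, h2, rfl⟩
    exact mem_iUnion.2 ⟨e, mem_biUnion h1 ⟨b, h2, rfl⟩⟩)

/-- tasks -/
abbrev Task : Type :=
  Set ℕ ⊕ Bool × (ℕ → ℕ → Finset ℕ → Prop) × (ℕ → Set ℕ) × (ℕ → Set ℕ)

/-- the output of a stage -/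
abbrev Out : Type := (Bool → Set (Set ℕ)) × (Bool → Set (Finset ℕ → Set ℕ))

/-- the requirements at one stage -/
def G (O : Bool → Set (Set ℕ)) (K : Bool → Set (Finset ℕ → Set ℕ)) (τ : Task) (x : Out) : Prop :=
  (∀ i, New (⋃ i, O i) (K i) (x.1 i) ∧ (x.2 i).Countable ∧
    ∀ κ ∈ x.2 i, ∀ σ, κ σ ∈ Idl ((⋃ i, O i) ∪ ⋃ i, x.1 i)) ∧
  Proper ((⋃ i, O i) ∪ ⋃ i, x.1 i) ∧
  (∀ M, τ = .inl M → M.Infinite → ∃ a ∈ (⋃ i, O i) ∪ ⋃ i, x.1 i, (M ∩ a).Infinite) ∧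
  ∀ i bad C E, τ = .inr (i, bad, C, E) → Pers bad → (∀ e s, ∃ j, {n | bad e n s} ⊆ E j) →
    Proper (range E ∪ Fam bad C (O i)) → ∃ N : Set ℕ, N.Infinite ∧
      (∀ X ∈ range E ∪ Fam bad C (O i), (N ∩ X).Finite) ∧
      ((x.1 i = ∅ ∧ ∀ e, ∃ κ ∈ x.2 i, ∀ b, Obey κ b → (N ∩ Bad (bad e) b).Finite) ∨
        ∃ (e : ℕ) (σ : Finset ℕ) (a : ℕ → Set ℕ), ∀ k, a k ∈ x.1 i ∧ a k ∉ range C ∧
          (a k).Nonempty ∧ a k ⊆ Ici k ∧ (N \ Bad (bad e) (σ ∪ a k)).Finite)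

theorem step {O : Bool → Set (Set ℕ)} {K : Bool → Set (Finset ℕ → Set ℕ)}
    (hO : ∀ i, (O i).Countable) (hP : Proper (⋃ i, O i)) (hK : ∀ i, (K i).Countable)
    (hKI : ∀ i, ∀ κ ∈ K i, ∀ σ, κ σ ∈ Idl (⋃ i, O i)) (τ : Task) : ∃ x, G O K τ x := by
  classical
  have hA := countable_iUnion hO
  have hU : ∀ (i : Bool) (ℬ ℬ' : Set (Set ℕ)), (⋃ j, if j = i then ℬ else ℬ') = ℬ ∪ ℬ' :=
    fun i ℬ ℬ' => by
      ext x
      cases i <;> simp [or_comm]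
  have triv : ∀ τ, (∀ M, τ = .inl M → M.Infinite → ∃ a ∈ ⋃ i, O i, (M ∩ a).Infinite) →
      (∀ i bad C E, τ = .inr (i, bad, C, E) → Pers bad → (∀ e s, ∃ j, {n | bad e n s} ⊆ E j) →
        ¬ Proper (range E ∪ Fam bad C (O i))) → ∃ x, G O K τ x := fun τ h1 h2 =>
    ⟨(fun _ => ∅, fun _ => ∅), fun i => ⟨New.empty _ _, countable_empty, by simp⟩, by simpa using hP,
      by simpa using h1, fun i bad C E a b c d => absurd d (h2 i bad C E a b c)⟩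
  rcases τ with M | ⟨i, bad, C, E⟩
  · by_cases h : M.Infinite → ∃ a ∈ ⋃ i, O i, (M ∩ a).Infinite
    · exact triv _ (fun _ h' => Sum.inl.inj h' ▸ h) (by simp)
    push Not at h
    obtain ⟨N', n1, n2, a, a1, a2, a3, a4⟩ := build1 hA hP (hK true) (hKI true) (N := M)
      (fun n => {{n}}) (fun c hc m => by
        obtain ⟨n, h1, h2⟩ := (h.1.sdiff (Idl.inter h.2 hc)).exists_gt m
        exact ⟨n, h1.1, h2.le, {n}, rfl, by simpa [h1.1] using h1.2⟩) (Idl.fin finite_empty)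
    refine ⟨(fun j => if j = true then {a} else ∅, fun _ => ∅), fun i => ⟨?_, countable_empty,
      by simp⟩, by rw [hU, union_empty]; exact a4, fun M' h' _ => ⟨a, by simp, ?_⟩, by simp⟩
    · cases i
      · exact New.empty _ _
      · exact ⟨countable_singleton _, by simpa using a3, by simpa using a2, pairwise_singleton _ _⟩
    · refine n2.mono fun n hn => ⟨Sum.inl.inj h' ▸ n1 hn, ?_⟩
      obtain ⟨_, rfl, h1, -⟩ := a1 n hn
      exact h1 (by simp)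
  by_cases h : Pers bad ∧ (∀ e s, ∃ j, {n | bad e n s} ⊆ E j) ∧
      Proper (range E ∪ Fam bad C (O i))
  swap
  · refine triv _ (by simp) fun i bad C E h' a b c => ?_
    cases h'
    exact h ⟨a, b, c⟩
  obtain ⟨h1, h2, h3⟩ := h
  obtain ⟨N₀, n1, n2⟩ := pseudo ((countable_range E).union (cnt_fam bad C (hO i))) id
    fun F hF hfin => h3 _ (Idl.biUnion hfin fun X hX => Idl.mem (hF hX))
  let sk : ℕ → Finset ℕ → Set ℕ := fun j σ =>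
    if h : ∃ x ∈ C j, ∀ y ∈ σ, y < x then {h.choose} else ∅
  obtain ⟨ℬ, ℬ', κ, N, b1, b2, b3, b4, b5, b6, b7⟩ := stage hA hP
    ((hK i).union (countable_range sk)) (fun κ hκ σ => hκ.elim (fun h => hKI i κ h σ) (by
      rintro ⟨j, rfl⟩
      refine Idl.fin ?_
      simp only [sk]
      split_ifs <;> simp)) (hK (!i)) (hKI _) n1 bad h1
  have n3 : ∀ X ∈ range E ∪ Fam bad C (O i), (N ∩ X).Finite := fun X hX =>
    (n2 X hX).subset (inter_subset_inter_left _ b5)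
  refine ⟨(fun j => if j = i then ℬ else ℬ', fun j => if j = i then range κ else ∅),
    fun j => ?_, by rw [hU]; exact b3, by simp, fun i' bad' C' E' h' _ _ _ => ?_⟩
  · rw [hU]
    by_cases hj : j = i
    · simp only [hj, if_true]
      exact ⟨⟨b1.cnt, fun a ha κ hκ => b1.obey a ha κ (Or.inl hκ), b1.ad, b1.pw⟩,
        countable_range _, forall_mem_range.2 b4⟩
    · simp only [hj, if_false]
      rw [Bool.eq_not_iff.2 hj]
      exact ⟨b2, countable_empty, by simp⟩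
  cases h'
  refine ⟨N, b6, n3, ?_⟩
  simp only [if_true]
  refine b7.imp (fun h => ⟨h.1, fun e => ⟨κ e, mem_range_self e, h.2 e⟩⟩) fun ⟨e, σ, a, ha⟩ => ?_
  have hinf : ∀ k, (a k).Infinite := fun k hk => by
    obtain ⟨j, hj⟩ := h2 e (σ ∪ hk.toFinset)
    refine b6 (((n3 _ (Or.inl ⟨j, rfl⟩)).union (ha k).2.2).subset fun n hn => ?_)
    by_cases h4 : n ∈ Bad (bad e) (σ ∪ a k)
    · obtain ⟨l, l1, l2⟩ := (Eventually.and h4 ((Finset.eventually_all (σ ∪ hk.toFinset)).2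
        fun x _ => eventually_gt_atTop x)).exists
      have : cutf (σ ∪ a k) l = σ ∪ hk.toFinset := Finset.ext fun x => by
        rw [mem_cutf]
        exact ⟨fun h => by simpa using h.2, fun h => ⟨l2 x h, by simpa using h⟩⟩
      exact Or.inl ⟨hn, hj (this ▸ l1)⟩
    · exact Or.inr ⟨hn, h4⟩
  refine ⟨e, σ, a, fun k => ⟨(ha k).1, ?_, (hinf k).nonempty, (ha k).2⟩⟩
  rintro ⟨j, hj⟩
  obtain ⟨l, hl⟩ := (b1.obey _ (ha k).1 (sk j) (Or.inr ⟨j, rfl⟩) (a k) (by simp)).exists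
  have h4 : ∃ x ∈ C j, ∀ y ∈ cutf (a k) l, y < x := by
    obtain ⟨x, x1, x2⟩ := (hinf k).exists_gt l
    exact ⟨x, hj ▸ x1, fun y hy => (mem_cutf.1 hy).1.trans x2⟩
  have h5 := h4.choose_spec
  have h7 : h4.choose ∈ a k := hj.le h5.1
  refine hl h4.choose h7 (le_of_not_gt fun h6 => (h5.2 _ (mem_cutf.2 ⟨h6, h7⟩)).false) ?_
  simp only [sk, dif_pos h4, mem_singleton_iff]

theorem fam (hCH : continuum.{0} = ℵ_ 1) : ∃ A : Bool → Set (Set ℕ),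
    (∀ i, (A i).Pairwise fun a b => (a ∩ b).Finite) ∧ Proper (⋃ i, A i) ∧
    (∀ M : Set ℕ, M.Infinite → ∃ a ∈ ⋃ i, A i, (M ∩ a).Infinite) ∧
    ∀ i bad C (E : ℕ → Set ℕ), Pers bad → (∀ e s, ∃ j, {n | bad e n s} ⊆ E j) →
      Proper (range E ∪ Fam bad C (A i)) → ∃ N : Set ℕ, N.Infinite ∧ (∀ j, (N ∩ E j).Finite) ∧
        ((∀ X ∈ Fam bad C (A i), (N ∩ X).Finite) ∨
          ∃ (e : ℕ) (σ : Finset ℕ) (a : ℕ → Set ℕ), ∀ k, a k ∈ A i ∧ a k ∉ range C ∧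
            (a k).Nonempty ∧ a k ⊆ Ici k ∧ (N \ Bad (bad e) (σ ∪ a k)).Finite) := by
  have := unc
  obtain ⟨τ, hτ⟩ : ∃ τ : W → Task, τ.Surjective := by
    obtain ⟨j⟩ : Nonempty (W ≃ Task) := by
      rw [← Cardinal.eq, mk_W, ← hCH]
      simp
    exact ⟨j, j.surjective⟩
  have hsw' : ∀ (f : W → Out) (D : Set W), (⋃ i, ⋃ γ ∈ D, (f γ).1 i) =
      ⋃ γ ∈ D, ⋃ i, (f γ).1 i := fun f D => by
    ext x
    simp only [mem_iUnion]
    exact ⟨fun ⟨i, γ, a, b⟩ => ⟨γ, a, i, b⟩, fun ⟨γ, a, i, b⟩ => ⟨i, γ, a, b⟩⟩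
  have hsw : ∀ (f : W → Out) (β : W), ((⋃ i, ⋃ γ ∈ Iio β, (f γ).1 i) ∪ ⋃ i, (f β).1 i) =
      ⋃ γ ∈ Iic β, ⋃ i, (f γ).1 i := fun f β => by
    rw [← Iio_insert, biUnion_insert, union_comm, hsw']
  obtain ⟨f, hf⟩ := rec_e (id : W → W) (fun β f x => G (fun i => ⋃ γ ∈ Iio β, (f γ).1 i)
    (fun i => ⋃ γ ∈ Iio β, (f γ).2 i) (τ β) x) (fun β f g x hfg h => by
      have h1 : ∀ i, (⋃ γ ∈ Iio β, (f γ).1 i) = ⋃ γ ∈ Iio β, (g γ).1 i := fun i =>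
        iUnion₂_congr fun γ hγ => by rw [hfg γ hγ]
      have h2 : ∀ i, (⋃ γ ∈ Iio β, (f γ).2 i) = ⋃ γ ∈ Iio β, (g γ).2 i := fun i =>
        iUnion₂_congr fun γ hγ => by rw [hfg γ hγ]
      simpa only [h1, h2] using h) fun β f h => by
    refine step (fun i => (cnt β).biUnion fun γ hγ => ((h γ hγ).1 i).1.cnt) ?_
      (fun i => (cnt β).biUnion fun γ hγ => ((h γ hγ).1 i).2.1) (fun i κ hκ σ => ?_) _
    · rw [hsw']
      exact proper_union fun γ hγ => hsw f γ ▸ (h γ hγ).2.1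
    · obtain ⟨γ, h1, h2⟩ := mem_iUnion₂.1 hκ
      refine Idl.mono ?_ (((h γ h1).1 i).2.2 κ h2 σ)
      rw [hsw, hsw']
      exact biUnion_subset_biUnion_left fun δ hδ => mem_Iio.2 (lt_of_le_of_lt hδ h1)
  have sub : ∀ i β, (f β).1 i ⊆ ⋃ γ ∈ (univ : Set W), (f γ).1 i := fun i β =>
    subset_biUnion_of_mem (u := fun γ => (f γ).1 i) (mem_univ β)
  refine ⟨fun i => ⋃ γ ∈ (univ : Set W), (f γ).1 i, fun i a ha b hb hab => ?_, ?_,
    fun M hM => ?_, fun i bad C E h1 h2 h3 => ?_⟩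
  · obtain ⟨β, -, h1⟩ := mem_iUnion₂.1 ha
    obtain ⟨γ, -, h2⟩ := mem_iUnion₂.1 hb
    rcases lt_trichotomy β γ with h | rfl | h
    · exact inter_comm b a ▸ ((hf γ).1 i).1.ad b h2 a (mem_iUnion.2 ⟨i, mem_biUnion h h1⟩)
    · exact ((hf β).1 i).1.pw h1 h2 hab
    · exact ((hf β).1 i).1.ad a h1 b (mem_iUnion.2 ⟨i, mem_biUnion h h2⟩)
  · rw [hsw']
    exact proper_union fun γ _ => hsw f γ ▸ (hf γ).2.1
  · obtain ⟨β, hβ⟩ := hτ (.inl M)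
    obtain ⟨a, h1, h2⟩ := (hf β).2.2.1 M hβ hM
    rw [hsw] at h1
    exact ⟨a, hsw' f univ ▸ biUnion_subset_biUnion_left (subset_univ _) h1, h2⟩
  obtain ⟨β, hβ⟩ := hτ (.inr (i, bad, C, E))
  obtain ⟨N, n1, n2, n3⟩ := (hf β).2.2.2 i bad C E hβ h1 h2 fun c hc => h3 c (Idl.mono
    (union_subset_union_right _ (by
      rintro X ⟨e, b, a, h4, h5⟩
      exact ⟨e, b, a, biUnion_subset_biUnion_left (subset_univ _) h4, h5⟩)) hc)
  refine ⟨N, n1, fun j => n2 _ (Or.inl ⟨j, rfl⟩), n3.imp (fun h => ?_)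
    fun ⟨e, σ, a, ha⟩ => ⟨e, σ, a, fun k => And.intro (sub i β (ha k).1) (ha k).2⟩⟩
  rintro _ ⟨e, b, a, h4, h5, h6, rfl⟩
  obtain ⟨γ, -, h7⟩ := mem_iUnion₂.1 h4
  rcases lt_trichotomy β γ with h8 | rfl | h8
  · obtain ⟨κ, k1, k2⟩ := h.2 e
    exact k2 b (((hf γ).1 i).1.obey a h7 κ (mem_biUnion h8 k1) b h6)
  · exact absurd h7 (h.1 ▸ notMem_empty a)
  · exact n2 _ (Or.inr ⟨e, b, a, mem_biUnion h8 h7, h5, h6, rfl⟩)

end Pool.Agent.H33.SG3
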