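import Mathlib
import Pool.Agent.H33.SG3
import Pool.Agent.H33.Spl3
import Pool.Agent.H33.DT2

/-!
Two Grothendieck spaces whose sum is not Grothendieck.
-/

open Set Filter Topology Cardinal

namespace Pool.Agent.H33.SG4

open Pool.Agent.H33.GrothDefs Pool.Agent.H33.Groth Pool.Agent.H33.SG1 Pool.Agent.H33.SG2
  Pool.Agent.H33.SG3 Pool.Agent.H33.HG1

variable {A : Set (Set ℕ)}

open Classical in
/-- coordinates of a point -/
noncomputable def emb (b : Set ℕ) (o : Option A) : ℕ ⊕ A → ℝ :=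
  Sum.elim (fun n => if n ∈ b then 1 else 0) fun a => if o = some a then 1 else 0

/-- the space -/
def Y (A : Set (Set ℕ)) : Set (ℕ ⊕ A → ℝ) := {y | (∃ s : Finset ℕ, y = emb s none) ∨
  ∃ (a : A) (b : Set ℕ), (symmDiff b a).Finite ∧ y = emb b (some a)}

/-- finite sets as points -/
noncomputable def pf (A : Set (Set ℕ)) (s : Finset ℕ) : Y A := ⟨emb s none, Or.inl ⟨s, rfl⟩⟩

/-- finite modifications as points -/
noncomputable def pa (a : A) (b : Set ℕ) (h : (symmDiff b a).Finite) : Y A :=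
  ⟨emb b (some a), Or.inr ⟨a, b, h, rfl⟩⟩

theorem cases (y : Y A) : (∃ s, y = pf A s) ∨ ∃ a b h, y = pa a b h := by
  obtain ⟨_, ⟨s, rfl⟩ | ⟨a, b, h, rfl⟩⟩ := y
  · exact Or.inl ⟨s, rfl⟩
  · exact Or.inr ⟨a, b, h, rfl⟩

theorem nbhd {s : Finset ℕ} {U : Set (Y A)} (hU : U ∈ 𝓝 (pf A s)) :
    ∃ (m : ℕ) (F : Set A), F.Finite ∧ ∀ (y : Y A) b o, y.1 = emb b o → (∀ x < m, x ∈ b ↔ x ∈ s) →
      (∀ a ∈ F, o ≠ some a) → y ∈ U := by
  obtain ⟨V, hV, hVU⟩ := (mem_nhds_subtype _ _ _).1 hU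
  rw [nhds_pi, Filter.mem_pi] at hV
  obtain ⟨I, hI, w, hw, hwV⟩ := hV
  obtain ⟨m, hm⟩ := (hI.preimage Sum.inl_injective.injOn).bddAbove
  refine ⟨m + 1, Sum.inr ⁻¹' I, hI.preimage Sum.inr_injective.injOn,
    fun y b o h1 h2 h3 => hVU (hwV fun i hi => ?_)⟩
  have : y.1 i = (pf A s).1 i := by
    rcases i with n | a
    · simp [h1, pf, emb, h2 n (Nat.lt_succ_of_le (hm hi))]
    · simp [h1, pf, emb, h3 a hi]
  rw [this]
  exact mem_of_mem_nhds (hw i)

theorem tend {ι : Type} {l : Filter ι} {y : ι → Y A} {z : Y A} {b : ι → Set ℕ} {o : ι → Option A}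
    {c : Set ℕ} {p : Option A} (hy : ∀ k, (y k).1 = emb (b k) (o k)) (hz : z.1 = emb c p)
    (h1 : ∀ x, ∀ᶠ k in l, x ∈ b k ↔ x ∈ c) (h2 : ∀ a, ∀ᶠ k in l, o k = some a ↔ p = some a) :
    Tendsto y l (𝓝 z) := by
  refine tendsto_subtype_rng.2 (tendsto_pi_nhds.2 fun i => tendsto_const_nhds.congr' ?_)
  rcases i with n | a
  · exact (h1 n).mono fun k hk => by by_cases h : n ∈ c <;> simp [hy, hz, emb, hk, h]
  · exact (h2 a).mono fun k hk => by simp [hy, hz, emb, hk]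

instance : FrechetUrysohnSpace (Y A) := ⟨fun D x hx => by
  obtain ⟨u, h1, h2⟩ := Spl3.sigma_seq (X := Y A) continuous_subtype_val (fun y => by
    rcases cases y with ⟨s, rfl⟩ | ⟨a, b, h, rfl⟩
    · refine (countable_range Sum.inl).mono ?_
      rintro (n | a) h
      · exact ⟨n, rfl⟩
      · simp [pf, emb] at h
    · refine ((countable_range Sum.inl).insert (Sum.inr a)).mono ?_
      rintro (n | a') h
      · exact Or.inr ⟨n, rfl⟩
      · have : a = a' := by simpa [pa, emb] using h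
        exact Or.inl (by rw [this])) hx
  exact ⟨u, h1, tendsto_subtype_rng.2 h2⟩⟩

theorem exc {f : Y A → ℝ} (hf : Continuous f) : ∃ C : Set A, C.Countable ∧ ∀ a ∉ C, ∀ b h,
    Tendsto (fun k => f (pf A (cutf b k))) atTop (𝓝 (f (pa a b h))) := by
  choose m F hF hm using fun (s : Finset ℕ) (k : ℕ) => nbhd (A := A) (s := s)
    (hf.continuousAt (Metric.ball_mem_nhds (f (pf A s)) (Nat.one_div_pos_of_nat (n := k))))
  refine ⟨⋃ s, ⋃ k, F s k, countable_iUnion fun s => countable_iUnion fun k => (hF s k).countable,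
    fun a ha b h => ?_⟩
  let c : ℕ → Set ℕ := fun k => {x | x ∈ b ∧ (x < k ∨ m (cutf b k) k ≤ x)}
  have hc : ∀ k, (symmDiff (c k) a).Finite := fun k =>
    (h.union (finite_Iio (m (cutf b k) k))).subset fun x hx => by
      by_cases h1 : x < m (cutf b k) k
      · exact Or.inr h1
      · have h2 : x ∈ c k ↔ x ∈ b := and_iff_left (Or.inr (le_of_not_gt h1))
        rw [Set.mem_symmDiff, h2] at hx
        exact Or.inl hx
  have h1 : Tendsto (fun k => pa a (c k) (hc k)) atTop (𝓝 (pa a b h)) :=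
    tend (fun _ => rfl) rfl (fun x => (eventually_gt_atTop x).mono
      fun k hk => and_iff_left (Or.inl hk))
      fun _ => by simp
  refine ((hf.tendsto _).comp h1).congr_dist (squeeze_zero (fun _ => dist_nonneg)
    (fun k => le_of_lt (hm _ k _ (c k) _ rfl (fun x hx => ?_) fun a' ha' h2 => ?_))
    tendsto_one_div_add_atTop_nhds_zero_nat)
  · simp [c, mem_cutf, hx.not_ge, and_comm]
  · exact ha (mem_iUnion₂.2 ⟨_, _, Option.some.inj h2 ▸ ha'⟩)

/-- the countable part -/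
def DC (C : Set A) : Set (Y A) := {y | (∃ s, y = pf A s) ∨ ∃ a ∈ C, ∃ b h, y = pa a b h}

theorem cntC {C : Set A} (hC : C.Countable) : (DC C).Countable := by
  refine ((countable_range (pf A)).union (hC.biUnion fun a _ => ?_ :
    (⋃ a ∈ C, {y | ∃ b h, y = pa a b h}).Countable)).mono ?_
  · have := (cnt_mod a).to_subtype
    refine (countable_range fun b : {b : Set ℕ | (symmDiff b a.1).Finite} => pa a b.1 b.2).mono ?_
    rintro _ ⟨b, h, rfl⟩
    exact ⟨⟨b, h⟩, rfl⟩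
  · rintro _ (⟨s, rfl⟩ | ⟨a, ha, h⟩)
    · exact Or.inl ⟨s, rfl⟩
    · exact Or.inr (mem_biUnion ha h)

theorem cont' {Z B : Set (Y A → ℝ)} (hZ : Z ⊆ {f | Continuous f})
    (hS : SC Z B) {h : Y A → ℝ} (hh : h ∈ closure B) : Continuous h := by
  refine SeqContinuous.continuous fun u y hu => ?_
  obtain ⟨-, -, -, z, hz, -, hzE⟩ := approx hS subset_rfl hh ((countable_range u).insert y)
  have h1 := ((hZ hz).tendsto y).comp hu
  rw [hzE (mem_insert _ _)] at h1
  exact h1.congr fun n => hzE (mem_insert_of_mem _ (mem_range_self n))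

theorem tight' {Z B : Set (Y A → ℝ)} (hZ : Z ⊆ {f | Continuous f})
    (hS : SC Z B) {h : Y A → ℝ} (hh : h ∈ closure B) : ∃ B' ⊆ B, B'.Countable ∧ h ∈ closure B' := by
  let T := {E : Set (Y A) // E.Countable ∧ ∀ s, pf A s ∈ E}
  choose B' b1 b2 z z1 z2 z3 using fun E : T => approx hS subset_rfl hh E.2.1
  have h1 : ∀ E : T, {y | z E y ≠ h y}.Countable := fun E => by
    obtain ⟨C, c1, c2⟩ := exc ((hZ (z1 E)).sub (cont' hZ hS hh))
    refine (cntC c1).mono fun y hy => ?_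
    rcases cases y with h2 | ⟨a, b, h2, rfl⟩
    · exact Or.inl h2
    · refine Or.inr ⟨a, by_contra fun h3 => hy (sub_eq_zero.1 (tendsto_nhds_unique (c2 a h3 b h2)
        (tendsto_const_nhds.congr fun k => ?_))), b, h2, rfl⟩
      exact (sub_eq_zero.2 (z3 E (E.2.2 _))).symm
  let E : ℕ → T := fun k => Nat.rec ⟨range (pf A), countable_range _, mem_range_self⟩
    (fun _ E => ⟨E.1 ∪ {y | z E y ≠ h y}, E.2.1.union (h1 E), fun s => Or.inl (E.2.2 s)⟩) k
  have hm : Monotone fun k => (E k).1 := monotone_nat_of_le_succ fun k => subset_union_left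
  refine ⟨⋃ k, B' (E k), iUnion_subset fun k => b1 _, countable_iUnion fun k => b2 _,
    isClosed_closure.mem_of_tendsto (f := fun k => z (E k)) (b := atTop)
      (tendsto_pi_nhds.2 fun y => tendsto_const_nhds.congr' ?_)
      (Eventually.of_forall fun k => closure_mono (subset_iUnion (fun k => B' (E k)) k) (z2 _))⟩
  by_cases h2 : ∀ k, z (E k) y = h y
  · exact Eventually.of_forall fun k => (h2 k).symm
  · obtain ⟨j, hj⟩ := not_forall.1 h2
    exact (eventually_ge_atTop (j + 1)).mono fun k hk => (z3 _ (hm hk (Or.inr hj))).symm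

theorem groth (H : ∀ bad C (E : ℕ → Set ℕ), Pers bad → (∀ e s, ∃ j, {n | bad e n s} ⊆ E j) →
      Proper (range E ∪ Fam bad C A) → ∃ N : Set ℕ, N.Infinite ∧ (∀ j, (N ∩ E j).Finite) ∧
        ((∀ X ∈ Fam bad C A, (N ∩ X).Finite) ∨
          ∃ (e : ℕ) (σ : Finset ℕ) (a : ℕ → Set ℕ), ∀ k, a k ∈ A ∧ a k ∉ range C ∧
            (a k).Nonempty ∧ a k ⊆ Ici k ∧ (N \ Bad (bad e) (σ ∪ a k)).Finite)) :
    IsGrothendieck (Y A) := by
  refine (g_iff _).2 fun Z hZ B hB hS => ⟨hS.isCompact_closure, fun h hh => ?_⟩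
  have hc := cont' hZ hS hh
  obtain ⟨B', b1, b2, b3⟩ := tight' hZ hS hh
  obtain ⟨f, rfl⟩ := b2.exists_eq_range (closure_nonempty_iff.1 ⟨h, b3⟩)
  by_cases h0 : h ∈ range f
  · exact hB (b1 h0)
  have h1 : MapClusterPt h atTop f := mapClusterPt_iff_frequently.2 fun U hU =>
    frequently_atTop.2 fun m => by
      obtain ⟨_, ⟨h2, h3⟩, n, rfl⟩ := mem_closure_iff_nhds.1 b3 _ (inter_mem hU
        (((finite_Iio m).image f).isClosed.isOpen_compl.mem_nhds fun ⟨n, _, h⟩ => h0 ⟨n, h⟩))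
      exact ⟨n, le_of_not_gt fun h4 => h3 (mem_image_of_mem f h4), h2⟩
  have hg : ∀ n, Continuous fun y => |f n y - h y| := fun n =>
    ((hZ (hB (b1 (mem_range_self n)))).sub hc).abs
  choose C c1 c2 using fun n => exc (hg n)
  obtain ⟨C', c3, c4⟩ := HG2.enum ((countable_iUnion c1).image Subtype.val)
  let Ey : ℕ → Y A → Set ℕ := fun e y => {n | 1 / ((e : ℝ) + 1) ≤ |f n y - h y|}
  obtain ⟨E, e1, e2⟩ := HG2.enum (countable_iUnion fun e =>
    (cntC (C := {a | a.1 ∈ range C'}) ((countable_range C').preimage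
      Subtype.val_injective)).image (Ey e))
  have c5 : ∀ (a : A), a.1 ∉ range C' → ∀ n, a ∉ C n := fun a ha n h =>
    ha (c4 _ ⟨a, mem_iUnion.2 ⟨n, h⟩, rfl⟩)
  let bad : ℕ → ℕ → Finset ℕ → Prop := fun e n s => 1 / ((e : ℝ) + 1) < |f n (pf A s) - h (pf A s)|
  have k1 : ∀ e (a : A) b hb, a.1 ∉ range C' → Bad (bad e) b ⊆ Ey e (pa a b hb) :=
    fun e a b hb ha n hn => ge_of_tendsto (c2 n a (c5 a ha n) b hb)
      (Eventually.mono hn fun k hk => le_of_lt hk)
  obtain ⟨N, n1, n2, n3⟩ := H bad C' E (fun e n s h => by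
      obtain ⟨m, F, -, h2⟩ := nbhd ((isOpen_lt continuous_const (hg n)).mem_nhds h)
      exact ⟨m, fun t ht => h2 (pf A (s ∪ t)) _ _ rfl (fun x hx => by
        simpa using fun h3 => absurd (ht x h3) hx.not_ge) (by simp)⟩)
    (fun e s => (e2 (Ey e (pf A s)) (mem_iUnion.2 ⟨e, pf A s, Or.inl ⟨s, rfl⟩, rfl⟩)).imp
      fun j hj n (hn : bad e n s) => hj.ge (show n ∈ Ey e (pf A s) from le_of_lt hn)) (by
    rintro c ⟨F, f1, f2, f3⟩
    have h2 : ∀ X ∈ F, ∀ᶠ g in 𝓝 h, ∀ n, f n = g → n ∉ X := fun X hX => by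
      have : ∀ e y, X ⊆ Ey e y → ∀ᶠ g in 𝓝 h, ∀ n, f n = g → n ∉ X := fun e y hs => by
        have h3 : {g : Y A → ℝ | |g y - h y| < 1 / ((e : ℝ) + 1)} ∈ 𝓝 h :=
          (isOpen_lt (by fun_prop) continuous_const).mem_nhds (by
            show |h y - h y| < _
            rw [sub_self, abs_zero]
            positivity)
        filter_upwards [h3]
        rintro _ hg n rfl h4
        exact not_le.2 hg (hs h4)
      rcases f1 hX with ⟨j, rfl⟩ | ⟨e, b, a, h3, h4, h5, rfl⟩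
      · rcases e1 j with h3 | h3
        · simp [h3]
        · obtain ⟨e, y, -, h4⟩ := mem_iUnion.1 h3
          exact this e y h4.ge
      · exact this e _ (k1 e ⟨a, h3⟩ b h5 h4)
    have h3 := mapClusterPt_iff_frequently.1 h1 _ ((eventually_all_finite f2).2 h2)
    rw [← Nat.cofinite_eq_atTop, frequently_cofinite_iff_infinite] at h3
    exact (h3.sdiff f3).mono fun n hn h4 => hn.2 ⟨h4, fun ⟨X, h5, h6⟩ => hn.1 X h5 n rfl h6⟩)
  let x : ℕ → ℕ := fun k => n1.natEmbedding N k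
  have x1 : Tendsto x atTop cofinite := Nat.cofinite_eq_atTop ▸
    (Subtype.val_injective.comp (n1.natEmbedding N).injective).tendsto_cofinite
  have x2 : ∀ X, (N ∩ X).Finite → ∀ᶠ k in atTop, x k ∉ X := fun X hX =>
    mem_of_superset (x1 hX.compl_mem_cofinite) fun k hk h2 => hk ⟨(n1.natEmbedding N k).2, h2⟩
  obtain ⟨z, z1, z2⟩ := hS (f ∘ x) fun k => b1 (mem_range_self _)
  have z3 : ∀ y, (∀ e : ℕ, ∀ᶠ k in atTop, |f (x k) y - h y| ≤ 1 / ((e : ℝ) + 1)) → z y = h y :=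
    fun y hy => eq_of_cluster (f := fun g : Y A → ℝ => g y) z2 (continuous_apply y)
      (Metric.tendsto_nhds.2 fun ε hε => by
        obtain ⟨e, he⟩ := exists_nat_one_div_lt hε
        exact (hy e).mono fun k hk => hk.trans_lt he)
  have z4 : ∀ y ∈ DC {a : A | a.1 ∈ range C'}, z y = h y := fun y hy => z3 y fun e => by
    obtain ⟨j, hj⟩ := e2 _ (mem_iUnion.2 ⟨e, y, hy, rfl⟩)
    exact (x2 (Ey e y) (hj ▸ n2 j)).mono fun k hk => (not_le.1 hk).le
  rcases n3 with n3 | ⟨e, σ, a, ha⟩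
  · have : h = z := funext fun y => by
      rcases cases y with h2 | ⟨a, b, h2, rfl⟩
      · exact (z4 y (Or.inl h2)).symm
      by_cases h3 : a.1 ∈ range C'
      · exact (z4 _ (Or.inr ⟨a, h3, b, h2, rfl⟩)).symm
      refine (z3 _ fun e => (x2 _ (n3 _ ⟨e, b, a, a.2, h3, h2, rfl⟩)).mono fun k hk => ?_).symm
      exact le_of_not_gt fun h4 => hk ((c2 _ a (c5 a h3 _) b h2).eventually (lt_mem_nhds h4))
    rwa [this]
  have h2 : ∀ k, (symmDiff ((σ : Set ℕ) ∪ a k) (a k)).Finite := fun k =>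
    σ.finite_toSet.subset fun x hx => by
      rw [Set.mem_symmDiff, mem_union] at hx
      tauto
  have h3 : Tendsto (fun k => pa ⟨a k, (ha k).1⟩ _ (h2 k)) atTop (𝓝 (pf A σ)) :=
    tend (b := fun k => (σ : Set ℕ) ∪ a k) (fun _ => rfl) rfl
      (fun x => (eventually_gt_atTop x).mono fun k hk => by
      simpa using fun h4 => absurd ((ha k).2.2.2.1 h4) hk.not_ge) fun c => by
      by_cases h4 : c.1.Nonempty
      · obtain ⟨w, hw⟩ := h4
        exact (eventually_gt_atTop w).mono fun k hk => iff_of_false (fun h5 => hk.not_ge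
          ((ha k).2.2.2.1 ((congrArg Subtype.val (Option.some.inj h5)).ge hw))) (by simp)
      · exact Eventually.of_forall fun k => iff_of_false
          (fun h5 => h4 (Option.some.inj h5 ▸ (ha k).2.2.1)) (by simp)
  have h4 := ((((hZ z1).sub hc).abs.tendsto _).comp h3)
  rw [Pi.sub_apply, z4 _ (Or.inl ⟨σ, rfl⟩), sub_self, abs_zero] at h4
  refine absurd (ge_of_tendsto' h4 fun k => ?_) (not_le.2 (Nat.one_div_pos_of_nat (n := e)))
  refine (isClosed_le continuous_const (by fun_prop : Continuous fun g : Y A → ℝ =>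
    |g (pa ⟨a k, (ha k).1⟩ _ (h2 k)) - h (pa ⟨a k, (ha k).1⟩ _ (h2 k))|)).mem_of_mapClusterPt z2 ?_
  exact (x2 _ (ha k).2.2.2.2).mono fun j hj =>
    k1 e ⟨a k, (ha k).1⟩ _ (h2 k) (ha k).2.1 (not_not.1 hj)

/-- evaluation at an ultrafilter -/
noncomputable def ev (A : Set (Set ℕ)) (u : Ultrafilter ℕ) (y : Y A) : ℝ :=
  DT2.ind {n | y.1 (.inl n) = 1} u

theorem ev_emb (u : Ultrafilter ℕ) (y : Y A) {b o} (h : y.1 = emb b o) :
    ev A u y = DT2.ind b u := by
  simp [ev, h, emb]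

theorem ev_pf (u : Ultrafilter ℕ) (s : Finset ℕ) : ev A u (pf A s) = DT2.ind s u :=
  ev_emb u _ rfl

theorem ev_pa (u : Ultrafilter ℕ) (a : A) (b h) : ev A u (pa a b h) = DT2.ind b u :=
  ev_emb u _ rfl

theorem ev_cont : Continuous (ev A) := continuous_pi fun _ => DT2.ind_cont _

theorem ev_cont' (hA : A.Pairwise fun a b => (a ∩ b).Finite) (u : Ultrafilter ℕ) :
    Continuous (ev A u) := by
  rcases u.le_cofinite_or_eq_pure with hu | ⟨n, rfl⟩
  · have h1 : ∀ s : Set ℕ, s.Finite → s ∉ u := fun s hs =>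
      Ultrafilter.compl_mem_iff_notMem.1 (hu hs.compl_mem_cofinite)
    have h2 : ∀ a b : Set ℕ, (symmDiff b a).Finite → (b ∈ u ↔ a ∈ u) := fun a b h =>
      eventually_congr (p := (· ∈ b)) (q := (· ∈ a)) (mem_of_superset (hu h.compl_mem_cofinite)
        fun x hx => by
          rw [mem_compl_iff, Set.mem_symmDiff] at hx
          exact mem_ofPred_eq ▸ by tauto)
    by_cases h : ∃ a : A, a.1 ∈ u
    · obtain ⟨a, ha⟩ := h
      refine ((continuous_apply (Sum.inr a)).comp continuous_subtype_val).congr fun y => ?_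
      rcases cases y with ⟨s, rfl⟩ | ⟨c, b, h, rfl⟩
      · rw [ev_pf]
        simp [pf, emb, DT2.ind, h1 s s.finite_toSet]
      · have : b ∈ u ↔ c = a := (h2 c b h).trans ⟨fun h3 => by_contra fun h4 =>
          h1 _ (hA c.2 a.2 fun h5 => h4 (Subtype.ext h5)) (inter_mem h3 ha), fun h3 => h3 ▸ ha⟩
        rw [ev_pa]
        simp [pa, emb, DT2.ind, this]
    · refine (continuous_const (y := (0 : ℝ))).congr fun y => ?_
      rcases cases y with ⟨s, rfl⟩ | ⟨c, b, h3, rfl⟩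
      · simp [ev_pf, DT2.ind, h1 s s.finite_toSet]
      · simp [ev_pa, DT2.ind, h2 c b h3, not_exists.1 h c]
  · refine ((continuous_apply (Sum.inl n)).comp continuous_subtype_val).congr fun y => ?_
    rcases cases y with ⟨s, rfl⟩ | ⟨c, b, h, rfl⟩
    · rw [ev_pf]
      simp [pf, emb, DT2.ind]
    · rw [ev_pa]
      by_cases h1 : n ∈ b <;> simp [pa, emb, DT2.ind, h1]

theorem main (hCH : continuum.{0} = ℵ_ 1) : ∃ A : Bool → Set (Set ℕ),
    (∀ i, IsGrothendieck (Y (A i))) ∧ (∀ i u, Continuous (ev (A i) u)) ∧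
    (∃ x : Finset (Set ℕ) × ℕ → ℕ, ∀ i,
      Tendsto (fun F => ev (A i) (pure (x F))) atTop (𝓝 0)) ∧
    ∀ k : ℕ → ℕ, ∃ u : Ultrafilter ℕ, (u : Filter ℕ) ≤ atTop ∧ (∃ i, ev (A i) (u.map k) ≠ 0) ∧
      ∀ i, Tendsto (fun n => ev (A i) (pure (k n))) u (𝓝 (ev (A i) (u.map k))) := by
  obtain ⟨A, a1, a2, a3, a4⟩ := fam hCH
  refine ⟨A, fun i => groth (a4 i), fun i => ev_cont' (a1 i), ?_, fun k => ?_⟩
  · choose x hx hnx using fun F : Finset (Set ℕ) × ℕ => (a2 (⋃ a ∈ (F.1 : Set (Set ℕ)) ∩ ⋃ i, A i, a)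
      (Idl.biUnion (F.1.finite_toSet.inter_of_left _) fun a ha => Idl.mem ha.2)).exists_gt F.2
    have h1 : ∀ s : Set ℕ, s.Finite → ∀ᶠ F in atTop, x F ∉ s := fun s hs => by
      obtain ⟨m, hm⟩ := hs.bddAbove
      exact (eventually_ge_atTop ((∅, m) : Finset (Set ℕ) × ℕ)).mono
        fun F hF h => (hF.2.trans_lt (hnx F)).not_ge (hm h)
    refine ⟨x, fun i => tendsto_pi_nhds.2 fun y => tendsto_const_nhds.congr' ?_⟩
    rcases cases y with ⟨s, rfl⟩ | ⟨c, b, h, rfl⟩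
    · exact (h1 s s.finite_toSet).mono fun F hF => by simpa [ev_pf, DT2.ind] using hF
    · filter_upwards [h1 _ h, eventually_ge_atTop (({c.1}, 0) : Finset (Set ℕ) × ℕ)] with F h2 h3
      have h4 : x F ∉ c.1 := fun h4 => hx F (mem_biUnion (x := c.1)
        ⟨h3.1 (Finset.mem_singleton_self _), mem_iUnion.2 ⟨i, c.2⟩⟩ h4)
      simpa [ev_pa, DT2.ind, Set.mem_symmDiff, h4] using h2
  obtain ⟨i, y, b, o, hy, hb⟩ : ∃ (i : Bool) (y : Y (A i)) (b : Set ℕ) (o : _), y.1 = emb b o ∧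
      (k ⁻¹' b).Infinite := by
    by_cases hk : (range k).Finite
    · exact ⟨true, pf _ hk.toFinset, _, _, rfl, by simpa using infinite_univ⟩
    · obtain ⟨a, h1, h2⟩ := a3 _ hk
      obtain ⟨i, hi⟩ := mem_iUnion.1 h1
      exact ⟨i, pa ⟨a, hi⟩ a (by simp), _, _, rfl,
        Infinite.of_image k (by rwa [image_preimage_eq_range_inter])⟩
  have : (cofinite ⊓ 𝓟 {x | x ∈ k ⁻¹' b}).NeBot :=
    frequently_iff_neBot.1 (frequently_cofinite_iff_infinite.2 hb)
  let u := Ultrafilter.of (cofinite ⊓ 𝓟 {x | x ∈ k ⁻¹' b})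
  have u0 : (u : Filter ℕ) ≤ cofinite ⊓ 𝓟 {x | x ∈ k ⁻¹' b} := Ultrafilter.of_le _
  refine ⟨u, Nat.cofinite_eq_atTop ▸ u0.trans inf_le_left, ⟨i, fun h => ?_⟩,
    fun i => (ev_cont.tendsto _).comp ?_⟩
  · have h1 : b ∈ u.map k := (u0.trans inf_le_right) (mem_principal_self _)
    simpa [ev_emb _ _ hy, DT2.ind, h1] using congrFun h y
  · refine ((ultrafilterBasis_is_basis.nhds_hasBasis).tendsto_right_iff).2 ?_
    rintro _ ⟨⟨S, rfl⟩, hS⟩
    exact mem_of_superset (Ultrafilter.mem_map.1 hS) fun n hn => hn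

end Pool.Agent.H33.SG4
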