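import Pool.Agent.H33.DT1
import Pool.Agent.H33.DiaDefs

/-! Iterated ladder spaces on `ω₁ × ℕ`. -/

open Set Filter Topology Pool.Agent.H33.DiaDefs

namespace Pool.Agent.H33.SK1

/-- the underlying set -/
abbrev L : Type := W × ℕ

/-- separated pairs -/
def Sp (p q : L × W) : Prop := (p.1.1 = q.1.1 ∧ p.1 ≠ q.1) ∨ p.1.1 ≤ q.2 ∨ q.1.1 ≤ p.2

/-- ladder data -/
structure Lad (a : L → ℕ → Option (L × W)) : Prop where
  lt : ∀ x m, ∀ p ∈ a x m, p.1.1 < x.1
  cof : ∀ x : L, ∀ β < x.1, ∀ᶠ m in atTop, ∀ p ∈ a x m, β ≤ p.2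
  sp : ∀ x y : L, x.1 = y.1 → x ≠ y → ∀ m n, ∀ p ∈ a x m, ∀ q ∈ a y n, Sp p q

/-- reachability -/
inductive R (a : L → ℕ → Option (L × W)) : L → L → Prop
  | refl (x : L) : R a x x
  | step (x : L) (m : ℕ) (p : L × W) (y : L) : p ∈ a x m → R a p.1 y → p.2 < y.1 → R a x y

/-- the pieces -/
def K (a : L → ℕ → Option (L × W)) (x : L) (m : ℕ) : Set L :=
  {y | ∃ p ∈ a x m, R a p.1 y ∧ p.2 < y.1}

/-- the topology -/
@[reducible] def top (a : L → ℕ → Option (L × W)) : TopologicalSpace L where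
  IsOpen U := ∀ x ∈ U, ∀ᶠ m in atTop, K a x m ⊆ U
  isOpen_univ := fun _ _ => Eventually.of_forall fun _ => subset_univ _
  isOpen_inter := fun _ _ hs ht x hx =>
    ((hs x hx.1).and (ht x hx.2)).mono fun _ h => subset_inter h.1 h.2
  isOpen_sUnion := fun _ hs x ⟨t, ht, hx⟩ =>
    (hs t ht x hx).mono fun _ h => h.trans (subset_sUnion_of_mem ht)

variable {a : L → ℕ → Option (L × W)}

theorem Riff {x y : L} : R a x y ↔ y = x ∨ ∃ m, y ∈ K a x m :=
  ⟨fun h => by
    cases h with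
    | refl => exact Or.inl rfl
    | step _ m p _ h1 h2 h3 => exact Or.inr ⟨m, p, h1, h2, h3⟩,
  fun h => h.elim (fun e => by rw [e]; exact R.refl x) fun ⟨m, p, h1, h2, h3⟩ => R.step x m p y h1 h2 h3⟩

theorem Rle (H : Lad a) {x y : L} (h : R a x y) : y.1 ≤ x.1 := by
  induction h with
  | refl => exact le_rfl
  | step x m p y h1 _ _ ih => exact ih.trans (H.lt x m p h1).le

theorem Klt (H : Lad a) {x y : L} {m : ℕ} (h : y ∈ K a x m) : y.1 < x.1 := by
  obtain ⟨p, h1, h2, -⟩ := h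
  exact (Rle H h2).trans_lt (H.lt x m p h1)

theorem disj (H : Lad a) (β : W) : ∀ x y : L, x.1 = β → y.1 = β → x ≠ y →
    ∀ z, R a x z → R a y z → False := by
  induction β using WellFoundedLT.induction with
  | _ β ih =>
  intro x y hx hy hxy z h1 h2
  rcases Riff.1 h1 with rfl | ⟨m, h1⟩
  · rcases Riff.1 h2 with e | ⟨n, h2⟩
    · exact hxy e
    · exact (Klt H h2).ne (hx.trans hy.symm)
  rcases Riff.1 h2 with rfl | ⟨n, h2⟩
  · exact (Klt H h1).ne (hy.trans hx.symm)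
  obtain ⟨p, p1, p2, p3⟩ := h1
  obtain ⟨q, q1, q2, q3⟩ := h2
  rcases H.sp x y (hx.trans hy.symm) hxy m n p p1 q q1 with ⟨e, e'⟩ | e | e
  · exact ih p.1.1 (hx ▸ H.lt x m p p1) p.1 q.1 rfl e.symm e' z p2 q2
  · exact not_le.2 q3 ((Rle H p2).trans e)
  · exact not_le.2 p3 ((Rle H q2).trans e)

theorem space (H : Lad a) : ∃ (_ : TopologicalSpace L) (V : L → Set L), T2Space L ∧
    (∀ x, x ∈ V x ∧ IsOpen (V x) ∧ IsCompact (V x)) ∧ (∀ β, IsOpen {y : L | y.1 ≤ β}) ∧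
    (∀ β, IsOpen {y : L | y.1 < β}) ∧ (∀ β, IsOpen {y : L | β < y.1}) ∧
    (∀ β, (∀ i m, a (β, i) m = none) → IsOpen {y : L | β ≤ y.1}) ∧
    (∀ x y : L, x.1 = y.1 → x ≠ y → Disjoint (V x) (V y)) ∧
    ∀ x m, ∀ p ∈ a x m, p.2 < p.1.1 → p.1 ∈ V x := by
  letI := top a
  have hT : ∀ U : Set L, IsOpen U ↔ ∀ x ∈ U, ∀ᶠ m in atTop, K a x m ⊆ U := fun _ => Iff.rfl
  have o1 : ∀ β, IsOpen {y : L | y.1 ≤ β} := fun β => (hT _).2 fun x hx =>
    Eventually.of_forall fun m y hy => (Klt H hy).le.trans hx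
  have o2 : ∀ β, IsOpen {y : L | β < y.1} := fun β => (hT _).2 fun x hx =>
    (H.cof x β hx).mono fun m h y ⟨p, h1, _, h3⟩ => (h p h1).trans_lt h3
  have hV : ∀ β, ∀ x : L, x.1 = β → IsOpen {y | R a x y} ∧ IsCompact {y | R a x y} := by
    intro β
    induction β using WellFoundedLT.induction with
    | _ β ih =>
    intro x hx
    have hK : ∀ m, IsOpen (K a x m) ∧ IsCompact (K a x m) := fun m => by
      rcases e : a x m with _ | p
      · have : K a x m = ∅ := by simp [K, e]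
        rw [this]; exact ⟨isOpen_empty, isCompact_empty⟩
      · have : K a x m = {y | R a p.1 y} ∩ {y | p.2 < y.1} := by ext; simp [K, e]
        obtain ⟨h1, h2⟩ := ih p.1.1 (hx ▸ H.lt x m p e) p.1 rfl
        rw [this]
        refine ⟨h1.inter (o2 _), h2.inter_right ?_⟩
        have := (o1 p.2).isClosed_compl
        simpa only [compl_ofPred, not_le] using this
    have hs : ∀ m, K a x m ⊆ {y | R a x y} := fun m y hy => Riff.2 (Or.inr ⟨m, hy⟩)
    refine ⟨(hT _).2 fun z hz => ?_, isCompact_of_finite_subcover fun {ι} U hU hc => ?_⟩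
    · rcases Riff.1 hz with rfl | ⟨m, h⟩
      · exact Eventually.of_forall hs
      · exact ((hT _).1 (hK m).1 z h).mono fun _ e => e.trans (hs m)
    · classical
      obtain ⟨i, hi⟩ := mem_iUnion.1 (hc (R.refl x))
      obtain ⟨N, hN⟩ := eventually_atTop.1 ((hT _).1 (hU i) x hi)
      have hC : IsCompact (⋃ k ∈ Iio N, K a x k) :=
        (finite_Iio N).isCompact_biUnion fun k _ => (hK k).2
      obtain ⟨t, ht⟩ := hC.elim_finite_subcover U hU
        (iUnion₂_subset fun k _ => (hs k).trans hc)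
      refine ⟨insert i t, fun z hz => ?_⟩
      rw [Finset.set_biUnion_insert]
      rcases Riff.1 hz with rfl | ⟨k, hz⟩
      · exact Or.inl hi
      · by_cases h : k < N
        · exact Or.inr (ht (mem_biUnion (mem_Iio.2 h) hz))
        · exact Or.inl (hN k (not_lt.1 h) hz)
  have hd : ∀ x y : L, x.1 = y.1 → x ≠ y → Disjoint {z | R a x z} {z | R a y z} :=
    fun x y e h => disjoint_left.2 fun z => disj H y.1 x y e rfl h z
  refine ⟨top a, fun x => {y | R a x y}, ⟨fun x y h => ?_⟩,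
    fun x => ⟨R.refl x, hV _ x rfl⟩, o1, fun β => (hT _).2 fun x hx =>
      Eventually.of_forall fun m y hy => (Klt H hy).trans hx, o2, fun β hβ => (hT _).2 fun x hx => ?_,
    hd, fun x m p h1 h2 => R.step x m p _ h1 (R.refl _) h2⟩
  · have key : ∀ x y : L, x.1 < y.1 → ∃ u v, IsOpen u ∧ IsOpen v ∧ x ∈ u ∧ y ∈ v ∧ Disjoint u v :=
      fun x y h => ⟨_, _, o1 x.1, o2 x.1, le_rfl (a := x.1), h,
        disjoint_left.2 fun z (h1 : z.1 ≤ x.1) (h2 : x.1 < z.1) => not_le.2 h2 h1⟩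
    rcases lt_trichotomy x.1 y.1 with e | e | e
    · exact key x y e
    · exact ⟨_, _, (hV _ x rfl).1, (hV _ y rfl).1, R.refl x, R.refl y, hd x y e h⟩
    · obtain ⟨u, v, a1, a2, a3, a4, a5⟩ := key y x e
      exact ⟨v, u, a2, a1, a4, a3, a5.symm⟩
  · rcases (show β ≤ x.1 from hx).lt_or_eq with e | e
    · exact (H.cof x β e).mono fun m h y ⟨p, h1, _, h3⟩ => ((h p h1).trans_lt h3).le
    · refine Eventually.of_forall fun m y ⟨p, h1, _⟩ => ?_
      have := hβ x.2 m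
      rw [e] at this
      rw [show a x m = none from this] at h1
      cases h1

end Pool.Agent.H33.SK1
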