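import Pool.Agent.H33.SK1

/-! Ladder data from diamond. -/

open Set Filter Topology Cardinal Pool.Agent.H33.DiaDefs Pool.Agent.H33.SK1

namespace Pool.Agent.H33.SK2

/-- tuples -/
abbrev T : Type := W × List (L × W)

/-- good tuples above `β` -/
def Good (t : T) (β : W) : Prop :=
  β < t.1 ∧ (∀ p ∈ t.2, β ≤ p.2 ∧ p.2 < p.1.1) ∧
    ∀ i j : ℕ, i ≠ j → ∀ p ∈ t.2[i]?, ∀ q ∈ t.2[j]?, Sp p q

theorem fb {s : Set W} (hs : s.Finite) {γ δ : W} (h : ∀ x ∈ s, x < δ) (hγ : γ < δ) :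
    ∃ l < δ, γ ≤ l ∧ ∀ x ∈ s, x ≤ l := by
  obtain ⟨l, h1, h2⟩ := exists_max_image (insert γ s) id (hs.insert _) (insert_nonempty _ _)
  exact ⟨l, h1.elim (fun e => e ▸ hγ) (h l), h2 γ (Or.inl rfl), fun x hx => h2 x (Or.inr hx)⟩

theorem seq {A : Set T} {δ γ : W} (hγ : γ < δ)
    (h : ∀ β < δ, ∃ t ∈ A, Good t β ∧ t.1 < δ ∧ ∀ p ∈ t.2, p.1.1 < δ) :
    ∃ (s : ℕ → T) (l : ℕ → W), Monotone l ∧ (∀ β < δ, ∃ m, β ≤ l m) ∧
      ∀ m, s m ∈ A ∧ Good (s m) (l m) ∧ (s m).1 < δ ∧ l (m + 1) < δ ∧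
        ∀ p ∈ (s m).2, p.1.1 ≤ l (m + 1) := by
  obtain ⟨z, hz⟩ := (cnt δ).exists_eq_range ⟨γ, hγ⟩
  choose F F1 F2 F3 F4 using fun β : Iio δ => h β.1 β.2
  choose G G1 G2 G3 using fun (n : ℕ) (β : Iio δ) =>
    fb (s := insert (z n) ((fun p : L × W => p.1.1) '' {p | p ∈ (F β).2}))
      (((F β).2.finite_toSet.image _).insert _)
      (by rintro _ (rfl | ⟨p, hp, rfl⟩); exacts [hz.ge ⟨n, rfl⟩, F4 β p hp]) β.2
  let l : ℕ → Iio δ := fun n => Nat.rec ⟨γ, hγ⟩ (fun n β => ⟨G n β, G1 n β⟩) n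
  refine ⟨fun m => F (l m), fun m => (l m).1, monotone_nat_of_le_succ fun n => G2 n _, fun β hβ => ?_,
    fun m => ⟨F1 _, F2 _, F3 _, G1 m _, fun p hp => G3 m _ _ (Or.inr ⟨p, hp, rfl⟩)⟩⟩
  obtain ⟨n, rfl⟩ := hz.le hβ
  exact ⟨n + 1, G3 n _ _ (Or.inl rfl)⟩

theorem data (hD : Diamond) : ∃ a : L → ℕ → Option (L × W), Lad a ∧
    (∀ (g : W → W) (γ : W), ∃ δ, γ < δ ∧ (∀ i < δ, g i < δ) ∧ ∀ i m, a (δ, i) m = none) ∧
    ∀ A : Set T, (∀ β, ∃ t ∈ A, Good t β) → ∀ γ, ∃ δ, γ < δ ∧ ∃ s : ℕ → T,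
      (∀ m, s m ∈ A ∧ (s m).1 < δ ∧ ∀ i, a (δ, i) m = (s m).2[i]?) ∧
      ∀ β < δ, ∀ᶠ m in atTop, Good (s m) β := by
  classical
  haveI := unc
  obtain ⟨D, hD⟩ := hD
  obtain ⟨e, he⟩ : ∃ e : W → T, Function.Surjective e := by
    have : #T ≤ #W := by
      have h1 : #(L × W) = #W := by simp [mk_W]
      haveI : Infinite (L × W) := inferInstance
      rw [mk_prod, mk_list_eq_mk, h1, mk_W]; simp
    obtain ⟨f⟩ := (Cardinal.le_def _ _).1 this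
    exact ⟨_, Function.invFun_surjective f.injective⟩
  let P : W → Prop := fun δ => (∃ γ, γ < δ) ∧
    ∀ β < δ, ∃ t ∈ e '' D δ, Good t β ∧ t.1 < δ ∧ ∀ p ∈ t.2, p.1.1 < δ
  choose s l s1 s2 s3 using fun (δ : W) (h : P δ) => seq h.1.choose_spec h.2
  have ev : ∀ δ (h : P δ), ∀ β < δ, ∀ᶠ m in atTop, Good (s δ h m) β := fun δ h β hβ => by
    obtain ⟨k, hk⟩ := s2 δ h β hβ
    filter_upwards [eventually_ge_atTop k] with m hm
    obtain ⟨g1, g2, g3⟩ := (s3 δ h m).2.1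
    have := hk.trans (s1 δ h hm)
    exact ⟨this.trans_lt g1, fun p hp => ⟨this.trans (g2 p hp).1, (g2 p hp).2⟩, g3⟩
  let a : L → ℕ → Option (L × W) := fun x m => if h : P x.1 then (s x.1 h m).2[x.2]? else none
  have ha : ∀ x m, ∀ p ∈ a x m, ∃ h : P x.1, p ∈ (s x.1 h m).2[x.2]? := fun x m p hp => by
    by_cases h : P x.1
    · exact ⟨h, by simpa only [a, dif_pos h] using hp⟩
    · simp [a, h] at hp
  refine ⟨a, ⟨fun x m p hp => ?_, fun x β hβ => ?_, fun x y e1 e2 m n p hp q hq => ?_⟩,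
    fun g γ => ?_, fun A hA γ => ?_⟩
  · obtain ⟨h, hp⟩ := ha x m p hp
    exact ((s3 _ h m).2.2.2.2 p (List.mem_of_getElem? hp)).trans_lt (s3 _ h m).2.2.2.1
  · by_cases h : P x.1
    · filter_upwards [ev _ h β hβ] with m hm p hp
      obtain ⟨_, hp⟩ := ha x m p hp
      exact (hm.2.1 p (List.mem_of_getElem? hp)).1
    · exact Eventually.of_forall fun m p hp => absurd (ha x m p hp).1 h
  · obtain ⟨δ, i⟩ := x
    obtain ⟨δ', j⟩ := y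
    obtain rfl : δ = δ' := e1
    obtain ⟨h, hp⟩ := ha _ m p hp
    obtain ⟨_, hq⟩ := ha _ n q hq
    have key : ∀ m n, m < n → ∀ p ∈ (s δ h m).2, ∀ q ∈ (s δ h n).2, p.1.1 ≤ q.2 :=
      fun m n hmn p hp q hq => ((s3 δ h m).2.2.2.2 p hp).trans
        ((s1 δ h hmn).trans ((s3 δ h n).2.1.2.1 q hq).1)
    rcases lt_trichotomy m n with c | rfl | c
    · exact Or.inr (Or.inl (key m n c p (List.mem_of_getElem? hp) q (List.mem_of_getElem? hq)))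
    · exact (s3 δ h m).2.1.2.2 i j (fun e => e2 (e ▸ rfl)) p hp q hq
    · exact Or.inr (Or.inr (key n m c q (List.mem_of_getElem? hq) p (List.mem_of_getElem? hp)))
  · obtain ⟨δ, h1, h2, h3⟩ := hD ∅ (DT1.club cnt g γ)
    refine ⟨δ, h2, h3, fun i m => dif_neg fun h => ?_⟩
    obtain ⟨t, ⟨ξ, h4, -⟩, -⟩ := h.2 γ h2
    rw [← h1] at h4
    exact h4.1
  · choose t t1 t2 using hA
    choose c hc using fun β => he (t β)
    choose g hg using fun β => DT1.bd cnt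
      (insert (c β) (insert (t β).1 ((fun p : L × W => p.1.1) '' {p | p ∈ (t β).2})))
      ((((t β).2.finite_toSet.image _).insert _).insert _).countable
    obtain ⟨δ, h1, h2, h3⟩ := hD (e ⁻¹' A) (DT1.club cnt g γ)
    have h : P δ := ⟨⟨γ, h2⟩, fun β hβ => ⟨t β, ⟨c β, by
      rw [← h1]
      exact ⟨by rw [mem_preimage, hc]; exact t1 β, (hg β _ (Or.inl rfl)).trans (h3 β hβ)⟩, hc β⟩,
      t2 β, (hg β _ (Or.inr (Or.inl rfl))).trans (h3 β hβ),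
      fun p hp => (hg β _ (Or.inr (Or.inr ⟨p, hp, rfl⟩))).trans (h3 β hβ)⟩⟩
    refine ⟨δ, h2, s δ h, fun m => ⟨?_, (s3 δ h m).2.2.1, fun i => dif_pos h⟩, ev δ h⟩
    obtain ⟨ξ, h4, h5⟩ := (s3 δ h m).1
    rw [← h1] at h4
    exact h5 ▸ h4.1

end Pool.Agent.H33.SK2
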