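import Pool.Agent.H33.SK2

/-! A non-metrizable Sokolov compact space whose function space has countable point-finite
cellularity, from diamond. -/

open Set Filter Topology Cardinal OnePoint Pool.Agent.H33.DiaDefs Pool.Agent.H33.SK1
  Pool.Agent.H33.SK2

namespace Pool.Agent.H33.SK3

/-- the points of level at most `γ`, and infinity -/
def low (γ : W) : Set (OnePoint L) := insert ∞ ((↑) '' {y : L | y.1 ≤ γ})

theorem lowc (γ : W) : (low γ).Countable := by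
  refine Countable.insert _ (Countable.image ?_ _)
  refine (((cnt γ).insert γ).prod (countable_univ (α := ℕ))).mono fun y h => ?_
  exact ⟨(show y.1 ≤ γ from h).eq_or_lt, trivial⟩

theorem lowm {γ : W} {y : L} : (y : OnePoint L) ∈ low γ ↔ y.1 ≤ γ := by simp [low]

theorem lowf {s : Set (OnePoint L)} (hs : s.Finite) {γ δ : W} (hγ : γ < δ)
    (h : ∀ y : L, ↑y ∈ s → y.1 < δ) : ∃ l < δ, s ⊆ low l := by
  obtain ⟨l, h1, -, h2⟩ := fb (s := Prod.fst '' ((↑) ⁻¹' s : Set L))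
    ((hs.preimage coe_injective.injOn).image _) (by rintro _ ⟨y, hy, rfl⟩; exact h y hy) hγ
  refine ⟨l, h1, fun x hx => ?_⟩
  induction x with
  | infty => exact Or.inl rfl
  | coe y => exact lowm.2 (h2 _ ⟨y, hx, rfl⟩)

theorem bnd {τ : Type} {sz : τ → W → Prop} (h : ∀ γ, {t | sz t γ}.Countable) (b : τ → W) :
    ∃ g : W → W, ∀ γ t, sz t γ → b t < g γ := by
  have := unc
  choose g hg using fun γ => DT1.bd cnt _ ((h γ).image b)
  exact ⟨g, fun γ t ht => hg γ _ ⟨t, ht, rfl⟩⟩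

theorem ext {X : Type} [TopologicalSpace X] [T2Space X] [CompactSpace X] {s : Set X}
    (hs : s.Finite) (q : X → ℝ) : ∃ g : X → ℝ, Continuous g ∧ ∀ x ∈ s, g x = q x := by
  have := hs.to_subtype
  obtain ⟨g, hg⟩ := (⟨fun x : s => q x, continuous_of_discreteTopology⟩ :
    C(s, ℝ)).exists_restrict_eq hs.isClosed
  exact ⟨g, g.continuous, fun x hx => DFunLike.congr_fun hg ⟨x, hx⟩⟩

theorem types [TopologicalSpace L] [T2Space (OnePoint L)]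
    (hS : ∀ (g : W → W) (γ : W), ∃ δ, γ < δ ∧ ∀ i < δ, g i < δ) (u : W → Set (OnePoint L → ℝ))
    (hu : ∀ ξ, IsOpen (u ξ) ∧ (u ξ).Nonempty) :
    ∃ (ρ : Set (OnePoint L × ℚ)) (l : List ℚ) (γ : W) (g₀ : OnePoint L → ℝ), Continuous g₀ ∧
      (∀ p ∈ ρ, p.1 ∈ low γ ∧ g₀ p.1 = p.2) ∧ ∀ β, ∃ s : T, Good s β ∧ s.2.length ≤ l.length ∧
        ∀ g : OnePoint L → ℝ, (∀ p ∈ ρ, g p.1 = p.2) →
          (∀ i : ℕ, ∀ p ∈ s.2[i]?, g p.1 = l.getD i 0) → g ∈ u s.1 := by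
  classical
  by_contra hc
  have h0 : ∀ t : Set (OnePoint L × ℚ) × List ℚ, ∃ β, ∀ (γ : W) (g₀ : OnePoint L → ℝ),
      Continuous g₀ → (∀ p ∈ t.1, p.1 ∈ low γ ∧ g₀ p.1 = p.2) → ¬ ∃ s : T, Good s β ∧
        s.2.length ≤ t.2.length ∧ ∀ g : OnePoint L → ℝ, (∀ p ∈ t.1, g p.1 = p.2) →
          (∀ i : ℕ, ∀ p ∈ s.2[i]?, g p.1 = t.2.getD i 0) → g ∈ u s.1 := fun t => by
    by_contra h
    push Not at h
    have := unc
    obtain ⟨γ, g₀, h1, h2, -⟩ := h (Classical.arbitrary W)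
    exact hc ⟨t.1, t.2, γ, g₀, h1, h2, fun β => by
      obtain ⟨_, _, -, -, h3⟩ := h β
      exact h3⟩
  choose b hb using h0
  obtain ⟨G, hG⟩ := bnd (sz := fun (t : Set (OnePoint L × ℚ) × List ℚ) γ =>
    t.1.Finite ∧ t.1 ⊆ low γ ×ˢ Set.univ) (fun γ =>
      ((countable_ofPred_finite_subset ((lowc γ).prod countable_univ)).prod
        (countable_univ (α := List ℚ))).mono fun t ht => mem_prod.2 ⟨ht, mem_univ _⟩) b
  have := unc
  obtain ⟨δ, h1, h2⟩ := hS G (Classical.arbitrary W)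
  obtain ⟨f₀, hf₀⟩ := (hu δ).2
  obtain ⟨I, v, hv, hI⟩ := isOpen_pi_iff.1 (hu δ).1 f₀ hf₀
  choose! q hq using fun x (hx : x ∈ I) =>
    Rat.denseRange_cast.exists_mem_open (hv x hx).1 ⟨_, (hv x hx).2⟩
  let J : Set (OnePoint L) := {x | x ∈ I ∧ ∀ y : L, ↑y = x → y.1 < δ}
  have hJ : J.Finite := I.finite_toSet.subset fun _ h => h.1
  obtain ⟨γ, hγ, hJ'⟩ := lowf hJ h1 fun y hy => hy.2 y rfl
  obtain ⟨n, f, f1, f2⟩ := ((I.finite_toSet.preimage coe_injective.injOn).subset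
    (show {y : L | ↑y ∈ I ∧ δ ≤ y.1} ⊆ _ from fun _ h => h.1)).fin_param
  have f3 : ∀ i, δ ≤ (f i).1 := fun i => (f2.le ⟨i, rfl⟩).2
  let t : Set (OnePoint L × ℚ) × List ℚ :=
    ((fun x => (x, q x)) '' J, List.ofFn fun i => q (f i))
  have ht : b t < δ := (hG γ t ⟨hJ.image _, by rintro _ ⟨x, hx, rfl⟩; exact ⟨hJ' hx, trivial⟩⟩).trans
    (h2 γ hγ)
  choose μ m1 m2 m3 using fun i => fb (s := {w | w ∈ range (fun j => (f j).1) ∧ w < (f i).1})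
    ((finite_range _).subset fun _ h => h.1) (fun _ h => h.2) (ht.trans_le (f3 i))
  obtain ⟨g₀, g1, g2⟩ := ext hJ fun x => q x
  have key : ∀ (i : ℕ) (p : L × W), p ∈ (List.ofFn fun i => (f i, μ i))[i]? →
      ∃ h : i < n, p = (f ⟨i, h⟩, μ ⟨i, h⟩) := fun i p hp => by
    rw [List.getElem?_ofFn] at hp
    by_cases h : i < n
    · exact ⟨h, by simpa [h, eq_comm] using hp⟩
    · simp [h] at hp
  refine hb t γ g₀ g1 (by rintro _ ⟨x, hx, rfl⟩; exact ⟨hJ' hx, g2 x hx⟩)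
    ⟨(δ, List.ofFn fun i => (f i, μ i)), ⟨ht, fun p hp => ?_, fun i j hij p hp p' hp' => ?_⟩,
      by simp [t], fun g a1 a2 => hI fun x hx => ?_⟩
  · obtain ⟨i, rfl⟩ := List.mem_ofFn.1 hp
    exact ⟨m2 i, m1 i⟩
  · obtain ⟨hi, rfl⟩ := key i p hp
    obtain ⟨hj, rfl⟩ := key j p' hp'
    rcases lt_trichotomy (f ⟨i, hi⟩).1 (f ⟨j, hj⟩).1 with c | c | c
    · exact Or.inr (Or.inl (m3 _ _ ⟨⟨_, rfl⟩, c⟩))
    · exact Or.inl ⟨c, fun e => hij (Fin.mk.inj (f1 e))⟩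
    · exact Or.inr (Or.inr (m3 _ _ ⟨⟨_, rfl⟩, c⟩))
  · by_cases h : x ∈ J
    · rw [a1 _ ⟨x, h, rfl⟩]; exact hq x hx
    · obtain ⟨y, rfl, hy⟩ : ∃ y : L, ↑y = x ∧ δ ≤ y.1 := by
        by_contra h'
        push Not at h'
        exact h ⟨hx, h'⟩
      obtain ⟨i, rfl⟩ := f2.ge ⟨hx, hy⟩
      rw [a2 i (f i, μ i) (by simp [List.getElem?_ofFn])]
      simpa [t, List.getElem?_ofFn] using hq _ hx

theorem weight (Z : Type) [TopologicalSpace Z] [T2Space Z] [CompactSpace Z] :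
    ∃ B : Set (Set Z), TopologicalSpace.IsTopologicalBasis B ∧ #B ≤ max #Z ℵ₀ := by
  classical
  choose! U V h1 h2 h3 h4 h5 using fun (x y : Z) (h : x ≠ y) => t2_separation h
  let b : Z × List Z → Set Z := fun p => ⋂ y ∈ {y ∈ p.2 | p.1 ≠ y}, U p.1 y
  refine ⟨range b, TopologicalSpace.isTopologicalBasis_of_isOpen_of_nhds ?_ fun x O hx hO => ?_,
    mk_range_le.trans ?_⟩
  · rintro _ ⟨p, rfl⟩
    exact (p.2.finite_toSet.subset fun _ h => h.1).isOpen_biInter fun y hy => h1 _ _ hy.2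
  · have ne : ∀ y ∈ Oᶜ, x ≠ y := fun y hy e => hy (e ▸ hx)
    obtain ⟨t, t1, t2⟩ := hO.isClosed_compl.isCompact.elim_nhds_subcover (V x)
      fun y hy => (h2 _ _ (ne y hy)).mem_nhds (h4 _ _ (ne y hy))
    refine ⟨_, ⟨(x, t.toList), rfl⟩, mem_iInter₂.2 fun y hy => h3 _ _ hy.2, fun z hz => ?_⟩
    by_contra h
    obtain ⟨y, hy, e⟩ := mem_iUnion₂.1 (t2 h)
    exact disjoint_left.1 (h5 _ _ (ne y (t1 y hy)))
      (mem_iInter₂.1 hz y ⟨Finset.mem_toList.2 hy, ne y (t1 y hy)⟩) e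
  · rw [mk_prod, lift_id, lift_id]
    have := mk_list_le_max Z
    calc #Z * #(List Z) ≤ max #Z ℵ₀ * max #Z ℵ₀ :=
          mul_le_mul' (le_max_left _ _) (this.trans_eq (max_comm _ _))
      _ = _ := mul_eq_self (le_max_right _ _)

theorem pf {C X : Type} (c : C → X → ℝ) {P : (X → ℝ) → Prop} (hs : ∀ g, P g → ∃ f, c f = g)
    (h : ∀ u : W → Set (X → ℝ), (∀ ξ, IsOpen (u ξ) ∧ (u ξ).Nonempty) →
      ∃ g, P g ∧ {ξ | g ∈ u ξ}.Infinite) (𝒰 : Set (Set C))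
    (h1 : ∀ U ∈ 𝒰, IsOpen[TopologicalSpace.induced c inferInstance] U ∧ U.Nonempty)
    (h2 : ∀ f, {U | U ∈ 𝒰 ∧ f ∈ U}.Finite) : 𝒰.Countable := by
  by_contra hc
  have : #W ≤ #𝒰 := by
    rw [mk_W, ← succ_aleph0, Order.succ_le_iff, ← not_le, le_aleph0_iff_set_countable]
    exact hc
  obtain ⟨i⟩ := (Cardinal.le_def _ _).1 this
  choose u u1 u2 using fun ξ => (@isOpen_induced_iff _ _ _ _ c).1 (h1 _ (i ξ).2).1
  obtain ⟨g, g1, g2⟩ := h u fun ξ => ⟨u1 ξ, by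
    obtain ⟨f, hf⟩ := (h1 _ (i ξ).2).2
    exact ⟨c f, by rwa [← u2] at hf⟩⟩
  obtain ⟨f, rfl⟩ := hs g g1
  exact g2 (((h2 f).preimage (Subtype.val_injective.comp i.injective).injOn).subset
    fun ξ hξ => ⟨(i ξ).2, by show f ∈ (i ξ).1; rw [← u2]; exact hξ⟩)

end Pool.Agent.H33.SK3
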