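import Pool.Agent.H33.SK3

/-! The example. -/

open Set Filter Topology Cardinal OnePoint Pool.Agent.H33.DiaDefs Pool.Agent.H33.SK1
  Pool.Agent.H33.SK2 Pool.Agent.H33.SK3

namespace Pool.Agent.H33.SK4

theorem main (hD : Diamond) : ∃ (X : Type) (_ : TopologicalSpace X), CompactSpace X ∧ T2Space X ∧
    (∀ F : (n : ℕ) → Set (Fin n → X), (∀ n, IsClosed (F n)) →
      ∃ f : X → X, Continuous f ∧ (range f).Countable ∧
        ∀ n, ∀ x ∈ F n, (fun i => f (x i)) ∈ F n) ∧
    (∀ A : Set X, #(closure A) ≤ max #A ℵ₀) ∧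
    (∀ u : W → Set (X → ℝ), (∀ ξ, IsOpen (u ξ) ∧ (u ξ).Nonempty) →
      ∃ g, Continuous g ∧ {ξ | g ∈ u ξ}.Infinite) ∧
    ¬ TopologicalSpace.SeparableSpace X := by
  classical
  have := unc
  obtain ⟨a, H, hS, hG⟩ := data hD
  obtain ⟨τ, V, t2, hV, o1, o2, o3, o4, hd, hm⟩ := space H
  have : WeaklyLocallyCompactSpace L :=
    ⟨fun x => ⟨V x, (hV x).2.2, (hV x).2.1.mem_nhds (hV x).1⟩⟩
  have nb : ∀ O ∈ 𝓝 (∞ : OnePoint L), ∃ β, ∀ y : L, β < y.1 → ↑y ∈ O := fun O hO => by
    obtain ⟨K, ⟨-, k⟩, hK⟩ := hasBasis_nhds_infty.mem_iff.1 hO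
    obtain ⟨β, hβ⟩ := k.elim_directed_cover _ o1
      (fun y _ => mem_iUnion.2 ⟨y.1, le_rfl (a := y.1)⟩)
      (Monotone.directed_le fun _ _ h _ hy => le_trans hy h)
    exact ⟨β, fun y hy => hK (Or.inl ⟨y, fun e => not_le.2 hy (hβ e), rfl⟩)⟩
  have cl : ∀ γ, IsClosed (low γ) := fun γ => (isClosed_iff_of_mem (Or.inl rfl)).2 (by
    have := (o3 γ).isClosed_compl
    convert this using 1
    ext y; simp [lowm])
  have cb : ∀ A : Set (OnePoint L), A.Countable → ∃ γ, A ⊆ low γ := fun A hA => by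
    obtain ⟨β, hβ⟩ := DT1.bd cnt _ ((hA.preimage coe_injective).image Prod.fst)
    refine ⟨β, fun x hx => ?_⟩
    induction x with
    | infty => exact Or.inl rfl
    | coe y => exact lowm.2 (hβ _ ⟨y, hx, rfl⟩).le
  refine ⟨OnePoint L, inferInstance, inferInstance, inferInstance, fun F hF => ?_, fun A => ?_,
    fun u hu => ?_, fun ⟨D, h1, h2⟩ => ?_⟩
  · have h0 : ∀ t : Σ n, Fin n → OnePoint L, ∃ β, t.2 ∉ F t.1 → ∀ x : Fin t.1 → OnePoint L,
        (∀ i, x i = t.2 i ∨ t.2 i = ∞ ∧ ∃ y : L, β < y.1 ∧ ↑y = x i) → x ∉ F t.1 := fun t => by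
      by_cases h : t.2 ∈ F t.1
      · exact ⟨Classical.arbitrary W, fun e => absurd h e⟩
      have h1 := (hF _).isOpen_compl.mem_nhds h
      rw [nhds_pi, Filter.mem_pi] at h1
      obtain ⟨I, -, O, h2, h3⟩ := h1
      have : ∀ i, ∃ β, t.2 i = ∞ → ∀ y : L, β < y.1 → ↑y ∈ O i := fun i => by
        by_cases e : t.2 i = ∞
        · exact (nb _ (e ▸ h2 i)).imp fun _ h _ => h
        · exact ⟨Classical.arbitrary W, fun e' => absurd e' e⟩
      choose β hβ using this
      obtain ⟨b, hb⟩ := DT1.bd cnt _ (countable_range β)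
      refine ⟨b, fun _ x hx => h3 fun i _ => ?_⟩
      rcases hx i with e | ⟨e, y, h4, h5⟩
      · exact e ▸ mem_of_mem_nhds (h2 i)
      · exact h5 ▸ hβ i e y ((hb _ ⟨i, rfl⟩).trans h4)
    choose b hb using h0
    obtain ⟨G, hG⟩ := bnd (sz := fun (t : Σ n, Fin n → OnePoint L) γ => ∀ i, t.2 i ∈ low γ)
      (fun γ => by
        refine (countable_iUnion fun n => (countable_pi fun _ : Fin n => lowc γ).image
          fun x => (⟨n, x⟩ : Σ n, Fin n → OnePoint L)).mono fun t ht => ?_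
        exact mem_iUnion.2 ⟨t.1, t.2, ht, rfl⟩) b
    obtain ⟨δ, h1, h2, h3⟩ := hS G (Classical.arbitrary W)
    let r : OnePoint L → OnePoint L := fun x => x.elim ∞ fun y => if y.1 < δ then ↑y else ∞
    have r1 : ∀ y : L, r y = if y.1 < δ then ↑y else ∞ := fun _ => rfl
    have r2 : ∀ x, ∀ y : L, ↑y = r x → y.1 < δ := fun x y e => by
      induction x with
      | infty => exact absurd e (coe_ne_infty _)
      | coe z =>
        rw [r1] at e
        split_ifs at e with h
        · exact coe_injective e ▸ h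
        · exact absurd e (coe_ne_infty _)
    refine ⟨r, (OnePoint.continuous_iff r).2 ⟨fun O hO => ?_, ?_⟩, (lowc δ).mono ?_,
      fun n x hx => by_contra fun h => ?_⟩
    · have h6 : ∀ᶠ y : L in coclosedCompact L, ↑y ∈ O := tendsto_coe_infty hO
      refine mem_map.2 (h6.mono fun y hy => ?_)
      show r y ∈ O
      rw [r1]
      split_ifs
      exacts [hy, mem_of_mem_nhds hO]
    · have : IsClopen {y : L | y.1 < δ} := ⟨by
        have := (o4 δ h3).isClosed_compl
        simpa only [compl_ofPred, not_le] using this, o2 δ⟩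
      exact continuous_if (by rw [this.frontier_eq]; exact fun _ h => h.elim)
        continuous_coe.continuousOn continuousOn_const
    · rintro _ ⟨x, rfl⟩
      induction e : r x with
      | infty => exact Or.inl rfl
      | coe y => exact lowm.2 (r2 x y e.symm).le
    · obtain ⟨γ, hγ, h4⟩ := lowf (finite_range fun i => r (x i)) h1
        fun y ⟨i, e⟩ => r2 _ y e.symm
      have h5 := (hG γ ⟨n, fun i => r (x i)⟩ fun i => h4 ⟨i, rfl⟩).trans (h2 γ hγ)
      refine hb ⟨n, fun i => r (x i)⟩ h x (fun i => ?_) hx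
      show x i = r (x i) ∨ r (x i) = ∞ ∧ _
      induction x i with
      | infty => exact Or.inl rfl
      | coe y =>
        rw [r1]
        split_ifs with e
        · exact Or.inl rfl
        · exact Or.inr ⟨rfl, y, h5.trans_le (not_lt.1 e), rfl⟩
  · by_cases h : A.Countable
    · obtain ⟨γ, hγ⟩ := cb A h
      exact (le_aleph0_iff_set_countable.2 ((lowc γ).mono (closure_minimal hγ (cl γ)))).trans
        (le_max_right _ _)
    · refine le_trans ?_ (le_max_left _ _)
      rw [← le_aleph0_iff_set_countable, not_le, ← Order.succ_le_iff, succ_aleph0] at h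
      refine (mk_set_le _).trans (le_trans (le_of_eq ?_) h)
      show #(Option L) = _
      simp [mk_W]
  · obtain ⟨ρ, l, γ, g₀, g1, g2, hQ⟩ := types (fun g γ => (hS g γ).imp fun _ h => ⟨h.1, h.2.1⟩) u hu
    obtain ⟨δ, h1, s, s1, s2⟩ := hG {s | s.2.length ≤ l.length ∧
      ∀ g : OnePoint L → ℝ, (∀ p ∈ ρ, g p.1 = p.2) →
        (∀ i : ℕ, ∀ p ∈ s.2[i]?, g p.1 = l.getD i 0) → g ∈ u s.1}
      (fun β => (hQ β).imp fun _ h => ⟨h.2, h.1⟩) γ
    let N : ℕ → Set (OnePoint L) := fun i => (↑) '' (V (δ, i) ∩ {y | γ < y.1})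
    have hN : ∀ i, IsClopen (N i) := fun i => by
      refine ⟨(((hV _).2.2.inter_right ?_).image continuous_coe).isClosed,
        isOpen_image_coe.2 ((hV _).2.1.inter (o3 γ))⟩
      have := (o1 γ).isClosed_compl
      simpa only [compl_ofPred, not_le] using this
    let g : OnePoint L → ℝ := fun x =>
      g₀ x + ∑ i ∈ Finset.range l.length, (N i).indicator (fun x => l.getD i 0 - g₀ x) x
    refine ⟨g, g1.add (continuous_finsetSum _ fun i _ =>
      (hN i).continuous_indicator (continuous_const.sub g1)), fun hf => ?_⟩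
    obtain ⟨β, b1, b2, b3⟩ := fb (hf.subset (sep_subset _ (· < δ))) (fun _ h => h.2) h1
    obtain ⟨m, m1⟩ := (s2 β b1).exists
    refine not_le.2 m1.1 (b3 _ ⟨(s1 m).1.2 g (fun p hp => ?_) fun i p hp => ?_, (s1 m).2.1⟩)
    · rw [← (g2 p hp).2]
      refine add_eq_left.2 (Finset.sum_eq_zero fun i _ => indicator_of_notMem ?_ _)
      rintro ⟨y, hy, e⟩
      exact not_le.2 hy.2 (lowm.1 (e ▸ (g2 p hp).1))
    · have p1 := m1.2.1 p (List.mem_of_getElem? hp)
      have p2 : p.1 ∈ V (δ, i) := hm _ m p (by rw [(s1 m).2.2]; exact hp) p1.2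
      have p3 : i < l.length := (List.getElem?_eq_some_iff.1 hp).1.trans_le (s1 m).1.1
      show _ + _ = _
      rw [Finset.sum_eq_single i (fun j _ hj => indicator_of_notMem ?_ _)
        fun h => absurd (Finset.mem_range.2 p3) h,
        indicator_of_mem (show (p.1 : OnePoint L) ∈ N i from
          ⟨p.1, ⟨p2, (b2.trans p1.1).trans_lt p1.2⟩, rfl⟩)]
      · ring
      · rintro ⟨y, hy, e⟩
        exact disjoint_left.1 (hd (δ, j) (δ, i) rfl fun e => hj (Prod.ext_iff.1 e).2)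
          (coe_injective e ▸ hy.1) p2
  · obtain ⟨γ, hγ⟩ := cb D h1
    obtain ⟨β, hβ⟩ := DT1.bd cnt _ (countable_singleton γ)
    exact not_le.2 (hβ γ rfl) (lowm.1 (closure_minimal hγ (cl γ) (h2 ((β, 0) : L))))

end Pool.Agent.H33.SK4
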