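import Pool.Agent.H33.DiaDefs
import Pool.Agent.H33.DT1

/-! The proper forcing axiom for posets of size `ℵ₁`; a side condition poset for spaces with a
`σ`-locally countable base. -/

open Set Filter Topology Cardinal Pool.Agent.H33.DiaDefs

namespace Pool.Agent.H33.SLC1

/-- Dense subsets of a forcing notion. -/
def IsDense {P : Type} [PartialOrder P] (D : Set P) : Prop := ∀ p, ∃ q ∈ D, q ≤ p

/-- Any `ℵ₁` dense subsets of `P` are met by a filter. -/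
def MeetsAleph1 (P : Type) [PartialOrder P] : Prop :=
  ∀ 𝒟 : Set (Set P), #𝒟 ≤ ℵ_ 1 → (∀ D ∈ 𝒟, IsDense D) →
    ∃ G : Set P, (∀ p ∈ G, ∀ q, p ≤ q → q ∈ G) ∧ (∀ p ∈ G, ∀ q ∈ G, ∃ r ∈ G, r ≤ p ∧ r ≤ q) ∧
      ∀ D ∈ 𝒟, (G ∩ D).Nonempty

/-- Proper forcing: for club many countable sets `N` of conditions and subsets of `P`, every
condition in `N` has an `(N, P)`-generic extension. -/
def Proper (P : Type) [PartialOrder P] : Prop :=
  ∃ F : Finset (P ⊕ Set P) → ℕ → P ⊕ Set P, ∀ N : Set (P ⊕ Set P), N.Countable →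
    (∀ s : Finset (P ⊕ Set P), (s : Set (P ⊕ Set P)) ⊆ N → ∀ n, F s n ∈ N) →
    ∀ p, Sum.inl p ∈ N → ∃ q ≤ p, ∀ D, Sum.inr D ∈ N → IsDense D →
      ∀ r ≤ q, ∃ d ∈ D, Sum.inl d ∈ N ∧ ∃ t, t ≤ d ∧ t ≤ r

/-- The proper forcing axiom for posets of size at most `ℵ₁`. -/
def PFA1 : Prop :=
  ∀ (P : Type) [PartialOrder P] [Nonempty P], #P ≤ ℵ_ 1 → Proper P → MeetsAleph1 P

theorem proper_of {P : Type} [PartialOrder P] [Nonempty P] (G : P → P → Set P → Set P)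
    (hG : ∀ p q D, (G p q D).Countable)
    (h : ∀ (N : Set P) (M : Set (Set P)), N.Countable →
      (∀ p ∈ N, ∀ q ∈ N, ∀ D ∈ insert ∅ M, G p q D ⊆ N) → ∀ p ∈ N, ∃ q ≤ p, ∀ D ∈ M, IsDense D →
        ∀ r ≤ q, ∃ d ∈ D, d ∈ N ∧ ∃ t, t ≤ d ∧ t ≤ r) : Proper P := by
  classical
  let H : Finset (P ⊕ Set P) → Set (P ⊕ Set P) := fun s => insert (Sum.inl (Classical.arbitrary P))
    (⋃ p ∈ Sum.inl ⁻¹' (s : Set (P ⊕ Set P)), ⋃ q ∈ Sum.inl ⁻¹' (s : Set (P ⊕ Set P)),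
      ⋃ D ∈ insert ∅ (Sum.inr ⁻¹' (s : Set (P ⊕ Set P))), Sum.inl '' G p q D)
  have hH : ∀ s, (H s).Countable := fun s =>
    ((s.countable_toSet.preimage Sum.inl_injective).biUnion fun p _ =>
      (s.countable_toSet.preimage Sum.inl_injective).biUnion fun q _ =>
        ((s.countable_toSet.preimage Sum.inr_injective).insert _).biUnion fun D _ =>
          (hG p q D).image _).insert _
  choose F hF using fun s => (hH s).exists_eq_range (insert_nonempty _ _)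
  refine ⟨F, fun N hN hc p hp => h (Sum.inl ⁻¹' N) (Sum.inr ⁻¹' N) (hN.preimage Sum.inl_injective)
    (fun p hp q hq D hD d hd => ?_) p hp⟩
  rcases hD with rfl | hD
  · obtain ⟨n, hn⟩ := (hF {Sum.inl p, Sum.inl q}).le (Or.inr (mem_biUnion (by simp)
      (mem_biUnion (by simp) (mem_biUnion (Or.inl rfl) (mem_image_of_mem _ hd)))))
    have := hc {Sum.inl p, Sum.inl q} (by simpa [insert_subset_iff] using ⟨hp, hq⟩) n
    rwa [hn] at this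
  · obtain ⟨n, hn⟩ := (hF {Sum.inl p, Sum.inl q, Sum.inr D}).le (Or.inr (mem_biUnion (by simp)
      (mem_biUnion (by simp) (mem_biUnion (Or.inr (by simp)) (mem_image_of_mem _ hd)))))
    have := hc {Sum.inl p, Sum.inl q, Sum.inr D}
      (by simpa [insert_subset_iff] using ⟨hp, hq, hD⟩) n
    rwa [hn] at this

/-- items -/
structure It (X : Type) : Type where
  /-- label -/
  B : Set X
  /-- level of the label -/
  k : ℕ
  /-- the chosen open set -/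
  C : Set X
  /-- colour -/
  n : ℕ

/-- the data of the forcing -/
structure Data (X : Type) : Type where
  /-- the base -/
  b : ℕ → Set (Set X)
  /-- the cover -/
  U : Set (Set X)
  /-- tasks -/
  T : X → Set ℕ
  /-- rank of sets -/
  σ : Set X → W
  /-- rank of points -/
  τ : X → W
  /-- closing-off function -/
  g : W → W
  cσ : ∀ ξ, {B | (∃ k, B ∈ b k) ∧ σ B < ξ}.Countable
  cτ : ∀ ξ, {z | τ z < ξ}.Countable
  g0 : ∀ ξ, ξ < g ξ
  g1 : ∀ z k, ∀ B ∈ b k, z ∈ B → σ B < g (τ z)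
  g2 : ∀ j k, ∀ C ∈ b j, {B ∈ b k | (B ∩ C).Nonempty}.Countable →
    ∀ B ∈ b k, (B ∩ C).Nonempty → σ B < g (σ C)

variable {X : Type} (d : Data X)

/-- good items -/
def Ok (i : It X) : Prop := i.B ∈ d.b i.k ∧ (∃ j, i.C ∈ d.b j) ∧ i.C ⊆ i.B ∧ i.C.Nonempty ∧
  {B ∈ d.b i.k | (B ∩ i.C).Nonempty}.Countable ∧ ∃ u ∈ d.U, i.C ⊆ u

/-- conditions -/
@[ext] structure Co : Type where
  /-- side conditions -/
  a : Set W
  /-- items -/
  I : Set (It X)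
  /-- frozen points -/
  Z : Set X
  fa : a.Finite
  fI : I.Finite
  fZ : Z.Finite
  ok : ∀ i ∈ I, Ok d i
  sd : ∀ δ ∈ a, (∀ ξ < δ, d.g ξ < δ) → ∀ i ∈ I, d.σ i.B < δ → d.σ i.C < δ
  dn : ∀ z ∈ Z, ∀ n ∈ d.T z, ∃ i ∈ I, i.n = n ∧ z ∈ i.C

instance : PartialOrder (Co d) where
  le q p := p.a ⊆ q.a ∧ p.I ⊆ q.I ∧ p.Z ⊆ q.Z ∧ ∀ z ∈ p.Z, ∀ i ∈ q.I, z ∈ i.C → i ∈ p.I
  le_refl p := ⟨subset_rfl, subset_rfl, subset_rfl, fun _ _ _ h _ => h⟩
  le_trans r q p h h' := ⟨h'.1.trans h.1, h'.2.1.trans h.2.1, h'.2.2.1.trans h.2.2.1,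
    fun z hz i hi e => h'.2.2.2 z hz i (h.2.2.2 z (h'.2.2.1 hz) i hi e) e⟩
  le_antisymm p q h h' := Co.ext (h'.1.antisymm h.1) (h'.2.1.antisymm h.2.1)
    (h'.2.2.1.antisymm h.2.2.1)

/-- codes of ordinals -/
def e (ξ : W) : Co d :=
  ⟨{ξ}, ∅, ∅, finite_singleton _, finite_empty, finite_empty, by simp, by simp, by simp⟩

instance : Nonempty (Co d) := ⟨e d (by have := unc; exact Classical.arbitrary W)⟩

variable {d}

/-- bounded conditions -/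
def Bd (p : Co d) (ξ : W) : Prop := (∀ δ ∈ p.a, δ < ξ) ∧
  (∀ i ∈ p.I, d.σ i.B < ξ ∧ d.σ i.C < ξ) ∧ ∀ z ∈ p.Z, d.τ z < ξ

theorem Bd.mono {p : Co d} {ξ ζ : W} (h : Bd p ξ) (e : ξ ≤ ζ) : Bd p ζ :=
  ⟨fun δ a => (h.1 δ a).trans_le e, fun i a => ⟨(h.2.1 i a).1.trans_le e, (h.2.1 i a).2.trans_le e⟩,
    fun z a => (h.2.2 z a).trans_le e⟩

theorem bdc (ξ : W) : {p : Co d | Bd p ξ}.Countable := by
  have h1 : {i : It X | ((∃ k, i.B ∈ d.b k) ∧ d.σ i.B < ξ) ∧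
      (∃ k, i.C ∈ d.b k) ∧ d.σ i.C < ξ}.Countable := by
    refine (((d.cσ ξ).prod ((countable_univ (α := ℕ)).prod ((d.cσ ξ).prod
      (countable_univ (α := ℕ))))).image fun t => (⟨t.1, t.2.1, t.2.2.1, t.2.2.2⟩ : It X)).mono
      fun i hi => ?_
    exact ⟨(i.B, i.k, i.C, i.n), ⟨hi.1, trivial, hi.2, trivial⟩, rfl⟩
  refine countable_of_injective_of_countable_image (f := fun p : Co d => (p.a, p.I, p.Z))
    (fun p _ q _ h => Co.ext (congrArg (·.1) h) (congrArg (·.2.1) h) (congrArg (·.2.2) h))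
    (((countable_ofPred_finite_subset (cnt ξ)).prod ((countable_ofPred_finite_subset h1).prod
      (countable_ofPred_finite_subset (d.cτ ξ)))).mono ?_)
  rintro _ ⟨p, hp, rfl⟩
  exact ⟨⟨p.fa, hp.1⟩, ⟨p.fI, fun i hi => ⟨⟨⟨_, (p.ok i hi).1⟩, (hp.2.1 i hi).1⟩,
    (p.ok i hi).2.1, (hp.2.1 i hi).2⟩⟩, p.fZ, hp.2.2⟩

theorem fbd {δ : W} (h : ∀ ξ < δ, d.g ξ < δ) {ξ₀ : W} (h0 : ξ₀ < δ) {s : Set W} (hs : s.Finite)
    (h1 : ∀ ξ ∈ s, ξ < δ) : ∃ ζ < δ, ∀ ξ ∈ s, ξ < ζ := by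
  obtain ⟨m, m1, m2⟩ := exists_max_image (insert ξ₀ s) id (hs.insert _) (insert_nonempty _ _)
  exact ⟨d.g m, h m (m1.elim (fun e => e ▸ h0) (h1 m)),
    fun ξ a => (m2 ξ (Or.inr a)).trans_lt (d.g0 m)⟩

/-- the ordinals mentioned in a condition -/
def men (p : Co d) : Set W := p.a ∪ (fun i => d.σ i.B) '' p.I ∪ (fun i => d.σ i.C) '' p.I ∪ d.τ '' p.Z

theorem men_fin (p : Co d) : (men p).Finite :=
  ((p.fa.union (p.fI.image _)).union (p.fI.image _)).union (p.fZ.image _)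

theorem bd_iff {p : Co d} {ξ : W} : Bd p ξ ↔ ∀ ζ ∈ men p, ζ < ξ := by
  simp only [Bd, men, mem_union, mem_image, or_imp, forall_and, forall_exists_index, and_imp,
    forall_apply_eq_imp_iff₂, and_assoc]

theorem card : #(Co d) ≤ ℵ_ 1 := by
  have := unc
  have h : (Set.univ : Set (Co d)) ⊆ ⋃ ξ, {p | Bd p ξ} := fun p _ =>
    mem_iUnion.2 ((DT1.bd cnt _ (men_fin p).countable).imp fun _ h => bd_iff.2 h)
  refine mk_univ.ge.trans ((mk_le_mk_of_subset h).trans ((mk_iUnion_le _).trans ?_))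
  rw [mk_W]
  exact (mul_le_mul' le_rfl ((ciSup_le' fun ξ => le_aleph0_iff_set_countable.2 (bdc ξ)).trans
    aleph0_lt_aleph_one.le)).trans_eq (mul_eq_self aleph0_lt_aleph_one.le)

end Pool.Agent.H33.SLC1
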