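import Pool.Agent.H33.SLC1

/-! The side condition poset is proper; the generic family. -/

open Set Filter Topology Cardinal Pool.Agent.H33.DiaDefs Pool.Agent.H33.SLC1

namespace Pool.Agent.H33.SLC2

variable {X : Type} {d : Data X}

theorem proper : Proper (Co d) := by
  classical
  have := unc
  choose hb hhb using fun p : Co d => DT1.bd cnt _
    (((men_fin p).image d.g).insert (Classical.arbitrary W)).countable
  let Φ : Co d → Co d → Set (Co d) → ℕ → Co d → Prop := fun p q D K t =>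
    t ∈ D ∧ t ≤ p ∧ ∀ i ∈ t.I, i ∉ p.I → i.k ≤ K ∧ ∀ ζ ∈ q.a, ζ ≤ d.σ i.B
  have : ∀ p q D K, ∃ t, (∃ t, Φ p q D K t) → Φ p q D K t := fun p q D K => by
    by_cases h : ∃ t, Φ p q D K t
    · exact h.imp fun t a _ => a
    · exact ⟨p, fun a => absurd a h⟩
  choose w hw using this
  refine proper_of (fun p q D => {t | Bd t (hb p)} ∪ range (w p q D))
    (fun p q D => (bdc _).union (countable_range _)) fun N M hN hc p hp => ?_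
  obtain ⟨δ, δ1, δ2⟩ := wellFounded_lt.has_min {ξ | e d ξ ∉ N} (by
    by_contra h
    exact not_countable_univ ((hN.preimage (f := e d) fun a b h => singleton_injective
      (congrArg Co.a h)).mono fun ξ _ => not_not.1 fun a => h ⟨ξ, a⟩))
  have a0 : ∀ p ∈ N, hb p ≤ δ := fun p hp => not_lt.1 fun h =>
    δ1 (hc p hp p hp ∅ (Or.inl rfl) (Or.inl (by simpa [Bd, e] using h)))
  have a1 : ∀ ξ < δ, e d ξ ∈ N := fun ξ h => not_not.1 fun a => δ2 ξ a h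
  have a2 : ∀ ξ < δ, d.g ξ < δ := fun ξ h =>
    (hhb _ _ (Or.inr ⟨ξ, by simp [men, e], rfl⟩)).trans_le (a0 _ (a1 ξ h))
  have a3 : Classical.arbitrary W < δ := (hhb p _ (Or.inl rfl)).trans_le (a0 p hp)
  have a4 : ∀ p ∈ N, Bd p δ := fun p hp => bd_iff.2 fun ζ h =>
    ((d.g0 ζ).trans (hhb p _ (Or.inr ⟨ζ, h, rfl⟩))).trans_le (a0 p hp)
  have a5 : ∀ p, Bd p δ → p ∈ N := fun p h => by
    obtain ⟨ζ, z1, z2⟩ := fbd a2 a3 (men_fin p) (bd_iff.1 h)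
    exact hc _ (a1 ζ z1) _ (a1 ζ z1) ∅ (Or.inl rfl) (Or.inl ((bd_iff.2 z2).mono
      ((d.g0 ζ).trans (hhb _ _ (Or.inr ⟨ζ, by simp [men, e], rfl⟩))).le))
  have a6 : ∀ i, Ok d i → d.σ i.C < δ → d.σ i.B < δ := fun i ⟨b1, ⟨j, b2⟩, b3, b4, b5, _⟩ h =>
    (d.g2 j _ _ b2 b5 _ b1 (b4.mono (subset_inter b3 subset_rfl))).trans (a2 _ h)
  refine ⟨⟨insert δ p.a, p.I, p.Z, p.fa.insert _, p.fI, p.fZ, p.ok, fun ζ h => h.elim
      (fun e _ i hi _ => e ▸ ((a4 p hp).2.1 i hi).2) (p.sd ζ), p.dn⟩,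
    ⟨subset_insert _ _, subset_rfl, subset_rfl, fun _ _ _ h _ => h⟩, fun D hD _ r₀ hr₀ => ?_⟩
  obtain ⟨r, r1, r2⟩ := ‹IsDense D› r₀
  have rδ : δ ∈ r.a := (r2.trans hr₀).1 (Or.inl rfl)
  have b1 : ∀ z, d.τ z < δ → ∀ i, Ok d i → z ∈ i.C → d.σ i.C < δ := fun z hz i ⟨_, ⟨j, h⟩, _⟩ e =>
    (d.g1 z j _ h e).trans (a2 _ hz)
  let p₀ : Co d := ⟨{ζ ∈ r.a | ζ < δ}, {i ∈ r.I | d.σ i.C < δ}, {z ∈ r.Z | d.τ z < δ},
    r.fa.subset (sep_subset _ _), r.fI.subset (sep_subset _ _), r.fZ.subset (sep_subset _ _),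
    fun i h => r.ok i h.1, fun ζ h a i b => r.sd ζ h.1 a i b.1, fun z h n a => by
      obtain ⟨i, c1, c2, c3⟩ := r.dn z h.1 n a
      exact ⟨i, ⟨c1, b1 z h.2 i (r.ok i c1) c3⟩, c2, c3⟩⟩
  have p1 : p₀ ∈ N := a5 _ ⟨fun _ h => h.2, fun i h => ⟨a6 i (r.ok i h.1) h.2, h.2⟩, fun _ h => h.2⟩
  obtain ⟨K, hK⟩ := (r.fI.image It.k).bddAbove
  have : ∀ z k, ∃ ζ < δ, ∀ i, Ok d i → i.k = k → z ∈ i.C → d.σ i.C < δ → d.σ i.B < ζ :=
    fun z k => by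
      by_cases h : ∃ i, Ok d i ∧ i.k = k ∧ z ∈ i.C ∧ d.σ i.C < δ
      · obtain ⟨i, ⟨-, ⟨j, c1⟩, -, -, c2, -⟩, rfl, c3, c4⟩ := h
        exact ⟨_, a2 _ c4, fun i' h1 h2 h3 _ =>
          d.g2 j _ _ c1 c2 _ (h2 ▸ h1.1) ⟨z, h1.2.2.1 h3, c3⟩⟩
      · exact ⟨_, a3, fun i h1 h2 h3 h4 => absurd ⟨i, h1, h2, h3, h4⟩ h⟩
  choose v v1 v2 using this
  obtain ⟨ξ, x1, x2⟩ := fbd a2 a3 (r.fZ.image2 v (finite_Iic K)) (forall_mem_image2.2 fun z _ k _ => v1 z k)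
  obtain ⟨t1, t2, t3⟩ := hw p₀ (e d ξ) D K ⟨r, r1, ⟨sep_subset _ _, sep_subset _ _, sep_subset _ _,
    fun z h i a b => ⟨a, b1 z h.2 i (r.ok i a) b⟩⟩, fun i h1 h2 => ⟨hK ⟨i, h1, rfl⟩, fun ζ h =>
      (show ζ = ξ from h) ▸ x1.le.trans (not_lt.1 fun a => h2 ⟨h1, r.sd δ rδ a2 i h1 a⟩)⟩⟩
  have t4 : w p₀ (e d ξ) D K ∈ N := hc _ p1 _ (a1 ξ x1) D (Or.inr hD) (Or.inr ⟨K, rfl⟩)
  generalize w p₀ (e d ξ) D K = t at t1 t2 t3 t4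
  obtain ⟨u1, u2, u3⟩ := a4 t t4
  refine ⟨t, t1, t4, ⟨t.a ∪ r.a, t.I ∪ r.I, t.Z ∪ r.Z, t.fa.union r.fa, t.fI.union r.fI,
    t.fZ.union r.fZ, fun i h => h.elim (t.ok i) (r.ok i), fun ζ h1 h2 i h3 h4 => ?_,
    fun z h n a => h.elim (fun h => (t.dn z h n a).imp fun i b => ⟨Or.inl b.1, b.2⟩)
      fun h => (r.dn z h n a).imp fun i b => ⟨Or.inr b.1, b.2⟩⟩,
    ⟨subset_union_left, subset_union_left, subset_union_left, fun z h i a b => a.elim id fun a =>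
      t2.2.1 ⟨a, b1 z (u3 z h) i (r.ok i a) b⟩⟩, le_trans (b := r)
    ⟨subset_union_right, subset_union_right, subset_union_right, fun z h i a b => ?_⟩ r2⟩
  · by_cases c : ζ < δ
    · have c1 : ζ ∈ t.a := h1.elim id fun h => t2.1 ⟨h, c⟩
      exact t.sd ζ c1 h2 i (h3.elim id fun h =>
        t2.2.1 ⟨h, r.sd δ rδ a2 i h (h4.trans c)⟩) h4
    · rcases h3 with h3 | h3
      · exact (u2 i h3).2.trans_le (not_lt.1 c)
      · exact r.sd ζ (h1.resolve_left fun h => c (u1 ζ h)) h2 i h3 h4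
  · refine a.elim (fun a => not_not.1 fun c => ?_) id
    obtain ⟨c1, c2⟩ := t3 i a fun h => c h.1
    exact not_lt.2 (c2 ξ rfl) ((v2 z _ i (t.ok i a) rfl b (u2 i a).2).trans
      (x2 _ (mem_image2_of_mem h c1)))

theorem gen (h : PFA1) (hX : #X ≤ ℵ_ 1)
    (hd : ∀ (x : X) (n : ℕ) (p : Co d), x ∉ p.Z → ∃ i : It X, Ok d i ∧ i.n = n ∧ x ∈ i.C ∧
      (∀ z ∈ p.Z, z ∉ i.C) ∧ ∀ δ ∈ p.a, (∀ ξ < δ, d.g ξ < δ) → d.σ i.B < δ → d.σ i.C < δ) :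
    ∃ I : Set (It X), (∀ i ∈ I, Ok d i) ∧ (∀ x, ∀ n ∈ d.T x, ∃ i ∈ I, i.n = n ∧ x ∈ i.C) ∧
      ∀ z, (d.T z).Finite → {i ∈ I | z ∈ i.C}.Finite := by
  let D1 : X × ℕ → Set (Co d) := fun t => {p | t.2 ∈ d.T t.1 → ∃ i ∈ p.I, i.n = t.2 ∧ t.1 ∈ i.C}
  let D2 : X → Set (Co d) := fun z => {p | (d.T z).Finite → z ∈ p.Z}
  have h1 : ∀ t, IsDense (D1 t) := fun ⟨x, n⟩ p => by
    by_cases e : x ∈ p.Z
    · exact ⟨p, p.dn x e n, le_rfl⟩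
    obtain ⟨i, a, b, c, f, g⟩ := hd x n p e
    exact ⟨⟨p.a, insert i p.I, p.Z, p.fa, p.fI.insert _, p.fZ, forall_mem_insert.2 ⟨a, p.ok⟩,
      fun δ h1 h2 => forall_mem_insert.2 ⟨g δ h1 h2, p.sd δ h1 h2⟩,
      fun z h n a => (p.dn z h n a).imp fun i b => ⟨Or.inr b.1, b.2⟩⟩,
      fun _ => ⟨i, Or.inl rfl, b, c⟩, subset_rfl, subset_insert _ _, subset_rfl,
      fun z h j a b => a.resolve_left fun e => f z h (e ▸ b)⟩
  have h2 : ∀ z, IsDense (D2 z) := fun z p => by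
    by_cases e : (d.T z).Finite
    swap
    · exact ⟨p, fun a => absurd a e, le_rfl⟩
    have : ∀ s : Set ℕ, s.Finite → ∃ q ≤ p, ∀ n ∈ s, q ∈ D1 (z, n) := fun s hs => by
      induction s, hs using Set.Finite.induction_on with
      | empty => exact ⟨p, le_rfl, by simp⟩
      | insert _ _ ih =>
        obtain ⟨q, a, b⟩ := ih
        obtain ⟨r, c, f⟩ := h1 (z, _) q
        exact ⟨r, f.trans a, forall_mem_insert.2 ⟨c, fun n h g =>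
          (b n h g).imp fun i k => ⟨f.2.1 k.1, k.2⟩⟩⟩
    obtain ⟨q, a, b⟩ := this _ e
    exact ⟨⟨q.a, q.I, insert z q.Z, q.fa, q.fI, q.fZ.insert _, q.ok, q.sd,
      forall_mem_insert.2 ⟨fun n h => b n h h, q.dn⟩⟩, fun _ => Or.inl rfl,
      le_trans (b := q) ⟨subset_rfl, subset_rfl, subset_insert _ _, fun _ _ _ h _ => h⟩ a⟩
  obtain ⟨G, -, g2, g3⟩ := h (Co d) card proper (range D1 ∪ range D2)
    ((mk_union_le _ _).trans ((add_le_add (mk_range_le.trans (show #(X × ℕ) ≤ ℵ_ 1 by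
      simpa using (mul_le_mul' hX aleph0_lt_aleph_one.le).trans_eq
        (mul_eq_self aleph0_lt_aleph_one.le))) (mk_range_le.trans hX)).trans_eq
          (add_eq_self aleph0_lt_aleph_one.le)))
    (by rintro _ (⟨t, rfl⟩ | ⟨t, rfl⟩); exacts [h1 t, h2 t])
  refine ⟨⋃ p ∈ G, p.I, fun i hi => ?_, fun x n hn => ?_, fun z hz => ?_⟩
  · obtain ⟨p, -, a⟩ := mem_iUnion₂.1 hi
    exact p.ok i a
  · obtain ⟨p, a, b⟩ := g3 _ (Or.inl ⟨(x, n), rfl⟩)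
    exact (b hn).imp fun i c => ⟨mem_biUnion a c.1, c.2⟩
  · obtain ⟨p, a, b⟩ := g3 _ (Or.inr ⟨z, rfl⟩)
    refine p.fI.subset fun i hi => ?_
    obtain ⟨q, c, f⟩ := mem_iUnion₂.1 hi.1
    obtain ⟨r, -, r1, r2⟩ := g2 p a q c
    exact r1.2.2.2 z (b hz) i (r2.2.1 f) hi.2

end Pool.Agent.H33.SLC2
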