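import Pool.Agent.H33.SLC2

/-! Spaces of size `ℵ₁` with a `σ`-locally countable base under the forcing axiom. -/

open Set Filter Topology Cardinal Pool.Agent.H33.DiaDefs Pool.Agent.H33.SLC1

namespace Pool.Agent.H33.SLC3

theorem core (h : PFA1) {X : Type} [TopologicalSpace X] [T1Space X] (hX : #X ≤ ℵ_ 1)
    (b : ℕ → Set (Set X)) (hb : TopologicalSpace.IsTopologicalBasis (⋃ n, b n))
    (hl : ∀ n x, ∃ V ∈ 𝓝 x, {B ∈ b n | (B ∩ V).Nonempty}.Countable)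
    (U : Set (Set X)) (hU : ∀ x, ∃ u ∈ U, u ∈ 𝓝 x) (T : X → Set ℕ) :
    ∃ I : Set (It X), (∀ i ∈ I, IsOpen i.C ∧ ∃ u ∈ U, i.C ⊆ u) ∧
      (∀ x, ∀ n ∈ T x, ∃ i ∈ I, i.n = n ∧ x ∈ i.C) ∧
      ∀ z, (T z).Finite → {i ∈ I | z ∈ i.C}.Finite := by
  classical
  have := unc
  obtain ⟨τ⟩ := (le_def _ _).1 (hX.trans_eq mk_W.symm)
  choose V V1 V2 using hl
  have pc : ∀ z, {B | (∃ k, B ∈ b k) ∧ z ∈ B}.Countable := fun z =>
    (countable_iUnion fun k => V2 k z).mono fun B ⟨⟨k, a⟩, c⟩ => by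
      refine mem_iUnion.2 ⟨k, ?_⟩
      exact ⟨a, z, c, mem_of_mem_nhds (V1 k z)⟩
  let σ : Set X → W := fun B => if h : B.Nonempty then τ h.some else Classical.arbitrary W
  have cτ : ∀ ξ, {z | τ z < ξ}.Countable := fun ξ => (cnt ξ).preimage τ.injective
  have cσ : ∀ ξ, {B | (∃ k, B ∈ b k) ∧ σ B < ξ}.Countable := fun ξ =>
    (((cτ ξ).biUnion fun z _ => pc z).insert ∅).mono fun B ⟨a, c⟩ =>
      B.eq_empty_or_nonempty.imp_right fun e => by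
        refine mem_biUnion (show τ e.some < ξ by simpa [σ, e] using c) ?_
        exact ⟨a, e.some_mem⟩
  choose s hs using fun ξ : W => DT1.bd cnt _ (countable_singleton ξ)
  choose g hg using fun ξ : W => DT1.bd cnt _ (((((cτ (s ξ)).biUnion fun z _ => pc z).union
    ((cσ (s ξ)).biUnion fun C _ => countable_iUnion fun k => (show
      {B | {B ∈ b k | (B ∩ C).Nonempty}.Countable ∧ B ∈ b k ∧ (B ∩ C).Nonempty}.Countable from by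
        by_cases e : {B ∈ b k | (B ∩ C).Nonempty}.Countable
        · exact e.mono fun B h => h.2
        · simp [e]))).image σ).insert ξ)
  let d : Data X := ⟨b, U, T, σ, τ, g, cσ, cτ, fun ξ => hg ξ ξ (Or.inl rfl),
    fun z k B a c => hg _ _ (Or.inr ⟨B, Or.inl (mem_biUnion (hs _ _ rfl) ⟨⟨k, a⟩, c⟩), rfl⟩),
    fun j k C a c B e f => hg _ _ (Or.inr ⟨B, Or.inr (mem_biUnion (x := C) ⟨⟨j, a⟩, hs _ _ rfl⟩
      (mem_iUnion.2 ⟨k, c, e, f⟩)), rfl⟩)⟩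
  obtain ⟨I, a1, a2, a3⟩ := SLC2.gen (d := d) h hX fun x n p hx => by
    have : ∀ δ, ∃ j, (∃ j, ∃ C ∈ b j, x ∈ C ∧ δ ≤ σ C) → ∃ C ∈ b j, x ∈ C ∧ δ ≤ σ C := fun δ => by
      by_cases e : ∃ j, ∃ C ∈ b j, x ∈ C ∧ δ ≤ σ C
      · exact e.imp fun j a _ => a
      · exact ⟨0, fun a => absurd a e⟩
    choose j hj using this
    obtain ⟨u, u1, u2⟩ := hU x
    obtain ⟨B, b1, b2, b3⟩ := hb.mem_nhds_iff.1 (inter_mem (inter_mem u2
      (p.fZ.isClosed.isOpen_compl.mem_nhds hx)) ((biInter_mem p.fa).2 fun δ _ => V1 (j δ) x))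
    obtain ⟨k, b4⟩ := mem_iUnion.1 b1
    obtain ⟨C, c1, c2, c3⟩ := hb.mem_nhds_iff.1 (inter_mem (hb.mem_nhds b1 b2) (V1 k x))
    obtain ⟨l, c4⟩ := mem_iUnion.1 c1
    have m : ∀ k (D : Set X), D ⊆ V k x → {B ∈ b k | (B ∩ D).Nonempty}.Countable := fun k D h =>
      (V2 k x).mono fun E a => And.intro a.1 (a.2.mono (inter_subset_inter_right _ h))
    refine ⟨⟨B, k, C, n⟩, ⟨b4, ⟨l, c4⟩, fun y hy => (c3 hy).1, ⟨x, c2⟩, m _ _
      fun y hy => (c3 hy).2, u, u1, fun y hy => (b3 (c3 hy).1).1.1⟩, rfl, c2,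
      fun z hz e => (b3 (c3 e).1).1.2 hz, fun δ h1 h2 h3 => not_le.1 fun e => ?_⟩
    obtain ⟨E, e1, e2, e3⟩ := hj δ ⟨l, C, c4, c2, e⟩
    exact not_lt.2 e3 ((d.g2 k (j δ) B b4 (m _ _ fun y hy =>
      mem_iInter₂.1 (b3 hy).2 δ h1) E e1 ⟨x, e2, b2⟩).trans (h2 _ h3))
  exact ⟨I, fun i hi => ⟨hb.isOpen (mem_iUnion.2 (a1 i hi).2.1), (a1 i hi).2.2.2.2.2⟩, a2, a3⟩

end Pool.Agent.H33.SLC3
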