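import Mathlib

/-! Metrization of collectionwise normal metacompact spaces with a `σ`-locally countable base in
which every set is an `F_σ`. -/

open Set Filter Topology TopologicalSpace

namespace Pool.Agent.H33.SLC4

theorem metr {X : Type} [TopologicalSpace X] [T0Space X] {κ ι : Type} [Countable κ]
    (F : κ → ι → X → ℝ) (hF : ∀ k, Equicontinuous (F k))
    (h : ∀ x, ∀ N ∈ 𝓝 x, ∃ k i, F k i x = 1 ∧ ∀ y ∉ N, F k i y = 0) : MetrizableSpace X := by
  let φ : X → κ → UniformFun ι ℝ := fun x k => UniformFun.ofFun fun i => F k i x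
  have hc : Continuous φ := continuous_pi fun k => equicontinuous_iff_continuous.1 (hF k)
  have : IsInducing φ := isInducing_iff_nhds.2 fun x => le_antisymm
    (hc.tendsto x).le_comap fun N hN => by
      obtain ⟨k, i, a, c⟩ := h x N hN
      have e : Continuous fun ψ : κ → UniformFun ι ℝ => UniformFun.toFun (ψ k) i :=
        (UniformFun.uniformContinuous_eval ℝ i).continuous.comp (continuous_apply k)
      refine mem_comap.2 ⟨_, (isOpen_lt (continuous_const (y := 0)) e).mem_nhds ?_,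
        fun y hy => not_not.1 fun n => ?_⟩
      · show 0 < F k i x
        rw [a]; exact one_pos
      · have : 0 < F k i y := hy
        rw [c y n] at this; exact lt_irrefl _ this
  have := this.pseudoMetrizableSpace
  infer_instance

/-- collectionwise normality -/
def CWN (X : Type) [TopologicalSpace X] : Prop :=
  ∀ (ι : Type) (F : ι → Set X), (∀ i, IsClosed (F i)) →
    (∀ x : X, ∃ U ∈ 𝓝 x, ∀ i j, (F i ∩ U).Nonempty → (F j ∩ U).Nonempty → i = j) →
    ∃ V : ι → Set X, (∀ i, IsOpen (V i)) ∧ (∀ i, F i ⊆ V i) ∧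
      Pairwise (fun i j => Disjoint (V i) (V j))

theorem CWN.normal {X : Type} [TopologicalSpace X] (h : CWN X) : NormalSpace X := by
  refine ⟨fun s t hs ht hd => ?_⟩
  obtain ⟨V, a, b, c⟩ := h Bool (fun i => cond i s t) (fun i => by cases i <;> assumption)
    fun x => by
      by_cases e : x ∈ s
      · refine ⟨tᶜ, ht.isOpen_compl.mem_nhds (disjoint_left.1 hd e), fun i j => ?_⟩
        cases i <;> cases j <;> simp
      · refine ⟨sᶜ, hs.isOpen_compl.mem_nhds e, fun i j => ?_⟩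
        cases i <;> cases j <;> simp
  exact ⟨V true, V false, a _, a _, b true, b false, c (by simp)⟩

theorem step {X : Type} [TopologicalSpace X] (h : CWN X) {c : Set (Set X)}
    (ho : ∀ C ∈ c, IsOpen C) (hf : ∀ x, {C ∈ c | x ∈ C}.Finite) {m : ℕ} {H : Set X}
    (hH : IsClosed H) (hm : ∀ x ∈ H, {C ∈ c | x ∈ C}.ncard = m) :
    ∃ V : Set (Set X) → Set X, (∀ i, IsOpen (V i)) ∧ (∀ x ∈ H, x ∈ V {C ∈ c | x ∈ C}) ∧
      Pairwise (fun i j => Disjoint (V i) (V j)) := by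
  have k : ∀ x, ∃ U ∈ 𝓝 x, ∀ y ∈ U, y ∈ H → x ∈ H ∧ {C ∈ c | y ∈ C} = {C ∈ c | x ∈ C} := by
    intro x
    by_cases e : x ∈ H
    · refine ⟨_, (sInter_mem (hf x)).2 fun C a => (ho C a.1).mem_nhds a.2, fun y a b => ⟨e, ?_⟩⟩
      refine (eq_of_subset_of_ncard_le (fun C d => ?_) ((hm y b).trans (hm x e).symm).le
        (hf y)).symm
      exact ⟨d.1, a C d⟩
    · exact ⟨_, hH.isOpen_compl.mem_nhds e, fun y a b => absurd b a⟩
  obtain ⟨V, a, b, d⟩ := h (Set (Set X)) (fun t => {x ∈ H | {C ∈ c | x ∈ C} = t})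
    (fun t => isOpen_compl_iff.1 (isOpen_iff_mem_nhds.2 fun x hx => by
      obtain ⟨U, u1, u2⟩ := k x
      exact mem_of_superset u1 fun y hy e => hx ⟨(u2 y hy e.1).1, (u2 y hy e.1).2.symm.trans e.2⟩))
    fun x => (k x).imp fun U u => ⟨u.1, fun i j ⟨y, y1, y2⟩ ⟨z, z1, z2⟩ =>
      y1.2.symm.trans ((u.2 y y2 y1.1).2.trans ((u.2 z z2 z1.1).2.symm.trans z1.2))⟩
  exact ⟨V, a, fun x hx => b _ ⟨hx, rfl⟩, d⟩

theorem equi {X ι : Type} [TopologicalSpace X] {V : ι → Set X} (ho : ∀ i, IsOpen (V i))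
    (hd : Pairwise (fun i j => Disjoint (V i) (V j))) {g : X → ℝ} (hg : Continuous g)
    (h0 : ∀ x, (∀ i, x ∉ V i) → g x = 0) : Equicontinuous fun i => (V i).indicator g := by
  intro x
  refine Metric.equicontinuousAt_iff_right.2 fun ε hε => ?_
  have e : ∀ᶠ y in 𝓝 x, dist (g x) (g y) < ε := by
    simpa only [dist_comm] using Metric.tendsto_nhds.1 (hg.tendsto x) ε hε
  by_cases a : ∃ i, x ∈ V i
  · obtain ⟨i, a⟩ := a
    filter_upwards [e, (ho i).mem_nhds a] with y b c j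
    by_cases f : i = j
    · subst f
      rwa [indicator_of_mem a, indicator_of_mem c]
    · rwa [indicator_of_notMem (disjoint_left.1 (hd f) a),
        indicator_of_notMem (disjoint_left.1 (hd f) c), dist_self]
  · push Not at a
    filter_upwards [e] with y b j
    rw [indicator_of_notMem (a j)]
    by_cases f : y ∈ V j
    · rwa [indicator_of_mem f, ← h0 x a]
    · rwa [indicator_of_notMem f, dist_self]

theorem main {X : Type} [TopologicalSpace X] [T1Space X] (h : CWN X) (hG : ∀ A : Set X, IsGδ A)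
    (b : ℕ → Set (Set X)) (hb : IsTopologicalBasis (⋃ n, b n)) (c : ℕ → Set (Set X))
    (ho : ∀ n, ∀ C ∈ c n, IsOpen C ∧ {B ∈ b n | (B ∩ C).Nonempty}.Countable)
    (hc : ∀ n x, ∃ C ∈ c n, x ∈ C) (hf : ∀ n x, {C ∈ c n | x ∈ C}.Finite) : MetrizableSpace X := by
  have := h.normal
  have fs : ∀ A : Set X, ∃ H : ℕ → Set X, (∀ l, IsClosed (H l) ∧ H l ⊆ A) ∧
      ∀ x ∈ A, ∃ l, x ∈ H l := fun A => by
    obtain ⟨f, f1, f2⟩ := isGδ_iff_eq_iInter_nat.1 (hG Aᶜ)
    refine ⟨fun l => (f l)ᶜ, fun l => ⟨(f1 l).isClosed_compl, compl_subset_comm.1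
      (f2.le.trans (iInter_subset _ _))⟩, fun x hx => not_not.1 fun e => ?_⟩
    exact f2.ge (mem_iInter.2 fun l => not_not.1 fun a => e ⟨l, a⟩) hx
  choose H H1 H2 using fs
  choose V V1 V2 V3 using fun n m l => step h (fun C a => (ho n C a).1) (hf n)
    (H1 {x | {C ∈ c n | x ∈ C}.ncard = m} l).1 (H1 _ l).2
  have en : ∀ n (t : Set (Set X)), ∃ e : ℕ → Set X, (∀ k, IsOpen (e k)) ∧
      ({B ∈ b n | (B ∩ ⋂₀ t).Nonempty}.Countable →
        ∀ B ∈ b n, (B ∩ ⋂₀ t).Nonempty → ∃ k, e k = B) := fun n t => by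
    by_cases a : {B ∈ b n | (B ∩ ⋂₀ t).Nonempty}.Countable
    · obtain ⟨e, he⟩ := (a.insert ∅).exists_eq_range (insert_nonempty _ _)
      refine ⟨e, fun k => ?_, fun _ B b1 b2 => he.le (Or.inr ⟨b1, b2⟩)⟩
      rcases he.ge ⟨k, rfl⟩ with d | d
      · rw [d]; exact isOpen_empty
      · exact hb.isOpen (mem_iUnion.2 ⟨n, d.1⟩)
    · exact ⟨fun _ => ∅, fun _ => isOpen_empty, fun d => absurd d a⟩
  choose e e1 e2 using en
  choose g g0 g1 _ using fun n m l k j => exists_continuous_zero_one_of_isClosed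
    (isOpen_iUnion fun t => (V1 n m l t).inter (e1 n t k)).isClosed_compl
    (H1 (⋃ t, V n m l t ∩ e n t k) j).1 (disjoint_compl_left_iff_subset.2 (H1 _ j).2)
  refine metr (κ := ℕ × ℕ × ℕ × ℕ × ℕ) (fun p t => (V p.1 p.2.1 p.2.2.1 t).indicator
    (g p.1 p.2.1 p.2.2.1 p.2.2.2.1 p.2.2.2.2)) (fun p => equi (V1 _ _ _) (V3 _ _ _)
      (g _ _ _ _ _).continuous fun x hx => g0 _ _ _ _ _ fun a => ?_) fun x N hN => ?_
  · obtain ⟨t, a⟩ := mem_iUnion.1 a
    exact hx t a.1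
  obtain ⟨B, b1, b2, b3⟩ := hb.mem_nhds_iff.1 hN
  obtain ⟨n, b4⟩ := mem_iUnion.1 b1
  obtain ⟨l, hl⟩ := H2 {y | {C ∈ c n | y ∈ C}.ncard = {C ∈ c n | x ∈ C}.ncard} x rfl
  obtain ⟨C, c1, c2⟩ := hc n x
  obtain ⟨k, hk⟩ := e2 n {C ∈ c n | x ∈ C} ((ho n C c1).2.mono fun D d => And.intro d.1
    (d.2.mono (inter_subset_inter_right _ (sInter_subset_of_mem (by exact ⟨c1, c2⟩))))) B b4
    ⟨x, b2, fun D d => d.2⟩
  have v := V2 n _ l x hl
  obtain ⟨j, hj⟩ := H2 (⋃ t, V n {C ∈ c n | x ∈ C}.ncard l t ∩ e n t k) x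
    (mem_iUnion.2 ⟨_, v, hk.ge b2⟩)
  refine ⟨(n, _, l, k, j), {C ∈ c n | x ∈ C}, (indicator_of_mem v _).trans (g1 _ _ _ _ _ hj),
    fun y hy => indicator_apply_eq_zero.2 fun a => g0 _ _ _ _ _ fun d => ?_⟩
  obtain ⟨t, d1, d2⟩ := mem_iUnion.1 d
  obtain rfl : t = {C ∈ c n | x ∈ C} := not_not.1 fun f => disjoint_left.1 (V3 _ _ _ f) d1 a
  exact hy (b3 (hk.le d2))

end Pool.Agent.H33.SLC4
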