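import Pool.Agent.H33.SLC3

/-! Spaces locally of size `ℵ₁` with a `σ`-locally countable base under the forcing axiom. -/

open Set Filter Topology Cardinal Pool.Agent.H33.SLC1

namespace Pool.Agent.H33.SLC5

theorem bu {ι X : Type} {s : Set ι} {f : ι → Set X} (hs : #s ≤ ℵ_ 1) (hf : ∀ i ∈ s, #(f i) ≤ ℵ_ 1) :
    #(⋃ i ∈ s, f i) ≤ ℵ_ 1 :=
  (mk_biUnion_le f s).trans ((mul_le_mul' hs (ciSup_le' fun i : s => hf i i.2)).trans_eq
    (mul_eq_self aleph0_lt_aleph_one.le))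

theorem pieces {X : Type} [TopologicalSpace X] (hX : ∀ x : X, ∃ V ∈ 𝓝 x, #V ≤ ℵ_ 1)
    {b : Set (Set X)} (hb : TopologicalSpace.IsTopologicalBasis b)
    (pc : ∀ z, {B ∈ b | z ∈ B}.Countable) : ∃ Y : X → Set X,
    (∀ x, IsOpen (Y x) ∧ x ∈ Y x ∧ #(Y x) ≤ ℵ_ 1) ∧ ∀ x y z, z ∈ Y x → z ∈ Y y → Y x = Y y := by
  let r : X → X → Prop := fun x y => ∃ B ∈ b, #B ≤ ℵ_ 1 ∧ x ∈ B ∧ y ∈ B
  have sy : ∀ x y, Relation.ReflTransGen r x y → Relation.ReflTransGen r y x := fun x y h => by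
    induction h with
    | refl => rfl
    | tail _ a ih => exact .head (a.imp fun B c => ⟨c.1, c.2.1, c.2.2.2, c.2.2.1⟩) ih
  refine ⟨fun x => {y | Relation.ReflTransGen r x y}, fun x => ⟨isOpen_iff_mem_nhds.2 fun y hy => ?_,
    Relation.ReflTransGen.refl, ?_⟩, fun x y z a c => Subset.antisymm
      (fun w d => (c.trans (sy _ _ a)).trans d) fun w d => (a.trans (sy _ _ c)).trans d⟩
  · obtain ⟨V, v1, v2⟩ := hX y
    obtain ⟨B, b1, b2, b3⟩ := hb.mem_nhds_iff.1 v1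
    exact mem_of_superset (hb.mem_nhds b1 b2) fun z hz =>
      Relation.ReflTransGen.tail hy ⟨B, b1, (mk_le_mk_of_subset b3).trans v2, b2, hz⟩
  let S : ℕ → Set X := fun n => Nat.rec {x}
    (fun _ s => ⋃ y ∈ s, ⋃ B ∈ {B | B ∈ b ∧ #B ≤ ℵ_ 1 ∧ y ∈ B}, B) n
  have hS : ∀ n, #↥(S n) ≤ ℵ_ 1 := fun n => by
    induction n with
    | zero => exact (mk_singleton x).trans_le (one_le_aleph0.trans aleph0_lt_aleph_one.le)
    | succ n ih =>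
      refine bu ih fun y _ => bu ((le_aleph0_iff_set_countable.2 ((pc y).mono fun B c =>
        ?_)).trans aleph0_lt_aleph_one.le) fun B c => c.2.1
      exact ⟨c.1, c.2.2⟩
  refine (mk_le_mk_of_subset fun y hy => ?_).trans (bu (s := Set.univ) (f := S)
    (mk_le_aleph0.trans aleph0_lt_aleph_one.le) fun n _ => hS n)
  induction hy with
  | refl => exact mem_biUnion (mem_univ 0) rfl
  | tail _ a ih =>
    obtain ⟨n, -, hn⟩ := mem_iUnion₂.1 ih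
    obtain ⟨B, b1, b2, b3, b4⟩ := a
    exact mem_biUnion (mem_univ (n + 1)) (mem_biUnion hn (mem_biUnion (x := B) ⟨b1, b2, b3⟩ b4))

theorem core (h : PFA1) {X : Type} [TopologicalSpace X] [T1Space X]
    (hX : ∀ x : X, ∃ V ∈ 𝓝 x, #V ≤ ℵ_ 1)
    (b : ℕ → Set (Set X)) (hb : TopologicalSpace.IsTopologicalBasis (⋃ n, b n))
    (hl : ∀ n x, ∃ V ∈ 𝓝 x, {B ∈ b n | (B ∩ V).Nonempty}.Countable)
    (U : Set (Set X)) (hU : ∀ x, ∃ u ∈ U, u ∈ 𝓝 x) (T : X → Set ℕ) :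
    ∃ I : Set (Set X × ℕ), (∀ i ∈ I, IsOpen i.1 ∧ ∃ u ∈ U, i.1 ⊆ u) ∧
      (∀ x, ∀ n ∈ T x, ∃ i ∈ I, i.2 = n ∧ x ∈ i.1) ∧
      ∀ z, (T z).Finite → {i ∈ I | z ∈ i.1}.Finite := by
  obtain ⟨Y, y1, y2⟩ := pieces hX hb fun z => by
    choose V V1 V2 using hl
    refine (countable_iUnion fun k => V2 k z).mono fun B c => ?_
    obtain ⟨k, a⟩ := mem_iUnion.1 c.1
    refine mem_iUnion.2 ⟨k, ?_⟩
    exact ⟨a, z, c.2, mem_of_mem_nhds (V1 k z)⟩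
  choose I a1 a2 a3 using fun (P : Set X) (hP : #P ≤ ℵ_ 1) => SLC3.core h (X := P) hP
    (fun n => preimage Subtype.val '' b n) (image_iUnion ▸ hb.induced Subtype.val)
    (fun n x => by
      obtain ⟨V, v1, v2⟩ := hl n x
      refine ⟨_, continuous_subtype_val.continuousAt.preimage_mem_nhds v1,
        (v2.image (preimage Subtype.val)).mono ?_⟩
      rintro _ ⟨⟨B, b1, rfl⟩, z, b2⟩
      exact ⟨B, ⟨b1, z, b2⟩, rfl⟩) (preimage Subtype.val '' U) (fun x => by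
      obtain ⟨u, u1, u2⟩ := hU x
      exact ⟨_, ⟨u, u1, rfl⟩, continuous_subtype_val.continuousAt.preimage_mem_nhds u2⟩)
    fun x => T x
  refine ⟨⋃ x, (fun i => (Subtype.val '' i.C, i.n)) '' I (Y x) (y1 x).2.2, fun i hi => ?_,
    fun x n hn => ?_, fun z hz => (((a3 (Y z) (y1 z).2.2 ⟨z, (y1 z).2.1⟩ hz).image
      fun i => (Subtype.val '' i.C, i.n)).subset fun i hi => ?_)⟩
  · obtain ⟨x, i, c, rfl⟩ := mem_iUnion.1 hi
    obtain ⟨d, _, ⟨u, u1, rfl⟩, u2⟩ := a1 _ _ i c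
    exact ⟨(y1 x).1.isOpenMap_subtype_val _ d, u, u1, image_subset_iff.2 u2⟩
  · obtain ⟨i, c1, c2, c3⟩ := a2 (Y x) (y1 x).2.2 ⟨x, (y1 x).2.1⟩ n hn
    exact ⟨_, mem_iUnion.2 ⟨x, i, c1, rfl⟩, c2, _, c3, rfl⟩
  · obtain ⟨x, i, c, rfl⟩ := mem_iUnion.1 hi.1
    obtain ⟨w, w1, w2⟩ := hi.2
    have e := y2 x z z (w2 ▸ w.2) (y1 z).2.1
    have k : ∀ (P Q : Set X) (hP : #P ≤ ℵ_ 1) (hQ : #Q ≤ ℵ_ 1) (hz : z ∈ Q), P = Q → ∀ i ∈ I P hP,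
        ∀ w ∈ i.C, w.1 = z → (Subtype.val '' i.C, i.n) ∈
          (fun i => (Subtype.val '' i.C, i.n)) '' {i ∈ I Q hQ | ⟨z, hz⟩ ∈ i.C} := by
      rintro P _ hP hQ hz rfl i c w w1 rfl
      exact ⟨i, ⟨c, w1⟩, rfl⟩
    exact k _ _ _ _ _ e i c w w1 w2

end Pool.Agent.H33.SLC5
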