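import Mathlib
import Pool.Agent.H33.CpCp

/-!
A Hausdorff topological semilattice whose maximal chains are s-complete but which is not s-complete.
-/

open Set Filter Topology

namespace Pool.Agent.H33.SLat

open Pool.Agent.H33.NoEmb Pool.Agent.H33.CpCp

abbrev J : Type := T1 ×ₗ Bool

def II (A : Set T1) : Set J := {j | ∃ x ∈ A, j ≤ toLex (x, true)}

@[ext] structure X where
  A : Set T1
  I : Set J
  low : IsLowerSet I
  h : A = univ ∨ (A.Finite ∧ I = II A)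

instance : SemilatticeInf X where
  le z w := w.A ⊆ z.A ∧ w.I ⊆ z.I
  le_refl z := ⟨Subset.rfl, Subset.rfl⟩
  le_trans _ _ _ h k := ⟨k.1.trans h.1, k.2.trans h.2⟩
  le_antisymm _ _ h k := X.ext (k.1.antisymm h.1) (k.2.antisymm h.2)
  inf z w := ⟨z.A ∪ w.A, z.I ∪ w.I, z.low.union w.low, by
    rcases z.h with h | h
    · left; simp [h]
    rcases w.h with k | k
    · left; simp [k]
    refine Or.inr ⟨h.1.union k.1, ?_⟩
    rw [h.2, k.2]
    ext j
    simp only [II, mem_union, mem_ofPred_eq, or_and_right, exists_or]⟩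
  inf_le_left _ _ := ⟨subset_union_left, subset_union_left⟩
  inf_le_right _ _ := ⟨subset_union_right, subset_union_right⟩
  le_inf _ _ _ h k := ⟨union_subset h.1 k.1, union_subset h.2 k.2⟩

theorem le_def {z w : X} : z ≤ w ↔ w.A ⊆ z.A ∧ w.I ⊆ z.I := Iff.rfl

theorem inf_I (z w : X) : (z ⊓ w).I = z.I ∪ w.I := rfl

theorem inf_A (z w : X) : (z ⊓ w).A = z.A ∪ w.A := rfl

def U : Set X := {z | z.I = univ ∨ ∃ γ, toLex (γ, false) ∈ z.I ∧ toLex (γ, true) ∉ z.I}

def G : Set (Set X) := {s | (∃ j, s = {z | j ∈ z.I}) ∨ (∃ j, s = {z | j ∉ z.I}) ∨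
  (∃ z : X, z.A.Finite ∧ s = {z}) ∨ (∃ z : X, z.A.Finite ∧ s = {z}ᶜ) ∨ s = U}

instance : TopologicalSpace X := .generateFrom G

theorem op {s : Set X} (h : s ∈ G) : IsOpen s := .basic _ h

theorem op1 (j : J) : IsOpen {z : X | j ∈ z.I} := op (.inl ⟨j, rfl⟩)
theorem op2 (j : J) : IsOpen {z : X | j ∉ z.I} := op (.inr (.inl ⟨j, rfl⟩))
theorem op3 {z : X} (h : z.A.Finite) : IsOpen {z} := op (.inr (.inr (.inl ⟨z, h, rfl⟩)))
theorem op4 {z : X} (h : z.A.Finite) : IsOpen ({z}ᶜ : Set X) :=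
  op (.inr (.inr (.inr (.inl ⟨z, h, rfl⟩))))
theorem op5 : IsOpen U := op (.inr (.inr (.inr (.inr rfl))))

theorem fin_I {z : X} (h : z.A.Finite) : z.I = II z.A :=
  (z.h.resolve_left fun e => infinite_univ (e ▸ h)).2

theorem fin_ext {z w : X} (h : z.A.Finite) (e : z.A = w.A) : z = w :=
  X.ext e (by rw [fin_I h, fin_I (e ▸ h), e])

theorem inf_univ {z : X} (h : ¬ z.A.Finite) : z.A = univ := z.h.resolve_right fun k => h k.1

theorem ici_fin {s : X} (h : s.A.Finite) : (Ici s).Finite :=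
  Finite.of_finite_image (f := X.A) (h.powerset.subset (by
    rintro _ ⟨z, hz, rfl⟩; exact hz.1)) fun _ hz _ _ e => fin_ext (h.subset hz.1) e

theorem ici_closed {s : X} (h : s.A.Finite) : IsOpen (Ici s)ᶜ := by
  rw [← biUnion_of_singleton (Ici s), compl_iUnion₂]
  exact (ici_fin h).isOpen_biInter fun z hz => op4 (h.subset hz.1)

instance : T2Space X := by
  refine ⟨fun z w hne => ?_⟩
  by_cases hz : z.A.Finite
  · exact ⟨_, _, op3 hz, op4 hz, rfl, hne.symm, disjoint_compl_right⟩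
  by_cases hw : w.A.Finite
  · exact ⟨_, _, op4 hw, op3 hw, hne, rfl, disjoint_compl_left⟩
  have : z.I ≠ w.I := fun e => hne (X.ext (by rw [inf_univ hz, inf_univ hw]) e)
  obtain ⟨j, hj⟩ := not_forall.1 (mt Set.ext this)
  by_cases h : j ∈ z.I
  · exact ⟨_, _, op1 j, op2 j, h, fun k => hj (iff_of_true h k),
      disjoint_left.2 fun _ a b => b a⟩
  · exact ⟨_, _, op2 j, op1 j, h, by_contra fun k => hj (iff_of_false h k),
      disjoint_left.2 fun _ a b => a b⟩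

theorem box {s : Set X} {p : X × X} (V W : Set X) (hV : IsOpen V) (hW : IsOpen W) (h1 : p.1 ∈ V)
    (h2 : p.2 ∈ W) (h : ∀ a ∈ V, ∀ b ∈ W, a ⊓ b ∈ s) :
    (fun q : X × X => q.1 ⊓ q.2) ⁻¹' s ∈ 𝓝 p :=
  mem_of_superset ((hV.prod hW).mem_nhds ⟨h1, h2⟩) fun _ hq => h _ hq.1 _ hq.2

theorem U_inf {a b : X} (ha : a ∈ U) (h : b.I ⊆ a.I) : a ⊓ b ∈ U ∧ b ⊓ a ∈ U := by
  simp only [U, mem_ofPred_eq, inf_I, union_eq_left.2 h, union_eq_right.2 h] at ha ⊢
  exact ⟨ha, ha⟩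

theorem sub_of {a b : X} {j : J} (ha : j ∈ a.I) (hb : j ∉ b.I) : b.I ⊆ a.I := fun _ hk =>
  a.low (le_of_not_ge fun h => hb (b.low h hk)) ha

theorem U_both {a b : X} (ha : a ∈ U) (hb : b ∈ U) : a ⊓ b ∈ U := by
  rcases a.low.total b.low with h | h
  · exact (U_inf hb h).2
  · exact (U_inf ha h).1

instance : ContinuousInf X := by
  refine ⟨continuous_iff_continuousAt.2 fun p => TopologicalSpace.tendsto_nhds_generateFrom_iff.2 ?_⟩
  rintro s (⟨j, rfl⟩ | ⟨j, rfl⟩ | ⟨z, hz, rfl⟩ | ⟨z, hz, rfl⟩ | rfl) hp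
  · rcases hp with h | h
    · exact box _ _ (op1 j) isOpen_univ h trivial fun a ha b _ => .inl ha
    · exact box _ _ isOpen_univ (op1 j) trivial h fun a _ b hb => .inr hb
  · exact box _ _ (op2 j) (op2 j) (fun h => hp (.inl h)) (fun h => hp (.inr h))
      fun a ha b hb h => h.elim ha hb
  · have e : p.1 ⊓ p.2 = z := hp
    have h : (p.1.A ∪ p.2.A).Finite := by rw [← inf_A, e]; exact hz
    refine box _ _ (op3 (h.subset subset_union_left)) (op3 (h.subset subset_union_right)) rfl rfl ?_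
    rintro _ rfl _ rfl; exact e
  · by_cases h1 : z ≤ p.1
    · by_cases h2 : z ≤ p.2
      · refine box _ _ (op3 (hz.subset h1.1)) (op3 (hz.subset h2.1)) rfl rfl ?_
        rintro _ rfl _ rfl; exact hp
      · exact box _ _ isOpen_univ (ici_closed hz) trivial h2 fun a _ b hb e =>
          hb (le_trans (le_of_eq (Eq.symm e)) inf_le_right)
    · exact box _ _ (ici_closed hz) isOpen_univ h1 trivial fun a ha b _ e =>
          ha (le_trans (le_of_eq (Eq.symm e)) inf_le_left)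
  · by_cases h1 : p.1 ∈ U
    · by_cases h2 : p.2 ∈ U
      · exact box _ _ op5 op5 h1 h2 fun a ha b hb => U_both ha hb
      · have : ¬ p.1.I ⊆ p.2.I := fun h => h2 (by
          simpa only [U, mem_ofPred_eq, inf_I, union_eq_right.2 h] using hp)
        obtain ⟨j, j1, j2⟩ := not_subset.1 this
        exact box _ _ (op5.inter (op1 j)) (op2 j) ⟨h1, j1⟩ j2 fun a ha b hb =>
          (U_inf ha.1 (sub_of ha.2 hb)).1
    · have : ¬ p.2.I ⊆ p.1.I := fun h => h1 (by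
          simpa only [U, mem_ofPred_eq, inf_I, union_eq_left.2 h] using hp)
      obtain ⟨j, j1, j2⟩ := not_subset.1 this
      have h2 : p.2 ∈ U := by
        simpa only [U, mem_ofPred_eq, inf_I, union_eq_right.2 (sub_of j1 j2)] using hp
      exact box _ _ (op2 j) (op5.inter (op1 j)) j2 ⟨h2, j1⟩ fun a ha b hb =>
          (U_inf hb.1 (sub_of hb.2 ha)).2

instance : NoMaxOrder T1 := ⟨fun b => by
  by_contra h
  push Not at h
  exact not_countable_univ (((T1_iio b).insert b).mono fun c _ => (h c).eq_or_lt)⟩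

theorem fin_notU {z : X} (h : z.A.Finite) : z ∉ U := by
  rintro (e | ⟨γ, h1, h2⟩)
  · obtain ⟨b, hb⟩ := T1_bdd h.countable
    obtain ⟨c, hc⟩ := exists_gt b
    have : toLex (c, false) ∈ z.I := e ▸ trivial
    rw [fin_I h] at this
    obtain ⟨x, hx, hle⟩ := this
    exact (hc.trans_le (Prod.Lex.monotone_fst _ _ hle)).not_ge (hb hx)
  · rw [fin_I h] at h1 h2
    obtain ⟨x, hx, hle⟩ := h1
    refine h2 ⟨x, hx, ?_⟩
    have : γ ≤ x := Prod.Lex.monotone_fst _ _ hle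
    rcases this.lt_or_eq with h | rfl
    · exact Prod.Lex.le_iff.2 (.inl h)
    · exact le_rfl

/-- the subsemilattice of finite sets witnesses the failure of s-completeness -/
theorem not_s {m : X} (hm : IsGLB {z : X | z.A.Finite} m) :
    m ∉ closure (upperClosure {z : X | z.A.Finite} : Set X) := by
  intro h
  have hU : m ∈ U := .inl (eq_univ_of_forall fun j => by
    let z : X := ⟨{(ofLex j).1}, II {(ofLex j).1},
      fun _ _ hab hh => hh.imp fun _ k => ⟨k.1, hab.trans k.2⟩, .inr ⟨finite_singleton _, rfl⟩⟩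
    exact (hm.1 (show z.A.Finite from finite_singleton _)).2
      ⟨_, rfl, Prod.Lex.le_iff.2 (.inr ⟨rfl, Bool.le_true _⟩)⟩)
  obtain ⟨z, hz, w, hw, hwz⟩ := mem_closure_iff.1 h U op5 hU
  exact fin_notU (Finite.subset hw hwz.1) hz

theorem chain_max {C : Set X} (hC : IsChain (· ≤ ·) C) (hne : C.Nonempty) :
    ∃ m ∈ C, ∀ c ∈ C, c ≤ m := by
  by_cases h : ∃ c ∈ C, c.A.Finite
  · obtain ⟨c, hc, hf⟩ := h
    obtain ⟨m, hm⟩ := ((ici_fin hf).inter_of_right C).exists_maximal ⟨c, hc, self_mem_Ici⟩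
    refine ⟨m, hm.1.1, fun d hd => ?_⟩
    rcases hC.total hd hm.1.1 with h | h
    · exact h
    · exact hm.2 ⟨hd, hm.1.2.trans h⟩ h
  push Not at h
  by_contra hn
  push Not at hn
  have key : ∀ c ∈ C, ∃ d ∈ C, ∃ j ∈ c.I, j ∉ d.I := fun c hc => by
    obtain ⟨d, hd, hdc⟩ := hn c hc
    obtain ⟨j, j1, j2⟩ := not_subset.1 fun k => hdc ⟨by rw [inf_univ (h d hd)]; simp, k⟩
    exact ⟨d, hd, j, j1, j2⟩
  obtain ⟨c, hc⟩ := hne
  obtain ⟨d, hd, j, -, hj⟩ := key c hc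
  obtain ⟨j, ⟨d, hd, hj⟩, hmin⟩ := (wellFounded_lt (α := J)).has_min {j | ∃ d ∈ C, j ∉ d.I}
    ⟨j, d, hd, hj⟩
  obtain ⟨e, he, k, k1, k2⟩ := key d hd
  exact hmin k ⟨e, he, k2⟩ (lt_of_not_ge fun hh => hj (d.low hh k1))

theorem mem_max {L : Set X} (hL : IsMaxChain (· ≤ ·) L) {m : X}
    (h : ∀ l ∈ L, m ≤ l ∨ l ≤ m) : m ∈ L := by
  rw [hL.2 (hL.1.insert fun l hl _ => h l hl) (subset_insert _ _)]
  exact mem_insert _ _

theorem fin_bdd {L : Set X} (hL : IsChain (· ≤ ·) L) :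
    ∃ b : T1, ∀ l ∈ L, l.A.Finite → l.A ⊆ Iic b := by
  have : {l ∈ L | l.A.Finite}.Countable := by
    refine countable_of_injective_of_countable_image (f := fun l : X => l.A.ncard) ?_
      (to_countable _)
    intro a ha b hb e
    rcases hL.total ha.1 hb.1 with h | h
    · exact fin_ext ha.2 (eq_of_subset_of_ncard_le h.1 e.le ha.2).symm
    · exact fin_ext ha.2 (eq_of_subset_of_ncard_le h.1 e.ge hb.2)
  obtain ⟨b, hb⟩ := T1_bdd (this.biUnion fun l hl => hl.2.countable)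
  exact ⟨b, fun l h1 h2 => (subset_biUnion_of_mem (u := X.A) (⟨h1, h2⟩ : l ∈ {l ∈ L | l.A.Finite})).trans hb⟩

def pt (γ : T1) : X := ⟨univ, Iic (toLex (γ, false)), isLowerSet_Iic _, .inl rfl⟩

theorem pt_not (γ : T1) : toLex (γ, true) ∉ (pt γ).I := fun h =>
  (Prod.Lex.le_iff.1 h).elim (lt_irrefl _) fun k => absurd k.2 (show ¬ true ≤ false by decide)

theorem chain_inf {L C : Set X} (hL : IsMaxChain (· ≤ ·) L) (hC : C ⊆ L) (hne : C.Nonempty) :
    ∃ m ∈ L, IsGLB C m ∧ m ∈ closure (L ∩ upperClosure C) := by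
  have hch : IsChain (· ≤ ·) C := hL.1.mono hC
  by_cases h0 : ∃ c ∈ C, ∀ d ∈ C, c ≤ d
  · obtain ⟨c, hc, h⟩ := h0
    exact ⟨c, hC hc, ⟨h, fun _ k => k hc⟩, subset_closure ⟨hC hc, subset_upperClosure hc⟩⟩
  push Not at h0
  let m : X := ⟨univ, ⋃ c ∈ C, c.I, isLowerSet_iUnion₂ fun c _ => c.low, .inl rfl⟩
  have hm : IsGLB C m := by
    refine ⟨fun c hc => ⟨subset_univ _, subset_biUnion_of_mem (u := X.I) hc⟩, fun w hw => ⟨?_,
      iUnion₂_subset fun c hc => (hw hc).2⟩⟩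
    refine (inf_univ fun hf => ?_).ge
    obtain ⟨c, hc⟩ := ((ici_fin hf).subset hw).exists_minimal hne
    obtain ⟨d, hd, hcd⟩ := h0 c hc.1
    exact hcd ((hch.total hc.1 hd).elim id fun k => hc.2 hd k)
  have hmL : m ∈ L := mem_max hL fun l hl => by
    by_cases h : l ∈ lowerBounds C
    · exact .inr (hm.2 h)
    · obtain ⟨c, hc⟩ := not_forall.1 h
      obtain ⟨hc, hlc⟩ := Classical.not_imp.1 hc
      exact .inl ((hm.1 hc).trans ((hL.1.total hl (hC hc)).resolve_left hlc))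
  refine ⟨m, hmL, hm, ?_⟩
  have hmf : ¬ m.A.Finite := infinite_univ
  by_cases hu : m.I = univ
  · obtain ⟨b, hb⟩ := fin_bdd hL.1
    have hfin : ∀ γ, b < γ → ∀ l ∈ L, l.A.Finite → l.I ⊆ (pt γ).I := fun γ hγ l hl hf j hj => by
      rw [fin_I hf] at hj
      obtain ⟨x, hx, h⟩ := hj
      exact h.trans (Prod.Lex.le_iff.2 (.inl ((hb l hl hf hx).trans_lt hγ)))
    have : Nonempty T1 := ⟨b⟩
    refine mem_closure_of_tendsto (f := pt) (b := atTop) (TopologicalSpace.tendsto_nhds_generateFrom_iff.2 ?_) ?_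
    · rintro s (⟨j, rfl⟩ | ⟨j, rfl⟩ | ⟨z, hz, rfl⟩ | ⟨z, hz, rfl⟩ | rfl) hp
      · exact (eventually_gt_atTop (ofLex j).1).mono fun γ h => Prod.Lex.le_iff.2 (.inl h)
      · exact absurd (hu ▸ trivial) hp
      · exact absurd (Eq.symm hp ▸ hz) hmf
      · exact univ_mem' fun γ e => infinite_univ ((Eq.symm e ▸ hz : (pt γ).A.Finite))
      · exact univ_mem' fun γ => .inr ⟨γ, le_rfl (a := toLex (γ, false)), pt_not γ⟩
    · refine (eventually_gt_atTop b).mono fun γ hγ => ⟨mem_max hL fun l hl => ?_, ?_⟩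
      · by_cases hf : l.A.Finite
        · exact .inl ⟨subset_univ _, hfin γ hγ l hl hf⟩
        · exact ((pt γ).low.total l.low).symm.imp (fun h => ⟨subset_univ _, h⟩)
            fun h => ⟨(inf_univ hf).ge, h⟩
      · have : toLex (γ, true) ∈ m.I := hu ▸ trivial
        obtain ⟨c, hc, hj⟩ := mem_iUnion₂.1 this
        have hn : toLex (γ, true) ∉ (pt γ).I := pt_not γ
        exact ⟨c, hc, (inf_univ fun hf => hn (hfin γ hγ c (hC hc) hf hj)).ge, sub_of hj hn⟩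
  · have : Nonempty C := hne.to_subtype
    have : IsCodirectedOrder C := ⟨fun a b => (hch.total a.2 b.2).elim (fun h => ⟨a, le_rfl, h⟩)
      fun h => ⟨b, h, le_rfl⟩⟩
    refine mem_closure_of_tendsto (f := ((↑) : C → X)) (b := atBot)
      (TopologicalSpace.tendsto_nhds_generateFrom_iff.2 ?_)
      (univ_mem' fun c => ⟨hC c.2, subset_upperClosure c.2⟩)
    have ev : ∀ j ∈ m.I, ∀ᶠ c : C in atBot, j ∈ c.1.I := fun j hj => by
      obtain ⟨c, hc, hj⟩ := mem_iUnion₂.1 hj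
      exact (eventually_le_atBot (⟨c, hc⟩ : C)).mono fun d hd => hd.2 hj
    rintro s (⟨j, rfl⟩ | ⟨j, rfl⟩ | ⟨z, hz, rfl⟩ | ⟨z, hz, rfl⟩ | rfl) hp
    · exact ev j hp
    · exact univ_mem' fun c h => hp ((hm.1 c.2).2 h)
    · exact absurd (Eq.symm hp ▸ hz) hmf
    · by_cases hzC : z ∈ C
      · obtain ⟨d, hd, hzd⟩ := h0 z hzC
        exact (eventually_le_atBot (⟨d, hd⟩ : C)).mono fun c hc e => hzd (Eq.symm e ▸ hc)
      · exact univ_mem' fun c e => hzC (Eq.symm e ▸ c.2)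
    · obtain ⟨γ, h1, h2⟩ := hp.resolve_left hu
      exact (ev _ h1).mono fun c hc => .inr ⟨γ, hc, fun h => h2 ((hm.1 c.2).2 h)⟩

end Pool.Agent.H33.SLat
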