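import Pool.Agent.H33.WF1
import Pool.Agent.H33.HG2
import Pool.Agent.H33.DT1
import Pool.Agent.H33.DiaDefs

/-! Under diamond: an Ostaszewski-type space with hereditarily separable powers; recursion. -/

open Set Filter Topology Pool.Agent.H33.WF1 Pool.Agent.H33.DiaDefs

namespace Pool.Agent.H33.SO1

variable (e : W → ℕ → W)

/-- large families of tuples -/
def Lg (f : W → ℕ → Set W) (t : W) (B : Set W) (J : Finset ℕ) : Prop :=
  ∀ s : Set W, s.Finite → s ⊆ Iio t →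
    ∃ ξ ∈ B, InjOn (e ξ) J ∧ ∀ j ∈ J, e ξ j < t ∧ ∀ y ∈ s, e ξ j ∉ f y 0

/-- constraints -/
def Cn (f : W → ℕ → Set W) (c : List (ℕ × W × ℕ)) : Set W :=
  {ξ | ∀ q ∈ c, e ξ q.1 ∈ f q.2.1 q.2.2}

/-- the conditions on the point `t` -/
structure G (A : W → Set W) (t : W) (f : W → ℕ → Set W) (d : ℕ → Set W) : Prop where
  eq : ∃ P : ℕ → Set W, (∀ n, d n = insert t (⋃ k ≥ n, P k)) ∧
    ∀ k, P k = ∅ ∨ ∃ y m, y < t ∧ P k = f y m
  le : ∀ x ∈ d 0, x ≤ t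
  c1 : ∀ z < t, ∀ n, z ∉ d n → ∀ᶠ j in atTop, Disjoint (f z j) (d n)
  c2 : ∀ y < t, ∀ᶠ j in atTop, Disjoint (d j) (f y 0)
  os : ∀ γ ≤ t, ∀ c : List (ℕ × W × ℕ), (∀ q ∈ c, q.2.1 < t) → ∀ J, Lg e f t (A γ ∩ Cn e f c) J →
    ∀ j n, Lg e f t {ξ ∈ A γ ∩ Cn e f c | (j ∈ J → e ξ j ∈ d n) ∧
      ∀ i ∈ J.erase j, e ξ i ∉ d 0} (J.erase j)

variable {e} {A : W → Set W} {f : W → ℕ → Set W} {t : W}

theorem G.an {d : ℕ → Set W} (h : G e A t f d) : Antitone d :=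
  let ⟨_, e, _⟩ := h.eq; anti e

theorem G.mem {d : ℕ → Set W} (h : G e A t f d) (n : ℕ) : t ∈ d n := by
  obtain ⟨_, e, _⟩ := h.eq
  rw [e]; exact mem_insert _ _

theorem cl {y z : W} (hy : G e A y f (f y)) (hz : G e A z f (f z)) (n : ℕ) (h : z ∉ f y n) :
    ∀ᶠ j in atTop, Disjoint (f z j) (f y n) := by
  rcases lt_trichotomy z y with h' | rfl | h'
  · exact hy.c1 z h' n h
  · exact absurd (hy.mem n) h
  · exact (hz.c2 y h').mono fun j hj => hj.mono_right (hy.an (Nat.zero_le n))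

theorem core (H : ∀ s < t, G e A s f (f s)) (B : ℕ → Set W) (J : ℕ → Finset ℕ) (j : ℕ → ℕ) :
    ∃ Q : ℕ → Set W, (∀ i, Q i = ∅ ∨ ∃ y m, y < t ∧ Q i = f y m) ∧
      (∀ y < t, ∀ᶠ i in atTop, Disjoint (Q i) (f y 0)) ∧
      ∀ s : Set W, s.Finite → s ⊆ Iio t → ∀ᶠ i in atTop, Lg e f t (B i) (J i) → ∃ ξ ∈ B i,
        InjOn (e ξ) (J i) ∧ (j i ∈ J i → e ξ (j i) ∈ Q i) ∧ ∀ k ∈ (J i).erase (j i),
          e ξ k < t ∧ (∀ l, e ξ k ∉ Q l) ∧ ∀ y ∈ s, e ξ k ∉ f y 0 := by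
  obtain ⟨c, hc⟩ := countable_iff_exists_injOn.1 (cnt t)
  have st : ∀ (i : ℕ) (s : {s : Set W // s.Finite ∧ s ⊆ Iio t}),
      ∃ (s' : {s : Set W // s.Finite ∧ s ⊆ Iio t}) (Q : Set W),
      s.1 ∪ (Iio t ∩ c ⁻¹' {i}) ⊆ s'.1 ∧ (∀ x ∈ Q, ∃ y ∈ s'.1, x ∈ f y 0) ∧
      (∀ y ∈ s.1, Disjoint Q (f y 0)) ∧ (Q = ∅ ∨ ∃ y m, y < t ∧ Q = f y m) ∧
      (Lg e f t (B i) (J i) → ∃ ξ ∈ B i, InjOn (e ξ) (J i) ∧ (j i ∈ J i → e ξ (j i) ∈ Q) ∧
        ∀ k ∈ (J i).erase (j i), e ξ k ∈ s'.1 ∧ e ξ k ∉ Q ∧ ∀ y ∈ s.1, e ξ k ∉ f y 0) := by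
    intro i s
    have hf : (s.1 ∪ (Iio t ∩ c ⁻¹' {i})).Finite := s.2.1.union
      (Finite.of_finite_image ((finite_singleton i).subset (image_subset_iff.2 inter_subset_right))
        (hc.mono inter_subset_left))
    have hf' : s.1 ∪ (Iio t ∩ c ⁻¹' {i}) ⊆ Iio t := union_subset s.2.2 inter_subset_left
    by_cases h : Lg e f t (B i) (J i)
    swap
    · exact ⟨⟨_, hf, hf'⟩, ∅, subset_rfl, fun _ h => h.elim, fun _ _ => empty_disjoint _, Or.inl rfl,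
        fun h' => absurd h' h⟩
    obtain ⟨ξ, h1, h2, h3⟩ := h _ s.2.1 s.2.2
    let s' : {s : Set W // s.Finite ∧ s ⊆ Iio t} := ⟨_, hf.union ((J i).finite_toSet.image (e ξ)),
      union_subset hf' (by rintro _ ⟨k, hk, rfl⟩; exact (h3 k hk).1)⟩
    by_cases hj : j i ∈ J i
    swap
    · exact ⟨s', ∅, subset_union_left, fun _ h => h.elim, fun _ _ => empty_disjoint _, Or.inl rfl,
        fun _ => ⟨ξ, h1, h2, fun h => absurd h hj, fun k hk =>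
          ⟨Or.inr ⟨k, Finset.mem_of_mem_erase hk, rfl⟩, id,
            (h3 k (Finset.mem_of_mem_erase hk)).2⟩⟩⟩
    have hx := (h3 _ hj).1
    obtain ⟨m, m1, m2⟩ := (((eventually_all_finite s.2.1).2 fun y hy =>
      cl (H y (s.2.2 hy)) (H _ hx) 0 ((h3 _ hj).2 y hy)).and
      ((eventually_all_finset ((J i).erase (j i))).2 fun k hk => show ∀ᶠ m in atTop,
        e ξ k ∉ f (e ξ (j i)) m from by
          have hk' := Finset.mem_of_mem_erase hk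
          rcases lt_trichotomy (e ξ k) (e ξ (j i)) with h | h | h
          · exact ((H _ hx).c2 _ h).mono fun m hm e' =>
              disjoint_left.1 hm e' ((H _ (h3 k hk').1).mem 0)
          · exact absurd (h2 hk' hj h) (Finset.ne_of_mem_erase hk)
          · exact Eventually.of_forall fun m e' =>
              not_le.2 h ((H _ hx).le _ ((H _ hx).an (Nat.zero_le m) e')))).exists
    exact ⟨s', f (e ξ (j i)) m, subset_union_left, fun x h => ⟨_, Or.inr ⟨_, hj, rfl⟩,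
      (H _ hx).an (Nat.zero_le m) h⟩, m1, Or.inr ⟨_, m, hx, rfl⟩, fun _ => ⟨ξ, h1, h2,
      fun _ => (H _ hx).mem m, fun k hk => ⟨Or.inr ⟨k, Finset.mem_of_mem_erase hk, rfl⟩, m2 k hk,
        (h3 k (Finset.mem_of_mem_erase hk)).2⟩⟩⟩
  choose F Q h1 h2 h3 h4 h5 using st
  let s : ℕ → {s : Set W // s.Finite ∧ s ⊆ Iio t} := fun i =>
    Nat.rec ⟨∅, finite_empty, empty_subset _⟩ (fun i s => F i s) i
  have mo : Monotone fun i => (s i).1 :=
    monotone_nat_of_le_succ fun i => subset_union_left.trans (h1 i (s i))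
  have ev : ∀ y < t, ∀ᶠ i in atTop, y ∈ (s i).1 := fun y hy => eventually_atTop.2
    ⟨c y + 1, fun i hi => mo hi (h1 (c y) (s (c y)) (Or.inr ⟨hy, rfl⟩))⟩
  refine ⟨fun i => Q i (s i), fun i => h4 i _, fun y hy => (ev y hy).mono fun i => h3 i _ y,
    fun u hu hu' => ?_⟩
  filter_upwards [(eventually_all_finite hu).2 fun y hy => ev y (hu' hy)] with i hi h
  obtain ⟨ξ, a1, a2, a3, a4⟩ := h5 i _ h
  refine ⟨ξ, a1, a2, a3, fun k hk => ⟨(F i (s i)).2.2 (a4 k hk).1, fun l hl => ?_,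
    fun y hy => (a4 k hk).2.2 y (hi y hy)⟩⟩
  rcases lt_trichotomy l i with h | rfl | h
  · obtain ⟨y, b1, b2⟩ := h2 l _ _ hl
    exact (a4 k hk).2.2 y (mo (show l + 1 ≤ i from h) b1) b2
  · exact (a4 k hk).2.1 hl
  · exact disjoint_left.1 (h3 l _ _ (mo (show i + 1 ≤ l from h) (a4 k hk).1)) hl
      ((H _ ((F i (s i)).2.2 (a4 k hk).1)).mem 0)

theorem step (H : ∀ s < t, G e A s f (f s)) : ∃ d, G e A t f d := by
  have := (cnt t).to_subtype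
  have := ((cnt t).insert t).to_subtype
  have : Nonempty (insert t (Iio t) : Set W) := ⟨⟨t, Or.inl rfl⟩⟩
  obtain ⟨u, hu⟩ := exists_surjective_nat
    ((insert t (Iio t) : Set W) × List (ℕ × Iio t × ℕ) × Finset ℕ × ℕ)
  let φ : ℕ × Iio t × ℕ → ℕ × W × ℕ := fun q => (q.1, q.2.1, q.2.2)
  obtain ⟨Q, q2, q3, q4⟩ := core H
    (fun i => A (u i.unpair.1).1 ∩ Cn e f ((u i.unpair.1).2.1.map φ))
    (fun i => (u i.unpair.1).2.2.1) fun i => (u i.unpair.1).2.2.2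
  have vl : ∀ y < t, ∀ m, ∀ z ∈ f y m, z < t := fun y hy m z hz =>
    ((H y hy).le z ((H y hy).an (Nat.zero_le m) hz)).trans_lt hy
  refine ⟨fun n => insert t (⋃ k ≥ n, Q k), ⟨Q, fun _ => rfl, q2⟩, fun x hx => ?_,
    fun z hz n h => ?_, fun y hy => ?_, fun γ hγ c hc J h j n s hs hs' => ?_⟩
  · rcases hx with e | e
    · exact e.le
    · obtain ⟨k, -, e⟩ := mem_iUnion₂.1 e
      rcases q2 k with h | ⟨y, m, hy, h⟩ <;> rw [h] at e
      exacts [e.elim, (vl y hy m x e).le]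
  · obtain ⟨N, hN⟩ := eventually_atTop.1 (q3 z hz)
    have : ∀ k ∈ Ico n N, ∀ᶠ j in atTop, Disjoint (f z j) (Q k) := fun k hk => by
      rcases q2 k with h' | ⟨y, m, hy, h'⟩
      · simp [h']
      · rw [h']
        exact cl (H y hy) (H z hz) m fun e => h (Or.inr (mem_iUnion₂.2 ⟨k, hk.1, h' ▸ e⟩))
    filter_upwards [(eventually_all_finite (finite_Ico n N)).2 this] with j hj
    refine disjoint_insert_right.2 ⟨fun e => lt_irrefl _ (vl z hz j t e),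
      disjoint_iUnion₂_right.2 fun k hk => ?_⟩
    by_cases h : k < N
    · exact hj k ⟨hk, h⟩
    · exact (hN _ (not_lt.1 h)).symm.mono_left ((H z hz).an (Nat.zero_le j))
  · obtain ⟨N, hN⟩ := eventually_atTop.1 (q3 y hy)
    filter_upwards [eventually_ge_atTop N] with j hj
    exact disjoint_insert_left.2 ⟨fun e => lt_irrefl _ (vl y hy 0 t e),
      disjoint_iUnion₂_left.2 fun k hk => hN _ (hj.trans hk)⟩
  obtain ⟨c, rfl⟩ : ∃ c' : List (ℕ × Iio t × ℕ), c'.map φ = c :=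
    ⟨c.pmap (fun q h => (q.1, ⟨q.2.1, h⟩, q.2.2)) hc, by simp [List.map_pmap, φ]⟩
  obtain ⟨i, hi⟩ := hu (⟨γ, hγ.eq_or_lt⟩, c, J, j)
  obtain ⟨N, hN⟩ := eventually_atTop.1 ((q4 s hs hs').and (eventually_ge_atTop n))
  obtain ⟨h1, h2⟩ := hN _ (Nat.right_le_pair i N)
  simp only [Nat.unpair_pair, hi] at h1
  obtain ⟨ξ, a1, a2, a3, a4⟩ := h1 h
  refine ⟨ξ, ⟨a1, fun h => Or.inr (mem_iUnion₂.2 ⟨_, h2, a3 h⟩), fun k hk e => ?_⟩,
    a2.mono (Finset.coe_subset.2 (J.erase_subset j)), fun k hk => ⟨(a4 k hk).1, (a4 k hk).2.2⟩⟩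
  obtain ⟨l, -, e⟩ := mem_iUnion₂.1 (e.resolve_left (a4 k hk).1.ne)
  exact (a4 k hk).2.1 l e

theorem build (e : W → ℕ → W) (A : W → Set W) :
    ∃ f : W → ℕ → Set W, ∀ t, G e A t f (f t) :=
  HG2.rec_e id (G e A) (fun t f g x h hx => by
    have l1 : ∀ B J, Lg e g t B J ↔ Lg e f t B J := fun B J =>
      forall₃_congr fun s _ hs => exists_congr fun ξ => and_congr_right fun _ =>
        and_congr_right fun _ => forall₂_congr fun j _ => and_congr_right fun _ =>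
          forall₂_congr fun y hy => by rw [h y (hs hy)]
    obtain ⟨P, a, b⟩ := hx.eq
    refine ⟨⟨P, a, fun k => (b k).imp_right fun ⟨y, m, c, d⟩ => ⟨y, m, c, h y c ▸ d⟩⟩, hx.le,
      fun z hz => h z hz ▸ hx.c1 z hz, fun z hz => h z hz ▸ hx.c2 z hz, fun γ hγ c hc J => ?_⟩
    have l2 : Cn e g c = Cn e f c := Set.ext fun ξ => forall₂_congr fun q hq => by
      rw [h _ (hc q hq)]
    simp only [l1, l2]
    exact hx.os γ hγ c hc J) fun _ _ H => step H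

end Pool.Agent.H33.SO1
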