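import Pool.Agent.H33.SO1
import Pool.Agent.H33.SK3

/-! Under diamond: an Ostaszewski-type space with hereditarily separable powers. -/

open Set Filter Topology Pool.Agent.H33.WF1 Pool.Agent.H33.DiaDefs Pool.Agent.H33.SO1

namespace Pool.Agent.H33.SO2

variable {e : W → ℕ → W} {A : W → Set W} {f : W → ℕ → Set W}

theorem pers (H : ∀ t, G e A t f (f t)) {γ t : W} (hγ : γ ≤ t) {c : List (ℕ × W × ℕ)}
    (hc : ∀ q ∈ c, q.2.1 < t) {J : Finset ℕ} (h : Lg e f t (A γ ∩ Cn e f c) J) (α : W) :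
    t ≤ α → Lg e f α (A γ ∩ Cn e f c) J := by
  induction α using WellFoundedLT.induction with
  | _ α ih =>
  intro hα s hs hs'
  by_cases h' : s ⊆ Iio t
  · obtain ⟨ξ, a1, a2, a3⟩ := h s hs h'
    exact ⟨ξ, a1, a2, fun j hj => ⟨(a3 j hj).1.trans_le hα, (a3 j hj).2⟩⟩
  obtain ⟨y, b1, b2⟩ := not_subset.1 h'
  obtain ⟨β, h1, h2⟩ := exists_max_image s id hs ⟨y, b1⟩
  have hβ : t ≤ β := (not_lt.1 b2).trans (h2 y b1)
  obtain ⟨j, hj⟩ := Infinite.exists_notMem_finset J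
  obtain ⟨ξ, ⟨a1, -, a2⟩, a3, a4⟩ := (H β).os γ (hγ.trans hβ) c (fun q hq => (hc q hq).trans_le hβ) J
    (ih β (hs' h1) hβ) j 0 (s \ {β}) (hs.subset sdiff_subset)
    fun z hz => mem_Iio.2 (lt_of_le_of_ne (h2 z hz.1) hz.2)
  rw [Finset.erase_eq_of_notMem hj] at a2 a3 a4
  refine ⟨ξ, a1, a3, fun i hi => ⟨(a4 i hi).1.trans (hs' h1), fun z hz => ?_⟩⟩
  by_cases e : z = β
  · exact e ▸ a2 i hi
  · exact (a4 i hi).2 z ⟨hz, e⟩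

theorem lim (H : ∀ t, G e A t f (f t)) (γ : W) (p : ℕ → W) (n : ℕ) (J : Finset ℕ) :
    ∀ t, γ ≤ t → ∀ c : List (ℕ × W × ℕ), (∀ q ∈ c, q.2.1 < t) → Lg e f t (A γ ∩ Cn e f c) J →
      InjOn p J → (∀ j ∈ J, t ≤ p j) → ∃ ξ ∈ A γ ∩ Cn e f c, ∀ j ∈ J, e ξ j ∈ f (p j) n := by
  induction J using Finset.induction_on_min_value p with
  | empty =>
    intro t _ c _ h _ _
    obtain ⟨ξ, a, -⟩ := h ∅ finite_empty (empty_subset _)
    exact ⟨ξ, a, by simp⟩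
  | insert j J hj hm ih =>
    intro t hγ c hc h hi hp
    have := unc
    have h0 := hp j (Finset.mem_insert_self _ _)
    obtain ⟨b, hb⟩ := DT1.bd cnt _ (countable_singleton (p j))
    obtain ⟨β, b1, b2⟩ := wellFounded_lt.has_min {x | p j < x} ⟨b, hb _ rfl⟩
    have h1 := (H (p j)).os γ (hγ.trans h0) c (fun q hq => (hc q hq).trans_le h0) _
      (pers H hγ hc h _ h0) j n
    rw [Finset.erase_insert hj] at h1
    obtain ⟨ξ, ⟨a1, a2⟩, a3⟩ := ih β ((hγ.trans h0).trans (le_of_lt b1)) ((j, p j, n) :: c)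
      (List.forall_mem_cons.2 ⟨b1, fun q hq => ((hc q hq).trans_le h0).trans b1⟩)
      (fun s hs hs' => by
        obtain ⟨ξ, ⟨a1, a2, a3⟩, a4, a5⟩ := h1 (s \ {p j}) (hs.subset sdiff_subset) fun z hz =>
          mem_Iio.2 (lt_of_le_of_ne (not_lt.1 fun e => b2 z e (hs' hz.1)) hz.2)
        refine ⟨ξ, ⟨a1.1, List.forall_mem_cons.2 ⟨a2 (Finset.mem_insert_self _ _), a1.2⟩⟩, a4,
          fun i hi => ⟨(a5 i hi).1.trans b1, fun z hz => ?_⟩⟩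
        by_cases e : z = p j
        · exact e ▸ a3 i hi
        · exact (a5 i hi).2 z ⟨hz, e⟩)
      (hi.mono (by simp)) fun i h => not_lt.1 (b2 _ (lt_of_le_of_ne (hm i h) fun e =>
        hj (hi (by simp) (by simp [h]) e ▸ h)))
    obtain ⟨a4, a5⟩ := List.forall_mem_cons.1 a2
    exact ⟨ξ, ⟨a1, a5⟩, by simpa using ⟨a4, a3⟩⟩

theorem space (hD : Diamond) : ∃ (_ : TopologicalSpace W) (V : W → Set W) (e : W → ℕ → W),
    T2Space W ∧ FirstCountableTopology W ∧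
    (∀ x, x ∈ V x ∧ IsOpen (V x) ∧ IsCompact (V x) ∧ ∀ y ∈ V x, y ≤ x) ∧
    (∀ B : Set W, B.Infinite → ∃ y, AccPt y (𝓟 B)) ∧
    (∀ m (p : Fin m → W), ∃ ξ, ∀ j : Fin m, e ξ j = p j) ∧
    ∀ (B : Set W) (J : Finset ℕ), (∀ β, ∃ ξ ∈ B, InjOn (e ξ) J ∧ ∀ j ∈ J, β < e ξ j) →
      ∃ γ, ∀ p : ℕ → W, InjOn p J → (∀ j ∈ J, γ ≤ p j) → ∀ O : ℕ → Set W,
        (∀ j, O j ∈ 𝓝 (p j)) → ∃ ξ ∈ B, ξ < γ ∧ ∀ j ∈ J, e ξ j ∈ O j := by
  obtain ⟨A, hA⟩ := hD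
  have := unc
  obtain ⟨E, hE⟩ : ∃ E : W → List W, Function.Surjective E := by
    obtain ⟨f⟩ := (Cardinal.le_def _ _).1 (Cardinal.mk_list_eq_mk W).le
    exact ⟨_, Function.invFun_surjective f.injective⟩
  let e : W → ℕ → W := fun ξ j => (E ξ).getD j (Classical.arbitrary W)
  have he : ∀ m (p : Fin m → W), ∃ ξ, ∀ j : Fin m, e ξ j = p j := fun m p =>
    (hE (List.ofFn p)).imp fun ξ h j => by simp [e, h]
  obtain ⟨f, H⟩ := build e A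
  choose P eq pc using fun x => (H x).eq
  let τ := wtop f fun x => (H x).an
  have hT : ∀ U : Set W, IsOpen U ↔ ∀ x ∈ U, ∃ n, f x n ⊆ U := fun _ => Iff.rfl
  have hv := vs wellFounded_lt eq pc hT
  have le : ∀ x, ∀ y ∈ f x 0, y ≤ x := fun x => (H x).le
  have t2 : T2Space W := by
    have : ∀ x y : W, x < y → ∃ u v, IsOpen u ∧ IsOpen v ∧ x ∈ u ∧ y ∈ v ∧ Disjoint u v :=
      fun x y h => by
        obtain ⟨j, hj⟩ := ((H y).c2 x h).exists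
        exact ⟨_, _, (hv x 0).1, (hv y j).1, (H x).mem 0, (H y).mem j, hj.symm⟩
    refine ⟨fun x y h => h.lt_or_gt.elim (this x y) fun h => ?_⟩
    obtain ⟨u, v, a, b, c, d, e⟩ := this y x h
    exact ⟨v, u, b, a, d, c, e.symm⟩
  have bas : ∀ x, (𝓝 x).HasBasis (fun _ => True) (f x) := fun x => ⟨fun U => ⟨fun h => by
      obtain ⟨O, a, b, c⟩ := mem_nhds_iff.1 h
      obtain ⟨n, hn⟩ := (hT O).1 b x c
      exact ⟨n, trivial, hn.trans a⟩,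
    fun ⟨n, _, h⟩ => mem_of_superset ((hv x n).1.mem_nhds ((H x).mem n)) h⟩⟩
  have key : ∀ γ J, Lg e f γ (A γ) J → ∀ p : ℕ → W, InjOn p J → (∀ j ∈ J, γ ≤ p j) →
      ∀ O : ℕ → Set W, (∀ j, O j ∈ 𝓝 (p j)) → ∃ ξ ∈ A γ, ∀ j ∈ J, e ξ j ∈ O j :=
    fun γ J h p h1 h2 O hO => by
      choose n _ hn using fun j => (bas _).mem_iff.1 (hO j)
      obtain ⟨ξ, a, b⟩ := lim H γ p (J.sup n) J γ le_rfl [] (by simp) (by simpa [Cn] using h) h1 h2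
      exact ⟨ξ, a.1, fun j hj => hn j ((H _).an (Finset.le_sup hj) (b j hj))⟩
  refine ⟨τ, fun x => f x 0, e, t2, ⟨fun x => (bas x).isCountablyGenerated⟩,
    fun x => ⟨(H x).mem 0, (hv x 0).1, (hv x 0).2.1, le x⟩, fun B₀ hB => ?_, he, fun B J h => ?_⟩
  · obtain ⟨B, h1, h3, h2⟩ := hB.exists_subset_countable_infinite
    suffices ∃ y, AccPt y (𝓟 B) from this.imp fun y h => h.mono (principal_mono.2 h1)
    by_cases h : ∃ s : Set W, s.Finite ∧ B ⊆ ⋃ y ∈ s, f y 0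
    · obtain ⟨s, a, b⟩ := h
      exact (h2.exists_accPt_of_subset_isCompact (a.isCompact_biUnion fun y _ => (hv y 0).2.1)
        b).imp fun _ h => h.2
    choose c hc using fun b => he 1 fun _ => b
    obtain ⟨β, hβ⟩ := DT1.bd cnt _ (h3.union (h3.image c))
    obtain ⟨δ, a, b, -⟩ := hA {ξ | e ξ 0 ∈ B} (DT1.club cnt id β)
    replace a : {ξ | e ξ 0 ∈ B} ∩ Iio δ = A δ := a
    refine ⟨δ, accPt_iff_nhds.2 fun O hO => ?_⟩
    obtain ⟨ξ, x1, x2⟩ := key δ {0} (fun s hs _ => by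
      obtain ⟨y, y1, y2⟩ := not_subset.1 fun e => h ⟨s, hs, e⟩
      have h4 : e (c y) 0 = y := hc y 0
      exact ⟨c y, a ▸ ⟨show e (c y) 0 ∈ B by rwa [h4], (hβ _ (Or.inr ⟨y, y1, rfl⟩)).trans b⟩, by simp, by
        simpa [h4, (hβ _ (Or.inl y1)).trans b] using y2⟩)
      (fun _ => δ) (by simp) (by simp) (fun _ => O) fun _ => hO
    exact ⟨_, ⟨x2 0 (by simp), (a.ge x1).1⟩, ((hβ _ (Or.inl (a.ge x1).1)).trans b).ne⟩
  · choose c c1 c2 c3 using h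
    choose g hg using fun β => DT1.bd cnt _ ((J.countable_toSet.image (e (c β))).insert (c β))
    obtain ⟨δ, a, b1, b2⟩ := hA B (DT1.club cnt g (Classical.arbitrary W))
    replace a : B ∩ Iio δ = A δ := a
    refine ⟨δ, fun p h1 h2 O hO => ?_⟩
    obtain ⟨ξ, x1, x2⟩ := key δ J (fun s hs hs' => by
      obtain ⟨l, l1, -, l2⟩ := SK2.fb hs hs' b1
      exact ⟨c l, a ▸ ⟨c1 l, (hg l _ (Or.inl rfl)).trans (b2 l l1)⟩, c2 l, fun j hj =>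
        ⟨(hg l _ (Or.inr ⟨j, hj, rfl⟩)).trans (b2 l l1), fun y hy e =>
          not_le.2 (c3 l j hj) ((le y _ e).trans (l2 y hy))⟩⟩) p h1 h2 O hO
    exact ⟨ξ, (a.ge x1).1, (a.ge x1).2, x2⟩

theorem hl [TopologicalSpace W] (he : ∀ m (p : Fin m → W), ∃ ξ, ∀ j : Fin m, e ξ j = p j)
    (hS : ∀ (B : Set W) (J : Finset ℕ), (∀ β, ∃ ξ ∈ B, InjOn (e ξ) J ∧ ∀ j ∈ J, β < e ξ j) →
      ∃ γ, ∀ p : ℕ → W, InjOn p J → (∀ j ∈ J, γ ≤ p j) → ∀ O : ℕ → Set W,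
        (∀ j, O j ∈ 𝓝 (p j)) → ∃ ξ ∈ B, ξ < γ ∧ ∀ j ∈ J, e ξ j ∈ O j)
    {Z D : Type} [Countable D] (w : Z → W → D) (hw : ∀ z x, ∀ᶠ y in 𝓝 x, w z y = w z x)
    (I : Z → Set W) (hI : ∀ z, (I z).Finite) :
    ∃ T : Set Z, T.Countable ∧ ∀ v, ∃ z ∈ T, ∀ y ∈ I z, w v y = w z y := by
  have := unc
  let R : (Set (W × D) × Σ m, Fin m → D) → W → Z → Prop := fun t ξ z => ∀ v,
    (∀ q ∈ t.1, w v q.1 = q.2) → (∀ j : Fin t.2.1, w v (e ξ j) = t.2.2 j) → ∀ y ∈ I z, w v y = w z y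
  have h0 : ∀ t, ∃ b, ∀ ξ₀ z₀, R t ξ₀ z₀ → InjOn (e ξ₀) (Finset.range t.2.1) →
      (∀ j ∈ Finset.range t.2.1, b < e ξ₀ j) → ∀ O : ℕ → Set W, (∀ j, O j ∈ 𝓝 (e ξ₀ j)) →
      ∃ ξ < b, (∃ z, R t ξ z) ∧ ∀ j ∈ Finset.range t.2.1, e ξ j ∈ O j := fun t => by
    by_cases h : ∀ β, ∃ ξ ∈ {ξ | ∃ z, R t ξ z}, InjOn (e ξ) (Finset.range t.2.1) ∧
        ∀ j ∈ Finset.range t.2.1, β < e ξ j
    · obtain ⟨γ, hγ⟩ := hS _ _ h
      refine ⟨γ, fun ξ₀ _ _ h1 h2 O hO => ?_⟩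
      obtain ⟨ξ, a, b, c⟩ := hγ _ h1 (fun j hj => (h2 j hj).le) O hO
      exact ⟨ξ, b, a, c⟩
    · obtain ⟨β, h⟩ := not_forall.1 h
      exact ⟨β, fun ξ₀ z₀ h0 h1 h2 => absurd ⟨ξ₀, ⟨z₀, h0⟩, h1, h2⟩ h⟩
  choose b hb using h0
  have hc : ∀ γ, {t : Set (W × D) × Σ m, Fin m → D | t.1.Finite ∧ t.1 ⊆ Iic γ ×ˢ univ}.Countable :=
    fun γ => by
      have h1 : (Iic γ).Countable := ((cnt γ).insert γ).mono fun x hx => (mem_Iic.1 hx).eq_or_lt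
      refine ((countable_ofPred_finite_subset (h1.prod (countable_univ (α := D)))).prod
        countable_univ).mono fun t ht => ?_
      exact ⟨ht, trivial⟩
  obtain ⟨g, hg⟩ := SK3.bnd hc b
  obtain ⟨δ, d1, d2⟩ := (DT1.club cnt g (Classical.arbitrary W)).nonempty
  rcases isEmpty_or_nonempty Z with hZ | hZ
  · exact ⟨∅, countable_empty, fun v => hZ.elim v⟩
  choose! z hz using fun (t) (ξ) (h : ∃ z, R t ξ z) => h
  refine ⟨_, ((hc δ).prod (cnt δ)).image fun q => z q.1 q.2, fun v => ?_⟩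
  have h1 : {y ∈ I v | y < δ}.Finite := (hI v).subset (sep_subset _ _)
  obtain ⟨γ, g1, -, g2⟩ := SK2.fb h1 (fun _ h => h.2) d1
  obtain ⟨m, p, p1, p2⟩ := ((hI v).subset (sep_subset _ (δ ≤ ·))).fin_param
  obtain ⟨ξ₀, h2⟩ := he m p
  let t : Set (W × D) × Σ m, Fin m → D :=
    ((fun y => (y, w v y)) '' {y ∈ I v | y < δ}, ⟨m, fun j => w v (p j)⟩)
  have h3 : ∀ γ', γ ≤ γ' → t.1.Finite ∧ t.1 ⊆ Iic γ' ×ˢ univ := fun γ' h =>
    ⟨h1.image _, by rintro _ ⟨y, hy, rfl⟩; exact ⟨(g2 y hy).trans h, trivial⟩⟩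
  have h4 := (hg γ t (h3 γ le_rfl)).trans (d2 γ g1)
  obtain ⟨ξ, x1, x2, x3⟩ := hb t ξ₀ v (fun u a1 a2 y hy => by
      by_cases h : y < δ
      · exact a1 _ ⟨y, ⟨hy, h⟩, rfl⟩
      · obtain ⟨j, rfl⟩ := p2.ge ⟨hy, not_lt.1 h⟩
        exact (congrArg _ (h2 j)).symm.trans (a2 j))
    (fun i hi j hj h => by
      have := h2 ⟨i, Finset.mem_range.1 hi⟩
      have := h2 ⟨j, Finset.mem_range.1 hj⟩
      exact Fin.mk.inj (p1 (a₁ := ⟨i, Finset.mem_range.1 hi⟩) (a₂ := ⟨j, Finset.mem_range.1 hj⟩)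
        (by simp_all)))
    (fun j hj => h4.trans_le (by
      have := (p2.le ⟨⟨j, Finset.mem_range.1 hj⟩, rfl⟩).2
      rwa [← h2] at this))
    (fun j => {y | w v y = w v (e ξ₀ j)}) fun j => hw v _
  refine ⟨_, ⟨(t, ξ), ⟨h3 δ g1.le, x1.trans h4⟩, rfl⟩, hz t ξ x2 v ?_ fun j => ?_⟩
  · rintro _ ⟨y, -, rfl⟩; rfl
  · exact (x3 j (Finset.mem_range.2 j.2)).trans (congrArg _ (h2 j))

end Pool.Agent.H33.SO2
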