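import Mathlib

set_option autoImplicit false
open Set Topology Filter

namespace Pool.Agent.H33.SPlank

/-- points: (first coordinate, second coordinate), `none` playing the role of infinity -/
structure P where
  a : Option ℝ
  b : Option ℕ

def Good (f : P → ℝ) : Prop :=
  (∀ n : ℕ, Tendsto (fun i : ℝ => f ⟨some i, some n⟩) cofinite (𝓝 (f ⟨none, some n⟩))) ∧
  ∀ j : Option ℝ, Tendsto (fun n : ℕ => f ⟨j, some n⟩) atTop (𝓝 (f ⟨j, none⟩))

instance : TopologicalSpace P := ⨅ f : {f // Good f}, TopologicalSpace.induced f.1 inferInstance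

lemma cont {f : P → ℝ} (h : Good f) : Continuous f :=
  continuous_iInf_dom (i := (⟨f, h⟩ : {f // Good f})) continuous_induced_dom

lemma tend {α : Type*} {l : Filter α} {u : α → P} {x : P}
    (h : ∀ f, Good f → Tendsto (fun a => f (u a)) l (𝓝 (f x))) : Tendsto u l (𝓝 x) := by
  rw [nhds_iInf, tendsto_iInf]
  intro f
  rw [nhds_induced, tendsto_comap_iff]
  exact h f.1 f.2

instance : CompletelyRegularSpace P :=
  completelyRegularSpace_iInf fun f => completelyRegularSpace_induced inferInstance f.1

noncomputable def φ (x : P) : ℝ := x.b.elim 0 fun n => 1 / ((n : ℝ) + 1)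

lemma φ_good : Good φ := ⟨fun _ => tendsto_const_nhds, fun _ => tendsto_one_div_add_atTop_nhds_zero_nat⟩

lemma φ_inj {x y : P} (h : φ x = φ y) : x.b = y.b := by
  obtain ⟨a, _ | n⟩ := x <;> obtain ⟨a', _ | m⟩ := y <;> simp only [φ, Option.elim] at h ⊢
  · exact absurd h (by positivity : (0 : ℝ) < 1 / ((m : ℝ) + 1)).ne
  · exact absurd h (by positivity : (0 : ℝ) < 1 / ((n : ℝ) + 1)).ne'
  · simpa using h

open Classical in
noncomputable def ind (c : ℕ → ℝ) (x : P) : ℝ :=
  if ∃ k, x.a = some (c k) ∧ ∀ n, x.b = some n → k ≤ n then 1 else 0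

lemma ind_good (c : ℕ → ℝ) : Good (ind c) := by
  constructor
  · intro n
    refine tendsto_const_nhds.congr' ?_
    filter_upwards [((finite_Iic n).image c).compl_mem_cofinite] with i hi
    simp only [ind]
    rw [if_neg (by rintro ⟨k, h, -⟩; cases h), if_neg]
    rintro ⟨k, h1, h2⟩
    exact hi ⟨k, h2 n rfl, (Option.some.inj h1).symm⟩
  · intro j
    refine tendsto_const_nhds.congr' ?_
    by_cases h : ∃ k, j = some (c k)
    · obtain ⟨k, hk⟩ := h
      filter_upwards [eventually_ge_atTop k] with n hn
      simp only [ind]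
      rw [if_pos ⟨k, hk, fun _ h => by cases h⟩, if_pos ⟨k, hk, fun _ h => by cases h; exact hn⟩]
    · refine Eventually.of_forall fun n => ?_
      simp only [ind]
      rw [if_neg fun ⟨k, h1, _⟩ => h ⟨k, h1⟩, if_neg fun ⟨k, h1, _⟩ => h ⟨k, h1⟩]

lemma ind_const (c : ℝ) (x : P) : ind (fun _ => c) x = 1 ↔ x.a = some c := by
  simp only [ind]
  split_ifs with h
  · exact ⟨fun _ => h.choose_spec.1, fun _ => rfl⟩
  · exact ⟨fun h' => absurd h' zero_ne_one, fun h' => absurd ⟨0, h', fun _ _ => Nat.zero_le _⟩ h⟩

instance : T0Space P := by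
  refine ⟨fun x y h => ?_⟩
  have h1 : x.b = y.b := φ_inj (h.map (cont φ_good)).eq
  have h2 : ∀ c, x.a = some c ↔ y.a = some c := fun c => by
    rw [← ind_const, ← ind_const, (h.map (cont (ind_good _))).eq]
  obtain ⟨a, b⟩ := x
  obtain ⟨a', b'⟩ := y
  simp only at h1 h2
  rw [h1, Option.ext h2]

instance : T35Space P where

lemma good_of_seq {g : P → ℝ} (hg : SeqContinuous g) : Good g := by
  constructor
  · intro n
    rw [Metric.tendsto_nhds]
    intro ε hε
    by_contra hn
    have hinf : {i : ℝ | ¬ dist (g ⟨some i, some n⟩) (g ⟨none, some n⟩) < ε}.Infinite := hn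
    let e := hinf.natEmbedding
    have he : Tendsto (fun k => (e k : ℝ)) atTop cofinite := by
      rw [← Nat.cofinite_eq_atTop]
      exact (Subtype.val_injective.comp e.injective).tendsto_cofinite
    have := hg (x := fun k => ⟨some (e k), some n⟩) (p := ⟨none, some n⟩)
      (tend fun f hf => (hf.1 n).comp he)
    obtain ⟨k, hk⟩ := (Metric.tendsto_nhds.mp this ε hε).exists
    exact (e k).2 hk
  · exact fun j => hg (x := fun n => ⟨j, some n⟩) (tend fun f hf => hf.2 j)

lemma cont_of_seq {Z : Type*} [TopologicalSpace Z] [CompletelyRegularSpace Z] {i : P → Z}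
    (hi : SeqContinuous i) : Continuous i := by
  rw [continuous_iff_continuousAt]
  intro x U hU
  rw [mem_map]
  obtain ⟨f, hf, h0, h1⟩ := CompletelyRegularSpace.completely_regular_isOpen (i x) (interior U)
    isOpen_interior (mem_interior_iff_mem_nhds.mpr hU)
  have hc : Continuous fun y => (f (i y) : ℝ) := cont (good_of_seq fun u p hu =>
    ((continuous_subtype_val.comp hf).tendsto _).comp (hi hu))
  refine mem_of_superset ((isOpen_lt hc continuous_const (g := fun _ => 1)).mem_nhds (x := x)
    (by simp [h0])) fun y hy => (interior_subset (by_contra fun h => ?_) : i y ∈ U)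
  have := h1 h
  simp [this] at hy

lemma not_seq : ¬ SequentialSpace P := by
  intro H
  let A : Set P := range fun i : ℝ => ⟨some i, none⟩
  have hA : IsSeqClosed A := by
    intro u x hu hx
    choose c hc using hu
    have e : u = fun k => ⟨some (c k), none⟩ := funext fun k => (hc k).symm
    subst e
    have h1 : φ x = 0 := tendsto_nhds_unique (((cont φ_good).tendsto x).comp hx) tendsto_const_nhds
    have h2 : ind c x = 1 := tendsto_nhds_unique (((cont (ind_good c)).tendsto x).comp hx)
      (tendsto_const_nhds.congr fun k => (if_pos ⟨k, rfl, fun _ h => by cases h⟩).symm)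
    have h3 : x.b = none := φ_inj (y := ⟨none, none⟩) h1
    obtain ⟨k, h4, -⟩ : ∃ k, x.a = some (c k) ∧ ∀ n, x.b = some n → k ≤ n := by
      by_contra hn
      rw [ind, if_neg hn] at h2
      exact zero_ne_one h2
    obtain ⟨a, b⟩ := x
    simp only at h3 h4
    exact ⟨c k, by rw [h3, h4]⟩
  have hne : (cocountable : Filter ℝ).NeBot := by
    refine ⟨fun h => Cardinal.not_countable_real ?_⟩
    have : (∅ : Set ℝ) ∈ (cocountable : Filter ℝ) := by rw [h]; trivial
    rw [mem_cocountable, compl_empty] at this
    exact this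
  have ht : Tendsto (fun i : ℝ => (⟨some i, none⟩ : P)) (cocountable : Filter ℝ) (𝓝 ⟨none, none⟩) := by
    refine tend fun f hf => tendsto_const_nhds.congr' ?_
    have h1 : ∀ᶠ i in (cocountable : Filter ℝ), ∀ n m : ℕ,
        dist (f ⟨some i, some n⟩) (f ⟨none, some n⟩) < 1 / ((m : ℝ) + 1) :=
      mem_cocountable.mpr ((countable_iUnion fun n : ℕ => countable_iUnion fun m : ℕ =>
        Finite.countable (Metric.tendsto_nhds.mp (hf.1 n) (1 / ((m : ℝ) + 1)) (by positivity))).mono
        fun i hi => by
          simp only [mem_compl_iff, mem_ofPred_eq, not_forall] at hi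
          obtain ⟨n, m, h⟩ := hi
          exact mem_iUnion.mpr ⟨n, mem_iUnion.mpr ⟨m, h⟩⟩)
    filter_upwards [h1] with i hi
    have h2 : ∀ n : ℕ, f ⟨some i, some n⟩ = f ⟨none, some n⟩ := fun n =>
      eq_of_forall_dist_le fun ε hε => by
        obtain ⟨m, hm⟩ := exists_nat_one_div_lt hε
        exact ((hi n m).trans hm).le
    exact tendsto_nhds_unique (hf.2 none) ((hf.2 (some i)).congr h2)
  obtain ⟨i, hi⟩ := hA.isClosed.mem_of_tendsto ht (Eventually.of_forall fun i => ⟨i, rfl⟩)
  cases hi

theorem main : ¬ (∀ (X : Type) [TopologicalSpace X] [T35Space X] (x₀ : X)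
    (τ : TopologicalSpace
      (FreeGroup X ⧸ Subgroup.normalClosure ({FreeGroup.of x₀} : Set (FreeGroup X)))),
    τ = (GroupTopology.coinduced
          (fun x : X => (QuotientGroup.mk (FreeGroup.of x) :
            FreeGroup X ⧸ Subgroup.normalClosure ({FreeGroup.of x₀} : Set (FreeGroup X))))).toTopologicalSpace →
    (∃ S : Set (ℕ → FreeGroup X ⧸ Subgroup.normalClosure ({FreeGroup.of x₀} : Set (FreeGroup X))),
      (∀ u ∈ S, Filter.Tendsto u Filter.atTop (@nhds _ τ 1)) ∧
      τ = (sInf {t : GroupTopology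
              (FreeGroup X ⧸ Subgroup.normalClosure ({FreeGroup.of x₀} : Set (FreeGroup X))) |
              ∀ u ∈ S, Filter.Tendsto u Filter.atTop (@nhds _ t.toTopologicalSpace 1)}).toTopologicalSpace) →
    SequentialSpace X) := by
  intro H
  refine not_seq (H P ⟨none, none⟩ _ rfl ⟨{u | _}, fun u hu => hu, ?_⟩)
  set G := FreeGroup P ⧸ Subgroup.normalClosure ({FreeGroup.of ⟨none, none⟩} : Set (FreeGroup P))
  set i : P → G := fun x => QuotientGroup.mk (FreeGroup.of x)
  congr 1
  refine le_antisymm (le_sInf fun t ht => sInf_le ?_) (sInf_le fun u hu => hu)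
  refine continuous_iff_coinduced_le.mp ?_
  have hs : @SeqContinuous P G _ t.toTopologicalSpace i := by
    intro u p hu
    have h1 : Tendsto (fun n => i (u n) * (i p)⁻¹) atTop
        (@nhds _ (GroupTopology.coinduced i).toTopologicalSpace 1) := by
      let := (GroupTopology.coinduced i).toTopologicalSpace
      have := (GroupTopology.coinduced i).toIsTopologicalGroup
      have := (((GroupTopology.coinduced_continuous i).tendsto p).comp hu).mul_const (i p)⁻¹
      rwa [mul_inv_cancel] at this
    let := t.toTopologicalSpace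
    have := t.toIsTopologicalGroup
    simpa [Function.comp_def] using (ht _ h1).mul_const (i p)
  let := t.toTopologicalSpace
  have := t.toIsTopologicalGroup
  have : CompletelyRegularSpace G := by
    let := IsTopologicalGroup.rightUniformSpace G
    infer_instance
  exact cont_of_seq hs

end Pool.Agent.H33.SPlank
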