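import Mathlib
import Pool.Agent.H33.Retr

/-!
Scattered Valdivia compacta contain no copy of `[0, ω₂]`.
-/

set_option autoImplicit false

open Set Filter Topology Cardinal

namespace Pool.Agent.H33.ScatVal

open Pool.Agent.H33.Retr

section Comb

variable {Γ : Type} (ψ : Finset Γ → Set Γ) (S : Set Γ)

/-- countable closed sets which escape from `E` -/
def Esc (E : Finset Γ → Set Γ) : Set (Set Γ) :=
  {A | A.Countable ∧ Cl ψ A ∧ ∀ t : Finset Γ, ↑t ⊆ A → ∃ α ∈ A, α ∈ S ∧ α ∉ E t}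

theorem Esc.mono {E E' : Finset Γ → Set Γ} (h : ∀ t, E t ⊆ E' t) : Esc ψ S E' ⊆ Esc ψ S E :=
  fun _ hA => ⟨hA.1, hA.2.1, fun t ht =>
    let ⟨α, h1, h2, h3⟩ := hA.2.2 t ht; ⟨α, h1, h2, fun h4 => h3 (h t h4)⟩⟩

theorem a1 : ℵ₀ ≤ ℵ_ 1 := aleph0_le_aleph 1

def Fil : Filter (Set Γ) where
  sets := {B | ∃ E : Finset Γ → Set Γ, (∀ t, #(E t) ≤ ℵ_ 1) ∧ Esc ψ S E ⊆ B}
  univ_sets := ⟨fun _ => ∅, fun _ => by simp, subset_univ _⟩
  sets_of_superset := fun ⟨E, h1, h2⟩ h => ⟨E, h1, h2.trans h⟩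
  inter_sets := fun ⟨E, h1, h2⟩ ⟨E', h3, h4⟩ => ⟨fun t => E t ∪ E' t,
    fun t => (mk_union_le _ _).trans (add_le_of_le a1 (h1 t) (h3 t)),
    subset_inter ((Esc.mono ψ S fun _ => subset_union_left).trans h2)
      ((Esc.mono ψ S fun _ => subset_union_right).trans h4)⟩

theorem mem_Fil {B : Set (Set Γ)} :
    B ∈ Fil ψ S ↔ ∃ E : Finset Γ → Set Γ, (∀ t, #(E t) ≤ ℵ_ 1) ∧ Esc ψ S E ⊆ B := Iff.rfl

theorem neBot (hψ : ∀ s, (ψ s).Countable) (hS : ℵ_ 1 < #S) : (Fil ψ S).NeBot := by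
  rw [← forall_mem_nonempty_iff_neBot]
  rintro B ⟨E, h1, h2⟩
  have : ∀ t, ∃ α ∈ S, α ∉ E t := fun t => by
    by_contra h
    push Not at h
    exact absurd ((mk_le_mk_of_subset h).trans (h1 t)) (not_le.2 hS)
  choose a ha hb using this
  have hc := cl_hull (fun t => insert (a t) (ψ t)) ∅
  exact ⟨_, h2 ⟨countable_hull _ (fun t => (hψ t).insert _) countable_empty,
    fun t ht => (subset_insert _ _).trans (hc t ht),
    fun t ht => ⟨a t, hc t ht (mem_insert _ _), ha t, hb t⟩⟩⟩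

theorem split {O : Set (Set Γ)} (hO : ∃ᶠ A in Fil ψ S, A ∈ O) :
    ∃ α ∈ S, (∃ᶠ A in Fil ψ S, A ∈ O ∧ α ∈ A) ∧ ∃ᶠ A in Fil ψ S, A ∈ O ∧ α ∉ A := by
  classical
  let N : Set Γ := {α | α ∈ S ∧ ∃ᶠ A in Fil ψ S, A ∈ O ∧ α ∈ A}
  have hN : ℵ_ 1 < #N := by
    by_contra h
    push Not at h
    have h1 : ∀ α, ∃ E : Finset Γ → Set Γ, (∀ t, #(E t) ≤ ℵ_ 1) ∧
        (α ∈ S → α ∉ N → ∀ A ∈ Esc ψ S E, ¬ (A ∈ O ∧ α ∈ A)) := by
      intro α
      by_cases h2 : ∃ᶠ A in Fil ψ S, A ∈ O ∧ α ∈ A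
      · exact ⟨fun _ => ∅, fun _ => by simp, fun h3 h4 => absurd ⟨h3, h2⟩ h4⟩
      · obtain ⟨E, h3, h4⟩ := not_frequently.1 h2
        exact ⟨E, h3, fun _ _ A hA => h4 hA⟩
    choose E hE1 hE2 using h1
    have h2 : Esc ψ S (fun t => N ∪ ⋃ α ∈ t, E α (t.erase α) ∪ E α t) ∈ Fil ψ S := by
      refine ⟨_, fun t => (mk_union_le _ _).trans (add_le_of_le a1 h ?_), Subset.rfl⟩
      refine (mk_biUnion_le (fun α => E α (t.erase α) ∪ E α t) (t : Set Γ)).trans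
        (mul_le_of_le a1 ((lt_aleph0_of_finite _).le.trans a1) (ciSup_le' fun α => ?_))
      exact (mk_union_le _ _).trans (add_le_of_le a1 (hE1 _ _) (hE1 _ _))
    obtain ⟨A, hA, hA'⟩ := (hO.and_eventually h2).exists
    obtain ⟨α, h3, h4, h5⟩ := hA'.2.2 ∅ (by simp)
    refine hE2 α h4 (fun h => h5 (Or.inl h)) A ⟨hA'.1, hA'.2.1, fun t ht => ?_⟩ ⟨hA, h3⟩
    obtain ⟨β, h6, h7, h8⟩ := hA'.2.2 (insert α t) (by simp [insert_subset_iff, h3, ht])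
    refine ⟨β, h6, h7, fun h9 => h8 (Or.inr (mem_iUnion₂.2 ⟨α, Finset.mem_insert_self _ _, ?_⟩))⟩
    by_cases h10 : α ∈ t
    · right; rwa [Finset.insert_eq_of_mem h10]
    · left; rwa [Finset.erase_insert h10]
  obtain ⟨Z, hZ, hZc⟩ := le_mk_iff_exists_subset.1 hN.le
  by_contra h
  push Not at h
  have h1 : ∀ α : Z, ∃ E : Finset Γ → Set Γ, (∀ t, #(E t) ≤ ℵ_ 1) ∧
      ∀ A ∈ Esc ψ S E, A ∈ O → α.1 ∈ A := by
    intro α
    obtain ⟨E, h3, h4⟩ := h α (hZ α.2).1 (hZ α.2).2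
    exact ⟨E, h3, fun A hA => h4 hA⟩
  choose E hE1 hE2 using h1
  have h2 : Esc ψ S (fun t => ⋃ α, E α t) ∈ Fil ψ S :=
    ⟨_, fun t => (mk_iUnion_le _).trans (mul_le_of_le a1 hZc.le (ciSup_le' fun α => hE1 α t)),
      Subset.rfl⟩
  obtain ⟨A, hA, hA'⟩ := (hO.and_eventually h2).exists
  have h3 : Z ⊆ A := fun α hα => hE2 ⟨α, hα⟩ A
    (Esc.mono ψ S (fun t => subset_iUnion (fun α => E α t) ⟨α, hα⟩) hA') hA
  have h4 := (mk_le_mk_of_subset h3).trans (le_aleph0_iff_set_countable.2 hA'.1)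
  rw [hZc] at h4
  exact absurd h4 (not_le.2 aleph0_lt_aleph_one)

end Comb

variable {X Γ : Type} [TopologicalSpace X] [CompactSpace X] {e : X → Γ → ℝ}

theorem exists_psi (he : IsEmbedding e) (hD : Dense {x | {γ | e x γ ≠ 0}.Countable}) :
    ∃ ψ : Finset Γ → Set Γ, (∀ s, (ψ s).Countable) ∧
      ∀ A, Cl ψ A → ∀ x, ∃ y, e y = A.indicator (e x) := by
  classical
  have h1 : ∀ t : Finset Γ, ∃ D : Set X, D.Countable ∧ (∀ x ∈ D, {γ | e x γ ≠ 0}.Countable) ∧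
      ∀ x, (fun i : t => e x i) ∈ closure ((fun x (i : t) => e x i) '' D) := by
    intro t
    rcases isEmpty_or_nonempty X with hX | hX
    · exact ⟨∅, countable_empty, by simp, fun x => hX.elim x⟩
    obtain ⟨C, h1, h2, h3⟩ := (TopologicalSpace.IsSeparable.of_separableSpace
      ((fun x (i : t) => e x i) '' {x | {γ | e x γ ≠ 0}.Countable})).exists_countable_dense_subset
    have h1' : ∀ c ∈ C, ∃ x, {γ | e x γ ≠ 0}.Countable ∧ (fun i : t => e x i) = c :=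
      fun c hc => h1 hc
    choose! d h4 h5 using h1'
    refine ⟨d '' C, h2.image _, by rintro _ ⟨c, hc, rfl⟩; exact h4 c hc, fun x => ?_⟩
    have h6 : C ⊆ (fun x (i : t) => e x i) '' (d '' C) := fun c hc =>
      ⟨d c, mem_image_of_mem d hc, h5 c hc⟩
    refine closure_mono h6 ?_
    refine closure_minimal h3 isClosed_closure ?_
    exact image_closure_subset_closure_image
      (continuous_pi fun i => (continuous_apply _).comp he.continuous) ⟨x, hD x, rfl⟩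
  choose D hD1 hD2 hD3 using h1
  refine ⟨fun t => ⋃ d ∈ D t, {γ | e d γ ≠ 0}, fun t => (hD1 t).biUnion (hD2 t),
    fun A hA x => ?_⟩
  have hcl : IsClosed (range e) := (isCompact_range he.continuous).isClosed
  suffices A.indicator (e x) ∈ closure (range e) by rwa [hcl.closure_eq] at this
  rw [mem_closure_iff]
  intro V hV hx
  obtain ⟨I, u, hu, hsub⟩ := isOpen_pi_iff.1 hV _ hx
  let t := I.filter (· ∈ A)
  obtain ⟨_, h2, d, hd, rfl⟩ := mem_closure_iff.1 (hD3 t x) (Set.pi Set.univ fun i : t => u i)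
    (isOpen_set_pi finite_univ fun i _ => (hu i (Finset.mem_filter.1 i.2).1).1) fun i _ => by
      have := (hu i (Finset.mem_filter.1 i.2).1).2
      rwa [indicator_of_mem (Finset.mem_filter.1 i.2).2] at this
  refine ⟨e d, hsub fun i hi => ?_, d, rfl⟩
  by_cases h : i ∈ A
  · exact h2 ⟨i, Finset.mem_filter.2 ⟨hi, h⟩⟩ trivial
  · have h3 : e d i = 0 := by
      by_contra h3
      exact h (hA t (fun j hj => (Finset.mem_filter.1 hj).2) (mem_biUnion hd h3))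
    have := (hu i hi).2
    rwa [indicator_of_notMem h, ← h3] at this

theorem small_supp [T2Space X] (he : IsEmbedding e)
    (hD : Dense {x | {γ | e x γ ≠ 0}.Countable})
    (hs : ∀ A : Set X, A.Nonempty → ∃ x ∈ A, ∃ U : Set X, IsOpen U ∧ U ∩ A = {x}) (x : X) :
    #{γ | e x γ ≠ 0} ≤ ℵ_ 1 := by
  classical
  by_contra hS
  push Not at hS
  obtain ⟨ψ, hψ, h1⟩ := exists_psi he hD
  have h2 : ∀ A, ∃ y, Cl ψ A → e y = A.indicator (e x) := fun A => by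
    by_cases h : Cl ψ A
    · exact (h1 A h x).imp fun _ h _ => h
    · exact ⟨x, fun h' => absurd h' h⟩
  choose r hr using h2
  let F := Fil ψ {γ | e x γ ≠ 0}
  have hF : F.NeBot := neBot ψ _ hψ hS
  have hcl : ∀ᶠ A in F, Cl ψ A := ⟨fun _ => ∅, fun _ => by simp, fun A hA => hA.2.1⟩
  have key : ∀ C : Set X, IsClosed C → (∃ᶠ A in F, r A ∈ C) → ∃ y ∈ C, MapClusterPt y F r :=
    fun C hC h => hC.isCompact.exists_mapClusterPt_of_frequently h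
  obtain ⟨y0, _, hy0⟩ := key Set.univ isClosed_univ (Eventually.of_forall fun _ => trivial).frequently
  obtain ⟨y, hy, U, hU, hUy⟩ := hs {y | MapClusterPt y F r} ⟨y0, hy0⟩
  have hyU : y ∈ U := (hUy.symm ▸ mem_singleton y : y ∈ U ∩ _).1
  obtain ⟨V, hV1, hV2, hV3⟩ := exists_mem_nhds_isClosed_subset (hU.mem_nhds hyU)
  obtain ⟨α, hα, h3, h4⟩ := split ψ _ (O := {A | r A ∈ V}) (mapClusterPt_iff_frequently.1 hy V hV1)
  have hc : ∀ c : ℝ, IsClosed (V ∩ {z | e z α = c}) := fun c => hV2.inter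
    (isClosed_eq ((continuous_apply α).comp he.continuous) continuous_const)
  obtain ⟨y1, h5, h6⟩ := key _ (hc (e x α)) ((h3.and_eventually hcl).mono fun A hA =>
    ⟨hA.1.1, by simp [hr A hA.2, hA.1.2]⟩)
  obtain ⟨y2, h7, h8⟩ := key _ (hc 0) ((h4.and_eventually hcl).mono fun A hA =>
    ⟨hA.1.1, by simp [hr A hA.2, hA.1.2]⟩)
  have e1 : y1 = y := (hUy ▸ (⟨hV3 h5.1, h6⟩ : y1 ∈ U ∩ _) : y1 ∈ ({y} : Set X))
  have e2 : y2 = y := (hUy ▸ (⟨hV3 h7.1, h8⟩ : y2 ∈ U ∩ _) : y2 ∈ ({y} : Set X))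
  have h9 : e y1 α = e x α := h5.2
  have h10 : e y2 α = 0 := h7.2
  rw [e1] at h9
  rw [e2, h9] at h10
  exact hα h10

theorem hreg : (ℵ_ 2 : Cardinal.{0}).IsRegular := by
  have := isRegular_aleph_add_one (1 : Ordinal.{0})
  rwa [one_add_one_eq_two] at this

theorem h12 : (ℵ_ 1 : Cardinal.{0}) < ℵ_ 2 := aleph_lt_aleph.2 one_lt_two

theorem sup_lt {ι : Type} {f : ι → Ordinal.{0}} (hι : #ι < ℵ_ 2)
    (hf : ∀ i, f i < (ℵ_ 2 : Cardinal.{0}).ord) : iSup f < (ℵ_ 2 : Cardinal.{0}).ord :=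
  Ordinal.iSup_lt_of_lt_cof (by rwa [hreg.cof_ord]) hf

theorem ev_const (g : Iic (ℵ_ 2 : Cardinal.{0}).ord → ℝ) (hg : Continuous g) :
    ∃ β < (ℵ_ 2 : Cardinal.{0}).ord, ∀ a, β < a.1 → g a = g ⟨_, self_mem_Iic⟩ := by
  have h1 : ∀ n : ℕ, ∃ β < (ℵ_ 2 : Cardinal.{0}).ord, ∀ a, β < a.1 →
      dist (g a) (g ⟨_, self_mem_Iic⟩) < 1 / ((n : ℝ) + 1) := by
    intro n
    have h2 := hg.continuousAt (x := ⟨_, self_mem_Iic⟩)
      (Metric.ball_mem_nhds _ (Nat.one_div_pos_of_nat (n := n)))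
    rw [mem_map, nhds_induced, mem_comap] at h2
    obtain ⟨V, hV, h3⟩ := h2
    obtain ⟨β, h4, h5⟩ := exists_Ioc_subset_of_mem_nhds hV ⟨0, hreg.ord_pos⟩
    exact ⟨β, h4, fun a ha => h3 (h5 ⟨ha, a.2⟩)⟩
  choose β h2 h3 using h1
  refine ⟨iSup β, sup_lt (mk_nat.trans_lt (a1.trans_lt h12)) h2,
    fun a ha => ?_⟩
  refine eq_of_forall_dist_le fun ε hε => ?_
  obtain ⟨n, hn⟩ := exists_nat_one_div_lt hε
  exact ((h3 n a ((Ordinal.le_iSup β n).trans_lt ha)).trans hn).le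

theorem not_inj (g : Iic (ℵ_ 2 : Cardinal.{0}).ord → Γ → ℝ) (hg : Continuous g)
    (hs : ∀ a, #{γ | g a γ ≠ 0} ≤ ℵ_ 1) : ¬ Function.Injective g := by
  intro hi
  have hlim : Order.IsSuccLimit (ℵ_ 2 : Cardinal.{0}).ord := isSuccLimit_ord (a1.trans h12.le)
  choose β hβ1 hβ2 using fun γ => ev_const (fun a => g a γ) ((continuous_apply γ).comp hg)
  let T : Iic (ℵ_ 2 : Cardinal.{0}).ord := ⟨_, self_mem_Iic⟩
  have h1 : ∀ a : Iio (ℵ_ 2 : Cardinal.{0}).ord, ∃ b : Iio (ℵ_ 2 : Cardinal.{0}).ord, a.1 ≤ b.1 ∧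
      ∀ γ, (g ⟨a.1, mem_Iic.2 (le_of_lt a.2)⟩ γ ≠ 0 ∨ g T γ ≠ 0) → β γ < b.1 := by
    intro a
    let s : Set Γ := {γ | g ⟨a.1, mem_Iic.2 (le_of_lt a.2)⟩ γ ≠ 0} ∪ {γ | g T γ ≠ 0}
    have h2 : #s < ℵ_ 2 := ((mk_union_le _ _).trans (add_le_of_le a1 (hs _) (hs _))).trans_lt h12
    have h3 := sup_lt h2 (f := fun γ : s => β γ) fun γ => hβ1 γ
    refine ⟨⟨max a.1 (Order.succ (⨆ γ : s, β γ)), max_lt a.2 (hlim.succ_lt h3)⟩, le_max_left _ _,
      fun γ hγ => ?_⟩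
    exact ((Ordinal.le_iSup (fun γ : s => β γ) ⟨γ, hγ⟩).trans_lt (Order.lt_succ _)).trans_le
      (le_max_right _ _)
  choose nx hn1 hn2 using h1
  let a : ℕ → Iio (ℵ_ 2 : Cardinal.{0}).ord := fun n => nx^[n] ⟨0, hreg.ord_pos⟩
  have ha : ∀ n, a (n + 1) = nx (a n) := fun n => Function.iterate_succ_apply' _ _ _
  have hm : Monotone fun n => (a n).1 := monotone_nat_of_le_succ fun n => by
    rw [ha]; exact hn1 _
  have hδ : (⨆ n, (a n).1) < (ℵ_ 2 : Cardinal.{0}).ord :=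
    sup_lt (mk_nat.trans_lt (a1.trans_lt h12)) fun n => (a n).2
  have ht : Tendsto (fun n => (⟨(a n).1, mem_Iic.2 (le_of_lt (a n).2)⟩ : Iic (ℵ_ 2 : Cardinal.{0}).ord)) atTop
      (𝓝 ⟨_, hδ.le⟩) := tendsto_subtype_rng.2 (tendsto_atTop_ciSup hm Ordinal.bddAbove_of_small)
  have : g ⟨_, hδ.le⟩ = g T := by
    funext γ
    by_cases h : ∃ n, g ⟨(a n).1, mem_Iic.2 (le_of_lt (a n).2)⟩ γ ≠ 0 ∨ g T γ ≠ 0
    · obtain ⟨n, hn⟩ := h
      refine hβ2 γ _ ((hn2 _ γ hn).trans_le ?_)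
      rw [← ha]
      exact Ordinal.le_iSup (fun n => (a n).1) (n + 1)
    · push Not at h
      rw [(h 0).2]
      refine tendsto_nhds_unique ((((continuous_apply γ).comp hg).tendsto _).comp ht) ?_
      exact tendsto_const_nhds.congr fun n => (h n).1.symm
  exact hδ.ne (congrArg Subtype.val (hi this))

theorem main [T2Space X] (he : IsEmbedding e) (hD : Dense {x | {γ | e x γ ≠ 0}.Countable})
    (hs : ∀ A : Set X, A.Nonempty → ∃ x ∈ A, ∃ U : Set X, IsOpen U ∧ U ∩ A = {x})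
    (f : Iic (ℵ_ 2 : Cardinal.{0}).ord → X) (hf : IsEmbedding f) : False :=
  not_inj (e ∘ f) (he.continuous.comp hf.continuous) (fun _ => small_supp he hD hs _)
    (he.injective.comp hf.injective)

end Pool.Agent.H33.ScatVal
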