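import Mathlib
import Pool.Agent.H33.GrothEx

set_option autoImplicit false

open Set Filter Topology Finsupp

namespace Pool.Agent.H33.SelPs

abbrev Z : Type := ZMod 2

noncomputable abbrev lc {ι : Type} (φ : ι → Z) : (ι →₀ Z) →ₗ[Z] Z := linearCombination Z φ

theorem z01 (x : Z) (h : x ≠ 1) : x = 0 := by revert x; decide

theorem lc_add {ι : Type} (f g : ι → Z) (w : ι →₀ Z) : lc (f + g) w = lc f w + lc g w := by
  simp [linearCombination_apply, Finsupp.sum, mul_add, Finset.sum_add_distrib]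

theorem lc_congr {ι : Type} {f g : ι → Z} {w : ι →₀ Z} (h : ∀ d ∈ w.support, f d = g d) :
    lc f w = lc g w := by
  simp only [linearCombination_apply, Finsupp.sum]
  exact Finset.sum_congr rfl fun d hd => by rw [h d hd]

abbrev W : Type := ℕ × Option ℕ →₀ Z

def Null (p : Ultrafilter ℕ) (w : ℕ → W) (r : ℕ → Ultrafilter ℕ) : Prop :=
  ∀ φ : ℕ × Option ℕ → Z, (∀ j, ∀ᶠ k in (r j : Filter ℕ), φ (j, some k) = φ (j, none)) →
    ∀ᶠ n in (p : Filter ℕ), lc φ (w n) = 0

theorem two_null {p : Ultrafilter ℕ} {w : ℕ → W} {r0 r1 : ℕ → Ultrafilter ℕ}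
    (h0 : Null p w r0) (h1 : Null p w r1) (hne : ∀ j, r0 j ≠ r1 j) (ψ : ℕ × Option ℕ → Z) :
    ∀ᶠ n in (p : Filter ℕ), lc ψ (w n) = 0 := by
  classical
  have hB : ∀ j, ∃ B, B ∈ r0 j ∧ B ∉ r1 j := by
    intro j
    by_contra h
    push Not at h
    exact hne j (Ultrafilter.unique (r1 j) (g := r0 j) (fun B hB => by
      by_contra h'
      have := h _ (Ultrafilter.compl_mem_iff_notMem.2 h')
      exact Ultrafilter.compl_mem_iff_notMem.1 this hB) |> Ultrafilter.coe_injective)
  choose B hB0 hB1 using hB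
  let φ : ℕ × Option ℕ → Z := fun d => d.2.elim 0 fun k =>
    if k ∈ B d.1 then ψ d - ψ (d.1, none) else 0
  have e0 := h0 (ψ - φ) fun j => Filter.mem_of_superset (hB0 j) fun k hk => by
    simp [φ, show k ∈ B j from hk]
  have e1 := h1 φ fun j => Filter.mem_of_superset (Ultrafilter.compl_mem_iff_notMem.2 (hB1 j))
    fun k hk => by simp [φ, show k ∉ B j from hk]
  filter_upwards [e0, e1] with n a b
  have := lc_add (ψ - φ) φ (w n)
  rwa [sub_add_cancel, a, b, add_zero] at this

theorem tri {V : Type} [AddCommGroup V] [Module Z V] (w : ℕ → V) (f : ℕ → V →ₗ[Z] Z)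
    (h1 : ∀ n, f n (w n) = 1) (h0 : ∀ m n, m < n → f m (w n) = 0) :
    ∃ l : V →ₗ[Z] Z, ∀ n, l (w n) = 1 := by
  have : Fact (Nat.Prime 2) := ⟨Nat.prime_two⟩
  have hli : LinearIndependent Z w := by
    rw [linearIndependent_iff']
    intro s g hs i
    induction i using Nat.strong_induction_on with
    | _ i ih =>
    intro hi
    have := congrArg (f i) hs
    rw [map_sum, map_zero, Finset.sum_eq_single i] at this
    · simpa [h1] using this
    · intro n hn hni
      rcases lt_or_gt_of_ne hni with h | h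
      · simp [ih n h hn]
      · simp [h0 i n h]
    · intro h; exact absurd hi h
  obtain ⟨l, hl⟩ := LinearMap.exists_extend ((Module.Basis.span hli).constr Z fun _ => (1 : Z))
  refine ⟨l, fun n => ?_⟩
  have := LinearMap.congr_fun hl (Module.Basis.span hli n)
  rw [Module.Basis.constr_basis] at this
  simpa [Module.Basis.span_apply] using this

abbrev Blk (K : Type) : Type := ℕ → Finset K × Finset K

variable {K : Type} (q : Blk K → Ultrafilter ℕ) (A : K → Set (Blk K × ℕ))

open Classical in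
noncomputable def e0 (s : Blk K) (k : ℕ) (β : K) : Z :=
  if β ∈ (s k).1 then (if β ∈ (s k).2 then 1 else 0) else (if (s, k) ∈ A β then 1 else 0)

open Classical in
noncomputable def e (d : Blk K × Option ℕ) (β : K) : Z :=
  d.2.elim (if {k | e0 A d.1 k β = 1} ∈ q d.1 then 1 else 0) fun k => e0 A d.1 k β

theorem e_lim (s : Blk K) (β : K) :
    ∀ᶠ k in (q s : Filter ℕ), e0 A s k β = e q A (s, none) β := by
  by_cases h : {k | e0 A s k β = 1} ∈ q s
  · exact Filter.mem_of_superset h fun k hk => by simpa [e, h] using hk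
  · exact Filter.mem_of_superset (Ultrafilter.compl_mem_iff_notMem.2 h) fun k hk => by
      simpa [e, h] using z01 _ hk

theorem e_none {s : Blk K} {β : K} {t : Z} (h : ∀ᶠ k in (q s : Filter ℕ), e0 A s k β = t) :
    e q A (s, none) β = t := by
  obtain ⟨k, h1, h2⟩ := (h.and (e_lim q A s β)).exists
  rw [← h2, h1]

noncomputable def G : Submodule Z (K → Z) := LinearMap.range (linearCombination Z (e q A))

theorem e_mem (d : Blk K × Option ℕ) : e q A d ∈ G q A := ⟨single d 1, by simp⟩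

theorem sel (hq : ∀ s, (q s : Filter ℕ) ≤ cofinite) (U : ℕ → Set (G q A))
    (hU : ∀ n, IsOpen (U n) ∧ (U n).Nonempty) :
    ∃ x : ℕ → G q A, (∀ n, x n ∈ U n) ∧ ∃ y, MapClusterPt y atTop x := by
  classical
  have h1 : ∀ n, ∃ F : Finset K × Finset K, ∀ y : G q A,
      (∀ β ∈ F.1, y.1 β = if β ∈ F.2 then 1 else 0) → y ∈ U n := by
    intro n
    obtain ⟨u, hu⟩ := (hU n).2
    obtain ⟨V, hV, h2⟩ := isOpen_induced_iff.1 (hU n).1
    have h3 : u.1 ∈ V := by rw [← h2] at hu; exact hu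
    obtain ⟨I, t, ht, hsub⟩ := isOpen_pi_iff.1 hV _ h3
    refine ⟨(I, I.filter fun β => u.1 β = 1), fun y hy => ?_⟩
    rw [← h2]
    refine hsub fun β hβ => ?_
    have : y.1 β = u.1 β := by
      rw [hy β hβ]
      by_cases h : u.1 β = 1
      · simp [h, show β ∈ I from hβ]
      · simp [z01 _ h]
    rw [this]; exact (ht β hβ).2
  choose s hs using h1
  refine ⟨fun n => ⟨_, e_mem q A (s, some n)⟩, fun n => hs n _ fun β hβ => by simp [e, e0, hβ],
    ⟨_, e_mem q A (s, none)⟩, ?_⟩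
  have : Tendsto (fun n => (⟨_, e_mem q A (s, some n)⟩ : G q A)) (q s : Filter ℕ)
      (𝓝 ⟨_, e_mem q A (s, none)⟩) := by
    rw [tendsto_subtype_rng, tendsto_pi_nhds]
    intro β
    exact tendsto_const_nhds.congr' ((e_lim q A s β).mono fun k hk => hk.symm)
  exact this.mapClusterPt.mono ((hq s).trans Nat.cofinite_eq_atTop.le)

open Cardinal in
theorem notp (hq : Function.Injective q)
    (hA : ∀ T : Set (Blk K × ℕ), T.Countable → ∀ N : Set K, #N ≤ 𝔠 → ∃ β ∉ N, A β = T)
    (p : Ultrafilter ℕ) (hp : (p : Filter ℕ) ≤ cofinite) :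
    ∃ U : ℕ → Set (G q A), (∀ n, IsOpen (U n) ∧ (U n).Nonempty) ∧
      ∀ x : ℕ → G q A, (∀ n, x n ∈ U n) → ∀ y, ¬ Tendsto x (p : Filter ℕ) (𝓝 y) := by
  classical
  have h1 : ∀ w : ℕ → W, ∃ r, (∃ r', Null p w r') → Null p w r := by
    intro w
    by_cases h : ∃ r', Null p w r'
    · obtain ⟨r, hr⟩ := h; exact ⟨r, fun _ => hr⟩
    · exact ⟨fun _ => p, fun h' => absurd h' h⟩
  choose rep hrep using h1
  let Q : Set (Ultrafilter ℕ) := range fun a : (ℕ → W) × ℕ => rep a.1 a.2
  have hQ : #Q ≤ 𝔠 := mk_range_le.trans (by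
    have : #W ≤ ℵ₀ := mk_le_aleph0
    rw [mk_prod, lift_id, lift_id, ← power_def, mk_nat]
    calc #W ^ ℵ₀ * ℵ₀ ≤ ℵ₀ ^ ℵ₀ * ℵ₀ := by gcongr; exact power_le_power_right this
      _ = 𝔠 := by simp)
  let R : Set (Blk K) := q ⁻¹' Q
  have hR : #R ≤ 𝔠 := (mk_preimage_of_injective _ _ hq).trans hQ
  have hdom : ∀ S : Set (Blk K), #S ≤ 𝔠 →
      #(⋃ s ∈ S, ⋃ k, ((s k).1 : Set K) : Set K) ≤ 𝔠 := by
    intro S hS
    refine (mk_biUnion_le _ _).trans ((mul_le_mul' hS (ciSup_le' fun s => ?_)).trans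
      continuum_mul_self.le)
    exact (le_aleph0_iff_set_countable.2 (countable_iUnion fun k =>
      (s.1 k).1.countable_toSet)).trans aleph0_le_continuum
  have hinf : {β | β ∉ (⋃ s ∈ R, ⋃ k, ((s k).1 : Set K)) ∧ A β = ∅}.Infinite := by
    intro hfin
    obtain ⟨β, h2, h3⟩ := hA ∅ countable_empty _ ((mk_union_le _ _).trans
      ((add_le_add (hdom R hR) ((le_aleph0_iff_set_countable.2 hfin.countable).trans
        aleph0_le_continuum)).trans continuum_add_self.le))
    exact h2 (Or.inr ⟨fun h => h2 (Or.inl h), h3⟩)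
  let b : ℕ → K := fun n => (hinf.natEmbedding _ n).1
  have hb : Function.Injective b := Subtype.val_injective.comp (hinf.natEmbedding _).injective
  have hb0 : ∀ n, ∀ d : Blk K × Option ℕ, d.1 ∈ R → e q A d (b n) = 0 := by
    intro n ⟨s, o⟩ hs
    have h2 := (hinf.natEmbedding _ n).2
    have h3 : ∀ k, e0 A s k (b n) = 0 := fun k => by
      have : b n ∉ (s k).1 := fun h => h2.1 (mem_biUnion hs (mem_iUnion.2 ⟨k, h⟩))
      have h4 : A (b n) = ∅ := h2.2
      simp [e0, this, h4]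
    cases o with
    | none => exact e_none q A (Eventually.of_forall h3)
    | some k => exact h3 k
  have hc : ∀ β, Continuous fun y : G q A => y.1 β := fun β =>
    (continuous_apply β).comp continuous_subtype_val
  refine ⟨fun n => {y | y.1 (b n) = 1 ∧ ∀ m < n, y.1 (b m) = 0}, fun n => ⟨?_, ?_⟩, ?_⟩
  · refine ((isOpen_discrete {1}).preimage (hc (b n))).inter ?_
    have : {y : G q A | ∀ m < n, y.1 (b m) = 0} = ⋂ m ∈ Iio n, {y | y.1 (b m) = 0} := by
      ext; simp
    show IsOpen {y : G q A | ∀ m < n, y.1 (b m) = 0}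
    rw [this]
    exact (finite_lt_nat n).isOpen_biInter fun m _ =>
      (isOpen_discrete {0}).preimage (hc (b m))
  · refine ⟨⟨_, e_mem q A (fun _ => ((Finset.range (n + 1)).image b, {b n}), some 0)⟩, ?_,
      fun m hm => ?_⟩
    · simp [e, e0, hb.eq_iff]
    · simp [e, e0, hb.eq_iff, hm.ne]
      omega
  intro x hx y hy
  have hlim : ∀ β, ∀ᶠ n in (p : Filter ℕ), (x n).1 β = y.1 β := fun β =>
    ((hc β).tendsto y).comp hy ((isOpen_discrete {y.1 β}).mem_nhds rfl)
  have hy0 : ∀ m, y.1 (b m) = 0 := fun m => by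
    obtain ⟨n, h2, h3⟩ := ((hlim (b m)).and (hp (Nat.cofinite_eq_atTop ▸ eventually_gt_atTop m :
      ∀ᶠ n in cofinite, m < n))).exists
    rw [← h2]; exact (hx n).2 m h3
  have h2 : ∀ n, ∃ z, linearCombination Z (e q A) z = (x n - y).1 := fun n => (x n - y).2
  choose z hz using h2
  have hz' : ∀ n β, lc (fun d => e q A d β) (z n) = (x n).1 β - y.1 β := fun n β => by
    have := apply_linearCombination Z (LinearMap.proj β : (K → Z) →ₗ[Z] Z) (e q A) (z n)
    rw [hz] at this
    exact this.symm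
  let S : Set (Blk K) := ⋃ n, Prod.fst '' ((z n).support : Set (Blk K × Option ℕ))
  have hS : S.Countable := countable_iUnion fun n => (z n).support.countable_toSet.image _
  obtain ⟨j, hj⟩ := Set.countable_iff_exists_injOn.1 hS
  let F : Blk K × Option ℕ → W := fun d => if d.1 ∈ R then 0 else single (j d.1, d.2) 1
  let w : ℕ → W := fun n => linearCombination Z F (z n)
  have key : ∀ (φ : ℕ × Option ℕ → Z) (β : K),
      (∀ d : Blk K × Option ℕ, d.1 ∈ S → e q A d β = if d.1 ∈ R then 0 else φ (j d.1, d.2)) →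
      ∀ n, lc φ (w n) = (x n).1 β - y.1 β := by
    intro φ β h n
    rw [← hz', apply_linearCombination]
    refine lc_congr fun d hd => ?_
    rw [h d (mem_iUnion.2 ⟨n, d, hd, rfl⟩)]
    by_cases hd' : d.1 ∈ R <;> simp [F, hd']
  have h3 : ∀ i : ℕ, ∃ o : Option (Blk K), (∀ s ∈ S, s ∉ R → j s = i → o = some s) ∧
      ∀ s, o = some s → s ∉ R := by
    intro i
    by_cases h : ∃ s ∈ S, s ∉ R ∧ j s = i
    · obtain ⟨s, h4, h5, h6⟩ := h
      exact ⟨some s, fun t h7 _ h8 => by rw [hj h4 h7 (h6.trans h8.symm)],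
        fun t ht => Option.some.inj ht ▸ h5⟩
    · exact ⟨none, fun s h4 h5 h6 => absurd ⟨s, h4, h5, h6⟩ h, fun s hs => by simp at hs⟩
  choose g hg1 hg2 using h3
  have h4 : ∀ r : Ultrafilter ℕ, ∃ r', r ≠ r' := fun r => by
    by_cases h : r = pure 0
    · exact ⟨pure 1, h ▸ fun h' => absurd (Ultrafilter.pure_injective h') (by simp)⟩
    · exact ⟨pure 0, h⟩
  choose ot hot using h4
  let r1 : ℕ → Ultrafilter ℕ := fun i => (g i).elim (ot (rep w i)) q
  have hn1 : Null p w r1 := by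
    intro φ hφ
    obtain ⟨β, h5, h6⟩ := hA {a | a.1 ∈ S ∧ a.1 ∉ R ∧ φ (j a.1, some a.2) = 1}
      ((hS.prod countable_univ).mono fun a ha => And.intro ha.1 trivial) _
      (hdom S ((le_aleph0_iff_set_countable.2 hS).trans aleph0_le_continuum))
    have h7 : ∀ s ∈ S, ∀ k, e0 A s k β = if s ∈ R then 0 else φ (j s, some k) := by
      intro s hs k
      have : β ∉ (s k).1 := fun h => h5 (mem_biUnion hs (mem_iUnion.2 ⟨k, h⟩))
      by_cases h8 : s ∈ R
      · simp [e0, this, h6, h8]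
      · by_cases h9 : φ (j s, some k) = 1
        · simp [e0, this, h6, h8, h9, hs]
        · simp [e0, this, h6, h8, z01 _ h9]
    have h8 := key φ β fun ⟨s, o⟩ hs => by
      cases o with
      | some k => exact h7 s hs k
      | none =>
        refine e_none q A ?_
        by_cases h8 : s ∈ R
        · exact Eventually.of_forall fun k => by simp [h7 s hs k, h8]
        · have := hφ (j s)
          simp only [r1, hg1 _ s hs h8 rfl, Option.elim_some] at this
          exact this.mono fun k hk => by simp [h7 s hs k, h8, hk]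
    exact (hlim β).mono fun n hn => by rw [h8, hn, sub_self]
  have hne : ∀ i, rep w i ≠ r1 i := by
    intro i
    cases h : g i with
    | none => simpa [r1, h] using hot _
    | some s =>
      simp only [r1, h, Option.elim_some]
      exact fun h' => hg2 i s h ⟨(w, i), h'⟩
  have h5 : ∀ m n, lc (fun a : ℕ × Option ℕ => (g a.1).elim 0 fun s => e q A (s, a.2) (b m))
      (w n) = (x n).1 (b m) := fun m n => by
    rw [key _ (b m), hy0, sub_zero]
    intro d hd
    by_cases h : d.1 ∈ R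
    · simp [h, hb0 m d h]
    · simp [h, hg1 _ _ hd h rfl]
  obtain ⟨l, hl⟩ := tri w _ (fun n => (h5 n n).trans (hx n).1)
    fun m n h => (h5 m n).trans ((hx n).2 m h)
  obtain ⟨n, hn⟩ := (two_null (hrep w ⟨_, hn1⟩) hn1 hne fun a => l (single a 1)).exists
  have : lc (fun a => l (single a 1)) = l := by ext a; simp
  rw [this, hl] at hn
  exact one_ne_zero hn

open Cardinal in
theorem many_ultra : 2 ^ 𝔠 ≤ #{p : Ultrafilter ℕ | (p : Filter ℕ) ≤ cofinite} := by
  have := GrothEx.separable_cube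
  have hs : TopologicalSpace.SeparableSpace (ℝ → unitInterval) :=
    (Function.Surjective.denseRange (f := fun (f : ℝ → ℝ) x => projIcc 0 1 zero_le_one (f x))
      fun g => ⟨fun x => g x, funext fun x => by simp⟩).separableSpace
      (continuous_pi fun x => continuous_projIcc.comp (continuous_apply x))
  obtain ⟨d, hd⟩ := TopologicalSpace.exists_dense_seq (ℝ → unitInterval)
  have hsurj : Function.Surjective (Ultrafilter.extend d) := by
    rw [← range_eq_univ, ← (isCompact_range (continuous_ultrafilter_extend d)).isClosed.closure_eq]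
    refine (hd.mono ?_).closure_eq
    rintro _ ⟨n, rfl⟩
    exact ⟨pure n, congrFun (ultrafilter_extend_extends d) n⟩
  have h1 : 2 ^ 𝔠 ≤ #(Ultrafilter ℕ) := by
    refine le_trans ?_ (mk_le_of_surjective hsurj)
    rw [← power_def, mk_real]
    exact power_le_power_right (by
      rw [show (unitInterval : Type) = Icc (0 : ℝ) 1 from rfl, mk_Icc_real zero_lt_one]
      exact nat_lt_continuum 2 |>.le)
  have h2 : (Set.univ : Set (Ultrafilter ℕ)) ⊆
      {p : Ultrafilter ℕ | (p : Filter ℕ) ≤ cofinite} ∪ range pure := fun p _ =>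
    p.le_cofinite_or_eq_pure.imp id fun ⟨a, ha⟩ => ⟨a, ha.symm⟩
  have h3 := (mk_le_mk_of_subset h2).trans (mk_union_le _ _)
  rw [mk_univ] at h3
  by_contra h
  push Not at h
  have h4 : ℵ₀ < 2 ^ 𝔠 := aleph0_lt_continuum.trans (cantor _)
  exact absurd (h1.trans h3) (not_le.2 (add_lt_of_lt h4.le h
    ((mk_range_le.trans mk_nat.le).trans_lt h4)))

open Cardinal in
theorem exists_data : ∃ (K : Type) (q : Blk K → Ultrafilter ℕ) (A : K → Set (Blk K × ℕ)),
    (∀ s, (q s : Filter ℕ) ≤ cofinite) ∧ Function.Injective q ∧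
    ∀ T : Set (Blk K × ℕ), T.Countable → ∀ N : Set K, #N ≤ 𝔠 → ∃ β ∉ N, A β = T := by
  let K := Set ℝ
  have hK : #K = 2 ^ 𝔠 := by rw [mk_set, mk_real]
  have h0 : ℵ₀ ≤ 2 ^ 𝔠 := (aleph0_lt_continuum.trans (cantor _)).le
  have hpow : ((2 : Cardinal.{0}) ^ 𝔠) ^ ℵ₀ = 2 ^ 𝔠 := by rw [← power_mul]; simp
  have hB : #(Blk K) = 2 ^ 𝔠 := by
    rw [← power_def, mk_prod, mk_finset_of_infinite, lift_id, hK, mul_eq_self h0, mk_nat, hpow]
  have hT : #((ℕ → Option (Blk K × ℕ)) × K) = #K := by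
    rw [mk_prod, lift_id, lift_id, ← power_def, mk_option, mk_prod, lift_id, lift_id, hB, hK,
      mk_nat, mul_aleph0_eq h0, add_one_eq h0, hpow, mul_eq_self h0]
  obtain ⟨σ⟩ := Cardinal.eq.1 hT
  obtain ⟨q⟩ := (Cardinal.le_def _ _).1 (hB.trans_le many_ultra)
  refine ⟨K, fun s => (q s).1, fun β => {x | some x ∈ range (σ.symm β).1}, fun s => (q s).2,
    Subtype.val_injective.comp q.injective, fun T hT N hN => ?_⟩
  obtain ⟨t, ht⟩ := ((hT.image some).insert none).exists_eq_range (insert_nonempty _ _)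
  have : ∃ k, σ (t, k) ∉ N := by
    by_contra h
    push Not at h
    have := mk_le_of_injective (f := fun k => (⟨σ (t, k), h k⟩ : N)) fun a b hab =>
      congrArg Prod.snd (σ.injective (congrArg Subtype.val hab))
    exact absurd ((hK.symm.le.trans this).trans hN) (not_le.2 (cantor _))
  obtain ⟨k, hk⟩ := this
  refine ⟨_, hk, ?_⟩
  ext x
  simp [← ht]

theorem main : ∃ (G : Type) (_ : CommGroup G) (_ : TopologicalSpace G),
      IsTopologicalGroup G ∧ T2Space G ∧
      (∀ U : ℕ → Set G, (∀ n, IsOpen (U n) ∧ (U n).Nonempty) →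
        ∃ x : ℕ → G, (∀ n, x n ∈ U n) ∧ ∃ y : G, MapClusterPt y atTop x) ∧
      (∀ p : Ultrafilter ℕ, (p : Filter ℕ) ≤ cofinite →
        ∃ U : ℕ → Set G, (∀ n, IsOpen (U n) ∧ (U n).Nonempty) ∧
          ∀ x : ℕ → G, (∀ n, x n ∈ U n) →
            ∀ y : G, ¬ Tendsto x (p : Filter ℕ) (𝓝 y)) := by
  obtain ⟨K, q, A, h1, h2, h3⟩ := exists_data
  exact ⟨Multiplicative (G q A), inferInstance, inferInstance, inferInstance,
    inferInstanceAs (T2Space (G q A)), sel q A h1, notp q A h2 h3⟩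

end Pool.Agent.H33.SelPs
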