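import Mathlib
import Pool.Agent.H33.CorsonProd

/-!
Countably compact subspaces of `C_p(X)` when `X` has a dense sigma-bounded subspace.
-/

open Set Filter Topology

namespace Pool.Agent.H33.SigmaBdd

open Pool.Agent.H33.Groth Pool.Agent.H33.Retr

variable {X : Type*} [TopologicalSpace X]

theorem agree_countable {B : Type*} (ev : X → B → ℝ) (hev : Continuous ev) {A : Set X}
    (hA : ∀ f : X → ℝ, Continuous f → ∃ C : ℝ, ∀ x ∈ A, |f x| ≤ C) {g : B → ℝ}
    (hg : g ∈ closure (ev '' A)) (d : ℕ → B) : ∃ x, ∀ n, ev x (d n) = g (d n) := by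
  have hs : Summable fun n : ℕ => ((1 : ℝ) / 2) ^ n := summable_geometric_two
  let t : (B → ℝ) → ℕ → ℝ := fun w n => ((1 : ℝ) / 2) ^ n * min 1 |w (d n) - g (d n)|
  have ht0 : ∀ w n, 0 ≤ t w n := fun w n =>
    mul_nonneg (by positivity) (le_min zero_le_one (abs_nonneg _))
  have ht : ∀ w n, ‖t w n‖ ≤ ((1 : ℝ) / 2) ^ n := fun w n => by
    rw [Real.norm_of_nonneg (ht0 w n)]
    exact mul_le_of_le_one_right (by positivity) (min_le_left _ _)
  have hc : Continuous fun w => ∑' n, t w n :=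
    continuous_tsum (fun n => by fun_prop) hs fun n w => ht w n
  by_contra hn
  push Not at hn
  have hpos : ∀ x, 0 < ∑' n, t (ev x) n := fun x => by
    obtain ⟨n, hn⟩ := hn x
    exact (Summable.of_norm_bounded hs (ht _)).tsum_pos (ht0 _) n
      (mul_pos (by positivity) (lt_min one_pos (abs_pos.2 (sub_ne_zero.2 hn))))
  obtain ⟨C, hC⟩ := hA (fun x => (∑' n, t (ev x) n)⁻¹) ((hc.comp hev).inv₀ fun x => (hpos x).ne')
  have h1 : closure (ev '' A) ⊆ {w | 1 ≤ C * ∑' n, t w n} := by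
    refine closure_minimal ?_ (isClosed_le continuous_const (continuous_const.mul hc))
    rintro _ ⟨x, hx, rfl⟩
    have := (le_abs_self _).trans (hC x hx)
    rwa [inv_le_iff_one_le_mul₀ (hpos x)] at this
  have h2 := h1 hg
  simp [t] at h2
  linarith

theorem compact_ev {B : Type*} (ev : X → B → ℝ) (hev : Continuous ev) {A : Set X}
    (hA : ∀ f : X → ℝ, Continuous f → ∃ C : ℝ, ∀ x ∈ A, |f x| ≤ C) :
    IsCompact (closure (ev '' A)) := by
  choose C hC using fun b => hA (fun x => ev x b) ((continuous_apply b).comp hev)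
  refine (isCompact_univ_pi fun x => isCompact_Icc (a := -C x) (b := C x)).of_isClosed_subset
    isClosed_closure (closure_minimal ?_ (isClosed_set_pi fun x _ => isClosed_Icc))
  rintro _ ⟨x, hx, rfl⟩ b -
  exact abs_le.1 (hC b x hx)

theorem continuous_of_bounded {B : Type*} [TopologicalSpace B] (hB : SC (univ : Set B) univ)
    (ev : X → B → ℝ) (hev : Continuous ev) (hev' : ∀ x, Continuous (ev x)) {A : Set X}
    (hA : ∀ f : X → ℝ, Continuous f → ∃ C : ℝ, ∀ x ∈ A, |f x| ≤ C) {g : B → ℝ}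
    (hg : g ∈ closure (ev '' A)) : Continuous g := by
  refine continuous_iff_continuousAt.2 fun k₀ => Metric.tendsto_nhds.2 fun ε hε => ?_
  by_contra hn
  have hE : k₀ ∈ closure {k | ε ≤ |g k - g k₀|} := by
    rw [mem_closure_iff_frequently]
    simpa [Real.dist_eq] using hn
  obtain ⟨a, C, ha, hk₀, hC, hd⟩ := double_limit (ev '' A) g hg
    (fun _ => {k | ε ≤ |g k - g k₀|}) k₀
  have hac : ∀ k, Continuous (a k) := fun k => by
    obtain ⟨x, -, hx⟩ := ha k
    exact hx ▸ hev' x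
  obtain ⟨d, hdC, hdt⟩ := exists_seq_tendsto a (C ∩ {k | ε ≤ |g k - g k₀|}) (fun k => a k k₀) (by
    refine closure_minimal ?_ isClosed_closure (map_mem_closure (f := fun y k => a k y)
      (continuous_pi hac) hE fun _ h => mem_image_of_mem _ h)
    rintro _ ⟨y, hy, rfl⟩
    obtain ⟨d, hd1, -, hd2⟩ := hd 0 y hy
    exact mem_closure_of_tendsto (tendsto_pi_nhds.2 hd2)
      (Eventually.of_forall fun n => mem_image_of_mem _ (hd1 n)))
  obtain ⟨z, hz, hza⟩ := (compact_ev ev hev hA).exists_mapClusterPt (f := atTop) (u := a) (by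
    rw [le_principal_iff, Filter.mem_map]
    exact Eventually.of_forall fun n => subset_closure (ha n))
  have h1 : ∀ c ∈ C, z c = g c := fun c hc =>
    eq_of_cluster (f := fun f : B → ℝ => f c) hza (continuous_apply c) (hC c hc)
  obtain ⟨y, -, hy⟩ := hB d fun _ => mem_univ _
  have h2 : ∀ k, a k y = a k k₀ := fun k => eq_of_cluster hy (hac k) (hdt k)
  have h3 : z y - z k₀ = 0 := eq_of_cluster (f := fun f : B → ℝ => f y - f k₀) hza
    (by fun_prop) (by simp [h2])
  obtain ⟨x, hx⟩ := agree_countable ev hev hA hz fun n => Nat.casesOn n y d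
  have h4 : ε ≤ |ev x y - g k₀| :=
    (isClosed_le (g := fun k => |ev x k - g k₀|) continuous_const
      ((hev' x).sub continuous_const).abs).mem_of_mapClusterPt hy (Eventually.of_forall fun n => by
        have h5 : ev x (d n) = z (d n) := hx (n + 1)
        rw [mem_ofPred_eq, h5, h1 _ (hdC n).1]
        exact (hdC n).2)
  have h5 : ev x y = z y := hx 0
  rw [h5, ← h1 _ hk₀, h3, abs_zero] at h4
  exact absurd h4 (not_le.2 hε)

theorem compact_of_bounded (A : ℕ → Set X)
    (hA : ∀ n, ∀ f : X → ℝ, Continuous f → ∃ C : ℝ, ∀ x ∈ A n, |f x| ≤ C)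
    (hD : Dense (⋃ n, A n)) {K : Set (X → ℝ)} (hK : ∀ f ∈ K, Continuous f) (hS : SC K K) :
    IsCompact K := by
  have hB : SC (univ : Set K) univ := fun a _ => by
    obtain ⟨z, hz, hza⟩ := hS (fun n => a n) fun n => (a n).2
    exact ⟨⟨z, hz⟩, mem_univ _, (IsInducing.subtypeVal.mapClusterPt_iff).1 hza⟩
  let ev : X → K → ℝ := fun x f => f.1 x
  have hev : Continuous ev := continuous_pi fun f => hK f.1 f.2
  have hev' : ∀ x, Continuous (ev x) := fun x => (continuous_apply x).comp continuous_subtype_val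
  refine hS.isCompact_closure.of_isClosed_subset (isClosed_of_closure_subset fun g hg => ?_)
    subset_closure
  have key : ∀ x, ∃ z ∈ K, z x = g x ∧ EqOn z g (⋃ m, A m) := by
    intro x
    obtain ⟨a, C, ha, hx, hC, hd⟩ := double_limit K g hg A x
    obtain ⟨z, -, hza⟩ := hB (fun n => ⟨a n, ha n⟩) fun _ => mem_univ _
    have h1 : ∀ c ∈ C, z.1 c = g c := fun c hc =>
      eq_of_cluster (f := ev c) hza (hev' c) (hC c hc)
    refine ⟨z, z.2, h1 x hx, fun y hy => ?_⟩
    obtain ⟨m, hm⟩ := mem_iUnion.1 hy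
    obtain ⟨d, hdC, hgd, had⟩ := hd m y hm
    obtain ⟨w, hw, hwd⟩ := (compact_ev ev hev (hA m)).exists_mapClusterPt (f := atTop)
      (u := fun n => ev (d n)) (by
      rw [le_principal_iff, Filter.mem_map]
      exact Eventually.of_forall fun n => subset_closure (mem_image_of_mem _ (hdC n).2))
    have hwc := continuous_of_bounded hB ev hev hev' (hA m) hw
    have h2 : ∀ k, w ⟨a k, ha k⟩ = a k y := fun k =>
      eq_of_cluster (f := fun f : K → ℝ => f ⟨a k, ha k⟩) hwd (continuous_apply _) (had k)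
    have h3 : w z - ev y z = 0 := eq_of_cluster (f := fun f : K => w f - ev y f) hza
      (hwc.sub (hev' y)) (by simp [h2, ev])
    have h4 : w z = g y := eq_of_cluster (f := fun f : K → ℝ => f z) hwd (continuous_apply _) (by
      simpa only [ev, fun n => h1 _ (hdC n).1] using hgd)
    have h5 : ev y z = z.1 y := rfl
    linarith
  rcases isEmpty_or_nonempty X with hX | ⟨⟨x₀⟩⟩
  · obtain ⟨f, hf⟩ := closure_nonempty_iff.1 ⟨g, hg⟩
    rwa [Subsingleton.elim g f]
  · obtain ⟨z, hz, -, hzD⟩ := key x₀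
    have : g = z := by
      funext x
      obtain ⟨z', hz', hx, hzD'⟩ := key x
      rw [← hx, Continuous.ext_on hD (hK _ hz') (hK _ hz) (hzD'.trans hzD.symm)]
    rwa [this]

theorem c0_of_sigma {B : Type*} [TopologicalSpace B] [CompactSpace B] (Y : ℕ → Set (B → ℝ))
    (hYk : ∀ n, IsCompact (Y n)) (hYc : ∀ n, ∀ v ∈ Y n, Continuous v)
    (hsep : ∀ g g', (∀ n, ∀ v ∈ Y n, v g = v g') → g = g') :
    ∃ G : Set (B → ℝ), (∀ v ∈ G, Continuous v) ∧ (∀ g g', (∀ v ∈ G, v g = v g') → g = g') ∧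
      ∀ b, ∀ ε > 0, {v ∈ G | ε ≤ |v b|}.Finite := by
  let m : ℝ × (B → ℝ) → B → ℝ := fun p b => p.1 * (Real.arctan (p.2 b) / 2)
  have hm : Continuous m := by fun_prop
  let Z : ℕ → Set (B → ℝ) := fun n => m '' (Icc 0 (1 / ((n : ℝ) + 1)) ×ˢ Y n)
  have hZk : ∀ n, IsCompact (Z n) := fun n => (isCompact_Icc.prod (hYk n)).image hm
  have hZb : ∀ n, ∀ v ∈ Z n, ∀ b, |v b| ≤ 1 / ((n : ℝ) + 1) := by
    rintro n _ ⟨p, hp, rfl⟩ b
    have h1 : |Real.arctan (p.2 b) / 2| ≤ 1 := by
      have := Real.arctan_lt_pi_div_two (p.2 b)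
      have := Real.neg_pi_div_two_lt_arctan (p.2 b)
      have := Real.pi_le_four
      rw [abs_le]
      constructor <;> linarith
    simp only [m, abs_mul, abs_of_nonneg hp.1.1]
    exact (mul_le_of_le_one_right hp.1.1 h1).trans hp.1.2
  refine exists_c0 (Y := insert 0 (⋃ n, Z n)) ?_ ?_ ?_ ?_ ?_
  · refine isCompact_iff_ultrafilter_le_nhds'.2 fun f hf => ?_
    by_cases h : ∃ n, Z n ∈ f
    · obtain ⟨n, hn⟩ := h
      obtain ⟨x, hx, hfx⟩ := isCompact_iff_ultrafilter_le_nhds'.1 (hZk n) f hn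
      exact ⟨x, Or.inr (mem_iUnion.2 ⟨n, hx⟩), hfx⟩
    · push Not at h
      refine ⟨0, mem_insert _ _, tendsto_pi_nhds.2 fun b => Metric.tendsto_nhds.2 fun ε hε => ?_⟩
      obtain ⟨N, hN⟩ := exists_nat_one_div_lt hε
      have h1 : ∀ᶠ v in (f : Filter (B → ℝ)), ∀ n ∈ Finset.range N, v ∉ Z n :=
        (eventually_all_finset _).2 fun n _ => Ultrafilter.compl_mem_iff_notMem.2 (h n)
      filter_upwards [hf, h1] with v hv hv1
      rcases hv with rfl | hv
      · simpa using hε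
      · obtain ⟨n, hn⟩ := mem_iUnion.1 hv
        have h2 : N ≤ n := not_lt.1 fun h => hv1 n (Finset.mem_range.2 h) hn
        have h3 : 1 / ((n : ℝ) + 1) ≤ 1 / ((N : ℝ) + 1) := Nat.one_div_le_one_div h2
        have := hZb n v hn b
        simp only [Pi.zero_apply, dist_zero_right, Real.norm_eq_abs]
        linarith
  · rintro v (rfl | hv)
    · exact continuous_const
    · obtain ⟨n, p, hp, rfl⟩ := mem_iUnion.1 hv
      have := hYc n _ hp.2
      fun_prop
  · rintro v (rfl | hv) b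
    · simp
    · obtain ⟨n, hn⟩ := mem_iUnion.1 hv
      refine (hZb n v hn b).trans ?_
      rw [div_le_one (by positivity)]
      linarith [Nat.cast_nonneg (α := ℝ) n]
  · rintro v (rfl | hv) t ht
    · simp
    · obtain ⟨n, p, hp, rfl⟩ := mem_iUnion.1 hv
      refine Or.inr (mem_iUnion.2 ⟨n, (t * p.1, p.2), ⟨⟨mul_nonneg ht.1 hp.1.1,
        (mul_le_of_le_one_left hp.1.1 ht.2).trans hp.1.2⟩, hp.2⟩, ?_⟩)
      funext b
      simp only [m, Pi.smul_apply, smul_eq_mul, mul_assoc]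
  · intro g g' h
    refine hsep g g' fun n v hv => Real.arctan_injective ?_
    have := mul_left_cancel₀ (Nat.one_div_pos_of_nat (α := ℝ) (n := n)).ne'
      (h _ (Or.inr (mem_iUnion.2 ⟨n, (1 / ((n : ℝ) + 1), v),
        ⟨⟨Nat.one_div_pos_of_nat.le, le_rfl⟩, hv⟩, rfl⟩)))
    linarith

theorem main (X : Type) [TopologicalSpace X] (A : ℕ → Set X)
    (hA : ∀ n, ∀ f : X → ℝ, Continuous f → ∃ C : ℝ, ∀ x ∈ A n, |f x| ≤ C)
    (hD : Dense (⋃ n, A n)) (K : Set (X → ℝ)) (hK : ∀ f ∈ K, Continuous f)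
    (hcc : ∀ U : ℕ → Set (X → ℝ), (∀ n, IsOpen (U n)) → K ⊆ ⋃ n, U n →
      ∃ N : ℕ, K ⊆ ⋃ n ∈ Finset.range N, U n) :
    IsCompact K ∧ ∃ (Γ : Type) (e : K → (Γ → ℝ)), Topology.IsEmbedding e ∧
      ∀ k : K, ∀ ε : ℝ, 0 < ε → {γ : Γ | ε ≤ |e k γ|}.Finite := by
  have hS : SC K K := by
    intro a ha
    by_contra hn
    push Not at hn
    obtain ⟨N, hN⟩ := hcc (fun n => (closure (a '' Ici n))ᶜ)
      (fun n => isClosed_closure.isOpen_compl) (fun z hz => by
        by_contra h
        simp only [mem_iUnion, mem_compl_iff, not_exists, not_not] at h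
        exact hn z hz (mapClusterPt_atTop_iff_forall_mem_closure.2 h))
    obtain ⟨n, hn1, hn2⟩ := mem_iUnion₂.1 (hN (ha N))
    exact hn2 (subset_closure ⟨N, (Finset.mem_range.1 hn1).le, rfl⟩)
  have hc := compact_of_bounded A hA hD hK hS
  refine ⟨hc, ?_⟩
  have : CompactSpace K := isCompact_iff_compactSpace.1 hc
  let ev : X → K → ℝ := fun x f => f.1 x
  have hev : Continuous ev := continuous_pi fun f => hK f.1 f.2
  have hev' : ∀ x, Continuous (ev x) := fun x => (continuous_apply x).comp continuous_subtype_val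
  obtain ⟨G, hG, hs, hf⟩ := c0_of_sigma (fun n => closure (ev '' A n))
    (fun n => compact_ev ev hev (hA n)) (fun n v hv => continuous_of_bounded (fun a _ => by
      obtain ⟨z, hz⟩ := exists_clusterPt_of_compactSpace (map a atTop)
      exact ⟨z, mem_univ _, hz⟩) ev hev hev' (hA n) hv) (fun g g' h => by
      refine Subtype.ext (Continuous.ext_on hD (hK _ g.2) (hK _ g'.2) fun x hx => ?_)
      obtain ⟨n, hn⟩ := mem_iUnion.1 hx
      exact h n _ (subset_closure (mem_image_of_mem _ hn)))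
  refine ⟨G, _, CorsonProd.embed_of_family hG hs, fun b ε hε => ?_⟩
  refine Finite.subset ((hf b ε hε).preimage
    (Subtype.val_injective (p := fun v => v ∈ G)).injOn) ?_
  exact fun v hv => ⟨v.2, hv⟩

end Pool.Agent.H33.SigmaBdd
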