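import Mathlib
import Pool.Agent.H33.Spl3
import Pool.Agent.H33.ScatVal

/-!
Continuous images of Corson and of Eberlein compacta.
-/

open Set Filter Topology

namespace Pool.Agent.H33.Spl4

open Pool.Agent.H33.Retr Pool.Agent.H33.Spl3

/-- countable, and finite if `p` holds -/
def Sm (p : Prop) {α : Type} (S : Set α) : Prop := S.Countable ∧ (p → S.Finite)

section
variable {p : Prop} {α β : Type}

theorem Sm.mono {S T : Set α} (h : Sm p T) (h' : S ⊆ T) : Sm p S :=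
  ⟨h.1.mono h', fun hp => (h.2 hp).subset h'⟩

theorem Sm.of_finite {S : Set α} (h : S.Finite) : Sm p S := ⟨h.countable, fun _ => h⟩

theorem Sm.union {S T : Set α} (h : Sm p S) (h' : Sm p T) : Sm p (S ∪ T) :=
  ⟨h.1.union h'.1, fun hp => (h.2 hp).union (h'.2 hp)⟩

theorem Sm.image {S : Set α} (h : Sm p S) (f : α → β) : Sm p (f '' S) :=
  ⟨h.1.image f, fun hp => (h.2 hp).image f⟩

theorem Sm.biUnion {S : Set α} (h : Sm p S) {f : α → Set β} (hf : ∀ a, Sm p (f a)) :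
    Sm p (⋃ a ∈ S, f a) :=
  ⟨h.1.biUnion fun a _ => (hf a).1, fun hp => (h.2 hp).biUnion fun a _ => (hf a).2 hp⟩

end

/-- truncation -/
noncomputable def tr (k : ℕ) (t : ℝ) : ℝ := max (t - 1 / ((k : ℝ) + 1)) 0 + min (t + 1 / ((k : ℝ) + 1)) 0

theorem tr_cont (k : ℕ) : Continuous (tr k) := by
  unfold tr
  fun_prop

theorem tr_zero {k : ℕ} {t : ℝ} (h : |t| ≤ 1 / ((k : ℝ) + 1)) : tr k t = 0 := by
  rw [abs_le] at h
  rw [tr, max_eq_right (by linarith), min_eq_right (by linarith), add_zero]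

theorem tr_near (k : ℕ) (t : ℝ) : |tr k t - t| ≤ 1 / ((k : ℝ) + 1) := by
  have h0 : (0 : ℝ) < 1 / ((k : ℝ) + 1) := Nat.one_div_pos_of_nat
  rw [tr, abs_le]
  rcases max_cases (t - 1 / ((k : ℝ) + 1)) 0 with h | h <;>
    rcases min_cases (t + 1 / ((k : ℝ) + 1)) 0 with h' | h' <;> constructor <;> linarith [h.1, h.2, h'.1, h'.2]

theorem eq_of_near {a b : ℝ} (h : ∀ k : ℕ, |a - b| ≤ 2 * (1 / ((k : ℝ) + 1))) : a = b := by
  by_contra hne
  obtain ⟨k, hk⟩ := exists_nat_one_div_lt (half_pos (abs_pos.2 (sub_ne_zero.2 hne)))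
  linarith [h k]

theorem tr_inj {a b : ℝ} (h : ∀ k, tr k a = tr k b) : a = b := eq_of_near fun k => by
  have h1 := tr_near k a
  have h2 := tr_near k b
  rw [h k] at h1
  rw [abs_le] at *
  constructor <;> linarith [h1.1, h1.2, h2.1, h2.2]

variable {X Z Γ : Type} [TopologicalSpace X] [CompactSpace X] [TopologicalSpace Z]
  {e : X → Γ → ℝ} {g : X → Z}

/-- modulus of continuity -/
def Un (e : X → Γ → ℝ) (f : X → ℝ) (k m : ℕ) : Prop :=
  ∃ F : Finset Γ, ∀ x y, (∀ γ ∈ F, |e x γ - e y γ| < 1 / ((m : ℝ) + 1)) →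
    |f x - f y| ≤ 1 / ((k : ℝ) + 1)

theorem exists_un (he : Continuous e) (hi : e.Injective) {f : X → ℝ} (hf : Continuous f) (k : ℕ) :
    ∃ m, Un e f k m := by
  classical
  have hc : IsCompact {q : X × X | 1 / ((k : ℝ) + 1) ≤ |f q.1 - f q.2|} :=
    (isClosed_le continuous_const (by fun_prop)).isCompact
  obtain ⟨s, hs⟩ := hc.elim_finite_subcover
    (fun i : Γ × ℕ => {q : X × X | 1 / ((i.2 : ℝ) + 1) < |e q.1 i.1 - e q.2 i.1|})
    (fun i => isOpen_lt continuous_const (by fun_prop)) fun q hq => by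
      by_contra h
      simp only [mem_iUnion, not_exists, mem_ofPred_eq, not_lt] at h
      have h1 : q.1 = q.2 := hi (funext fun γ => eq_of_near fun m => by
        have h0 : (0 : ℝ) < 1 / ((m : ℝ) + 1) := Nat.one_div_pos_of_nat
        linarith [h (γ, m)])
      have h2 : 1 / ((k : ℝ) + 1) ≤ |f q.1 - f q.2| := hq
      rw [h1, sub_self, abs_zero] at h2
      exact absurd Nat.one_div_pos_of_nat (not_lt.2 h2)
  refine ⟨s.sup Prod.snd, s.image Prod.fst, fun x y h => ?_⟩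
  by_contra h1
  obtain ⟨i, h2, h3⟩ := mem_iUnion₂.1 (hs (show (x, y) ∈ _ from (not_le.1 h1).le))
  have h4 := h i.1 (Finset.mem_image_of_mem _ h2)
  have h5 : 1 / (((s.sup Prod.snd : ℕ) : ℝ) + 1) ≤ 1 / ((i.2 : ℝ) + 1) :=
    Nat.one_div_le_one_div (Finset.le_sup (f := Prod.snd) h2)
  exact absurd (h4.trans_le h5) (not_lt.2 (le_of_lt h3))

theorem exists_sepfun [T2Space Z] (hg : Continuous g) (hs : g.Surjective) {a b : Z} (h : a ≠ b) :
    ∃ v : C(Z, ℝ), v a ≠ v b := by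
  have : CompactSpace Z := hs.compactSpace hg
  obtain ⟨v, h0, h1, -⟩ := exists_continuous_zero_one_of_isClosed (isClosed_singleton (x := a))
    (isClosed_singleton (x := b)) (disjoint_singleton.2 h)
  exact ⟨v, by simp [h0 (mem_singleton a), h1 (mem_singleton b)]⟩

theorem base [T2Space Z] (he : Continuous e) (hi : e.Injective) (hg : Continuous g)
    (hs : g.Surjective) {A : Set Γ} (hA : A.Countable) : ∃ v : ℕ → C(Z, ℝ), ∀ x y,
      {γ | e x γ ≠ 0} ⊆ A → {γ | e y γ ≠ 0} ⊆ A → (∀ n, v n (g x) = v n (g y)) → g x = g y := by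
  have hK : IsClosed {x | ∀ γ ∉ A, e x γ = 0} := by
    simp only [ofPred_forall]
    exact isClosed_iInter fun γ => isClosed_iInter fun _ =>
      isClosed_eq ((continuous_apply γ).comp he) continuous_const
  have := isCompact_iff_compactSpace.1 hK.isCompact
  have := hA.to_subtype
  have : SecondCountableTopology {x | ∀ γ ∉ A, e x γ = 0} :=
    (Continuous.isClosedEmbedding (f := fun (x : {x | ∀ γ ∉ A, e x γ = 0}) (γ : A) => e x γ)
      (by fun_prop) fun x y h => Subtype.ext (hi (funext fun γ => by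
        by_cases hγ : γ ∈ A
        · exact congrFun h ⟨γ, hγ⟩
        · rw [x.2 γ hγ, y.2 γ hγ]))).isEmbedding.secondCountableTopology
  obtain ⟨T, hT, hT'⟩ := TopologicalSpace.isOpen_iUnion_countable
    (fun v : C(Z, ℝ) => {q : {x | ∀ γ ∉ A, e x γ = 0} × {x | ∀ γ ∉ A, e x γ = 0} |
      v (g q.1) ≠ v (g q.2)}) fun v => isOpen_ne_fun (by fun_prop) (by fun_prop)
  obtain ⟨v, hv⟩ := (hT.insert 0).exists_eq_range (insert_nonempty _ _)
  refine ⟨v, fun x y hx hy h => ?_⟩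
  by_contra hne
  obtain ⟨w, hw⟩ := exists_sepfun hg hs hne
  obtain ⟨w', h1, h2⟩ := mem_iUnion₂.1 (hT'.superset (mem_iUnion.2 ⟨w,
    (show ((⟨x, fun γ hγ => not_not.1 fun h => hγ (hx h)⟩,
      ⟨y, fun γ hγ => not_not.1 fun h => hγ (hy h)⟩) : _ × _) ∈ _ from hw)⟩))
  obtain ⟨n, rfl⟩ : w' ∈ range v := hv ▸ mem_insert_of_mem _ h1
  exact h2 (h n)

theorem exists_good [T2Space Z] (he : Continuous e) (hi : e.Injective) (hg : Continuous g)
    (hc : ∀ x, {γ | e x γ ≠ 0}.Countable) :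
    ∃ (ψ : Finset Γ → Set Γ) (r : Set Γ → X → X), (∀ s, (ψ s).Countable) ∧ ∀ S, Cl ψ S →
      (∀ x, e (r S x) = S.indicator (e x)) ∧ ∀ x y, g x = g y → g (r S x) = g (r S y) := by
  classical
  have := isCompact_iff_compactSpace.1
    (isClosed_eq (hg.comp continuous_fst) (hg.comp (continuous_snd (X := X)))).isCompact
  obtain ⟨ψ, hψ, h⟩ := ScatVal.exists_psi (X := {q : X × X | (g ∘ Prod.fst) q = (g ∘ Prod.snd) q})
    (e := fun q (i : Γ × Bool) => e (cond i.2 q.1.1 q.1.2) i.1)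
    (Continuous.isClosedEmbedding (continuous_pi (by rintro ⟨γ, _ | _⟩ <;> simp only [cond] <;> fun_prop))
      fun q q' h => Subtype.ext (Prod.ext (hi (funext fun γ => congrFun h (γ, true)))
        (hi (funext fun γ => congrFun h (γ, false))))).isEmbedding
    (fun q => subset_closure (((hc q.1.1).union (hc q.1.2)).prod (to_countable (univ : Set Bool))
      |>.mono (by
        rintro ⟨γ, _ | _⟩ h
        · exact ⟨Or.inr h, trivial⟩
        · exact ⟨Or.inl h, trivial⟩)))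
  have h1 : ∀ S, Cl (fun F => Prod.fst '' ψ (F ×ˢ Finset.univ) ∪
      ⋃ t ∈ {t : Finset (Γ × Bool) | t ⊆ F ×ˢ Finset.univ}, Prod.fst '' ψ t) S → ∀ x y, g x = g y →
      ∃ x' y', g x' = g y' ∧ e x' = S.indicator (e x) ∧ e y' = S.indicator (e y) := by
    intro S hS x y hxy
    obtain ⟨q, hq⟩ := h (Prod.fst ⁻¹' S) (fun t ht i hi => hS (t.image Prod.fst) (by
      intro γ hγ
      obtain ⟨j, hj, rfl⟩ := Finset.mem_image.1 hγ
      exact ht hj) (Or.inr (mem_biUnion (x := t) (fun j hj => Finset.mem_product.2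
        ⟨Finset.mem_image_of_mem _ hj, Finset.mem_univ _⟩) (mem_image_of_mem _ hi)))) ⟨(x, y), hxy⟩
    refine ⟨q.1.1, q.1.2, q.2, funext fun γ => ?_, funext fun γ => ?_⟩
    · exact congrFun hq (γ, true)
    · exact congrFun hq (γ, false)
  have h2 : ∀ S x, ∃ x', Cl (fun F => Prod.fst '' ψ (F ×ˢ Finset.univ) ∪
      ⋃ t ∈ {t : Finset (Γ × Bool) | t ⊆ F ×ˢ Finset.univ}, Prod.fst '' ψ t) S →
        e x' = S.indicator (e x) := by
    intro S x
    by_contra hn
    push Not at hn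
    obtain ⟨x', -, -, h3, -⟩ := h1 S (hn x).1 x x rfl
    exact (hn x').2 h3
  choose r hr using h2
  refine ⟨_, r, fun F => ((hψ _).image _).union (Countable.biUnion (Finite.countable
    ((F ×ˢ Finset.univ).powerset.finite_toSet.subset fun t ht => Finset.mem_powerset.2 ht))
      fun t _ => (hψ t).image _), fun S hS => ⟨fun x => hr S x hS, fun x y hxy => ?_⟩⟩
  obtain ⟨x', y', h3, h4, h5⟩ := h1 S hS x y hxy
  rwa [hi ((hr S x hS).trans h4.symm), hi ((hr S y hS).trans h5.symm)]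

/-- a separating family with levels -/
def Wit (p : Prop) (e : X → Γ → ℝ) (g : X → Z) (A : Set Γ) {L : Type} (G : L → Set (Z → ℝ)) : Prop :=
  (∀ n, ∀ v ∈ G n, Continuous v) ∧ (∀ x y, {γ | e x γ ≠ 0} ⊆ A → {γ | e y γ ≠ 0} ⊆ A →
    (∀ n, ∀ v ∈ G n, v (g x) = v (g y)) → g x = g y) ∧ ∀ n z, Sm p {v ∈ G n | v z ≠ 0}

theorem image_wit [T2Space Z] {p : Prop} (he : Continuous e) (hi : e.Injective)
    (hg : Continuous g) (hs : g.Surjective) (hc : ∀ x, ∀ ε > 0, Sm p {γ | ε ≤ |e x γ|}) :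
    ∃ G : ℕ → Set (Z → ℝ), Wit p e g univ G := by
  classical
  have hc' : ∀ x, {γ | e x γ ≠ 0}.Countable := fun x =>
    (countable_iUnion fun n : ℕ => (hc x _ (Nat.one_div_pos_of_nat (n := n))).1).mono
      fun γ hγ => by
        obtain ⟨n, hn⟩ := exists_nat_one_div_lt (abs_pos.2 hγ)
        exact mem_iUnion.2 ⟨n, hn.le⟩
  obtain ⟨ψ, r, hψ, hr⟩ := exists_good he hi hg hc'
  choose σ hσ using id hs
  have hrc : ∀ S, Cl ψ S → Continuous (r S) := fun S hS =>
    (he.isClosedEmbedding hi).isInducing.continuous_iff.2 (continuous_pi fun γ => by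
      simp only [Function.comp, (hr S hS).1, indicator]
      split_ifs <;> fun_prop)
  have hsg : ∀ S, Cl ψ S → ∀ x, g (r S (σ (g x))) = g (r S x) := fun S hS x =>
    (hr S hS).2 _ _ (hσ _)
  have hsc : ∀ S, Cl ψ S → Continuous fun z => g (r S (σ z)) := fun S hS =>
    (hg.isClosedMap.isQuotientMap hg hs).continuous_iff.2 ((hg.comp (hrc S hS)).congr
      fun x => (hsg S hS x).symm)
  have hsup : ∀ S, Cl ψ S → ∀ x, {γ | e (r S x) γ ≠ 0} ⊆ S := fun S hS x γ hγ => by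
    by_contra h
    exact hγ (by rw [(hr S hS).1, indicator_of_notMem h])
  have hrr : ∀ S T, Cl ψ S → Cl ψ T → T ⊆ S → ∀ x, r T (r S x) = r T x := fun S T hS hT h x =>
    hi (by rw [(hr T hT).1, (hr T hT).1, (hr S hS).1, indicator_indicator, inter_eq_left.2 h])
  have hlim : ∀ x y B, {γ | e x γ ≠ 0} ⊆ B → {γ | e y γ ≠ 0} ⊆ B →
      (∀ s : Finset Γ, ↑s ⊆ B → ∃ T, Cl ψ T ∧ ↑s ⊆ T ∧ g (r T x) = g (r T y)) → g x = g y := by
    intro x y B hx hy h
    by_contra hne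
    obtain ⟨v, hv⟩ := exists_sepfun hg hs hne
    refine hv (eq_of_near fun k => ?_)
    obtain ⟨m, F, hF⟩ := exists_un he hi (v.continuous.comp hg) k
    obtain ⟨T, hT, h1, h2⟩ := h (F.filter (· ∈ B)) fun γ hγ => (Finset.mem_filter.1 hγ).2
    have h3 : ∀ x, {γ | e x γ ≠ 0} ⊆ B → |v (g x) - v (g (r T x))| ≤ 1 / ((k : ℝ) + 1) := by
      intro x hx
      refine hF x _ fun γ hγ => ?_
      have : e (r T x) γ = e x γ := by
        rw [(hr T hT).1]
        refine indicator_apply_eq_self.2 fun h => not_not.1 fun h' => h (h1 ?_)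
        exact Finset.mem_filter.2 ⟨hγ, hx h'⟩
      rw [this, sub_self, abs_zero]
      exact Nat.one_div_pos_of_nat
    have h4 := h3 x hx
    have h5 := h3 y hy
    rw [h2] at h4
    rw [abs_le] at *
    constructor <;> linarith [h4.1, h4.2, h5.1, h5.2]
  refine induct ψ hψ (fun A => ∃ G : ℕ → Set (Z → ℝ), Wit p e g A G) (fun A hA => ?_) ?_ univ
  · obtain ⟨v, hv⟩ := base he hi hg hs hA
    refine ⟨fun n => {⇑(v n)}, ?_, fun x y hx hy h => hv x y hx hy fun n => h n _ rfl,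
      fun n z => (Sm.of_finite (finite_singleton _)).mono (sep_subset _ _)⟩
    rintro n _ rfl
    exact (v n).continuous
  intro ι _ _ L U A hA ih
  choose G hG using ih
  obtain ⟨hL, hU, hLU, hUL, hLs, hAs⟩ := hA
  have hH := cl_hull ψ ∅
  obtain ⟨v0, hv0⟩ := base he hi hg hs (countable_hull ψ hψ countable_empty)
  let w : ℕ → ι → (Z → ℝ) → Z → ℝ := fun k ξ v z =>
    tr k (v (g (r (U ξ) (σ z))) - v (g (r (L ξ) (σ z))))
  let G' : ℕ ⊕ ℕ × ℕ × ℕ → Set (Z → ℝ) := Sum.elim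
    (fun n => {fun z => v0 n (g (r (hull ψ ∅) (σ z)))})
    fun q => ⋃ ξ, w q.2.1 ξ '' {v ∈ G ξ q.1 | Un e (v ∘ g) q.2.1 q.2.2}
  suffices h : Wit p e g A G' by
    obtain ⟨j, hj⟩ := exists_surjective_nat (ℕ ⊕ ℕ × ℕ × ℕ)
    refine ⟨G' ∘ j, fun n => h.1 _, fun x y hx hy h' => h.2.1 x y hx hy fun l => ?_,
      fun n => h.2.2 _⟩
    obtain ⟨n, rfl⟩ := hj l
    exact h' n
  refine ⟨?_, fun x y hx hy h => ?_, ?_⟩
  · rintro (n | q) v hv
    · rw [mem_singleton_iff.1 hv]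
      exact (v0 n).continuous.comp (hsc _ hH)
    · obtain ⟨ξ, v, hv', rfl⟩ := mem_iUnion.1 hv
      exact (tr_cont _).comp ((((hG ξ).1 _ v hv'.1).comp (hsc _ (hU ξ))).sub
        (((hG ξ).1 _ v hv'.1).comp (hsc _ (hL ξ))))
  · have h0 : g (r (hull ψ ∅) x) = g (r (hull ψ ∅) y) := hv0 _ _ (hsup _ hH x) (hsup _ hH y)
      fun n => by simpa only [hsg _ hH] using h (Sum.inl n) _ rfl
    have key : ∀ ξ, g (r (U ξ) x) = g (r (U ξ) y) := by
      intro ξ
      induction ξ using (wellFounded_lt (α := ι)).induction with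
      | _ ξ ih =>
      have h1 : g (r (L ξ) x) = g (r (L ξ) y) := by
        refine hlim _ _ (L ξ) (hsup _ (hL ξ) x) (hsup _ (hL ξ) y) fun s hs => ?_
        rcases hLs ξ s hs with h2 | ⟨η, hη, h2⟩
        · have h3 := hull_min ψ (empty_subset _) (hL ξ)
          exact ⟨_, hH, h2, by rwa [hrr _ _ (hL ξ) hH h3, hrr _ _ (hL ξ) hH h3]⟩
        · exact ⟨_, hU η, h2, by
            rw [hrr _ _ (hL ξ) (hU η) (hUL η ξ hη), hrr _ _ (hL ξ) (hU η) (hUL η ξ hη), ih η hη]⟩
      refine (hG ξ).2.1 _ _ (hsup _ (hU ξ) x) (hsup _ (hU ξ) y) fun n v hv => ?_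
      have h2 : v (g (r (U ξ) x)) - v (g (r (L ξ) x)) = v (g (r (U ξ) y)) - v (g (r (L ξ) y)) := by
        refine tr_inj fun k => ?_
        obtain ⟨m, hm⟩ := exists_un he hi (((hG ξ).1 n v hv).comp hg) k
        simpa only [w, hsg _ (hU ξ), hsg _ (hL ξ)] using
          h (Sum.inr (n, k, m)) _ (mem_iUnion.2 ⟨ξ, v, ⟨hv, hm⟩, rfl⟩)
      rw [h1] at h2
      linarith
    refine hlim x y A hx hy fun s hs => ?_
    rcases hAs s hs with h2 | ⟨η, h2⟩
    · exact ⟨_, hH, h2, h0⟩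
    · exact ⟨_, hU η, h2, key η⟩
  · rintro (n | ⟨n, k, m⟩) z
    · exact (Sm.of_finite (finite_singleton _)).mono (sep_subset _ _)
    have h1 : ∀ γ, {ξ | γ ∈ U ξ \ L ξ}.Finite := fun γ => Subsingleton.finite fun ξ hξ η hη => by
      rcases lt_trichotomy ξ η with h | h | h
      · exact absurd (hUL _ _ h hξ.1) hη.2
      · exact h
      · exact absurd (hUL _ _ h hη.1) hξ.2
    refine (((hc (σ z) _ (Nat.one_div_pos_of_nat (n := m))).biUnion fun γ =>
      Sm.of_finite (h1 γ)).biUnion fun ξ => (((hG ξ).2.2 n (g (r (U ξ) (σ z)))).union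
        ((hG ξ).2.2 n (g (r (L ξ) (σ z))))).image (w k ξ)).mono ?_
    rintro v ⟨hv, hz⟩
    obtain ⟨ξ, v, ⟨hv', F, hF⟩, rfl⟩ := mem_iUnion.1 hv
    refine mem_biUnion (x := ξ) ?_ ⟨v, ?_, rfl⟩
    · by_contra hn
      simp only [mem_iUnion, not_exists, mem_ofPred_eq] at hn
      refine hz (tr_zero (hF _ _ fun γ _ => ?_))
      rw [(hr _ (hU ξ)).1, (hr _ (hL ξ)).1]
      by_cases h2 : γ ∈ L ξ
      · rw [indicator_of_mem h2, indicator_of_mem (hLU ξ h2), sub_self, abs_zero]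
        exact Nat.one_div_pos_of_nat
      by_cases h3 : γ ∈ U ξ
      · rw [indicator_of_mem h3, indicator_of_notMem h2, sub_zero]
        exact not_le.1 fun h => hn γ h ⟨h3, h2⟩
      · rw [indicator_of_notMem h3, indicator_of_notMem h2, sub_self, abs_zero]
        exact Nat.one_div_pos_of_nat
    · by_contra hn
      simp only [mem_union, mem_ofPred_eq, not_or, not_and, not_not] at hn
      refine hz (tr_zero ?_)
      rw [hn.1 hv', hn.2 hv', sub_self, abs_zero]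
      exact Nat.one_div_pos_of_nat.le

theorem image_fam [T2Space Z] {p : Prop} (he : Continuous e) (hi : e.Injective)
    (hg : Continuous g) (hs : g.Surjective) (hc : ∀ x, ∀ ε > 0, Sm p {γ | ε ≤ |e x γ|}) :
    ∃ (Δ : ℕ → Type) (f : ∀ n, Z → Δ n → ℝ), (∀ n, Continuous (f n)) ∧
      (∀ x y, (∀ n, f n x = f n y) → x = y) ∧ ∀ n z, Sm p {δ | f n z δ ≠ 0} := by
  obtain ⟨G, h1, h2, h3⟩ := image_wit he hi hg hs hc
  refine ⟨fun n => G n, fun n z v => v.1 z, fun n => continuous_pi fun v => h1 n v v.2,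
    fun x y h => ?_, fun n z => ⟨?_, fun hp => ?_⟩⟩
  · obtain ⟨x, rfl⟩ := hs x
    obtain ⟨y, rfl⟩ := hs y
    exact h2 x y (subset_univ _) (subset_univ _) fun n v hv => congrFun (h n) ⟨v, hv⟩
  · exact Countable.mono (fun v hv => And.intro v.2 hv)
      ((h3 n z).1.preimage (Subtype.val_injective (p := fun v => v ∈ G n)))
  · exact (((h3 n z).2 hp).preimage Subtype.val_injective.injOn).subset fun v hv => ⟨v.2, hv⟩

theorem cor_image [T2Space Z] (h : Cor X) (hg : Continuous g) (hs : g.Surjective) : Cor Z := by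
  obtain ⟨Γ, e, he, hi, hc⟩ := h
  obtain ⟨Δ, f, h1, h2, h3⟩ := image_fam (p := False) he hi hg hs fun x ε hε =>
    ⟨(hc x).mono fun γ hγ => abs_pos.1 (hε.trans_le hγ), False.elim⟩
  refine cor_of_seq (Y := fun n => range (f n)) (fun n => rangeFactorization (f n))
    (fun n => (h1 n).subtype_mk _) (fun x y h => h2 x y fun n => congrArg Subtype.val (h n))
    fun n => ⟨_, Subtype.val, continuous_subtype_val, Subtype.val_injective, ?_⟩
  rintro ⟨_, z, rfl⟩
  exact (h3 n z).1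

theorem eb_image [T2Space Z] (h : Eb X) (hg : Continuous g) (hs : g.Surjective) : Eb Z := by
  obtain ⟨Γ, e, he, hi, hc⟩ := h
  obtain ⟨Δ, f, h1, h2, h3⟩ := image_fam (p := True) he hi hg hs fun x ε hε =>
    Sm.of_finite (hc x ε hε)
  obtain ⟨Γ', e', a, b, -, c⟩ := eb_of_seq (Y := fun n => range (f n))
    (fun n => rangeFactorization (f n))
    (fun n => (h1 n).subtype_mk _) (fun x y h => h2 x y fun n => congrArg Subtype.val (h n))
    fun n => ⟨_, Subtype.val, continuous_subtype_val, Subtype.val_injective, by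
      rintro ⟨_, z, rfl⟩ ε hε
      exact ((h3 n z).2 trivial).subset fun γ hγ => abs_pos.1 (hε.trans_le hγ)⟩
  exact ⟨Γ', e', a, b, c⟩

end Pool.Agent.H33.Spl4
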