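import Mathlib

/-!
Definitions for the hand-ins on splittability.
-/

namespace Pool.Agent.H33.SplDefs

/-- Lindelof Sigma: a continuous image of a Tychonoff space which admits a perfect map onto a
separable metrizable space. -/
def IsLindelofSigma (Z : Type) [TopologicalSpace Z] : Prop :=
  ∃ (W M : Type) (_ : TopologicalSpace W) (_ : TopologicalSpace M), T35Space W ∧
    TopologicalSpace.MetrizableSpace M ∧ TopologicalSpace.SeparableSpace M ∧
    ∃ (p : W → M) (h : W → Z), Continuous p ∧ IsClosedMap p ∧ Function.Surjective p ∧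
      (∀ m : M, IsCompact (p ⁻¹' {m})) ∧ Continuous h ∧ Function.Surjective h

/-- Gul'ko compact: compact Hausdorff with Lindelof Sigma function space `C_p`. -/
def IsGulko (Y : Type) [TopologicalSpace Y] : Prop :=
  CompactSpace Y ∧ T2Space Y ∧ IsLindelofSigma {g : Y → ℝ // Continuous g}

/-- Eberlein compact: compact and homeomorphic to a subset of a Banach space with its weak
topology. -/
def IsEberlein (Y : Type) [TopologicalSpace Y] : Prop :=
  CompactSpace Y ∧ ∃ (E : Type) (_ : NormedAddCommGroup E) (_ : NormedSpace ℝ E),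
    CompleteSpace E ∧ ∃ e : Y → WeakSpace ℝ E, Topology.IsEmbedding e

/-- Splittable over the Gul'ko compacta. -/
def SplitsOverGulko (X : Type) [TopologicalSpace X] : Prop :=
  ∀ A : Set X, ∃ (Y : Type) (_ : TopologicalSpace Y), IsGulko Y ∧
    ∃ f : X → Y, Continuous f ∧ f ⁻¹' (f '' A) = A

/-- Splittable over the Eberlein compacta. -/
def SplitsOverEberlein (X : Type) [TopologicalSpace X] : Prop :=
  ∀ A : Set X, ∃ (Y : Type) (_ : TopologicalSpace Y), IsEberlein Y ∧
    ∃ f : X → Y, Continuous f ∧ f ⁻¹' (f '' A) = A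

end Pool.Agent.H33.SplDefs
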