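import Mathlib
import Pool.Agent.H33.Spl5
import Pool.Agent.H33.SplDefs
import Pool.Agent.H33.SigmaBdd

/-!
Comparison of definitions.
-/

open Set Filter Topology

namespace Pool.Agent.H33.Spl6

open Pool.Agent.H33.Spl3 Pool.Agent.H33.Spl5 Pool.Agent.H33.SplDefs

variable {T : Type} [TopologicalSpace T]

theorem ls_of_def (h : IsLindelofSigma T) : LS (univ : Set T) := by
  obtain ⟨W, M, _, _, -, _, _, p, h, hp, hp', -, hk, hh, hs⟩ := h
  have : SecondCountableTopology M := by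
    let := TopologicalSpace.metrizableSpaceMetric M
    exact UniformSpace.secondCountable_of_separable M
  obtain ⟨B, hB, -, hB'⟩ := TopologicalSpace.exists_countable_basis M
  have := hB.to_subtype
  refine LS.of_countable (fun b : Option B => b.elim univ fun b => h '' (p ⁻¹' b)) fun z _ => ?_
  obtain ⟨w, rfl⟩ := hs z
  refine ⟨some '' {b | p w ∈ b.1}, ?_, fun 𝒰 _ h𝒰 => ?_⟩
  · rintro _ ⟨b, hb, rfl⟩
    exact mem_image_of_mem _ hb
  by_contra hn
  push Not at hn
  have h2 : ∀ y, ∃ U, IsOpen U ∧ y ∈ U ∧ U ∉ 𝒰 := fun y => by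
    by_contra h3
    push Not at h3
    exact hn y trivial (le_nhds_iff.2 fun U hy hU => h3 U hU hy)
  choose U hU hy hU' using h2
  obtain ⟨s, hs⟩ := ((hk (p w)).image hh).elim_finite_subcover U hU fun y _ => mem_iUnion.2 ⟨y, hy y⟩
  obtain ⟨b, hb, h3, h4⟩ := hB'.exists_subset_of_mem_open (a := p w)
    (u := (p '' (h ⁻¹' ⋃ y ∈ s, U y)ᶜ)ᶜ) (by
      rintro ⟨w', h3, h4⟩
      exact h3 (hs (mem_image_of_mem _ h4)))
    (hp' _ ((isOpen_biUnion fun y _ => hU y).preimage hh).isClosed_compl).isOpen_compl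
  obtain ⟨y, -, h5⟩ := (Ultrafilter.finite_biUnion_mem_iff s.finite_toSet).1
    (mem_of_superset (h𝒰 (some ⟨b, hb⟩) ⟨_, h3, rfl⟩) (by
      rintro _ ⟨w', h5, rfl⟩
      by_contra h6
      exact h4 h5 ⟨w', h6, rfl⟩))
  exact hU' y h5

theorem def_of_nw [T35Space T] (h : NW T) : IsLindelofSigma T := by
  classical
  obtain ⟨N, hN⟩ := h
  choose K hK hz hU using hN
  let a : T → ℕ → Bool := fun z n => decide (K z ⊆ N n)
  have hp : IsProperMap fun q : {q : T × range a | ∀ n, q.2.1 n = true → q.1 ∈ N n} => q.1.2 := by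
    refine isProperMap_iff_ultrafilter.2 ⟨by fun_prop, ?_⟩
    rintro 𝒰 ⟨_, z, rfl⟩ h
    have h1 : ∀ n, K z ⊆ N n → N n ∈ 𝒰.map fun q => q.1.1 := fun n hn => by
      have h2 := (tendsto_pi_nhds.1 (tendsto_subtype_rng.1 h) n).eventually
        ((isOpen_discrete {true}).mem_nhds (show a z n ∈ ({true} : Set Bool) by simpa [a]))
      exact h2.mono fun q hq => q.2 n hq
    obtain ⟨y, hy, hy'⟩ : ∃ y ∈ K z, ↑(𝒰.map fun q => q.1.1) ≤ 𝓝 y := by
      by_contra hn
      push Not at hn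
      have h2 : ∀ y : K z, ∃ U, IsOpen U ∧ y.1 ∈ U ∧ U ∉ 𝒰.map fun q => q.1.1 := fun y => by
        by_contra h3
        push Not at h3
        exact hn y y.2 (le_nhds_iff.2 fun U hy hU => h3 U hU hy)
      choose U hU1 hy hU' using h2
      obtain ⟨s, hs⟩ := (hK z).elim_finite_subcover U hU1 fun y hy' => mem_iUnion.2 ⟨⟨y, hy'⟩, hy _⟩
      obtain ⟨n, h3, h4⟩ := hU z _ (isOpen_biUnion fun y _ => hU1 y) hs
      obtain ⟨y, -, h5⟩ := (Ultrafilter.finite_biUnion_mem_iff s.finite_toSet).1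
        (mem_of_superset (h1 n h3) h4)
      exact hU' y h5
    exact ⟨⟨(y, ⟨_, z, rfl⟩), fun n hn => (of_decide_eq_true hn) hy⟩, rfl,
      tendsto_subtype_rng.2 (Tendsto.prodMk_nhds hy' h)⟩
  refine ⟨_, _, inferInstance, inferInstance, inferInstance, inferInstance, inferInstance, _,
    fun q => q.1.1, hp.continuous, hp.isClosedMap, ?_,
    fun m => hp.isCompact_preimage isCompact_singleton, by fun_prop,
    fun z => ⟨⟨(z, ⟨_, z, rfl⟩), fun n hn => (of_decide_eq_true hn) (hz z)⟩, rfl⟩⟩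
  rintro ⟨_, z, rfl⟩
  exact ⟨⟨(z, ⟨_, z, rfl⟩), fun n hn => (of_decide_eq_true hn) (hz z)⟩, rfl⟩

variable {X : Type} [TopologicalSpace X]

theorem gu_of_splits [CompactSpace X] [T2Space X] (h : SplitsOverGulko X) : Gu X :=
  gulko fun A => by
    obtain ⟨Y, t, ⟨h1, h2, h3⟩, f, hf, hA⟩ := h A
    exact ⟨Y, t, f, ⟨h1, h2, ls_of_def h3⟩, hf, hA⟩

theorem eb_of_def (h : IsEberlein X) : Eb X := by
  obtain ⟨_, E, _, _, -, e, he⟩ := h
  have hev : ∀ φ : StrongDual ℝ E, Continuous fun x => φ ((toWeakSpace ℝ E).symm (e x)) := fun φ =>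
    (WeakBilin.eval_continuous _ φ).comp he.continuous
  obtain ⟨G, h1, h2, h3⟩ := SigmaBdd.c0_of_sigma (B := X) (fun _ =>
    (fun (φ : WeakDual ℝ E) x => φ ((toWeakSpace ℝ E).symm (e x))) ''
      (WeakDual.toStrongDual ⁻¹' Metric.closedBall 0 1))
    (fun _ => (WeakDual.isCompact_closedBall 0 1).image
      (continuous_pi fun x => WeakDual.eval_continuous _))
    (by
      rintro - _ ⟨φ, -, rfl⟩
      exact hev φ)
    fun x y h => he.injective ((toWeakSpace ℝ E).symm.injective (by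
      by_contra hne
      obtain ⟨φ, h1, h2⟩ := exists_dual_vector ℝ _ (norm_ne_zero_iff.2 (sub_ne_zero.2 hne))
      have h3 : φ ((toWeakSpace ℝ E).symm (e x)) = φ ((toWeakSpace ℝ E).symm (e y)) :=
        h 0 _ ⟨StrongDual.toWeakDual φ, by simp [h1], rfl⟩
      rw [map_sub, sub_eq_zero.2 h3] at h2
      exact hne (sub_eq_zero.1 (norm_eq_zero.1 (by exact_mod_cast h2.symm)))))
  exact ⟨G, fun x v => v.1 x, continuous_pi fun v => h1 v v.2,
    fun x y h => h2 x y fun v hv => congrFun h ⟨v, hv⟩, fun x ε hε =>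
      Finite.subset ((h3 x ε hε).preimage (Subtype.val_injective (p := fun v => v ∈ G)).injOn)
        fun v hv => And.intro v.2 hv⟩

end Pool.Agent.H33.Spl6
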