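import Mathlib
import Pool.Agent.H33.Spl6

/-!
Dense metrizable subspaces of Gul'ko compacta.
-/

open Set Filter Topology

namespace Pool.Agent.H33.Spl7

open Pool.Agent.H33.Groth Pool.Agent.H33.Retr Pool.Agent.H33.Spl3 Pool.Agent.H33.Spl5

variable {X : Type} [TopologicalSpace X] [CompactSpace X] [T2Space X]

theorem dense_metr {Γ C : Type} [Countable C] {e : X → Γ → ℝ} {S : C → Set Γ} (he : Continuous e)
    (hi : e.Injective) (h : ∀ x, ∀ ε > 0, ∀ γ, ∃ c, γ ∈ S c ∧ {γ' ∈ S c | ε ≤ |e x γ'|}.Finite) :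
    ∃ D : Set X, Dense D ∧ TopologicalSpace.MetrizableSpace D := by
  classical
  let big : C → ℕ → X → Set Γ := fun c k x => {γ ∈ S c | 1 / ((k : ℝ) + 1) < |e x γ|}
  let F : C × ℕ × ℕ → Set X := fun q => {x | (big q.1 q.2.1 x).encard ≤ q.2.2}
  have h1 : ∀ c k x (t : Set Γ), t.Finite → t ⊆ big c k x → ∀ᶠ y in 𝓝 x, t ⊆ big c k y := by
    intro c k x t ht ht'
    exact (eventually_all_finite ht).2 fun γ hγ =>
      ((isOpen_lt (f := fun _ => 1 / ((k : ℝ) + 1)) (g := fun y => |e y γ|) continuous_const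
        (by fun_prop)).eventually_mem (ht' hγ).2).mono fun y hy => ⟨(ht' hγ).1, hy⟩
  have hF : ∀ q, IsClosed (F q) := fun q => isOpen_compl_iff.1 (isOpen_iff_mem_nhds.2 fun x hx => by
    obtain ⟨t, ht, ht'⟩ := exists_subset_encard_eq (Order.add_one_le_of_lt (not_le.1 hx))
    filter_upwards [h1 _ _ x t (finite_of_encard_eq_coe (k := q.2.2 + 1) (by simp [ht'])) ht]
      with y hy hy'
    have h2 := (ht'.symm.trans_le (encard_le_encard hy)).trans hy'
    exact absurd (by exact_mod_cast h2) (Nat.not_succ_le_self q.2.2))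
  refine ⟨⋂ q, (frontier (F q))ᶜ, dense_iInter_of_isOpen (fun q => isClosed_frontier.isOpen_compl)
    fun q => interior_eq_empty_iff_dense_compl.1 (interior_frontier (hF q)), ?_⟩
  set D := ⋂ q, (frontier (F q))ᶜ
  have h2 : ∀ c k, ∀ x ∈ D, (big c k x).Finite → ∀ᶠ y in 𝓝 x, big c k y = big c k x := by
    intro c k x hx hf
    obtain ⟨j, hj⟩ := hf.exists_encard_eq_coe
    have h3 : x ∈ interior (F (c, k, j)) := by
      by_contra h3
      exact mem_iInter.1 hx (c, k, j) ⟨subset_closure hj.le, h3⟩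
    filter_upwards [h1 c k x _ hf Subset.rfl, mem_interior_iff_mem_nhds.1 h3] with y h4 h5
    exact (hf.eq_of_subset_of_encard_le h4 (le_of_le_of_eq h5 hj.symm)).symm
  let V : C × ℕ × ℕ → X → Option Γ → ℝ := fun q x o =>
    if x ∈ F q then o.elim 1 ((big q.1 q.2.1 x).indicator (e x)) else 0
  have hind : IsInducing fun (x : D) q => UniformFun.ofFun (V q x) := by
    refine isInducing_iff_nhds.2 fun x => le_antisymm (tendsto_iff_comap.1 (tendsto_pi_nhds.2
      fun q => UniformFun.tendsto_iff_tendstoUniformly.2 (Metric.tendstoUniformly_iff.2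
        fun ε hε => continuous_subtype_val.continuousAt.eventually
          (p := fun y => ∀ o, dist (V q x o) (V q y o) < ε) ?_))) ?_
    · by_cases hx : x.1 ∈ F q
      · have hf := finite_of_encard_le_coe hx
        have h3 : ∀ᶠ y in 𝓝 x.1, ∀ γ ∈ big q.1 q.2.1 x, dist (e x γ) (e y γ) < ε :=
          (eventually_all_finite hf).2 fun γ _ =>
            (isOpen_lt (f := fun y => dist (e x γ) (e y γ)) (by fun_prop)
              continuous_const).eventually_mem (by simpa)
        filter_upwards [h2 _ _ x x.2 hf, h3] with y h4 h5 o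
        have hy : y ∈ F q := by simpa only [F, mem_ofPred_eq, h4] using hx
        simp only [V, if_pos hx, if_pos hy, h4]
        rcases o with _ | γ
        · simpa
        · by_cases hγ : γ ∈ big q.1 q.2.1 x
          · simpa [hγ] using h5 γ hγ
          · simpa [hγ]
      · filter_upwards [(hF q).isOpen_compl.mem_nhds hx] with y hy o
        simpa [V, if_neg hx, if_neg hy]
    · refine tendsto_id'.1 (((he.isClosedEmbedding hi).isInducing.comp
        IsInducing.subtypeVal).tendsto_nhds_iff.2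
          (tendsto_pi_nhds.2 fun γ => Metric.tendsto_nhds.2 fun ε hε => ?_))
      obtain ⟨k, hk⟩ := exists_nat_one_div_lt (show 0 < ε / 3 by positivity)
      obtain ⟨c, hc, hf⟩ := h x _ (Nat.one_div_pos_of_nat (n := k)) γ
      obtain ⟨j, hj⟩ := (hf.subset fun γ' (h' : γ' ∈ big c k x) =>
        And.intro h'.1 h'.2.le).exists_encard_eq_coe
      have hx : x.1 ∈ F (c, k, j) := hj.le
      have h3 := Metric.tendstoUniformly_iff.1 (UniformFun.tendsto_iff_tendstoUniformly.1
        (tendsto_pi_nhds.1 (tendsto_comap (f := fun (x : D) q => UniformFun.ofFun (V q x))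
          (x := 𝓝 fun q => UniformFun.ofFun (V q x))) (c, k, j))) _
          (lt_min one_pos (show 0 < ε / 3 by positivity))
      have h4 : ∀ y, |(big c k y).indicator (e y) γ - e y γ| ≤ 1 / ((k : ℝ) + 1) := fun y => by
        by_cases hγ : γ ∈ big c k y
        · simpa [hγ] using (Nat.one_div_pos_of_nat (α := ℝ) (n := k)).le
        · rw [indicator_of_notMem hγ, zero_sub, abs_neg]
          exact not_lt.1 fun h => hγ ⟨hc, h⟩
      filter_upwards [h3] with y hy
      have hy1 : dist (V (c, k, j) x none) (V (c, k, j) y none) < _ := hy none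
      have hy2 : dist (V (c, k, j) x (some γ)) (V (c, k, j) y (some γ)) < _ := hy (some γ)
      have hy' : y.1 ∈ F (c, k, j) := by
        by_contra hn
        simp [V, if_pos hx, if_neg hn] at hy1
      simp only [V, if_pos hx, if_pos hy', Option.elim, lt_min_iff, Real.dist_eq] at hy2
      have a1 := h4 x
      have a2 := h4 y
      have a3 := hy2.2
      simp only [Function.comp, id, Real.dist_eq]
      rw [abs_le] at a1 a2
      rw [abs_lt] at a3 ⊢
      constructor <;> linarith [a1.1, a1.2, a2.1, a2.2, a3.1, a3.2]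
  have := hind.pseudoMetrizableSpace
  infer_instance

theorem eb_dense (h : Eb X) : ∃ D : Set X, Dense D ∧ TopologicalSpace.MetrizableSpace D := by
  obtain ⟨Γ, e, he, hi, h⟩ := h
  exact dense_metr (S := fun _ : Unit => univ) he hi fun x ε hε γ =>
    ⟨(), trivial, (h x ε hε).subset fun _ h => h.2⟩

omit [CompactSpace X] [T2Space X] in
theorem scaled {F : Set (X → ℝ)} (hF : ∀ v ∈ F, Continuous v) (hc : F.Countable) :
    ∃ G : Set (Cp X), (∀ x y, (∀ v ∈ G, v.1 x = v.1 y) → ∀ v ∈ F, v x = v y) ∧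
      ∀ b, ∀ ε > 0, {v ∈ G | ε ≤ |v.1 b|}.Finite := by
  obtain ⟨u, hu⟩ := (hc.insert 0).exists_eq_range (insert_nonempty _ _)
  have h1 : ∀ n, Continuous (u n) := fun n => by
    rcases (hu ▸ mem_range_self n : u n ∈ insert 0 F) with h | h
    · rw [h]
      exact continuous_const
    · exact hF _ h
  refine ⟨range fun n => ⟨sq n ∘ u n, (sq_cont n).comp (h1 n)⟩, fun x y h v hv => ?_,
    fun b ε hε => ?_⟩
  · obtain ⟨n, rfl⟩ : v ∈ range u := hu ▸ mem_insert_of_mem _ hv
    exact sq_inj n (h _ ⟨n, rfl⟩)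
  · obtain ⟨N, hN⟩ := exists_nat_one_div_lt hε
    refine ((finite_lt_nat N).image fun n => ⟨sq n ∘ u n, (sq_cont n).comp (h1 n)⟩).subset ?_
    rintro _ ⟨⟨n, rfl⟩, hn⟩
    refine ⟨n, ?_, rfl⟩
    by_contra hc
    have h2 : 1 / ((n : ℝ) + 1) ≤ 1 / ((N : ℝ) + 1) := Nat.one_div_le_one_div (not_lt.1 hc)
    linarith [le_trans hn (sq_abs _ _).1]

theorem gu_dense (hX : Gu X) : ∃ D : Set X, Dense D ∧ TopologicalSpace.MetrizableSpace D := by
  classical
  obtain ⟨φ, h⟩ := hX.sep
  obtain ⟨N, hN⟩ := hX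
  choose a ha ha' using fun z => hN z trivial
  obtain ⟨ψ, r, hψ, hr⟩ := h.exists_retr
  let nr : ℕ → Cp X → Cp X → Prop := fun m g g' => ∀ i < m, i ∈ a g → g' ∈ N i
  have hnr : ∀ m m', m ≤ m' → ∀ g g', nr m' g g' → nr m g g' :=
    fun m m' hm g g' h i hi => h i (hi.trans_le hm)
  have key := induct ψ hψ (fun A => ∃ G : Set (Cp X × List (Cp X)),
      (∀ x ∈ closure A, ∀ y ∈ closure A, (∀ p ∈ G, p.1.1 x = p.1.1 y) → x = y) ∧
      ∀ b, ∀ ε > 0, ∀ t : List (Cp X), ∃ m,
        {p ∈ G | List.Forall₂ (nr m) t p.2 ∧ ε ≤ |p.1.1 b|}.Finite)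
    (fun A hA => by
      obtain ⟨G, h1, h2⟩ := scaled (fun v => h.cont) (h.countable hA)
      refine ⟨(fun v => (v, [])) '' G, fun x hx y hy hv => h.2.2 A x hx y hy
        (h1 x y fun v hv' => hv _ (mem_image_of_mem _ hv')), fun b ε hε t =>
          ⟨0, ((h2 b ε hε).image fun v => (v, [])).subset ?_⟩⟩
      rintro _ ⟨⟨v, hv, rfl⟩, -, hb⟩
      exact ⟨v, ⟨hv, hb⟩, rfl⟩) (by
    intro ι _ _ L U A hA ih
    choose G hGs hGb using ih
    have hA' := hA
    obtain ⟨hL, hU, hLU, hUL, -, -⟩ := hA'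
    obtain ⟨G₀, h1, h2⟩ := scaled (fun v => h.cont)
      (h.countable (countable_hull ψ hψ countable_empty))
    let w : ι → Cp X → Cp X := fun ξ v => ⟨fun b => v.1 (r (U ξ) b) - v.1 (r (L ξ) b),
      (v.2.comp (hr _ (hU ξ)).1).sub (v.2.comp (hr _ (hL ξ)).1)⟩
    refine ⟨(fun v => (v, [])) '' G₀ ∪ ⋃ ξ, (fun p => (w ξ p.1, w ξ p.1 :: p.2)) '' G ξ,
      fun x hx y hy hv => ?_, ?_⟩
    · refine sep_step h hr hA hx hy (h1 x y fun v hv' => hv _ (Or.inl (mem_image_of_mem _ hv')))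
        fun ξ hξ => ?_
      refine hGs ξ _ ((hr _ (hU ξ)).2 x).1 _ ((hr _ (hU ξ)).2 y).1 fun p hp => ?_
      have := hv _ (Or.inr (mem_iUnion.2 ⟨ξ, p, hp, rfl⟩))
      simp only [w, hξ] at this
      linarith
    rintro b ε hε (_ | ⟨g, t⟩)
    · refine ⟨0, ((h2 b ε hε).image fun v => (v, [])).subset ?_⟩
      rintro _ ⟨⟨v, hv, rfl⟩ | hp, h3, hb⟩
      · exact ⟨v, ⟨hv, hb⟩, rfl⟩
      · obtain ⟨ξ, p, -, rfl⟩ := mem_iUnion.1 hp
        cases h3
    have hJ : ∃ m, {ξ | ∃ v, nr m g (w ξ v) ∧ ε ≤ |(w ξ v).1 b|}.Finite := by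
      by_contra hJ
      push Not at hJ
      obtain ⟨m0, -⟩ := (hJ 0).nonempty
      have : Nonempty ι := ⟨m0⟩
      obtain ⟨f, hf, hf'⟩ := GrothEx.exists_transversal (κ := Cardinal.aleph0) Cardinal.mk_nat.le
        (fun m => {ξ | ∃ v, nr m g (w ξ v) ∧ ε ≤ |(w ξ v).1 b|})
        fun m => Cardinal.infinite_iff.1 (hJ m).to_subtype
      obtain ⟨k, hk⟩ := (isPWO_of_wellQuasiOrderedLE (univ : Set ι)).exists_monotone_subseq
        (f := f) fun _ => mem_univ _
      have hsm : StrictMono fun m => f (k m) := hk.strictMono_of_injective (hf.comp k.injective)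
      choose v hv hvb using fun m => hf' (k m)
      have hle : (hyperfilter ℕ : Filter ℕ) ≤ atTop := Nat.hyperfilter_le_atTop
      obtain ⟨z, -, hz⟩ := ha' g ((hyperfilter ℕ).map fun m => w (f (k m)) (v m)) univ_mem
        fun i hi => hle ((eventually_gt_atTop i).mono fun m hm =>
          hv m i (hm.trans_le (k.strictMono.le_apply)) hi)
      have hz' : ∀ c, Tendsto (fun m => (w (f (k m)) (v m)).1 c) (hyperfilter ℕ) (𝓝 (z.1 c)) :=
        fun c => (((continuous_apply c).comp continuous_subtype_val).tendsto z).comp hz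
      have hcl := cl_biUnion hA (range_nonempty fun m => f (k m))
      have h3 : EqOn z.1 0 (⋃ ξ ∈ range fun m => f (k m), U ξ) := by
        intro c hc
        obtain ⟨_, ⟨m, rfl⟩, hc⟩ := mem_iUnion₂.1 hc
        refine tendsto_nhds_unique (hz' c)
          (tendsto_const_nhds.congr' (hle ((eventually_gt_atTop m).mono fun j hj => ?_)))
        have h4 := hUL _ _ (hsm hj) hc
        simp only [w, Pi.zero_apply]
        rw [retr_eq h hr (hL _) (subset_closure h4) fun _ _ => rfl,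
          retr_eq h hr (hU _) (subset_closure (hLU _ h4)) fun _ _ => rfl, sub_self]
      have h4 := EqOn.closure h3 z.2 continuous_const ((hr _ hcl).2 b).1
      have h5 : ε ≤ |z.1 (r (⋃ ξ ∈ range fun m => f (k m), U ξ) b)| := by
        refine ge_of_tendsto' (hz' _).abs fun m => ?_
        have h6 : U (f (k m)) ⊆ ⋃ ξ ∈ range fun m => f (k m), U ξ :=
          subset_biUnion_of_mem (u := U) (mem_range_self m)
        have h7 : ∀ A', Cl ψ A' → A' ⊆ U (f (k m)) →
            r A' (r (⋃ ξ ∈ range fun m => f (k m), U ξ) b) = r A' b := fun A' hA' h8 =>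
          retr_eq h hr hA' ((hr _ hA').2 b).1 fun u hu => (((hr _ hA').2 b).2 u hu).trans
            (((hr _ hcl).2 b).2 u (Fam.mono (h8.trans h6) hu)).symm
        have := hvb m
        simp only [w] at this ⊢
        rwa [h7 _ (hU _) Subset.rfl, h7 _ (hL _) (hLU _)]
      rw [h4] at h5
      simp only [Pi.zero_apply, abs_zero] at h5
      exact absurd h5 (not_le.2 hε)
    obtain ⟨m, hm⟩ := hJ
    choose m1 hm1 using fun ξ => hGb ξ (r (U ξ) b) _ (half_pos hε) t
    choose m2 hm2 using fun ξ => hGb ξ (r (L ξ) b) _ (half_pos hε) t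
    obtain ⟨M, hM⟩ := (hm.image fun ξ => max (m1 ξ) (m2 ξ)).bddAbove
    refine ⟨max m M, (hm.biUnion fun ξ _ => ((hm1 ξ).union (hm2 ξ)).image
      fun p => (w ξ p.1, w ξ p.1 :: p.2)).subset ?_⟩
    rintro _ ⟨⟨v, hv, rfl⟩ | hp, h3, hb⟩
    · cases h3
    obtain ⟨ξ, p, hp', rfl⟩ := mem_iUnion.1 hp
    obtain ⟨h4, h5⟩ := List.forall₂_cons.1 h3
    have h6 : ξ ∈ {ξ | ∃ v, nr m g (w ξ v) ∧ ε ≤ |(w ξ v).1 b|} :=
      ⟨p.1, hnr _ _ (le_max_left _ _) _ _ h4, hb⟩
    have h7 := (hM (mem_image_of_mem _ h6)).trans (le_max_right m M)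
    refine mem_biUnion h6 ⟨p, ?_, rfl⟩
    by_contra hc
    simp only [mem_union, mem_ofPred_eq, hp', true_and, not_or, not_and, not_le] at hc
    have a1 := hc.1 (h5.imp (hnr _ _ ((le_max_left _ _).trans h7)))
    have a2 := hc.2 (h5.imp (hnr _ _ ((le_max_right _ _).trans h7)))
    have := abs_sub (p.1.1 (r (U ξ) b)) (p.1.1 (r (L ξ) b))
    simp only [w] at hb
    linarith) univ
  obtain ⟨G, hs, hf⟩ := key
  refine dense_metr (e := fun x (p : G) => p.1.1.1 x) (C := List (Finset ℕ))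
    (S := fun c => {p | List.Forall₂ (fun F g => ∀ i ∈ F, g ∈ N i) c p.1.2})
    (continuous_pi fun p => p.1.1.2) (fun x y hxy => hs x (by simp) y (by simp)
      fun p hp => congrFun hxy ⟨p, hp⟩) fun x ε hε p => ?_
  obtain ⟨m, hm⟩ := hf x ε hε p.1.2
  refine ⟨p.1.2.map fun g => (Finset.range m).filter (· ∈ a g), ?_,
    (hm.preimage (Subtype.val_injective (p := fun v => v ∈ G)).injOn).subset fun q hq => ?_⟩
  · exact List.forall₂_map_left_iff.2 (List.forall₂_same.2 fun g _ i hi =>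
      ha g i (Finset.mem_filter.1 hi).2)
  · exact ⟨q.2, (List.forall₂_map_left_iff.1 hq.1).imp fun g g' h i hi hi' =>
      h i (Finset.mem_filter.2 ⟨Finset.mem_range.2 hi, hi'⟩), hq.2⟩

end Pool.Agent.H33.Spl7
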