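import Mathlib
import Pool.Agent.H33.Spl3

/-!
Pseudocompact spaces splittable over Eberlein compacta are compact.
-/

open Set Filter Topology Cardinal

namespace Pool.Agent.H33.Spl8

open Pool.Agent.H33.Retr Pool.Agent.H33.Spl1 Pool.Agent.H33.Spl2 Pool.Agent.H33.Spl3

variable {X : Type} [TopologicalSpace X]

/-- feebly compact subset -/
def FC (S : Set X) : Prop :=
  ∀ W : ℕ → Set X, (∀ n, IsOpen (W n)) → Antitone W → (∀ n, (W n ∩ S).Nonempty) →
    ∃ z ∈ S, ∀ n, z ∈ closure (W n ∩ S)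

theorem fc_univ [T35Space X] (hp : ∀ f : X → ℝ, Continuous f → ∃ M : ℝ, ∀ x, |f x| ≤ M) :
    FC (univ : Set X) := by
  intro W hW hW' hne
  simp only [inter_univ] at hne ⊢
  by_contra hn
  push Not at hn
  choose x hx using hne
  choose f hf h0 h1 using fun n => CompletelyRegularSpace.completely_regular (x n) (W n)ᶜ
    (hW n).isClosed_compl (not_not.2 (hx n))
  let g : ℕ → X → ℝ := fun n y => n * (1 - f n y)
  have h2 : LocallyFinite fun n => Function.support (g n) := by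
    intro z
    obtain ⟨n, hn⟩ := hn z trivial
    refine ⟨(closure (W n))ᶜ, isClosed_closure.isOpen_compl.mem_nhds hn,
      (finite_lt_nat n).subset fun m ⟨y, hy, hy'⟩ => ?_⟩
    by_contra h
    refine hy' (subset_closure (hW' (not_lt.1 h) ?_))
    by_contra h3
    exact hy (by simp [g, h1 m h3])
  obtain ⟨M, hM⟩ := hp _ (continuous_finsum (f := g) (fun n => by
    have := hf n
    fun_prop) h2)
  obtain ⟨n, hn⟩ := exists_nat_gt M
  have h3 := single_le_finsum n (h2.point_finite (x n)) (f := fun m => g m (x n))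
    fun m => mul_nonneg (Nat.cast_nonneg m) (sub_nonneg.2 (f m _).2.2)
  simp only [g, h0 n, Icc.coe_zero, sub_zero, mul_one] at h3
  linarith [(abs_le.1 (hM (x n))).2]

section PS

variable {Γ : Type} {S : Set X} {d : X → Γ → ℝ}

theorem frag (hS : FC S) (hd : Continuous d) (hc : ∀ x, ∀ ε > 0, {γ | ε ≤ |d x γ|}.Finite)
    {ε : ℝ} (hε : 0 < ε) {O : Set X} (hO : IsOpen O) (hne : (O ∩ S).Nonempty) :
    ∃ W, IsOpen W ∧ W ⊆ O ∧ (W ∩ S).Nonempty ∧
      ∃ F : Finset Γ, ∀ w ∈ W ∩ S, ∀ γ ∉ F, |d w γ| ≤ ε := by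
  classical
  by_contra hn
  push Not at hn
  have h1 : ∀ p : {W // IsOpen W ∧ W ⊆ O ∧ (W ∩ S).Nonempty} × Finset Γ,
      ∃ γ ∉ p.2, ((p.1.1 ∩ {w | ε < |d w γ|}) ∩ S).Nonempty := by
    intro p
    obtain ⟨w, hw, γ, h1, h2⟩ := hn p.1.1 p.1.2.1 p.1.2.2.1 p.1.2.2.2 p.2
    exact ⟨γ, h1, w, ⟨hw.1, h2⟩, hw.2⟩
  choose γ hγ hγ' using h1
  let nx : {W // IsOpen W ∧ W ⊆ O ∧ (W ∩ S).Nonempty} × Finset Γ →
      {W // IsOpen W ∧ W ⊆ O ∧ (W ∩ S).Nonempty} × Finset Γ := fun p =>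
    (⟨p.1.1 ∩ {w | ε < |d w (γ p)|}, p.1.2.1.inter (isOpen_lt continuous_const (by fun_prop)),
      inter_subset_left.trans p.1.2.2.1, hγ' p⟩, insert (γ p) p.2)
  let s : ℕ → _ := fun n => nx^[n] (⟨O, hO, Subset.rfl, hne⟩, ∅)
  have hs : ∀ n, s (n + 1) = nx (s n) := fun n => Function.iterate_succ_apply' _ _ _
  obtain ⟨z, -, hz⟩ := hS (fun n => (s n).1.1) (fun n => (s n).1.2.1)
    (antitone_nat_of_succ_le fun n => by rw [hs]; exact inter_subset_left) fun n => (s n).1.2.2.2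
  have h2 : Monotone fun n => (s n).2 :=
    monotone_nat_of_le_succ fun n => by rw [hs]; exact Finset.subset_insert _ _
  have h3 : ∀ m n, m < n → γ (s m) ≠ γ (s n) := fun m n h h' => hγ (s n) (h' ▸ h2 h (by
    show _ ∈ (s (m + 1)).2
    rw [hs]
    exact Finset.mem_insert_self _ _))
  refine infinite_of_injective_forall_mem (f := fun n => γ (s n))
    (Function.Injective.of_lt_imp_ne h3) (fun n => ?_) (hc z ε hε)
  refine closure_minimal (t := {w | ε ≤ |d w (γ (s n))|}) (fun w hw => ?_)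
    (isClosed_le continuous_const (by fun_prop)) (hz (n + 1))
  rw [hs] at hw
  exact le_of_lt (show ε < _ from hw.1.2)

theorem ps_zero (hS : FC S) (hd : Continuous d) (hc : ∀ x, ∀ ε > 0, {γ | ε ≤ |d x γ|}.Finite)
    {O : Set X} (hO : IsOpen O) (h0 : 0 ∈ closure (d '' (O ∩ S))) :
    ∃ z ∈ S, z ∈ closure (O ∩ S) ∧ d z = 0 := by
  classical
  have h1 : ∀ (n : ℕ) (F : Finset Γ), ∃ W, IsOpen W ∧
      W ⊆ O ∩ {w | ∀ γ ∈ F, |d w γ| < 1 / ((n : ℝ) + 1)} ∧ (W ∩ S).Nonempty ∧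
      ∃ F' : Finset Γ, ∀ w ∈ W ∩ S, ∀ γ ∉ F', |d w γ| ≤ 1 / ((n : ℝ) + 1) := by
    intro n F
    have h2 : IsOpen {v : Γ → ℝ | ∀ γ ∈ F, |v γ| < 1 / ((n : ℝ) + 1)} := by
      simp only [ofPred_forall]
      exact isOpen_biInter_finset fun γ _ => isOpen_lt (by fun_prop) continuous_const
    obtain ⟨_, h3, w, hw, rfl⟩ := mem_closure_iff.1 h0 _ h2 fun γ _ => by
      simpa using Nat.one_div_pos_of_nat (α := ℝ) (n := n)
    exact frag hS hd hc Nat.one_div_pos_of_nat (hO.inter (h2.preimage hd)) ⟨w, ⟨hw.1, h3⟩, hw.2⟩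
  choose W hW hWO hne F' hF' using h1
  let F : ℕ → Finset Γ := fun n => Nat.rec ∅ (fun n F => F ∪ F' n F) n
  have hF : Monotone F := monotone_nat_of_le_succ fun n => Finset.subset_union_left
  obtain ⟨z, hz, hz'⟩ := hS (fun m => ⋃ n ∈ Ici m, W n (F n))
    (fun m => isOpen_biUnion fun n _ => hW _ _)
    (fun m m' h => biUnion_subset_biUnion_left (Ici_subset_Ici.2 h))
    fun m => (hne m (F m)).mono (inter_subset_inter_left _
      (subset_biUnion_of_mem (u := fun n => W n (F n)) (mem_Ici.2 le_rfl)))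
  refine ⟨z, hz, closure_mono (inter_subset_inter_left _ (iUnion₂_subset fun n _ =>
    (hWO _ _).trans inter_subset_left)) (hz' 0), funext fun γ => ?_⟩
  obtain ⟨m0, hm0⟩ : ∃ m0, ∀ n ≥ m0, ∀ w ∈ W n (F n) ∩ S, |d w γ| ≤ 1 / ((n : ℝ) + 1) := by
    by_cases h : ∃ m, γ ∈ F m
    · obtain ⟨m, hm⟩ := h
      exact ⟨m, fun n hn w hw => ((hWO _ _ hw.1).2 γ (hF hn hm)).le⟩
    · exact ⟨0, fun n _ w hw => hF' _ _ w hw γ fun h' => h ⟨n + 1, Finset.mem_union_right _ h'⟩⟩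
  refine abs_nonpos_iff.1 (ge_of_tendsto (tendsto_one_div_add_atTop_nhds_zero_nat (𝕜 := ℝ))
    ((eventually_ge_atTop m0).mono fun m hm => ?_))
  refine closure_minimal (t := {w | |d w γ| ≤ 1 / ((m : ℝ) + 1)}) (fun w hw => ?_)
    (isClosed_le (by fun_prop) continuous_const) (hz' m)
  obtain ⟨n, hn, hw'⟩ := mem_iUnion₂.1 hw.1
  exact (hm0 n (hm.trans hn) w ⟨hw', hw.2⟩).trans (Nat.one_div_le_one_div hn)

theorem ps (hS : FC S) (hd : Continuous d) (hc : ∀ x, ∀ ε > 0, {γ | ε ≤ |d x γ|}.Finite)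
    {y : Γ → ℝ} (hy : ∀ ε > 0, {γ | ε ≤ |y γ|}.Finite)
    {O : Set X} (hO : IsOpen O) (h0 : y ∈ closure (d '' (O ∩ S))) :
    ∃ z ∈ S, z ∈ closure (O ∩ S) ∧ d z = y := by
  obtain ⟨z, h1, h2, h3⟩ := ps_zero (d := fun x => d x - y) hS (by fun_prop) (fun x ε hε =>
    ((hc x _ (half_pos hε)).union (hy _ (half_pos hε))).subset fun γ hγ => by
      by_contra hn
      simp only [mem_union, mem_ofPred_eq, not_or, not_le, Pi.sub_apply] at hn hγ
      linarith [abs_sub (d x γ) (y γ), hn.1, hn.2]) hO (by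
    have := map_mem_closure (f := fun v => v - y) (t := (fun x => d x - y) '' (O ∩ S))
      (by fun_prop) h0 (by rintro _ ⟨w, hw, rfl⟩; exact ⟨w, hw, rfl⟩)
    simpa using this)
  exact ⟨z, h1, h2, sub_eq_zero.1 h3⟩

theorem compact_of [RegularSpace X] (hS : FC S) (hd : Continuous d) {K : Set (Γ → ℝ)}
    (hK : IsCompact K) (hc : ∀ y ∈ K, ∀ ε > 0, {γ | ε ≤ |y γ|}.Finite) (hdK : ∀ x, d x ∈ K)
    (hi : InjOn d S) : IsCompact S := by
  refine isCompact_iff_ultrafilter_le_nhds'.2 fun 𝒰 h𝒰 => ?_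
  obtain ⟨y, hy, hy'⟩ := hK.ultrafilter_le_nhds' (𝒰.map d) (Filter.mem_map.2 (univ_mem' hdK))
  have h1 : ∀ O, IsOpen O → O ∈ 𝒰 → ∃ z ∈ S, z ∈ closure (O ∩ S) ∧ d z = y := fun O hO hO' =>
    ps hS hd (fun x => hc _ (hdK x)) (hc y hy) hO
      (mem_closure_iff_ultrafilter.2 ⟨_, image_mem_map (inter_mem hO' h𝒰), hy'⟩)
  obtain ⟨z, hz, -, hz'⟩ := h1 univ isOpen_univ univ_mem
  refine ⟨z, hz, (closed_nhds_basis z).ge_iff.2 fun C hC => ?_⟩
  by_contra hn
  obtain ⟨w, hw, h2, h3⟩ := h1 _ hC.2.isOpen_compl (Ultrafilter.compl_mem_iff_notMem.2 hn)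
  rw [hi hw hz (h3.trans hz'.symm)] at h2
  obtain ⟨x, hx, hx'⟩ := mem_closure_iff_nhds.1 h2 C hC.1
  exact hx'.1 hx

theorem nhds_eq [RegularSpace X] (hS : FC (univ : Set X)) (hd : Continuous d)
    (hc : ∀ x, ∀ ε > 0, {γ | ε ≤ |d x γ|}.Finite) {x : X} (hx : ∀ z, d z = d x → z = x) :
    comap d (𝓝 (d x)) ≤ 𝓝 x := by
  refine (closed_nhds_basis x).ge_iff.2 fun C hC => ?_
  have h1 : d x ∉ closure (d '' (Cᶜ ∩ univ)) := fun h => by
    obtain ⟨z, -, h2, h3⟩ := ps hS hd hc (hc x) hC.2.isOpen_compl h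
    rw [hx z h3] at h2
    obtain ⟨w, hw, hw'⟩ := mem_closure_iff_nhds.1 h2 C hC.1
    exact hw'.1 hw
  refine mem_of_superset (preimage_mem_comap (isClosed_closure.isOpen_compl.mem_nhds h1))
    fun w hw => ?_
  by_contra h
  exact hw (subset_closure ⟨w, ⟨h, trivial⟩, rfl⟩)

theorem exists_box {y : Γ → ℝ} {N : Set (Γ → ℝ)} (h : N ∈ 𝓝 y) : ∃ (F : Finset Γ) (k : ℕ),
    ∀ w : Γ → ℝ, (∀ γ ∈ F, dist (w γ) (y γ) < 1 / ((k : ℝ) + 1)) → w ∈ N := by
  rw [nhds_pi, Filter.mem_pi] at h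
  obtain ⟨I, hI, t, ht, h⟩ := h
  have h1 : ∀ᶠ k : ℕ in atTop, ∀ γ ∈ I, Metric.ball (y γ) (1 / ((k : ℝ) + 1)) ⊆ t γ :=
    (eventually_all_finite hI).2 fun γ _ => by
      obtain ⟨ε, hε, h2⟩ := Metric.mem_nhds_iff.1 (ht γ)
      exact ((tendsto_one_div_add_atTop_nhds_zero_nat (𝕜 := ℝ)).eventually (ge_mem_nhds hε)).mono
        fun k hk => (Metric.ball_subset_ball hk).trans h2
  obtain ⟨k, hk⟩ := h1.exists
  exact ⟨hI.toFinset, k, fun w hw => h fun γ hγ => hk γ hγ (hw γ (hI.mem_toFinset.2 hγ))⟩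

end PS

theorem compact_small [RegularSpace X] {Γ : Set X → Type} {K : ∀ A, Set (Γ A → ℝ)}
    {f : ∀ A, X → Γ A → ℝ} (hK : ∀ A, IsCompact (K A))
    (hc : ∀ A, ∀ y ∈ K A, ∀ ε > 0, {γ | ε ≤ |y γ|}.Finite) (hf : ∀ A, Continuous (f A))
    (hfK : ∀ A x, f A x ∈ K A) (hA : ∀ A x y, f A x = f A y → x ∈ A → y ∈ A)
    {S : Set X} (hS : FC S) (hS' : #S ≤ 𝔠) : IsCompact S := by
  obtain ⟨c, hc'⟩ := exists_col S hS'
  obtain ⟨j, hj⟩ := exists_surjective_nat (ℕ × ℕ)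
  let A : ℕ → Set X := fun n => {x | c x (j n)}
  let m : (∀ n, Γ (A n) → ℝ) → (n : ℕ) × Γ (A n) → ℝ := fun v p => sq p.1 (v p.1 p.2)
  have hm : Continuous m := continuous_pi fun p => (sq_cont _).comp (by fun_prop)
  refine compact_of (d := fun x => m fun n => f (A n) x) hS (hm.comp (continuous_pi fun n => hf _))
    ((isCompact_univ_pi fun n => hK (A n)).image hm) ?_
    (fun x => ⟨_, fun n _ => hfK (A n) x, rfl⟩) fun x hx y hy h => hc' hx hy (funext fun q => ?_)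
  · rintro _ ⟨v, hv, rfl⟩
    exact sq_c0 v fun n => hc _ _ (hv n trivial)
  · obtain ⟨n, rfl⟩ := hj q
    have h1 : f (A n) x = f (A n) y := funext fun γ => sq_inj n (congrFun h ⟨n, γ⟩)
    exact propext ⟨hA _ _ _ h1, hA _ _ _ h1.symm⟩

theorem compact_main [RegularSpace X] {Γ : Set X → Type} {K : ∀ A, Set (Γ A → ℝ)}
    {f : ∀ A, X → Γ A → ℝ} (hK : ∀ A, IsCompact (K A))
    (hc : ∀ A, ∀ y ∈ K A, ∀ ε > 0, {γ | ε ≤ |y γ|}.Finite) (hf : ∀ A, Continuous (f A))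
    (hfK : ∀ A x, f A x ∈ K A) (hA : ∀ A x y, f A x = f A y → x ∈ A → y ∈ A)
    (hX : FC (univ : Set X)) : CompactSpace X := by
  classical
  refine ⟨isCompact_iff_ultrafilter_le_nhds'.2 fun 𝒰 _ => ?_⟩
  by_contra hn
  push Not at hn
  have hO : ∀ x, ∃ O, IsOpen O ∧ O ∈ 𝒰 ∧ x ∉ closure O := fun x => by
    by_contra h
    push Not at h
    refine hn x trivial ((closed_nhds_basis x).ge_iff.2 fun C hC => ?_)
    by_contra h1
    obtain ⟨w, hw, hw'⟩ := mem_closure_iff_nhds.1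
      (h _ hC.2.isOpen_compl (Ultrafilter.compl_mem_iff_notMem.2 h1)) C hC.1
    exact hw' hw
  choose O hO hO' hO'' using hO
  choose pt hpt using fun F : Finset X => Ultrafilter.nonempty_of_mem
    ((biInter_finset_mem F).2 fun x _ => hO' x)
  have hnb : ∀ x, comap (f {x}) (𝓝 (f {x} x)) ≤ 𝓝 x := fun x =>
    nhds_eq hX (hf _) (fun y => hc _ _ (hfK _ y)) fun z h => hA {x} x z h.symm rfl
  have hcs : ∀ x y, {γ | f {x} y γ ≠ 0}.Countable := fun x y => countable_of_c0 (hc _ _ (hfK _ y))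
  have : FrechetUrysohnSpace X := ⟨fun D x hx => by
    obtain ⟨u, hu, hx⟩ := sigma_seq (hf {x}) (hcs x) hx
    exact ⟨u, hu, (tendsto_comap_iff.2 hx).mono_right (hnb x)⟩⟩
  let box : (x : X) → Finset (Γ {x}) → ℕ → Set X := fun x F k =>
    {y | ∀ γ ∈ F, dist (f {x} y γ) (f {x} x γ) < 1 / ((k : ℝ) + 1)}
  have hbo : ∀ x F k, IsOpen (box x F k) := fun x F k => by
    simp only [box, ofPred_forall]
    have := hf {x}
    exact isOpen_biInter_finset fun γ _ => isOpen_lt (by fun_prop) continuous_const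
  have hbx : ∀ x F k, x ∈ box x F k := fun x F k γ _ => by
    simpa using Nat.one_div_pos_of_nat (α := ℝ) (n := k)
  let 𝓑 : Set X → Set (Set X) := fun C => ⋃ x : C, ⋃ F : {F : Finset (Γ {x.1}) |
    (F : Set _) ⊆ ⋃ y : C, {γ | f {x.1} y γ ≠ 0}}, range (box x F)
  have h𝓑 : ∀ C : Set X, #C ≤ 𝔠 → #(𝓑 C) ≤ 𝔠 := fun C hC =>
    small_union aleph0_le_continuum _ hC fun x => small_union aleph0_le_continuum _
      ((mk_finsets_le _).trans (max_le aleph0_le_continuum (small_union aleph0_le_continuum _ hC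
        fun y => (le_aleph0_iff_set_countable.2 (hcs _ _)).trans aleph0_le_continuum)))
      fun F => (le_aleph0_iff_set_countable.2 (countable_range _)).trans aleph0_le_continuum
  have hT : ∀ w : ℕ → Set X, ∃ T : Set X, T.Countable ∧ ((∀ n, IsOpen (w n) ∧ (w n).Nonempty) →
      ∃ z ∈ T, ∀ m, z ∈ closure ((⋃ n ∈ Ici m, w n) ∩ T)) := by
    intro w
    by_cases h : ∀ n, IsOpen (w n) ∧ (w n).Nonempty
    · obtain ⟨z, -, hz⟩ := hX (fun m => ⋃ n ∈ Ici m, w n)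
        (fun m => isOpen_biUnion fun n _ => (h n).1)
        (fun m m' h => biUnion_subset_biUnion_left (Ici_subset_Ici.2 h))
        fun m => (h m).2.mono (subset_inter
          (subset_biUnion_of_mem (u := w) (mem_Ici.2 le_rfl)) (subset_univ _))
      choose u hu hu' using fun m => mem_closure_iff_seq_limit.1 (hz m)
      refine ⟨insert z (⋃ m, range (u m)), (countable_iUnion fun m => countable_range _).insert _,
        fun _ => ⟨z, mem_insert _ _, fun m => mem_closure_of_tendsto (hu' m)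
          (Eventually.of_forall fun n => ⟨(hu m n).1, Or.inr (mem_iUnion.2 ⟨m, n, rfl⟩)⟩)⟩⟩
    · exact ⟨∅, countable_empty, fun h' => absurd h' h⟩
  choose T hTc hT using hT
  obtain ⟨S, hS, -, -, hS2⟩ := chain (fun S : Set X => #S ≤ 𝔠)
    (fun ι g hι hg => small_union aleph0_le_continuum g (hι.trans aleph_one_le_continuum) hg)
    (fun S => pt '' {F : Finset X | ↑F ⊆ S} ∪ ⋃ w : ℕ → 𝓑 S, T fun n => w n)
    (fun S h => (mk_union_le _ _).trans (add_le_of_le aleph0_le_continuum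
      (mk_image_le.trans ((mk_finsets_le _).trans (max_le aleph0_le_continuum h)))
      (small_union aleph0_le_continuum _ (by
        have : #(ℕ → 𝓑 S) = #(𝓑 S) ^ ℵ₀ := by simp
        rw [this]
        exact (power_le_power_right (h𝓑 S h)).trans_eq continuum_power_aleph0)
        fun w => (le_aleph0_iff_set_countable.2 (hTc _)).trans aleph0_le_continuum)))
    ∅ (by simp)
  have hFC : FC S := by
    intro W hW hW' hne
    choose x hx hxS using hne
    have h1 : ∀ n, ∃ (F : Finset (Γ {x n})) (k : ℕ) (C : Set X), C ⊆ S ∧ C.Countable ∧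
        (F : Set _) ⊆ ⋃ y : C, {γ | f {x n} y γ ≠ 0} ∧ box (x n) F k ∩ S ⊆ W n := by
      intro n
      obtain ⟨N, hN, hN'⟩ := mem_comap.1 (hnb (x n) ((hW n).mem_nhds (hx n)))
      obtain ⟨F, k, hF⟩ := exists_box hN
      have h2 : ∀ γ, ∃ y ∈ S, (∃ y ∈ S, f {x n} y γ ≠ 0) → f {x n} y γ ≠ 0 := fun γ => by
        by_cases h : ∃ y ∈ S, f {x n} y γ ≠ 0
        · exact h.imp fun y hy => ⟨hy.1, fun _ => hy.2⟩
        · exact ⟨x n, hxS n, fun h' => absurd h' h⟩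
      choose y hy hy' using h2
      refine ⟨F.filter fun γ => ∃ y ∈ S, f {x n} y γ ≠ 0, k, y '' F,
        image_subset_iff.2 fun γ _ => hy γ, F.countable_toSet.image _, fun γ hγ => mem_iUnion.2
          ⟨⟨_, γ, (Finset.mem_filter.1 hγ).1, rfl⟩, hy' γ (Finset.mem_filter.1 hγ).2⟩,
        fun w hw => hN' (hF _ fun γ hγ => ?_)⟩
      by_cases h : ∃ y ∈ S, f {x n} y γ ≠ 0
      · exact hw.1 γ (Finset.mem_filter.2 ⟨hγ, h⟩)
      · push Not at h
        rw [h w hw.2, h _ (hxS n), dist_self]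
        exact Nat.one_div_pos_of_nat
    choose F k C hC hCc hF hb using h1
    obtain ⟨S', -, a1, -, a2⟩ := hS2 (range x ∪ ⋃ n, C n)
      (union_subset (range_subset_iff.2 hxS) (iUnion_subset hC))
      ((countable_range x).union (countable_iUnion hCc))
    have h2 : ∀ n, box (x n) (F n) (k n) ∈ 𝓑 S' := fun n =>
      mem_iUnion₂.2 ⟨⟨x n, a1 (Or.inl (mem_range_self n))⟩, ⟨F n, fun γ hγ => by
        obtain ⟨y, hy⟩ := mem_iUnion.1 (hF n hγ)
        exact mem_iUnion.2 ⟨⟨y, a1 (Or.inr (mem_iUnion.2 ⟨n, y.2⟩))⟩, hy⟩⟩, k n, rfl⟩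
    have h3 : T (fun n => box (x n) (F n) (k n)) ⊆ S := fun z hz =>
      a2 (Or.inr (mem_iUnion.2 ⟨fun n => ⟨_, h2 n⟩, hz⟩))
    obtain ⟨z, hz, hz'⟩ := hT (fun n => box (x n) (F n) (k n)) fun n => ⟨hbo _ _ _, _, hbx _ _ _⟩
    refine ⟨z, h3 hz, fun m => closure_mono (fun w hw => ?_) (hz' m)⟩
    obtain ⟨n, hn, hw'⟩ := mem_iUnion₂.1 hw.1
    exact ⟨hW' hn (hb n ⟨hw', h3 hw.2⟩), h3 hw.2⟩
  obtain ⟨z, hz, hz'⟩ := (compact_small hK hc hf hfK hA hFC hS).inter_iInter_nonempty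
    (fun x : S => closure (O x)) (fun _ => isClosed_closure) fun u => by
      obtain ⟨S', -, a1, -, a2⟩ := hS2 (u.image Subtype.val : Finset X) (by
        intro x hx
        obtain ⟨y, -, rfl⟩ := Finset.mem_image.1 hx
        exact y.2) (Finset.countable_toSet _)
      exact ⟨pt (u.image Subtype.val), a2 (Or.inl ⟨_, a1, rfl⟩), mem_iInter₂.2 fun x hx =>
        subset_closure (mem_iInter₂.1 (hpt _) x (Finset.mem_image_of_mem _ hx))⟩
  exact hO'' z (mem_iInter.1 hz' ⟨z, hz⟩)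

end Pool.Agent.H33.Spl8
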