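import Mathlib

set_option autoImplicit false
open Set Topology TopologicalSpace Filter

namespace Pool.Agent.H33.SubUnif

abbrev D := Finset ℝ × Finset (ℚ × ℚ)

def ev (S : Finset (ℚ × ℚ)) (x : ℝ) : Prop := ∃ q ∈ S, (q.1 : ℝ) < x ∧ x < q.2

lemma dens (P N : Finset ℝ) (h : ∀ x ∈ P, x ∉ N) :
    ∃ S, (∀ x ∈ P, ev S x) ∧ ∀ x ∈ N, ¬ ev S x := by
  have : ∀ x : ℝ, ∃ q : ℚ × ℚ, x ∉ N → ((q.1 : ℝ) < x ∧ x < q.2) ∧
      ∀ y ∈ N, ¬ ((q.1 : ℝ) < y ∧ y < q.2) := by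
    intro x
    by_cases hx : x ∈ N
    · exact ⟨0, fun h => absurd hx h⟩
    obtain ⟨_, ⟨a, b, -, rfl⟩, h1, h2⟩ := by
      simpa only [mem_iUnion, mem_singleton_iff, exists_prop] using
        Real.isTopologicalBasis_Ioo_rat.exists_subset_of_mem_open
          (show x ∈ (N : Set ℝ)ᶜ from hx) N.finite_toSet.isClosed.isOpen_compl
    exact ⟨(a, b), fun _ => ⟨h1, fun y hy hy' => h2 hy' hy⟩⟩
  choose q hq using this
  classical
  refine ⟨P.image q, fun x hx => ⟨q x, Finset.mem_image_of_mem q hx, (hq x (h x hx)).1⟩, ?_⟩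
  rintro y hy ⟨_, h1, h2⟩
  obtain ⟨x, hx, rfl⟩ := Finset.mem_image.mp h1
  exact (hq x (h x hx)).2 y hy h2

lemma ex_ultra (T : Finset ℝ → Set D) (hT : Antitone T) (hne : ∀ P, (T P).Nonempty) :
    ∃ u : Ultrafilter D, ∀ P, T P ∈ u := by
  have : (⨅ P, 𝓟 (T P)).NeBot := iInf_neBot_of_directed
    (Antitone.directed_ge fun _ _ h => principal_mono.mpr (hT h))
    fun P => principal_neBot_iff.mpr (hne P)
  exact ⟨Ultrafilter.of (⨅ P, 𝓟 (T P)), fun P => Ultrafilter.of_le _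
    (mem_iInf_of_mem P (mem_principal_self _))⟩

abbrev X := {u : Ultrafilter D // ∃ A ∈ u, A.Countable}

def br (A : Set D) : Set X := {u | A ∈ u.1}

lemma br_clopen (A : Set D) : IsClopen (br A) :=
  ⟨(ultrafilter_isClosed_basic A).preimage continuous_subtype_val,
    (ultrafilter_isOpen_basic A).preimage continuous_subtype_val⟩

def pt (d : D) : X := ⟨pure d, {d}, mem_pure.mpr rfl, countable_singleton d⟩

lemma nb (u : X) (U : Set X) (hU : IsOpen U) (hu : u ∈ U) :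
    ∃ A : Set D, A.Countable ∧ u ∈ br A ∧ br A ⊆ U := by
  obtain ⟨_, ⟨_, ⟨A, rfl⟩, rfl⟩, h1, h2⟩ :=
    (ultrafilterBasis_is_basis.isInducing (IsInducing.subtypeVal
      (t := {u : Ultrafilter D | ∃ A ∈ u, A.Countable}))).exists_subset_of_mem_open hu hU
  obtain ⟨B, hB, hBc⟩ := u.2
  exact ⟨A ∩ B, hBc.mono inter_subset_right, inter_mem h1 hB,
    fun v hv => h2 (mem_of_superset hv inter_subset_left : A ∈ v.1)⟩

lemma br_compact {A : Set D} (hA : A.Countable) : IsCompact (br A) := by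
  rw [Subtype.isCompact_iff]
  have : Subtype.val '' br A = {u : Ultrafilter D | A ∈ u} := by
    ext u
    exact ⟨by rintro ⟨v, hv, rfl⟩; exact hv, fun h => ⟨⟨u, A, h, hA⟩, h, rfl⟩⟩
  rw [this]; exact (ultrafilter_isClosed_basic A).isCompact

lemma not_normal : ¬ NormalSpace X := by
  intro H
  let F : Set X := ⋂ x : ℝ, (br {d | x ∈ d.1} ∩ br {d | ev d.2 x} ∪
    (br {d | x ∈ d.1})ᶜ ∩ (br {d | ev d.2 x})ᶜ)
  let G : Set X := ⋂ x : ℝ, br {d | ev d.2 x}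
  have hF : IsClosed F := isClosed_iInter fun x => (((br_clopen _).inter (br_clopen _)).union
    ((br_clopen _).compl.inter (br_clopen _).compl)).1
  have hG : IsClosed G := isClosed_iInter fun x => (br_clopen _).1
  have hFG : Disjoint F G := disjoint_left.mpr fun u h1 h2 => by
    obtain ⟨A, hA, hAc⟩ := u.2
    apply Cardinal.not_countable_real
    refine (hAc.biUnion fun d _ => d.1.countable_toSet).mono fun x _ => ?_
    have h3 : {d : D | x ∈ d.1} ∈ u.1 :=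
      ((mem_iInter.mp h1 x).resolve_right fun h => h.2 (mem_iInter.mp h2 x)).1
    obtain ⟨d, hd1, hd2⟩ := Ultrafilter.nonempty_of_mem (inter_mem hA h3)
    exact mem_biUnion hd1 hd2
  obtain ⟨U, V, hU, hV, h1, h2, h3⟩ := normal_separation hF hG hFG
  let A : Set D := {d | pt d ∈ V}
  have hGA : ∀ u ∈ G, A ∈ u.1 := fun u hu => by
    obtain ⟨B, -, b1, b2⟩ := nb u V hV (h2 hu)
    exact mem_of_superset b1 fun d hd => b2 (mem_pure.mpr hd)
  have hFA : ∀ u ∈ F, A ∉ u.1 := fun u hu hA => by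
    obtain ⟨B, -, b1, b2⟩ := nb u U hU (h1 hu)
    obtain ⟨d, hd1, hd2⟩ := Ultrafilter.nonempty_of_mem (inter_mem hA b1)
    exact disjoint_left.mp h3 (b2 (mem_pure.mpr hd2 : B ∈ (pt d).1)) hd1
  have hf : ∀ s : Finset ℝ, ∃ P : Finset ℝ, ∀ S, (∀ x ∈ P, ev S x) → (s, S) ∈ A := by
    intro s
    by_contra hn
    push Not at hn
    obtain ⟨u, hu⟩ := ex_ultra (fun P => {d | d.1 = s ∧ (∀ x ∈ P, ev d.2 x) ∧ d ∉ A})
      (fun P Q h d hd => ⟨hd.1, fun x hx => hd.2.1 x (h hx), hd.2.2⟩) fun P => by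
        obtain ⟨S, a, b⟩ := hn P
        exact ⟨(s, S), rfl, a, b⟩
    have := hGA ⟨u, {s} ×ˢ univ, mem_of_superset (hu ∅) fun d hd => ⟨hd.1, trivial⟩,
      (countable_singleton s).prod countable_univ⟩ (mem_iInter.mpr fun x =>
        mem_of_superset (hu {x}) fun d hd => hd.2.1 x (Finset.mem_singleton_self x))
    obtain ⟨d, hd1, hd2⟩ := Ultrafilter.nonempty_of_mem (inter_mem this (hu ∅))
    exact hd2.2.2 hd1
  choose f hf using hf
  classical
  let s : ℕ → Finset ℝ := fun n => Nat.rec ∅ (fun _ r => r ∪ f r) n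
  have hs : Monotone s := monotone_nat_of_le_succ fun n => Finset.subset_union_left
  obtain ⟨u, hu⟩ := ex_ultra (fun P => {d | (∃ n, d.1 = s n) ∧
      (∀ x ∈ P, ((∃ n, x ∈ s n) → x ∈ d.1 ∧ ev d.2 x) ∧ ((¬ ∃ n, x ∈ s n) → ¬ ev d.2 x)) ∧ d ∈ A})
    (fun P Q h d hd => ⟨hd.1, fun x hx => hd.2.1 x (h hx), hd.2.2⟩) fun P => by
      obtain ⟨n, hn⟩ : ∃ n, ∀ x ∈ P, (∃ m, x ∈ s m) → x ∈ s n := by
        have : ∀ x ∈ P, ∀ᶠ n in atTop, (∃ m, x ∈ s m) → x ∈ s n := fun x _ => by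
          by_cases h : ∃ m, x ∈ s m
          · obtain ⟨m, hm⟩ := h
            filter_upwards [eventually_ge_atTop m] with n hn _ using hs hn hm
          · exact Eventually.of_forall fun n h' => absurd h' h
        exact ((eventually_all_finset P).mpr this).exists
      obtain ⟨S, a, b⟩ := dens (s (n + 1)) (P.filter fun x => ¬ ∃ m, x ∈ s m)
        fun x hx hx' => (Finset.mem_filter.mp hx').2 ⟨n + 1, hx⟩
      exact ⟨(s n, S), ⟨n, rfl⟩, fun x hx => ⟨fun h => ⟨hn x hx h, a x (hs n.le_succ (hn x hx h))⟩,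
        fun h => b x (Finset.mem_filter.mpr ⟨hx, h⟩)⟩,
        hf _ _ fun x hx => a x (Finset.mem_union_right _ hx)⟩
  refine hFA ⟨u, range s ×ˢ univ, mem_of_superset (hu ∅) fun d ⟨⟨n, hn⟩, _⟩ => ⟨⟨n, hn.symm⟩, trivial⟩,
    (countable_range s).prod countable_univ⟩ (mem_iInter.mpr fun x => ?_)
    (mem_of_superset (hu ∅) fun d hd => hd.2.2)
  rcases Classical.em (∃ n, x ∈ s n) with h | h
  · refine Or.inl ⟨?_, ?_⟩
    · exact mem_of_superset (hu {x}) fun d hd => ((hd.2.1 x (Finset.mem_singleton_self x)).1 h).1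
    · exact mem_of_superset (hu {x}) fun d hd => ((hd.2.1 x (Finset.mem_singleton_self x)).1 h).2
  · refine Or.inr ⟨fun h' => ?_, fun h' => ?_⟩
    · obtain ⟨d, hd1, ⟨n, hn⟩, -⟩ := Ultrafilter.nonempty_of_mem (inter_mem h' (hu ∅))
      exact h ⟨n, hn ▸ hd1⟩
    · obtain ⟨d, hd1, hd2⟩ := Ultrafilter.nonempty_of_mem (inter_mem h' (hu {x}))
      exact (hd2.2.1 x (Finset.mem_singleton_self x)).2 h hd1

theorem main : ¬ (∀ (X : Type) [TopologicalSpace X] [CompletelyRegularSpace X] [T2Space X],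
      (∃ 𝓑 : Set (Set X),
        TopologicalSpace.IsTopologicalBasis 𝓑 ∧
        (∀ b ∈ 𝓑, IsClopen b) ∧
        (∀ C D : Set (Set X), C ⊆ 𝓑 → D ⊆ 𝓑 → C.Countable →
          (∀ c ∈ C, ∀ d ∈ D, Disjoint c d) →
          ∃ b ∈ 𝓑, (∀ c ∈ C, c ⊆ b) ∧ (∀ d ∈ D, Disjoint b d)) ∧
        @IsCompact X
          (TopologicalSpace.generateFrom {U : Set X | ∃ b ∈ 𝓑, U = (closure b)ᶜ})
          Set.univ) →
      NormalSpace X) := by
  intro H
  refine not_normal (H X ⟨br '' {A | A.Countable}, ?_, ?_, ?_, ?_⟩)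
  · refine isTopologicalBasis_of_isOpen_of_nhds (by rintro _ ⟨A, -, rfl⟩; exact (br_clopen A).2)
      fun u U hu hU => ?_
    obtain ⟨A, a, b, c⟩ := nb u U hU hu
    exact ⟨_, ⟨A, a, rfl⟩, b, c⟩
  · rintro _ ⟨A, -, rfl⟩; exact br_clopen A
  · intro C E hC hE hCc hd
    choose! a a1 a2 using fun c (hc : c ∈ C) => hC hc
    refine ⟨br (⋃ c ∈ C, a c), ⟨_, hCc.biUnion a1, rfl⟩, fun c hc u hu => ?_, fun e he => ?_⟩
    · rw [← a2 c hc] at hu
      exact mem_of_superset hu (subset_biUnion_of_mem (u := a) hc)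
    · obtain ⟨B, -, rfl⟩ := hE he
      refine disjoint_left.mpr fun u h1 h2 => ?_
      obtain ⟨d, hd1, hd2⟩ := Ultrafilter.nonempty_of_mem (inter_mem h1 h2)
      obtain ⟨c, hc, hdc⟩ := mem_iUnion₂.mp hd1
      refine disjoint_left.mp (hd c hc _ he) (show pt d ∈ c from ?_) (mem_pure.mpr hd2)
      rw [← a2 c hc]; exact mem_pure.mpr hdc
  · rw [@isCompact_iff_ultrafilter_le_nhds]
    intro 𝒰 _
    by_cases h : ∃ A : Set D, A.Countable ∧ br A ∈ 𝒰
    · obtain ⟨A, a, b⟩ := h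
      obtain ⟨x, -, hx⟩ := (br_compact a).ultrafilter_le_nhds 𝒰 (le_principal_iff.mpr b)
      refine ⟨x, trivial, hx.trans (nhds_mono (le_generateFrom ?_))⟩
      rintro _ ⟨b, -, rfl⟩
      exact isClosed_closure.isOpen_compl
    · refine ⟨pt (∅, ∅), trivial, ?_⟩
      rw [nhds_generateFrom]
      refine le_iInf₂ ?_
      rintro _ ⟨-, _, ⟨A, a, rfl⟩, rfl⟩
      rw [le_principal_iff, (br_clopen A).1.closure_eq]
      exact Ultrafilter.compl_mem_iff_notMem.mpr fun hb => h ⟨A, a, hb⟩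

end Pool.Agent.H33.SubUnif
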