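import Pool.Agent.H33.SLC1

/-! A side condition poset for spaces with a base indexed by a tree in which the immediate
successors of each node form a locally countable family. -/

open Set Filter Topology Cardinal Pool.Agent.H33.DiaDefs Pool.Agent.H33.SLC1

namespace Pool.Agent.H33.TLC1

/-- items -/
structure It (S : Type) : Type where
  /-- label -/
  B : List S
  /-- the chosen node -/
  C : List S
  /-- colour -/
  n : ℕ

/-- the data of the forcing -/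
structure Data (X S : Type) : Type where
  /-- the base -/
  b : List S → Set X
  /-- the cover -/
  U : Set (Set X)
  /-- tasks -/
  T : X → Set ℕ
  /-- rank of nodes -/
  σ : List S → W
  /-- rank of points -/
  τ : X → W
  /-- closing-off function -/
  g : W → W
  mono : ∀ a l, b (a :: l) ⊆ b l
  cσ : ∀ ξ, {l | (b l).Nonempty ∧ σ l < ξ}.Countable
  cτ : ∀ ξ, {z | τ z < ξ}.Countable
  g0 : ∀ ξ, ξ < g ξ
  g1 : ∀ z l, z ∈ b l → σ l < g (τ z)
  g2 : ∀ l C, (b C).Nonempty → {a | (b (a :: l) ∩ b C).Nonempty}.Countable →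
    ∀ a, (b (a :: l) ∩ b C).Nonempty → σ (a :: l) < g (max (σ l) (σ C))
  g3 : ∀ ξ, σ [] < g ξ

theorem bmono {X S : Type} {b : List S → Set X} (h : ∀ a l, b (a :: l) ⊆ b l) {l B : List S}
    (e : l <:+ B) : b B ⊆ b l := by
  obtain ⟨t, rfl⟩ := e
  induction t with
  | nil => rfl
  | cons a t ih => exact (h _ _).trans ih

theorem split {S : Type} {σ : List S → W} {δ : W} (h : σ [] < δ) {B : List S} (e : δ ≤ σ B) :
    ∃ a l, (a :: l) <:+ B ∧ δ ≤ σ (a :: l) ∧ σ l < δ := by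
  induction B with
  | nil => exact absurd h (not_lt.2 e)
  | cons a t ih =>
    by_cases c : σ t < δ
    · exact ⟨a, t, List.suffix_rfl, e, c⟩
    · obtain ⟨a', l, h1, h2⟩ := ih (not_lt.1 c)
      exact ⟨a', l, h1.trans (List.suffix_cons _ _), h2⟩

theorem suf_fin {S : Type} (B : List S) : {l | l <:+ B}.Finite :=
  B.tails.finite_toSet.subset fun _ h => (List.mem_tails _ _).2 h

variable {X S : Type} (d : Data X S)

/-- good items -/
def Ok (i : It S) : Prop := d.b i.C ⊆ d.b i.B ∧ (d.b i.C).Nonempty ∧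
  (∀ l, l <:+ i.B → {a | (d.b (a :: l) ∩ d.b i.C).Nonempty}.Countable) ∧ ∃ u ∈ d.U, d.b i.C ⊆ u

/-- conditions -/
@[ext] structure Co : Type where
  /-- side conditions -/
  a : Set W
  /-- items -/
  I : Set (It S)
  /-- frozen points -/
  Z : Set X
  fa : a.Finite
  fI : I.Finite
  fZ : Z.Finite
  ok : ∀ i ∈ I, Ok d i
  sd : ∀ δ ∈ a, (∀ ξ < δ, d.g ξ < δ) → ∀ i ∈ I, d.σ i.B < δ → d.σ i.C < δ
  dn : ∀ z ∈ Z, ∀ n ∈ d.T z, ∃ i ∈ I, i.n = n ∧ z ∈ d.b i.C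

instance : PartialOrder (Co d) where
  le q p := p.a ⊆ q.a ∧ p.I ⊆ q.I ∧ p.Z ⊆ q.Z ∧ ∀ z ∈ p.Z, ∀ i ∈ q.I, z ∈ d.b i.C → i ∈ p.I
  le_refl p := ⟨subset_rfl, subset_rfl, subset_rfl, fun _ _ _ h _ => h⟩
  le_trans r q p h h' := ⟨h'.1.trans h.1, h'.2.1.trans h.2.1, h'.2.2.1.trans h.2.2.1,
    fun z hz i hi e => h'.2.2.2 z hz i (h.2.2.2 z (h'.2.2.1 hz) i hi e) e⟩
  le_antisymm p q h h' := Co.ext (h'.1.antisymm h.1) (h'.2.1.antisymm h.2.1)
    (h'.2.2.1.antisymm h.2.2.1)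

/-- codes of ordinals -/
def e (ξ : W) : Co d :=
  ⟨{ξ}, ∅, ∅, finite_singleton _, finite_empty, finite_empty, by simp, by simp, by simp⟩

instance : Nonempty (Co d) := ⟨e d (by have := unc; exact Classical.arbitrary W)⟩

variable {d}

/-- bounded conditions -/
def Bd (p : Co d) (ξ : W) : Prop := (∀ δ ∈ p.a, δ < ξ) ∧
  (∀ i ∈ p.I, d.σ i.B < ξ ∧ d.σ i.C < ξ) ∧ ∀ z ∈ p.Z, d.τ z < ξ

theorem Bd.mono {p : Co d} {ξ ζ : W} (h : Bd p ξ) (e : ξ ≤ ζ) : Bd p ζ :=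
  ⟨fun δ a => (h.1 δ a).trans_le e, fun i a => ⟨(h.2.1 i a).1.trans_le e, (h.2.1 i a).2.trans_le e⟩,
    fun z a => (h.2.2 z a).trans_le e⟩

theorem bdc (ξ : W) : {p : Co d | Bd p ξ}.Countable := by
  have h1 : {i : It S | ((d.b i.B).Nonempty ∧ d.σ i.B < ξ) ∧
      (d.b i.C).Nonempty ∧ d.σ i.C < ξ}.Countable := by
    refine (((d.cσ ξ).prod ((d.cσ ξ).prod
      (countable_univ (α := ℕ)))).image fun t => (⟨t.1, t.2.1, t.2.2⟩ : It S)).mono
      fun i hi => ?_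
    exact ⟨(i.B, i.C, i.n), ⟨hi.1, hi.2, trivial⟩, rfl⟩
  refine countable_of_injective_of_countable_image (f := fun p : Co d => (p.a, p.I, p.Z))
    (fun p _ q _ h => Co.ext (congrArg (·.1) h) (congrArg (·.2.1) h) (congrArg (·.2.2) h))
    (((countable_ofPred_finite_subset (cnt ξ)).prod ((countable_ofPred_finite_subset h1).prod
      (countable_ofPred_finite_subset (d.cτ ξ)))).mono ?_)
  rintro _ ⟨p, hp, rfl⟩
  exact ⟨⟨p.fa, hp.1⟩, ⟨p.fI, fun i hi => ⟨⟨(p.ok i hi).2.1.mono (p.ok i hi).1, (hp.2.1 i hi).1⟩,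
    (p.ok i hi).2.1, (hp.2.1 i hi).2⟩⟩, p.fZ, hp.2.2⟩

theorem fbd {δ : W} (h : ∀ ξ < δ, d.g ξ < δ) {ξ₀ : W} (h0 : ξ₀ < δ) {s : Set W} (hs : s.Finite)
    (h1 : ∀ ξ ∈ s, ξ < δ) : ∃ ζ < δ, ∀ ξ ∈ s, ξ < ζ := by
  obtain ⟨m, m1, m2⟩ := exists_max_image (insert ξ₀ s) id (hs.insert _) (insert_nonempty _ _)
  exact ⟨d.g m, h m (m1.elim (fun e => e ▸ h0) (h1 m)),
    fun ξ a => (m2 ξ (Or.inr a)).trans_lt (d.g0 m)⟩

/-- the ordinals mentioned in a condition -/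
def men (p : Co d) : Set W := p.a ∪ (fun i => d.σ i.B) '' p.I ∪ (fun i => d.σ i.C) '' p.I ∪ d.τ '' p.Z

theorem men_fin (p : Co d) : (men p).Finite :=
  ((p.fa.union (p.fI.image _)).union (p.fI.image _)).union (p.fZ.image _)

theorem bd_iff {p : Co d} {ξ : W} : Bd p ξ ↔ ∀ ζ ∈ men p, ζ < ξ := by
  simp only [Bd, men, mem_union, mem_image, or_imp, forall_and, forall_exists_index, and_imp,
    forall_apply_eq_imp_iff₂, and_assoc]

theorem card : #(Co d) ≤ ℵ_ 1 := by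
  have := unc
  have h : (Set.univ : Set (Co d)) ⊆ ⋃ ξ, {p | Bd p ξ} := fun p _ =>
    mem_iUnion.2 ((DT1.bd cnt _ (men_fin p).countable).imp fun _ h => bd_iff.2 h)
  refine mk_univ.ge.trans ((mk_le_mk_of_subset h).trans ((mk_iUnion_le _).trans ?_))
  rw [mk_W]
  exact (mul_le_mul' le_rfl ((ciSup_le' fun ξ => le_aleph0_iff_set_countable.2 (bdc ξ)).trans
    aleph0_lt_aleph_one.le)).trans_eq (mul_eq_self aleph0_lt_aleph_one.le)

end Pool.Agent.H33.TLC1
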