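import Pool.Agent.H33.TLC2
import Pool.Agent.H33.SLC5

/-! Spaces locally of size `ℵ₁` with a tree-wise locally countable base under the forcing axiom. -/

open Set Filter Topology Cardinal Pool.Agent.H33.DiaDefs Pool.Agent.H33.TLC1
open Pool.Agent.H33.SLC1 (PFA1)

namespace Pool.Agent.H33.TLC3

/-- tree-wise locally countable bases -/
structure TB {X S : Type} [TopologicalSpace X] (b : List S → Set X) : Prop where
  mono : ∀ a l, b (a :: l) ⊆ b l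
  op : ∀ l, IsOpen (b l)
  base : ∀ x, ∀ N ∈ 𝓝 x, ∃ l, x ∈ b l ∧ b l ⊆ N
  lc : ∀ l x, ∃ V ∈ 𝓝 x, {a | (b (a :: l) ∩ V).Nonempty}.Countable

theorem TB.pc {X S : Type} [TopologicalSpace X] {b : List S → Set X} (hb : TB b) (z : X) :
    {l | z ∈ b l}.Countable := by
  have : ∀ n, {l : List S | l.length = n ∧ z ∈ b l}.Countable := fun n => by
    induction n with
    | zero => exact (countable_singleton []).mono fun l h => List.length_eq_zero_iff.1 h.1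
    | succ n ih =>
      choose V v1 v2 using fun l => hb.lc l z
      refine (ih.biUnion fun l _ => (v2 l).image (· :: l)).mono fun l h => ?_
      cases l with
      | nil => simp at h
      | cons a l =>
        exact mem_biUnion (x := l) ⟨by simpa using h.1, hb.mono _ _ h.2⟩
          ⟨a, ⟨z, h.2, mem_of_mem_nhds (v1 l)⟩, rfl⟩
  refine (countable_iUnion this).mono fun l h => mem_iUnion.2 ⟨l.length, ?_⟩
  exact ⟨rfl, h⟩

theorem core0 (h : PFA1) {X S : Type} [TopologicalSpace X] [T1Space X] (hX : #X ≤ ℵ_ 1)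
    (b : List S → Set X) (hb : TB b)
    (U : Set (Set X)) (hU : ∀ x, ∃ u ∈ U, u ∈ 𝓝 x) (T : X → Set ℕ) :
    ∃ I : Set (Set X × ℕ), (∀ i ∈ I, IsOpen i.1 ∧ ∃ u ∈ U, i.1 ⊆ u) ∧
      (∀ x, ∀ n ∈ T x, ∃ i ∈ I, i.2 = n ∧ x ∈ i.1) ∧
      ∀ z, (T z).Finite → {i ∈ I | z ∈ i.1}.Finite := by
  classical
  have := unc
  obtain ⟨τ⟩ := (le_def _ _).1 (hX.trans_eq mk_W.symm)
  choose V V1 V2 using hb.lc
  let σ : List S → W := fun B => if h : (b B).Nonempty then τ h.some else Classical.arbitrary W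
  have cτ : ∀ ξ, {z | τ z < ξ}.Countable := fun ξ => (cnt ξ).preimage τ.injective
  have cσ : ∀ ξ, {B | (b B).Nonempty ∧ σ B < ξ}.Countable := fun ξ =>
    ((cτ ξ).biUnion fun z _ => hb.pc z).mono fun B ⟨e, c⟩ => by
      refine mem_biUnion (show τ e.some < ξ by simpa [σ, e] using c) ?_
      exact e.some_mem
  choose s hs using fun ξ : W => DT1.bd cnt _ (countable_singleton ξ)
  choose g hg using fun ξ : W => DT1.bd cnt _ ((((((cτ (s ξ)).biUnion fun z _ => hb.pc z).union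
    ((cσ (s ξ)).biUnion fun C _ => (cσ (s ξ)).biUnion fun l _ => (show
      {a | {a | (b (a :: l) ∩ b C).Nonempty}.Countable ∧ (b (a :: l) ∩ b C).Nonempty}.Countable from by
        by_cases e : {a | (b (a :: l) ∩ b C).Nonempty}.Countable
        · exact e.mono fun B h => h.2
        · simp [e]).image (· :: l))).insert []).image σ).insert ξ)
  let d : Data X S := ⟨b, U, T, σ, τ, g, hb.mono, cσ, cτ, fun ξ => hg ξ ξ (Or.inl rfl),
    fun z B c => hg _ _ (Or.inr ⟨B, Or.inr (Or.inl (mem_biUnion (hs _ _ rfl) c)), rfl⟩),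
    fun l C a c B f => hg _ _ (Or.inr ⟨_, Or.inr (Or.inr (mem_biUnion (x := C)
      ⟨a, (le_max_right _ _).trans_lt (hs _ _ rfl)⟩ (mem_biUnion (x := l)
        ⟨f.mono (inter_subset_left.trans (hb.mono _ _)), (le_max_left _ _).trans_lt (hs _ _ rfl)⟩
          ⟨B, ⟨c, f⟩, rfl⟩))), rfl⟩), fun ξ => hg _ _ (Or.inr ⟨_, Or.inl rfl, rfl⟩)⟩
  obtain ⟨I, a1, a2, a3⟩ := TLC2.gen (d := d) h hX fun x n p hx => by
    have : ∀ δ, ∃ l, σ [] < δ → (∃ C, x ∈ b C ∧ δ ≤ σ C) →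
        σ l < δ ∧ ∃ a, x ∈ b (a :: l) ∧ δ ≤ σ (a :: l) := fun δ => by
      by_cases e : σ [] < δ ∧ ∃ C, x ∈ b C ∧ δ ≤ σ C
      · obtain ⟨e0, C, e1, e2⟩ := e
        obtain ⟨a, l, c1, c2, c3⟩ := split e0 e2
        exact ⟨l, fun _ _ => ⟨c3, a, bmono hb.mono c1 e1, c2⟩⟩
      · exact ⟨[], fun a c => absurd ⟨a, c⟩ e⟩
    choose j hj using this
    obtain ⟨u, u1, u2⟩ := hU x
    obtain ⟨B, b2, b3⟩ := hb.base x _ (inter_mem (inter_mem u2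
      (p.fZ.isClosed.isOpen_compl.mem_nhds hx)) ((biInter_mem p.fa).2 fun δ _ => V1 (j δ) x))
    obtain ⟨C, c2, c3⟩ := hb.base x _ (inter_mem ((hb.op B).mem_nhds b2)
      ((biInter_mem (suf_fin B)).2 fun l _ => V1 l x))
    have m : ∀ l (D : Set X), D ⊆ V l x → {a | (b (a :: l) ∩ D).Nonempty}.Countable :=
      fun k D h => (V2 k x).mono fun E a => Set.Nonempty.mono (inter_subset_inter_right _ h) a
    refine ⟨⟨B, C, n⟩, ⟨fun y hy => (c3 hy).1, ⟨x, c2⟩, fun l hl => m _ _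
      fun y hy => mem_iInter₂.1 (c3 hy).2 l hl, u, u1, fun y hy => (b3 (c3 hy).1).1.1⟩, rfl, c2,
      fun z hz e => (b3 (c3 e).1).1.2 hz, fun δ h1 h2 h3 => not_le.1 fun e => ?_⟩
    obtain ⟨e1, E, e2, e3⟩ := hj δ ((d.g3 _).trans (h2 _ h3)) ⟨C, c2, e⟩
    exact not_lt.2 e3 ((d.g2 (j δ) B ⟨x, b2⟩ (m _ _ fun y hy =>
      mem_iInter₂.1 (b3 hy).2 δ h1) E ⟨x, e2, b2⟩).trans (h2 _ (max_lt e1 h3)))
  refine ⟨(fun i => (b i.C, i.n)) '' I, forall_mem_image.2 fun i hi => ⟨hb.op _, (a1 i hi).2.2.2⟩,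
    fun x n hn => ?_, fun z hz => ((a3 z hz).image fun i => (b i.C, i.n)).subset ?_⟩
  · obtain ⟨i, c1, c2, c3⟩ := a2 x n hn
    exact ⟨_, ⟨i, c1, rfl⟩, c2, c3⟩
  · rintro _ ⟨⟨i, c1, rfl⟩, c2⟩
    exact ⟨i, ⟨c1, c2⟩, rfl⟩

theorem core (h : PFA1) {X S : Type} [TopologicalSpace X] [T1Space X]
    (hX : ∀ x : X, ∃ V ∈ 𝓝 x, #V ≤ ℵ_ 1) (b : List S → Set X) (hb : TB b)
    (U : Set (Set X)) (hU : ∀ x, ∃ u ∈ U, u ∈ 𝓝 x) (T : X → Set ℕ) :
    ∃ I : Set (Set X × ℕ), (∀ i ∈ I, IsOpen i.1 ∧ ∃ u ∈ U, i.1 ⊆ u) ∧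
      (∀ x, ∀ n ∈ T x, ∃ i ∈ I, i.2 = n ∧ x ∈ i.1) ∧
      ∀ z, (T z).Finite → {i ∈ I | z ∈ i.1}.Finite := by
  obtain ⟨Y, y1, y2⟩ := SLC5.pieces hX (b := range b)
    (TopologicalSpace.isTopologicalBasis_of_isOpen_of_nhds (forall_mem_range.2 hb.op)
      fun x u a c => by
        obtain ⟨l, e⟩ := hb.base x u (c.mem_nhds a)
        exact ⟨_, ⟨l, rfl⟩, e⟩) fun z => ((hb.pc z).image b).mono (by
    rintro _ ⟨⟨l, rfl⟩, e⟩
    exact ⟨l, e, rfl⟩)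
  choose I a1 a2 a3 using fun (P : Set X) (hP : #P ≤ ℵ_ 1) => core0 h (X := P) hP
    (fun l => Subtype.val ⁻¹' b l) ⟨fun a l => preimage_mono (hb.mono a l),
      fun l => (hb.op l).preimage continuous_subtype_val, fun x N hN => by
        obtain ⟨M, m1, m2⟩ := (mem_nhds_subtype _ _ _).1 hN
        obtain ⟨l, e1, e2⟩ := hb.base x M m1
        exact ⟨l, e1, (preimage_mono e2).trans m2⟩, fun l x => by
        obtain ⟨V, v1, v2⟩ := hb.lc l x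
        refine ⟨_, continuous_subtype_val.continuousAt.preimage_mem_nhds v1, v2.mono ?_⟩
        rintro a ⟨z, b2⟩
        exact ⟨z, b2⟩⟩ (preimage Subtype.val '' U) (fun x => by
      obtain ⟨u, u1, u2⟩ := hU x
      exact ⟨_, ⟨u, u1, rfl⟩, continuous_subtype_val.continuousAt.preimage_mem_nhds u2⟩)
    fun x => T x
  refine ⟨⋃ x, (fun i => (Subtype.val '' i.1, i.2)) '' I (Y x) (y1 x).2.2, fun i hi => ?_,
    fun x n hn => ?_, fun z hz => (((a3 (Y z) (y1 z).2.2 ⟨z, (y1 z).2.1⟩ hz).image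
      fun i => (Subtype.val '' i.1, i.2)).subset fun i hi => ?_)⟩
  · obtain ⟨x, i, c, rfl⟩ := mem_iUnion.1 hi
    obtain ⟨d, _, ⟨u, u1, rfl⟩, u2⟩ := a1 _ _ i c
    exact ⟨(y1 x).1.isOpenMap_subtype_val _ d, u, u1, image_subset_iff.2 u2⟩
  · obtain ⟨i, c1, c2, c3⟩ := a2 (Y x) (y1 x).2.2 ⟨x, (y1 x).2.1⟩ n hn
    exact ⟨_, mem_iUnion.2 ⟨x, i, c1, rfl⟩, c2, _, c3, rfl⟩
  · obtain ⟨x, i, c, rfl⟩ := mem_iUnion.1 hi.1
    obtain ⟨w, w1, w2⟩ := hi.2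
    have e := y2 x z z (w2 ▸ w.2) (y1 z).2.1
    have k : ∀ (P Q : Set X) (hP : #P ≤ ℵ_ 1) (hQ : #Q ≤ ℵ_ 1) (hz : z ∈ Q), P = Q → ∀ i ∈ I P hP,
        ∀ w ∈ i.1, w.1 = z → (Subtype.val '' i.1, i.2) ∈
          (fun i => (Subtype.val '' i.1, i.2)) '' {i ∈ I Q hQ | ⟨z, hz⟩ ∈ i.1} := by
      rintro P _ hP hQ hz rfl i c w w1 rfl
      exact ⟨i, ⟨c, w1⟩, rfl⟩
    exact k _ _ _ _ _ e i c w w1 w2

end Pool.Agent.H33.TLC3
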