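import Pool.Agent.H33.TLC3

/-! Para-Lindelöf spaces with a base of countable order. -/

open Set Filter Topology TopologicalSpace Pool.Agent.H33.TLC3

namespace Pool.Agent.H33.TLC4

variable {X : Type} [TopologicalSpace X]

/-- para-Lindelöf spaces -/
def PL (X : Type) [TopologicalSpace X] : Prop :=
  ∀ 𝒰 : Set (Set X), (∀ u ∈ 𝒰, IsOpen u) → ⋃₀ 𝒰 = Set.univ →
    ∃ 𝒱 : Set (Set X), (∀ v ∈ 𝒱, IsOpen v) ∧ ⋃₀ 𝒱 = Set.univ ∧ (∀ v ∈ 𝒱, ∃ u ∈ 𝒰, v ⊆ u) ∧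
      ∀ x : X, ∃ n ∈ 𝓝 x, {v ∈ 𝒱 | (v ∩ n).Nonempty}.Countable

/-- locally countable indexed families -/
def LC {ι : Type} (I : Set ι) (A : ι → Set X) : Prop :=
  ∀ x, ∃ V ∈ 𝓝 x, {i ∈ I | (A i ∩ V).Nonempty}.Countable

theorem PL.ref (h : PL X) {P : Set X → Prop} (hP : ∀ x, ∃ V ∈ 𝓝 x, P V) :
    ∃ 𝒱 : Set (Set X), (∀ v ∈ 𝒱, IsOpen v ∧ ∃ u, P u ∧ v ⊆ u) ∧ (∀ x, ∃ v ∈ 𝒱, x ∈ v) ∧
      LC 𝒱 id := by
  obtain ⟨𝒱, a, b, c, d⟩ := h (interior '' {V | P V}) (forall_mem_image.2 fun _ _ => isOpen_interior)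
    (eq_univ_of_forall fun x => by
      obtain ⟨V, v1, v2⟩ := hP x
      exact ⟨_, ⟨V, v2, rfl⟩, mem_interior_iff_mem_nhds.2 v1⟩)
  refine ⟨𝒱, fun v hv => ⟨a v hv, ?_⟩, fun x => b.ge (mem_univ x), d⟩
  obtain ⟨_, ⟨u, u1, rfl⟩, u2⟩ := c v hv
  exact ⟨u, u1, u2.trans interior_subset⟩

theorem PL.expand (h : PL X) {ι : Type} {I : Set ι} {A : ι → Set X} (hA : LC I A) :
    ∃ E : ι → Set X, (∀ i, IsOpen (E i) ∧ A i ⊆ E i) ∧ LC I E := by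
  obtain ⟨𝒱, a, b, c⟩ := h.ref hA
  refine ⟨fun i => ⋃₀ {v ∈ 𝒱 | (A i ∩ v).Nonempty}, fun i => ⟨isOpen_sUnion fun v hv =>
    (a v hv.1).1, fun x hx => ?_⟩, fun x => ?_⟩
  · obtain ⟨v, v1, v2⟩ := b x
    exact ⟨v, ⟨v1, x, hx, v2⟩, v2⟩
  · obtain ⟨V, v1, v2⟩ := c x
    refine ⟨V, v1, (v2.biUnion (t := fun v _ => {i ∈ I | (A i ∩ v).Nonempty}) fun v hv => ?_).mono
      fun i ⟨hi, y, ⟨v, y1, y2⟩, y3⟩ => mem_iUnion₂.2 ⟨v, ?_, ?_⟩⟩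
    · obtain ⟨u, u1, u2⟩ := (a v hv.1).2
      refine u1.mono fun i hi => ?_
      exact ⟨hi.1, hi.2.mono (inter_subset_inter_right _ u2)⟩
    · exact ⟨y1.1, y, y2, y3⟩
    · exact ⟨hi, y1.2⟩

theorem children [T3Space X] (h : PL X) {𝓑 : Set (Set X)} (hb : IsTopologicalBasis 𝓑)
    {F U : Set X} (hF : IsClosed F) (hU : IsOpen U) (hFU : F ⊆ U) :
    ∃ ch : Set (Set X × Set X × Set X), (∀ c ∈ ch, (IsClosed c.1 ∧ IsOpen c.2.1 ∧ c.1 ⊆ c.2.1) ∧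
      c.2.1 ⊆ c.2.2 ∧ c.2.2 ∈ 𝓑 ∧ c.2.2 ⊆ U ∧ (c.2.2 ⊂ U ∨ c.2.2.Subsingleton)) ∧
      (∀ x ∈ F, ∃ c ∈ ch, x ∈ c.1) ∧ LC ch fun c => c.2.1 := by
  let Q : Set X → Set X → Prop := fun V B => B ∈ 𝓑 ∧ closure V ⊆ B ∧ B ⊆ U ∧
    (B ⊂ U ∨ B.Subsingleton)
  obtain ⟨𝒱, a, b, c⟩ := h.ref (P := fun V => V ⊆ Fᶜ ∨ ∃ B, Q V B) fun x => by
    by_cases e : x ∈ F
    swap
    · exact ⟨_, hF.isOpen_compl.mem_nhds e, Or.inl subset_rfl⟩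
    have : ∃ N ∈ 𝓝 x, N ⊆ U ∧ (N ⊂ U ∨ N.Subsingleton) := by
      by_cases f : U.Subsingleton
      · exact ⟨U, hU.mem_nhds (hFU e), subset_rfl, Or.inr f⟩
      · obtain ⟨y, y1, y2⟩ := (not_subsingleton_iff.1 f).exists_ne x
        exact ⟨U \ {y}, (hU.sdiff isClosed_singleton).mem_nhds ⟨hFU e, y2.symm⟩, sdiff_subset,
          Or.inl (sdiff_singleton_ssubset.2 y1)⟩
    obtain ⟨N, n1, n2, n3⟩ := this
    obtain ⟨B, b1, b2, b3⟩ := hb.mem_nhds_iff.1 n1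
    obtain ⟨V, v1, v2, v3⟩ := exists_mem_nhds_isClosed_subset (hb.mem_nhds b1 b2)
    exact ⟨V, v1, Or.inr ⟨B, b1, v2.closure_eq.le.trans v3, b3.trans n2,
      n3.imp b3.trans_ssubset fun f => f.anti b3⟩⟩
  choose! B hB using fun V (h : ∃ B, Q V B) => h
  obtain ⟨E, e1, e2⟩ := h.expand (I := {v ∈ 𝒱 | ∃ B, Q v B}) (A := closure) fun x => by
    obtain ⟨V, v1, v2⟩ := c x
    refine ⟨interior V, interior_mem_nhds.2 v1, v2.mono fun v hv => ?_⟩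
    exact ⟨hv.1.1, ((closure_inter_open_nonempty_iff isOpen_interior).1 hv.2).mono
      (inter_subset_inter_right _ interior_subset)⟩
  refine ⟨(fun v => (closure v, E v ∩ B v, B v)) '' {v ∈ 𝒱 | ∃ B, Q v B}, forall_mem_image.2
    fun v hv => ?_, fun x hx => ?_, fun x => ?_⟩
  · obtain ⟨q1, q2, q3⟩ := hB v hv.2
    exact ⟨⟨isClosed_closure, (e1 v).1.inter (hb.isOpen q1), subset_inter (e1 v).2 q2⟩,
      inter_subset_right, q1, q3⟩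
  · obtain ⟨v, v1, v2⟩ := b x
    obtain ⟨u, u1 | ⟨B, u1⟩, u2⟩ := (a v v1).2
    · exact absurd hx (u1 (u2 v2))
    · exact ⟨_, ⟨v, ⟨v1, B, u1.1, (closure_mono u2).trans u1.2.1, u1.2.2⟩, rfl⟩, subset_closure v2⟩
  · obtain ⟨V, v1, v2⟩ := e2 x
    refine ⟨V, v1, (v2.image fun v => (closure v, E v ∩ B v, B v)).mono ?_⟩
    rintro _ ⟨⟨v, w1, rfl⟩, w2⟩
    exact ⟨v, ⟨w1, w2.mono (inter_subset_inter_left _ inter_subset_left)⟩, rfl⟩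

theorem tree [T3Space X] (h : PL X) {𝓑 : Set (Set X)} (hb : IsTopologicalBasis 𝓑)
    (ho : ∀ (x : X) (b : ℕ → Set X), (∀ n, b n ∈ 𝓑) → (∀ n, x ∈ b n) →
      (∀ n, b (n + 1) ⊂ b n) → ∀ s ∈ 𝓝 x, ∃ n, b n ⊆ s) :
    ∃ b : List (Set X × Set X × Set X) → Set X, TB b := by
  classical
  choose! ch c1 c2 c3 using fun (s : Set X × Set X × Set X)
    (g : IsClosed s.1 ∧ IsOpen s.2.1 ∧ s.1 ⊆ s.2.1) => children h hb g.1 g.2.1 g.2.2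
  let st : List (Set X × Set X × Set X) → Set X × Set X × Set X := fun l =>
    l.headD (Set.univ, Set.univ, Set.univ)
  let va : List (Set X × Set X × Set X) → Prop := fun l =>
    List.rec True (fun a l r => a ∈ ch (st l) ∧ r) l
  have g : ∀ l, va l → IsClosed (st l).1 ∧ IsOpen (st l).2.1 ∧ (st l).1 ⊆ (st l).2.1 := fun l => by
    induction l with
    | nil => exact fun _ => ⟨isClosed_univ, isOpen_univ, subset_rfl⟩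
    | cons a l ih => exact fun v => (c1 _ (ih v.2) a v.1).1
  refine ⟨fun l => {x | va l ∧ x ∈ (st l).2.1}, fun a l x hx => ?_, fun l => ?_, fun x N hN => ?_,
    fun l x => ?_⟩
  · have := c1 _ (g l hx.1.2) a hx.1.1
    exact ⟨hx.1.2, this.2.2.2.1 (this.2.1 hx.2)⟩
  · rcases Classical.em (va l) with e | e
    · simpa [e] using (g l e).2.1
    · simp [e]
  · choose nx n1 n2 using fun l : {l // va l ∧ x ∈ (st l).1} => c2 _ (g _ l.2.1) x l.2.2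
    let L : ℕ → {l // va l ∧ x ∈ (st l).1} := fun n => Nat.rec ⟨[], trivial, mem_univ x⟩
      (fun _ l => ⟨nx l :: l.1, ⟨n1 l, l.2.1⟩, n2 l⟩) n
    have k := fun n => c1 _ (g _ (L n).2.1) _ (n1 (L n))
    have x1 : ∀ n, x ∈ (nx (L n)).2.1 := fun n => (k n).1.2.2 (n2 _)
    obtain ⟨n, hn⟩ : ∃ n, (nx (L n)).2.2 ⊆ N := by
      by_cases e : ∃ n, (nx (L n)).2.2.Subsingleton
      · obtain ⟨n, a⟩ := e
        exact ⟨n, fun y hy => a ((k n).2.1 (x1 n)) hy ▸ mem_of_mem_nhds hN⟩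
      · exact ho x _ (fun n => (k n).2.2.1) (fun n => (k n).2.1 (x1 n)) (fun n =>
          ((k (n + 1)).2.2.2.2.resolve_right fun a => e ⟨n + 1, a⟩).trans_subset (k n).2.1) N hN
    exact ⟨(L (n + 1)).1, ⟨(L (n + 1)).2.1, x1 n⟩, fun y hy => hn ((k n).2.1 hy.2)⟩
  · rcases Classical.em (va l) with e | e
    · obtain ⟨V, v1, v2⟩ := c3 _ (g l e) x
      refine ⟨V, v1, v2.mono fun a ⟨y, y1, y2⟩ => ?_⟩
      exact ⟨y1.1.1, y, y1.2, y2⟩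
    · exact ⟨_, univ_mem, countable_empty.mono fun a ⟨y, y1, _⟩ => e y1.1.2⟩

theorem disc (hG : ∀ A : Set X, IsGδ A) {c : Set (Set X)} (ho : ∀ C ∈ c, IsOpen C)
    (hf : ∀ x, {C ∈ c | x ∈ C}.Finite) : ∃ H : ℕ × ℕ → Set X, (∀ x, ∃ j, x ∈ H j) ∧
      ∀ j x, ∃ U ∈ 𝓝 x, ∀ y ∈ U, y ∈ H j → {C ∈ c | y ∈ C} = {C ∈ c | x ∈ C} := by
  choose f f1 f2 using fun m => isGδ_iff_eq_iInter_nat.1 (hG {x | {C ∈ c | x ∈ C}.ncard = m}ᶜ)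
  have hm : ∀ m l, ∀ x ∉ f m l, {C ∈ c | x ∈ C}.ncard = m := fun m l x hx =>
    not_not.1 fun e => hx (mem_iInter.1 ((f2 m).le e) l)
  refine ⟨fun j => (f j.1 j.2)ᶜ, fun x => not_not.1 fun e => (f2 _).ge (mem_iInter.2 fun l =>
    not_not.1 fun a => e ⟨(_, l), a⟩) rfl, fun j x => ?_⟩
  by_cases e : x ∈ f j.1 j.2
  · exact ⟨_, (f1 _ _).mem_nhds e, fun y a b => absurd a b⟩
  · refine ⟨_, (sInter_mem (hf x)).2 fun C a => (ho C a.1).mem_nhds a.2, fun y a b => ?_⟩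
    refine (eq_of_subset_of_ncard_le (fun C d => ?_) ((hm _ _ y b).trans (hm _ _ x e).symm).le
      (hf y)).symm
    exact ⟨d.1, a C d⟩

theorem step (hG : ∀ A : Set X, IsGδ A) (hM : ∀ P : Set X → Prop, (∀ x, ∃ V ∈ 𝓝 x, P V) →
    ∃ c : Set (Set X), (∀ C ∈ c, IsOpen C ∧ ∃ V, P V ∧ C ⊆ V) ∧ (∀ x, ∃ C ∈ c, x ∈ C) ∧
      ∀ x, {C ∈ c | x ∈ C}.Finite) {S : Type} {b : List S → Set X} (hb : TB b)
    {I : Set (Set X × List S)} (hI : LC I Prod.fst) :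
    ∃ J : (ℕ × ℕ) × ℕ → Set (Set X × List S), (∀ j, LC (J j) Prod.fst) ∧
      ∀ p ∈ I, ∀ x ∈ p.1, ∀ a, x ∈ b (a :: p.2) → ∃ j A, (A, a :: p.2) ∈ J j ∧ x ∈ A := by
  obtain ⟨c, c1, c2, c3⟩ := hM _ hI
  obtain ⟨H, h1, h2⟩ := disc hG (fun C a => (c1 C a).1) c3
  have en : ∀ t : Set (Set X), ∃ e : ℕ → List S, {p ∈ I | (p.1 ∩ ⋂₀ t).Nonempty}.Countable →
      ∀ p ∈ I, (p.1 ∩ ⋂₀ t).Nonempty → ∃ k, e k = p.2 := fun t => by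
    by_cases a : {p ∈ I | (p.1 ∩ ⋂₀ t).Nonempty}.Countable
    · obtain ⟨e, he⟩ := ((a.image Prod.snd).insert []).exists_eq_range (insert_nonempty _ _)
      exact ⟨e, fun _ p b1 b2 => he.le (Or.inr ⟨p, ⟨b1, b2⟩, rfl⟩)⟩
    · exact ⟨fun _ => [], fun d => absurd d a⟩
  choose e he using en
  let φ : (ℕ × ℕ) × ℕ → Set (Set X) → S → Set X × List S := fun j t a =>
    ({y ∈ H j.1 | {C ∈ c | y ∈ C} = t} ∩ b (a :: e t j.2), a :: e t j.2)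
  refine ⟨fun j => ⋃ t, range (φ j t), fun j x => ?_, fun p hp x hx a ha => ?_⟩
  · obtain ⟨U, u1, u2⟩ := h2 j.1 x
    obtain ⟨V, v1, v2⟩ := hb.lc (e {C ∈ c | x ∈ C} j.2) x
    refine ⟨_, inter_mem u1 v1, (v2.image (φ j {C ∈ c | x ∈ C})).mono fun p ⟨p1, y, y1, y2⟩ => ?_⟩
    obtain ⟨t, a, rfl⟩ := mem_iUnion.1 p1
    obtain rfl : t = {C ∈ c | x ∈ C} := y1.1.2.symm.trans (u2 y y2.1 y1.1.1)
    exact ⟨a, ⟨y, y1.2, y2.2⟩, rfl⟩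
  · obtain ⟨j, hj⟩ := h1 x
    obtain ⟨C, d1, d2⟩ := c2 x
    obtain ⟨V, v1, v2⟩ := (c1 C d1).2
    obtain ⟨k, hk⟩ := he {C ∈ c | x ∈ C} (v1.mono fun q d => And.intro d.1 (d.2.mono
      (inter_subset_inter_right _ ((sInter_subset_of_mem (by exact ⟨d1, d2⟩)).trans v2)))) p hp
      ⟨x, hx, fun D d => d.2⟩
    rw [← hk] at ha ⊢
    exact ⟨(j, k), _, mem_iUnion.2 ⟨{C ∈ c | x ∈ C}, a, rfl⟩, ⟨hj, rfl⟩, ha⟩

theorem main (h : PL X) (hG : ∀ A : Set X, IsGδ A) (hM : ∀ P : Set X → Prop,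
    (∀ x, ∃ V ∈ 𝓝 x, P V) → ∃ c : Set (Set X), (∀ C ∈ c, IsOpen C ∧ ∃ V, P V ∧ C ⊆ V) ∧
      (∀ x, ∃ C ∈ c, x ∈ C) ∧ ∀ x, {C ∈ c | x ∈ C}.Finite) {S : Type} {b : List S → Set X}
    (hb : TB b) : ∃ 𝓑 : Set (Set X), IsTopologicalBasis 𝓑 ∧ ∃ f : ℕ → Set (Set X), 𝓑 = ⋃ n, f n ∧
      ∀ (n : ℕ) (x : X), ∃ u ∈ 𝓝 x, {v ∈ f n | (v ∩ u).Nonempty}.Countable := by
  choose J j1 j2 using fun I : {I : Set (Set X × List S) // LC I Prod.fst} => step hG hM hb I.2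
  let A : List ((ℕ × ℕ) × ℕ) → {I : Set (Set X × List S) // LC I Prod.fst} := fun w =>
    List.rec ⟨{(Set.univ, [])}, fun x => ⟨_, univ_mem, (countable_singleton _).mono
      (sep_subset _ _)⟩⟩ (fun j _ I => ⟨J I j, j1 I j⟩) w
  have k : ∀ l, ∀ x ∈ b l, ∃ w B, (B, l) ∈ (A w).1 ∧ x ∈ B := fun l => by
    induction l with
    | nil => exact fun x _ => ⟨[], _, rfl, mem_univ x⟩
    | cons a l ih =>
      intro x hx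
      obtain ⟨w, B, b1, b2⟩ := ih x (hb.mono _ _ hx)
      obtain ⟨j, r⟩ := j2 (A w) _ b1 x b2 a hx
      exact ⟨j :: w, r⟩
  choose E e1 e2 using fun w => h.expand (A w).2
  obtain ⟨s, hs⟩ := exists_surjective_nat (List ((ℕ × ℕ) × ℕ))
  refine ⟨_, isTopologicalBasis_of_isOpen_of_nhds (fun v hv => ?_) fun x u a c => ?_,
    fun n => (fun p => E (s n) p ∩ b p.2) '' (A (s n)).1, rfl, fun n x => ?_⟩
  · obtain ⟨n, p, -, rfl⟩ := mem_iUnion.1 hv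
    exact (e1 _ p).1.inter (hb.op _)
  · obtain ⟨l, l1, l2⟩ := hb.base x u (c.mem_nhds a)
    obtain ⟨w, B, b1, b2⟩ := k l x l1
    obtain ⟨n, rfl⟩ := hs w
    exact ⟨_, mem_iUnion.2 ⟨n, _, b1, rfl⟩, ⟨(e1 _ _).2 b2, l1⟩, inter_subset_right.trans l2⟩
  · obtain ⟨V, v1, v2⟩ := e2 (s n) x
    refine ⟨V, v1, (v2.image fun p => E (s n) p ∩ b p.2).mono ?_⟩
    rintro _ ⟨⟨p, p1, rfl⟩, p2⟩
    exact ⟨p, ⟨p1, p2.mono (inter_subset_inter_left _ inter_subset_left)⟩, rfl⟩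

end Pool.Agent.H33.TLC4
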