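import Pool.Agent.H33.WF1
import Pool.Agent.H33.HG2
import Pool.Agent.H33.DT1
import Pool.Agent.H33.DiaDefs

/-! A thin-tall scattered space whose levels are retracts: the recursion. -/

open Set Filter Pool.Agent.H33.DiaDefs

namespace Pool.Agent.H33.TX1

/-- the underlying set -/
abbrev L : Type := W × ℕ

/-- colours -/
def κ (n : ℕ) : ℕ := if n % 2 = 0 then (n / 2).unpair.1.unpair.1 else (n / 2).unpair.1.unpair.2

theorem κ0 (i j k : ℕ) : κ (2 * Nat.pair (Nat.pair i j) k) = i := by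
  simp [κ]

theorem κ1 (i j k : ℕ) : κ (2 * Nat.pair (Nat.pair i j) k + 1) = j := by
  rw [κ, if_neg (by omega), show ∀ a, (2 * a + 1) / 2 = a by omega]; simp

/-- basic neighbourhoods -/
def V (f : W → L → ℕ) (x : L) (m : ℕ) : Set L :=
  {y | y = x ∨ y.1 < x.1 ∧ κ (f x.1 y) = x.2 ∧ m ≤ f x.1 y}

/-- the guess is large -/
def Large (A : Set (L × L)) (β : W) : Prop :=
  ∀ γ < β, ∃ p ∈ A, γ < p.1.1 ∧ γ < p.2.1 ∧ p.1.1 < β ∧ p.2.1 < β ∧ p.1 ≠ p.2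

/-- the conditions at level `β` -/
structure G (A : W → Set (L × L)) (β : W) (f : W → L → ℕ) (g : L → ℕ) : Prop where
  lc : ∀ x : L, x.1 < β → ∀ᶠ m in atTop, ∀ y ∈ V f x m, g y = g x
  cf : ∀ n, ∃ s : Set L, s.Finite ∧ (∀ y ∈ s, y.1 < β) ∧
    ∀ x : L, x.1 < β → g x = n → ∃ y ∈ s, x ∈ V f y 0
  sat : ∀ γ < β, ∀ᶠ N in atTop, ∀ x : L, x.1 < γ →
    g x = g (γ, κ (f γ x)) ∨ (g x < N ∧ g (γ, κ (f γ x)) < N)
  ne : ∀ γ < β, ∀ n, ∃ x : L, x.1 < β ∧ g x = 2 * n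
  gs : Large (A β) β → ∀ γ < β, ∀ n, ∃ p ∈ A β, p.1.1 < β ∧ p.2.1 < β ∧
    g p.1 = 2 * n ∧ g p.2 = 2 * n + 1

variable {A : W → Set (L × L)} {β : W} {f : W → L → ℕ}

theorem Van (x : L) : Antitone (V f x) := fun _ _ h _ hy =>
  hy.imp_right fun ⟨a, b, c⟩ => ⟨a, b, h.trans c⟩

theorem Vle {x y : L} {m : ℕ} (h : y ∈ V f x m) : y.1 ≤ x.1 :=
  h.elim (fun h => h ▸ le_rfl) fun h => h.1.le

theorem bd (H : ∀ γ < β, G A γ f (f γ)) (φ : L → ℕ)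
    (hφ : ∀ x : L, x.1 < β → ∀ᶠ m in atTop, ∀ y ∈ V f x m, φ y = φ x) (a : W) :
    ∀ i, a < β → BddAbove (φ '' V f (a, i) 0) := by
  induction a using WellFoundedLT.induction with
  | _ a ih =>
  intro i ha
  obtain ⟨m, hm⟩ := (hφ (a, i) ha).exists
  choose s s1 s2 s3 using (H a ha).cf
  refine BddAbove.mono (t := {φ (a, i)} ∪ ⋃ n ∈ Iio m, ⋃ y ∈ s n, φ '' V f y 0) ?_
    (bddAbove_singleton.union ((finite_Iio m).bddAbove_biUnion.2 fun n _ =>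
      (s1 n).bddAbove_biUnion.2 fun y hy => ih y.1 (s2 n y hy) y.2 ((s2 n y hy).trans ha)))
  rintro _ ⟨z, hz, rfl⟩
  by_cases h : z ∈ V f (a, i) m
  · exact Or.inl (hm z h)
  · obtain ⟨h1, h2, -⟩ := hz.resolve_left fun e => h (Or.inl e)
    obtain ⟨y, hy, hz⟩ := s3 _ z h1 rfl
    exact Or.inr (mem_iUnion₂.2 ⟨f a z, mem_Iio.2 (not_le.1 fun e => h (Or.inr ⟨h1, h2, e⟩)),
      mem_iUnion₂.2 ⟨y, hy, z, hz, rfl⟩⟩)

/-- clopen below `β` -/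
def Cl (f : W → L → ℕ) (β : W) (K : Set L) : Prop :=
  ∀ z : L, z.1 < β → ∀ᶠ j in atTop, ∀ y ∈ V f z j, (y ∈ K ↔ z ∈ K)

/-- finitely covered -/
def Cov (f : W → L → ℕ) (β : W) (K : Set L) : Prop :=
  ∃ s : Set L, s.Finite ∧ (∀ y ∈ s, y.1 < β) ∧ ∀ x ∈ K, ∃ y ∈ s, x ∈ V f y 0

/-- saturated -/
def Sat (f : W → L → ℕ) (γ : W) (K : Set L) : Prop :=
  ∀ x : L, x.1 < γ → (x ∈ K ↔ (γ, κ (f γ x)) ∈ K)

theorem Cov.union {K K' : Set L} (h : Cov f β K) (h' : Cov f β K') : Cov f β (K ∪ K') := by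
  obtain ⟨s, a, b, c⟩ := h
  obtain ⟨t, a', b', c'⟩ := h'
  exact ⟨s ∪ t, a.union a', fun y hy => hy.elim (b y) (b' y), fun x hx => hx.elim
    (fun h => (c x h).imp fun y hy => ⟨Or.inl hy.1, hy.2⟩)
    fun h => (c' x h).imp fun y hy => ⟨Or.inr hy.1, hy.2⟩⟩

theorem covV {x : L} (hx : x.1 < β) {K : Set L} (h : K ⊆ V f x 0) : Cov f β K :=
  ⟨{x}, finite_singleton x, fun _ h => h ▸ hx, fun _ hy => ⟨x, rfl, h hy⟩⟩

theorem cov1 {x : L} (hx : x.1 < β) : Cov f β {x} := covV hx (singleton_subset_iff.2 (Or.inl rfl))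

theorem clV (H : ∀ γ < β, G A γ f (f γ)) (x : L) (hx : x.1 < β) (m : ℕ) : Cl f β (V f x m) := by
  intro z hz
  rcases lt_trichotomy z.1 x.1 with h | h | h
  · filter_upwards [(H _ hx).lc z h] with j hj y hy
    have h1 : y.1 < x.1 := (Vle hy).trans_lt h
    have h2 : y ≠ x := fun e => h1.ne (e ▸ rfl)
    have h3 : z ≠ x := fun e => h.ne (e ▸ rfl)
    simp only [V, mem_ofPred_eq, h1, h, h2, h3, hj y hy]
  · by_cases e : z = x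
    · subst e
      filter_upwards [eventually_ge_atTop m] with j hj y hy
      exact iff_of_true (Van _ hj hy) (Or.inl rfl)
    · refine Eventually.of_forall fun j y hy => ?_
      rcases hy with rfl | ⟨a, b, -⟩
      · rfl
      · refine iff_of_false ?_ ?_
        · rintro (rfl | ⟨-, c, -⟩)
          · exact a.ne' h
          · exact e (Prod.ext h (b.symm.trans (h ▸ c)))
        · rintro (c | ⟨c, -⟩)
          · exact e c
          · exact c.ne h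
  · obtain ⟨M, hM⟩ := bd (fun γ hγ => H γ (hγ.trans hz)) (f z.1) (H _ hz).lc x.1 x.2 h
    filter_upwards [eventually_gt_atTop M] with j hj y hy
    rcases hy with rfl | ⟨-, -, c⟩
    · rfl
    · exact iff_of_false (fun e => not_le.2 hj (c.trans (hM ⟨y, Van _ (Nat.zero_le m) e, rfl⟩)))
        fun e => not_le.2 h (Vle e)

theorem satV {x : L} (H : G A x.1 f (f x.1)) {γ : W} (h : γ < x.1) :
    ∀ᶠ m in atTop, Sat f γ (V f x m) := by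
  filter_upwards [H.sat γ h] with m hm y hy
  have h1 : y ≠ x := fun e => (hy.trans h).ne (e ▸ rfl)
  have h2 : (γ, κ (f γ y)) ≠ x := fun e => h.ne (e ▸ rfl)
  simp only [V, mem_ofPred_eq, h1, h2, hy.trans h, h]
  rcases hm y hy with e | ⟨a, b⟩
  · rw [e]
  · simp [not_le.2 a, not_le.2 b]

theorem lev {K : Set L} (hK : Cov f β K) {Γ : Set W} (hΓ : Γ.Finite) (hβ : ∀ γ ∈ Γ, γ < β) {γ₀ : W}
    (h0 : γ₀ < β) : ∃ δ < β, (∀ γ ∈ Γ, γ ≤ δ) ∧ ∃ s : Set L, s.Finite ∧ (∀ y ∈ s, y.1 ≤ δ) ∧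
      ∀ x ∈ K, ∃ y ∈ s, x ∈ V f y 0 := by
  obtain ⟨s, a, b, c⟩ := hK
  obtain ⟨δ, h1, h2⟩ := exists_max_image (insert γ₀ (Γ ∪ Prod.fst '' s)) id
    ((hΓ.union (a.image _)).insert _) (insert_nonempty _ _)
  refine ⟨δ, ?_, fun γ h => h2 γ (Or.inr (Or.inl h)), s, a,
    fun y h => h2 _ (Or.inr (Or.inr ⟨y, h, rfl⟩)), c⟩
  rcases h1 with rfl | h | ⟨y, h, rfl⟩
  exacts [h0, hβ _ h, b y h]

theorem s1 (H : ∀ γ < β, G A γ f (f γ)) {K : Set L} (hK : Cov f β K) {Γ : Set W} (hΓ : Γ.Finite)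
    (hβ : ∀ γ ∈ Γ, γ < β) {γ₀ : W} (h0 : γ₀ < β) : ∃ K', K ⊆ K' ∧ Cl f β K' ∧ Cov f β K' ∧
      (∀ γ ∈ Γ, Sat f γ K') ∧ ∃ x : L, x.1 < β ∧ x ∉ K' := by
  obtain ⟨δ, hδ, h1, s, a, b, c⟩ := lev hK hΓ hβ h0
  obtain ⟨M, hM⟩ : BddAbove (⋃ y ∈ {y ∈ s | y.1 < δ}, f δ '' V f y 0) :=
    (a.subset (sep_subset _ _)).bddAbove_biUnion.2 fun y hy =>
      bd (fun γ hγ => H γ (hγ.trans hδ)) (f δ) (H _ hδ).lc y.1 y.2 hy.2
  obtain ⟨N, hN, hMN⟩ := (((eventually_all_finite (hΓ.subset (sep_subset _ (· < δ)))).2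
    fun γ hγ => (H δ hδ).sat γ hγ.2).and (eventually_gt_atTop M)).exists
  have hI : (κ '' Iio N ∪ Prod.snd '' s).Finite := ((finite_Iio N).image _).union (a.image _)
  have mem : ∀ x : L, x.1 < δ → ((∃ i ∈ κ '' Iio N ∪ Prod.snd '' s, x ∈ V f (δ, i) 0) ↔
      κ (f δ x) ∈ κ '' Iio N ∪ Prod.snd '' s) := fun x hx =>
    ⟨fun ⟨i, h, e⟩ => (e.resolve_left fun e => hx.ne (e ▸ rfl)).2.1 ▸ h,
      fun h => ⟨_, h, Or.inr ⟨hx, rfl, Nat.zero_le _⟩⟩⟩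
  have mem' : ∀ j, (∃ i ∈ κ '' Iio N ∪ Prod.snd '' s, (δ, j) ∈ V f (δ, i) 0) ↔
      j ∈ κ '' Iio N ∪ Prod.snd '' s := fun j =>
    ⟨fun ⟨i, h, e⟩ => (show j = i from (Prod.ext_iff.1 (e.resolve_right fun e => lt_irrefl _ e.1)).2) ▸ h,
      fun h => ⟨j, h, Or.inl rfl⟩⟩
  refine ⟨{x | ∃ i ∈ κ '' Iio N ∪ Prod.snd '' s, x ∈ V f (δ, i) 0}, fun x hx => ?_, fun z hz => ?_,
    ⟨_, hI.image fun i => (δ, i), by rintro _ ⟨i, -, rfl⟩; exact hδ,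
      fun x ⟨i, h, e⟩ => ⟨_, ⟨i, h, rfl⟩, e⟩⟩, fun γ hγ x hx => ?_, ?_⟩
  · obtain ⟨y, hy, e⟩ := c x hx
    rcases (b y hy).lt_or_eq with h | h
    · exact (mem x ((Vle e).trans_lt h)).2 (Or.inl ⟨_, mem_Iio.2
        ((hM (mem_biUnion ⟨hy, h⟩ ⟨x, e, rfl⟩)).trans_lt hMN), rfl⟩)
    · exact ⟨y.2, Or.inr ⟨y, hy, rfl⟩, h ▸ e⟩
  · filter_upwards [(eventually_all_finite hI).2 fun i _ => clV H (δ, i) hδ 0 z hz] with j hj y hy
    exact exists_congr fun i => and_congr_right fun hi => hj i hi y hy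
  · rcases (h1 γ hγ).lt_or_eq with h | rfl
    · refine (mem x (hx.trans h)).trans (Iff.trans ?_ (mem _ h).symm)
      rcases hN γ ⟨hγ, h⟩ x hx with e | ⟨e, e'⟩
      · rw [e]
      · exact iff_of_true (Or.inl ⟨_, e, rfl⟩) (Or.inl ⟨_, e', rfl⟩)
    · exact (mem x hx).trans (mem' _).symm
  · obtain ⟨j, hj⟩ := hI.infinite_compl.nonempty
    exact ⟨(δ, j), hδ, fun h => hj ((mem' j).1 h)⟩

theorem one (H : ∀ γ < β, G A γ f (f γ)) {K : Set L} (k1 : Cl f β K) (k2 : Cov f β K)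
    {Γ Γ' : Set W} (hΓ : Γ.Finite) (hβ : ∀ γ ∈ Γ, γ < β) (hΓ' : Γ'.Finite) (hβ' : ∀ γ ∈ Γ', γ < β)
    {z : L} (hz : z.1 < β) : ∃ K' O : Set L, K ⊆ K' ∧ O ⊆ K' ∧ z ∈ K' ∧ Disjoint O K ∧
      Cl f β O ∧ (∀ γ ∈ Γ, Sat f γ O) ∧ Cl f β K' ∧ Cov f β K' ∧ (∀ γ ∈ Γ', Sat f γ K') ∧
      (∃ x : L, x.1 < β ∧ x ∈ K' ∧ x ∉ K ∧ x ∉ O) ∧ (Large (A β) β → ∃ p ∈ A β, p.1.1 < β ∧
        p.2.1 < β ∧ p.1 ∈ K' ∧ p.1 ∉ K ∧ p.1 ∉ O ∧ p.2 ∈ O) := by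
  by_cases h : Large (A β) β
  · obtain ⟨δ, hδ, h1, s, -, b, c⟩ := lev k2 hΓ hβ hz
    obtain ⟨p, hp, p1, p2, p3, p4, p5⟩ := h δ hδ
    have nk : ∀ x : L, δ < x.1 → x ∉ K := fun x hx e => by
      obtain ⟨y, hy, e⟩ := c x e
      exact not_le.2 hx ((Vle e).trans (b y hy))
    obtain ⟨m, m1, m2, m3⟩ := ((k1 p.2 p4).and (((eventually_all_finite hΓ).2 fun γ hγ =>
      satV (H _ p4) ((h1 γ hγ).trans_lt p2)).and (eventually_gt_atTop (f p.2.1 p.1)))).exists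
    have m4 : p.1 ∉ V f p.2 m := fun e => e.elim p5 fun e => not_le.2 m3 e.2.2
    obtain ⟨K', a1, a2, a3, a4, -⟩ := s1 H (((k2.union (covV p4 (Van p.2 (Nat.zero_le m)))).union
      (cov1 hz)).union (cov1 p3)) hΓ' hβ' hz
    exact ⟨K', V f p.2 m, fun x hx => a1 (Or.inl (Or.inl (Or.inl hx))),
      fun x hx => a1 (Or.inl (Or.inl (Or.inr hx))), a1 (Or.inl (Or.inr rfl)),
      disjoint_left.2 fun y hy e => nk _ p2 ((m1 y hy).1 e), clV H _ p4 m, m2, a2, a3, a4,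
      ⟨p.1, p3, a1 (Or.inr rfl), nk _ p1, m4⟩,
      fun _ => ⟨p, hp, p3, p4, a1 (Or.inr rfl), nk _ p1, m4, Or.inl rfl⟩⟩
  · obtain ⟨K₀, b1, -, -, -, x, hx, hx'⟩ := s1 H k2 hΓ hβ hz
    obtain ⟨K', a1, a2, a3, a4, -⟩ := s1 H ((k2.union (cov1 hz)).union (cov1 hx)) hΓ' hβ' hz
    exact ⟨K', ∅, fun x hx => a1 (Or.inl (Or.inl hx)), empty_subset _, a1 (Or.inl (Or.inr rfl)),
      empty_disjoint _, fun _ _ => Eventually.of_forall fun _ _ _ => Iff.rfl,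
      fun _ _ _ _ => Iff.rfl, a2, a3, a4, ⟨x, hx, a1 (Or.inr rfl), fun e => hx' (b1 e), id⟩,
      fun e => absurd e h⟩

theorem step (H : ∀ γ < β, G A γ f (f γ)) : ∃ g, G A β f g := by
  classical
  by_cases h0 : ∃ γ, γ < β
  swap
  · have e : ∀ {p : Prop} γ, γ < β → p := fun γ h => absurd ⟨γ, h⟩ h0
    exact ⟨fun _ => 0, fun x => e _, fun _ => ⟨∅, finite_empty, fun _ h => h.elim, fun x => e _⟩,
      fun γ => e γ, fun γ => e γ, fun _ γ => e γ⟩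
  obtain ⟨γ₀, h0⟩ := h0
  obtain ⟨z, hz⟩ := ((cnt β).prod (countable_univ (α := ℕ))).exists_eq_range
    ⟨(γ₀, 0), h0, trivial⟩
  have z1 : ∀ n, (z n).1 < β := fun n => (hz.ge ⟨n, rfl⟩).1
  have z2 : ∀ x : L, x.1 < β → ∃ n, z n = x := fun x hx => hz.le ⟨hx, trivial⟩
  let Γ : ℕ → Set W := fun n => (fun i => (z i).1) '' Iio n
  have g1 : ∀ n, (Γ n).Finite := fun n => (finite_Iio n).image _
  have g2 : ∀ n, ∀ γ ∈ Γ n, γ < β := by rintro n _ ⟨i, -, rfl⟩; exact z1 i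
  choose F O c1 c2 c3 c4 c5 c6 c7 c8 c9 c10 c11 using fun n (K : {K // Cl f β K ∧ Cov f β K}) =>
    one H K.2.1 K.2.2 (g1 n) (g2 n) (g1 (n + 1)) (g2 (n + 1)) (z1 n)
  let S : ℕ → {K // Cl f β K ∧ Cov f β K} := fun n => Nat.rec ⟨∅,
    fun _ _ => Eventually.of_forall fun _ _ _ => Iff.rfl, ∅, finite_empty, fun _ h => h.elim,
      fun _ h => h.elim⟩ (fun n K => ⟨F n K, c7 n K, c8 n K⟩) n
  have hS : ∀ n, (S (n + 1)).1 = F n (S n) := fun _ => rfl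
  have mo : Monotone fun n => (S n).1 := monotone_nat_of_le_succ fun n => c1 n _
  have sa : ∀ n, ∀ γ ∈ Γ n, Sat f γ (S n).1 := fun n => by
    cases n with
    | zero => exact fun _ _ _ _ => Iff.rfl
    | succ n => exact c9 n _
  let g : L → ℕ := fun x => if h : ∃ n, x ∈ (S (n + 1)).1 then
    2 * Nat.find h + if x ∈ O (Nat.find h) (S (Nat.find h)) then 1 else 0 else 0
  have hg : ∀ n x, x ∈ (S (n + 1)).1 → x ∉ (S n).1 →
      g x = 2 * n + if x ∈ O n (S n) then 1 else 0 := fun n x a b => by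
    have h : ∃ n, x ∈ (S (n + 1)).1 := ⟨n, a⟩
    have : Nat.find h = n := (Nat.find_eq_iff h).2 ⟨a, fun k hk e => b (mo hk e)⟩
    simp only [g, dif_pos h, this]
  have ex : ∀ x : L, x.1 < β → ∃ n, x ∈ (S (n + 1)).1 ∧ x ∉ (S n).1 := fun x hx => by
    obtain ⟨n, rfl⟩ := z2 x hx
    have h : ∃ k, z n ∈ (S (k + 1)).1 := ⟨n, c3 n _⟩
    refine ⟨Nat.find h, Nat.find_spec h, ?_⟩
    rcases e : Nat.find h with _ | k
    · exact id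
    · exact Nat.find_min h (by omega)
  refine ⟨g, fun x hx => ?_, fun j => ?_, fun γ hγ => ?_, fun _ _ n => ?_, fun h _ _ n => ?_⟩
  · obtain ⟨n, a, b⟩ := ex x hx
    filter_upwards [(S (n + 1)).2.1 x hx, (S n).2.1 x hx, c5 n (S n) x hx] with j h1 h2 h3 y hy
    rw [hg n x a b, hg n y ((h1 y hy).2 a) fun e => b ((h2 y hy).1 e)]
    simp only [h3 y hy]
  · obtain ⟨s, a, b, c⟩ := (S (j + 1)).2.2
    refine ⟨s, a, b, fun x hx e => c x ?_⟩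
    obtain ⟨n, a, b⟩ := ex x hx
    rw [hg n x a b] at e
    exact mo (show n + 1 ≤ j + 1 by omega) a
  · obtain ⟨i, hi⟩ := z2 (γ, 0) hγ
    have hΓ : ∀ n, i < n → γ ∈ Γ n := fun n hn => ⟨i, hn, by simp only [hi]⟩
    filter_upwards [eventually_ge_atTop (2 * i + 2)] with N hN x hx
    obtain ⟨n, a, b⟩ := ex x (hx.trans hγ)
    obtain ⟨n', a', b'⟩ := ex (γ, κ (f γ x)) hγ
    by_cases h : i < n
    · left
      rw [hg n x a b, hg n _ ((sa (n + 1) γ (hΓ _ (by omega)) x hx).1 a)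
        fun e => b ((sa _ γ (hΓ _ h) x hx).2 e)]
      simp only [c6 n (S n) γ (hΓ _ h) x hx]
    by_cases h' : i < n'
    · left
      rw [hg n' _ a' b', hg n' x ((sa (n' + 1) γ (hΓ _ (by omega)) x hx).2 a')
        fun e => b' ((sa _ γ (hΓ _ h') x hx).1 e)]
      simp only [c6 n' (S n') γ (hΓ _ h') x hx]
    right
    rw [hg n x a b, hg n' _ a' b']
    constructor <;> split_ifs <;> omega
  · obtain ⟨x, a, b, c, d⟩ := c10 n (S n)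
    exact ⟨x, a, by rw [hg n x b c, if_neg d]; rfl⟩
  · obtain ⟨p, a, b, c, d, e, e', e''⟩ := c11 n (S n) h
    exact ⟨p, a, b, c, by rw [hg n _ d e, if_neg e']; rfl,
      by rw [hg n _ (c2 n _ e'') (disjoint_left.1 (c4 n _) e''), if_pos e'']⟩

theorem build (A : W → Set (L × L)) : ∃ f : W → L → ℕ, ∀ β, G A β f (f β) :=
  HG2.rec_e id (G A) (fun t f g x h hx => by
    have e : ∀ y : L, y.1 < t → V g y = V f y := fun y hy => by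
      funext m; simp only [V, h y.1 hy]
    refine ⟨fun y hy => e y hy ▸ hx.lc y hy, fun n => ?_, fun γ hγ => h γ hγ ▸ hx.sat γ hγ,
      hx.ne, hx.gs⟩
    obtain ⟨s, a, b, c⟩ := hx.cf n
    refine ⟨s, a, b, fun y hy hn => ?_⟩
    obtain ⟨w, h1, h2⟩ := c y hy hn
    exact ⟨w, h1, e w (b w h1) ▸ h2⟩)
    fun _ _ H => step H

end Pool.Agent.H33.TX1
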