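import Mathlib

/-! Continuous extenders for the topology of pointwise convergence. -/

open Set Filter Topology

namespace Pool.Agent.H33.TX2

variable {Z : Type} [TopologicalSpace Z]

/-- relative extender -/
def Rel (Y Y₁ : Set Z) : Prop :=
  ∃ Φ : (Z → ℝ) → Z → ℝ, Continuous Φ ∧ ∀ f, ContinuousOn f Y → (∀ y ∈ Y₁, f y = 0) →
    Continuous (Φ f) ∧ EqOn (Φ f) f Y

theorem Rel.trans {Y Y₁ Y₀ : Set Z} (h : Rel Y₁ Y₀) (h' : Rel Y Y₁) (hs : Y₁ ⊆ Y) : Rel Y Y₀ := by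
  obtain ⟨Φ, a, b⟩ := h
  obtain ⟨Ψ, c, d⟩ := h'
  refine ⟨fun f => Φ f + Ψ (f - Φ f), a.add (c.comp (continuous_id.sub a)), fun f hf h0 => ?_⟩
  obtain ⟨b1, b2⟩ := b f (hf.mono hs) h0
  obtain ⟨d1, d2⟩ := d (f - Φ f) (hf.sub b1.continuousOn) fun y hy => sub_eq_zero.2 (b2 hy).symm
  exact ⟨b1.add d1, fun y hy => by simp [d2 hy]⟩

theorem Rel.swap {X : Type} [TopologicalSpace X] {Y Y₁ : Set (X × X)}
    (h : Rel (Prod.swap ⁻¹' Y) (Prod.swap ⁻¹' Y₁)) : Rel Y Y₁ := by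
  obtain ⟨Φ, a, b⟩ := h
  refine ⟨fun f => Φ (f ∘ Prod.swap) ∘ Prod.swap, continuous_pi fun z => (continuous_apply _).comp
    (a.comp (continuous_pi fun z => continuous_apply _)), fun f hf h0 => ?_⟩
  obtain ⟨b1, b2⟩ := b (f ∘ Prod.swap) (hf.comp continuous_swap.continuousOn fun _ h => h)
    fun y hy => h0 _ hy
  exact ⟨b1.comp continuous_swap, fun y hy => b2 (x := y.swap) hy⟩

theorem quo [CompactSpace Z] {S : Type} [TopologicalSpace S] [T2Space S] {Y Y₁ : Set Z}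
    (hY : IsClosed Y) {q ρ : Z → S} (hq : Continuous q) (hρ : Continuous ρ) {N : Set S}
    (hN : IsClosed N) (h1 : ∀ z, ρ z ∈ q '' Y ∪ N) (h2 : ∀ y ∈ Y, q y ∈ N ↔ y ∈ Y₁)
    (h3 : ∀ y ∈ Y, y ∈ Y₁ → ρ y ∈ N) (h4 : ∀ y ∈ Y, y ∉ Y₁ → ρ y = q y)
    (h5 : InjOn q (Y \ Y₁)) : Rel Y Y₁ := by
  classical
  let F : (Z → ℝ) → S → ℝ := fun f s => if h : ∃ y ∈ Y \ Y₁, q y = s then f h.choose else 0
  have f0 : ∀ f, ∀ s ∈ N, F f s = 0 := fun f s hs =>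
    dif_neg fun ⟨y, a, b⟩ => a.2 ((h2 y a.1).1 (b ▸ hs))
  have f1 : ∀ f, ∀ y ∈ Y, y ∉ Y₁ → F f (q y) = f y := fun f y a b => by
    have h : ∃ y' ∈ Y \ Y₁, q y' = q y := ⟨y, ⟨a, b⟩, rfl⟩
    simp only [F, dif_pos h, h5 h.choose_spec.1 ⟨a, b⟩ h.choose_spec.2]
  refine ⟨fun f z => F f (ρ z), continuous_pi fun z => ?_, fun f hf h0 => ⟨?_, fun y hy => ?_⟩⟩
  · simp only [F]
    split_ifs
    · exact continuous_apply _
    · exact continuous_const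
  · have f2 : ∀ y ∈ Y, F f (q y) = f y := fun y hy => by
      by_cases h : y ∈ Y₁
      · rw [f0 f _ ((h2 y hy).2 h), h0 y h]
      · exact f1 f y hy h
    refine (ContinuousOn.union_of_isClosed (continuousOn_iff_isClosed.2 fun t ht => ⟨q '' (Y ∩ f ⁻¹' t),
      ((hf.preimage_isClosed_of_isClosed hY ht).isCompact.image hq).isClosed, ?_⟩)
      (continuousOn_const.congr (f0 f)) (hY.isCompact.image hq).isClosed hN).comp_continuous hρ h1
    ext s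
    constructor
    · rintro ⟨a, y, hy, rfl⟩
      exact ⟨⟨y, ⟨hy, by rwa [mem_preimage, ← f2 y hy]⟩, rfl⟩, y, hy, rfl⟩
    · rintro ⟨⟨y, ⟨hy, a⟩, rfl⟩, b⟩
      exact ⟨by rwa [mem_preimage, f2 y hy], b⟩
  · by_cases h : y ∈ Y₁
    · simp only [f0 f _ (h3 y hy h), h0 y h]
    · simp only [h4 y hy h, f1 f y hy h]

theorem exj [CompactSpace Z] [T2Space Z] [TotallyDisconnectedSpace Z] {O : Set Z} (hO : IsOpen O)
    (hc : O.Countable) : ∃ j : Z → ℕ → Bool, Continuous j ∧ InjOn j O ∧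
      (∀ z, j z = (fun _ => false) ↔ z ∉ O) ∧ ∀ P : Set Z, IsClosed P →
      ∃ r : (ℕ → Bool) → ℕ → Bool, Continuous r ∧ (∀ s, r s ∈ j '' P ∪ {fun _ => false}) ∧
        r (fun _ => false) = (fun _ => false) ∧ ∀ x ∈ P, r (j x) = j x := by
  classical
  have := hc.to_subtype
  choose C c1 c2 c3 using fun p : O × O => compact_exists_isClopen_in_isOpen
    (hO.sdiff (((finite_singleton p.2.1).subset (sdiff_subset (t := {p.1.1}))).isClosed))
    (show p.1.1 ∈ O \ ({p.2.1} \ {p.1.1}) from ⟨p.1.2, fun h => h.2 rfl⟩)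
  obtain ⟨D, hD⟩ := ((countable_range C).insert ∅).exists_eq_range (insert_nonempty _ _)
  have d : ∀ n, IsClopen (D n) ∧ D n ⊆ O := fun n => by
    rcases hD.ge ⟨n, rfl⟩ with h | ⟨p, h⟩
    · rw [h]; exact ⟨isClopen_empty, empty_subset _⟩
    · rw [← h]; exact ⟨c1 p, (c3 p).trans sdiff_subset⟩
  have hj : Continuous fun z n => decide (z ∈ D n) := continuous_pi fun n =>
    (continuous_discrete_rng.2 fun b => by
      cases b
      · simpa [preimage, compl_def] using (d n).1.compl.2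
      · simpa [preimage] using (d n).1.2)
  refine ⟨_, hj, fun x hx y hy h => ?_, fun z => ⟨fun h hz => ?_, fun h => funext fun n =>
    decide_eq_false fun e => h ((d n).2 e)⟩, fun P hP => ?_⟩
  · obtain ⟨n, hn⟩ := hD.le (Or.inr ⟨(⟨x, hx⟩, ⟨y, hy⟩), rfl⟩)
    have h1 : y ∈ D n := (decide_eq_decide.1 (congrFun h n)).1 (hn ▸ c2 _)
    by_contra e
    exact (c3 (⟨x, hx⟩, ⟨y, hy⟩) (hn ▸ h1)).2 ⟨rfl, fun e' => e (Eq.symm e')⟩
  · obtain ⟨n, hn⟩ := hD.le (Or.inr ⟨(⟨z, hz⟩, ⟨z, hz⟩), rfl⟩)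
    exact of_decide_eq_false (congrFun h n) (hn ▸ c2 _)
  · obtain ⟨r, a, b, c⟩ := PiNat.exists_retraction_of_isClosed
      ((hP.isCompact.image hj).isClosed.union (isClosed_singleton (x := fun _ => false)))
      ⟨_, Or.inr rfl⟩
    exact ⟨r, c, fun s => b.le ⟨s, rfl⟩, a _ (Or.inr rfl), fun x hx => a _ (Or.inl ⟨x, hx, rfl⟩)⟩

theorem met [CompactSpace Z] [T2Space Z] [TotallyDisconnectedSpace Z] {O Y : Set Z} (hO : IsOpen O)
    (hc : O.Countable) (hY : IsClosed Y) : Rel Y (Y \ O) := by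
  obtain ⟨j, a, b, c, d⟩ := exj hO hc
  obtain ⟨r, r1, r2, r3, r4⟩ := d Y hY
  exact quo hY a (r1.comp a) isClosed_singleton (fun z => r2 _)
    (fun y hy => (c y).trans ⟨fun h => ⟨hy, h⟩, fun h => h.2⟩)
    (fun y _ h => by simp only [Function.comp, (c y).2 h.2, r3, mem_singleton_iff])
    (fun y hy _ => r4 y hy) (b.mono fun y hy => not_not.1 fun h => hy.2 ⟨hy.1, h⟩)

variable {X : Type} [TopologicalSpace X] [CompactSpace X] [T2Space X] [TotallyDisconnectedSpace X]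
  {O : Set X} {p : X} {R : X → X}

theorem one (hO : IsOpen O) (hc : O.Countable) (hR : Continuous R) (r1 : ∀ x, R x ∉ O)
    (r2 : ∀ x ∉ O, R x = x) {Q : Set X} (hQ : IsClosed Q)
    (h : ∀ y ∈ Q, y ∉ O → y ≠ p → ∀ t ∉ O, t ∈ Q) : Rel Q ∅ := by
  refine Rel.trans ?_ (met hO hc hQ) sdiff_subset
  by_cases h' : ∀ t ∉ O, t ∈ Q
  · exact ⟨fun f x => f (R x), continuous_pi fun _ => continuous_apply _, fun f hf _ =>
      ⟨hf.comp_continuous hR fun x => ⟨h' _ (r1 x), r1 x⟩, fun y hy => congrArg f (r2 y hy.2)⟩⟩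
  · exact ⟨fun f _ => f p, continuous_pi fun _ => continuous_apply _, fun f _ _ =>
      ⟨continuous_const, fun y hy => congrArg f (not_not.1 fun e => h' (h y hy.1 hy.2 (Ne.symm e)))⟩⟩

theorem strip (hO : IsOpen O) (hc : O.Countable) (hp : p ∉ O) (hR : Continuous R)
    (r1 : ∀ x, R x ∉ O) (r2 : ∀ x ∉ O, R x = x) {Y Y₁ : Set (X × X)} (hY : IsClosed Y)
    (h : ∀ z ∈ Y, z.1 ∈ O → z.2 ≠ p → z.2 ∉ O ∧ ∀ t ∉ O, (z.1, t) ∈ Y)
    (h' : ∀ z ∈ Y, z ∈ Y₁ ↔ z.1 ∉ O ∨ z.2 = p) : Rel Y Y₁ := by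
  obtain ⟨j, a, b, c, d⟩ := exj hO hc
  obtain ⟨r, s1, s2, s3, s4⟩ := d (⋂ t ∉ O, (fun x => (x, t)) ⁻¹' Y)
    (isClosed_biInter fun t _ => hY.preimage (by fun_prop))
  refine quo (q := fun z => (j z.1, z.2)) (ρ := fun z => (r (j z.1), R z.2))
    (N := Prod.fst ⁻¹' {fun _ => false} ∪ Prod.snd ⁻¹' {p}) hY (by fun_prop) (by fun_prop)
    ((isClosed_singleton.preimage continuous_fst).union (isClosed_singleton.preimage continuous_snd))
    (fun z => ?_) (fun z hz => (or_congr_left (c z.1)).trans (h' z hz).symm) (fun z hz e => ?_)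
    (fun z hz e => ?_) fun z hz w hw e => ?_
  · rcases s2 (j z.1) with ⟨x, hx, e⟩ | e
    · exact Or.inl ⟨(x, R z.2), mem_iInter₂.1 hx _ (r1 _), Prod.ext e rfl⟩
    · exact Or.inr (Or.inl e)
  · rcases (h' z hz).1 e with e | e
    · exact Or.inl (by simp only [mem_preimage, (c _).2 e, s3, mem_singleton_iff])
    · exact Or.inr (by simp only [mem_preimage, e, r2 p hp, mem_singleton_iff])
  · rw [h' z hz, not_or, not_not] at e
    obtain ⟨u, v⟩ := h z hz e.1 e.2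
    rw [s4 _ (mem_iInter₂.2 v), r2 _ u]
  · exact Prod.ext (b (not_not.1 fun u => hz.2 ((h' z hz.1).2 (Or.inl u)))
      (not_not.1 fun u => hw.2 ((h' w hw.1).2 (Or.inl u))) (congrArg Prod.fst e))
      (Prod.ext_iff.1 e).2

theorem main (hO : IsOpen O) (hc : O.Countable) (hp : p ∉ O) (hR : Continuous R)
    (r1 : ∀ x, R x ∉ O) (r2 : ∀ x ∉ O, R x = x) {Y : Set (X × X)} (hY : IsClosed Y)
    (h0 : (p, p) ∈ Y)
    (h1 : ∀ x y, (x, y) ∈ Y → x ∈ O ∨ x = p → y ∉ O → y ≠ p → ∀ t ∉ O, (x, t) ∈ Y)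
    (h2 : ∀ x y, (y, x) ∈ Y → x ∈ O ∨ x = p → y ∉ O → y ≠ p → ∀ t ∉ O, (t, x) ∈ Y)
    (h3 : (∀ s ∉ O, ∀ t ∉ O, (s, t) ∈ Y) ∨ (∀ s ∉ O, ∀ t ∉ O, s ≠ p → t ≠ p → (s, t) ∈ Y → s = t) ∧
      ((∀ s ∉ O, (s, s) ∈ Y) ∨ ∀ s ∉ O, s ≠ p → (s, s) ∉ Y)) : Rel Y ∅ := by
  have k1 : IsClosed {z : X × X | z.1 = p} := isClosed_eq continuous_fst continuous_const
  have k2 : IsClosed {z : X × X | z.2 = p} := isClosed_eq continuous_snd continuous_const
  have k3 : IsClosed {z : X × X | z.1 ∉ O} := hO.isClosed_compl.preimage continuous_fst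
  have k4 : IsClosed {z : X × X | z.2 ∉ O} := hO.isClosed_compl.preimage continuous_snd
  have e0 : Rel (Y ∩ {z | z.1 = p ∨ z.2 = p}) ∅ := by
    obtain ⟨Φ, a, b⟩ := one (p := p) hO hc hR r1 r2 (hY.preimage (f := fun x => (x, p)) (by fun_prop))
      fun y hy => h2 p y hy (Or.inr rfl)
    obtain ⟨Ψ, c, d⟩ := one (p := p) hO hc hR r1 r2 (hY.preimage (f := fun x => (p, x)) (by fun_prop))
      fun y hy => h1 p y hy (Or.inr rfl)
    refine ⟨fun f z => Φ (fun x => f (x, p)) z.1 + Ψ (fun x => f (p, x)) z.2 - f (p, p),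
      by fun_prop, fun f hf _ => ?_⟩
    obtain ⟨b1, b2⟩ := b (fun x => f (x, p)) (hf.comp (by fun_prop) fun x hx => ⟨hx, Or.inr rfl⟩)
      fun _ h => h.elim
    obtain ⟨d1, d2⟩ := d (fun x => f (p, x)) (hf.comp (by fun_prop) fun x hx => ⟨hx, Or.inl rfl⟩)
      fun _ h => h.elim
    refine ⟨by fun_prop, ?_⟩
    rintro ⟨x, y⟩ ⟨hz, rfl | rfl⟩
    · simp [b2 (x := x) h0, d2 (x := y) hz]
    · simp [b2 (x := x) hz, d2 (x := y) h0]
  have ea : Rel (Y ∩ {z | (z.1 = p ∨ z.2 = p) ∨ z.1 ∉ O ∧ z.2 ∉ O})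
      (Y ∩ {z | z.1 = p ∨ z.2 = p}) := by
    rcases h3 with h | ⟨h, h' | h'⟩
    · refine ⟨fun f z => f (R z.1, R z.2), by fun_prop, fun f hf hz => ⟨hf.comp_continuous
        (by fun_prop) fun z => ⟨h _ (r1 _) _ (r1 _), Or.inr ⟨r1 _, r1 _⟩⟩, ?_⟩⟩
      rintro ⟨x, y⟩ ⟨a, b | ⟨b, c⟩⟩
      · exact (hz _ ⟨h _ (r1 _) _ (r1 _), b.imp (fun e => e ▸ r2 p hp) fun e => e ▸ r2 p hp⟩).trans
          (hz _ ⟨a, b⟩).symm
      · simp only [r2 x b, r2 y c]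
    · refine ⟨fun f z => max (min (f (R z.1, R z.1)) (f (R z.2, R z.2))) 0 +
        min (max (f (R z.1, R z.1)) (f (R z.2, R z.2))) 0, by fun_prop, fun f hf hz => ?_⟩
      have : Continuous fun x => f (R x, R x) := hf.comp_continuous (by fun_prop)
        fun x => ⟨h' _ (r1 _), Or.inr ⟨r1 _, r1 _⟩⟩
      have a1 := this.comp (continuous_fst (X := X) (Y := X))
      have a2 := this.comp (continuous_snd (X := X) (Y := X))
      refine ⟨((a1.min a2).max continuous_const).add ((a1.max a2).min continuous_const), ?_⟩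
      have hpp := hz _ ⟨h0, Or.inl rfl⟩
      rintro ⟨x, y⟩ ⟨a, b⟩
      by_cases c : x = p ∨ y = p
      · rw [hz _ ⟨a, c⟩]
        rcases c with rfl | rfl <;> simp [r2 _ hp, hpp]
      · obtain ⟨u, v⟩ := b.resolve_left c
        obtain rfl := h x u y v (fun e => c (Or.inl e)) (fun e => c (Or.inr e)) a
        simp [r2 x u]
    · refine ⟨fun _ _ => 0, continuous_const, fun f _ hz => ⟨continuous_const, ?_⟩⟩
      rintro ⟨x, y⟩ ⟨a, b⟩
      refine (hz _ ⟨a, by_contra fun c => ?_⟩).symm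
      obtain ⟨u, v⟩ := b.resolve_left c
      obtain rfl := h x u y v (fun e => c (Or.inl e)) (fun e => c (Or.inr e)) a
      exact h' x u (fun e => c (Or.inl e)) a
  have eb : Rel (Y ∩ {z | z.1 = p ∨ z.2 ∉ O})
      (Y ∩ {z | (z.1 = p ∨ z.2 = p) ∨ z.1 ∉ O ∧ z.2 ∉ O}) :=
    strip hO hc hp hR r1 r2 (hY.inter (k1.union k4)) (fun z hz a b => by
      have c := hz.2.resolve_left fun e => hp (e ▸ a)
      exact ⟨c, fun t ht => ⟨h1 _ _ hz.1 (Or.inl a) c b t ht, Or.inr ht⟩⟩) fun z hz => by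
      have := hz.2
      simp only [mem_inter_iff, hz.1, mem_ofPred_eq] at this ⊢
      grind
  have ec : Rel (Y \ O ×ˢ O) (Y ∩ {z | z.1 = p ∨ z.2 ∉ O}) :=
    Rel.swap (strip hO hc hp hR r1 r2 ((hY.sdiff (hO.prod hO)).preimage continuous_swap)
      (fun z hz a b => by
        have c : z.2 ∉ O := fun e => hz.2 ⟨e, a⟩
        exact ⟨c, fun t ht => ⟨h2 _ _ hz.1 (Or.inl a) c b t ht, fun e => ht e.1⟩⟩) fun z hz =>
      ⟨fun e => e.2.symm, fun e => ⟨hz.1, e.symm⟩⟩)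
  refine (((e0.trans ea fun z hz => ⟨hz.1, Or.inl hz.2⟩).trans eb fun z hz => ⟨hz.1, ?_⟩).trans ec
    fun z hz => ⟨hz.1, fun e => hz.2.elim (fun u => hp (u ▸ e.1)) fun u => u e.2⟩).trans
    (met (hO.prod hO) (hc.prod hc) hY) sdiff_subset
  rcases hz.2 with (e | e) | e
  exacts [Or.inl e, Or.inr (e ▸ hp), Or.inr e.2]

end Pool.Agent.H33.TX2
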