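import Pool.Agent.H33.TX1
import Pool.Agent.H33.TX2

/-! Under diamond: the space. -/

open Set Filter Topology Cardinal Pool.Agent.H33.DiaDefs Pool.Agent.H33.WF1 Pool.Agent.H33.TX1

namespace Pool.Agent.H33.TX3

theorem space (hD : Diamond) : ∃ (_ : TopologicalSpace L) (U : L → Set L) (R : W → L → L),
    T2Space L ∧ (∀ x y : L, x ≠ y → ∃ C, IsClopen C ∧ IsCompact C ∧ x ∈ C ∧ y ∉ C) ∧
    (∀ x, IsClopen (U x) ∧ IsCompact (U x) ∧ x ∈ U x ∧ ∀ y ∈ U x, y.1 ≤ x.1) ∧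
    (∀ γ, Continuous (R γ) ∧ Tendsto (R γ) (coclosedCompact L) (coclosedCompact L) ∧
      (∀ x, γ ≤ (R γ x).1) ∧ ∀ x : L, γ ≤ x.1 → R γ x = x) ∧
    (∀ γ (x : L), γ ≤ x.1 → x ∈ closure {y : L | y.1 = γ}) ∧
    ∀ F : Set (L × L), IsClosed F → (∀ γ, ∃ p ∈ F, γ < p.1.1 ∧ γ < p.2.1 ∧ p.1 ≠ p.2) →
      ∃ α, ∀ s t : L, α ≤ s.1 → α ≤ t.1 → (s, t) ∈ F := by
  classical
  obtain ⟨A, hA⟩ := hD
  have := unc
  obtain ⟨e⟩ : Nonempty (L × L ↪ W) := by
    rw [← Cardinal.le_def]; simp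
  obtain ⟨f, H⟩ := build fun α => e ⁻¹' A α
  let τ := wtop (V f) Van
  have hT : ∀ U : Set L, IsOpen U ↔ ∀ x ∈ U, ∃ n, V f x n ⊆ U := fun _ => Iff.rfl
  have cl : ∀ x m, IsClopen (V f x m) := fun x m => by
    have : ∀ z, ∃ j, ∀ y ∈ V f z j, (y ∈ V f x m ↔ z ∈ V f x m) := fun z => by
      obtain ⟨β, hβ⟩ := DT1.bd cnt {x.1, z.1} (to_countable _)
      exact (clV (fun γ _ => H γ) x (hβ _ (Or.inl rfl)) m z (hβ _ (Or.inr rfl))).exists
    exact ⟨⟨(hT _).2 fun z hz => (this z).imp fun j hj y hy e => hz ((hj y hy).1 e)⟩,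
      (hT _).2 fun z hz => (this z).imp fun j hj y hy => (hj y hy).2 hz⟩
  have cp : ∀ a i, IsCompact (V f (a, i) 0) := fun a => by
    induction a using WellFoundedLT.induction with
    | _ a ih =>
    refine fun i => isCompact_of_finite_subcover fun {ι} U hU hc => ?_
    obtain ⟨k, hk⟩ := mem_iUnion.1 (hc (Or.inl rfl))
    obtain ⟨N, hN⟩ := (hT _).1 (hU k) _ hk
    choose s s1 s2 s3 using (H a).cf
    have hK : IsCompact (V f (a, i) 0 \ V f (a, i) N) := ((finite_Iio N).isCompact_biUnion fun n _ =>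
      (s1 n).isCompact_biUnion fun y hy => ih y.1 (s2 n y hy) y.2).of_isClosed_subset
      ((cl _ _).1.sdiff (cl _ _).2) fun z hz => by
        obtain ⟨h1, h2, -⟩ := hz.1.resolve_left fun e => hz.2 (Or.inl e)
        obtain ⟨y, hy, h3⟩ := s3 _ z h1 rfl
        exact mem_iUnion₂.2 ⟨f a z, mem_Iio.2 (not_le.1 fun e => hz.2 (Or.inr ⟨h1, h2, e⟩)),
          mem_iUnion₂.2 ⟨y, hy, h3⟩⟩
    obtain ⟨t, ht⟩ := hK.elim_finite_subcover U hU (sdiff_subset.trans hc)
    refine ⟨insert k t, fun z hz => ?_⟩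
    rw [Finset.set_biUnion_insert]
    by_cases h : z ∈ V f (a, i) N
    exacts [Or.inl (hN h), Or.inr (ht ⟨hz, h⟩)]
  have sp : ∀ x y : L, x ≠ y → ∃ C, IsClopen C ∧ IsCompact C ∧ x ∈ C ∧ y ∉ C := fun x y h =>
    ⟨V f x (f x.1 y + 1), cl _ _, (cp x.1 x.2).of_isClosed_subset (cl _ _).1 (Van x (Nat.zero_le _)),
      Or.inl rfl, fun e => e.elim h.symm fun e => Nat.not_succ_le_self _ e.2.2⟩
  have dn : ∀ γ a i m, γ ≤ a → ∃ j, (γ, j) ∈ V f (a, i) m := fun γ a => by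
    induction a using WellFoundedLT.induction with
    | _ a ih =>
    intro i m h
    rcases h.lt_or_eq with h | rfl
    swap
    · exact ⟨i, Or.inl rfl⟩
    obtain ⟨N, h1, h2⟩ := ((satV (x := (a, i)) (H a) h).and (eventually_ge_atTop m)).exists
    obtain ⟨x, hx, e⟩ := (H a).ne γ h (Nat.pair (Nat.pair i 0) N)
    have h3 : x ∈ V f (a, i) N := Or.inr ⟨hx, e ▸ κ0 _ _ _, by
      have := Nat.right_le_pair (Nat.pair i 0) N
      show N ≤ f a x
      omega⟩
    by_cases c : x.1 < γ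
    · exact ⟨_, Van _ h2 ((h1 x c).1 h3)⟩
    · obtain ⟨k, hk⟩ := (hT _).1 (cl _ _).2 x h3
      obtain ⟨j, hj⟩ := ih x.1 hx x.2 k (not_lt.1 c)
      exact ⟨j, Van _ h2 (hk hj)⟩
  refine ⟨τ, fun x => V f x 0, fun γ x => if x.1 < γ then (γ, κ (f γ x)) else x,
    ⟨fun x y h => ?_⟩, sp, fun x => ⟨cl _ _, cp x.1 x.2, Or.inl rfl, fun y => Vle⟩, fun γ => ?_,
    fun γ x h => mem_closure_iff.2 fun U hU hx => ?_, fun F hF h => ?_⟩
  · obtain ⟨C, a, -, b, c⟩ := sp x y h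
    exact ⟨C, Cᶜ, a.2, a.compl.2, b, c, disjoint_compl_right⟩
  · have hc : Continuous fun x : L => if x.1 < γ then (γ, κ (f γ x)) else x :=
      continuous_def.2 fun U hU => (hT _).2 fun x hx => by
        rcases lt_trichotomy x.1 γ with h | rfl | h
        · obtain ⟨m, hm⟩ := ((H γ).lc x h).exists
          refine ⟨m, fun y hy => ?_⟩
          simpa only [mem_preimage, h, (Vle hy).trans_lt h, hm y hy, if_true] using hx
        · refine ⟨0, ?_⟩
          rintro y (rfl | ⟨a, b, -⟩)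
          · exact hx
          · simpa [a, b] using hx
        · rw [mem_preimage, if_neg h.not_gt] at hx
          obtain ⟨n, hn⟩ := (hT _).1 hU x hx
          obtain ⟨m, h1, h2⟩ := ((satV (H x.1) h).and (eventually_ge_atTop n)).exists
          refine ⟨m, fun y hy => hn (Van _ h2 ?_)⟩
          show ite _ _ _ ∈ _
          split_ifs with c
          exacts [(h1 y c).1 hy, hy]
    refine ⟨hc, hasBasis_coclosedCompact.tendsto_right_iff.2 fun K hK => ?_, fun x => ?_,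
      fun x h => if_neg h.not_gt⟩
    · obtain ⟨t, -, ht⟩ := hK.2.elim_nhds_subcover (fun x => V f x 0)
        fun x _ => (cl x 0).2.mem_nhds (Or.inl rfl)
      obtain ⟨β, hβ⟩ := DT1.bd cnt _ ((t.countable_toSet.image Prod.fst).insert γ)
      obtain ⟨K', a, -, ⟨s, b, -, c⟩, d, -⟩ := s1 (fun γ _ => H γ) (K := K) ⟨t, t.finite_toSet,
        fun y hy => hβ _ (Or.inr ⟨y, hy, rfl⟩), fun x hx => by simpa using ht hx⟩
        (finite_singleton γ) (fun _ h => h ▸ hβ _ (Or.inl rfl)) (hβ _ (Or.inl rfl))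
      refine ((b.isCompact_biUnion fun y _ => cp y.1 y.2).of_isClosed_subset (hK.1.preimage hc)
        fun x hx => ?_).compl_mem_coclosedCompact_of_isClosed (hK.1.preimage hc)
      have : x ∈ K' := by
        have : ite _ _ _ ∈ _ := a hx
        split_ifs at this with c
        exacts [(d γ rfl x c).2 this, this]
      obtain ⟨y, u, v⟩ := c x this
      exact mem_biUnion u v
    · show γ ≤ (ite _ _ _ : L).1
      split_ifs with c
      exacts [le_rfl, not_lt.1 c]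
  · obtain ⟨n, hn⟩ := (hT _).1 hU x hx
    obtain ⟨j, hj⟩ := dn γ x.1 x.2 n h
    exact ⟨_, hn hj, rfl⟩
  choose p p0 p1 p2 p3 using h
  obtain ⟨δ⟩ : Nonempty W := inferInstance
  obtain ⟨α, a, b, c⟩ := hA (e '' F)
    (DT1.club cnt (fun γ => max (e (p γ)) (max (p γ).1.1 (p γ).2.1)) δ)
  replace a : e '' F ∩ Iio α = A α := a
  have lim : ∀ s t, (∀ m, ∃ q ∈ F, q.1 ∈ V f s m ∧ q.2 ∈ V f t m) → (s, t) ∈ F := fun s t h =>
    hF.closure_subset (mem_closure_iff_nhds.2 fun U hU => by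
      obtain ⟨u, v, u1, u2, v1, v2, w⟩ := mem_nhds_prod_iff'.1 hU
      obtain ⟨n, hn⟩ := (hT _).1 u1 s u2
      obtain ⟨m, hm⟩ := (hT _).1 v1 t v2
      obtain ⟨q, q0, q1, q2⟩ := h (max n m)
      exact ⟨q, w ⟨hn (Van _ (le_max_left _ _) q1), hm (Van _ (le_max_right _ _) q2)⟩, q0⟩)
  have h1 : ∀ i j, ((α, i), (α, j)) ∈ F := fun i j => lim _ _ fun m => by
    obtain ⟨q, q0, q1, q2, q3, q4⟩ := (H α).gs (fun γ hγ => by
      have := c γ hγ
      simp only [max_lt_iff] at this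
      exact ⟨p γ, a.le ⟨⟨_, p0 γ, rfl⟩, this.1⟩, p1 γ, p2 γ, this.2.1, this.2.2, p3 γ⟩) δ b
      (Nat.pair (Nat.pair i j) m)
    obtain ⟨q', q5, q6⟩ := (a.ge q0).1
    have := Nat.right_le_pair (Nat.pair i j) m
    exact ⟨q, e.injective q6 ▸ q5, Or.inr ⟨q1, q3 ▸ κ0 _ _ _, show m ≤ f α q.1 by omega⟩,
      Or.inr ⟨q2, q4 ▸ κ1 _ _ _, show m ≤ f α q.2 by omega⟩⟩
  refine ⟨α, fun s t hs ht => lim s t fun m => ?_⟩
  obtain ⟨i, hi⟩ := dn α s.1 s.2 m hs
  obtain ⟨j, hj⟩ := dn α t.1 t.2 m ht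
  exact ⟨_, h1 i j, hi, hj⟩

theorem main (hD : Diamond) : ∃ (X : Type) (_ : TopologicalSpace X), CompactSpace X ∧ T2Space X ∧
    TopologicalSpace.SeparableSpace X ∧ ¬ TopologicalSpace.MetrizableSpace X ∧
    ∀ Y : Set (X × X), IsClosed Y → TX2.Rel Y ∅ := by
  obtain ⟨τ, U, R, t2, sp, hU, hR, dn, hF⟩ := space hD
  have := unc
  have : WeaklyLocallyCompactSpace L :=
    ⟨fun x => ⟨U x, (hU x).2.1, (hU x).1.2.mem_nhds (hU x).2.2.1⟩⟩
  have ab : ∀ s : Set W, s.Countable → ∃ β, ∀ α ∈ s, α < β := DT1.bd cnt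
  let O : W → Set (OnePoint L) := fun γ => (↑) '' {x : L | x.1 < γ}
  have oc : ∀ γ, (O γ).Countable := fun γ =>
    (((cnt γ).prod (countable_univ (α := ℕ))).mono fun x hx => mem_prod.2 ⟨hx, mem_univ _⟩).image _
  have oo : ∀ γ, IsOpen (O γ) := fun γ => OnePoint.isOpenMap_coe _ (isOpen_iff_mem_nhds.2
    fun x hx => mem_of_superset ((hU x).1.2.mem_nhds (hU x).2.2.1)
      fun y hy => ((hU x).2.2.2 y hy).trans_lt hx)
  have om : ∀ γ (x : L), (x : OnePoint L) ∉ O γ ↔ γ ≤ x.1 := fun γ x =>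
    (OnePoint.coe_injective.mem_set_image.not).trans (not_lt (a := x.1) (b := γ))
  have oi : ∀ γ, OnePoint.infty ∉ O γ := fun γ => OnePoint.infty_notMem_image_coe
  have : TotallySeparatedSpace (OnePoint L) := by
    have h : ∀ (x : L) (y : OnePoint L), ↑x ≠ y → ∃ C : Set (OnePoint L), IsClopen C ∧ ↑x ∈ C ∧ y ∉ C := by
      have k : ∀ C : Set L, IsClopen C → IsCompact C → IsClopen (((↑) : L → OnePoint L) '' C) :=
        fun C a b => ⟨(b.image OnePoint.continuous_coe).isClosed, OnePoint.isOpenMap_coe _ a.2⟩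
      intro x y h
      induction y using OnePoint.rec with
      | infty => exact ⟨_, k _ (hU x).1 (hU x).2.1, ⟨x, (hU x).2.2.1, rfl⟩,
          OnePoint.infty_notMem_image_coe⟩
      | coe y =>
        obtain ⟨C, a, b, c, d⟩ := sp x y fun e => h (e ▸ rfl)
        exact ⟨_, k C a b, ⟨x, c, rfl⟩, OnePoint.coe_injective.mem_set_image.not.2 d⟩
    refine totallySeparatedSpace_iff_exists_isClopen.2 fun x y e => ?_
    induction x using OnePoint.rec with
    | coe x => exact h x y e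
    | infty =>
      induction y using OnePoint.rec with
      | infty => exact absurd rfl e
      | coe y =>
        obtain ⟨C, a, b, c⟩ := h y _ e.symm
        exact ⟨Cᶜ, a.compl, c, not_not.2 b⟩
  have tl : ∀ γ (S : Set (OnePoint L)), IsClosed S → (∀ x : L, γ ≤ x.1 → ↑x ∈ S) →
      ∀ t ∉ O γ, t ∈ S := fun γ S hS h t ht => by
    induction t using OnePoint.rec with
    | coe x => exact h x ((om γ x).1 ht)
    | infty =>
      by_contra e
      obtain ⟨s, -, hs⟩ := ((OnePoint.isOpen_def.1 hS.isOpen_compl).1 e).elim_nhds_subcover U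
        fun x _ => (hU x).1.2.mem_nhds (hU x).2.2.1
      obtain ⟨β, hβ⟩ := ab _ ((s.countable_toSet.image Prod.fst).insert γ)
      obtain ⟨y, a, b⟩ := mem_iUnion₂.1 (hs (not_not.2 (h (β, 0) (hβ _ (Or.inl rfl)).le)))
      exact not_le.2 (hβ _ (Or.inr ⟨y, a, rfl⟩)) ((hU y).2.2.2 _ b)
  have di : ∀ S : Set (OnePoint L), ∃ δ, IsClosed S → ∀ γ ≥ δ, ∀ y ∈ S, y ∉ O γ →
      y ≠ OnePoint.infty → ∀ t ∉ O γ, t ∈ S := fun S => by
    by_cases h : ∀ γ, ∃ x : L, γ < x.1 ∧ ↑x ∈ S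
    · by_cases hS : IsClosed S
      swap
      · exact ⟨Classical.arbitrary _, fun e => absurd e hS⟩
      obtain ⟨α, hα⟩ := hF (((↑) ⁻¹' S) ×ˢ ((↑) ⁻¹' S)) ((hS.preimage OnePoint.continuous_coe).prod
        (hS.preimage OnePoint.continuous_coe)) fun γ => by
          obtain ⟨x, a, b⟩ := h γ
          obtain ⟨y, c, d⟩ := h x.1
          exact ⟨(x, y), ⟨b, d⟩, a, a.trans c, fun e => c.ne (congrArg Prod.fst e)⟩
      exact ⟨α, fun _ γ hγ _ _ _ _ => tl γ S hS fun x hx => (hα x x (hγ.trans hx) (hγ.trans hx)).1⟩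
    · push Not at h
      obtain ⟨δ, h⟩ := h
      obtain ⟨β, hβ⟩ := ab _ (countable_singleton δ)
      refine ⟨β, fun _ γ hγ y a b c => ?_⟩
      induction y using OnePoint.rec with
      | infty => exact absurd rfl c
      | coe y => exact absurd a (h y ((hβ δ rfl).trans_le (hγ.trans ((om γ y).1 b))))
  choose δ hδ using di
  obtain ⟨γ₀⟩ : Nonempty W := inferInstance
  refine ⟨OnePoint L, inferInstance, inferInstance, inferInstance, ?_, fun h => ?_, fun Y hY => ?_⟩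
  · refine ⟨O γ₀ ∪ (↑) '' {y : L | y.1 = γ₀}, (oc _).union ((((countable_singleton γ₀).prod
      (countable_univ (α := ℕ))).mono fun x hx => mem_prod.2 ⟨hx, mem_univ _⟩).image _), fun t => ?_⟩
    by_cases h : t ∈ O γ₀
    · exact subset_closure (Or.inl h)
    · exact tl γ₀ _ isClosed_closure (fun x hx => closure_mono subset_union_right
        (image_closure_subset_closure_image OnePoint.continuous_coe ⟨x, dn _ x hx, rfl⟩)) t h
  · have : SecondCountableTopology L := OnePoint.isOpenEmbedding_coe.isEmbedding.secondCountableTopology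
    obtain ⟨s, a, b⟩ := TopologicalSpace.countable_cover_nhds
      fun x => (hU x).1.2.mem_nhds (hU x).2.2.1
    obtain ⟨β, hβ⟩ := ab _ (a.image Prod.fst)
    obtain ⟨y, c, d⟩ := mem_iUnion₂.1 (b.ge (mem_univ (β, 0)))
    exact not_le.2 (hβ _ ⟨y, c, rfl⟩) ((hU y).2.2.2 _ d)
  suffices h : ∀ Y : Set (OnePoint L × OnePoint L), IsClosed Y →
      (OnePoint.infty, OnePoint.infty) ∈ Y → TX2.Rel Y ∅ by
    obtain ⟨Φ, a, b⟩ := h (Y ∪ {(OnePoint.infty, OnePoint.infty)}) (hY.union isClosed_singleton)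
      (Or.inr rfl)
    exact ⟨Φ, a, fun f hf e => (b f (hf.union_of_isClosed (continuousOn_singleton _ _) hY
      isClosed_singleton) e).imp_right fun h => h.mono subset_union_left⟩
  intro Y hY h0
  have v1 : ∀ x, IsClosed ((fun t => (x, t)) ⁻¹' Y) := fun x => hY.preimage (by fun_prop)
  have v2 : ∀ x, IsClosed ((fun t => (t, x)) ⁻¹' Y) := fun x => hY.preimage (by fun_prop)
  obtain ⟨γ₁, h1⟩ : ∃ γ₁, ∀ γ ≥ γ₁, (∀ s ∉ O γ, ∀ t ∉ O γ, (s, t) ∈ Y) ∨
      ∀ s ∉ O γ, ∀ t ∉ O γ, s ≠ OnePoint.infty → t ≠ OnePoint.infty → (s, t) ∈ Y → s = t := by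
    by_cases h : ∀ γ, ∃ p ∈ Prod.map ((↑) : L → OnePoint L) ((↑) : L → OnePoint L) ⁻¹' Y,
        γ < p.1.1 ∧ γ < p.2.1 ∧ p.1 ≠ p.2
    · obtain ⟨α, hα⟩ := hF _ (hY.preimage (OnePoint.continuous_coe.prodMap OnePoint.continuous_coe)) h
      exact ⟨α, fun γ hγ => Or.inl fun s hs => tl γ _ (v1 s) fun y hy =>
        tl γ _ (v2 y) (fun x hx => hα x y (hγ.trans hx) (hγ.trans hy)) s hs⟩
    · push Not at h
      obtain ⟨δ, h⟩ := h
      obtain ⟨β, hβ⟩ := ab _ (countable_singleton δ)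
      refine ⟨β, fun γ hγ => Or.inr fun s hs t ht a b c => ?_⟩
      induction s using OnePoint.rec with
      | infty => exact absurd rfl a
      | coe s =>
      induction t using OnePoint.rec with
      | infty => exact absurd rfl b
      | coe t => exact congrArg _ (h (s, t) c ((hβ δ rfl).trans_le (hγ.trans ((om γ s).1 hs)))
          ((hβ δ rfl).trans_le (hγ.trans ((om γ t).1 ht))))
  let d : OnePoint L → W := fun x => max (δ ((fun t => (x, t)) ⁻¹' Y)) (δ ((fun t => (t, x)) ⁻¹' Y))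
  choose g hg using fun a : W => ab _ (countable_range fun i : ℕ => d ((a, i) : L))
  obtain ⟨γ, ⟨h2, h3⟩, -⟩ := (DT1.club cnt g (max (max γ₁ (d OnePoint.infty))
    (δ ((fun t => (t, t)) ⁻¹' Y)))).isCofinal γ₀
  simp only [max_lt_iff] at h2
  have hd : ∀ x, x ∈ O γ ∨ x = OnePoint.infty → d x ≤ γ := by
    rintro _ (⟨x, hx, rfl⟩ | rfl)
    · exact ((hg x.1 _ ⟨x.2, rfl⟩).trans (h3 _ hx)).le
    · exact h2.1.2.le
  refine TX2.main (R := OnePoint.map (R γ)) (oo γ) (oc γ) (oi γ)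
    (OnePoint.continuous_map (hR γ).1 (hR γ).2.1) (fun x => ?_) (fun x hx => ?_) hY h0
    (fun x y a b => hδ _ (v1 x) γ ((le_max_left _ _).trans (hd x b)) y a)
    (fun x y a b => hδ _ (v2 x) γ ((le_max_right _ _).trans (hd x b)) y a)
    ((h1 γ h2.1.1.le).imp_right fun h => ⟨h, ?_⟩)
  · induction x using OnePoint.rec with
    | infty => exact oi γ
    | coe x => exact (om γ _).2 ((hR γ).2.2.1 x)
  · induction x using OnePoint.rec with
    | infty => rfl
    | coe x => exact congrArg _ ((hR γ).2.2.2 x ((om γ x).1 hx))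
  · exact (em _).imp_right fun e s a b c =>
      e (hδ ((fun t => (t, t)) ⁻¹' Y) (hY.preimage (by fun_prop)) γ h2.2.le s c a b)

end Pool.Agent.H33.TX3
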