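import Mathlib
import Pool.Agent.H33.Retr

/-!
A space all of whose compact function sets are metrizable, whose product with a one-point
compactification carries a non Eberlein compact set of functions.
-/

open Set Filter Topology

namespace Pool.Agent.H33.TalEb

open Pool.Agent.H33.Groth Pool.Agent.H33.Retr

/-- Talagrand's adequate family -/
def Tal (b : Set (ℕ → ℕ)) : Prop :=
  ∀ s ∈ b, ∀ t ∈ b, ∀ s' ∈ b, ∀ t' ∈ b, s ≠ t → s' ≠ t' → PiNat.firstDiff s t = PiNat.firstDiff s' t'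

theorem Tal.inj {b : Set (ℕ → ℕ)} (h : Tal b) : ∃ n, InjOn (fun t => t n) b := by
  by_cases hb : b.Subsingleton
  · exact ⟨0, hb.injOn _⟩
  obtain ⟨s, hs, t, ht, hst⟩ := not_subsingleton_iff.1 hb
  refine ⟨PiNat.firstDiff s t, fun s' hs' t' ht' h' => ?_⟩
  by_contra hne
  rw [h s hs t ht s' hs' t' ht' hst hne] at h'
  exact PiNat.apply_firstDiff_ne hne h'

theorem tal_singleton (t : ℕ → ℕ) : Tal {t} := by
  rintro _ rfl _ rfl _ _ _ _ h
  exact absurd rfl h

/-- the space of bounded subsets of Baire space -/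
def XX : Type := {x : Set (ℕ → ℕ) // ∃ g : ℕ → ℕ, ∀ t ∈ x, ∀ i, t i ≤ g i}

/-- coordinates -/
noncomputable def emb (x : XX) (p : {b // Tal b} × Set (ℕ → ℕ)) : ℝ :=
  ({p.2} : Set (Set (ℕ → ℕ))).indicator 1 (x.1 ∩ p.1.1)

noncomputable instance : TopologicalSpace XX := TopologicalSpace.induced emb inferInstance

theorem finite_inter (x : XX) {b : Set (ℕ → ℕ)} (hb : Tal b) : (x.1 ∩ b).Finite := by
  obtain ⟨n, hn⟩ := hb.inj
  obtain ⟨g, hg⟩ := x.2
  refine Finite.of_finite_image ((finite_Iic (g n)).subset ?_) (hn.mono inter_subset_right)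
  rintro _ ⟨t, ht, rfl⟩
  exact hg t ht.1 n

theorem basic_mem (x : XX) {b : Set (ℕ → ℕ)} (hb : Tal b) : {y : XX | y.1 ∩ b = x.1 ∩ b} ∈ 𝓝 x := by
  have hc : Continuous fun y : XX => emb y (⟨b, hb⟩, x.1 ∩ b) :=
    continuous_pi_iff.1 (continuous_induced_dom (f := emb)) _
  filter_upwards [(isOpen_lt continuous_const hc).mem_nhds
    (show (0 : ℝ) < emb x (⟨b, hb⟩, x.1 ∩ b) by simp [emb])] with y hy
  by_contra h
  simp [emb, h] at hy

theorem exists_basic {x : XX} {U : Set XX} (hU : U ∈ 𝓝 x) : ∃ F : Finset (Set (ℕ → ℕ)),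
    (∀ b ∈ F, Tal b) ∧ ∀ y : XX, (∀ b ∈ F, y.1 ∩ b = x.1 ∩ b) → y ∈ U := by
  classical
  rw [nhds_induced, mem_comap] at hU
  obtain ⟨V, hV, hVU⟩ := hU
  rw [nhds_pi, Filter.mem_pi] at hV
  obtain ⟨J, hJ, t, ht, htV⟩ := hV
  refine ⟨hJ.toFinset.image fun p => p.1.1, ?_, fun y hy => hVU (htV fun p hp => ?_)⟩
  · intro b hb
    obtain ⟨p, -, rfl⟩ := Finset.mem_image.1 hb
    exact p.1.2
  · have : emb y p = emb x p := by
      simp only [emb, hy _ (Finset.mem_image_of_mem _ (hJ.mem_toFinset.2 hp))]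
    rw [this]
    exact mem_of_mem_nhds (ht p)

instance : T35Space XX := by
  refine IsEmbedding.t35Space (f := emb) ⟨⟨rfl⟩, fun x y h => Subtype.ext ?_⟩
  ext t
  have h1 := congrFun h (⟨{t}, tal_singleton t⟩, x.1 ∩ {t})
  have h2 : y.1 ∩ {t} = x.1 ∩ {t} := by
    by_contra h2
    simp [emb, h2] at h1
  exact ⟨fun ht => (h2.symm ▸ mem_inter ht rfl : t ∈ y.1 ∩ {t}).1,
    fun ht => (h2 ▸ mem_inter ht rfl : t ∈ x.1 ∩ {t}).1⟩

/-- a finite set as a point -/
def fin (s : Finset (ℕ → ℕ)) : XX :=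
  ⟨s, fun i => s.sup fun t => t i, fun _ ht i => Finset.le_sup (f := fun t => t i) ht⟩

/-- restriction -/
def rho (C : Set (ℕ → ℕ)) (x : XX) : XX :=
  ⟨x.1 ∩ C, x.2.imp fun _ hg t ht => hg t ht.1⟩

theorem continuous_rho (C : Set (ℕ → ℕ)) : Continuous (rho C) := by
  refine continuous_iff_continuousAt.2 fun x U hU => ?_
  obtain ⟨F, hF, hFU⟩ := exists_basic hU
  have h1 : ∀ᶠ y : XX in 𝓝 x, ∀ b ∈ F, y.1 ∩ b = x.1 ∩ b :=
    (eventually_all_finset F).2 fun b hb => basic_mem x (hF b hb)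
  rw [Filter.mem_map]
  filter_upwards [h1] with y hy
  refine hFU _ fun b hb => ?_
  simp only [rho, inter_right_comm _ C b, hy b hb]

theorem dense_fin : DenseRange fin := by
  intro x
  rw [mem_closure_iff_nhds]
  intro U hU
  obtain ⟨F, hF, hFU⟩ := exists_basic hU
  have h1 : (⋃ b ∈ F, x.1 ∩ b).Finite := F.finite_toSet.biUnion fun b hb => finite_inter x (hF b hb)
  refine ⟨fin h1.toFinset, hFU _ fun b hb => ?_, mem_range_self _⟩
  simp only [fin, Finite.coe_toFinset]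
  refine Subset.antisymm (fun t ht => ?_) fun t ht => ⟨mem_biUnion hb ht, ht.2⟩
  obtain ⟨b', -, h⟩ := mem_iUnion₂.1 ht.1
  exact ⟨h.1, ht.2⟩

theorem rho_fin (C : Set (ℕ → ℕ)) (s : Finset (ℕ → ℕ)) :
    ∃ s' : Finset (ℕ → ℕ), ↑s' ⊆ C ∧ rho C (fin s) = fin s' := by
  classical
  refine ⟨s.filter (· ∈ C), fun t ht => (Finset.mem_filter.1 ht).2, Subtype.ext ?_⟩
  ext t
  simp [rho, fin]

theorem exists_support {f : XX → ℝ} (hf : Continuous f) :
    ∃ C : Set (ℕ → ℕ), C.Countable ∧ ∀ C', C ⊆ C' → ∀ x, f (rho C' x) = f x := by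
  choose F hF hFU using fun (s : Finset (ℕ → ℕ)) (n : ℕ) => exists_basic
    (hf.continuousAt (x := fin s) (Metric.ball_mem_nhds _ (Nat.one_div_pos_of_nat (n := n))))
  let ψ : Finset (ℕ → ℕ) → Set (ℕ → ℕ) := fun s => ⋃ n, ⋃ b ∈ F s n, b
  have hψ : ∀ s, (ψ s).Countable := fun s => countable_iUnion fun n =>
    (F s n).countable_toSet.biUnion fun b hb => by
      obtain ⟨m, hm⟩ := (hF s n b hb).inj
      exact countable_of_injective_of_countable_image hm (to_countable _)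
  have key : ∀ x, f (rho (hull ψ ∅) x) = f x := by
    refine congrFun (dense_fin.equalizer (hf.comp (continuous_rho _)) hf (funext fun s => ?_))
    obtain ⟨s', hs', h⟩ := rho_fin (hull ψ ∅) s
    simp only [Function.comp, h]
    refine eq_of_forall_dist_le fun ε hε => ?_
    obtain ⟨n, hn⟩ := exists_nat_one_div_lt hε
    refine le_trans ?_ hn.le
    rw [dist_comm]
    refine le_of_lt (hFU s' n (fin s) fun b hb => ?_)
    have h1 : b ⊆ hull ψ ∅ := Subset.trans (fun t ht => mem_iUnion.2 ⟨n, mem_biUnion hb ht⟩)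
      (cl_hull ψ ∅ s' hs')
    rw [← h]
    simp only [rho, inter_assoc, inter_eq_right.2 h1]
  refine ⟨hull ψ ∅, countable_hull ψ hψ countable_empty, fun C' hC' x => ?_⟩
  rw [← key, ← key x]
  congr 1
  apply Subtype.ext
  simp only [rho, inter_assoc, inter_eq_right.2 hC']

theorem finite_ae {α : Type*} (𝒰 : Ultrafilter ℕ) (T : ℕ → Finset α) {j : ℕ}
    (hT : ∀ n, (T n).card ≤ j) : {t | ∀ᶠ n in (𝒰 : Filter ℕ), t ∈ T n}.Finite := by
  by_contra h
  obtain ⟨s, hs, hc⟩ := Set.Infinite.exists_subset_card_eq h (j + 1)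
  obtain ⟨n, hn⟩ := ((eventually_all_finset s).2 fun t ht => hs ht).exists
  have := (Finset.card_le_card (show s ⊆ T n from hn)).trans (hT n)
  omega

theorem exists_free {α : Type*} (T E : ℕ → Finset α) {j m : ℕ} (hT : ∀ n, (T n).card ≤ j)
    (hE : ∀ n, (E n).card ≤ m) : ∃ φ : ℕ → ℕ, φ.Injective ∧
      ∀ a b, ∀ t ∈ T (φ a), t ∈ E (φ b) → t ∈ T (φ b) := by
  let 𝒰 := hyperfilter ℕ
  have h1 := finite_ae 𝒰 T hT
  have h2 := finite_ae 𝒰 E hE
  let P : ℕ → Prop := fun n => (∀ t ∈ {t | ∀ᶠ n in (𝒰 : Filter ℕ), t ∈ T n}, t ∈ T n) ∧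
    ∀ t ∈ {t | ∀ᶠ n in (𝒰 : Filter ℕ), t ∈ E n}, t ∈ T n → ∀ᶠ n in (𝒰 : Filter ℕ), t ∈ T n
  have hP : ∀ᶠ n in (𝒰 : Filter ℕ), P n := by
    refine ((eventually_all_finite h1).2 fun t ht => ht).and
      ((eventually_all_finite h2).2 fun t _ => ?_)
    by_cases h : ∀ᶠ n in (𝒰 : Filter ℕ), t ∈ T n
    · exact Eventually.of_forall fun _ _ => h
    · exact (Ultrafilter.eventually_not.2 h).mono fun n hn h' => absurd h' hn
  obtain ⟨φ, -, hφ⟩ := exists_seq_of_forall_finset_exists P (fun a b => a ≠ b ∧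
    (∀ t ∈ T a, t ∈ E b → t ∈ T b) ∧ ∀ t ∈ E a, t ∈ T b → t ∈ T a) (by
    intro s hs
    refine (hP.and ((eventually_all_finset s).2 fun a ha => ?_)).exists
    refine Eventually.and ?_ (Eventually.and ((eventually_all_finset _).2 fun t ht => ?_)
      ((eventually_all_finset _).2 fun t ht => ?_))
    · exact ((eventually_cofinite_ne a).filter_mono hyperfilter_le_cofinite).mono
        fun b hb => Ne.symm hb
    · by_cases h : ∀ᶠ n in (𝒰 : Filter ℕ), t ∈ T n
      · exact h.mono fun n hn _ => hn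
      · have h3 : ¬ ∀ᶠ n in (𝒰 : Filter ℕ), t ∈ E n := fun h3 => h ((hs a ha).2 t h3 ht)
        exact (Ultrafilter.eventually_not.2 h3).mono fun n hn h' => absurd h' hn
    · by_cases h : ∀ᶠ n in (𝒰 : Filter ℕ), t ∈ T n
      · exact Eventually.of_forall fun _ _ => (hs a ha).1 t h
      · exact (Ultrafilter.eventually_not.2 h).mono fun n hn h' => absurd h' hn)
  refine ⟨φ, fun a b hab => ?_, fun a b t ht ht' => ?_⟩
  · rcases lt_trichotomy a b with h | h | h
    · exact absurd hab (hφ a b h).1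
    · exact h
    · exact absurd hab.symm (hφ b a h).1
  · rcases lt_trichotomy a b with h | rfl | h
    · exact (hφ a b h).2.1 t ht ht'
    · exact ht
    · exact (hφ b a h).2.2 t ht' ht

theorem exists_common {α Ω : Type*} [TopologicalSpace Ω] [SecondCountableTopology Ω]
    (W : Set α → Set Ω) (hW : Antitone W) (hne : ∀ C, C.Countable → (W C).Nonempty) :
    ∃ z, ∀ C, C.Countable → z ∈ closure (W C) := by
  by_contra h
  push Not at h
  choose C hC hz using h
  obtain ⟨r, hr, hcov⟩ := isLindelof_univ.elim_countable_subcover (fun z => (closure (W (C z)))ᶜ)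
    (fun z => isClosed_closure.isOpen_compl) fun z _ => mem_iUnion.2 ⟨z, hz z⟩
  obtain ⟨w, hw⟩ := hne (⋃ z ∈ r, C z) (hr.biUnion fun z _ => hC z)
  obtain ⟨z, hzr, hzw⟩ := mem_iUnion₂.1 (hcov (mem_univ w))
  exact hzw (subset_closure (hW (subset_biUnion_of_mem (u := C) hzr) hw))

/-- witnesses -/
def Wit (g h : XX → ℝ) (p : ℕ × ℕ × (ℕ → ℕ → ℕ)) : Prop :=
  ∃ F : Finset (Set (ℕ → ℕ)), F.card ≤ p.1 ∧
    (∀ b ∈ F, ∀ s ∈ b, ∀ t ∈ b, (∀ i < p.1, s i = t i) → s = t) ∧
    ∀ y : XX, (∀ b ∈ F, y.1 ∩ b = p.2.2 '' Iio p.2.1 ∩ b) → 1 / ((p.1 : ℝ) + 1) ≤ |g y - h y|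

theorem exists_wit {g h : XX → ℝ} (hg : Continuous g) (hh : Continuous h) (hne : g ≠ h) :
    ∃ p, Wit g h p := by
  obtain ⟨s, hs⟩ : ∃ s, g (fin s) ≠ h (fin s) := by
    by_contra hc
    push Not at hc
    exact hne (dense_fin.equalizer hg hh (funext hc))
  obtain ⟨n, hn⟩ := exists_nat_one_div_lt (abs_pos.2 (sub_ne_zero.2 hs))
  obtain ⟨F, hF, hFU⟩ := exists_basic ((isOpen_lt continuous_const (hg.sub hh).abs).mem_nhds hn)
  choose! l hl using fun b hb => (hF b hb).inj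
  refine ⟨(max (max n F.card) (F.sup l + 1), s.toList.length, fun i => s.toList.getD i 0), F,
    (le_max_right _ _).trans (le_max_left _ _), fun b hb u hu v hv huv => hl b hb hu hv
      (huv _ (lt_of_lt_of_le (Nat.lt_succ_of_le (Finset.le_sup hb)) (le_max_right _ _))),
    fun y hy => le_trans (Nat.one_div_le_one_div ((le_max_left _ _).trans (le_max_left _ _)))
      (le_of_lt (hFU y fun b hb => (hy b hb).trans ?_))⟩
  congr 1
  ext t
  simp only [fin, mem_image, mem_Iio, Finset.mem_coe]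
  rw [← Finset.mem_toList, List.mem_iff_getElem]
  constructor
  · rintro ⟨i, hi, rfl⟩
    exact ⟨i, hi, (List.getD_eq_getElem _ _ hi).symm⟩
  · rintro ⟨i, hi, rfl⟩
    exact ⟨i, hi, List.getD_eq_getElem _ _ hi⟩

theorem exists_countable_sep {H : Set (XX → ℝ)} (hH : ∀ f ∈ H, Continuous f) (hc : IsCompact H) :
    ∃ C : Set (ℕ → ℕ), C.Countable ∧ ∀ g ∈ H, ∀ h ∈ H,
      (∀ s : Finset (ℕ → ℕ), ↑s ⊆ C → g (fin s) = h (fin s)) → g = h := by
  classical
  by_contra hn
  push Not at hn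
  obtain ⟨⟨M, j, z⟩, hz⟩ := exists_common (fun C : Set (ℕ → ℕ) => {p | ∃ g ∈ H, ∃ h ∈ H,
      (∀ s : Finset (ℕ → ℕ), ↑s ⊆ C → g (fin s) = h (fin s)) ∧ Wit g h p})
    (fun C C' hC p ⟨g, hg, h, hh, h1, h2⟩ => ⟨g, hg, h, hh, fun s hs => h1 s (hs.trans hC), h2⟩)
    (fun C hC => by
      obtain ⟨g, hg, h, hh, h1, h2⟩ := hn C hC
      obtain ⟨p, hp⟩ := exists_wit (hH g hg) (hH h hh) h2
      exact ⟨p, g, hg, h, hh, h1, hp⟩)
  choose! sp hsp hsp' using fun f hf => exists_support (hH f hf)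
  obtain ⟨S, hSm, -, -, hSQ⟩ := exists_chain (fun S : Set (ℕ → ℕ) => S.Countable) ∅
    countable_empty (fun S T hS hT => hS.union hT)
    (fun S T => ∀ n, ∃ g ∈ H, ∃ h ∈ H, ∃ t : ℕ → ℕ → ℕ,
      (∀ s : Finset (ℕ → ℕ), ↑s ⊆ S → g (fin s) = h (fin s)) ∧ Wit g h (M, j, t) ∧
      (∀ p < j, ∀ i < max M n, t p i = z p i) ∧ sp g ∪ sp h ⊆ T) (by
    intro S hS
    have h1 : ∀ n, ∃ g ∈ H, ∃ h ∈ H, ∃ t : ℕ → ℕ → ℕ,
        (∀ s : Finset (ℕ → ℕ), ↑s ⊆ S → g (fin s) = h (fin s)) ∧ Wit g h (M, j, t) ∧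
        (∀ p < j, ∀ i < max M n, t p i = z p i) := by
      intro n
      have h2 : ∀ᶠ q : ℕ × ℕ × (ℕ → ℕ → ℕ) in 𝓝 (M, j, z), q.1 = M ∧ q.2.1 = j ∧
          ∀ p ∈ Finset.range j, ∀ i ∈ Finset.range (max M n), q.2.2 p i = z p i := by
        have h0 : ∀ u : ℕ × ℕ × (ℕ → ℕ → ℕ) → ℕ, Continuous u →
            ∀ᶠ q in 𝓝 (M, j, z), u q = u (M, j, z) := fun u hu =>
          hu.continuousAt ((isOpen_discrete {u (M, j, z)}).mem_nhds rfl)
        exact (h0 _ continuous_fst).and ((h0 (fun q => q.2.1) (by fun_prop)).and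
          ((eventually_all_finset _).2 fun p _ => (eventually_all_finset _).2 fun i _ =>
            h0 (fun q => q.2.2 p i) (by fun_prop)))
      obtain ⟨⟨_, _, t⟩, ⟨rfl, rfl, h3⟩, g, hg, h, hh, h4, h5⟩ :=
        mem_closure_iff_nhds.1 (hz S hS) _ h2
      exact ⟨g, hg, h, hh, t, h4, h5, fun p hp i hi =>
        h3 p (Finset.mem_range.2 hp) i (Finset.mem_range.2 hi)⟩
    choose g hg h hh t h2 h3 h4 using h1
    exact ⟨⋃ n, sp (g n) ∪ sp (h n), countable_iUnion fun n => (hsp _ (hg n)).union (hsp _ (hh n)),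
      fun n => ⟨g n, hg n, h n, hh n, t n, h2 n, h3 n, h4 n,
        subset_iUnion (fun n => sp (g n) ∪ sp (h n)) n⟩⟩)
  choose T hT hTQ using hSQ
  choose g hg h hh t h1 h2 h3 h4 using fun n => hTQ n n
  choose F hF hFs hFU using h2
  have h5 : ∀ (n p : ℕ) (b : Set (ℕ → ℕ)), ∃ e : ℕ → ℕ, b ∈ F n → ∀ u ∈ b,
      (∀ i < M, u i = z p i) → u = e := by
    intro n p b
    by_cases h6 : ∃ u ∈ b, ∀ i < M, u i = z p i
    · obtain ⟨e, he, he'⟩ := h6
      exact ⟨e, fun hb u hu hu' => hFs n b hb u hu e he fun i hi => (hu' i hi).trans (he' i hi).symm⟩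
    · exact ⟨0, fun _ u hu hu' => absurd ⟨u, hu, hu'⟩ h6⟩
  choose e he using h5
  obtain ⟨φ, hφ, hfree⟩ := exists_free (fun n => (Finset.range j).image (t n))
    (fun n => (Finset.range j ×ˢ F n).image fun q => e n q.1 q.2) (j := j) (m := j * M)
    (fun n => Finset.card_image_le.trans (by simp))
    (fun n => Finset.card_image_le.trans (by simpa using Nat.mul_le_mul_left j (hF n)))
  let x : XX := ⟨⋃ a, t (φ a) '' Iio j, fun i => max ((Finset.range j).sup fun p => z p i)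
    ((Finset.range (i + 1) ×ˢ Finset.range j).sup fun q => t q.1 q.2 i), by
      intro u hu i
      obtain ⟨a, p, hp, rfl⟩ := mem_iUnion.1 hu
      rcases lt_or_ge i (φ a) with h6 | h6
      · rw [h3 _ p hp i (h6.trans_le (le_max_right _ _))]
        exact (Finset.le_sup (f := fun p => z p i) (Finset.mem_range.2 hp)).trans (le_max_left _ _)
      · exact (Finset.le_sup (f := fun q : ℕ × ℕ => t q.1 q.2 i) (b := (φ a, p))
          (Finset.mem_product.2 ⟨Finset.mem_range.2 (Nat.lt_succ_of_le h6),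
            Finset.mem_range.2 hp⟩)).trans (le_max_right _ _)⟩
  have hx : ∀ a, 1 / ((M : ℝ) + 1) ≤ |g (φ a) x - h (φ a) x| := fun a => by
    refine hFU _ x fun b hb => Subset.antisymm ?_
      (inter_subset_inter_left _ (subset_iUnion (fun a => t (φ a) '' Iio j) a))
    rintro u ⟨hu, hub⟩
    obtain ⟨a', p, hp, rfl⟩ := mem_iUnion.1 hu
    have h6 := hfree a' a _ (Finset.mem_image_of_mem _ (Finset.mem_range.2 hp))
      (Finset.mem_image.2 ⟨(p, b), Finset.mem_product.2 ⟨Finset.mem_range.2 hp, hb⟩,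
        (he _ p b hb _ hub fun i hi => h3 _ p hp i (hi.trans_le (le_max_left _ _))).symm⟩)
    obtain ⟨p', hp', h7⟩ := Finset.mem_image.1 h6
    exact ⟨⟨p', Finset.mem_range.1 hp', h7⟩, hub⟩
  obtain ⟨q, hq, hqc⟩ := (hc.prod hc).exists_mapClusterPt (f := atTop)
    (u := fun a => (g (φ a), h (φ a))) (by
      rw [le_principal_iff, Filter.mem_map]
      exact Eventually.of_forall fun a => ⟨hg _, hh _⟩)
  have h6 : 1 / ((M : ℝ) + 1) ≤ |q.1 x - q.2 x| :=
    (isClosed_le (g := fun q : (XX → ℝ) × (XX → ℝ) => |q.1 x - q.2 x|) continuous_const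
      (by fun_prop)).mem_of_mapClusterPt hqc (Eventually.of_forall hx)
  have h7 : ∀ n, sp (g n) ∪ sp (h n) ⊆ ⋃ n, S n := fun n =>
    (h4 n).trans ((hT n).trans (subset_iUnion S _))
  have h8 : q.1 (rho (⋃ n, S n) x) - q.1 x = 0 :=
    eq_of_cluster (f := fun q : (XX → ℝ) × (XX → ℝ) => q.1 (rho (⋃ n, S n) x) - q.1 x) hqc
      (by fun_prop) (by simp [fun n => hsp' _ (hg n) _ (union_subset_iff.1 (h7 n)).1 x])
  have h9 : q.2 (rho (⋃ n, S n) x) - q.2 x = 0 :=
    eq_of_cluster (f := fun q : (XX → ℝ) × (XX → ℝ) => q.2 (rho (⋃ n, S n) x) - q.2 x) hqc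
      (by fun_prop) (by simp [fun n => hsp' _ (hh n) _ (union_subset_iff.1 (h7 n)).2 x])
  have h10 : q.1 (rho (⋃ n, S n) x) = q.2 (rho (⋃ n, S n) x) := by
    refine congrFun (dense_fin.equalizer ((hH _ hq.1).comp (continuous_rho _))
      ((hH _ hq.2).comp (continuous_rho _)) (funext fun s => ?_)) x
    obtain ⟨s', hs', h11⟩ := rho_fin (⋃ n, S n) s
    simp only [Function.comp, h11]
    obtain ⟨n, hn⟩ := finset_subset_chain hSm hs'
    refine sub_eq_zero.1 (eq_of_cluster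
      (f := fun q : (XX → ℝ) × (XX → ℝ) => q.1 (fin s') - q.2 (fin s')) hqc (by fun_prop)
      (tendsto_const_nhds.congr' ?_))
    filter_upwards [hφ.nat_tendsto_atTop (eventually_ge_atTop n)] with a ha
    rw [h1 _ s' (hn.trans (hSm ha)), sub_self]
  have h11 : q.1 x - q.2 x = 0 := by linarith
  rw [h11, abs_zero] at h6
  exact absurd h6 (not_le.2 Nat.one_div_pos_of_nat)

theorem eberlein_of_sep (H : Set (XX → ℝ)) (hH : ∀ f ∈ H, Continuous f) (hc : IsCompact H) :
    ∃ (E : Type) (_ : NormedAddCommGroup E) (_ : NormedSpace ℝ E) (_ : CompleteSpace E)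
      (e : H → WeakSpace ℝ E), IsEmbedding e := by
  obtain ⟨C, hC, hsep⟩ := exists_countable_sep hH hc
  have h1 : Countable {s : Finset (ℕ → ℕ) | ↑s ⊆ C} := (Cardinal.le_aleph0_iff_set_countable.1
    ((mk_finsets_le C).trans (max_le le_rfl (Cardinal.le_aleph0_iff_set_countable.2 hC)))).to_subtype
  have h2 : CompactSpace H := isCompact_iff_compactSpace.1 hc
  have h3 : IsEmbedding fun (f : H) (s : {s : Finset (ℕ → ℕ) | ↑s ⊆ C}) => f.1 (fin s) :=
    (Continuous.isClosedEmbedding (continuous_pi fun s =>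
      (continuous_apply (fin s.1)).comp continuous_subtype_val) fun f g h => Subtype.ext
      (hsep _ f.2 _ g.2 fun s hs => congrFun h ⟨s, hs⟩)).isEmbedding
  have h4 := h3.metrizableSpace
  let m : MetricSpace H := TopologicalSpace.metrizableSpaceMetric H
  have h5 := kuratowskiEmbedding.isometry H
  refine ⟨_, inferInstance, inferInstance, inferInstance,
    toWeakSpaceCLM ℝ _ ∘ kuratowskiEmbedding H, ?_⟩
  exact (((toWeakSpaceCLM ℝ _).continuous.comp h5.continuous).isClosedEmbedding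
    (toWeakSpaceCLM_bijective.1.comp h5.injective)).isEmbedding

theorem isClosed_ofPred_forall {α ι : Type*} [TopologicalSpace α] {p : ι → α → Prop}
    (h : ∀ i, IsClosed {x | p i x}) : IsClosed {x | ∀ i, p i x} := by
  rw [ofPred_forall]
  exact isClosed_iInter h

theorem isCompact_tal : IsCompact {χ : (ℕ → ℕ) → Bool | Tal {t | χ t = true}} := by
  refine IsClosed.isCompact ?_
  have h : ∀ t : ℕ → ℕ, IsOpen {χ : (ℕ → ℕ) → Bool | χ t = true} := fun t =>
    (isOpen_discrete {true}).preimage (f := fun χ : (ℕ → ℕ) → Bool => χ t) (continuous_apply t)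
  simp only [Tal, mem_ofPred_eq]
  refine isClosed_ofPred_forall fun s => isClosed_imp (h s) (isClosed_ofPred_forall fun t =>
    isClosed_imp (h t) (isClosed_ofPred_forall fun s' => isClosed_imp (h s')
      (isClosed_ofPred_forall fun t' => isClosed_imp (h t') isClosed_const)))

theorem not_eberlein {E : Type} [NormedAddCommGroup E] [NormedSpace ℝ E]
    (e : {χ : (ℕ → ℕ) → Bool | Tal {t | χ t = true}} → WeakSpace ℝ E) (he : Continuous e)
    (hi : e.Injective) : False := by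
  classical
  have : CompactSpace {χ : (ℕ → ℕ) → Bool | Tal {t | χ t = true}} :=
    isCompact_iff_compactSpace.1 isCompact_tal
  have h1 : ∀ γ : ℕ → ℕ, ∃ m : ℕ, ∀ χ χ', χ.1 γ = true → χ'.1 γ = false →
      1 / ((m : ℝ) + 1) ≤ dist ((toWeakSpace ℝ E).symm (e χ)) ((toWeakSpace ℝ E).symm (e χ')) := by
    intro γ
    have h2 : IsClosed {p : {χ : (ℕ → ℕ) → Bool | Tal {t | χ t = true}} ×
        {χ : (ℕ → ℕ) → Bool | Tal {t | χ t = true}} | p.1.1 γ = true ∧ p.2.1 γ = false} :=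
      (isClosed_eq ((continuous_apply γ).comp (continuous_subtype_val.comp continuous_fst))
        continuous_const).inter (isClosed_eq ((continuous_apply γ).comp
          (continuous_subtype_val.comp continuous_snd)) continuous_const)
    have h3 := ((h2.isCompact.image (f := fun p => e p.1 - e p.2) (by fun_prop)).isClosed.preimage
      (toWeakSpaceCLM ℝ E).continuous).isOpen_compl.mem_nhds (x := 0) (by
        rintro ⟨p, hp, h⟩
        rw [map_zero, sub_eq_zero] at h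
        have := hp.1
        rw [hi h, hp.2] at this
        exact Bool.false_ne_true this)
    obtain ⟨ε, hε, h4⟩ := Metric.mem_nhds_iff.1 h3
    obtain ⟨m, hm⟩ := exists_nat_one_div_lt hε
    refine ⟨m, fun χ χ' hχ hχ' => hm.le.trans (not_lt.1 fun h5 => ?_)⟩
    rw [dist_eq_norm, ← map_sub] at h5
    exact h4 (mem_ball_zero_iff.2 h5) ⟨(χ, χ'), ⟨hχ, hχ'⟩, rfl⟩
  choose M hM using h1
  obtain ⟨m, z, hz⟩ := nonempty_interior_of_iUnion_of_closed
    (f := fun m => closure {γ | M γ = m}) (fun m => isClosed_closure)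
    (eq_univ_of_forall fun γ => mem_iUnion.2 ⟨M γ, subset_closure rfl⟩)
  obtain ⟨_, ⟨z', n, rfl⟩, -, hcyl⟩ := (PiNat.isTopologicalBasis_cylinders
    (fun _ => ℕ)).exists_subset_of_mem_open hz isOpen_interior
  have h2 : ∀ i : ℕ, ∃ γ, M γ = m ∧ γ ∈ PiNat.cylinder (Function.update z' n i) (n + 1) := by
    intro i
    obtain ⟨γ, h1, h2⟩ := mem_closure_iff.1 (interior_subset (hcyl
      (PiNat.update_mem_cylinder z' n i))) _ (PiNat.isOpen_cylinder _ _ (n + 1))
      (PiNat.self_mem_cylinder _ _)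
    exact ⟨γ, h2, h1⟩
  choose γ hγ hγc using h2
  have h3 : ∀ i, γ i n = i := fun i => by simpa using hγc i n (Nat.lt_succ_self n)
  have h4 : ∀ i j, γ i ≠ γ j → PiNat.firstDiff (γ i) (γ j) = n := by
    intro i j hij
    refine le_antisymm (not_lt.1 fun h => hij ?_) ((PiNat.mem_cylinder_iff_le_firstDiff hij n).1
      fun k hk => ?_)
    · have := PiNat.apply_eq_of_lt_firstDiff h
      rw [h3, h3] at this
      rw [this]
    · rw [hγc i k (by omega), hγc j k (by omega), Function.update_of_ne hk.ne,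
        Function.update_of_ne hk.ne]
  let c : (ℕ → Bool) → {χ : (ℕ → ℕ) → Bool | Tal {t | χ t = true}} := fun β =>
    ⟨fun t => decide (t ∈ range γ) && β (t n), by
      intro s hs t ht s' hs' t' ht' h h'
      simp only [mem_ofPred_eq, Bool.and_eq_true, decide_eq_true_eq] at hs ht hs' ht'
      obtain ⟨⟨i, rfl⟩, -⟩ := hs
      obtain ⟨⟨j, rfl⟩, -⟩ := ht
      obtain ⟨⟨i', rfl⟩, -⟩ := hs'
      obtain ⟨⟨j', rfl⟩, -⟩ := ht'
      rw [h4 _ _ h, h4 _ _ h']⟩
  have hc : Continuous c := Continuous.subtype_mk (continuous_pi fun t =>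
    (continuous_of_discreteTopology (f := fun b : Bool => decide (t ∈ range γ) && b)).comp
      (continuous_apply (t n))) _
  have hcγ : ∀ β i, (c β).1 (γ i) = β i := fun β i => by simp [c, h3]
  obtain ⟨Q, hQc, hQ⟩ := TopologicalSpace.exists_countable_dense (ℕ → Bool)
  let Ψ : (ℕ → Bool) → E := fun β => (toWeakSpace ℝ E).symm (e (c β))
  obtain ⟨D, hDc, hD⟩ := (hQc.image Ψ).isSeparable.span (R := ℝ).closure
  have h5 : ∀ β, Ψ β ∈ closure (Submodule.span ℝ (Ψ '' Q) : Set E) := fun β => by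
    have h6 : e (c β) ∈ closure (toWeakSpace ℝ E '' (Submodule.span ℝ (Ψ '' Q) : Set E)) :=
      map_mem_closure (f := e ∘ c) (he.comp hc) (hQ β) fun q hq =>
        ⟨Ψ q, Submodule.subset_span (mem_image_of_mem _ hq), rfl⟩
    rw [← (Submodule.span ℝ (Ψ '' Q)).convex.toWeakSpace_closure ℝ] at h6
    obtain ⟨v, hv, h7⟩ := h6
    simpa only [Ψ, ← h7, LinearEquiv.symm_apply_apply] using hv
  have hpos : (0 : ℝ) < 1 / ((m : ℝ) + 1) / 2 := half_pos Nat.one_div_pos_of_nat
  choose d hd hdd using fun β => Metric.mem_closure_iff.1 (hD (h5 β)) _ hpos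
  have h6 : d.Injective := by
    intro β β' h
    have h7 : dist (Ψ β) (Ψ β') < 1 / ((m : ℝ) + 1) := by
      have h8 := dist_triangle_right (Ψ β) (Ψ β') (d β)
      have h9 := hdd β'
      rw [← h] at h9
      linarith [hdd β]
    funext i
    by_contra hne
    rcases hb : β i with _ | _
    · have := hM (γ i) (c β') (c β) (by rw [hcγ]; simpa [hb] using hne) (by rw [hcγ, hb])
      rw [hγ, dist_comm] at this
      exact absurd h7 (not_lt.2 this)
    · have := hM (γ i) (c β) (c β') (by rw [hcγ, hb]) (by rw [hcγ]; simpa [hb] using hne)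
      rw [hγ] at this
      exact absurd h7 (not_lt.2 this)
  have h7 : (univ : Set (ℕ → Bool)).Countable :=
    countable_of_injective_of_countable_image h6.injOn (hDc.mono (image_subset_iff.2 fun β _ => hd β))
  rw [← Cardinal.le_aleph0_iff_set_countable] at h7
  simp only [Cardinal.mk_univ, Cardinal.mk_pi, Cardinal.mk_fintype, Fintype.card_bool,
    Nat.cast_ofNat, Cardinal.prod_const, Cardinal.lift_ofNat, Cardinal.mk_nat,
    Cardinal.lift_aleph0, Cardinal.two_power_aleph0] at h7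
  exact absurd h7 (not_le.2 Cardinal.aleph0_lt_continuum)

/-- the one-point compactification of the discrete Baire set, inside a cube -/
def KK : Set ((ℕ → ℕ) → Bool) := {κ | ∀ s t, κ s = true → κ t = true → s = t}

theorem isClosed_KK : IsClosed KK := by
  have h : ∀ t : ℕ → ℕ, IsOpen {χ : (ℕ → ℕ) → Bool | χ t = true} := fun t =>
    (isOpen_discrete {true}).preimage (f := fun χ : (ℕ → ℕ) → Bool => χ t) (continuous_apply t)
  exact isClosed_ofPred_forall fun s => isClosed_ofPred_forall fun t =>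
    isClosed_imp (h s) (isClosed_imp (h t) isClosed_const)

/-- the family of functions -/
noncomputable def ff (χ : (ℕ → ℕ) → Bool) (p : XX × KK) : ℝ :=
  {p : XX × KK | ∃ t, p.2.1 t = true ∧ t ∈ p.1.1 ∧ χ t = true}.indicator 1 p

theorem ff_congr {χ χ' : (ℕ → ℕ) → Bool} {p q : XX × KK}
    (h : (∃ t, p.2.1 t = true ∧ t ∈ p.1.1 ∧ χ t = true) ↔
      ∃ t, q.2.1 t = true ∧ t ∈ q.1.1 ∧ χ' t = true) : ff χ p = ff χ' q := by
  classical
  simp only [ff, indicator, mem_ofPred_eq, Pi.one_apply]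
  exact if_congr h rfl rfl

theorem continuous_ff_right {χ : (ℕ → ℕ) → Bool} (h : Tal {t | χ t = true}) :
    Continuous (ff χ) := by
  refine continuous_iff_continuousAt.2 fun p => tendsto_const_nhds.congr' ?_
  have h1 : ∀ᶠ q : XX × KK in 𝓝 p, q.1.1 ∩ {t | χ t = true} = p.1.1 ∩ {t | χ t = true} :=
    continuous_fst.continuousAt (basic_mem p.1 h)
  have h2 : ∀ᶠ q : XX × KK in 𝓝 p, ∀ t ∈ p.1.1 ∩ {t | χ t = true}, q.2.1 t = p.2.1 t :=
    (eventually_all_finite (finite_inter p.1 h)).2 fun t _ =>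
      ((continuous_apply t).comp (continuous_subtype_val.comp continuous_snd)).continuousAt
        ((isOpen_discrete {p.2.1 t}).mem_nhds rfl)
  filter_upwards [h1, h2] with q hq1 hq2
  refine ff_congr ⟨fun ⟨t, h1, h2⟩ => ⟨t, (hq2 t h2).trans h1, (hq1.symm ▸ h2 :
    t ∈ q.1.1 ∩ {t | χ t = true})⟩, fun ⟨t, h1, h2⟩ => ?_⟩
  have h3 : t ∈ p.1.1 ∩ {t | χ t = true} := hq1 ▸ h2
  exact ⟨t, (hq2 t h3).symm.trans h1, h3⟩

theorem continuous_ff : Continuous ff := by
  refine continuous_pi fun p => continuous_iff_continuousAt.2 fun χ =>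
    tendsto_const_nhds.congr' ?_
  have h1 : ∀ᶠ χ' in 𝓝 χ, ∀ t ∈ {t | p.2.1 t = true}, χ' t = χ t :=
    (eventually_all_finite (Set.Subsingleton.finite fun s hs t ht => p.2.2 s t hs ht)).2
      fun t _ => (continuous_apply t).continuousAt ((isOpen_discrete {χ t}).mem_nhds rfl)
  filter_upwards [h1] with χ' h
  exact ff_congr ⟨fun ⟨t, h1, h2, h3⟩ => ⟨t, h1, h2, (h t h1).trans h3⟩,
    fun ⟨t, h1, h2, h3⟩ => ⟨t, h1, h2, (h t h1).symm.trans h3⟩⟩

theorem counter : ¬ (∀ (X : Type) [TopologicalSpace X] [T35Space X],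
      (∀ A : Set (X → ℝ), (∀ f ∈ A, Continuous f) → IsCompact A →
        ∃ (E : Type) (_ : NormedAddCommGroup E) (_ : NormedSpace ℝ E) (_ : CompleteSpace E)
          (e : A → WeakSpace ℝ E), Topology.IsEmbedding e) →
      ∀ (K : Type) [TopologicalSpace K] [CompactSpace K] [T2Space K],
        ∀ B : Set (X × K → ℝ), (∀ f ∈ B, Continuous f) → IsCompact B →
          ∃ (E : Type) (_ : NormedAddCommGroup E) (_ : NormedSpace ℝ E) (_ : CompleteSpace E)
            (e : B → WeakSpace ℝ E), Topology.IsEmbedding e) := by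
  classical
  intro h
  have : CompactSpace KK := isCompact_iff_compactSpace.1 isClosed_KK.isCompact
  obtain ⟨E, _, _, _, e, he⟩ := h XX eberlein_of_sep KK (ff '' {χ | Tal {t | χ t = true}})
    (by rintro _ ⟨χ, hχ, rfl⟩; exact continuous_ff_right hχ) (isCompact_tal.image continuous_ff)
  refine not_eberlein (fun χ => e ⟨ff χ, mem_image_of_mem _ χ.2⟩)
    (he.continuous.comp ((continuous_ff.comp continuous_subtype_val).subtype_mk _))
    fun χ χ' h1 => Subtype.ext (funext fun t => ?_)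
  have h2 := congrFun (congrArg Subtype.val (he.injective h1))
    (fin {t}, ⟨fun s => decide (s = t), fun s s' hs hs' =>
      (of_decide_eq_true hs).trans (of_decide_eq_true hs').symm⟩)
  rcases h3 : χ.1 t <;> rcases h4 : χ'.1 t <;> simp [ff, fin, indicator, h3, h4] at h2 ⊢

end Pool.Agent.H33.TalEb
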