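import Mathlib

set_option autoImplicit false
set_option linter.unusedSectionVars false

namespace Pool.Agent.H33.ThreeGraph
open Classical Finset

variable {V : Type} [DecidableEq V]

/-- Two vertices from each class. -/
def Shape (c : V → Bool) (e : Finset V) : Prop :=
  ∃ a a' b b', c a = false ∧ c a' = false ∧ c b = true ∧ c b' = true ∧ a ≠ a' ∧ b ≠ b' ∧
    e = {a, a', b, b'}

lemma card_split (c : V → Bool) (e : Finset V) :
    (e.filter (fun w => c w = false)).card + (e.filter (fun w => c w = true)).card = e.card := by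
  have := Finset.card_filter_add_card_filter_not (s := e) (fun w => c w = false)
  rw [← this]
  congr 2
  ext w
  simp

lemma union_split (c : V → Bool) (e : Finset V) :
    e = e.filter (fun w => c w = false) ∪ e.filter (fun w => c w = true) := by
  ext w
  cases h : c w <;> simp [h]

lemma filter_rel (r : V → V → Prop) (c : V → Bool) (hr : ∀ u v, r u v ↔ c u = c v)
    (e : Finset V) (v : V) (i : Bool) (hv : c v = i) :
    e.filter (fun w => r v w) = e.filter (fun w => c w = i) := by
  ext w
  simp [hr, hv, eq_comm]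

lemma shape_iff (r : V → V → Prop) (c : V → Bool) (hr : ∀ u v, r u v ↔ c u = c v) (e : Finset V) :
    (e.card = 4 ∧ ∀ v ∈ e, (e.filter (fun w => r v w)).card = 2) ↔ Shape c e := by
  constructor
  · rintro ⟨h4, h2⟩
    have hs := card_split c e
    have h0 : ∀ i : Bool, (e.filter (fun w => c w = i)).card = 0 ∨
        (e.filter (fun w => c w = i)).card = 2 := by
      intro i
      rcases (e.filter (fun w => c w = i)).eq_empty_or_nonempty with h | ⟨v, hv⟩
      · left; simp [h]
      · right
        rw [Finset.mem_filter] at hv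
        rw [← filter_rel r c hr e v i hv.2]
        exact h2 v hv.1
    have hf : (e.filter (fun w => c w = false)).card = 2 := by
      rcases h0 false with h | h <;> rcases h0 true with h' | h' <;> omega
    have ht : (e.filter (fun w => c w = true)).card = 2 := by omega
    obtain ⟨a, a', haa, ha⟩ := Finset.card_eq_two.1 hf
    obtain ⟨b, b', hbb, hb⟩ := Finset.card_eq_two.1 ht
    have h1 : a ∈ e.filter (fun w => c w = false) := by simp [ha]
    have h2 : a' ∈ e.filter (fun w => c w = false) := by simp [ha]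
    have h3 : b ∈ e.filter (fun w => c w = true) := by simp [hb]
    have h4 : b' ∈ e.filter (fun w => c w = true) := by simp [hb]
    rw [Finset.mem_filter] at h1 h2 h3 h4
    refine ⟨a, a', b, b', h1.2, h2.2, h3.2, h4.2, haa, hbb, ?_⟩
    rw [union_split c e, ha, hb]
    ext w
    simp only [Finset.mem_union, Finset.mem_insert, Finset.mem_singleton]
    tauto
  · rintro ⟨a, a', b, b', ha, ha', hb, hb', haa, hbb, rfl⟩
    have h1 : a ≠ b := fun h => by simp [h, hb] at ha
    have h2 : a ≠ b' := fun h => by simp [h, hb'] at ha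
    have h3 : a' ≠ b := fun h => by simp [h, hb] at ha'
    have h4 : a' ≠ b' := fun h => by simp [h, hb'] at ha'
    have hf : ({a, a', b, b'} : Finset V).filter (fun w => c w = false) = {a, a'} := by
      ext w
      simp only [Finset.mem_filter, Finset.mem_insert, Finset.mem_singleton]
      constructor
      · rintro ⟨rfl | rfl | rfl | rfl, h⟩ <;> simp_all
      · rintro (rfl | rfl) <;> simp_all
    have ht : ({a, a', b, b'} : Finset V).filter (fun w => c w = true) = {b, b'} := by
      ext w
      simp only [Finset.mem_filter, Finset.mem_insert, Finset.mem_singleton]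
      constructor
      · rintro ⟨rfl | rfl | rfl | rfl, h⟩ <;> simp_all
      · rintro (rfl | rfl) <;> simp_all
    refine ⟨?_, fun v _ => ?_⟩
    · rw [← card_split c, hf, ht, Finset.card_pair haa, Finset.card_pair hbb]
    · cases h : c v
      · rw [filter_rel r c hr _ v false h, hf, Finset.card_pair haa]
      · rw [filter_rel r c hr _ v true h, ht, Finset.card_pair hbb]

lemma Shape.card {c : V → Bool} {e : Finset V} (h : Shape c e) : e.card = 4 :=
  ((shape_iff (fun u v => c u = c v) c (fun _ _ => Iff.rfl) e).2 h).1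

lemma Shape.card_cls {c : V → Bool} {e : Finset V} (h : Shape c e) (i : Bool) :
    (e.filter (fun w => c w = i)).card ≤ 2 := by
  rcases (e.filter (fun w => c w = i)).eq_empty_or_nonempty with h0 | ⟨v, hv⟩
  · simp [h0]
  · rw [Finset.mem_filter] at hv
    have := ((shape_iff (fun u v => c u = c v) c (fun _ _ => Iff.rfl) e).2 h).2 v hv.1
    rw [filter_rel (fun u v => c u = c v) c (fun _ _ => Iff.rfl) e v i hv.2] at this
    omega

/-- Indicator of a hyperedge. -/
noncomputable def q (H : Finset (Finset V)) (e : Finset V) : ZMod 2 := if e ∈ H then 1 else 0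

lemma count5 (H : Finset (Finset V)) (hH : ∀ e ∈ H, e.card = 4) (S : Finset V) (hS : S.card = 5) :
    Even (H.filter (fun e => e ⊆ S)).card ↔ ∑ x ∈ S, q H (S.erase x) = 0 := by
  have h1 : H.filter (fun e => e ⊆ S) =
      (S.filter (fun x => S.erase x ∈ H)).image (fun x => S.erase x) := by
    ext e
    simp only [Finset.mem_filter, Finset.mem_image]
    constructor
    · rintro ⟨he, hs⟩
      have hc := hH e he
      have hne : (S \ e).Nonempty := by
        rw [← Finset.card_pos, Finset.card_sdiff_of_subset hs]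
        omega
      obtain ⟨x, hx⟩ := hne
      rw [Finset.mem_sdiff] at hx
      have : e = S.erase x := by
        apply Finset.eq_of_subset_of_card_le
        · intro y hy
          exact Finset.mem_erase.2 ⟨fun h => hx.2 (h ▸ hy), hs hy⟩
        · rw [Finset.card_erase_of_mem hx.1]
          omega
      exact ⟨x, ⟨hx.1, this ▸ he⟩, this.symm⟩
    · rintro ⟨x, ⟨-, hx⟩, rfl⟩
      exact ⟨hx, Finset.erase_subset _ _⟩
  rw [h1, Finset.card_image_of_injOn, ← ZMod.natCast_eq_zero_iff_even]
  · unfold q
    rw [Finset.sum_boole]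
  · intro x hx y hy hxy
    exact Finset.erase_injOn S (Finset.mem_filter.1 hx).1 (Finset.mem_filter.1 hy).1 hxy

lemma sum5 (c : V → Bool) (H : Finset (Finset V)) (hH : ∀ e ∈ H, Shape c e) (i : Bool)
    (a a' a'' b b' : V) (ha : c a = i) (ha' : c a' = i) (ha'' : c a'' = i) (hb : c b = !i)
    (hb' : c b' = !i) (h1 : a ≠ a') (h2 : a ≠ a'') (h3 : a' ≠ a'') (h4 : b ≠ b') :
    ({a, a', a'', b, b'} : Finset V).card = 5 ∧
    ∑ x ∈ ({a, a', a'', b, b'} : Finset V), q H (({a, a', a'', b, b'} : Finset V).erase x) =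
      q H {a', a'', b, b'} + q H {a, a'', b, b'} + q H {a, a', b, b'} := by
  have ne : ∀ u v, c u = i → c v = !i → u ≠ v := by
    intro u v hu hv h
    rw [h, hv] at hu
    cases i <;> simp at hu
  have n1 := ne a b ha hb
  have n2 := ne a b' ha hb'
  have n3 := ne a' b ha' hb
  have n4 := ne a' b' ha' hb'
  have n5 := ne a'' b ha'' hb
  have n6 := ne a'' b' ha'' hb'
  have z : ∀ e : Finset V, a ∈ e → a' ∈ e → a'' ∈ e → q H e = 0 := by
    intro e m1 m2 m3
    unfold q
    rw [if_neg]
    intro he
    have := (hH e he).card_cls i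
    have h3 : ({a, a', a''} : Finset V) ⊆ e.filter (fun w => c w = i) := by
      intro w hw
      simp only [Finset.mem_insert, Finset.mem_singleton] at hw
      rcases hw with rfl | rfl | rfl <;> simp [*]
    have h5 := Finset.card_le_card h3
    rw [Finset.card_eq_three.2 ⟨a, a', a'', h1, h2, ‹_›, rfl⟩] at h5
    omega
  constructor
  · rw [Finset.card_insert_of_notMem (by simp [*]), Finset.card_insert_of_notMem (by simp [*]),
      Finset.card_insert_of_notMem (by simp [*]), Finset.card_pair h4]
  rw [Finset.sum_insert (by simp [*]), Finset.sum_insert (by simp [*]),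
    Finset.sum_insert (by simp [*]), Finset.sum_pair h4]
  rw [z (Finset.erase _ b) (by simp [*]) (by simp [*]) (by simp [*]),
    z (Finset.erase _ b') (by simp [*]) (by simp [*]) (by simp [*])]
  have e1 : ({a, a', a'', b, b'} : Finset V).erase a = {a', a'', b, b'} := by
    ext w; simp only [Finset.mem_erase, Finset.mem_insert, Finset.mem_singleton]; grind
  have e2 : ({a, a', a'', b, b'} : Finset V).erase a' = {a, a'', b, b'} := by
    ext w; simp only [Finset.mem_erase, Finset.mem_insert, Finset.mem_singleton]; grind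
  have e3 : ({a, a', a'', b, b'} : Finset V).erase a'' = {a, a', b, b'} := by
    ext w; simp only [Finset.mem_erase, Finset.mem_insert, Finset.mem_singleton]; grind
  rw [e1, e2, e3]
  ring

lemma split5 (r : V → V → Prop) (c : V → Bool) (hr : ∀ u v, r u v ↔ c u = c v) (S : Finset V)
    (hS : S.card = 5) (h3 : ∀ v ∈ S, (S.filter (fun w => r v w)).card ≤ 3) :
    ∃ (i : Bool) (a a' a'' b b' : V), c a = i ∧ c a' = i ∧ c a'' = i ∧ c b = (!i) ∧ c b' = (!i) ∧
      a ≠ a' ∧ a ≠ a'' ∧ a' ≠ a'' ∧ b ≠ b' ∧ S = {a, a', a'', b, b'} := by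
  have hs := card_split c S
  have h0 : ∀ i : Bool, (S.filter (fun w => c w = i)).card ≤ 3 := by
    intro i
    rcases (S.filter (fun w => c w = i)).eq_empty_or_nonempty with h | ⟨v, hv⟩
    · simp [h]
    · rw [Finset.mem_filter] at hv
      rw [← filter_rel r c hr S v i hv.2]
      exact h3 v hv.1
  have key : ∀ i : Bool, (S.filter (fun w => c w = i)).card = 3 →
      (S.filter (fun w => c w = !i)).card = 2 →
      ∃ (a a' a'' b b' : V), c a = i ∧ c a' = i ∧ c a'' = i ∧ c b = (!i) ∧ c b' = (!i) ∧
      a ≠ a' ∧ a ≠ a'' ∧ a' ≠ a'' ∧ b ≠ b' ∧ S = {a, a', a'', b, b'} := by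
    intro i h1 h2
    obtain ⟨a, a', a'', n1, n2, n3, ha⟩ := Finset.card_eq_three.1 h1
    obtain ⟨b, b', n4, hb⟩ := Finset.card_eq_two.1 h2
    have m1 : a ∈ S.filter (fun w => c w = i) := by simp [ha]
    have m2 : a' ∈ S.filter (fun w => c w = i) := by simp [ha]
    have m3 : a'' ∈ S.filter (fun w => c w = i) := by simp [ha]
    have m4 : b ∈ S.filter (fun w => c w = !i) := by simp [hb]
    have m5 : b' ∈ S.filter (fun w => c w = !i) := by simp [hb]
    rw [Finset.mem_filter] at m1 m2 m3 m4 m5
    refine ⟨a, a', a'', b, b', m1.2, m2.2, m3.2, m4.2, m5.2, n1, n2, n3, n4, ?_⟩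
    ext w
    constructor
    · intro hw
      by_cases h : c w = i
      · have : w ∈ S.filter (fun w => c w = i) := Finset.mem_filter.2 ⟨hw, h⟩
        rw [ha] at this
        simp only [Finset.mem_insert, Finset.mem_singleton] at this ⊢
        tauto
      · have : w ∈ S.filter (fun w => c w = !i) :=
          Finset.mem_filter.2 ⟨hw, by cases i <;> simpa using h⟩
        rw [hb] at this
        simp only [Finset.mem_insert, Finset.mem_singleton] at this ⊢
        tauto
    · intro hw
      simp only [Finset.mem_insert, Finset.mem_singleton] at hw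
      rcases hw with rfl | rfl | rfl | rfl | rfl <;> tauto
  have a1 := h0 false
  have a2 := h0 true
  by_cases h : (S.filter (fun w => c w = false)).card = 3
  · exact ⟨false, key false h (by simp only [Bool.not_false]; omega)⟩
  · exact ⟨true, key true (by omega) (by simp only [Bool.not_true]; omega)⟩

lemma z2 (x : ZMod 2) : x + x = 0 := by
  revert x
  decide

lemma z2' (x : ZMod 2) : (if x = 1 then (1 : ZMod 2) else 0) = x := by
  revert x
  decide

lemma q_inj {W : Type} [DecidableEq W] {H : Finset (Finset V)} {H' : Finset (Finset W)}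
    {e : Finset V} {e' : Finset W} : q H e = q H' e' ↔ (e ∈ H ↔ e' ∈ H') := by
  unfold q
  by_cases h : e ∈ H <;> by_cases h' : e' ∈ H' <;> simp [h, h']

/-- `H` is the three-graph given by the classes `c` and the signs `s`. -/
def Rep (c : V → Bool) (s : V → V → ZMod 2) (H : Finset (Finset V)) : Prop :=
  (∀ e ∈ H, Shape c e) ∧ ∀ a a' b b', c a = false → c a' = false → c b = true → c b' = true →
    q H {a, a', b, b'} = s a b + s a b' + s a' b + s a' b'

lemma quad_comm (a a' b b' : V) : ({a, a', b, b'} : Finset V) = {b, b', a, a'} := by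
  ext w
  simp only [Finset.mem_insert, Finset.mem_singleton]
  tauto

lemma Rep.quad {c : V → Bool} {s : V → V → ZMod 2} {H : Finset (Finset V)} (h : Rep c s H)
    (hs : ∀ u v, s u v = s v u) (i : Bool) (a a' b b' : V) (ha : c a = i) (ha' : c a' = i)
    (hb : c b = !i) (hb' : c b' = !i) :
    q H {a, a', b, b'} = s a b + s a b' + s a' b + s a' b' := by
  cases i
  · exact h.2 a a' b b' ha ha' hb hb'
  · rw [quad_comm, h.2 b b' a a' hb hb' ha ha', hs b a, hs b a', hs b' a, hs b' a']
    ring

noncomputable def Hof [Fintype V] (c : V → Bool) (s : V → V → ZMod 2) : Finset (Finset V) :=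
  Finset.univ.filter (fun e => ∃ a a' b b', c a = false ∧ c a' = false ∧ c b = true ∧
    c b' = true ∧ a ≠ a' ∧ b ≠ b' ∧ e = {a, a', b, b'} ∧ s a b + s a b' + s a' b + s a' b' = 1)

lemma rep_Hof [Fintype V] (c : V → Bool) (s : V → V → ZMod 2) : Rep c s (Hof c s) := by
  constructor
  · intro e he
    simp only [Hof, Finset.mem_filter, Finset.mem_univ, true_and] at he
    obtain ⟨a, a', b, b', h1, h2, h3, h4, h5, h6, h7, -⟩ := he
    exact ⟨a, a', b, b', h1, h2, h3, h4, h5, h6, h7⟩
  · intro a a' b b' ha ha' hb hb'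
    rw [← z2' (s a b + s a b' + s a' b + s a' b')]
    unfold q
    congr 1
    apply propext
    simp only [Hof, Finset.mem_filter, Finset.mem_univ, true_and]
    constructor
    · rintro ⟨x, x', y, y', h1, h2, h3, h4, h5, h6, h7, h8⟩
      have m : ∀ w, w ∈ ({x, x', y, y'} : Finset V) → w = a ∨ w = a' ∨ w = b ∨ w = b' := by
        intro w hw
        rw [← h7] at hw
        simpa using hw
      have mx : x = a ∨ x = a' := by
        rcases m x (by simp) with h | h | h | h <;> simp_all
      have mx' : x' = a ∨ x' = a' := by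
        rcases m x' (by simp) with h | h | h | h <;> simp_all
      have my : y = b ∨ y = b' := by
        rcases m y (by simp) with h | h | h | h <;> simp_all
      have my' : y' = b ∨ y' = b' := by
        rcases m y' (by simp) with h | h | h | h <;> simp_all
      rcases mx with rfl | rfl <;> rcases mx' with rfl | rfl <;> rcases my with rfl | rfl <;>
        rcases my' with rfl | rfl <;>
        first | exact absurd rfl h5 | exact absurd rfl h6 | linear_combination h8
    · intro h
      refine ⟨a, a', b, b', ha, ha', hb, hb', ?_, ?_, rfl, h⟩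
      · rintro rfl
        have : s a b + s a b' + s a b + s a b' = 0 := by
          linear_combination z2 (s a b) + z2 (s a b')
        rw [this] at h
        exact zero_ne_one h
      · rintro rfl
        have : s a b + s a b + s a' b + s a' b = 0 := by
          linear_combination z2 (s a b) + z2 (s a' b)
        rw [this] at h
        exact zero_ne_one h

lemma five_of_rep (r : V → V → Prop) (c : V → Bool) (hr : ∀ u v, r u v ↔ c u = c v)
    (s : V → V → ZMod 2) (hs : ∀ u v, s u v = s v u) (H : Finset (Finset V)) (h : Rep c s H)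
    (S : Finset V) (hS : S.card = 5) (h3 : ∀ v ∈ S, (S.filter (fun w => r v w)).card ≤ 3) :
    Even (H.filter (fun e => e ⊆ S)).card := by
  rw [count5 H (fun e he => (h.1 e he).card) S hS]
  obtain ⟨i, a, a', a'', b, b', h1, h2, h6, h4, h5, n1, n2, n3, n4, rfl⟩ := split5 r c hr S hS h3
  rw [(sum5 c H h.1 i a a' a'' b b' h1 h2 h6 h4 h5 n1 n2 n3 n4).2,
    h.quad hs i _ _ _ _ h2 h6 h4 h5, h.quad hs i _ _ _ _ h1 h6 h4 h5,
    h.quad hs i _ _ _ _ h1 h2 h4 h5]
  linear_combination z2 (s a b) + z2 (s a b') + z2 (s a' b) + z2 (s a' b') + z2 (s a'' b) +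
    z2 (s a'' b')

lemma q_small (c : V → Bool) (H : Finset (Finset V)) (hH : ∀ e ∈ H, Shape c e) (x y z : V) :
    q H {x, y, z} = 0 := by
  unfold q
  rw [if_neg]
  intro he
  have := (hH _ he).card
  have h2 : ({x, y, z} : Finset V).card ≤ 3 := Finset.card_le_three
  omega

lemma swap12 (a a' b b' : V) : ({a, a', b, b'} : Finset V) = {a', a, b, b'} :=
  Finset.insert_comm _ _ _

lemma cocycle (r : V → V → Prop) (c : V → Bool) (hr : ∀ u v, r u v ↔ c u = c v)
    (H : Finset (Finset V)) (hH : ∀ e ∈ H, Shape c e)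
    (h5 : ∀ S : Finset V, S.card = 5 → (∀ v ∈ S, (S.filter (fun w => r v w)).card ≤ 3) →
      Even (H.filter (fun e => e ⊆ S)).card)
    (i : Bool) (a a' a'' b b' : V) (ha : c a = i) (ha' : c a' = i) (ha'' : c a'' = i)
    (hb : c b = !i) (hb' : c b' = !i) :
    q H {a', a'', b, b'} + q H {a, a'', b, b'} + q H {a, a', b, b'} = 0 := by
  by_cases n4 : b = b'
  · subst n4
    have : ∀ x y : V, ({x, y, b, b} : Finset V) = {x, y, b} := fun x y => by simp
    simp only [this, q_small c H hH, add_zero]
  by_cases n1 : a = a'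
  · subst n1
    have : ({a, a, b, b'} : Finset V) = {a, b, b'} := by simp
    rw [this, q_small c H hH, z2, add_zero]
  by_cases n2 : a = a''
  · subst n2
    have : ({a, a, b, b'} : Finset V) = {a, b, b'} := by simp
    rw [this, q_small c H hH, swap12 a' a, add_zero, z2]
  by_cases n3 : a' = a''
  · subst n3
    have : ({a', a', b, b'} : Finset V) = {a', b, b'} := by simp
    rw [this, q_small c H hH, zero_add, z2]
  obtain ⟨hc, hsum⟩ := sum5 c H hH i a a' a'' b b' ha ha' ha'' hb hb' n1 n2 n3 n4
  rw [← hsum, ← count5 H (fun e he => (hH e he).card) _ hc]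
  apply h5 _ hc
  intro v _
  rw [filter_rel r c hr _ v (c v) rfl]
  by_cases hv : c v = i
  · refine le_trans (Finset.card_le_card (t := {a, a', a''}) ?_) Finset.card_le_three
    intro w hw
    simp only [Finset.mem_filter, Finset.mem_insert, Finset.mem_singleton] at hw ⊢
    rcases hw with ⟨rfl | rfl | rfl | rfl | rfl, h⟩
    · tauto
    · tauto
    · tauto
    · rw [hb, hv] at h; cases i <;> simp at h
    · rw [hb', hv] at h; cases i <;> simp at h
  · refine le_trans (Finset.card_le_card (t := {b, b', b'}) ?_) Finset.card_le_three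
    intro w hw
    simp only [Finset.mem_filter, Finset.mem_insert, Finset.mem_singleton] at hw ⊢
    rcases hw with ⟨rfl | rfl | rfl | rfl | rfl, h⟩
    · exact absurd (h.symm.trans ha) hv
    · exact absurd (h.symm.trans ha') hv
    · exact absurd (h.symm.trans ha'') hv
    · tauto
    · tauto

lemma exists_rep (r : V → V → Prop) (c : V → Bool) (hr : ∀ u v, r u v ↔ c u = c v)
    (H : Finset (Finset V)) (hH : ∀ e ∈ H, Shape c e)
    (h5 : ∀ S : Finset V, S.card = 5 → (∀ v ∈ S, (S.filter (fun w => r v w)).card ≤ 3) →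
      Even (H.filter (fun e => e ⊆ S)).card) :
    ∃ s : V → V → ZMod 2, (∀ u v, s u v = s v u) ∧ Rep c s H := by
  by_cases h0 : (∃ a0, c a0 = false) ∧ (∃ b0, c b0 = true)
  · obtain ⟨⟨a0, ha0⟩, ⟨b0, hb0⟩⟩ := h0
    refine ⟨fun u v => q H {a0, b0, u, v}, fun u v => ?_, hH, ?_⟩
    · have : ({a0, b0, u, v} : Finset V) = {a0, b0, v, u} := by rw [Finset.pair_comm u v]
      simp only [this]
    · intro a a' b b' ha ha' hb hb'
      have e : ∀ x y : V, ({a0, b0, x, y} : Finset V) = {a0, x, b0, y} := fun x y => by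
        rw [Finset.insert_comm b0 x]
      simp only [e]
      have k1 := cocycle r c hr H hH h5 false a0 a a' b0 b ha0 ha ha' hb0 hb
      have k2 := cocycle r c hr H hH h5 false a0 a a' b0 b' ha0 ha ha' hb0 hb'
      have k3 := cocycle r c hr H hH h5 true b0 b b' a a' hb0 hb hb' ha ha'
      rw [quad_comm b b', quad_comm b0 b', quad_comm b0 b] at k3
      linear_combination k3 - k1 - k2 - z2 (q H {a0, a, b0, b}) * 0 + k1 + k1 + k2 + k2 -
        z2 (q H {a, a', b0, b}) - z2 (q H {a, a', b0, b'}) - z2 (q H {a0, a, b0, b}) -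
        z2 (q H {a0, a, b0, b'}) - z2 (q H {a0, a', b0, b}) - z2 (q H {a0, a', b0, b'})
  · refine ⟨fun _ _ => 0, fun _ _ => rfl, hH, ?_⟩
    intro a a' b b' ha _ hb _
    exact absurd ⟨⟨a, ha⟩, ⟨b, hb⟩⟩ h0

lemma rep_map {W : Type} [DecidableEq W] {c : V → Bool} {s : V → V → ZMod 2}
    {H : Finset (Finset V)} {c' : W → Bool} {s' : W → W → ZMod 2} {H' : Finset (Finset W)}
    (h : Rep c s H) (h' : Rep c' s' H') (hs' : ∀ u v, s' u v = s' v u) (φ : V ↪ W) (τ : Bool)
    (g : V → ZMod 2) (hc : ∀ v, c' (φ v) = xor (c v) τ)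
    (hs : ∀ u v, c u ≠ c v → s' (φ u) (φ v) = s u v + g u + g v) (e : Finset V) :
    e ∈ H ↔ e.map φ ∈ H' := by
  have key : Shape c e → (e ∈ H ↔ e.map φ ∈ H') := by
    rintro ⟨a, a', b, b', ha, ha', hb, hb', -, -, rfl⟩
    rw [← q_inj, h.2 a a' b b' ha ha' hb hb']
    simp only [Finset.map_insert, Finset.map_singleton]
    rw [h'.quad hs' τ _ _ _ _ (by simp [hc, ha]) (by simp [hc, ha']) (by simp [hc, hb])
      (by simp [hc, hb']), hs a b (by simp [*]), hs a b' (by simp [*]), hs a' b (by simp [*]),
      hs a' b' (by simp [*])]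
    linear_combination -z2 (g a) - z2 (g a') - z2 (g b) - z2 (g b')
  constructor
  · intro he
    exact (key (h.1 e he)).1 he
  · intro he
    refine (key ?_).2 he
    have h1 := (shape_iff (fun u v => c' u = c' v) c' (fun _ _ => Iff.rfl) _).2 (h'.1 _ he)
    apply (shape_iff (fun u v => c u = c v) c (fun _ _ => Iff.rfl) _).1
    refine ⟨by simpa using h1.1, fun v hv => ?_⟩
    have h2 := h1.2 (φ v) (Finset.mem_map_of_mem φ hv)
    rw [← h2, ← Finset.card_map φ]
    congr 1
    ext z
    simp only [Finset.mem_filter, Finset.mem_map]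
    constructor
    · rintro ⟨w, ⟨hw, hvw⟩, rfl⟩
      exact ⟨⟨w, hw, rfl⟩, by rw [hc, hc, hvw]⟩
    · rintro ⟨⟨w, hw, rfl⟩, hvw⟩
      refine ⟨w, ⟨hw, ?_⟩, rfl⟩
      rw [hc, hc] at hvw
      revert hvw
      cases c v <;> cases c w <;> cases τ <;> simp

lemma switch_exists {c : V → Bool} {s : V → V → ZMod 2} {H : Finset (Finset V)} (h : Rep c s H)
    (hs : ∀ u v, s u v = s v u) (S : Finset V) (p : V → V)
    (hr : ∀ x ∈ S, ∀ y ∈ S, c x = c y ↔ c (p x) = c (p y))
    (hH : ∀ e ⊆ S, e ∈ H ↔ e.image p ∈ H) :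
    ∃ (τ : Bool) (g : V → ZMod 2), (∀ x ∈ S, c (p x) = xor (c x) τ) ∧
      ∀ x ∈ S, ∀ y ∈ S, c x ≠ c y → s (p x) (p y) = s x y + g x + g y := by
  obtain ⟨τ, hτ⟩ : ∃ τ : Bool, ∀ x ∈ S, c (p x) = xor (c x) τ := by
    rcases S.eq_empty_or_nonempty with rfl | ⟨x0, hx0⟩
    · exact ⟨false, by simp⟩
    · refine ⟨xor (c x0) (c (p x0)), fun x hx => ?_⟩
      have := hr x hx x0 hx0
      revert this
      cases c x <;> cases c x0 <;> cases c (p x) <;> cases c (p x0) <;> simp
  by_cases h0 : (∃ a0 ∈ S, c a0 = false) ∧ (∃ b0 ∈ S, c b0 = true)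
  · obtain ⟨⟨a0, ma0, ha0⟩, ⟨b0, mb0, hb0⟩⟩ := h0
    let d : V → V → ZMod 2 := fun x y => s (p x) (p y) + s x y
    refine ⟨τ, fun x => if c x = false then d x b0 else d a0 x + d a0 b0, hτ, ?_⟩
    have key : ∀ x ∈ S, ∀ y ∈ S, c x = false → c y = true →
        s (p x) (p y) = s x y + d x b0 + (d a0 y + d a0 b0) := by
      intro x hx y hy cx cy
      have h1 := hH {x, a0, y, b0} (by
        intro w hw
        simp only [Finset.mem_insert, Finset.mem_singleton] at hw
        rcases hw with rfl | rfl | rfl | rfl <;> assumption)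
      rw [← q_inj, h.2 x a0 y b0 cx ha0 cy hb0] at h1
      simp only [Finset.image_insert, Finset.image_singleton] at h1
      rw [h.quad hs τ _ _ _ _ (by simp [*]) (by simp [*]) (by simp [*])
        (by simp [*])] at h1
      simp only [d]
      linear_combination -h1 - z2 (s (p x) (p b0)) - z2 (s (p a0) (p y)) - z2 (s (p a0) (p b0))
    intro x hx y hy hxy
    cases cx : c x <;> cases cy : c y
    · simp [cx, cy] at hxy
    · simpa [cx, cy] using key x hx y hy cx cy
    · have := key y hy x hx cy cx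
      simp only [cx, cy, if_true, Bool.true_eq_false, if_false]
      rw [hs (p x), hs x y, this]
      ring
    · simp [cx, cy] at hxy
  · refine ⟨τ, fun _ => 0, hτ, fun x hx y hy hxy => ?_⟩
    exfalso
    apply h0
    cases cx : c x <;> cases cy : c y
    · simp [cx, cy] at hxy
    · exact ⟨⟨x, hx, cx⟩, ⟨y, hy, cy⟩⟩
    · exact ⟨⟨y, hy, cy⟩, ⟨x, hx, cx⟩⟩
    · simp [cx, cy] at hxy

/-- The vertex set of the witness. -/
abbrev Wt (V : Type) := V × Bool × (V → ZMod 2)

def sW (u v : Wt V) : ZMod 2 := u.2.2 v.1 + v.2.2 u.1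

def chi (c : V → Bool) (s : V → V → ZMod 2) (x : V) : V → ZMod 2 :=
  fun y => if c x = false then s x y else 0

def emb (c : V → Bool) (s : V → V → ZMod 2) : V ↪ Wt V :=
  ⟨fun x => (x, c x, chi c s x), fun _ _ h => congrArg Prod.fst h⟩

lemma chi_add (c : V → Bool) (s : V → V → ZMod 2) (hs : ∀ u v, s u v = s v u) (x y : V)
    (h : c x ≠ c y) : chi c s x y + chi c s y x = s x y := by
  unfold chi
  cases cx : c x <;> cases cy : c y
  · simp [cx, cy] at h
  · simp
  · simp [hs y x]
  · simp [cx, cy] at h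

lemma sign_eppa [Fintype V] (c : V → Bool) (s : V → V → ZMod 2) (hs : ∀ u v, s u v = s v u)
    (S : Finset V) (p : V → V) (hp : Set.InjOn p (S : Set V)) (τ : Bool) (g : V → ZMod 2)
    (hc : ∀ x ∈ S, c (p x) = xor (c x) τ)
    (hg : ∀ x ∈ S, ∀ y ∈ S, c x ≠ c y → s (p x) (p y) = s x y + g x + g y) :
    ∃ (σ : Wt V ≃ Wt V) (G : Wt V → ZMod 2), (∀ w, (σ w).2.1 = xor w.2.1 τ) ∧
      (∀ u v, u.2.1 ≠ v.2.1 → sW (σ u) (σ v) = sW u v + G u + G v) ∧
      ∀ x ∈ S, σ (emb c s x) = emb c s (p x) := by
  obtain ⟨π, hπ⟩ := Equiv.Perm.exists_extending_pair (f := fun x : S => (x : V))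
    (g := fun x : S => p x) Subtype.val_injective
    (fun x y hxy => Subtype.ext (hp x.2 y.2 hxy))
  have hπ' : ∀ x ∈ S, π x = p x := fun x hx => hπ ⟨x, hx⟩
  let D : V → V → ZMod 2 := fun x y => chi c s (π x) (π y) + chi c s x y
  let F : V → Bool → V → ZMod 2 := fun x i y =>
    if x ∈ S ∧ i = c x then D x y else if y ∈ S ∧ (!i) = c y then D y x + g y else 0
  let m : Wt V → Wt V := fun w =>
    (π w.1, xor w.2.1 τ, fun z => w.2.2 (π.symm z) + F w.1 w.2.1 (π.symm z))
  have hm : Function.Injective m := by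
    rintro ⟨x, i, χ⟩ ⟨y, j, ψ⟩ h
    simp only [m, Prod.mk.injEq] at h
    obtain ⟨h1, h2, h3⟩ := h
    obtain rfl := π.injective h1
    have : i = j := by
      revert h2
      cases i <;> cases j <;> cases τ <;> simp
    subst this
    have : χ = ψ := by
      funext z
      have := congrFun h3 (π z)
      simpa using this
    rw [this]
  refine ⟨Equiv.ofBijective m (Finite.injective_iff_bijective.1 hm),
    fun w => if w.1 ∈ S ∧ w.2.1 = c w.1 then g w.1 else 0, fun w => rfl, ?_, ?_⟩
  · rintro ⟨x, i, χ⟩ ⟨y, j, ψ⟩ hij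
    have hj : j = !i := by
      revert hij
      cases i <;> cases j <;> simp
    subst hj
    simp only [Equiv.ofBijective_apply, sW, m, Equiv.symm_apply_apply, F, Bool.not_not]
    by_cases h1 : x ∈ S ∧ i = c x <;> by_cases h2 : y ∈ S ∧ (!i) = c y
    · rw [if_pos h1, if_pos h2, if_pos h1, if_pos h2]
      simp only [D]
      have hne : c x ≠ c y := by
        rw [← h1.2, ← h2.2]
        cases i <;> simp
      have hne' : c (p x) ≠ c (p y) := by
        rw [hc x h1.1, hc y h2.1]
        revert hne
        cases c x <;> cases c y <;> cases τ <;> simp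
      have k1 := chi_add c s hs x y hne
      have k2 := chi_add c s hs _ _ hne'
      have k3 := hg x h1.1 y h2.1 hne
      rw [hπ' x h1.1, hπ' y h2.1]
      linear_combination k1 + k2 + k3 + z2 (s x y)
    · rw [if_pos h1, if_neg h2, if_pos h1, if_pos h1, if_neg h2]
      linear_combination z2 (D x y)
    · rw [if_neg h1, if_pos h2, if_pos h2, if_neg h1, if_pos h2]
      linear_combination z2 (D y x)
    · rw [if_neg h1, if_neg h2, if_neg h2, if_neg h1, if_neg h1, if_neg h2]
      ring
  · intro x hx
    change m (x, c x, chi c s x) = (p x, c (p x), chi c s (p x))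
    simp only [m, Prod.mk.injEq]
    refine ⟨hπ' x hx, (hc x hx).symm, ?_⟩
    funext z
    simp only [F, hx, true_and, if_true, D, Equiv.apply_symm_apply, hπ' x hx]
    linear_combination z2 (chi c s x (π.symm z))

end Pool.Agent.H33.ThreeGraph
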