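import Mathlib

set_option autoImplicit false
set_option linter.unusedTactic false

namespace Pool.Agent.H33.Twisted

def fac : Fin 7 → Finset (Fin 6) :=
  ![{3, 4, 5}, {0, 3, 4}, {1, 4, 5}, {2, 3, 5}, {0, 1, 4}, {1, 2, 5}, {0, 2, 3}]

def nz : Fin 7 → Fin 3 → Fin 6 :=
  ![![0, 1, 2], ![1, 2, 5], ![0, 2, 3], ![0, 1, 4], ![2, 3, 5], ![0, 3, 4], ![1, 4, 5]]

lemma nz_not : ∀ j i, nz j i ∉ fac j := by decide +kernel

/-- `(s, t)` is a convex combination of the points indexed by `S`. -/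
def W (S : Finset (Fin 6)) (s t : ℝ) : Prop :=
  ∃ w : Fin 6 → ℝ, (∀ i, 0 ≤ w i) ∧ (∀ i ∉ S, w i = 0) ∧ w 0 + w 1 + w 2 + w 3 + w 4 + w 5 = 1 ∧
    12 * w 1 + 3 * w 3 + 2 * w 4 + 7 * w 5 = s ∧ 12 * w 2 + 7 * w 3 + 3 * w 4 + 2 * w 5 = t

lemma leaf0 (s t : ℝ) (h1 : 0 ≤ (1/21) * s + (5/21) * t + (-17/21)) (h2 : 0 ≤ (-5/21) * s + (-4/21) * t + (43/21))
    (h3 : 0 ≤ (4/21) * s + (-1/21) * t + (-5/21)) : W (fac 0) s t := by
  refine ⟨![0,
    0,
    0,
    (1/21) * s + (5/21) * t + (-17/21),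
    (-5/21) * s + (-4/21) * t + (43/21),
    (4/21) * s + (-1/21) * t + (-5/21)], ?_, ?_, ?_, ?_, ?_⟩
  · intro i
    fin_cases i <;> first | exact le_rfl | exact h1 | exact h2 | exact h3
  · intro i hi
    fin_cases i <;> first | rfl | exact absurd (by decide) hi
  all_goals
    simp only [Matrix.cons_val]
    ring

lemma leaf1 (s t : ℝ) (h1 : 0 ≤ (-4/5) * s + (1/5) * t + (1)) (h2 : 0 ≤ (-3/5) * s + (2/5) * t + (0))
    (h3 : 0 ≤ (7/5) * s + (-3/5) * t + (0)) : W (fac 1) s t := by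
  refine ⟨![(-4/5) * s + (1/5) * t + (1),
    0,
    0,
    (-3/5) * s + (2/5) * t + (0),
    (7/5) * s + (-3/5) * t + (0),
    0], ?_, ?_, ?_, ?_, ?_⟩
  · intro i
    fin_cases i <;> first | exact le_rfl | exact h1 | exact h2 | exact h3
  · intro i hi
    fin_cases i <;> first | rfl | exact absurd (by decide) hi
  all_goals
    simp only [Matrix.cons_val]
    ring

lemma leaf2 (s t : ℝ) (h1 : 0 ≤ (-1/5) * s + (-1) * t + (17/5)) (h2 : 0 ≤ (-2/5) * s + (-1) * t + (24/5))
    (h3 : 0 ≤ (3/5) * s + (2) * t + (-36/5)) : W (fac 2) s t := by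
  refine ⟨![0,
    (-1/5) * s + (-1) * t + (17/5),
    0,
    0,
    (-2/5) * s + (-1) * t + (24/5),
    (3/5) * s + (2) * t + (-36/5)], ?_, ?_, ?_, ?_, ?_⟩
  · intro i
    fin_cases i <;> first | exact le_rfl | exact h1 | exact h2 | exact h3
  · intro i hi
    fin_cases i <;> first | rfl | exact absurd (by decide) hi
  all_goals
    simp only [Matrix.cons_val]
    ring

lemma leaf3 (s t : ℝ) (h1 : 0 ≤ (1) * s + (4/5) * t + (-43/5)) (h2 : 0 ≤ (-2) * s + (-7/5) * t + (84/5))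
    (h3 : 0 ≤ (1) * s + (3/5) * t + (-36/5)) : W (fac 3) s t := by
  refine ⟨![0,
    0,
    (1) * s + (4/5) * t + (-43/5),
    (-2) * s + (-7/5) * t + (84/5),
    0,
    (1) * s + (3/5) * t + (-36/5)], ?_, ?_, ?_, ?_, ?_⟩
  · intro i
    fin_cases i <;> first | exact le_rfl | exact h1 | exact h2 | exact h3
  · intro i hi
    fin_cases i <;> first | rfl | exact absurd (by decide) hi
  all_goals
    simp only [Matrix.cons_val]
    ring

lemma leaf4 (s t : ℝ) (h1 : 0 ≤ (-1/12) * s + (-5/18) * t + (1)) (h2 : 0 ≤ (1/12) * s + (-1/18) * t + (0))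
    (h3 : 0 ≤ (0) * s + (1/3) * t + (0)) : W (fac 4) s t := by
  refine ⟨![(-1/12) * s + (-5/18) * t + (1),
    (1/12) * s + (-1/18) * t + (0),
    0,
    0,
    (0) * s + (1/3) * t + (0),
    0], ?_, ?_, ?_, ?_, ?_⟩
  · intro i
    fin_cases i <;> first | exact le_rfl | exact h1 | exact h2 | exact h3
  · intro i hi
    fin_cases i <;> first | rfl | exact absurd (by decide) hi
  all_goals
    simp only [Matrix.cons_val]
    ring

lemma leaf5 (s t : ℝ) (h1 : 0 ≤ (5/18) * s + (7/36) * t + (-7/3)) (h2 : 0 ≤ (1/18) * s + (5/36) * t + (-2/3))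
    (h3 : 0 ≤ (-1/3) * s + (-1/3) * t + (4)) : W (fac 5) s t := by
  refine ⟨![0,
    (5/18) * s + (7/36) * t + (-7/3),
    (1/18) * s + (5/36) * t + (-2/3),
    0,
    0,
    (-1/3) * s + (-1/3) * t + (4)], ?_, ?_, ?_, ?_, ?_⟩
  · intro i
    fin_cases i <;> first | exact le_rfl | exact h1 | exact h2 | exact h3
  · intro i hi
    fin_cases i <;> first | rfl | exact absurd (by decide) hi
  all_goals
    simp only [Matrix.cons_val]
    ring

lemma leaf6 (s t : ℝ) (h1 : 0 ≤ (-5/36) * s + (-1/12) * t + (1)) (h2 : 0 ≤ (-7/36) * s + (1/12) * t + (0))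
    (h3 : 0 ≤ (1/3) * s + (0) * t + (0)) : W (fac 6) s t := by
  refine ⟨![(-5/36) * s + (-1/12) * t + (1),
    0,
    (-7/36) * s + (1/12) * t + (0),
    (1/3) * s + (0) * t + (0),
    0,
    0], ?_, ?_, ?_, ?_, ?_⟩
  · intro i
    fin_cases i <;> first | exact le_rfl | exact h1 | exact h2 | exact h3
  · intro i hi
    fin_cases i <;> first | rfl | exact absurd (by decide) hi
  all_goals
    simp only [Matrix.cons_val]
    ring

lemma cover (s t : ℝ) (hs : 0 ≤ s) (ht : 0 ≤ t) (hst : s + t ≤ 12) : ∃ j, W (fac j) s t := by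
  rcases le_total 0 ((4) * s + (-1) * t + (-5)) with k1 | k1
  · skip
    rcases le_total 0 ((1) * s + (5) * t + (-17)) with k2 | k2
    · skip
      rcases le_total 0 ((5) * s + (4) * t + (-43)) with k3 | k3
      · skip
        rcases le_total 0 ((10) * s + (7) * t + (-84)) with k4 | k4
        · skip
          exact ⟨5, leaf5 s t (by linarith) (by linarith) (by linarith)⟩
        · skip
          exact ⟨3, leaf3 s t (by linarith) (by linarith) (by linarith)⟩
      · skip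
        exact ⟨0, leaf0 s t (by linarith) (by linarith) (by linarith)⟩
    · skip
      rcases le_total 0 ((-3) * s + (-10) * t + (36)) with k5 | k5
      · skip
        exact ⟨4, leaf4 s t (by linarith) (by linarith) (by linarith)⟩
      · skip
        rcases le_total 0 ((-2) * s + (-5) * t + (24)) with k6 | k6
        · skip
          exact ⟨2, leaf2 s t (by linarith) (by linarith) (by linarith)⟩
        · skip
          exact ⟨5, leaf5 s t (by linarith) (by linarith) (by linarith)⟩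
  · skip
    rcases le_total 0 ((-7) * s + (3) * t + (0)) with k7 | k7
    · skip
      rcases le_total 0 ((10) * s + (7) * t + (-84)) with k8 | k8
      · skip
        exact ⟨5, leaf5 s t (by linarith) (by linarith) (by linarith)⟩
      · skip
        rcases le_total 0 ((5) * s + (3) * t + (-36)) with k9 | k9
        · skip
          exact ⟨3, leaf3 s t (by linarith) (by linarith) (by linarith)⟩
        · skip
          exact ⟨6, leaf6 s t (by linarith) (by linarith) (by linarith)⟩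
    · skip
      rcases le_total 0 ((-3) * s + (2) * t + (0)) with k10 | k10
      · skip
        exact ⟨1, leaf1 s t (by linarith) (by linarith) (by linarith)⟩
      · skip
        exact ⟨4, leaf4 s t (by linarith) (by linarith) (by linarith)⟩

lemma uniq (j k : Fin 7) (w v : Fin 6 → ℝ) (hw : ∀ i, 0 ≤ w i) (hv : ∀ i, 0 ≤ v i)
    (zw : ∀ i ∉ fac j, w i = 0) (zv : ∀ i ∉ fac k, v i = 0)
    (e1 : w 0 + w 1 + w 2 + w 3 + w 4 + w 5 = v 0 + v 1 + v 2 + v 3 + v 4 + v 5)
    (e2 : 12 * w 1 + 3 * w 3 + 2 * w 4 + 7 * w 5 = 12 * v 1 + 3 * v 3 + 2 * v 4 + 7 * v 5)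
    (e3 : 12 * w 2 + 7 * w 3 + 3 * w 4 + 2 * w 5 = 12 * v 2 + 7 * v 3 + 3 * v 4 + 2 * v 5) :
    w = v := by
  have a0 := zw _ (nz_not j 0)
  have a1 := zw _ (nz_not j 1)
  have a2 := zw _ (nz_not j 2)
  have b0 := zv _ (nz_not k 0)
  have b1 := zv _ (nz_not k 1)
  have b2 := zv _ (nz_not k 2)
  have w0 := hw 0
  have w1 := hw 1
  have w2 := hw 2
  have w3 := hw 3
  have w4 := hw 4
  have w5 := hw 5
  have v0 := hv 0
  have v1 := hv 1
  have v2 := hv 2
  have v3 := hv 3
  have v4 := hv 4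
  have v5 := hv 5
  have key : w 0 = v 0 ∧ w 1 = v 1 ∧ w 2 = v 2 ∧ w 3 = v 3 ∧ w 4 = v 4 ∧ w 5 = v 5 := by
    clear hw hv zw zv
    fin_cases j <;> fin_cases k <;>
      simp only [nz, Fin.zero_eta, Fin.mk_one, Fin.reduceFinMk, Matrix.cons_val, Fin.isValue]
        at a0 a1 a2 b0 b1 b2 <;>
      refine ⟨?_, ?_, ?_, ?_, ?_, ?_⟩ <;> linarith
  funext i
  fin_cases i <;> simp [key]

end Pool.Agent.H33.Twisted
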