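import Pool.Agent.H33.Twisted

set_option autoImplicit false

namespace Pool.Agent.H33.Twisted
open MvPolynomial

abbrev E := EuclideanSpace ℝ (Fin 2)

def px : Fin 6 → ℤ := ![0, 12, 0, 3, 2, 7]
def py : Fin 6 → ℤ := ![0, 0, 12, 7, 3, 2]

noncomputable def p (i : Fin 6) : E := WithLp.toLp 2 ![(px i : ℝ), (py i : ℝ)]
noncomputable def x0 : E := WithLp.toLp 2 ![4, 4]

@[simp] lemma p0 (i : Fin 6) : p i 0 = px i := rfl
@[simp] lemma p1 (i : Fin 6) : p i 1 = py i := rfl
@[simp] lemma x00 : x0 0 = 4 := rfl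
@[simp] lemma x01 : x0 1 = 4 := rfl

lemma ext2 {y z : E} (h0 : y 0 = z 0) (h1 : y 1 = z 1) : y = z := by
  ext i
  fin_cases i
  · exact h0
  · exact h1

lemma comb0 (w : Fin 6 → ℝ) : (∑ i, w i • p i) 0 = 12 * w 1 + 3 * w 3 + 2 * w 4 + 7 * w 5 := by
  simp [Fin.sum_univ_succ, px]
  ring

lemma comb1 (w : Fin 6 → ℝ) : (∑ i, w i • p i) 1 = 12 * w 2 + 7 * w 3 + 3 * w 4 + 2 * w 5 := by
  simp [Fin.sum_univ_succ, py]
  ring

lemma sum6 (w : Fin 6 → ℝ) : ∑ i, w i = w 0 + w 1 + w 2 + w 3 + w 4 + w 5 := by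
  simp [Fin.sum_univ_succ]
  ring

lemma mem_hull (S : Finset (Fin 6)) (y : E) :
    y ∈ convexHull ℝ (p '' (S : Set (Fin 6))) ↔ W S (y 0) (y 1) := by
  constructor
  · intro h
    refine convexHull_min (t := {y : E | W S (y 0) (y 1)}) ?_ ?_ h
    · rintro _ ⟨i, hi, rfl⟩
      refine ⟨Pi.single i 1, fun j => ?_, fun j hj => ?_, ?_, ?_, ?_⟩
      · rw [Pi.single_apply]
        split_ifs <;> norm_num
      · rw [Pi.single_apply, if_neg]
        rintro rfl
        exact hj hi
      all_goals fin_cases i <;> simp [px, py]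
    · rintro y ⟨w, w1, w2, w3, w4, w5⟩ z ⟨v, v1, v2, v3, v4, v5⟩ a b ha hb hab
      refine ⟨fun i => a * w i + b * v i, fun i => ?_, fun i hi => ?_, ?_, ?_, ?_⟩
      · have := w1 i
        have := v1 i
        positivity
      · simp [w2 i hi, v2 i hi]
      · linear_combination a * w3 + b * v3 + hab
      · simp only [PiLp.add_apply, PiLp.smul_apply, smul_eq_mul]
        linear_combination a * w4 + b * v4
      · simp only [PiLp.add_apply, PiLp.smul_apply, smul_eq_mul]
        linear_combination a * w5 + b * v5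
  · rintro ⟨w, w1, w2, w3, w4, w5⟩
    have hy : y = ∑ i ∈ S, w i • p i := by
      rw [Finset.sum_subset (Finset.subset_univ S) (fun i _ hi => by simp [w2 i hi])]
      exact ext2 (by rw [comb0, w4]) (by rw [comb1, w5])
    rw [hy]
    refine (convex_convexHull ℝ _).sum_mem (fun i _ => w1 i) ?_
      (fun i hi => subset_convexHull ℝ _ ⟨i, hi, rfl⟩)
    rw [Finset.sum_subset (Finset.subset_univ S) (fun i _ hi => w2 i hi), sum6, w3]

def Δ : Finset (Finset (Fin 6)) := Finset.univ.filter (fun S => ∃ j, S ⊆ fac j)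

lemma mem_Δ {S : Finset (Fin 6)} : S ∈ Δ ↔ ∃ j, S ⊆ fac j := by simp [Δ]

lemma hull_inter (S : Finset (Fin 6)) (hS : S ∈ Δ) (T : Finset (Fin 6)) (hT : T ∈ Δ) :
    convexHull ℝ (p '' (S : Set (Fin 6))) ∩ convexHull ℝ (p '' (T : Set (Fin 6))) =
      convexHull ℝ (p '' ((S ∩ T : Finset (Fin 6)) : Set (Fin 6))) := by
  obtain ⟨j, hj⟩ := mem_Δ.1 hS
  obtain ⟨k, hk⟩ := mem_Δ.1 hT
  ext y
  simp only [Set.mem_inter_iff, mem_hull]
  constructor
  · rintro ⟨⟨w, w1, w2, w3, w4, w5⟩, ⟨v, v1, v2, v3, v4, v5⟩⟩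
    have := uniq j k w v w1 v1 (fun i hi => w2 i (fun h => hi (hj h)))
      (fun i hi => v2 i (fun h => hi (hk h))) (by rw [w3, v3]) (by rw [w4, v4]) (by rw [w5, v5])
    subst this
    refine ⟨w, w1, fun i hi => ?_, w3, w4, w5⟩
    rw [Finset.mem_inter, not_and_or] at hi
    exact hi.elim (w2 i) (v2 i)
  · rintro ⟨w, w1, w2, w3⟩
    exact ⟨⟨w, w1, fun i hi => w2 i (fun h => hi (Finset.mem_inter.1 h).1), w3⟩,
      ⟨w, w1, fun i hi => w2 i (fun h => hi (Finset.mem_inter.1 h).2), w3⟩⟩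

lemma union_eq : (⋃ S ∈ Δ, convexHull ℝ (p '' (S : Set (Fin 6)))) =
    convexHull ℝ (p '' ((Finset.univ : Finset (Fin 6)) : Set (Fin 6))) := by
  ext y
  simp only [Set.mem_iUnion, mem_hull]
  constructor
  · rintro ⟨S, -, w, w1, -, w3⟩
    exact ⟨w, w1, by simp, w3⟩
  · rintro ⟨w, w1, -, w3, w4, w5⟩
    have a0 := w1 0
    have a1 := w1 1
    have a2 := w1 2
    have a3 := w1 3
    have a4 := w1 4
    have a5 := w1 5
    obtain ⟨j, hj⟩ := cover (y 0) (y 1) (by linarith) (by linarith) (by linarith)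
    exact ⟨fac j, mem_Δ.2 ⟨j, subset_rfl⟩, hj⟩

lemma x0_mem : x0 ∈ (⋃ S ∈ Δ, convexHull ℝ (p '' (S : Set (Fin 6)))) := by
  simp only [Set.mem_iUnion, mem_hull]
  obtain ⟨j, hj⟩ := cover 4 4 (by norm_num) (by norm_num) (by norm_num)
  exact ⟨fac j, mem_Δ.2 ⟨j, subset_rfl⟩, hj⟩

lemma aff_indep (S : Finset (Fin 6)) (hS : S ∈ Δ) :
    AffineIndependent ℝ (fun i : (S : Set (Fin 6)) => p i) := by
  classical
  obtain ⟨j, hj⟩ := mem_Δ.1 hS
  rw [affineIndependent_iff]
  intro s w h1 h2 e he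
  let u : Fin 6 → ℝ := fun i => ∑ a ∈ s, if a.1 = i then w a else 0
  have hu : ∀ g : Fin 6 → ℝ, ∑ i, u i * g i = ∑ a ∈ s, w a * g a := by
    intro g
    simp only [u, Finset.sum_mul]
    rw [Finset.sum_comm]
    refine Finset.sum_congr rfl (fun a _ => ?_)
    simp
  have hz : ∀ i ∉ fac j, u i = 0 := by
    intro i hi
    refine Finset.sum_eq_zero (fun a _ => if_neg ?_)
    rintro rfl
    exact hi (hj a.2)
  have k1 : ∑ i, u i * 1 = 0 := by rw [hu (fun _ => 1)]; simpa using h1
  have k2 : ∑ i, u i * (px i : ℝ) = 0 := by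
    rw [hu (fun i => (px i : ℝ))]
    have := congrArg (fun y : E => y 0) h2
    simpa using this
  have k3 : ∑ i, u i * (py i : ℝ) = 0 := by
    rw [hu (fun i => (py i : ℝ))]
    have := congrArg (fun y : E => y 1) h2
    simpa using this
  have key : (fun i => max (u i) 0) = fun i => max (-u i) 0 := by
    have m : ∀ i, max (u i) 0 = max (-u i) 0 + u i := by
      intro i
      rcases le_total 0 (u i) with h | h
      · rw [max_eq_left h, max_eq_right (by linarith)]; ring
      · rw [max_eq_right h, max_eq_left (by linarith)]; ring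
    simp [Fin.sum_univ_succ, px, py] at k1 k2 k3
    refine uniq j j _ _ (fun i => le_max_right _ _) (fun i => le_max_right _ _)
      (fun i hi => by simp [hz i hi]) (fun i hi => by simp [hz i hi]) ?_ ?_ ?_ <;>
      simp only [m] <;> linarith
  have h0 : u e.1 = 0 := by
    have := congrFun key e.1
    rcases le_total 0 (u e.1) with h | h
    · rwa [max_eq_left h, max_eq_right (by linarith)] at this
    · rw [max_eq_right h, max_eq_left (by linarith)] at this
      linarith
  have h3 : u e.1 = w e := by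
    simp only [u]
    rw [Finset.sum_eq_single e]
    · simp
    · intro b _ hb
      exact if_neg (fun h => hb (Subtype.ext h))
    · intro h
      exact absurd he h
  rw [← h3, h0]

/-- The affine function vanishing on the line through `p u` and `p v`. -/
noncomputable def L (u v : Fin 6) (y : E) : ℝ :=
  ((px v : ℝ) - px u) * (y 1 - py u) - ((py v : ℝ) - py u) * (y 0 - px u)

lemma L_of_mem (u v : Fin 6) (y : E)
    (h : y ∈ affineSpan ℝ (p '' (({u, v} : Finset (Fin 6)) : Set (Fin 6)))) : L u v y = 0 := by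
  rw [Finset.coe_pair, Set.image_pair, mem_affineSpan_pair_iff_exists_lineMap_eq] at h
  obtain ⟨r, rfl⟩ := h
  simp [L, AffineMap.lineMap_apply]
  ring

lemma mem_of_L (u v : Fin 6) (hx : px u ≠ px v) (y : E) (h : L u v y = 0) :
    y ∈ affineSpan ℝ (p '' (({u, v} : Finset (Fin 6)) : Set (Fin 6))) := by
  rw [Finset.coe_pair, Set.image_pair, mem_affineSpan_pair_iff_exists_lineMap_eq]
  have hx' : (px v : ℝ) - px u ≠ 0 := sub_ne_zero.2 (by exact_mod_cast hx.symm)
  refine ⟨(y 0 - px u) / (px v - px u), ext2 ?_ ?_⟩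
  · simp [AffineMap.lineMap_apply]
    field_simp
    ring
  · simp [AffineMap.lineMap_apply]
    field_simp
    unfold L at h
    linarith

lemma L_line (u v : Fin 6) (y z : E) (r : ℝ) :
    L u v (AffineMap.lineMap y z r) = (1 - r) * L u v y + r * L u v z := by
  simp [L, AffineMap.lineMap_apply]
  ring

lemma sopp_iff (u v : Fin 6) (hx : px u ≠ px v) (y z : E) :
    (affineSpan ℝ (p '' (({u, v} : Finset (Fin 6)) : Set (Fin 6)))).SOppSide y z ↔
      L u v y * L u v z < 0 := by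
  unfold AffineSubspace.SOppSide
  rw [AffineSubspace.wOppSide_iff_exists_wbtw]
  constructor
  · rintro ⟨⟨q, hq, r, ⟨r0, r1⟩, rfl⟩, hy, hz⟩
    have h1 := L_of_mem u v _ hq
    rw [L_line] at h1
    have h2 : L u v y ≠ 0 := fun h => hy (mem_of_L u v hx y h)
    have h3 : L u v z ≠ 0 := fun h => hz (mem_of_L u v hx z h)
    by_contra h
    push Not at h
    have h4 : 0 < L u v y * L u v z := lt_of_le_of_ne h (mul_ne_zero h2 h3).symm
    have h5 : 0 < L u v y * L u v y := mul_self_pos.2 h2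
    have h6 : (1 - r) * (L u v y * L u v y) + r * (L u v y * L u v z) = 0 := by
      linear_combination L u v y * h1
    rcases le_total r (1 / 2) with h7 | h7 <;> nlinarith
  · intro h
    have h2 : L u v y ≠ 0 := fun h' => by simp [h'] at h
    have h3 : L u v z ≠ 0 := fun h' => by simp [h'] at h
    have h5 : 0 < L u v y * L u v y := mul_self_pos.2 h2
    have h6 : 0 < L u v y * L u v y - L u v y * L u v z := by linarith
    refine ⟨⟨_, ?_, L u v y * L u v y / (L u v y * L u v y - L u v y * L u v z), ⟨?_, ?_⟩, rfl⟩,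
      fun h' => h2 (L_of_mem u v y h'), fun h' => h3 (L_of_mem u v z h')⟩
    · apply mem_of_L u v hx
      rw [L_line]
      have h7 := div_mul_cancel₀ (L u v y * L u v y) h6.ne'
      apply mul_left_cancel₀ h2
      linear_combination -h7
    · positivity
    · rw [div_le_one h6]
      linarith

lemma edge_ok : ∀ j, ∀ u ∈ fac j, ∀ v ∈ fac j, u ≠ v →
    (px v - px u) * (4 - py u) - (py v - py u) * (4 - px u) ≠ 0 := by decide +kernel

lemma generic (H : Finset (Fin 6)) (hH : H ∈ Δ) (hc : H.card + 1 = 3) :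
    x0 ∉ affineSpan ℝ (p '' (H : Set (Fin 6))) := by
  obtain ⟨u, v, huv, rfl⟩ := Finset.card_eq_two.1 (show H.card = 2 by omega)
  obtain ⟨j, hj⟩ := mem_Δ.1 hH
  intro h
  have h1 := L_of_mem u v _ h
  apply edge_ok j u (hj (by simp)) v (hj (by simp)) huv
  simp only [L, x00, x01] at h1
  exact_mod_cast h1

noncomputable def θ : Fin 3 → MvPolynomial (Fin 6) ℚ :=
  ![X 0 + X 5 + X 3, X 1 + X 4 + X 3, X 2 + X 4 + X 5]

lemma θ_hom (i : Fin 3) : (θ i).IsHomogeneous 1 := by
  fin_cases i <;>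
    exact ((isHomogeneous_X ℚ _).add (isHomogeneous_X ℚ _)).add (isHomogeneous_X ℚ _)

noncomputable def J : Ideal (MvPolynomial (Fin 6) ℚ) :=
  Ideal.span ((fun S : Finset (Fin 6) => ∏ i ∈ S, (X i : MvPolynomial (Fin 6) ℚ)) ''
    {S : Finset (Fin 6) | S ∉ Δ}) ⊔ Ideal.span (Set.range θ)

noncomputable def y (i : Fin 6) : MvPolynomial (Fin 6) ℚ ⧸ J := Ideal.Quotient.mk J (X i)

lemma nonface (S : Finset (Fin 6)) (h : S ∉ Δ) : ∏ i ∈ S, y i = 0 := by
  unfold y
  rw [← map_prod, Ideal.Quotient.eq_zero_iff_mem]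
  exact Ideal.mem_sup_left (Ideal.subset_span ⟨S, h, rfl⟩)

lemma lin (i : Fin 3) : Ideal.Quotient.mk J (θ i) = 0 := by
  rw [Ideal.Quotient.eq_zero_iff_mem]
  exact Ideal.mem_sup_right (Ideal.subset_span ⟨i, rfl⟩)

lemma r1 : y 0 + y 5 + y 3 = 0 := by simpa [θ, y] using lin 0
lemma r2 : y 1 + y 4 + y 3 = 0 := by simpa [θ, y] using lin 1
lemma r3 : y 2 + y 4 + y 5 = 0 := by simpa [θ, y] using lin 2
lemma n1 : y 0 * y 5 = 0 := by
  have := nonface {0, 5} (by decide +kernel)
  rwa [Finset.prod_pair (by decide)] at this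
lemma n2 : y 1 * y 3 = 0 := by
  have := nonface {1, 3} (by decide +kernel)
  rwa [Finset.prod_pair (by decide)] at this
lemma n3 : y 2 * y 4 = 0 := by
  have := nonface {2, 4} (by decide +kernel)
  rwa [Finset.prod_pair (by decide)] at this
lemma n4 : y 0 * (y 1 * y 2) = 0 := by
  have := nonface {0, 1, 2} (by decide +kernel)
  rwa [Finset.prod_insert (by decide), Finset.prod_pair (by decide)] at this

lemma dep : y 0 * y 3 + y 1 * y 4 + y 2 * y 5 = 0 := by
  linear_combination (y 3 - y 5) * r1 + (y 4 - y 3) * r2 + (y 5 - y 4) * r3 + n1 + n2 + n3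

lemma q1 : y 5 * y 5 + y 3 * y 5 = 0 := by linear_combination y 5 * r1 - n1
lemma q2 : y 3 * y 3 + y 3 * y 4 = 0 := by linear_combination y 3 * r2 - n2
lemma q3 : y 4 * y 4 + y 4 * y 5 = 0 := by linear_combination y 4 * r3 - n3

lemma abc : y 3 * y 4 * y 5 = 0 := by
  have e0 : y 0 = -(y 5 + y 3) := by linear_combination r1
  have e1 : y 1 = -(y 4 + y 3) := by linear_combination r2
  have e2 : y 2 = -(y 4 + y 5) := by linear_combination r3
  have h := n4
  rw [e0, e1, e2] at h
  have h2 : (2 : ℚ) • (y 3 * y 4 * y 5) = 0 := by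
    rw [two_smul]
    linear_combination (-1) * h - (y 4 + y 5) * q2 - y 3 * q1 + y 5 * q2 - y 5 * q3
  exact (smul_eq_zero.1 h2).resolve_left (by norm_num)

lemma int_of_cube (z : MvPolynomial (Fin 6) ℚ ⧸ J) (h : z ^ 3 = 0) : IsIntegral ℚ z :=
  IsIntegral.of_pow (n := 3) (by norm_num) (h ▸ isIntegral_zero)

lemma y_int (i : Fin 6) : IsIntegral ℚ (y i) := by
  have a3 : IsIntegral ℚ (y 3) := int_of_cube _ (by
    linear_combination (y 3 - y 4) * q2 + y 3 * q3 - abc)
  have a4 : IsIntegral ℚ (y 4) := int_of_cube _ (by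
    linear_combination (y 4 - y 5) * q3 + y 4 * q1 - abc)
  have a5 : IsIntegral ℚ (y 5) := int_of_cube _ (by
    linear_combination (y 5 - y 3) * q1 + y 5 * q2 - abc)
  have e0 : y 0 = -(y 5 + y 3) := by linear_combination r1
  have e1 : y 1 = -(y 4 + y 3) := by linear_combination r2
  have e2 : y 2 = -(y 4 + y 5) := by linear_combination r3
  fin_cases i
  · exact e0 ▸ (a5.add a3).neg
  · exact e1 ▸ (a4.add a3).neg
  · exact e2 ▸ (a4.add a5).neg
  · exact a3
  · exact a4
  · exact a5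

lemma fin_quot : Module.Finite ℚ (MvPolynomial (Fin 6) ℚ ⧸ J) := by
  have : Algebra.IsIntegral ℚ (MvPolynomial (Fin 6) ℚ ⧸ J) := by
    refine ⟨fun z => ?_⟩
    obtain ⟨z, rfl⟩ := Ideal.Quotient.mk_surjective z
    induction z using MvPolynomial.induction_on with
    | C a => exact isIntegral_algebraMap (x := a)
    | add a b ha hb => rw [map_add]; exact ha.add hb
    | mul_X a i ha => rw [map_mul]; exact ha.mul (y_int i)
  exact Algebra.IsIntegral.finite

open Classical in
lemma filt (a b c : Fin 6) (hab : a ≠ b) (hac : a ≠ c) (hbc : b ≠ c)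
    (xab : px a ≠ px b) (xac : px a ≠ px c) (xbc : px b ≠ px c)
    (h1 : L b c x0 * L b c (p a) < 0) (h2 : L a c x0 * L a c (p b) < 0)
    (h3 : ¬ L a b x0 * L a b (p c) < 0) :
    ({a, b, c} : Finset (Fin 6)).filter (fun v => (affineSpan ℝ (p ''
      ((({a, b, c} : Finset (Fin 6)).erase v : Finset (Fin 6)) : Set (Fin 6)))).SOppSide x0 (p v))
      = {a, b} := by
  have e1 : ({a, b, c} : Finset (Fin 6)).erase a = {b, c} := by
    ext w; simp only [Finset.mem_erase, Finset.mem_insert, Finset.mem_singleton]; grind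
  have e2 : ({a, b, c} : Finset (Fin 6)).erase b = {a, c} := by
    ext w; simp only [Finset.mem_erase, Finset.mem_insert, Finset.mem_singleton]; grind
  have e3 : ({a, b, c} : Finset (Fin 6)).erase c = {a, b} := by
    ext w; simp only [Finset.mem_erase, Finset.mem_insert, Finset.mem_singleton]; grind
  ext v
  simp only [Finset.mem_filter, Finset.mem_insert, Finset.mem_singleton]
  constructor
  · rintro ⟨rfl | rfl | rfl, h⟩
    · exact Or.inl rfl
    · exact Or.inr rfl
    · rw [e3, sopp_iff a b xab] at h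
      exact absurd h h3
  · rintro (rfl | rfl)
    · exact ⟨Or.inl rfl, by rw [e1, sopp_iff b c xbc]; exact h1⟩
    · exact ⟨Or.inr (Or.inl rfl), by rw [e2, sopp_iff a c xac]; exact h2⟩

end Pool.Agent.H33.Twisted
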