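import Mathlib

set_option autoImplicit false

namespace Pool.Agent.H33.TwoSpheres
open Set Topology

abbrev T := AddCircle (2 : ℝ)

lemma cov : IsCoveringMap ((↑) : ℝ → T) := AddCircle.isCoveringMap_coe 2

lemma quot {A B : Type} [TopologicalSpace A] [TopologicalSpace B] [CompactSpace A] [T2Space B]
    {f : A → B} (hc : Continuous f) (hs : Function.Surjective f) : IsQuotientMap f :=
  hc.isClosedMap.isQuotientMap hc hs

/-- If every map to the circle lifts to the line, the space is unicoherent. -/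
lemma unicoherent {Y : Type} [MetricSpace Y] [ConnectedSpace Y]
    (hl : ∀ g : Y → T, Continuous g → ∃ H : Y → ℝ, Continuous H ∧ ∀ y, (H y : T) = g y)
    (A B : Set Y) (hA : IsClosed A) (hB : IsClosed B) (cA : IsConnected A) (cB : IsConnected B)
    (hU : A ∪ B = univ) : IsConnected (A ∩ B) := by
  classical
  constructor
  · have := isPreconnected_closed_iff.1 (isPreconnected_univ (α := Y)) A B hA hB hU.ge
      (by simpa using cA.nonempty) (by simpa using cB.nonempty)
    simpa using this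
  rw [isPreconnected_iff_subset_of_fully_disjoint_closed (hA.inter hB)]
  intro C D hC hD hsub hdis
  by_contra hn
  rw [not_or, not_subset, not_subset] at hn
  obtain ⟨⟨d, hd, hdC⟩, ⟨c, hc, hcD⟩⟩ := hn
  obtain ⟨u, u0, u1, -⟩ := exists_continuous_zero_one_of_isClosed hC hD hdis
  have hco : Continuous ((↑) : ℝ → T) := cov.continuous
  have agree : ∀ y ∈ A ∩ B, ((u y : ℝ) : T) = ((-u y : ℝ) : T) := by
    intro y hy
    rcases hsub hy with h | h
    · simp [u0 h]
    · rw [u1 h, ← AddCircle.coe_add_period (2 : ℝ) (-(1 : Y → ℝ) y)]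
      norm_num
  let g : Y → T := fun y => if y ∈ A then ((u y : ℝ) : T) else ((-u y : ℝ) : T)
  have gA : ∀ y ∈ A, g y = ((u y : ℝ) : T) := fun y hy => if_pos hy
  have gB : ∀ y ∈ B, g y = ((-u y : ℝ) : T) := by
    intro y hy
    by_cases h : y ∈ A
    · rw [gA y h, agree y ⟨h, hy⟩]
    · exact if_neg h
  have hg : Continuous g := by
    rw [← continuousOn_univ, ← hU]
    exact ContinuousOn.union_of_isClosed
      ((hco.comp u.continuous).continuousOn.congr gA)
      ((hco.comp u.continuous.neg).continuousOn.congr gB) hA hB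
  obtain ⟨H, hH, hH'⟩ := hl g hg
  have k1 := cov.constOn_of_comp (g := fun y => H y - u y) cA.isPreconnected
    (hH.sub u.continuous).continuousOn (fun a ha b hb => by
      rw [AddCircle.coe_sub, AddCircle.coe_sub, hH', hH', gA a ha, gA b hb, sub_self, sub_self])
    hc.1 hd.1
  have k2 := cov.constOn_of_comp (g := fun y => H y - -u y) cB.isPreconnected
    (hH.sub u.continuous.neg).continuousOn (fun a ha b hb => by
      rw [AddCircle.coe_sub, AddCircle.coe_sub, hH', hH', gB a ha, gB b hb, sub_self, sub_self])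
    hc.2 hd.2
  have e0 : u c = 0 := u0 ((hsub hc).resolve_right hcD)
  have e1 : u d = 1 := u1 ((hsub hd).resolve_left hdC)
  simp only [e0, e1] at k1 k2
  linarith

abbrev D : Type := Metric.closedBall (0 : ℂ) 1

lemma convD : Convex ℝ (Metric.closedBall (0 : ℂ) 1) := convex_closedBall _ _

instance : ContractibleSpace D := convD.contractibleSpace ⟨0, by simp⟩
instance : LocallyPathConnectedSpace D := convD.locallyPathConnectedSpace

def one : D := ⟨1, by simp⟩
def ng (u : D) : D := ⟨-u.1, by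
  have := u.2
  rwa [mem_closedBall_zero_iff, ← norm_neg, ← mem_closedBall_zero_iff] at this⟩

lemma lift_disc (G : D → T) (hG : Continuous G) (hs : ∀ u : D, ‖u.1‖ = 1 → G (ng u) = G u)
    (e : ℝ) (he : (e : T) = G one) : ∃ h : D → ℝ, Continuous h ∧ h one = e ∧
      (∀ u, (h u : T) = G u) ∧ ∀ u : D, ‖u.1‖ = 1 → h (ng u) = h u := by
  obtain ⟨h, ⟨h1, h2⟩, -⟩ := cov.existsUnique_continuousMap_lifts ⟨G, hG⟩ one e he
  have h3 : ∀ u, (h u : T) = G u := fun u => congrFun h2 u
  refine ⟨h, h.continuous, h1, h3, fun u hu => ?_⟩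
  have hpre : IsPreconnected {u : D | ‖u.1‖ = 1} := by
    rw [← IsInducing.subtypeVal.isPreconnected_image]
    have : Subtype.val '' {u : D | ‖u.1‖ = 1} = Metric.sphere (0 : ℂ) 1 := by
      ext z
      simp only [mem_image, mem_ofPred_eq, mem_sphere_iff_norm, sub_zero]
      exact ⟨fun ⟨u, hu, hz⟩ => hz ▸ hu, fun hz => ⟨⟨z, by simp [hz]⟩, hz, rfl⟩⟩
    rw [this]
    exact (isConnected_sphere (by simp) 0 zero_le_one).isPreconnected
  have hn : Continuous ng := continuous_subtype_val.neg.subtype_mk _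
  have k := cov.constOn_of_comp (g := fun u => h (ng u) - h u) hpre
    ((h.continuous.comp hn).sub h.continuous).continuousOn (fun a ha b hb => by
      rw [AddCircle.coe_sub, AddCircle.coe_sub, h3, h3, h3, h3, hs a ha, hs b hb, sub_self,
        sub_self])
    (a := u) (a' := ng u) hu (by simpa [ng] using hu)
  have : ng (ng u) = u := Subtype.ext (neg_neg _)
  simp only [this] at k
  linarith

abbrev V := Fin 5 → ℝ

noncomputable def ht (e : Bool) (u : D) : ℝ := cond e (1 - ‖u.1‖) (-(1 - ‖u.1‖))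

/-- Four discs forming two spheres that share the two points `(1,0,0,0,0)` and `(-1,0,0,0,0)`. -/
noncomputable def Φ (p : Bool × Bool × D) : V :=
  cond p.1 ![p.2.2.1.re, p.2.2.1.im, ht p.2.1 p.2.2, 0, 0]
    ![p.2.2.1.re, 0, 0, p.2.2.1.im, ht p.2.1 p.2.2]

lemma Φ_cont : Continuous Φ := by
  rw [continuous_prod_of_discrete_left]
  intro s
  rw [continuous_prod_of_discrete_left]
  intro e
  cases s <;> cases e <;> simp only [Φ, ht, cond_true, cond_false] <;> fun_prop

lemma Φ_neg (s e : Bool) (u : D) : Φ (s, !e, ng u) = -Φ (s, e, u) := by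
  funext i
  cases s <;> cases e <;> fin_cases i <;> simp [Φ, ht, ng]

lemma Φ_bd (s e e' : Bool) (u : D) (h : ‖u.1‖ = 1) : Φ (s, e, u) = Φ (s, e', u) := by
  funext i
  cases s <;> cases e <;> cases e' <;> fin_cases i <;> simp [Φ, ht, h]

lemma Φ_same {s e e' : Bool} {u u' : D} (h : Φ (s, e, u) = Φ (s, e', u')) :
    u = u' ∧ (e = e' ∨ ‖u.1‖ = 1) := by
  have h0 := congrFun h 0
  have h1 := congrFun h 1
  have h2 := congrFun h 2
  have h3 := congrFun h 3
  have h4 := congrFun h 4
  have hu : u = u' := by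
    cases s <;> simp [Φ] at h0 h1 h3 <;> exact Subtype.ext (Complex.ext h0 ‹_›)
  subst hu
  refine ⟨rfl, ?_⟩
  cases s <;> cases e <;> cases e' <;> simp [Φ, ht] at h2 h4 ⊢ <;> linarith

lemma Φ_diff {e e' : Bool} {u u' : D} (h : Φ (true, e, u) = Φ (false, e', u')) :
    u = u' ∧ (u = one ∨ u = ng one) := by
  have h0 := congrFun h 0
  have h1 := congrFun h 1
  have h2 := congrFun h 2
  have h3 := congrFun h 3
  simp [Φ] at h0 h1 h2 h3
  have hn : ‖u.1‖ = 1 := by
    cases e <;> simp [ht] at h2 <;> linarith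
  refine ⟨Subtype.ext (Complex.ext h0 (h1.trans h3)), ?_⟩
  have h5 : |u.1.re| = 1 := (Complex.abs_re_eq_norm.2 h1).trans hn
  rcases abs_eq (zero_le_one) |>.1 h5 with h6 | h6
  · left
    exact Subtype.ext (Complex.ext (by simpa [one] using h6) (by simpa [one] using h1))
  · right
    exact Subtype.ext (Complex.ext (by simpa [one, ng] using h6) (by simpa [one, ng] using h1))

lemma Φ_ne (p : Bool × Bool × D) : Φ p ≠ 0 := by
  obtain ⟨s, e, u⟩ := p
  intro h
  have h0 := congrFun h 0
  have h1 := congrFun h 1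
  have h2 := congrFun h 2
  have h3 := congrFun h 3
  have h4 := congrFun h 4
  have hu : u.1 = 0 := by
    cases s <;> simp [Φ] at h0 h1 h3 <;> exact Complex.ext h0 ‹_›
  cases s <;> cases e <;> simp [Φ, ht, hu] at h2 h4

abbrev X : Type := range Φ

noncomputable def φ (p : Bool × Bool × D) : X := ⟨Φ p, p, rfl⟩

lemma φ_cont : Continuous φ := Φ_cont.subtype_mk _
lemma φ_surj : Function.Surjective φ := fun ⟨_, p, hp⟩ => ⟨p, Subtype.ext hp⟩

lemma co (i : Fin 5) : Continuous (fun x : X => x.1 i) :=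
  (continuous_apply i).comp continuous_subtype_val

instance : CompactSpace X := isCompact_iff_compactSpace.1 (isCompact_range Φ_cont)
instance : LocallyConnectedSpace X := (quot φ_cont φ_surj).isCoinducing.locallyConnectedSpace

def A (s : Bool) : Set X := range (fun u => φ (s, true, u)) ∪ range (fun u => φ (s, false, u))

lemma φ_one (s e s' e' : Bool) : φ (s, e, one) = φ (s', e', one) := by
  apply Subtype.ext
  funext i
  cases s <;> cases e <;> cases s' <;> cases e' <;> fin_cases i <;> simp [φ, Φ, ht, one]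

lemma φ_none (s e s' e' : Bool) : φ (s, e, ng one) = φ (s', e', ng one) := by
  apply Subtype.ext
  funext i
  cases s <;> cases e <;> cases s' <;> cases e' <;> fin_cases i <;> simp [φ, Φ, ht, one, ng]

lemma φ_cont' (s e : Bool) : Continuous (fun u => φ (s, e, u)) := φ_cont.comp (by fun_prop)

lemma A_closed (s : Bool) : IsClosed (A s) :=
  (isCompact_range (φ_cont' s true)).isClosed.union (isCompact_range (φ_cont' s false)).isClosed

lemma A_conn (s : Bool) : IsConnected (A s) :=
  IsConnected.union ⟨φ (s, true, one), ⟨one, rfl⟩, ⟨one, φ_one _ _ _ _⟩⟩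
    (isConnected_range (φ_cont' s true)) (isConnected_range (φ_cont' s false))

lemma mem_A {s : Bool} {x : X} : x ∈ A s ↔ ∃ e u, φ (s, e, u) = x := by
  constructor
  · rintro (⟨u, h⟩ | ⟨u, h⟩)
    · exact ⟨_, u, h⟩
    · exact ⟨_, u, h⟩
  · rintro ⟨e, u, h⟩
    cases e
    · exact Or.inr ⟨u, h⟩
    · exact Or.inl ⟨u, h⟩

lemma A_union : A true ∪ A false = univ := by
  rw [eq_univ_iff_forall]
  intro x
  obtain ⟨⟨s, e, u⟩, rfl⟩ := φ_surj x
  cases s
  · exact Or.inr (mem_A.2 ⟨e, u, rfl⟩)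
  · exact Or.inl (mem_A.2 ⟨e, u, rfl⟩)

instance : ConnectedSpace X := by
  rw [connectedSpace_iff_univ, ← A_union]
  exact IsConnected.union ⟨φ (true, true, one), mem_A.2 ⟨_, _, rfl⟩, mem_A.2 ⟨true, _, φ_one _ _ _ _⟩⟩
    (A_conn _) (A_conn _)

lemma A_inter : ¬ IsConnected (A true ∩ A false) := by
  intro h
  have hc := co 0
  obtain ⟨x, ⟨h1, h2⟩, hx⟩ := h.isPreconnected.intermediate_value
    (a := φ (true, true, ng one)) (b := φ (true, true, one))
    ⟨mem_A.2 ⟨_, _, rfl⟩, mem_A.2 ⟨true, _, φ_none _ _ _ _⟩⟩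
    ⟨mem_A.2 ⟨_, _, rfl⟩, mem_A.2 ⟨true, _, φ_one _ _ _ _⟩⟩ hc.continuousOn
    (show (0 : ℝ) ∈ _ by simp [φ, Φ, one, ng])
  obtain ⟨e, u, rfl⟩ := mem_A.1 h1
  obtain ⟨e', u', h3⟩ := mem_A.1 h2
  rcases (Φ_diff (congrArg Subtype.val h3).symm).2 with rfl | rfl <;>
    simp [φ, Φ, one, ng] at hx

def ν (x : X) : Fin 5 → Fin 5 → ℝ := fun i j => x.1 i * x.1 j

lemma ν_eq {x y : X} (h : ν x = ν y) : x.1 = y.1 ∨ x.1 = -y.1 := by
  obtain ⟨i, hi⟩ : ∃ i, x.1 i ≠ 0 := by
    obtain ⟨p, rfl⟩ := φ_surj x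
    exact Function.ne_iff.1 (Φ_ne p)
  have h1 : ∀ j, x.1 i * x.1 j = y.1 i * y.1 j := fun j => congrFun (congrFun h i) j
  rcases mul_self_eq_mul_self_iff.1 (h1 i) with h2 | h2
  · left
    funext j
    exact mul_left_cancel₀ hi (by rw [h1 j, h2])
  · right
    funext j
    exact mul_left_cancel₀ hi (by rw [h1 j, h2]; simp)

abbrev Y : Type := range ν

def f (x : X) : Y := ⟨ν x, x, rfl⟩

lemma f_cont : Continuous f := Continuous.subtype_mk (continuous_pi fun i => continuous_pi fun j => (co i).mul (co j)) _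
lemma f_surj : Function.Surjective f := fun ⟨_, p, hp⟩ => ⟨p, Subtype.ext hp⟩

def nx (x : X) : X := ⟨-x.1, by
  obtain ⟨⟨s, e, u⟩, rfl⟩ := φ_surj x
  exact ⟨_, Φ_neg s e u⟩⟩

lemma f_nx (x : X) : f (nx x) = f x := by
  apply Subtype.ext
  funext i j
  simp [f, ν, nx]

lemma f_eq {x y : X} (h : f x = f y) : x = y ∨ x = nx y :=
  (ν_eq (congrArg Subtype.val h)).imp Subtype.ext Subtype.ext

lemma f_open : IsOpenMap f := by
  intro W hW
  rw [← (quot f_cont f_surj).isOpen_preimage]
  have : f ⁻¹' (f '' W) = W ∪ nx ⁻¹' W := by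
    ext x
    constructor
    · rintro ⟨w, hw, h⟩
      rcases f_eq h with rfl | rfl
      · exact Or.inl hw
      · exact Or.inr hw
    · rintro (h | h)
      · exact ⟨x, h, rfl⟩
      · exact ⟨nx x, h, f_nx x⟩
  rw [this]
  exact hW.union (hW.preimage (continuous_subtype_val.neg.subtype_mk _))

lemma f_loc : IsLocalHomeomorph f := by
  rw [isLocalHomeomorph_iff_isOpenEmbedding_restrict]
  intro x
  obtain ⟨i, hi⟩ : ∃ i, x.1 i ≠ 0 := by
    obtain ⟨p, rfl⟩ := φ_surj x
    exact Function.ne_iff.1 (Φ_ne p)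
  have hU : IsOpen {z : X | 0 < z.1 i * x.1 i} := isOpen_lt continuous_const ((co i).mul continuous_const)
  refine ⟨_, hU.mem_nhds (mul_self_pos.2 hi), ?_⟩
  refine IsOpenEmbedding.of_continuous_injective_isOpenMap (f_cont.comp continuous_subtype_val) ?_
    (f_open.comp hU.isOpenMap_subtype_val)
  rintro ⟨a, ha⟩ ⟨b, hb⟩ h
  rcases f_eq h with rfl | rfl
  · rfl
  · simp only [mem_ofPred_eq, nx, Pi.neg_apply] at ha hb
    linarith

instance : ConnectedSpace Y := f_surj.connectedSpace f_cont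

lemma nx_φ (s e : Bool) (u : D) : nx (φ (s, e, u)) = φ (s, !e, ng u) :=
  Subtype.ext (Φ_neg s e u).symm

lemma ng_ng (u : D) : ng (ng u) = u := Subtype.ext (neg_neg _)

lemma lifts (g : Y → T) (hg : Continuous g) :
    ∃ H : Y → ℝ, Continuous H ∧ ∀ y, (H y : T) = g y := by
  obtain ⟨e, he⟩ : ∃ e : ℝ, (e : T) = g (f (φ (true, true, one))) :=
    QuotientAddGroup.mk_surjective _
  have key := fun s : Bool => lift_disc (fun u => g (f (φ (s, true, u))))
    (hg.comp (f_cont.comp (φ_cont' s true))) (fun u hu => by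
      rw [← f_nx (φ (s, true, u)), nx_φ]
      congr 2
      exact Subtype.ext (Φ_bd _ _ _ _ (by simpa [ng] using hu))) e (by rw [he, φ_one])
  choose h hc h1 h2 h3 using key
  have h4 : ∀ s, h s (ng one) = e := fun s => (h3 s one (by simp [one])).trans (h1 s)
  let π : Bool × D → Y := fun p => f (φ (p.1, true, p.2))
  have πc : Continuous π := f_cont.comp (φ_cont.comp (by fun_prop))
  have πs : Function.Surjective π := by
    intro y
    obtain ⟨x, rfl⟩ := f_surj y
    obtain ⟨⟨s, b, u⟩, rfl⟩ := φ_surj x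
    cases b
    · exact ⟨(s, ng u), by rw [← f_nx (φ (s, false, u)), nx_φ]; rfl⟩
    · exact ⟨(s, u), rfl⟩
  have diff : ∀ u u', π (true, u) = π (false, u') → h true u = h false u' := by
    intro u u' hh
    rcases f_eq (x := φ (true, true, u)) (y := φ (false, true, u')) hh with h5 | h5
    · obtain ⟨rfl, rfl | rfl⟩ := Φ_diff (congrArg Subtype.val h5)
      · rw [h1, h1]
      · rw [h4, h4]
    · rw [nx_φ] at h5
      obtain ⟨rfl, h6 | h6⟩ := Φ_diff (congrArg Subtype.val h5)
      · have : u' = ng one := by rw [← h6, ng_ng]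
        rw [h6, this, h1, h4]
      · have : u' = one := by rw [← ng_ng u', h6, ng_ng]
        rw [h6, this, h1, h4]
  have resp : ∀ p q, π p = π q → h p.1 p.2 = h q.1 q.2 := by
    have same : ∀ s u u', π (s, u) = π (s, u') → h s u = h s u' := by
      intro s u u' hh
      rcases f_eq (x := φ (s, true, u)) (y := φ (s, true, u')) hh with h5 | h5
      · rw [(Φ_same (congrArg Subtype.val h5)).1]
      · rw [nx_φ] at h5
        obtain ⟨rfl, h6⟩ := Φ_same (congrArg Subtype.val h5)
        exact h3 s u' (by simpa [ng] using h6)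
    rintro ⟨s, u⟩ ⟨s', u'⟩ hh
    cases s <;> cases s'
    · exact same _ _ _ hh
    · exact (diff _ _ hh.symm).symm
    · exact diff _ _ hh
    · exact same _ _ _ hh
  choose σ hσ using πs
  refine ⟨fun y => h (σ y).1 (σ y).2, ?_, fun y => ?_⟩
  · rw [(quot πc (fun y => ⟨σ y, hσ y⟩)).continuous_iff]
    have : (fun y => h (σ y).1 (σ y).2) ∘ π = fun p => h p.1 p.2 :=
      funext fun p => resp _ _ (hσ _)
    rw [this, continuous_prod_of_discrete_left]
    exact hc
  · rw [h2]
    exact congrArg g (hσ y)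

end Pool.Agent.H33.TwoSpheres
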