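import Mathlib
import Pool.Agent.H33.Ups1

/-!
A space whose function space has a Lindelof Sigma realcompactification while the second function
space has not.
-/

open Set Filter Topology

namespace Pool.Agent.H33.Ups2

open Pool.Agent.H33.GrothEx Pool.Agent.H33.Spl5 Pool.Agent.H33.CpCp Pool.Agent.H33.Ups1

/-- nodes: they serve both as points and as coordinates -/
inductive Nd : Type
  | nil : Nd
  | mk (r : ℕ) (c : ℝ) (b : Bool) (φ : ℕ → ℝ) (ch : ℕ → Nd) (w : ℕ → ℝ) : Nd

/-- rank -/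
def rk : Nd → ℕ
  | .nil => 0
  | .mk r _ _ _ _ _ => r

/-- colour -/
def col : Nd → ℝ
  | .nil => 0
  | .mk _ c _ _ _ _ => max 0 (min 1 c)

/-- type -/
def ty : Nd → Bool
  | .nil => true
  | .mk _ _ b _ _ _ => b

/-- bound -/
def bd : Nd → ℕ → ℝ
  | .nil, _ => 0
  | .mk _ _ _ φ _ _, r => ∑ i ∈ Finset.range (r + 1), |φ i|

/-- children -/
def ch : Nd → ℕ → Nd
  | .nil => fun _ => .nil
  | .mk _ _ _ _ s _ => s

/-- weights -/
def wt : Nd → ℕ → ℝ
  | .nil => 0
  | .mk _ _ _ _ _ w => w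

theorem col_mem (x : Nd) : 0 ≤ col x ∧ col x ≤ 1 := by
  cases x <;> simp [col]

theorem bd_nonneg (γ : Nd) (n : ℕ) : 0 ≤ bd γ n := by
  cases γ
  exacts [le_rfl, Finset.sum_nonneg fun _ _ => abs_nonneg _]

theorem bd_mono (γ : Nd) {m n : ℕ} (h : m ≤ n) : bd γ m ≤ bd γ n := by
  cases γ
  exacts [le_rfl, Finset.sum_le_sum_of_subset_of_nonneg
    (Finset.range_mono (Nat.succ_le_succ h)) fun _ _ _ => abs_nonneg _]

/-- weakly admissible values -/
def Adw (r : ℕ) (ε : ℝ) (γ : Nd) (v : ℝ) : Prop :=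
  (ty γ = true → |v| ≤ bd γ r) ∧ (ty γ = false → 0 ≤ v ∧ v ≤ ε)

/-- admissible values -/
def Adm (r : ℕ) (ε : ℝ) (γ : Nd) (v : ℝ) : Prop :=
  Adw r ε γ v ∧ (ty γ = false → v = 0 → ε = 0 ∨ 1 ≤ r * ε)

open Classical in
/-- raw values -/
noncomputable def raw (x γ : Nd) : ℝ :=
  if h : ∃ i, ch x i = γ then wt x h.choose else if h : ∃ i, ch γ i = x then wt γ h.choose else 0

open Classical in
/-- values -/
noncomputable def val (x γ : Nd) : ℝ :=
  if Adm (rk x) (col x) γ (raw x γ) then raw x γ else if ty γ = true then 0 else col x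

theorem adm_val (x γ : Nd) : Adm (rk x) (col x) γ (val x γ) := by
  unfold val
  split_ifs with h1 h2
  · exact h1
  · simp [Adm, Adw, h2, bd_nonneg]
  · exact ⟨⟨fun h => absurd h h2, fun _ => ⟨(col_mem x).1, le_rfl⟩⟩, fun _ h => Or.inl h⟩

theorem exists_pt (n : ℕ) {ε : ℝ} (h0 : 0 ≤ ε) (h1 : ε ≤ 1) {S : Set Nd} (hS : S.Countable)
    (w : Nd → ℝ) (hw : ∀ γ ∈ S, Adw n ε γ (w γ)) : ∃ x, col x = ε ∧ ∀ γ ∈ S, val x γ = w γ := by
  obtain ⟨s, hs⟩ := (hS.insert .nil).exists_eq_range (insert_nonempty _ _)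
  obtain ⟨R, h2, h3⟩ : ∃ R : ℕ, n ≤ R ∧ (ε = 0 ∨ 1 ≤ R * ε) := by
    rcases h0.eq_or_lt with h | h
    · exact ⟨n, le_rfl, Or.inl h.symm⟩
    · obtain ⟨k, hk⟩ := exists_nat_ge (1 / ε)
      refine ⟨n + k, Nat.le_add_right _ _, Or.inr ?_⟩
      rw [div_le_iff₀ h] at hk
      push_cast
      nlinarith [(Nat.cast_nonneg n : (0 : ℝ) ≤ n)]
  have h4 : col (.mk R ε true 0 s (w ∘ s)) = ε := by simp [col, h0, h1]
  refine ⟨_, h4, fun γ hγ => ?_⟩
  have h5 : ∃ i, ch (.mk R ε true 0 s (w ∘ s)) i = γ := hs.subset (mem_insert_of_mem _ hγ)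
  have h6 : raw (.mk R ε true 0 s (w ∘ s)) γ = w γ :=
    (dif_pos h5).trans (congrArg w h5.choose_spec)
  rw [val, h6, h4, if_pos]
  exact ⟨⟨fun h => ((hw γ hγ).1 h).trans (bd_mono γ h2), (hw γ hγ).2⟩, fun _ _ => h3⟩

theorem exists_co (b : Bool) (φ : ℕ → ℝ) {B : Set Nd} (hB : B.Countable) (f : Nd → ℝ) :
    ∃ γ, ty γ = b ∧ (∀ n, |φ n| ≤ bd γ n) ∧
      ∀ x ∈ B, Adm (rk x) (col x) γ (f x) → val x γ = f x := by
  obtain ⟨s, hs⟩ := (hB.insert .nil).exists_eq_range (insert_nonempty _ _)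
  obtain ⟨t, ht⟩ : ∃ t : ℝ, Nd.mk 0 t b φ s (f ∘ s) ∉ ⋃ x ∈ B, range (ch x) := by
    by_contra hn
    push Not at hn
    exact not_countable_univ (MapsTo.countable_of_injOn (f := fun t => Nd.mk 0 t b φ s (f ∘ s))
      (fun t _ => hn t) (fun _ _ _ _ h => by injection h)
      (hB.biUnion fun x _ => countable_range _))
  refine ⟨.mk 0 t b φ s (f ∘ s), rfl, fun n => Finset.single_le_sum (f := fun i => |φ i|)
    (fun _ _ => abs_nonneg _) (Finset.self_mem_range_succ n), fun x hx h => ?_⟩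
  have h5 : ∃ i, ch (.mk 0 t b φ s (f ∘ s)) i = x := hs.subset (mem_insert_of_mem _ hx)
  have h6 : raw x (.mk 0 t b φ s (f ∘ s)) = f x :=
    (dif_neg fun h => ht (mem_biUnion hx h)).trans ((dif_pos h5).trans (congrArg f h5.choose_spec))
  rw [val, h6, if_pos h]

/-- coordinates -/
noncomputable def e (x : Nd) : Option Nd → ℝ
  | none => col x
  | some γ => val x γ

noncomputable instance : TopologicalSpace Nd := TopologicalSpace.induced e inferInstance

theorem ind : IsInducing e := ⟨rfl⟩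

theorem cont_e (i : Option Nd) : Continuous fun x => e x i := (continuous_apply i).comp ind.continuous

/-- bounded on all layers -/
def Bd (g : Nd → ℝ) : Prop := ∀ n, ∃ m, ∀ x, rk x ≤ n → |g x| ≤ m

theorem ext_val {g : Nd → ℝ} (hg : Bd g) {D : Set Nd} (hD : D.Countable) :
    ∃ γ, ∀ x ∈ D, e x (some γ) = g x := by
  choose φ hφ using hg
  obtain ⟨γ, h1, h2, h3⟩ := exists_co true φ hD g
  exact ⟨γ, fun x hx => h3 x hx ⟨⟨fun _ => (hφ _ x le_rfl).trans ((le_abs_self _).trans (h2 _)),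
    fun h => by simp [h1] at h⟩, fun h => by simp [h1] at h⟩⟩

instance : T35Space Nd := by
  classical
  refine IsEmbedding.t35Space (f := e) ⟨ind, fun x y h => ?_⟩
  obtain ⟨γ, hγ⟩ := ext_val (g := fun z => if z = x then 1 else 0)
    (fun _ => ⟨1, fun z _ => by beta_reduce; split_ifs <;> simp⟩) (D := {x, y}) (toFinite _).countable
  have h1 := hγ y (by simp)
  rw [← h, hγ x (by simp), if_pos rfl] at h1
  by_contra h2
  simp [Ne.symm h2] at h1

theorem amal (x t : Nd) (u w : Finset (Option Nd)) : ∃ y, (∀ i ∈ u, e y i = e t i) ∧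
    ∀ i ∈ w, i ∉ u → |e y i - e x i| ≤ |e t none - e x none| := by
  classical
  obtain ⟨y, h1, h2⟩ := exists_pt (max (rk x) (rk t)) (col_mem t).1 (col_mem t).2
    (((u ∪ w).countable_toSet).preimage (Option.some_injective Nd))
    (fun γ => if some γ ∈ u then val t γ else if ty γ = true then val x γ else
      min (val x γ) (col t)) fun γ _ => by
      split_ifs with h1 h2
      · exact ⟨fun h => ((adm_val t γ).1.1 h).trans (bd_mono γ (le_max_right _ _)),
          (adm_val t γ).1.2⟩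
      · exact ⟨fun h => ((adm_val x γ).1.1 h).trans (bd_mono γ (le_max_left _ _)),
          fun h => by simp [h2] at h⟩
      · exact ⟨fun h => absurd h h2, fun h =>
          ⟨le_min ((adm_val x γ).1.2 h).1 (col_mem t).1, min_le_right _ _⟩⟩
  refine ⟨y, ?_, ?_⟩
  · rintro (_ | γ) hi
    exacts [h1, (h2 γ (by simp [hi])).trans (if_pos hi)]
  · rintro (_ | γ) hi hi'
    · simp [e, h1]
    · simp only [e, h2 γ (by simp [hi]), if_neg hi']
      split_ifs with h3
      · simp
      · have := ((adm_val x γ).1.2 (by simpa using h3)).2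
        rcases le_total (val x γ) (col t) with h | h
        · simp [h]
        · rw [min_eq_right h, abs_of_nonpos (by linarith), abs_of_nonpos (by linarith)]
          linarith

theorem bd_cont (f : Cp Nd) : Bd f.1 := fun n => by
  obtain ⟨D, hD, h⟩ := factor ind none amal f.2
  obtain ⟨s, m, -, hm⟩ := bdd_of_wb (B := fun _ => {x | rk x ≤ n}) (z := Nd.nil) (g := f.1)
    fun 𝒰 h1 => by
      have h1 := h1 0 (Nat.zero_le n)
      have h2 : ∀ i, ∃ c, Tendsto (fun y => e y i) 𝒰 (𝓝 c) := by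
        rintro (_ | γ)
        · exact lim_of_bdd (m := 1) (Eventually.of_forall fun y =>
            abs_le.2 ⟨by linarith [(col_mem y).1, show e y none = col y from rfl], (col_mem y).2⟩)
        · refine lim_of_bdd (m := max 1 (bd γ n)) (mem_of_superset h1 fun y hy => ?_)
          change |val y γ| ≤ _
          cases h3 : ty γ
          · have := (adm_val y γ).1.2 h3
            rw [abs_of_nonneg this.1]
            exact (this.2.trans (col_mem y).2).trans (le_max_left _ _)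
          · exact (((adm_val y γ).1.1 h3).trans (bd_mono γ hy)).trans (le_max_right _ _)
      choose p hp using h2
      obtain ⟨x, h3, h4⟩ := exists_pt n (ge_of_tendsto' (hp none) fun y => (col_mem y).1)
        (le_of_tendsto' (hp none) fun y => (col_mem y).2) (hD.preimage (Option.some_injective Nd))
        (fun γ => p (some γ)) fun γ _ => ⟨fun h => le_of_tendsto (hp _).abs
          (mem_of_superset h1 fun y hy => ((adm_val y γ).1.1 h).trans (bd_mono γ hy)),
          fun h => ⟨ge_of_tendsto' (hp _) fun y => ((adm_val y γ).1.2 h).1,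
            le_of_tendsto_of_tendsto' (hp _) (hp _) fun y => ((adm_val y γ).1.2 h).2⟩⟩
      refine ⟨_, h x 𝒰 ?_⟩
      rintro (_ | γ) hi
      · exact (show e x none = p none from h3) ▸ hp _
      · exact (show e x (some γ) = p (some γ) from h4 γ hi) ▸ hp _
  exact ⟨m, fun x hx => hm x (mem_iInter₂.2 fun _ _ => hx)⟩

theorem conv (𝒰 : Ultrafilter (Cp Nd)) {g : Nd → ℝ} (hg : Bd g)
    (h : ∀ x, Tendsto (fun f : Cp Nd => f.1 x) 𝒰 (𝓝 (g x))) (Φ : Cp (Cp Nd)) :
    ∃ c, Tendsto Φ.1 𝒰 (𝓝 c) := by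
  classical
  obtain ⟨D, hD, h1⟩ := factor (e := fun f : Cp Nd => f.1) IsInducing.subtypeVal Nd.nil
    (fun x t u w => by
      obtain ⟨γ, hγ⟩ := ext_val (g := fun i => if i ∈ u then t.1 i else x.1 i) (fun n => by
        obtain ⟨m, hm⟩ := bd_cont t n
        obtain ⟨m', hm'⟩ := bd_cont x n
        refine ⟨max m m', fun i hi => ?_⟩
        beta_reduce
        split_ifs
        exacts [(hm i hi).trans (le_max_left _ _), (hm' i hi).trans (le_max_right _ _)])
        (u ∪ w).countable_toSet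
      refine ⟨⟨_, cont_e (some γ)⟩, fun i hi => (hγ i (by simp [hi])).trans (if_pos hi),
        fun i hi hi' => ?_⟩
      simp [hγ i (by simp [hi]), hi']) Φ.2
  obtain ⟨γ, hγ⟩ := ext_val hg hD
  exact ⟨_, h1 ⟨_, cont_e (some γ)⟩ 𝒰 fun i hi => (h i).trans (by
    rw [← hγ i hi])⟩

theorem wb : WB (Cp Nd) := by
  refine ⟨fun i => {f | ∀ x, rk x ≤ i.unpair.1 → |f.1 x| ≤ i.unpair.2}, fun f 𝒰 h => ?_⟩
  have h1 : ∀ n, ∃ m : ℝ, ∀ᶠ k : Cp Nd in 𝒰, ∀ x, rk x ≤ n → |k.1 x| ≤ m := fun n => by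
    obtain ⟨m, hm⟩ := bd_cont f n
    obtain ⟨k, hk⟩ := exists_nat_ge m
    have := h (Nat.pair n k) (by
      simp only [Nat.unpair_pair]
      exact fun x hx => (hm x hx).trans hk)
    simp only [Nat.unpair_pair] at this
    exact ⟨k, this⟩
  choose m hm using h1
  choose g hg using fun x => lim_of_bdd (g := fun k : Cp Nd => k.1 x)
    ((hm (rk x)).mono fun k hk => hk x le_rfl)
  exact conv 𝒰 (fun n => ⟨m n, fun x hx => le_of_tendsto (hg x).abs
    ((hm n).mono fun k hk => hk x hx)⟩) hg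

/-- small points -/
noncomputable def pt (a : ℝ) (k : ℕ) : Nd :=
  .mk 0 (1 / (k + 1)) true (fun _ => a) (fun _ => .nil) 0

theorem col_pt (a : ℝ) (k : ℕ) : col (pt a k) = 1 / (k + 1) := by
  have h1 : (0 : ℝ) < 1 / (k + 1) := Nat.one_div_pos_of_nat
  have h2 : (1 : ℝ) / (k + 1) ≤ 1 := Nat.one_div_le_one_div (Nat.zero_le k) |>.trans (by simp)
  simp only [pt, col, min_eq_right h2, max_eq_right h1.le]

/-- truncated inverse -/
noncomputable def tau (m : ℕ) (ε : ℝ) : ℝ := m ^ 2 * ε / max 1 (m ^ 2 * ε ^ 2)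

theorem tau_lim {ε : ℝ} (h : 0 < ε) : ∀ᶠ m in atTop, tau m ε = ε⁻¹ := by
  filter_upwards [(tendsto_natCast_atTop_atTop.atTop_mul_const h).eventually_ge_atTop 1] with m hm
  have h1 : (m : ℝ) ≠ 0 := by
    rintro h0
    simp [h0] at hm
    linarith
  rw [tau, max_eq_right (by nlinarith)]
  field_simp

theorem not_rd : ¬ RD (Cp Nd) := by
  classical
  rintro ⟨B, hB⟩
  let := TopologicalSpace.metrizableSpaceMetric (ℕ → ℝ)
  let o : ℕ → ℝ := fun k => k + 1
  have h0 : ∀ (v : ℕ → ℝ) (m : ℝ), (∀ k, |v k| ≤ m) → dist v o ≠ 0 := fun v m h h1 => by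
    obtain ⟨k, hk⟩ := exists_nat_ge m
    have := h k
    rw [dist_eq_zero.1 h1, abs_of_nonneg (by positivity)] at this
    simp only [o] at this
    linarith
  let Ψ : ℝ → Cp (Cp Nd) := fun a => ⟨fun f => (dist (fun k => f.1 (pt a k)) o)⁻¹,
    ((continuous_pi fun k => cev _).dist continuous_const).inv₀ fun f => by
      obtain ⟨m, hm⟩ := bd_cont f 0
      exact h0 _ m fun k => hm _ le_rfl⟩
  obtain ⟨a₀, ha⟩ : ∃ a₀, ∀ F : Finset ℕ, Ψ a₀ ∈ ⋂ i ∈ F, B i →
      {a | Ψ a ∈ ⋂ i ∈ F, B i}.Infinite := by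
    by_contra hn
    simp only [not_exists, not_forall, not_infinite] at hn
    refine not_countable_univ (Countable.mono (fun a _ => ?_) (Countable.biUnion (to_countable
      {F : Finset ℕ | {a | Ψ a ∈ ⋂ i ∈ F, B i}.Finite}) fun F hF => hF.countable))
    obtain ⟨F, h1, h2⟩ := hn a
    exact mem_biUnion h2 h1
  obtain ⟨a, h1, h2⟩ := exists_transversal (κ := Cardinal.aleph0) (by simp)
    (fun n : ℕ => {a | Ψ a ∈ ⋂ i ∈ (Finset.range n).filter fun i => Ψ a₀ ∈ B i, B i}) fun n =>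
      Cardinal.infinite_iff.1 (ha _ (mem_iInter₂.2 fun i hi => (Finset.mem_filter.1 hi).2)).to_subtype
  have hle : (hyperfilter ℕ : Filter ℕ) ≤ atTop := Nat.hyperfilter_le_atTop
  obtain ⟨G, h3, h4⟩ := hB (Ψ a₀) ((hyperfilter ℕ).map fun n => Ψ (a n)) fun i hi =>
    hle ((eventually_gt_atTop i).mono fun n hn =>
      mem_iInter₂.1 (h2 n) i (Finset.mem_filter.2 ⟨Finset.mem_range.2 hn, hi⟩))
  have h5 : Function.Injective fun q : ℕ × ℕ => pt (a q.1) q.2 := by
    intro q q' h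
    injection h with _ h5 _ h6
    refine Prod.ext (h1 (congrFun h6 0)) ?_
    simpa using h5
  obtain ⟨γ, g1, -, g2⟩ := exists_co false 0 (countable_range fun q : ℕ × ℕ => pt (a q.1) q.2)
    (Function.extend (fun q : ℕ × ℕ => pt (a q.1) q.2)
      (fun q => 1 / (q.2 + 1) * (1 / (q.1 + 1))) 0)
  have g3 : ∀ n k, val (pt (a n) k) γ = 1 / (k + 1) * (1 / (n + 1)) := fun n k => by
    have e1 := h5.extend_apply (fun q : ℕ × ℕ => (1 : ℝ) / (q.2 + 1) * (1 / (q.1 + 1))) 0 (n, k)
    refine (g2 _ ⟨(n, k), rfl⟩ ?_).trans e1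
    rw [e1, col_pt]
    have h6 : (0 : ℝ) < 1 / (k + 1) * (1 / (n + 1)) := by positivity
    refine ⟨⟨fun h => by simp [g1] at h, fun _ => ⟨h6.le, mul_le_of_le_one_right (by positivity)
      ((Nat.one_div_le_one_div (Nat.zero_le n)).trans (by simp))⟩⟩, fun _ h => absurd h h6.ne'⟩
  let f : ℕ → Cp Nd := fun m => ⟨fun x => tau m (e x none) * max 0 (1 - m * e x (some γ)),
    (((continuous_const.mul (cont_e _)).div (continuous_const.max
      (continuous_const.mul ((cont_e _).pow 2))) fun x =>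
        (zero_lt_one.trans_le (le_max_left _ _)).ne').mul
      (continuous_const.max (continuous_const.sub (continuous_const.mul (cont_e _)))))⟩
  let v : ℕ → ℕ → ℝ := fun m k => tau m (1 / (k + 1))
  have v1 : ∀ m k, Tendsto (fun n => (f m).1 (pt (a n) k)) atTop (𝓝 (v m k)) := fun m k => by
    have := ((tendsto_const_nhds (x := (0 : ℝ))).max
      (((tendsto_one_div_add_atTop_nhds_zero_nat.const_mul ((1 : ℝ) / (k + 1))).const_mul
      (m : ℝ)).const_sub 1)).const_mul (v m k)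
    simpa only [f, e, g3, col_pt, mul_zero, sub_zero, max_eq_right zero_le_one, mul_one] using this
  have v2 : ∀ m, dist (v m) o ≠ 0 := fun m => by
    obtain ⟨c, hc⟩ := bd_cont (f m) 0
    exact h0 _ c fun k => le_of_tendsto' (v1 m k).abs fun n => hc _ le_rfl
  have v3 : ∀ m, G (f m) = (dist (v m) o)⁻¹ := fun m => tendsto_nhds_unique (h3 _)
    ((((tendsto_pi_nhds.2 (v1 m)).dist tendsto_const_nhds).inv₀ (v2 m)).mono_left hle)
  have v4 : Tendsto (fun m => dist (v m) o) atTop (𝓝 0) :=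
    tendsto_iff_dist_tendsto_zero.1 (tendsto_pi_nhds.2 fun k => tendsto_const_nhds.congr'
      ((tau_lim (Nat.one_div_pos_of_nat (n := k))).mono fun m hm => by
        simp only [v, o, hm]
        simp))
  obtain ⟨Φ, hΦ⟩ := h4 _ (countable_range f)
  have h8 : ∀ x, (fun _ => if val x γ = 0 then (col x)⁻¹ else 0) =ᶠ[atTop] fun m => (f m).1 x := by
    intro x
    simp only [f, e]
    split_ifs with h
    · rcases (col_mem x).1.eq_or_lt with h6 | h6
      · exact Eventually.of_forall fun m => by simp [← h6, tau]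
      · exact (tau_lim h6).mono fun m hm => by simp [h, hm]
    · have h6 := ((adm_val x γ).1.2 g1).1.lt_of_ne' h
      filter_upwards [(tendsto_natCast_atTop_atTop.atTop_mul_const h6).eventually_ge_atTop 1]
        with m hm
      rw [max_eq_left (by linarith), mul_zero]
  obtain ⟨c, hc⟩ := conv ((hyperfilter ℕ).map f)
    (g := fun x => if val x γ = 0 then (col x)⁻¹ else 0) (fun n => ⟨n, fun x hx => by
      beta_reduce
      split_ifs with h
      · rcases (adm_val x γ).2 g1 h with h6 | h6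
        · simp [h6]
        · have h7 : 0 < col x := (col_mem x).1.lt_of_ne fun h7 => by
            simp [← h7] at h6
            linarith
          rw [abs_of_pos (inv_pos.2 h7), inv_le_iff_one_le_mul₀ h7]
          exact h6.trans (mul_le_mul_of_nonneg_right (Nat.cast_le.2 hx) h7.le)
      · simp⟩) (fun x => (Tendsto.mono_left (f := fun m => (f m).1 x)
        (tendsto_const_nhds.congr' (h8 x)) hle :)) Φ
  have h6 := (v4.mono_left hle).mul hc
  simpa using tendsto_nhds_unique (h6.congr (f₂ := fun _ => 1) fun m => by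
    rw [hΦ _ (mem_range_self m), v3, mul_inv_cancel₀ (v2 m)]) tendsto_const_nhds

theorem main : UL (Cp Nd) ∧ ¬ UL (Cp (Cp Nd)) :=
  ⟨ul_of_wb wb, fun h => not_rd (rd_of_wb (wb_of_ul h))⟩

end Pool.Agent.H33.Ups2
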