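import Pool.Agent.H33.DD1
import Pool.Agent.H33.HG2
import Pool.Agent.H33.DT1
import Pool.Agent.H33.DiaDefs

/-! Under CH: a matrix with generic columns. -/

open Set Filter Cardinal Pool.Agent.H33.DiaDefs

namespace Pool.Agent.H33.VD1

theorem gen {ι Y : Type} [Countable ι] (R : ι → Set (Set Y × Set Y))
    (h : ∀ i, ∀ K : Set Y, K.Finite → ∃ p ∈ R i, p.1.Finite ∧ Disjoint p.1 K) :
    ∃ u : Set Y, (∀ i, ∃ p ∈ R i, ∀ b ∈ p.1, b ∈ u ↔ b ∈ p.2) ∧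
      ∀ b ∈ u, ∃ i, ∃ p ∈ R i, b ∈ p.1 ∧ b ∈ p.2 := by
  rcases isEmpty_or_nonempty ι with e | e
  · exact ⟨∅, fun i => e.elim i, fun _ h => h.elim⟩
  obtain ⟨e, he⟩ := exists_surjective_nat ι
  choose p p1 p2 p3 using fun n (K : {K : Set Y // K.Finite}) => h (e n) K K.2
  let K : ℕ → {K : Set Y // K.Finite} := fun n => Nat.rec ⟨∅, finite_empty⟩
    (fun n K => ⟨K ∪ (p n K).1, K.2.union (p2 n K)⟩) n
  have mo : Monotone fun n => (K n).1 := monotone_nat_of_le_succ fun n => subset_union_left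
  have d : ∀ n m b, n < m → b ∈ (p n (K n)).1 → b ∉ (p m (K m)).1 := fun n m b h a c =>
    disjoint_left.1 (p3 m (K m)) c (mo (show n + 1 ≤ m from h) (Or.inr a))
  refine ⟨{b | ∃ n, b ∈ (p n (K n)).1 ∧ b ∈ (p n (K n)).2}, fun i => ?_,
    fun b ⟨n, h⟩ => ⟨_, _, p1 n _, h⟩⟩
  obtain ⟨n, rfl⟩ := he i
  refine ⟨_, p1 n (K n), fun b hb => ⟨fun ⟨m, a, c⟩ => ?_, fun a => ⟨n, hb, a⟩⟩⟩
  rcases lt_trichotomy n m with h | rfl | h
  exacts [absurd a (d n m b h hb), c, absurd hb (d m n b h a)]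

theorem enum (hCH : continuum.{0} = ℵ_ 1) (T : Type) (hT : #T ≤ ℵ_ 1) [Nonempty T] :
    ∃ e : W → ℕ → T, ∀ g β, ∃ α > β, e α = g := by
  have := unc
  obtain ⟨i⟩ : Nonempty ((ℕ → T) × W ↪ W) := by
    rw [← Cardinal.le_def, mk_prod, lift_id, lift_id, mk_W]
    refine (mul_le_mul_left (?_ : _ ≤ ℵ_ 1) _).trans (mul_eq_self (aleph0_le_aleph 1)).le
    rw [← hCH] at hT ⊢
    simpa using (power_le_power_right (c := ℵ₀) hT)
  refine ⟨fun α => (Function.invFun i α).1, fun g β => ?_⟩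
  by_contra h
  push Not at h
  refine not_countable_univ ((((cnt β).insert β).preimage (f := fun γ => i (g, γ))
    fun a b e => (Prod.ext_iff.1 (i.injective e)).2).mono fun γ _ => ?_)
  exact (not_lt.1 fun e => h _ e (by rw [Function.leftInverse_invFun i.injective])).eq_or_lt

theorem col (hCH : continuum.{0} = ℵ_ 1) : ∃ c : W → Set W, ∀ (g : ℕ → ℕ → W) (k : ℕ),
    (∀ n m, ∀ i < k, ∀ j < k, g n i = g m j → n = m ∧ i = j) → ∃ γ, ∀ E : Finset W,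
    (∀ β ∈ E, γ < β) → ∀ σ : W → ℕ → Prop,
      {n | ∀ β ∈ E, ∀ i < k, g n i ∈ c β ↔ σ β i}.Infinite := by
  classical
  have := unc
  obtain ⟨e, he⟩ := enum hCH W mk_W.le
  let G : W → ℕ → ℕ → W := fun γ n i => e γ (Nat.pair n i)
  let I : (W → Set W) → W → Set (W × ℕ × Prop) → Set ℕ := fun c γ s =>
    {n | ∀ p ∈ s, G γ n p.2.1 ∈ c p.1 ↔ p.2.2}
  obtain ⟨c, hc⟩ := HG2.rec_e (T := W) id (fun α c (u : Set W) => ∀ γ < α, ∀ k,
    (∀ n m, ∀ i < k, ∀ j < k, G γ n i = G γ m j → n = m ∧ i = j) → ∀ s : Set (W × ℕ × Prop),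
    s.Finite → s ⊆ Iio α ×ˢ Set.univ → (I c γ s).Infinite → ∀ ε : ℕ → Prop,
      {n ∈ I c γ s | ∀ i < k, G γ n i ∈ u ↔ ε i}.Infinite)
    (fun t f g x h H γ hγ k hk s s1 s2 => by
      have : I g γ s = I f γ s := Set.ext fun n => forall₂_congr fun p hp => by
        rw [h p.1 (s2 hp).1]
      rw [this]
      exact H γ hγ k hk s s1 s2) fun α c _ => by
    have h1 := (cnt α).to_subtype
    have h2 : Countable {s : Set (W × ℕ × Prop) // s.Finite ∧ s ⊆ Iio α ×ˢ Set.univ} :=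
      (countable_ofPred_finite_subset ((cnt α).prod (countable_univ (α := ℕ × Prop)))).to_subtype
    obtain ⟨u, hu, -⟩ := gen (ι := {r : Iio α × {s : Set (W × ℕ × Prop) // s.Finite ∧
        s ⊆ Iio α ×ˢ Set.univ} × ℕ × ℕ × Finset ℕ // (∀ n m, ∀ i < r.2.2.1, ∀ j < r.2.2.1,
          G r.1 n i = G r.1 m j → n = m ∧ i = j) ∧ (I c r.1 r.2.1).Infinite})
      (fun r => {p | ∃ n ∈ I c r.1.1 r.1.2.1, r.1.2.2.2.1 < n ∧
        p = (G r.1.1 n '' Iio r.1.2.2.1, G r.1.1 n '' (Iio r.1.2.2.1 ∩ r.1.2.2.2.2))}) (by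
      rintro ⟨⟨γ, s, k, m, ε⟩, a, b⟩ K hK
      have : {n | ¬ Disjoint (G γ n '' Iio k) K}.Finite := ((hK.biUnion fun z _ =>
        (finite_Iio k).biUnion fun i hi => Subsingleton.finite (s := {n | G γ n i = z})
          fun n hn m hm => (a n m i hi i hi (hn.trans hm.symm)).1)).subset fun n hn => by
        obtain ⟨_, ⟨i, hi, rfl⟩, hz⟩ := not_disjoint_iff.1 hn
        exact mem_biUnion hz (mem_biUnion hi rfl)
      obtain ⟨n, ⟨h1, h2⟩, h3⟩ := (b.sdiff this).exists_gt m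
      exact ⟨_, ⟨n, h1, h3, rfl⟩, (finite_Iio k).image _, not_not.1 h2⟩)
    refine ⟨u, fun γ hγ k hk s s1 s2 hs ε => infinite_of_forall_exists_gt fun m => ?_⟩
    obtain ⟨_, ⟨n, a, b, rfl⟩, d⟩ := hu ⟨(⟨γ, hγ⟩, ⟨s, s1, s2⟩, k, m,
      (Finset.range k).filter ε), hk, hs⟩
    refine ⟨n, ⟨a, fun i hi => (d _ ⟨i, hi, rfl⟩).trans ⟨?_, fun h => ⟨i, ⟨hi, by simp [hi, h]⟩, rfl⟩⟩⟩, b⟩
    rintro ⟨j, ⟨hj, hj'⟩, h⟩
    obtain rfl := (hk n n j hj i hi h).2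
    exact (Finset.mem_filter.1 hj').2
  refine ⟨c, fun g k hk => ?_⟩
  obtain ⟨γ, -, hγ⟩ := he (fun n => g n.unpair.1 n.unpair.2) (Classical.arbitrary _)
  obtain rfl : g = G γ := by funext n i; simp [G, hγ]
  refine ⟨γ, fun E => ?_⟩
  induction E using Finset.induction_on_max with
  | empty => exact fun _ _ => infinite_univ.mono fun n _ => by simp
  | insert a E h ih =>
    intro hE σ
    refine (hc a γ (hE a (Finset.mem_insert_self _ _)) k hk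
      ((fun q : W × ℕ => (q.1, q.2, σ q.1 q.2)) '' (E ×ˢ Iio k))
      ((E.finite_toSet.prod (finite_Iio k)).image _)
      (by rintro _ ⟨q, hq, rfl⟩; exact ⟨h _ hq.1, trivial⟩)
      ((ih (fun β hβ => hE β (Finset.mem_insert_of_mem hβ)) σ).mono fun n hn => by
        rintro _ ⟨q, hq, rfl⟩; exact hn _ hq.1 _ hq.2) (σ a)).mono fun n hn β hβ i hi => ?_
    rcases Finset.mem_insert.1 hβ with rfl | hβ
    · exact hn.2 i hi
    · exact hn.1 _ ⟨(β, i), ⟨hβ, hi⟩, rfl⟩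

end Pool.Agent.H33.VD1
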