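import Pool.Agent.H33.VD1

/-! Under CH: a matrix with generic columns whose rows vanish on discrete sets. -/

open Set Filter Cardinal Pool.Agent.H33.DiaDefs Pool.Agent.H33.DD1 Pool.Agent.H33.VD1

namespace Pool.Agent.H33.VD2

/-- discrete modulo finite sets -/
def DM (x : W → Set W) (D : Set W) : Prop :=
  ∀ d ∈ D, ∃ E : Set W, E.Finite ∧ {a ∈ D | ∀ β ∈ E, β ∈ x a ↔ β ∈ x d}.Finite

theorem star (x : W → Set W) (hx : ∀ (g : ℕ → ℕ → W) (k : ℕ),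
    (∀ n m, ∀ i < k, ∀ j < k, g n i = g m j → n = m ∧ i = j) → ∃ γ, ∀ E : Finset W,
    (∀ β ∈ E, γ < β) → ∀ σ : W → ℕ → Prop, {n | ∀ β ∈ E, ∀ i < k, β ∈ x (g n i) ↔ σ β i}.Infinite)
    {I : Type} [Uncountable I] (f : I → ℕ → W) (k : ℕ)
    (hf : ∀ n m, ∀ i < k, ∀ j < k, f n i = f m j → n = m ∧ i = j) :
    ∃ C : Set I, C.Countable ∧ ∀ D, DM x D → {z ∈ C | ∀ i < k, f z i ∉ D}.Infinite := by
  classical
  have := unc
  let τ : TopologicalSpace I :=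
    { IsOpen := fun U => ∀ z ∈ U, ∃ (E : Set W) (Φ : Set I), E.Finite ∧ Φ.Finite ∧
        ∀ y, (∀ β ∈ E, ∀ i < k, β ∈ x (f y i) ↔ β ∈ x (f z i)) → y ∉ Φ → y ∈ U
      isOpen_univ := fun _ _ => ⟨∅, ∅, finite_empty, finite_empty, fun _ _ _ => trivial⟩
      isOpen_inter := fun s t hs ht z hz => by
        obtain ⟨E, Φ, a, b, c⟩ := hs z hz.1
        obtain ⟨E', Φ', a', b', c'⟩ := ht z hz.2
        exact ⟨E ∪ E', Φ ∪ Φ', a.union a', b.union b', fun y u v =>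
          ⟨c y (fun β h => u β (Or.inl h)) fun e => v (Or.inl e),
            c' y (fun β h => u β (Or.inr h)) fun e => v (Or.inr e)⟩⟩
      isOpen_sUnion := fun S hS z ⟨s, hs, hz⟩ => by
        obtain ⟨E, Φ, a, b, c⟩ := hS s hs z hz
        exact ⟨E, Φ, a, b, fun y u v => ⟨s, hs, c y u v⟩⟩ }
  have op : ∀ (E : Set W) (Φ : Set I) (z : I), E.Finite → Φ.Finite → IsOpen
      {y | (∀ β ∈ E, ∀ i < k, β ∈ x (f y i) ↔ β ∈ x (f z i)) ∧ y ∉ Φ} := fun E Φ z a b w hw =>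
    ⟨E, Φ, a, b, fun y u v => ⟨fun β h i hi => (u β h i hi).trans (hw.1 β h i hi), v⟩⟩
  obtain ⟨C, a, b⟩ := rank (Z := I) (fun z w _ => ⟨∅, {z}, finite_empty, finite_singleton z,
    fun _ _ h => h⟩) (fun S => by
    let P : Set (W × ℕ × Prop) → Set I := fun s => {y ∈ S | ∀ p ∈ s, p.1 ∈ x (f y p.2.1) ↔ p.2.2}
    have : ∀ s, ∃ (C : Set I) (γ : W), C ⊆ P s ∧ C.Countable ∧ (P s ⊆ C ∨ ∀ E : Finset W,
        (∀ β ∈ E, γ < β) → ∀ σ : W → ℕ → Prop,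
          {y ∈ C | ∀ β ∈ E, ∀ i < k, β ∈ x (f y i) ↔ σ β i}.Infinite) := fun s => by
      by_cases h : (P s).Finite
      · exact ⟨P s, Classical.arbitrary _, subset_rfl, h.countable, Or.inl subset_rfl⟩
      · let e := Set.Infinite.natEmbedding _ h
        have ei : Function.Injective fun n => (e n).1 := Subtype.val_injective.comp e.injective
        obtain ⟨γ, hγ⟩ := hx (fun n => f (e n)) k fun n m i hi j hj h =>
          (hf _ _ i hi j hj h).imp_left fun h => ei h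
        exact ⟨range fun n => (e n).1, γ, range_subset_iff.2 fun n => (e n).2, countable_range _,
          Or.inr fun E hE σ => ((hγ E hE σ).image ei.injOn).mono
            (by rintro _ ⟨n, hn, rfl⟩; exact ⟨⟨n, rfl⟩, hn⟩)⟩
    choose C γ c1 c2 c3 using this
    have cs : ∀ α : W, {s : Set (W × ℕ × Prop) | s.Finite ∧ s ⊆ Iio α ×ˢ Set.univ}.Countable :=
      fun α => countable_ofPred_finite_subset ((cnt α).prod countable_univ)
    choose G hG using fun α => DT1.bd cnt _ ((cs α).image γ)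
    choose nx hnx using fun α : W => DT1.bd cnt _ (countable_singleton α)
    obtain ⟨δ₀⟩ : Nonempty W := inferInstance
    obtain ⟨δ, ⟨d1, d2⟩, -⟩ := (DT1.club cnt (fun α => G (nx α)) δ₀).isCofinal δ₀
    refine ⟨_, iUnion₂_subset fun s _ y hy => (c1 s hy).1, (cs δ).biUnion fun s _ => c2 s,
      fun z hz U hU hzU => ?_⟩
    obtain ⟨E, Φ, e1, e2, e3⟩ := hU z hzU
    let s := (fun q : W × ℕ => (q.1, q.2, q.1 ∈ x (f z q.2))) '' ((E ∩ Iio δ) ×ˢ Iio k)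
    have s1 : s.Finite := ((e1.inter_of_left _).prod (finite_Iio k)).image _
    have s2 : s ∈ {s : Set (W × ℕ × Prop) | s.Finite ∧ s ⊆ Iio δ ×ˢ Set.univ} :=
      ⟨s1, by rintro _ ⟨q, hq, rfl⟩; exact ⟨hq.1.2, trivial⟩⟩
    rcases c3 s with h | h
    · exact ⟨z, hzU, mem_biUnion s2 (h ⟨hz, by rintro _ ⟨q, -, rfl⟩; rfl⟩)⟩
    obtain ⟨α, a1, a2⟩ := exists_max_image (insert δ₀ (E ∩ Iio δ)) id
      ((e1.inter_of_left _).insert _) (insert_nonempty _ _)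
    have a3 : γ s < δ := (hG (nx α) _ ⟨s, ⟨s1, by
      rintro _ ⟨q, hq, rfl⟩
      exact ⟨mem_Iio.2 ((a2 _ (Or.inr hq.1)).trans_lt (hnx α α rfl)), trivial⟩⟩, rfl⟩).trans
      (d2 α (a1.elim (fun e => e ▸ d1) fun e => e.2))
    obtain ⟨y, ⟨y1, y2⟩, y3⟩ := ((h (e1.toFinset.filter (δ ≤ ·)) (fun β hβ =>
      a3.trans_le (Finset.mem_filter.1 hβ).2) fun β i => β ∈ x (f z i)).sdiff e2).nonempty
    refine ⟨y, e3 y (fun β hβ i hi => ?_) y3, mem_biUnion s2 y1⟩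
    by_cases u : β < δ
    · exact (c1 s y1).2 _ ⟨(β, i), ⟨⟨hβ, u⟩, hi⟩, rfl⟩
    · exact y2 β (by simp [hβ, not_lt.1 u]) i hi) (k + 1)
  refine ⟨C, a, fun D hD hF => ?_⟩
  obtain ⟨z, -, hz⟩ := not_subset.1 fun e => not_countable_univ (b.mono e)
  obtain ⟨c, c1, -, -, c2⟩ := not_not.1 hz Set.univ isOpen_univ trivial
    (insert {z ∈ C | ∀ i < k, f z i ∉ D} ((Finset.range k).image fun n => (fun i => f i n) ⁻¹' D))
    ((Finset.card_insert_le _ _).trans (Nat.succ_le_succ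
      (Finset.card_image_le.trans (Finset.card_range k).le))) fun A hA i hi => by
      rcases Finset.mem_insert.1 hA with rfl | hA
      · exact ⟨_, op ∅ _ i finite_empty (hF.subset (sdiff_subset (t := {i}))),
          ⟨fun _ h => h.elim, fun h => h.2 rfl⟩, fun y u v => by_contra fun e => u.2 ⟨v, e⟩⟩
      obtain ⟨n, hn, rfl⟩ := Finset.mem_image.1 hA
      rw [Finset.mem_range] at hn
      obtain ⟨E, e1, e2⟩ := hD _ hi
      exact ⟨_, op E _ i e1 ((e2.preimage (f := fun i => f i n) fun a _ b _ h =>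
        (hf _ _ n hn n hn h).1).subset (sdiff_subset (t := {i}))),
        ⟨fun _ _ _ _ => Iff.rfl, fun h => h.2 rfl⟩,
        fun y u v => by_contra fun e => u.2 ⟨⟨v, fun β h => u.1 β h n hn⟩, e⟩⟩
  exact c2 _ (Finset.mem_insert_self _ _) ⟨c1, fun n hn => c2 _ (Finset.mem_insert_of_mem
    (Finset.mem_image_of_mem _ (Finset.mem_range.2 hn)))⟩

theorem matrix (hCH : continuum.{0} = ℵ_ 1) : ∃ x : W → Set W, (∀ a, a ∈ x a) ∧
    (∀ D : Set W, D.Countable → DM x D → ∃ α, ∀ b ∈ D, b ∉ x α) ∧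
    ∀ (I : Type) [Uncountable I] (E O : I → Finset W), (∀ i k, i ≠ k → Disjoint (E i) (E k)) →
      ∃ C : Set I, C.Countable ∧ ∃ γ, ∀ α > γ, ∃ i ∈ C, ∀ b ∈ E i, b ∈ x α ↔ b ∈ O i := by
  classical
  have := unc
  obtain ⟨c, hc⟩ := col hCH
  obtain ⟨eD, hD⟩ := enum hCH W mk_W.le
  obtain ⟨eF, hF⟩ := enum hCH (Finset W × Finset W) (by simp)
  let X : (W → Set W) → W → Set W := fun r a => {b | b < a ∧ b ∈ r a ∨ b = a ∨ a < b ∧ a ∈ c b}
  let D : (W → Set W) → W → Set W := fun r α =>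
    {b | b ∈ range (eD α) ∧ range (eD α) ⊆ Iio α ∧ DM (X r) (range (eD α))}
  obtain ⟨r, hr⟩ := HG2.rec_e (T := W) id (fun α r (u : Set W) => (∀ b ∈ u, b ∉ D r α) ∧ ∀ γ < α,
    (∀ K : Set W, K.Finite → ∃ n, Disjoint ↑(eF γ n).1 K ∧
      ∀ b ∈ (eF γ n).1, b ∈ (eF γ n).2 → b ∉ D r α) →
      ∃ n, ∀ b ∈ (eF γ n).1, b ∈ u ↔ b ∈ (eF γ n).2) (fun t f g u h H => by
    have : D g t = D f t := Set.ext fun b => and_congr_right fun _ => and_congr_right fun e => by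
      have : ∀ a ∈ range (eD t), X g a = X f a := fun a ha => by simp only [X, h a (e ha)]
      refine forall₂_congr fun d hd => exists_congr fun E => and_congr_right fun _ => ?_
      rw [show {a ∈ range (eD t) | ∀ β ∈ E, β ∈ X g a ↔ β ∈ X g d} =
        {a ∈ range (eD t) | ∀ β ∈ E, β ∈ X f a ↔ β ∈ X f d} from Set.ext fun a =>
          and_congr_right fun ha => by rw [this a ha, this d hd]]
    rwa [this]) fun α r _ => by
    have h1 := (cnt α).to_subtype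
    obtain ⟨u, u1, u2⟩ := gen (ι := {γ : Iio α // ∀ K : Set W, K.Finite → ∃ n,
        Disjoint ↑(eF γ n).1 K ∧ ∀ b ∈ (eF γ n).1, b ∈ (eF γ n).2 → b ∉ D r α})
      (fun γ => {p | ∃ n, (∀ b ∈ (eF γ.1 n).1, b ∈ (eF γ.1 n).2 → b ∉ D r α) ∧
        p = (((eF γ.1 n).1 : Set W), ((eF γ.1 n).2 : Set W))}) fun γ K hK => by
        obtain ⟨n, a, b⟩ := γ.2 K hK
        exact ⟨(↑(eF γ.1 n).1, ↑(eF γ.1 n).2), ⟨n, b, rfl⟩, Finset.finite_toSet _, a⟩
    refine ⟨u, fun b hb => ?_, fun γ hγ h => ?_⟩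
    · obtain ⟨γ, _, ⟨n, a, rfl⟩, d, e⟩ := u2 b hb
      exact a b d e
    · obtain ⟨_, ⟨n, -, rfl⟩, d⟩ := u1 ⟨⟨γ, hγ⟩, h⟩
      exact ⟨n, d⟩
  have x1 : ∀ a b, b < a → (b ∈ X r a ↔ b ∈ r a) := fun a b h => by
    simp [X, h, h.ne, h.not_gt]
  refine ⟨X r, fun a => Or.inr (Or.inl rfl), fun S h1 h2 => ?_, fun I _ E O hE => ?_⟩
  · rcases S.eq_empty_or_nonempty with rfl | h
    · exact ⟨Classical.arbitrary _, fun _ h => h.elim⟩
    obtain ⟨g, rfl⟩ := h1.exists_eq_range h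
    obtain ⟨β, hβ⟩ := DT1.bd cnt _ h1
    obtain ⟨α, a, rfl⟩ := hD g β
    exact ⟨α, fun b hb e => (hr α).1 b ((x1 α b ((hβ b hb).trans a)).1 e)
      ⟨hb, fun b hb => mem_Iio.2 ((hβ b hb).trans a), h2⟩⟩
  obtain ⟨k, hk⟩ : ∃ k, ¬ {i | (E i ∩ O i).card = k}.Countable := by
    by_contra h
    push Not at h
    exact not_countable_univ ((countable_iUnion h).mono fun i _ => mem_iUnion.2 ⟨(E i ∩ O i).card, rfl⟩)
  have : Uncountable {i | (E i ∩ O i).card = k} :=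
    not_countable_iff.1 fun h => hk (countable_coe_iff.1 h)
  have : ∀ i : {i | (E i ∩ O i).card = k}, ∃ f : ℕ → W, (∀ n < k, f n ∈ E i) ∧
      (∀ n < k, ∀ m < k, f n = f m → n = m) ∧ ∀ b ∈ E i ∩ O i, ∃ n < k, f n = b := by
    rintro ⟨i, rfl⟩
    refine ⟨fun n => if h : n < _ then (E i ∩ O i).equivFin.symm ⟨n, h⟩ else Classical.arbitrary _,
      fun n hn => ?_, fun n hn m hm => ?_, fun x hx =>
      ⟨(E i ∩ O i).equivFin ⟨x, hx⟩, Fin.is_lt _, by simp⟩⟩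
    · simp only [hn, dif_pos]
      exact (Finset.mem_inter.1 (Subtype.property _)).1
    · simp [hn, hm]
  choose f f1 f2 f3 using this
  obtain ⟨C, c1, c2⟩ := star (X r) (fun g k hg => by
    obtain ⟨γ, hγ⟩ := hc g k hg
    obtain ⟨β, hβ⟩ := DT1.bd cnt _ ((countable_range fun p : ℕ × ℕ => g p.1 p.2).insert γ)
    refine ⟨β, fun E hE σ => Set.Infinite.mono ?_
      (hγ E (fun b hb => (hβ γ (Or.inl rfl)).trans (hE b hb)) σ)⟩
    intro n hn b hb i hi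
    refine Iff.trans ?_ (hn b hb i hi)
    have := (hβ _ (Or.inr ⟨(n, i), rfl⟩)).trans (hE b hb)
    simp [X, this, this.ne', this.not_gt]) f k fun y z i hi j hj e => by
      obtain rfl : y = z := by_contra fun u => Finset.disjoint_left.1
        (hE y z fun v => u (Subtype.ext v)) (f1 y i hi) (e ▸ f1 z j hj)
      exact ⟨rfl, f2 y i hi j hj e⟩
  obtain ⟨g, rfl⟩ := c1.exists_eq_range
    ((c2 ∅ fun _ h => h.elim).nonempty.mono (sep_subset _ _))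
  obtain ⟨β, hβ⟩ := DT1.bd cnt _ (countable_iUnion fun n => (E (g n)).countable_toSet)
  obtain ⟨γ, a, e⟩ := hF (fun n => (E (g n), O (g n))) β
  refine ⟨_, countable_range fun n => (g n).1, γ, fun α hα => ?_⟩
  obtain ⟨n, hn⟩ := (hr α).2 γ hα fun K hK => by
    have h1 : DM (X r) (D r α) := fun d hd => by
      obtain ⟨E, a, b⟩ := hd.2.2 d hd.1
      exact ⟨E, a, b.subset fun a ha => ⟨ha.1.1, ha.2⟩⟩
    have h2 : {y : {i | (E i ∩ O i).card = k} | ¬ Disjoint ↑(E y) K}.Finite :=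
      (hK.biUnion fun z _ => Subsingleton.finite (s := {y : {i | (E i ∩ O i).card = k} | z ∈ E y})
        fun y hy w hw => by_contra fun u => Finset.disjoint_left.1
          (hE y w fun v => u (Subtype.ext v)) hy hw).subset fun y hy => by
        obtain ⟨z, a, b⟩ := not_disjoint_iff.1 hy
        exact mem_biUnion b a
    obtain ⟨_, ⟨⟨n, rfl⟩, u⟩, v⟩ := ((c2 _ h1).sdiff h2).nonempty
    rw [e]
    refine ⟨n, not_not.1 v, fun b b1 b2 => ?_⟩
    obtain ⟨i, hi, rfl⟩ := f3 (g n) b (Finset.mem_inter.2 ⟨b1, b2⟩)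
    exact u i hi
  rw [e] at hn
  exact ⟨_, ⟨n, rfl⟩, fun b hb =>
    (x1 α b (((hβ b (mem_iUnion.2 ⟨n, hb⟩)).trans a).trans hα)).trans (hn b hb)⟩

theorem cov (x : W → Set W) (hx : ∀ (I : Type) [Uncountable I] (E O : I → Finset W),
    (∀ i k, i ≠ k → Disjoint (E i) (E k)) →
      ∃ C : Set I, C.Countable ∧ ∃ γ, ∀ α > γ, ∃ i ∈ C, ∀ b ∈ E i, b ∈ x α ↔ b ∈ O i) (N : ℕ) :
    ∀ (S : Set W) (E : W → Finset W), (∀ a ∈ S, (E a).card ≤ N) →
      ∃ T ⊆ S, T.Countable ∧ ∀ a ∈ S, ∃ y ∈ T, ∀ b ∈ E y, b ∈ x a ↔ b ∈ x y := by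
  classical
  have z : ∀ (S : Set W) (E : W → Finset W), (∃ y ∈ S, E y = ∅) → ∃ T ⊆ S, T.Countable ∧
      ∀ a ∈ S, ∃ y ∈ T, ∀ b ∈ E y, b ∈ x a ↔ b ∈ x y := fun S E ⟨y, a, b⟩ =>
    ⟨{y}, singleton_subset_iff.2 a, countable_singleton y, fun x _ => ⟨y, rfl, by simp [b]⟩⟩
  induction N with
  | zero =>
    intro S E a
    rcases S.eq_empty_or_nonempty with rfl | ⟨y, hy⟩
    · exact ⟨∅, subset_rfl, countable_empty, fun _ h => h.elim⟩
    · exact z S E ⟨y, hy, Finset.card_eq_zero.1 (Nat.le_zero.1 (a y hy))⟩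
  | succ N ih =>
  intro S E a
  by_cases e : ∃ y ∈ S, E y = ∅
  · exact z S E e
  push Not at e
  obtain ⟨T, hT⟩ := zorn_subset {T | T ⊆ S ∧ T.Pairwise fun x y => Disjoint (E x) (E y)}
    fun c hc hch => ⟨⋃₀ c, ⟨sUnion_subset fun t ht => (hc ht).1,
      (pairwise_sUnion hch.directedOn).2 fun t ht => (hc ht).2⟩, fun _ => subset_sUnion_of_mem⟩
  by_cases c : T.Countable
  · choose U u1 u2 u3 using fun (β : W) (v : Prop) => ih {a ∈ S | β ∈ E a ∧ (β ∈ x a ↔ v)}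
      (fun x => (E x).erase β)
      fun x hx => by have := a x hx.1; rw [Finset.card_erase_of_mem hx.2.1]; omega
    refine ⟨⋃ y ∈ T, ⋃ β ∈ E y, ⋃ v, U β v, iUnion₂_subset fun _ _ => iUnion₂_subset fun β _ =>
      iUnion_subset fun v x hx => (u1 β v hx).1, c.biUnion fun y _ =>
        (E y).countable_toSet.biUnion fun β _ => countable_iUnion (u2 β), fun x' hx => ?_⟩
    obtain ⟨y, hy, β, b1, b2⟩ : ∃ y ∈ T, ∃ β ∈ E y, β ∈ E x' := by
      by_contra n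
      push Not at n
      have d : ∀ y ∈ T, Disjoint (E y) (E x') := fun y hy => Finset.disjoint_left.2 (n y hy)
      obtain ⟨β, hβ⟩ := e x' hx
      exact n x' (hT.2 (y := insert x' T) ⟨insert_subset hx hT.1.1, hT.1.2.insert
        fun y hy _ => ⟨(d y hy).symm, d y hy⟩⟩ (subset_insert _ _) (mem_insert _ _)) β hβ hβ
    obtain ⟨w, w1, w2⟩ := u3 β _ x' ⟨hx, b2, Iff.rfl⟩
    refine ⟨w, mem_biUnion hy (mem_biUnion b1 (mem_iUnion.2 ⟨_, w1⟩)), fun γ g => ?_⟩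
    by_cases f : γ = β
    · exact f ▸ (u1 _ _ w1).2.2.symm
    · exact w2 γ (Finset.mem_erase.2 ⟨f, g⟩)
  · have : Uncountable T := not_countable_iff.1 fun h => c (countable_coe_iff.1 h)
    obtain ⟨C, c1, γ, c2⟩ := hx T (fun y => E y) (fun y => (E y).filter (· ∈ x y))
      fun i k u => hT.1.2 i.2 k.2 fun v => u (Subtype.ext v)
    refine ⟨(↑) '' C ∪ S ∩ Iic γ, union_subset (by rintro _ ⟨y, -, rfl⟩; exact hT.1.1 y.2)
      inter_subset_left, (c1.image _).union (((cnt γ).insert γ).mono fun a h =>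
        (mem_Iic.1 h.2).eq_or_lt), fun a ha => ?_⟩
    by_cases h : γ < a
    · obtain ⟨i, u, v⟩ := c2 a h
      exact ⟨i, Or.inl ⟨i, u, rfl⟩, fun b hb => (v b hb).trans (by simp [hb])⟩
    · exact ⟨a, Or.inr ⟨ha, not_lt.1 h⟩, fun _ _ => Iff.rfl⟩

theorem main (hCH : continuum.{0} = ℵ_ 1) : ∃ X : Set (W → Bool), (∀ S : Set X, IsLindelof S) ∧
    (∀ (I : Type) [Uncountable I] (E O : I → Finset W), (∀ i k, i ≠ k → Disjoint (E i) (E k)) →
      ∃ C : Set I, C.Countable ∧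
        {p ∈ X | ¬ ∃ i ∈ C, ∀ b ∈ E i, p b = true ↔ b ∈ O i}.Countable) ∧
    ∃ U : X → Set X, (∀ p, IsOpen (U p) ∧ p ∈ U p) ∧
      ∀ D : Set X, DiscreteTopology D → (⋃ p ∈ D, U p) ≠ Set.univ := by
  classical
  obtain ⟨x, x1, x2, x3⟩ := matrix hCH
  let φ : W → W → Bool := fun a b => decide (b ∈ x a)
  choose π hπ using fun p : range φ => p.2
  let e : W → range φ := fun a => ⟨φ a, a, rfl⟩
  have he : ∀ p, e (π p) = p := fun p => Subtype.ext (hπ p)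
  have nb : ∀ V : Set (range φ), IsOpen V → ∀ a, e a ∈ V → ∃ E : Finset W,
      ∀ y, (∀ b ∈ E, b ∈ x y ↔ b ∈ x a) → e y ∈ V := fun V hV a ha => by
    obtain ⟨V, h, rfl⟩ := isOpen_induced_iff.1 hV
    obtain ⟨E, u, a1, a2⟩ := isOpen_pi_iff.1 h _ ha
    exact ⟨E, fun y hy => a2 fun b hb => by
      simpa only [e, φ, hy b hb] using (a1 b hb).2⟩
  have hl : ∀ S : Set (range φ), IsLindelof S := fun S => isLindelof_of_countable_subcover
    fun {ι} U hU hS => by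
    rcases S.eq_empty_or_nonempty with rfl | ⟨x₀, h₀⟩
    · exact ⟨∅, countable_empty, empty_subset _⟩
    have : ∀ a, ∃ (i : ι) (E : Finset W), e a ∈ S →
        ∀ y, (∀ b ∈ E, b ∈ x y ↔ b ∈ x a) → e y ∈ U i := fun a => by
      by_cases h : e a ∈ S
      · obtain ⟨i, hi⟩ := mem_iUnion.1 (hS h)
        obtain ⟨E, a⟩ := nb _ (hU i) a hi
        exact ⟨i, E, fun _ => a⟩
      · exact ⟨(mem_iUnion.1 (hS h₀)).choose, ∅, fun e => absurd e h⟩
    choose i E h using this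
    choose T t1 t2 t3 using fun N => cov x x3 N {a | e a ∈ S ∧ (E a).card ≤ N} E fun _ h => h.2
    refine ⟨i '' ⋃ N, T N, (countable_iUnion t2).image _, fun p hp => ?_⟩
    obtain ⟨y, u, v⟩ := t3 _ (π p) ⟨(he p).symm ▸ hp, le_rfl⟩
    exact mem_biUnion (mem_image_of_mem i (mem_iUnion.2 ⟨_, u⟩)) (he p ▸ h y (t1 _ u).1 _ v)
  refine ⟨range φ, hl, fun I _ E O hE => ?_, fun p => {q | q.1 (π p) = true}, fun p =>
    ⟨(isOpen_discrete ({true} : Set Bool)).preimage (f := fun q : range φ => q.1 (π p))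
      ((continuous_apply (π p)).comp continuous_subtype_val),
      by rw [mem_ofPred_eq, ← hπ p]; exact decide_eq_true (x1 _)⟩, fun D hD h => ?_⟩
  · obtain ⟨C, a, γ, b⟩ := x3 I E O hE
    refine ⟨C, a, (((cnt γ).insert γ).image φ).mono ?_⟩
    rintro _ ⟨⟨α, rfl⟩, u⟩
    exact ⟨α, (not_lt.1 fun v => u (by simpa [φ] using b α v)).eq_or_lt, rfl⟩
  obtain ⟨α, hα⟩ := x2 (π '' D) (((hl D).countable hD).image _) (by
    rintro _ ⟨p, hp, rfl⟩
    obtain ⟨V, v1, v2⟩ := isOpen_inter_eq_singleton_of_mem_discrete ⟨hD⟩ hp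
    obtain ⟨E, hE⟩ := nb V v1 (π p) ((he p).symm ▸ (v2.ge rfl).1)
    refine ⟨E, E.finite_toSet, (finite_singleton (π p)).subset ?_⟩
    rintro _ ⟨⟨q, hq, rfl⟩, u⟩
    exact congrArg π (v2.le ⟨he q ▸ hE _ u, hq⟩))
  obtain ⟨p, hp, u⟩ := mem_iUnion₂.1 (h.ge (mem_univ (e α)))
  exact hα _ ⟨p, hp, rfl⟩ (of_decide_eq_true u)

end Pool.Agent.H33.VD2
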