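import Pool.Agent.H33.WF1
import Pool.Agent.H33.HG2

/-! A van Douwen type locally compact refinement of the Cantor set (ZFC). -/

open Set Filter Topology Cardinal Pool.Agent.H33.WF1

namespace Pool.Agent.H33.VL1

/-- membership in the basic neighbourhoods -/
inductive InV {P : Type} (c : P → ℕ → P → Prop) : P → ℕ → P → Prop
  | refl (x : P) (n : ℕ) : InV c x n x
  | step (x : P) (n k : ℕ) (y z : P) : n ≤ k → c x k y → InV c y k z → InV c x n z

theorem space {P : Type} (j : P → ℕ → Bool) (ch : P → ℕ → P → Prop)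
    (wf : WellFounded fun y x => ∃ m, ch x m y) :
    ∃ (_ : TopologicalSpace P), Continuous j ∧
      (∀ x : P, ∃ u, IsOpen u ∧ x ∈ u ∧ IsCompact u ∧ u.Countable) ∧
      ∀ x m, j x ∈ closure (j '' {y | ch x m y}) → x ∈ closure {y | ch x m y} := by
  classical
  let ok : P → ℕ → P → Prop := fun x k y => ch x k.unpair.1 y ∧ ∀ i < k, j y i = j x i
  let c : P → ℕ → P → Prop := fun x k y => ∃ h : ∃ y, ok x k y, y = h.choose
  have hc : ∀ x k y, c x k y → ok x k y := by
    rintro x k y ⟨h, rfl⟩; exact h.choose_spec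
  let V : P → ℕ → Set P := fun x n => {z | InV c x n z}
  let Q : P → ℕ → Set P := fun x k => {z | ∃ y, c x k y ∧ InV c y k z}
  have e : ∀ x n, V x n = insert x (⋃ k ≥ n, Q x k) := fun x n => by
    ext z
    constructor
    · rintro (_ | ⟨_, _, k, y, _, h1, h2, h3⟩)
      · exact Or.inl rfl
      · exact Or.inr (mem_iUnion₂.2 ⟨k, h1, y, h2, h3⟩)
    · rintro (rfl | h)
      · exact InV.refl _ _
      · obtain ⟨k, h1, y, h2, h3⟩ := mem_iUnion₂.1 h
        exact InV.step _ _ k y _ h1 h2 h3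
  have pc : ∀ x k, Q x k = ∅ ∨ ∃ y m, (∃ p, ch x p y) ∧ Q x k = V y m := fun x k => by
    by_cases h : ∃ y, ok x k y
    · refine Or.inr ⟨h.choose, k, ⟨_, h.choose_spec.1⟩, ?_⟩
      ext z
      exact ⟨fun ⟨y, ⟨_, hy⟩, hz⟩ => hy ▸ hz, fun hz => ⟨_, ⟨h, rfl⟩, hz⟩⟩
    · exact Or.inl (eq_empty_of_forall_notMem fun z ⟨y, ⟨h', _⟩, _⟩ => h h')
  have cyl : ∀ x n z, InV c x n z → ∀ i < n, j z i = j x i := fun x n z h => by
    induction h with
    | refl => exact fun _ _ => rfl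
    | step x n k y z h1 h2 _ ih =>
      exact fun i hi => (ih i (hi.trans_le h1)).trans ((hc _ _ _ h2).2 i (hi.trans_le h1))
  let τ := wtop V fun x => anti (e x)
  have hT : ∀ U : Set P, IsOpen U ↔ ∀ x ∈ U, ∃ n, V x n ⊆ U := fun _ => Iff.rfl
  have hv := vs wf e pc hT
  refine ⟨τ, continuous_pi fun i => continuous_def.2 fun U _ => (hT _).2 fun x hx =>
    ⟨i + 1, fun z hz => ?_⟩, fun x => ⟨V x 0, (hv x 0).1, InV.refl _ _, (hv x 0).2⟩,
    fun x m hm => mem_closure_iff.2 fun U hU hx => ?_⟩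
  · rwa [mem_preimage, cyl x _ z hz i (Nat.lt_succ_self i)]
  obtain ⟨n, hn⟩ := (hT _).1 hU x hx
  have : IsOpen {w : ℕ → Bool | ∀ i < Nat.pair m n, w i = j x i} := by
    have : {w : ℕ → Bool | ∀ i < Nat.pair m n, w i = j x i} =
        ⋂ i ∈ Iio (Nat.pair m n), (fun w => w i) ⁻¹' {j x i} := by
      ext; simp
    rw [this]
    exact (finite_Iio _).isOpen_biInter fun i _ => (isOpen_discrete _).preimage (continuous_apply i)
  obtain ⟨_, hw, y, hy, rfl⟩ := mem_closure_iff.1 hm _ this fun _ _ => rfl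
  have h : ∃ y, ok x (Nat.pair m n) y := ⟨y, by rw [Nat.unpair_pair]; exact hy, hw⟩
  have h1 := h.choose_spec.1
  rw [Nat.unpair_pair] at h1
  exact ⟨h.choose, hn (InV.step _ _ _ _ _ (Nat.right_le_pair _ _) ⟨h, rfl⟩ (InV.refl _ _)), h1⟩

theorem pick {T K : Type} (hT : #T ≤ 𝔠) (S R : T → Set K) (hS : ∀ t, 𝔠 ≤ #(S t))
    (hR : ∀ t, (R t).Countable) [Nonempty K] : ∃ x : T → K, Function.Injective x ∧
      (∀ t, x t ∈ S t) ∧ WellFounded fun y p => ∃ t, p = x t ∧ y ∈ R t := by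
  obtain ⟨e⟩ := (le_def _ _).1 (hT.trans_eq (mk_ord_toType 𝔠).symm)
  obtain ⟨x, H⟩ := HG2.rec_e e (fun t f (y : K) => y ∈ S t ∧ (∀ s, e s < e t → y ≠ f s) ∧
      ∀ s, e s ≤ e t → y ∉ R s)
    (fun t f g y h hy => ⟨hy.1, fun s hs => h s hs ▸ hy.2.1 s hs, hy.2.2⟩) fun t f _ => by
      have h1 : #{s | e s < e t} < 𝔠 := (mk_preimage_of_injective e (Iio (e t)) e.injective).trans_lt
        ((mk_Iio_lt (e t) (by simp)).trans_eq (mk_ord_toType 𝔠))
      have h2 : #(⋃ s : {s | e s < e t}, insert (f s) (R s)) < 𝔠 :=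
        (mk_iUnion_le _).trans_lt (mul_lt_of_lt aleph0_le_continuum h1
          ((ciSup_le' fun s => le_aleph0_iff_set_countable.2 ((hR _).insert _)).trans_lt
            aleph0_lt_continuum))
      have h3 := (mk_union_le _ _).trans_lt (add_lt_of_lt aleph0_le_continuum h2
        ((le_aleph0_iff_set_countable.2 (hR t)).trans_lt aleph0_lt_continuum))
      obtain ⟨y, y1, y2⟩ := not_subset.1 fun h => h3.not_ge ((hS t).trans (mk_le_mk_of_subset h))
      refine ⟨y, y1, fun s hs h => y2 (Or.inl (mem_iUnion.2 ⟨⟨s, hs⟩, Or.inl h⟩)),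
        fun s hs h => y2 ?_⟩
      rcases hs.eq_or_lt with hs | hs
      · exact Or.inr (e.injective hs ▸ h)
      · exact Or.inl (mem_iUnion.2 ⟨⟨s, hs⟩, Or.inr h⟩)
  have inj : Function.Injective x := fun s t h => by
    rcases lt_trichotomy (e s) (e t) with a | a | a
    · exact absurd h.symm ((H t).2.1 s a)
    · exact e.injective a
    · exact absurd h ((H s).2.1 t a)
  refine ⟨x, inj, fun t => (H t).1, ⟨fun p => ?_⟩⟩
  have h0 : ∀ p, p ∉ range x → Acc (fun y p => ∃ t, p = x t ∧ y ∈ R t) p :=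
    fun p hp => ⟨_, fun y ⟨t, a, _⟩ => absurd ⟨t, a.symm⟩ hp⟩
  by_cases hp : p ∈ range x
  swap
  · exact h0 p hp
  obtain ⟨t, rfl⟩ := hp
  induction t using (InvImage.wf e wellFounded_lt).induction with
  | _ t ih =>
  refine ⟨_, fun y ⟨s, a, b⟩ => ?_⟩
  obtain rfl := inj a
  by_cases hy : y ∈ range x
  · obtain ⟨s, rfl⟩ := hy
    exact ih s (not_le.1 fun h => (H s).2.2 t h b)
  · exact h0 y hy

/-- the underlying set -/
structure Pt : Type where
  /-- the point of the Cantor set -/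
  v : ℕ → Bool

theorem line : ∃ (P : Type) (_ : TopologicalSpace P) (j : P → ℕ → Bool), Uncountable P ∧
    Function.Injective j ∧ Continuous j ∧
    (∀ x : P, ∃ u, IsOpen u ∧ x ∈ u ∧ IsCompact u ∧ u.Countable) ∧
    ∀ F : ℕ → Set P, ¬ (⋂ n, closure (j '' F n)).Countable → (⋂ n, closure (F n)).Nonempty := by
  have hc : #(ℕ → Bool) = 𝔠 := by simp
  have : TopologicalSpace.IsCompletelyMetrizableSpace Bool := inferInstance
  have : TopologicalSpace.IsCompletelyMetrizableSpace (ℕ → Bool) := inferInstance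
  have : PolishSpace (ℕ → Bool) := inferInstance
  obtain ⟨x, x1, x2, x3⟩ := pick (T := ℕ → ℕ → ℕ → Bool) (K := ℕ → Bool) (by simp)
    (fun t => {y | ¬ (⋂ n, closure (range (t n))).Countable → y ∈ ⋂ n, closure (range (t n))})
    (fun t => ⋃ n, range (t n)) (fun t => by
      by_cases h : (⋂ n, closure (range (t n))).Countable
      · simp [h]
      · obtain ⟨f, f1, -, f2⟩ := (isClosed_iInter fun n => isClosed_closure
          ).exists_nat_bool_injection_of_not_countable h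
        exact hc.ge.trans ((mk_range_eq f f2).ge.trans
          (mk_le_mk_of_subset fun y hy _ => f1 hy)))
    fun t => countable_iUnion fun n => countable_range _
  obtain ⟨τ, a, b, c⟩ := space Pt.v (fun p m y => ∃ t, p.v = x t ∧ y.v ∈ range (t m))
    (Subrelation.wf (fun ⟨m, t, h1, h2⟩ => ⟨t, h1, mem_iUnion.2 ⟨m, h2⟩⟩) (InvImage.wf Pt.v x3))
  refine ⟨Pt, τ, Pt.v, ?_, fun _ _ h => congrArg Pt.mk h, a, b, fun F hF => ?_⟩
  · have : Uncountable (ℕ → Bool) := by
      rw [← aleph0_lt_mk_iff]; exact aleph0_lt_continuum.trans_eq hc.symm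
    exact Function.Injective.uncountable (f := Pt.mk) fun _ _ h => congrArg Pt.v h
  have : ∀ n, ∃ t : ℕ → ℕ → Bool, range t ⊆ Pt.v '' F n ∧
      closure (Pt.v '' F n) ⊆ closure (range t) := fun n => by
    obtain ⟨D, d1, d2, d3⟩ := (TopologicalSpace.IsSeparable.of_separableSpace
      (Pt.v '' F n)).exists_countable_dense_subset
    have h1 := closure_minimal d3 isClosed_closure
    obtain ⟨t, rfl⟩ := d2.exists_eq_range (nonempty_iff_ne_empty.2 fun h => hF (by
      rw [h, closure_empty] at h1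
      exact countable_empty.mono ((iInter_subset _ n).trans h1)))
    exact ⟨t, d1, h1⟩
  choose t t1 t2 using this
  have h := x2 t fun h => hF (h.mono (iInter_mono t2))
  refine ⟨⟨x t⟩, mem_iInter.2 fun n =>
    closure_mono ?_ (c ⟨x t⟩ n (closure_mono ?_ (mem_iInter.1 h n)))⟩
  · rintro y ⟨s, h1, h2⟩
    obtain rfl := x1 h1
    obtain ⟨z, a, b⟩ := t1 n h2
    obtain rfl : z = y := congrArg Pt.mk b
    exact a
  · exact fun y hy => ⟨⟨y⟩, ⟨t, rfl, hy⟩, rfl⟩

end Pool.Agent.H33.VL1
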