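import Pool.Agent.H33.VL1

/-! Properties of the van Douwen type line. -/

open Set Filter Topology

namespace Pool.Agent.H33.VL2

variable {P : Type} [TopologicalSpace P] {j : P → ℕ → Bool}

theorem part (hj : Function.Injective j) (hc : Continuous j)
    (hu : ∀ x : P, ∃ u, IsOpen u ∧ x ∈ u ∧ IsCompact u ∧ u.Countable)
    (hF : ∀ F : ℕ → Set P, ¬ (⋂ n, closure (j '' F n)).Countable → (⋂ n, closure (F n)).Nonempty)
    [Nonempty P] {ι : Type} (U : ι → Set P) (I : Set ι) (hI : I.Countable) (hU : ∀ i, IsOpen (U i))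
    (h : ∀ x, ∃ i ∈ I, x ∈ U i) :
    ∃ c : P → ι, (∀ s : Set ι, IsOpen (c ⁻¹' s)) ∧ ∀ x, x ∈ U (c x) := by
  have : T2Space P := T2Space.of_injective_continuous hj hc
  obtain ⟨g, rfl⟩ := hI.exists_eq_range ((h (Classical.arbitrary P)).imp fun _ h => h.1)
  have hD : (⋂ n, closure (j '' (U (g n))ᶜ)).Countable := by
    by_contra e
    obtain ⟨x, hx⟩ := hF _ e
    obtain ⟨_, ⟨n, rfl⟩, a⟩ := h x
    exact ((hU _).isClosed_compl.closure_eq ▸ mem_iInter.1 hx n :) a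
  choose u u1 u2 u3 u4 using hu
  have hK : {c : Set (ℕ → Bool) | IsClopen c}.Countable := by
    have := (TopologicalSpace.Clopens.countable_iff_secondCountable (X := ℕ → Bool)).2 inferInstance
    refine (countable_range fun c : TopologicalSpace.Clopens (ℕ → Bool) => c.1).mono
      fun c hc => ?_
    exact ⟨⟨c, hc⟩, rfl⟩
  let S : Set (Set P) := image2 (fun v c => v ∩ j ⁻¹' c)
    (insert univ (u '' (j ⁻¹' ⋂ n, closure (j '' (U (g n))ᶜ)))) {c | IsClopen c}
  have hS : S.Countable := (((hD.preimage hj).image u).insert _).image2 hK _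
  have s1 : ∀ o ∈ S, IsClopen o := by
    rintro _ ⟨_, rfl | ⟨x, -, rfl⟩, c, b, rfl⟩
    · exact isClopen_univ.inter (b.preimage hc)
    · exact IsClopen.inter ⟨(u3 x).isClosed, u1 x⟩ (b.preimage hc)
  have s2 : ∀ x, ∃ o ∈ {o ∈ S | ∃ i, o ⊆ U i}, x ∈ o := fun x => by
    by_cases e : j x ∈ ⋂ n, closure (j '' (U (g n))ᶜ)
    · obtain ⟨i, -, a⟩ := h x
      obtain ⟨c, c1, c2, c3⟩ := compact_exists_isClopen_in_isOpen
        (((u3 x).diff (hU i)).image hc).isClosed.isOpen_compl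
        (show j x ∉ _ from fun ⟨y, b, e⟩ => b.2 (hj e ▸ a))
      exact ⟨_, ⟨⟨_, Or.inr ⟨x, e, rfl⟩, c, c1, rfl⟩, i, fun y hy =>
        not_not.1 fun b => c3 hy.2 ⟨y, ⟨hy.1, b⟩, rfl⟩⟩, u2 x, c2⟩
    · obtain ⟨n, hn⟩ := not_forall.1 (mt mem_iInter.2 e)
      obtain ⟨c, c1, c2, c3⟩ := compact_exists_isClopen_in_isOpen isClosed_closure.isOpen_compl hn
      exact ⟨_, ⟨⟨_, Or.inl rfl, c, c1, rfl⟩, g n, fun y hy =>
        not_not.1 fun b => c3 hy.2 (subset_closure ⟨y, b, rfl⟩)⟩, trivial, c2⟩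
  obtain ⟨O, hO⟩ := (hS.mono (sep_subset S fun o => ∃ i, o ⊆ U i)).exists_eq_range
    ((s2 (Classical.arbitrary P)).imp fun _ h => h.1)
  have s3 : ∀ x, ∃ k, x ∈ O k := fun x => by
    obtain ⟨o, a, b⟩ := s2 x
    obtain ⟨k, rfl⟩ := hO.le a
    exact ⟨k, b⟩
  choose i hi using fun k => (hO.ge ⟨k, rfl⟩).2
  classical
  refine ⟨fun x => i (Nat.find (s3 x)), fun s => isOpen_iff_mem_nhds.2 fun x hx => ?_,
    fun x => hi _ (Nat.find_spec (s3 x))⟩
  have h1 : ∀ k, ∀ᶠ y in 𝓝 x, (y ∈ O k ↔ x ∈ O k) := fun k => by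
    have := s1 _ (hO.ge ⟨k, rfl⟩).1
    by_cases e : x ∈ O k
    · filter_upwards [this.2.mem_nhds e] with y hy using by simp [hy, e]
    · filter_upwards [this.1.isOpen_compl.mem_nhds e] with y hy using by simpa [e] using hy
  filter_upwards [(eventually_all_finite (finite_Iic (Nat.find (s3 x)))).2 fun k _ => h1 k] with y hy
  have : Nat.find (s3 y) = Nat.find (s3 x) := (Nat.find_eq_iff _).2
    ⟨(hy _ self_mem_Iic).2 (Nat.find_spec (s3 x)), fun k hk e => Nat.find_min (s3 x) hk ((hy k hk.le).1 e)⟩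
  rwa [mem_preimage, this]

omit [TopologicalSpace P] in
theorem dns [Nonempty P] (A : Set P) (j : P → ℕ → Bool) :
    ∃ B ⊆ A, B.Countable ∧ j '' A ⊆ closure (j '' B) := by
  obtain ⟨D, d1, d2, d3⟩ := (TopologicalSpace.IsSeparable.of_separableSpace
    (j '' A)).exists_countable_dense_subset
  choose! g g1 g2 using d1
  exact ⟨g '' D, image_subset_iff.2 g1, d2.image _,
    d3.trans (closure_mono fun y hy => ⟨_, ⟨y, hy, rfl⟩, g2 hy⟩)⟩

theorem ext [Nonempty P] (hj : Function.Injective j)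
    (hF : ∀ F : ℕ → Set P, ¬ (⋂ n, closure (j '' F n)).Countable → (⋂ n, closure (F n)).Nonempty)
    (E : Set P) (h : ∀ z, ∃ W ∈ 𝓝 z, (W ∩ E).Subsingleton) : E.Countable := by
  by_contra e
  obtain ⟨B, b1, b2, b3⟩ := dns E j
  obtain ⟨z, hz⟩ := hF (fun n => Nat.casesOn n B fun _ => E \ B) fun h => e
    ((b2.union (h.preimage hj)).mono fun y hy => or_iff_not_imp_left.2 fun a =>
      mem_iInter.2 fun n => by
        cases n
        · exact b3 ⟨y, hy, rfl⟩
        · exact subset_closure ⟨y, ⟨hy, a⟩, rfl⟩)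
  obtain ⟨W, w1, w2⟩ := h z
  obtain ⟨a, a1, a2⟩ := mem_closure_iff_nhds.1 (mem_iInter.1 hz 0) W w1
  obtain ⟨b, c1, c2⟩ := mem_closure_iff_nhds.1 (mem_iInter.1 hz 1) W w1
  exact c2.2 (w2 ⟨a1, b1 a2⟩ ⟨c1, c2.1⟩ ▸ a2)

theorem nn [T2Space P] [WeaklyLocallyCompactSpace P] [Uncountable P]
    (hu : ∀ x : P, ∃ u, IsOpen u ∧ x ∈ u ∧ IsCompact u ∧ u.Countable)
    (hE : ∀ E : Set P, (∀ z, ∃ W ∈ 𝓝 z, (W ∩ E).Subsingleton) → E.Countable) :
    ¬ NormalSpace (P × OnePoint P) := by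
  intro h
  choose u u1 u2 u3 u4 using hu
  have kc : ∀ K : Set P, IsCompact K → K.Countable := fun K hK => by
    obtain ⟨t, ht⟩ := hK.elim_finite_subcover u u1 fun x _ => mem_iUnion.2 ⟨x, u2 x⟩
    exact (t.countable_toSet.biUnion fun x _ => u4 x).mono ht
  obtain ⟨U, V, a1, a2, a3, a4, a5⟩ := normal_separation
    (isClosed_eq (OnePoint.continuous_coe.comp continuous_fst) (continuous_snd (X := P)))
    (isClosed_eq (continuous_snd (X := P)) (continuous_const (y := OnePoint.infty)))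
    (disjoint_left.2 fun z a b => OnePoint.coe_ne_infty z.1 (Eq.trans a b))
  have h1 : ∀ x : P, {y : P | (x, (y : OnePoint P)) ∈ U}.Countable := fun x => by
    have := (OnePoint.isOpen_iff_of_mem (s := Prod.mk x ⁻¹' V) (a4 rfl)).1
      (a2.preimage (Continuous.prodMk_right x))
    exact (kc _ this.2).mono fun y hy e => disjoint_left.1 a5 hy e
  obtain ⟨E, e1⟩ := zorn_subset {E : Set P | E.Pairwise fun x y =>
      ¬ ((x, (y : OnePoint P)) ∈ U ∧ (y, (x : OnePoint P)) ∈ U)} fun c hc hc' =>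
    ⟨⋃₀ c, (hc'.pairwise_sUnion).2 fun s hs => hc hs, fun s hs => subset_sUnion_of_mem hs⟩
  have h2 : E.Countable := hE E fun z => by
    have := (a1.preimage (continuous_id.prodMap OnePoint.continuous_coe)).mem_nhds
      (show (z, z) ∈ _ from a3 rfl)
    obtain ⟨W, w0, w1, w2⟩ := exists_nhds_square this
    exact ⟨W, w0.mem_nhds w1, fun x hx y hy => not_not.1 fun e => e1.1 hx.2 hy.2 e
      ⟨w2 (mk_mem_prod hx.1 hy.1), w2 (mk_mem_prod hy.1 hx.1)⟩⟩
  refine not_countable_univ ((h2.union (h2.biUnion fun x _ => h1 x)).mono fun y _ => ?_)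
  by_contra e
  refine e (Or.inl (e1.2 (y := insert y E) ?_ (subset_insert _ _) (Or.inl rfl)))
  exact e1.1.insert fun x hx _ => ⟨fun a => e (Or.inr (mem_biUnion hx a.2)),
    fun a => e (Or.inr (mem_biUnion hx a.1))⟩

theorem ct [Nonempty P] (hj : Function.Injective j) (hc : Continuous j)
    (hu : ∀ x : P, ∃ u, IsOpen u ∧ x ∈ u ∧ IsCompact u ∧ u.Countable)
    (A : Set (OnePoint P)) (c : OnePoint P) (h : c ∈ closure A) :
    ∃ B ⊆ A, B.Countable ∧ c ∈ closure B := by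
  have : T2Space P := T2Space.of_injective_continuous hj hc
  induction c using OnePoint.rec with
  | coe x =>
    obtain ⟨u, u1, u2, -, u4⟩ := hu x
    exact ⟨_, inter_subset_right, (u4.image _).mono inter_subset_left,
      (OnePoint.isOpenMap_coe _ u1).inter_closure ⟨⟨x, u2, rfl⟩, h⟩⟩
  | infty =>
    by_cases e : OnePoint.infty ∈ A
    · exact ⟨_, singleton_subset_iff.2 e, countable_singleton _, subset_closure rfl⟩
    obtain ⟨B, b1, b2, b3⟩ := dns ((↑) ⁻¹' A : Set P) j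
    refine ⟨(↑) '' B, image_subset_iff.2 b1, b2.image _, mem_closure_iff.2 fun O hO hm => ?_⟩
    by_contra e'
    have hK := ((OnePoint.isOpen_iff_of_mem hm).1 hO).2
    obtain ⟨y, y1, y2⟩ := mem_closure_iff.1 h O hO hm
    induction y using OnePoint.rec with
    | infty => exact e y2
    | coe y =>
      obtain ⟨z, z1, z2⟩ := closure_minimal (image_mono fun z hz a => e' ⟨_, a, z, hz, rfl⟩)
        (hK.image hc).isClosed (b3 ⟨y, y2, rfl⟩)
      exact z1 (hj z2 ▸ y1)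

end Pool.Agent.H33.VL2
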