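import Pool.Agent.H33.DiaDefs
import Pool.Agent.H33.DT1

/-! The product of `ω₁` and a countably tight compact space is normal. -/

open Set Filter Topology Pool.Agent.H33.DiaDefs

namespace Pool.Agent.H33.VL3

variable [TopologicalSpace W] [OrderTopology W]

theorem cpt (a : W) : IsCompact (Iic a) := by
  have := unc
  obtain ⟨b, -, hb⟩ := (wellFounded_lt (α := W)).has_min univ univ_nonempty
  let _ : OrderBot W := { bot := b, bot_le := fun x => not_lt.1 (hb x trivial) }
  let _ := WellFoundedLT.conditionallyCompleteLinearOrderBot W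
  rw [← Icc_bot]
  exact isCompact_Icc

theorem npc (V : W → Set W) (h1 : ∀ i, V i ⊆ Iio i) (h2 : ⋃ i, V i = univ) :
    ¬ LocallyFinite V := fun h => by
  have := unc
  have h3 : {i | (V i).Nonempty}.Finite := by
    by_contra e
    obtain ⟨J, a, c, b⟩ := Set.Infinite.exists_subset_countable_infinite e
    obtain ⟨β, hβ⟩ := DT1.bd cnt J c
    exact b ((h.finite_nonempty_inter_compact (cpt β)).subset fun i hi =>
      (a hi).imp fun x hx => ⟨hx, ((h1 i hx).trans (hβ i hi)).le⟩)
  obtain ⟨β, hβ⟩ := DT1.bd cnt _ h3.countable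
  obtain ⟨i, hi⟩ := mem_iUnion.1 (h2.ge (mem_univ β))
  exact lt_asymm (h1 i hi) (hβ i ⟨β, hi⟩)

variable {C : Type} [TopologicalSpace C] [CompactSpace C] [T2Space C]

theorem unb (ct : ∀ (A : Set C) c, c ∈ closure A → ∃ B ⊆ A, B.Countable ∧ c ∈ closure B)
    {A : Set (W × C)} (hA : IsClosed A) {c : C} {α : W}
    (h : c ∈ closure (Prod.snd '' (A ∩ {z | α < z.1}))) : ∃ ξ, α ≤ ξ ∧ (ξ, c) ∈ A := by
  have := unc
  obtain ⟨B, b1, b2, b3⟩ := ct _ c h
  have : Nonempty C := ⟨c⟩
  choose! g g1 g2 using fun y (hy : y ∈ B) => b1 hy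
  obtain ⟨β, hβ⟩ := DT1.bd cnt _ (b2.image fun y => (g y).1)
  obtain ⟨z, ⟨z1, z2⟩, rfl⟩ := closure_minimal (t := Prod.snd '' (Iic β ×ˢ univ ∩
      (A ∩ {z | α ≤ z.1})))
    (fun y hy => ⟨g y, ⟨⟨(hβ _ ⟨y, hy, rfl⟩).le, trivial⟩, (g1 y hy).1, (show α < _ from (g1 y hy).2).le⟩,
      g2 y hy⟩)
    ((((cpt β).prod isCompact_univ).inter_right (hA.inter
      (isClosed_le continuous_const continuous_fst))).image continuous_snd).isClosed b3
  exact ⟨z.1, z2.2, z2.1⟩

theorem nrm (ct : ∀ (A : Set C) c, c ∈ closure A → ∃ B ⊆ A, B.Countable ∧ c ∈ closure B) :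
    NormalSpace (W × C) := by
  have := unc
  refine ⟨fun A B hA hB hd => ?_⟩
  let Z : W → Set C := fun α => closure (Prod.snd '' (A ∩ {z | α < z.1})) ∩
    closure (Prod.snd '' (B ∩ {z | α < z.1}))
  obtain ⟨α, hα⟩ : ∃ α, ¬ (Z α).Nonempty := by
    by_contra e
    push Not at e
    have m : ∀ (A : Set (W × C)) {a b : W}, a ≤ b → closure (Prod.snd '' (A ∩ {z | b < z.1})) ⊆
        closure (Prod.snd '' (A ∩ {z | a < z.1})) := fun A a b h =>
      closure_mono (image_mono (inter_subset_inter_right _ fun z hz => h.trans_lt hz))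
    obtain ⟨c, hc⟩ := IsCompact.nonempty_iInter_of_directed_nonempty_isCompact_isClosed Z
      (Antitone.directed_ge fun a b h => inter_subset_inter (m A h) (m B h)) e
      (fun α => (isClosed_closure.inter isClosed_closure).isCompact)
      fun α => isClosed_closure.inter isClosed_closure
    choose s hs using fun α : W => DT1.bd cnt _ (countable_singleton α)
    choose f f1 f2 using fun α => unb ct hA (mem_iInter.1 hc (s α)).1
    choose g g1 g2 using fun α => unb ct hB (mem_iInter.1 hc (s α)).2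
    obtain ⟨β, ⟨b1, b2⟩, -⟩ := (DT1.club cnt (fun i => max (f i) (g i))
      (Classical.arbitrary W)).2 (Classical.arbitrary W)
    have k : ∀ (A : Set (W × C)) (f : W → W), IsClosed A → (∀ i, s i ≤ f i) → (∀ i, (f i, c) ∈ A) →
        (∀ i < β, f i < β) → (β, c) ∈ A := fun A f h1 h2 h3 h4 => by
      have : IsLUB (f '' Iio β) β := ⟨by rintro _ ⟨i, a, rfl⟩; exact (h4 i a).le,
        fun b hb => not_lt.1 fun e => not_le.2 (hs b b rfl) ((h2 b).trans (hb ⟨b, e, rfl⟩))⟩
      exact closure_minimal (t := (fun x => (x, c)) ⁻¹' A) (image_subset_iff.2 fun i _ => h3 i)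
        (h1.preimage (Continuous.prodMk_left c)) (this.mem_closure ⟨_, _, b1, rfl⟩)
    exact disjoint_left.1 hd (k A f hA f1 f2 fun i hi => (le_max_left _ _).trans_lt (b2 i hi))
      (k B g hB g1 g2 fun i hi => (le_max_right _ _).trans_lt (b2 i hi))
  have s : ∀ A : Set (W × C), A = A ∩ Iic α ×ˢ univ ∪ A ∩ {z | α < z.1} := fun A => by
    ext z
    exact ⟨fun h => (le_or_gt z.1 α).imp (fun e => ⟨h, e, trivial⟩) fun e => ⟨h, e⟩,
      fun h => h.elim And.left And.left⟩
  have kc : ∀ A : Set (W × C), IsClosed A → IsCompact (A ∩ Iic α ×ˢ univ) := fun A h =>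
    ((cpt α).prod isCompact_univ).inter_left h
  have s1 := SeparatedNhds.of_isCompact_isClosed (kc A hA) hB (hd.mono_left inter_subset_left)
  have s2 := SeparatedNhds.of_isCompact_isClosed (kc B hB) hA (hd.symm.mono_left inter_subset_left)
  have s3 := (normal_separation isClosed_closure isClosed_closure
    (disjoint_iff_inter_eq_empty.2 (not_nonempty_iff_eq_empty.1 hα))).preimage
    (continuous_snd (X := W))
  rw [s A]
  refine s1.union_left ?_
  rw [s B]
  exact (s2.symm.mono inter_subset_left subset_rfl).union_right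
    (s3.mono (fun z hz => subset_closure ⟨z, hz, rfl⟩) fun z hz => subset_closure ⟨z, hz, rfl⟩)

end Pool.Agent.H33.VL3
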