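import Pool.Agent.H33.VL2
import Pool.Agent.H33.VL3

/-! A compact space whose normal-product class is not of the form `N(κ, < λ)`. -/

open Set Filter Topology Cardinal Pool.Agent.H33.DiaDefs

namespace Pool.Agent.H33.VL4

theorem main : ∃ (C : Type) (_ : TopologicalSpace C), CompactSpace C ∧ T2Space C ∧ Infinite C ∧
    (∃ (X : Type) (_ : TopologicalSpace X), T1Space X ∧ NormalSpace (X × C) ∧
      ∃ (ι : Type) (U : ι → Set X), #ι = ℵ_ 1 ∧ (∀ i, IsOpen (U i)) ∧ (⋃ i, U i) = Set.univ ∧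
        ∀ V : ι → Set X, (∀ i, V i ⊆ U i) → (⋃ i, V i) = Set.univ → ¬ LocallyFinite V) ∧
    ∃ (X : Type) (_ : TopologicalSpace X), T1Space X ∧ ¬ NormalSpace (X × C) ∧
      (∀ (ι : Type) (U : ι → Set X), Countable ι → (∀ i, IsOpen (U i)) → (⋃ i, U i) = Set.univ →
        ∃ V : ι → Set X, (∀ i, IsOpen (V i)) ∧ (∀ i, V i ⊆ U i) ∧ (⋃ i, V i) = Set.univ ∧
          LocallyFinite V) ∧
      ∀ (ι : Type) (F : ι → Set X), (∀ i, IsClosed (F i)) →
        (∀ x : X, ∃ W ∈ 𝓝 x, ∀ i j, (W ∩ F i).Nonempty → (W ∩ F j).Nonempty → i = j) →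
        ∃ V : ι → Set X, (∀ i, IsOpen (V i)) ∧ (∀ i, F i ⊆ V i) ∧
          Pairwise (Function.onFun Disjoint V) := by
  obtain ⟨P, τ, j, hP, hj, hc, hu, hF⟩ := VL1.line
  have : T2Space P := T2Space.of_injective_continuous hj hc
  have : WeaklyLocallyCompactSpace P :=
    ⟨fun x => let ⟨u, a, b, c, _⟩ := hu x; ⟨u, c, a.mem_nhds b⟩⟩
  refine ⟨OnePoint P, inferInstance, inferInstance, inferInstance, inferInstance, ?_,
    P, τ, inferInstance, VL2.nn hu (VL2.ext hj hF), fun ι U _ h1 h2 => ?_, fun ι F _ h => ?_⟩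
  · let _ : TopologicalSpace W := Preorder.topology W
    have : OrderTopology W := ⟨rfl⟩
    have := unc
    refine ⟨W, _, inferInstance, VL3.nrm (VL2.ct hj hc hu), W, Iio, mk_W, fun _ => isOpen_Iio,
      eq_univ_of_forall fun x => mem_iUnion.2 ?_, VL3.npc⟩
    exact (DT1.bd cnt _ (countable_singleton x)).imp fun b h => h x rfl
  · obtain ⟨c, c1, c2⟩ := VL2.part hj hc hu hF U Set.univ countable_univ h1 fun x => by
      simpa using mem_iUnion.1 (h2.ge (mem_univ x))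
    refine ⟨fun i => c ⁻¹' {i}, fun i => c1 _, fun i x hx => (show c x = i from hx) ▸ c2 x,
      eq_univ_of_forall fun x => mem_iUnion.2 ⟨c x, rfl⟩, fun x => ⟨_, (c1 {c x}).mem_nhds rfl,
        (finite_singleton (c x)).subset fun i ⟨y, a, b⟩ => ?_⟩⟩
    exact Eq.trans (Eq.symm a) b
  · choose! p hp using fun i (h : (F i).Nonempty) => h
    choose N n1 n2 using h
    have hI : {i | (F i).Nonempty}.Countable := countable_of_injective_of_countable_image
      (f := p) (fun a ha b hb e => n2 (p a) a b ⟨_, mem_of_mem_nhds (n1 _), hp a ha⟩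
        ⟨_, mem_of_mem_nhds (n1 _), e ▸ hp b hb⟩)
      (VL2.ext hj hF _ fun z => ⟨N z, n1 z, by
        rintro _ ⟨a1, a, a2, rfl⟩ _ ⟨b1, b, b2, rfl⟩
        rw [n2 z a b ⟨_, a1, hp a a2⟩ ⟨_, b1, hp b b2⟩]⟩)
    obtain ⟨c, c1, c2⟩ := VL2.part hj hc hu hF
      (fun o : Option ι => interior {x | ∀ i, x ∈ F i → o = some i}) _
      ((hI.image some).insert none) (fun _ => isOpen_interior) fun x => by
        by_cases e : ∃ i, (N x ∩ F i).Nonempty
        · obtain ⟨i, hi⟩ := e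
          exact ⟨_, Or.inr ⟨i, hi.mono inter_subset_right, rfl⟩, mem_interior_iff_mem_nhds.2
            (mem_of_superset (n1 x) fun y hy k hk => congrArg _ (n2 x i k hi ⟨y, hy, hk⟩))⟩
        · exact ⟨_, Or.inl rfl, mem_interior_iff_mem_nhds.2
            (mem_of_superset (n1 x) fun y hy k hk => absurd ⟨k, y, hy, hk⟩ e)⟩
    exact ⟨fun i => c ⁻¹' {some i}, fun i => c1 _, fun i x hx => interior_subset (c2 x) i hx,
      fun a b e => disjoint_left.2 fun x h1 h2 => e (Option.some.inj (Eq.trans (Eq.symm h1) h2))⟩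

end Pool.Agent.H33.VL4
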