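import Mathlib

/-! Weakly first countable spaces, alpha-realcompactness, Radon spaces, weak theta-refinability. -/

open Set Filter Topology MeasureTheory

namespace Pool.Agent.H33.WF1

/-- weakly first countable (Arhangel'skii) -/
def WeaklyFC (X : Type) [TopologicalSpace X] : Prop :=
  ∃ B : X → ℕ → Set X, (∀ x, Antitone (B x)) ∧ (∀ x n, x ∈ B x n) ∧
    ∀ U : Set X, IsOpen U ↔ ∀ x ∈ U, ∃ n, B x n ⊆ U

/-- a (proper) filter in the lattice of closed sets -/
def ClosedFilter (X : Type) [TopologicalSpace X] (F : Set (Set X)) : Prop :=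
  (∀ A ∈ F, IsClosed A) ∧ univ ∈ F ∧ ∅ ∉ F ∧ (∀ A ∈ F, ∀ B ∈ F, A ∩ B ∈ F) ∧
    ∀ A ∈ F, ∀ B, IsClosed B → A ⊆ B → B ∈ F

/-- no closed ultrafilter with the countable intersection property is free -/
def AlphaRealcompact (X : Type) [TopologicalSpace X] : Prop :=
  ∀ F : Set (Set X), Maximal (ClosedFilter X) F →
    (∀ G ⊆ F, G.Countable → (⋂₀ G).Nonempty) → (⋂₀ F).Nonempty

/-- every finite Borel measure is inner regular with respect to compact sets -/
def RadonSpace (X : Type) [TopologicalSpace X] : Prop :=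
  ∀ μ : @Measure X (borel X), μ univ < ⊤ → ∀ E : Set X, MeasurableSet[borel X] E →
    μ E = ⨆ (K : Set X) (_ : K ⊆ E) (_ : IsCompact K), μ K

/-- weakly theta-refinable -/
def WeaklyThetaRefinable (X : Type) [TopologicalSpace X] : Prop :=
  ∀ U : Set (Set X), (∀ u ∈ U, IsOpen u) → ⋃₀ U = univ →
    ∃ V : ℕ → Set (Set X), (∀ n, ∀ v ∈ V n, IsOpen v ∧ ∃ u ∈ U, v ⊆ u) ∧
      ∀ x, ∃ n, {v ∈ V n | x ∈ v}.Nonempty ∧ {v ∈ V n | x ∈ v}.Finite

theorem wfc_of_fc (X : Type) [TopologicalSpace X] [FirstCountableTopology X] : WeaklyFC X := by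
  choose B hB using fun x : X => (𝓝 x).exists_antitone_basis
  refine ⟨B, fun x => (hB x).antitone, fun x n => mem_of_mem_nhds ((hB x).mem n), fun U => ?_⟩
  rw [isOpen_iff_mem_nhds]
  exact forall₂_congr fun x _ => (hB x).mem_iff

/-- the topology given by a weak base -/
@[reducible] def wtop {Y : Type} (V : Y → ℕ → Set Y) (h : ∀ x, Antitone (V x)) :
    TopologicalSpace Y where
  IsOpen U := ∀ x ∈ U, ∃ n, V x n ⊆ U
  isOpen_univ := fun _ _ => ⟨0, subset_univ _⟩
  isOpen_inter := fun s t hs ht x hx => by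
    obtain ⟨n, hn⟩ := hs x hx.1
    obtain ⟨m, hm⟩ := ht x hx.2
    exact ⟨max n m, subset_inter ((h x (le_max_left _ _)).trans hn)
      ((h x (le_max_right _ _)).trans hm)⟩
  isOpen_sUnion := fun s hs x ⟨t, ht, hx⟩ => by
    obtain ⟨n, hn⟩ := hs t ht x hx
    exact ⟨n, hn.trans (subset_sUnion_of_mem ht)⟩

theorem anti {Y : Type} {x : Y} {v P : ℕ → Set Y} (e : ∀ n, v n = insert x (⋃ k ≥ n, P k)) :
    Antitone v := fun n m h => by
  rw [e, e]
  exact insert_subset_insert (biUnion_subset_biUnion_left fun k hk => h.trans hk)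

theorem vs {Y : Type} [TopologicalSpace Y] {r : Y → Y → Prop} (wf : WellFounded r)
    {V P : Y → ℕ → Set Y} (e : ∀ x n, V x n = insert x (⋃ k ≥ n, P x k))
    (pc : ∀ x k, P x k = ∅ ∨ ∃ y m, r y x ∧ P x k = V y m)
    (hT : ∀ U : Set Y, IsOpen U ↔ ∀ x ∈ U, ∃ n, V x n ⊆ U) (x : Y) :
    ∀ n, IsOpen (V x n) ∧ IsCompact (V x n) ∧ (V x n).Countable := by
  induction x using wf.induction with
  | _ x ih =>
  have hP : ∀ k, IsOpen (P x k) ∧ IsCompact (P x k) ∧ (P x k).Countable := fun k => by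
    rcases pc x k with h | ⟨y, m, hy, h⟩ <;> rw [h]
    · exact ⟨isOpen_empty, isCompact_empty, countable_empty⟩
    · exact ih y hy m
  have hs : ∀ n k, n ≤ k → P x k ⊆ V x n := fun n k h => by
    rw [e]; exact (subset_biUnion_of_mem (u := P x) (show k ∈ Ici n from h)).trans (subset_insert _ _)
  intro n
  refine ⟨(hT _).2 fun z hz => ?_, ?_, ?_⟩
  · rw [e] at hz
    rcases hz with rfl | hz
    · exact ⟨n, subset_rfl⟩
    · obtain ⟨k, hk, hz⟩ := mem_iUnion₂.1 hz
      obtain ⟨j, hj⟩ := (hT _).1 (hP k).1 z hz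
      exact ⟨j, hj.trans (hs n k hk)⟩
  · refine isCompact_of_finite_subcover fun {ι} U hU hc => ?_
    classical
    obtain ⟨i, hi⟩ := mem_iUnion.1 (hc (show x ∈ V x n by rw [e]; exact mem_insert _ _))
    obtain ⟨N, hN⟩ := (hT _).1 (hU i) x hi
    have hK : IsCompact (⋃ k ∈ Ico n N, P x k) := (finite_Ico n N).isCompact_biUnion fun k _ => (hP k).2.1
    obtain ⟨t, ht⟩ := hK.elim_finite_subcover U hU
      (iUnion₂_subset fun k hk => (hs n k hk.1).trans hc)
    refine ⟨insert i t, fun z hz => ?_⟩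
    rw [Finset.set_biUnion_insert]
    rw [e] at hz
    rcases hz with rfl | hz
    · exact Or.inl hi
    · obtain ⟨k, hk, hz⟩ := mem_iUnion₂.1 hz
      by_cases h : k < N
      · exact Or.inr (ht (mem_biUnion (show k ∈ Ico n N from ⟨hk, h⟩) hz))
      · exact Or.inl (hN (hs N k (not_lt.1 h) hz))
  · rw [e]
    exact (countable_iUnion fun k => countable_iUnion fun _ => (hP k).2.2).insert _

theorem notWTR (S : Type) [TopologicalSpace S]
    (h1 : ∀ x : S, ∃ u, IsOpen u ∧ x ∈ u ∧ u.Countable)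
    (h2 : ∀ Y : ℕ → Set S, (∀ x, ∃ n, x ∈ Y n) → ∃ A : ℕ → Set S, (∀ n, (A n).Countable ∧ A n ⊆ Y n) ∧
      ∀ D : Set S, D.Countable → ∃ m, ∃ x ∈ Y m, x ∉ D ∧ x ∈ closure (A m)) :
    ¬ WeaklyThetaRefinable S := by
  intro h
  obtain ⟨V, hV, hx⟩ := h {u | IsOpen u ∧ u.Countable} (fun u hu => hu.1)
    (eq_univ_of_forall fun x => by
      obtain ⟨u, a, b, c⟩ := h1 x
      exact ⟨u, ⟨a, c⟩, b⟩)
  obtain ⟨A, hA, hD⟩ := h2 (fun n => {x | {v ∈ V n | x ∈ v}.Nonempty ∧ {v ∈ V n | x ∈ v}.Finite}) hx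
  obtain ⟨m, x, ⟨⟨v, hv, hxv⟩, -⟩, hxD, hc⟩ := hD (⋃ n, ⋃ a ∈ A n, ⋃₀ {v ∈ V n | a ∈ v})
    (countable_iUnion fun n => (hA n).1.biUnion fun a ha =>
      ((hA n).2 ha).2.countable.sUnion fun v hv => by
        obtain ⟨u, hu, hs⟩ := (hV n v hv.1).2
        exact hu.2.mono hs)
  obtain ⟨a, hav, ha⟩ := mem_closure_iff.1 hc v (hV m v hv).1 hxv
  exact hxD (mem_iUnion.2 ⟨m, mem_biUnion ha ⟨v, ⟨hv, hav⟩, hxv⟩⟩)

theorem notARC (S : Type) [TopologicalSpace S] [Uncountable S]
    (h1 : ∀ D : Set S, D.Countable → ∃ u, IsOpen u ∧ D ⊆ u ∧ u.Countable)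
    (h2 : ∀ F : Set S, IsClosed F → F.Countable ∨ Fᶜ.Countable) : ¬ AlphaRealcompact S := by
  intro h
  have key : ∀ {F : Set S}, Fᶜ.Countable → F.Nonempty := fun {F} hF => by
    rcases F.eq_empty_or_nonempty with rfl | h
    · exact absurd (compl_empty ▸ hF) not_countable_univ
    · exact h
  have hF : ClosedFilter S {F | IsClosed F ∧ Fᶜ.Countable} :=
    ⟨fun _ h => h.1, ⟨isClosed_univ, by simp⟩, fun h => not_nonempty_empty (key h.2),
      fun A hA B hB => ⟨hA.1.inter hB.1, by rw [compl_inter]; exact hA.2.union hB.2⟩,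
      fun A hA B hB hs => ⟨hB, hA.2.mono (compl_subset_compl.2 hs)⟩⟩
  obtain ⟨x, hx⟩ := h _ ⟨hF, fun G hG hle A hA => by
    refine ⟨hG.1 A hA, (h2 A (hG.1 A hA)).resolve_left fun hc => hG.2.2.1 ?_⟩
    obtain ⟨u, a, b, c⟩ := h1 A hc
    have := hG.2.2.2.1 A hA uᶜ (hle ⟨a.isClosed_compl, by rwa [compl_compl]⟩)
    rwa [inter_compl_nonempty_iff.not_left.2 b |> not_nonempty_iff_eq_empty.1] at this⟩
    fun G hG hc => key (by
      rw [compl_sInter]
      exact (hc.image _).sUnion (by rintro _ ⟨A, hA, rfl⟩; exact (hG hA).2))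
  obtain ⟨u, a, b, c⟩ := h1 {x} (countable_singleton x)
  exact hx uᶜ ⟨a.isClosed_compl, by rwa [compl_compl]⟩ (b rfl)

theorem notRadon (X : Type) [TopologicalSpace X] [T2Space X] (S : Set X) (hS : IsOpen S) [Uncountable S]
    (h1 : ∀ K ⊆ S, IsCompact K → K.Countable)
    (h2 : ∀ F : Set S, IsClosed F → F.Countable ∨ Fᶜ.Countable) : ¬ RadonSpace X := by
  intro h
  classical
  let m : OuterMeasure X :=
    { measureOf := fun E => if (Subtype.val ⁻¹' E : Set S).Countable then 0 else 1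
      empty := by simp
      mono := fun {s t} hst => by
        by_cases ht : (Subtype.val ⁻¹' t : Set S).Countable
        · rw [if_pos ht, if_pos (ht.mono (preimage_mono hst))]
        · rw [if_neg ht]; split_ifs <;> simp
      iUnion_nat := fun s _ => by
        by_cases hs : ∀ i, (Subtype.val ⁻¹' s i : Set S).Countable
        · rw [if_pos (by rw [preimage_iUnion]; exact countable_iUnion hs)]; simp
        · push Not at hs
          obtain ⟨i, hi⟩ := hs
          refine le_trans ?_ (ENNReal.le_tsum i)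
          rw [if_neg hi]; split_ifs <;> simp }
  have hm : ∀ E, m E = if (Subtype.val ⁻¹' E : Set S).Countable then 0 else 1 := fun _ => rfl
  have c0 : ∀ U : Set X, (Subtype.val ⁻¹' U : Set S).Countable → MeasurableSet[m.caratheodory] U := by
    intro U hU
    rw [OuterMeasure.isCaratheodory_iff_le]
    intro t
    rw [hm (t ∩ U), if_pos (hU.mono (preimage_mono inter_subset_right)), zero_add]
    exact m.mono sdiff_subset
  have hc : borel X ≤ m.caratheodory := MeasurableSpace.generateFrom_le fun U hU => by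
    rcases h2 _ ((hU.preimage continuous_subtype_val : IsOpen (Subtype.val ⁻¹' U : Set S)).isClosed_compl)
      with h | h
    · have := (c0 Uᶜ h).compl
      rwa [compl_compl] at this
    · exact c0 U (by rwa [compl_compl] at h)
  let _ := borel X
  have : BorelSpace X := ⟨rfl⟩
  have hμ : ∀ E, MeasurableSet E → m.toMeasure hc E = m E := fun E hE => toMeasure_apply _ _ hE
  have := h (m.toMeasure hc) (by rw [hμ _ MeasurableSet.univ, hm]; split_ifs <;> simp) S
    hS.measurableSet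
  rw [hμ _ hS.measurableSet, hm, if_neg (by simpa using not_countable_univ)] at this
  refine absurd this (ne_of_gt (lt_of_le_of_lt (iSup_le fun K => iSup_le fun hK => iSup_le fun hK' => ?_)
    zero_lt_one))
  rw [hμ _ hK'.isClosed.measurableSet, hm,
    if_pos ((h1 K hK hK').preimage Subtype.val_injective)]

end Pool.Agent.H33.WF1
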