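import Pool.Agent.H33.WF1

/-! A first countable compact space that is not hereditarily weakly theta-refinable (ZFC). -/

open Set Filter Topology Cardinal Pool.Agent.H33.WF1

namespace Pool.Agent.H33.WF2

/-- well-founded trees whose nodes have no child or children indexed by `ℕ × ℕ` -/
abbrev Pt : Type := WType fun b : Bool => cond b (ℕ × ℕ) Empty

/-- the leaf -/
def o : Pt := WType.mk false fun e => e.elim

/-- children -/
def ch : Pt → ℕ × ℕ → Pt → Prop := fun x p y => ∃ f : ℕ × ℕ → Pt, x = WType.mk true f ∧ y = f p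

theorem wf : WellFounded fun y x => ∃ p, ch x p y := by
  refine ⟨fun x => ?_⟩
  induction x with
  | mk b f ih =>
  refine ⟨_, ?_⟩
  rintro y ⟨p, g, h, rfl⟩
  cases h
  exact ih p

theorem ex_j : ∃ j : Pt → ℕ → Bool, Function.Injective j := by
  have h : #Pt ≤ #(ℕ → Bool) := by
    rw [show #(ℕ → Bool) = 𝔠 by simp]
    refine WType.cardinalMk_le_of_le ((sum_le_sum _ (fun _ => 𝔠) fun b => ?_).trans (by simp))
    cases b
    · simpa using (one_le_aleph0.trans aleph0_le_continuum)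
    · simp
  obtain ⟨e⟩ := (le_def _ _).1 h
  exact ⟨e, e.injective⟩

/-- membership in the basic neighbourhoods -/
inductive InV (c : Pt → ℕ → Pt → Prop) : Pt → ℕ → Pt → Prop
  | refl (x : Pt) (n : ℕ) : InV c x n x
  | step (x : Pt) (n k : ℕ) (y z : Pt) : n ≤ k → c x k y → InV c y k z → InV c x n z

theorem space (j : Pt → ℕ → Bool) (hj : Function.Injective j) :
    ∃ (_ : TopologicalSpace Pt), Continuous j ∧
      (∀ x : Pt, ∃ u, IsOpen u ∧ x ∈ u ∧ IsCompact u ∧ u.Countable) ∧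
      ∀ Y : ℕ → Set Pt, (∀ x, ∃ n, x ∈ Y n) → ∃ A : ℕ → Set Pt, (∀ n, (A n).Countable ∧ A n ⊆ Y n) ∧
        ∀ D : Set Pt, D.Countable → ∃ m, ∃ x ∈ Y m, x ∉ D ∧ x ∈ closure (A m) := by
  classical
  let ok : Pt → ℕ → Pt → Prop := fun x k y =>
    (∃ i, ch x (k.unpair.1, i) y) ∧ ∀ i < k, j y i = j x i
  let c : Pt → ℕ → Pt → Prop := fun x k y => ∃ h : ∃ y, ok x k y, y = h.choose
  have hc : ∀ x k y, c x k y → ok x k y := by
    rintro x k y ⟨h, rfl⟩; exact h.choose_spec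
  let V : Pt → ℕ → Set Pt := fun x n => {z | InV c x n z}
  let P : Pt → ℕ → Set Pt := fun x k => {z | ∃ y, c x k y ∧ InV c y k z}
  have e : ∀ x n, V x n = insert x (⋃ k ≥ n, P x k) := fun x n => by
    ext z
    constructor
    · rintro (_ | ⟨_, _, k, y, _, h1, h2, h3⟩)
      · exact Or.inl rfl
      · exact Or.inr (mem_iUnion₂.2 ⟨k, h1, y, h2, h3⟩)
    · rintro (rfl | h)
      · exact InV.refl _ _
      · obtain ⟨k, h1, y, h2, h3⟩ := mem_iUnion₂.1 h
        exact InV.step _ _ k y _ h1 h2 h3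
  have pc : ∀ x k, P x k = ∅ ∨ ∃ y m, (∃ p, ch x p y) ∧ P x k = V y m := fun x k => by
    by_cases h : ∃ y, ok x k y
    · obtain ⟨i, hi⟩ := h.choose_spec.1
      refine Or.inr ⟨h.choose, k, ⟨_, hi⟩, ?_⟩
      ext z
      exact ⟨fun ⟨y, ⟨_, hy⟩, hz⟩ => hy ▸ hz, fun hz => ⟨_, ⟨h, rfl⟩, hz⟩⟩
    · exact Or.inl (eq_empty_of_forall_notMem fun z ⟨y, ⟨h', _⟩, _⟩ => h h')
  have cyl : ∀ x n z, InV c x n z → ∀ i < n, j z i = j x i := fun x n z h => by
    induction h with
    | refl => exact fun _ _ => rfl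
    | step x n k y z h1 h2 _ ih =>
      exact fun i hi => (ih i (hi.trans_le h1)).trans ((hc _ _ _ h2).2 i (hi.trans_le h1))
  let τ := wtop V fun x => anti (e x)
  have hT : ∀ U : Set Pt, IsOpen U ↔ ∀ x ∈ U, ∃ n, V x n ⊆ U := fun _ => Iff.rfl
  have hv := vs wf e pc hT
  refine ⟨τ, continuous_pi fun i => continuous_def.2 fun U _ => (hT _).2 fun x hx =>
    ⟨i + 1, fun z hz => ?_⟩, fun x => ⟨V x 0, (hv x 0).1, InV.refl _ _, (hv x 0).2⟩, fun Y hY => ?_⟩
  · rwa [mem_preimage, cyl x _ z hz i (Nat.lt_succ_self i)]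
  choose t ht using fun n =>
    (TopologicalSpace.IsSeparable.of_separableSpace (j '' Y n)).exists_countable_dense_subset
  refine ⟨fun n => Y n ∩ j ⁻¹' t n, fun n => ⟨((ht n).2.1.preimage hj).mono inter_subset_right,
    inter_subset_left⟩, fun D hD => ?_⟩
  have en : ∀ S : Set Pt, ∃ g : ℕ → Pt, S.Countable → S.Nonempty → S = range g := fun S => by
    by_cases h : S.Countable ∧ S.Nonempty
    · obtain ⟨g, hg⟩ := h.1.exists_eq_range h.2
      exact ⟨g, fun _ _ => hg⟩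
    · exact ⟨fun _ => o, fun a b => absurd ⟨a, b⟩ h⟩
  choose g hg using en
  let f : ℕ × ℕ → Pt := fun p => Nat.casesOn p.1 (g (insert o D) p.2)
    fun m => g (Y m ∩ j ⁻¹' t m) p.2
  let x : Pt := WType.mk true f
  obtain ⟨m, hm⟩ := hY x
  have near : ∀ k, ∃ y ∈ Y m ∩ j ⁻¹' t m, ∀ i < k, j y i = j x i := fun k => by
    have : IsOpen {w : ℕ → Bool | ∀ i < k, w i = j x i} := by
      have : {w : ℕ → Bool | ∀ i < k, w i = j x i} = ⋂ i ∈ Iio k, (fun w => w i) ⁻¹' {j x i} := by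
        ext; simp
      rw [this]
      exact (finite_Iio k).isOpen_biInter fun i _ => (isOpen_discrete _).preimage (continuous_apply i)
    obtain ⟨w, hw, hwt⟩ := mem_closure_iff.1 ((ht m).2.2 (mem_image_of_mem j hm)) _ this
      fun _ _ => rfl
    obtain ⟨y, hy, rfl⟩ := (ht m).1 hwt
    exact ⟨y, ⟨hy, hwt⟩, hw⟩
  have hA := hg _ (((ht m).2.1.preimage hj).mono (inter_subset_right (s := Y m)))
    ⟨_, (near 0).choose_spec.1⟩
  refine ⟨m, x, hm, fun hx => ?_, mem_closure_iff.2 fun U hU hx => ?_⟩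
  · obtain ⟨i, hi⟩ := (hg _ (hD.insert o) (insert_nonempty _ _)).le (Or.inr hx)
    exact wf.irrefl.irrefl x ⟨(0, i), f, rfl, hi.symm⟩
  · obtain ⟨n, hn⟩ := (hT _).1 hU x hx
    obtain ⟨y, hy, hy'⟩ := near (Nat.pair (m + 1) n)
    obtain ⟨i, hi⟩ := hA.le hy
    have h : ∃ y, ok x (Nat.pair (m + 1) n) y :=
      ⟨y, ⟨i, f, rfl, by rw [Nat.unpair_pair]; exact hi.symm⟩, hy'⟩
    obtain ⟨⟨i', f', h1, h2⟩, -⟩ := h.choose_spec
    refine ⟨h.choose, hn (InV.step _ _ _ _ _ (Nat.right_le_pair _ _) ⟨h, rfl⟩ (InV.refl _ _)), ?_⟩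
    obtain rfl : f = f' := eq_of_heq (WType.mk.inj h1).2
    rw [h2, Nat.unpair_pair]
    exact hA.ge ⟨i', rfl⟩

theorem partC : ∃ (X : Type) (_ : TopologicalSpace X), CompactSpace X ∧ T2Space X ∧
    FirstCountableTopology X ∧ ∃ S : Set X, ¬ WeaklyThetaRefinable S := by
  obtain ⟨j, hj⟩ := ex_j
  obtain ⟨τ, hc, hu, hP⟩ := space j hj
  choose u uo um uk uc using hu
  have : T2Space Pt := T2Space.of_injective_continuous hj hc
  have : WeaklyLocallyCompactSpace Pt := ⟨fun x => ⟨u x, uk x, (uo x).mem_nhds (um x)⟩⟩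
  let X : Set (OnePoint Pt × (ℕ → Bool)) := {q | ∀ y : Pt, q.1 = y → q.2 = j y}
  have hX : IsClosed X := by
    have : Xᶜ = Prod.map (↑) id '' {q : Pt × (ℕ → Bool) | q.2 ≠ j q.1} := by
      ext ⟨a, b⟩
      simp only [X, mem_compl_iff, mem_ofPred_eq, not_forall, mem_image, Prod.exists, Prod.map,
        id, Prod.mk.injEq]
      exact ⟨fun ⟨y, h1, h2⟩ => ⟨y, b, h2, h1.symm, rfl⟩,
        fun ⟨y, b', h1, h2, h3⟩ => ⟨y, h2.symm, h3 ▸ h1⟩⟩
    rw [← isOpen_compl_iff, this]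
    exact (OnePoint.isOpenMap_coe.prodMap IsOpenMap.id) _
      (isOpen_ne_fun continuous_snd (hc.comp continuous_fst))
  have : CompactSpace X := isCompact_iff_compactSpace.1 hX.isCompact
  have cl : ∀ y, IsClopen (((↑) : Pt → OnePoint Pt) '' u y) := fun y =>
    ⟨((uk y).image OnePoint.continuous_coe).isClosed, OnePoint.isOpenMap_coe _ (uo y)⟩
  have c1 : Continuous fun q : X => q.1.1 := continuous_fst.comp continuous_subtype_val
  have sep : ∀ q : X, ∃ O, IsClopen O ∧ q.1.1 ∈ O ∧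
      ∀ q' : X, q'.1.1 ∈ O → q'.1.2 = q.1.2 → q' = q := by
    rintro ⟨⟨a, b⟩, hq⟩
    induction a using OnePoint.rec with
    | infty =>
      by_cases h : ∃ y, j y = b
      · obtain ⟨y, rfl⟩ := h
        refine ⟨_, (cl y).compl, by simp, ?_⟩
        rintro ⟨⟨a', b'⟩, hq'⟩ h1 rfl
        induction a' using OnePoint.rec with
        | infty => rfl
        | coe z => exact absurd ⟨y, um y, congrArg _ (hj (hq' z rfl))⟩ h1
      · refine ⟨univ, isClopen_univ, trivial, ?_⟩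
        rintro ⟨⟨a', b'⟩, hq'⟩ - rfl
        induction a' using OnePoint.rec with
        | infty => rfl
        | coe z => exact absurd ⟨z, (hq' z rfl).symm⟩ h
    | coe y =>
      refine ⟨_, cl y, ⟨y, um y, rfl⟩, ?_⟩
      rintro ⟨⟨a', b'⟩, hq'⟩ ⟨z, -, rfl⟩ rfl
      obtain rfl : z = y := hj ((hq' z rfl).symm.trans (hq y rfl))
      rfl
  refine ⟨X, inferInstance, this, inferInstance, ⟨fun q => ?_⟩, {q | q.1.1 ≠ OnePoint.infty}, ?_⟩
  · obtain ⟨O, hO, hq, hO'⟩ := sep q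
    let B : ℕ → Set X := fun n => (fun q : X => q.1.1) ⁻¹' O ∩
      ⋂ i ∈ Iio n, (fun q' : X => q'.1.2 i) ⁻¹' {q.1.2 i}
    have hB : ∀ n, IsClopen (B n) := fun n => (hO.preimage c1).inter
      ((finite_Iio n).isClopen_biInter fun i _ => (isClopen_discrete _).preimage
        ((continuous_apply i).comp (continuous_snd.comp continuous_subtype_val)))
    refine HasCountableBasis.isCountablyGenerated (p := fun _ => True) (s := B) ⟨⟨fun U => ⟨fun hU => ?_,
      fun ⟨n, _, hn⟩ => mem_of_superset ((hB n).2.mem_nhds ⟨hq, by simp⟩) hn⟩⟩, to_countable _⟩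
    obtain ⟨n, hn⟩ := exists_subset_nhds_of_isCompact (V := B) (U := U)
      (Antitone.directed_ge fun a b h => inter_subset_inter_right _
        (biInter_subset_biInter_left (Iio_subset_Iio h)))
      (fun n => (hB n).1.isCompact) fun x hx => by
        rwa [hO' x (mem_iInter.1 hx 0).1 (funext fun i =>
          mem_iInter₂.1 (mem_iInter.1 hx (i + 1)).2 i (Nat.lt_succ_self i))]
    exact ⟨n, trivial, hn⟩
  let e : Pt → {q : X | q.1.1 ≠ OnePoint.infty} := fun y =>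
    ⟨⟨(y, j y), fun z h => by rw [OnePoint.coe_injective h]⟩, OnePoint.coe_ne_infty y⟩
  have ec : Continuous e := ((OnePoint.continuous_coe.prodMk hc).subtype_mk _).subtype_mk _
  have ei : Function.Injective e := fun a b h =>
    OnePoint.coe_injective (congrArg (fun q => q.1.1.1) h)
  have es : Function.Surjective e := by
    rintro ⟨⟨⟨a, b⟩, hq⟩, h⟩
    induction a using OnePoint.rec with
    | infty => exact absurd rfl h
    | coe y =>
      obtain rfl : b = j y := hq y rfl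
      exact ⟨y, rfl⟩
  refine notWTR _ (fun s => ?_) fun Y hY => ?_
  · obtain ⟨y, rfl⟩ := es s
    refine ⟨_, (cl y).2.preimage (c1.comp continuous_subtype_val), ⟨y, um y, rfl⟩,
      ((uc y).image e).mono fun s ⟨z, hz, h⟩ => ?_⟩
    obtain ⟨w, rfl⟩ := es s
    obtain rfl : z = w := OnePoint.coe_injective h
    exact ⟨z, hz, rfl⟩
  · obtain ⟨A, hA, hD⟩ := hP (fun n => e ⁻¹' Y n) fun y => hY _
    refine ⟨fun n => e '' A n, fun n => ⟨(hA n).1.image _, image_subset_iff.2 (hA n).2⟩,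
      fun D h => ?_⟩
    obtain ⟨m, x, h1, h2, h3⟩ := hD _ (h.preimage ei)
    exact ⟨m, e x, h1, h2, image_closure_subset_closure_image ec (mem_image_of_mem e h3)⟩

end Pool.Agent.H33.WF2
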