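import Pool.Agent.H33.WF1
import Pool.Agent.H33.HG2
import Pool.Agent.H33.DT1
import Pool.Agent.H33.DiaDefs

/-! Under diamond: an Ostaszewski-type space inside a Jakovlev-type tower. -/

open Set Filter Topology Pool.Agent.H33.WF1 Pool.Agent.H33.DiaDefs

namespace Pool.Agent.H33.WF3

/-- `S` is not covered by finitely many of the sets `v y` -/
def Unc {ι Y : Type} (v : ι → Set Y) (S : Set Y) : Prop :=
  ∀ s : Set ι, s.Finite → ¬ S ⊆ ⋃ y ∈ s, v y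

theorem core {ι Y : Type} [Countable ι] (V : ι → ℕ → Set Y) (p : ι → Y) (an : ∀ y, Antitone (V y))
    (hp : ∀ y n, p y ∈ V y n) (hcl : ∀ z y, p z ∉ V y 0 → ∀ᶠ j in atTop, Disjoint (V z j) (V y 0))
    (S : ℕ → Set Y) (hS : ∀ i, S i ⊆ range p) :
    ∃ Q : ℕ → Set Y, (∀ i k, i ≠ k → Disjoint (Q i) (Q k)) ∧
      (∀ i, Q i = ∅ ∨ ∃ y m, p y ∈ S i ∧ Q i = V y m) ∧
      (∀ y, ∃ N, ∀ i ≥ N, Disjoint (Q i) (V y 0)) ∧
      ∀ i, Unc (fun y => V y 0) (S i) → (Q i ∩ S i).Nonempty := by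
  obtain ⟨c, hc⟩ := Countable.exists_injective_nat ι
  have st : ∀ (i : ℕ) (s : {s : Set ι // s.Finite}), ∃ (s' : {s : Set ι // s.Finite}) (Q : Set Y),
      s.1 ∪ c ⁻¹' {i} ⊆ s'.1 ∧ Q ⊆ (⋃ y ∈ s'.1, V y 0) ∧ (∀ y ∈ s.1, Disjoint Q (V y 0)) ∧
      (Q = ∅ ∨ ∃ y m, p y ∈ S i ∧ Q = V y m) ∧
      (Unc (fun y => V y 0) (S i) → (Q ∩ S i).Nonempty) := by
    intro i s
    have hf : (s.1 ∪ c ⁻¹' {i}).Finite := s.2.union ((finite_singleton i).preimage hc.injOn)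
    by_cases h : Unc (fun y => V y 0) (S i)
    · obtain ⟨x, hx, hx'⟩ := not_subset.1 (h _ s.2)
      obtain ⟨y, rfl⟩ := hS i hx
      obtain ⟨m, hm⟩ := ((eventually_all_finite s.2).2 fun z hz =>
        hcl y z fun h => hx' (mem_biUnion hz h)).exists
      exact ⟨⟨_, hf.insert y⟩, V y m, subset_insert _ _, (an y (Nat.zero_le m)).trans
        (subset_biUnion_of_mem (u := fun y => V y 0) (mem_insert y _)), hm,
        Or.inr ⟨y, m, hx, rfl⟩, fun _ => ⟨_, hp y m, hx⟩⟩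
    · exact ⟨⟨_, hf⟩, ∅, subset_rfl, empty_subset _, fun _ _ => empty_disjoint _, Or.inl rfl,
        fun h' => absurd h' h⟩
  choose F Q h1 h2 h3 h4 h5 using st
  let s : ℕ → {s : Set ι // s.Finite} := fun i => Nat.rec ⟨∅, finite_empty⟩ (fun i s => F i s) i
  have hs : ∀ i, s (i + 1) = F i (s i) := fun _ => rfl
  have mo : Monotone fun i => (s i).1 :=
    monotone_nat_of_le_succ fun i => subset_union_left.trans (h1 i (s i))
  have d : ∀ i k, i < k → Disjoint (Q k (s k)) (Q i (s i)) := fun i k h =>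
    (disjoint_iUnion₂_right.2 fun y hy => h3 k (s k) y (mo (show i + 1 ≤ k from h) hy)).mono_right
      (h2 i (s i))
  refine ⟨fun i => Q i (s i), fun i k h => h.lt_or_gt.elim (fun h => (d i k h).symm) (d k i),
    fun i => h4 i _, fun y => ⟨c y + 1, fun i hi => h3 i _ y (mo hi ?_)⟩, fun i => h5 i _⟩
  exact h1 (c y) (s (c y)) (Or.inr rfl)

/-- rank and neighbourhoods of a point -/
abbrev D : Type := ℕ × (ℕ → Set W)

/-- the conditions on the point `t` -/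
structure G (A : W → Set W) (t : W) (g : Iio t → D) (d : D) : Prop where
  e : ∃ P : ℕ → Set W, (∀ n, d.2 n = insert t (⋃ k ≥ n, P k)) ∧
    ∀ k, P k = ∅ ∨ ∃ (y : Iio t) (m : ℕ), P k = (g y).2 m
  le : d.2 0 ⊆ Iic t
  c1 : ∀ (z : Iio t) n, z.1 ∉ d.2 n → ∀ᶠ j in atTop, Disjoint ((g z).2 j) (d.2 n)
  c2 : ∀ y : Iio t, ∀ᶠ j in atTop, Disjoint (d.2 j) ((g y).2 0)
  rk : ∀ z : Iio t, z.1 ∈ d.2 0 → (g z).1 < d.1 ∨ (g z).1 = 0
  tr : ∀ n, (∀ z ∈ A t, ∃ h : z < t, (g ⟨z, h⟩).1 = n) → Unc (fun y => (g y).2 0) (A t) →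
    d.1 = n + 1 ∧ ∀ j, (d.2 j ∩ A t).Nonempty
  ze : A t = ∅ → d.1 = 0
  os : ∀ γ ≤ t, (∀ z ∈ A γ, ∃ h : z < t, (g ⟨z, h⟩).1 = 0) → Unc (fun y => (g y).2 0) (A γ) →
    Unc (fun y => (g y).2 0) (A γ \ d.2 0) ∧ (d.1 = 0 → ∀ j, (d.2 j ∩ A γ).Nonempty)

variable {A : W → Set W} {f : W → D}

theorem G.an {t : W} {g : Iio t → D} {d : D} (h : G A t g d) : Antitone d.2 :=
  let ⟨_, e, _⟩ := h.e; anti e

theorem G.mem {t : W} {g : Iio t → D} {d : D} (h : G A t g d) (n : ℕ) : t ∈ d.2 n := by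
  obtain ⟨_, e, _⟩ := h.e
  rw [e]; exact mem_insert _ _

theorem cl {y z : W} (hy : G A y (fun u => f u) (f y)) (hz : G A z (fun u => f u) (f z)) (n : ℕ)
    (h : z ∉ (f y).2 n) : ∀ᶠ j in atTop, Disjoint ((f z).2 j) ((f y).2 n) := by
  rcases lt_trichotomy z y with h' | rfl | h'
  · exact hy.c1 ⟨z, h'⟩ n h
  · exact absurd (hy.mem n) h
  · exact (hz.c2 ⟨y, h'⟩).mono fun j hj => hj.mono_right (hy.an (Nat.zero_le n))

theorem rk {y z : W} (hy : G A y (fun u => f u) (f y)) (h : z ∈ (f y).2 0) : (f z).1 ≤ (f y).1 := by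
  rcases (mem_Iic.1 (hy.le h)).lt_or_eq with h' | rfl
  · rcases hy.rk ⟨z, h'⟩ h with h | h
    · exact h.le
    · exact h.trans_le (Nat.zero_le _)
  · rfl

theorem step (t : W) (H : ∀ s < t, G A s (fun u => f u) (f s)) :
    ∃ d, G A t (fun u => f u) d := by
  classical
  have := (cnt t).to_subtype
  obtain ⟨u, hu⟩ := ((cnt t).insert t).exists_eq_range (insert_nonempty _ _)
  let v : Iio t → Set W := fun y => (f y).2 0
  let C : ℕ → Set W → Prop := fun n S => (∀ z ∈ S, ∃ h : z < t, (f z).1 = n) ∧ Unc v S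
  let R : ℕ → Set W := fun k => if C 0 (A (u k.unpair.1)) then A (u k.unpair.1) else ∅
  obtain ⟨ρ, T, hT1, hT2, hT3⟩ : ∃ (ρ : ℕ) (T : ℕ → Set W),
      (∀ k, ∀ z ∈ T k, z < t ∧ (f z).1 ≤ ρ - 1) ∧
      (∀ n, C n (A t) → ρ = n + 1 ∧ ∀ k, T k = A t) ∧ ((A t = ∅ → ρ = 0) ∧ (ρ = 0 → T = R)) := by
    by_cases h : ∃ n, C n (A t)
    · obtain ⟨n, hn⟩ := h
      obtain ⟨z, hz, -⟩ := not_subset.1 (hn.2 ∅ finite_empty)
      refine ⟨n + 1, fun _ => A t, fun k z hz => ?_, fun m hm => ⟨?_, fun _ => rfl⟩,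
        fun h => absurd (h ▸ hz) (notMem_empty z), fun h => absurd h (Nat.succ_ne_zero n)⟩
      · obtain ⟨a, b⟩ := hn.1 z hz
        exact ⟨a, b.le⟩
      · obtain ⟨_, a⟩ := hn.1 z hz
        obtain ⟨_, b⟩ := hm.1 z hz
        rw [← a, b]
    · refine ⟨0, R, fun k z hz => ?_, fun n hn => absurd ⟨n, hn⟩ h, fun _ => rfl, fun _ => rfl⟩
      simp only [R] at hz
      split_ifs at hz with h'
      · obtain ⟨a, b⟩ := h'.1 z hz
        exact ⟨a, b.le⟩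
      · exact hz.elim
  obtain ⟨Q, q1, q2, q3, q4⟩ := core (fun y : Iio t => (f y).2) (↑) (fun y => (H y y.2).an)
    (fun y => (H y y.2).mem) (fun z y => cl (H y y.2) (H z z.2) 0)
    (fun i => if i % 2 = 0 then R (i / 2) else T (i / 2)) fun i z hz => by
      split_ifs at hz
      · simp only [R] at hz
        split_ifs at hz with h'
        · exact ⟨⟨z, (h'.1 z hz).1⟩, rfl⟩
        · exact hz.elim
      · exact ⟨⟨z, (hT1 _ z hz).1⟩, rfl⟩
  have od : ∀ k, (if (2 * k + 1) % 2 = 0 then R ((2 * k + 1) / 2) else T ((2 * k + 1) / 2)) = T k :=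
    fun k => by rw [if_neg (by omega), show (2 * k + 1) / 2 = k by omega]
  have ev : ∀ k, (if (2 * k) % 2 = 0 then R ((2 * k) / 2) else T ((2 * k) / 2)) = R k :=
    fun k => by rw [if_pos (by omega), show (2 * k) / 2 = k by omega]
  have q5 : ∀ i, Q i ⊆ Iio t := fun i => by
    rcases q2 i with h | ⟨y, m, -, h⟩ <;> rw [h]
    · exact empty_subset _
    · exact fun z hz => mem_Iio.2
        ((mem_Iic.1 ((H y y.2).le ((H y y.2).an (Nat.zero_le m) hz))).trans_lt y.2)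
  have nt : ∀ (z : Iio t) j, t ∉ (f z).2 j := fun z j h =>
    not_le.2 (mem_Iio.1 z.2) (mem_Iic.1 ((H z z.2).le ((H z z.2).an (Nat.zero_le j) h)))
  have hit : ∀ S j k, j ≤ k → T k = S → Unc v S →
      (insert t (⋃ k ≥ j, Q (2 * k + 1)) ∩ S).Nonempty := fun S j k h1 h2 h3 => by
    have := q4 (2 * k + 1)
    rw [od, h2] at this
    obtain ⟨z, a, b⟩ := this h3
    exact ⟨z, Or.inr (mem_iUnion₂.2 ⟨k, h1, a⟩), b⟩
  refine ⟨(ρ, fun n => insert t (⋃ k ≥ n, Q (2 * k + 1))), ⟨_, fun _ => rfl, fun k => ?_⟩,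
    insert_subset (mem_Iic.2 le_rfl) (iUnion₂_subset fun k _ => (q5 _).trans Iio_subset_Iic_self),
    fun z n hz => ?_, fun y => ?_, fun z hz => ?_, fun n h1 h2 => ?_, hT3.1, fun γ hγ h1 h2 => ?_⟩
  · exact (q2 _).imp_right fun ⟨y, m, _, h⟩ => ⟨y, m, h⟩
  · obtain ⟨N, hN⟩ := q3 z
    have : ∀ k ∈ Ico n N, ∀ᶠ j in atTop, Disjoint ((f z).2 j) (Q (2 * k + 1)) := fun k hk => by
      rcases q2 (2 * k + 1) with h | ⟨y, m, -, h⟩
      · simp [h]
      · rw [h]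
        exact cl (H y y.2) (H z z.2) m fun h' => hz (Or.inr (mem_iUnion₂.2 ⟨k, hk.1, h ▸ h'⟩))
    filter_upwards [(eventually_all_finite (finite_Ico n N)).2 this] with j hj
    refine disjoint_insert_right.2 ⟨nt z j, disjoint_iUnion₂_right.2 fun k hk => ?_⟩
    by_cases h : k < N
    · exact hj k ⟨hk, h⟩
    · exact (hN _ (by omega)).symm.mono_left ((H z z.2).an (Nat.zero_le j))
  · obtain ⟨N, hN⟩ := q3 y
    filter_upwards [eventually_ge_atTop N] with j hj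
    exact disjoint_insert_left.2 ⟨nt y 0, disjoint_iUnion₂_left.2 fun k hk => hN _ (by omega)⟩
  · obtain ⟨k, -, hk⟩ := mem_iUnion₂.1 (hz.resolve_left (ne_of_lt z.2))
    rcases q2 (2 * k + 1) with h | ⟨y, m, hy, h⟩ <;> rw [h] at hk
    · exact hk.elim
    · rw [od] at hy
      have := (rk (H y y.2) ((H y y.2).an (Nat.zero_le m) hk)).trans (hT1 k y hy).2
      show (f z).1 < ρ ∨ (f z).1 = 0
      omega
  · exact ⟨(hT2 n ⟨h1, h2⟩).1, fun j => hit _ j j le_rfl ((hT2 n ⟨h1, h2⟩).2 j) h2⟩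
  obtain ⟨i, hi⟩ := hu.le (show γ ∈ insert t (Iio t) from hγ.eq_or_lt)
  have hR : ∀ N, R (Nat.pair i N) = A γ := fun N => by
    simp only [R, Nat.unpair_pair, hi]
    exact if_pos ⟨h1, h2⟩
  refine ⟨fun s hs hsub => ?_, fun h j => hit _ j _ (Nat.right_le_pair i j) (by rw [hT3.2 h, hR]) h2⟩
  obtain ⟨N, hN⟩ := eventually_atTop.1 ((eventually_all_finite hs).2 fun y _ =>
    eventually_atTop.2 (q3 y))
  have := q4 (2 * Nat.pair i N)
  rw [ev, hR] at this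
  obtain ⟨z, a, b⟩ := this h2
  obtain ⟨y, hy, hz⟩ := mem_iUnion₂.1 (hsub ⟨b, fun h => by
    obtain ⟨k, -, hk⟩ := mem_iUnion₂.1 (h.resolve_left (ne_of_lt (q5 _ a)))
    exact disjoint_left.1 (q1 _ _ (by omega)) a hk⟩)
  have := Nat.right_le_pair i N
  exact disjoint_left.1 (hN _ (by omega) y hy) a hz

theorem build (A : W → Set W) : ∃ f : W → D, ∀ t, G A t (fun u => f u) (f t) :=
  HG2.rec_e id (fun t f d => G A t (fun u => f u) d)
    (fun t f g x h hx => by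
      rwa [show (fun u : Iio t => g u) = fun u : Iio t => f u from funext fun u => (h u u.2).symm])
    fun t _ H => step t H

end Pool.Agent.H33.WF3
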