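import Pool.Agent.H33.WF3

/-! Under diamond: a weakly first countable compactum with an Ostaszewski-type open subspace. -/

open Set Filter Topology Pool.Agent.H33.WF1 Pool.Agent.H33.DiaDefs Pool.Agent.H33.WF3

namespace Pool.Agent.H33.WF4

theorem uiff (v : W → Set W) (α : W) (S : Set W) : Unc (fun y : Iio α => v y) S ↔
    ∀ s : Set W, s.Finite → s ⊆ Iio α → ¬ S ⊆ ⋃ y ∈ s, v y :=
  ⟨fun h s hs hα hS => h _ (hs.preimage Subtype.val_injective.injOn) fun z hz => by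
      obtain ⟨y, a, b⟩ := mem_iUnion₂.1 (hS hz)
      exact mem_iUnion₂.2 ⟨⟨y, hα a⟩, a, b⟩,
    fun h s hs hS => h _ (hs.image (↑)) (by rintro _ ⟨y, -, rfl⟩; exact y.2) (by rwa [biUnion_image])⟩

theorem space (hD : Diamond) : ∃ (_ : TopologicalSpace W) (V : W → ℕ → Set W) (r : W → ℕ),
    T2Space W ∧ (∀ x, Antitone (V x)) ∧ (∀ x n, x ∈ V x n) ∧
    (∀ U : Set W, IsOpen U ↔ ∀ x ∈ U, ∃ n, V x n ⊆ U) ∧
    (∀ x, IsOpen (V x 0) ∧ IsCompact (V x 0)) ∧ (∀ β : W, IsOpen (Iio β)) ∧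
    (∀ n, IsOpen {x | r x ≤ n}) ∧ ¬ {x | r x ≤ 0}.Countable ∧
    (∀ F : Set W, IsClosed F → ¬ ({x | r x ≤ 0} ∩ F).Countable → ∃ γ, ∀ α ≥ γ, r α ≤ 0 → α ∈ F) ∧
    ∀ n (F : Set W), IsClosed F → F ⊆ {x | r x ≤ n} → IsCompact F := by
  obtain ⟨A, hA⟩ := hD
  obtain ⟨f, H⟩ := build A
  have := unc
  choose P e pc using fun x => (H x).e
  let τ := wtop (fun x => (f x).2) fun x => (H x).an
  have hT : ∀ U : Set W, IsOpen U ↔ ∀ x ∈ U, ∃ n, (f x).2 n ⊆ U := fun _ => Iff.rfl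
  have hv := vs wellFounded_lt e (fun x k => (pc x k).imp_right fun ⟨y, m, h⟩ => ⟨y, m, y.2, h⟩) hT
  have t2 : T2Space W := by
    have : ∀ x y : W, x < y → ∃ u v, IsOpen u ∧ IsOpen v ∧ x ∈ u ∧ y ∈ v ∧ Disjoint u v :=
      fun x y h => by
        obtain ⟨j, hj⟩ := ((H y).c2 ⟨x, h⟩).exists
        exact ⟨_, _, (hv x 0).1, (hv y j).1, (H x).mem 0, (H y).mem j, hj.symm⟩
    refine ⟨fun x y h => h.lt_or_gt.elim (this x y) fun h => ?_⟩
    obtain ⟨u, v, a, b, c, d, e⟩ := this y x h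
    exact ⟨v, u, b, a, d, c, e.symm⟩
  have lim : ∀ α (S : Set W), (∀ j, ((f α).2 j ∩ S).Nonempty) → α ∈ closure S := fun α S h =>
    mem_closure_iff.2 fun U hU hα => by
      obtain ⟨n, hn⟩ := (hT U).1 hU α hα
      exact (h n).mono (inter_subset_inter_left _ hn)
  have gs : ∀ (B : Set W) β, ∃ α > β, B ∩ Iio α = A α := fun B β => by
    obtain ⟨α, a, b⟩ := hA B (DT1.club cnt id β)
    exact ⟨α, b.1, a⟩
  have hO : ∀ F : Set W, F ⊆ {x | (f x).1 ≤ 0} → ¬ F.Countable → ∃ γ, A γ ⊆ F ∩ Iio γ ∧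
      ∀ α ≥ γ, Unc (fun y : Iio α => (f y).2 0) (A γ) := by
    intro F hF hc
    have : ∀ β, ∃ x ∈ F, β < x := fun β => by
      by_contra h
      push Not at h
      exact hc (((cnt β).insert β).mono fun x hx => (h x hx).eq_or_lt)
    choose g g1 g2 using this
    obtain ⟨δ⟩ : Nonempty W := inferInstance
    obtain ⟨γ, a, b⟩ := hA F (DT1.club cnt g δ)
    replace a : F ∩ Iio γ = A γ := a
    have h0 : ∀ s : Set W, s.Finite → s ⊆ Iio γ → ¬ A γ ⊆ ⋃ y ∈ s, (f y).2 0 := fun s hs hγ h => by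
      obtain ⟨β, h1, h2⟩ := exists_max_image (insert δ s) id (hs.insert δ) (insert_nonempty _ _)
      obtain ⟨y, c, d⟩ := mem_iUnion₂.1 (h (a.le ⟨g1 β, b.2 β (mem_Iio.1 (insert_subset (mem_Iio.2 b.1) hγ h1))⟩))
      exact not_le.2 (g2 β) ((mem_Iic.1 ((H y).le d)).trans (h2 y (Or.inr c)))
    refine ⟨γ, a.ge, fun α => ?_⟩
    induction α using WellFoundedLT.induction with
    | _ α ih =>
    refine fun _ => (uiff (fun y => (f y).2 0) _ _).2 fun s hs hα h => ?_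
    by_cases h' : s ⊆ Iio γ
    · exact h0 s hs h' h
    obtain ⟨y, c, d⟩ := not_subset.1 h'
    obtain ⟨β, h1, h2⟩ := exists_max_image s id hs ⟨y, c⟩
    have hβ : γ ≤ β := (not_lt.1 d).trans (h2 y c)
    refine (uiff (fun y => (f y).2 0) _ _).1 ((H β).os γ hβ (fun z hz => ⟨(a.ge hz).2.trans_le hβ,
      Nat.le_zero.1 (hF (a.ge hz).1)⟩) (ih β (hα h1) hβ)).1 (s \ {β}) (hs.subset sdiff_subset)
      (fun z hz => mem_Iio.2 (lt_of_le_of_ne (h2 z hz.1) hz.2)) fun z hz => ?_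
    obtain ⟨w, c, d⟩ := mem_iUnion₂.1 (h hz.1)
    exact mem_iUnion₂.2 ⟨w, ⟨c, fun e => hz.2 (e ▸ d)⟩, d⟩
  have hB : ∀ n (B : Set W), B.Countable → (∀ z ∈ B, (f z).1 = n) →
      (∃ s : Set W, s.Finite ∧ B ⊆ ⋃ y ∈ s, (f y).2 0) ∨ ∃ α ∈ closure B, (f α).1 = n + 1 := by
    intro n B hc hn
    obtain ⟨β, hβ⟩ := DT1.bd cnt B hc
    obtain ⟨α, a, b⟩ := gs B β
    rw [inter_eq_left.2 fun z hz => mem_Iio.2 ((hβ z hz).trans a)] at b
    by_cases h : Unc (fun y : Iio α => (f y).2 0) (A α)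
    · have := (H α).tr n (fun z hz => ⟨(hβ z (b.ge hz)).trans a, hn z (b.ge hz)⟩) h
      exact Or.inr ⟨α, lim α B (b ▸ this.2), this.1⟩
    · rw [uiff fun y => (f y).2 0] at h
      push Not at h
      obtain ⟨s, c, -, d⟩ := h
      exact Or.inl ⟨s, c, b ▸ d⟩
  have cp : ∀ s : Set W, s.Finite → IsCompact (⋃ y ∈ s, (f y).2 0) := fun s hs =>
    hs.isCompact_biUnion fun y _ => (hv y 0).2.1
  refine ⟨τ, fun x => (f x).2, fun x => (f x).1, t2, fun x => (H x).an, fun x => (H x).mem, hT,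
    fun x => ⟨(hv x 0).1, (hv x 0).2.1⟩, fun β => (hT _).2 fun x hx => ⟨0, fun z hz =>
      mem_Iio.2 ((mem_Iic.1 ((H x).le hz)).trans_lt hx)⟩,
    fun n => (hT _).2 fun x hx => ⟨0, fun z hz => (rk (H x) hz).trans hx⟩, fun h => ?_,
    fun F hF h => ?_, fun n => ?_⟩
  · obtain ⟨β, hβ⟩ := DT1.bd cnt _ h
    obtain ⟨α, a, b⟩ := gs ∅ β
    exact lt_asymm a (hβ α ((H α).ze (by rw [← b, empty_inter])).le)
  · obtain ⟨γ, a, b⟩ := hO _ inter_subset_left h
    refine ⟨γ, fun α hα h0 => closure_minimal (fun z hz => (a hz).1.2) hF (lim α (A γ) ?_)⟩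
    exact ((H α).os γ hα (fun z hz => ⟨(a hz).2.trans_le hα, Nat.le_zero.1 (a hz).1.1⟩)
      (b α hα)).2 (Nat.le_zero.1 h0)
  have hB' : ∀ n (F : Set W), IsClosed F → F ⊆ {x | (f x).1 ≤ n} → ∀ B ⊆ F, B.Countable →
      (∀ z ∈ B, (f z).1 = n) → ∃ s : Set W, s.Finite ∧ B ⊆ ⋃ y ∈ s, (f y).2 0 :=
    fun n F hF hn B h1 h2 h3 => (hB n B h2 h3).resolve_right fun ⟨α, a, b⟩ => by
      have : (f α).1 ≤ n := hn (closure_minimal h1 hF a)
      omega
  induction n with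
  | zero =>
    intro F hF h0
    have hc : F.Countable := by
      by_contra hc
      obtain ⟨γ, a, b⟩ := hO F h0 hc
      obtain ⟨s, c, d⟩ := hB' 0 F hF h0 (A γ) (fun z hz => (a hz).1)
        ((cnt γ).mono fun z hz => (a hz).2) fun z hz => Nat.le_zero.1 (h0 (a hz).1)
      obtain ⟨β, hβ⟩ := DT1.bd cnt _ (c.countable.insert γ)
      exact (uiff (fun y => (f y).2 0) _ _).1 (b β (hβ γ (Or.inl rfl)).le) s c
        (fun z hz => hβ z (Or.inr hz)) d
    obtain ⟨s, c, d⟩ := hB' 0 F hF h0 F subset_rfl hc fun z hz => Nat.le_zero.1 (h0 hz)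
    exact (cp s c).of_isClosed_subset hF d
  | succ n ih =>
    intro F hF hn
    have hL : (F ∩ {x | (f x).1 = n + 1}).Finite := by
      by_contra hL
      obtain ⟨B, h1, h3, h2⟩ := Set.Infinite.exists_subset_countable_infinite hL
      obtain ⟨s, c, d⟩ := hB' _ F hF hn B (fun z hz => (h1 hz).1) h3 fun z hz => (h1 hz).2
      obtain ⟨z, -, hz⟩ := h2.exists_accPt_of_subset_isCompact (cp s c) d
      have h4 : (f z).1 ≤ n + 1 := hn (closure_minimal (fun z hz => (h1 hz).1) hF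
        (mem_closure_iff_clusterPt.2 hz.clusterPt))
      obtain ⟨b, ⟨h5, h6⟩, h7⟩ := accPt_iff_nhds.1 hz _ ((hv z 0).1.mem_nhds ((H z).mem 0))
      have h8 := (H z).rk ⟨b, lt_of_le_of_ne (mem_Iic.1 ((H z).le h5)) h7⟩ h5
      have h9 : (f b).1 = n + 1 := (h1 h6).2
      simp only at h8
      omega
    refine ((ih _ (hF.sdiff (isOpen_biUnion fun y _ => (hv y 0).1)) fun z hz => ?_).union
      (cp _ hL)).of_isClosed_subset hF (subset_sdiff_union _ _)
    have : (f z).1 ≤ n + 1 := hn hz.1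
    exact Nat.le_of_lt_succ (lt_of_le_of_ne this fun h => hz.2 (mem_biUnion ⟨hz.1, h⟩ ((H z).mem 0)))

theorem partAB (hD : Diamond) : ∃ (X : Type) (_ : TopologicalSpace X), CompactSpace X ∧ T2Space X ∧
    WeaklyFC X ∧ (∃ S : Set X, ¬ AlphaRealcompact S) ∧ ¬ RadonSpace X := by
  obtain ⟨τ, V, r, t2, an, mem, hT, hv, hI, hr, hZ, hO, hK⟩ := space hD
  have := unc
  have : WeaklyLocallyCompactSpace W := ⟨fun x => ⟨V x 0, (hv x).2, (hv x).1.mem_nhds (mem x 0)⟩⟩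
  let S : Set (OnePoint W) := (↑) '' {x | r x ≤ 0}
  have : Uncountable S := by
    rw [← not_countable_iff, countable_coe_iff]
    exact fun h => hZ (countable_of_injective_of_countable_image OnePoint.coe_injective.injOn h)
  have cI : ∀ β : W, (((↑) : W → OnePoint W) '' Iio β).Countable := fun β => (cnt β).image _
  have h2 : ∀ F : Set S, IsClosed F → F.Countable ∨ Fᶜ.Countable := fun F hF => by
    obtain ⟨F, hF', rfl⟩ := isClosed_induced_iff.1 hF
    by_cases h : ({x | r x ≤ 0} ∩ ((↑) : W → OnePoint W) ⁻¹' F).Countable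
    · refine Or.inl (((h.image (↑)).preimage Subtype.val_injective).mono ?_)
      rintro ⟨_, x, hx, rfl⟩ h'
      exact ⟨x, ⟨hx, h'⟩, rfl⟩
    · obtain ⟨γ, hγ⟩ := hO _ (hF'.preimage OnePoint.continuous_coe) h
      refine Or.inr (((cI γ).preimage Subtype.val_injective).mono ?_)
      rintro ⟨_, x, hx, rfl⟩ h'
      exact ⟨x, mem_Iio.2 (not_le.1 fun h => h' (hγ x h hx)), rfl⟩
  refine ⟨OnePoint W, inferInstance, inferInstance, inferInstance,
    ⟨fun q n => OnePoint.rec (insert OnePoint.infty ((↑) '' {x | n < r x})) (fun x => (↑) '' V x n) q,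
      fun q a b h => ?_, fun q n => ?_, fun U => ?_⟩, ⟨S, notARC S (fun D hD => ?_) h2⟩,
    notRadon _ S (OnePoint.isOpenMap_coe _ (hr 0)) (fun K hK hK' => ?_) h2⟩
  · induction q using OnePoint.rec with
    | infty => exact insert_subset_insert (image_mono fun x hx => h.trans_lt hx)
    | coe x => exact image_mono (an x h)
  · induction q using OnePoint.rec with
    | infty => exact Or.inl rfl
    | coe x => exact ⟨x, mem x n, rfl⟩
  · rw [OnePoint.isOpen_def, OnePoint.forall, hT]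
    show _ ↔ (_ → ∃ n, insert OnePoint.infty ((↑) '' {x | n < r x}) ⊆ U) ∧
      ∀ x : W, _ → ∃ n, (↑) '' V x n ⊆ U
    simp only [image_subset_iff, mem_preimage]
    refine and_congr_left fun h => forall_congr' fun h' => ⟨fun hc => ?_, fun ⟨n, hn⟩ => ?_⟩
    · obtain ⟨n, hn⟩ := hc.elim_directed_cover (fun n => {x | r x ≤ n}) hr
        (fun x _ => mem_iUnion.2 ⟨r x, le_refl (r x)⟩)
        (Monotone.directed_le fun a b h x hx => le_trans hx h)
      refine ⟨n, insert_subset h' (image_subset_iff.2 fun x hx => ?_)⟩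
      by_contra h
      exact not_le.2 (show n < r x from hx) (show r x ≤ n from hn h)
    · exact hK n _ ((hT _).2 h).isClosed_compl fun x hx =>
        (not_lt.1 fun h => hx (hn (Or.inr ⟨x, h, rfl⟩)) : r x ≤ n)
  · obtain ⟨β, hβ⟩ := DT1.bd cnt _ ((hD.image (↑)).preimage OnePoint.coe_injective)
    refine ⟨_, (OnePoint.isOpenMap_coe _ (hI β)).preimage continuous_subtype_val, ?_,
      (cI β).preimage Subtype.val_injective⟩
    rintro ⟨_, x, hx, rfl⟩ h
    exact ⟨x, hβ x ⟨_, h, rfl⟩, rfl⟩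
  · refine hK'.induction_on countable_empty (fun _ _ h h' => h'.mono h) (fun _ _ => Countable.union)
      fun q hq => ?_
    obtain ⟨x, -, rfl⟩ := hK hq
    obtain ⟨β, hβ⟩ := DT1.bd cnt _ (countable_singleton x)
    exact ⟨_, mem_nhdsWithin_of_mem_nhds ((OnePoint.isOpenMap_coe _ (hI β)).mem_nhds
      ⟨x, hβ x rfl, rfl⟩), cI β⟩

end Pool.Agent.H33.WF4
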