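import Mathlib

set_option autoImplicit false

open Set Filter Topology Function
open scoped Pointwise

namespace Pool.Agent.H33.WPG1

/-- `X` is `G_δ`-dense in some Hausdorff compactification. -/
def WeaklyPseudocompact (X : Type) [TopologicalSpace X] : Prop :=
  ∃ (K : Type) (_ : TopologicalSpace K) (e : X → K), CompactSpace K ∧ T2Space K ∧
    IsEmbedding e ∧ DenseRange e ∧ ∀ G : Set K, IsGδ G → G.Nonempty → ∃ x, e x ∈ G

/-- finitely many translates of each neighbourhood of `0` cover the group -/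
def Precompact (G : Type) [AddGroup G] [TopologicalSpace G] : Prop :=
  ∀ U ∈ 𝓝 (0 : G), ∃ F : Set G, F.Finite ∧ F + U = univ

/-- countably many translates of each neighbourhood of `0` cover the group -/
def OmegaBounded (G : Type) [AddGroup G] [TopologicalSpace G] : Prop :=
  ∀ U ∈ 𝓝 (0 : G), ∃ C : Set G, C.Countable ∧ C + U = univ

/-- continuous real functions factor through continuous epimorphisms onto second countable
Hausdorff topological groups -/
def RFactorizable (G : Type) [AddGroup G] [TopologicalSpace G] : Prop :=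
  ∀ f : G → ℝ, Continuous f → ∃ (H : Type) (_ : AddGroup H) (_ : TopologicalSpace H),
    IsTopologicalAddGroup H ∧ T2Space H ∧ SecondCountableTopology H ∧
    ∃ (π : G →+ H) (h : H → ℝ), Continuous π ∧ Surjective π ∧ Continuous h ∧ f = h ∘ π

abbrev C := ℝ → ZMod 2

def Sig : AddSubgroup C where
  carrier := {x | (support x).Countable}
  zero_mem' := by simp
  add_mem' := fun {a b} ha hb => (ha.union hb).mono (support_add a b)
  neg_mem' := fun {a} ha => by simpa [support_neg] using ha

abbrev G := ℤ × Sig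

open Classical in
/-- cut to `A` -/
noncomputable def cut (A : Set ℝ) (x : C) : C := fun i => if i ∈ A then x i else 0

theorem cut_mem {A : Set ℝ} (hA : A.Countable) (x : C) : cut A x ∈ Sig :=
  hA.mono fun i hi => by
    by_contra h
    exact hi (by simp [cut, h])

theorem nhds_C {x : C} {U : Set C} (hU : U ∈ 𝓝 x) :
    ∃ F : Set ℝ, F.Finite ∧ ∀ y : C, (∀ i ∈ F, y i = x i) → y ∈ U := by
  rw [nhds_pi, Filter.mem_pi] at hU
  obtain ⟨F, hF, t, ht, hs⟩ := hU
  exact ⟨F, hF, fun y hy => hs fun i hi => by rw [hy i hi]; exact mem_of_mem_nhds (ht i)⟩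

theorem nhds_Sig {x : Sig} {U : Set Sig} (hU : U ∈ 𝓝 x) :
    ∃ F : Set ℝ, F.Finite ∧ ∀ y : Sig, (∀ i ∈ F, y.1 i = x.1 i) → y ∈ U := by
  rw [nhds_induced, mem_comap] at hU
  obtain ⟨V, hV, hs⟩ := hU
  obtain ⟨F, hF, h⟩ := nhds_C hV
  exact ⟨F, hF, fun y hy => hs (h y.1 hy)⟩

theorem gdense {S : Set C} (hS : IsGδ S) (hne : S.Nonempty) : ∃ y : Sig, y.1 ∈ S := by
  obtain ⟨T, hT, hc, rfl⟩ := hS
  obtain ⟨x, hx⟩ := hne
  choose! F hF hF' using fun U (hU : U ∈ T) => nhds_C ((hT U hU).mem_nhds (hx U hU))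
  have hA : (⋃ U ∈ T, F U).Countable := hc.biUnion fun U hU => (hF U hU).countable
  refine ⟨⟨cut _ x, cut_mem hA x⟩, fun U hU => hF' U hU _ fun i hi => ?_⟩
  have : i ∈ ⋃ U ∈ T, F U := mem_biUnion hU hi
  simp only [cut, if_pos this]

theorem one_ne (x : Sig) : x.1 ≠ 1 := fun h => by
  have h1 : (support x.1).Countable := x.2
  rw [h] at h1
  have : support (1 : C) = univ := by ext i; simp
  rw [this] at h1
  exact Cardinal.not_countable_real h1

def KS : Set (ℤ → C) := {y | ∀ m n, m ≠ n → y m = 1 ∨ y n = 1}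

theorem KS_closed : IsClosed KS := by
  have : KS = ⋂ m, ⋂ n, ⋂ (_ : m ≠ n), ({y : ℤ → C | y m = 1} ∪ {y | y n = 1}) := by
    ext y; simp [KS]
  rw [this]
  exact isClosed_iInter fun m => isClosed_iInter fun n => isClosed_iInter fun _ =>
    (isClosed_eq (continuous_apply m) continuous_const).union
      (isClosed_eq (continuous_apply n) continuous_const)

def upd (n : ℤ) (x : C) : KS := ⟨update 1 n x, fun a b hab => by
  by_cases h : a = n
  · right; rw [update_of_ne (fun e => hab (h.trans e.symm))]; rfl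
  · left; rw [update_of_ne h]; rfl⟩

theorem upd_cont (n : ℤ) : Continuous (upd n) :=
  Continuous.subtype_mk (f := fun x : C => update (1 : ℤ → C) n x)
    (continuous_const.update n continuous_id) _

theorem upd_surj (y : KS) : ∃ n x, upd n x = y := by
  by_cases h : ∃ n, y.1 n ≠ 1
  · obtain ⟨n, hn⟩ := h
    refine ⟨n, y.1 n, Subtype.ext (funext fun m => ?_)⟩
    by_cases e : m = n
    · subst e; simp [upd]
    · simp only [upd, update_of_ne e]
      exact ((y.2 m n e).resolve_right hn).symm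
  · push Not at h
    refine ⟨0, 1, Subtype.ext (funext fun m => ?_)⟩
    simp [upd, h m]

def emb (g : G) : KS := upd g.1 g.2.1

theorem emb_cont : Continuous emb := by
  rw [continuous_iff_continuousAt]
  intro g
  have h1 : ContinuousAt (fun a : G => upd g.1 a.2.1) g :=
    ((upd_cont g.1).comp (continuous_subtype_val.comp continuous_snd)).continuousAt
  refine h1.congr ?_
  have : {a : G | a.1 = g.1} ∈ 𝓝 g :=
    ((isOpen_discrete {g.1}).preimage continuous_fst).mem_nhds rfl
  filter_upwards [this] with a ha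
  simp only [emb]; rw [ha]

theorem emb_fst {g a : G} (h : (emb a).1 g.1 ≠ 1) : a.1 = g.1 := by
  by_contra e
  exact h (by simp only [emb, upd]; rw [update_of_ne (Ne.symm e)]; rfl)

theorem emb_self (g : G) : (emb g).1 g.1 = g.2.1 := by simp [emb, upd]

theorem emb_embedding : IsEmbedding emb := by
  refine ⟨isInducing_iff_nhds.2 fun g => le_antisymm (emb_cont.tendsto g).le_comap ?_, ?_⟩
  · have t1 : Tendsto (fun a : G => (emb a).1 g.1) (comap emb (𝓝 (emb g))) (𝓝 g.2.1) := by
      rw [← emb_self g]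
      exact (((continuous_apply g.1).comp continuous_subtype_val).tendsto (emb g)).comp tendsto_comap
    have e1 : ∀ᶠ a in comap emb (𝓝 (emb g)), a.1 = g.1 :=
      (t1.eventually (isOpen_ne.mem_nhds (one_ne g.2))).mono fun a ha => emb_fst ha
    have t2 : Tendsto (fun a : G => a.2) (comap emb (𝓝 (emb g))) (𝓝 g.2) := by
      rw [tendsto_subtype_rng]
      refine t1.congr' (e1.mono fun a ha => ?_)
      simp only []; rw [← ha, emb_self]
    have t3 : Tendsto (fun a : G => a.1) (comap emb (𝓝 (emb g))) (𝓝 g.1) :=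
      tendsto_const_nhds.congr' (e1.mono fun a ha => ha.symm)
    exact t3.prodMk_nhds t2
  · intro a g h
    have e : a.1 = g.1 := emb_fst (by rw [h, emb_self]; exact one_ne _)
    refine Prod.ext e (Subtype.ext ?_)
    rw [← emb_self a, h, e, emb_self]

theorem wpc : WeaklyPseudocompact G := by
  have hg : ∀ S : Set KS, IsGδ S → S.Nonempty → ∃ x, emb x ∈ S := fun S hS ⟨y, hy⟩ => by
    obtain ⟨n, x, rfl⟩ := upd_surj y
    obtain ⟨z, hz⟩ := gdense (hS.preimage (upd_cont n)) ⟨x, hy⟩
    exact ⟨(n, z), hz⟩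
  refine ⟨KS, inferInstance, emb, isCompact_iff_compactSpace.1 KS_closed.isCompact, inferInstance,
    emb_embedding, dense_iff_inter_open.2 fun U hU hne => ?_, hg⟩
  obtain ⟨x, hx⟩ := hg U hU.isGδ hne
  exact ⟨emb x, hx, x, rfl⟩

theorem not_precompact : ¬ Precompact G := fun h => by
  obtain ⟨F, hF, e⟩ := h {a : G | a.1 = 0}
    (((isOpen_discrete {(0 : ℤ)}).preimage continuous_fst).mem_nhds rfl)
  obtain ⟨n, hn⟩ := (hF.image Prod.fst).exists_notMem
  have : ((n, 0) : G) ∈ F + {a : G | a.1 = 0} := e ▸ mem_univ _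
  obtain ⟨a, ha, b, hb, hab⟩ := this
  refine hn ⟨a, ha, ?_⟩
  have := congrArg Prod.fst hab
  simp only [Prod.fst_add] at this
  rw [show b.1 = 0 from hb, add_zero] at this
  exact this

open Classical in
noncomputable def ext {A : Set ℝ} (hA : A.Countable) (u : A → ZMod 2) : Sig :=
  ⟨fun i => if h : i ∈ A then u ⟨i, h⟩ else 0, hA.mono fun i hi => by
    by_contra h
    exact hi (by simp [h])⟩

theorem ext_apply {A : Set ℝ} (hA : A.Countable) (u : A → ZMod 2) {i : ℝ} (h : i ∈ A) :
    (ext hA u).1 i = u ⟨i, h⟩ := by simp [ext, h]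

theorem ext_cont {A : Set ℝ} (hA : A.Countable) : Continuous (ext hA) := by
  refine Continuous.subtype_mk (continuous_pi fun i => ?_) _
  by_cases h : i ∈ A
  · simp only [dif_pos h]; exact continuous_apply _
  · simp only [dif_neg h]; exact continuous_const

theorem omegaBounded : OmegaBounded G := fun U hU => by
  rw [show (0 : G) = ((0 : ℤ), (0 : Sig)) from rfl, mem_nhds_prod_iff] at hU
  obtain ⟨V, hV, W, hW, hs⟩ := hU
  obtain ⟨F, hF, h⟩ := nhds_Sig hW
  have := hF.to_subtype
  refine ⟨range fun p : ℤ × (F → ZMod 2) => ((p.1, ext hF.countable p.2) : G), countable_range _,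
    eq_univ_of_forall fun g => ?_⟩
  refine ⟨_, ⟨(g.1, fun i => g.2.1 i), rfl⟩, (0, g.2 - ext hF.countable fun i => g.2.1 i),
    hs ⟨mem_of_mem_nhds hV, h _ fun i hi => ?_⟩, by simp⟩
  simp [ext_apply _ _ hi]

theorem closed_ctble (S : Set ℝ → Set ℝ) (hS : ∀ F, (S F).Countable) :
    ∃ A : Set ℝ, A.Countable ∧ ∀ F ⊆ A, F.Finite → S F ⊆ A := by
  let B : ℕ → Set ℝ := fun n => Nat.rec ∅ (fun _ B => B ∪ ⋃ F ∈ {t : Set ℝ | t.Finite ∧ t ⊆ B}, S F) n
  have hB : ∀ n, (B n).Countable := fun n => by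
    induction n with
    | zero => exact countable_empty
    | succ n ih => exact ih.union ((countable_ofPred_finite_subset ih).biUnion fun F _ => hS F)
  have hm : Monotone B := monotone_nat_of_le_succ fun n => subset_union_left
  refine ⟨⋃ n, B n, countable_iUnion hB, fun F hF hf => ?_⟩
  obtain ⟨n, hn⟩ : ∃ n, F ⊆ B n := by
    choose! k hk using fun i (hi : i ∈ F) => mem_iUnion.1 (hF hi)
    obtain ⟨n, hn⟩ := (hf.image k).bddAbove
    exact ⟨n, fun i hi => hm (hn ⟨i, hi, rfl⟩) (hk i hi)⟩
  exact fun i hi => mem_iUnion.2 ⟨n + 1, Or.inr (mem_biUnion (show F ∈ {t : Set ℝ | t.Finite ∧ t ⊆ B n} from ⟨hf, hn⟩) hi)⟩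

theorem unif {g : Sig → ℝ} (hg : Continuous g) {ε : ℝ} (hε : 0 < ε) :
    ∃ F : Set ℝ, F.Finite ∧ ∀ x y : Sig, (∀ i ∈ F, x.1 i = y.1 i) → dist (g x) (g y) < ε := by
  by_contra hn
  push Not at hn
  choose! x y hxy hd using hn
  obtain ⟨A, hA, hcl⟩ := closed_ctble (fun F => support (x F).1 ∪ support (y F).1)
    fun F => (x F).2.union (y F).2
  have hK : IsCompact (range (ext hA)) := isCompact_range (ext_cont hA)
  choose F hF hF' using fun z : Sig =>
    nhds_Sig (hg.continuousAt.preimage_mem_nhds (Metric.ball_mem_nhds (g z) (half_pos hε)))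
  obtain ⟨t, -, ht⟩ := hK.elim_nhds_subcover (fun z => {w : Sig | ∀ i ∈ F z, w.1 i = z.1 i})
    (fun z _ => by
      have : {w : Sig | ∀ i ∈ F z, w.1 i = z.1 i} = ⋂ i ∈ F z, {w : Sig | w.1 i = z.1 i} := by
        ext w; simp
      rw [this]
      refine (biInter_mem (hF z)).2 fun i _ => ?_
      have hc : Continuous fun w : Sig => (w.1 i : ZMod 2) :=
        (continuous_apply i).comp continuous_subtype_val
      exact ((isOpen_discrete ({z.1 i} : Set (ZMod 2))).preimage hc).mem_nhds rfl)
  let E : Set ℝ := (⋃ z ∈ (t : Set Sig), F z) ∩ A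
  have hE : E.Finite := (t.finite_toSet.biUnion fun z _ => hF z).inter_of_left _
  have hs := hcl E inter_subset_right hE
  have hx : x E ∈ range (ext hA) := ⟨fun i => (x E).1 i, Subtype.ext (funext fun i => by
    by_cases h : i ∈ A
    · rw [ext_apply _ _ h]
    · have : (x E).1 i = 0 := by_contra fun e => h (hs (Or.inl e))
      simp [ext, h, this])⟩
  obtain ⟨z, hz, hz'⟩ := mem_iUnion₂.1 (ht hx)
  have a1 := hF' z (x E) hz'
  have a2 := hF' z (y E) fun i hi => by
    rw [← hz' i hi]
    by_cases h : i ∈ A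
    · exact (hxy E hE i ⟨mem_biUnion hz hi, h⟩).symm
    · have e1 : (x E).1 i = 0 := by_contra fun e => h (hs (Or.inl e))
      have e2 : (y E).1 i = 0 := by_contra fun e => h (hs (Or.inr e))
      rw [e1, e2]
  have := dist_triangle_right (g (x E)) (g (y E)) (g z)
  have b1 : dist (g (x E)) (g z) < ε / 2 := a1
  have b2 : dist (g (y E)) (g z) < ε / 2 := a2
  linarith [hd E hE]

theorem rfact : RFactorizable G := fun f hf => by
  choose F hF hF' using fun p : ℤ × ℕ =>
    unif (g := fun x => f (p.1, x)) (hf.comp (continuous_const.prodMk continuous_id))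
      (Nat.one_div_pos_of_nat (n := p.2))
  have hA : (⋃ p, F p).Countable := countable_iUnion fun p => (hF p).countable
  set A := ⋃ p, F p
  have := hA.to_subtype
  let π : G →+ ℤ × (A → ZMod 2) :=
    { toFun := fun g => (g.1, fun i => g.2.1 i)
      map_zero' := rfl
      map_add' := fun _ _ => rfl }
  refine ⟨ℤ × (A → ZMod 2), inferInstance, inferInstance, inferInstance, inferInstance,
    inferInstance, π, fun p => f (p.1, ext hA p.2), ?_, ?_, ?_, ?_⟩
  · exact continuous_fst.prodMk (continuous_pi fun i =>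
      (continuous_apply i.1).comp (continuous_subtype_val.comp continuous_snd))
  · exact fun p => ⟨(p.1, ext hA p.2), Prod.ext rfl (funext fun i => ext_apply hA p.2 i.2)⟩
  · exact hf.comp (continuous_fst.prodMk ((ext_cont hA).comp continuous_snd))
  · funext g
    refine eq_of_forall_dist_le fun ε hε => ?_
    obtain ⟨k, hk⟩ := exists_nat_one_div_lt hε
    refine ((hF' (g.1, k) g.2 (ext hA fun i => g.2.1 i) fun i hi => ?_).trans hk).le
    rw [ext_apply _ _ (mem_iUnion.2 ⟨_, hi⟩)]

end Pool.Agent.H33.WPG1
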