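import Mathlib
import Pool.Agent.H33.Contin

set_option autoImplicit false
open Set Topology TopologicalSpace Metric Filter

namespace Pool.Agent.H33.WardFP
open Pool.Agent.H33.Contin

theorem main (X : Type) [MetricSpace X] [CompactSpace X]
    (hF : ∀ F : X → NonemptyCompacts X, Continuous F → ∃ x : X, x ∈ F x)
    (A B : Set X) (hA : IsClosed A) (hAc : IsConnected A) (hB : IsClosed B) (hBc : IsConnected B) :
    IsPreconnected (A ∩ B) := by
  by_contra hn
  rw [isPreconnected_closed_iff] at hn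
  push Not at hn
  obtain ⟨s, t, hs, ht, hst, ⟨p, hp, hps⟩, ⟨q, hq, hqt⟩, h3⟩ := hn
  obtain ⟨α, h0, h1, -⟩ := exists_continuous_zero_one_of_isClosed ((hA.inter hB).inter hs)
    ((hA.inter hB).inter ht) (disjoint_left.mpr fun z hz hz' => by
      have : z ∈ A ∩ B ∩ (s ∩ t) := ⟨hz.1, hz.2, hz'.2⟩
      rw [h3] at this; exact this)
  have hα : ∀ z ∈ A ∩ B, α z = 0 ∨ α z = 1 := fun z hz =>
    (hst hz).imp (fun h => h0 ⟨hz, h⟩) (fun h => h1 ⟨hz, h⟩)
  have hαp : α p = 0 := h0 ⟨hp, hps⟩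
  have hαq : α q = 1 := h1 ⟨hq, hqt⟩
  obtain ⟨Ap, cAp, Ap0, Ap1, sAp⟩ := order_arc hA hAc.isPreconnected hp.1
  obtain ⟨Aq, cAq, Aq0, Aq1, sAq⟩ := order_arc hA hAc.isPreconnected hq.1
  obtain ⟨Bp, cBp, Bp0, Bp1, sBp⟩ := order_arc hB hBc.isPreconnected hp.2
  obtain ⟨Bq, cBq, Bq0, Bq1, sBq⟩ := order_arc hB hBc.isPreconnected hq.2
  -- the middle region
  set Z : Set X := {z | 1 / 3 ≤ α z} ∩ {z | α z ≤ 2 / 3} with hZ
  have hZc : IsClosed Z := (isClosed_le continuous_const α.continuous).inter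
    (isClosed_le α.continuous continuous_const)
  obtain ⟨U, V, hU, hV, hZU, hZV, hUV⟩ := normal_separation (hZc.inter hA) (hZc.inter hB)
    (disjoint_left.mpr fun z hz hz' => by
      have h4 : 1 / 3 ≤ α z := hz.1.1
      have h5 : α z ≤ 2 / 3 := hz.1.2
      rcases hα z ⟨hz.2, hz'.2⟩ with h | h <;> linarith)
  obtain ⟨σ, σ0, σ1, -⟩ := exists_continuous_zero_one_of_isClosed hA (hZc.inter hU.isClosed_compl)
    (disjoint_left.mpr fun z hz hz' => hz'.2 (hZU ⟨hz'.1, hz⟩))
  obtain ⟨τ, τ0, τ1, -⟩ := exists_continuous_zero_one_of_isClosed hB (hZc.inter hV.isClosed_compl)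
    (disjoint_left.mpr fun z hz hz' => hz'.2 (hZV ⟨hz'.1, hz⟩))
  have hστ : ∀ z ∈ Z, σ z = 1 ∨ τ z = 1 := fun z hz => by
    by_cases h : z ∈ U
    · exact Or.inr (τ1 ⟨hz, disjoint_left.mp hUV h⟩)
    · exact Or.inl (σ1 ⟨hz, h⟩)
  let l : X → ℝ := fun z => min 1 (2 - 3 * α z)
  let r : X → ℝ := fun z => min 1 (3 * α z - 1)
  have hl : Continuous l := by fun_prop
  have hr : Continuous r := by fun_prop
  let Fq : X → NonemptyCompacts X := fun z => Aq (σ z * l z) ⊔ Bq (τ z * l z)
  let Fp : X → NonemptyCompacts X := fun z => Ap (σ z * r z) ⊔ Bp (τ z * r z)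
  have cq : Continuous Fq := (cAq.comp (by fun_prop)).sup (cBq.comp (by fun_prop))
  have cp : Continuous Fp := (cAp.comp (by fun_prop)).sup (cBp.comp (by fun_prop))
  have c1 : Continuous fun z => if α z ≤ 2 / 3 then Fq z ⊔ Fp z else Fp z := by
    refine Continuous.if_le (cq.sup cp) cp α.continuous continuous_const fun z hz => ?_
    have e1 : l z = 0 := by simp only [l, hz]; norm_num
    have e2 : r z = 1 := by simp only [r, hz]; norm_num
    rw [sup_eq_right]
    change ((Fq z : Set X)) ⊆ Fp z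
    simp only [Fq, Fp, e1, e2, mul_zero, mul_one, NonemptyCompacts.coe_sup, Aq0, Bq0, union_self,
      singleton_subset_iff]
    rcases hστ z ⟨by simp only [mem_ofPred_eq, hz]; norm_num, hz.le⟩ with h | h
    · left; rw [h, Ap1]; exact hq.1
    · right; rw [h, Bp1]; exact hq.2
  have c2 : Continuous fun z => if α z ≤ 1 / 3 then Fq z else
      if α z ≤ 2 / 3 then Fq z ⊔ Fp z else Fp z := by
    refine Continuous.if_le cq c1 α.continuous continuous_const fun z hz => ?_
    have e1 : l z = 1 := by simp only [l, hz]; norm_num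
    have e2 : r z = 0 := by simp only [r, hz]; norm_num
    rw [if_pos (by rw [hz]; norm_num), eq_comm, sup_eq_left]
    change ((Fp z : Set X)) ⊆ Fq z
    simp only [Fq, Fp, e1, e2, mul_zero, mul_one, NonemptyCompacts.coe_sup, Ap0, Bp0, union_self,
      singleton_subset_iff]
    rcases hστ z ⟨hz.ge, by simp only [mem_ofPred_eq, hz]; norm_num⟩ with h | h
    · left; rw [h, Aq1]; exact hp.1
    · right; rw [h, Bq1]; exact hp.2
  obtain ⟨x, hx⟩ := hF _ c2
  -- membership analysis
  have kq : x ∈ (Fq x : Set X) → x ∈ A ∩ B ∧ x = q := fun h => by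
    simp only [Fq, NonemptyCompacts.coe_sup] at h
    by_cases ha : x ∈ A
    · have e : σ x = 0 := σ0 ha
      rw [e, zero_mul, Aq0] at h
      have hb : x ∈ B := h.elim (fun h => h ▸ hq.2) (fun h => sBq _ h)
      have e' : τ x = 0 := τ0 hb
      rw [e', zero_mul, Bq0, union_self] at h
      exact ⟨⟨ha, hb⟩, h⟩
    · have hb : x ∈ B := h.elim (fun h => absurd (sAq _ h) ha) (fun h => sBq _ h)
      have e' : τ x = 0 := τ0 hb
      rw [e', zero_mul, Bq0] at h
      exact absurd (h.elim (fun h => sAq _ h) (fun h => h ▸ hq.1)) ha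
  have kp : x ∈ (Fp x : Set X) → x ∈ A ∩ B ∧ x = p := fun h => by
    simp only [Fp, NonemptyCompacts.coe_sup] at h
    by_cases ha : x ∈ A
    · have e : σ x = 0 := σ0 ha
      rw [e, zero_mul, Ap0] at h
      have hb : x ∈ B := h.elim (fun h => h ▸ hp.2) (fun h => sBp _ h)
      have e' : τ x = 0 := τ0 hb
      rw [e', zero_mul, Bp0, union_self] at h
      exact ⟨⟨ha, hb⟩, h⟩
    · have hb : x ∈ B := h.elim (fun h => absurd (sAp _ h) ha) (fun h => sBp _ h)
      have e' : τ x = 0 := τ0 hb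
      rw [e', zero_mul, Bp0] at h
      exact absurd (h.elim (fun h => sAp _ h) (fun h => h ▸ hp.1)) ha
  split_ifs at hx with g1 g2
  · have := (kq hx).2
    rw [this, hαq] at g1; norm_num at g1
  · have hx' : x ∈ (Fq x : Set X) ∪ Fp x := hx
    have := hα x (hx'.elim (fun h => (kq h).1) (fun h => (kp h).1))
    rcases this with h | h
    · rw [h] at g1; norm_num at g1
    · rw [h] at g2; norm_num at g2
  · have := (kp hx).2
    rw [this, hαp] at g2; norm_num at g2

end Pool.Agent.H33.WardFP
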